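import Pool.Agent.H43.AsDefs

open Set Metric Filter Topology Module

namespace Pool.Agent.H43.As

variable {d : ℕ}

lemma dimA_eq {P : Set (E d) → Prop} (hP : ∀ U, IsOpen U → P U) {F : Set (E d)}
    (V : Submodule ℝ (E d)) (hV : F ⊆ V) {k : ℕ} (hk : finrank ℝ V = k) {K : ℝ} (hK : 1 < K)
    (h : ∀ N : ℕ, 1 ≤ N → ∃ δ > 0, ∃ x ∈ F, ∃ T : Finset (E d), ↑T ⊆ ball x (K * N * δ) ∩ F ∧
      N ^ k ≤ T.card ∧ ∀ a ∈ T, ∀ b ∈ T, dist a b ≤ δ → a = b) : dimA P F = k := by
  classical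
  subst hk
  set k := finrank ℝ V
  refine IsLeast.csInf_eq ⟨⟨Nat.cast_nonneg _, (8 * (k + 1) + 3) ^ k, by positivity,
    fun r R r0 rR x hx => ?_⟩, ?_⟩
  · set b := stdOrthonormalBasis ℝ V
    set h := r / (4 * (k + 1))
    have h0 : 0 < h := by positivity
    set A := Fintype.piFinset fun _ : Fin k => Finset.Icc (-⌈R / h⌉) ⌈R / h⌉
    refine ⟨A.image fun z => ball (x + ∑ i, (z i * h) • (b i : E d)) (r / 2), ?_, ?_, ?_⟩
    · simp only [Finset.forall_mem_image]
      intro z _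
      refine ⟨hP _ isOpen_ball, ediam_le fun a ha c hc => ?_⟩
      rw [edist_dist]
      exact ENNReal.ofReal_le_ofReal ((dist_triangle_right a c _).trans
        ((add_le_add (mem_ball.1 ha).le (mem_ball.1 hc).le).trans_eq (add_halves r)))
    · rintro y ⟨hy, hyF⟩
      set v : V := ⟨y - x, V.sub_mem (hV hyF) (hV hx)⟩
      have hv : ∀ i, |b.repr v i| ≤ R := fun i => by
        refine (PiLp.norm_apply_le (b.repr v) i).trans ?_
        rw [b.repr.norm_map]; exact (mem_ball_iff_norm.1 hy).le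
      simp only [Finset.set_biUnion_finset_image, mem_iUnion]
      refine ⟨fun i => ⌊b.repr v i / h⌋, Fintype.mem_piFinset.2 fun i => ?_, ?_⟩
      · have := abs_le.1 (hv i)
        have a := Int.le_ceil (R / h)
        refine Finset.mem_Icc.2 ⟨Int.le_floor.2 ?_, Int.floor_le_iff.2 ?_⟩
        · push_cast
          have : -R / h ≤ b.repr v i / h := by gcongr; exact this.1
          rw [neg_div] at this; linarith
        · have : b.repr v i / h ≤ R / h := by gcongr; exact this.2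
          linarith
      · have e : y - x = ∑ i, b.repr v i • (b i : E d) := by
          simpa [v] using (congrArg Subtype.val (b.sum_repr v)).symm
        rw [mem_ball_iff_norm, ← sub_sub, e, ← Finset.sum_sub_distrib]
        refine (norm_sum_le_of_le (n := fun _ => h) _ fun i _ => ?_).trans_lt ?_
        · rw [← sub_smul, norm_smul, ← Submodule.coe_norm, b.orthonormal.1 i, mul_one,
            Real.norm_eq_abs, abs_le]
          have a := (le_div_iff₀ h0).1 (Int.floor_le (b.repr v i / h))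
          have c := (div_lt_iff₀ h0).1 (Int.lt_floor_add_one (b.repr v i / h))
          constructor <;> linarith
        · have : (k + 1) * h = r / 4 := by simp only [h]; field_simp
          simp only [Finset.sum_const, Finset.card_univ, Fintype.card_fin, nsmul_eq_mul]
          linarith
    · refine le_trans (Nat.cast_le.2 Finset.card_image_le) ?_
      have q : 1 ≤ R / r := (one_le_div r0).2 rR.le
      have e : R / h = 4 * (k + 1) * (R / r) := by simp only [h]; field_simp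
      have p : 0 ≤ ⌈R / h⌉ := Int.ceil_nonneg (by rw [e]; positivity)
      rw [Fintype.card_piFinset, Finset.prod_const, Finset.card_univ, Fintype.card_fin,
        Real.rpow_natCast, ← mul_pow, Int.card_Icc]
      push_cast
      gcongr
      have : (((⌈R / h⌉ + 1 - -⌈R / h⌉).toNat : ℤ) : ℝ) = 2 * ⌈R / h⌉ + 1 := by
        rw [Int.toNat_of_nonneg (by omega)]; push_cast; ring
      rw [Int.cast_natCast] at this
      have := Int.ceil_lt_add_one (R / h)
      linarith
  · rintro s ⟨-, C, C0, hC⟩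
    by_contra hs
    push Not at hs
    have key : ∀ N : ℕ, 1 ≤ N → (N : ℝ) ^ (k - s) ≤ C * K ^ s := fun N hN => by
      obtain ⟨δ, δ0, x, hx, T, t1, t2, t3⟩ := h N hN
      have N1 : (1 : ℝ) ≤ N := by exact_mod_cast hN
      obtain ⟨𝒰, u1, u2, u3⟩ := hC δ (K * N * δ) δ0 (lt_mul_of_one_lt_left δ0 (by nlinarith)) x hx
      have : T.card ≤ 𝒰.card := by
        have := fun a : T => mem_iUnion₂.1 (u2 (t1 a.2))
        choose f f1 f2 using this
        rw [← Finset.card_attach]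
        refine Finset.card_le_card_of_injOn f (fun a _ => f1 a) fun a _ b _ e => Subtype.ext ?_
        refine t3 _ a.2 _ b.2 ((ENNReal.ofReal_le_ofReal_iff δ0.le).1 ?_)
        rw [← edist_dist]
        exact (edist_le_ediam_of_mem (f2 a) (e ▸ f2 b)).trans (u1 _ (f1 a)).2
      rw [Real.rpow_sub (by linarith), div_le_iff₀ (by positivity), Real.rpow_natCast, mul_assoc,
        ← Real.mul_rpow (by linarith) (by linarith)]
      rw [mul_div_cancel_right₀ _ δ0.ne'] at u3
      exact le_trans (by exact_mod_cast t2.trans this) u3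
    obtain ⟨N, h1, h2⟩ := ((((tendsto_rpow_atTop (sub_pos.2 hs)).comp
      tendsto_natCast_atTop_atTop).eventually_gt_atTop (C * K ^ s)).and (eventually_ge_atTop 1)).exists
    exact absurd (key N h2) h1.not_ge

lemma unit_sub {x y : E d} (hx : x ≠ 0) (hy : y ≠ 0) :
    ‖‖x‖⁻¹ • x - ‖y‖⁻¹ • y‖ ≤ 2 * ‖x - y‖ / ‖x‖ := by
  have a := norm_pos_iff.2 hx
  have b := norm_pos_iff.2 hy
  have e : ‖x‖⁻¹ • x - ‖y‖⁻¹ • y = ‖x‖⁻¹ • (x - y) + (‖x‖⁻¹ * (‖y‖ - ‖x‖) * ‖y‖⁻¹) • y := by
    have : ‖x‖⁻¹ * (‖y‖ - ‖x‖) * ‖y‖⁻¹ = ‖x‖⁻¹ - ‖y‖⁻¹ := by field_simp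
    rw [this]; module
  rw [e]
  refine (norm_add_le _ _).trans ?_
  simp only [norm_smul, norm_mul, norm_inv, Real.norm_eq_abs, abs_norm]
  have := abs_norm_sub_norm_le y x
  rw [norm_sub_rev y] at this
  have e2 : ‖x‖⁻¹ * |‖y‖ - ‖x‖| * ‖y‖⁻¹ * ‖y‖ = ‖x‖⁻¹ * |‖y‖ - ‖x‖| := by field_simp
  rw [e2, ← mul_add, ← div_eq_inv_mul]
  gcongr; linarith

lemma rot {u v : E d} (h : ‖u‖ = ‖v‖) (hu : u ≠ 0) (huv : u + v ≠ 0) :
    ∃ P : E d ≃ₗᵢ[ℝ] E d, LinearMap.det (P.toLinearEquiv : E d →ₗ[ℝ] E d) = 1 ∧ P u = v ∧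
      ∀ x, ‖P x - x‖ ≤ 4 * ‖u - v‖ / ‖u‖ * ‖x‖ := by
  refine ⟨(ℝ ∙ u).reflection.trans (ℝ ∙ (u + v)).reflection, ?_, ?_, fun x => ?_⟩
  · have f : ∀ a : E d, a ≠ 0 → finrank ℝ (ℝ ∙ a)ᗮ = d - 1 := fun a ha => by
      have := (ℝ ∙ a).finrank_add_finrank_orthogonal
      rw [finrank_span_singleton ha, finrank_euclideanSpace_fin] at this; omega
    have : (((ℝ ∙ u).reflection.trans (ℝ ∙ (u + v)).reflection).toLinearEquiv : E d →ₗ[ℝ] E d) =
      (ℝ ∙ (u + v)).reflection.toLinearMap ∘ₗ (ℝ ∙ u).reflection.toLinearMap := rfl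
    rw [this, LinearMap.det_comp, Submodule.det_reflection, Submodule.det_reflection, f _ hu, f _ huv,
      ← mul_pow]; simp
  · have := Submodule.reflection_sub (v := u) (w := -v) (by simpa using h)
    rw [Submodule.reflection_orthogonal_apply, sub_neg_eq_add, neg_inj] at this
    rw [LinearIsometryEquiv.trans_apply, Submodule.reflection_mem_subspace_eq_self
      (Submodule.mem_span_singleton_self u), this]
  · set y := (ℝ ∙ u).reflection x
    have e0 : x = (ℝ ∙ u).reflection y := (Submodule.reflection_reflection _ x).symm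
    have ny : ‖y‖ = ‖x‖ := LinearIsometryEquiv.norm_map _ _
    have f : ∀ a : E d, (ℝ ∙ a).reflection y =
        (2 * inner ℝ (‖a‖⁻¹ • a) y) • (‖a‖⁻¹ • a) - y := fun a => by
      rw [Submodule.reflection_singleton_apply, inner_smul_left, smul_smul, ← Nat.cast_smul_eq_nsmul ℝ,
        smul_smul]
      congr 2; simp; ring
    have g := unit_sub (x := (2 : ℝ) • u) (by simpa using hu) huv
    have n0 := norm_pos_iff.2 hu
    have e1 : ‖(2 : ℝ) • u‖⁻¹ • (2 : ℝ) • u = ‖u‖⁻¹ • u := by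
      rw [norm_smul, smul_smul]; congr 1; simp
    have e2 : (2 : ℝ) • u - (u + v) = u - v := by module
    rw [e1, e2, norm_smul, Real.norm_two, mul_div_mul_left _ _ two_ne_zero, norm_sub_rev] at g
    have n1 := norm_smul_inv_norm (𝕜 := ℝ) hu
    have n2 := norm_smul_inv_norm (𝕜 := ℝ) huv
    simp only [RCLike.ofReal_real_eq_id, id] at n1 n2
    rw [LinearIsometryEquiv.trans_apply, ← ny]
    nth_rewrite 2 [e0]
    rw [f, f]
    generalize ‖u‖⁻¹ • u = p at *
    generalize ‖u + v‖⁻¹ • (u + v) = q at *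
    have e3 : (2 * inner ℝ q y) • q - y - ((2 * inner ℝ p y) • p - y) =
        (2 * inner ℝ (q - p) y) • q + (2 * inner ℝ p y) • (q - p) := by
      rw [inner_sub_left]; module
    rw [e3]
    refine (norm_add_le _ _).trans ?_
    simp only [norm_smul, norm_mul, Real.norm_two, n2]
    have a1 := norm_inner_le_norm (𝕜 := ℝ) (q - p) y
    have a2 := norm_inner_le_norm (𝕜 := ℝ) p y
    rw [n1] at a2
    have := mul_le_mul_of_nonneg_right g (norm_nonneg y)
    rw [mul_div_assoc]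
    nlinarith [norm_nonneg (q - p)]

lemma recur (O : E d ≃ₗᵢ[ℝ] E d) {ε : ℝ} (hε : 0 < ε) :
    ∃ n, ∀ x, ‖(O ^ (n + 1)) x - x‖ ≤ ε * ‖x‖ := by
  set f : ℕ → E d →L[ℝ] E d := fun n => (O ^ n).toLinearIsometry.toContinuousLinearMap
  obtain ⟨a, -, φ, hφ, h⟩ := (isCompact_closedBall (0 : E d →L[ℝ] E d) 1).tendsto_subseq
    (x := f) fun n => mem_closedBall_zero_iff.2 (LinearIsometry.norm_toContinuousLinearMap_le _)
  obtain ⟨N, hN⟩ := cauchySeq_iff'.1 h.cauchySeq ε hε
  obtain ⟨n, hn⟩ := Nat.exists_eq_add_of_lt (hφ (Nat.lt_succ_self N))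
  refine ⟨n, fun x => ?_⟩
  have := (f (φ (N + 1)) - f (φ N)).le_of_opNorm_le
    ((dist_eq_norm _ _).symm.trans_le (hN (N + 1) (Nat.le_succ N)).le) x
  rw [← (O ^ φ N).norm_map, map_sub, ← Function.comp_apply (f := O ^ φ N) (g := O ^ (n + 1)),
    ← LinearIsometryEquiv.coe_mul, ← pow_add, ← add_assoc, ← hn]
  exact this

end Pool.Agent.H43.As
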