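import Mathlib

open Set Metric

namespace Pool.Agent.H43.As

abbrev E (d : ℕ) := EuclideanSpace ℝ (Fin d)

/-- the unit cube -/
def cube (d : ℕ) : Set (E d) := {x | ∀ i, x i ∈ Icc (0 : ℝ) 1}

/-- orthogonal maps -/
abbrev Iso (d : ℕ) := E d ≃ₗᵢ[ℝ] E d

/-- linear subspaces -/
abbrev Sub (d : ℕ) := Submodule ℝ (E d)

/-- the action of an orthogonal map -/
noncomputable def act {d : ℕ} (O : Iso d) (x : E d) : E d := O x

/-- the similarity `x ↦ c • O x + t` -/
noncomputable def sim {d : ℕ} (c : ℝ) (O : Iso d) (t x : E d) : E d := c • act O x + t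

/-- dimension of a subspace -/
noncomputable def rank {d : ℕ} (V : Sub d) : ℕ := Module.finrank ℝ V

/-- orthogonal projection onto a subspace -/
noncomputable def proj {d : ℕ} (V : Sub d) (x : E d) : E d := V.starProjection x

/-- `F` is the attractor of the similarities `x ↦ c i • O i x + t i` of the unit cube -/
structure SelfSim {d : ℕ} {ι : Type} (c : ι → ℝ) (O : ι → Iso d) (t : ι → E d)
    (F : Set (E d)) : Prop where
  ratio : ∀ i, 0 < c i ∧ c i < 1
  maps : ∀ i, ∀ x ∈ cube d, sim (c i) (O i) (t i) x ∈ cube d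
  ne : F.Nonempty
  cpt : IsCompact F
  sub : F ⊆ cube d
  eq : F = ⋃ i, sim (c i) (O i) (t i) '' F

/-- Assouad dimension, with covers by sets having the property `P` -/
noncomputable def dimA {d : ℕ} (P : Set (E d) → Prop) (F : Set (E d)) : ℝ :=
  sInf {s | 0 ≤ s ∧ ∃ C > 0, ∀ r R : ℝ, 0 < r → r < R → ∀ x ∈ F, ∃ 𝒰 : Finset (Set (E d)),
    (∀ U ∈ 𝒰, P U ∧ ediam U ≤ ENNReal.ofReal r) ∧ ball x R ∩ F ⊆ ⋃ U ∈ 𝒰, U ∧
      (𝒰.card : ℝ) ≤ C * (R / r) ^ s}

end Pool.Agent.H43.As
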