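import Pool.Agent.H43.ExCap

set_option autoImplicit false
set_option linter.unusedSectionVars false

namespace Pool.Agent.H43.Avg

open MeasureTheory ProbabilityTheory Filter Topology Finset Pool.Agent.H43.Ex

noncomputable section

variable {X : Type} [MeasurableSpace X] {ν : Measure X} [IsProbabilityMeasure ν]
  {T : Module.End ℝ (X → ℝ)} {f g r : X → ℝ}

structure Op (ν : Measure X) (T : Module.End ℝ (X → ℝ)) : Prop where
  mono : ∀ f g, f ≤ g → T f ≤ T g
  one : T 1 = 1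
  meas : ∀ f, Measurable f → Measurable (T f)
  symm : ∀ f g, BM f → BM g → ∫ x, T f x * g x ∂ν = ∫ x, f x * T g x ∂ν
  psd : ∀ f, BM f → 0 ≤ ∫ x, T f x * f x ∂ν

lemma bm_add (h : BM f) (h' : BM g) : BM fun x => f x + g x := by
  simpa using h.sub ((BM.const (-1)).mul h')

lemma bm_sq (h : BM f) : BM fun x => f x ^ 2 := by simpa [sq] using h.mul h

lemma Op.const (h : Op ν T) (c : ℝ) : T (fun _ => c) = fun _ => c := by
  have : (fun _ : X => c) = c • (1 : X → ℝ) := by ext; simp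
  rw [this, map_smul, h.one]

lemma Op.abs_le (h : Op ν T) {C : ℝ} (hf : ∀ x, |f x| ≤ C) (x : X) : |T f x| ≤ C := by
  have h1 := h.mono f (fun _ => C) (fun x => (_root_.abs_le.1 (hf x)).2) x
  have h2 := h.mono (fun _ => -C) f (fun x => (_root_.abs_le.1 (hf x)).1) x
  rw [h.const] at h1 h2
  exact _root_.abs_le.2 ⟨h2, h1⟩

lemma Op.bm (h : Op ν T) (hf : BM f) : BM (T f) :=
  let ⟨C, hC⟩ := hf.2
  ⟨h.meas f hf.1, C, h.abs_le hC⟩

lemma Op.pow_bm (h : Op ν T) (hf : BM f) (n : ℕ) : BM ((T ^ n) f) := by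
  induction n with
  | zero => simpa
  | succ n ih => rw [pow_succ', Module.End.mul_apply]; exact h.bm ih

lemma Op.pow_abs (h : Op ν T) {C : ℝ} (hf : ∀ x, |f x| ≤ C) (n : ℕ) : ∀ x, |(T ^ n) f x| ≤ C := by
  induction n with
  | zero => simpa
  | succ n ih => rw [pow_succ', Module.End.mul_apply]; exact h.abs_le ih

lemma Op.pow_mono (h : Op ν T) (hf : f ≤ g) (n : ℕ) : (T ^ n) f ≤ (T ^ n) g := by
  induction n with
  | zero => simpa
  | succ n ih => rw [pow_succ', Module.End.mul_apply, Module.End.mul_apply]; exact h.mono _ _ ih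

lemma Op.pow_const (h : Op ν T) (c : ℝ) (n : ℕ) : (T ^ n) (fun _ => c) = fun _ => c := by
  induction n with
  | zero => simp
  | succ n ih => rw [pow_succ', Module.End.mul_apply, ih, h.const]

lemma Op.inv (h : Op ν T) (hf : BM f) : ∫ x, T f x ∂ν = ∫ x, f x ∂ν := by
  have := h.symm f (fun _ => 1) hf (BM.const 1)
  simpa [h.const] using this

lemma Op.contr (h : Op ν T) (hf : BM f) : ∫ x, T f x ^ 2 ∂ν ≤ ∫ x, f x ^ 2 ∂ν := by
  rw [← h.inv (bm_sq hf)]
  refine integral_mono ((bm_sq (h.bm hf)).int ν) ((h.bm (bm_sq hf)).int ν) fun x => ?_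
  have h1 := h.mono ((2 * T f x) • f - fun _ => T f x ^ 2) (fun y => f y ^ 2)
    (fun y => by simp only [Pi.sub_apply, Pi.smul_apply, smul_eq_mul]; nlinarith [sq_nonneg (f y - T f x)]) x
  rw [map_sub, map_smul, h.const] at h1
  simp only [Pi.sub_apply, Pi.smul_apply, smul_eq_mul] at h1
  nlinarith

/-- Garsia's maximal function. -/
def MM (T : Module.End ℝ (X → ℝ)) (g : X → ℝ) : ℕ → X → ℝ
  | 0 => 0
  | n + 1 => fun x => max 0 (g x + T (MM T g n) x)

lemma Op.mm (h : Op ν T) (hg : BM g) (n : ℕ) : BM (MM T g n) ∧ 0 ≤ MM T g n ∧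
    MM T g n ≤ MM T g (n + 1) ∧ ∀ k ≤ n, ∑ i ∈ range k, (T ^ i) g ≤ MM T g n := by
  induction n with
  | zero => exact ⟨BM.const 0, le_rfl, fun x => le_max_left _ _, fun k hk => by simp [Nat.le_zero.1 hk, MM]⟩
  | succ n ih =>
    obtain ⟨h1, h2, h3, h4⟩ := ih
    obtain ⟨hm, C, hC⟩ := bm_add hg (h.bm h1)
    refine ⟨⟨measurable_const.max hm, C, fun x => ?_⟩, fun x => le_max_left _ _,
      fun x => max_le_max le_rfl (add_le_add le_rfl (h.mono _ _ h3 x)), fun k hk x => ?_⟩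
    · have := hC x
      simp only [MM]
      rcases le_total 0 (g x + T (MM T g n) x) with h5 | h5
      · rwa [max_eq_right h5]
      · rw [max_eq_left h5, abs_zero]; exact (abs_nonneg _).trans this
    · rcases k with _ | k
      · simp [MM]
      · refine le_max_of_le_right ?_
        have := h.mono _ _ (h4 k (by omega)) x
        rw [map_sum] at this
        rw [sum_range_succ']
        simp only [pow_succ', Module.End.mul_apply, pow_zero, Module.End.one_apply, Pi.add_apply]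
        linarith

lemma Op.hopf (h : Op ν T) (hr : BM r) {c : ℝ} (hc : 0 ≤ c) (n : ℕ) :
    c * ν.real {x | ∃ k ≤ n, k * c < ∑ i ∈ range k, (T ^ i) (fun y => r y ^ 2) x} ≤ ∫ x, r x ^ 2 ∂ν := by
  have hg : BM fun y => r y ^ 2 - c := (bm_sq hr).sub (BM.const c)
  set g := fun y => r y ^ 2 - c with hgd
  obtain ⟨h1, h2, h3, h4⟩ := h.mm hg n
  obtain ⟨h5, h6, -, -⟩ := h.mm hg (n + 1)
  set E := {x | 0 < MM T g (n + 1) x}
  have hE : MeasurableSet E := measurableSet_lt measurable_const h5.1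
  have k1 : ν.real {x | ∃ k ≤ n, k * c < ∑ i ∈ range k, (T ^ i) (fun y => r y ^ 2) x} ≤ ν.real E := by
    refine measureReal_mono (fun x ⟨k, hk, hx⟩ => ?_) (measure_ne_top _ _)
    refine lt_of_lt_of_le ?_ ((h4 k hk x).trans (h3 x))
    have : ∀ i, (T ^ i) g x = (T ^ i) (fun y => r y ^ 2) x - c := fun i => by
      have : g = (fun y => r y ^ 2) - fun _ => c := rfl
      rw [this, map_sub, h.pow_const]; rfl
    simp only [Finset.sum_apply, this, sum_sub_distrib, sum_const, card_range, nsmul_eq_mul]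
    linarith
  have k2 : ∀ x, MM T g (n + 1) x - T (MM T g (n + 1)) x + E.indicator (fun _ => c) x ≤ r x ^ 2 := by
    intro x
    have a1 := h.mono _ _ h3 x
    have a2 := h.mono _ _ h6 x
    rw [map_zero] at a2
    by_cases hx : x ∈ E
    · rw [Set.indicator_of_mem hx]
      have : MM T g (n + 1) x = g x + T (MM T g n) x := by
        have hx' : 0 < max 0 (g x + T (MM T g n) x) := hx
        simp only [MM]
        exact max_eq_right (by simpa using hx'.le.trans_eq (max_eq_right (by simpa using hx' |> fun h => (lt_max_iff.1 h).elim (fun h => absurd h (lt_irrefl _)) le_of_lt)))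
      simp only [hgd] at this
      linarith
    · rw [Set.indicator_of_notMem hx]
      have : MM T g (n + 1) x ≤ 0 := not_lt.1 hx
      have a3 : (0 : ℝ) ≤ T (MM T g (n + 1)) x := a2
      nlinarith [sq_nonneg (r x)]
  have k3 := integral_mono (((h5.int ν).sub ((h.bm h5).int ν)).add ((integrable_const c).indicator hE))
    ((bm_sq hr).int ν) k2
  rw [integral_add' ((h5.int ν).sub ((h.bm h5).int ν)) ((integrable_const c).indicator hE),
    integral_sub' (h5.int ν) ((h.bm h5).int ν), h.inv h5, integral_indicator hE] at k3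
  simp only [integral_const, MeasurableSet.univ, measureReal_restrict_apply, Set.univ_inter,
    smul_eq_mul] at k3
  nlinarith

lemma int_sq_sub (hf : BM f) (hg : BM g) :
    ∫ x, (f x - g x) ^ 2 ∂ν = ∫ x, f x ^ 2 ∂ν - 2 * ∫ x, f x * g x ∂ν + ∫ x, g x ^ 2 ∂ν := by
  rw [← integral_const_mul, ← integral_sub ((bm_sq hf).int ν) (((hf.mul hg).int ν).const_mul 2),
    ← integral_add (((bm_sq hf).sub ((BM.const 2).mul (hf.mul hg))).int ν) ((bm_sq hg).int ν)]
  congr 1; ext; ring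

lemma Op.step (h : Op ν T) (hf : BM f) : ∫ x, (T f x - f x) ^ 2 ∂ν ≤
    ∫ x, f x ^ 2 ∂ν - 2 * ∫ x, T f x ^ 2 ∂ν + ∫ x, T (T f) x ^ 2 ∂ν := by
  have h1 := h.bm hf
  have h2 := h.bm h1
  have hw : BM (f - T f) := hf.sub h1
  have a1 := h.psd _ hw
  have a2 := int_sq_sub (ν := ν) hf h2
  rw [← h.symm f (T f) hf h1] at a2
  have a3 : ∫ x, (T f x - f x) ^ 2 + 2 * (T (f - T f) x * (f - T f) x) ∂ν ≤ ∫ x, (f x - T (T f) x) ^ 2 ∂ν := by
    refine integral_mono (((bm_sq (h1.sub hf)).int ν).add ((((h.bm hw).mul hw).int ν).const_mul 2))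
      ((bm_sq (hf.sub h2)).int ν) fun x => ?_
    simp only [map_sub, Pi.sub_apply]
    nlinarith [sq_nonneg (T f x - T (T f) x)]
  rw [integral_add ((bm_sq (h1.sub hf)).int ν) ((((h.bm hw).mul hw).int ν).const_mul 2),
    integral_const_mul] at a3
  simp only [← sq] at a2
  linarith

lemma psucc (n : ℕ) (r : X → ℝ) : (T ^ (n + 1)) r = T ((T ^ n) r) := by
  rw [pow_succ', Module.End.mul_apply]

def bb (ν : Measure X) (T : Module.End ℝ (X → ℝ)) (r : X → ℝ) (n : ℕ) : ℝ := ∫ x, (T ^ n) r x ^ 2 ∂ν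

lemma bb_nonneg (n : ℕ) : 0 ≤ bb ν T r n := integral_nonneg fun _ => sq_nonneg _

lemma Op.bb_anti (h : Op ν T) (hr : BM r) : Antitone (bb ν T r) :=
  antitone_nat_of_succ_le fun n => by
    simp only [bb, psucc]; exact h.contr (h.pow_bm hr n)

lemma Op.gfun (h : Op ν T) (hr : BM r) (n : ℕ) :
    ∑ j ∈ range n, (j + 1 : ℝ) * ∫ x, ((T ^ (j + 1)) r x - (T ^ j) r x) ^ 2 ∂ν ≤ ∫ x, r x ^ 2 ∂ν := by
  have k : ∀ n : ℕ, ∑ j ∈ range n, (j + 1 : ℝ) * ∫ x, ((T ^ (j + 1)) r x - (T ^ j) r x) ^ 2 ∂ν ≤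
      n * (bb ν T r (n + 1) - bb ν T r n) - bb ν T r n + bb ν T r 0 := by
    intro n
    induction n with
    | zero => simp
    | succ n ih =>
      have := h.step (h.pow_bm hr n)
      rw [sum_range_succ]
      simp only [bb, psucc] at ih ⊢
      push_cast
      nlinarith [mul_le_mul_of_nonneg_left this (by positivity : (0 : ℝ) ≤ n + 1)]
  have h1 := h.bb_anti hr (Nat.le_succ n)
  have h2 := bb_nonneg (ν := ν) (T := T) (r := r) n
  have h3 : bb ν T r 0 = ∫ x, r x ^ 2 ∂ν := by simp [bb]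
  nlinarith [k n, mul_nonneg (Nat.cast_nonneg (α := ℝ) n) (sub_nonneg.2 h1)]

lemma cheb (hf : BM f) (h0 : ∀ x, 0 ≤ f x) (c : ℝ) : c * ν.real {x | c < f x} ≤ ∫ x, f x ∂ν := by
  rcases le_total c 0 with hc | hc
  · exact (mul_nonpos_of_nonpos_of_nonneg hc measureReal_nonneg).trans (integral_nonneg h0)
  exact (mul_le_mul_of_nonneg_left (measureReal_mono (fun x (hx : c < f x) => hx.le) (measure_ne_top _ _)) hc).trans
    (mul_meas_ge_le_integral_of_nonneg (ae_of_all _ h0) (hf.int ν) c)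

lemma abel (u : ℕ → ℝ) (k : ℕ) :
    (k + 1 : ℝ) * u k = ∑ i ∈ range (k + 1), u i + ∑ j ∈ range k, (j + 1 : ℝ) * (u (j + 1) - u j) := by
  induction k with
  | zero => simp
  | succ k ih => rw [sum_range_succ, sum_range_succ (fun j : ℕ => (j + 1 : ℝ) * (u (j + 1) - u j))]; push_cast; linarith

lemma Op.maxi (h : Op ν T) (hr : BM r) {ε : ℝ} (hε : 0 < ε) (K : ℕ) :
    ε ^ 2 * ν.real {x | ∃ k ≤ K, 2 * ε < |(T ^ k) r x|} ≤ 2 * ∫ x, r x ^ 2 ∂ν := by
  have hG : BM fun x => ∑ j ∈ range K, (j + 1 : ℝ) * ((T ^ (j + 1)) r x - (T ^ j) r x) ^ 2 :=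
    BM.sum (fun j : ℕ => (BM.const _).mul (bm_sq ((h.pow_bm hr _).sub (h.pow_bm hr _)))) _
  have a1 := cheb (ν := ν) hG (fun x => sum_nonneg fun j _ => by positivity) (ε ^ 2)
  rw [integral_finsetSum _ fun j _ => ((BM.const _).mul (bm_sq ((h.pow_bm hr _).sub (h.pow_bm hr _)))).int ν] at a1
  simp only [integral_const_mul] at a1
  have a2 := h.gfun hr K
  have a3 := h.hopf hr (sq_nonneg ε) (K + 1)
  have a4 : ν.real {x | ∃ k ≤ K, 2 * ε < |(T ^ k) r x|} ≤ ν.real ({x | ε ^ 2 < ∑ j ∈ range K,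
      (j + 1 : ℝ) * ((T ^ (j + 1)) r x - (T ^ j) r x) ^ 2} ∪ {x | ∃ k ≤ K + 1, k * ε ^ 2 <
      ∑ i ∈ range k, (T ^ i) (fun y => r y ^ 2) x}) := by
    refine measureReal_mono (fun x ⟨k, hk, hx⟩ => ?_) (measure_ne_top _ _)
    by_contra hn
    simp only [Set.mem_union, Set.mem_ofPred_eq, not_or, not_lt, not_exists, not_and] at hn
    obtain ⟨b1, b2⟩ := hn
    have b3 := b2 (k + 1) (by omega)
    have b4 := abel (fun i => (T ^ i) r x) k
    have b5 : ∀ i, 2 * ε * |(T ^ i) r x| ≤ ε ^ 2 + (T ^ i) (fun y => r y ^ 2) x := fun i => by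
      have c1 := h.pow_mono (f := (2 * ε) • r) (g := (fun _ => ε ^ 2) + fun y => r y ^ 2)
        (fun y => by simp only [Pi.add_apply, Pi.smul_apply, smul_eq_mul]; nlinarith [sq_nonneg (r y - ε)]) i x
      have c2 := h.pow_mono (f := (-(2 * ε)) • r) (g := (fun _ => ε ^ 2) + fun y => r y ^ 2)
        (fun y => by simp only [Pi.add_apply, Pi.smul_apply, smul_eq_mul]; nlinarith [sq_nonneg (r y + ε)]) i x
      rw [map_smul, map_add, h.pow_const] at c1 c2
      simp only [Pi.add_apply, Pi.smul_apply, smul_eq_mul] at c1 c2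
      rcases abs_cases ((T ^ i) r x) with c | c <;> rw [c.1] <;> linarith
    have b6 : 2 * ε * |∑ i ∈ range (k + 1), (T ^ i) r x| ≤ (k + 1) * ε ^ 2 + (k + 1) * ε ^ 2 := by
      calc _ ≤ ∑ i ∈ range (k + 1), 2 * ε * |(T ^ i) r x| := by
            rw [← mul_sum]; gcongr; exact abs_sum_le_sum_abs _ _
        _ ≤ ∑ i ∈ range (k + 1), (ε ^ 2 + (T ^ i) (fun y => r y ^ 2) x) := sum_le_sum fun i _ => b5 i
        _ ≤ _ := by
            rw [sum_add_distrib]; push_cast at b3; simp only [sum_const, card_range, nsmul_eq_mul]; push_cast; linarith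
    have b7 : 2 * ε * |∑ j ∈ range k, (j + 1 : ℝ) * ((T ^ (j + 1)) r x - (T ^ j) r x)| ≤
        (k + 1) * ε ^ 2 + (k + 1) * ε ^ 2 := by
      have c0 : ∑ j ∈ range k, (j + 1 : ℝ) * ((T ^ (j + 1)) r x - (T ^ j) r x) ^ 2 ≤ ε ^ 2 :=
        (sum_le_sum_of_subset_of_nonneg (range_subset_range.2 hk) fun j _ _ => by positivity).trans b1
      calc _ ≤ ∑ j ∈ range k, 2 * ε * |(j + 1 : ℝ) * ((T ^ (j + 1)) r x - (T ^ j) r x)| := by
            rw [← mul_sum]; gcongr; exact abs_sum_le_sum_abs _ _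
        _ ≤ ∑ j ∈ range k, (ε ^ 2 + (k + 1) * ((j + 1 : ℝ) * ((T ^ (j + 1)) r x - (T ^ j) r x) ^ 2)) := by
            refine sum_le_sum fun j hj => ?_
            have c1 : (j + 1 : ℝ) ≤ k + 1 := by have := (mem_range.1 hj).le; exact_mod_cast by omega
            have c2 := sq_nonneg (|(j + 1 : ℝ) * ((T ^ (j + 1)) r x - (T ^ j) r x)| - ε)
            rw [sub_sq, sq_abs] at c2
            have c3 := mul_le_mul_of_nonneg_right c1
              (by positivity : 0 ≤ (j + 1 : ℝ) * ((T ^ (j + 1)) r x - (T ^ j) r x) ^ 2)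
            nlinarith
        _ ≤ _ := by
            rw [sum_add_distrib, ← mul_sum]; simp only [sum_const, card_range, nsmul_eq_mul]
            nlinarith [mul_le_mul_of_nonneg_left c0 (by positivity : (0 : ℝ) ≤ k + 1), sq_nonneg ε]
    have b8 : (k + 1 : ℝ) * |(T ^ k) r x| ≤ |∑ i ∈ range (k + 1), (T ^ i) r x| +
        |∑ j ∈ range k, (j + 1 : ℝ) * ((T ^ (j + 1)) r x - (T ^ j) r x)| := by
      rw [← abs_of_pos (by positivity : (0 : ℝ) < k + 1), ← abs_mul, b4]; exact abs_add_le _ _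
    have b9 := mul_lt_mul_of_pos_left hx (by positivity : (0 : ℝ) < ε * (k + 1))
    nlinarith [mul_le_mul_of_nonneg_left b8 hε.le]
  have a5 := mul_le_mul_of_nonneg_left (a4.trans (measureReal_union_le _ _)) (sq_nonneg ε)
  linarith

lemma Op.pow_symm (h : Op ν T) (i : ℕ) : ∀ f g, BM f → BM g →
    ∫ x, (T ^ i) f x * g x ∂ν = ∫ x, f x * (T ^ i) g x ∂ν := by
  induction i with
  | zero => simp
  | succ i ih =>
    intro f g hf hg
    conv_lhs => rw [pow_succ', Module.End.mul_apply]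
    rw [h.symm _ _ (h.pow_bm hf i) hg, ih _ _ hf (h.bm hg), pow_succ, Module.End.mul_apply]

lemma Op.cauchy (h : Op ν T) (hg : BM g) {ε : ℝ} (hε : 0 < ε) (m K : ℕ) :
    ε ^ 2 * ν.real {x | ∃ k ≤ K, 5 * ε < |(T ^ (m + k)) g x - (T ^ m) g x|} ≤
      2 * (bb ν T g m - ⨅ n, bb ν T g n) := by
  have hb : BddBelow (Set.range (bb ν T g)) := ⟨0, by rintro _ ⟨n, rfl⟩; exact bb_nonneg n⟩
  have key : ∀ i : ℕ, ε ^ 2 * ν.real {x | ∃ k ≤ K, 5 * ε < |(T ^ (m + k)) g x - (T ^ m) g x|} ≤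
      2 * (bb ν T g m - ⨅ n, bb ν T g n) + K * (K * ∫ x, g x ^ 2 ∂ν) * (1 / (i + 1)) := by
    intro i
    set n := m + (i + i)
    have hr : BM ((T ^ m) g - (T ^ n) g) := (h.pow_bm hg m).sub (h.pow_bm hg n)
    have a1 := h.maxi hr hε K
    have a2 : ∫ x, ((T ^ m) g - (T ^ n) g) x ^ 2 ∂ν ≤ bb ν T g m - ⨅ n, bb ν T g n := by
      simp only [Pi.sub_apply]
      rw [int_sq_sub (h.pow_bm hg m) (h.pow_bm hg n)]
      have c1 : ∫ x, (T ^ m) g x * (T ^ n) g x ∂ν = bb ν T g (m + i) := by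
        have : (T ^ n) g = (T ^ i) ((T ^ (m + i)) g) := by
          rw [← Module.End.mul_apply, ← pow_add]; congr 2; omega
        rw [this, ← h.pow_symm i _ _ (h.pow_bm hg m) (h.pow_bm hg _), ← Module.End.mul_apply, ← pow_add,
          add_comm i m]
        simp [bb, sq]
      have c2 := h.bb_anti hg (show m + i ≤ n by omega)
      have c3 := ciInf_le hb (m + i)
      rw [c1]
      change bb ν T g m - _ + bb ν T g n ≤ _
      linarith
    have hD : ∀ j, BM fun x => ((T ^ (n + j + 1)) g x - (T ^ (n + j)) g x) ^ 2 :=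
      fun j => bm_sq ((h.pow_bm hg _).sub (h.pow_bm hg _))
    have a3 := cheb (ν := ν) ((BM.const (K : ℝ)).mul (BM.sum hD (range K)))
      (fun x => mul_nonneg (by positivity) (sum_nonneg fun j _ => sq_nonneg _)) (ε ^ 2)
    rw [integral_const_mul, integral_finsetSum _ fun j _ => (hD j).int ν] at a3
    have a4 : ∑ j ∈ range K, ∫ x, ((T ^ (n + j + 1)) g x - (T ^ (n + j)) g x) ^ 2 ∂ν ≤
        (K * ∫ x, g x ^ 2 ∂ν) * (1 / (i + 1)) := by
      refine (sum_le_card_nsmul _ _ ((∫ x, g x ^ 2 ∂ν) * (1 / (i + 1))) fun j _ => ?_).trans_eq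
        (by simp [mul_assoc])
      have c1 := (single_le_sum (f := fun j : ℕ => (j + 1 : ℝ) * ∫ x, ((T ^ (j + 1)) g x - (T ^ j) g x) ^ 2 ∂ν)
        (fun j _ => mul_nonneg (by positivity) (integral_nonneg fun _ => sq_nonneg _))
        (self_mem_range_succ (n + j))).trans (h.gfun hg _)
      have c2 : (i + 1 : ℝ) ≤ (n + j : ℕ) + 1 := by exact_mod_cast by omega
      have c3 : 0 ≤ ∫ x, ((T ^ (n + j + 1)) g x - (T ^ (n + j)) g x) ^ 2 ∂ν :=
        integral_nonneg fun _ => sq_nonneg _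
      rw [mul_one_div, le_div_iff₀ (by positivity)]
      nlinarith
    have a5 : ν.real {x | ∃ k ≤ K, 5 * ε < |(T ^ (m + k)) g x - (T ^ m) g x|} ≤
        ν.real ({x | ∃ k ≤ K, 2 * ε < |(T ^ k) ((T ^ m) g - (T ^ n) g) x|} ∪
        {x | ε ^ 2 < K * ∑ j ∈ range K, ((T ^ (n + j + 1)) g x - (T ^ (n + j)) g x) ^ 2}) := by
      refine measureReal_mono (fun x ⟨k, hk, hx⟩ => ?_) (measure_ne_top _ _)
      by_contra hn
      simp only [Set.mem_union, Set.mem_ofPred_eq, not_or, not_lt, not_exists, not_and] at hn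
      obtain ⟨b1, b2⟩ := hn
      have b3 := b1 k hk
      have b4 := b1 0 (Nat.zero_le _)
      simp only [map_sub, ← Module.End.mul_apply, ← pow_add, Pi.sub_apply, zero_add, add_comm k] at b3 b4
      have b5 := sum_range_sub (fun j => (T ^ (n + j)) g x) k
      have b6 := sq_sum_le_card_mul_sum_sq (s := range k)
        (f := fun j => (T ^ (n + (j + 1))) g x - (T ^ (n + j)) g x)
      rw [b5, card_range] at b6
      have b7 : ((T ^ (n + k)) g x - (T ^ (n + 0)) g x) ^ 2 ≤ ε ^ 2 := by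
        refine b6.trans (le_trans ?_ b2)
        exact mul_le_mul (by exact_mod_cast hk) (sum_le_sum_of_subset_of_nonneg (range_subset_range.2 hk)
          fun j _ _ => sq_nonneg _) (sum_nonneg fun _ _ => sq_nonneg _) (by positivity)
      have b8 := abs_le_of_sq_le_sq' b7 hε.le
      rw [add_zero] at b8
      rw [_root_.abs_le] at b3 b4
      rcases abs_cases ((T ^ (m + k)) g x - (T ^ m) g x) with c | c <;> rw [c.1] at hx <;> linarith
    have a6 := mul_le_mul_of_nonneg_left (a5.trans (measureReal_union_le _ _)) (sq_nonneg ε)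
    have a7 := mul_le_mul_of_nonneg_left a4 (Nat.cast_nonneg (α := ℝ) K)
    linarith
  have := (tendsto_one_div_add_atTop_nhds_zero_nat.const_mul ((K : ℝ) * (K * ∫ x, g x ^ 2 ∂ν))).const_add
    (2 * (bb ν T g m - ⨅ n, bb ν T g n))
  simpa using ge_of_tendsto' this key

theorem Op.ae_conv (h : Op ν T) (hg : BM g) :
    ∀ᵐ x ∂ν, ∃ L, Tendsto (fun n => (T ^ n) g x) atTop (𝓝 L) := by
  have hb : BddBelow (Set.range (bb ν T g)) := ⟨0, by rintro _ ⟨n, rfl⟩; exact bb_nonneg n⟩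
  have key : ∀ ε > 0, ∀ᵐ x ∂ν, ∃ m, ∀ k, |(T ^ (m + k)) g x - (T ^ m) g x| ≤ 5 * ε := by
    intro ε hε
    rw [ae_iff]
    have h1 : Tendsto (fun m => ENNReal.ofReal (2 * (bb ν T g m - ⨅ n, bb ν T g n) / ε ^ 2)) atTop (𝓝 0) := by
      have := (((tendsto_atTop_ciInf (h.bb_anti hg) hb).sub_const (⨅ n, bb ν T g n)).const_mul 2).div_const (ε ^ 2)
      simpa using ENNReal.tendsto_ofReal this
    refine le_antisymm (ge_of_tendsto' h1 fun m => ?_) (by simp)
    refine (measure_mono (t := ⋃ K, {x | ∃ k ≤ K, 5 * ε < |(T ^ (m + k)) g x - (T ^ m) g x|}) fun x hx => ?_).trans ?_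
    · simp only [Set.mem_ofPred_eq, not_exists, not_forall, not_le] at hx
      obtain ⟨k, hk⟩ := hx m
      exact Set.mem_iUnion.2 ⟨k, k, le_rfl, hk⟩
    · rw [Monotone.measure_iUnion fun a b hab x hx => hx.imp fun k hk => ⟨hk.1.trans hab, hk.2⟩]
      refine iSup_le fun K => ?_
      rw [← ofReal_measureReal (measure_ne_top _ _)]
      refine ENNReal.ofReal_le_ofReal ?_
      rw [le_div_iff₀ (by positivity), mul_comm]
      exact h.cauchy hg hε m K
  filter_upwards [ae_all_iff.2 fun n : ℕ => key (1 / (n + 1)) (by positivity)] with x hx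
  refine cauchySeq_tendsto_of_complete (Metric.cauchySeq_iff'.2 fun ε hε => ?_)
  obtain ⟨n, hn⟩ := exists_nat_one_div_lt (show 0 < ε / 5 by positivity)
  obtain ⟨m, hm⟩ := hx n
  refine ⟨m, fun k hk => ?_⟩
  obtain ⟨k, rfl⟩ := Nat.exists_eq_add_of_le hk
  rw [Real.dist_eq]
  linarith [hm k]

end

end Pool.Agent.H43.Avg
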