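import Mathlib

set_option autoImplicit false
set_option linter.unusedSectionVars false

namespace Pool.Agent.H43.Avg

open MeasureTheory Filter Topology Finset Real
open scoped Nat

noncomputable section

lemma gron {ι : Type} {u : ℝ → ι → ℝ} {K : ℝ} (hK : 0 ≤ K) (h0 : ∀ i, u 0 i = 0)
    (h : ∀ t h B, 0 ≤ t → 0 ≤ h → h ≤ 1 → (∀ i, |u t i| ≤ B) → ∀ i, |u (t + h) i| ≤ B * (1 + K * h) + K * h ^ 2)
    {t : ℝ} (ht : 0 ≤ t) (i : ι) : u t i = 0 := by
  have k : ∀ h, 0 ≤ h → h ≤ 1 → ∀ n : ℕ, ∀ i, |u (n * h) i| ≤ n * (K * h ^ 2) * exp (n * (K * h)) := by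
    intro s hs hs1 n
    induction n with
    | zero => simp [h0]
    | succ n ih =>
      intro i
      have a1 := h (n * s) s _ (by positivity) hs hs1 ih i
      have a2 := add_one_le_exp (K * s)
      have a3 : 1 ≤ exp (n * (K * s)) * exp (K * s) := by
        rw [← exp_add]; exact one_le_exp (by positivity)
      push_cast
      rw [add_mul, add_mul, add_mul _ _ (K * s), one_mul, one_mul, one_mul, exp_add]
      have a4 : 0 ≤ n * (K * s ^ 2) * exp (n * (K * s)) := by positivity
      nlinarith [mul_le_mul_of_nonneg_left a2 a4, mul_le_mul_of_nonneg_left a3 (by positivity : 0 ≤ K * s ^ 2)]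
  have k2 : ∀ᶠ n : ℕ in atTop, |u t i| ≤ K * t ^ 2 * exp (K * t) * (1 / (n + 1)) := by
    filter_upwards [eventually_ge_atTop ⌈t⌉₊] with n hn
    have h1 : t ≤ n + 1 := by linarith [Nat.le_ceil t, (Nat.cast_le (α := ℝ)).2 hn]
    have := k (t / (n + 1)) (by positivity) ((div_le_one (by positivity)).2 h1) (n + 1) i
    push_cast at this
    rw [show (n + 1 : ℝ) * (t / (n + 1)) = t by field_simp,
      show (n + 1 : ℝ) * (K * (t / (n + 1))) = K * t by field_simp] at this
    exact this.trans_eq (by field_simp)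
  have := ge_of_tendsto (tendsto_one_div_add_atTop_nhds_zero_nat.const_mul (K * t ^ 2 * exp (K * t))) k2
  simpa using this

def Nice (u : ℝ → ℝ) : Prop := ContinuousOn u (Set.Ici 0) ∧ ∃ B, ∀ t, 0 ≤ t → |u t| ≤ B

lemma cont {u : ℝ → ℝ} {K : ℝ} (h : ∀ t h, 0 ≤ t → 0 ≤ h → h ≤ 1 → |u (t + h) - u t| ≤ K * h) :
    ContinuousOn u (Set.Ici 0) := by
  intro t ht
  have : ∀ᶠ s in 𝓝[Set.Ici 0] t, ‖u s - u t‖ ≤ K * |s - t| := by
    filter_upwards [self_mem_nhdsWithin, nhdsWithin_le_nhds (Metric.closedBall_mem_nhds t one_pos)] with s hs hs1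
    rw [Metric.mem_closedBall, Real.dist_eq, abs_le] at hs1
    rcases le_total s t with c | c
    · have := h s (t - s) hs (by linarith) (by linarith)
      rwa [add_sub_cancel, abs_sub_comm, ← abs_of_nonneg (sub_nonneg.2 c), abs_sub_comm t] at this
    · have := h t (s - t) ht (by linarith) (by linarith)
      rwa [add_sub_cancel, ← abs_of_nonneg (sub_nonneg.2 c)] at this
  rw [ContinuousWithinAt, ← tendsto_sub_nhds_zero_iff]
  refine squeeze_zero_norm' this ?_
  have : Continuous fun s : ℝ => K * |s - t| := by fun_prop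
  simpa using (this.tendsto t).mono_left nhdsWithin_le_nhds

def lap (l : ℝ) (u : ℝ → ℝ) : ℝ := ∫ t in Set.Ioi (0 : ℝ), exp (-l * t) * u t

variable {l : ℝ} {u g : ℝ → ℝ}

lemma Nice.int (h : Nice u) (hl : 0 < l) : IntegrableOn (fun t => exp (-l * t) * u t) (Set.Ioi 0) := by
  obtain ⟨h1, B, h2⟩ := h
  refine Integrable.mul_bdd (c := B) (exp_neg_integrableOn_Ioi 0 hl)
    ((h1.mono Set.Ioi_subset_Ici_self).aestronglyMeasurable measurableSet_Ioi) ?_
  exact (ae_restrict_iff' measurableSet_Ioi).2 (ae_of_all _ fun t ht => h2 t (le_of_lt ht))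

lemma Nice.add (h : Nice u) (h' : Nice g) : Nice fun t => u t + g t :=
  let ⟨B, hB⟩ := h.2
  let ⟨C, hC⟩ := h'.2
  ⟨h.1.add h'.1, B + C, fun t ht => (abs_add_le _ _).trans (add_le_add (hB t ht) (hC t ht))⟩

lemma Nice.cmul (h : Nice u) (c : ℝ) : Nice fun t => c * u t :=
  let ⟨B, hB⟩ := h.2
  ⟨continuousOn_const.mul h.1, |c| * B, fun t ht => (abs_mul _ _).trans_le (by gcongr; exact hB t ht)⟩

lemma Nice.sub (h : Nice u) (h' : Nice g) : Nice fun t => u t - g t := by
  simpa [sub_eq_add_neg] using h.add (h'.cmul (-1))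

lemma Nice.sum {J : Type} {F : J → ℝ → ℝ} (h : ∀ j, Nice (F j)) (s : Finset J) :
    Nice fun t => ∑ j ∈ s, F j t := by
  choose B hB using fun j => (h j).2
  exact ⟨continuousOn_finsetSum _ fun j _ => (h j).1, ∑ j ∈ s, B j, fun t ht =>
    (abs_sum_le_sum_abs _ _).trans (sum_le_sum fun j _ => hB j t ht)⟩

lemma lap_add (hl : 0 < l) (h : Nice u) (h' : Nice g) : lap l (fun t => u t + g t) = lap l u + lap l g := by
  simp only [lap, mul_add]; exact integral_add (h.int hl) (h'.int hl)

lemma lap_sub (hl : 0 < l) (h : Nice u) (h' : Nice g) : lap l (fun t => u t - g t) = lap l u - lap l g := by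
  simp only [lap, mul_sub]; exact integral_sub (h.int hl) (h'.int hl)

lemma lap_cmul (c : ℝ) : lap l (fun t => c * u t) = c * lap l u := by
  simp only [lap, mul_left_comm _ c]; exact integral_const_mul _ _

lemma lap_sum {J : Type} {F : J → ℝ → ℝ} (hl : 0 < l) (h : ∀ j, Nice (F j)) (s : Finset J) :
    lap l (fun t => ∑ j ∈ s, F j t) = ∑ j ∈ s, lap l (F j) := by
  simp only [lap, mul_sum]; exact integral_finsetSum _ fun j _ => (h j).int hl

lemma lap_congr (h : ∀ t, 0 ≤ t → u t = g t) : lap l u = lap l g :=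
  setIntegral_congr_fun measurableSet_Ioi fun t ht => by simp only [h t (le_of_lt ht)]

lemma lap_nonneg (h : ∀ t, 0 ≤ t → 0 ≤ u t) : 0 ≤ lap l u :=
  setIntegral_nonneg measurableSet_Ioi fun t ht => mul_nonneg (exp_pos _).le (h t (le_of_lt ht))

lemma lap_abs {B : ℝ} (hl : 0 < l) (h : ∀ t, 0 ≤ t → |u t| ≤ B) :
    |lap l u| ≤ B * ∫ t in Set.Ioi (0 : ℝ), exp (-l * t) := by
  rw [← integral_const_mul]
  refine norm_integral_le_of_norm_le (f := fun t => exp (-l * t) * u t) ((exp_neg_integrableOn_Ioi 0 hl).const_mul B)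
    ((ae_restrict_iff' measurableSet_Ioi).2 (ae_of_all _ fun t ht => ?_))
  rw [norm_mul, Real.norm_eq_abs, abs_of_pos (exp_pos _), mul_comm]
  gcongr; exact h t (le_of_lt ht)

lemma lap_ode {K : ℝ} (hl : 0 < l) (hu : Nice u) (hg : Nice g)
    (h : ∀ t h, 0 ≤ t → 0 ≤ h → h ≤ 1 → |u (t + h) - u t - h * g t| ≤ K * h ^ 2) :
    l * lap l u - u 0 = lap l g := by
  have hd : ∀ t, 0 ≤ t → HasDerivWithinAt u (g t) (Set.Ioi t) t := fun t ht => by
    rw [hasDerivWithinAt_iff_isLittleO]
    have h1 : (fun s => u s - u t - (s - t) • g t) =O[𝓝[>] t] fun s => (s - t) ^ 2 := by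
      refine Asymptotics.IsBigO.of_bound K ?_
      filter_upwards [Ioc_mem_nhdsGT (show t < t + 1 by linarith)] with s hs
      have := h t (s - t) ht (by linarith [hs.1]) (by linarith [hs.2])
      simpa using this
    refine h1.trans_isLittleO ?_
    have := (Asymptotics.isLittleO_pow_id (𝕜 := ℝ) one_lt_two).comp_tendsto
      (show Tendsto (fun s => s - t) (𝓝[>] t) (𝓝 0) by
        simpa using ((continuous_sub_right t).tendsto t).mono_left nhdsWithin_le_nhds)
    exact this
  have hN : Nice fun t => g t - l * u t := hg.sub (hu.cmul l)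
  have h1 : ∀ T, 0 ≤ T → ∫ t in (0 : ℝ)..T, exp (-l * t) * (g t - l * u t) = exp (-l * T) * u T - u 0 := by
    intro T hT
    have := intervalIntegral.integral_eq_sub_of_hasDeriv_right_of_le (f := fun t => exp (-l * t) * u t)
      (f' := fun t => exp (-l * t) * (g t - l * u t)) hT
      ((by fun_prop : Continuous fun t => exp (-l * t)).continuousOn.mul (hu.1.mono fun x hx => hx.1))
      (fun t ht => (((hasDerivAt_id t).const_mul (-l)).exp.hasDerivWithinAt.mul (hd t ht.1.le)).congr_deriv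
        (by simp only [id]; ring))
      ((intervalIntegrable_iff_integrableOn_Ioc_of_le hT).2 ((hN.int hl).mono_set Set.Ioc_subset_Ioi_self))
    simpa using this
  have h2 := intervalIntegral_tendsto_integral_Ioi 0 (hN.int hl) tendsto_id
  obtain ⟨B, hB⟩ := hu.2
  have h3 : Tendsto (fun T => exp (-l * T) * u T) atTop (𝓝 0) := by
    refine squeeze_zero_norm' (a := fun T => exp (-l * T) * B) ?_ ?_
    · filter_upwards [eventually_ge_atTop 0] with T hT
      rw [norm_mul, Real.norm_eq_abs, abs_of_pos (exp_pos _)]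
      gcongr; exact hB T hT
    · simpa using (tendsto_exp_atBot.comp (tendsto_id.const_mul_atTop_of_neg (neg_lt_zero.2 hl))).mul_const B
  have h4 := tendsto_nhds_unique h2 ((h3.sub_const (u 0)).congr' (by
    filter_upwards [eventually_ge_atTop 0] with T hT; exact (h1 T hT).symm))
  have h5 := lap_sub hl hg (hu.cmul l)
  rw [lap_cmul] at h5
  have : lap l (fun t => g t - l * u t) = 0 - u 0 := h4
  linarith

lemma int_le {B T : ℝ} (hu : Nice u) (h0 : ∀ t, 0 ≤ t → 0 ≤ u t) (h : ∀ l, 0 < l → lap l u ≤ B) (hT : 0 < T) :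
    ∫ t in (0 : ℝ)..T, u t ≤ exp 1 * B := by
  have hl : 0 < 1 / T := by positivity
  refine le_trans ?_ (mul_le_mul_of_nonneg_left (h _ hl) (exp_pos 1).le)
  rw [intervalIntegral.integral_of_le hT.le, lap, ← integral_const_mul]
  have h1 : IntegrableOn (fun t => exp 1 * (exp (-(1 / T) * t) * u t)) (Set.Ioi 0) := (hu.int hl).const_mul _
  refine le_trans (setIntegral_mono_on ?_ (h1.mono_set Set.Ioc_subset_Ioi_self) measurableSet_Ioc fun t ht => ?_)
    (setIntegral_mono_set h1 ?_ Set.Ioc_subset_Ioi_self.eventuallyLE)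
  · exact ((hu.1.mono fun x hx => hx.1).integrableOn_Icc (a := 0) (b := T)).mono_set Set.Ioc_subset_Icc_self
  · rw [← mul_assoc, ← exp_add]
    refine le_mul_of_one_le_left (h0 t ht.1.le) (one_le_exp ?_)
    have : 1 / T * t ≤ 1 := by rw [one_div, inv_mul_le_iff₀ hT]; simpa using ht.2
    linarith
  · exact (ae_restrict_iff' measurableSet_Ioi).2 (ae_of_all _ fun t ht =>
      mul_nonneg (exp_pos _).le (mul_nonneg (exp_pos _).le (h0 t (le_of_lt ht))))

section
variable {J G : Type} [Fintype J] [AddCommGroup G] [DecidableEq G]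

lemma resolv (w : J → G) (hl : 0 < l) : ∃ r : G → ℝ, (∀ z, 0 ≤ r z ∧ r z ≤ 1 / l) ∧
    (∀ z, (l + Fintype.card J) * r z = ∑ j, r (z + w j) + if z = 0 then 1 else 0) ∧
    ∀ j, r 0 - r (w j) ≤ 1 := by
  set c : ℝ := (Fintype.card J : ℝ) with hc
  have hc0 : 0 ≤ c := by positivity
  let R : ℕ → G → ℝ := fun n => Nat.rec 0 (fun _ p z => (∑ j, p (z + w j) + if z = 0 then 1 else 0) / (l + c)) n
  have hR : ∀ n z, R (n + 1) z = (∑ j, R n (z + w j) + if z = 0 then 1 else 0) / (l + c) := fun _ _ => rfl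
  have h1 : ∀ n z, 0 ≤ R n z ∧ R n z ≤ 1 / l ∧ R n z ≤ R (n + 1) z := by
    intro n
    induction n with
    | zero => exact fun z => ⟨le_rfl, by simp [R, hl.le], by simp only [R, Pi.zero_apply, Nat.rec_zero]; split_ifs <;> positivity⟩
    | succ n ih =>
      intro z
      refine ⟨(ih z).1.trans (ih z).2.2, ?_, ?_⟩
      · rw [hR, div_le_iff₀ (by positivity)]
        have := sum_le_card_nsmul univ (fun j => R n (z + w j)) (1 / l) fun j _ => (ih _).2.1
        rw [card_univ, nsmul_eq_mul] at this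
        have h2 : 1 / l * (l + c) = 1 + c * (1 / l) := by field_simp
        split_ifs <;> linarith
      · rw [hR n, hR (n + 1)]; gcongr; exact (ih _).2.2
  have hb : ∀ z, BddAbove (Set.range fun n => R n z) := fun z => ⟨1 / l, by rintro _ ⟨n, rfl⟩; exact (h1 n z).2.1⟩
  have ht : ∀ z, Tendsto (fun n => R n z) atTop (𝓝 (⨆ n, R n z)) := fun z =>
    tendsto_atTop_ciSup (monotone_nat_of_le_succ fun n => (h1 n z).2.2) (hb z)
  set r := fun z => ⨆ n, R n z
  have h2 : ∀ z, 0 ≤ r z ∧ r z ≤ 1 / l := fun z =>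
    ⟨ge_of_tendsto' (ht z) fun n => (h1 n z).1, le_of_tendsto' (ht z) fun n => (h1 n z).2.1⟩
  have h3 : ∀ z, (l + c) * r z = ∑ j, r (z + w j) + if z = 0 then 1 else 0 := fun z => by
    have := tendsto_nhds_unique ((ht z).comp (tendsto_add_atTop_nat 1))
      (((tendsto_finsetSum univ fun j _ => ht (z + w j)).add_const (if z = 0 then 1 else 0)).div_const (l + c))
    rw [eq_div_iff (by positivity)] at this
    linarith
  have hb2 : BddAbove (Set.range r) := ⟨1 / l, by rintro _ ⟨z, rfl⟩; exact (h2 z).2⟩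
  have h4 : ∀ z, r z ≤ r 0 := by
    have a1 : ∀ z, r z ≤ ⨆ z, r z := le_ciSup hb2
    set S := ⨆ z, r z
    have a2 : S ≤ max (r 0) (c * S / (l + c)) := ciSup_le fun z => by
      by_cases hz : z = 0
      · simp [hz]
      · refine le_max_of_le_right ?_
        have := sum_le_card_nsmul univ (fun j => r (z + w j)) S fun j _ => a1 _
        rw [card_univ, nsmul_eq_mul] at this
        have h := h3 z
        rw [if_neg hz] at h
        rw [le_div_iff₀ (by positivity)]; linarith
    intro z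
    rcases le_max_iff.1 a2 with a | a
    · exact (a1 z).trans a
    · rw [le_div_iff₀ (by positivity)] at a
      nlinarith [a1 z, (h2 0).1]
  refine ⟨r, h2, h3, fun j => ?_⟩
  have a1 := single_le_sum (f := fun j => r 0 - r (w j)) (fun j _ => sub_nonneg.2 (h4 _)) (mem_univ j)
  have a2 := h3 0
  simp only [sum_sub_distrib, sum_const, card_univ, nsmul_eq_mul, zero_add, if_true] at a1 a2
  nlinarith [(h2 0).1]

lemma uniq {ι : Type} (σ τ : J → ι → ι) (hl : 0 < l) {δ : ι → ℝ} {B : ℝ} (hB : ∀ p, |δ p| ≤ B)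
    (h : ∀ p, (l + Fintype.card J) * δ p = 1 / 2 * ∑ j, δ (σ j p) + 1 / 2 * ∑ j, δ (τ j p)) (p : ι) : δ p = 0 := by
  set c : ℝ := (Fintype.card J : ℝ) with hc
  have hc0 : 0 ≤ c := by positivity
  have k : ∀ n p, |δ p| ≤ B * (c / (l + c)) ^ n := by
    intro n
    induction n with
    | zero => simpa
    | succ n ih =>
      intro p
      have a : ∀ σ : J → ι → ι, |∑ j, δ (σ j p)| ≤ c * (B * (c / (l + c)) ^ n) := fun σ =>
        (abs_sum_le_sum_abs _ _).trans ((sum_le_card_nsmul _ _ _ fun j _ => ih _).trans_eq (by simp [hc]))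
      have a1 := abs_le.1 (a σ)
      have a2 := abs_le.1 (a τ)
      rw [pow_succ, ← mul_assoc, ← mul_div_assoc, le_div_iff₀ (by positivity), ← abs_of_pos (by positivity : 0 < l + c),
        ← abs_mul, mul_comm, h, abs_of_pos (by positivity : 0 < l + c), abs_le]
      constructor <;> linarith
  have := ge_of_tendsto' ((tendsto_pow_atTop_nhds_zero_of_lt_one (r := c / (l + c)) (by positivity)
    ((div_lt_one (by positivity)).2 (by linarith))).const_mul B) fun n => k n p
  simpa using this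

lemma green (w : J → G) (fl : J ≃ J) (hfl : ∀ j, w (fl j) = -w j) (hl : 0 < l) {D : G → G → ℝ} {a : J → ℝ}
    (ha : ∀ j, 0 ≤ a j) {B : ℝ} (hB : ∀ x y, |D x y| ≤ B)
    (h : ∀ x y, l * D x y = 1 / 2 * ∑ j, (D (x + w j) y - D x y) + 1 / 2 * ∑ j, (D x (y + w j) - D x y) +
      ∑ j, a j * ((if y = x then 1 else 0) - if y = x + w j then 1 else 0)) (x : G) : D x x ≤ ∑ j, a j := by
  obtain ⟨r, h1, h2, h3⟩ := resolv w hl
  have hs : ∀ z, ∑ j, r (z - w j) = ∑ j, r (z + w j) := fun z => by
    rw [← fl.sum_comp]; simp [hfl]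
  have := uniq (fun j (p : G × G) => (p.1 + w j, p.2)) (fun j p => (p.1, p.2 + w j)) hl
    (δ := fun p => D p.1 p.2 - ∑ i, a i * (r (p.2 - p.1) - r (p.2 - p.1 - w i))) (B := B + ∑ i, a i * (1 / l))
    (fun p => (abs_sub _ _).trans (add_le_add (hB _ _) ((abs_sum_le_sum_abs _ _).trans (sum_le_sum fun i _ => by
      rw [abs_mul, abs_of_nonneg (ha i)]
      gcongr
      · exact ha i
      · rw [abs_le]; constructor <;> linarith [h1 (p.2 - p.1), h1 (p.2 - p.1 - w i)])))) (fun p => ?_) (x, x)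
  · simp only [sub_self, zero_sub] at this
    rw [sub_eq_zero.1 this]
    exact sum_le_sum fun j _ => mul_le_of_le_one_right (ha j) (hfl j ▸ h3 _)
  · obtain ⟨x, y⟩ := p
    have a1 := h x y
    have a2 : ∀ i, (l + Fintype.card J) * (a i * (r (y - x) - r (y - x - w i))) =
        1 / 2 * ∑ j, a i * (r (y - (x + w j)) - r (y - (x + w j) - w i)) +
        1 / 2 * ∑ j, a i * (r (y + w j - x) - r (y + w j - x - w i)) +
        a i * ((if y = x then 1 else 0) - if y = x + w i then 1 else 0) := fun i => by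
      have b1 := h2 (y - x)
      have b2 := h2 (y - x - w i)
      have b3 := hs (y - x)
      have b4 := hs (y - x - w i)
      simp only [sub_eq_zero, sub_sub] at b1 b2 b3 b4
      simp only [← mul_sum, sum_sub_distrib, sub_sub, ← sub_add_eq_add_sub, add_right_comm x _ (w i)]
      linear_combination a i * b1 - a i * b2 - a i / 2 * b3 + a i / 2 * b4
    simp only [sum_sub_distrib, sum_const, card_univ, nsmul_eq_mul] at a1 ⊢
    rw [mul_sub, mul_sum, sum_congr rfl fun i _ => a2 i, sum_add_distrib, sum_add_distrib, ← mul_sum, ← mul_sum,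
      sum_comm, sum_comm (f := fun i j => a i * (r (y + w j - x) - r (y + w j - x - w i)))]
    linarith
end

def po (c : ℝ) (u : ℕ → ℝ) (t : ℝ) : ℝ := exp (-(c * t)) * ∑' n, (c * t) ^ n / n ! * u n

section
variable {c M : ℝ} {v : ℕ → ℝ}

lemma po_sum (hv : ∀ n, |v n| ≤ M) (s : ℝ) : Summable fun n => s ^ n / n ! * v n :=
  .of_norm_bounded ((summable_pow_div_factorial |s|).mul_right M) fun n => by
    rw [norm_mul, norm_div, norm_pow, Real.norm_natCast]
    gcongr
    · exact le_rfl
    · exact hv n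

lemma exp_sum (s : ℝ) : HasSum (fun n => s ^ n / n !) (exp s) := by
  rw [exp_eq_exp_ℝ]; exact NormedSpace.expSeries_div_hasSum_exp s

lemma po_abs (hv : ∀ n, |v n| ≤ M) {t : ℝ} (ht : 0 ≤ c * t) : |po c v t| ≤ M := by
  have := tsum_of_norm_bounded ((exp_sum (c * t)).mul_right M) (f := fun n => (c * t) ^ n / n ! * v n) fun n => by
    rw [norm_mul, Real.norm_of_nonneg (by positivity)]
    gcongr; exact hv n
  rw [po, abs_mul, abs_of_pos (exp_pos _)]
  refine (mul_le_mul_of_nonneg_left this (exp_pos _).le).trans_eq ?_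
  rw [← mul_assoc, ← exp_add]; simp

lemma po_zero : po c v 0 = v 0 := by
  rw [po, tsum_eq_single 0 fun n hn => by simp [hn]]; simp

lemma ser_deriv (hv : ∀ n, |v n| ≤ M) (s : ℝ) :
    HasDerivAt (fun s : ℝ => ∑' n, s ^ n / n ! * v n) (∑' n, s ^ n / n ! * v (n + 1)) s := by
  have h1 : ∀ (s : ℝ) j, HasDerivAt (fun s : ℝ => s ^ (j + 1) / (j + 1)!) (s ^ j / j !) s :=
    fun s j => ((hasDerivAt_pow (j + 1) s).div_const _).congr_deriv (by
      rw [Nat.factorial_succ]; push_cast; field_simp)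
  have h2 := hasDerivAt_tsum_of_isPreconnected (t := Metric.ball 0 (|s| + 1)) (y₀ := 0) (y := s)
    (g := fun n s => s ^ (n + 1) / (n + 1)! * v (n + 1)) (g' := fun n s => s ^ n / n ! * v (n + 1))
    ((summable_pow_div_factorial (|s| + 1)).mul_right M) Metric.isOpen_ball (convex_ball _ _).isPreconnected
    (fun n y _ => (h1 y n).mul_const _) (fun n y hy => by
      rw [norm_mul, norm_div, norm_pow, Real.norm_natCast]
      gcongr
      · exact (mem_ball_zero_iff.1 hy).le
      · exact hv _) (Metric.mem_ball_self (by positivity)) (by simp) (by simp)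
  refine (h2.const_add (v 0)).congr_of_eventuallyEq (.of_forall fun z => ?_)
  simp only []
  rw [(po_sum hv _).tsum_eq_zero_add]; simp

lemma po_sub {v' : ℕ → ℝ} {M' : ℝ} (hv : ∀ n, |v n| ≤ M) (hv' : ∀ n, |v' n| ≤ M') (t : ℝ) :
    po c (fun n => v n - v' n) t = po c v t - po c v' t := by
  simp only [po, mul_sub]
  rw [(po_sum hv _).tsum_sub (po_sum hv' _), mul_sub]

lemma po_deriv (hv : ∀ n, |v n| ≤ M) (t : ℝ) :
    HasDerivAt (po c v) (c * po c (fun n => v (n + 1) - v n) t) t := by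
  rw [po_sub (fun n => hv (n + 1)) hv]
  refine ((((hasDerivAt_id t).const_mul c).neg.exp).mul
    ((ser_deriv hv (c * t)).comp t ((hasDerivAt_id t).const_mul c))).congr_deriv ?_
  simp only [po, id, Function.comp, Pi.neg_apply]; ring

lemma dbd (hv : ∀ n, |v n| ≤ M) (n : ℕ) : |v (n + 1) - v n| ≤ 2 * M :=
  (abs_sub _ _).trans (by linarith [hv n, hv (n + 1)])

lemma po_lip (hc : 0 ≤ c) (hv : ∀ n, |v n| ≤ M) {t h : ℝ} (ht : 0 ≤ t) (hh : 0 ≤ h) :
    |po c v (t + h) - po c v t| ≤ c * (2 * M) * h := by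
  have := norm_image_sub_le_of_norm_deriv_le_segment' (a := t) (b := t + h) (C := c * (2 * M))
    (fun s _ => (po_deriv (c := c) hv s).hasDerivWithinAt) (fun s hs => by
      rw [norm_mul, Real.norm_of_nonneg hc]
      gcongr
      exact po_abs (dbd hv) (mul_nonneg hc (ht.trans hs.1))) (t + h) (by simp [hh])
  simpa using this

lemma po_taylor (hc : 0 ≤ c) (hv : ∀ n, |v n| ≤ M) {t h : ℝ} (ht : 0 ≤ t) (hh : 0 ≤ h) :
    |po c v (t + h) - po c v t - h * (c * po c (fun n => v (n + 1) - v n) t)| ≤ c * (c * (2 * (2 * M))) * h ^ 2 := by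
  have hM : 0 ≤ M := (abs_nonneg _).trans (hv 0)
  have := norm_image_sub_le_of_norm_deriv_le_segment' (a := t) (b := t + h) (C := c * (c * (2 * (2 * M)) * h))
    (fun s _ => ((po_deriv (c := c) hv s).sub ((hasDerivAt_id s).mul_const
      (c * po c (fun n => v (n + 1) - v n) t))).hasDerivWithinAt) (fun s hs => by
      rw [one_mul, ← mul_sub, norm_mul, Real.norm_of_nonneg hc]
      gcongr
      have := po_lip hc (dbd hv) ht (sub_nonneg.2 hs.1)
      rw [add_sub_cancel] at this
      refine this.trans ?_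
      gcongr; linarith [hs.2]) (t + h) (by simp [hh])
  simp only [Pi.sub_apply, id, Real.norm_eq_abs] at this
  convert this using 1
  · congr 1; ring
  · ring

lemma po_lim (hc : 0 < c) (hv : ∀ n, |v n| ≤ M) {L : ℝ} (h : Tendsto v atTop (𝓝 L)) :
    Tendsto (po c v) atTop (𝓝 L) := by
  have hL : |L| ≤ M := le_of_tendsto' h.abs hv
  have hv' : ∀ n, |v n - L| ≤ 2 * M := fun n => (abs_sub _ _).trans (by linarith [hv n])
  rw [Metric.tendsto_atTop] at h
  rw [Metric.tendsto_nhds]
  intro ε hε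
  obtain ⟨N, hN⟩ := h (ε / 2) (by positivity)
  let a : ℕ → ℝ := fun n => if n < N then v n - L else 0
  have ha : ∀ n, |a n| ≤ 2 * M := fun n => by
    simp only [a]; split_ifs
    · exact hv' n
    · simpa using (abs_nonneg _).trans (hv 0)
  have hb : ∀ n, |v n - L - a n| ≤ ε / 2 := fun n => by
    simp only [a]; split_ifs with h
    · simpa using (half_pos hε).le
    · simpa [Real.dist_eq] using (hN n (not_lt.1 h)).le
  have h1 : Tendsto (po c a) atTop (𝓝 0) := by
    have : po c a = fun t => ∑ n ∈ range N, (c * t) ^ n * exp (-(c * t)) * (a n / n !) := by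
      ext t
      rw [po, tsum_eq_sum (s := range N) fun n hn => by simp [a, show ¬ n < N by simpa using hn], mul_sum]
      exact sum_congr rfl fun n _ => by ring
    rw [this]
    simpa using tendsto_finsetSum (range N) fun n _ => ((tendsto_pow_mul_exp_neg_atTop_nhds_zero n).comp
      (tendsto_id.const_mul_atTop hc)).mul_const (a n / n !)
  filter_upwards [eventually_ge_atTop 0, (Metric.tendsto_nhds.1 h1) (ε / 2) (by positivity)] with t ht h2
  have h3 := po_abs hb (mul_nonneg hc.le ht)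
  have h4 : po c (fun _ => L) t = L := by
    rw [po, ((exp_sum _).mul_right L).tsum_eq, ← mul_assoc, ← exp_add]; simp
  rw [po_sub hv' ha, po_sub hv (fun _ => hL), h4, abs_le] at h3
  rw [Real.dist_eq, abs_lt] at h2 ⊢
  constructor <;> linarith

lemma po_fsum {J : Type} [Fintype J] {F : J → ℕ → ℝ} (hF : ∀ j n, |F j n| ≤ M) (a t : ℝ) :
    po c (fun n => a * ∑ j, F j n) t = a * ∑ j, po c (F j) t := by
  simp only [po]
  rw [← mul_sum, ← Summable.tsum_finsetSum fun j _ => po_sum (hF j) _, mul_left_comm, ← tsum_mul_left (a := a)]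
  congr 2; ext n; rw [← mul_sum]; ring
end

end

end Pool.Agent.H43.Avg
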