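import Pool.Agent.H43.Avg1
import Pool.Agent.H43.Avg2

set_option autoImplicit false
set_option linter.unusedSectionVars false

namespace Pool.Agent.H43.Avg

open MeasureTheory ProbabilityTheory Filter Topology Finset Real Pool.Agent.H43.Ex
open scoped Nat

noncomputable section

/-- Vertices of the lattice. -/
abbrev V (d : ℕ) := Fin d → ℤ

/-- Edges: `(x, i)` is the edge joining `x` and `x + e_i`. -/
abbrev E (d : ℕ) := V d × Fin d

/-- The second endpoint of an edge. -/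
def tip {d : ℕ} (a : E d) : V d := a.1 + Pi.single a.2 1

/-- `v` is an endpoint of the edge `a`. -/
def Touch {d : ℕ} (v : V d) (a : E d) : Prop := v = a.1 ∨ v = tip a

/-- The edge-averaging process `f` driven by the clocks `N` (counting processes of the rings), which are
independent rate-one Poisson processes with respect to the filtration `ℱ`. -/
structure EdgeAvg {d : ℕ} {Ω : Type} {mΩ : MeasurableSpace Ω} (P : Measure Ω) (ℱ : Filtration ℝ mΩ)
    (N : E d → ℝ → Ω → ℕ) (f : ℝ → Ω → V d → ℝ) : Prop where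
  N_adapted : ∀ a t, 0 ≤ t → Measurable[ℱ t] (N a t)
  N_zero : ∀ a ω, N a 0 ω = 0
  N_mono : ∀ a ω, MonotoneOn (fun t => N a t ω) (Set.Ici 0)
  N_right : ∀ a ω t, 0 ≤ t → ∀ᶠ s in 𝓝[≥] t, N a s ω = N a t ω
  law : ∀ a s t, 0 ≤ s → s ≤ t →
    P.map (fun ω => N a t ω - N a s ω) = poissonMeasure (t - s).toNNReal
  indep_edges : ∀ s t, 0 ≤ s → s ≤ t → iIndepFun (fun a ω => N a t ω - N a s ω) P
  indep_past : ∀ s t, 0 ≤ s → s ≤ t →
    Indep (ℱ s) (MeasurableSpace.comap (fun ω a => N a t ω - N a s ω) inferInstance) P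
  f_adapted : ∀ t v, 0 ≤ t → Measurable[ℱ t] fun ω => f t ω v
  stay : ∀ᵐ ω ∂P, ∀ v s t, 0 ≤ s → s ≤ t → (∀ a, Touch v a → N a s ω = N a t ω) → f t ω v = f s ω v
  avg : ∀ᵐ ω ∂P, ∀ a t, 0 < t → (∀ s, 0 ≤ s → s < t → N a s ω < N a t ω) → ∀ v, Touch v a →
    f t ω v = (Function.leftLim (fun s => f s ω a.1) t + Function.leftLim (fun s => f s ω (tip a)) t) / 2

variable {d : ℕ} {Ω : Type} {mΩ : MeasurableSpace Ω} {P : Measure Ω} [IsProbabilityMeasure P]
  {ℱ : Filtration ℝ mΩ} {N : E d → ℝ → Ω → ℕ} {f : ℝ → Ω → V d → ℝ} {t h : ℝ}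

abbrev J (d : ℕ) := Fin d × Bool

def w (j : J d) : V d := if j.2 then Pi.single j.1 1 else -Pi.single j.1 1

def ed (x : V d) (j : J d) : E d := if j.2 then (x, j.1) else (x - Pi.single j.1 1, j.1)

instance (v : V d) (a : E d) : Decidable (Touch v a) := by unfold Touch; infer_instance

def Av (a : E d) (η : V d → ℝ) (y : V d) : ℝ := if Touch y a then (η a.1 + η (tip a)) / 2 else η y

def fl : J d ≃ J d := (Equiv.refl _).prodCongr (Function.Involutive.toPerm _ Bool.not_not)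

lemma w_fl (j : J d) : w (fl j) = -w j := by
  rcases j with ⟨i, _ | _⟩ <;> simp [w, fl]

lemma sing_ne (i : Fin d) : (Pi.single i 1 : V d) ≠ 0 := fun h => by simpa using congrFun h i

lemma w_ne (j : J d) : w j ≠ 0 := by
  rcases j with ⟨i, _ | _⟩ <;> simp [w, sing_ne]

lemma touch_iff {x : V d} {a : E d} : Touch x a ↔ ∃ j, ed x j = a := by
  constructor
  · rintro (rfl | rfl)
    · exact ⟨(a.2, true), by simp [ed]⟩
    · exact ⟨(a.2, false), by simp [ed, tip]⟩
  · rintro ⟨⟨i, _ | _⟩, rfl⟩ <;> simp [ed, Touch, tip]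

lemma touch_ed {x y : V d} {j : J d} : Touch y (ed x j) ↔ y = x ∨ y = x + w j := by
  rcases j with ⟨i, _ | _⟩ <;> simp [ed, Touch, tip, w, sub_eq_add_neg, or_comm]

lemma ed_inj (x : V d) : Function.Injective (ed x) := by
  rintro ⟨i, _ | _⟩ ⟨k, _ | _⟩ h <;> simp_all [ed, sing_ne, eq_comm (a := x)]

lemma av_ed (x y : V d) (j : J d) (η : V d → ℝ) : Av (ed x j) η y - η y =
    1 / 2 * (η (x + w j) - η x) * ((if y = x then 1 else 0) - if y = x + w j then 1 else 0) := by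
  have h1 : η (ed x j).1 + η (tip (ed x j)) = η x + η (x + w j) := by
    rcases j with ⟨i, _ | _⟩ <;> simp [ed, tip, w, sub_eq_add_neg, add_comm]
  have h2 : x ≠ x + w j := by simpa using w_ne j
  simp only [Av, touch_ed, h1]
  by_cases a : y = x
  · subst a; simp [h2]; ring
  · by_cases b : y = x + w j
    · subst b; simp [h2.symm]; ring
    · simp [a, b]

def Good (A : Finset (E d)) (v : V d) : Prop := ∀ b, Touch v b → ∀ a, Touch b.1 a ∨ Touch (tip b) a → a ∈ A

def nb (v : V d) : Finset (E d) := univ.image fun p : Option (J d) × J d => ed (v + p.1.elim 0 w) p.2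

def k0 (d : ℕ) : ℕ := Fintype.card (Option (J d) × J d)

lemma nb_card (v : V d) : (nb v).card ≤ k0 d := card_image_le

lemma nb_good (v : V d) : Good (nb v) v := by
  intro b hb a ha
  obtain ⟨j, rfl⟩ := touch_iff.1 hb
  have : ∀ y, Touch y (ed v j) → Touch y a → a ∈ nb v := fun y h1 h2 => by
    obtain ⟨k, rfl⟩ := touch_iff.1 h2
    rcases touch_ed.1 h1 with rfl | rfl
    · exact mem_image.2 ⟨(none, k), mem_univ _, by simp⟩
    · exact mem_image.2 ⟨(some j, k), mem_univ _, by simp⟩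
  exact ha.elim (this _ (.inl rfl)) (this _ (.inr rfl))

lemma Good.mem {A : Finset (E d)} {v : V d} (h : Good A v) {a : E d} (ha : Touch v a) : a ∈ A :=
  h a ha a (.inl (.inl rfl))

lemma Good.sum {A : Finset (E d)} {x : V d} (h : Good A x) (η : V d → ℝ) (g : E d → ℝ) :
    ∑ a ∈ A, (Av a η x - η x) * g a = ∑ j, 1 / 2 * (η (x + w j) - η x) * g (ed x j) := by
  rw [← sum_subset (s₁ := univ.image (ed x)) (fun a ha => h.mem (touch_iff.2 (by simpa using ha)))
    (fun a _ ha => by simp [Av, show ¬ Touch x a from fun h => ha (by simpa using touch_iff.1 h)]),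
    sum_image fun a _ b _ h => ed_inj x h]
  have h2 : ∀ j, x ≠ x + w j := fun j => by simpa using w_ne j
  simp [av_ed, h2]

def Pat (N : E d → ℝ → Ω → ℕ) (t h : ℝ) (A : Finset (E d)) (p : E d → ℕ) : Set Ω :=
  {ω | ∀ a ∈ A, N a (t + h) ω - N a t ω = p a}

lemma EdgeAvg.nmeas (H : EdgeAvg P ℱ N f) (ht : 0 ≤ t) (a : E d) : Measurable (N a t) :=
  (H.N_adapted a t ht).mono (ℱ.le t) le_rfl

lemma EdgeAvg.pat_meas (H : EdgeAvg P ℱ N f) (ht : 0 ≤ t) (hh : 0 ≤ h) (A : Finset (E d)) (p : E d → ℕ) :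
    MeasurableSet (Pat N t h A p) := by
  have := fun a => H.nmeas (add_nonneg ht hh) a
  have := fun a => H.nmeas ht a
  unfold Pat; measurability

lemma EdgeAvg.pat_prob (H : EdgeAvg P ℱ N f) (ht : 0 ≤ t) (hh : 0 ≤ h) (A : Finset (E d)) (p : E d → ℕ) :
    P.real (Pat N t h A p) = ∏ a ∈ A, exp (-h) * h ^ p a / (p a)! := by
  have h1 := iIndepFun_iff_measure_inter_preimage_eq_mul.1 (H.indep_edges t (t + h) ht (by linarith)) A
    (sets := fun a => {p a}) fun _ _ => .of_discrete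
  have h2 : Pat N t h A p = ⋂ a ∈ A, (fun ω => N a (t + h) ω - N a t ω) ⁻¹' {p a} := by ext; simp [Pat]
  rw [Measure.real, h2, h1, ENNReal.toReal_prod]
  refine prod_congr rfl fun a _ => ?_
  rw [← Measure.map_apply ((H.nmeas (add_nonneg ht hh) a).fun_sub (H.nmeas ht a)) .of_discrete,
    H.law a t (t + h) ht (by linarith), ← Measure.real, poissonMeasure_real_singleton]
  simp [hh]

lemma EdgeAvg.pat_int (H : EdgeAvg P ℱ N f) (ht : 0 ≤ t) (hh : 0 ≤ h) (A : Finset (E d)) (p : E d → ℕ)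
    {X : Ω → ℝ} (hX : Measurable[ℱ t] X) :
    ∫ ω, X ω * (Pat N t h A p).indicator 1 ω ∂P = (∫ ω, X ω ∂P) * P.real (Pat N t h A p) := by
  have h1 : IndepFun X ((Pat N t h A p).indicator (1 : Ω → ℝ)) P := by
    rw [IndepFun_iff_Indep]
    refine indep_of_indep_of_le (H.indep_past t (t + h) ht (by linarith)) hX.comap_le (Measurable.comap_le ?_)
    refine Measurable.indicator measurable_const ⟨{q | ∀ a ∈ A, q a = p a}, by measurability, rfl⟩
  rw [h1.integral_fun_mul_eq_mul_integral (hX.mono (ℱ.le t) le_rfl).aestronglyMeasurable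
    (measurable_const.indicator (H.pat_meas ht hh A p)).aestronglyMeasurable,
    integral_indicator_one (H.pat_meas ht hh A p)]

lemma EdgeAvg.step (H : EdgeAvg P ℱ N f) (ht : 0 ≤ t) (hh : 0 ≤ h) {A : Finset (E d)} {k B : ℝ}
    (hk : A.card ≤ k) {Y X₀ : Ω → ℝ} {X : E d → Ω → ℝ} (hY : Measurable Y) (h0 : Measurable[ℱ t] X₀)
    (hX : ∀ a, Measurable[ℱ t] (X a)) (bY : ∀ ω, |Y ω| ≤ B) (b0 : ∀ ω, |X₀ ω| ≤ B) (bX : ∀ a ω, |X a ω| ≤ B)
    (e0 : ∀ᵐ ω ∂P, ω ∈ Pat N t h A 0 → Y ω = X₀ ω)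
    (e1 : ∀ᵐ ω ∂P, ∀ b ∈ A, ω ∈ Pat N t h A (Pi.single b 1) → Y ω = X b ω) :
    |∫ ω, Y ω ∂P - ∫ ω, X₀ ω + h * ∑ b ∈ A, (X b ω - X₀ ω) ∂P| ≤ 3 * B * k ^ 2 * h ^ 2 := by
  set n : ℝ := (A.card : ℝ)
  have hn : 0 ≤ n := by positivity
  set q := exp (-(n * h)) with hq
  have p0 : P.real (Pat N t h A 0) = q := by
    rw [H.pat_prob ht hh]; simp [hq, n, ← exp_nat_mul]
  have p1 : ∀ b ∈ A, P.real (Pat N t h A (Pi.single b 1)) = h * q := fun b hb => by
    rw [H.pat_prob ht hh, ← p0, H.pat_prob ht hh, ← mul_prod_erase _ _ hb, ← mul_prod_erase _ _ hb,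
      prod_congr rfl fun a ha => by rw [Pi.single_eq_of_ne (ne_of_mem_erase ha)]]
    simp; ring
  have m := fun p => H.pat_meas ht hh A p
  have bi : ∀ p, BM ((Pat N t h A p).indicator (1 : Ω → ℝ)) := fun p =>
    ⟨measurable_const.indicator (m p), 1, fun ω => by by_cases c : ω ∈ Pat N t h A p <;> simp [c]⟩
  have BY : BM Y := ⟨hY, B, bY⟩
  have B0 : BM X₀ := ⟨h0.mono (ℱ.le t) le_rfl, B, b0⟩
  have BX : ∀ a, BM (X a) := fun a => ⟨(hX a).mono (ℱ.le t) le_rfl, B, bX a⟩
  have a1 : ‖∫ ω, Y ω - X₀ ω * (Pat N t h A 0).indicator 1 ω -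
      ∑ b ∈ A, X b ω * (Pat N t h A (Pi.single b 1)).indicator 1 ω ∂P‖ ≤ ∫ ω, B * (1 - (Pat N t h A 0).indicator 1 ω -
      ∑ b ∈ A, (Pat N t h A (Pi.single b 1)).indicator 1 ω) ∂P := by
    refine norm_integral_le_of_norm_le (((BM.const B).mul (((BM.const 1).sub (bi _)).sub
      (BM.sum (fun b => bi _) A))).int P) ?_
    filter_upwards [e0, e1] with ω c0 c1
    by_cases z : ω ∈ Pat N t h A 0
    · have : ∀ b ∈ A, ω ∉ Pat N t h A (Pi.single b 1) := fun b hb hc => by
        simpa [z b hb] using hc b hb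
      simp [z, c0 z, sum_congr rfl fun b hb => Set.indicator_of_notMem (this b hb) (1 : Ω → ℝ),
        sum_congr rfl fun b hb => congrArg (X b ω * ·) (Set.indicator_of_notMem (this b hb) (1 : Ω → ℝ))]
    · by_cases o : ∃ b ∈ A, ω ∈ Pat N t h A (Pi.single b 1)
      · obtain ⟨b, hb, o⟩ := o
        have : ∀ a ∈ A, a ≠ b → ω ∉ Pat N t h A (Pi.single a 1) := fun a ha hab hc => by
          simpa [o a ha, hab] using hc a ha
        rw [sum_eq_single_of_mem b hb fun a ha hab => by simp [this a ha hab],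
          sum_eq_single_of_mem b hb fun a ha hab => by simp [this a ha hab]]
        simp [z, o, c1 b hb o]
      · push Not at o
        simpa [z, sum_congr rfl fun b hb => Set.indicator_of_notMem (o b hb) (1 : Ω → ℝ),
          sum_congr rfl fun b hb => congrArg (X b ω * ·) (Set.indicator_of_notMem (o b hb) (1 : Ω → ℝ))] using bY ω
  rw [integral_sub ((BY.sub (B0.mul (bi _))).int P) ((BM.sum (fun b => (BX b).mul (bi _)) A).int P),
    integral_sub (BY.int P) ((B0.mul (bi _)).int P), integral_finsetSum _ fun b _ => ((BX b).mul (bi _)).int P,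
    integral_const_mul, integral_sub (((BM.const 1).sub (bi _)).int P) ((BM.sum (fun b => bi _) A).int P),
    integral_sub (integrable_const _) ((bi _).int P), integral_finsetSum _ fun b _ => (bi _).int P,
    H.pat_int ht hh _ _ h0, sum_congr rfl fun b hb => by rw [H.pat_int ht hh _ _ (hX b), p1 b hb],
    integral_indicator_one (m _), sum_congr (s₂ := A) rfl fun b hb =>
      (integral_indicator_one (m _)).trans (p1 b hb), p0, ← sum_mul] at a1
  rw [integral_add (B0.int P) (((BM.const h).mul (BM.sum (fun b => (BX b).sub B0) A)).int P), integral_const_mul,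
    integral_finsetSum _ fun b _ => ((BX b).sub B0).int P,
    sum_congr rfl fun b _ => integral_sub ((BX b).int P) (B0.int P), sum_sub_distrib]
  have a2 : |∫ ω, X₀ ω ∂P| ≤ B := (abs_int P b0).trans_eq (by simp)
  have a3 : |∑ b ∈ A, ∫ ω, X b ω ∂P| ≤ n * B := (abs_sum_le_sum_abs _ _).trans
    ((sum_le_card_nsmul _ _ B fun b _ => (abs_int P (bX b)).trans_eq (by simp)).trans_eq (by simp [n]))
  simp only [integral_const, probReal_univ, smul_eq_mul, mul_one, sum_const, nsmul_eq_mul, Real.norm_eq_abs] at a1 ⊢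
  generalize ∫ ω, Y ω ∂P = y at *
  generalize ∫ ω, X₀ ω ∂P = x0 at *
  generalize ∑ b ∈ A, ∫ ω, X b ω ∂P = s at *
  change |y - (x0 + h * (s - n * x0))| ≤ _
  change _ ≤ B * (1 - q - n * (h * q)) at a1
  have hB : 0 ≤ B := (abs_nonneg _).trans a2
  have hx : 0 ≤ n * h := by positivity
  have q1 : 1 - n * h ≤ q := by linarith [add_one_le_exp (-(n * h))]
  have q2 : q * (1 + n * h) ≤ 1 := by
    have := mul_le_mul_of_nonneg_left (add_one_le_exp (n * h)) (exp_pos (-(n * h))).le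
    rw [← exp_add, neg_add_cancel, exp_zero] at this; linarith
  have q0 : 0 < q := exp_pos _
  have q3 : |q - 1 + n * h| ≤ (n * h) ^ 2 := by
    rw [abs_of_nonneg (by linarith)]; nlinarith [mul_nonneg hx (sq_nonneg (n * h))]
  have q4 : |q - 1| ≤ n * h := by rw [abs_le]; constructor <;> nlinarith
  have c1 : |x0 * (q - 1 + n * h)| ≤ B * (n * h) ^ 2 := by rw [abs_mul]; gcongr
  have c2 : |h * s * (q - 1)| ≤ h * (n * B) * (n * h) := by rw [abs_mul, abs_mul, abs_of_nonneg hh]; gcongr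
  have c3 : B * (1 - q - n * (h * q)) ≤ B * (n * h) ^ 2 := by gcongr; nlinarith
  have c4 : B * (n * h) ^ 2 ≤ B * (k * h) ^ 2 := by gcongr
  have e : y - (x0 + h * (s - n * x0)) = (y - x0 * q - s * (h * q)) + x0 * (q - 1 + n * h) + h * s * (q - 1) := by ring
  rw [e]
  refine (abs_add_three _ _ _).trans ?_
  nlinarith

lemma EdgeAvg.path (H : EdgeAvg P ℱ N f) (ht : 0 ≤ t) (hh : 0 ≤ h) : ∀ᵐ ω ∂P, ∀ A v, Good A v →
    (ω ∈ Pat N t h A 0 → f (t + h) ω v = f t ω v) ∧
    ∀ b, ω ∈ Pat N t h A (Pi.single b 1) → b ∈ A → f (t + h) ω v = Av b (f t ω) v := by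
  filter_upwards [H.stay, H.avg] with ω h1 h2 A v hA
  have mo : ∀ a s u, 0 ≤ s → s ≤ u → N a s ω ≤ N a u ω := fun a s u hs hu => H.N_mono a ω hs (hs.trans hu) hu
  have z : ∀ a, N a (t + h) ω - N a t ω = 0 → ∀ s u, t ≤ s → s ≤ u → u ≤ t + h → N a s ω = N a u ω :=
    fun a ha s u c1 c2 c3 => by
      have := mo a t s ht c1; have := mo a s u (ht.trans c1) c2; have := mo a u _ (ht.trans (c1.trans c2)) c3
      omega
  refine ⟨fun hz => h1 v t _ ht (by linarith) fun a ha => z a (hz a (hA.mem ha)) _ _ le_rfl (by linarith) le_rfl,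
    fun b ho hb => ?_⟩
  have o : ∀ a ∈ A, a ≠ b → N a (t + h) ω - N a t ω = 0 := fun a ha hab => by simpa [hab] using ho a ha
  have ob : N b (t + h) ω - N b t ω = 1 := by simpa using ho b hb
  by_cases c : Touch v b
  swap
  · rw [Av, if_neg c]
    exact h1 v t _ ht (by linarith) fun a ha => z a (o a (hA.mem ha) fun e => c (e ▸ ha)) _ _ le_rfl (by linarith) le_rfl
  rw [Av, if_pos c]
  set S := {s | t ≤ s ∧ N b t ω < N b s ω}
  have hS : t + h ∈ S := ⟨by linarith, by omega⟩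
  have hbd : BddBelow S := ⟨t, fun s hs => hs.1⟩
  set τ := sInf S
  have t1 : t ≤ τ := le_csInf ⟨_, hS⟩ fun s hs => hs.1
  have t2 : τ ≤ t + h := csInf_le hbd hS
  have t3 : ∀ s, t ≤ s → s < τ → N b s ω = N b t ω := fun s c1 c2 => by
    by_contra c3
    exact (csInf_le hbd ⟨c1, lt_of_le_of_ne (mo b t s ht c1) (Ne.symm c3)⟩).not_gt c2
  have t4 : N b t ω < N b τ ω := by
    obtain ⟨u, hu, hu2⟩ := mem_nhdsGE_iff_exists_Ico_subset.1 (H.N_right b ω τ (ht.trans t1))
    obtain ⟨s, hs, hs2⟩ := exists_lt_of_csInf_lt ⟨_, hS⟩ hu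
    exact hs.2.trans_eq (hu2 ⟨csInf_le hbd hs, hs2⟩)
  have t5 : t < τ := lt_of_le_of_ne t1 fun e => by rw [← e] at t4; exact lt_irrefl _ t4
  have t6 : ∀ y, Touch y b → Function.leftLim (fun s => f s ω y) τ = f t ω y := fun y hy => by
    refine leftLim_eq_of_tendsto (tendsto_const_nhds.congr' ?_)
    filter_upwards [Ioo_mem_nhdsLT t5] with s hs
    refine (h1 y t s ht hs.1.le fun a ha => ?_).symm
    by_cases e : a = b
    · rw [e, t3 s hs.1.le hs.2]
    · exact z a (o a (hA b c a (hy.imp (fun e : y = b.1 => e ▸ ha) (fun e : y = tip b => e ▸ ha))) e) _ _ le_rfl hs.1.le (hs.2.le.trans t2)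
  rw [← t6 _ (.inl rfl), ← t6 _ (.inr rfl), ← h2 b τ (ht.trans_lt t5) (fun s c1 c2 => ?_) v c]
  · refine h1 v τ _ (ht.trans t1) t2 fun a ha => ?_
    by_cases e : a = b
    · have := mo b τ _ (ht.trans t1) t2
      rw [e]; omega
    · exact z a (o a (hA.mem ha) e) _ _ t1 t2 le_rfl
  · rcases le_total s t with c3 | c3
    · exact (mo b s t c1 c3).trans_lt t4
    · rwa [t3 s c3 c2]

lemma av_meas {m : MeasurableSpace Ω} {η : Ω → V d → ℝ} (h : ∀ v, Measurable[m] fun ω => η ω v) (a : E d) (v : V d) :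
    Measurable[m] fun ω => Av a (η ω) v := by
  unfold Av; split_ifs
  · exact ((h _).add (h _)).div_const _
  · exact h _

lemma EdgeAvg.bdd (H : EdgeAvg P ℱ N f) {M : ℝ} (hM : ∀ᵐ ω ∂P, ∀ v, |f 0 ω v| ≤ M) (ht : 0 ≤ t) :
    ∀ᵐ ω ∂P, ∀ v, |f t ω v| ≤ M := by
  let I : ℝ → ℝ := fun x => if M < |x| then 1 else 0
  have mI : Measurable I := Measurable.ite (by measurability) measurable_const measurable_const
  have bI : ∀ x, |I x| ≤ 1 := fun x => by simp only [I]; split_ifs <;> simp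
  have pI : ∀ x, 0 ≤ I x := fun x => by simp only [I]; split_ifs <;> simp
  have fm : ∀ t v, 0 ≤ t → BM fun ω => I (f t ω v) := fun t v ht =>
    ⟨mI.comp ((H.f_adapted t v ht).mono (ℱ.le t) le_rfl), 1, fun _ => bI _⟩
  have k := gron (u := fun t v => ∫ ω, I (f t ω v) ∂P) (K := 3 * (k0 d) ^ 2 + 2 * k0 d) (by positivity)
    (fun v => integral_eq_zero_of_ae (hM.mono fun ω h => by simp [I, h v])) (fun t h B ht hh h1 hB v => ?_) ht
  · rw [ae_all_iff]
    intro v
    filter_upwards [(integral_eq_zero_iff_of_nonneg (fun _ => pI _) ((fm t v ht).int P)).1 (k v)] with ω hω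
    simpa [I] using hω
  have hB0 : 0 ≤ B := (abs_nonneg _).trans (hB v)
  have mX := fun a => mI.comp (av_meas (fun v => H.f_adapted t v ht) a v)
  have BX : ∀ a, BM fun ω => I (Av a (f t ω) v) := fun a => ⟨(mX a).mono (ℱ.le t) le_rfl, 1, fun _ => bI _⟩
  have a1 := H.step ht hh (A := nb v) (k := k0 d) (B := 1) (by exact_mod_cast nb_card v)
    (fm _ v (add_nonneg ht hh)).1 (mI.comp (H.f_adapted t v ht)) mX (fun _ => bI _) (fun _ => bI _) (fun _ _ => bI _)
    ((H.path ht hh).mono fun ω c z => congrArg I ((c _ _ (nb_good v)).1 z))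
    ((H.path ht hh).mono fun ω c b hb z => congrArg I ((c _ _ (nb_good v)).2 b z hb))
  simp only [Function.comp] at a1
  rw [integral_add ((fm t v ht).int P) (((BM.const h).mul (BM.sum (fun b => (BX b).sub (fm t v ht)) _)).int P),
    integral_const_mul, integral_finsetSum _ fun b _ => ((BX b).sub (fm t v ht)).int P] at a1
  have a2 : ∑ b ∈ nb v, ∫ ω, I (Av b (f t ω) v) - I (f t ω v) ∂P ≤ k0 d * (2 * B) := by
    refine (sum_le_card_nsmul _ _ (2 * B) fun b _ => ?_).trans (by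
      rw [nsmul_eq_mul]; gcongr; exact_mod_cast nb_card v)
    refine (integral_mono (((BX b).sub (fm t v ht)).int P) ((bm_add (fm t b.1 ht) (fm t (tip b) ht)).int P)
      fun ω => ?_).trans ?_
    · simp only [Av]
      split_ifs
      · have := pI (f t ω v)
        simp only [I] at this ⊢
        have c := abs_add_le (f t ω b.1) (f t ω (tip b))
        rw [abs_div, abs_two]
        split_ifs <;> linarith
      · linarith [pI (f t ω b.1), pI (f t ω (tip b))]
    · rw [integral_add ((fm t _ ht).int P) ((fm t _ ht).int P)]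
      linarith [(abs_le.1 (hB b.1)).2, (abs_le.1 (hB (tip b))).2]
  rw [abs_of_nonneg (integral_nonneg fun _ => pI _)]
  have := (abs_le.1 a1).2
  have := (abs_le.1 (hB v)).2
  have := mul_le_mul_of_nonneg_left a2 hh
  nlinarith [mul_nonneg (mul_nonneg hB0 hh) (sq_nonneg (k0 d : ℝ)), mul_nonneg (Nat.cast_nonneg (α := ℝ) (k0 d)) (sq_nonneg h)]

end

end Pool.Agent.H43.Avg
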