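import Pool.Agent.H43.ExFour

set_option autoImplicit false
set_option linter.unusedSectionVars false

namespace Pool.Agent.H43.Ex

open MeasureTheory ProbabilityTheory Filter Topology Finset Function
open scoped NNReal ENNReal

noncomputable section

variable {I : Type} [DecidableEq I] [Countable I]

/-- `X` is a Markov process with cadlag paths, started from `PP I`, with generator `L` -/
structure Dyn {W : Type} [MeasurableSpace W] (L : ((I → Bool) → ℝ) → (I → Bool) → ℝ)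
    (μ : Measure W) (X : ℝ → W → I → Bool) : Prop where
  meas : ∀ t, Measurable (X t)
  init : μ.map (X 0) = PP I
  path : ∀ᵐ w ∂μ, (∀ t, 0 ≤ t → ContinuousWithinAt (X · w) (Set.Ici t) t) ∧
    ∀ t, 0 < t → ∃ y, Tendsto (X · w) (𝓝[<] t) (𝓝 y)
  mark : ∃ κ : ℝ → Kernel (I → Bool) (I → Bool), (∀ t, IsMarkovKernel (κ t)) ∧ Gen L κ ∧
    ∀ s t, 0 ≤ s → 0 ≤ t → ∀ E, MeasurableSet[⨆ u ∈ Set.Icc 0 s, .comap (X u) inferInstance] E →
      ∀ A, MeasurableSet A → μ (E ∩ X (s + t) ⁻¹' A) = ∫⁻ w in E, κ t (X s w) A ∂μ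

variable {κ κ' : ℝ → Kernel (I → Bool) (I → Bool)} [∀ t, IsMarkovKernel (κ t)]
  [∀ t, IsMarkovKernel (κ' t)] {P : I → I → ℝ} {K : ℕ} {O : Set (I → Bool)} {F : Finset I}

lemma aa_ind (h : Gen Lind κ) {t : ℝ} (ht : 0 ≤ t) (S T : Finset I) :
    aa (κ t) S T = if T = S then Real.exp (-t) ^ S.card else 0 := by
  simp only [aa, ind_chi h ht, mul_left_comm (chi S _), integral_const_mul, orth]
  split_ifs with h <;> simp [h]

lemma rev_ind (h : Gen Lind κ) {t : ℝ} (ht : 0 ≤ t) : Rev (PP I) (κ t) :=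
  rev fun S T => by rcases eq_or_ne S T with rfl | h' <;> simp [aa_ind h ht, *, eq_comm]

lemma us_dep (h : Gen Lind κ) {t : ℝ} (ht : 0 ≤ t) (hO : DependsOn (· ∈ O) F) (k : ℕ) :
    DependsOn (us (κ t) O k) F := by
  classical
  induction k with
  | zero => exact fun x y h1 => by simp [us, Set.indicator_apply, hO h1]
  | succ k ih =>
    intro x y h1
    obtain ⟨c, hc⟩ := four F _ ih
    simp only [us, Set.indicator_apply, Set.mem_compl_iff, hO h1, hc, Qf_sum, ind_chi h ht]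
    rw [sum_congr rfl fun S hS => by rw [chi_dep S fun i hi => h1 i (mem_powerset.1 hS hi)]]

lemma comp (h : Gen (Lexc P) κ) (h' : Gen Lind κ') (h0 : ∀ x y, 0 ≤ P x y) (hs : ∀ x y, P x y = P y x)
    (hK : ∀ x (u : Finset I), ∑ y ∈ u, P x y ≤ K) {t : ℝ} (ht : 0 ≤ t) {l : ℝ} (l0 : 0 ≤ l)
    (l1 : l ≤ 1) : Rev (PP I) (κ t) ∧ ∀ f, DependsOn f F →
      B (PP I) (κ t) l f f ≤ (2 * K + 1) * B (PP I) (κ' t) l f f := by
  have g := ex_lev h h0 hs hK ht
  have a1 : ∀ S T, aa (κ t) S T = aa (κ t) T S := fun S T =>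
    (g _).symm ⟨S, le_max_left _ T.card⟩ ⟨T, le_max_right _ _⟩
  refine ⟨rev a1, fun f hf => ?_⟩
  obtain ⟨c, rfl⟩ := four F f hf
  have hb : BM fun ω => ∑ S ∈ F.powerset, c S * chi S ω :=
    BM.sum (fun S => (BM.const _).mul (chi_bm S)) _
  have a0 : ∀ f : (I → Bool) → ℝ, BM f → Qf (κ' 0) f = f := fun f hf => funext fun ω => by
    rw [Qf, h'.1, Kernel.id_apply, integral_dirac' _ _ hf.1.stronglyMeasurable]
  have a2 := bil (Q := κ' 0) F.powerset F.powerset c c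
  rw [a0 _ hb] at a2
  have a3 : ∀ S ∈ F.powerset, ∑ T ∈ F.powerset, aa (κ t) T S ≤ 1 := fun S hS => by
    have := (g _).row ⟨S, card_le_card (mem_powerset.1 hS)⟩ (F.powerset.subtype _)
    rwa [sum_subtype_of_mem (aa (κ t) · S) fun T hT => card_le_card (mem_powerset.1 hT)] at this
  have a4 : ∀ S, 1 - aa (κ t) S S ≤ K * (1 - Real.exp (-t) ^ S.card) := fun S => by
    have b1 := (g _).diag ⟨S, le_rfl⟩
    have b2 := one_add_mul_le_pow (a := Real.exp (-t) ^ S.card - 1)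
      (by linarith [pow_pos (Real.exp_pos (-t)) S.card]) K
    rw [add_sub_cancel, ← pow_mul] at b2
    linarith
  have a5 : ∀ S : Finset I, Real.exp (-t) ^ S.card ≤ 1 := fun S =>
    pow_le_one₀ (Real.exp_pos _).le (Real.exp_le_one_iff.2 (by linarith))
  have a6 : ∑ S ∈ F.powerset, ∑ T ∈ F.powerset, ((if T = S then 2 * (c S * c S * aa (κ t) S S) else 0) -
      c S * c S * aa (κ t) T S / 2 - c T * c T * aa (κ t) S T / 2) ≤
      ∑ S ∈ F.powerset, ∑ T ∈ F.powerset, c S * c T * aa (κ t) S T :=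
    sum_le_sum fun S _ => sum_le_sum fun T _ => by
      have : 0 ≤ aa (κ t) S T := (g _).nonneg ⟨S, le_max_left _ T.card⟩ ⟨T, le_max_right _ _⟩
      split_ifs with h
      · rw [h]; linarith
      · rw [a1 T]; nlinarith [mul_nonneg (sq_nonneg (c S + c T)) this]
  simp only [sum_sub_distrib, ← sum_div, ← mul_sum] at a6
  rw [sum_comm (f := fun S T => c T * c T * aa (κ t) S T)] at a6
  have a7 := sum_le_sum fun S hS => mul_le_of_le_one_right (mul_self_nonneg (c S)) (a3 S hS)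
  have a8 := sum_le_sum fun S (_ : S ∈ F.powerset) =>
    mul_le_mul_of_nonneg_left (a4 S) (mul_self_nonneg (c S))
  have a9 := sum_le_sum fun S (_ : S ∈ F.powerset) =>
    mul_le_of_le_one_right (mul_self_nonneg (c S)) (a5 S)
  have b0 : 0 ≤ ∑ S ∈ F.powerset, c S * c S := sum_nonneg fun S _ => mul_self_nonneg _
  rw [B_eq hb hb, B_eq hb hb, a2, bil, bil]
  simp only [aa_ind h' ht, aa_ind h' le_rfl, mul_ite, mul_zero, sum_ite_eq', neg_zero, Real.exp_zero,
    one_pow, mul_one, ← mul_sum, sum_ite_mem, inter_self, mul_sub, sum_sub_distrib,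
    mul_left_comm _ (K : ℝ), ← sum_mul] at *
  have b1 : (0 : ℝ) ≤ K := by positivity
  nlinarith [mul_nonneg b1 (mul_nonneg (sub_nonneg.2 l1) b0), mul_nonneg l0 (sub_nonneg.2 a9)]

lemma cyl_open (hO : DependsOn (· ∈ O) F) : IsOpen O := by
  refine isOpen_iff_mem_nhds.2 fun x hx => mem_of_superset (set_pi_mem_nhds F.finite_toSet
    (s := fun i => {x i}) fun i _ => (isOpen_discrete _).mem_nhds rfl) fun y hy => ?_
  exact (hO hy).mpr hx

variable {W W' : Type} [MeasurableSpace W] [MeasurableSpace W'] {μ : Measure W} {μ' : Measure W'}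
  [IsProbabilityMeasure μ] [IsProbabilityMeasure μ'] {X : ℝ → W → I → Bool} {Y : ℝ → W' → I → Bool}

def Mk (μ : Measure W) (X : ℝ → W → I → Bool) (κ : ℝ → Kernel (I → Bool) (I → Bool)) : Prop :=
  ∀ s t, 0 ≤ s → 0 ≤ t → ∀ E, MeasurableSet[⨆ u ∈ Set.Icc 0 s, .comap (X u) inferInstance] E →
    ∀ A, MeasurableSet A → μ (E ∩ X (s + t) ⁻¹' A) = ∫⁻ w in E, κ t (X s w) A ∂μ

lemma filt {s u : ℝ} (h : u ∈ Set.Icc 0 s) :
    Measurable[⨆ u ∈ Set.Icc 0 s, .comap (X u) inferInstance] (X u) :=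
  .of_comap_le (le_iSup₂ (f := fun u (_ : u ∈ Set.Icc 0 s) => MeasurableSpace.comap (X u) _) u h)

lemma grid (hX : ∀ t, Measurable (X t)) (h0 : μ.map (X 0) = PP I) (h : Mk μ X κ) {δ : ℝ}
    (hδ : 0 ≤ δ) (hO : MeasurableSet O) (k : ℕ) :
    1 - ∫ x, us (κ δ) O k x ∂PP I = μ.real {w | ∃ j < k + 1, X ((j : ℕ) * δ) w ∈ O} := by
  have h1 := chain (μ := μ) (Q := κ δ) (Y := fun j => X (j * δ)) (fun _ => hX _) hO (fun i A hA => by
    rw [← h (i * δ) δ (by positivity) hδ _ ?_ A hA]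
    · simp [add_mul]
    · rw [Set.ofPred_forall]
      refine .iInter fun j => ?_
      rw [Set.ofPred_forall]
      exact .iInter fun hj => filt ⟨by positivity, by gcongr; omega⟩ hO.compl) k 0
  simp only [not_lt_zero, false_imp_iff, implies_true, Set.ofPred_true, Measure.restrict_univ,
    Nat.cast_zero, zero_mul, zero_add] at h1
  rw [← h0, integral_map (hX 0).aemeasurable (us_spec hO k).1.1.aestronglyMeasurable, h1,
    ← probReal_compl_eq_one_sub (by measurability)]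
  congr 1
  ext w
  simp

lemma liminf_le {S : Set W} {E : ℕ → Set W} {b : ℝ} (hS : ∀ᵐ w ∂μ, w ∈ S → ∀ᶠ m in atTop, w ∈ E m)
    (h : ∀ m, μ.real (E m) ≤ b) : μ S ≤ .ofReal b := by
  refine (measure_mono_ae (t := ⋃ M, ⋂ m ≥ M, E m) (hS.mono fun w h1 h2 => ?_)).trans ?_
  · obtain ⟨M, hM⟩ := eventually_atTop.1 (h1 h2)
    exact Set.mem_iUnion.2 ⟨M, Set.mem_iInter₂.2 hM⟩
  · rw [Monotone.measure_iUnion fun M N hN => Set.biInter_subset_biInter_left fun m hm => hN.trans hm]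
    exact iSup_le fun M => (measure_mono (Set.biInter_subset_of_mem le_rfl)).trans
      ((ENNReal.le_ofReal_iff_toReal_le (by simp) (measureReal_nonneg.trans (h 0))).2 (h M))

lemma ceil_lim {t : ℝ} (ht : 0 ≤ t) :
    Tendsto (fun m : ℕ => (⌈t * (m + 1)⌉₊ : ℝ) * (1 / (m + 1))) atTop (𝓝[≥] t) ∧
    Tendsto (fun m : ℕ => ((⌈t * (m + 1)⌉₊ : ℝ) - 1) * (1 / (m + 1))) atTop (𝓝[<] t) := by
  have h := (tendsto_nat_ceil_mul_div_atTop ht).comp
    (tendsto_atTop_add_const_right _ 1 tendsto_natCast_atTop_atTop)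
  refine ⟨tendsto_nhdsWithin_iff.2 ⟨by simpa [div_eq_mul_inv, comp_def] using h, .of_forall fun m => ?_⟩,
    tendsto_nhdsWithin_iff.2 ⟨?_, .of_forall fun m => ?_⟩⟩
  · rw [Set.mem_Ici, mul_one_div, le_div_iff₀ (by positivity)]; exact Nat.le_ceil _
  · simpa [div_eq_mul_inv, sub_mul] using h.sub tendsto_one_div_add_atTop_nhds_zero_nat
  · rw [Set.mem_Iio, mul_one_div, div_lt_iff₀ (by positivity)]
    linarith [Nat.ceil_lt_add_one (a := t * (m + 1)) (by positivity)]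

lemma hit (hX : Dyn (Lexc P) μ X) (hY : Dyn Lind μ' Y) (h0 : ∀ x y, 0 ≤ P x y)
    (hs : ∀ x y, P x y = P y x) (hK : ∀ x (u : Finset I), ∑ y ∈ u, P x y ≤ K)
    (hO : DependsOn (· ∈ O) F) {T T' : ℕ} (hT : T ≤ T') :
    μ {w | ∃ t ∈ Set.Ico (0 : ℝ) T, X t w ∈ O} ≤ .ofReal (Real.exp T * ((2 * K + 3) * Real.exp (-T') +
      (2 * K + 1) * μ'.real {w | ∃ q : ℚ, (q : ℝ) ∈ Set.Icc (0 : ℝ) T' ∧ Y q w ∈ O})) := by
  obtain ⟨κ, _, a1, a2⟩ := hX.mark
  obtain ⟨κ', _, b1, b2⟩ := hY.mark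
  have hm := (cyl_open hO).measurableSet
  refine liminf_le (E := fun m => {w | ∃ j < T * (m + 1) + 1, X ((j : ℕ) * (1 / (m + 1))) w ∈ O})
    (hX.path.mono ?_) fun m => ?_
  · rintro w ⟨h1, -⟩ ⟨t, ht, h2⟩
    filter_upwards [((h1 t ht.1).tendsto.comp (ceil_lim ht.1).1).eventually
      ((cyl_open hO).mem_nhds h2)] with m h3
    refine ⟨_, Nat.lt_succ_of_le (Nat.ceil_le.2 ?_), h3⟩
    push_cast
    exact mul_le_mul_of_nonneg_right ht.2.le (by positivity)
  have hδ : (0 : ℝ) < 1 / (m + 1) := by positivity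
  have l1 : Real.exp (-(1 / (m + 1))) < 1 := Real.exp_lt_one_iff.2 (by linarith)
  obtain ⟨c1, c2⟩ := comp (F := F) a1 b1 h0 hs hK hδ.le (Real.exp_pos _).le l1.le
  have h1 := cap c1 (rev_ind b1 hδ.le) hm (Real.exp_pos _).le l1 (Nat.mul_le_mul_right (m + 1) hT)
    (by positivity) (c2 _ fun x y h => by simp only [pot, us_dep b1 hδ.le hO _ h])
  have h2 : ∀ T : ℕ, Real.exp (-(1 / (m + 1))) ^ (T * (m + 1)) = Real.exp (-T) := fun T => by
    rw [← Real.exp_nat_mul]; congr 1; push_cast; field_simp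
  rw [grid hX.meas hX.init a2 hδ.le hm, grid hY.meas hY.init b2 hδ.le hm, h2, h2, Real.exp_neg T,
    inv_mul_le_iff₀ (Real.exp_pos _)] at h1
  refine h1.trans (mul_le_mul_of_nonneg_left ?_ (Real.exp_pos _).le)
  have h3 := measureReal_mono (μ := μ') (s₂ := {w | ∃ q : ℚ, (q : ℝ) ∈ Set.Icc (0 : ℝ) T' ∧ Y q w ∈ O})
    (s₁ := {w | ∃ j < T' * (m + 1) + 1, Y ((j : ℕ) * (1 / (m + 1))) w ∈ O}) (by
      rintro w ⟨j, h3, h4⟩
      refine ⟨j * (1 / (m + 1)), ?_⟩
      push_cast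
      refine ⟨⟨by positivity, ?_⟩, h4⟩
      rw [mul_one_div, div_le_iff₀ (by positivity)]
      exact_mod_cast Nat.le_of_lt_succ h3) (measure_ne_top _ _)
  nlinarith [mul_le_mul_of_nonneg_left h3 (show (0 : ℝ) ≤ 2 * K + 1 by positivity)]

lemma jump (hY : Dyn Lind μ' Y) (hO : DependsOn (· ∈ O) F) (x : I) (T : ℕ) :
    μ' {w | ∃ t ∈ Set.Ioc (0 : ℝ) T, ∃ y ∈ O, Tendsto (Y · w) (𝓝[<] t) (𝓝 y) ∧ y x ≠ Y t w x} ≤
      .ofReal (T * (2 * (PP I).real O)) := by
  obtain ⟨κ, _, a1, a2⟩ := hY.mark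
  have hm := (cyl_open hO).measurableSet
  have hi : BM (O.indicator (1 : (I → Bool) → ℝ)) :=
    ⟨measurable_one.indicator hm, 1, fun x => by by_cases h : x ∈ O <;> simp [h]⟩
  have h1 : ∀ s, 0 ≤ s → μ'.real (Y s ⁻¹' O) = (PP I).real O := fun s hs => by
    have := markov (hY.meas 0) (hY.meas _) (a2 0 s le_rfl hs _ .univ) hi
    rw [Measure.restrict_univ, zero_add, ← integral_map (hY.meas 0).aemeasurable
      (hi.ker _).1.aestronglyMeasurable, hY.init, (rev_ind a1 hs).inv hi, integral_indicator_one hm] at this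
    rw [← this, ← integral_indicator_one (hY.meas s hm)]
    rfl
  have h2 : ∀ s δ, 0 ≤ s → 0 ≤ δ → ∀ b, μ'.real (Y s ⁻¹' (O ∩ {ω | ω x = b}) ∩ Y (s + δ) ⁻¹' {ω | ω x = b}ᶜ) ≤
      δ * (PP I).real O := fun s δ hs hδ b => by
    have hA : MeasurableSet {ω : I → Bool | ω x = b} := by measurability
    rw [Measure.real, a2 s δ hs hδ _ (filt ⟨hs, le_rfl⟩ (hm.inter hA)) _ hA.compl, ← h1 s hs]
    refine ENNReal.toReal_le_of_le_ofReal (by positivity) ((setLIntegral_mono' (g := fun _ => .ofReal δ)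
      (hY.meas s (hm.inter hA)) fun w hw => ?_).trans ?_)
    · refine (ENNReal.le_ofReal_iff_toReal_le (by simp) hδ).2 ?_
      have h3 := ind_chi a1 hδ {x} (Y s w)
      rw [← Measure.real, ← integral_indicator_one hA.compl, integral_congr_ae
        (g := fun η => 1 / 2 - sg b / 2 * chi {x} η) (ae_of_all _ fun η => ?_),
        integral_sub (integrable_const _) (((chi_bm _).int _).const_mul _), integral_const_mul,
        show ∫ η, chi {x} η ∂κ δ (Y s w) = _ from h3]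
      · have := Real.add_one_le_exp (-δ)
        cases b <;> simp [chi, show Y s w x = _ from hw.2, sg] <;> linarith
      · cases b <;> cases h : η x <;> simp [chi, sg, h] <;> norm_num
    · rw [setLIntegral_const, ENNReal.ofReal_mul hδ, ofReal_measureReal]
      exact mul_le_mul_right (measure_mono fun w h => h.1) _
  refine liminf_le (E := fun m => ⋃ j ∈ range (T * (m + 1)), ⋃ b,
    Y (j * (1 / (m + 1))) ⁻¹' (O ∩ {ω | ω x = b}) ∩ Y (j * (1 / (m + 1)) + 1 / (m + 1)) ⁻¹' {ω | ω x ≠ b})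
    (hY.path.mono ?_) fun m => ?_
  · rintro w ⟨h3, -⟩ ⟨t, ht, y, h4, h5, h6⟩
    obtain ⟨c1, c2⟩ := ceil_lim ht.1.le
    filter_upwards [(h5.comp c2).eventually ((cyl_open hO).mem_nhds h4),
      tendsto_pure.1 (nhds_discrete Bool ▸ tendsto_pi_nhds.1 (h5.comp c2) x),
      tendsto_pure.1 (nhds_discrete Bool ▸ tendsto_pi_nhds.1 ((h3 t ht.1.le).tendsto.comp c1) x)]
      with m d1 d2 d3
    have d4 : 0 < ⌈t * (m + 1)⌉₊ := Nat.ceil_pos.2 (by have := ht.1; positivity)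
    have d5 : ⌈t * (m + 1)⌉₊ ≤ T * (m + 1) := Nat.ceil_le.2 (by
      push_cast; exact mul_le_mul_of_nonneg_right ht.2 (by positivity))
    simp only [Set.mem_iUnion]
    refine ⟨⌈t * (m + 1)⌉₊ - 1, mem_range.2 (by omega), y x, ?_⟩
    rw [Nat.cast_pred d4, ← add_one_mul, sub_add_cancel]
    exact ⟨⟨d1, d2⟩, fun h => h6 (h.symm.trans d3)⟩
  · refine (measureReal_biUnion_finset_le _ _).trans ((sum_le_card_nsmul _ _ _ fun j _ =>
      (measureReal_iUnion_fintype_le _).trans (sum_le_card_nsmul _ _ _ fun b _ =>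
        h2 _ _ (by positivity) (by positivity) b)).trans_eq ?_)
    simp
    field_simp

end

end Pool.Agent.H43.Ex
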