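import Pool.Agent.H43.Avg3
import Pool.Agent.H43.ExMain

set_option autoImplicit false
set_option linter.unusedSectionVars false

namespace Pool.Agent.H43.Avg

open MeasureTheory ProbabilityTheory Filter Topology Finset Real Pool.Agent.H43.Ex
open scoped Nat

noncomputable section

variable {d : ℕ} {Ω : Type} {mΩ : MeasurableSpace Ω} {P : Measure Ω} [IsProbabilityMeasure P]
  {ℱ : Filtration ℝ mΩ} {N : E d → ℝ → Ω → ℕ} {f m : ℝ → Ω → V d → ℝ} {t h M C : ℝ}

def clip (M x : ℝ) : ℝ := max (-M) (min M x)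

lemma clip_abs (hM : 0 ≤ M) (x : ℝ) : |clip M x| ≤ M :=
  abs_le.2 ⟨le_max_left _ _, max_le (by linarith) (min_le_left _ _)⟩

lemma clip_eq {x : ℝ} (h : |x| ≤ M) : clip M x = x := by
  rw [clip, min_eq_right (abs_le.1 h).2, max_eq_right (abs_le.1 h).1]

lemma clip_meas : Measurable (clip M) := by unfold clip; fun_prop

def LL (η : V d → ℝ) (x : V d) : ℝ := ∑ j, 1 / 2 * (η (x + w j) - η x)

def cJ (d : ℕ) : ℝ := Fintype.card (J d)

lemma cJ_nonneg : 0 ≤ cJ d := Nat.cast_nonneg _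

lemma sum_abs {g : J d → ℝ} {B : ℝ} (h : ∀ j, |g j| ≤ B) : |∑ j, g j| ≤ cJ d * B :=
  (abs_sum_le_sum_abs _ _).trans ((sum_le_card_nsmul _ _ _ fun j _ => h j).trans_eq (by simp [cJ]))

lemma sub_abs {a b B : ℝ} (ha : |a| ≤ B) (hb : |b| ≤ B) : |a - b| ≤ 2 * B := (abs_sub _ _).trans (by linarith)

lemma LL_abs {η : V d → ℝ} {B : ℝ} (h : ∀ x, |η x| ≤ B) (x : V d) : |LL η x| ≤ cJ d * B :=
  sum_abs fun j => by rw [abs_mul, abs_of_pos one_half_pos]; linarith [sub_abs (h (x + w j)) (h x)]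

structure Aux (ℱ : Filtration ℝ mΩ) (m : ℝ → Ω → V d → ℝ) (M C : ℝ) : Prop where
  meas : ∀ t v, Measurable[ℱ 0] fun ω => m t ω v
  bd : ∀ t ω v, 0 ≤ t → |m t ω v| ≤ M
  tay : ∀ t h ω v, 0 ≤ t → 0 ≤ h → |m (t + h) ω v - m t ω v - h * LL (m t ω) v| ≤ C * h ^ 2
  C0 : 0 ≤ C

lemma aux0 (hM : 0 ≤ M) : Aux (d := d) ℱ 0 M 0 :=
  ⟨fun _ _ => measurable_const, fun _ _ _ _ => by simpa, fun _ _ _ _ _ _ => by simp [LL], le_rfl⟩

lemma Aux.lip (A : Aux ℱ m M C) (ht : 0 ≤ t) (hh : 0 ≤ h) (h1 : h ≤ 1) (ω : Ω) (v : V d) :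
    |m (t + h) ω v - m t ω v| ≤ (C + cJ d * M) * h := by
  have a1 := abs_le.1 (A.tay t h ω v ht hh)
  have a2 := abs_le.1 (LL_abs (fun x => A.bd t ω x ht) v)
  have a3 : C * h ^ 2 ≤ C * h := mul_le_mul_of_nonneg_left (by nlinarith) A.C0
  rw [abs_le]
  constructor <;> nlinarith [mul_le_mul_of_nonneg_left a2.1 hh, mul_le_mul_of_nonneg_left a2.2 hh]

def FF (M : ℝ) (f : ℝ → Ω → V d → ℝ) (t : ℝ) (ω : Ω) (v : V d) : ℝ := clip M (f t ω v)

def U (P : Measure Ω) (M : ℝ) (f m : ℝ → Ω → V d → ℝ) (x y : V d) (t : ℝ) : ℝ :=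
  ∫ ω, (FF M f t ω x - m t ω x) * (FF M f t ω y - m t ω y) ∂P

def gg (P : Measure Ω) (M : ℝ) (f : ℝ → Ω → V d → ℝ) (x : V d) (j : J d) (t : ℝ) : ℝ :=
  ∫ ω, (FF M f t ω (x + w j) - FF M f t ω x) ^ 2 ∂P

def ind (x y : V d) (j : J d) : ℝ := (if y = x then 1 else 0) - if y = x + w j then 1 else 0

lemma ind_abs (x y : V d) (j : J d) : |ind x y j| ≤ 1 := by
  unfold ind; split_ifs <;> simp

def GG (P : Measure Ω) (M : ℝ) (f m : ℝ → Ω → V d → ℝ) (x y : V d) (t : ℝ) : ℝ :=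
  1 / 2 * ∑ j, (U P M f m (x + w j) y t - U P M f m x y t) +
    1 / 2 * ∑ j, (U P M f m x (y + w j) t - U P M f m x y t) + ∑ j, ind x y j / 4 * gg P M f x j t

lemma alg {a b α β e₁ e₂ s₁ s₂ K h : ℝ} (ha : |a| ≤ K) (hb : |b| ≤ K) (hα : |α| ≤ K) (hβ : |β| ≤ K)
    (h1 : |e₁| ≤ K * h ^ 2) (h2 : |e₂| ≤ K * h ^ 2) (h3 : |s₁| ≤ K * h) (h4 : |s₂| ≤ K * h) (hh : 0 ≤ h) :
    |-(a * e₂) - e₁ * b + s₁ * s₂ - h * (α * s₂) - h * (s₁ * β)| ≤ 5 * K ^ 2 * h ^ 2 := by
  have hK : 0 ≤ K := (abs_nonneg _).trans ha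
  have c1 : |a * e₂| ≤ K * (K * h ^ 2) := by rw [abs_mul]; gcongr
  have c2 : |e₁ * b| ≤ (K * h ^ 2) * K := by rw [abs_mul]; gcongr
  have c3 : |s₁ * s₂| ≤ (K * h) * (K * h) := by rw [abs_mul]; gcongr
  have c4 : |h * (α * s₂)| ≤ h * (K * (K * h)) := by rw [abs_mul, abs_mul, abs_of_nonneg hh]; gcongr
  have c5 : |h * (s₁ * β)| ≤ h * ((K * h) * K) := by rw [abs_mul, abs_mul, abs_of_nonneg hh]; gcongr
  rw [abs_le] at *
  constructor <;> linarith

variable (H : EdgeAvg P ℱ N f) (hM : 0 ≤ M) (hb : ∀ᵐ ω ∂P, ∀ v, |f 0 ω v| ≤ M) (A : Aux ℱ m M C)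
include H hM

lemma ff_meas (ht : 0 ≤ t) (v : V d) : Measurable[ℱ t] fun ω => FF M f t ω v :=
  clip_meas.comp (H.f_adapted t v ht)

lemma ff_bm (ht : 0 ≤ t) (v : V d) : BM fun ω => FF M f t ω v :=
  ⟨(ff_meas H hM ht v).mono (ℱ.le t) le_rfl, M, fun _ => clip_abs hM _⟩

lemma gg_abs (ht : 0 ≤ t) (x : V d) (j : J d) : |gg P M f x j t| ≤ (2 * M) ^ 2 :=
  (abs_int P (C := (2 * M) ^ 2) fun ω => by
    rw [abs_pow]; gcongr; exact sub_abs (clip_abs hM _) (clip_abs hM _)).trans_eq (by simp)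

include A

lemma hh_bm (ht : 0 ≤ t) (v : V d) : BM fun ω => FF M f t ω v - m t ω v :=
  (ff_bm H hM ht v).sub ⟨(A.meas t v).mono (ℱ.le 0) le_rfl, M, fun ω => A.bd t ω v ht⟩

lemma U_abs (ht : 0 ≤ t) (x y : V d) : |U P M f m x y t| ≤ (2 * M) ^ 2 :=
  (abs_int P (C := (2 * M) ^ 2) fun ω => by
    rw [abs_mul, sq]
    gcongr <;> exact sub_abs (clip_abs hM _) (A.bd _ _ _ ht)).trans_eq (by simp)

include hb

lemma ff_path (ht : 0 ≤ t) (hh : 0 ≤ h) : ∀ᵐ ω ∂P, ∀ B v, Good B v →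
    (ω ∈ Pat N t h B 0 → FF M f (t + h) ω v = FF M f t ω v) ∧
    ∀ b, ω ∈ Pat N t h B (Pi.single b 1) → b ∈ B → FF M f (t + h) ω v = Av b (FF M f t ω) v := by
  filter_upwards [H.path ht hh, H.bdd hb ht, H.bdd hb (add_nonneg ht hh)] with ω c1 c2 c3
  rwa [show FF M f t ω = f t ω from funext fun v => clip_eq (c2 v),
    show FF M f (t + h) ω = f (t + h) ω from funext fun v => clip_eq (c3 v)]

lemma ode : ∃ K, 0 ≤ K ∧ ∀ x y t h, 0 ≤ t → 0 ≤ h → h ≤ 1 →
    |U P M f m x y (t + h) - U P M f m x y t - h * GG P M f m x y t| ≤ K * h ^ 2 := by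
  have hc := cJ_nonneg (d := d)
  have hC := A.C0
  refine ⟨3 * (2 * M) ^ 2 * (2 * k0 d) ^ 2 + 5 * (2 * M + cJ d * M + C) ^ 2, by positivity,
    fun x y t h ht hh h1 => ?_⟩
  have th := add_nonneg ht hh
  have gx : Good (nb x ∪ nb y) x := fun b hb a ha => mem_union_left _ (nb_good x b hb a ha)
  have gy : Good (nb x ∪ nb y) y := fun b hb a ha => mem_union_right _ (nb_good y b hb a ha)
  have mm : ∀ v, Measurable[ℱ t] fun ω => m (t + h) ω v := fun v => (A.meas _ v).mono (ℱ.mono ht) le_rfl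
  have bAv : ∀ b ω v, |Av b (FF M f t ω) v| ≤ M := fun b ω v => by
    unfold Av; split_ifs
    · rw [abs_div, abs_two]
      linarith [abs_add_le (FF M f t ω b.1) (FF M f t ω (tip b)), show |FF M f t ω b.1| ≤ M from clip_abs hM _,
        show |FF M f t ω (tip b)| ≤ M from clip_abs hM _]
    · exact clip_abs hM _
  have bb : ∀ {a b : ℝ} ω, |a| ≤ M → |b| ≤ M → |(a - m (t + h) ω x) * (b - m (t + h) ω y)| ≤ (2 * M) ^ 2 :=
    fun ω ha hb => by
      rw [abs_mul, sq]
      gcongr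
      exacts [sub_abs ha (A.bd _ _ _ th), sub_abs hb (A.bd _ _ _ th)]
  have m0 := ((ff_meas H hM ht x).fun_sub (mm x)).fun_mul ((ff_meas H hM ht y).fun_sub (mm y))
  have mX := fun b => ((av_meas (ff_meas H hM ht) b x).fun_sub (mm x)).fun_mul
    ((av_meas (ff_meas H hM ht) b y).fun_sub (mm y))
  have a1 := H.step ht hh (A := nb x ∪ nb y) (k := 2 * k0 d) (B := (2 * M) ^ 2)
    (by exact_mod_cast (card_union_le _ _).trans (by linarith [nb_card x, nb_card y]))
    ((hh_bm H hM A th x).mul (hh_bm H hM A th y)).1 m0 mX (fun ω => bb ω (clip_abs hM _) (clip_abs hM _))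
    (fun ω => bb ω (clip_abs hM _) (clip_abs hM _)) (fun b ω => bb ω (bAv _ _ _) (bAv _ _ _))
    ((ff_path H hM hb A ht hh).mono fun ω c z => by simp only [(c _ _ gx).1 z, (c _ _ gy).1 z])
    ((ff_path H hM hb A ht hh).mono fun ω c b hb z => by simp only [(c _ _ gx).2 b z hb, (c _ _ gy).2 b z hb])
  have B0 : BM _ := ⟨m0.mono (ℱ.le t) le_rfl, _, fun ω => bb ω (clip_abs hM _) (clip_abs hM _)⟩
  have BX : ∀ b, BM _ := fun b => ⟨(mX b).mono (ℱ.le t) le_rfl, _, fun ω => bb ω (bAv _ _ _) (bAv _ _ _)⟩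
  have hh' := fun x y => (hh_bm H hM A ht x).mul (hh_bm H hM A ht y)
  have g' := fun j => (BM.const (ind x y j / 4)).mul (bm_sq ((ff_bm H hM ht (x + w j)).sub (ff_bm H hM ht x)))
  have S1 := (BM.const (1 / 2)).mul (BM.sum (fun j => (hh' (x + w j) y).sub (hh' x y)) univ)
  have S2 := (BM.const (1 / 2)).mul (BM.sum (fun j => (hh' x (y + w j)).sub (hh' x y)) univ)
  have S3 := bm_add (bm_add S1 S2) (BM.sum g' univ)
  have S4 := bm_add (hh' x y) ((BM.const h).mul S3)
  have a2 := abs_int P (f := _) (C := 5 * (2 * M + cJ d * M + C) ^ 2 * h ^ 2) fun ω =>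
    (alg (K := 2 * M + cJ d * M + C) (a := FF M f t ω x - m t ω x) (b := FF M f t ω y - m t ω y)
      (α := LL (FF M f t ω) x) (β := LL (FF M f t ω) y)
      ((sub_abs (clip_abs hM _) (A.bd _ _ _ ht)).trans (by nlinarith))
      ((sub_abs (clip_abs hM _) (A.bd _ _ _ ht)).trans (by nlinarith))
      ((LL_abs (fun _ => clip_abs hM _) _).trans (by linarith)) ((LL_abs (fun _ => clip_abs hM _) _).trans (by linarith))
      ((A.tay t h ω x ht hh).trans (by gcongr; nlinarith)) ((A.tay t h ω y ht hh).trans (by gcongr; nlinarith))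
      ((A.lip ht hh h1 ω x).trans (mul_le_mul_of_nonneg_right (by linarith) hh))
      ((A.lip ht hh h1 ω y).trans (mul_le_mul_of_nonneg_right (by linarith) hh)) hh)
  have a3 := integral_sub ((bm_add B0 ((BM.const h).mul (BM.sum (fun b => (BX b).sub B0) (nb x ∪ nb y)))).int P) (S4.int P)
  rw [integral_add ((hh' x y).int P) (((BM.const h).mul S3).int P), integral_const_mul,
    integral_add ((bm_add S1 S2).int P) ((BM.sum g' univ).int P), integral_add (S1.int P) (S2.int P),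
    integral_const_mul, integral_const_mul, integral_finsetSum _ fun j _ => (g' j).int P,
    integral_finsetSum _ fun j _ => ((hh' (x + w j) y).sub (hh' x y)).int P,
    integral_finsetSum _ fun j _ => ((hh' x (y + w j)).sub (hh' x y)).int P] at a3
  simp only [integral_sub ((hh' _ _).int P) ((hh' _ _).int P), integral_const_mul] at a3
  rw [integral_congr_ae (ae_of_all _ fun ω => ?_), a3, probReal_univ] at a2
  · rw [abs_le] at a1 a2 ⊢
    simp only [U, GG, gg]
    constructor <;> linarith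
  · have e1 : ∀ b, (Av b (FF M f t ω) x - m (t + h) ω x) * (Av b (FF M f t ω) y - m (t + h) ω y) -
        (FF M f t ω x - m (t + h) ω x) * (FF M f t ω y - m (t + h) ω y) =
        (Av b (FF M f t ω) x - FF M f t ω x) * ((Av b (FF M f t ω) y - FF M f t ω y) + (FF M f t ω y - m (t + h) ω y)) +
        (Av b (FF M f t ω) y - FF M f t ω y) * (FF M f t ω x - m (t + h) ω x) := fun b => by ring
    simp only [e1, sum_add_distrib, gx.sum, gy.sum, av_ed]
    have e2 : ∀ j, 1 / 2 * (FF M f t ω (x + w j) - FF M f t ω x) * (1 / 2 * (FF M f t ω (x + w j) - FF M f t ω x) *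
        ((if y = x then 1 else 0) - if y = x + w j then 1 else 0) + (FF M f t ω y - m (t + h) ω y)) =
        ind x y j / 4 * (FF M f t ω (x + w j) - FF M f t ω x) ^ 2 +
        1 / 2 * (FF M f t ω (x + w j) - FF M f t ω x) * (FF M f t ω y - m (t + h) ω y) := fun j => by
      unfold ind; ring
    have e3 : 1 / 2 * ∑ j, ((FF M f t ω (x + w j) - m t ω (x + w j)) * (FF M f t ω y - m t ω y) -
        (FF M f t ω x - m t ω x) * (FF M f t ω y - m t ω y)) =
        (LL (FF M f t ω) x - LL (m t ω) x) * (FF M f t ω y - m t ω y) := by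
      simp only [LL, mul_sum, ← sum_sub_distrib, sum_mul]; exact sum_congr rfl fun _ _ => by ring
    have e4 : 1 / 2 * ∑ j, ((FF M f t ω x - m t ω x) * (FF M f t ω (y + w j) - m t ω (y + w j)) -
        (FF M f t ω x - m t ω x) * (FF M f t ω y - m t ω y)) =
        (LL (FF M f t ω) y - LL (m t ω) y) * (FF M f t ω x - m t ω x) := by
      simp only [LL, mul_sum, ← sum_sub_distrib, sum_mul]; exact sum_congr rfl fun _ _ => by ring
    simp only [e2, sum_add_distrib, ← sum_mul, e3, e4]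
    change _ = _ + h * (_ + LL _ x * _ + LL _ y * _) - _
    ring

lemma U_nice (x y : V d) : Nice (U P M f m x y) := by
  obtain ⟨K, hK, h⟩ := ode H hM hb A
  refine ⟨cont (K := K + 3 * (cJ d * (2 * M) ^ 2)) fun t s ht hs h1 => ?_, _, fun t ht => U_abs H hM A ht x y⟩
  have a1 := sum_abs fun j => sub_abs (U_abs H hM A ht (x + w j) y) (U_abs H hM A ht x y)
  have a2 := sum_abs fun j => sub_abs (U_abs H hM A ht x (y + w j)) (U_abs H hM A ht x y)
  have a3 := sum_abs (B := (2 * M) ^ 2) (g := fun j => ind x y j / 4 * gg P M f x j t) fun j => by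
    rw [abs_mul, abs_div]
    have := ind_abs x y j
    nlinarith [gg_abs H hM ht x j, abs_nonneg (gg P M f x j t), abs_of_pos (four_pos (α := ℝ)),
      show |ind x y j| / |4| ≤ 1 by rw [abs_of_pos (four_pos (α := ℝ))]; linarith]
  have a4 : |GG P M f m x y t| ≤ 3 * (cJ d * (2 * M) ^ 2) := by
    rw [abs_le] at *; unfold GG; constructor <;> linarith
  have a5 := h x y t s ht hs h1
  have a6 : K * s ^ 2 ≤ K * s := mul_le_mul_of_nonneg_left (by nlinarith) hK
  rw [abs_le] at *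
  constructor <;> nlinarith [mul_le_mul_of_nonneg_left a4.1 hs, mul_le_mul_of_nonneg_left a4.2 hs]

omit A

lemma gg_eq (ht : 0 ≤ t) (x : V d) (j : J d) : gg P M f x j t =
    U P M f 0 (x + w j) (x + w j) t - 2 * U P M f 0 (x + w j) x t + U P M f 0 x x t := by
  rw [gg, int_sq_sub (ff_bm H hM ht _) (ff_bm H hM ht _)]
  simp only [U, Pi.zero_apply, sub_zero, sq]

lemma gg_nice (x : V d) (j : J d) : Nice (gg P M f x j) := by
  have n := U_nice H hM hb (aux0 hM)
  exact ⟨(((n _ _).sub ((n _ _).cmul 2)).add (n _ _)).1.congr fun t ht => gg_eq H hM hb ht x j,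
    _, fun t ht => gg_abs H hM ht x j⟩

variable (hst : ∀ a : V d, P.map (fun ω x => f 0 ω (x + a)) = P.map (f 0))
include hst

lemma U_inv (a : V d) (ht : 0 ≤ t) (x y : V d) : U P M f 0 (x + a) (y + a) t = U P M f 0 x y t := by
  obtain ⟨K, hK, h⟩ := ode H hM hb (aux0 hM)
  have hc := cJ_nonneg (d := d)
  refine sub_eq_zero.1 (gron (u := fun t (p : V d × V d) => U P M f 0 (p.1 + a) (p.2 + a) t - U P M f 0 p.1 p.2 t)
    (K := 2 * K + 3 * cJ d) (by positivity) (fun p => ?_) (fun t s B ht hs h1 hB p => ?_) ht (x, y))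
  · have m0 : ∀ v, Measurable fun ω => f 0 ω v := fun v => (H.f_adapted 0 v le_rfl).mono (ℱ.le 0) le_rfl
    have m1 : Measurable fun η : V d → ℝ => clip M (η p.1) * clip M (η p.2) :=
      (clip_meas.comp (measurable_pi_apply _)).mul (clip_meas.comp (measurable_pi_apply _))
    have := congrArg (fun μ => ∫ η, clip M (η p.1) * clip M (η p.2) ∂μ) (hst a)
    rw [integral_map (measurable_pi_lambda _ fun _ => m0 _).aemeasurable m1.aestronglyMeasurable,
      integral_map (measurable_pi_lambda _ m0).aemeasurable m1.aestronglyMeasurable] at this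
    simpa [U, FF, sub_eq_zero] using this
  · obtain ⟨x, y⟩ := p
    have hB' : ∀ x y, |U P M f 0 (x + a) (y + a) t - U P M f 0 x y t| ≤ B := fun x y => hB (x, y)
    have a1 := sum_abs fun j => sub_abs (hB' (x + w j) y) (hB' x y)
    have a2 := sum_abs fun j => sub_abs (hB' x (y + w j)) (hB' x y)
    have a3 := sum_abs (B := B) (g := fun j => ind x y j / 4 * (gg P M f (x + a) j t - gg P M f x j t)) fun j => by
      have c : |gg P M f (x + a) j t - gg P M f x j t| ≤ 4 * B := by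
        have c1 := hB' (x + w j) (x + w j)
        have c2 := hB' (x + w j) x
        have c3 := hB' x x
        rw [gg_eq H hM hb ht, gg_eq H hM hb ht, add_right_comm x a]
        rw [abs_le] at *; constructor <;> linarith
      rw [abs_mul, abs_div, abs_of_pos (four_pos (α := ℝ))]
      nlinarith [ind_abs x y j, abs_nonneg (gg P M f (x + a) j t - gg P M f x j t)]
    have a4 : |GG P M f 0 (x + a) (y + a) t - GG P M f 0 x y t| ≤ 3 * (cJ d * B) := by
      have : ∀ j, ind (x + a) (y + a) j = ind x y j := fun j => by simp [ind, add_right_comm x a]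
      simp only [GG, this, add_right_comm _ a, sum_sub_distrib, mul_sub] at *
      rw [abs_le] at *; constructor <;> linarith
    have a5 := h x y t s ht hs h1
    have a6 := h (x + a) (y + a) t s ht hs h1
    have a7 := hB' x y
    have hB0 : 0 ≤ B := (abs_nonneg _).trans a7
    rw [abs_le] at *
    constructor <;> nlinarith [mul_le_mul_of_nonneg_left a4.1 hs, mul_le_mul_of_nonneg_left a4.2 hs,
      mul_nonneg (mul_nonneg hB0 hK) hs, mul_nonneg hc (sq_nonneg s)]

include A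

omit hst in
lemma lap_U {l : ℝ} (hl : 0 < l) (x y : V d) : l * lap l (U P M f m x y) - U P M f m x y 0 =
    1 / 2 * ∑ j, (lap l (U P M f m (x + w j) y) - lap l (U P M f m x y)) +
    1 / 2 * ∑ j, (lap l (U P M f m x (y + w j)) - lap l (U P M f m x y)) +
    ∑ j, ind x y j / 4 * lap l (gg P M f x j) := by
  obtain ⟨K, hK, h⟩ := ode H hM hb A
  have n := U_nice H hM hb A
  have n1 := fun j => (n (x + w j) y).sub (n x y)
  have n2 := fun j => (n x (y + w j)).sub (n x y)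
  have n3 := fun j => (gg_nice H hM hb x j).cmul (ind x y j / 4)
  have n4 := ((Nice.sum n1 univ).cmul (1 / 2)).add ((Nice.sum n2 univ).cmul (1 / 2))
  rw [lap_ode hl (n x y) (n4.add (Nice.sum n3 univ)) (h x y), lap_add hl n4 (Nice.sum n3 univ),
    lap_add hl ((Nice.sum n1 univ).cmul _) ((Nice.sum n2 univ).cmul _), lap_cmul, lap_cmul, lap_sum hl n1,
    lap_sum hl n2, lap_sum hl n3]
  simp only [lap_sub hl (n _ _) (n _ _), lap_cmul]

lemma U_lap (h0 : ∀ ω, m 0 ω = FF M f 0 ω) {l : ℝ} (hl : 0 < l) (x : V d) :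
    lap l (U P M f m x x) ≤ (2 * M) ^ 2 := by
  have i1 : ∀ x y a, lap l (U P M f 0 (x + a) (y + a)) = lap l (U P M f 0 x y) := fun x y a =>
    lap_congr fun t ht => U_inv H hM hb hst a ht x y
  have i2 : ∀ x j, lap l (gg P M f x j) = lap l (gg P M f 0 j) := fun x j => lap_congr fun t ht => by
    rw [gg_eq H hM hb ht, gg_eq H hM hb ht, ← U_inv H hM hb hst x ht (0 + w j), ← U_inv H hM hb hst x ht (0 + w j),
      ← U_inv H hM hb hst x ht 0]
    simp [add_comm]
  have n := U_nice H hM hb (aux0 hM)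
  have i3 : ∀ j, lap l (gg P M f 0 j) = 2 * lap l (U P M f 0 0 0) - 2 * lap l (U P M f 0 (w j) 0) := fun j => by
    rw [lap_congr fun t ht => gg_eq H hM hb ht 0 j, lap_add hl ((n _ _).sub ((n _ _).cmul 2)) (n _ _),
      lap_sub hl (n _ _) ((n _ _).cmul 2), lap_cmul, i1, zero_add]
    ring
  have i4 : ∀ j, U P M f 0 0 (w j) = U P M f 0 (w j) 0 := fun j => by ext; simp [U, mul_comm]
  refine (green w fl w_fl hl (D := fun x y => lap l (U P M f m x y)) (a := fun j => lap l (gg P M f 0 j) / 4)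
    (fun j => div_nonneg (lap_nonneg fun t _ => integral_nonneg fun _ => sq_nonneg _) four_pos.le)
    (fun x y => lap_abs hl fun t ht => U_abs H hM A ht x y) (fun x y => ?_) x).trans ?_
  · have := lap_U H hM hb A hl x y
    rw [show U P M f m x y 0 = 0 by simp [U, h0], sub_zero] at this
    rw [this]
    congr 1
    exact sum_congr rfl fun j _ => by rw [i2, ind]; ring
  · have a1 := lap_U H hM hb (aux0 hM) hl 0 0
    have a2 : ∀ j : J d, ind 0 0 j = 1 := fun j => by simp [ind, (w_ne j).symm]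
    have a3 := (abs_le.1 (U_abs H hM (aux0 hM) le_rfl 0 0)).2
    have a4 : 0 ≤ lap l (U P M f 0 0 0) := lap_nonneg fun t _ => integral_nonneg fun _ => mul_self_nonneg _
    simp only [zero_add, i4, a2, i3, ← sum_div, ← mul_sum, sum_sub_distrib] at a1 ⊢
    nlinarith

end

end Pool.Agent.H43.Avg
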