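import Mathlib

namespace Pool.Agent.H43.Bex

open Set Filter Topology MeasureTheory
open Finset (range)
open scoped ENNReal

variable {m : ℕ} {β c : ℝ}

/-- Value of the first `n` digits. -/
noncomputable def val (β : ℝ) (ε : ℕ → Fin (m + 1)) (n : ℕ) : ℝ :=
  ∑ i ∈ range n, ((ε i : ℕ) : ℝ) / β ^ (i + 1)

/-- Remainder after `n` digits. -/
noncomputable def rem (β : ℝ) (ε : ℕ → Fin (m + 1)) (y : ℝ) (n : ℕ) : ℝ :=
  β ^ n * (y - val β ε n)

/-- Standing hypotheses. -/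
structure Hyp (m : ℕ) (β c : ℝ) : Prop where
  hβ : 1 < β
  hc : β * c = c + m
  h1 : 1 < c

lemma val_congr {ε ε' : ℕ → Fin (m + 1)} {n : ℕ} (h : ∀ t < n, ε t = ε' t) :
    val β ε n = val β ε' n :=
  Finset.sum_congr rfl fun t ht => by rw [h t (Finset.mem_range.1 ht)]

lemma rem_congr {ε ε' : ℕ → Fin (m + 1)} {n : ℕ} (h : ∀ t < n, ε t = ε' t) (y : ℝ) :
    rem β ε y n = rem β ε' y n := by rw [rem, rem, val_congr h]

lemma val_add (ε : ℕ → Fin (m + 1)) (n t : ℕ) :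
    val β ε (n + t) = val β ε n + val β (fun i => ε (n + i)) t / β ^ n := by
  rw [val, Finset.sum_range_add, val, val, Finset.sum_div]
  congr 1
  refine Finset.sum_congr rfl fun i _ => ?_
  rw [div_div, ← pow_add]; congr 2; ring

lemma rem_add (H : Hyp m β c) (ε : ℕ → Fin (m + 1)) (y : ℝ) (n t : ℕ) :
    rem β ε y (n + t) = rem β (fun i => ε (n + i)) (rem β ε y n) t := by
  have : β ≠ 0 := by linarith [H.hβ]
  rw [rem, rem, rem, val_add, pow_add]; field_simp; ring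

lemma rem_succ (H : Hyp m β c) (ε : ℕ → Fin (m + 1)) (y : ℝ) (n : ℕ) :
    rem β ε y (n + 1) = β * rem β ε y n - (ε n : ℕ) := by
  have : β ≠ 0 := by linarith [H.hβ]
  rw [rem, rem, val, val, Finset.sum_range_succ, pow_succ]; field_simp; ring

lemma rem_zero (ε : ℕ → Fin (m + 1)) (y : ℝ) : rem β ε y 0 = y := by simp [rem, val]

lemma val_mem (H : Hyp m β c) (ε : ℕ → Fin (m + 1)) (n : ℕ) : val β ε n ∈ Icc 0 c := by
  have hβ := H.hβ
  have h1 := H.h1
  have key : val β ε n + c / β ^ n ≤ c := by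
    induction n with
    | zero => simp [val]
    | succ n ih =>
      have a : ((ε n : ℕ) : ℝ) ≤ m := by exact_mod_cast Nat.lt_succ_iff.1 (ε n).2
      have b : ((ε n : ℕ) : ℝ) / β ^ (n + 1) + c / β ^ (n + 1) ≤ c / β ^ n := by
        rw [← add_div, div_le_div_iff₀ (by positivity) (by positivity), pow_succ]
        have : 0 < β ^ n := by positivity
        nlinarith [H.hc]
      rw [val, Finset.sum_range_succ, ← val]; linarith
  have : 0 ≤ c / β ^ n := by positivity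
  exact ⟨Finset.sum_nonneg fun i _ => by positivity, by linarith⟩

lemma rem_of_hasSum (H : Hyp m β c) {ε : ℕ → Fin (m + 1)} {y : ℝ}
    (h : HasSum (fun i => ((ε i : ℕ) : ℝ) / β ^ (i + 1)) y) (n : ℕ) : rem β ε y n ∈ Icc 0 c := by
  have hβ := H.hβ
  have t1 : Tendsto (fun t => β ^ n * (val β ε (t + n) - val β ε n)) atTop (𝓝 (rem β ε y n)) :=
    (((tendsto_add_atTop_iff_nat n).2 h.tendsto_sum_nat).sub_const _).const_mul _
  refine isClosed_Icc.mem_of_tendsto t1 (Eventually.of_forall fun t => ?_)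
  rw [add_comm, val_add, add_sub_cancel_left, mul_div_cancel₀ _ (by positivity)]
  exact val_mem H _ _

lemma hasSum_of_rem (H : Hyp m β c) {ε : ℕ → Fin (m + 1)} {y : ℝ} {S : ℕ → ℕ}
    (hS : Tendsto S atTop atTop) (h : ∀ j, rem β ε y (S j) ∈ Icc 0 c) :
    HasSum (fun i => ((ε i : ℕ) : ℝ) / β ^ (i + 1)) y := by
  have hβ := H.hβ
  have hs : Summable fun i => ((ε i : ℕ) : ℝ) / β ^ (i + 1) :=
    summable_of_sum_range_le (fun i => by positivity) fun n => (val_mem H ε n).2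
  have t1 : Tendsto (fun j => val β ε (S j)) atTop (𝓝 _) := hs.hasSum.tendsto_sum_nat.comp hS
  have t2 : Tendsto (fun j => c / β ^ S j) atTop (𝓝 0) :=
    tendsto_const_nhds.div_atTop ((tendsto_pow_atTop_atTop_of_one_lt hβ).comp hS)
  have t3 : Tendsto (fun j => y - val β ε (S j)) atTop (𝓝 0) := by
    refine squeeze_zero (fun j => ?_) (fun j => ?_) t2
    · exact nonneg_of_mul_nonneg_right (h j).1 (by positivity) |> fun a => a
    · rw [le_div_iff₀ (by positivity), mul_comm]; exact (h j).2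
  have := tendsto_nhds_unique (t1.const_sub y) t3
  rw [sub_eq_zero] at this
  rw [this]; exact hs.hasSum

lemma extend (H : Hyp m β c) {w : ℕ → Fin (m + 1)} {y : ℝ} {N : ℕ} (d : Fin (m + 1)) :
    rem β (Function.update w N d) y (N + 1) = β * rem β w y N - (d : ℕ) := by
  rw [rem_succ H, Function.update_self,
    rem_congr (ε' := w) fun t ht => Function.update_of_ne ht.ne _ _]

lemma exists_digit (H : Hyp m β c) {z : ℝ} (hz : z ∈ Icc 0 c) :
    ∃ d : Fin (m + 1), β * z - (d : ℕ) ∈ Icc 0 c := by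
  have hβ := H.hβ
  have h0 : 0 ≤ β * z := mul_nonneg (by linarith) hz.1
  rcases le_total (m : ℝ) (β * z) with h | h
  · refine ⟨Fin.last m, ?_, ?_⟩ <;> rw [Fin.val_last]
    · linarith
    · nlinarith [H.hc, hz.2]
  · refine ⟨⟨⌊β * z⌋₊, Nat.lt_succ_of_le (Nat.floor_le_of_le h)⟩, ?_, ?_⟩
    · linarith [Nat.floor_le h0]
    · linarith [Nat.lt_floor_add_one (β * z), H.h1]

lemma exists_adm (H : Hyp m β c) {y : ℝ} (hy : y ∈ Icc 0 c) (N : ℕ) :
    ∃ w : ℕ → Fin (m + 1), rem β w y N ∈ Icc 0 c := by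
  induction N with
  | zero => exact ⟨fun _ => 0, by rwa [rem_zero]⟩
  | succ N ih =>
    obtain ⟨w, hw⟩ := ih
    obtain ⟨d, hd⟩ := exists_digit H hw
    exact ⟨Function.update w N d, by rwa [extend H]⟩

lemma val_fin (N : ℕ) : (Set.range fun w : ℕ → Fin (m + 1) => val β w N).Finite := by
  refine (Set.finite_range fun v : Fin N → Fin (m + 1) =>
    ∑ i : Fin N, ((v i : ℕ) : ℝ) / β ^ ((i : ℕ) + 1)).subset ?_
  rintro _ ⟨w, rfl⟩
  exact ⟨fun i => w i, Fin.sum_univ_eq_sum_range (fun i => ((w i : ℕ) : ℝ) / β ^ (i + 1)) N⟩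

lemma pre_bound (F : Finset ℝ) {q : ℝ} (hq : 0 < q) (B : Set ℝ) :
    volume {y | ∃ a ∈ F, q * (y - a) ∈ B} ≤ ENNReal.ofReal (F.card / q) * volume B := by
  have e : {y | ∃ a ∈ F, q * (y - a) ∈ B} = ⋃ a ∈ F, (fun y => y + -a) ⁻¹' ((q * ·) ⁻¹' B) := by
    ext y; simp [sub_eq_add_neg]
  rw [e]
  refine (measure_biUnion_finset_le _ _).trans (le_of_eq ?_)
  simp only [measure_preimage_add_right, Real.volume_preimage_mul_left hq.ne']
  rw [Finset.sum_const, nsmul_eq_mul, ← mul_assoc, div_eq_mul_inv,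
    ENNReal.ofReal_mul (by positivity), ENNReal.ofReal_natCast, abs_of_pos (by positivity)]

lemma cover {A : Set ℝ} (hA : A.Finite) (hc : 0 < c) (hAc : A ⊆ Icc 0 c) {q : ℝ} (hq : 1 ≤ q) :
    ∃ F : Finset ℝ, (F : Set ℝ) ⊆ A ∧ (F.card : ℝ) ≤ 4 * q ∧
      ∀ a ∈ A, ∀ y, q * (y - a) ∈ Icc 0 c → ∃ a' ∈ F, q * (y - a') ∈ Icc 0 c := by
  classical
  set κ : ℝ → ℕ := fun a => ⌊q * a / c⌋₊ with hκ
  have kr : ∀ a ∈ A, κ a ∈ range (⌊q⌋₊ + 1) := fun a ha =>
    Finset.mem_range.2 (Nat.lt_succ_of_le (Nat.floor_le_floor (by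
      rw [div_le_iff₀ hc]; nlinarith [(hAc ha).2])))
  set lo := hA.toFinset.filter fun a => ∀ b ∈ A, κ b = κ a → a ≤ b with hlo
  set hi := hA.toFinset.filter fun a => ∀ b ∈ A, κ b = κ a → b ≤ a with hhi
  have c1 : lo.card ≤ (range (⌊q⌋₊ + 1)).card := by
    refine Finset.card_le_card_of_injOn κ (fun a ha => ?_) fun a ha b hb e => ?_
    · exact kr a (hA.mem_toFinset.1 (Finset.mem_filter.1 ha).1)
    · have ha := Finset.mem_filter.1 ha
      have hb := Finset.mem_filter.1 hb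
      exact le_antisymm (ha.2 b (hA.mem_toFinset.1 hb.1) e.symm) (hb.2 a (hA.mem_toFinset.1 ha.1) e)
  have c2 : hi.card ≤ (range (⌊q⌋₊ + 1)).card := by
    refine Finset.card_le_card_of_injOn κ (fun a ha => ?_) fun a ha b hb e => ?_
    · exact kr a (hA.mem_toFinset.1 (Finset.mem_filter.1 ha).1)
    · have ha := Finset.mem_filter.1 ha
      have hb := Finset.mem_filter.1 hb
      exact le_antisymm (hb.2 a (hA.mem_toFinset.1 ha.1) e) (ha.2 b (hA.mem_toFinset.1 hb.1) e.symm)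
  refine ⟨lo ∪ hi, fun a ha => ?_, ?_, fun a ha y hy => ?_⟩
  · rcases Finset.mem_union.1 ha with h | h <;> exact hA.mem_toFinset.1 (Finset.mem_filter.1 h).1
  · have c3 := Finset.card_union_le lo hi
    rw [Finset.card_range] at c1 c2
    have c4 : ((lo ∪ hi).card : ℝ) ≤ (⌊q⌋₊ + 1) + (⌊q⌋₊ + 1) := by
      exact_mod_cast c3.trans (add_le_add c1 c2)
    linarith [Nat.floor_le (by linarith : 0 ≤ q)]
  · have fin : {b ∈ A | κ b = κ a}.Finite := hA.subset fun b hb => hb.1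
    obtain ⟨l, hl, hl'⟩ := Set.exists_min_image _ id fin ⟨a, ha, rfl⟩
    obtain ⟨u, hu, hu'⟩ := Set.exists_max_image _ id fin ⟨a, ha, rfl⟩
    have l1 : l ≤ a := hl' a ⟨ha, rfl⟩
    have u1 : a ≤ u := hu' a ⟨ha, rfl⟩
    have l2 : (κ l : ℝ) ≤ q * l / c := Nat.floor_le (by have := (hAc hl.1).1; positivity)
    have u2 : q * u / c < κ u + 1 := Nat.lt_floor_add_one _
    rw [hl.2, le_div_iff₀ hc] at l2
    rw [hu.2, div_lt_iff₀ hc] at u2
    by_cases h : q * (y - l) ≤ c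
    · refine ⟨l, Finset.mem_union_left _ (Finset.mem_filter.2 ⟨hA.mem_toFinset.2 hl.1,
        fun b hb e => hl' b ⟨hb, e.trans hl.2⟩⟩), by nlinarith [hy.1], h⟩
    · refine ⟨u, Finset.mem_union_right _ (Finset.mem_filter.2 ⟨hA.mem_toFinset.2 hu.1,
        fun b hb e => hu' b ⟨hb, e.trans hu.2⟩⟩), by nlinarith, by nlinarith [hy.2]⟩

lemma meas_dom {A : Set ℝ} (hA : A.Finite) (q : ℝ) :
    MeasurableSet {y | ∃ a ∈ A, q * (y - a) ∈ Icc 0 c} := by
  have e : {y | ∃ a ∈ A, q * (y - a) ∈ Icc 0 c} = ⋃ a ∈ A, (fun y => q * (y - a)) ⁻¹' Icc 0 c := by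
    ext y; simp only [mem_ofPred_eq, mem_iUnion, mem_preimage, exists_prop]
  rw [e]
  exact hA.measurableSet_biUnion fun a _ =>
    (isClosed_Icc.preimage (by fun_prop)).measurableSet

/-- Points admitting a word of `W`. -/
def Dom (β c : ℝ) (W : Set (ℕ → Fin (m + 1))) (N : ℕ) : Set ℝ :=
  {y | ∃ w ∈ W, rem β w y N ∈ Icc 0 c}

lemma Dom_meas (W : Set (ℕ → Fin (m + 1))) (N : ℕ) : MeasurableSet (Dom β c W N) := by
  have hA : ((fun w => val β w N) '' W).Finite := (val_fin N).subset (image_subset_range _ _)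
  have := meas_dom (c := c) hA (β ^ N)
  simp only [exists_mem_image] at this
  exact this

lemma good_step (H : Hyp m β c) (W : Set (ℕ → Fin (m + 1))) (N : ℕ) :
    ∃ sel : ℝ → ℕ → Fin (m + 1), (∀ y ∈ Dom β c W N, sel y ∈ W ∧ rem β (sel y) y N ∈ Icc 0 c) ∧
      ∀ B, volume {y ∈ Dom β c W N | rem β (sel y) y N ∈ B} ≤ 4 * volume B := by
  have hA : ((fun w => val β w N) '' W).Finite := (val_fin N).subset (image_subset_range _ _)
  have hq : 1 ≤ β ^ N := one_le_pow₀ H.hβ.le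
  obtain ⟨F, hF, hcard, hcov⟩ := cover (c := c) hA (by linarith [H.h1])
    (by rintro _ ⟨w, _, rfl⟩; exact val_mem H w N) hq
  have : ∀ y ∈ Dom β c W N, ∃ w, w ∈ W ∧ rem β w y N ∈ Icc 0 c ∧ val β w N ∈ F := by
    rintro y ⟨w, hw, hy⟩
    obtain ⟨a, ha, hy'⟩ := hcov _ ⟨w, hw, rfl⟩ y hy
    obtain ⟨w', hw', rfl⟩ := hF ha
    exact ⟨w', hw', hy', ha⟩
  choose! sel hsel using this
  refine ⟨sel, fun y hy => ⟨(hsel y hy).1, (hsel y hy).2.1⟩, fun B => ?_⟩
  refine (measure_mono fun y hy => ?_).trans ((pre_bound F (by linarith) B).trans ?_)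
  · exact ⟨_, (hsel y hy.1).2.2, hy.2⟩
  · refine mul_le_mul_left ?_ _
    rw [← ENNReal.ofReal_ofNat]
    exact ENNReal.ofReal_le_ofReal ((div_le_iff₀ (by linarith)).2 hcard)

lemma crude (H : Hyp m β c) (L : ℕ) : ∃ K : ℕ, ∀ (sel : ℝ → ℕ → Fin (m + 1)) (B : Set ℝ),
    volume {y | rem β (sel y) y L ∈ B} ≤ K * volume B := by
  have hq : 1 ≤ β ^ L := one_le_pow₀ H.hβ.le
  refine ⟨(val_fin (m := m) (β := β) L).toFinset.card, fun sel B => ?_⟩
  refine (measure_mono fun y hy => ?_).trans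
    ((pre_bound (val_fin (m := m) (β := β) L).toFinset (by linarith : 0 < β ^ L) B).trans ?_)
  · exact ⟨_, (val_fin L).mem_toFinset.2 ⟨sel y, rfl⟩, hy⟩
  · refine mul_le_mul_left ?_ _
    rw [← ENNReal.ofReal_natCast]
    exact ENNReal.ofReal_le_ofReal (div_le_self (by positivity) hq)

end Pool.Agent.H43.Bex
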