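import Pool.Agent.H43.Bex1

namespace Pool.Agent.H43.Bex

open Set Filter Topology MeasureTheory
open Finset (range)
open scoped ENNReal

variable {m : ℕ} {β c : ℝ}

/-- Points with two admissible words of length `L`. -/
def Br (m : ℕ) (β c : ℝ) (L : ℕ) : Set ℝ :=
  {y | ∃ u u' : ℕ → Fin (m + 1), (∃ t < L, u t ≠ u' t) ∧ rem β u y L ∈ Icc 0 c ∧
    rem β u' y L ∈ Icc 0 c}

lemma Br_meas (L : ℕ) : MeasurableSet (Br m β c L) := by
  set P : Set (ℝ × ℝ) := {p | ∃ u u' : ℕ → Fin (m + 1), (∃ t < L, u t ≠ u' t) ∧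
    p = (val β u L, val β u' L)} with hP
  have hf : P.Finite := ((val_fin (m := m) (β := β) L).prod (val_fin (m := m) (β := β) L)).subset
    (by rintro _ ⟨u, u', _, rfl⟩; exact ⟨⟨u, rfl⟩, ⟨u', rfl⟩⟩)
  have e : Br m β c L = ⋃ p ∈ P, (fun y => β ^ L * (y - p.1)) ⁻¹' Icc 0 c ∩
      (fun y => β ^ L * (y - p.2)) ⁻¹' Icc 0 c := by
    ext y
    simp only [mem_iUnion, exists_prop]
    constructor
    · rintro ⟨u, u', h, h1, h2⟩; exact ⟨_, ⟨u, u', h, rfl⟩, h1, h2⟩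
    · rintro ⟨_, ⟨u, u', h, rfl⟩, h1, h2⟩; exact ⟨u, u', h, h1, h2⟩
  rw [e]
  exact hf.measurableSet_biUnion fun p _ =>
    ((isClosed_Icc.preimage (by fun_prop)).inter (isClosed_Icc.preimage (by fun_prop))).measurableSet

lemma Br_mono (H : Hyp m β c) : Monotone (Br m β c) := by
  refine monotone_nat_of_le_succ fun L y => ?_
  rintro ⟨u, u', ⟨t, ht, h⟩, h1, h2⟩
  obtain ⟨d, hd⟩ := exists_digit H h1
  obtain ⟨d', hd'⟩ := exists_digit H h2
  refine ⟨Function.update u L d, Function.update u' L d', ⟨t, by omega, ?_⟩, by rwa [extend H],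
    by rwa [extend H]⟩
  rwa [Function.update_of_ne ht.ne, Function.update_of_ne ht.ne]

lemma Br_null (H : Hyp m β c) : volume (Icc 0 c \ ⋃ L, Br m β c L) = 0 := by
  have hβ := H.hβ
  have h1 := H.h1
  have hm : 1 < m + 1 := by
    have : (0:ℝ) < m := by nlinarith [H.hc]
    have : 0 < m := by exact_mod_cast this
    omega
  set U := Icc 0 c \ ⋃ L, Br m β c L with hU
  have Um : MeasurableSet U := measurableSet_Icc.diff (MeasurableSet.iUnion Br_meas)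
  have := (ae_restrict_iff' Um).1 (Besicovitch.ae_tendsto_measure_inter_div volume U)
  refine measure_mono_null (fun y hy => ?_) (ae_iff.1 this)
  intro h
  have t1 : Tendsto (fun N : ℕ => c / β ^ N) atTop (𝓝[>] 0) :=
    tendsto_nhdsWithin_iff.2 ⟨tendsto_const_nhds.div_atTop (tendsto_pow_atTop_atTop_of_one_lt hβ),
      Eventually.of_forall fun N => mem_Ioi.2 (by positivity)⟩
  have t2 := le_of_tendsto' ((h hy).comp t1) (b := ENNReal.ofReal (1 - (c - 1) / (2 * β * c)))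
    fun N => ?_
  · rw [ENNReal.one_le_ofReal] at t2
    have : 0 < (c - 1) / (2 * β * c) := div_pos (by linarith) (by positivity)
    linarith
  obtain ⟨w, hw⟩ := exists_adm H hy.1 N
  have hq : 0 < β ^ N := by positivity
  set q := β ^ N with hq'
  set a := val β w N with ha
  have w1 : 0 ≤ y - a := nonneg_of_mul_nonneg_right hw.1 hq
  have w2 : y - a ≤ c / q := by rw [le_div_iff₀ hq, mul_comm]; exact hw.2
  have w3 : 0 < 1 / (β * q) := by positivity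
  have w4 : c / (β * q) ≤ c / q := div_le_div_of_nonneg_left (by linarith) hq (by nlinarith)
  have sub : U ∩ Metric.closedBall y (c / q) ⊆
      Icc (y - c / q) (a + 1 / (β * q)) ∪ Icc (a + c / (β * q)) (y + c / q) := by
    rintro z ⟨hz, hb⟩
    rw [Real.closedBall_eq_Icc] at hb
    by_contra hn
    simp only [mem_union, mem_Icc, not_or, not_and, not_le] at hn
    have n1 := hn.1 hb.1
    have n2 : z < a + c / (β * q) := by
      by_contra n; exact absurd (hn.2 (not_lt.1 n)) (not_lt.2 hb.2)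
    have r1 : 1 < β * rem β w z N := by
      have := (div_lt_iff₀ (by positivity)).1 (by linarith : 1 / (β * q) < z - a)
      rw [rem]; nlinarith
    have r2 : β * rem β w z N < c := by
      have := (lt_div_iff₀ (by positivity)).1 (by linarith : z - a < c / (β * q))
      rw [rem]; nlinarith
    refine hz.2 (mem_iUnion.2 ⟨N + 1, Function.update w N 0, Function.update w N ⟨1, hm⟩,
      ⟨N, by omega, by simp [Fin.ext_iff]⟩, ?_, ?_⟩) <;> rw [extend H] <;> constructor <;>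
      simp <;> linarith
  have v1 : volume (U ∩ Metric.closedBall y (c / q)) ≤
      ENNReal.ofReal (2 * (c / q) - (c - 1) / (β * q)) := by
    refine (measure_mono sub).trans ((measure_union_le _ _).trans (le_of_eq ?_))
    rw [Real.volume_Icc, Real.volume_Icc, ← ENNReal.ofReal_add (by linarith) (by linarith)]
    congr 1; ring
  change volume (U ∩ Metric.closedBall y (c / q)) / volume (Metric.closedBall y (c / q)) ≤ _
  rw [Real.volume_closedBall]
  refine (ENNReal.div_le_div_right v1 _).trans (le_of_eq ?_)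
  rw [← ENNReal.ofReal_div_of_pos (by positivity)]
  congr 1; field_simp

/-- Nearly full outer measure. -/
def Big (c : ℝ) (η : ℝ≥0∞) (S : Set ℝ) : Prop :=
  volume.restrict (Icc 0 c) univ < volume.restrict (Icc 0 c) S + η

lemma Big.of_ae {η : ℝ≥0∞} (hη : η ≠ 0) {S : Set ℝ} (h : ∀ᵐ x ∂volume.restrict (Icc 0 c), x ∈ S) :
    Big c η S := by
  rw [Big, measure_congr (ae_eq_univ.2 h : S =ᵐ[volume.restrict (Icc 0 c)] univ)]
  exact ENNReal.lt_add_right (by simp) hη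

lemma Big.approx {η : ℝ≥0∞} {S : Set ℝ} (h : Big c η S) {T : ℕ → Set ℝ} (hT : Monotone T)
    (hS : S ⊆ ⋃ n, T n) : ∃ n, Big c η (T n) := by
  have := h.trans_le (add_le_add_left (measure_mono hS) η)
  rw [hT.measure_iUnion, ENNReal.iSup_add, lt_iSup_iff] at this
  exact this

lemma Big.compl {η : ℝ≥0∞} {S G : Set ℝ} (h : Big c η S) (hG : MeasurableSet G) (hS : S ⊆ G) :
    volume (Icc 0 c \ G) ≤ η := by
  have := h.trans_le (add_le_add_left (measure_mono hS) η)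
  rw [← measure_add_measure_compl hG] at this
  have h2 := (ENNReal.add_lt_add_iff_left (measure_ne_top _ _)).1 this
  rw [Measure.restrict_apply hG.compl, inter_comm] at h2
  exact h2.le

lemma Br_big (H : Hyp m β c) {η : ℝ≥0∞} (hη : η ≠ 0) :
    ∃ L, volume (Icc 0 c \ Br m β c L) ≤ η := by
  have : Big c η (⋃ L, Br m β c L) := Big.of_ae hη <| (ae_restrict_iff' measurableSet_Icc).2 <|
    ae_iff.2 (measure_mono_null (fun y hy => by simpa [and_assoc] using hy) (Br_null H))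
  obtain ⟨L, hL⟩ := this.approx (Br_mono H) subset_rfl
  exact ⟨L, hL.compl (Br_meas L) subset_rfl⟩

/-- Birkhoff sums. -/
def sm (φ : Fin (m + 1) → ℝ) (ε : ℕ → Fin (m + 1)) (n : ℕ) : ℝ := ∑ i ∈ range n, φ (ε i)

lemma sm_add (φ : Fin (m + 1) → ℝ) (ε : ℕ → Fin (m + 1)) (n t : ℕ) :
    sm φ ε (n + t) = sm φ ε n + sm φ (fun i => ε (n + i)) t := Finset.sum_range_add _ _ _

lemma sm_congr (φ : Fin (m + 1) → ℝ) {ε ε' : ℕ → Fin (m + 1)} {n : ℕ} (h : ∀ t < n, ε t = ε' t) :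
    sm φ ε n = sm φ ε' n :=
  Finset.sum_congr rfl fun t ht => by rw [h t (Finset.mem_range.1 ht)]

lemma sm_abs {φ : Fin (m + 1) → ℝ} (hφ : ∀ d, |φ d| ≤ 1) (ε : ℕ → Fin (m + 1)) (n : ℕ) :
    |sm φ ε n| ≤ n :=
  (Finset.abs_sum_le_sum_abs _ _).trans
    ((Finset.sum_le_sum fun i _ => hφ (ε i)).trans (by simp))

variable {ι : Type} [Finite ι] {ψ : ι → Fin (m + 1) → ℝ}

/-- All upper averages vanish. -/
def Fr (ψ : ι → Fin (m + 1) → ℝ) (ε : ℕ → Fin (m + 1)) : Prop :=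
  ∀ i, ∀ δ > 0, (∀ᶠ n : ℕ in atTop, sm (ψ i) ε n ≤ δ * n) ∧
    ∃ᶠ n : ℕ in atTop, -(δ * n) ≤ sm (ψ i) ε n

/-- Good blocks. -/
def Blk (ψ : ι → Fin (m + 1) → ℝ) (δ : ℝ) (Q R N : ℕ) (w : ℕ → Fin (m + 1)) : Prop :=
  ∀ i, (∀ t ≤ N, sm (ψ i) w t ≤ Q + δ * t) ∧ ∃ t, R ≤ t ∧ t ≤ N ∧ -(Q + δ * t) ≤ sm (ψ i) w t

/-- Expansions with the prescribed statistics. -/
def E (β : ℝ) (ψ : ι → Fin (m + 1) → ℝ) (y : ℝ) : Set (ℕ → Fin (m + 1)) :=
  {ε | HasSum (fun i => ((ε i : ℕ) : ℝ) / β ^ (i + 1)) y ∧ Fr ψ ε}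

lemma good_big (H : Hyp m β c) (hψ : ∀ i d, |ψ i d| ≤ 1)
    (hE : ∀ᵐ x ∂volume.restrict (Icc 0 c), (E β ψ x).Nonempty) {η : ℝ≥0∞} (hη : η ≠ 0) {δ : ℝ}
    (hδ : 0 < δ) : ∃ M : ℕ, ∀ R : ℕ, ∃ N, R < N ∧
      volume (Icc 0 c \ Dom β c {w | Blk ψ δ M R N w} N) ≤ η := by
  obtain ⟨M, hM⟩ := (Big.of_ae hη (S := {x | (E β ψ x).Nonempty}) hE).approx
    (T := fun M : ℕ => {y | ∃ ε ∈ E β ψ y, ∀ i t, sm (ψ i) ε t ≤ M + δ * t})
    (fun M M' h y ⟨ε, h1, h2⟩ => ⟨ε, h1, fun i t => (h2 i t).trans (by gcongr)⟩) (by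
      rintro y ⟨ε, hε⟩
      obtain ⟨M, hM⟩ := eventually_atTop.1 (eventually_all.2 fun i => (hε.2 i δ hδ).1)
      refine mem_iUnion.2 ⟨M, ε, hε, fun i t => ?_⟩
      rcases le_total M t with h | h
      · linarith [hM t h i, (Nat.cast_nonneg M : (0:ℝ) ≤ M)]
      · have : (t : ℝ) ≤ M := by exact_mod_cast h
        have : 0 ≤ δ * t := by positivity
        linarith [(abs_le.1 (sm_abs (hψ i) ε t)).2])
  refine ⟨M, fun R => ?_⟩
  obtain ⟨N, hN⟩ := hM.approx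
    (T := fun N : ℕ => {y | ∃ ε ∈ E β ψ y, ∀ i, (∀ t, sm (ψ i) ε t ≤ M + δ * t) ∧
      ∃ t, R ≤ t ∧ t ≤ N ∧ -(M + δ * t) ≤ sm (ψ i) ε t})
    (fun N N' h y ⟨ε, h1, h2⟩ => ⟨ε, h1, fun i => ⟨(h2 i).1,
      (h2 i).2.imp fun t ht => ⟨ht.1, ht.2.1.trans h, ht.2.2⟩⟩⟩) (by
      rintro y ⟨ε, hε, h⟩
      choose t ht ht' using fun i => frequently_atTop.1 (hε.2 i δ hδ).2 R
      obtain ⟨N, hN⟩ := Finite.exists_le t
      exact mem_iUnion.2 ⟨N, ε, hε, fun i => ⟨h i, t i, ht i, hN i,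
        by linarith [ht' i, (Nat.cast_nonneg M : (0:ℝ) ≤ M)]⟩⟩)
  refine ⟨N + R + 1, by omega, hN.compl (Dom_meas _ _) ?_⟩
  rintro y ⟨ε, hε, h⟩
  exact ⟨ε, fun i => ⟨fun t _ => (h i).1 t, (h i).2.imp fun t ht => ⟨ht.1, by omega, ht.2.2⟩⟩,
    rem_of_hasSum H hε.1 _⟩

/-- Concatenation. -/
def cat (L : ℕ) (u w : ℕ → Fin (m + 1)) (t : ℕ) : Fin (m + 1) := if t < L then u t else w (t - L)

lemma cat_sh (L : ℕ) (u w : ℕ → Fin (m + 1)) : (fun i => cat L u w (L + i)) = w := by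
  ext i; simp [cat]

lemma small (K : ℕ) (θ : ℝ≥0∞) : (K : ℝ≥0∞) * (θ / (K + 1)) ≤ θ :=
  (mul_le_mul_left le_self_add _).trans ENNReal.mul_div_le

lemma stage (H : Hyp m β c) (hψ : ∀ i d, |ψ i d| ≤ 1)
    (hE : ∀ᵐ x ∂volume.restrict (Icc 0 c), (E β ψ x).Nonempty) (θ : ℝ≥0∞) (δ : ℝ) :
    ∃ K Q : ℕ, θ ≠ 0 → 0 < δ → ∀ R : ℕ, ∃ (B : ℕ) (D : Set ℝ) (b : Bool → ℝ → ℕ → Fin (m + 1)),
      R < B ∧ volume (Icc 0 c \ D) ≤ 3 * θ ∧
      (∀ y ∈ D, (∃ t < B, b true y t ≠ b false y t) ∧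
        ∀ e, rem β (b e y) y B ∈ Icc 0 c ∧ Blk ψ δ Q R B (b e y)) ∧
      ∀ e Z, volume {y ∈ D | rem β (b e y) y B ∈ Z} ≤ K * volume Z := by
  by_cases h0 : θ ≠ 0 ∧ 0 < δ
  swap
  · exact ⟨0, 0, fun a b => (h0 ⟨a, b⟩).elim⟩
  obtain ⟨hθ, hδ⟩ := h0
  obtain ⟨L, hL⟩ := Br_big H hθ
  obtain ⟨K, hK⟩ := crude H L
  obtain ⟨M, hM⟩ := good_big H hψ hE (η := θ / (K + 1))
    (ENNReal.div_pos hθ (by simp)).ne' hδ
  refine ⟨K * 4, L + M, fun _ _ R => ?_⟩
  obtain ⟨N, hRN, hN⟩ := hM R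
  obtain ⟨sel, hsel, hpre⟩ := good_step H {w | Blk ψ δ M R N w} N
  have : ∀ y ∈ Br m β c L, ∃ u : Bool → ℕ → Fin (m + 1), (∃ t < L, u true t ≠ u false t) ∧
      ∀ e, rem β (u e) y L ∈ Icc 0 c := by
    rintro y ⟨u, u', h, h1, h2⟩
    exact ⟨fun e => cond e u u', h, fun e => by cases e <;> assumption⟩
  choose! u hu hu' using this
  have hr : ∀ e y, rem β (cat L (u y e) (sel (rem β (u y e) y L))) y (L + N) =
      rem β (sel (rem β (u y e) y L)) (rem β (u y e) y L) N := fun e y => by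
    rw [rem_add H, cat_sh, rem_congr (ε := cat L (u y e) _) (ε' := u y e) (n := L)
      fun t ht => if_pos ht]
  refine ⟨L + N, {y ∈ Br m β c L | ∀ e, rem β (u y e) y L ∈ Dom β c {w | Blk ψ δ M R N w} N},
    fun e y => cat L (u y e) (sel (rem β (u y e) y L)), by omega, ?_, fun y hy => ⟨?_, fun e => ?_⟩,
    fun e Z => ?_⟩
  · have sub : Icc 0 c \ {y ∈ Br m β c L | ∀ e, rem β (u y e) y L ∈
        Dom β c {w | Blk ψ δ M R N w} N} ⊆ (Icc 0 c \ Br m β c L) ∪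
        ({y | rem β (u y true) y L ∈ Icc 0 c \ Dom β c {w | Blk ψ δ M R N w} N} ∪
        {y | rem β (u y false) y L ∈ Icc 0 c \ Dom β c {w | Blk ψ δ M R N w} N}) := by
      rintro y ⟨hy, hn⟩
      by_cases hb : y ∈ Br m β c L
      · obtain ⟨e, he⟩ := not_forall.1 fun h => hn ⟨hb, h⟩
        cases e
        · exact Or.inr (Or.inr ⟨hu' y hb _, he⟩)
        · exact Or.inr (Or.inl ⟨hu' y hb _, he⟩)
      · exact Or.inl ⟨hy, hb⟩
    have k := fun e => (hK (fun y => u y e) _).trans ((mul_le_mul_right hN _).trans (small K θ))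
    refine (measure_mono sub).trans ((measure_union_le _ _).trans ((add_le_add hL
      ((measure_union_le _ _).trans (add_le_add (k true) (k false)))).trans (le_of_eq (by ring))))
  · obtain ⟨t, ht, h⟩ := hu y hy.1
    exact ⟨t, by omega, by simpa only [cat, if_pos ht] using h⟩
  · obtain ⟨s1, s2⟩ := hsel _ (hy.2 e)
    refine ⟨by rwa [hr], fun i => ⟨fun t ht => ?_, ?_⟩⟩
    · have a0 : (0:ℝ) ≤ M := Nat.cast_nonneg M
      rcases le_total t L with h | h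
      · have : (t : ℝ) ≤ L := by exact_mod_cast h
        have : 0 ≤ δ * t := by positivity
        push_cast
        linarith [(abs_le.1 (sm_abs (hψ i) (cat L (u y e) (sel (rem β (u y e) y L))) t)).2]
      · obtain ⟨t, rfl⟩ := Nat.exists_eq_add_of_le h
        have := (s1 i).1 t (by omega)
        have : 0 ≤ δ * L := by positivity
        rw [sm_add, cat_sh]; push_cast
        nlinarith [(abs_le.1 (sm_abs (hψ i) (cat L (u y e) (sel (rem β (u y e) y L))) L)).2]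
    · obtain ⟨t, h1, h2, h3⟩ := (s1 i).2
      refine ⟨L + t, by omega, by omega, ?_⟩
      have : 0 ≤ δ * L := by positivity
      rw [sm_add, cat_sh]; push_cast
      nlinarith [(abs_le.1 (sm_abs (hψ i) (cat L (u y e) (sel (rem β (u y e) y L))) L)).1]
  · refine (measure_mono fun y hy => ?_).trans ((hK (fun y => u y e) _).trans
      ((mul_le_mul_right (hpre Z) _).trans (le_of_eq (by push_cast; ring))))
    exact ⟨hy.1.2 e, by rw [← hr]; exact hy.2⟩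

end Pool.Agent.H43.Bex
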