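import Pool.Agent.H43.Bex2

namespace Pool.Agent.H43.Bex

open Set Filter Topology MeasureTheory Cardinal
open Finset (range)
open scoped ENNReal

variable {m : ℕ} {β c : ℝ} {ι : Type} {ψ : ι → Fin (m + 1) → ℝ}

lemma dec {S B : ℕ → ℕ} (h0 : S 0 = 0) (hS : ∀ j, S (j + 1) = S j + B j) (hB : ∀ j, 0 < B j)
    (n : ℕ) : ∃ j t, t < B j ∧ n = S j + t := by
  induction n with
  | zero => exact ⟨0, 0, hB 0, by omega⟩
  | succ n ih =>
    obtain ⟨j, t, h1, h2⟩ := ih
    by_cases h : t + 1 < B j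
    · exact ⟨j, t + 1, h, by omega⟩
    · exact ⟨j + 1, 0, hB _, by rw [hS]; omega⟩

lemma smono {S B : ℕ → ℕ} (hS : ∀ j, S (j + 1) = S j + B j) (hB : ∀ j, 0 < B j) : StrictMono S :=
  strictMono_nat_of_lt_succ fun j => by rw [hS]; linarith [hB j]

lemma concat {α : Type*} {S B : ℕ → ℕ} (h0 : S 0 = 0) (hS : ∀ j, S (j + 1) = S j + B j)
    (hB : ∀ j, 0 < B j) (b : ℕ → ℕ → α) : ∃ ε : ℕ → α, ∀ j, ∀ t < B j, ε (S j + t) = b j t := by
  choose jj tt h1 h2 using dec h0 hS hB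
  refine ⟨fun n => b (jj n) (tt n), fun j t ht => ?_⟩
  have a1 := h1 (S j + t)
  have a2 := h2 (S j + t)
  have e : jj (S j + t) = j := by
    rcases lt_trichotomy (jj (S j + t)) j with h | h | h
    · have := (smono hS hB).monotone (Nat.succ_le_of_lt h)
      rw [Nat.succ_eq_add_one, hS] at this; omega
    · exact h
    · have := (smono hS hB).monotone (Nat.succ_le_of_lt h)
      rw [Nat.succ_eq_add_one, hS] at this; omega
  simp only [e] at a2 ⊢
  rw [← Nat.add_left_cancel a2]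

lemma fr_of_blocks (hψ : ∀ i d, |ψ i d| ≤ 1) {S B Q : ℕ → ℕ} (h0 : S 0 = 0)
    (hS : ∀ j, S (j + 1) = S j + B j) (hB : ∀ j, (j + 1) * (S j + Q j + Q (j + 1)) < B j)
    {b : ℕ → ℕ → Fin (m + 1)}
    (hb : ∀ j : ℕ, Blk ψ (1 / ((j : ℝ) + 1)) (Q j) ((j + 1) * (S j + Q j + Q (j + 1))) (B j) (b j))
    {ε : ℕ → Fin (m + 1)} (hε : ∀ j, ∀ t < B j, ε (S j + t) = b j t) : Fr ψ ε := by
  have hB0 : ∀ j, 0 < B j := fun j => lt_of_le_of_lt (Nat.zero_le _) (hB j)
  have hm := smono hS hB0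
  intro i δ hδ
  have e : ∀ j, ∀ t ≤ B j, sm (ψ i) ε (S j + t) = sm (ψ i) ε (S j) + sm (ψ i) (b j) t :=
    fun j t ht => by rw [sm_add, sm_congr (ε' := b j) (n := t) _ fun s hs => hε j s (by omega)]
  obtain ⟨J, hJ⟩ := exists_nat_one_div_lt (half_pos hδ)
  have hd : ∀ j, J ≤ j → 1 / ((j : ℝ) + 1) ≤ δ / 2 := fun j hj =>
    (Nat.one_div_le_one_div hj).trans hJ.le
  have hR : ∀ j t : ℕ, (j + 1) * (S j + Q j + Q (j + 1)) ≤ t →
      (S j : ℝ) + Q j + Q (j + 1) ≤ 1 / ((j : ℝ) + 1) * t := fun j t h => by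
    rw [one_div_mul_eq_div, le_div_iff₀ (by positivity), mul_comm]
    exact_mod_cast h
  refine ⟨eventually_atTop.2 ⟨S (J + 1), fun n hn => ?_⟩, frequently_atTop.2 fun a => ?_⟩
  · obtain ⟨j, t, ht, rfl⟩ := dec h0 hS hB0 n
    have : J + 1 < j + 1 := hm.lt_iff_lt.1 (by rw [hS j]; omega)
    obtain ⟨j, rfl⟩ : ∃ k, j = k + 1 := ⟨j - 1, by omega⟩
    have a1 := (hb (j + 1) i).1 t ht.le
    have a2 := (hb j i).1 (B j) le_rfl
    have a3 := hR j _ (hB j).le
    have a4 := (abs_le.1 (sm_abs (hψ i) ε (S j))).2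
    have d1 := mul_le_mul_of_nonneg_right (hd j (by omega)) (Nat.cast_nonneg (B j))
    have d2 := mul_le_mul_of_nonneg_right (hd (j + 1) (by omega)) (Nat.cast_nonneg t)
    rw [e _ t ht.le, hS j, e j _ le_rfl]
    push_cast at *
    have : 0 ≤ δ * S j := by positivity
    have : 0 ≤ δ * t := by positivity
    nlinarith
  · obtain ⟨t, h1, h2, h3⟩ := (hb (J + a) i).2
    refine ⟨S (J + a) + t, ?_, ?_⟩
    · have := hm.id_le (J + a)
      simp only [id] at this; omega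
    · have a3 := hR _ _ h1
      have a4 := (abs_le.1 (sm_abs (hψ i) ε (S (J + a)))).1
      have d1 := mul_le_mul_of_nonneg_right (hd (J + a) (by omega)) (Nat.cast_nonneg t)
      rw [e _ t h2, Nat.cast_add (S (J + a))]
      have : 0 ≤ δ * S (J + a) := by positivity
      have : (0:ℝ) ≤ Q (J + a + 1) := by positivity
      nlinarith

/-- Points that fail within `n` stages. -/
def Zs (c : ℝ) (D : ℕ → Set ℝ) (τ : ℕ → Bool → ℝ → ℝ) : ℕ → ℕ → Set ℝ
  | 0, _ => ∅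
  | n + 1, j => (Icc 0 c \ D j) ∪ ({y ∈ D j | τ j true y ∈ Zs c D τ n (j + 1)} ∪
      {y ∈ D j | τ j false y ∈ Zs c D τ n (j + 1)})

lemma Zs_mono (D : ℕ → Set ℝ) (τ : ℕ → Bool → ℝ → ℝ) (n : ℕ) :
    ∀ j, Zs c D τ n j ⊆ Zs c D τ (n + 1) j := by
  induction n with
  | zero => exact fun j => empty_subset _
  | succ n ih =>
    exact fun j => union_subset_union_right _ (union_subset_union
      (fun y hy => ⟨hy.1, ih _ hy.2⟩) fun y hy => ⟨hy.1, ih _ hy.2⟩)

lemma main_bound [Finite ι] (H : Hyp m β c) (hψ : ∀ i d, |ψ i d| ≤ 1)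
    (hE : ∀ᵐ x ∂volume.restrict (Icc 0 c), (E β ψ x).Nonempty) {θ0 : ℝ≥0∞} (hθ : θ0 ≠ 0) :
    volume {x ∈ Icc 0 c | ¬ 𝔠 ≤ #(E β ψ x)} ≤ 5 * θ0 := by
  choose K Q hKQ using stage H hψ hE
  set δ : ℕ → ℝ := fun j => 1 / ((j : ℝ) + 1) with hδ
  let θ : ℕ → ℝ≥0∞ := fun j => Nat.rec θ0 (fun j t => t / ((5 * K t (δ j) : ℕ) + 1)) j
  have θs : ∀ j, θ (j + 1) = θ j / ((5 * K (θ j) (δ j) : ℕ) + 1) := fun j => rfl
  have θp : ∀ j, θ j ≠ 0 := fun j => by
    induction j with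
    | zero => exact hθ
    | succ j ih => rw [θs]; exact (ENNReal.div_pos ih (by simp [ENNReal.mul_eq_top])).ne'
  choose B D b h1 h2 h3 h4 using fun j R => hKQ (θ j) (δ j) (θp j) Nat.one_div_pos_of_nat R
  set q : ℕ → ℕ := fun j => Q (θ j) (δ j) with hq
  let S : ℕ → ℕ := fun j => Nat.rec 0 (fun j s => s + B j ((j + 1) * (s + q j + q (j + 1)))) j
  set R : ℕ → ℕ := fun j => (j + 1) * (S j + q j + q (j + 1)) with hR
  have hS : ∀ j, S (j + 1) = S j + B j (R j) := fun j => rfl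
  have hB : ∀ j, 0 < B j (R j) := fun j => lt_of_le_of_lt (Nat.zero_le _) (h1 j _)
  set τ : ℕ → Bool → ℝ → ℝ := fun j e y => rem β (b j (R j) e y) y (B j (R j)) with hτ
  set Z := Zs c (fun j => D j (R j)) τ with hZ
  have vz : ∀ n j, volume (Z n j) ≤ 5 * θ j := by
    intro n
    induction n with
    | zero => intro j; simp [hZ, Zs]
    | succ n ih =>
      intro j
      have k : ∀ e, volume {y ∈ D j (R j) | τ j e y ∈ Z n (j + 1)} ≤ θ j := fun e => by
        refine (h4 j _ e _).trans ((mul_le_mul_right (ih _) _).trans ?_)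
        refine le_trans (le_of_eq ?_) (small (5 * K (θ j) (δ j)) (θ j))
        rw [θs]; push_cast; ring
      exact (measure_union_le _ _).trans ((add_le_add (h2 j _) ((measure_union_le _ _).trans
        (add_le_add (k true) (k false)))).trans (le_of_eq (by ring)))
  have mo : Monotone fun n => Z n 0 := monotone_nat_of_le_succ fun n => Zs_mono _ _ n 0
  refine le_trans (measure_mono fun x hx => ?_) (mo.measure_iUnion.trans_le (iSup_le fun n => vz n 0))
  by_contra hn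
  refine hx.2 ?_
  have step : ∀ j y, (y ∈ Icc 0 c ∧ ∀ n, y ∉ Z n j) → y ∈ D j (R j) ∧
      ∀ e, τ j e y ∈ Icc 0 c ∧ ∀ n, τ j e y ∉ Z n (j + 1) := fun j y hy => by
    have hD : y ∈ D j (R j) := by_contra fun h => hy.2 1 (Or.inl ⟨hy.1, h⟩)
    refine ⟨hD, fun e => ⟨((h3 j _ y hD).2 e).1, fun n h => hy.2 (n + 1) (Or.inr ?_)⟩⟩
    cases e
    · exact Or.inr ⟨hD, h⟩
    · exact Or.inl ⟨hD, h⟩
  let y : (ℕ → Bool) → ℕ → ℝ := fun s j => Nat.rec x (fun j y => τ j (s j) y) j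
  have ys : ∀ s j, y s (j + 1) = τ j (s j) (y s j) := fun s j => rfl
  have yX : ∀ s j, y s j ∈ Icc 0 c ∧ ∀ n, y s j ∉ Z n j := fun s j => by
    induction j with
    | zero => exact ⟨hx.1, fun n h => hn (mem_iUnion.2 ⟨n, h⟩)⟩
    | succ j ih => exact (step j _ ih).2 (s j)
  choose ε hε using fun s : ℕ → Bool => concat rfl hS hB fun j => b j (R j) (s j) (y s j)
  have hr : ∀ s j, rem β (ε s) x (S j) = y s j := fun s j => by
    induction j with
    | zero => exact rem_zero _ _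
    | succ j ih => rw [hS, rem_add H, ih, ys, rem_congr (hε s j)]
  have mem : ∀ s, ε s ∈ E β ψ x := fun s =>
    ⟨hasSum_of_rem H (smono hS hB).tendsto_atTop fun j => by rw [hr]; exact (yX s j).1,
      fr_of_blocks hψ rfl hS (fun j => h1 j _)
        (fun j => ((h3 j _ _ (step j _ (yX s j)).1).2 (s j)).2) (hε s)⟩
  have inj : Function.Injective fun s => (⟨ε s, mem s⟩ : E β ψ x) := by
    intro s s' h
    have h' : ε s = ε s' := congrArg Subtype.val h
    ext j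
    have e : y s j = y s' j := by rw [← hr, ← hr, h']
    obtain ⟨t, ht, hne⟩ := (h3 j _ _ (step j _ (yX s j)).1).1
    have a1 := hε s j t ht
    have a2 := hε s' j t ht
    rw [← h', a1, ← e] at a2
    by_contra hc
    cases hs : s j <;> cases hs' : s' j <;> simp_all
  have := mk_le_of_injective inj
  simpa using this

lemma main_ae [Finite ι] (H : Hyp m β c) (hψ : ∀ i d, |ψ i d| ≤ 1)
    (hE : ∀ᵐ x ∂volume.restrict (Icc 0 c), (E β ψ x).Nonempty) :
    ∀ᵐ x ∂volume.restrict (Icc 0 c), #(E β ψ x) = 𝔠 := by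
  have z : volume {x ∈ Icc 0 c | ¬ 𝔠 ≤ #(E β ψ x)} = 0 := by
    refine le_antisymm (ENNReal.le_of_forall_pos_le_add fun η hη _ => ?_) zero_le
    refine (main_bound H hψ hE (θ0 := η / 5) (ENNReal.div_pos (by simpa using hη.ne') (by simp)).ne').trans ?_
    rw [zero_add]; exact ENNReal.mul_div_le
  refine (ae_restrict_iff' measurableSet_Icc).2 (ae_iff.2 (measure_mono_null (fun x hx => ?_) z))
  simp only [mem_ofPred_eq, Classical.not_imp] at hx
  refine ⟨hx.1, fun h => hx.2 (le_antisymm ((mk_set_le _).trans ?_) h)⟩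
  have : #(ℕ → Fin (m + 1)) ≤ #(ℕ → ℕ) :=
    mk_le_of_injective (f := fun w i => (w i : ℕ)) fun w w' h => funext fun i =>
      Fin.ext (congrFun h i)
  exact this.trans (by simp)

end Pool.Agent.H43.Bex
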