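import Pool.Agent.H43.Bex3

namespace Pool.Agent.H43.Bex

open Set Filter Topology MeasureTheory
open Finset (range)
open scoped ENNReal

/-- Standing hypotheses for the symmetric transformation. -/
structure Hy (m : ℕ) (β a : ℝ) : Prop where
  h2 : 2 < β
  hc : β * (2 * a + 1) = 2 * a + 1 + m
  h0 : 0 < a

variable {m : ℕ} {β a : ℝ}

lemma Hy.hyp (H : Hy m β a) : Hyp m β (2 * a + 1) := ⟨by linarith [H.h2], H.hc, by linarith [H.h0]⟩

/-- The digit. -/
noncomputable def dg (m : ℕ) (β a x : ℝ) : Fin (m + 1) :=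
  ⟨min ⌊β * x - a⌋₊ m, Nat.lt_succ_of_le (min_le_right _ _)⟩

/-- The symmetric transformation. -/
noncomputable def Tm (m : ℕ) (β a x : ℝ) : ℝ := β * x - (dg m β a x : ℕ)

/-- The digit sequence. -/
noncomputable def dig (m : ℕ) (β a x : ℝ) (n : ℕ) : Fin (m + 1) := dg m β a ((Tm m β a)^[n] x)

lemma rem_dig (H : Hy m β a) (x : ℝ) (n : ℕ) : rem β (dig m β a x) x n = (Tm m β a)^[n] x := by
  induction n with
  | zero => exact rem_zero _ _
  | succ n ih => rw [rem_succ H.hyp, ih, Function.iterate_succ_apply']; rfl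

lemma dig_add (x : ℝ) (n : ℕ) :
    (fun i => dig m β a x (n + i)) = dig m β a ((Tm m β a)^[n] x) := by
  funext i; rw [dig, dig, add_comm n i, Function.iterate_add_apply]

lemma dg_eq {x : ℝ} {d : Fin (m + 1)} (h : β * x - (d : ℕ) ∈ Ico a (a + 1)) : dg m β a x = d := by
  have : ⌊β * x - a⌋₊ = d := (Nat.floor_eq_iff (by linarith [h.1, (d : ℕ).cast_nonneg (α := ℝ)])).2
    ⟨by linarith [h.1], by linarith [h.2]⟩
  exact Fin.ext (by simp only [dg, this]; exact min_eq_left (Nat.lt_succ_iff.1 d.2))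

lemma Tm_mem {x : ℝ} (h0 : a ≤ β * x) (h1 : β * x - a < m + 1) : Tm m β a x ∈ Ico a (a + 1) := by
  have : ⌊β * x - a⌋₊ ≤ m := Nat.lt_succ_iff.1 ((Nat.floor_lt (by linarith)).2 (by exact_mod_cast h1))
  simp only [Tm, dg, min_eq_left this]
  exact ⟨by linarith [Nat.floor_le (by linarith : 0 ≤ β * x - a)],
    by linarith [Nat.lt_floor_add_one (β * x - a)]⟩

lemma Hy.lt (H : Hy m β a) {x : ℝ} (h : x < a + 1) : β * x - a < m + 1 := by
  nlinarith [H.h2, H.hc, H.h0]

lemma TJ (H : Hy m β a) {x : ℝ} (h : x ∈ Ico a (a + 1)) : Tm m β a x ∈ Ico a (a + 1) :=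
  Tm_mem (by nlinarith [H.h2, H.h0, h.1]) (H.lt h.2)

lemma TJn (H : Hy m β a) {x : ℝ} (h : x ∈ Ico a (a + 1)) (n : ℕ) :
    (Tm m β a)^[n] x ∈ Ico a (a + 1) := by
  induction n with
  | zero => exact h
  | succ n ih => rw [Function.iterate_succ_apply']; exact TJ H ih

lemma enter (H : Hy m β a) {x : ℝ} (h0 : 0 < x) (h1 : x < 2 * a + 1) :
    ∃ n, (Tm m β a)^[n] x ∈ Ico a (a + 1) := by
  by_contra hn
  push Not at hn
  have hβ := H.h2
  have unb : ∀ y > 0, ∃ n : ℕ, a < β ^ n * y := fun y hy =>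
    (((tendsto_pow_atTop_atTop_of_one_lt (by linarith : 1 < β)).atTop_mul_const hy).eventually
      (eventually_gt_atTop a)).exists
  rcases lt_or_ge x a with h | h
  · have : ∀ n, (Tm m β a)^[n] x = β ^ n * x ∧ β ^ n * x < a := fun n => by
      induction n with
      | zero => simpa using h
      | succ n ih =>
        have c := hn (n + 1)
        rw [Function.iterate_succ_apply', ih.1] at c ⊢
        have d : β * (β ^ n * x) < a := not_le.1 fun d => c (Tm_mem d (H.lt (by linarith [ih.2])))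
        rw [pow_succ', mul_assoc]
        refine ⟨?_, d⟩
        simp [Tm, dg, Nat.floor_of_nonpos (by linarith : β * (β ^ n * x) - a ≤ 0)]
    obtain ⟨n, hn⟩ := unb x h0
    linarith [(this n).2]
  · have : ∀ n, 2 * a + 1 - (Tm m β a)^[n] x = β ^ n * (2 * a + 1 - x) ∧
        a + 1 ≤ (Tm m β a)^[n] x := fun n => by
      induction n with
      | zero => exact ⟨by simp, not_lt.1 fun c => hn 0 ⟨h, c⟩⟩
      | succ n ih =>
        have c := hn (n + 1)
        rw [Function.iterate_succ_apply'] at c ⊢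
        set y := (Tm m β a)^[n] x
        have d : (m : ℝ) + 1 ≤ β * y - a :=
          not_lt.1 fun d => c (Tm_mem (by nlinarith [ih.2, H.h0]) d)
        have e : Tm m β a y = β * y - m := by
          simp only [Tm, dg, min_eq_right (Nat.le_floor (by linarith : (m : ℝ) ≤ β * y - a))]
        rw [e, pow_succ', mul_assoc, ← ih.1]
        exact ⟨by linarith [H.hc], by linarith⟩
    obtain ⟨n, hn⟩ := unb _ (sub_pos.2 h1)
    linarith [(this n).1, (this n).2]

/-- One step of the interval state. -/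
noncomputable def step (β a : ℝ) (s : ℝ × ℝ) (d : Fin (m + 1)) : ℝ × ℝ :=
  (max a (β * s.1 - (d : ℕ)), min (a + 1) (β * s.2 - (d : ℕ)))

/-- The interval state along a word. -/
noncomputable def st (β a : ℝ) (w : ℕ → Fin (m + 1)) (s : ℝ × ℝ) : ℕ → ℝ × ℝ
  | 0 => s
  | n + 1 => step β a (st β a w s n) (w n)

lemma st_succ (w : ℕ → Fin (m + 1)) (s : ℝ × ℝ) (n : ℕ) :
    st β a w s (n + 1) = st β a (fun i => w (1 + i)) (step β a s (w 0)) n := by
  induction n with
  | zero => rfl
  | succ n ih => rw [st, ih, st, add_comm]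

lemma st_congr {w w' : ℕ → Fin (m + 1)} (s : ℝ × ℝ) {n : ℕ} (h : ∀ j < n, w j = w' j) :
    st β a w s n = st β a w' s n := by
  induction n with
  | zero => rfl
  | succ n ih => rw [st, st, ih fun j hj => h j (by omega), h n (by omega)]

lemma st_rev (H : Hy m β a) (w : ℕ → Fin (m + 1)) (n : ℕ) :
    st β a (fun i => (w i).rev) (a, a + 1) n =
      (2 * a + 1 - (st β a w (a, a + 1) n).2, 2 * a + 1 - (st β a w (a, a + 1) n).1) := by
  induction n with
  | zero => simp only [st]; congr 1 <;> ring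
  | succ n ih =>
    have e : (((w n).rev : ℕ) : ℝ) = m - (w n : ℕ) := by
      rw [Fin.val_rev, Nat.add_sub_add_right, Nat.cast_sub (Nat.lt_succ_iff.1 (w n).2)]
    simp only [st, step, ih, e, ← max_sub_sub_left, ← min_sub_sub_left]
    congr 2 <;> linarith [H.hc]

lemma cyl (H : Hy m β a) (w : ℕ → Fin (m + 1)) (x : ℝ) (n : ℕ) :
    (x ∈ Ico a (a + 1) ∧ ∀ j < n, dig m β a x j = w j) ↔
      rem β w x n ∈ Ico (st β a w (a, a + 1) n).1 (st β a w (a, a + 1) n).2 := by
  have hβ := H.h2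
  induction n with
  | zero => simp [rem_zero, st]
  | succ n ih =>
    rw [rem_succ H.hyp]
    simp only [st, step, mem_Ico, max_le_iff, lt_min_iff]
    constructor
    · rintro ⟨h1, h2⟩
      have h3 := ih.1 ⟨h1, fun j hj => h2 j (by omega)⟩
      have h4 := TJn H h1 (n + 1)
      rw [← rem_dig H, rem_congr h2, rem_succ H.hyp] at h4
      exact ⟨⟨h4.1, by nlinarith [h3.1]⟩, h4.2, by nlinarith [h3.2]⟩
    · rintro ⟨⟨h1, h2⟩, h3, h4⟩
      have h5 := ih.2 ⟨by nlinarith, by nlinarith⟩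
      refine ⟨h5.1, fun j hj => (Nat.lt_succ_iff_lt_or_eq.1 hj).elim (h5.2 j) fun e => ?_⟩
      rw [e, dig, ← rem_dig H, rem_congr h5.2]
      exact dg_eq ⟨h1, h3⟩

lemma aff {q : ℝ} (hq : 0 < q) (e : ℝ) (S : Set ℝ) :
    volume {y | q * (y - e) ∈ S} = ENNReal.ofReal q⁻¹ * volume S := by
  have : {y | q * (y - e) ∈ S} = (fun y => y + -e) ⁻¹' ((q * ·) ⁻¹' S) := rfl
  rw [this, measure_preimage_add_right, Real.volume_preimage_mul_left hq.ne',
    abs_of_pos (by positivity)]

lemma tail (H : Hy m β a) (n : ℕ) : ∀ s : ℝ × ℝ, a ≤ s.1 → s.2 ≤ a + 1 →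
    volume {x ∈ Ico s.1 s.2 | ∀ j < n, st β a (dig m β a x) s (j + 1) ≠ (a, a + 1)} ≤
      ENNReal.ofReal (2 / β) ^ n := by
  have hβ := H.h2
  induction n with
  | zero =>
    intro s h1 h2
    refine (measure_mono fun x hx => hx.1).trans ?_
    rw [Real.volume_Ico, pow_zero]; exact ENNReal.ofReal_le_one.2 (by linarith)
  | succ n ih =>
    intro s h1 h2
    set N : Fin (m + 1) → Set ℝ := fun d => {x ∈ Ico (step β a s d).1 (step β a s d).2 |
      ∀ j < n, st β a (dig m β a x) (step β a s d) (j + 1) ≠ (a, a + 1)} with hN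
    have k : ∀ d, volume {y | β * (y - (d : ℕ) / β) ∈ N d} ≤
        ENNReal.ofReal β⁻¹ * ENNReal.ofReal (2 / β) ^ n := fun d => by
      rw [aff (by linarith)]
      exact mul_le_mul_right (ih _ (le_max_left _ _) (min_le_left _ _)) _
    refine (measure_mono (t := {y | β * (y - (dg m β a s.1 : ℕ) / β) ∈ N (dg m β a s.1)} ∪
      {y | β * (y - (dg m β a s.2 : ℕ) / β) ∈ N (dg m β a s.2)}) fun x hx => ?_).trans
      ((measure_union_le _ _).trans ((add_le_add (k _) (k _)).trans (le_of_eq ?_)))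
    · have t := TJ H (x := x) ⟨h1.trans hx.1.1, hx.1.2.trans_le h2⟩
      have l1 := mul_le_mul_of_nonneg_left hx.1.1 (by linarith : 0 ≤ β)
      have l2 := mul_lt_mul_of_pos_left hx.1.2 (by linarith : 0 < β)
      have key : β * (x - (dg m β a x : ℕ) / β) ∈ N (dg m β a x) := by
        rw [show β * (x - (dg m β a x : ℕ) / β) = Tm m β a x by rw [Tm]; field_simp]
        refine ⟨⟨max_le t.1 (by rw [Tm]; linarith), lt_min t.2 (by rw [Tm]; linarith)⟩,
          fun j hj => ?_⟩
        have := hx.2 (j + 1) (by omega)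
        rwa [st_succ, dig_add] at this
      have := hx.2 0 (by omega)
      rw [Tm] at t
      by_cases c : a < β * s.1 - (dg m β a x : ℕ)
      · exact Or.inl (by rwa [dg_eq (x := s.1) ⟨c.le, by linarith [t.2]⟩])
      · exact Or.inr (by rwa [dg_eq (x := s.2) (d := dg m β a x) ⟨by linarith [t.1], not_le.1 fun c' => this
          (Prod.ext (max_eq_left (not_lt.1 c)) (min_eq_left c'))⟩])
    · rw [← add_mul, ← ENNReal.ofReal_add (by positivity) (by positivity), pow_succ']
      congr 2; ring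

end Pool.Agent.H43.Bex
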