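import Pool.Agent.H43.Bex4

namespace Pool.Agent.H43.Bex

open Set Filter Topology MeasureTheory ProbabilityTheory
open Finset (range)
open scoped ENNReal

variable {m : ℕ} {β a : ℝ}

/-- Words with the discrete sigma-algebra. -/
def Wd (m : ℕ) : Type := List (Fin (m + 1))

instance : MeasurableSpace (Wd m) := ⊤
instance : DiscreteMeasurableSpace (Wd m) := ⟨fun _ => trivial⟩
instance : Countable (Wd m) := inferInstanceAs (Countable (List (Fin (m + 1))))

/-- A word as a sequence. -/
def ex (w : Wd m) (i : ℕ) : Fin (m + 1) := List.getD w i 0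

/-- Length of a word. -/
def len (w : Wd m) : ℕ := List.length w

/-- Reflected word. -/
def rv (w : Wd m) : Wd m := List.map Fin.rev w

/-- First-full words. -/
def Stop (β a : ℝ) (w : ℕ → Fin (m + 1)) (n : ℕ) : Prop :=
  n ≠ 0 ∧ st β a w (a, a + 1) n = (a, a + 1) ∧ ∀ j, j + 1 < n → st β a w (a, a + 1) (j + 1) ≠ (a, a + 1)

open Classical in
/-- The first block of digits. -/
noncomputable def Bk (m : ℕ) (β a x : ℝ) : Wd m :=
  if h : ∃ n, Stop β a (dig m β a x) n then List.ofFn fun i : Fin h.choose => dig m β a x i else []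

/-- The induced map. -/
noncomputable def Fm (m : ℕ) (β a x : ℝ) : ℝ := (Tm m β a)^[len (Bk m β a x)] x

lemma Stop.congr {w w' : ℕ → Fin (m + 1)} {n : ℕ} (h : Stop β a w n) (e : ∀ j < n, w j = w' j) :
    Stop β a w' n :=
  ⟨h.1, st_congr _ e ▸ h.2.1, fun j hj => by
    rw [← st_congr (n := j + 1) _ fun i hi => e i (by omega)]; exact h.2.2 j hj⟩

lemma Stop.uniq {w : ℕ → Fin (m + 1)} {n k : ℕ} (h : Stop β a w n) (h' : Stop β a w k) : n = k := by
  rcases lt_trichotomy n k with c | c | c
  · obtain ⟨j, rfl⟩ := Nat.exists_eq_succ_of_ne_zero h.1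
    exact (h'.2.2 j c h.2.1).elim
  · exact c
  · obtain ⟨j, rfl⟩ := Nat.exists_eq_succ_of_ne_zero h'.1
    exact (h.2.2 j c h'.2.1).elim

lemma ex_Bk (x : ℝ) : ∀ j < len (Bk m β a x), dig m β a x j = ex (Bk m β a x) j := by
  unfold Bk len ex
  split_ifs with h
  · intro j hj
    rw [List.getD_eq_getElem _ _ hj, List.getElem_ofFn]
  · intro j hj; simp at hj

lemma Bk_eq {x : ℝ} {w : Wd m} (hw : len w ≠ 0) : Bk m β a x = w ↔
    Stop β a (ex w) (len w) ∧ ∀ j < len w, dig m β a x j = ex w j := by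
  constructor
  · rintro rfl
    refine ⟨Stop.congr ?_ (ex_Bk x), ex_Bk x⟩
    unfold Bk len at *
    split_ifs at * with h
    · rw [List.length_ofFn]; exact h.choose_spec
    · simp at hw
  · rintro ⟨h1, h2⟩
    have h3 := h1.congr fun j hj => (h2 j hj).symm
    have h : ∃ n, Stop β a (dig m β a x) n := ⟨_, h3⟩
    have e := h.choose_spec.uniq h3
    rw [Bk, dif_pos h]
    refine List.ext_getElem (by rw [List.length_ofFn]; exact e) fun j h4 h5 => ?_
    rw [List.getElem_ofFn, h2 j h5, ex, List.getD_eq_getElem _ _ h5]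

lemma Tm_meas : Measurable (dg m β a) ∧ Measurable (Tm m β a) := by
  have h : Measurable (dg m β a) :=
    (measurable_from_top (f := fun k : ℕ => (⟨min k m, Nat.lt_succ_of_le (min_le_right _ _)⟩ :
      Fin (m + 1)))).comp (Measurable.nat_floor (by fun_prop))
  exact ⟨h, (measurable_id.const_mul β).sub
    ((measurable_from_top (f := fun d : Fin (m + 1) => ((d : ℕ) : ℝ))).comp h)⟩

lemma Bk_meas : Measurable (Bk m β a) := by
  have k : ∀ w : Wd m, len w ≠ 0 → MeasurableSet (Bk m β a ⁻¹' {w}) := fun w hw => by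
    have : Bk m β a ⁻¹' {w} = {_x | Stop β a (ex w) (len w)} ∩
        ⋂ j ∈ {j | j < len w}, (fun x => dig m β a x j) ⁻¹' {ex w j} := by
      ext x; simp [Bk_eq hw]
    rw [this]
    exact (MeasurableSet.const _).inter (MeasurableSet.biInter (to_countable _) fun j _ =>
      (Tm_meas.1.comp (Tm_meas.2.iterate j)) (measurableSet_singleton _))
  refine measurable_to_countable' fun w => ?_
  by_cases hw : len w = 0
  · have : Bk m β a ⁻¹' {w} = (⋃ v ∈ {v : Wd m | len v ≠ 0}, Bk m β a ⁻¹' {v})ᶜ := by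
      ext x
      simp only [mem_preimage, mem_singleton_iff, mem_compl_iff, mem_iUnion, exists_prop,
        exists_eq_right', mem_ofPred_eq, not_not]
      exact ⟨fun h => h ▸ hw, fun h => (List.length_eq_zero_iff.1 h).trans
        (List.length_eq_zero_iff.1 hw).symm⟩
    rw [this]
    exact (MeasurableSet.biUnion (to_countable _) k).compl
  · exact k w hw

lemma Fm_meas : Measurable (Fm m β a) :=
  (measurable_from_prod_countable_left (f := fun p : ℝ × Wd m => (Tm m β a)^[len p.2] p.1)
    fun w => Tm_meas.2.iterate (len w)).comp (measurable_id.prodMk Bk_meas)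

/-- Lebesgue measure on the unit interval centred at the midpoint. -/
noncomputable def mu (a : ℝ) : Measure ℝ := volume.restrict (Ico a (a + 1))

instance : IsProbabilityMeasure (mu a) := ⟨by simp [mu]⟩

lemma len_tail (H : Hy m β a) (n : ℕ) :
    mu a {x | len (Bk m β a x) = 0 ∨ n < len (Bk m β a x)} ≤ ENNReal.ofReal (2 / β) ^ n := by
  rw [mu, Measure.restrict_apply' measurableSet_Ico]
  refine le_trans (measure_mono fun x hx => ?_) (tail H n (a, a + 1) le_rfl le_rfl)
  refine ⟨hx.2, fun j hj e => ?_⟩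
  classical
  have h : ∃ j, st β a (dig m β a x) (a, a + 1) (j + 1) = (a, a + 1) := ⟨j, e⟩
  have s : Stop β a (dig m β a x) (Nat.find h + 1) :=
    ⟨by omega, Nat.find_spec h, fun i hi => Nat.find_min h (by omega)⟩
  have h' : ∃ n, Stop β a (dig m β a x) n := ⟨_, s⟩
  have l : len (Bk m β a x) = Nat.find h + 1 := by
    rw [Bk, dif_pos h', len, List.length_ofFn]; exact h'.choose_spec.uniq s
  have := Nat.find_min' h e
  have := hx.1
  simp only [mem_ofPred_eq] at this
  omega

lemma rho_lt (H : Hy m β a) : ENNReal.ofReal (2 / β) < 1 :=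
  ENNReal.ofReal_lt_one.2 ((div_lt_one (by linarith [H.h2])).2 H.h2)

lemma len_zero (H : Hy m β a) : mu a {x | len (Bk m β a x) = 0} = 0 :=
  le_antisymm (ge_of_tendsto' (ENNReal.tendsto_pow_atTop_nhds_zero_of_lt_one (rho_lt H)) fun n =>
    (measure_mono fun _ hx => Or.inl hx).trans (len_tail H n)) zero_le

open Classical in
lemma key (H : Hy m β a) (w : Wd m) (t : Set ℝ) : mu a (Bk m β a ⁻¹' {w} ∩ Fm m β a ⁻¹' t) =
    (if Stop β a (ex w) (len w) then ENNReal.ofReal (β ^ len w)⁻¹ else 0) * mu a t := by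
  have hβ := H.h2
  split_ifs with h
  · rw [mu, Measure.restrict_apply' measurableSet_Ico, Measure.restrict_apply' measurableSet_Ico,
      ← aff (by positivity) (val β (ex w) (len w))]
    congr 1; ext x
    have c := cyl H (ex w) x (len w)
    rw [h.2.1] at c
    constructor
    · rintro ⟨⟨h1, h2⟩, h3⟩
      have h4 := ((Bk_eq h.1).1 h1).2
      refine ⟨?_, c.1 ⟨h3, h4⟩⟩
      rw [mem_preimage, Fm, h1, ← rem_dig H, rem_congr h4] at h2
      exact h2
    · rintro ⟨h1, h2⟩
      have h3 := c.2 h2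
      have h4 := (Bk_eq h.1).2 ⟨h, h3.2⟩
      refine ⟨⟨h4, ?_⟩, h3.1⟩
      rw [mem_preimage, Fm, h4, ← rem_dig H, rem_congr h3.2]
      exact h1
  · rw [zero_mul]
    refine measure_mono_null (fun x hx => ?_) (len_zero H)
    by_contra c
    have e : Bk m β a x = w := hx.1
    exact h ((Bk_eq (e ▸ c)).1 e).1

lemma key2 (H : Hy m β a) (s : Set (Wd m)) {t : Set ℝ} (ht : MeasurableSet t) :
    mu a (Bk m β a ⁻¹' s ∩ Fm m β a ⁻¹' t) = mu a (Bk m β a ⁻¹' s) * mu a t := by
  rw [← Measure.restrict_apply' (Fm_meas ht),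
    ← tsum_measure_preimage_singleton (to_countable s) fun w _ => Bk_meas trivial,
    ← tsum_measure_preimage_singleton (to_countable s) fun w _ => Bk_meas trivial,
    ← ENNReal.tsum_mul_right]
  refine tsum_congr fun w => ?_
  have := key H w univ
  rw [preimage_univ, inter_univ, measure_univ, mul_one] at this
  rw [Measure.restrict_apply' (Fm_meas ht), key H, this]

lemma Fm_pres (H : Hy m β a) : MeasurePreserving (Fm m β a) (mu a) (mu a) :=
  ⟨Fm_meas, Measure.ext fun t ht => by
    simpa [Measure.map_apply Fm_meas ht] using key2 H univ ht⟩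

lemma slln (H : Hy m β a) (G : Wd m → ℝ) (hG : Integrable (fun x => G (Bk m β a x)) (mu a)) :
    ∀ᵐ x ∂mu a, Tendsto (fun n : ℕ => (∑ i ∈ range n, G (Bk m β a ((Fm m β a)^[i] x))) / n) atTop
      (𝓝 (∫ x, G (Bk m β a x) ∂mu a)) := by
  have mG : Measurable G := measurable_from_top
  have mX : ∀ i, Measurable fun x => G (Bk m β a ((Fm m β a)^[i] x)) := fun i =>
    mG.comp (Bk_meas.comp (Fm_meas.iterate i))
  have ind : ∀ i k, IndepFun (fun x => G (Bk m β a ((Fm m β a)^[i] x)))
      (fun x => G (Bk m β a ((Fm m β a)^[k + 1 + i] x))) (mu a) := fun i k => by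
    rw [indepFun_iff_measure_inter_preimage_eq_mul]
    intro s t hs ht
    have p := fun s hs => ((Fm_pres H).iterate i).measure_preimage (s := s) hs
    have a1 := p (Bk m β a ⁻¹' (G ⁻¹' s)) (Bk_meas trivial).nullMeasurableSet
    have mF := (Fm_pres H).measurable (mX k ht)
    have a2 := p _ mF.nullMeasurableSet
    have a3 := p _ ((Bk_meas (m := m) (β := β) (a := a) (t := G ⁻¹' s) trivial).inter
      mF).nullMeasurableSet
    have a4 := key2 H (G ⁻¹' s) (mX k ht)
    rw [← a3, ← a1, ← (Fm_pres H).measure_preimage (mX k ht).nullMeasurableSet, ← a2] at a4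
    simp only [Function.iterate_add_apply]
    exact a4
  refine strong_law_ae_real (fun i x => G (Bk m β a ((Fm m β a)^[i] x))) hG (fun i j hij => ?_)
    fun i => ⟨(mX i).aemeasurable, (mX 0).aemeasurable, ?_⟩
  · rcases lt_or_gt_of_ne hij with h | h
    · obtain ⟨k, rfl⟩ : ∃ k, j = k + 1 + i := ⟨j - 1 - i, by omega⟩
      exact ind i k
    · obtain ⟨k, rfl⟩ : ∃ k, i = k + 1 + j := ⟨i - 1 - j, by omega⟩
      exact (ind j k).symm
  · exact (Measure.map_map (mX 0) (Fm_meas.iterate i)).symm.trans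
      (by rw [((Fm_pres H).iterate i).map_eq])

lemma len_int (H : Hy m β a) : Integrable (fun x => (len (Bk m β a x) : ℝ)) (mu a) := by
  have mL : Measurable fun x => len (Bk m β a x) := measurable_from_top.comp Bk_meas
  refine ⟨((measurable_from_top (f := fun n : ℕ => (n : ℝ))).comp mL).aestronglyMeasurable, ?_⟩
  have e : ∀ x, ‖(len (Bk m β a x) : ℝ)‖ₑ =
      ∑' n : ℕ, {x | n < len (Bk m β a x)}.indicator (fun _ => (1 : ℝ≥0∞)) x := fun x => by
    rw [tsum_eq_sum (s := range (len (Bk m β a x))) fun n hn =>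
      indicator_of_notMem (by simpa using hn) _, Finset.sum_congr rfl fun n hn =>
      indicator_of_mem (by simpa using hn) _]
    simp
  have ms : ∀ n, MeasurableSet {x | n < len (Bk m β a x)} := fun n => mL (t := Ioi n) trivial
  simp only [HasFiniteIntegral, e]
  rw [lintegral_tsum fun n => (measurable_const.indicator (ms n)).aemeasurable]
  refine lt_of_le_of_lt (ENNReal.tsum_le_tsum fun n => ?_)
    ((ENNReal.tsum_geometric _).trans_lt (ENNReal.inv_lt_top.2 (tsub_pos_of_lt (rho_lt H))))
  rw [lintegral_indicator_const (ms n), one_mul]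
  exact (measure_mono fun _ hx => Or.inr hx).trans (len_tail H n)

lemma ex_rv (w : Wd m) : ∀ j < len w, ex (rv w) j = (ex w j).rev := fun j hj => by
  rw [ex, ex, List.getD_eq_getElem _ _ hj, List.getD_eq_getElem _ _ (by simpa [rv, len] using hj)]
  exact List.getElem_map _

lemma len_rv (w : Wd m) : len (rv w) = len w := List.length_map _

lemma rv_rv (w : Wd m) : rv (rv w) = w := by simp [rv, Function.comp_def]

lemma int_rv (H : Hy m β a) (G : Wd m → ℝ) :
    ∫ x, G (rv (Bk m β a x)) ∂mu a = ∫ x, G (Bk m β a x) ∂mu a := by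
  have s : ∀ w : Wd m, Stop β a (ex w) (len w) → Stop β a (ex (rv w)) (len (rv w)) := fun w h => by
    rw [len_rv]
    refine Stop.congr (w := fun i => (ex w i).rev) ⟨h.1, ?_, fun j hj e => h.2.2 j hj ?_⟩
      fun j hj => (ex_rv w j hj).symm
    · rw [st_rev H, h.2.1]; congr 1 <;> ring
    · rw [st_rev H, Prod.ext_iff] at e
      exact Prod.ext (by linarith [e.2]) (by linarith [e.1])
  classical
  have mr : Measurable fun x => rv (Bk m β a x) := measurable_from_top.comp Bk_meas
  have id : IdentDistrib (fun x => rv (Bk m β a x)) (Bk m β a) (mu a) (mu a) := by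
    refine ⟨mr.aemeasurable, Bk_meas.aemeasurable, Measure.ext_of_singleton fun w => ?_⟩
    rw [Measure.map_apply mr trivial, Measure.map_apply Bk_meas trivial]
    have e : (fun x => rv (Bk m β a x)) ⁻¹' {w} = Bk m β a ⁻¹' {rv w} := by
      ext x; exact ⟨fun h => by rw [← h]; exact (rv_rv _).symm, fun h => by
        rw [mem_preimage, h]; exact rv_rv _⟩
    have a1 := key H w univ
    have a2 := key H (rv w) univ
    rw [preimage_univ, inter_univ] at a1 a2
    rw [e, a1, a2, if_congr (⟨fun h => rv_rv w ▸ s _ h, s w⟩ :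
      Stop β a (ex (rv w)) (len (rv w)) ↔ Stop β a (ex w) (len w)) rfl rfl, len_rv]
  exact (id.comp (measurable_from_top (f := G))).integral_eq

end Pool.Agent.H43.Bex
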