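import Pool.Agent.H43.Bex5

namespace Pool.Agent.H43.Bex

open Set Filter Topology MeasureTheory Cardinal
open Finset (range)
open scoped ENNReal

variable {m : ℕ} {β a : ℝ}

/-- Averages tend to zero. -/
def Zr (φ : Fin (m + 1) → ℝ) (ε : ℕ → Fin (m + 1)) : Prop :=
  ∀ δ > 0, ∀ᶠ n : ℕ in atTop, |sm φ ε n| ≤ δ * n

lemma Zr.shift {φ : Fin (m + 1) → ℝ} (hφ : ∀ d, |φ d| ≤ 1) {ε : ℕ → Fin (m + 1)} (n : ℕ)
    (h : Zr φ fun i => ε (n + i)) : Zr φ ε := fun δ hδ => by
  obtain ⟨N, hN⟩ := eventually_atTop.1 (h (δ / 2) (by positivity))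
  obtain ⟨K, hK⟩ := exists_nat_ge (2 * n / δ)
  refine eventually_atTop.2 ⟨n + (N + K), fun k hk => ?_⟩
  obtain ⟨t, rfl⟩ : ∃ t, k = n + t := ⟨k - n, by omega⟩
  have a1 := hN t (by omega)
  have a2 : (K : ℝ) ≤ t := by exact_mod_cast (by omega : K ≤ t)
  rw [div_le_iff₀ hδ] at hK
  rw [sm_add]; push_cast
  have : 0 ≤ δ * n := by positivity
  nlinarith [abs_add_le (sm φ ε n) (sm φ (fun i => ε (n + i)) t), sm_abs hφ ε n]

/-- Block sums. -/
def Gs (φ : Fin (m + 1) → ℝ) (w : Wd m) : ℝ := sm φ (ex w) (len w)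

lemma path {φ : Fin (m + 1) → ℝ} (hφ : ∀ d, |φ d| ≤ 1) {x l : ℝ}
    (h0 : ∀ j, len (Bk m β a ((Fm m β a)^[j] x)) ≠ 0)
    (h1 : Tendsto (fun n : ℕ => (∑ i ∈ range n, (len (Bk m β a ((Fm m β a)^[i] x)) : ℝ)) / n) atTop
      (𝓝 l))
    (h2 : Tendsto (fun n : ℕ => (∑ i ∈ range n, Gs φ (Bk m β a ((Fm m β a)^[i] x))) / n) atTop
      (𝓝 0)) : Zr φ (dig m β a x) := by
  set L : ℕ → ℕ := fun j => len (Bk m β a ((Fm m β a)^[j] x)) with hL
  set S : ℕ → ℕ := fun j => ∑ i ∈ range j, L i with hS'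
  have hS : ∀ j, S (j + 1) = S j + L j := fun j => Finset.sum_range_succ _ _
  have hB : ∀ j, 0 < L j := fun j => Nat.pos_of_ne_zero (h0 j)
  have e1 : ∀ j, (Tm m β a)^[S j] x = (Fm m β a)^[j] x := fun j => by
    induction j with
    | zero => rfl
    | succ j ih => rw [hS, add_comm, Function.iterate_add_apply, ih, Function.iterate_succ_apply']; rfl
  have e2 : ∀ j, sm φ (dig m β a x) (S j) = ∑ i ∈ range j, Gs φ (Bk m β a ((Fm m β a)^[i] x)) :=
    fun j => by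
    induction j with
    | zero => rfl
    | succ j ih => rw [hS, sm_add, ih, dig_add, e1, Finset.sum_range_succ, Gs, sm_congr φ (ex_Bk _)]
  have t1 : Tendsto (fun j : ℕ => (L j : ℝ) / j) atTop (𝓝 0) := by
    have := (((tendsto_add_atTop_iff_nat 1).2 h1).mul
      (tendsto_one_div_atTop_nhds_zero_nat.const_add (1:ℝ))).sub h1
    rw [add_zero, mul_one, sub_self] at this
    refine this.congr' ((eventually_gt_atTop 0).mono fun j hj => ?_)
    have : (j : ℝ) ≠ 0 := by positivity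
    simp only [Finset.sum_range_succ, hL]; push_cast; field_simp; ring
  intro δ hδ
  obtain ⟨J, hJ⟩ := eventually_atTop.1 ((eventually_gt_atTop 0).and
    ((t1.add h2.abs).eventually (ge_mem_nhds (by simpa using hδ : (0:ℝ) + |0| < δ))))
  refine eventually_atTop.2 ⟨S J, fun n hn => ?_⟩
  obtain ⟨j, t, ht, rfl⟩ := dec rfl hS hB n
  have : J < j + 1 := (smono hS hB).lt_iff_lt.1 (by rw [hS j]; omega)
  obtain ⟨j0, b⟩ := hJ j (by omega)
  have j1 : (0:ℝ) < j := by exact_mod_cast j0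
  rw [abs_div, Nat.abs_cast, ← add_div, div_le_iff₀ j1, ← e2] at b
  have c : (t : ℝ) ≤ L j := by exact_mod_cast ht.le
  have d : (j : ℝ) ≤ (S j + t : ℕ) := by
    exact_mod_cast ((smono hS hB).id_le j).trans (Nat.le_add_right _ _)
  rw [sm_add]
  nlinarith [abs_add_le (sm φ (dig m β a x) (S j)) (sm φ (fun i => dig m β a x (S j + i)) t),
    sm_abs hφ (fun i => dig m β a x (S j + i)) t]

/-- Indicator of a digit. -/
def ind (k d : Fin (m + 1)) : ℝ := if d = k then 1 else 0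

lemma exists_p (H : Hy m β a) : ∃ p : Fin (m + 1) → ℝ, (∀ k, p k ∈ Icc (0:ℝ) 1) ∧
    (∀ k, p k.rev = p k) ∧ ∀ᵐ x ∂mu a, ∀ k, Zr (fun d => ind k d - p k) (dig m β a x) := by
  have iL := len_int H
  have i1 : ∀ k d : Fin (m + 1), 0 ≤ ind k d ∧ ind k d ≤ 1 := fun k d => by
    unfold ind; split_ifs <;> norm_num
  have i2 : ∀ (k : Fin (m + 1)) (w : Wd m), 0 ≤ Gs (ind k) w ∧ Gs (ind k) w ≤ len w := fun k w =>
    ⟨Finset.sum_nonneg (s := range (len w)) fun i _ => (i1 k (ex w i)).1,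
      (le_abs_self _).trans (sm_abs (fun d => abs_le.2 ⟨by linarith [i1 k d], (i1 k d).2⟩) _ _)⟩
  have iG : ∀ k, Integrable (fun x => Gs (ind k) (Bk m β a x)) (mu a) := fun k =>
    iL.mono' (((measurable_from_top (f := Gs (ind k))).comp Bk_meas).aestronglyMeasurable)
      (Eventually.of_forall fun x => by rw [Real.norm_of_nonneg (i2 k _).1]; exact (i2 k _).2)
  have z : ∀ᵐ x ∂mu a, len (Bk m β a x) ≠ 0 := ae_iff.2 (by simpa using len_zero H)
  set l := ∫ x, (len (Bk m β a x) : ℝ) ∂mu a with hl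
  have l1 : 1 ≤ l := by
    simpa using integral_mono_ae (integrable_const (1:ℝ)) iL
      (z.mono fun x hx => Nat.one_le_cast.2 (Nat.pos_of_ne_zero hx))
  set p : Fin (m + 1) → ℝ := fun k => (∫ x, Gs (ind k) (Bk m β a x) ∂mu a) / l with hp
  have p1 : ∀ k, p k ∈ Icc (0:ℝ) 1 := fun k =>
    ⟨div_nonneg (integral_nonneg fun x => (i2 k _).1) (by linarith),
      div_le_one_of_le₀ (integral_mono (iG k) iL fun x => (i2 k _).2) (by linarith)⟩
  refine ⟨p, p1, fun k => ?_, ae_all_iff.2 fun k => ?_⟩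
  · simp only [hp, ← int_rv H (Gs (ind k.rev))]
    congr 2; ext x
    rw [Gs, Gs, len_rv]
    exact Finset.sum_congr rfl fun i hi => by
      simp only [ex_rv _ i (Finset.mem_range.1 hi), ind, Fin.rev_inj]
  · have e : ∀ w, Gs (fun d => ind k d - p k) w = Gs (ind k) w - p k * len w := fun w => by
      simp [Gs, sm, mul_comm]
    have s := slln H (Gs fun d => ind k d - p k) (by simp only [e]; exact (iG k).sub (iL.const_mul _))
    have e0 : ∫ x, Gs (fun d => ind k d - p k) (Bk m β a x) ∂mu a = 0 := by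
      simp only [e]
      rw [integral_sub (iG k) (iL.const_mul _), integral_const_mul, hp, ← hl,
        div_mul_cancel₀ _ (by linarith), sub_self]
    rw [e0] at s
    filter_upwards [s, slln H (fun w => len w) iL, ae_all_iff.2 fun j =>
      ((Fm_pres H).iterate j).quasiMeasurePreserving.ae z] with x h2 h1 h0
    exact path (fun d => abs_le.2 ⟨by linarith [i1 k d, (p1 k).2], by linarith [i1 k d, (p1 k).1]⟩)
      h0 h1 h2

lemma balanced (H : Hy m β a) : ∃ p : Fin (m + 1) → ℝ, (∀ k, p k.rev = p k) ∧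
    ∀ᵐ x ∂volume.restrict (Icc 0 (2 * a + 1)), 𝔠 ≤ #{ε : ℕ → Fin (m + 1) |
      HasSum (fun i => ((ε i : ℕ) : ℝ) / β ^ (i + 1)) x ∧ ∀ k, Zr (fun d => ind k d - p k) ε} := by
  obtain ⟨p, p1, p2, hp⟩ := exists_p H
  refine ⟨p, p2, ?_⟩
  have b : ∀ k d, |ind k d - p k| ≤ 1 := fun k d => by
    unfold ind; split_ifs <;> exact abs_le.2 ⟨by linarith [(p1 k).2], by linarith [(p1 k).1]⟩
  set ψ : Fin (m + 1) × Bool → Fin (m + 1) → ℝ :=
    fun i d => cond i.2 (ind i.1 d - p i.1) (-(ind i.1 d - p i.1)) with hψ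
  have neg : ∀ k ε n, sm (ψ (k, false)) ε n = -sm (fun d => ind k d - p k) ε n := fun k ε n =>
    Finset.sum_neg_distrib _
  have fr : ∀ ε, Fr ψ ε ↔ ∀ k, Zr (fun d => ind k d - p k) ε := fun ε => by
    refine ⟨fun h k δ hδ => ((h (k, true) δ hδ).1.and (h (k, false) δ hδ).1).mono fun n hn =>
      abs_le.2 ⟨neg_le.1 (neg k ε n ▸ hn.2), hn.1⟩, fun h ⟨k, e⟩ δ hδ => ?_⟩
    have : ∀ᶠ n : ℕ in atTop, |sm (ψ (k, e)) ε n| ≤ δ * n := by
      cases e
      · simpa only [neg, abs_neg] using h k δ hδ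
      · exact h k δ hδ
    exact ⟨this.mono fun n hn => (abs_le.1 hn).2, (this.mono fun n hn => (abs_le.1 hn).1).frequently⟩
  have := main_ae (ψ := ψ) H.hyp (by rintro ⟨k, _ | _⟩ d <;> simpa only [hψ, cond, abs_neg] using b k d) ?_
  · exact this.mono fun x hx => hx.ge.trans (le_of_eq (by simp only [E, fr]))
  rw [mu, ae_restrict_iff' measurableSet_Ico, ae_iff] at hp
  have nul : ∀ n, ∀ᵐ x, ¬ (rem β (dig m β a x) x n ∈
      {y | ¬ (y ∈ Ico a (a + 1) → ∀ k, Zr (fun d => ind k d - p k) (dig m β a y))}) := fun n => by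
    obtain ⟨K, hK⟩ := crude H.hyp n
    have := hK (dig m β a) _ |>.trans_eq (by rw [hp, mul_zero])
    exact ae_iff.2 (by simpa only [not_not] using le_antisymm this zero_le)
  rw [← Measure.restrict_congr_set Ioo_ae_eq_Icc, ae_restrict_iff' measurableSet_Ioo]
  filter_upwards [ae_all_iff.2 nul] with x h hx
  obtain ⟨n, hn⟩ := enter H hx.1 hx.2
  have h' := h n
  simp only [rem_dig H, mem_ofPred_eq, not_not] at h'
  refine ⟨dig m β a x, hasSum_of_rem H.hyp (tendsto_add_atTop_nat n) fun j => ?_,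
    (fr _).2 fun k => Zr.shift (b k) n (dig_add x n ▸ h' hn k)⟩
  rw [rem_dig H, Function.iterate_add_apply]
  have := TJn H hn j
  exact ⟨by linarith [this.1, H.h0], by linarith [this.2, H.h0]⟩

end Pool.Agent.H43.Bex
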