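import Pool.Agent.H43.Bex1

namespace Pool.Agent.H43.Bex

open Set Filter Topology MeasureTheory
open Finset (range)

/-- The map that avoids the middle digit whenever possible. -/
noncomputable def TB (β x : ℝ) : ℝ :=
  if x ≤ (4 - β) / 3 then β * x else if x < β - 2 then β * x - 1 else β * x - 2

/-- Indicator of the region where the middle digit is forced. -/
noncomputable def iM (β x : ℝ) : ℝ := if (4 - β) / 3 < x ∧ x < β - 2 then 1 else 0

/-- Integration against the invariant density. -/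
noncomputable def Ph (β : ℝ) (f : ℝ → ℝ) : ℝ :=
  (∫ x in (0:ℝ)..(2 * β - 5) / 3, f x) + (β - 1) * (∫ x in (2 * β - 5) / 3..(4 - β) / 3, f x) +
    2 * (∫ x in (4 - β) / 3..β - 2, f x) + (β - 1) * (∫ x in β - 2..1, f x) +
    ∫ x in (1:ℝ)..(2 * β - 2) / 3, f x

variable {β : ℝ}

lemma TB_meas : Measurable (TB β) :=
  Measurable.ite measurableSet_Iic (by fun_prop)
    (Measurable.ite measurableSet_Iio (by fun_prop) (by fun_prop))

lemma iM_meas : Measurable (iM β) := Measurable.ite measurableSet_Ioo measurable_const measurable_const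

lemma iM_mem (x : ℝ) : 0 ≤ iM β x ∧ iM β x ≤ 1 := by unfold iM; split_ifs <;> norm_num

lemma ii {f : ℝ → ℝ} (hf : Measurable f) (h : ∀ x, 0 ≤ f x ∧ f x ≤ 1) (a b : ℝ) :
    IntervalIntegrable f volume a b :=
  (intervalIntegrable_const (c := (1:ℝ))).mono_fun' hf.aestronglyMeasurable
    (Eventually.of_forall fun x => (Real.norm_of_nonneg (h x).1).trans_le (h x).2)

lemma piece (hβ : β ≠ 0) (f : ℝ → ℝ) {a b d a' b' : ℝ} (hab : a ≤ b)
    (h : ∀ x ∈ Ioo a b, TB β x = β * x - d) (ha : β * a - d = a') (hb : β * b - d = b') :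
    β * ∫ x in a..b, f (TB β x) = ∫ x in a'..b', f x := by
  rw [← ha, ← hb, ← intervalIntegral.mul_integral_comp_mul_sub, intervalIntegral.integral_of_le hab,
    intervalIntegral.integral_of_le hab, integral_Ioc_eq_integral_Ioo, integral_Ioc_eq_integral_Ioo,
    setIntegral_congr_fun measurableSet_Ioo fun x hx => congrArg f (h x hx)]

lemma Ph_inv (hq : β * β = 2 * β + 2) (h1 : 2.7 < β) (h2 : β < 2.8) {f : ℝ → ℝ}
    (hf : Measurable f) (h : ∀ x, 0 ≤ f x ∧ f x ≤ 1) : Ph β (fun x => f (TB β x)) = Ph β f := by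
  have hβ : β ≠ 0 := by linarith
  have p0 := piece hβ f (a := 0) (b := (2 * β - 5) / 3) (d := 0) (a' := 0) (b' := (4 - β) / 3)
    (by linarith) (fun x hx => by rw [TB, if_pos (by linarith [hx.2]), sub_zero]) (by ring)
    (by linarith)
  have p1 := piece hβ f (a := (2 * β - 5) / 3) (b := (4 - β) / 3) (d := 0) (a' := (4 - β) / 3)
    (b' := (2 * β - 2) / 3) (by linarith) (fun x hx => by rw [TB, if_pos hx.2.le, sub_zero])
    (by linarith) (by linarith)
  have p2 := piece hβ f (a := (4 - β) / 3) (b := β - 2) (d := 1) (a' := (2 * β - 5) / 3)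
    (b' := 1) (by linarith) (fun x hx => by rw [TB, if_neg (not_le.2 hx.1), if_pos hx.2])
    (by linarith) (by linarith)
  have p3 := piece hβ f (a := β - 2) (b := 1) (d := 2) (a' := 0) (b' := β - 2) (by linarith)
    (fun x hx => by rw [TB, if_neg (by linarith [hx.1]), if_neg (by linarith [hx.1])])
    (by linarith) (by linarith)
  have p4 := piece hβ f (a := 1) (b := (2 * β - 2) / 3) (d := 2) (a' := β - 2)
    (b' := (2 * β - 2) / 3) (by linarith)
    (fun x hx => by rw [TB, if_neg (by linarith [hx.1]), if_neg (by linarith [hx.1])])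
    (by linarith) (by linarith)
  have s := fun a b c => intervalIntegral.integral_add_adjacent_intervals (ii hf h a b) (ii hf h b c)
  rw [← s 0 ((2 * β - 5) / 3)] at p0
  rw [← s _ (β - 2), ← s (β - 2) 1] at p1
  rw [← s _ ((4 - β) / 3), ← s ((4 - β) / 3) (β - 2)] at p2
  rw [← s 0 ((2 * β - 5) / 3), ← s ((2 * β - 5) / 3) ((4 - β) / 3)] at p3
  rw [← s _ 1] at p4
  refine mul_left_cancel₀ hβ ?_
  unfold Ph
  linear_combination p0 + (β - 1) * p1 + 2 * p2 + (β - 1) * p3 + p4 -
    ((∫ x in (2 * β - 5) / 3..(4 - β) / 3, f x) + ∫ x in β - 2..1, f x) * hq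

lemma Ph_iM (hq : β * β = 2 * β + 2) (h1 : 2.7 < β) (h2 : β < 2.8) (n : ℕ) :
    Ph β (fun x => iM β ((TB β)^[n] x)) = (8 * β - 20) / 3 := by
  induction n with
  | zero =>
    have z : ∀ a b v, a ≤ b → (∀ x ∈ Ioo a b, iM β x = v) → ∫ x in a..b, iM β x = (b - a) * v :=
      fun a b v hab h => by
        rw [intervalIntegral.integral_of_le hab, integral_Ioc_eq_integral_Ioo,
          setIntegral_congr_fun measurableSet_Ioo h]
        simp [hab]
    simp only [Ph, Function.iterate_zero, id]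
    rw [z _ _ 0 (by linarith) fun x hx => if_neg fun c => by linarith [c.1, hx.2],
      z _ _ 0 (by linarith) fun x hx => if_neg fun c => by linarith [c.1, hx.2],
      z _ _ 1 (by linarith) fun x hx => if_pos hx,
      z _ _ 0 (by linarith) fun x hx => if_neg fun c => by linarith [c.2, hx.1],
      z _ _ 0 (by linarith) fun x hx => if_neg fun c => by linarith [c.2, hx.1]]
    ring
  | succ n ih =>
    exact (Ph_inv hq h1 h2 (iM_meas.comp (TB_meas.iterate n)) fun x => iM_mem _).trans ih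

lemma couple (hq : β * β = 2 * β + 2) (h1 : 2.7 < β) (h2 : β < 2.8) {y z d : ℝ}
    (hd : d = 0 ∨ d = 1 ∨ d = 2) (hy : y ∈ Icc 0 ((2 * β - 2) / 3))
    (hy' : β * y - d ∈ Icc 0 ((2 * β - 2) / 3))
    (hz : z ∈ Icc 0 ((2 * β - 2) / 3) ∧
      (z = y ∨ z = y + 1 ∨ z = y - 1 ∨ z = y + (β - 2) ∨ z = y - (β - 2))) :
    (iM β z = 0 ∨ d = 1) ∧ TB β z ∈ Icc 0 ((2 * β - 2) / 3) ∧
      (TB β z = β * y - d ∨ TB β z = β * y - d + 1 ∨ TB β z = β * y - d - 1 ∨
        TB β z = β * y - d + (β - 2) ∨ TB β z = β * y - d - (β - 2)) := by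
  obtain ⟨⟨z0, z1⟩, hz⟩ := hz
  obtain ⟨y0, y1⟩ := hy
  obtain ⟨y2, y3⟩ := hy'
  have a0 : d = 0 → y ≤ (4 - β) / 3 := fun e => by nlinarith
  have a1 : d = 1 → (β - 2) / 2 ≤ y ∧ y ≤ β / 6 + 1 / 3 := fun e => ⟨by nlinarith, by nlinarith⟩
  have a2 : d = 2 → β - 2 ≤ y := fun e => by nlinarith
  by_cases c1 : z ≤ (4 - β) / 3
  · rw [TB, if_pos c1, iM, if_neg fun c => by linarith [c.1]]
    refine ⟨Or.inl rfl, ⟨by positivity, by nlinarith⟩, ?_⟩
    rcases hz with rfl | rfl | rfl | rfl | rfl <;> rcases hd with e | e | e <;>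
      first
      | (exfalso; linarith [a0 e]) | (exfalso; linarith [a1 e]) | (exfalso; linarith [a2 e])
      | (left; linarith) | (right; left; linarith) | (right; right; left; linarith)
      | (right; right; right; left; linarith) | (right; right; right; right; linarith)
  by_cases c2 : z < β - 2
  · rw [TB, if_neg c1, if_pos c2]
    have : z = y ∧ d = 1 := by
      rcases hz with rfl | rfl | rfl | rfl | rfl <;> rcases hd with e | e | e <;>
        first
        | exact ⟨rfl, e⟩ | (exfalso; linarith [a0 e]) | (exfalso; linarith [a1 e])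
        | (exfalso; linarith [a2 e])
    obtain ⟨rfl, rfl⟩ := this
    exact ⟨Or.inr rfl, ⟨y2, y3⟩, Or.inl rfl⟩
  · rw [TB, if_neg c1, if_neg c2, iM, if_neg fun c => c2 c.2]
    refine ⟨Or.inl rfl, ⟨by nlinarith, by nlinarith⟩, ?_⟩
    rcases hz with rfl | rfl | rfl | rfl | rfl <;> rcases hd with e | e | e <;>
      first
      | (exfalso; linarith [a0 e]) | (exfalso; linarith [a1 e]) | (exfalso; linarith [a2 e])
      | (left; linarith) | (right; left; linarith) | (right; right; left; linarith)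
      | (right; right; right; left; linarith)

lemma dominate (hq : β * β = 2 * β + 2) (h1 : 2.7 < β) (h2 : β < 2.8) {ε : ℕ → Fin (2 + 1)} {x : ℝ}
    (h : HasSum (fun i => ((ε i : ℕ) : ℝ) / β ^ (i + 1)) x) (n : ℕ) :
    iM β ((TB β)^[n] x) = 0 ∨ (ε n : ℕ) = 1 := by
  have H : Hyp 2 β ((2 * β - 2) / 3) := ⟨by linarith, by push_cast; linarith, by linarith⟩
  have r := rem_of_hasSum H h
  have hd : ∀ n, ((ε n : ℕ) : ℝ) = 0 ∨ ((ε n : ℕ) : ℝ) = 1 ∨ ((ε n : ℕ) : ℝ) = 2 := fun n => by
    have : (ε n : ℕ) = 0 ∨ (ε n : ℕ) = 1 ∨ (ε n : ℕ) = 2 := by omega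
    exact_mod_cast this
  have c := fun n z => couple hq h1 h2 (z := z) (hd n) (r n) (rem_succ H ε x n ▸ r (n + 1))
  have inv : ∀ n, (TB β)^[n] x ∈ Icc 0 ((2 * β - 2) / 3) ∧ ((TB β)^[n] x = rem β ε x n ∨
      (TB β)^[n] x = rem β ε x n + 1 ∨ (TB β)^[n] x = rem β ε x n - 1 ∨
      (TB β)^[n] x = rem β ε x n + (β - 2) ∨ (TB β)^[n] x = rem β ε x n - (β - 2)) := fun n => by
    induction n with
    | zero => exact ⟨rem_zero ε x ▸ r 0, Or.inl (rem_zero ε x).symm⟩
    | succ n ih => rw [Function.iterate_succ_apply', rem_succ H]; exact (c n _ ih).2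
  exact_mod_cast (c n _ (inv n)).1

lemma Ph_lim (hq : β * β = 2 * β + 2) (h1 : 2.7 < β) (h2 : β < 2.8) {q : ℝ} (q0 : 0 ≤ q)
    (h : ∀ᵐ x, x ∈ Icc 0 ((2 * β - 2) / 3) → ∀ δ > 0, ∀ᶠ n : ℕ in atTop,
      (∑ i ∈ range n, iM β ((TB β)^[i] x)) / n ≤ q + δ) : 1 / 3 ≤ q := by
  by_contra hq1
  set g : ℕ → ℝ → ℝ := fun n x => (∑ i ∈ range n, iM β ((TB β)^[i] x)) / n with hg
  have gm : ∀ n, Measurable (g n) := fun n =>
    (Finset.measurable_sum _ fun i _ => iM_meas.comp (TB_meas.iterate i)).div_const _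
  have g1 : ∀ n x, 0 ≤ g n x ∧ g n x ≤ 1 := fun n x =>
    ⟨div_nonneg (Finset.sum_nonneg fun i _ => (iM_mem _).1) n.cast_nonneg, div_le_one_of_le₀
      ((Finset.sum_le_sum fun i _ => (iM_mem _).2).trans (by simp)) n.cast_nonneg⟩
  have g2 : ∀ n x, 0 ≤ max (g n x) q ∧ max (g n x) q ≤ 1 := fun n x =>
    ⟨le_max_of_le_right q0, max_le (g1 n x).2 (by linarith)⟩
  have t : ∀ a b, 0 ≤ a → a ≤ b → b ≤ (2 * β - 2) / 3 →
      Tendsto (fun n => ∫ x in a..b, max (g n x) q) atTop (𝓝 ((b - a) * q)) := fun a b ha hab hb => by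
    have := intervalIntegral.tendsto_integral_filter_of_dominated_convergence (μ := volume)
      (a := a) (b := b) (l := atTop) (F := fun n x => max (g n x) q) (f := fun _ => q) (fun _ => 1)
      (Eventually.of_forall fun n => ((gm n).max measurable_const).aestronglyMeasurable)
      (Eventually.of_forall fun n => Eventually.of_forall fun x _ => by
        rw [Real.norm_of_nonneg (g2 n x).1]; exact (g2 n x).2) intervalIntegrable_const
      (h.mono fun x hx hx' => by
        rw [uIoc_of_le hab] at hx'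
        refine Metric.tendsto_nhds.2 fun δ hδ => (hx ⟨by linarith [hx'.1], by linarith [hx'.2]⟩
          (δ / 2) (by positivity)).mono fun n hn => ?_
        rw [Real.dist_eq, abs_of_nonneg (by linarith [le_max_right (g n x) q]), sub_lt_iff_lt_add,
          max_lt_iff]
        exact ⟨by linarith, by linarith⟩)
    simpa using this
  have t' := (((((t 0 ((2 * β - 5) / 3) le_rfl (by linarith) (by linarith)).add
    ((t ((2 * β - 5) / 3) ((4 - β) / 3) (by linarith) (by linarith) (by linarith)).const_mul (β - 1))).add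
    ((t ((4 - β) / 3) (β - 2) (by linarith) (by linarith) (by linarith)).const_mul 2)).add
    ((t (β - 2) 1 (by linarith) (by linarith) (by linarith)).const_mul (β - 1))).add
    (t 1 _ zero_le_one (by linarith) le_rfl))
  have lo := ge_of_tendsto t' (b := (8 * β - 20) / 3) ((eventually_gt_atTop 0).mono fun n hn => by
    have m := fun a b (hab : a ≤ b) => intervalIntegral.integral_mono_on hab (ii (gm n) (g1 n) a b)
      (ii ((gm n).max measurable_const) (g2 n) a b) fun x _ => le_max_left (g n x) q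
    have e : Ph β (g n) = (8 * β - 20) / 3 := by
      have n0 : (n : ℝ) ≠ 0 := by positivity
      have s : ∀ a b : ℝ, ∫ x in a..b, ∑ i ∈ range n, iM β ((TB β)^[i] x) =
          ∑ i ∈ range n, ∫ x in a..b, iM β ((TB β)^[i] x) := fun a b =>
        intervalIntegral.integral_finsetSum fun i _ =>
          ii (iM_meas.comp (TB_meas.iterate i)) (fun x => iM_mem _) a b
      have : Ph β (g n) = (∑ i ∈ range n, Ph β fun x => iM β ((TB β)^[i] x)) / n := by
        simp only [Ph, hg, intervalIntegral.integral_div, Finset.sum_add_distrib, ← Finset.mul_sum, s]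
        ring
      rw [this]; simp only [Ph_iM hq h1 h2]; simp; field_simp
    rw [Ph] at e
    have b0 : 0 ≤ β - 1 := by linarith
    have m1 := m 0 ((2 * β - 5) / 3) (by linarith)
    have m2 := mul_le_mul_of_nonneg_left (m ((2 * β - 5) / 3) ((4 - β) / 3) (by linarith)) b0
    have m3 := m ((4 - β) / 3) (β - 2) (by linarith)
    have m4 := mul_le_mul_of_nonneg_left (m (β - 2) 1 (by linarith)) b0
    have m5 := m 1 ((2 * β - 2) / 3) (by linarith)
    linarith)
  have e : ((2 * β - 5) / 3 - 0) * q + (β - 1) * (((4 - β) / 3 - (2 * β - 5) / 3) * q) +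
      2 * ((β - 2 - (4 - β) / 3) * q) + (β - 1) * ((1 - (β - 2)) * q) +
      ((2 * β - 2) / 3 - 1) * q = q * (8 * β - 20) := by linear_combination (-2 * q) * hq
  rw [e] at lo
  nlinarith

end Pool.Agent.H43.Bex
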