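import Mathlib

set_option autoImplicit false

namespace Pool.Agent.H43.Bg

open MeasureTheory Finset
open scoped ENNReal

/-- binomial point probabilities -/
noncomputable def bn (k j : ℕ) (y : ℝ) : ℝ := k.choose j * y ^ j * (1 - y) ^ (k - j)

/-- probability that a binomial variable is smaller than `m` -/
noncomputable def Gs (k m : ℕ) (y : ℝ) : ℝ := ∑ j ∈ range m, bn k j y

lemma bn_succ (k j : ℕ) (y : ℝ) :
    bn (k + 1) (j + 1) y = y * bn k j y + (1 - y) * bn k (j + 1) y := by
  unfold bn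
  rw [Nat.choose_succ_succ', Nat.add_sub_add_right]
  rcases lt_or_ge j k with h | h
  · rw [show k - j = k - (j + 1) + 1 by omega]
    push_cast
    ring
  · rw [Nat.choose_eq_zero_of_lt (Nat.lt_succ_of_le h)]
    push_cast
    ring

lemma Gs_zero (k : ℕ) (y : ℝ) : Gs k 0 y = 0 := by simp [Gs]

lemma Gs_one (k : ℕ) (y : ℝ) : Gs k 1 y = (1 - y) ^ k := by simp [Gs, bn]

lemma Gs_succ (k m : ℕ) (y : ℝ) :
    Gs (k + 1) (m + 1) y = y * Gs k m y + (1 - y) * Gs k (m + 1) y := by
  unfold Gs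
  rw [sum_range_succ', sum_range_succ' (bn k · y), sum_congr rfl fun j _ => bn_succ k j y,
    sum_add_distrib, ← mul_sum, ← mul_sum]
  simp only [bn, Nat.choose_zero_right, Nat.sub_zero]
  push_cast
  ring

lemma Gs_step (k m : ℕ) (y : ℝ) : Gs k (m + 1) y = Gs k m y + bn k m y := sum_range_succ ..

lemma bn_nn (k j : ℕ) {y : ℝ} (h0 : 0 ≤ y) (h1 : y ≤ 1) : 0 ≤ bn k j y := by
  have := sub_nonneg.2 h1
  unfold bn
  positivity

lemma Gs_nn (k m : ℕ) {y : ℝ} (h0 : 0 ≤ y) (h1 : y ≤ 1) : 0 ≤ Gs k m y :=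
  sum_nonneg fun j _ => bn_nn k j h0 h1

lemma Gs_big (k m : ℕ) (h : k < m) (y : ℝ) : Gs k m y = 1 := by
  induction k generalizing m with
  | zero =>
    obtain ⟨m, rfl⟩ : ∃ t, m = t + 1 := ⟨m - 1, by omega⟩
    simp [Gs, sum_range_succ', bn]
  | succ k ih =>
    obtain ⟨m, rfl⟩ : ∃ t, m = t + 1 := ⟨m - 1, by omega⟩
    rw [Gs_succ, ih _ (by omega), ih _ (by omega)]
    ring

lemma Gs_le (k m : ℕ) {y : ℝ} (h0 : 0 ≤ y) (h1 : y ≤ 1) : Gs k m y ≤ 1 := by
  rw [← Gs_big k (m + k + 1) (by omega) y]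
  exact sum_le_sum_of_subset_of_nonneg (range_mono (by omega)) fun j _ _ => bn_nn k j h0 h1

lemma Gs_anti (k m : ℕ) {y z : ℝ} (h0 : 0 ≤ y) (h : y ≤ z) (h1 : z ≤ 1) : Gs k m z ≤ Gs k m y := by
  induction k generalizing m with
  | zero => cases m <;> simp [Gs_zero, Gs_big]
  | succ k ih =>
    cases m with
    | zero => simp [Gs_zero]
    | succ m =>
      rw [Gs_succ, Gs_succ]
      have a := mul_le_mul_of_nonneg_left (ih m) (h0.trans h)
      have b := mul_le_mul_of_nonneg_left (ih (m + 1)) (sub_nonneg.2 h1)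
      have c := Gs_step k m y
      have d := mul_nonneg (sub_nonneg.2 h) (bn_nn k m h0 (h.trans h1))
      nlinarith

lemma beta (b a : ℕ) : ∫ y in (0 : ℝ)..1, y ^ a * (1 - y) ^ b =
    a.factorial * b.factorial / (a + b + 1).factorial := by
  induction b generalizing a with
  | zero =>
    have : (a.factorial : ℝ) ≠ 0 := by positivity
    simp [Nat.factorial_succ]
    field_simp
  | succ b ih =>
    have : ∀ y : ℝ, y ^ a * (1 - y) ^ (b + 1) = y ^ a * (1 - y) ^ b - y ^ (a + 1) * (1 - y) ^ b :=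
      fun y => by ring
    simp only [this]
    rw [intervalIntegral.integral_sub (Continuous.intervalIntegrable (by fun_prop) _ _)
      (Continuous.intervalIntegrable (by fun_prop) _ _), ih, ih,
      show a + (b + 1) + 1 = a + b + 1 + 1 by ring, show a + 1 + b + 1 = a + b + 1 + 1 by ring,
      Nat.factorial_succ (a + b + 1), Nat.factorial_succ a, Nat.factorial_succ b]
    have : ((a + b + 1).factorial : ℝ) ≠ 0 := by positivity
    push_cast
    field_simp
    ring

noncomputable def Hs (s i : ℕ) (y : ℝ) : ℝ :=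
  ∑ t ∈ range i, ((s + 1 + t).choose (s + 1) * (y ^ s * (1 - y) ^ t))

lemma Hs_eq (s i : ℕ) (y : ℝ) : 1 - Gs (s + 1 + i) (s + 2) y = y ^ 2 * Hs s i y := by
  induction i with
  | zero => simp [Hs, Gs_big]
  | succ i ih =>
    rw [Hs, sum_range_succ, ← Hs, mul_add, ← ih, ← add_assoc, Gs_succ, Gs_step _ (s + 1), bn,
      Nat.add_sub_cancel_left]
    ring

lemma Hs_int (s i : ℕ) : ∫ y in (0 : ℝ)..1, Hs s i y = i / (s + 1) := by
  unfold Hs
  rw [intervalIntegral.integral_finsetSum fun t _ =>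
    Continuous.intervalIntegrable (by fun_prop) _ _]
  rw [sum_congr rfl (g := fun _ => 1 / ((s : ℝ) + 1)) fun t _ => ?_]
  · simp [div_eq_mul_inv]
  · rw [intervalIntegral.integral_const_mul, beta, Nat.cast_choose ℝ (Nat.le_add_right _ _),
      Nat.add_sub_cancel_left, show s + t + 1 = s + 1 + t by ring, Nat.factorial_succ s]
    have : ((s + 1 + t).factorial : ℝ) ≠ 0 := by positivity
    have : (s.factorial : ℝ) ≠ 0 := by positivity
    have : (t.factorial : ℝ) ≠ 0 := by positivity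
    push_cast
    field_simp

lemma Hs_lint (s i : ℕ) {p : ℝ} (hp : 0 ≤ p) :
    ∫⁻ y in Set.Ioo p 1, ENNReal.ofReal (Hs s i y) ≤ ENNReal.ofReal (i / (s + 1)) := by
  have c : Continuous (Hs s i) := by unfold Hs; fun_prop
  rw [← Hs_int, intervalIntegral.integral_of_le zero_le_one, ofReal_integral_eq_lintegral_ofReal
    (c.integrableOn_Icc.mono_set Set.Ioc_subset_Icc_self)
    (ae_restrict_of_forall_mem measurableSet_Ioc fun y hy => sum_nonneg fun t _ => by
      have := hy.1.le
      have := sub_nonneg.2 hy.2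
      positivity)]
  exact lintegral_mono_set fun y hy => ⟨hp.trans_lt hy.1, hy.2.le⟩

lemma low_int {p : ℝ} (h0 : 0 < p) (h1 : p < 1) :
    ENNReal.ofReal (-Real.log p / (1 - p) - 1) ≤
      ∫⁻ y in Set.Ioo p 1, ENNReal.ofReal ((y - p) / ((1 - p) * y ^ 2)) := by
  have hq : 0 < 1 - p := sub_pos.2 h1
  have co : ContinuousOn (fun y : ℝ => (y - p) / ((1 - p) * y ^ 2)) (Set.Icc p 1) :=
    ContinuousOn.div (by fun_prop) (by fun_prop) fun y hy => by
      have := h0.trans_le hy.1
      positivity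
  have : ∫ y in p..1, (y - p) / ((1 - p) * y ^ 2) = -Real.log p / (1 - p) - 1 := by
    rw [intervalIntegral.integral_eq_sub_of_hasDerivAt
      (f := fun y => (Real.log y + p * y⁻¹) / (1 - p)) (fun y hy => ?_)
      (co.intervalIntegrable_of_Icc h1.le)]
    · simp only [Real.log_one]
      field_simp
      ring
    · rw [Set.uIcc_of_le h1.le] at hy
      have y0 := h0.trans_le hy.1
      refine (((Real.hasDerivAt_log y0.ne').add ((hasDerivAt_inv y0.ne').const_mul p)).div_const
        (1 - p)).congr_deriv ?_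
      field_simp
      ring
  rw [← this, intervalIntegral.integral_of_le h1.le, integral_Ioc_eq_integral_Ioo,
    ofReal_integral_eq_lintegral_ofReal (co.integrableOn_Icc.mono_set Set.Ioo_subset_Icc_self)
    (ae_restrict_of_forall_mem measurableSet_Ioo fun y hy => by
      have := sub_pos.2 hy.1
      positivity)]

lemma exists_fix (ξ : Measure ℕ) [IsProbabilityMeasure ξ] (s : ℕ) {b p : ℝ}
    (hb : ∫⁻ k, (k : ℝ≥0∞) ∂ξ = ENNReal.ofReal b) (hbs : (s : ℝ) + 1 ≤ b) (h0 : 0 < p)
    (hp : p < Real.exp (-b / (s + 1))) : ∃ x : ℝ, 0 < x ∧ x ≤ 1 ∧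
      ENNReal.ofReal x ≤ ENNReal.ofReal (1 - p) * ∫⁻ k, ENNReal.ofReal (Gs k (s + 2) (1 - x)) ∂ξ := by
  have s0 : (0 : ℝ) < s + 1 := by positivity
  have b1 : 1 ≤ b / (s + 1) := (one_le_div s0).2 hbs
  have hl : b / (s + 1) < -Real.log p := by
    have := Real.log_lt_log h0 hp
    rw [Real.log_exp, neg_div] at this
    linarith
  have h1 : p < 1 := by
    by_contra h
    have := Real.log_nonneg (not_lt.1 h)
    linarith
  have hq : 0 < 1 - p := sub_pos.2 h1
  by_cases hδ : ξ (Set.Iio (s + 2)) = 0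
  swap
  · have d1 : ξ.real (Set.Iio (s + 2)) ≤ 1 := measureReal_le_one
    have d0 : 0 < ξ.real (Set.Iio (s + 2)) := ENNReal.toReal_pos hδ (measure_ne_top _ _)
    refine ⟨(1 - p) * ξ.real (Set.Iio (s + 2)), by positivity, by nlinarith, ?_⟩
    rw [ENNReal.ofReal_mul hq.le, ofReal_measureReal]
    refine mul_le_mul_right ?_ _
    rw [← lintegral_indicator_one measurableSet_Iio]
    refine lintegral_mono fun k => ?_
    by_cases hk : k ∈ Set.Iio (s + 2)
    · simp [Gs_big _ _ hk, hk]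
    · simp [hk]
  by_contra hc
  push Not at hc
  have ae : ∀ᵐ k ∂ξ, s + 1 ≤ k := by
    refine measure_mono_null (fun k hk => ?_) hδ
    simp only [Set.mem_compl_iff, Set.mem_ofPred_eq, not_le] at hk
    exact hk.trans (Nat.lt_succ_self _)
  have k1 : ∀ y ∈ Set.Ioo p 1, ENNReal.ofReal ((y - p) / ((1 - p) * y ^ 2)) ≤
      ∫⁻ k, ENNReal.ofReal (Hs s (k - (s + 1)) y) ∂ξ := fun y hy => by
    have y0 := h0.trans hy.1
    have a := hc (1 - y) (sub_pos.2 hy.2) (by linarith)
    rw [sub_sub_cancel] at a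
    have e : ∫⁻ k, ENNReal.ofReal (Gs k (s + 2) y) ∂ξ +
        ENNReal.ofReal (y ^ 2) * ∫⁻ k, ENNReal.ofReal (Hs s (k - (s + 1)) y) ∂ξ = 1 := by
      rw [← lintegral_const_mul _ Measurable.of_discrete, ← lintegral_add_left Measurable.of_discrete,
        ← measure_univ (μ := ξ), ← lintegral_one]
      refine lintegral_congr_ae (ae.mono fun k hk => ?_)
      have := Hs_eq s (k - (s + 1)) y
      rw [Nat.add_sub_cancel' hk] at this
      simp only
      rw [← ENNReal.ofReal_mul (sq_nonneg y), ← this, ← ENNReal.ofReal_add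
        (Gs_nn _ _ y0.le hy.2.le) (sub_nonneg.2 (Gs_le _ _ y0.le hy.2.le))]
      simp
    generalize ∫⁻ k, ENNReal.ofReal (Gs k (s + 2) y) ∂ξ = A at a e
    generalize ∫⁻ k, ENNReal.ofReal (Hs s (k - (s + 1)) y) ∂ξ = B at e
    by_cases hB : B = ⊤
    · simp [hB]
    have hA : A ≠ ⊤ := ne_top_of_le_ne_top ENNReal.one_ne_top (e ▸ le_self_add)
    lift A to NNReal using hA
    lift B to NNReal using hB
    rw [← ENNReal.ofReal_coe_nnreal, ← ENNReal.ofReal_mul hq.le,
      ENNReal.ofReal_lt_ofReal_iff (sub_pos.2 hy.2)] at a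
    rw [← ENNReal.ofReal_coe_nnreal, ← ENNReal.ofReal_coe_nnreal (p := B),
      ← ENNReal.ofReal_mul (sq_nonneg y), ← ENNReal.ofReal_add A.coe_nonneg (by positivity),
      ENNReal.ofReal_eq_one] at e
    rw [ENNReal.ofReal_le_coe, div_le_iff₀ (by positivity)]
    have e' : (A : ℝ) + y ^ 2 * B = 1 := e
    nlinarith
  have k2 := (low_int h0 h1).trans (setLIntegral_mono' measurableSet_Ioo k1)
  rw [lintegral_lintegral_swap (Measurable.aemeasurable (measurable_from_prod_countable_left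
    fun k => ENNReal.measurable_ofReal.comp (Continuous.measurable (by
      unfold Hs; simp only [Function.uncurry]; fun_prop))))] at k2
  have k3 := k2.trans (lintegral_mono fun k => Hs_lint s _ h0.le)
  have k4 : ∫⁻ k, ENNReal.ofReal (((k - (s + 1) : ℕ) : ℝ) / (s + 1)) ∂ξ + 1 =
      ENNReal.ofReal (b / (s + 1)) := by
    rw [div_eq_mul_inv b, ENNReal.ofReal_mul (by linarith), ← hb,
      ← lintegral_mul_const _ Measurable.of_discrete, ← measure_univ (μ := ξ), ← lintegral_one,
      ← lintegral_add_left Measurable.of_discrete]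
    refine lintegral_congr_ae (ae.mono fun k hk => ?_)
    simp only
    rw [← ENNReal.ofReal_one, ← ENNReal.ofReal_add (by positivity) zero_le_one,
      ← ENNReal.ofReal_natCast, ← ENNReal.ofReal_mul (by positivity), Nat.cast_sub hk]
    congr 1
    push_cast
    field_simp
    ring
  have l2 : -Real.log p ≤ -Real.log p / (1 - p) := by
    rw [le_div_iff₀ hq]
    nlinarith
  have k5 := add_le_add_left k3 1
  rw [k4, ← ENNReal.ofReal_one, ← ENNReal.ofReal_add (by linarith) zero_le_one,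
    ENNReal.ofReal_le_ofReal_iff (by linarith)] at k5
  linarith

end Pool.Agent.H43.Bg
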