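import Pool.Agent.H43.TreeMix

set_option autoImplicit false

namespace Pool.Agent.H43.Lp

open MeasureTheory ProbabilityTheory
open scoped ENNReal

section Defs
variable {V : Type} [Fintype V] [DecidableEq V] (G : SimpleGraph V) [DecidableRel G.Adj] (p : ℝ)

/-- a minimiser of `y ↦ ∑_{w ∼ v} |f w - y|^p` -/
noncomputable def amin (f : V → ℝ) (v : V) : ℝ :=
  Classical.epsilon fun y => ∀ z, ∑ w ∈ G.neighborFinset v, |f w - y| ^ p ≤
    ∑ w ∈ G.neighborFinset v, |f w - z| ^ p

/-- the profile after `t` updates at the vertices `ω 0, ω 1, …` of `I` -/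
noncomputable def evol (I : Finset V) (f₀ : V → ℝ) (ω : ℕ → I) : ℕ → V → ℝ
  | 0 => f₀
  | t + 1 => Function.update (evol I f₀ ω t) (ω t) (amin G p (evol I f₀ ω t) (ω t))

/-- `h` is the `p`-harmonic extension of the values of `f₀` outside `I` -/
def IsHarmExt (I : Finset V) (f₀ h : V → ℝ) : Prop :=
  (∀ v ∉ I, h v = f₀ v) ∧
    ∀ v ∈ I, ∑ w ∈ G.neighborFinset v, Real.sign (h v - h w) * |h v - h w| ^ (p - 1) = 0

/-- the approximation time -/
noncomputable def tau (I : Finset V) (f₀ h : V → ℝ) (ε : ℝ) (ω : ℕ → I) : ℝ≥0∞ :=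
  ⨅ (t : ℕ) (_ : ∀ v, |evol G p I f₀ ω t v - h v| ≤ ε), (t : ℝ≥0∞)

/-- its expectation under independent uniform updates -/
noncomputable def Etau [MeasurableSpace V] (I : Finset V) (f₀ h : V → ℝ) (ε : ℝ) : ℝ≥0∞ :=
  ∫⁻ ω, tau G p I f₀ h ε ω ∂(Measure.infinitePi fun _ : ℕ => uniformOn (Set.univ : Set I))

end Defs

section Chain
variable {S A : Type} [MeasurableSpace A] [Countable A] [DiscreteMeasurableSpace A]
  (st : S → A → S)

def run (s : S) (ω : ℕ → A) : ℕ → S
  | 0 => s
  | t + 1 => st (run s ω t) (ω t)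

omit [MeasurableSpace A] [Countable A] [DiscreteMeasurableSpace A] in
lemma run_succ (s : S) (ω : ℕ → A) (t : ℕ) :
    run st s ω (t + 1) = run st (st s (ω 0)) (fun n => ω (n + 1)) t := by
  induction t with
  | zero => rfl
  | succ t ih => rw [run, ih]; rfl

lemma run_meas (D : S → ℝ≥0∞) (t : ℕ) (s : S) : Measurable fun ω : ℕ → A => D (run st s ω t) := by
  induction t generalizing s with
  | zero => exact measurable_const (a := D s)
  | succ t ih =>
    simp only [run_succ]
    exact (measurable_from_prod_countable_right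
      (f := fun q : A × (ℕ → A) => D (run st (st s q.1) q.2 t)) fun a => ih (st s a)).comp
      (f := fun ω : ℕ → A => (ω 0, fun n => ω (n + 1))) (by fun_prop)

omit [Countable A] [DiscreteMeasurableSpace A] in
lemma split_mp (ν : Measure A) [IsProbabilityMeasure ν] :
    MeasurePreserving (fun ω : ℕ → A => (ω 0, fun n => ω (n + 1)))
      (Measure.infinitePi fun _ => ν) (ν.prod (Measure.infinitePi fun _ => ν)) := by
  have m0 : Measurable fun x : Unit → A => x () := measurable_pi_apply _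
  have h := (TreeMix.ind_disj ν (fun _ : Unit => (0 : ℕ)) Nat.succ (by
    rw [Set.disjoint_left]; rintro _ ⟨_, rfl⟩ ⟨n, h⟩; simp at h)).comp m0 measurable_id
  refine ⟨by fun_prop, ?_⟩
  have h2 := h.map_prod_eq_prod_map_map (measurable_pi_apply 0).aemeasurable
    (TreeMix.law_inj ν Nat.succ Nat.succ_injective).measurable.aemeasurable
  rw [(measurePreserving_eval_infinitePi (fun _ : ℕ => ν) 0).map_eq,
    (TreeMix.law_inj ν Nat.succ Nat.succ_injective).map_eq] at h2
  exact h2

lemma drift (ν : Measure A) [IsProbabilityMeasure ν] (D : S → ℝ≥0∞) (P : S → Prop) (δ : ℝ≥0∞)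
    (h1 : ∀ s a, P s → P (st s a)) (h2 : ∀ s, P s → ∫⁻ a, D (st s a) ∂ν ≤ D s + δ) (t : ℕ)
    (s : S) (hs : P s) :
    ∫⁻ ω, D (run st s ω t) ∂(Measure.infinitePi fun _ => ν) ≤ D s + t * δ := by
  induction t generalizing s with
  | zero => simp [run]
  | succ t ih =>
    have m : Measurable fun q : A × (ℕ → A) => D (run st (st s q.1) q.2 t) :=
      measurable_from_prod_countable_right fun a => run_meas st D t (st s a)
    simp only [run_succ]
    refine ((split_mp ν).lintegral_comp m).trans_le ?_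
    rw [lintegral_prod _ m.aemeasurable]
    refine (lintegral_mono fun a => ih _ (h1 s a hs)).trans ?_
    rw [lintegral_add_right _ measurable_const, lintegral_const, measure_univ, mul_one]
    refine (add_le_add_left (h2 s hs) _).trans_eq ?_
    push_cast
    ring

end Chain

noncomputable def J (p x : ℝ) : ℝ := |x| ^ (p - 2) * x

lemma J_neg (p x : ℝ) : J p (-x) = -J p x := by simp [J]

lemma J_pos (p : ℝ) {x : ℝ} (h : 0 < x) : 0 < J p x :=
  mul_pos (Real.rpow_pos_of_pos (abs_pos.2 h.ne') _) h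

lemma J_mono {p : ℝ} (hp : 2 < p) {x y : ℝ} (h : x ≤ y) : J p x ≤ J p y := by
  have k : ∀ x y : ℝ, 0 ≤ x → x ≤ y → J p x ≤ J p y := fun x y h0 h =>
    mul_le_mul (Real.rpow_le_rpow (abs_nonneg _) (abs_le_abs_of_nonneg h0 h) (by linarith)) h h0
      (Real.rpow_nonneg (abs_nonneg _) _)
  have z : J p 0 = 0 := by simp [J]
  rcases le_total 0 x with h0 | h0
  · exact k x y h0 h
  · rcases le_total 0 y with h1 | h1
    · have := k 0 y le_rfl h1
      have := k 0 (-x) le_rfl (by linarith)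
      rw [J_neg] at this
      linarith
    · have := k (-y) (-x) (by linarith) (by linarith)
      rw [J_neg, J_neg] at this
      linarith

lemma foc {p : ℝ} (hp : 2 < p) (a b c : ℝ) (F : ℝ → ℝ)
    (hF : ∀ y, F y = |a - y| ^ p + |b - y| ^ p + |c - y| ^ p) {y : ℝ}
    (hy : y = Classical.epsilon fun y => ∀ z, F y ≤ F z) :
    J p (a - y) + J p (b - y) + J p (c - y) = 0 := by
  obtain rfl : F = fun y => |a - y| ^ p + |b - y| ^ p + |c - y| ^ p := funext hF
  have d : ∀ a y : ℝ, HasDerivAt (fun y => |a - y| ^ p) (p * |a - y| ^ (p - 2) * (a - y) * (-1)) y :=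
    fun a y => (hasDerivAt_abs_rpow (a - y) (by linarith : 1 < p)).comp y
      ((hasDerivAt_id y).const_sub a)
  have d3 := fun y => ((d a y).add (d b y)).add (d c y)
  have hc : Continuous fun y => |a - y| ^ p + |b - y| ^ p + |c - y| ^ p :=
    continuous_iff_continuousAt.2 fun y => (d3 y).continuousAt
  have ex := hc.exists_forall_le_of_isBounded 0 (by
    refine (Metric.isBounded_closedBall (x := a)
      (r := 1 + (|a - 0| ^ p + |b - 0| ^ p + |c - 0| ^ p))).subset fun y hy => ?_
    have h1 : |a - y| ^ p + |b - y| ^ p + |c - y| ^ p ≤ |a - 0| ^ p + |b - 0| ^ p + |c - 0| ^ p := hy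
    rw [Metric.mem_closedBall, dist_comm, Real.dist_eq]
    have n : ∀ x : ℝ, 0 ≤ |x| ^ p := fun x => Real.rpow_nonneg (abs_nonneg _) _
    rcases le_total |a - y| 1 with h | h
    · linarith [n (a - 0), n (b - 0), n (c - 0)]
    · have := Real.self_le_rpow_of_one_le h (by linarith : 1 ≤ p)
      linarith [n (b - y), n (c - y)])
  have sp := Classical.epsilon_spec ex
  rw [← hy] at sp
  have := IsLocalMin.hasDerivAt_eq_zero (Filter.Eventually.of_forall sp) (d3 y)
  have h2 : p * (J p (a - y) + J p (b - y) + J p (c - y)) = 0 := by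
    unfold J
    linarith
  exact (mul_eq_zero.1 h2).resolve_left (by linarith)

lemma upd {p : ℝ} (hp : 2 < p) {c d g₁ g₂ η κ y : ℝ} (h1 : 0 ≤ g₁) (h2 : 0 ≤ g₂) (h3 : g₁ ≤ η)
    (h4 : g₂ ≤ η) (hd : 0 < d) (hη : η ≤ d) (hκ : η ^ (p - 2) ≤ κ * (d / 2) ^ (p - 2))
    (h : J p (c - d + g₁ - y) + J p (c + d + g₂ - y) + J p (c - y) = 0) :
    c ≤ y ∧ y ≤ c + (g₁ + g₂) / 2 ∧ c + (g₁ + g₂) / 2 - κ * η ≤ y := by
  have e1 := J_neg p (c - d + g₁ - y)
  have e2 := J_neg p (c - y)
  have a1 : c ≤ y := by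
    by_contra k
    have := J_pos p (x := c - y) (by linarith)
    have := J_mono hp (x := -(c - d + g₁ - y)) (y := c + d + g₂ - y) (by linarith)
    linarith
  have a2 : y ≤ c + (g₁ + g₂) / 2 := by
    by_contra k
    have := J_pos p (x := -(c - y)) (by linarith)
    have := J_mono hp (y := -(c - d + g₁ - y)) (x := c + d + g₂ - y) (by linarith)
    linarith
  refine ⟨a1, a2, ?_⟩
  set D := d + (g₂ - g₁) / 2 with hD
  set s := c + (g₁ + g₂) / 2 - y with hs
  have b1 := J_mono hp (x := -(c - d + g₁ - y)) (y := D) (by linarith)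
  have b2 := J_mono hp (x := -(c - y)) (y := η) (by linarith)
  have b3 : |D| ^ (p - 2) * (D + s) ≤ J p (c + d + g₂ - y) := by
    rw [show c + d + g₂ - y = D + s by linarith]
    exact mul_le_mul_of_nonneg_right (Real.rpow_le_rpow (abs_nonneg _)
      (abs_le_abs_of_nonneg (by linarith) (by linarith)) (by linarith)) (by linarith)
  have b4 : (d / 2) ^ (p - 2) ≤ |D| ^ (p - 2) :=
    Real.rpow_le_rpow (by linarith) (le_trans (by linarith) (le_abs_self D)) (by linarith)
  have b5 : 0 < (d / 2) ^ (p - 2) := Real.rpow_pos_of_pos (by linarith) _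
  have b6 : J p η ≤ κ * (d / 2) ^ (p - 2) * η := by
    rw [J, abs_of_nonneg (by linarith)]
    exact mul_le_mul_of_nonneg_right hκ (by linarith)
  have b7 : (d / 2) ^ (p - 2) * s ≤ |D| ^ (p - 2) * s := mul_le_mul_of_nonneg_right b4 (by linarith)
  have b8 : J p D = |D| ^ (p - 2) * D := rfl
  have : (d / 2) ^ (p - 2) * s ≤ (d / 2) ^ (p - 2) * (κ * η) := by nlinarith
  have := le_of_mul_le_mul_left this b5
  linarith

end Pool.Agent.H43.Lp
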