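import Pool.Agent.H43.Bg1
import Pool.Agent.H43.Lp1
import Pool.Agent.H41.GWFDefs

set_option autoImplicit false

namespace Pool.Agent.H43.Bg

open MeasureTheory ProbabilityTheory Finset unitInterval Pool.Agent.H41.GWF
open scoped ENNReal Classical

section Defs
variable {V : Type} (G : SimpleGraph V) (r : ℕ)

/-- one step of `r`-neighbour bootstrap percolation -/
def infect (A : Set V) : Set V := A ∪ {v | (r : ℕ∞) ≤ (G.neighborSet v ∩ A).encard}

/-- every vertex is eventually infected -/
def Perc (A : Set V) : Prop := ∀ v, ∃ n, v ∈ (infect G r)^[n] A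

/-- the critical probability -/
noncomputable def pc : ℝ := sInf {p : ℝ | ∃ h : p ∈ Set.Icc (0 : ℝ) 1,
  0 < setBernoulli Set.univ ⟨p, h⟩ {A | Perc G r A}}

lemma infect_meas [Countable V] (n : ℕ) (v : V) :
    MeasurableSet {A : Set V | v ∈ (infect G r)^[n] A} := by
  induction n generalizing v with
  | zero => exact measurableSet_mem v
  | succ n ih =>
    have : {A : Set V | v ∈ (infect G r)^[n + 1] A} = {A | v ∈ (infect G r)^[n] A} ∪
        ⋃ (s : Finset V) (_ : s.card = r ∧ ∀ w ∈ s, G.Adj v w),
          ⋂ w ∈ s, {A | w ∈ (infect G r)^[n] A} := by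
      ext A
      simp only [Function.iterate_succ_apply', Set.mem_ofPred_eq, Set.mem_union, Set.mem_iUnion,
        Set.mem_iInter, exists_prop]
      refine or_congr_right ⟨fun h => ?_, fun ⟨s, ⟨h1, h2⟩, h3⟩ => ?_⟩
      · obtain ⟨t, h1, h2⟩ := Set.exists_subset_encard_eq h
        lift t to Finset V using Set.finite_of_encard_eq_coe h2
        exact ⟨t, ⟨by simpa using h2, fun w hw => (h1 hw).1⟩, fun w hw => (h1 hw).2⟩
      · change (r : ℕ∞) ≤ _
        refine le_trans (by rw [Set.encard_coe_eq_coe_finsetCard, h1])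
          (Set.encard_le_encard (s := s) fun w hw => ⟨h2 w hw, h3 w hw⟩)
    rw [this]
    exact (ih v).union (.iUnion fun s => .iUnion fun _ => s.measurableSet_biInter fun w _ => ih w)

lemma perc_meas [Countable V] : MeasurableSet {A : Set V | Perc G r A} := by
  simp only [Perc, Set.ofPred_forall, Set.ofPred_exists]
  exact .iInter fun v => .iUnion fun n => infect_meas G r n v

end Defs

lemma couple {W ι : Type} (e : W → ι) (he : Function.Injective e) (p : I) :
    setBernoulli (Set.univ : Set W) p = (Measure.infinitePi fun _ : ι => (volume : Measure I)).map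
      fun U => {v | U (e v) ≤ p} := by
  have m : Measurable fun u : I => u ≤ p := measurableSet_setOfPred.1 measurableSet_Iic
  have h : (volume : Measure I).map (fun u => u ≤ p) =
      toNNReal p • Measure.dirac True + toNNReal (σ p) • Measure.dirac False := by
    refine Measure.ext_of_singleton fun a => ?_
    rw [Measure.map_apply m (.singleton _)]
    by_cases ha : a
    · obtain rfl := eq_true ha
      have : (fun u : I => u ≤ p) ⁻¹' {True} = Set.Iic p := by ext; simp
      rw [this, volume_Iic]
      simp [ENNReal.ofReal, Real.toNNReal_of_nonneg p.2.1, toNNReal]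
      rfl
    · obtain rfl := eq_false ha
      have : (fun u : I => u ≤ p) ⁻¹' {False} = Set.Ioi p := by ext; simp
      rw [this, volume_Ioi]
      simp [ENNReal.ofReal, Real.toNNReal_of_nonneg (sub_nonneg.2 p.2.2), toNNReal]
      rfl
  rw [setBernoulli_eq_map]
  simp only [Set.mem_univ, ← h]
  rw [← Measure.infinitePi_map_pi _ fun _ => m, ← (TreeMix.law_inj volume e he).map_eq,
    Measure.map_map (by fun_prop) (by fun_prop), Measure.map_map (by fun_prop) (by fun_prop)]
  rfl

lemma zip_mp {ι α β : Type} [MeasurableSpace α] [MeasurableSpace β] (μ : Measure α) (ν : Measure β)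
    [IsProbabilityMeasure μ] [IsProbabilityMeasure ν] :
    MeasurePreserving (fun q : (ι → α) × (ι → β) => fun i => (q.1 i, q.2 i))
      ((Measure.infinitePi fun _ => μ).prod (Measure.infinitePi fun _ => ν))
      (Measure.infinitePi fun _ => μ.prod ν) := by
  refine ⟨by fun_prop, Measure.eq_infinitePi _ fun s t ht => ?_⟩
  have a : MeasurePreserving (s.restrict : (ι → α) → _) (Measure.infinitePi fun _ => μ)
      (Measure.pi fun _ : s => μ) := ⟨s.measurable_restrict, Measure.infinitePi_map_restrict _⟩
  have b : MeasurePreserving (s.restrict : (ι → β) → _) (Measure.infinitePi fun _ => ν)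
      (Measure.pi fun _ : s => ν) := ⟨s.measurable_restrict, Measure.infinitePi_map_restrict _⟩
  have c := ((measurePreserving_arrowProdEquivProdArrow α β s (fun _ => μ) fun _ => ν).symm _).comp
    (a.prod b)
  have d := c.measure_preimage (s := Set.univ.pi fun i : s => t i)
    (MeasurableSet.univ_pi fun i : s => ht i).nullMeasurableSet
  rw [Measure.pi_pi, prod_coe_sort s fun i => μ.prod ν (t i)] at d
  rw [Measure.map_apply (by fun_prop) (.pi s.countable_toSet fun _ _ => ht _), ← d]
  congr 1
  ext q
  simp only [Set.mem_preimage, Set.mem_pi, Set.mem_univ, forall_true_left, Subtype.forall]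
  rfl

noncomputable def cn {A : Type} (S : Set A) (k : ℕ) (η : ℕ → A) : ℕ :=
  ((range k).filter fun j => η j ∉ S).card

lemma cn_succ {A : Type} (S : Set A) (k : ℕ) (η : ℕ → A) :
    cn S (k + 1) η = cn S k (fun n => η (n + 1)) + if η 0 ∈ S then 0 else 1 := by
  simp only [cn, card_filter, sum_range_succ']
  by_cases h : η 0 ∈ S <;> simp [h]

lemma cn_meas {A : Type} [MeasurableSpace A] {S : Set A} (hS : MeasurableSet S) (k : ℕ) :
    Measurable (cn S k) := by
  unfold cn
  simp only [card_filter]
  exact Finset.measurable_sum _ fun j _ =>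
    Measurable.ite (p := fun η : ℕ → A => η j ∉ S)
      ((measurable_pi_apply (X := fun _ : ℕ => A) j) hS.compl) measurable_const measurable_const

lemma cn_law {A : Type} [MeasurableSpace A] (P : Measure A) [IsProbabilityMeasure P] {S : Set A}
    (hS : MeasurableSet S) (k m : ℕ) : (Measure.infinitePi fun _ : ℕ => P) {η | cn S k η < m} =
      ENNReal.ofReal (Gs k m (1 - P.real S)) := by
  have x0 : 0 ≤ P.real S := measureReal_nonneg
  have x1 : P.real S ≤ 1 := measureReal_le_one
  induction k generalizing m with
  | zero => cases m <;> simp [cn, Gs_zero, Gs_big]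
  | succ k ih =>
    cases m with
    | zero => simp [Gs_zero]
    | succ m =>
      have M : ∀ m, MeasurableSet {η | cn S k η < m} := fun m =>
        measurableSet_lt (cn_meas hS k) measurable_const
      have : {η | cn S (k + 1) η < m + 1} = (fun ω : ℕ → A => (ω 0, fun n => ω (n + 1))) ⁻¹'
          (Sᶜ ×ˢ {η | cn S k η < m} ∪ S ×ˢ {η | cn S k η < m + 1}) := by
        ext η
        by_cases h : η 0 ∈ S <;> simp [cn_succ, h]
      rw [this, (Lp.split_mp P).measure_preimage
        ((hS.compl.prod (M _)).union (hS.prod (M _))).nullMeasurableSet,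
        measure_union (Set.disjoint_prod.2 (.inl disjoint_compl_left)) (hS.prod (M _)),
        Measure.prod_prod, Measure.prod_prod, ih, ih, Gs_succ, sub_sub_cancel,
        ENNReal.ofReal_add (mul_nonneg (by linarith) (Gs_nn _ _ (by linarith) (by linarith)))
          (mul_nonneg x0 (Gs_nn _ _ (by linarith) (by linarith))),
        ENNReal.ofReal_mul (by linarith), ENNReal.ofReal_mul x0, ofReal_measureReal,
        ← probReal_compl_eq_one_sub hS, ofReal_measureReal]

abbrev Om := List ℕ → ℕ × I

def sh (e : List ℕ) (ω : Om) : Om := fun l => ω (l ++ e)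

lemma sh_meas (e : List ℕ) : Measurable (sh e) := by unfold sh; fun_prop

variable (ξ : Measure ℕ) [IsProbabilityMeasure ξ]

noncomputable def PP : Measure Om := Measure.infinitePi fun _ => ξ.prod volume

instance : IsProbabilityMeasure (PP ξ) := by unfold PP; infer_instance

lemma tree_mp : MeasurePreserving (fun ω : Om => (ω [], fun j : ℕ => sh [j] ω)) (PP ξ)
    ((ξ.prod volume).prod (Measure.infinitePi fun _ => PP ξ)) := by
  let e : ℕ × List ℕ → List ℕ := fun q => q.2 ++ [q.1]
  have he : Function.Injective e := fun a b h =>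
    Prod.ext (by simpa using List.append_inj_right' h rfl) (List.append_inj_left' h rfl)
  have m0 : Measurable fun x : Unit → ℕ × I => x () := measurable_pi_apply _
  have h := (TreeMix.ind_disj (ξ.prod (volume : Measure I)) (fun _ : Unit => []) e (by
    rw [Set.disjoint_left]; rintro _ ⟨_, rfl⟩ ⟨n, h⟩; simp [e] at h)).comp m0
      (MeasurableEquiv.curry ℕ (List ℕ) (ℕ × I)).measurable
  have c : MeasurePreserving (fun (ω : Om) (j : ℕ) => sh [j] ω) (PP ξ)
      (Measure.infinitePi fun _ => PP ξ) :=
    MeasurePreserving.comp (g := MeasurableEquiv.curry ℕ (List ℕ) (ℕ × I))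
      ⟨(MeasurableEquiv.curry ..).measurable,
        Measure.infinitePi_map_curry fun _ _ => ξ.prod volume⟩ (TreeMix.law_inj _ e he)
  refine ⟨(measurable_pi_apply _).prodMk c.measurable, ?_⟩
  have h2 := h.map_prod_eq_prod_map_map (measurable_pi_apply []).aemeasurable
    c.measurable.aemeasurable
  rw [(measurePreserving_eval_infinitePi (fun _ : List ℕ => ξ.prod volume) []).map_eq] at h2
  exact h2.trans (congrArg _ c.map_eq)

def nx (T : Set I) (m : ℕ) (S : Set Om) : Set Om :=
  {ω | (ω []).2 ∈ T ∧ cn S (ω []).1 (fun j => sh [j] ω) < m}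

lemma nx_aux {T : Set I} (hT : MeasurableSet T) (m : ℕ) {S : Set Om} (hS : MeasurableSet S) :
    MeasurableSet {q : (ℕ × I) × (ℕ → Om) | q.1.2 ∈ T ∧ cn S q.1.1 q.2 < m} := by
  have : Measurable fun q : (ℕ × I) × (ℕ → Om) => cn S q.1.1 q.2 :=
    (measurable_from_prod_countable_right (f := fun q : ℕ × (ℕ → Om) => cn S q.1 q.2)
      fun k => cn_meas hS k).comp (measurable_fst.fst.prodMk measurable_snd)
  exact (measurable_fst.snd hT).inter (measurableSet_lt this measurable_const)

lemma nx_meas {T : Set I} (hT : MeasurableSet T) (m : ℕ) {S : Set Om} (hS : MeasurableSet S) :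
    MeasurableSet (nx T m S) :=
  (tree_mp (Measure.dirac 0)).measurable (nx_aux hT m hS)

lemma nx_law {T : Set I} (hT : MeasurableSet T) (m : ℕ) {S : Set Om} (hS : MeasurableSet S) :
    PP ξ (nx T m S) = volume T * ∫⁻ k, ENNReal.ofReal (Gs k m (1 - (PP ξ).real S)) ∂ξ := by
  refine ((tree_mp ξ).measure_preimage (nx_aux hT m hS).nullMeasurableSet).trans ?_
  rw [Measure.prod_apply (nx_aux hT m hS), mul_comm, ← lintegral_indicator_one hT,
    ← lintegral_prod_mul Measurable.of_discrete.aemeasurable
      (measurable_one.indicator hT).aemeasurable]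
  refine lintegral_congr fun y => ?_
  by_cases h : y.2 ∈ T
  · simp [h, ← cn_law _ hS]
  · simp [h]

end Pool.Agent.H43.Bg
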