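import Mathlib

set_option autoImplicit false
open MeasureTheory ProbabilityTheory
open scoped ENNReal

namespace Pool.Agent.H43.Stav

variable {V : Type} (vert : ℤ × ℤ → Fin 4 → V)

inductive Dead (c : V → Bool) : ℤ × ℤ → Prop
  | closed (u : ℤ × ℤ) (r : Fin 4) : c (vert u r) = true → Dead c u
  | both (u : ℤ × ℤ) : Dead c (u + (1, 0)) → Dead c (u + (1, 1)) → Dead c u

abbrev St := Bool ⊕ Fin 4

def disp : St → ℤ × ℤ
  | .inl true => (1, 0)
  | .inl false => (-1, -1)
  | .inr _ => (0, 1)

def endp : ℤ × ℤ → List St → ℤ × ℤ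
  | u, [] => u
  | u, s :: w => endp (u + disp s) w

def req : ℤ × ℤ → List St → List V
  | _, [] => []
  | u, .inl b :: w => req (u + disp (.inl b)) w
  | u, .inr r :: w => vert u r :: req (u + disp (.inr r)) w

lemma endp_append (u : ℤ × ℤ) (w w' : List St) : endp u (w ++ w') = endp (endp u w) w' := by
  induction w generalizing u with
  | nil => rfl
  | cons s w ih => exact ih _

lemma req_append (u : ℤ × ℤ) (w w' : List St) :
    req vert u (w ++ w') = req vert u w ++ req vert (endp u w) w' := by
  induction w generalizing u with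
  | nil => rfl
  | cons s w ih => rcases s with b | r <;> simp [req, endp, ih]

lemma len (u : ℤ × ℤ) (w : List St) :
    (w.length : ℤ) = 3 * (req vert u w).length + ((endp u w).1 - u.1) - 2 * ((endp u w).2 - u.2) := by
  induction w generalizing u with
  | nil => simp [req, endp]
  | cons s w ih =>
    have := ih (u + disp s)
    rcases s with (_ | _) | r <;> simp [req, endp, disp] at this ⊢ <;> omega

lemma walk_of_dead (c : V → Bool) (u : ℤ × ℤ) (h : Dead vert c u) :
    ∃ w, endp u w = u + (0, 1) ∧ ∀ x ∈ req vert u w, c x = true := by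
  induction h with
  | closed u r h => exact ⟨[.inr r], rfl, by simpa [req] using h⟩
  | both u _ _ ih1 ih2 =>
    obtain ⟨w1, e1, h1⟩ := ih1
    obtain ⟨w2, e2, h2⟩ := ih2
    have e3 : u + (1, 0) + (0, 1) = u + (1, 1) := by ext <;> simp
    refine ⟨.inl true :: (w1 ++ (w2 ++ [.inl false])), ?_, ?_⟩
    · simp only [endp, disp, endp_append, e1, e3, e2]
      ext <;> simp
    · simp only [req, disp, req_append, e1, e3, List.mem_append, List.not_mem_nil, or_false]
      rintro x (h | h)
      · exact h1 x h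
      · exact h2 x h

lemma suffix (u : ℤ × ℤ) (w : List St) (x : V) (hx : x ∈ req vert u w) :
    ∃ u' r w', x = vert u' r ∧ endp u' w' = endp u w ∧ req vert u' w' <:+ req vert u w := by
  induction w generalizing u with
  | nil => simp [req] at hx
  | cons s w ih =>
    rcases s with b | r
    · exact ih _ hx
    · rcases List.mem_cons.1 hx with rfl | hx
      · exact ⟨u, r, .inr r :: w, rfl, rfl, List.suffix_refl _⟩
      · obtain ⟨u', r', w', h1, h2, h3⟩ := ih _ hx
        exact ⟨u', r', w', h1, h2, h3.trans (List.suffix_cons _ _)⟩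

lemma erase (hv : ∀ u u' r r', vert u r = vert u' r' → u = u') (u : ℤ × ℤ) (w : List St) :
    ∃ w', endp u w' = endp u w ∧ (req vert u w').Nodup ∧ ∀ x ∈ req vert u w', x ∈ req vert u w := by
  induction w generalizing u with
  | nil => exact ⟨[], rfl, by simp [req], fun x h => h⟩
  | cons s w ih =>
    obtain ⟨w', h1, h2, h3⟩ := ih (u + disp s)
    rcases s with b | r
    · exact ⟨.inl b :: w', h1, h2, h3⟩
    · by_cases h : vert u r ∈ req vert (u + disp (.inr r)) w'
      · obtain ⟨u', r', w'', e1, e2, e3⟩ := suffix vert _ _ _ h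
        obtain rfl := hv _ _ _ _ e1
        exact ⟨w'', e2.trans h1, h2.sublist e3.sublist,
          fun x hx => List.mem_cons_of_mem _ (h3 x (e3.subset hx))⟩
      · refine ⟨.inr r :: w', h1, List.nodup_cons.2 ⟨h, h2⟩, fun x hx => ?_⟩
        rcases List.mem_cons.1 hx with rfl | hx
        · exact List.mem_cons_self
        · exact List.mem_cons_of_mem _ (h3 x hx)

noncomputable def p0 : unitInterval := ⟨1 / 1000, by norm_num, by norm_num⟩

lemma meas_all (l : List V) (hl : l.Nodup) :
    Measure.infinitePi (fun _ : V => bernoulliMeasure true false p0) {c | ∀ x ∈ l, c x = true}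
      = (10⁻¹ : ℝ≥0∞) ^ (3 * l.length) := by
  classical
  have : {c : V → Bool | ∀ x ∈ l, c x = true} = Set.pi (l.toFinset : Set V) fun _ => {true} := by
    ext c; simp [Set.mem_pi]
  rw [this, Measure.infinitePi_pi _ (fun _ _ => MeasurableSet.of_discrete), Finset.prod_const,
    List.toFinset_card_of_nodup hl, pow_mul]
  congr 1
  rw [bernoulliMeasure_apply_of_mem_of_notMem _ MeasurableSet.of_discrete (by simp) (by simp)]
  rw [← ENNReal.inv_pow, ← ENNReal.toReal_eq_toReal_iff' (by simp) (by simp)]
  simp [p0]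
  norm_num

theorem meas_dead (hv : ∀ u u' r r', vert u r = vert u' r' → u = u') :
    Measure.infinitePi (fun _ : V => bernoulliMeasure true false p0) {c | Dead vert c 0}
      ≤ 40⁻¹ := by
  let E : List St → Set (V → Bool) := fun w =>
    {c | endp 0 w = (0, 1) ∧ (req vert 0 w).Nodup ∧ ∀ x ∈ req vert 0 w, c x = true}
  have h1 : {c | Dead vert c 0} ⊆ ⋃ w, E w := by
    intro c hc
    obtain ⟨w, e, h⟩ := walk_of_dead vert c 0 hc
    obtain ⟨w', e1, e2, e3⟩ := erase vert hv 0 w
    exact Set.mem_iUnion.2 ⟨w', by rw [e1, e, zero_add], e2, fun x hx => h x (e3 x hx)⟩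
  have h2 : ∀ w, Measure.infinitePi (fun _ : V => bernoulliMeasure true false p0) (E w)
      ≤ (10⁻¹ : ℝ≥0∞) ^ (w.length + 2) := by
    intro w
    by_cases h : endp 0 w = (0, 1) ∧ (req vert 0 w).Nodup
    · have : E w = {c | ∀ x ∈ req vert 0 w, c x = true} := by
        ext c; simp only [E, Set.mem_ofPred_eq, h.1, h.2, true_and]
      rw [this, meas_all _ h.2]
      have := len vert 0 w
      rw [h.1] at this
      simp at this
      exact le_of_eq (by congr 1; omega)
    · have : E w = ∅ := by
        ext c; simp only [E, Set.mem_ofPred_eq, Set.mem_empty_iff_false]; tauto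
      simp [this]
  refine (measure_mono h1).trans ((measure_iUnion_le _).trans
    ((ENNReal.tsum_le_tsum h2).trans (le_of_eq ?_)))
  rw [← List.equivSigmaTuple.symm.tsum_eq, ENNReal.tsum_sigma']
  have : ∀ n : ℕ, ∑' f : Fin n → St,
      (10⁻¹ : ℝ≥0∞) ^ ((List.equivSigmaTuple.symm ⟨n, f⟩ : List St).length + 2)
        = (10⁻¹) ^ 2 * (6 * 10⁻¹) ^ n := by
    intro n
    simp [tsum_fintype, pow_add, mul_pow]
    ring
  simp only [this, ENNReal.tsum_mul_left, ENNReal.tsum_geometric]
  have e : (1 : ℝ≥0∞) - 6 * 10⁻¹ = 4 * 10⁻¹ := by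
    apply ENNReal.sub_eq_of_eq_add (by finiteness)
    rw [← add_mul]
    norm_num
    rw [ENNReal.mul_inv_cancel] <;> simp
  rw [e, ← ENNReal.toReal_eq_toReal_iff'
    (ENNReal.mul_ne_top (by simp) (by simp)) (by simp)]
  simp
  norm_num

end Pool.Agent.H43.Stav
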