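import Pool.Agent.H43.BootDefs
import Pool.Agent.H43.Stav

set_option autoImplicit false
open MeasureTheory ProbabilityTheory
open scoped ENNReal

namespace Pool.Agent.H43.Boot
open Pool.Agent.H43.Stav

def o1 (v : ℤ × ℤ) : ℤ × ℤ := (v.1 + 2, v.2)
def o2 (v : ℤ × ℤ) : ℤ × ℤ := if v.1 % 4 = 3 then (v.1 - 3, v.2 - 1) else (v.1 + 1, v.2)
def i1 (v : ℤ × ℤ) : ℤ × ℤ := (v.1 - 2, v.2)
def i2 (v : ℤ × ℤ) : ℤ × ℤ := if v.1 % 4 = 0 then (v.1 + 3, v.2 + 1) else (v.1 - 1, v.2)

def pot (v : ℤ × ℤ) : ℤ := v.1 - 4 * v.2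

lemma pot_o1 (v : ℤ × ℤ) : pot (o1 v) = pot v + 2 := by simp [pot, o1]; ring
lemma pot_o2 (v : ℤ × ℤ) : pot (o2 v) = pot v + 1 := by
  unfold o2; split_ifs <;> simp [pot] <;> ring
lemma pot_i1 (v : ℤ × ℤ) : pot (i1 v) = pot v - 2 := by simp [pot, i1]; ring
lemma pot_i2 (v : ℤ × ℤ) : pot (i2 v) = pot v - 1 := by
  unfold i2; split_ifs <;> simp [pot] <;> ring

lemma o1_iff (u v : ℤ × ℤ) : u = o1 v ↔ v = i1 u := by
  simp only [o1, i1, Prod.ext_iff]; omega
lemma o2_iff (u v : ℤ × ℤ) : u = o2 v ↔ v = i2 u := by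
  unfold o2 i2; split_ifs <;> simp only [Prod.ext_iff] <;> omega

def G : SimpleGraph (ℤ × ℤ) where
  Adj u v := v = o1 u ∨ v = o2 u ∨ v = i1 u ∨ v = i2 u
  symm := ⟨fun u v h => by
    have a := o1_iff u v
    have b := o2_iff u v
    have c := o1_iff v u
    have d := o2_iff v u
    tauto⟩
  loopless := ⟨fun u h => by
    have h1 := pot_o1 u
    have h2 := pot_o2 u
    have h3 := pot_i1 u
    have h4 := pot_i2 u
    rcases h with h | h | h | h <;> have := congrArg pot h <;> omega⟩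

lemma adj (u v : ℤ × ℤ) : G.Adj u v ↔ v = o1 u ∨ v = o2 u ∨ v = i1 u ∨ v = i2 u := Iff.rfl

lemma regular (v : ℤ × ℤ) : (G.neighborSet v).ncard = 4 := by
  have : G.neighborSet v = {o1 v, o2 v, i1 v, i2 v} := by ext u; simp [adj]
  have h1 := pot_o1 v
  have h2 := pot_o2 v
  have h3 := pot_i1 v
  have h4 := pot_i2 v
  have ne : ∀ a b, pot a ≠ pot b → a ≠ b := fun a b h e => h (by rw [e])
  rw [this, Set.ncard_insert_of_notMem, Set.ncard_insert_of_notMem, Set.ncard_pair]
  · exact ne _ _ (by omega)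
  · simp only [Set.mem_insert_iff, Set.mem_singleton_iff, not_or]
    exact ⟨ne _ _ (by omega), ne _ _ (by omega)⟩
  · simp only [Set.mem_insert_iff, Set.mem_singleton_iff, not_or]
    exact ⟨ne _ _ (by omega), ne _ _ (by omega), ne _ _ (by omega)⟩

lemma fin_nb (v : ℤ × ℤ) : (G.neighborSet v).Finite :=
  Set.finite_of_ncard_ne_zero (by rw [regular]; norm_num)

lemma no_fortress (S : Finset (ℤ × ℤ)) : ¬ IsFortress G S := by
  rintro ⟨hne, h⟩
  obtain ⟨v, hv, hmax⟩ := S.exists_max_image pot hne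
  have h1 := pot_o1 v
  have h2 := pot_o2 v
  have : ({o1 v, o2 v} : Set (ℤ × ℤ)) ⊆ {u | G.Adj v u ∧ u ∉ S} := by
    rintro u (rfl | rfl)
    · exact ⟨Or.inl rfl, fun hh => by have := hmax _ hh; omega⟩
    · exact ⟨Or.inr (Or.inl rfl), fun hh => by have := hmax _ hh; omega⟩
  have h3 := Set.ncard_le_ncard this ((fin_nb v).subset fun u hu => hu.1)
  rw [Set.ncard_pair (fun e => by rw [e] at h1; omega)] at h3
  have := h v hv
  omega

/-- short walks -/
def Near (n : ℕ) (u v : ℤ × ℤ) : Prop := ∃ w : G.Walk u v, w.length ≤ n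

lemma Near.refl (u : ℤ × ℤ) : Near 0 u u := ⟨.nil, le_rfl⟩
lemma Near.symm {n : ℕ} {u v : ℤ × ℤ} (h : Near n u v) : Near n v u :=
  let ⟨w, hw⟩ := h; ⟨w.reverse, by simpa using hw⟩
lemma Near.trans {n m : ℕ} {u v z : ℤ × ℤ} (h : Near n u v) (h' : Near m v z) :
    Near (n + m) u z :=
  let ⟨w, hw⟩ := h; let ⟨w', hw'⟩ := h'; ⟨w.append w', by simp; omega⟩
lemma Near.mono {n m : ℕ} {u v : ℤ × ℤ} (h : Near n u v) (h' : n ≤ m) : Near m u v :=
  let ⟨w, hw⟩ := h; ⟨w, hw.trans h'⟩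
lemma Near.adj {u v : ℤ × ℤ} (h : G.Adj u v) : Near 1 u v := ⟨.cons h .nil, le_rfl⟩

lemma near_h1 (x j : ℤ) : Near 2 (x, j) (x + 1, j) := by
  by_cases h : x % 4 = 3
  · have a : G.Adj (x, j) (x - 1, j) := Or.inr (Or.inr (Or.inr (by
      unfold i2; rw [if_neg (by simp; omega)])))
    have b : G.Adj (x - 1, j) (x + 1, j) := Or.inl (by simp [o1]; ring)
    exact (Near.adj a).trans (Near.adj b)
  · have a : G.Adj (x, j) (x + 1, j) := Or.inr (Or.inl (by unfold o2; rw [if_neg h]))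
    exact (Near.adj a).mono (by norm_num)

lemma near_hn (x j : ℤ) (n : ℕ) : Near (2 * n) (x, j) (x + n, j) := by
  induction n with
  | zero => simpa using Near.refl _
  | succ n ih =>
    have := ih.trans (near_h1 (x + n) j)
    push_cast
    rw [← add_assoc]
    exact this

lemma near_h (x y j : ℤ) : Near (2 * (x - y).natAbs) (x, j) (y, j) := by
  rcases le_total x y with h | h
  · have := near_hn x j (x - y).natAbs
    rwa [show x + ((x - y).natAbs : ℕ) = y by omega] at this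
  · have := near_hn y j (x - y).natAbs
    rw [show y + ((x - y).natAbs : ℕ) = x by omega] at this
    exact this.symm

lemma near_v1 (x j : ℤ) : Near 13 (x, j) (x, j + 1) := by
  have a : G.Adj (x - x % 4, j) (x - x % 4 + 3, j + 1) := Or.inr (Or.inr (Or.inr (by
      unfold i2; rw [if_pos (by simp)])))
  exact (((near_h x (x - x % 4) j).trans (Near.adj a)).trans
    (near_h (x - x % 4 + 3) x (j + 1))).mono (by omega)

lemma near_vn (x j : ℤ) (n : ℕ) : Near (13 * n) (x, j) (x, j + n) := by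
  induction n with
  | zero => simpa using Near.refl _
  | succ n ih =>
    have := ih.trans (near_v1 x (j + n))
    push_cast
    rw [← add_assoc]
    exact this

lemma near_v (x i j : ℤ) : Near (13 * (i - j).natAbs) (x, i) (x, j) := by
  rcases le_total i j with h | h
  · have := near_vn x i (i - j).natAbs
    rwa [show i + ((i - j).natAbs : ℕ) = j by omega] at this
  · have := near_vn x j (i - j).natAbs
    rw [show j + ((i - j).natAbs : ℕ) = i by omega] at this
    exact this.symm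

lemma near_all (u v : ℤ × ℤ) : Near (13 * ((u.1 - v.1).natAbs + (u.2 - v.2).natAbs)) u v :=
  ((near_h u.1 v.1 u.2).trans (near_v v.1 u.2 v.2)).mono (by omega)

lemma connected : G.Connected :=
  ⟨fun u v => let ⟨w, _⟩ := near_all u v; ⟨w⟩⟩

lemma walk_bd {u v : ℤ × ℤ} (w : G.Walk u v) :
    (u.1 - v.1).natAbs + (u.2 - v.2).natAbs ≤ 13 * w.length := by
  induction w with
  | nil => simp
  | @cons a b c h w ih =>
    have : (a.1 - b.1).natAbs + (a.2 - b.2).natAbs ≤ 4 := by
      rcases h with rfl | rfl | rfl | rfl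
      · simp [o1]
      · unfold o2; split_ifs <;> simp
      · simp [i1]
      · unfold i2; split_ifs <;> simp
    simp only [SimpleGraph.Walk.length_cons]
    omega

lemma gridDist_eq (u v : ℤ × ℤ) :
    gridDist u v = (((u.1 - v.1).natAbs + (u.2 - v.2).natAbs : ℕ) : ℝ) := by
  simp [gridDist, Nat.cast_natAbs]

lemma qi : QuasiIsometricToGrid G := by
  refine ⟨id, 13, 0, by norm_num, le_rfl, fun u v => ⟨?_, ?_⟩, fun z => ⟨z, by simp [gridDist]⟩⟩
  · obtain ⟨w, hw⟩ := near_all u v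
    have := (G.dist_le w).trans hw
    rw [id, id, gridDist_eq, sub_zero, div_le_iff₀ (by norm_num), mul_comm]
    exact_mod_cast this
  · obtain ⟨w, hw⟩ := connected.exists_walk_length_eq_dist u v
    have := walk_bd w
    rw [id, id, gridDist_eq, add_zero, ← hw]
    exact_mod_cast this

def vp (u : ℤ × ℤ) (r : Fin 4) : ℤ × ℤ := (4 * (u.1 - u.2) + r, -u.2)
def vm (u : ℤ × ℤ) (r : Fin 4) : ℤ × ℤ := (4 * (u.2 - u.1) + r, u.2)

/-- alive cells, in cell coordinates -/
def Al (c : ℤ × ℤ → Bool) (i j : ℤ) : Prop :=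
  ¬ Dead vp c (i - j, -j) ∧ ¬ Dead vm c (j - i, j)

lemma Al.healthy {c : ℤ × ℤ → Bool} {i j : ℤ} (h : Al c i j) (r : Fin 4) :
    c (4 * i + r, j) ≠ true := fun hc =>
  h.1 (.closed _ r (by simpa [vp] using hc))

lemma dead_inv {V : Type} {vert : ℤ × ℤ → Fin 4 → V} {c : V → Bool} {u : ℤ × ℤ}
    (h : Dead vert c u) : (∃ r, c (vert u r) = true) ∨
      (Dead vert c (u + (1, 0)) ∧ Dead vert c (u + (1, 1))) := by
  cases h with
  | closed _ r h => exact Or.inl ⟨r, h⟩
  | both _ h1 h2 => exact Or.inr ⟨h1, h2⟩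

lemma Al.fwd {c : ℤ × ℤ → Bool} {i j : ℤ} (h : Al c i j) : Al c (i + 1) j ∨ Al c i (j - 1) := by
  have : ¬ Dead vp c (i + 1 - j, -j) ∨ ¬ Dead vp c (i - (j - 1), -(j - 1)) := by
    by_contra hh
    push Not at hh
    refine h.1 (.both _ ?_ ?_)
    · convert hh.1 using 1; ext <;> simp; ring
    · convert hh.2 using 1; ext <;> simp <;> ring
  rcases this with h1 | h1
  · refine Or.inl ⟨h1, fun h2 => ?_⟩
    rcases dead_inv h2 with ⟨r, hr⟩ | ⟨h3, -⟩
    · exact h1 (.closed _ r (by rw [← hr]; congr 1; ext <;> simp [vp, vm]))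
    · exact h.2 (by convert h3 using 1; ext <;> simp; ring)
  · refine Or.inr ⟨h1, fun h2 => ?_⟩
    rcases dead_inv h2 with ⟨r, hr⟩ | ⟨-, h3⟩
    · exact h1 (.closed _ r (by rw [← hr]; congr 1; ext <;> simp [vp, vm]; ring))
    · exact h.2 (by convert h3 using 1; ext <;> simp; ring)

lemma Al.bwd {c : ℤ × ℤ → Bool} {i j : ℤ} (h : Al c i j) : Al c (i - 1) j ∨ Al c i (j + 1) := by
  have : ¬ Dead vm c (j - (i - 1), j) ∨ ¬ Dead vm c (j + 1 - i, j + 1) := by
    by_contra hh
    push Not at hh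
    refine h.2 (.both _ ?_ ?_)
    · convert hh.1 using 1; ext <;> simp; ring
    · convert hh.2 using 1; ext <;> simp; ring
  rcases this with h1 | h1
  · refine Or.inl ⟨fun h2 => ?_, h1⟩
    rcases dead_inv h2 with ⟨r, hr⟩ | ⟨h3, -⟩
    · exact h1 (.closed _ r (by rw [← hr]; congr 1; ext <;> simp [vp, vm]))
    · exact h.1 (by convert h3 using 1; ext <;> simp; ring)
  · refine Or.inr ⟨fun h2 => ?_, h1⟩
    rcases dead_inv h2 with ⟨r, hr⟩ | ⟨-, h3⟩
    · exact h1 (.closed _ r (by rw [← hr]; congr 1; ext <;> simp [vp, vm]; ring))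
    · exact h.1 (by convert h3 using 1; ext <;> simp; ring)

def H (c : ℤ × ℤ → Bool) (v : ℤ × ℤ) : Prop := Al c (v.1 / 4) v.2

lemma H.healthy {c : ℤ × ℤ → Bool} {v : ℤ × ℤ} (h : H c v) : c v ≠ true := by
  have := Al.healthy h ⟨(v.1 % 4).toNat, by omega⟩
  rwa [show (4 * (v.1 / 4) + ((⟨(v.1 % 4).toNat, by omega⟩ : Fin 4) : ℕ), v.2) = v by
    ext <;> simp; omega] at this

lemma H.one {c : ℤ × ℤ → Bool} {v : ℤ × ℤ} (h : H c v) :
    ∃ z, ∀ u, G.Adj v u → ¬ H c u → u = z := by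
  obtain ⟨x, j⟩ := v
  have key : ∀ y k i, y / 4 = i → Al c i k → H c (y, k) := by rintro y k _ rfl h; exact h
  have h0 : Al c (x / 4) j := h
  have hx : x % 4 = 0 ∨ x % 4 = 1 ∨ x % 4 = 2 ∨ x % 4 = 3 := by omega
  have three : ∀ a b d e : ℤ × ℤ, H c a → H c b → H c d →
      (∀ u, G.Adj (x, j) u → u = a ∨ u = b ∨ u = d ∨ u = e) →
      ∃ z, ∀ u, G.Adj (x, j) u → ¬ H c u → u = z := by
    intro a b d e ha hb hd h
    refine ⟨e, fun u hu hn => ?_⟩
    rcases h u hu with rfl | rfl | rfl | rfl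
    exacts [(hn ha).elim, (hn hb).elim, (hn hd).elim, rfl]
  rcases hx with hx | hx | hx | hx
  · rcases h0.bwd with h1 | h1
    · exact three (x + 2, j) (x + 1, j) (x - 2, j) (x + 3, j + 1) (key _ _ _ (by omega) h0)
        (key _ _ _ (by omega) h0) (key _ _ _ (by omega) h1)
        (by simp only [adj, o1, o2, i1, i2, hx]; norm_num)
    · exact three (x + 2, j) (x + 1, j) (x + 3, j + 1) (x - 2, j) (key _ _ _ (by omega) h0)
        (key _ _ _ (by omega) h0) (key _ _ _ (by omega) h1)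
        (by simp only [adj, o1, o2, i1, i2, hx]; intro u; norm_num; tauto)
  · exact three (x + 2, j) (x + 1, j) (x - 1, j) (x - 2, j) (key _ _ _ (by omega) h0)
        (key _ _ _ (by omega) h0) (key _ _ _ (by omega) h0)
        (by simp only [adj, o1, o2, i1, i2, hx]; intro u; norm_num; tauto)
  · exact three (x - 2, j) (x + 1, j) (x - 1, j) (x + 2, j) (key _ _ _ (by omega) h0)
        (key _ _ _ (by omega) h0) (key _ _ _ (by omega) h0)
        (by simp only [adj, o1, o2, i1, i2, hx]; intro u; norm_num; tauto)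
  · rcases h0.fwd with h1 | h1
    · exact three (x - 2, j) (x - 1, j) (x + 2, j) (x - 3, j - 1) (key _ _ _ (by omega) h0)
        (key _ _ _ (by omega) h0) (key _ _ _ (by omega) h1)
        (by simp only [adj, o1, o2, i1, i2, hx]; intro u; norm_num; tauto)
    · exact three (x - 2, j) (x - 1, j) (x - 3, j - 1) (x + 2, j) (key _ _ _ (by omega) h0)
        (key _ _ _ (by omega) h0) (key _ _ _ (by omega) h1)
        (by simp only [adj, o1, o2, i1, i2, hx]; intro u; norm_num; tauto)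

lemma stable (c : ℤ × ℤ → Bool) (n : ℕ) : ∀ v, H c v → (contaminate G)^[n] c v ≠ true := by
  induction n with
  | zero => exact fun v h => h.healthy
  | succ n ih =>
    intro v h
    rw [Function.iterate_succ_apply']
    obtain ⟨z, hz⟩ := h.one
    have : {u | G.Adj u v ∧ (contaminate G)^[n] c u = true} ⊆ {z} :=
      fun u hu => hz u hu.1.symm fun hh => ih u hh hu.2
    have h2 := Set.ncard_le_ncard this
    rw [Set.ncard_singleton] at h2
    unfold contaminate at *
    simp only [ne_eq, decide_eq_true_eq, not_or]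
    exact ⟨ih v h, by omega⟩

theorem meas_lt : bernoulliProduct (ℤ × ℤ) p0 (invasion G) < 1 := by
  have h1 : invasion G ⊆ {c | Dead vp c 0} ∪ {c | Dead vm c 0} := by
    intro c hc
    by_contra hh
    simp only [Set.mem_union, Set.mem_ofPred_eq, not_or] at hh
    obtain ⟨n, hn⟩ := hc (0, 0)
    exact stable c n (0, 0) hh hn
  have a := meas_dead vp (fun u u' r r' h => by
    simp only [vp, Prod.ext_iff] at h ⊢; omega)
  have b := meas_dead vm (fun u u' r r' h => by
    simp only [vm, Prod.ext_iff] at h ⊢; omega)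
  refine ((measure_mono h1).trans ((measure_union_le _ _).trans (add_le_add a b))).trans_lt ?_
  rw [← ENNReal.toReal_lt_toReal (by simp) (by simp), ENNReal.toReal_add (by simp) (by simp)]
  simp
  norm_num

end Pool.Agent.H43.Boot
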