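import Mathlib

set_option autoImplicit false
open MeasureTheory ProbabilityTheory

namespace Pool.Agent.H43.Boot

variable {V : Type}

open Classical in
/-- The 2-neighbour contamination map (`true` = infected). -/
noncomputable def contaminate (G : SimpleGraph V) (c : V → Bool) : V → Bool :=
  fun v => decide (c v = true ∨ 2 ≤ {u | G.Adj u v ∧ c u = true}.ncard)

/-- The invasion set. -/
def invasion (G : SimpleGraph V) : Set (V → Bool) :=
  {c | ∀ v, ∃ n, (contaminate G)^[n] c v = true}

/-- A fortress: a finite nonempty set each of whose vertices has at most one neighbour outside. -/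
def IsFortress (G : SimpleGraph V) (S : Finset V) : Prop :=
  S.Nonempty ∧ ∀ v ∈ S, {u | G.Adj v u ∧ u ∉ S}.ncard ≤ 1

/-- The graph metric of the square grid. -/
def gridDist (a b : ℤ × ℤ) : ℝ := |(a.1 : ℝ) - b.1| + |(a.2 : ℝ) - b.2|

/-- `G` with its graph metric is quasi-isometric to the square grid. -/
def QuasiIsometricToGrid (G : SimpleGraph V) : Prop :=
  ∃ (f : V → ℤ × ℤ) (K C : ℝ), 1 ≤ K ∧ 0 ≤ C ∧
    (∀ u v, (G.dist u v : ℝ) / K - C ≤ gridDist (f u) (f v) ∧
      gridDist (f u) (f v) ≤ K * G.dist u v + C) ∧
    ∀ z, ∃ v, gridDist (f v) z ≤ C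

/-- The Bernoulli product measure: each vertex is infected independently with probability `p`. -/
noncomputable def bernoulliProduct (V : Type) (p : unitInterval) : Measure (V → Bool) :=
  Measure.infinitePi fun _ : V => bernoulliMeasure true false p

end Pool.Agent.H43.Boot
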