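import Mathlib

set_option autoImplicit false

namespace Pool.Agent.H43.Box
open Set

/-- `f` is equivariant for the involutions `s` and `t`. -/
def Eqv {X Y : Type} [TopologicalSpace X] [TopologicalSpace Y] (s : X → X) (t : Y → Y)
    (f : C(X, Y)) : Prop := ∀ x, f (s x) = t (f x)

/-- `Z₂`-homotopy equivalence of `(X, s)` and `(Y, t)`: equivariant maps in both directions whose
composites are homotopic to the identities through equivariant maps. -/
def Z2Equiv {X Y : Type} [TopologicalSpace X] [TopologicalSpace Y] (s : X → X) (t : Y → Y) : Prop :=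
  ∃ (f : C(X, Y)) (g : C(Y, X)), Eqv s t f ∧ Eqv t s g ∧
    (g.comp f).HomotopicWith (ContinuousMap.id X) (Eqv s s) ∧
    (f.comp g).HomotopicWith (ContinuousMap.id Y) (Eqv t t)

section
variable {X Y Z W : Type} [TopologicalSpace X] [TopologicalSpace Y] [TopologicalSpace Z]
  [TopologicalSpace W] {s : X → X} {t : Y → Y} {u : Z → Z} {w : W → W}

lemma whisker {f g : C(Y, Z)} (h : f.HomotopicWith g (Eqv t u)) {a : C(X, Y)} {b : C(Z, W)}
    (ha : Eqv s t a) (hb : Eqv u w b) :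
    (b.comp (f.comp a)).HomotopicWith (b.comp (g.comp a)) (Eqv s w) := by
  obtain ⟨H⟩ := h
  refine ⟨⟨⟨⟨fun p => b (H (p.1, a p.2)), by fun_prop⟩, fun x => by simp, fun x => by simp⟩,
    fun τ x => ?_⟩⟩
  have := H.prop τ (a x)
  show b (H (τ, a (s x))) = w (b (H (τ, a x)))
  rw [ha x, ← hb]
  exact congrArg b this

lemma Z2Equiv.symm (h : Z2Equiv s t) : Z2Equiv t s := by
  obtain ⟨f, g, h1, h2, h3, h4⟩ := h
  exact ⟨g, f, h2, h1, h4, h3⟩

lemma Z2Equiv.trans (h : Z2Equiv s t) (k : Z2Equiv t u) : Z2Equiv s u := by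
  obtain ⟨f, g, h1, h2, h3, h4⟩ := h
  obtain ⟨f', g', k1, k2, k3, k4⟩ := k
  exact ⟨f'.comp f, g.comp g', fun x => by simp [h1 x, k1 (f x)], fun x => by simp [k2 x, h2 (g' x)],
    (whisker k3 h1 h2).trans h3, (whisker h4 k2 k1).trans k4⟩

lemma z2_of_inv (f : C(X, Y)) (g : C(Y, X)) (h1 : Eqv s t f) (h2 : Eqv t s g)
    (h3 : ∀ x, g (f x) = x) (h4 : ∀ y, f (g y) = y) : Z2Equiv s t := by
  refine ⟨f, g, h1, h2, ?_, ?_⟩
  · rw [show g.comp f = ContinuousMap.id X from ContinuousMap.ext h3]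
    exact ContinuousMap.HomotopicWith.refl _ fun _ => rfl
  · rw [show f.comp g = ContinuousMap.id Y from ContinuousMap.ext h4]
    exact ContinuousMap.HomotopicWith.refl _ fun _ => rfl

end

variable {V : Type} [Fintype V]

/-- The polyhedral complex whose cells are the products of simplices on the pairs in `F`. -/
def Bx (F : Set V → Set V → Prop) : Set ((V → ℝ) × (V → ℝ)) :=
  {p | p.1 ∈ stdSimplex ℝ V ∧ p.2 ∈ stdSimplex ℝ V ∧ F {v | p.1 v ≠ 0} {v | p.2 v ≠ 0}}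

structure Good (F : Set V → Set V → Prop) : Prop where
  symm : ∀ A B, F A B → F B A
  mono : ∀ A B A' B', A' ⊆ A → B' ⊆ B → F A B → F A' B'

def sw {F : Set V → Set V → Prop} (h : Good F) (p : Bx F) : Bx F :=
  ⟨p.1.swap, p.2.2.1, p.2.1, h.symm _ _ p.2.2.2⟩

lemma line {X : Type} [TopologicalSpace X] {s : X → X} {F : Set V → Set V → Prop} (h : Good F)
    (f g : C(X, Bx F)) (hf : Eqv s (sw h) f) (hg : Eqv s (sw h) g)
    (hc : ∀ x, F ({v | (f x).1.1 v ≠ 0} ∪ {v | (g x).1.1 v ≠ 0})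
      ({v | (f x).1.2 v ≠ 0} ∪ {v | (g x).1.2 v ≠ 0})) : f.HomotopicWith g (Eqv s (sw h)) := by
  have mem : ∀ p : unitInterval × X,
      (1 - p.1.1) • (f p.2).1 + p.1.1 • (g p.2).1 ∈ Bx F := by
    rintro ⟨τ, x⟩
    have h0 := sub_nonneg.2 τ.2.2
    refine ⟨convex_stdSimplex ℝ V (f x).2.1 (g x).2.1 h0 τ.2.1 (by simp),
      convex_stdSimplex ℝ V (f x).2.2.1 (g x).2.2.1 h0 τ.2.1 (by simp),
      h.mono _ _ _ _ (fun v hv => ?_) (fun v hv => ?_) (hc x)⟩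
    all_goals
      by_contra h2
      simp only [mem_union, mem_ofPred_eq, not_or, not_not] at h2
      exact hv (by simp [h2.1, h2.2])
  refine ⟨⟨⟨⟨fun p => ⟨_, mem p⟩, by fun_prop⟩, fun x => Subtype.ext (by simp),
    fun x => Subtype.ext (by simp)⟩, fun τ x => Subtype.ext ?_⟩⟩
  show (1 - τ.1) • (f (s x)).1 + τ.1 • (g (s x)).1 =
    ((1 - τ.1) • (f x).1 + τ.1 • (g x).1).swap
  rw [hf x, hg x]
  rfl

lemma collapse {F F' : Set V → Set V → Prop} (h : Good F) (h' : Good F')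
    (hle : ∀ A B, F' A B → F A B) (r : (V → ℝ) × (V → ℝ) → V → ℝ) (hr : Continuous r)
    (h0 : ∀ p ∈ Bx F, ∀ v, 0 ≤ r p v) (hp : ∀ p ∈ Bx F, ∃ v, r p v ≠ 0)
    (h1 : ∀ p ∈ Bx F, F ({v | p.1 v ≠ 0} ∪ {v | r p v ≠ 0})
      ({v | p.2 v ≠ 0} ∪ {v | r p.swap v ≠ 0}))
    (h2 : ∀ p ∈ Bx F, F' {v | r p v ≠ 0} {v | r p.swap v ≠ 0})
    (h3 : ∀ p ∈ Bx F', F' ({v | p.1 v ≠ 0} ∪ {v | r p v ≠ 0})
      ({v | p.2 v ≠ 0} ∪ {v | r p.swap v ≠ 0})) : Z2Equiv (sw h) (sw h') := by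
  have pos : ∀ p ∈ Bx F, 0 < ∑ v, r p v := fun p hp' => by
    obtain ⟨v, hv⟩ := hp p hp'
    exact Finset.sum_pos' (fun v _ => h0 p hp' v)
      ⟨v, Finset.mem_univ _, lt_of_le_of_ne (h0 p hp' v) hv.symm⟩
  let n : (V → ℝ) × (V → ℝ) → V → ℝ := fun p v => r p v / ∑ u, r p u
  have n1 : ∀ p ∈ Bx F, n p ∈ stdSimplex ℝ V := fun p hp' =>
    ⟨fun v => div_nonneg (h0 p hp' v) (pos p hp').le, by
      simp only [n, ← Finset.sum_div]; exact div_self (pos p hp').ne'⟩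
  have n2 : ∀ p, {v | n p v ≠ 0} ⊆ {v | r p v ≠ 0} := fun p v hv h => hv (by simp [n, h])
  have n3 : Continuous fun p : Bx F => n p.1 := continuous_pi fun v =>
    Continuous.div (by fun_prop) (by fun_prop) fun p => (pos _ p.2).ne'
  have n4 : Continuous fun p : Bx F => n p.1.swap :=
    n3.comp (f := sw h) (Continuous.subtype_mk (by fun_prop) _)
  let f : C(Bx F, Bx F') := ⟨fun p => ⟨(n p.1, n p.1.swap), n1 _ p.2, n1 _ (sw h p).2,
    h'.mono _ _ _ _ (n2 _) (n2 _) (h2 _ p.2)⟩, (n3.prodMk n4).subtype_mk _⟩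
  let g : C(Bx F', Bx F) := ⟨fun p => ⟨p.1, p.2.1, p.2.2.1, hle _ _ p.2.2.2⟩, by fun_prop⟩
  refine ⟨f, g, fun _ => rfl, fun _ => rfl, line h _ _ (fun _ => rfl) (fun _ => rfl) fun p => ?_,
    line h' _ _ (fun _ => rfl) (fun _ => rfl) fun p => ?_⟩
  · refine h.mono _ _ _ _ ?_ ?_ (h1 _ p.2) <;> rw [union_comm] <;>
      exact union_subset_union_right _ (n2 _)
  · refine h'.mono _ _ _ _ ?_ ?_ (h3 _ p.2) <;> rw [union_comm] <;>
      exact union_subset_union_right _ (n2 _)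

lemma supp_ne {x : V → ℝ} (h : x ∈ stdSimplex ℝ V) : ∃ v, x v ≠ 0 := by
  by_contra h0
  push Not at h0
  have := h.2
  simp [h0] at this

end Pool.Agent.H43.Box
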