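import Pool.Agent.H43.Box1

set_option autoImplicit false

namespace Pool.Agent.H43.Box
open Set Sum

variable {H : Type}

abbrev VV (H : Type) := Fin 3 × (H ⊕ Fin 3)

def ad (R : H → H → Prop) : VV H → VV H → Prop
  | (b, inl h), (a, inl k) => b ≠ a ∧ R h k
  | (b, inl _), (a, inr l) => b ≠ a ∧ l = b
  | (b, inr l), (a, inl _) => b ≠ a ∧ l = a
  | (b, inr l), (a, inr m) => b ≠ a ∧ l = a ∧ m = b

lemma ad_symm {R : H → H → Prop} (hR : ∀ a b, R a b → R b a) {u v : VV H} (h : ad R u v) :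
    ad R v u := by
  obtain ⟨b, _ | _⟩ := u <;> obtain ⟨a, _ | _⟩ := v
  exacts [⟨h.1.symm, hR _ _ h.2⟩, ⟨h.1.symm, h.2⟩, ⟨h.1.symm, h.2⟩, ⟨h.1.symm, h.2.2, h.2.1⟩]

lemma ad_ne {R : H → H → Prop} {u v : VV H} (h : ad R u v) : u.1 ≠ v.1 := by
  obtain ⟨b, _ | _⟩ := u <;> obtain ⟨a, _ | _⟩ := v <;> exact h.1

def F0 (R : H → H → Prop) (A B : Set (VV H)) : Prop := ∀ u ∈ A, ∀ v ∈ B, ad R u v

def Pure (A : Set (VV H)) : Prop := ∀ b h, (b, inl h) ∈ A → ∀ v ∈ A, v.1 = b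

def F1 (R : H → H → Prop) (A B : Set (VV H)) : Prop := F0 R A B ∧ Pure A ∧ Pure B

lemma good0 {R : H → H → Prop} (hR : ∀ a b, R a b → R b a) : Good (F0 R) :=
  ⟨fun _ _ h u hu v hv => ad_symm hR (h v hv u hu),
    fun _ _ _ _ h1 h2 h u hu v hv => h u (h1 hu) v (h2 hv)⟩

lemma Pure.mono {A B : Set (VV H)} (h : Pure B) (e : A ⊆ B) : Pure A :=
  fun b k hb v hv => h b k (e hb) v (e hv)

lemma good1 {R : H → H → Prop} (hR : ∀ a b, R a b → R b a) : Good (F1 R) :=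
  ⟨fun _ _ h => ⟨(good0 hR).symm _ _ h.1, h.2.2, h.2.1⟩,
    fun _ _ _ _ h1 h2 h => ⟨(good0 hR).mono _ _ _ _ h1 h2 h.1, h.2.1.mono h1, h.2.2.mono h2⟩⟩

def New (A : Set (VV H)) : Set (VV H) :=
  {u | ∃ b a h c s, u = (b, inr a) ∧ a ≠ b ∧ c ≠ a ∧ c ≠ b ∧ (b, inl h) ∈ A ∧ (c, s) ∈ A}

lemma three : ∀ a b c e : Fin 3, a ≠ b → c ≠ a → c ≠ b → b ≠ e → c ≠ e → e = a := by decide

lemma new_forces {R : H → H → Prop} {A B : Set (VV H)} (h : F0 R A B) {b a : Fin 3}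
    (hu : (b, inr a) ∈ New A) : a ≠ b ∧ ∀ v ∈ B, ∃ k, v = (a, inl k) := by
  obtain ⟨b', a', k, c, s, e, h1, h2, h3, h4, h5⟩ := hu
  obtain ⟨rfl, e2⟩ := Prod.mk.inj e
  obtain rfl := inr.inj e2
  refine ⟨h1, ?_⟩
  rintro ⟨e, k' | l⟩ hv
  · exact ⟨k', by rw [three a b c e h1 h2 h3 (ad_ne (h _ h4 _ hv)) (ad_ne (h _ h5 _ hv))]⟩
  · have e1 := (h _ h4 _ hv).2
    have e2 := h _ h5 _ hv
    rcases s with s | s
    · exact absurd (e2.2.symm.trans e1) h3
    · exact absurd (e2.2.2.symm.trans e1) h3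

lemma f0_new {R : H → H → Prop} (hR : ∀ a b, R a b → R b a) {A B : Set (VV H)} (h : F0 R A B) :
    F0 R (A ∪ New A) (B ∪ New B) := by
  have k : ∀ {A B : Set (VV H)}, F0 R A B → ∀ u ∈ New A, ∀ v ∈ B, ad R u v := by
    intro A B h u hu v hv
    obtain ⟨b, a, rfl⟩ : ∃ b a, u = (b, inr a) := by
      obtain ⟨b, a, -, -, -, e, -⟩ := hu
      exact ⟨b, a, e⟩
    obtain ⟨h1, h2⟩ := new_forces h hu
    obtain ⟨k, rfl⟩ := h2 v hv
    exact ⟨h1.symm, rfl⟩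
  rintro u (hu | hu) v (hv | hv)
  · exact h u hu v hv
  · exact ad_symm hR (k ((good0 hR).symm _ _ h) v hv u hu)
  · exact k h u hu v hv
  · obtain ⟨b, a, rfl⟩ : ∃ b a, u = (b, inr a) := by
      obtain ⟨b, a, -, -, -, e, -⟩ := hu
      exact ⟨b, a, e⟩
    obtain ⟨-, h2⟩ := new_forces h hu
    obtain ⟨b', a', k, c, s, -, -, -, h3, h4, h5⟩ := hv
    obtain ⟨_, e1⟩ := h2 _ h4
    obtain ⟨_, e2⟩ := h2 _ h5
    exact absurd ((Prod.mk.inj e2).1.trans (Prod.mk.inj e1).1.symm) h3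

variable [Fintype H]

def out (x : VV H → ℝ) (b : Fin 3) : ℝ := ∑ h, x (b, inl h)
def col (x : VV H → ℝ) (b : Fin 3) : ℝ := ∑ s, x (b, s)

lemma out_ne {x : VV H → ℝ} {b : Fin 3} (h : out x b ≠ 0) : ∃ k, x (b, inl k) ≠ 0 := by
  obtain ⟨k, -, hk⟩ := Finset.exists_ne_zero_of_sum_ne_zero h
  exact ⟨k, hk⟩

lemma col_ne {x : VV H → ℝ} {b : Fin 3} (h : col x b ≠ 0) : ∃ s, x (b, s) ≠ 0 := by
  obtain ⟨k, -, hk⟩ := Finset.exists_ne_zero_of_sum_ne_zero h
  exact ⟨k, hk⟩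

lemma out_nonneg {x : VV H → ℝ} (h : x ∈ stdSimplex ℝ (VV H)) (b : Fin 3) : 0 ≤ out x b :=
  Finset.sum_nonneg fun _ _ => h.1 _

lemma col_nonneg {x : VV H → ℝ} (h : x ∈ stdSimplex ℝ (VV H)) (b : Fin 3) : 0 ≤ col x b :=
  Finset.sum_nonneg fun _ _ => h.1 _

lemma out_pos {x : VV H → ℝ} (h : x ∈ stdSimplex ℝ (VV H)) {b : Fin 3} {k : H}
    (hk : x (b, inl k) ≠ 0) : 0 < out x b :=
  Finset.sum_pos' (fun _ _ => h.1 _) ⟨k, Finset.mem_univ _, lt_of_le_of_ne (h.1 _) hk.symm⟩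

lemma col_sum {x : VV H → ℝ} (h : x ∈ stdSimplex ℝ (VV H)) : ∑ b, col x b = 1 := by
  rw [← h.2, Fintype.sum_prod_type]
  rfl

lemma col_three {x : VV H → ℝ} (h : x ∈ stdSimplex ℝ (VV H)) {a b : Fin 3} (hab : a ≠ b) :
    ∃ c, c ≠ a ∧ c ≠ b ∧ col x a + col x b + col x c = 1 := by
  have := col_sum h
  rw [Fin.sum_univ_three] at this
  fin_cases a <;> fin_cases b <;> first
    | exact absurd rfl hab
    | exact ⟨0, by decide, by decide, by simp only [Fin.mk_one, Fin.reduceFinMk]; linarith⟩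
    | exact ⟨1, by decide, by decide, by simp only [Fin.zero_eta, Fin.reduceFinMk]; linarith⟩
    | exact ⟨2, by decide, by decide, by simp only [Fin.zero_eta, Fin.mk_one]; linarith⟩

noncomputable def r1 (x : VV H → ℝ) : VV H → ℝ
  | (b, inl h) => x (b, inl h) * max (3 * col x b - 2) 0
  | (b, inr a) => max (3 * col x b - 1) 0 *
      (x (b, inr a) + if a = b then 0 else out x b * (1 - col x a - col x b))

lemma r1_supp {x : VV H → ℝ} (h : x ∈ stdSimplex ℝ (VV H)) :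
    {v | r1 x v ≠ 0} ⊆ {v | x v ≠ 0} ∪ New {v | x v ≠ 0} := by
  rintro ⟨b, k | a⟩ hv
  · exact Or.inl (left_ne_zero_of_mul hv)
  · have h1 := right_ne_zero_of_mul hv
    by_cases h2 : x (b, inr a) = 0
    · rw [h2, zero_add] at h1
      have hab : a ≠ b := fun e => h1 (if_pos e)
      rw [if_neg hab] at h1
      obtain ⟨c, h3, h4, h5⟩ := col_three h hab
      obtain ⟨k, hk⟩ := out_ne (left_ne_zero_of_mul h1)
      obtain ⟨s, hs⟩ := col_ne (x := x) (b := c) fun e => right_ne_zero_of_mul h1 (by linarith)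
      exact Or.inr ⟨b, a, k, c, s, rfl, hab, h3, h4, hk, hs⟩
    · exact Or.inl h2

lemma max_ne {t : ℝ} (h : max t 0 ≠ 0) : 0 < t := by
  by_contra h2
  exact h (max_eq_right (not_lt.1 h2))

lemma r1_pure {x : VV H → ℝ} (h : x ∈ stdSimplex ℝ (VV H)) : Pure {v | r1 x v ≠ 0} := by
  rintro b k hb ⟨c, s⟩ hv
  have h1 := max_ne (right_ne_zero_of_mul hb)
  have h2 : 0 < 3 * col x c - 1 := by
    rcases s with s | s
    · have := max_ne (right_ne_zero_of_mul hv)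
      linarith
    · exact max_ne (left_ne_zero_of_mul hv)
  by_contra e
  obtain ⟨d, -, -, h5⟩ := col_three h e
  have := col_nonneg h d
  simp only at h5
  linarith

lemma step1 {R : H → H → Prop} (hR : ∀ a b, R a b → R b a) :
    Z2Equiv (sw (good0 hR)) (sw (good1 hR)) := by
  have sub : ∀ {x : VV H → ℝ}, x ∈ stdSimplex ℝ (VV H) →
      {v | x v ≠ 0} ∪ {v | r1 x v ≠ 0} ⊆ {v | x v ≠ 0} ∪ New {v | x v ≠ 0} :=
    fun h => union_subset subset_union_left (r1_supp h)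
  have sub2 : ∀ {x : VV H → ℝ}, x ∈ stdSimplex ℝ (VV H) → Pure {v | x v ≠ 0} →
      {v | x v ≠ 0} ∪ {v | r1 x v ≠ 0} ⊆ {v | x v ≠ 0} := by
    intro x h hp v hv
    rcases sub h hv with e | ⟨b, a, k, c, s, -, -, -, h3, h4, h5⟩
    · exact e
    · exact absurd (hp b k h4 _ h5) h3
  refine collapse _ _ (fun _ _ h => h.1) (fun p => r1 p.1) ?_ ?_ ?_
    (fun p hp => (good0 hR).mono _ _ _ _ (sub hp.1) (sub hp.2.1) (f0_new hR hp.2.2))
    (fun p hp => ⟨(good0 hR).mono _ _ _ _ (r1_supp hp.1) (r1_supp hp.2.1) (f0_new hR hp.2.2),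
      r1_pure hp.1, r1_pure hp.2.1⟩)
    (fun p hp => (good1 hR).mono _ _ _ _ (sub2 hp.1 hp.2.2.2.1) (sub2 hp.2.1 hp.2.2.2.2) hp.2.2)
  · refine continuous_pi ?_
    rintro ⟨b, k | a⟩
    · simp only [r1, col]; fun_prop
    · simp only [r1, col, out]; split_ifs <;> fun_prop
  · rintro p hp ⟨b, k | a⟩
    · exact mul_nonneg (hp.1.1 _) (le_max_right _ _)
    · refine mul_nonneg (le_max_right _ _) (add_nonneg (hp.1.1 _) ?_)
      split_ifs with e
      · exact le_rfl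
      · obtain ⟨c, -, -, h5⟩ := col_three hp.1 e
        have := col_nonneg hp.1 c
        exact mul_nonneg (out_nonneg hp.1 b) (by linarith)
  · rintro ⟨x, y⟩ ⟨hx, hy, hF⟩
    obtain ⟨⟨a, s0⟩, hv⟩ := supp_ne hy
    have ha : col x a = 0 := by
      by_contra e
      obtain ⟨s, hs⟩ := col_ne e
      exact ad_ne (hF _ hs _ hv) rfl
    obtain ⟨b, hb⟩ : ∃ b, 1 / 2 ≤ col x b := by
      by_contra e
      push Not at e
      have := col_sum hx
      rw [Fin.sum_univ_three] at this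
      have h0 := e 0
      have h1 := e 1
      have h2 := e 2
      fin_cases a <;> simp only [Fin.zero_eta, Fin.mk_one, Fin.reduceFinMk] at ha <;> linarith
    have hab : a ≠ b := by rintro rfl; linarith
    have hm : max (3 * col x b - 1) 0 ≠ 0 := (lt_max_of_lt_left (by linarith)).ne'
    have nn : ∀ l, 0 ≤ if l = b then 0 else out x b * (1 - col x l - col x b) := by
      intro l
      split_ifs with e
      · exact le_rfl
      · obtain ⟨c, -, -, h5⟩ := col_three hx e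
        have := col_nonneg hx c
        exact mul_nonneg (out_nonneg hx b) (by linarith)
    by_cases h1 : ∃ l, x (b, inr l) ≠ 0
    · obtain ⟨l, hl⟩ := h1
      exact ⟨(b, inr l), mul_ne_zero hm
        (add_pos_of_pos_of_nonneg (lt_of_le_of_ne (hx.1 _) hl.symm) (nn l)).ne'⟩
    push Not at h1
    have h2 : out x b = col x b := by simp [out, col, h1]
    by_cases h3 : 2 / 3 < col x b
    · obtain ⟨k, hk⟩ := out_ne (x := x) (b := b) (by rw [h2]; linarith)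
      exact ⟨(b, inl k), mul_ne_zero hk (lt_max_of_lt_left (by linarith)).ne'⟩
    · refine ⟨(b, inr a), mul_ne_zero hm ?_⟩
      simp only [h1, zero_add, if_neg hab, h2, ha]
      exact mul_ne_zero (by linarith) (by linarith)

def New2 (A B : Set (VV H)) : Set (VV H) :=
  {u | ∃ b a h k, u = (b, inr a) ∧ (b, inl h) ∈ A ∧ (a, inl k) ∈ B}

omit [Fintype H] in
lemma f1_new {R : H → H → Prop} (hR : ∀ a b, R a b → R b a) {A B : Set (VV H)} (h : F1 R A B) :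
    F1 R (A ∪ New2 A B) (B ∪ New2 B A) := by
  have k : ∀ {A B : Set (VV H)}, F1 R A B → ∀ u ∈ New2 A B, ∀ v ∈ B ∪ New2 B A, ad R u v := by
    rintro A B h _ ⟨b, a, i, k, rfl, h1, h2⟩ v hv
    have hab : b ≠ a := ad_ne (h.1 _ h1 _ h2)
    rcases hv with hv | ⟨a', b', i', k', rfl, h3, h4⟩
    · obtain ⟨c, s⟩ := v
      obtain rfl : c = a := h.2.2 a k h2 _ hv
      rcases s with s | s
      · exact ⟨hab, rfl⟩
      · exact ⟨hab, rfl, (h.1 _ h1 _ hv).2⟩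
    · obtain rfl : a' = a := h.2.2 a k h2 _ h3
      exact ⟨hab, rfl, h.2.1 b i h1 _ h4⟩
  have p : ∀ {A B : Set (VV H)}, Pure A → Pure (A ∪ New2 A B) := by
    rintro A B h b i (hb | ⟨_, _, _, _, e, -⟩) v hv
    · rcases hv with hv | ⟨b', a', i', k', rfl, h3, -⟩
      exacts [h b i hb v hv, h b i hb (b', inl i') h3]
    · simp at e
  refine ⟨?_, p h.2.1, p h.2.2⟩
  rintro u (hu | hu) v hv
  · rcases hv with hv | hv
    · exact h.1 u hu v hv
    · exact ad_symm hR (k ((good1 hR).symm _ _ h) v hv u (Or.inl hu))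
  · exact k h u hu v hv

noncomputable def r2 (p : (VV H → ℝ) × (VV H → ℝ)) : VV H → ℝ
  | (b, inl h) => p.1 (b, inl h) * max (∑ c, out p.1 c - ∑ c, out p.2 c) 0
  | (b, inr a) => p.1 (b, inr a) + out p.1 b * out p.2 a

lemma r2_supp (p : (VV H → ℝ) × (VV H → ℝ)) :
    {v | r2 p v ≠ 0} ⊆ {v | p.1 v ≠ 0} ∪ New2 {v | p.1 v ≠ 0} {v | p.2 v ≠ 0} := by
  rintro ⟨b, k | a⟩ hv
  · exact Or.inl (left_ne_zero_of_mul hv)
  · by_cases h2 : p.1 (b, inr a) = 0
    · have h1 : out p.1 b * out p.2 a ≠ 0 := by simpa [r2, h2] using hv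
      obtain ⟨i, hi⟩ := out_ne (left_ne_zero_of_mul h1)
      obtain ⟨k, hk⟩ := out_ne (right_ne_zero_of_mul h1)
      exact Or.inr ⟨b, a, i, k, rfl, hi, hk⟩
    · exact Or.inl h2

lemma step2 {R : H → H → Prop} (hR : ∀ a b, R a b → R b a) :
    Z2Equiv (sw (good1 hR)) (sw (good1 (R := fun _ _ : H => False) fun _ _ h => h)) := by
  have sub : ∀ p : (VV H → ℝ) × (VV H → ℝ), {v | p.1 v ≠ 0} ∪ {v | r2 p v ≠ 0} ⊆
      {v | p.1 v ≠ 0} ∪ New2 {v | p.1 v ≠ 0} {v | p.2 v ≠ 0} :=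
    fun p => union_subset subset_union_left (r2_supp p)
  refine collapse _ _ (fun A B h => ⟨fun u hu v hv => ?_, h.2⟩) r2 ?_ ?_ ?_
    (fun p hp => (good1 hR).mono _ _ _ _ (sub p) (sub p.swap) (f1_new hR hp.2.2)) (fun p hp => ?_)
    (fun p hp => (good1 fun _ _ h => h).mono _ _ _ _ (sub p) (sub p.swap)
      (f1_new (fun _ _ h => h) hp.2.2))
  · have := h.1 u hu v hv
    obtain ⟨b, _ | _⟩ := u <;> obtain ⟨a, _ | _⟩ := v
    exacts [this.2.elim, this, this, this]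
  · refine continuous_pi ?_
    rintro ⟨b, k | a⟩ <;> simp only [r2, out] <;> fun_prop
  · rintro p hp ⟨b, k | a⟩
    · exact mul_nonneg (hp.1.1 _) (le_max_right _ _)
    · exact add_nonneg (hp.1.1 _) (mul_nonneg (out_nonneg hp.1 _) (out_nonneg hp.2.1 _))
  · rintro ⟨x, y⟩ ⟨hx, hy, hF⟩
    obtain ⟨⟨b, k | a⟩, hv⟩ := supp_ne hx
    · by_cases h1 : ∃ a, out y a ≠ 0
      · obtain ⟨a, ha⟩ := h1
        exact ⟨(b, inr a), (add_pos_of_nonneg_of_pos (hx.1 _) (mul_pos (out_pos hx hv)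
          (lt_of_le_of_ne (out_nonneg hy a) ha.symm))).ne'⟩
      · push Not at h1
        refine ⟨(b, inl k), mul_ne_zero hv (lt_max_of_lt_left ?_).ne'⟩
        simp only [h1, Finset.sum_const_zero, sub_zero]
        exact Finset.sum_pos' (fun c _ => out_nonneg hx c) ⟨b, Finset.mem_univ _, out_pos hx hv⟩
    · exact ⟨(b, inr a), (add_pos_of_pos_of_nonneg (lt_of_le_of_ne (hx.1 _) hv.symm)
        (mul_nonneg (out_nonneg hx _) (out_nonneg hy _))).ne'⟩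
  · have := (good1 hR).mono _ _ _ _ (r2_supp p) (r2_supp p.swap) (f1_new hR hp.2.2)
    refine ⟨fun u hu v hv => ?_, this.2⟩
    have h1 := this.1 u hu v hv
    obtain ⟨b, _ | _⟩ := u <;> obtain ⟨a, _ | _⟩ := v
    · have h2 := max_ne (right_ne_zero_of_mul hu)
      have h3 := max_ne (right_ne_zero_of_mul hv)
      simp only [Prod.fst_swap, Prod.snd_swap] at h3
      linarith
    exacts [h1, h1, h1]

end Pool.Agent.H43.Box
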