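import Pool.Agent.H43.Box2

set_option autoImplicit false

namespace Pool.Agent.H43.Box
open Set Sum

variable {H : Type}

def F4 (h0 : H) (A B : Set (VV H)) : Prop :=
  F0 (fun _ _ => True) A B ∧ (∀ v ∈ A, v.2 = inl h0) ∧ ∀ v ∈ B, v.2 = inl h0

lemma good4 (h0 : H) : Good (F4 h0) :=
  ⟨fun _ _ h => ⟨(good0 fun _ _ h => h).symm _ _ h.1, h.2.2, h.2.1⟩,
    fun _ _ _ _ h1 h2 h => ⟨(good0 fun _ _ h => h).mono _ _ _ _ h1 h2 h.1,
      fun v hv => h.2.1 v (h1 hv), fun v hv => h.2.2 v (h2 hv)⟩⟩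

def New3 (h0 : H) (A : Set (VV H)) : Set (VV H) := {u | ∃ b s, u = (b, inl h0) ∧ (b, s) ∈ A}

lemma f0_new3 (h0 : H) {A B : Set (VV H)} (h : F0 (fun _ _ => True) A B) :
    F0 (fun _ _ => True) (A ∪ New3 h0 A) B := by
  rintro u (hu | ⟨b, s, rfl, hu⟩) v hv
  · exact h u hu v hv
  · have := h _ hu v hv
    obtain ⟨a, k | l⟩ := v
    · exact ⟨ad_ne this, trivial⟩
    · rcases s with s | s
      exacts [this, ⟨this.1, this.2.2⟩]

variable [Fintype H] [DecidableEq H]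

noncomputable def r5 (h0 : H) (x : VV H → ℝ) : VV H → ℝ
  | (b, inl h) => if h = h0 then col x b else 0
  | (_, inr _) => 0

lemma r5_supp (h0 : H) (x : VV H → ℝ) : {v | r5 h0 x v ≠ 0} ⊆ New3 h0 {v | x v ≠ 0} := by
  rintro ⟨b, k | a⟩ hv
  · obtain rfl : k = h0 := by_contra fun e => hv (if_neg e)
    obtain ⟨s, hs⟩ := col_ne (x := x) (b := b) (by simpa [r5] using hv)
    exact ⟨b, s, rfl, hs⟩
  · exact absurd rfl hv

lemma step5 (h0 : H) :
    Z2Equiv (sw (good0 (R := fun _ _ : H => True) fun _ _ h => h)) (sw (good4 h0)) := by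
  have g := good0 (R := fun _ _ : H => True) fun _ _ h => h
  have k : ∀ p ∈ Bx (F0 fun _ _ : H => True), F0 (fun _ _ => True)
      ({v | p.1 v ≠ 0} ∪ {v | r5 h0 p.1 v ≠ 0}) ({v | p.2 v ≠ 0} ∪ {v | r5 h0 p.2 v ≠ 0}) :=
    fun p hp => g.mono _ _ _ _ (union_subset_union_right _ (r5_supp h0 _))
      (union_subset_union_right _ (r5_supp h0 _))
      (f0_new3 h0 (g.symm _ _ (f0_new3 h0 (g.symm _ _ hp.2.2))))
  have k2 : ∀ x : VV H → ℝ, ∀ v ∈ {v | r5 h0 x v ≠ 0}, v.2 = inl h0 := fun x v hv => by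
    obtain ⟨b, s, rfl, -⟩ := r5_supp h0 x hv
    rfl
  refine collapse _ _ (fun _ _ h => h.1) (fun p => r5 h0 p.1) ?_ ?_ ?_ k
    (fun p hp => ⟨g.mono _ _ _ _ subset_union_right subset_union_right (k p hp), k2 _, k2 _⟩)
    (fun p hp => ⟨k p ⟨hp.1, hp.2.1, hp.2.2.1⟩, ?_, ?_⟩)
  · refine continuous_pi ?_
    rintro ⟨b, k | a⟩
    · simp only [r5, col]; split_ifs <;> fun_prop
    · simp only [r5]; fun_prop
  · rintro p hp ⟨b, k | a⟩
    · simp only [r5]
      split_ifs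
      exacts [col_nonneg hp.1 b, le_rfl]
    · exact le_rfl
  · intro p hp
    obtain ⟨b, -, hb⟩ := Finset.exists_ne_zero_of_sum_ne_zero
      (show ∑ b, col p.1 b ≠ 0 by rw [col_sum hp.1]; exact one_ne_zero)
    exact ⟨(b, inl h0), by simpa [r5] using hb⟩
  · rintro v (hv | hv)
    exacts [hp.2.2.2.1 v hv, k2 _ v hv]
  · rintro v (hv | hv)
    exacts [hp.2.2.2.2 v hv, k2 _ v hv]

def vv (u : ℂ) : Fin 3 → ℝ := ![u.re, u.im, -u.re - u.im]
noncomputable def tot (u : ℂ) : ℝ := ∑ c, max (vv u c) 0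

lemma vv_neg (u : ℂ) (c : Fin 3) : vv (-u) c = - vv u c := by
  fin_cases c <;> simp [vv]
  ring

lemma tot_pos {u : ℂ} (h : u ≠ 0) : 0 < tot u := by
  by_contra h0
  have h1 : ∀ c, max (vv u c) 0 = 0 := fun c => (Finset.sum_eq_zero_iff_of_nonneg
    (fun c _ => le_max_right (vv u c) 0)).1 (le_antisymm (not_lt.1 h0)
      (Finset.sum_nonneg fun c _ => le_max_right _ _)) c (Finset.mem_univ _)
  have h2 : ∀ c, vv u c ≤ 0 := fun c => (le_max_left _ _).trans (h1 c).le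
  have a0 : u.re ≤ 0 := h2 0
  have a1 : u.im ≤ 0 := h2 1
  have a2 : -u.re - u.im ≤ 0 := h2 2
  exact h (Complex.ext (by simp; linarith) (by simp; linarith))

lemma tot_neg (u : ℂ) : tot (-u) = tot u := by
  have : ∀ t : ℝ, max (-t) 0 = max t 0 - t := fun t => by
    rcases le_total t 0 with h | h
    · rw [max_eq_left (by linarith), max_eq_right h]; ring
    · rw [max_eq_right (by linarith), max_eq_left h]; ring
  simp only [tot, vv_neg, this, Finset.sum_sub_distrib]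
  simp [Fin.sum_univ_three, vv]

noncomputable def ps (h0 : H) (u : ℂ) : VV H → ℝ
  | (b, inl h) => if h = h0 then max (vv u b) 0 / tot u else 0
  | (_, inr _) => 0

lemma ps_mem (h0 : H) {u : ℂ} (h : u ≠ 0) : ps h0 u ∈ stdSimplex ℝ (VV H) := by
  refine ⟨?_, ?_⟩
  · rintro ⟨b, k | a⟩
    · simp only [ps]
      split_ifs
      exacts [div_nonneg (le_max_right _ _) (tot_pos h).le, le_rfl]
    · exact le_rfl
  · simp only [Fintype.sum_prod_type, Fintype.sum_sum_type, ps, Finset.sum_ite_eq',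
      Finset.mem_univ, if_true, Finset.sum_const_zero, add_zero, ← Finset.sum_div]
    exact div_self (tot_pos h).ne'

omit [Fintype H] in
lemma ps_supp (h0 : H) (u : ℂ) (v : VV H) (hv : ps h0 u v ≠ 0) : v.2 = inl h0 ∧ 0 < vv u v.1 := by
  obtain ⟨b, k | a⟩ := v
  · obtain rfl : k = h0 := by_contra fun e => hv (if_neg e)
    refine ⟨rfl, max_ne fun e => hv ?_⟩
    simp only at e
    simp [ps, e]
  · exact absurd rfl hv

lemma sph_ne (u : Metric.sphere (0 : ℂ) 1) : (u : ℂ) ≠ 0 := ne_zero_of_mem_unit_sphere u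

noncomputable def gC (h0 : H) : C(Metric.sphere (0 : ℂ) 1, Bx (F4 h0)) where
  toFun u := ⟨(ps h0 u, ps h0 (-u)), ps_mem h0 (sph_ne u), ps_mem h0 (neg_ne_zero.2 (sph_ne u)),
    by
      rintro ⟨b, s⟩ hu ⟨a, t⟩ hv
      obtain ⟨rfl, h1⟩ := ps_supp h0 _ _ hu
      obtain ⟨rfl, h2⟩ := ps_supp h0 _ _ hv
      refine ⟨?_, trivial⟩
      rintro rfl
      rw [vv_neg] at h2
      simp only at h1 h2
      linarith,
    fun v hv => (ps_supp h0 _ v hv).1, fun v hv => (ps_supp h0 _ v hv).1⟩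
  continuous_toFun := by
    have hv : ∀ c, Continuous fun u : ℂ => vv u c := fun c => by
      fin_cases c <;> simp only [vv] <;> simp <;> fun_prop
    have : ∀ e : Metric.sphere (0 : ℂ) 1 → ℂ, Continuous e → (∀ u, e u ≠ 0) →
        Continuous fun u => ps h0 (e u) := by
      intro e he h
      refine continuous_pi ?_
      rintro ⟨b, k | a⟩
      · simp only [ps]
        split_ifs
        · exact (((hv b).comp he).max continuous_const).div (continuous_finsetSum _ fun c _ =>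
            ((hv c).comp he).max continuous_const) fun u => (tot_pos (h u)).ne'
        · exact continuous_const
      · exact continuous_const
    exact ((this _ continuous_subtype_val sph_ne).prodMk (this _ continuous_subtype_val.neg
      fun u => neg_ne_zero.2 (sph_ne u))).subtype_mk _

def zz (h0 : H) (p : (VV H → ℝ) × (VV H → ℝ)) : ℂ :=
  ⟨p.1 (0, inl h0) - p.2 (0, inl h0), p.1 (1, inl h0) - p.2 (1, inl h0)⟩

lemma sum_h0 {h0 : H} {x : VV H → ℝ} (hx : x ∈ stdSimplex ℝ (VV H))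
    (h : ∀ v ∈ {v | x v ≠ 0}, v.2 = inl h0) : ∑ c, x (c, inl h0) = 1 := by
  rw [← hx.2, Fintype.sum_prod_type]
  refine Finset.sum_congr rfl fun c _ => (Finset.sum_eq_single (f := fun y => x (c, y)) (inl h0)
    (fun s _ hs => ?_)
    (fun h => absurd (Finset.mem_univ _) h)).symm
  exact by_contra fun e => hs (h (c, s) e)

lemma vv_zz {h0 : H} {p : (VV H → ℝ) × (VV H → ℝ)} (hp : p ∈ Bx (F4 h0)) (c : Fin 3) :
    vv (zz h0 p) c = p.1 (c, inl h0) - p.2 (c, inl h0) := by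
  have h1 := sum_h0 hp.1 hp.2.2.2.1
  have h2 := sum_h0 hp.2.1 hp.2.2.2.2
  rw [Fin.sum_univ_three] at h1 h2
  fin_cases c
  · rfl
  · rfl
  · show -(p.1 (0, inl h0) - p.2 (0, inl h0)) - (p.1 (1, inl h0) - p.2 (1, inl h0)) =
      p.1 (2, inl h0) - p.2 (2, inl h0)
    linarith

lemma max_zz {h0 : H} {p : (VV H → ℝ) × (VV H → ℝ)} (hp : p ∈ Bx (F4 h0)) (c : Fin 3) :
    max (vv (zz h0 p) c) 0 = p.1 (c, inl h0) := by
  rw [vv_zz hp]
  by_cases h : p.1 (c, inl h0) = 0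
  · rw [h, max_eq_right (by simpa using hp.2.1.1 _)]
  · have : p.2 (c, inl h0) = 0 := by_contra fun e => ad_ne (hp.2.2.1 _ h _ e) rfl
    rw [this, sub_zero, max_eq_left (hp.1.1 _)]

lemma tot_zz {h0 : H} {p : (VV H → ℝ) × (VV H → ℝ)} (hp : p ∈ Bx (F4 h0)) : tot (zz h0 p) = 1 := by
  simp only [tot, max_zz hp, sum_h0 hp.1 hp.2.2.2.1]

lemma zz_ne {h0 : H} {p : (VV H → ℝ) × (VV H → ℝ)} (hp : p ∈ Bx (F4 h0)) : zz h0 p ≠ 0 := by
  intro h
  have := tot_zz hp
  rw [h] at this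
  simp [tot, vv, Fin.sum_univ_three] at this

omit [Fintype H] in
lemma ps_smul (h0 : H) {t : ℝ} (ht : 0 < t) (u : ℂ) : ps h0 (t • u) = ps h0 u := by
  have h1 : ∀ c, max (vv (t • u) c) 0 = t * max (vv u c) 0 := fun c => by
    rw [mul_max_of_nonneg _ _ ht.le, mul_zero]
    congr 1
    fin_cases c <;> simp [vv]
    ring
  ext ⟨b, k | a⟩
  · simp only [ps, tot, h1, ← Finset.mul_sum, mul_div_mul_left _ _ ht.ne']
  · rfl

lemma ps_zz {h0 : H} {p : (VV H → ℝ) × (VV H → ℝ)} (hp : p ∈ Bx (F4 h0)) :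
    ps h0 (zz h0 p) = p.1 := by
  ext ⟨b, k | a⟩
  · simp only [ps, tot_zz hp, max_zz hp, div_one]
    split_ifs with e
    · rw [e]
    · exact (by_contra fun e2 => e (inl.inj (hp.2.2.2.1 _ (Ne.symm e2))))
  · exact (by_contra fun e2 => by simpa using hp.2.2.2.1 _ (Ne.symm e2))

omit [Fintype H] [DecidableEq H] in
lemma zz_swap (h0 : H) (p : (VV H → ℝ) × (VV H → ℝ)) : zz h0 p.swap = - zz h0 p :=
  Complex.ext (by simp [zz]) (by simp [zz])

noncomputable def fC (h0 : H) : C(Bx (F4 h0), Metric.sphere (0 : ℂ) 1) where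
  toFun p := ⟨‖zz h0 p‖⁻¹ • zz h0 p, by
    simp [norm_smul, zz_ne p.2]⟩
  continuous_toFun := by
    have : Continuous fun p : Bx (F4 h0) => zz h0 p := by
      have e : (fun p : Bx (F4 h0) => zz h0 p) = fun p => ((p.1.1 (0, inl h0) - p.1.2 (0, inl h0) : ℝ) : ℂ) +
          ((p.1.1 (1, inl h0) - p.1.2 (1, inl h0) : ℝ) : ℂ) * Complex.I := by
        ext p
        exact Complex.mk_eq_add_mul_I _ _
      rw [e]
      fun_prop
    exact ((this.norm.inv₀ fun p => norm_ne_zero_iff.2 (zz_ne p.2)).smul this).subtype_mk _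

lemma step6 (h0 : H) : Z2Equiv (sw (good4 h0)) (fun u : Metric.sphere (0 : ℂ) 1 => -u) := by
  refine z2_of_inv (fC h0) (gC h0) (fun p => Subtype.ext ?_) (fun u => Subtype.ext ?_)
    (fun p => Subtype.ext ?_) fun u => Subtype.ext ?_
  · show ‖zz h0 p.1.swap‖⁻¹ • zz h0 p.1.swap = -(‖zz h0 p‖⁻¹ • zz h0 p)
    rw [zz_swap, norm_neg, smul_neg]
  · show (ps h0 (-u), ps h0 (- -u)) = (ps h0 (-u), ps h0 u)
    rw [neg_neg]
  · have hp : 0 < ‖zz h0 p‖⁻¹ := inv_pos.2 (norm_pos_iff.2 (zz_ne p.2))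
    show (ps h0 (‖zz h0 p‖⁻¹ • zz h0 p), ps h0 (-(‖zz h0 p‖⁻¹ • zz h0 p))) = p.1
    rw [← smul_neg, ps_smul h0 hp, ps_smul h0 hp, ← zz_swap, ps_zz p.2,
      ps_zz (p := p.1.swap) (sw (good4 h0) p).2]
    rfl
  · have ht := tot_pos (sph_ne u)
    have e : zz h0 (ps h0 u, ps h0 (-u)) = (tot u)⁻¹ • (u : ℂ) := by
      have : ∀ t : ℝ, max t 0 / tot u - max (-t) 0 / tot u = (tot u)⁻¹ * t := fun t => by
        rcases le_total t 0 with h | h
        · rw [max_eq_right h, max_eq_left (by linarith)]; ring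
        · rw [max_eq_left h, max_eq_right (by linarith)]; ring
      refine Complex.ext ?_ ?_ <;> simp only [zz, ps, if_true, vv_neg, tot_neg, this] <;> simp [vv]
    show ‖zz h0 (ps h0 u, ps h0 (-u))‖⁻¹ • zz h0 (ps h0 u, ps h0 (-u)) = u
    rw [e, norm_smul, norm_eq_of_mem_sphere u, mul_one, Real.norm_of_nonneg (inv_pos.2 ht).le,
      inv_inv, smul_smul, mul_inv_cancel₀ ht.ne', one_smul]

theorem circle {R : H → H → Prop} (hR : ∀ a b, R a b → R b a) (h0 : H) :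
    Z2Equiv (sw (good0 hR)) (fun u : Metric.sphere (0 : ℂ) 1 => -u) :=
  ((((step1 hR).trans (step2 hR)).trans (step2 fun _ _ h => h).symm).trans
    (step1 fun _ _ h => h).symm).trans ((step5 h0).trans (step6 h0))

end Pool.Agent.H43.Box
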