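import Mathlib

namespace Pool.Agent.H43.Bsv

open Set MeasureTheory Filter Topology Function
open scoped ENNReal ContDiff

lemma prim_smooth {ψ : ℝ → ℝ} (h : ContDiff ℝ ∞ ψ) :
    ContDiff ℝ ∞ (fun x => ∫ s in (0:ℝ)..x, ψ s) ∧
      ∀ x, HasDerivAt (fun x => ∫ s in (0:ℝ)..x, ψ s) (ψ x) x := by
  have hd : ∀ x, HasDerivAt (fun x => ∫ s in (0:ℝ)..x, ψ s) (ψ x) x := fun x =>
    (h.continuous.integral_hasStrictDerivAt 0 x).hasDerivAt
  refine ⟨contDiff_infty_iff_deriv.2 ⟨fun x => (hd x).differentiableAt, ?_⟩, hd⟩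
  have : deriv (fun x => ∫ s in (0:ℝ)..x, ψ s) = ψ := funext fun x => (hd x).deriv
  rw [this]; exact h

lemma shear {g : ℝ → ℝ} (hg : Integrable g) (t : ℝ) :
    Integrable (fun p : ℝ × ℝ => g (p.1 + p.2)) ((volume.restrict (uIoc 0 t)).prod volume) := by
  haveI : IsFiniteMeasure (volume.restrict (uIoc (0:ℝ) t)) :=
    isFiniteMeasure_restrict.2 (by rw [Real.volume_uIoc]; exact ENNReal.ofReal_ne_top)
  have h := hg.comp_snd (volume.restrict (uIoc (0:ℝ) t))
  exact (measurePreserving_prod_add (volume.restrict (uIoc (0:ℝ) t)) volume).integrable_comp_of_integrable h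

lemma ae_diff {η g : ℝ → ℝ} (hη : Integrable η) (hg : Integrable g)
    (hw : ∀ φ : ℝ → ℝ, ContDiff ℝ ∞ φ → HasCompactSupport φ →
      ∫ x, η x * deriv φ x = -∫ x, g x * φ x) (t : ℝ) :
    ∀ᵐ z, η (z + t) - η z = ∫ s in (0:ℝ)..t, g (s + z) := by
  haveI : IsFiniteMeasure (volume.restrict (uIoc (0:ℝ) t)) :=
    isFiniteMeasure_restrict.2 (by rw [Real.volume_uIoc]; exact ENNReal.ofReal_ne_top)
  have hG : Continuous fun z => ∫ s in (0:ℝ)..t, g (s + z) := by
    have hc : Continuous fun z => ∫ s in (0:ℝ)..z, g s :=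
      intervalIntegral.continuous_primitive (fun _ _ => hg.intervalIntegrable) 0
    have : (fun z => ∫ s in (0:ℝ)..t, g (s + z)) =
        fun z => (∫ s in (0:ℝ)..(t + z), g s) - ∫ s in (0:ℝ)..z, g s := by
      funext z
      rw [intervalIntegral.integral_comp_add_right, zero_add,
        intervalIntegral.integral_interval_sub_left hg.intervalIntegrable hg.intervalIntegrable]
    rw [this]
    exact (hc.comp (continuous_const.add continuous_id)).sub hc
  refine ae_eq_of_integral_contDiff_smul_eq ((hη.comp_add_right t).sub hη).locallyIntegrable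
    hG.locallyIntegrable fun ψ hψ hs => ?_
  obtain ⟨hP, hD⟩ := prim_smooth hψ
  obtain ⟨C, hC⟩ := hψ.continuous.bounded_above_of_compact_support hs
  set P : ℝ → ℝ := fun x => ∫ s in (0:ℝ)..x, ψ s with hPdef
  have hφe : ∀ x, P x - P (x - t) = ∫ s in (0:ℝ)..t, ψ (x - s) := by
    intro x
    rw [intervalIntegral.integral_comp_sub_left, sub_zero]
    exact intervalIntegral.integral_interval_sub_left (hψ.continuous.intervalIntegrable _ _)
      (hψ.continuous.intervalIntegrable _ _)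
  have hφd : ∀ x, deriv (fun x => P x - P (x - t)) x = ψ x - ψ (x - t) := fun x =>
    ((hD x).sub ((hD (x - t)).comp_sub_const x t)).deriv
  have hφs : HasCompactSupport fun x => P x - P (x - t) := by
    obtain ⟨R, hR⟩ := hs.isCompact.isBounded.subset_closedBall 0
    refine HasCompactSupport.intro (isCompact_closedBall (0:ℝ) (R + |t|)) fun x hx => ?_
    rw [hφe]
    refine (intervalIntegral.integral_congr (g := fun _ => 0) fun s hs' => ?_).trans (by simp)
    by_contra hne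
    have h1 := hR (subset_tsupport _ hne)
    have h2 : |s| ≤ |t| := by
      have := abs_sub_left_of_mem_uIcc hs'
      simpa using this
    rw [mem_closedBall_zero_iff, Real.norm_eq_abs] at h1 hx
    have h3 : |x| ≤ |x - s| + |s| := by
      have := abs_add_le (x - s) s
      simpa using this
    exact hx (by linarith)
  have key := hw (fun x => P x - P (x - t)) (hP.sub (hP.comp (contDiff_id.sub contDiff_const))) hφs
  simp only [hφd] at key
  simp only [hφe] at key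
  have hm : AEStronglyMeasurable ψ volume := hψ.continuous.aestronglyMeasurable
  have i1 : Integrable fun x => η x * ψ x := hη.mul_bdd hm (ae_of_all _ hC)
  have i2 : Integrable fun x => η x * ψ (x - t) :=
    hη.mul_bdd (hψ.continuous.comp (continuous_id.sub continuous_const)).aestronglyMeasurable
      (ae_of_all _ fun x => hC _)
  have i3 : Integrable fun x => η (x + t) * ψ x :=
    (hη.comp_add_right t).mul_bdd hm (ae_of_all _ hC)
  have e1 : ∫ x, η x * ψ (x - t) = ∫ x, η (x + t) * ψ x := by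
    rw [← integral_add_right_eq_self (fun x => η x * ψ (x - t)) t]
    simp
  have j1 : Integrable (uncurry fun s x : ℝ => g x * ψ (x - s))
      ((volume.restrict (uIoc 0 t)).prod volume) :=
    (hg.comp_snd _).mul_bdd
      (hψ.continuous.comp (continuous_snd.sub continuous_fst)).aestronglyMeasurable
      (ae_of_all _ fun x => hC _)
  have j2 : Integrable (uncurry fun s x : ℝ => g (s + x) * ψ x)
      ((volume.restrict (uIoc 0 t)).prod volume) :=
    (shear hg t).mul_bdd (hψ.continuous.comp continuous_snd).aestronglyMeasurable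
      (ae_of_all _ fun x => hC _)
  have e2 : ∫ x, g x * ∫ s in (0:ℝ)..t, ψ (x - s) = ∫ x, ψ x * ∫ s in (0:ℝ)..t, g (s + x) := by
    simp_rw [← intervalIntegral.integral_const_mul]
    rw [← intervalIntegral_integral_swap j1]
    have : ∀ s : ℝ, ∫ x, g x * ψ (x - s) = ∫ x, g (s + x) * ψ x := fun s => by
      rw [← integral_add_left_eq_self (fun x => g x * ψ (x - s)) s]
      simp
    simp_rw [this]
    rw [intervalIntegral_integral_swap j2]
    simp_rw [mul_comm]
  simp only [smul_eq_mul]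
  have e3 : ∫ x, ψ x * (η (x + t) - η x) = (∫ x, η (x + t) * ψ x) - ∫ x, η x * ψ x := by
    rw [← integral_sub i3 i1]; congr 1; funext x; ring
  have e4 : ∫ x, η x * (ψ x - ψ (x - t)) = (∫ x, η x * ψ x) - ∫ x, η x * ψ (x - t) := by
    rw [← integral_sub i1 i2]; congr 1; funext x; ring
  rw [e3, ← e2, ← e1]
  linarith

lemma diff_le {η g : ℝ → ℝ} (hη : Integrable η) (hg : Integrable g)
    (hw : ∀ φ : ℝ → ℝ, ContDiff ℝ ∞ φ → HasCompactSupport φ →
      ∫ x, η x * deriv φ x = -∫ x, g x * φ x) (t : ℝ) :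
    ∫⁻ z, ‖η (z + t) - η z‖ₑ ≤ ENNReal.ofReal |t| * ∫⁻ z, ‖g z‖ₑ := by
  calc ∫⁻ z, ‖η (z + t) - η z‖ₑ ≤ ∫⁻ z, ∫⁻ s in uIoc 0 t, ‖g (s + z)‖ₑ := by
        refine lintegral_mono_ae ((ae_diff hη hg hw t).mono fun z hz => ?_)
        rw [hz, intervalIntegral.intervalIntegral_eq_integral_uIoc]
        refine le_trans (le_of_eq ?_) (enorm_integral_le_lintegral_enorm _)
        split_ifs <;> simp
    _ = ∫⁻ s in uIoc 0 t, ∫⁻ z, ‖g (s + z)‖ₑ :=
        (lintegral_lintegral_swap (shear hg t).1.enorm).symm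
    _ = ∫⁻ s in uIoc (0:ℝ) t, ∫⁻ z, ‖g z‖ₑ := by
        congr 1; funext s
        exact lintegral_add_left_eq_self (fun z => ‖g z‖ₑ) s
    _ = _ := by
        rw [lintegral_const, Measure.restrict_apply_univ, Real.volume_uIoc, sub_zero, mul_comm]

lemma cs {K W : ℝ → ℝ≥0∞} (hK : AEMeasurable K) (hW : AEMeasurable W) :
    (∫⁻ z, K z * W z) ^ 2 ≤ (∫⁻ z, K z) * ∫⁻ z, K z * W z ^ 2 := by
  have h := ENNReal.lintegral_mul_le_Lp_mul_Lq volume Real.HolderConjugate.two_two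
    (hK.pow_const (1/2 : ℝ)) ((hK.pow_const (1/2 : ℝ)).mul hW)
  have a : ∀ x : ℝ≥0∞, (x ^ (1/2 : ℝ)) ^ (2 : ℝ) = x := fun x => by
    rw [← ENNReal.rpow_mul]; norm_num
  have b : ∀ x : ℝ≥0∞, x ^ (1/2 : ℝ) * x ^ (1/2 : ℝ) = x := fun x => by
    rw [← ENNReal.rpow_add_of_nonneg _ _ (by norm_num) (by norm_num)]; norm_num
  have c : ∀ x : ℝ≥0∞, (x ^ (1/2 : ℝ)) ^ 2 = x := fun x => by rw [sq, b]
  simp only [Pi.mul_apply, ← mul_assoc, b, a, ENNReal.mul_rpow_of_nonneg _ _ (show (0:ℝ) ≤ 2 by norm_num),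
    ENNReal.rpow_two] at h
  calc _ ≤ ((∫⁻ z, K z) ^ (1/2 : ℝ) * (∫⁻ z, K z * W z ^ 2) ^ (1/2 : ℝ)) ^ 2 := by gcongr
    _ = _ := by rw [mul_pow, c, c]

lemma young {k w : ℝ → ℝ} (hk : AEStronglyMeasurable k) (hw : Measurable w) (ε : ℝ) :
    ∫⁻ x, ‖∫ z, k z * w (x - ε * z)‖ₑ ^ 2 ≤ (∫⁻ z, ‖k z‖ₑ) ^ 2 * ∫⁻ x, ‖w x‖ₑ ^ 2 := by
  have hm : Measurable fun p : ℝ × ℝ => ‖w (p.1 - ε * p.2)‖ₑ ^ 2 :=
    (hw.comp (measurable_fst.sub (measurable_snd.const_mul ε))).enorm.pow_const 2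
  have hj : AEMeasurable (uncurry fun x z : ℝ => ‖k z‖ₑ * ‖w (x - ε * z)‖ₑ ^ 2)
      (volume.prod volume) := hk.enorm.comp_snd.mul hm.aemeasurable
  calc ∫⁻ x, ‖∫ z, k z * w (x - ε * z)‖ₑ ^ 2
      ≤ ∫⁻ x, (∫⁻ z, ‖k z‖ₑ) * ∫⁻ z, ‖k z‖ₑ * ‖w (x - ε * z)‖ₑ ^ 2 := by
        refine lintegral_mono fun x => le_trans ?_ (cs hk.enorm
          (hw.comp (measurable_const.sub (measurable_id.const_mul ε))).enorm.aemeasurable)
        gcongr
        refine (enorm_integral_le_lintegral_enorm _).trans (le_of_eq ?_)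
        simp only [enorm_mul]
    _ = (∫⁻ z, ‖k z‖ₑ) * ∫⁻ x, ∫⁻ z, ‖k z‖ₑ * ‖w (x - ε * z)‖ₑ ^ 2 :=
        lintegral_const_mul'' _ hj.lintegral_prod_right
    _ = (∫⁻ z, ‖k z‖ₑ) * ∫⁻ z, ‖k z‖ₑ * ∫⁻ x, ‖w x‖ₑ ^ 2 := by
        rw [lintegral_lintegral_swap hj]
        congr 2; funext z
        have hm2 : Measurable fun x : ℝ => ‖w (x - ε * z)‖ₑ ^ 2 :=
          (hw.comp (measurable_id.sub_const _)).enorm.pow_const 2
        rw [lintegral_const_mul _ hm2]
        congr 1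
        exact lintegral_sub_right_eq_self (fun x => ‖w x‖ₑ ^ 2) _
    _ = _ := by rw [lintegral_mul_const'' _ hk.enorm, sq, mul_assoc]

end Pool.Agent.H43.Bsv
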