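import Pool.Agent.H43.Bsv1

namespace Pool.Agent.H43.Bsv

open Set MeasureTheory Filter Topology Function
open scoped ENNReal

noncomputable def δ (j : ℕ) : ℝ := (1/2) ^ ((Nat.sqrt j + 2) ^ 2)
noncomputable def T (j : ℕ) (x : ℝ) : ℝ := max 0 (1 - |x - j| / δ j)
noncomputable def r (x : ℝ) : ℕ := ⌊x + 1/2⌋₊
noncomputable def u (x : ℝ) : ℝ := T (r x) x

lemma δ_pos (j : ℕ) : 0 < δ j := by unfold δ; positivity

lemma δ_le (j : ℕ) : δ j ≤ (1/2) ^ j := by
  refine pow_le_pow_of_le_one (by norm_num) (by norm_num) ?_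
  exact (Nat.lt_succ_sqrt' j).le.trans (Nat.pow_le_pow_left (by omega) 2)

lemma δ_small (j : ℕ) : δ j ≤ 1/16 := by
  have : δ j ≤ (1/2) ^ 4 := pow_le_pow_of_le_one (by norm_num) (by norm_num)
    (Nat.pow_le_pow_left (show 2 ≤ Nat.sqrt j + 2 by omega) 2)
  linarith [show ((1:ℝ)/2) ^ 4 = 1/16 by norm_num]

lemma T_far {j : ℕ} {x : ℝ} (h : δ j ≤ |x - j|) : T j x = 0 := by
  refine max_eq_left ?_
  have := (one_le_div (δ_pos j)).2 h
  linarith

lemma r_eq {j : ℕ} {x : ℝ} (h : |x - j| < 1/2) : r x = j := by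
  obtain ⟨h1, h2⟩ := abs_lt.1 h
  have : (0:ℝ) ≤ j := Nat.cast_nonneg j
  exact (Nat.floor_eq_iff (by linarith)).2 ⟨by linarith, by linarith⟩

lemma T_zero {j : ℕ} {x : ℝ} (h : r x ≠ j) : T j x = 0 := by
  refine T_far (le_of_not_gt fun h' => h (r_eq ?_))
  linarith [δ_small j]

lemma T_nonneg (j : ℕ) (x : ℝ) : 0 ≤ T j x := le_max_left _ _

lemma T_le (j : ℕ) (x : ℝ) : T j x ≤ 1 := by
  refine max_le zero_le_one ?_
  have := div_nonneg (abs_nonneg (x - j)) (δ_pos j).le
  linarith

lemma T_lip (j : ℕ) (x y : ℝ) : |T j y - T j x| ≤ |y - x| / δ j := by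
  refine (abs_max_sub_max_le_max _ _ _ _).trans (max_le ?_ ?_)
  · simpa using div_nonneg (abs_nonneg _) (δ_pos j).le
  · have : 1 - |y - j| / δ j - (1 - |x - j| / δ j) = (|x - j| - |y - j|) / δ j := by ring
    rw [this, abs_div, abs_of_pos (δ_pos j)]
    refine div_le_div_of_nonneg_right ?_ (δ_pos j).le
    refine (abs_abs_sub_abs_le_abs_sub _ _).trans (le_of_eq ?_)
    rw [abs_sub_comm y x]; congr 1; ring

lemma u_meas : Measurable u := by
  have hr : Measurable r := Nat.measurable_floor.comp (measurable_id.add_const _)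
  have h1 : Measurable fun x => ((r x : ℕ) : ℝ) := (Measurable.of_discrete (f := fun j : ℕ => (j:ℝ))).comp hr
  have h2 : Measurable fun x => δ (r x) := (Measurable.of_discrete (f := δ)).comp hr
  exact measurable_const.max (measurable_const.sub ((measurable_id.sub h1).abs.div h2))

lemma u_bd (x : ℝ) : ‖u x‖ ≤ 1 := by
  rw [Real.norm_eq_abs, u, abs_of_nonneg (T_nonneg _ _)]; exact T_le _ _

lemma esq (a : ℝ) : ‖a‖ₑ ^ 2 = ENNReal.ofReal (a ^ 2) := by
  rw [Real.enorm_eq_ofReal_abs, ← ENNReal.ofReal_pow (abs_nonneg _), sq_abs]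

lemma T_meas (j : ℕ) : Measurable (T j) :=
  measurable_const.max (measurable_const.sub ((measurable_id.sub_const _).abs.div_const _))

lemma pt (x y : ℝ) : ‖u y - u x‖ₑ ^ 2 ≤ ∑' j, ‖T j y - T j x‖ₑ ^ 2 := by
  by_cases h : r y = r x
  · refine le_trans (le_of_eq ?_) (ENNReal.le_tsum (r x))
    rw [u, u, h]
  · refine le_trans ?_ (ENNReal.sum_le_tsum {r y, r x})
    rw [Finset.sum_pair h, T_zero (Ne.symm h), T_zero h, esq, esq, esq,
      ← ENNReal.ofReal_add (sq_nonneg _) (sq_nonneg _)]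
    refine ENNReal.ofReal_le_ofReal ?_
    have := mul_nonneg (T_nonneg (r y) y) (T_nonneg (r x) x)
    unfold u; nlinarith

lemma ind_int (j : ℕ) (c : ℝ≥0∞) (h : ℝ) :
    ∫⁻ x, (Icc (j - δ j) (j + δ j)).indicator (fun _ => c) (x + h) = c * ENNReal.ofReal (2 * δ j) := by
  rw [lintegral_add_right_eq_self (fun x => (Icc (j - δ j) (j + δ j)).indicator (fun _ => c) x) h,
    lintegral_indicator_const measurableSet_Icc, Real.volume_Icc]
  congr 2; ring

lemma T_out {j : ℕ} {x : ℝ} (h : x ∉ Icc (j - δ j) (j + δ j)) : T j x = 0 := by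
  refine T_far (le_of_not_gt fun h' => h ?_)
  obtain ⟨h1, h2⟩ := abs_lt.1 h'
  exact ⟨by linarith, by linarith⟩

noncomputable def m (j : ℕ) (h : ℝ) : ℝ≥0∞ := ENNReal.ofReal (min 1 (h ^ 2 / δ j ^ 2) * (4 * δ j))

lemma E_le (j : ℕ) (h : ℝ) : ∫⁻ x, ‖T j (x + h) - T j x‖ₑ ^ 2 ≤ m j h := by
  set c := ENNReal.ofReal (min 1 (h ^ 2 / δ j ^ 2)) with hc
  have hb : ∀ x, ‖T j (x + h) - T j x‖ₑ ^ 2 ≤ c := fun x => by
    rw [esq]
    refine ENNReal.ofReal_le_ofReal (le_min ?_ ?_)
    · have := T_nonneg j x; have := T_le j x; have := T_nonneg j (x + h); have := T_le j (x + h)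
      nlinarith
    · have := T_lip j x (x + h)
      rw [add_sub_cancel_left] at this
      rw [← sq_abs, ← sq_abs h, ← div_pow]
      gcongr
  have hI : Measurable fun x : ℝ => (Icc (j - δ j) (j + δ j)).indicator (fun _ => c) (x + h) :=
    (measurable_const.indicator measurableSet_Icc).comp (measurable_id.add_const h)
  calc _ ≤ ∫⁻ x, ((Icc (j - δ j) (j + δ j)).indicator (fun _ => c) (x + h) +
        (Icc (j - δ j) (j + δ j)).indicator (fun _ => c) (x + 0)) := by
        refine lintegral_mono fun x => ?_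
        rw [add_zero]
        by_cases h1 : x + h ∈ Icc (j - δ j) (j + δ j)
        · rw [indicator_of_mem h1]; exact (hb x).trans le_self_add
        by_cases h2 : x ∈ Icc (j - δ j) (j + δ j)
        · rw [indicator_of_mem h2]; exact (hb x).trans le_add_self
        · simp [T_out h1, T_out h2]
    _ = _ := by
        have := δ_pos j
        rw [lintegral_add_left hI, ind_int, ind_int, ← mul_add,
          ← ENNReal.ofReal_add (by positivity) (by positivity), hc,
          ← ENNReal.ofReal_mul (by positivity), m]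
        congr 2; ring

noncomputable def D (v : ℝ → ℝ) (h : ℝ) : ℝ≥0∞ := ∫⁻ x, ‖v (x + h) - v x‖ₑ ^ 2

lemma D_le (h : ℝ) : D u h ≤ ∑' j, m j h := by
  refine (lintegral_mono fun x => pt x (x + h)).trans ?_
  rw [lintegral_tsum fun j => ?_]
  · exact ENNReal.tsum_le_tsum fun j => E_le j h
  · exact ((((T_meas j).comp (measurable_id.add_const h)).sub (T_meas j)).enorm.pow_const
      2).aemeasurable

lemma geo : ∑' j : ℕ, ENNReal.ofReal ((1/2) ^ j) = 2 := by
  rw [← ENNReal.ofReal_tsum_of_nonneg (fun _ => by positivity) summable_geometric_two,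
    tsum_geometric_two]; simp

lemma U_fin : ∫⁻ x, ‖u x‖ₑ ^ 2 ≤ 4 := by
  calc _ ≤ ∫⁻ x, ∑' j : ℕ, (Icc (j - δ j) (j + δ j)).indicator (fun _ => (1:ℝ≥0∞)) (x + 0) := by
        refine lintegral_mono fun x => le_trans ?_ (ENNReal.le_tsum (r x))
        rw [add_zero]
        by_cases h : x ∈ Icc (r x - δ (r x)) (r x + δ (r x))
        · rw [indicator_of_mem h, esq, ENNReal.ofReal_le_one]
          have := u_bd x
          rw [Real.norm_eq_abs] at this
          exact (sq_le_one_iff_abs_le_one _).2 this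
        · simp [u, T_out h]
    _ = ∑' j : ℕ, 1 * ENNReal.ofReal (2 * δ j) := by
        rw [lintegral_tsum fun j => ?_]
        · simp only [ind_int]
        · exact ((measurable_const.indicator measurableSet_Icc).comp
            (measurable_id.add_const 0)).aemeasurable
    _ ≤ ∑' j : ℕ, 2 * ENNReal.ofReal ((1/2) ^ j) := by
        refine ENNReal.tsum_le_tsum fun j => ?_
        rw [one_mul, ENNReal.ofReal_mul (by norm_num), ENNReal.ofReal_ofNat]
        gcongr; exact δ_le j
    _ = 4 := by rw [ENNReal.tsum_mul_left, geo]; norm_num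

noncomputable def wt (h : ℝ) : ℝ≥0∞ := ENNReal.ofReal (1 / h ^ 2)

lemma wt_meas : Measurable wt := (measurable_const.div (measurable_id.pow_const 2)).ennreal_ofReal

lemma J1 {ρ : ℝ} (hρ : 0 < ρ) : ∫⁻ h in Ioi ρ, wt h = ENNReal.ofReal (1 / ρ) := by
  have h1 := integral_Ioi_rpow_of_lt (a := -2) (by norm_num) hρ
  have h2 := integrableOn_Ioi_rpow_of_lt (a := -2) (by norm_num) hρ
  have e : ∀ h ∈ Ioi ρ, wt h = ENNReal.ofReal (h ^ (-2:ℝ)) := fun h hh => by
    rw [wt, Real.rpow_neg (hρ.trans hh).le, Real.rpow_two, one_div]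
  rw [setLIntegral_congr_fun measurableSet_Ioi e, ← ofReal_integral_eq_lintegral_ofReal h2, h1]
  · congr 1
    rw [show (-2:ℝ) + 1 = -1 by norm_num, Real.rpow_neg_one]; field_simp
  · filter_upwards [self_mem_ae_restrict measurableSet_Ioi] with h hh
    exact Real.rpow_nonneg (hρ.trans hh).le _

lemma J {ρ : ℝ} (hρ : 0 < ρ) : ∫⁻ h in {h | ρ < |h|}, wt h ≤ ENNReal.ofReal (2 / ρ) := by
  have hs : {h : ℝ | ρ < |h|} = Ioi ρ ∪ Iio (-ρ) := by
    ext h; simp [lt_abs, lt_neg]
  have h2 : ∫⁻ h in Iio (-ρ), wt h = ∫⁻ h in Ioi ρ, wt h := by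
    rw [← lintegral_indicator measurableSet_Iio, ← lintegral_indicator measurableSet_Ioi,
      ← lintegral_neg_eq_self]
    congr 1; funext h
    simp [indicator, wt]
  rw [hs]
  refine (lintegral_union_le _ _ _).trans (le_of_eq ?_)
  rw [h2, J1 hρ, ← ENNReal.ofReal_add (by positivity) (by positivity)]
  congr 1; ring

lemma B1 (j : ℕ) {ρ : ℝ} (hρ : 0 < ρ) :
    ∫⁻ h in {h | ρ < |h|}, m j h * wt h ≤ ENNReal.ofReal (8 * (δ j / ρ)) := by
  have := δ_pos j
  calc _ ≤ ∫⁻ h in {h | ρ < |h|}, ENNReal.ofReal (4 * δ j) * wt h := by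
        refine lintegral_mono fun h => ?_
        gcongr
        exact ENNReal.ofReal_le_ofReal (mul_le_of_le_one_left (by positivity) (min_le_left _ _))
    _ ≤ ENNReal.ofReal (4 * δ j) * ENNReal.ofReal (2 / ρ) := by
        rw [lintegral_const_mul _ wt_meas]; gcongr; exact J hρ
    _ = _ := by rw [← ENNReal.ofReal_mul (by positivity)]; congr 1; ring

lemma B2 (j : ℕ) (s : Set ℝ) : ∫⁻ h in s, m j h * wt h ≤ 16 := by
  have hδ := δ_pos j
  have hs : s ⊆ Icc (-δ j) (δ j) ∪ {h | δ j < |h|} := fun h _ => by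
    rcases le_or_gt |h| (δ j) with a | a
    · exact Or.inl (abs_le.1 a)
    · exact Or.inr a
  refine (lintegral_mono_set hs).trans ((lintegral_union_le _ _ _).trans ?_)
  have a : ∫⁻ h in Icc (-δ j) (δ j), m j h * wt h ≤ 8 := by
    calc _ ≤ ∫⁻ _ in Icc (-δ j) (δ j), ENNReal.ofReal (4 / δ j) := by
          refine lintegral_mono fun h => ?_
          rw [m, wt, ← ENNReal.ofReal_mul (by positivity)]
          refine ENNReal.ofReal_le_ofReal ?_
          by_cases h0 : h = 0
          · simp [h0]; positivity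
          calc _ ≤ h ^ 2 / δ j ^ 2 * (4 * δ j) * (1 / h ^ 2) := by gcongr; exact min_le_right _ _
            _ = _ := by field_simp
      _ = 8 := by
          rw [setLIntegral_const, Real.volume_Icc, ← ENNReal.ofReal_mul (by positivity),
            show 4 / δ j * (δ j - -δ j) = 8 by field_simp; ring]
          simp
  have b := B1 j hδ
  rw [div_self hδ.ne', mul_one, ENNReal.ofReal_ofNat] at b
  exact (add_le_add a b).trans (by norm_num)

lemma tail {ρ : ℝ} {n : ℕ} (hn : (1/2 : ℝ) ^ n ≤ ρ) :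
    ∫⁻ h in {h | ρ < |h|}, D u h * wt h ≤ 16 * n + 16 := by
  have hρ : 0 < ρ := lt_of_lt_of_le (by positivity) hn
  have hm : ∀ j, Measurable (m j) := fun j =>
    ((measurable_const.min ((measurable_id.pow_const 2).div_const _)).mul_const _).ennreal_ofReal
  calc _ ≤ ∫⁻ h in {h | ρ < |h|}, ∑' j, m j h * wt h := by
        refine lintegral_mono fun h => ?_
        rw [ENNReal.tsum_mul_right]; gcongr; exact D_le h
    _ = ∑' j, ∫⁻ h in {h | ρ < |h|}, m j h * wt h :=
        lintegral_tsum fun j => ((hm j).mul wt_meas).aemeasurable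
    _ = ∑ j ∈ Finset.range n, (∫⁻ h in {h | ρ < |h|}, m j h * wt h) +
        ∑' j, ∫⁻ h in {h | ρ < |h|}, m (j + n) h * wt h :=
        (ENNReal.summable.sum_add_tsum_nat_add' (k := n)
          (f := fun j => ∫⁻ h in {h | ρ < |h|}, m j h * wt h)).symm
    _ ≤ ∑ _j ∈ Finset.range n, (16 : ℝ≥0∞) + ∑' j : ℕ, 8 * ENNReal.ofReal ((1/2) ^ j) := by
        refine add_le_add (Finset.sum_le_sum fun j _ => B2 j _) (ENNReal.tsum_le_tsum fun j => ?_)
        refine (B1 _ hρ).trans ?_
        rw [ENNReal.ofReal_mul (by norm_num), ENNReal.ofReal_ofNat]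
        gcongr
        rw [div_le_iff₀ hρ]
        refine (δ_le _).trans ?_
        rw [pow_add]; gcongr
    _ = _ := by
        rw [ENNReal.tsum_mul_left, geo, Finset.sum_const, Finset.card_range, nsmul_eq_mul, mul_comm]
        norm_num

lemma big (k : ℕ) : ENNReal.ofReal (k / 8 * δ (k ^ 2)) ≤ D u (δ (k ^ 2)) := by
  set d := δ (k ^ 2) with hd
  have hd0 : 0 < d := δ_pos _
  have hd1 : d ≤ 1/16 := δ_small _
  have hδ : ∀ i < k, δ (k ^ 2 + i) = d := fun i hi => by
    rw [hd, δ, δ, sq k, Nat.sqrt_add_eq k (by omega), Nat.sqrt_eq]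
  let I : ℕ → Set ℝ := fun i => Icc ((k ^ 2 + i : ℕ) : ℝ) ((k ^ 2 + i : ℕ) + d / 2)
  have hdis : (↑(Finset.range k) : Set ℕ).PairwiseDisjoint I := by
    intro i _ j _ hij
    refine Set.disjoint_left.2 fun x h1 h2 => hij ?_
    have a : r x = k ^ 2 + i := r_eq (abs_lt.2 ⟨by linarith [h1.1], by linarith [h1.2]⟩)
    have b : r x = k ^ 2 + j := r_eq (abs_lt.2 ⟨by linarith [h2.1], by linarith [h2.2]⟩)
    omega
  have hM : MeasurableSet (⋃ i ∈ Finset.range k, I i) :=
    Finset.measurableSet_biUnion _ fun _ _ => measurableSet_Icc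
  calc _ = ENNReal.ofReal (1/4) * volume (⋃ i ∈ Finset.range k, I i) := by
        rw [measure_biUnion_finset hdis fun _ _ => measurableSet_Icc]
        simp only [I, Real.volume_Icc, add_sub_cancel_left, Finset.sum_const, Finset.card_range,
          nsmul_eq_mul]
        rw [← ENNReal.ofReal_natCast, ← ENNReal.ofReal_mul (by positivity),
          ← ENNReal.ofReal_mul (by positivity)]
        congr 1; ring
    _ = ∫⁻ x, (⋃ i ∈ Finset.range k, I i).indicator (fun _ => ENNReal.ofReal (1/4)) x :=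
        (lintegral_indicator_const hM _).symm
    _ ≤ _ := by
        refine lintegral_mono (indicator_le' (fun x hx => ?_) (fun _ _ => zero_le))
        simp only [mem_iUnion, Finset.mem_range] at hx
        obtain ⟨i, hi, h1, h2⟩ := hx
        have a : r x = k ^ 2 + i := r_eq (abs_lt.2 ⟨by linarith, by linarith⟩)
        have b : r (x + d) = k ^ 2 + i := r_eq (abs_lt.2 ⟨by linarith, by linarith⟩)
        have c : u (x + d) = 0 := by
          rw [u, b]; refine T_far ?_
          rw [hδ i hi]; exact le_trans (by linarith) (le_abs_self _)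
        have e : 1/2 ≤ u x := by
          rw [u, a]; refine le_trans ?_ (le_max_right _ _)
          rw [hδ i hi, abs_of_nonneg (by linarith)]
          have : (x - ((k ^ 2 + i : ℕ) : ℝ)) / d ≤ 1/2 := (div_le_iff₀ hd0).2 (by linarith)
          linarith
        rw [esq, c]
        exact ENNReal.ofReal_le_ofReal (by nlinarith)

end Pool.Agent.H43.Bsv
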