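import Mathlib

set_option autoImplicit false
open FirstOrder FirstOrder.Language

namespace Pool.Agent.H43.CTRS

/-- A conditional rule `u₁ ↓ v₁ ∧ … ∧ u_k ↓ v_k ⇒ lhs → rhs` over the function symbols of `L`,
with variables in `ℕ`. -/
structure Rule (L : FirstOrder.Language.{0, 0}) where
  conds : List (L.Term ℕ × L.Term ℕ)
  lhs : L.Term ℕ
  rhs : L.Term ℕ

/-- Closure of a relation on terms under contexts. -/
inductive Ctx {L : FirstOrder.Language.{0, 0}} (r : L.Term ℕ → L.Term ℕ → Prop) :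
    L.Term ℕ → L.Term ℕ → Prop
  | root {s t : L.Term ℕ} : r s t → Ctx r s t
  | arg {n : ℕ} (f : L.Functions n) (ts : Fin n → L.Term ℕ) (i : Fin n) (t : L.Term ℕ) :
      Ctx r (ts i) t → Ctx r (Term.func f ts) (Term.func f (Function.update ts i t))

/-- The level `n` one-step relation of the join CTRS `R`. -/
def stepN {L : FirstOrder.Language.{0, 0}} (R : Set (Rule L)) : ℕ → L.Term ℕ → L.Term ℕ → Prop
  | 0 => fun _ _ => False
  | n + 1 => Ctx fun s t => ∃ ρ ∈ R, ∃ σ : ℕ → L.Term ℕ,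
      (∀ c ∈ ρ.conds, ∃ w, Relation.ReflTransGen (stepN R n) (c.1.subst σ) w ∧
        Relation.ReflTransGen (stepN R n) (c.2.subst σ) w) ∧
      s = ρ.lhs.subst σ ∧ t = ρ.rhs.subst σ

/-- The one-step rewrite relation: union of the levels. -/
def step {L : FirstOrder.Language.{0, 0}} (R : Set (Rule L)) (s t : L.Term ℕ) : Prop := ∃ n, stepN R n s t

/-- Normal forms. -/
def IsNF {L : FirstOrder.Language.{0, 0}} (R : Set (Rule L)) (s : L.Term ℕ) : Prop := ∀ t, ¬ step R s t

/-- Unique normal forms: convertible normal forms are identical. -/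
def UN {L : FirstOrder.Language.{0, 0}} (R : Set (Rule L)) : Prop :=
  ∀ s t, IsNF R s → IsNF R t → Relation.EqvGen (step R) s t → s = t

/-- Transport of a rule along a map of signatures. -/
def Rule.map {L L' : FirstOrder.Language.{0, 0}} (φ : L →ᴸ L') (ρ : Rule L) : Rule L' :=
  ⟨ρ.conds.map fun c => (φ.onTerm c.1, φ.onTerm c.2), φ.onTerm ρ.lhs, φ.onTerm ρ.rhs⟩

/-- Disjoint union of two systems, over the disjoint sum of the signatures. -/
def union {L₁ L₂ : FirstOrder.Language.{0, 0}} (R : Set (Rule L₁)) (S : Set (Rule L₂)) :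
    Set (Rule (L₁.sum L₂)) :=
  Rule.map LHom.sumInl '' R ∪ Rule.map LHom.sumInr '' S

/-- A finite CTRS: finitely many rules, no left side is a variable, and all variables of the right
side and of the conditions occur in the left side. -/
def IsFiniteCTRS {L : FirstOrder.Language.{0, 0}} (R : Set (Rule L)) : Prop :=
  R.Finite ∧ ∀ ρ ∈ R, (∀ v, ρ.lhs ≠ Term.var v) ∧ ρ.rhs.varFinset ⊆ ρ.lhs.varFinset ∧
    ∀ c ∈ ρ.conds, c.1.varFinset ⊆ ρ.lhs.varFinset ∧ c.2.varFinset ⊆ ρ.lhs.varFinset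

end Pool.Agent.H43.CTRS
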