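import Pool.Agent.H43.CTRSDefs

set_option autoImplicit false
open FirstOrder FirstOrder.Language

namespace Pool.Agent.H43.CTRS

inductive K | b | b1 | b2 | b3 | y1 | y2 | c | d | e
  deriving DecidableEq, Fintype

inductive F1 : ℕ → Type
  | k (a : K) : F1 0
  | F : F1 1

inductive F2 : ℕ → Type
  | g : F2 4

def L1 : FirstOrder.Language.{0, 0} := ⟨F1, fun _ => Empty⟩
def L2 : FirstOrder.Language.{0, 0} := ⟨F2, fun _ => Empty⟩

def cst (a : K) : L1.Term ℕ := Term.func (L := L1) (F1.k a) ![]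
def Fx (t : L1.Term ℕ) : L1.Term ℕ := Term.func (L := L1) F1.F ![t]
def gx (a b c d : L2.Term ℕ) : L2.Term ℕ := Term.func (L := L2) F2.g ![a, b, c, d]

def P : List (K × K) :=
  [(.b, .b1), (.y1, .b1), (.y1, .b2), (.y2, .b2), (.y2, .b3), (.c, .b3), (.b1, .b1), (.b2, .b2),
    (.b3, .b3)]

def ρP (p : K × K) : Rule L1 := ⟨[], cst p.1, cst p.2⟩
def ρF (a : K) : Rule L1 := ⟨[(.var 0, cst .b), (.var 0, cst .c)], Fx (.var 0), cst a⟩
def ρg (i : ℕ) : Rule L2 :=
  ⟨[(.var 0, .var 1), (.var 1, .var 2), (.var 2, .var 3)], gx (.var 0) (.var 1) (.var 2) (.var 3),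
    .var i⟩

def R1 : Set (Rule L1) := {ρ | (∃ p ∈ P, ρ = ρP p) ∨ ρ = ρF .d ∨ ρ = ρF .e}
def R2 : Set (Rule L2) := {ρg 0, ρg 3}

@[simp] lemma cst_subst (a : K) (σ : ℕ → L1.Term ℕ) : (cst a).subst σ = cst a := by
  simp only [cst, Term.subst]; congr; ext i; exact i.elim0

@[simp] lemma Fx_subst (t : L1.Term ℕ) (σ : ℕ → L1.Term ℕ) :
    (Fx t).subst σ = Fx (t.subst σ) := by
  simp only [Fx, Term.subst]; congr; ext i; fin_cases i; rfl

@[simp] lemma gx_subst (a b c d : L2.Term ℕ) (σ : ℕ → L2.Term ℕ) :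
    (gx a b c d).subst σ = gx (a.subst σ) (b.subst σ) (c.subst σ) (d.subst σ) := by
  simp only [gx, Term.subst]; congr; ext i; fin_cases i <;> rfl

def hd : L1.Term ℕ → Option K
  | .var _ => none
  | .func (F1.k a) _ => some a
  | .func F1.F _ => none

@[simp] lemma hd_cst (a : K) : hd (cst a) = some a := rfl
@[simp] lemma hd_Fx (t : L1.Term ℕ) : hd (Fx t) = none := rfl

def A (x y : Option K) : Prop :=
  (∃ p ∈ P, x = some p.1 ∧ y = some p.2) ∨ (x = none ∧ (y = none ∨ y = some .d ∨ y = some .e))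

instance : DecidableRel A := fun _ _ => by unfold A; infer_instance

lemma hdA (n : ℕ) (s t : L1.Term ℕ) (h : stepN R1 n s t) : A (hd s) (hd t) := by
  cases n with
  | zero => exact h.elim
  | succ n =>
    cases h with
    | root h =>
      obtain ⟨ρ, hρ, σ, -, rfl, rfl⟩ := h
      rcases hρ with ⟨p, hp, rfl⟩ | rfl | rfl
      · exact Or.inl ⟨p, hp, by simp [ρP], by simp [ρP]⟩
      · exact Or.inr ⟨by simp [ρF], by simp [ρF]⟩
      · exact Or.inr ⟨by simp [ρF], by simp [ρF]⟩
    | arg f ts i t h =>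
      cases f with
      | k a => exact i.elim0
      | F => exact Or.inr ⟨rfl, Or.inl rfl⟩

lemma hdA' (n : ℕ) (s t : L1.Term ℕ) (h : Relation.ReflTransGen (stepN R1 n) s t) :
    Relation.ReflTransGen A (hd s) (hd t) := by
  induction h with
  | refl => exact .refl
  | tail _ h ih => exact ih.tail (hdA n _ _ h)

lemma fwd (S : Option K → Prop) (hS : ∀ x y, A x y → S x → S y) {x y : Option K}
    (h : Relation.ReflTransGen A x y) (hx : S x) : S y := by
  induction h with
  | refl => exact hx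
  | tail _ h ih => exact hS _ _ h ih

lemma bwd (S : Option K → Prop) (hS : ∀ x y, A x y → S y → S x) {x y : Option K}
    (h : Relation.ReflTransGen A x y) (hx : S y) : S x := by
  induction h with
  | refl => exact hx
  | tail _ h ih => exact ih (hS _ _ h hx)

lemma noF (n : ℕ) (x : L1.Term ℕ)
    (h1 : ∃ w, Relation.ReflTransGen (stepN R1 n) x w ∧
      Relation.ReflTransGen (stepN R1 n) (cst .b) w)
    (h2 : ∃ w, Relation.ReflTransGen (stepN R1 n) x w ∧
      Relation.ReflTransGen (stepN R1 n) (cst .c) w) : False := by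
  obtain ⟨w, h1, h1'⟩ := h1
  obtain ⟨w', h2, h2'⟩ := h2
  have a1 := fwd (fun x => x = some .b ∨ x = some .b1) (by decide) (hdA' _ _ _ h1') (by simp)
  have a2 := fwd (fun x => x = some .c ∨ x = some .b3) (by decide) (hdA' _ _ _ h2') (by simp)
  have a3 := bwd (fun x => x = some .b ∨ x = some .b1 ∨ x = some .y1) (by decide)
    (hdA' _ _ _ h1) (by tauto)
  have a4 := bwd (fun x => x = some .c ∨ x = some .b3 ∨ x = some .y2) (by decide)
    (hdA' _ _ _ h2) (by tauto)
  revert a3 a4
  generalize hd x = z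
  revert z
  decide

lemma stepP (p : K × K) (hp : p ∈ P) : stepN R1 1 (cst p.1) (cst p.2) :=
  Ctx.root ⟨ρP p, Or.inl ⟨p, hp, rfl⟩, Term.var, by simp [ρP], by simp [ρP], by simp [ρP]⟩

lemma red1 (n : ℕ) (s t : L1.Term ℕ) (h : stepN R1 n s t) : ∃ u, stepN R1 1 t u := by
  cases n with
  | zero => exact h.elim
  | succ n =>
    induction h with
    | root h =>
      obtain ⟨ρ, hρ, σ, hc, rfl, rfl⟩ := h
      rcases hρ with ⟨p, hp, rfl⟩ | rfl | rfl
      · have : (p.2, p.2) ∈ P := by clear hc; revert p; decide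
        exact ⟨_, by simpa [ρP] using stepP _ this⟩
      · exact (noF n (σ 0) (by simpa [ρF] using hc (.var 0, cst .b) (by simp [ρF]))
          (by simpa [ρF] using hc (.var 0, cst .c) (by simp [ρF]))).elim
      · exact (noF n (σ 0) (by simpa [ρF] using hc (.var 0, cst .b) (by simp [ρF]))
          (by simpa [ρF] using hc (.var 0, cst .c) (by simp [ρF]))).elim
    | arg f ts i t h ih =>
      obtain ⟨u, hu⟩ := ih
      exact ⟨_, Ctx.arg f _ i u (by rw [Function.update_self]; exact hu)⟩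

lemma UN1 : UN R1 := by
  intro s t hs ht h
  have key : ∀ s t, Relation.EqvGen (step R1) s t → s = t ∨ (¬ IsNF R1 s ∧ ¬ IsNF R1 t) := by
    intro s t h
    induction h with
    | rel x y h =>
      refine Or.inr ⟨fun hx => hx y h, fun hy => ?_⟩
      obtain ⟨n, h⟩ := h
      obtain ⟨u, hu⟩ := red1 n x y h
      exact hy u ⟨1, hu⟩
    | refl x => exact Or.inl rfl
    | symm x y _ ih => tauto
    | trans x y z _ _ ih1 ih2 =>
      rcases ih1 with rfl | ih1
      · exact ih2
      · rcases ih2 with rfl | ih2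
        · exact Or.inr ih1
        · exact Or.inr ⟨ih1.1, ih2.2⟩
  rcases key s t h with h | h
  · exact h
  · exact (h.1 hs).elim

open Classical in
noncomputable def G (us : Fin 4 → L2.Term ℕ) : L2.Term ℕ :=
  if us 0 = us 1 ∧ us 1 = us 2 ∧ us 2 = us 3 then us 0 else Term.func (L := L2) F2.g us

noncomputable def φ : L2.Term ℕ → L2.Term ℕ
  | .var v => .var v
  | .func F2.g ts => G fun i => φ (ts i)

lemma φ_step (n : ℕ) : ∀ s t : L2.Term ℕ, stepN R2 n s t → φ s = φ t := by
  induction n with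
  | zero => intro s t h; exact h.elim
  | succ n ih =>
    have ih' : ∀ s t : L2.Term ℕ, Relation.ReflTransGen (stepN R2 n) s t → φ s = φ t := by
      intro s t h
      induction h with
      | refl => rfl
      | tail _ h ih2 => exact ih2.trans (ih _ _ h)
    intro s t h
    induction h with
    | root h =>
      obtain ⟨ρ, hρ, σ, hc, rfl, rfl⟩ := h
      have key : ∀ i, ρ = ρg i → φ (σ 0) = φ (σ 1) ∧ φ (σ 1) = φ (σ 2) ∧ φ (σ 2) = φ (σ 3) := by
        rintro i rfl
        obtain ⟨w1, a1, b1⟩ := hc (.var 0, .var 1) (by simp [ρg])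
        obtain ⟨w2, a2, b2⟩ := hc (.var 1, .var 2) (by simp [ρg])
        obtain ⟨w3, a3, b3⟩ := hc (.var 2, .var 3) (by simp [ρg])
        exact ⟨(ih' _ _ a1).trans (ih' _ _ b1).symm, (ih' _ _ a2).trans (ih' _ _ b2).symm,
          (ih' _ _ a3).trans (ih' _ _ b3).symm⟩
      rcases hρ with rfl | rfl
      · have := key 0 rfl
        simp only [ρg, gx_subst]
        simp only [gx, φ, G]
        rw [if_pos (by simpa using this)]
        rfl
      · have := key 3 rfl
        simp only [ρg, gx_subst]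
        simp only [gx, φ, G]
        rw [if_pos (by simpa using this)]
        exact this.1.trans (this.2.1.trans this.2.2)
    | arg f ts i t h ih2 =>
      cases f
      simp only [φ]
      congr 1
      ext j
      by_cases hj : j = i
      · subst hj; simpa using ih2
      · simp [Function.update_of_ne hj]

lemma φ_nf (s : L2.Term ℕ) (hs : IsNF R2 s) : φ s = s := by
  induction s with
  | var v => rfl
  | func f ts ih =>
    cases f
    have h1 : ∀ i, φ (ts i) = ts i := fun i => ih i fun t ⟨n, h⟩ => by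
      cases n with
      | zero => exact h.elim
      | succ n => exact hs _ ⟨n + 1, Ctx.arg _ ts i t h⟩
    simp only [φ, h1, G]
    rw [if_neg]
    rintro ⟨a, b, c⟩
    simp only [h1] at a b c
    refine hs (ts 0) ⟨1, Ctx.root ⟨ρg 0, Or.inl rfl, fun _ => ts 0, ?_, ?_, rfl⟩⟩
    · intro c hc
      simp only [ρg, List.mem_cons, List.not_mem_nil, or_false] at hc
      rcases hc with rfl | rfl | rfl <;> exact ⟨ts 0, .refl, .refl⟩
    · simp only [ρg, gx_subst]
      simp only [gx]
      congr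
      ext j
      fin_cases j <;> simp [Term.subst, a, b, c]

lemma UN2 : UN R2 := by
  intro s t hs ht h
  have key : ∀ s t, Relation.EqvGen (step R2) s t → φ s = φ t := by
    intro s t h
    induction h with
    | rel x y h => obtain ⟨n, h⟩ := h; exact φ_step n x y h
    | refl x => rfl
    | symm x y _ ih => exact ih.symm
    | trans x y z _ _ ih1 ih2 => exact ih1.trans ih2
  rw [← φ_nf s hs, key s t h, φ_nf t ht]

abbrev LL := L1.sum L2
def c' (a : K) : LL.Term ℕ := LHom.sumInl.onTerm (cst a)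
def F' (t : LL.Term ℕ) : LL.Term ℕ := Term.func (L := LL) (Sum.inl F1.F) ![t]
def g' (a b c d : LL.Term ℕ) : LL.Term ℕ := Term.func (L := LL) (Sum.inr F2.g) ![a, b, c, d]

lemma c'_eq (a : K) : c' a = Term.func (L := LL) (Sum.inl (F1.k a)) ![] := by
  simp only [c', cst, LHom.onTerm]; congr; ext i; exact i.elim0

@[simp] lemma c'_subst (a : K) (σ : ℕ → LL.Term ℕ) :
    (LHom.sumInl.onTerm (cst a) : LL.Term ℕ).subst σ = c' a := by
  simp only [c', cst, LHom.onTerm, Term.subst]; congr; ext i; exact i.elim0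

lemma F'_subst (σ : ℕ → LL.Term ℕ) :
    (LHom.sumInl.onTerm (Fx (.var 0)) : LL.Term ℕ).subst σ = F' (σ 0) := by
  simp only [F', Fx, LHom.onTerm, Term.subst]; congr; ext i; fin_cases i; rfl

lemma g'_subst (σ : ℕ → LL.Term ℕ) :
    (LHom.sumInr.onTerm (gx (.var 0) (.var 1) (.var 2) (.var 3)) : LL.Term ℕ).subst σ
      = g' (σ 0) (σ 1) (σ 2) (σ 3) := by
  simp only [g', gx, LHom.onTerm, Term.subst]; congr; ext i; fin_cases i <;> rfl

abbrev U := union R1 R2

lemma uP (n : ℕ) (p : K × K) (hp : p ∈ P) : stepN U (n + 1) (c' p.1) (c' p.2) :=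
  Ctx.root ⟨_, Or.inl ⟨ρP p, Or.inl ⟨p, hp, rfl⟩, rfl⟩, Term.var, by simp [ρP, Rule.map],
    by simp [ρP, Rule.map], by simp [ρP, Rule.map]⟩

def σ0 : ℕ → LL.Term ℕ
  | 0 => c' .b
  | 1 => c' .y1
  | 2 => c' .y2
  | _ => c' .c

def t0 : LL.Term ℕ := g' (c' .b) (c' .y1) (c' .y2) (c' .c)

lemma ug (i : ℕ) (hi : ρg i ∈ R2) : stepN U 2 t0 (σ0 i) := by
  refine Ctx.root ⟨_, Or.inr ⟨ρg i, hi, rfl⟩, σ0, ?_, (g'_subst σ0).symm, rfl⟩
  intro c hc
  simp only [ρg, Rule.map, List.map_cons, List.map_nil, List.mem_cons, List.not_mem_nil,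
    or_false] at hc
  rcases hc with rfl | rfl | rfl
  · exact ⟨c' .b1, .single (uP 0 (.b, .b1) (by decide)), .single (uP 0 (.y1, .b1) (by decide))⟩
  · exact ⟨c' .b2, .single (uP 0 (.y1, .b2) (by decide)), .single (uP 0 (.y2, .b2) (by decide))⟩
  · exact ⟨c' .b3, .single (uP 0 (.y2, .b3) (by decide)), .single (uP 0 (.c, .b3) (by decide))⟩

lemma uF (a : K) (ha : ρF a ∈ R1) : stepN U 3 (F' t0) (c' a) := by
  refine Ctx.root ⟨_, Or.inl ⟨ρF a, ha, rfl⟩, fun _ => t0, ?_, (F'_subst fun _ => t0).symm,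
    (c'_subst _ _).symm⟩
  intro c hc
  simp only [ρF, Rule.map, List.map_cons, List.map_nil, List.mem_cons, List.not_mem_nil,
    or_false] at hc
  rcases hc with rfl | rfl
  · exact ⟨c' .b, .single (ug 0 (Or.inl rfl)), by rw [c'_subst]⟩
  · exact ⟨c' .c, .single (ug 3 (Or.inr rfl)), by rw [c'_subst]⟩

def hd' : LL.Term ℕ → Option K
  | .func (Sum.inl (F1.k a)) _ => some a
  | _ => none

lemma hd'_c (a : K) : hd' (c' a) = some a := rfl

lemma nf (a : K) (ha : ∀ p ∈ P, p.1 ≠ a) : IsNF U (c' a) := by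
  rintro t ⟨n, h⟩
  cases n with
  | zero => exact h.elim
  | succ n =>
    generalize hs : c' a = s at h
    have hs' : hd' s = some a := by rw [← hs, hd'_c]
    cases h with
    | root h =>
      obtain ⟨ρ, hρ, σ, -, rfl, rfl⟩ := h
      rcases hρ with ⟨ρ, hρ, rfl⟩ | ⟨ρ, hρ, rfl⟩
      · rcases hρ with ⟨p, hp, rfl⟩ | rfl | rfl
        · simp only [ρP, Rule.map, c'_subst, hd'_c] at hs'
          exact ha p hp (Option.some.inj hs')
        · simp only [ρF, Rule.map, F'_subst] at hs'
          cases hs'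
        · simp only [ρF, Rule.map, F'_subst] at hs'
          cases hs'
      · rcases hρ with rfl | rfl
        · simp only [ρg, Rule.map, g'_subst] at hs'
          cases hs'
        · simp only [ρg, Rule.map, g'_subst] at hs'
          cases hs'
    | arg f ts i t h =>
      rcases f with f | f
      · cases f with
        | k a => exact i.elim0
        | F => cases hs'
      · cases f
        cases hs'

lemma notUN : ¬ UN U := by
  intro h
  have := h (c' .d) (c' .e) (nf _ (by decide)) (nf _ (by decide))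
    (.trans _ (F' t0) _ (.symm _ _ (.rel _ _ ⟨3, uF .d (Or.inr (Or.inl rfl))⟩))
      (.rel _ _ ⟨3, uF .e (Or.inr (Or.inr rfl))⟩))
  have h2 := congrArg hd' this
  simp [hd'_c] at h2

lemma fin1 : IsFiniteCTRS R1 := by
  constructor
  · refine (((List.finite_toSet P).image ρP).union (Set.toFinite {ρF .d, ρF .e})).subset ?_
    rintro ρ (⟨p, hp, rfl⟩ | h)
    · exact Or.inl ⟨p, hp, rfl⟩
    · exact Or.inr h
  · rintro ρ (⟨p, hp, rfl⟩ | rfl | rfl)
    · simp [ρP, cst]
    · simp [ρF, cst, Fx]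
    · simp [ρF, cst, Fx]

lemma fin2 : IsFiniteCTRS R2 := by
  constructor
  · exact Set.toFinite {ρg 0, ρg 3}
  · rintro ρ (rfl | rfl) <;> simp [ρg, gx] <;> decide

end Pool.Agent.H43.CTRS
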