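import Pool.Agent.H43.ChcDefs

open MeasureTheory Set Filter Topology ProbabilityTheory

namespace Pool.Agent.H43.Chc

lemma IsFactor.comp {S' S R : Aut} {p : S'.X → S.X} {π : S.X → R.X} (hp : IsFactor S' S p)
    (hπ : IsFactor S R π) : IsFactor S' R (π ∘ p) := by
  refine ⟨hπ.1.comp hp.1, ?_⟩
  have h1 := hp.1.quasiMeasurePreserving.ae hπ.2
  filter_upwards [hp.2, h1] with x hx hx'
  simp only [Function.comp_apply]
  rw [hx, hx']

lemma A_pull {F : Aut → Prop} {S' S : Aut} {p : S'.X → S.X} (hp : IsFactor S' S p)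
    {E : Set S.X} (hE : E ∈ A F S) : p ⁻¹' E ∈ A F S' := by
  obtain ⟨hEm, R, π, D, hR, hπ, hD, hED⟩ := hE
  refine ⟨hp.1.measurable hEm, R, π ∘ p, D, hR, hp.comp hπ, hD, ?_⟩
  exact hp.1.quasiMeasurePreserving.preimage_ae_eq hED

lemma A_congr {F : Aut → Prop} {S : Aut} {E E' : Set S.X} (hE : MeasurableSet E)
    (hE' : E' ∈ A F S) (h : E =ᵐ[S.μ] E') : E ∈ A F S := by
  obtain ⟨_, R, π, D, hR, hπ, hD, hED⟩ := hE'
  exact ⟨hE, R, π, D, hR, hπ, hD, h.trans hED⟩

/-- The identity system. -/
def idAut (Y : Type) [MeasurableSpace Y] [StandardBorelSpace Y]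
    (ν : Measure Y) [IsProbabilityMeasure ν] : Aut where
  X := Y
  μ := ν
  T := MeasurableEquiv.refl Y
  mp := MeasurePreserving.id ν

lemma A_empty {F : Aut → Prop} (hF : CharClass F) (S : Aut) : (∅ : Set S.X) ∈ A F S := by
  refine ⟨MeasurableSet.empty, idAut Unit (Measure.dirac ()), fun _ => (), ∅,
    hF.ident _ (fun _ => rfl), ⟨⟨measurable_const, ?_⟩, Eventually.of_forall fun _ => rfl⟩,
    MeasurableSet.empty, by simp⟩
  change S.μ.map (fun _ => ()) = Measure.dirac ()
  simp

lemma A_iUnion {F : Aut → Prop} (hF : CharClass F) (S : Aut) (f : ℕ → Set S.X)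
    (hf : ∀ i, f i ∈ A F S) : (⋃ i, f i) ∈ A F S := by
  have hm : ∀ i, MeasurableSet (f i) := fun i => (hf i).1
  choose R π D hR hπ hD hED using fun i => (hf i).2
  let P : S.X → ∀ i, (R i).X := fun x i => π i x
  have hP : Measurable P := measurable_pi_lambda _ fun i => (hπ i).1.measurable
  let Tj := MeasurableEquiv.piCongrRight fun i => (R i).T
  have hcomm : (fun x => P (S.T x)) =ᵐ[S.μ] fun x => Tj (P x) := by
    have := ae_all_iff.2 fun i => (hπ i).2
    filter_upwards [this] with x hx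
    funext i
    exact hx i
  haveI : IsProbabilityMeasure (S.μ.map P) := Measure.isProbabilityMeasure_map hP.aemeasurable
  have hinv : MeasurePreserving Tj (S.μ.map P) (S.μ.map P) := by
    refine ⟨Tj.measurable, ?_⟩
    rw [Measure.map_map Tj.measurable hP]
    have h1 : S.μ.map (Tj ∘ P) = S.μ.map (P ∘ S.T) := Measure.map_congr hcomm.symm
    rw [h1, ← Measure.map_map hP S.T.measurable, S.mp.map_eq]
  have hJ : F (join R (S.μ.map P) hinv) := by
    refine hF.joining R _ hinv (fun i => ?_) hR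
    rw [Measure.map_map (measurable_pi_apply i) hP]
    exact (hπ i).1.map_eq
  refine ⟨MeasurableSet.iUnion hm, join R (S.μ.map P) hinv, P,
    ⋃ i, (fun z : (∀ i, (R i).X) => z i) ⁻¹' D i, hJ, ⟨⟨hP, rfl⟩, hcomm⟩,
    MeasurableSet.iUnion fun i => measurable_pi_apply i (hD i), ?_⟩
  have := Filter.EventuallyEq.countable_iUnion hED
  refine this.trans (Eventually.of_forall fun x => ?_)
  apply propext
  change x ∈ (⋃ i, π i ⁻¹' D i) ↔ P x ∈ (⋃ i, (fun z : (∀ i, (R i).X) => z i) ⁻¹' D i)
  simp [P]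

/-- The sigma-algebra `A F S`. -/
@[reducible] def sig {F : Aut → Prop} (hF : CharClass F) (S : Aut) : MeasurableSpace S.X where
  MeasurableSet' E := E ∈ A F S
  measurableSet_empty := A_empty hF S
  measurableSet_compl E hE := by
    obtain ⟨hEm, R, π, D, hR, hπ, hD, hED⟩ := hE
    exact ⟨hEm.compl, R, π, Dᶜ, hR, hπ, hD.compl, hED.compl⟩
  measurableSet_iUnion := A_iUnion hF S

lemma sig_le {F : Aut → Prop} (hF : CharClass F) (S : Aut) : sig hF S ≤ S.m :=
  fun _ hE => hE.1

lemma gen_eq {F : Aut → Prop} (hF : CharClass F) (S : Aut) :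
    MeasurableSpace.generateFrom (A F S) = sig hF S :=
  @MeasurableSpace.generateFrom_measurableSet _ (sig hF S)

/-- Integer powers. -/
def zp (S : Aut) (n : ℤ) : S.X → S.X := ((S.T.toEquiv : Equiv.Perm S.X) ^ n : Equiv.Perm S.X)

lemma zp_zero (S : Aut) (x : S.X) : zp S 0 x = x := by simp [zp]

lemma zp_succ (S : Aut) (n : ℤ) (x : S.X) : zp S (n + 1) x = zp S n (S.T x) := by
  simp [zp, zpow_add_one]

lemma zp_pred (S : Aut) (n : ℤ) (x : S.X) : zp S (n - 1) x = zp S n (S.T.symm x) := by
  have := zp_succ S (n - 1) (S.T.symm x)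
  simp only [sub_add_cancel, MeasurableEquiv.apply_symm_apply] at this
  exact this.symm

lemma zp_mp (S : Aut) (n : ℤ) : MeasurePreserving (zp S n) S.μ S.μ := by
  induction n using Int.induction_on with
  | zero =>
    have : zp S 0 = id := funext (zp_zero S)
    rw [this]; exact MeasurePreserving.id _
  | succ n ih =>
    have : zp S (n + 1) = zp S n ∘ S.T := funext (zp_succ S n)
    rw [this]; exact ih.comp S.mp
  | pred n ih =>
    have : zp S (-n - 1) = zp S (-n) ∘ S.T.symm := funext (zp_pred S (-n))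
    rw [this]; exact ih.comp (S.mp.symm S.T)

lemma IsFactor.zp {S R : Aut} {π : S.X → R.X} (h : IsFactor S R π) (n : ℤ) :
    ∀ᵐ x ∂S.μ, π (zp S n x) = zp R n (π x) := by
  induction n using Int.induction_on with
  | zero => exact Eventually.of_forall fun x => by rw [zp_zero, zp_zero]
  | succ n ih =>
    filter_upwards [S.mp.quasiMeasurePreserving.ae ih, h.2] with x hx hx'
    rw [zp_succ, zp_succ, hx, hx']
  | pred n ih =>
    filter_upwards [(S.mp.symm S.T).quasiMeasurePreserving.ae ih,
      (S.mp.symm S.T).quasiMeasurePreserving.ae h.2] with x hx hx'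
    rw [zp_pred, zp_pred, hx]
    simp only [MeasurableEquiv.apply_symm_apply] at hx'
    rw [hx', MeasurableEquiv.symm_apply_apply]

/-- The left shift on `ℤ → Prop`. -/
def shift : (ℤ → Prop) ≃ᵐ (ℤ → Prop) where
  toFun w n := w (n + 1)
  invFun w n := w (n - 1)
  left_inv w := by funext n; simp
  right_inv w := by funext n; simp
  measurable_toFun := measurable_pi_lambda _ fun n => measurable_pi_apply _
  measurable_invFun := measurable_pi_lambda _ fun n => measurable_pi_apply _

/-- Itinerary map. -/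
def itin (S : Aut) (B : Set S.X) (x : S.X) : ℤ → Prop := fun n => zp S n x ∈ B

lemma itin_meas (S : Aut) {B : Set S.X} (hB : MeasurableSet B) : Measurable (itin S B) :=
  measurable_pi_lambda _ fun n =>
    (measurableSet_setOfPred.1 (show MeasurableSet {x | x ∈ B} from hB)).comp (zp_mp S n).measurable

lemma itin_T (S : Aut) (B : Set S.X) (x : S.X) : itin S B (S.T x) = shift (itin S B x) := by
  funext n
  change (zp S n (S.T x) ∈ B) = (zp S (n + 1) x ∈ B)
  rw [zp_succ]

lemma itin_inv (S : Aut) {B : Set S.X} (hB : MeasurableSet B) :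
    MeasurePreserving shift (S.μ.map (itin S B)) (S.μ.map (itin S B)) := by
  refine ⟨shift.measurable, ?_⟩
  rw [Measure.map_map shift.measurable (itin_meas S hB)]
  have : shift ∘ itin S B = itin S B ∘ S.T := funext fun x => (itin_T S B x).symm
  rw [this, ← Measure.map_map (itin_meas S hB) S.T.measurable, S.mp.map_eq]

/-- The symbolic factor generated by a set. -/
noncomputable def symb (S : Aut) {B : Set S.X} (hB : MeasurableSet B) : Aut where
  X := ℤ → Prop
  μ := S.μ.map (itin S B)
  prob := Measure.isProbabilityMeasure_map (itin_meas S hB).aemeasurable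
  T := shift
  mp := itin_inv S hB

lemma A_descend {F : Aut → Prop} (hF : CharClass F) {S' S : Aut} {p : S'.X → S.X}
    (hp : IsFactor S' S p) {B : Set S.X} (hB : MeasurableSet B) (h : p ⁻¹' B ∈ A F S') :
    B ∈ A F S := by
  obtain ⟨_, R, π, D, hR, hπ, hD, hED⟩ := h
  have hfac : IsFactor R (symb R hD) (itin R D) :=
    ⟨⟨itin_meas R hD, rfl⟩, Eventually.of_forall fun x => itin_T R D x⟩
  have hae : itin R D ∘ π =ᵐ[S'.μ] itin S B ∘ p := by
    have h1 := ae_all_iff.2 fun n : ℤ => hp.zp n
    have h2 := ae_all_iff.2 fun n : ℤ => hπ.zp n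
    have h3 := ae_all_iff.2 fun n : ℤ => (zp_mp S' n).quasiMeasurePreserving.ae hED
    filter_upwards [h1, h2, h3] with x a1 a2 a3
    funext n
    change (zp R n (π x) ∈ D) = (zp S n (p x) ∈ B)
    rw [← a1 n, ← a2 n]
    exact (a3 n).symm
  have hmap : S.μ.map (itin S B) = R.μ.map (itin R D) := by
    rw [← hp.1.map_eq, ← hπ.1.map_eq, Measure.map_map (itin_meas S hB) hp.1.measurable,
      Measure.map_map (itin_meas R hD) hπ.1.measurable]
    exact (Measure.map_congr hae).symm
  refine ⟨hB, symb R hD, itin S B, {w : ℤ → Prop | w 0}, hF.factor R _ _ hR hfac,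
    ⟨⟨itin_meas S hB, hmap⟩, Eventually.of_forall fun x => itin_T S B x⟩,
    measurableSet_setOfPred.2 (measurable_pi_apply 0), Eventually.of_forall fun x => ?_⟩
  change (x ∈ B) = (zp S 0 x ∈ B)
  rw [zp_zero]

end Pool.Agent.H43.Chc
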