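import Pool.Agent.H43.Chc1

open MeasureTheory Set Filter Topology ProbabilityTheory

namespace Pool.Agent.H43.Chc

variable {F : Aut → Prop} (S : Aut) (Y : Type) [MeasurableSpace Y] [StandardBorelSpace Y]
  (ν : Measure Y) [IsProbabilityMeasure ν]

lemma fst_factor : IsFactor (prodId S Y ν) S Prod.fst :=
  ⟨measurePreserving_fst, Eventually.of_forall fun _ => rfl⟩

lemma snd_mem (hF : CharClass F) {C : Set Y} (hC : MeasurableSet C) :
    (Prod.snd ⁻¹' C : Set (S.X × Y)) ∈ A F (prodId S Y ν) :=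
  ⟨measurable_snd hC, idAut Y ν, Prod.snd, C, hF.ident _ (fun _ => rfl),
    ⟨measurePreserving_snd (μ := S.μ) (ν := ν), Eventually.of_forall fun _ => rfl⟩, hC, EventuallyEq.rfl⟩

lemma coord_factor (i : ℕ) :
    IsFactor (prodId S (ℕ → Y) (Measure.infinitePi fun _ => ν)) (prodId S Y ν)
      (fun z : S.X × (ℕ → Y) => (z.1, z.2 i)) :=
  ⟨(MeasurePreserving.id S.μ).prod (measurePreserving_eval_infinitePi (fun _ : ℕ => ν) i),
    Eventually.of_forall fun _ => rfl⟩

lemma slln {D : Set Y} (hD : MeasurableSet D) :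
    ∀ᵐ w ∂(Measure.infinitePi fun _ : ℕ => ν), Tendsto
      (fun n : ℕ => (∑ i ∈ Finset.range n, D.indicator (fun _ => (1 : ℝ)) (w i)) / n) atTop
      (𝓝 (ν D).toReal) := by
  have hm : Measurable (D.indicator (fun _ => (1 : ℝ))) := measurable_const.indicator hD
  have hev := fun i : ℕ => measurePreserving_eval_infinitePi (fun _ : ℕ => ν) i
  have hint : Integrable (D.indicator (fun _ => (1 : ℝ))) ν := (integrable_const 1).indicator hD
  have h := strong_law_ae_real (μ := Measure.infinitePi fun _ : ℕ => ν)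
    (fun i w => D.indicator (fun _ => (1 : ℝ)) (w i))
    ((hev 0).integrable_comp_of_integrable hint)
    (fun i j hij => (iIndepFun_infinitePi (P := fun _ : ℕ => ν)
      (X := fun _ => D.indicator (fun _ => (1 : ℝ))) fun _ => hm).indepFun hij)
    (fun i => by
      have : IdentDistrib (fun w : ℕ → Y => w i) (fun w : ℕ → Y => w 0)
          (Measure.infinitePi fun _ : ℕ => ν) (Measure.infinitePi fun _ : ℕ => ν) :=
        ⟨(measurable_pi_apply i).aemeasurable, (measurable_pi_apply 0).aemeasurable,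
          (hev i).map_eq.trans (hev 0).map_eq.symm⟩
      exact this.comp hm)
  have h0 : ∫ w, D.indicator (fun _ => (1 : ℝ)) (w 0) ∂(Measure.infinitePi fun _ : ℕ => ν)
      = (ν D).toReal := by
    have h1 := integral_map (μ := Measure.infinitePi fun _ : ℕ => ν) (φ := fun w : ℕ → Y => w 0)
      (measurable_pi_apply 0).aemeasurable (f := D.indicator (fun _ => (1 : ℝ)))
      hm.aestronglyMeasurable
    rw [← h1, (hev 0).map_eq, integral_indicator hD]
    simp [Measure.real]
  rw [h0] at h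
  exact h

lemma section_meas (hF : CharClass F) {G : Set (S.X × Y)} (hG : G ∈ A F (prodId S Y ν)) :
    Measurable[sig hF S] fun x => ν (Prod.mk x ⁻¹' G) := by
  have hGm : MeasurableSet G := hG.1
  have hf : Measurable fun x : S.X => (ν (Prod.mk x ⁻¹' G)).toReal :=
    (measurable_measure_prodMk_left hGm).ennreal_toReal
  let S' := prodId S (ℕ → Y) (Measure.infinitePi fun _ => ν)
  let a : ℕ → S.X × (ℕ → Y) → ℝ := fun n z =>
    (∑ i ∈ Finset.range n, (Prod.mk z.1 ⁻¹' G).indicator (fun _ => (1 : ℝ)) (z.2 i)) / n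
  have ha : ∀ n, Measurable[sig hF S'] (a n) := by
    intro n
    refine Measurable.div_const (Finset.measurable_sum _ fun i _ => ?_) _
    have h1 : MeasurableSet[sig hF S'] ((fun z : S.X × (ℕ → Y) => (z.1, z.2 i)) ⁻¹' G) :=
      A_pull (coord_factor S Y ν i) hG
    exact Measurable.indicator (s := (fun z : S.X × (ℕ → Y) => (z.1, z.2 i)) ⁻¹' G)
      (f := fun _ => (1 : ℝ)) measurable_const h1
  have hh : Measurable[sig hF S'] fun z => limsup (fun n => a n z) atTop := Measurable.limsup ha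
  have hh' : Measurable fun z : S.X × (ℕ → Y) => limsup (fun n => a n z) atTop :=
    hh.mono (sig_le hF S') le_rfl
  have hae : ∀ᵐ z ∂(S.μ.prod (Measure.infinitePi fun _ : ℕ => ν)),
      limsup (fun n => a n z) atTop = (ν (Prod.mk z.1 ⁻¹' G)).toReal := by
    refine (Measure.ae_prod_iff_ae_ae (measurableSet_eq_fun hh' (hf.comp measurable_fst))).2 ?_
    refine Eventually.of_forall fun x => ?_
    filter_upwards [slln Y ν (measurable_prodMk_left hGm : MeasurableSet (Prod.mk x ⁻¹' G))]
      with w hw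
    exact hw.limsup_eq
  have hfs : Measurable[sig hF S] fun x : S.X => (ν (Prod.mk x ⁻¹' G)).toReal := by
    refine @measurable_of_Ioi _ _ _ _ _ (sig hF S) _ _ _ _ fun t => ?_
    refine A_descend hF (fst_factor S (ℕ → Y) (Measure.infinitePi fun _ => ν))
      (hf measurableSet_Ioi) ?_
    refine A_congr (S := S') (measurable_fst (hf measurableSet_Ioi)) (hh (measurableSet_Ioi (a := t))) ?_
    filter_upwards [hae] with z hz
    change ((ν (Prod.mk z.1 ⁻¹' G)).toReal ∈ Ioi t) = (limsup (fun n => a n z) atTop ∈ Ioi t)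
    rw [hz]
  have := hfs.ennreal_ofReal
  simpa [ENNReal.ofReal_toReal (measure_ne_top ν _)] using this

lemma exists_version {α : Type} (m : MeasurableSpace α) {E : Set (α × Y)}
    (hE : ∀ x, MeasurableSet (Prod.mk x ⁻¹' E))
    (h : ∀ C, MeasurableSet C → Measurable fun x => ν (C ∩ Prod.mk x ⁻¹' E)) :
    ∃ E' : Set (α × Y), MeasurableSet E' ∧ ∀ x, ∀ᵐ y ∂ν, ((x, y) ∈ E ↔ (x, y) ∈ E') := by
  let κ : Kernel α Y := ⟨fun x => ν.restrict (Prod.mk x ⁻¹' E),
    Measure.measurable_of_measurable_coe _ fun C hC => by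
      simp only [Measure.restrict_apply hC]; exact h C hC⟩
  haveI : IsFiniteKernel κ := ⟨⟨1, ENNReal.one_lt_top, fun x => by
    change ν.restrict _ univ ≤ 1
    rw [Measure.restrict_apply MeasurableSet.univ]; exact prob_le_one⟩⟩
  refine ⟨{z | Kernel.rnDeriv κ (Kernel.const α ν) z.1 z.2 = 1},
    measurableSet_eq_fun (Kernel.measurable_rnDeriv κ _) measurable_const, fun x => ?_⟩
  have h1 : Kernel.rnDeriv κ (Kernel.const α ν) x =ᵐ[ν]
      (ν.restrict (Prod.mk x ⁻¹' E)).rnDeriv ν :=
    Kernel.rnDeriv_eq_rnDeriv_measure (κ := κ) (η := Kernel.const α ν) (a := x)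
  filter_upwards [h1, Measure.rnDeriv_restrict_self ν (hE x)] with y a1 a2
  change _ ↔ Kernel.rnDeriv κ (Kernel.const α ν) x y = 1
  rw [a1, a2]
  by_cases hy : y ∈ Prod.mk x ⁻¹' E
  · simp only [indicator_of_mem hy, Pi.one_apply, iff_true]; exact hy
  · simp only [indicator_of_notMem hy, zero_ne_one, iff_false]; exact hy

theorem main (hF : CharClass F) {E : Set (S.X × Y)} (hE : MeasurableSet E) :
    E ∈ A F (prodId S Y ν) ↔ ∃ E' : Set (S.X × Y),
      MeasurableSet[(sig hF S).prod inferInstance] E' ∧ E =ᵐ[S.μ.prod ν] E' := by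
  have hle : (sig hF S).prod (inferInstance : MeasurableSpace Y) ≤ sig hF (prodId S Y ν) := by
    refine sup_le ?_ ?_
    · rintro _ ⟨B, hB, rfl⟩
      exact A_pull (fst_factor S Y ν) hB
    · rintro _ ⟨C, hC, rfl⟩
      exact snd_mem S Y ν hF hC
  constructor
  · intro hA
    obtain ⟨E', hE', h⟩ := exists_version Y ν (sig hF S) (E := E)
      (fun x => measurable_prodMk_left hE) (fun C hC => by
        have h1 : (Prod.snd ⁻¹' C ∩ E : Set (S.X × Y)) ∈ A F (prodId S Y ν) :=
          MeasurableSet.inter (m := sig hF (prodId S Y ν)) (snd_mem S Y ν hF hC) hA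
        exact section_meas S Y ν hF h1)
    refine ⟨E', hE', ?_⟩
    have hE'm : MeasurableSet E' := sig_le hF (prodId S Y ν) _ (hle _ hE')
    have : ∀ᵐ z ∂(S.μ.prod ν), (z ∈ E ↔ z ∈ E') := by
      rw [Measure.ae_prod_iff_ae_ae]
      · exact Eventually.of_forall h
      · exact hE.iff hE'm
    filter_upwards [this] with z hz
    exact propext hz
  · rintro ⟨E', hE', h⟩
    exact A_congr (S := prodId S Y ν) hE (hle _ hE') h

end Pool.Agent.H43.Chc
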