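import Mathlib

/-! Characteristic classes of automorphisms of standard probability spaces. -/

open MeasureTheory Set

namespace Pool.Agent.H43.Chc

/-- An automorphism of a standard probability space. -/
structure Aut where
  X : Type
  [m : MeasurableSpace X]
  [sb : StandardBorelSpace X]
  μ : Measure X
  [prob : IsProbabilityMeasure μ]
  T : X ≃ᵐ X
  mp : MeasurePreserving T μ μ

attribute [instance] Aut.m Aut.sb Aut.prob

/-- `π` is a factor map from `S` onto `R`. -/
def IsFactor (S R : Aut) (π : S.X → R.X) : Prop :=
  MeasurePreserving π S.μ R.μ ∧ (fun x => π (S.T x)) =ᵐ[S.μ] fun x => R.T (π x)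

/-- The product map of a sequence of automorphisms with an invariant probability measure. -/
def join (R : ℕ → Aut) (l : Measure (∀ i, (R i).X)) [IsProbabilityMeasure l]
    (h : MeasurePreserving (MeasurableEquiv.piCongrRight fun i => (R i).T) l l) : Aut where
  X := ∀ i, (R i).X
  μ := l
  T := MeasurableEquiv.piCongrRight fun i => (R i).T
  mp := h

/-- A characteristic class: closed under factors (in particular under isomorphism) and under
countable joinings, and containing every identity map. -/
structure CharClass (F : Aut → Prop) : Prop where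
  factor : ∀ (S R : Aut) (π : S.X → R.X), F S → IsFactor S R π → F R
  joining : ∀ (R : ℕ → Aut) (l : Measure (∀ i, (R i).X)) [IsProbabilityMeasure l]
    (h : MeasurePreserving (MeasurableEquiv.piCongrRight fun i => (R i).T) l l),
    (∀ i, l.map (fun z => z i) = (R i).μ) → (∀ i, F (R i)) → F (join R l h)
  ident : ∀ S : Aut, (∀ x, S.T x = x) → F S

/-- The measurable sets that belong, modulo null sets, to some factor of `S` lying in `F`. -/
def A (F : Aut → Prop) (S : Aut) : Set (Set S.X) :=
  {E | MeasurableSet E ∧ ∃ (R : Aut) (π : S.X → R.X) (D : Set R.X),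
    F R ∧ IsFactor S R π ∧ MeasurableSet D ∧ E =ᵐ[S.μ] π ⁻¹' D}

/-- The automorphism `T × Id` of `(X × Y, μ ⊗ ν)`. -/
noncomputable def prodId (S : Aut) (Y : Type) [MeasurableSpace Y] [StandardBorelSpace Y]
    (ν : Measure Y) [IsProbabilityMeasure ν] : Aut where
  X := S.X × Y
  μ := S.μ.prod ν
  T := MeasurableEquiv.prodCongr S.T (MeasurableEquiv.refl Y)
  mp := S.mp.prod (MeasurePreserving.id ν)

end Pool.Agent.H43.Chc
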