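import Mathlib

namespace Pool.Agent.H43.Chq

open Set Filter Topology MeasureTheory Real
open Finset (range)

/-- Trigonometric polynomials of degree at most `n`, phase form. -/
def V (n : ℕ) : Submodule ℝ (ℝ → ℝ) :=
  Submodule.span ℝ {f | ∃ (k : ℤ) (φ : ℝ), k.natAbs ≤ n ∧ f = fun θ => cos (k * θ + φ)}

/-- Trigonometric polynomials of degree at most `n`. -/
def T (n : ℕ) : Submodule ℝ (ℝ → ℝ) :=
  Submodule.span ℝ {f | ∃ k : ℕ, k ≤ n ∧ (f = (fun θ => cos (k * θ)) ∨ f = fun θ => sin (k * θ))}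

lemma gen_mem {n : ℕ} (k : ℤ) (φ : ℝ) (h : k.natAbs ≤ n) : (fun θ => cos (k * θ + φ)) ∈ V n :=
  Submodule.subset_span ⟨k, φ, h, rfl⟩

lemma mem_congr {S : Submodule ℝ (ℝ → ℝ)} {f g : ℝ → ℝ} (h : f ∈ S) (e : ∀ x, f x = g x) :
    g ∈ S := (funext e : f = g) ▸ h

lemma V_mono {a b : ℕ} (h : a ≤ b) : V a ≤ V b :=
  Submodule.span_mono fun _ ⟨k, φ, h1, h2⟩ => ⟨k, φ, h1.trans h, h2⟩

lemma V_mul {a b : ℕ} {f g : ℝ → ℝ} (hf : f ∈ V a) (hg : g ∈ V b) : f * g ∈ V (a + b) := by
  have : V a * V b ≤ V (a + b) := by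
    rw [V, V, Submodule.span_mul_span, Submodule.span_le]
    rintro _ ⟨_, ⟨k, φ, h1, rfl⟩, _, ⟨l, χ, h2, rfl⟩, rfl⟩
    have e : ((fun θ : ℝ => cos (k * θ + φ)) * fun θ : ℝ => cos (l * θ + χ)) =
        (1 / 2 : ℝ) • ((fun θ : ℝ => cos (((k + l : ℤ) : ℝ) * θ + (φ + χ))) +
          fun θ : ℝ => cos (((k - l : ℤ) : ℝ) * θ + (φ - χ))) := by
      ext θ
      simp only [Pi.mul_apply, Pi.smul_apply, Pi.add_apply, smul_eq_mul]
      rw [show ((k + l : ℤ) : ℝ) * θ + (φ + χ) = (k * θ + φ) + (l * θ + χ) by push_cast; ring,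
        show ((k - l : ℤ) : ℝ) * θ + (φ - χ) = (k * θ + φ) - (l * θ + χ) by push_cast; ring,
        cos_add (k * θ + φ), cos_sub (k * θ + φ)]
      ring
    simp only [SetLike.mem_coe]
    rw [e]
    exact Submodule.smul_mem _ _ (Submodule.add_mem _ (gen_mem _ _ (by omega))
      (gen_mem _ _ (by omega)))
  exact this (Submodule.mul_mem_mul hf hg)

lemma V_one (n : ℕ) : (fun _ => (1:ℝ)) ∈ V n := by simpa using gen_mem (n := n) 0 0 (by simp)

lemma V_cos : cos ∈ V 1 := by simpa using gen_mem (n := 1) 1 0 (by simp)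

lemma V_sin : sin ∈ V 1 := by
  have := gen_mem (n := 1) 1 (-(π / 2)) (by simp)
  simpa only [Int.cast_one, one_mul, ← sub_eq_add_neg, cos_sub_pi_div_two] using this

lemma V_pow {a : ℕ} {f : ℝ → ℝ} (hf : f ∈ V a) (k : ℕ) : (fun θ => f θ ^ k) ∈ V (k * a) := by
  induction k with
  | zero => simpa using V_one 0
  | succ k ih =>
    have := V_mul ih hf
    rw [Nat.succ_mul]
    exact (by ext θ; simp [pow_succ] : (fun θ => f θ ^ k) * f = fun θ => f θ ^ (k + 1)) ▸ this

lemma V_cont {n : ℕ} {f : ℝ → ℝ} (hf : f ∈ V n) : Continuous f := by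
  induction hf using Submodule.span_induction with
  | mem f h => obtain ⟨k, φ, _, rfl⟩ := h; fun_prop
  | zero => exact continuous_const
  | add f g _ _ h1 h2 => exact h1.add h2
  | smul a f _ h => exact h.const_smul a

lemma V_per {n : ℕ} {f : ℝ → ℝ} (hf : f ∈ V n) : Function.Periodic f (2 * π) := by
  induction hf using Submodule.span_induction with
  | mem f h =>
    obtain ⟨k, φ, _, rfl⟩ := h
    intro θ
    simp only
    rw [← cos_add_int_mul_two_pi (k * θ + φ) k]; congr 1; ring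
  | zero => exact fun _ => rfl
  | add f g _ _ h1 h2 => exact h1.add h2
  | smul a f _ h => exact h.smul a

lemma V_shift {n : ℕ} {f : ℝ → ℝ} (hf : f ∈ V n) (c : ℝ) : (fun θ => f (θ + c)) ∈ V n := by
  induction hf using Submodule.span_induction with
  | mem f h =>
    obtain ⟨k, φ, h, rfl⟩ := h
    simpa only [mul_add, add_assoc] using gen_mem k (k * c + φ) h
  | zero => exact (V n).zero_mem
  | add f g _ _ h1 h2 => exact (V n).add_mem h1 h2
  | smul a f _ h => exact (V n).smul_mem a h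

lemma T_eq_V (n : ℕ) : T n = V n := by
  refine le_antisymm (Submodule.span_le.2 ?_) (Submodule.span_le.2 ?_)
  · rintro _ ⟨k, h, rfl | rfl⟩
    · simpa using gen_mem (n := n) k 0 (by simpa using h)
    · have := gen_mem (n := n) k (-(π / 2)) (by simpa using h)
      simpa only [Int.cast_natCast, ← sub_eq_add_neg, cos_sub_pi_div_two, SetLike.mem_coe] using this
  · rintro _ ⟨k, φ, h, rfl⟩
    have h1 : (fun θ : ℝ => cos (k.natAbs * θ)) ∈ T n := Submodule.subset_span ⟨_, h, Or.inl rfl⟩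
    have h2 : (fun θ : ℝ => sin (k.natAbs * θ)) ∈ T n := Submodule.subset_span ⟨_, h, Or.inr rfl⟩
    obtain ⟨m, rfl | rfl⟩ := Int.eq_nat_or_neg k
    · have := (T n).sub_mem ((T n).smul_mem (cos φ) h1) ((T n).smul_mem (sin φ) h2)
      refine mem_congr this fun θ => ?_
      simp [cos_add]; ring
    · have := (T n).add_mem ((T n).smul_mem (cos φ) h1) ((T n).smul_mem (sin φ) h2)
      refine mem_congr this fun θ => ?_
      simp [cos_add]; ring

lemma sum_cos {N : ℕ} {k : ℤ} (h0 : k ≠ 0) (hk : k.natAbs < N) (φ : ℝ) :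
    ∑ j ∈ range N, cos (k * (2 * π * j / N) + φ) = 0 := by
  have hN : (N : ℂ) ≠ 0 := by exact_mod_cast (by omega : N ≠ 0)
  set ζ : ℂ := Complex.exp (2 * π * Complex.I * k / N) with hζ
  have z1 : ζ ^ N = 1 := by
    rw [hζ, ← Complex.exp_nat_mul, Complex.exp_eq_one_iff]
    exact ⟨k, by field_simp⟩
  have z2 : ζ ≠ 1 := by
    rw [hζ, Ne, Complex.exp_eq_one_iff]
    rintro ⟨l, hl⟩
    have hp : (π : ℂ) ≠ 0 := by exact_mod_cast pi_ne_zero
    field_simp at hl
    have : k = N * l := by exact_mod_cast hl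
    have h3 : k.natAbs = N * l.natAbs := by rw [this, Int.natAbs_mul, Int.natAbs_natCast]
    have : l.natAbs ≠ 0 := fun h => by rw [h] at h3; omega
    nlinarith [Nat.pos_of_ne_zero this]
  have : ∑ j ∈ range N, ζ ^ j = 0 := by rw [geom_sum_eq z2, z1, sub_self, zero_div]
  have e := congrArg (fun z => (Complex.exp (φ * Complex.I) * z).re) this
  simp only [Finset.mul_sum, mul_zero, Complex.zero_re, Complex.re_sum] at e
  rw [← e]
  refine Finset.sum_congr rfl fun j _ => ?_
  rw [hζ, ← Complex.exp_nat_mul, ← Complex.exp_add, ← Complex.exp_ofReal_mul_I_re]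
  congr 2; push_cast; ring

lemma V_exact {n N : ℕ} (hN : n < N) {f : ℝ → ℝ} (hf : f ∈ V n) :
    2 * π * ∑ j ∈ range N, f (2 * π * j / N) = N * ∫ u in (-(π / 2))..(-(π / 2) + 2 * π), f u := by
  induction hf using Submodule.span_induction with
  | mem f h =>
    obtain ⟨k, φ, h, rfl⟩ := h
    by_cases h0 : k = 0
    · subst h0; simp; ring
    · have hk : (k : ℝ) ≠ 0 := by exact_mod_cast h0
      rw [sum_cos h0 (by omega), intervalIntegral.integral_comp_mul_add (f := cos) hk, integral_cos,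
        show (k : ℝ) * (-(π / 2) + 2 * π) + φ = (k * (-(π / 2)) + φ) + k * (2 * π) by ring,
        sin_add_int_mul_two_pi]
      simp
  | zero => simp
  | add f g hf hg h1 h2 =>
    simp only [Pi.add_apply]
    rw [intervalIntegral.integral_add ((V_cont hf).intervalIntegrable _ _)
      ((V_cont hg).intervalIntegrable _ _), Finset.sum_add_distrib]
    linarith
  | smul a f _ h =>
    simp only [Pi.smul_apply, smul_eq_mul]
    rw [intervalIntegral.integral_const_mul, ← Finset.mul_sum]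
    linear_combination a * h

lemma sin_exact {n N : ℕ} (hN : n < N) {G : ℝ → ℝ} (hf : (fun u => G (sin u)) ∈ V n) :
    π * ∑ j ∈ range N, G (sin (2 * π * j / N)) = N * ∫ u in (-(π / 2))..(π / 2), G (sin u) := by
  have h := V_exact hN hf
  have hc := V_cont hf
  rw [← intervalIntegral.integral_add_adjacent_intervals (b := π / 2) (hc.intervalIntegrable _ _)
    (hc.intervalIntegrable _ _)] at h
  have e := intervalIntegral.integral_comp_sub_left (a := -(π / 2)) (b := π / 2)
    (fun u => G (sin u)) π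
  simp only [sin_pi_sub] at e
  rw [show -(π / 2) + 2 * π = π - -(π / 2) by ring,
    show (∫ u in π / 2..π - -(π / 2), G (sin u)) = ∫ u in π - π / 2..π - -(π / 2), G (sin u) by
      congr 1; ring, ← e] at h
  linarith

lemma odd_sum {G : ℝ → ℝ} (hG : ∀ x, G (-x) = -G x) (N : ℕ) :
    ∑ j ∈ range N, G (sin (2 * π * j / N)) = 0 := by
  have g0 : G 0 = 0 := by have := hG 0; rw [neg_zero] at this; linarith
  rcases N.eq_zero_or_pos with rfl | hN
  · simp
  have hN' : (N : ℝ) ≠ 0 := by positivity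
  have h := Finset.sum_flip (n := N) fun j : ℕ => G (sin (2 * π * j / N))
  have h2 : ∑ j ∈ range (N + 1), G (sin (2 * π * (N - j : ℕ) / N)) =
      -∑ j ∈ range (N + 1), G (sin (2 * π * j / N)) := by
    rw [← Finset.sum_neg_distrib]
    refine Finset.sum_congr rfl fun j hj => ?_
    rw [Nat.cast_sub (Nat.lt_succ_iff.1 (Finset.mem_range.1 hj)), ← hG, ← sin_two_pi_sub]
    congr 2; field_simp
  rw [h2, Finset.sum_range_succ, mul_div_cancel_right₀ _ hN', sin_two_pi, g0] at h
  linarith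

lemma odd_int {G : ℝ → ℝ} (hG : ∀ x, G (-x) = -G x) :
    ∫ u in (-(π / 2))..(π / 2), G (sin u) = 0 := by
  have e := intervalIntegral.integral_comp_neg (a := -(π / 2)) (b := π / 2) fun u => G (sin u)
  simp only [sin_neg, hG, neg_neg, intervalIntegral.integral_neg] at e
  linarith

lemma push {ψ ψ' W : ℝ → ℝ} (hψ : ∀ u ∈ Ioo (-(π / 2)) (π / 2), HasDerivAt ψ (ψ' u) u)
    (inj : InjOn ψ (Ioo (-(π / 2)) (π / 2))) (im : MapsTo ψ (Ioo (-(π / 2)) (π / 2)) (Ioo (-π) π))
    (hW : ∀ u ∈ Ioo (-(π / 2)) (π / 2), |ψ' u| * W (ψ u) = 1)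
    (h0 : ∀ θ ∈ Ioo (-π) π \ ψ '' Ioo (-(π / 2)) (π / 2), W θ = 0) :
    IntervalIntegrable W volume (-π) π ∧
      ∀ F : ℝ → ℝ, ∫ θ in (-π)..π, F θ * W θ = ∫ u in (-(π / 2))..(π / 2), F (ψ u) := by
  have hp := pi_pos
  have hd := fun u hu => (hψ u hu).hasDerivWithinAt (s := Ioo (-(π / 2)) (π / 2))
  refine ⟨(intervalIntegrable_iff_integrableOn_Ioo_of_le (by linarith)).2 ?_, fun F => ?_⟩
  · refine IntegrableOn.of_forall_sdiff_eq_zero ?_ measurableSet_Ioo h0
    rw [integrableOn_image_iff_integrableOn_abs_deriv_smul measurableSet_Ioo hd inj]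
    exact (integrableOn_const (C := (1:ℝ)) (by simp)).congr_fun (fun u hu => (hW u hu).symm)
      measurableSet_Ioo
  · rw [intervalIntegral.integral_of_le (by linarith), intervalIntegral.integral_of_le (by linarith),
      integral_Ioc_eq_integral_Ioo, integral_Ioc_eq_integral_Ioo,
      setIntegral_eq_of_subset_of_forall_sdiff_eq_zero measurableSet_Ioo im.image_subset
        (fun θ hθ => by rw [h0 θ hθ, mul_zero]),
      integral_image_eq_integral_abs_deriv_smul measurableSet_Ioo hd inj]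
    refine setIntegral_congr_fun measurableSet_Ioo fun u hu => ?_
    simp only [smul_eq_mul]
    linear_combination F (ψ u) * hW u hu

lemma cos_two_arcsin {a : ℝ} (h : |a| ≤ 1) : cos (2 * arcsin a) = 1 - 2 * a ^ 2 := by
  rw [cos_two_mul, cos_sq', sin_arcsin (abs_le.1 h).1 (abs_le.1 h).2]; ring

lemma cheb {D : ℕ} {a : ℝ → ℝ} (ha : a ∈ V D) (h1 : ∀ u, |a u| ≤ 1) (k : ℕ) :
    (fun u => cos (k * (2 * arcsin (a u)))) ∈ V (k * (D + D)) := by
  have c1 : (fun u => cos (2 * arcsin (a u))) ∈ V (D + D) := by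
    have := (V (D + D)).sub_mem (V_one _) ((V (D + D)).smul_mem 2 (V_mul ha ha))
    refine mem_congr this fun u => ?_
    simp [cos_two_arcsin (h1 u), sq]
  induction k using Nat.twoStepInduction with
  | zero => simpa using V_one 0
  | one => simpa using c1
  | more k ih1 ih2 =>
    have := (V ((k + 2) * (D + D))).sub_mem ((V _).smul_mem 2
      (V_mono (le_of_eq (by ring)) (V_mul ih2 c1))) (V_mono (by nlinarith) ih1)
    refine mem_congr this fun u => ?_
    simp only [Pi.sub_apply, Pi.smul_apply, Pi.mul_apply, smul_eq_mul]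
    set x := 2 * arcsin (a u)
    rw [show ((k + 2 : ℕ) : ℝ) * x = (k + 1 : ℕ) * x + x by push_cast; ring,
      show (k : ℝ) * x = (k + 1 : ℕ) * x - x by push_cast; ring, cos_add, cos_sub]
    ring

/-- Exactness of the pushed-forward equispaced nodes. -/
lemma exact_push {D n N : ℕ} {h : ℝ → ℝ} (ha : (fun u => h (sin u)) ∈ V D)
    (h1 : ∀ u, |h (sin u)| ≤ 1) (ho : ∀ x, h (-x) = -h x) (hN : n * (D + D) < N) {p : ℝ → ℝ}
    (hp : p ∈ T n) : π * ∑ j ∈ range N, p (2 * arcsin (h (sin (2 * π * j / N)))) =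
      N * ∫ u in (-(π / 2))..(π / 2), p (2 * arcsin (h (sin u))) := by
  have hc : ∀ p ∈ T n, Continuous fun u => p (2 * arcsin (h (sin u))) := fun p hp =>
    (V_cont (T_eq_V n ▸ hp)).comp (continuous_const.mul (continuous_arcsin.comp (V_cont ha)))
  induction hp using Submodule.span_induction with
  | mem f hf =>
    obtain ⟨k, hk, rfl | rfl⟩ := hf
    · exact sin_exact (G := fun x => cos (k * (2 * arcsin (h x)))) hN
        (V_mono (Nat.mul_le_mul_right _ hk) (cheb ha h1 k))
    · have o : ∀ x, sin (k * (2 * arcsin (h (-x)))) = -sin (k * (2 * arcsin (h x))) := fun x => by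
        rw [ho, arcsin_neg, mul_neg, mul_neg, sin_neg]
      rw [odd_sum (G := fun x => sin (k * (2 * arcsin (h x)))) o,
        odd_int (G := fun x => sin (k * (2 * arcsin (h x)))) o]
      simp
  | zero => simp
  | add f g hf hg h1 h2 =>
    simp only [Pi.add_apply]
    rw [intervalIntegral.integral_add ((hc f hf).intervalIntegrable _ _)
      ((hc g hg).intervalIntegrable _ _), Finset.sum_add_distrib]
    linarith
  | smul a f _ h =>
    simp only [Pi.smul_apply, smul_eq_mul]
    rw [intervalIntegral.integral_const_mul, ← Finset.mul_sum]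
    linear_combination a * h

end Pool.Agent.H43.Chq
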