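import Pool.Agent.H43.Chq1

namespace Pool.Agent.H43.Chq

open Set Filter Topology MeasureTheory Real
open Finset (range)

/-- Equal-weight quadrature of degree `n` with `N` nodes. -/
def Quad (W : ℝ → ℝ) (n N : ℕ) : Prop :=
  ∃ (θ : Fin N → ℝ) (w : ℝ), Monotone θ ∧ ∀ p ∈ T n, ∫ x in (-π)..π, p x * W x = w * ∑ j, p (θ j)

lemma quad_of {W : ℝ → ℝ} {n N : ℕ} {ι : Type} [Fintype ι] (θ : ι → ℝ) (w : ℝ)
    (hc : Fintype.card ι = N) (h : ∀ p ∈ T n, ∫ x in (-π)..π, p x * W x = w * ∑ j, p (θ j)) :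
    Quad W n N := by
  set e := (Fintype.equivFinOfCardEq hc).symm
  refine ⟨(θ ∘ e) ∘ Tuple.sort (θ ∘ e), w, Tuple.monotone_sort _, fun p hp => ?_⟩
  rw [h p hp, ← e.sum_comp, ← Equiv.sum_comp (Tuple.sort (θ ∘ e))]
  rfl

/-- The arcsine-type weight on the arc `|θ| < π / 3`. -/
noncomputable def W1 (θ : ℝ) : ℝ := √(1 + cos θ) / √(4 * cos θ - 2)

/-- Its shifted multiple. -/
noncomputable def W2 (θ : ℝ) : ℝ := (√2 - 1) * W1 (θ + π)

lemma half_le (u : ℝ) : |sin u / 2| ≤ 1 / 2 := by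
  rw [abs_div, abs_two]; linarith [abs_sin_le_one u]

lemma W1_push : IntervalIntegrable W1 volume (-π) π ∧ ∀ F : ℝ → ℝ,
    ∫ θ in (-π)..π, F θ * W1 θ = ∫ u in (-(π / 2))..(π / 2), F (2 * arcsin (sin u / 2)) := by
  have b := fun u => abs_le.1 (half_le u)
  refine push (ψ' := fun u => 2 * (1 / √(1 - (sin u / 2) ^ 2) * (cos u / 2))) (fun u _ => ?_)
    (fun u hu v hv h => ?_) (fun u _ => ⟨?_, ?_⟩) (fun u hu => ?_) fun θ hθ => ?_
  · exact ((hasDerivAt_arcsin (by linarith [b u]) (by linarith [b u])).comp u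
      ((hasDerivAt_sin u).div_const 2)).const_mul 2
  · have := injOn_arcsin ⟨by linarith [b u], by linarith [b u]⟩ ⟨by linarith [b v], by linarith [b v]⟩
      (mul_left_cancel₀ two_ne_zero h : arcsin (sin u / 2) = arcsin (sin v / 2))
    exact injOn_sin (Ioo_subset_Icc_self hu) (Ioo_subset_Icc_self hv) (by linarith)
  · have := neg_pi_div_two_lt_arcsin.2 (by linarith [b u] : -1 < sin u / 2); linarith
  · have := arcsin_lt_pi_div_two.2 (by linarith [b u] : sin u / 2 < 1); linarith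
  · have c := cos_pos_of_mem_Ioo hu
    have d : 0 < 1 - (sin u / 2) ^ 2 := by nlinarith [b u]
    have d' := sqrt_pos.2 d
    rw [W1, cos_two_arcsin (by linarith [half_le u]), abs_of_pos (by positivity),
      show 1 + (1 - 2 * (sin u / 2) ^ 2) = 2 * (1 - (sin u / 2) ^ 2) by ring,
      show 4 * (1 - 2 * (sin u / 2) ^ 2) - 2 = 2 * cos u ^ 2 by rw [cos_sq']; ring,
      sqrt_mul zero_le_two, sqrt_mul zero_le_two, sqrt_sq c.le]
    generalize √(1 - (sin u / 2) ^ 2) = r at d'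
    field_simp
  · by_contra hn
    have h1 : 0 < 4 * cos θ - 2 := by
      by_contra h; exact hn (by rw [W1, sqrt_eq_zero_of_nonpos (not_lt.1 h), div_zero])
    have h2 : cos θ = 1 - 2 * sin (θ / 2) ^ 2 := by
      rw [show θ = 2 * (θ / 2) by ring, cos_two_mul, cos_sq']; ring_nf
    have h3 : -1 < 2 * sin (θ / 2) ∧ 2 * sin (θ / 2) < 1 := by constructor <;> nlinarith
    refine hθ.2 ⟨arcsin (2 * sin (θ / 2)), ⟨neg_pi_div_two_lt_arcsin.2 h3.1,
      arcsin_lt_pi_div_two.2 h3.2⟩, ?_⟩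
    simp only
    rw [sin_arcsin h3.1.le h3.2.le, mul_div_cancel_left₀ _ two_ne_zero,
      arcsin_sin (by linarith [hθ.1.1]) (by linarith [hθ.1.2])]
    ring

lemma W1_per : Function.Periodic W1 (2 * π) := fun θ => by simp [W1]

lemma W2_per : Function.Periodic W2 (2 * π) := fun θ => by
  rw [W2, W2, add_right_comm, W1_per]

lemma W2_push : IntervalIntegrable W2 volume (-π) π ∧ ∀ F : ℝ → ℝ, Function.Periodic F (2 * π) →
    ∫ θ in (-π)..π, F θ * W2 θ =
      (√2 - 1) * ∫ u in (-(π / 2))..(π / 2), F (2 * arcsin (sin u / 2) + -π) := by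
  have hp := pi_pos
  have e : π = -π + 2 * π := by ring
  constructor
  · have := (W1_per.intervalIntegrable (t := -π) (by positivity) (e ▸ W1_push.1) (-π + π)
      (π + π)).comp_add_right π
    simp only [add_sub_cancel_right] at this
    exact this.const_mul _
  · intro F hF
    rw [← W1_push.2 fun θ => F (θ + -π), ← intervalIntegral.integral_const_mul]
    have h1 := intervalIntegral.integral_comp_add_right (a := -π) (b := π)
      (fun y => (√2 - 1) * (F (y + -π) * W1 y)) π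
    have h2 : Function.Periodic (fun y => (√2 - 1) * (F (y + -π) * W1 y)) (2 * π) := fun y => by
      simp only [W1_per y, add_right_comm y, hF (y + -π)]
    have h3 := h2.intervalIntegral_add_eq (-π + π) (-π)
    rw [← e, show -π + π + 2 * π = π + π by ring, ← h1] at h3
    rw [← h3]
    congr 1; ext θ; simp only [W2, add_neg_cancel_right]; ring

lemma half_V : (fun u => sin u / 2) ∈ V 1 :=
  mem_congr ((V 1).smul_mem (1 / 2) V_sin) fun u => by simp; ring

lemma exact_half {n N : ℕ} (hN : 2 * n < N) {p : ℝ → ℝ} (hp : p ∈ T n) :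
    ∫ u in (-(π / 2))..(π / 2), p (2 * arcsin (sin u / 2)) =
      π / N * ∑ j : Fin N, p (2 * arcsin (sin (2 * π * j / N) / 2)) := by
  have := exact_push (h := fun x => x / 2) (N := N) half_V (fun u => by linarith [half_le u])
    (fun x => by ring) (by omega) hp
  have h0 : (N : ℝ) ≠ 0 := by exact_mod_cast (by omega : N ≠ 0)
  rw [Fin.sum_univ_eq_sum_range (fun j : ℕ => p (2 * arcsin (sin (2 * π * j / N) / 2))),
    div_mul_eq_mul_div, this]
  field_simp

lemma W1_quad {n N : ℕ} (hN : 2 * n < N) : Quad W1 n N :=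
  quad_of (ι := Fin N) _ _ (by simp) fun p hp => by rw [W1_push.2, exact_half hN hp]

lemma W2_quad {n N : ℕ} (hN : 2 * n < N) : Quad W2 n N :=
  quad_of (ι := Fin N) (fun j => 2 * arcsin (sin (2 * π * j / N) / 2) + -π) ((√2 - 1) * (π / N))
    (by simp) fun p hp => by
    rw [W2_push.2 p (V_per (T_eq_V n ▸ hp)), exact_half hN (p := fun θ => p (θ + -π))
      (T_eq_V n ▸ V_shift (T_eq_V n ▸ hp) _), mul_assoc]

/-- Polynomial approximations of the sign function. -/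
noncomputable def q : ℕ → ℝ → ℝ
  | 0, x => x
  | k + 1, x => q k x * (3 - q k x ^ 2) / 2

lemma q_odd (k : ℕ) (x : ℝ) : q k (-x) = -q k x := by
  induction k with
  | zero => rfl
  | succ k ih => simp only [q, ih]; ring

lemma q_mem (k : ℕ) {x : ℝ} (h0 : 0 ≤ x) (h1 : x ≤ 1) :
    0 ≤ q k x ∧ q k x ≤ 1 ∧ 1 - q k x ^ 2 ≤ (1 - x ^ 2) ^ 2 ^ k := by
  induction k with
  | zero => simp [q, h0, h1]
  | succ k ih =>
    obtain ⟨a, b, c⟩ := ih
    have d : 0 ≤ 1 - q k x ^ 2 := by nlinarith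
    simp only [q]
    refine ⟨by have : 0 ≤ 3 - q k x ^ 2 := by linarith
               positivity, by nlinarith [mul_nonneg (sq_nonneg (1 - q k x)) (by linarith : 0 ≤ 2 + q k x)], ?_⟩
    rw [pow_succ 2, pow_mul]
    have e := pow_le_pow_left₀ d c 2
    nlinarith [mul_nonneg (sq_nonneg (1 - q k x ^ 2)) (sq_nonneg (q k x))]

lemma q_V (k : ℕ) : (fun θ => q k (cos θ)) ∈ V (3 ^ k) := by
  induction k with
  | zero => exact V_cos
  | succ k ih =>
    have := (V (3 ^ (k + 1))).sub_mem ((V _).smul_mem (3 / 2) (V_mono (Nat.pow_le_pow_right (by norm_num) k.le_succ) ih))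
      ((V _).smul_mem (1 / 2) (V_mono (le_of_eq (by ring)) (V_pow ih 3)))
    exact mem_congr this fun θ => by simp [q]; ring

lemma W_int {G : ℝ → ℝ} {n : ℕ} (hG : (fun θ => G (cos θ)) ∈ V n) :
    ∫ θ in (-π)..π, G (cos θ) * (W1 θ + W2 θ) =
      (∫ u in (-(π / 2))..(π / 2), G (1 - 2 * (sin u / 2) ^ 2)) +
      (√2 - 1) * ∫ u in (-(π / 2))..(π / 2), G (-(1 - 2 * (sin u / 2) ^ 2)) := by
  simp only [mul_add]
  rw [intervalIntegral.integral_add (W1_push.1.continuousOn_mul (V_cont hG).continuousOn)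
    (W2_push.1.continuousOn_mul (V_cont hG).continuousOn), W1_push.2, W2_push.2 _ (V_per hG)]
  simp only [← sub_eq_add_neg, cos_sub_pi, cos_two_arcsin ((half_le _).trans (by norm_num))]

lemma no_quad {k N : ℕ} (hQ : Quad (fun θ => W1 θ + W2 θ) (2 * 3 ^ k) N) :
    1 ≤ 8 * (N : ℝ) ^ 2 * (3 / 4) ^ 2 ^ k := by
  obtain ⟨θ, w, -, h⟩ := hQ
  rw [T_eq_V] at h
  have hp := pi_pos
  set ρ : ℝ := (3 / 4) ^ 2 ^ k with hρ
  have s2 : √2 * √2 = 2 := mul_self_sqrt zero_le_two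
  have s1 : 1 < √2 := by nlinarith [sqrt_nonneg 2]
  have s3 : √2 < 2 := by nlinarith
  have m1 := V_one (2 * 3 ^ k)
  have m2 : (fun θ => q k (cos θ)) ∈ V (2 * 3 ^ k) := V_mono (by omega) (q_V k)
  have m3 : (fun θ => 1 - q k (cos θ) ^ 2) ∈ V (2 * 3 ^ k) := (V _).sub_mem m1 (V_pow (q_V k) 2)
  have e1 := (h _ m1).symm.trans (W_int (G := fun _ => 1) m1)
  have e2 := (h _ m2).symm.trans (W_int (G := q k) m2)
  have e3 := (h _ m3).symm.trans (W_int (G := fun x => 1 - q k x ^ 2) m3)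
  simp only [q_odd, neg_sq, intervalIntegral.integral_neg] at e2 e3
  simp only [Finset.sum_const, Finset.card_univ, Fintype.card_fin, nsmul_eq_mul, mul_one,
    intervalIntegral.integral_const, smul_eq_mul] at e1
  have y1 : ∀ u, 0 ≤ 1 - q k (1 - 2 * (sin u / 2) ^ 2) ∧ 1 - q k (1 - 2 * (sin u / 2) ^ 2) ≤
      1 - q k (1 - 2 * (sin u / 2) ^ 2) ^ 2 ∧ 1 - q k (1 - 2 * (sin u / 2) ^ 2) ^ 2 ≤ ρ := fun u => by
    have a := sin_sq_le_one u
    have a' := sq_nonneg (sin u)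
    obtain ⟨b, c, d⟩ := q_mem k (x := 1 - 2 * (sin u / 2) ^ 2) (by nlinarith) (by nlinarith)
    exact ⟨by linarith, by nlinarith,
      d.trans (pow_le_pow_left₀ (by nlinarith) (by nlinarith) _)⟩
  have i1 := intervalIntegral.norm_integral_le_of_norm_le_const (a := -(π / 2)) (b := π / 2)
    (f := fun u => 1 - q k (1 - 2 * (sin u / 2) ^ 2) ^ 2) (C := ρ) fun u _ => by
      rw [Real.norm_eq_abs, abs_of_nonneg (by linarith [y1 u])]; exact (y1 u).2.2
  have i2 := intervalIntegral.norm_integral_le_of_norm_le_const (a := -(π / 2)) (b := π / 2)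
    (f := fun u => 1 - q k (1 - 2 * (sin u / 2) ^ 2)) (C := ρ) fun u _ => by
      rw [Real.norm_eq_abs, abs_of_nonneg (y1 u).1]; linarith [y1 u]
  have qc : Continuous (q k) := by
    clear * -
    induction k with
    | zero => exact continuous_id
    | succ k ih => exact (ih.mul (continuous_const.sub (ih.pow 2))).div_const 2
  have qc' : Continuous fun u => q k (1 - 2 * (sin u / 2) ^ 2) := by fun_prop
  rw [intervalIntegral.integral_sub intervalIntegrable_const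
    (qc'.intervalIntegrable _ _), intervalIntegral.integral_const] at i2
  rw [show π / 2 - -(π / 2) = π by ring, abs_of_pos hp, Real.norm_eq_abs, abs_le] at i1 i2
  simp only [smul_eq_mul, mul_one] at i2
  set I1 := ∫ u in (-(π / 2))..(π / 2), (1 - q k (1 - 2 * (sin u / 2) ^ 2) ^ 2)
  set I2 := ∫ u in (-(π / 2))..(π / 2), q k (1 - 2 * (sin u / 2) ^ 2)
  have e1' : w * N = √2 * π := by linarith
  have hN : (0:ℝ) < N := by
    rcases (Nat.cast_nonneg N : (0:ℝ) ≤ N).eq_or_lt with h | h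
    · rw [← h] at e1'; nlinarith
    · exact h
  have hw : 0 < w := (mul_pos_iff_of_pos_right hN).1 (by rw [e1']; positivity)
  set s : Fin N → ℤ := fun j => if 0 ≤ cos (θ j) then 1 else -1 with hs
  have z1 : ∀ j, |q k (cos (θ j)) - s j| ≤ 1 - q k (cos (θ j)) ^ 2 ∧ |(s j : ℝ)| ≤ 1 := fun j => by
    simp only [hs]
    split_ifs with c
    · obtain ⟨a, b, -⟩ := q_mem k c (cos_le_one _)
      exact ⟨abs_le.2 ⟨by push_cast; nlinarith, by push_cast; nlinarith⟩, by simp⟩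
    · obtain ⟨a, b, -⟩ := q_mem k (x := -cos (θ j)) (by linarith) (by linarith [neg_one_le_cos (θ j)])
      rw [q_odd] at a b
      exact ⟨abs_le.2 ⟨by push_cast; nlinarith, by push_cast; nlinarith⟩, by simp⟩
  have z2 : |∑ j, q k (cos (θ j)) - (∑ j, s j : ℤ)| ≤ ∑ j, (1 - q k (cos (θ j)) ^ 2) := by
    rw [Int.cast_sum, ← Finset.sum_sub_distrib]
    exact (Finset.abs_sum_le_sum_abs _ _).trans (Finset.sum_le_sum fun j _ => (z1 j).1)
  have z3 : |((∑ j, s j : ℤ) : ℝ)| ≤ N := by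
    rw [Int.cast_sum]
    exact (Finset.abs_sum_le_sum_abs _ _).trans ((Finset.sum_le_sum fun j _ => (z1 j).2).trans
      (by simp))
  set A := ∑ j, s j
  set S2 := ∑ j, q k (cos (θ j))
  set S3 := ∑ j, (1 - q k (cos (θ j)) ^ 2)
  have r1 : w * (N * ρ) = √2 * (ρ * π) := by linear_combination ρ * e1'
  have f3 : S3 ≤ N * ρ := le_of_mul_le_mul_left
    (by linarith [mul_le_mul_of_nonneg_left i1.2 (sqrt_nonneg 2)]) hw
  have f2 : |S2 - (√2 - 1) * N| ≤ N * ρ := by
    have : w * (S2 - (√2 - 1) * N) = (2 - √2) * (I2 - π) := by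
      linear_combination e2 - (√2 - 1) * e1' - π * s2
    have r0 : 0 ≤ ρ * π := by positivity
    exact abs_le.2 ⟨le_of_mul_le_mul_left (by nlinarith [i2.1, i2.2]) hw,
      le_of_mul_le_mul_left (by nlinarith [i2.1, i2.2]) hw⟩
  have g1 : |√2 * N - (A + N : ℤ)| ≤ 2 * N * ρ := by
    rw [abs_le] at *
    push_cast
    constructor <;> linarith [f2.1, f2.2, z2.1, z2.2]
  have g2 : |√2 * N + (A + N : ℤ)| ≤ 4 * N := by
    rw [abs_le] at *
    push_cast
    constructor <;> nlinarith [z3.1, z3.2]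
  have irr := irrational_sqrt_two.mul_natCast (m := N) (by exact_mod_cast hN.ne')
  have g3 : (2 * N ^ 2 - (A + N) ^ 2 : ℤ) ≠ 0 := by
    intro h0
    have : (√2 * N - (A + N : ℤ)) * (√2 * N + (A + N : ℤ)) = 0 := by
      have : ((2 * N ^ 2 - (A + N) ^ 2 : ℤ) : ℝ) = 0 := by exact_mod_cast h0
      push_cast at this ⊢
      linear_combination this + N ^ 2 * s2
    rcases mul_eq_zero.1 this with h | h
    · exact irr.ne_int (A + N) (by linarith)
    · exact irr.ne_int (-(A + N)) (by push_cast at h ⊢; linarith)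
  have g4 : (1:ℝ) ≤ |((2 * N ^ 2 - (A + N) ^ 2 : ℤ) : ℝ)| := by exact_mod_cast Int.one_le_abs g3
  have g5 : ((2 * N ^ 2 - (A + N) ^ 2 : ℤ) : ℝ) =
      (√2 * N - (A + N : ℤ)) * (√2 * N + (A + N : ℤ)) := by
    push_cast; linear_combination -N ^ 2 * s2
  rw [g5, abs_mul] at g4
  exact g4.trans ((mul_le_mul g1 g2 (abs_nonneg _) (by positivity)).trans (le_of_eq (by ring)))

lemma exists_k (M : ℕ) : ∃ k : ℕ, ∀ N ≤ M * (2 * (2 * 3 ^ k) + 1),
    ¬ Quad (fun θ => W1 θ + W2 θ) (2 * 3 ^ k) N := by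
  have t := ((tendsto_pow_const_mul_const_pow_of_abs_lt_one 4 (r := 3 / 4)
    (by rw [abs_of_pos] <;> norm_num)).comp
    (tendsto_pow_atTop_atTop_of_one_lt (one_lt_two (α := ℕ)))).const_mul (8 * (5 * M : ℝ) ^ 2)
  rw [mul_zero] at t
  obtain ⟨k, hk⟩ := (t.eventually (gt_mem_nhds one_pos)).exists
  refine ⟨k, fun N hN hQ => (hk.trans_le (no_quad hQ)).not_ge ?_⟩
  have a : N ≤ 5 * M * (2 ^ k) ^ 2 := by
    have : 3 ^ k ≤ (2 ^ k) ^ 2 := by
      rw [← pow_mul, mul_comm, pow_mul]; exact Nat.pow_le_pow_left (by norm_num) k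
    have : 0 < 3 ^ k := by positivity
    nlinarith [Nat.mul_le_mul_left M (by omega : 2 * (2 * 3 ^ k) + 1 ≤ 5 * (2 ^ k) ^ 2)]
  have a' : (N : ℝ) ≤ 5 * M * ((2 ^ k : ℕ) : ℝ) ^ 2 := by exact_mod_cast a
  simp only [Function.comp]
  calc _ ≤ 8 * (5 * M * ((2 ^ k : ℕ) : ℝ) ^ 2) ^ 2 * (3 / 4) ^ 2 ^ k := by gcongr
    _ = _ := by ring

end Pool.Agent.H43.Chq
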