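import Pool.Agent.H43.Chq2

namespace Pool.Agent.H43.Chq

open Set Filter Topology MeasureTheory Real
open Finset (range)

/-- Even polynomials of degree at most `2 n`. -/
def P (n : ℕ) : Submodule ℝ (ℝ → ℝ) :=
  Submodule.span ℝ {f | ∃ i : ℕ, i ≤ n ∧ f = fun a => a ^ (2 * i)}

lemma P_mono {a b : ℕ} (h : a ≤ b) : P a ≤ P b :=
  Submodule.span_mono fun _ ⟨k, h1, h2⟩ => ⟨k, h1.trans h, h2⟩

lemma P_sq {n : ℕ} {G : ℝ → ℝ} (hG : G ∈ P n) : (fun a => a ^ 2 * G a) ∈ P (n + 1) := by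
  induction hG using Submodule.span_induction with
  | mem f h =>
    obtain ⟨i, h, rfl⟩ := h
    exact Submodule.subset_span ⟨i + 1, by omega, by ext a; ring⟩
  | zero => exact mem_congr (P _).zero_mem fun a => by simp
  | add f g _ _ h1 h2 => exact mem_congr ((P _).add_mem h1 h2) fun a => by simp [mul_add]
  | smul c f _ h => exact mem_congr ((P _).smul_mem c h) fun a => by simp; ring

lemma chebP (k : ℕ) : ∃ G ∈ P k, ∀ a, |a| ≤ 1 → cos (k * (2 * arcsin a)) = G a := by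
  have o : ∀ n, (fun _ => (1:ℝ)) ∈ P n := fun n => Submodule.subset_span ⟨0, by omega, by simp⟩
  induction k using Nat.twoStepInduction with
  | zero => exact ⟨_, o 0, fun a _ => by simp⟩
  | one =>
    exact ⟨_, (P 1).sub_mem (o 1) ((P 1).smul_mem 2 (P_sq (o 0))), fun a h => by
      simp [cos_two_arcsin h]⟩
  | more k ih1 ih2 =>
    obtain ⟨G1, h1, e1⟩ := ih1
    obtain ⟨G2, h2, e2⟩ := ih2
    refine ⟨_, (P (k + 2)).sub_mem ((P _).sub_mem ((P _).smul_mem 2 (P_mono (by omega) h2))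
      ((P _).smul_mem 4 (P_sq h2))) (P_mono (by omega) h1), fun a h => ?_⟩
    simp only [Pi.sub_apply, Pi.smul_apply, smul_eq_mul, ← e1 a h, ← e2 a h]
    have c := cos_two_arcsin h
    set x := 2 * arcsin a
    rw [show ((k + 2 : ℕ) : ℝ) * x = (k + 1 : ℕ) * x + x by push_cast; ring,
      show (k : ℝ) * x = (k + 1 : ℕ) * x - x by push_cast; ring, cos_add, cos_sub, c]
    ring

/-- Symmetric node systems with prescribed even moments. -/
def SQ (μ : ℕ → ℝ) (n N : ℕ) : Prop :=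
  ∃ (ι : Type) (_ : Fintype ι) (a : ι → ℝ), Fintype.card ι = N ∧ (∀ j, |a j| ≤ 1) ∧
    (∀ G : ℝ → ℝ, (∀ x, G (-x) = -G x) → ∑ j, G (a j) = 0) ∧
    ∀ k ≤ n, π * ∑ j, a j ^ (2 * k) = N * μ k

/-- Even moments. -/
noncomputable def mom (h : ℝ → ℝ) (k : ℕ) : ℝ := ∫ u in (-(π / 2))..(π / 2), h (sin u) ^ (2 * k)

lemma SQ.add {μ : ℕ → ℝ} {n N M : ℕ} (h1 : SQ μ n N) (h2 : SQ μ n M) : SQ μ n (N + M) := by
  obtain ⟨ι, _, a, c, b, o, e⟩ := h1
  obtain ⟨ι', _, a', c', b', o', e'⟩ := h2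
  refine ⟨ι ⊕ ι', inferInstance, Sum.elim a a', by simp [c, c'], fun j => by cases j <;> simp [*],
    fun G hG => by simp [o G hG, o' G hG], fun k hk => ?_⟩
  simp only [Fintype.sum_sum_type, Sum.elim_inl, Sum.elim_inr, Nat.cast_add]
  linarith [e k hk, e' k hk]

lemma SQ.all {μ : ℕ → ℝ} {n M : ℕ} (hM : 0 < M) (h : ∀ N, M ≤ N → N < 2 * M → SQ μ n N) (N : ℕ)
    (hN : M ≤ N) : SQ μ n N := by
  induction N using Nat.strong_induction_on with
  | _ N ih =>
    by_cases c : N < 2 * M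
    · exact h N hN c
    · have := (h M le_rfl (by omega)).add (ih (N - M) (by omega) (by omega))
      rwa [Nat.add_sub_cancel' hN] at this

lemma SQ.quad {W h : ℝ → ℝ} {n N : ℕ} (hN : 0 < N) (hc : Continuous fun u => h (sin u))
    (h1 : ∀ u, |h (sin u)| ≤ 1) (ho : ∀ x, h (-x) = -h x)
    (hW : ∀ F : ℝ → ℝ, ∫ θ in (-π)..π, F θ * W θ =
      ∫ u in (-(π / 2))..(π / 2), F (2 * arcsin (h (sin u)))) (hS : SQ (mom h) n N) :
    Quad W n N := by
  obtain ⟨ι, _, a, c, b, o, e⟩ := hS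
  have pc : ∀ G ∈ P n, Continuous G := fun G hG => by
    induction hG using Submodule.span_induction with
    | mem f h => obtain ⟨i, _, rfl⟩ := h; fun_prop
    | zero => exact continuous_const
    | add f g _ _ h1 h2 => exact h1.add h2
    | smul a f _ h => exact h.const_smul a
  have pe : ∀ G ∈ P n, π * ∑ j, G (a j) = N * ∫ u in (-(π / 2))..(π / 2), G (h (sin u)) := by
    intro G hG
    induction hG using Submodule.span_induction with
    | mem f h => obtain ⟨i, hi, rfl⟩ := h; exact e i hi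
    | zero => simp
    | add f g hf hg h1 h2 =>
      simp only [Pi.add_apply]
      rw [intervalIntegral.integral_add (f := fun u => f (h (sin u))) (g := fun u => g (h (sin u)))
        (((pc f hf).comp hc).intervalIntegrable _ _)
        (((pc g hg).comp hc).intervalIntegrable _ _), Finset.sum_add_distrib]
      linarith
    | smul a f _ h =>
      simp only [Pi.smul_apply, smul_eq_mul]
      rw [intervalIntegral.integral_const_mul, ← Finset.mul_sum]
      linear_combination a * h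
  have hc' : ∀ p ∈ T n, Continuous fun u => p (2 * arcsin (h (sin u))) := fun p hp =>
    (V_cont (T_eq_V n ▸ hp)).comp (continuous_const.mul (continuous_arcsin.comp hc))
  have key : ∀ p ∈ T n, π * ∑ j, p (2 * arcsin (a j)) =
      N * ∫ u in (-(π / 2))..(π / 2), p (2 * arcsin (h (sin u))) := by
    intro p hp
    induction hp using Submodule.span_induction with
    | mem f hf =>
      obtain ⟨k, hk, rfl | rfl⟩ := hf
      · obtain ⟨G, hG, e⟩ := chebP k
        simp only [e _ (b _), e _ (h1 _)]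
        exact pe G (P_mono hk hG)
      · rw [o (fun x => sin (k * (2 * arcsin x))) fun x => by
            rw [arcsin_neg, mul_neg, mul_neg, sin_neg],
          odd_int (G := fun x => sin (k * (2 * arcsin (h x)))) fun x => by
            rw [ho, arcsin_neg, mul_neg, mul_neg, sin_neg]]
        simp
    | zero => simp
    | add f g hf hg h1 h2 =>
      simp only [Pi.add_apply]
      rw [intervalIntegral.integral_add ((hc' f hf).intervalIntegrable _ _)
        ((hc' g hg).intervalIntegrable _ _), Finset.sum_add_distrib]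
      linarith
    | smul a f _ h =>
      simp only [Pi.smul_apply, smul_eq_mul]
      rw [intervalIntegral.integral_const_mul, ← Finset.mul_sum]
      linear_combination a * h
  refine quad_of (fun j => 2 * arcsin (a j)) (π / N) c fun p hp => ?_
  have : (N : ℝ) ≠ 0 := by positivity
  rw [hW, div_mul_eq_mul_div, key p hp]
  field_simp

lemma perturb {n : ℕ} {y : Fin n → ℝ} (hy : Function.Injective y) (h01 : ∀ j, y j ∈ Ioo (0:ℝ) 1) :
    ∃ η > 0, ∀ d : Fin n → ℝ, (∀ k, |d k| ≤ η) → ∃ y' : Fin n → ℝ, (∀ j, y' j ∈ Ioo (0:ℝ) 1) ∧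
      ∀ k : Fin n, ∑ j, y' j ^ ((k : ℕ) + 1) = ∑ j, y j ^ ((k : ℕ) + 1) + d k := by
  set L : (Fin n → ℝ) →L[ℝ] (Fin n → ℝ) := ContinuousLinearMap.pi fun k : Fin n =>
    ∑ j, ((((k : ℕ) + 1 : ℕ) : ℝ) * y j ^ ((k : ℕ) + 1 - 1)) • ContinuousLinearMap.proj j with hL
  have hd : HasStrictFDerivAt (fun (z : Fin n → ℝ) (k : Fin n) => ∑ j, z j ^ ((k : ℕ) + 1)) L y :=
    hasStrictFDerivAt_pi.2 fun k => HasStrictFDerivAt.fun_sum fun j _ =>
      HasStrictDerivAt.comp_hasStrictFDerivAt (f := fun z : Fin n → ℝ => z j) y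
        (hasStrictDerivAt_pow ((k : ℕ) + 1) (y j)) (hasStrictFDerivAt_apply (𝕜 := ℝ) j y)
  have inj : Function.Injective L.toLinearMap := by
    rw [injective_iff_map_eq_zero]
    intro δ hδ
    refine Matrix.eq_zero_of_forall_pow_sum_mul_pow_eq_zero hy fun k => ?_
    have := congrFun hδ k
    simp only [hL, ContinuousLinearMap.coe_coe, ContinuousLinearMap.pi_apply,
      ContinuousLinearMap.sum_apply, ContinuousLinearMap.smul_apply, ContinuousLinearMap.proj_apply,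
      smul_eq_mul, mul_assoc, ← Finset.mul_sum, Pi.zero_apply, Nat.add_sub_cancel] at this
    simpa only [mul_comm] using (mul_eq_zero.1 this).resolve_left (by positivity)
  have hm := hd.map_nhds_eq_of_surj
    (LinearMap.range_eq_top.2 (LinearMap.injective_iff_surjective.1 inj))
  have hU : {z : Fin n → ℝ | ∀ j, z j ∈ Ioo (0:ℝ) 1} ∈ 𝓝 y :=
    eventually_all.2 fun j => (continuous_apply j).continuousAt.eventually
      (Ioo_mem_nhds (h01 j).1 (h01 j).2)
  obtain ⟨ε, hε, hb⟩ := Metric.nhds_basis_closedBall.mem_iff.1 (hm ▸ image_mem_map hU)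
  refine ⟨ε, hε, fun d hd => ?_⟩
  obtain ⟨z, hz, e⟩ := hb (show (fun k : Fin n => ∑ j, y j ^ ((k : ℕ) + 1)) + d ∈ _ by
    rw [mem_closedBall_iff_norm, add_sub_cancel_left]
    exact (pi_norm_le_iff_of_nonneg hε.le).2 hd)
  exact ⟨z, hz, fun k => congrFun e k⟩

lemma robust {D n : ℕ} {g : ℝ → ℝ} (hg : (fun u => g (sin u)) ∈ V D) (ho : ∀ x, g (-x) = -g x)
    (hm : StrictMonoOn g (Icc 0 1)) (h1 : ∀ u, |g (sin u)| < 1) :
    ∃ η > 0, ∀ μ : ℕ → ℝ, μ 0 = π → (∀ k ≤ n, |μ k - mom g k| ≤ η) →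
      ∀ N, 3 * ((2 * D + 4) * n + 1) ≤ N → SQ μ n N := by
  have hp := pi_gt_three
  obtain ⟨r, hr⟩ : ∃ r, (2 * D + 4) * n + 1 = n + r := ⟨(2 * D + 3) * n + 1, by ring⟩
  set m := (2 * D + 4) * n + 1 with hm'
  have m0 : (0:ℝ) < m := by positivity
  have g0 : g 0 = 0 := by have := ho 0; rw [neg_zero] at this; linarith
  have ex : ∀ N, m ≤ N → ∀ k ≤ n,
      π * ∑ j ∈ range N, g (sin (2 * π * j / N)) ^ (2 * k) = N * mom g k := fun N hN k hk =>
    sin_exact (G := fun x => g x ^ (2 * k)) (by nlinarith [Nat.mul_le_mul_right D hk])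
      (V_pow hg (2 * k))
  have an : ∀ j : Fin n, 2 * π * ((j : ℕ) + 1 : ℕ) / m ∈ Ioo 0 (π / 2) := fun j => by
    have : 4 * ((j : ℕ) + 1) < m := by have := j.2; nlinarith
    have : 4 * (((j : ℕ) + 1 : ℕ) : ℝ) < m := by exact_mod_cast this
    exact ⟨by positivity, by rw [div_lt_iff₀ m0]; nlinarith⟩
  have sn : ∀ j : Fin n, sin (2 * π * ((j : ℕ) + 1 : ℕ) / m) ∈ Ioc (0:ℝ) 1 := fun j =>
    ⟨sin_pos_of_pos_of_lt_pi (an j).1 (by linarith [(an j).2]), sin_le_one _⟩
  have gp : ∀ j : Fin n, 0 < g (sin (2 * π * ((j : ℕ) + 1 : ℕ) / m)) := fun j =>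
    g0 ▸ hm ⟨le_rfl, zero_le_one⟩ (Ioc_subset_Icc_self (sn j)) (sn j).1
  obtain ⟨η, hη, hpert⟩ := perturb (y := fun j : Fin n => g (sin (2 * π * ((j : ℕ) + 1 : ℕ) / m)) ^ 2)
    (fun i j e => by
      have e1 := hm.injOn (Ioc_subset_Icc_self (sn i)) (Ioc_subset_Icc_self (sn j))
        ((pow_left_inj₀ (gp i).le (gp j).le two_ne_zero).1 e)
      have e2 := injOn_sin ⟨by linarith [(an i).1], (an i).2.le⟩
        ⟨by linarith [(an j).1], (an j).2.le⟩ e1
      field_simp at e2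
      exact Fin.ext (by exact_mod_cast Nat.succ_injective (Nat.cast_injective (R := ℝ) e2)))
    fun j => ⟨pow_pos (gp j) 2, (sq_lt_one_iff_abs_lt_one _).2 (h1 _)⟩
  refine ⟨η / m, by positivity, fun μ μ0 hμ => SQ.all (by omega) fun N hN hN' => ?_⟩
  obtain ⟨y', hy', e⟩ := hpert (fun k => N * (μ (k + 1) - mom g (k + 1)) / (2 * π)) fun k => by
    have a := hμ (k + 1) k.2
    have b : (N : ℝ) ≤ 6 * m := by exact_mod_cast (by omega : N ≤ 6 * m)
    rw [le_div_iff₀ m0] at a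
    rw [abs_div, abs_mul, abs_of_pos (by positivity : 0 < 2 * π), div_le_iff₀ (by positivity),
      Nat.abs_cast]
    nlinarith [abs_nonneg (μ (k + 1) - mom g (k + 1))]
  obtain ⟨M, rfl⟩ : ∃ M, N = M + (m + m) := ⟨N - (m + m), by omega⟩
  set c : Fin n ⊕ Fin r → ℝ := Sum.elim (fun j => √(y' j))
    fun j => g (sin (2 * π * (n + j + 1 : ℕ) / m)) with hc
  have cb : ∀ j, |c j| ≤ 1 := by
    rintro (j | j)
    · exact (abs_of_nonneg (sqrt_nonneg _)).trans_le (sqrt_le_one.2 (hy' j).2.le)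
    · exact (h1 _).le
  refine ⟨Fin M ⊕ ((Fin n ⊕ Fin r) ⊕ (Fin n ⊕ Fin r)), inferInstance,
    Sum.elim (fun j => g (sin (2 * π * j / M))) (Sum.elim c fun j => -c j), by simp [hr], ?_,
    fun G hG => ?_, fun k hk => ?_⟩
  · rintro (j | j | j)
    · exact (h1 _).le
    · exact cb j
    · exact (abs_neg _).trans_le (cb j)
  · rw [Fintype.sum_sum_type, Fintype.sum_sum_type]
    simp only [Sum.elim_inl, Sum.elim_inr, hG, Finset.sum_neg_distrib, add_neg_cancel, add_zero]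
    rw [Fin.sum_univ_eq_sum_range fun j : ℕ => G (g (sin (2 * π * j / M)))]
    exact odd_sum (G := fun x => G (g x)) (fun x => by simp only [ho, hG]) M
  · rcases k with _ | k
    · simp [μ0, hr]; ring
    rw [Fintype.sum_sum_type, Fintype.sum_sum_type]
    simp only [Sum.elim_inl, Sum.elim_inr, pow_mul, neg_sq]
    rw [Fintype.sum_sum_type, Fin.sum_univ_eq_sum_range fun j : ℕ =>
      (g (sin (2 * π * j / M)) ^ 2) ^ (k + 1)]
    simp only [hc, Sum.elim_inl, Sum.elim_inr, sq_sqrt (hy' _).1.le]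
    have e1 := e ⟨k, hk⟩
    have e2 := ex M (by omega) _ hk
    have e3 := ex m le_rfl _ hk
    have e4 := (Finset.sum_range_succ (fun j : ℕ => g (sin (2 * π * j / m)) ^ (2 * (k + 1))) m).symm.trans
      (Finset.sum_range_succ' _ m)
    rw [mul_div_cancel_right₀ _ m0.ne', sin_two_pi] at e4
    simp only [Nat.cast_zero, mul_zero, zero_div, sin_zero, add_left_inj] at e4
    have e5 : ∑ j ∈ range m, g (sin (2 * π * (j + 1 : ℕ) / m)) ^ (2 * (k + 1)) =
        ∑ j : Fin n, g (sin (2 * π * ((j : ℕ) + 1 : ℕ) / m)) ^ (2 * (k + 1)) +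
        ∑ j : Fin r, g (sin (2 * π * (n + j + 1 : ℕ) / m)) ^ (2 * (k + 1)) := by
      rw [Fin.sum_univ_eq_sum_range fun j : ℕ => g (sin (2 * π * (j + 1 : ℕ) / m)) ^ (2 * (k + 1)),
        Fin.sum_univ_eq_sum_range fun j : ℕ => g (sin (2 * π * (n + j + 1 : ℕ) / m)) ^ (2 * (k + 1)),
        ← Finset.sum_range_add (fun j : ℕ => g (sin (2 * π * (j + 1 : ℕ) / m)) ^ (2 * (k + 1))), ← hr]
    rw [e4, e5] at e3
    simp only [pow_mul] at e1 e2 e3
    rw [e1]
    have : 2 * π * (((M + (m + m) : ℕ) : ℝ) * (μ (k + 1) - mom g (k + 1)) / (2 * π)) =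
        ((M + (m + m) : ℕ) : ℝ) * (μ (k + 1) - mom g (k + 1)) := by field_simp
    push_cast at *
    linarith

end Pool.Agent.H43.Chq
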