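import Pool.Agent.H43.Chq3

namespace Pool.Agent.H43.Chq

open Set Filter Topology MeasureTheory Real
open Finset (range)

/-- Terms of the lacunary series. -/
noncomputable def tm (e : ℕ → ℕ) (i : ℕ) (x : ℝ) : ℝ := 1 / 2 / 2 ^ i * x ^ (2 * e i + 1)

/-- Sums of finitely many terms. -/
noncomputable def gs (e : ℕ → ℕ) (K : ℕ) (x : ℝ) : ℝ := ∑ i ∈ range (K + 1), tm e i x

/-- The full series. -/
noncomputable def hs (e : ℕ → ℕ) (x : ℝ) : ℝ := ∑' i, tm e i x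

/-- Its derivative. -/
noncomputable def hd (e : ℕ → ℕ) (x : ℝ) : ℝ :=
  ∑' i, 1 / 2 / 2 ^ i * (((2 * e i + 1 : ℕ) : ℝ) * (x ^ 2) ^ e i)

variable {e : ℕ → ℕ}

lemma tm_odd (i : ℕ) (x : ℝ) : tm e i (-x) = -tm e i x := by
  rw [tm, tm, Odd.neg_pow ⟨e i, rfl⟩]; ring

lemma tm_le (i : ℕ) {x : ℝ} (hx : |x| ≤ 1) {d : ℕ} (h : d ≤ 2 * e i + 1) :
    ‖tm e i x‖ ≤ |x| ^ d / 2 / 2 ^ i := by
  rw [tm, Real.norm_eq_abs, abs_mul, abs_pow, abs_of_pos (by positivity)]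
  have := pow_le_pow_of_le_one (abs_nonneg x) hx h
  calc _ ≤ 1 / 2 / 2 ^ i * |x| ^ d := by gcongr
    _ = _ := by ring

lemma tm_le' (i : ℕ) {x : ℝ} (hx : |x| ≤ 1) : ‖tm e i x‖ ≤ 1 / 2 / 2 ^ i := by
  simpa using tm_le (e := e) i hx (Nat.zero_le _)

lemma hs_odd (x : ℝ) : hs e (-x) = -hs e x := by simp only [hs, tm_odd, tsum_neg]

lemma gs_odd (K : ℕ) (x : ℝ) : gs e K (-x) = -gs e K x := by
  simp only [gs, tm_odd, Finset.sum_neg_distrib]

lemma hs_one : hs e 1 = 1 := by simpa [hs, tm] using (hasSum_geometric_two' 1).tsum_eq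

lemma hs_cont : ContinuousOn (hs e) (Icc (-1) 1) :=
  continuousOn_tsum (fun i => by unfold tm; fun_prop) (hasSum_geometric_two' 1).summable
    fun i x hx => tm_le' i (abs_le.2 hx)

lemma hs_abs {x : ℝ} (hx : |x| ≤ 1) : |hs e x| ≤ 1 :=
  tsum_of_norm_bounded (hasSum_geometric_two' 1) fun i => tm_le' i hx

lemma gs_abs (K : ℕ) {x : ℝ} (hx : |x| ≤ 1) : |gs e K x| ≤ 1 - 1 / 2 / 2 ^ K := by
  have : ∑ i ∈ range (K + 1), (1 / 2 / 2 ^ i : ℝ) = 1 - 1 / 2 / 2 ^ K := by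
    induction K with
    | zero => norm_num
    | succ K ih => rw [Finset.sum_range_succ, ih]; field_simp; ring
  exact (Finset.abs_sum_le_sum_abs _ _).trans
    ((Finset.sum_le_sum fun i _ => tm_le' i hx).trans this.le)

lemma gs_mono (K : ℕ) : StrictMonoOn (gs e K) (Icc 0 1) := fun x hx y _ h =>
  Finset.sum_lt_sum_of_nonempty Finset.nonempty_range_add_one fun i _ =>
    mul_lt_mul_of_pos_left (pow_lt_pow_left₀ h hx.1 (by omega)) (by positivity)

lemma gs_V (he : Monotone e) (K : ℕ) : (fun u => gs e K (sin u)) ∈ V (2 * e K + 1) := by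
  have : ∑ i ∈ range (K + 1), (1 / 2 / 2 ^ i : ℝ) • (fun u => sin u ^ (2 * e i + 1)) ∈
      V (2 * e K + 1) := Submodule.sum_mem _ fun i hi => Submodule.smul_mem _ _ (V_mono (by
    have := he (Nat.lt_succ_iff.1 (Finset.mem_range.1 hi)); omega) (V_pow V_sin _))
  exact mem_congr this fun u => by simp [gs, tm]

lemma hs_sub (he : Monotone e) (K : ℕ) {x : ℝ} (hx : |x| ≤ 1) :
    |hs e x - gs e K x| ≤ |x| ^ (2 * e (K + 1) + 1) := by
  have hsum : Summable fun i => tm e i x :=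
    .of_norm_bounded (hasSum_geometric_two' 1).summable fun i => tm_le' i hx
  rw [hs, gs, ← hsum.sum_add_tsum_nat_add (K + 1), add_sub_cancel_left]
  refine tsum_of_norm_bounded (f := fun i => tm e (i + (K + 1)) x) (hasSum_geometric_two' _)
    fun i => ?_
  refine (tm_le _ hx (d := 2 * e (K + 1) + 1) (by
    have := he (Nat.le_add_left (K + 1) i); omega)).trans ?_
  gcongr
  · norm_num
  · omega

lemma dbound {r : ℝ} (h0 : 0 ≤ r) (h1 : r < 1) (k : ℕ) :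
    ((2 * k + 1 : ℕ) : ℝ) * (r ^ 2) ^ k ≤ (1 - r)⁻¹ := by
  have a : ∑ i ∈ range (2 * k + 1), r ^ (2 * k) ≤ ∑ i ∈ range (2 * k + 1), r ^ i :=
    Finset.sum_le_sum fun i hi => pow_le_pow_of_le_one h0 h1.le
      (Nat.lt_succ_iff.1 (Finset.mem_range.1 hi))
  rw [Finset.sum_const, Finset.card_range, nsmul_eq_mul, pow_mul] at a
  exact a.trans (sum_le_hasSum _ (fun i _ => by positivity) (hasSum_geometric_of_lt_one h0 h1))

lemma hs_deriv (h0 : e 0 = 0) {x : ℝ} (hx : x ∈ Ioo (-1:ℝ) 1) : HasDerivAt (hs e) (hd e x) x ∧ 0 < hd e x := by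
  obtain ⟨r, hr, hr1⟩ := exists_between (abs_lt.2 hx)
  have r0 : 0 < r := (abs_nonneg x).trans_lt hr
  have b : ∀ i, ∀ y ∈ Ioo (-r) r, ‖1 / 2 / 2 ^ i * (((2 * e i + 1 : ℕ) : ℝ) * (y ^ 2) ^ e i)‖ ≤
      (1 - r)⁻¹ / 2 / 2 ^ i := fun i y hy => by
    rw [Real.norm_of_nonneg (by positivity)]
    have := dbound r0.le hr1 (e i)
    have h2 : y ^ 2 ≤ r ^ 2 := sq_le_sq' hy.1.le hy.2.le
    calc _ ≤ 1 / 2 / 2 ^ i * (((2 * e i + 1 : ℕ) : ℝ) * (r ^ 2) ^ e i) := by gcongr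
      _ ≤ 1 / 2 / 2 ^ i * (1 - r)⁻¹ := by gcongr
      _ = _ := by ring
  refine ⟨hasDerivAt_tsum_of_isPreconnected (hasSum_geometric_two' _).summable isOpen_Ioo
    isPreconnected_Ioo (fun i y _ => ?_) b (y₀ := 0) ⟨by linarith, r0⟩ (by simp [tm, summable_zero])
    (abs_lt.1 hr), ?_⟩
  · have := (hasDerivAt_pow (2 * e i + 1) y).const_mul (1 / 2 / 2 ^ i)
    rwa [Nat.add_sub_cancel, pow_mul] at this
  · exact (Summable.of_norm_bounded (hasSum_geometric_two' _).summable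
      fun i => b i x (abs_lt.1 hr)).tsum_pos (fun i => by positivity) 0 (by simp [h0])

lemma hs_mono (h0 : e 0 = 0) : StrictMonoOn (hs e) (Icc (-1) 1) :=
  strictMonoOn_of_deriv_pos (convex_Icc _ _) hs_cont fun x hx => by
    rw [interior_Icc] at hx
    rw [(hs_deriv h0 hx).1.deriv]; exact (hs_deriv h0 hx).2

lemma hs_zero : hs e 0 = 0 := by have := hs_odd (e := e) 0; rw [neg_zero] at this; linarith

lemma hs_lt (h0 : e 0 = 0) {x : ℝ} (hx : x ∈ Ioo (-1:ℝ) 1) : hs e x ∈ Ioo (-1:ℝ) 1 := by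
  have a := hs_mono h0 ⟨le_rfl, by norm_num⟩ (Ioo_subset_Icc_self hx) hx.1
  have b := hs_mono h0 (Ioo_subset_Icc_self hx) ⟨by norm_num, le_rfl⟩ hx.2
  rw [hs_odd, hs_one] at a
  exact ⟨a, hs_one (e := e) ▸ b⟩

lemma hs_surj {a : ℝ} (ha : a ∈ Ioo (-1:ℝ) 1) : ∃ x ∈ Ioo (-1:ℝ) 1, hs e x = a :=
  intermediate_value_Ioo (by norm_num) hs_cont (by rwa [hs_odd, hs_one])

lemma hs_abs_eq (h0 : e 0 = 0) {x : ℝ} (hx : x ∈ Ioo (-1:ℝ) 1) : |hs e x| = hs e |x| := by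
  have k : ∀ y, 0 ≤ y → y ≤ 1 → 0 ≤ hs e y := fun y a b =>
    hs_zero (e := e) ▸ (hs_mono h0).monotoneOn ⟨by norm_num, by norm_num⟩ ⟨by linarith, b⟩ a
  rcases le_total 0 x with h | h
  · rw [abs_of_nonneg h, abs_of_nonneg (k x h hx.2.le)]
  · have := k (-x) (by linarith) (by linarith [hx.1])
    rw [hs_odd] at this
    rw [abs_of_nonpos h, hs_odd, abs_of_nonpos (by linarith)]

/-- Inverse of the series on `[0, 1]`. -/
noncomputable def hi (e : ℕ → ℕ) (a : ℝ) : ℝ := sSup {x | x ∈ Icc (0:ℝ) 1 ∧ (hs e x ≤ a ∨ x = 0)}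

lemma hi_mono : Monotone (hi e) := fun _ _ h =>
  csSup_le_csSup ⟨1, fun _ hx => hx.1.2⟩ ⟨0, ⟨le_rfl, zero_le_one⟩, Or.inr rfl⟩
    fun _ hx => ⟨hx.1, hx.2.imp_left fun c => c.trans h⟩

lemma hi_hs (h0 : e 0 = 0) {x : ℝ} (hx : x ∈ Icc (0:ℝ) 1) : hi e (hs e x) = x :=
  IsGreatest.csSup_eq ⟨⟨hx, Or.inl le_rfl⟩, fun y hy => hy.2.elim (fun c =>
    ((hs_mono h0).le_iff_le ⟨by linarith [hy.1.1], hy.1.2⟩ ⟨by linarith [hx.1], hx.2⟩).1 c)
    fun c => c ▸ hx.1⟩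

/-- The weight. -/
noncomputable def Wt (e : ℕ → ℕ) (θ : ℝ) : ℝ :=
  |√(1 - sin (θ / 2) ^ 2) /
    (2 * deriv (hs e) (hi e |sin (θ / 2)|) * √(1 - hi e |sin (θ / 2)| ^ 2))|

lemma Wt_per : Function.Periodic (Wt e) (2 * π) := fun θ => by
  simp only [Wt, show (θ + 2 * π) / 2 = θ / 2 + π by ring, sin_add_pi, neg_sq, abs_neg]

lemma Wt_meas : Measurable (Wt e) := by
  have a := hi_mono (e := e).measurable
  have b := measurable_deriv (hs e)
  unfold Wt
  fun_prop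

lemma Wt_eq (h0 : e 0 = 0) {θ x : ℝ} (hx : x ∈ Ioo (-1:ℝ) 1) (h : sin (θ / 2) = hs e x) :
    Wt e θ = √(1 - hs e x ^ 2) / (2 * hd e x * √(1 - x ^ 2)) ∧ 0 < √(1 - hs e x ^ 2) ∧
      0 < √(1 - x ^ 2) := by
  have a := abs_lt.2 hx
  have b := hs_deriv h0 (x := |x|) ⟨by linarith [abs_nonneg x], a⟩
  have c := (hs_deriv h0 hx).2
  refine ⟨?_, sqrt_pos.2 (by nlinarith [(hs_lt h0 hx).1, (hs_lt h0 hx).2]),
    sqrt_pos.2 (by nlinarith [hx.1, hx.2])⟩
  rw [Wt, h, hs_abs_eq h0 hx, hi_hs h0 ⟨abs_nonneg x, a.le⟩, b.1.deriv, sq_abs,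
    show hd e |x| = hd e x by simp only [hd, sq_abs], abs_of_nonneg (by positivity)]

lemma Wt_ne (h0 : e 0 = 0) : ∀ᵐ θ, Wt e θ ≠ 0 := by
  have : (range fun k : ℤ => (2 * k + 1) * π).Countable := countable_range _
  filter_upwards [compl_mem_ae_iff.2 (this.measure_zero volume)] with θ hθ
  have c : cos (θ / 2) ≠ 0 := fun c => by
    obtain ⟨k, hk⟩ := cos_eq_zero_iff.1 c
    exact hθ ⟨k, by simp only; linarith⟩
  have d : sin (θ / 2) ^ 2 < 1 := by nlinarith [sin_sq_add_cos_sq (θ / 2), sq_pos_of_ne_zero c]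
  obtain ⟨x, hx, h⟩ := hs_surj (e := e) (abs_lt.1 ((sq_lt_one_iff_abs_lt_one _).1 d))
  obtain ⟨a, b, c⟩ := Wt_eq h0 hx h.symm
  have := (hs_deriv h0 hx).2
  rw [a]; positivity

lemma Wt_push (h0 : e 0 = 0) : IntervalIntegrable (Wt e) volume (-π) π ∧ ∀ F : ℝ → ℝ,
    ∫ θ in (-π)..π, F θ * Wt e θ = ∫ u in (-(π / 2))..(π / 2), F (2 * arcsin (hs e (sin u))) := by
  have s : ∀ u ∈ Ioo (-(π / 2)) (π / 2), sin u ∈ Ioo (-1:ℝ) 1 := fun u hu => by
    have := cos_pos_of_mem_Ioo hu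
    constructor <;> nlinarith [sin_sq_add_cos_sq u]
  have t := fun u hu => hs_lt h0 (s u hu)
  refine push (ψ' := fun u => 2 * (1 / √(1 - hs e (sin u) ^ 2) * (hd e (sin u) * cos u)))
    (fun u hu => ?_) (fun u hu v hv h => ?_) (fun u hu => ⟨?_, ?_⟩) (fun u hu => ?_) fun θ hθ => ?_
  · exact ((hasDerivAt_arcsin (t u hu).1.ne' (t u hu).2.ne).comp u
      ((hs_deriv h0 (s u hu)).1.comp u (hasDerivAt_sin u))).const_mul 2
  · have := injOn_arcsin (Ioo_subset_Icc_self (t u hu)) (Ioo_subset_Icc_self (t v hv))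
      (mul_left_cancel₀ two_ne_zero h)
    exact injOn_sin (Ioo_subset_Icc_self hu) (Ioo_subset_Icc_self hv) ((hs_mono h0).injOn
      (Ioo_subset_Icc_self (s u hu)) (Ioo_subset_Icc_self (s v hv)) this)
  · have := neg_pi_div_two_lt_arcsin.2 (t u hu).1; linarith
  · have := arcsin_lt_pi_div_two.2 (t u hu).2; linarith
  · have c := cos_pos_of_mem_Ioo hu
    obtain ⟨a, b, -⟩ := Wt_eq h0 (θ := 2 * arcsin (hs e (sin u))) (s u hu) (by
      rw [mul_div_cancel_left₀ _ two_ne_zero, sin_arcsin (t u hu).1.le (t u hu).2.le])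
    have d := (hs_deriv h0 (s u hu)).2
    rw [a, abs_of_pos (by positivity), ← cos_sq', sqrt_sq c.le]
    field_simp
  · have c := cos_pos_of_mem_Ioo (x := θ / 2) ⟨by linarith [hθ.1.1], by linarith [hθ.1.2]⟩
    obtain ⟨x, hx, h⟩ := hs_surj (e := e) (a := sin (θ / 2))
      (by constructor <;> nlinarith [sin_sq_add_cos_sq (θ / 2)])
    refine (hθ.2 ⟨arcsin x, ⟨neg_pi_div_two_lt_arcsin.2 hx.1, arcsin_lt_pi_div_two.2 hx.2⟩, ?_⟩).elim
    simp only
    rw [sin_arcsin hx.1.le hx.2.le, h, arcsin_sin (by linarith [hθ.1.1]) (by linarith [hθ.1.2])]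
    ring

lemma sin_small {η : ℝ} (hη : 0 < η) (a : ℕ) :
    ∃ E, a ≤ E ∧ ∫ u in (-(π / 2))..(π / 2), |sin u| ^ (2 * E + 1) ≤ η := by
  have hp := pi_pos
  have := intervalIntegral.tendsto_integral_filter_of_dominated_convergence (μ := volume)
    (a := -(π / 2)) (b := π / 2) (l := atTop) (F := fun (E : ℕ) u => |sin u| ^ (2 * E + 1))
    (f := fun _ => 0) (fun _ => 1)
    (Eventually.of_forall fun E => (by fun_prop : Continuous _).aestronglyMeasurable)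
    (Eventually.of_forall fun E => Eventually.of_forall fun u _ => by
      rw [norm_pow, Real.norm_eq_abs, abs_abs]; exact pow_le_one₀ (abs_nonneg _) (abs_sin_le_one u))
    intervalIntegrable_const (by
      filter_upwards [compl_mem_ae_iff.2 (measure_singleton (π / 2))] with u hu hu'
      rw [uIoc_of_le (by linarith)] at hu'
      have := cos_pos_of_mem_Ioo ⟨hu'.1, lt_of_le_of_ne hu'.2 hu⟩
      exact (tendsto_pow_atTop_nhds_zero_of_lt_one (abs_nonneg _) (abs_lt.2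
        (by constructor <;> nlinarith [sin_sq_add_cos_sq u]))).comp
        (tendsto_atTop_mono (f := id) (fun E => by simp only [id]; omega) tendsto_id))
  rw [intervalIntegral.integral_zero] at this
  exact ((eventually_ge_atTop a).and (this.eventually (ge_mem_nhds hη))).exists

lemma stage (K D : ℕ) (g : ℝ → ℝ) : ∃ (n N₀ E : ℕ), D ≤ E ∧ ((fun u => g (sin u)) ∈ V (2 * D + 1) →
    (∀ x, g (-x) = -g x) → StrictMonoOn g (Icc 0 1) → (∀ u, |g (sin u)| ≤ 1 - 1 / 2 / 2 ^ K) →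
    ∀ h : ℝ → ℝ, (Continuous fun u => h (sin u)) → (∀ u, |h (sin u)| ≤ 1) →
      (∀ u, |h (sin u) - g (sin u)| ≤ |sin u| ^ (2 * E + 1)) →
      K < n ∧ 0 < N₀ ∧ (∀ N, N₀ ≤ N → SQ (mom h) n N) ∧ K * N₀ * mom h n ≤ 1) := by
  by_cases H : (fun u => g (sin u)) ∈ V (2 * D + 1) ∧ (∀ x, g (-x) = -g x) ∧
    StrictMonoOn g (Icc 0 1) ∧ ∀ u, |g (sin u)| ≤ 1 - 1 / 2 / 2 ^ K
  swap
  · exact ⟨0, 0, D, le_rfl, fun a b c d => (H ⟨a, b, c, d⟩).elim⟩
  obtain ⟨hg, ho, hm, hb⟩ := H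
  set s : ℝ := 1 - 1 / 2 / 2 ^ K with hs'
  have s1 : s < 1 := by have : (0:ℝ) < 1 / 2 / 2 ^ K := by positivity
                        linarith
  have s0 : 0 < s := by
    have : (1:ℝ) / 2 / 2 ^ K ≤ 1 / 2 := div_le_self (by norm_num) (one_le_pow₀ (by norm_num))
    linarith
  have t := (tendsto_pow_const_mul_const_pow_of_abs_lt_one 1 (r := s ^ 2)
    (by rw [abs_of_pos (by positivity)]; nlinarith)).const_mul (15 * K * (4 * D + 7) : ℝ)
  rw [mul_zero] at t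
  obtain ⟨n, hn, hn'⟩ := ((eventually_gt_atTop K).and (t.eventually (ge_mem_nhds one_pos))).exists
  obtain ⟨η, hη, hr⟩ := robust (n := n) hg ho hm fun u => (hb u).trans_lt s1
  have n0 : (1:ℝ) ≤ n := by exact_mod_cast (by omega : 1 ≤ n)
  obtain ⟨E, hE, hE'⟩ := sin_small (η := min η ((s ^ 2) ^ n) / (2 * n)) (by positivity) D
  refine ⟨n, 3 * ((2 * (2 * D + 1) + 4) * n + 1), E, hE, fun _ _ _ _ h hc h1 hh => ?_⟩
  have hp := pi_pos
  have gc := V_cont hg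
  have cl : ∀ k ≤ n, |mom h k - mom g k| ≤ min η ((s ^ 2) ^ n) := fun k hk => by
    rw [mom, mom, ← intervalIntegral.integral_sub ((hc.fun_pow _).intervalIntegrable _ _)
      ((gc.fun_pow _).intervalIntegrable _ _)]
    rw [le_div_iff₀ (by positivity), ← intervalIntegral.integral_mul_const] at hE'
    refine (intervalIntegral.abs_integral_le_integral_abs (by linarith)).trans
      ((intervalIntegral.integral_mono_on (by linarith)
        (((hc.pow _).sub (gc.pow _)).abs.intervalIntegrable _ _)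
        ((by fun_prop : Continuous _).intervalIntegrable _ _) fun u _ => ?_).trans hE')
    refine (abs_pow_sub_pow_le ..).trans ?_
    have a : max |h (sin u)| |g (sin u)| ^ (2 * k - 1) ≤ 1 :=
      pow_le_one₀ (by positivity) (max_le (h1 u) ((hb u).trans s1.le))
    have b : ((2 * k : ℕ) : ℝ) ≤ 2 * n := by exact_mod_cast Nat.mul_le_mul_left 2 hk
    calc _ ≤ |sin u| ^ (2 * E + 1) * (2 * n) * 1 := by gcongr; exact hh u
      _ = _ := by ring
  refine ⟨hn, by omega, hr _ (by simp [mom]) fun k hk => (cl k hk).trans (min_le_left _ _), ?_⟩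
  have a := intervalIntegral.norm_integral_le_of_norm_le_const (a := -(π / 2)) (b := π / 2)
    (f := fun u => g (sin u) ^ (2 * n)) (C := (s ^ 2) ^ n) fun u _ => by
      rw [norm_pow, ← pow_mul]; exact pow_le_pow_left₀ (norm_nonneg _) (hb u) _
  rw [show π / 2 - -(π / 2) = π by ring, abs_of_pos hp] at a
  have b := (abs_le.1 ((cl n le_rfl).trans (min_le_right _ _))).2
  have c : mom h n ≤ 5 * (s ^ 2) ^ n := by
    have : mom g n ≤ (s ^ 2) ^ n * π := (le_abs_self _).trans a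
    nlinarith [pi_le_four, pow_pos (pow_pos s0 2) n]
  have d : ((3 * ((2 * (2 * D + 1) + 4) * n + 1) : ℕ) : ℝ) ≤ 3 * ((4 * D + 7) * n) := by
    push_cast; nlinarith
  calc _ ≤ (K : ℝ) * ((3 * ((2 * (2 * D + 1) + 4) * n + 1) : ℕ) : ℝ) * (5 * (s ^ 2) ^ n) := by
        gcongr
    _ ≤ (K : ℝ) * (3 * ((4 * D + 7) * n)) * (5 * (s ^ 2) ^ n) := by gcongr
    _ ≤ 1 := le_trans (le_of_eq (by ring)) hn'

lemma main : ∃ e : ℕ → ℕ, e 0 = 0 ∧ ∀ K : ℕ, ∃ n N₀ : ℕ, K < n ∧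
    (∀ N, N₀ ≤ N → Quad (Wt e) n N) ∧ K * N₀ * mom (hs e) n ≤ 1 ∧ 0 < mom (hs e) n := by
  choose n N₀ E hE H using stage
  let st : ℕ → ℕ × (ℝ → ℝ) := fun K => Nat.rec (0, fun x => 1 / 2 / 2 ^ 0 * x ^ (2 * 0 + 1))
    (fun K p => (E K p.1 p.2, fun x => p.2 x + 1 / 2 / 2 ^ (K + 1) * x ^ (2 * E K p.1 p.2 + 1))) K
  set e : ℕ → ℕ := fun K => (st K).1 with he
  have e1 : ∀ K, e (K + 1) = E K (e K) (st K).2 := fun K => rfl
  have e2 : ∀ K, (st K).2 = gs e K := fun K => by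
    induction K with
    | zero => ext x; simp only [gs, zero_add, Finset.sum_range_one]; rfl
    | succ K ih => ext x; rw [gs, Finset.sum_range_succ, ← gs, ← ih]; rfl
  have mo : Monotone e := monotone_nat_of_le_succ fun K => e1 K ▸ hE _ _ _
  have hc : Continuous fun u => hs e (sin u) :=
    hs_cont.comp_continuous continuous_sin fun u => sin_mem_Icc u
  refine ⟨e, rfl, fun K => ?_⟩
  obtain ⟨a, b, c, d⟩ := H K (e K) (gs e K) (gs_V mo K) (gs_odd K) (gs_mono K)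
    (fun u => gs_abs K (abs_sin_le_one u)) (hs e) hc (fun u => hs_abs (abs_sin_le_one u))
    fun u => by rw [← e2, ← e1, e2]; exact hs_sub mo K (abs_sin_le_one u)
  refine ⟨_, _, a, fun N hN => (c N hN).quad (by omega) hc (fun u => hs_abs (abs_sin_le_one u))
    hs_odd (Wt_push rfl).2, d, ?_⟩
  have hp := pi_pos
  exact intervalIntegral.integral_pos (by linarith) (hc.pow _).continuousOn
    (fun u _ => by rw [pow_mul]; positivity) ⟨π / 2, ⟨by linarith, le_rfl⟩, by simp [hs_one]⟩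

lemma test {n : ℕ} (hn : 0 < n) : (fun θ => ((1 - cos θ) / 2) ^ n) ∈ T n ∧
    1 ≤ ∫ θ in (-π)..π, |deriv (fun θ => ((1 - cos θ) / 2) ^ n) θ| := by
  have hp := pi_pos
  constructor
  · have : (fun θ => (1 - cos θ) / 2) ∈ V 1 :=
      mem_congr ((V 1).smul_mem (1 / 2) ((V 1).sub_mem (V_one 1) V_cos)) fun θ => by simp; ring
    simpa [T_eq_V] using V_pow this n
  · have cd : ContDiff ℝ 1 fun θ => ((1 - cos θ) / 2) ^ n := by fun_prop
    have c := cd.continuous_deriv le_rfl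
    have a := intervalIntegral.integral_deriv_eq_sub (a := 0) (b := π)
      (fun x _ => cd.differentiable one_ne_zero x) (c.intervalIntegrable _ _)
    have b := intervalIntegral.abs_integral_le_integral_abs (μ := volume) (a := 0) (b := π)
      (f := deriv fun θ => ((1 - cos θ) / 2) ^ n) hp.le
    rw [a] at b
    refine le_trans (by simp [hn.ne']) (b.trans (intervalIntegral.integral_mono_interval
      (by linarith) hp.le le_rfl (Eventually.of_forall fun _ => abs_nonneg _)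
      (c.abs.intervalIntegrable _ _)))

end Pool.Agent.H43.Chq
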