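import Mathlib

set_option autoImplicit false
open ENNReal

namespace Pool.Agent.H43.ConstRate

lemma split (a : ℕ → ℝ≥0∞) (m : ℕ) :
    ∑' k, (k.choose m : ℝ≥0∞) * a k = a m + ∑' k, if m < k then (k.choose m : ℝ≥0∞) * a k else 0 := by
  have : ∀ k, (k.choose m : ℝ≥0∞) * a k =
      (if k = m then a m else 0) + (if m < k then (k.choose m : ℝ≥0∞) * a k else 0) := by
    intro k
    rcases lt_trichotomy k m with h | h | h
    · simp [Nat.choose_eq_zero_of_lt h, h.ne, h.not_gt]
    · subst h; simp
    · simp [h, h.ne']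
  rw [tsum_congr this, ENNReal.tsum_add, tsum_ite_eq]

lemma seq_zero (α β : ℝ≥0∞) (hαβ : α + β = 1) (hα : α ≠ 0) (hβ : β ≠ 0) (a b : ℕ → ℝ≥0∞)
    (ha : ∀ m, a m = α * ∑' k, (k.choose m : ℝ≥0∞) * a k)
    (hb : ∀ m, b m = α * ∑' k, (k.choose m : ℝ≥0∞) * b k)
    (hab : ∀ m, b m ≤ a (m + 1)) (hfin : ∀ m, a m ≠ ⊤) : b 0 = 0 := by
  have hαt : α ≠ ⊤ := ne_top_of_le_ne_top one_ne_top (hαβ ▸ le_self_add)
  have hβt : β ≠ ⊤ := ne_top_of_le_ne_top one_ne_top (hαβ ▸ le_add_self)
  have key : ∀ c : ℕ → ℝ≥0∞, (∀ m, c m = α * ∑' k, (k.choose m : ℝ≥0∞) * c k) → (∀ m, c m ≠ ⊤) →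
      ∀ m, β * c m = α * ∑' k, if m < k then (k.choose m : ℝ≥0∞) * c k else 0 := by
    intro c hc hcf m
    have h1 := hc m
    rw [split, mul_add] at h1
    have h2 : α * c m + β * c m = c m := by rw [← add_mul, hαβ, one_mul]
    have h3 : α * c m + β * c m =
        α * c m + α * ∑' k, if m < k then (k.choose m : ℝ≥0∞) * c k else 0 := by
      rw [h2]; exact h1
    exact (ENNReal.add_right_inj (mul_ne_top hαt (hcf m))).1 h3
  have hbf : ∀ m, b m ≠ ⊤ := fun m => ne_top_of_le_ne_top (hfin _) (hab m)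
  have h1 : ∀ m : ℕ, α * ((m + 1 : ℕ) : ℝ≥0∞) * a (m + 1) ≤ a m := by
    intro m
    rw [ha m, mul_assoc]
    gcongr
    have := ENNReal.le_tsum (f := fun k => (k.choose m : ℝ≥0∞) * a k) (m + 1)
    simpa [Nat.choose_succ_self_right] using this
  have h2 : ∀ M j m : ℕ, M ≤ m + j → α * (M : ℝ≥0∞) * b m ≤ a m := by
    intro M j
    induction j with
    | zero =>
      intro m hm
      refine le_trans ?_ (h1 m)
      gcongr
      · omega
      · exact hab m
    | succ j ih =>
      intro m hm
      have e : β * (α * (M : ℝ≥0∞) * b m) ≤ β * a m := by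
        rw [key a ha hfin m, mul_left_comm, key b hb hbf m, mul_left_comm, ← ENNReal.tsum_mul_left]
        gcongr with k
        split_ifs with hk
        · rw [mul_left_comm]
          gcongr
          exact ih k (by omega)
        · simp
      exact (ENNReal.mul_le_mul_iff_right hβ hβt).1 e
  by_contra hne
  have hpos : α * b 0 ≠ 0 := mul_ne_zero hα hne
  obtain ⟨M, hM⟩ := ENNReal.exists_nat_mul_gt hpos (hfin 0)
  have := h2 M M 0 (by omega)
  rw [mul_comm α, mul_assoc] at this
  exact absurd hM (not_lt.2 this)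

variable {ι : Type} [DecidableEq ι]

noncomputable def lev (h : Finset ι → ℝ≥0∞) (m : ℕ) : ℝ≥0∞ :=
  ∑' x, if x.card = m then h x else 0

lemma lev_eq (α : ℝ≥0∞) (h : Finset ι → ℝ≥0∞)
    (hh : ∀ x, h x = α * ∑' y, if x ⊆ y then h y else 0) (m : ℕ) :
    lev h m = α * ∑' k, (k.choose m : ℝ≥0∞) * lev h k := by
  have e1 : ∑' k, (k.choose m : ℝ≥0∞) * lev h k = ∑' y : Finset ι, (y.card.choose m : ℝ≥0∞) * h y := by
    unfold lev
    simp_rw [← ENNReal.tsum_mul_left]
    rw [ENNReal.tsum_comm]
    refine tsum_congr fun y => ?_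
    rw [tsum_eq_single y.card]
    · simp
    · intro k hk
      simp [Ne.symm hk]
  have e2 : ∀ y : Finset ι, (y.card.choose m : ℝ≥0∞) * h y =
      ∑' x : Finset ι, if x.card = m then (if x ⊆ y then h y else 0) else 0 := by
    intro y
    rw [tsum_eq_sum (s := y.powersetCard m)]
    · rw [Finset.sum_congr rfl (g := fun _ => h y)]
      · simp [Finset.card_powersetCard]
      · intro x hx
        rw [Finset.mem_powersetCard] at hx
        simp [hx.1, hx.2]
    · intro x hx
      rw [Finset.mem_powersetCard] at hx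
      split_ifs with h1 h2
      · exact absurd ⟨h2, h1⟩ hx
      · rfl
      · rfl
  rw [e1, tsum_congr e2, ENNReal.tsum_comm, ← ENNReal.tsum_mul_left]
  unfold lev
  refine tsum_congr fun x => ?_
  split_ifs with h1
  · exact hh x
  · simp

lemma tsum_insert (i : ι) (φ : Finset ι → ℝ≥0∞) :
    ∑' y : Finset ι, (if i ∈ y then 0 else φ (insert i y)) =
      ∑' z : Finset ι, if i ∈ z then φ z else 0 := by
  refine tsum_eq_tsum_of_ne_zero_bij (fun z => (z : Finset ι).erase i) ?_ ?_ ?_
  · rintro ⟨z, hz⟩ ⟨w, hw⟩ h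
    have hz' : i ∈ z := by by_contra hc; simp [hc] at hz
    have hw' : i ∈ w := by by_contra hc; simp [hc] at hw
    have h' : z.erase i = w.erase i := h
    apply Subtype.ext
    show z = w
    rw [← Finset.insert_erase hz', h', Finset.insert_erase hw']
  · intro y hy
    have hy' : i ∉ y := by intro hc; simp [hc] at hy
    refine ⟨⟨insert i y, by simpa [hy'] using hy⟩, ?_⟩
    exact Finset.erase_insert hy'
  · rintro ⟨z, hz⟩
    have hz' : i ∈ z := by by_contra hc; simp [hc] at hz
    simp [hz']

theorem singleton_zero (α β : ℝ≥0∞) (hαβ : α + β = 1) (hα : α ≠ 0) (hβ : β ≠ 0)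
    (h : Finset ι → ℝ≥0∞) (hh : ∀ x, h x = α * ∑' y, if x ⊆ y then h y else 0)
    (hfin : ∑' x, h x ≠ ⊤) (i : ι) : h {i} = 0 := by
  let g : Finset ι → ℝ≥0∞ := fun x => if i ∈ x then 0 else h (insert i x)
  have hg : ∀ x, g x = α * ∑' y, if x ⊆ y then g y else 0 := by
    intro x
    by_cases hi : i ∈ x
    · have : ∀ y, (if x ⊆ y then g y else 0) = 0 := by
        intro y
        split_ifs with hy
        · simp [g, hy hi]
        · rfl
      simp [this, g, hi]
    · have e : ∀ y, (if x ⊆ y then g y else 0) =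
          if i ∈ y then 0 else (fun z => if insert i x ⊆ z then h z else 0) (insert i y) := by
        intro y
        by_cases hy : i ∈ y
        · simp [g, hy]
        · have : insert i x ⊆ insert i y ↔ x ⊆ y := Finset.insert_subset_insert_iff hi
          simp [g, hy, this]
      rw [tsum_congr e, tsum_insert i (fun z => if insert i x ⊆ z then h z else 0)]
      simp only [g, hi, if_false]
      rw [hh]
      congr 1
      refine tsum_congr fun z => ?_
      by_cases hz : insert i x ⊆ z
      · simp [hz, hz (Finset.mem_insert_self i x)]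
      · simp [hz]
  have hab : ∀ m, lev g m ≤ lev h (m + 1) := by
    intro m
    unfold lev
    have e : ∀ y : Finset ι, (if y.card = m then g y else 0) =
        if i ∈ y then 0 else (fun z : Finset ι => if z.card = m + 1 then h z else 0) (insert i y) := by
      intro y
      by_cases hy : i ∈ y
      · simp [g, hy]
      · simp [g, hy, Finset.card_insert_of_notMem hy]
    rw [tsum_congr e, tsum_insert i (fun z : Finset ι => if z.card = m + 1 then h z else 0)]
    refine ENNReal.tsum_le_tsum fun z => ?_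
    split_ifs <;> simp
  have hf : ∀ m, lev h m ≠ ⊤ := by
    intro m
    refine ne_top_of_le_ne_top hfin (ENNReal.tsum_le_tsum fun z => ?_)
    split_ifs <;> simp
  have := seq_zero α β hαβ hα hβ (lev h) (lev g) (lev_eq α h hh) (lev_eq α g hg) hab hf
  have h2 : g ∅ ≤ lev g 0 := by
    have := ENNReal.le_tsum (f := fun x : Finset ι => if x.card = 0 then g x else 0) ∅
    rw [if_pos Finset.card_empty] at this
    exact this
  rw [this] at h2
  simpa [g] using h2

theorem no_const_rate [Nonempty ι] (f : Finset ι → ℝ) (hpos : ∀ x, 0 < f x) (hsum : HasSum f 1)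
    (α : ℝ) : ¬ ∀ x, f x = α * ∑' y : {y : Finset ι // x ⊆ y}, f y := by
  intro H
  obtain ⟨i⟩ := ‹Nonempty ι›
  have hF : ∀ x : Finset ι, ∑' y : {y : Finset ι // x ⊆ y}, f y =
      ∑' y, if x ⊆ y then f y else 0 := by
    intro x
    have := tsum_subtype {y : Finset ι | x ⊆ y} f
    refine this.trans (tsum_congr fun y => ?_)
    simp [Set.indicator_apply]
  have h0 : f ∅ = α := by
    rw [H ∅, hF]
    simp [hsum.tsum_eq]
  have hα0 : 0 < α := h0 ▸ hpos ∅
  have hα1 : α < 1 := by
    have := sum_le_hasSum ({∅, {i}} : Finset (Finset ι)) (fun x _ => (hpos x).le) hsum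
    rw [Finset.sum_pair (Finset.singleton_ne_empty i).symm] at this
    linarith [hpos {i}]
  have := singleton_zero (ENNReal.ofReal α) (ENNReal.ofReal (1 - α))
    (by rw [← ENNReal.ofReal_add hα0.le (by linarith)]; simp)
    (by simpa using hα0) (by simpa using hα1) (fun x => ENNReal.ofReal (f x)) (by
      intro x
      have hs : Summable fun y => if x ⊆ y then f y else 0 :=
        Summable.of_nonneg_of_le (fun y => by split_ifs <;> simp [(hpos y).le])
          (fun y => by split_ifs <;> simp [(hpos y).le]) hsum.summable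
      rw [H x, hF, ENNReal.ofReal_mul hα0.le, ENNReal.ofReal_tsum_of_nonneg
        (fun y => by split_ifs <;> simp [(hpos y).le]) hs]
      congr 1
      refine tsum_congr fun y => ?_
      split_ifs <;> simp) (by
      rw [← ENNReal.ofReal_tsum_of_nonneg (fun y => (hpos y).le) hsum.summable]
      exact ENNReal.ofReal_ne_top) i
  exact absurd (hpos {i}) (by simpa using this)

end Pool.Agent.H43.ConstRate
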