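import Pool.Agent.H43.CopulaDefs

set_option autoImplicit false
open MeasureTheory unitInterval Filter Topology Function

namespace Pool.Agent.H43.Copula

variable {n : ℕ}

lemma rect {C : (Fin n → I) → I} (hC : IsCopula C) (v : Fin n → I) {k j : Fin n} (hkj : k ≠ j)
    (a b : I) (ha : a ≤ v k) (hb : b ≤ v j) :
    0 ≤ (C v : ℝ) - C (update v k a) - C (update v j b) + C (update (update v k a) j b) := by
  classical
  set u : Fin n → I := fun i => if i = k then a else if i = j then b else 0 with hu
  have huv : u ≤ v := by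
    intro i
    simp only [hu]
    split_ifs with h1 h2
    · subst h1; exact ha
    · subst h2; exact hb
    · exact bot_le (a := v i)
  have h := hC.increasing u v huv
  unfold boxVol at h
  have e1 : ∑ S : Finset (Fin n), (-1 : ℝ) ^ (n - S.card) *
      (C (fun i => if i ∈ S then v i else u i) : ℝ) =
      ∑ T : Finset (Fin n), (-1 : ℝ) ^ (T.card) *
      (C (fun i => if i ∈ T then u i else v i) : ℝ) := by
    refine Fintype.sum_equiv (Equiv.mk compl compl compl_compl compl_compl) _ _ ?_
    intro S
    simp [Finset.card_compl]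
  have e2 : ∑ T : Finset (Fin n), (-1 : ℝ) ^ (T.card) *
      (C (fun i => if i ∈ T then u i else v i) : ℝ) =
      ∑ T ∈ ({k, j} : Finset (Fin n)).powerset, (-1 : ℝ) ^ (T.card) *
      (C (fun i => if i ∈ T then u i else v i) : ℝ) := by
    symm
    apply Finset.sum_subset (Finset.subset_univ _)
    intro T _ hT
    rw [Finset.mem_powerset, Finset.not_subset] at hT
    obtain ⟨i, hiT, hi⟩ := hT
    simp only [Finset.mem_insert, Finset.mem_singleton, not_or] at hi
    rw [hC.grounded _ i (by simp [hiT, hu, hi.1, hi.2])]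
    simp
  rw [e1, e2, Finset.sum_powerset_insert (by simpa using hkj)] at h
  have hp : ({j} : Finset (Fin n)).powerset = {∅, {j}} := by
    ext T; simp [Finset.subset_singleton_iff]
  rw [hp, Finset.sum_pair (by simp [Finset.singleton_ne_empty, eq_comm]),
    Finset.sum_pair (by simp [Finset.singleton_ne_empty, eq_comm])] at h
  have f0 : (fun i => if i ∈ (∅ : Finset (Fin n)) then u i else v i) = v := by
    ext i; simp
  have f1 : (fun i => if i ∈ ({j} : Finset (Fin n)) then u i else v i) = update v j b := by
    funext i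
    by_cases hi : i = j
    · subst hi; simp [hu, hkj.symm]
    · simp [hi]
  have f2 : (fun i => if i ∈ (insert k ∅ : Finset (Fin n)) then u i else v i) = update v k a := by
    funext i
    by_cases hi : i = k
    · subst hi; simp [hu]
    · simp [hi]
  have f3 : (fun i => if i ∈ (insert k {j} : Finset (Fin n)) then u i else v i)
      = update (update v k a) j b := by
    funext i
    by_cases hi : i = j
    · subst hi; simp [hu, hkj.symm]
    · by_cases hi' : i = k
      · subst hi'; simp [hu, hi]
      · simp [hi, hi']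
  rw [f0, f1, f2, f3] at h
  have c3 : (insert k {j} : Finset (Fin n)).card = 2 := Finset.card_pair hkj
  rw [c3] at h
  simp at h
  linarith

lemma mono1 {C : (Fin n → I) → I} (hC : IsCopula C) (hn : 2 ≤ n) (v : Fin n → I) (k : Fin n)
    (a : I) (ha : a ≤ v k) : (C (update v k a) : ℝ) ≤ C v := by
  haveI : Nontrivial (Fin n) := Fin.nontrivial_iff_two_le.2 hn
  obtain ⟨j, hj⟩ := exists_ne k
  have h := rect hC v hj.symm a 0 ha (bot_le (a := v j))
  rw [hC.grounded (update v j 0) j (by simp), hC.grounded (update (update v k a) j 0) j (by simp)]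
    at h
  simp at h
  exact h

lemma lip1 {C : (Fin n → I) → I} (hC : IsCopula C) (k : Fin n) (a : I)
    (T : Finset (Fin n)) : ∀ v : Fin n → I, a ≤ v k → (∀ j, j ≠ k → j ∉ T → v j = 1) →
      (C v : ℝ) - C (update v k a) ≤ v k - a := by
  classical
  induction T using Finset.induction_on with
  | empty =>
    intro v _ hv
    rw [hC.margin v k (fun j hj => hv j hj (by simp)),
      hC.margin (update v k a) k (fun j hj => by
        rw [update_of_ne hj]; exact hv j hj (by simp))]
    simp
  | insert j T _ ih =>
    intro v ha hv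
    by_cases hjk : j = k
    · exact ih v ha (fun i hi hiT => hv i hi (by simp [hiT, hjk, hi]))
    have h1 := ih (update v j 1) (by rwa [update_of_ne (Ne.symm hjk)]) (by
      intro i hi hiT
      by_cases hij : i = j
      · subst hij; simp
      · rw [update_of_ne hij]; exact hv i hi (by simp [hij, hiT]))
    have h2 := rect hC (update v j 1) (Ne.symm hjk) a (v j)
      (by rwa [update_of_ne (Ne.symm hjk)]) (by simp [le_top (a := v j)]; exact le_top (a := v j))
    have e1 : update (update v j 1) j (v j) = v := by simp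
    have e2 : update (update (update v j 1) k a) j (v j) = update v k a := by
      rw [update_comm hjk, update_idem, ← update_comm hjk, update_eq_self]
    rw [e1, e2] at h2
    rw [update_of_ne (Ne.symm hjk)] at h1
    linarith

lemma lip2 {C : (Fin n → I) → I} (hC : IsCopula C) (hn : 2 ≤ n) (v : Fin n → I) (k : Fin n)
    (a : I) : |(C v : ℝ) - C (update v k a)| ≤ |(v k : ℝ) - a| := by
  classical
  rcases le_total a (v k) with h | h
  · have h1 := lip1 hC k a Finset.univ v h (by simp)
    have h2 := mono1 hC hn v k a h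
    have h3 : (a : ℝ) ≤ v k := h
    rw [abs_of_nonneg (by linarith), abs_of_nonneg (by linarith)]
    exact h1
  · have h1 := lip1 hC k (v k) Finset.univ (update v k a) (by simpa using h) (by simp)
    have h2 := mono1 hC hn (update v k a) k (v k) (by simpa using h)
    have h3 : (v k : ℝ) ≤ a := h
    simp only [update_idem, update_eq_self, update_self] at h1 h2
    rw [abs_of_nonpos (by linarith), abs_of_nonpos (by linarith)]
    linarith

lemma lip3 {C : (Fin n → I) → I} (hC : IsCopula C) (hn : 2 ≤ n) (y : Fin n → I)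
    (T : Finset (Fin n)) : ∀ x : Fin n → I, (∀ j, j ∉ T → x j = y j) →
      |(C x : ℝ) - C y| ≤ ∑ j ∈ T, |(x j : ℝ) - y j| := by
  classical
  induction T using Finset.induction_on with
  | empty =>
    intro x hx
    have : x = y := funext fun j => hx j (by simp)
    simp [this]
  | insert j T hj ih =>
    intro x hx
    have h1 := ih (update x j (y j)) (by
      intro i hiT
      by_cases hij : i = j
      · subst hij; simp
      · rw [update_of_ne hij]; exact hx i (by simp [hij, hiT]))
    have h2 := lip2 hC hn x j (y j)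
    rw [Finset.sum_insert hj]
    have e : ∑ i ∈ T, |((update x j (y j) i : I) : ℝ) - y i| = ∑ i ∈ T, |(x i : ℝ) - y i| := by
      refine Finset.sum_congr rfl fun i hi => ?_
      rw [update_of_ne (by rintro rfl; exact hj hi)]
    rw [e] at h1
    calc |(C x : ℝ) - C y| ≤ |(C x : ℝ) - C (update x j (y j))| + |(C (update x j (y j)) : ℝ) - C y| :=
          abs_sub_le _ _ _
      _ ≤ _ := add_le_add h2 h1

lemma lipschitz {C : (Fin n → I) → I} (hC : IsCopula C) (hn : 2 ≤ n) :
    LipschitzWith n C := by
  refine LipschitzWith.of_dist_le_mul fun x y => ?_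
  have h := lip3 hC hn y Finset.univ x (by simp)
  rw [Subtype.dist_eq, Real.dist_eq]
  refine h.trans ?_
  calc ∑ j, |(x j : ℝ) - y j| ≤ ∑ _j : Fin n, dist x y := by
        refine Finset.sum_le_sum fun j _ => ?_
        have := dist_le_pi_dist x y j
        rwa [Subtype.dist_eq, Real.dist_eq] at this
    _ = _ := by simp

/-- The independence copula. -/
noncomputable def prodC (x : Fin n → I) : I := ∏ k, x k

lemma coe_prodC (x : Fin n → I) : (prodC x : ℝ) = ∏ k, (x k : ℝ) := by
  unfold prodC
  exact map_prod (unitInterval.submonoid.subtype) x Finset.univ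

lemma prodC_copula : IsCopula (prodC (n := n)) := by
  classical
  refine ⟨?_, ?_, ?_⟩
  · intro x k hk
    exact Finset.prod_eq_zero (Finset.mem_univ k) hk
  · intro x k hk
    unfold prodC
    rw [Finset.prod_eq_single k (fun j _ hj => hk j hj) (by simp)]
  · intro u v huv
    have : boxVol prodC u v = ∏ k, ((v k : ℝ) + (-(u k : ℝ))) := by
      rw [Fintype.prod_add]
      unfold boxVol
      refine Finset.sum_congr rfl fun S _ => ?_
      rw [coe_prodC, ← Finset.prod_mul_prod_compl S]
      have a1 : ∏ i ∈ S, (((if i ∈ S then v i else u i : I)) : ℝ) = ∏ i ∈ S, (v i : ℝ) :=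
        Finset.prod_congr rfl fun i hi => by simp [hi]
      have a2 : ∏ i ∈ Sᶜ, (((if i ∈ S then v i else u i : I)) : ℝ) = ∏ i ∈ Sᶜ, (u i : ℝ) :=
        Finset.prod_congr rfl fun i hi => by simp [Finset.mem_compl.1 hi]
      rw [a1, a2, Finset.prod_neg, Finset.card_compl]
      simp only [Fintype.card_fin]
      ring
    rw [this]
    refine Finset.prod_nonneg fun k _ => ?_
    have : (u k : ℝ) ≤ v k := huv k
    linarith

lemma continuous_lowerW : Continuous (lowerW (n := n)) := by
  unfold lowerW
  fun_prop

lemma isClosed_copula : IsClosed {C : (Fin n → I) → I | IsCopula C} := by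
  have : {C : (Fin n → I) → I | IsCopula C} =
      (⋂ (x : Fin n → I) (k : Fin n) (_ : x k = 0), {C | C x = 0}) ∩
      ((⋂ (x : Fin n → I) (k : Fin n) (_ : ∀ j, j ≠ k → x j = 1), {C | C x = x k}) ∩
      (⋂ (u : Fin n → I) (v : Fin n → I) (_ : u ≤ v), {C | 0 ≤ boxVol C u v})) := by
    ext C
    simp only [Set.mem_inter_iff, Set.mem_iInter, Set.mem_ofPred_eq]
    exact ⟨fun h => ⟨h.1, h.2, h.3⟩, fun h => ⟨h.1, h.2.1, h.2.2⟩⟩
  rw [this]
  refine IsClosed.inter ?_ (IsClosed.inter ?_ ?_)
  · exact isClosed_iInter fun x => isClosed_iInter fun k => isClosed_iInter fun _ =>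
      isClosed_eq (continuous_apply x) continuous_const
  · exact isClosed_iInter fun x => isClosed_iInter fun k => isClosed_iInter fun _ =>
      isClosed_eq (continuous_apply x) continuous_const
  · refine isClosed_iInter fun u => isClosed_iInter fun v => isClosed_iInter fun _ =>
      isClosed_le continuous_const ?_
    unfold boxVol
    fun_prop

/-- measure of the contact set -/
noncomputable def Phi (C : (Fin n → I) → I) : ENNReal := volume {x | (C x : ℝ) = lowerW x}

lemma meas_contact {C : (Fin n → I) → I} (hC : IsCopula C) (hn : 2 ≤ n) :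
    MeasurableSet {x | (C x : ℝ) = lowerW x} :=
  (isClosed_eq (continuous_subtype_val.comp (lipschitz hC hn).continuous)
    continuous_lowerW).measurableSet

lemma sSup_eq (hn : 2 ≤ n) :
    sSupMeasure n = ⨆ C : {C : (Fin n → I) → I // IsCopula C}, Phi C.1 := by
  apply le_antisymm
  · refine iSup_le fun A => iSup_le fun _ => iSup_le fun h => ?_
    obtain ⟨C, hC, hA⟩ := h
    exact le_iSup_of_le ⟨C, hC⟩ (measure_mono fun x hx => hA x hx)
  · refine iSup_le fun C => ?_
    exact le_iSup_of_le {x | (C.1 x : ℝ) = lowerW x} (le_iSup_of_le (meas_contact C.2 hn)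
      (le_iSup_of_le ⟨C.1, C.2, fun x hx => hx⟩ le_rfl))

theorem attained (hn : 2 ≤ n) :
    ∃ C : (Fin n → I) → I, IsCopula C ∧ Phi C = sSupMeasure n := by
  set ι := {C : (Fin n → I) → I // IsCopula C}
  haveI : Nonempty ι := ⟨⟨prodC, prodC_copula⟩⟩
  set s := ⨆ C : ι, Phi C.1 with hs
  have hcl : s ∈ closure (Set.range fun C : ι => Phi C.1) :=
    (isLUB_iSup).mem_closure (Set.range_nonempty _)
  have hne : (comap (fun C : ι => Phi C.1) (𝓝 s)).NeBot := by
    refine comap_neBot fun t ht => ?_
    obtain ⟨_, h1, C, rfl⟩ := mem_closure_iff_nhds.1 hcl t ht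
    exact ⟨C, h1⟩
  obtain ⟨U, hU⟩ := Ultrafilter.exists_le (comap (fun C : ι => Phi C.1) (𝓝 s))
  have hPhi : Tendsto (fun C : ι => Phi C.1) U (𝓝 s) := tendsto_iff_comap.2 hU
  obtain ⟨D, -, hD⟩ := isCompact_univ.ultrafilter_le_nhds (U.map (fun C : ι => C.1)) (by simp)
  have hD' : Tendsto (fun C : ι => C.1) U (𝓝 D) := hD
  have hDc : IsCopula D := isClosed_copula.mem_of_tendsto hD' (Eventually.of_forall fun C => C.2)
  have heq : Equicontinuous (fun C : ι => C.1) :=
    (LipschitzWith.uniformEquicontinuous _ (n : NNReal) fun C : ι => lipschitz C.2 hn).equicontinuous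
  have hun := (heq.tendsto_uniformFun_iff_pi U D).2 hD'
  rw [UniformFun.tendsto_iff_tendstoUniformly] at hun
  have hun' := Metric.tendstoUniformly_iff.1 hun
  let B : ℕ → Set (Fin n → I) := fun m => {x | |(D x : ℝ) - lowerW x| ≤ 1 / ((m : ℝ) + 1)}
  have hB : ∀ m, s ≤ volume (B m) := by
    intro m
    refine le_of_tendsto hPhi ?_
    filter_upwards [hun' (1 / ((m : ℝ) + 1)) (by positivity)] with C hC
    refine measure_mono fun x hx => ?_
    have h1 : dist (D x) (C.1 x) < 1 / ((m : ℝ) + 1) := hC x
    rw [Subtype.dist_eq, Real.dist_eq] at h1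
    have hx' : (C.1 x : ℝ) = lowerW x := hx
    rw [hx'] at h1
    exact h1.le
  have hBm : ∀ m, MeasurableSet (B m) := fun m =>
    (isClosed_le (((continuous_subtype_val.comp (lipschitz hDc hn).continuous).sub
      continuous_lowerW).abs) continuous_const).measurableSet
  have hanti : Antitone B := by
    intro a b hab x hx
    have hx' : |(D x : ℝ) - lowerW x| ≤ 1 / ((b : ℝ) + 1) := hx
    exact hx'.trans (Nat.one_div_le_one_div hab)
  have hint : (⋂ m, B m) = {x | (D x : ℝ) = lowerW x} := by
    ext x
    simp only [Set.mem_iInter, B, Set.mem_ofPred_eq]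
    constructor
    · intro h
      have : |(D x : ℝ) - lowerW x| ≤ 0 :=
        ge_of_tendsto' tendsto_one_div_add_atTop_nhds_zero_nat h
      have := abs_nonpos_iff.1 this
      linarith
    · intro h m
      rw [h]; simp; positivity
  have hm := hanti.measure_iInter (μ := volume) (fun m => (hBm m).nullMeasurableSet)
    ⟨0, measure_ne_top _ _⟩
  refine ⟨D, hDc, ?_⟩
  rw [sSup_eq hn]
  apply le_antisymm
  · exact le_iSup (fun C : ι => Phi C.1) ⟨D, hDc⟩
  · unfold Phi
    rw [← hint, hm]
    exact le_iInf hB

end Pool.Agent.H43.Copula
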