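import Mathlib

set_option autoImplicit false
open MeasureTheory unitInterval

namespace Pool.Agent.H43.Copula

/-- The `C`-volume of the box `[u, v]`: the vertex `w` indexed by `S` (the set where `ε = 1`)
has `w k = v k` for `k ∈ S` and `w k = u k` otherwise, with sign `(-1)^(n - |S|)`. -/
noncomputable def boxVol {n : ℕ} (C : (Fin n → I) → I) (u v : Fin n → I) : ℝ :=
  ∑ S : Finset (Fin n), (-1 : ℝ) ^ (n - S.card) * (C (fun k => if k ∈ S then v k else u k) : ℝ)

/-- An `n`-copula. -/
structure IsCopula {n : ℕ} (C : (Fin n → I) → I) : Prop where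
  grounded : ∀ (x : Fin n → I) (k : Fin n), x k = 0 → C x = 0
  margin : ∀ (x : Fin n → I) (k : Fin n), (∀ j, j ≠ k → x j = 1) → C x = x k
  increasing : ∀ u v : Fin n → I, u ≤ v → 0 ≤ boxVol C u v

/-- The lower Fréchet bound `max (x₁ + ⋯ + xₙ - n + 1) 0`. -/
noncomputable def lowerW {n : ℕ} (x : Fin n → I) : ℝ :=
  max ((∑ k, (x k : ℝ)) - n + 1) 0

/-- `sₙ`: the supremum of the Lebesgue measures of measurable sets `A` on which some `n`-copula
agrees with the lower Fréchet bound. -/
noncomputable def sSupMeasure (n : ℕ) : ENNReal :=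
  ⨆ (A : Set (Fin n → I)) (_ : MeasurableSet A)
    (_ : ∃ C : (Fin n → I) → I, IsCopula C ∧ ∀ x ∈ A, (C x : ℝ) = lowerW x), volume A

end Pool.Agent.H43.Copula
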