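import Mathlib

set_option autoImplicit false

namespace Pool.Agent.H43.Cyc

open MeasureTheory ProbabilityTheory
open scoped NNReal ENNReal

/-- i.i.d. fair coins -/
noncomputable def coin : Measure (ℕ → Bool) :=
  Measure.infinitePi fun _ : ℕ => uniformOn (Set.univ : Set Bool)

/-- simple random walk path on the cycle `ZMod N` from `x`, with steps `+1` or `-1` read off
the coins `ξ` -/
def pos {N : ℕ} (x : ZMod N) (ξ : ℕ → Bool) (t : ℕ) : ZMod N :=
  x + ∑ s ∈ Finset.range t, if ξ s then 1 else -1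

/-- law of `m` independent walkers on the cycle, each with a uniform start -/
noncomputable def walkers (N m : ℕ) : Measure (Fin m → ZMod N × (ℕ → Bool)) :=
  Measure.pi fun _ => (uniformOn (Set.univ : Set (ZMod N))).prod coin

/-- first time at which every vertex has been visited by some walker -/
noncomputable def coverTime {N m : ℕ} (ω : Fin m → ZMod N × (ℕ → Bool)) : ℕ∞ :=
  ⨅ (t : ℕ) (_ : ∀ v, ∃ i, ∃ s ≤ t, pos (ω i).1 (ω i).2 s = v), (t : ℕ∞)

/-- frog model on the cycle: coins of the extra particle at `0`; at each vertex a Poisson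
number of sleeping particles and independent coins for their paths -/
noncomputable def frogs (N : ℕ) [NeZero N] (lam : ℝ≥0) :
    Measure ((ℕ → Bool) × (ZMod N → ℕ × (ℕ → ℕ → Bool))) :=
  coin.prod (Measure.pi fun _ => (poissonMeasure lam).prod (Measure.infinitePi fun _ : ℕ => coin))

/-- vertices visited by an active particle when the lifetime is `τ` -/
inductive Reached {N : ℕ} (τ : ℕ) (ω : (ℕ → Bool) × (ZMod N → ℕ × (ℕ → ℕ → Bool))) :
    ZMod N → Prop
  | extra (t : ℕ) (ht : t ≤ τ) : Reached τ ω (pos 0 ω.1 t)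
  | wake (v : ZMod N) (hv : Reached τ ω v) (i : ℕ) (hi : i < (ω.2 v).1) (t : ℕ) (ht : t ≤ τ) :
      Reached τ ω (pos v ((ω.2 v).2 i) t)

/-- the susceptibility -/
noncomputable def susc {N : ℕ} (ω : (ℕ → Bool) × (ZMod N → ℕ × (ℕ → ℕ → Bool))) : ℕ∞ :=
  ⨅ (τ : ℕ) (_ : ∀ v, Reached τ ω v), (τ : ℕ∞)

end Pool.Agent.H43.Cyc
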