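import Mathlib

set_option autoImplicit false

namespace Pool.Agent.H43.Dep

open MeasureTheory ProbabilityTheory

variable {ι α : Type}

/-- the event `A` is determined by the coordinates in `S` -/
def Dep (S : Finset ι) (A : Set (ι → α)) : Prop :=
  ∀ ω ω' : ι → α, (∀ e ∈ S, ω e = ω' e) → ω ∈ A → ω' ∈ A

lemma Dep.mono {S T : Finset ι} {A : Set (ι → α)} (h : Dep S A) (hST : S ⊆ T) : Dep T A :=
  fun ω ω' hω => h ω ω' fun e he => hω e (hST he)

lemma Dep.compl {S : Finset ι} {A : Set (ι → α)} (h : Dep S A) : Dep S Aᶜ :=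
  fun ω ω' hω h1 h2 => h1 (h ω' ω (fun e he => (hω e he).symm) h2)

lemma Dep.inter {S : Finset ι} {A B : Set (ι → α)} (h : Dep S A) (h' : Dep S B) :
    Dep S (A ∩ B) := fun ω ω' hω h1 => ⟨h ω ω' hω h1.1, h' ω ω' hω h1.2⟩

lemma Dep.eq_preimage {S : Finset ι} {A : Set (ι → α)} (h : Dep S A) :
    A = (fun (ω : ι → α) (i : S) => ω i) ⁻¹' ((fun (ω : ι → α) (i : S) => ω i) '' A) := by
  ext ω
  refine ⟨fun hω => ⟨ω, hω, rfl⟩, ?_⟩
  rintro ⟨ω', h1, h2⟩
  exact h ω' ω (fun e he => congrFun h2 ⟨e, he⟩) h1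

variable [MeasurableSpace α] [Countable α] [MeasurableSingletonClass α]

lemma Dep.meas {S : Finset ι} {A : Set (ι → α)} (h : Dep S A) : MeasurableSet A := by
  rw [h.eq_preimage]
  have : Measurable fun (ω : ι → α) (i : S) => ω i := by fun_prop
  exact this (Set.to_countable _).measurableSet

lemma Dep.indep (ν : ι → Measure α) [∀ i, IsProbabilityMeasure (ν i)] {S T : Finset ι}
    {A B : Set (ι → α)} (h : Dep S A) (h' : Dep T B) (hST : Disjoint S T) :
    (Measure.infinitePi ν).real (A ∩ B) =
      (Measure.infinitePi ν).real A * (Measure.infinitePi ν).real B := by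
  have h1 := (iIndepFun_infinitePi (P := ν) (X := fun _ x => x)
    (fun _ => measurable_id)).indepFun_finset S T hST (fun i => measurable_pi_apply i)
  have h2 := h1.measure_inter_preimage_eq_mul ((fun (ω : ι → α) (i : S) => ω i) '' A)
    ((fun (ω : ι → α) (i : T) => ω i) '' B) (Set.to_countable _).measurableSet
    (Set.to_countable _).measurableSet
  rw [← h.eq_preimage, ← h'.eq_preimage] at h2
  simp only [measureReal_def, h2, ENNReal.toReal_mul]

omit [Countable α] in
lemma real_eval (ν : ι → Measure α) [∀ i, IsProbabilityMeasure (ν i)] (e : ι) (a : α) :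
    (Measure.infinitePi ν).real {ω | ω e = a} = (ν e).real {a} := by
  have := (measurePreserving_eval_infinitePi ν e).measure_preimage
    (measurableSet_singleton a).nullMeasurableSet
  simp only [measureReal_def, ← this]
  rfl

end Pool.Agent.H43.Dep
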