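import Pool.Agent.H43.CycDefs
import Pool.Agent.H43.Dep

set_option autoImplicit false

namespace Pool.Agent.H43.Cyc

open MeasureTheory ProbabilityTheory Pool.Agent.H43.Dep
open scoped NNReal ENNReal

instance : IsProbabilityMeasure coin := by unfold coin; infer_instance

lemma unif_bool (b : Bool) : uniformOn (Set.univ : Set Bool) {b} = 2⁻¹ := by
  rw [uniformOn_univ]; simp

def B (N J : ℕ) : Set (ℕ → Bool) := {ξ | ∀ j < J, ¬ ∀ s < N, ξ (j * N + s) = true}

lemma B_dep (N J : ℕ) : Dep (Finset.range (J * N)) (B N J) := by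
  intro ω ω' h hω j hj h1
  refine hω j hj fun s hs => ?_
  rw [h _ (Finset.mem_range.2 (by nlinarith))]
  exact h1 s hs

lemma B_prob (N J : ℕ) : coin.real (B N J) = (1 - (1 / 2) ^ N) ^ J := by
  induction J with
  | zero => simp [B]
  | succ J ih =>
    have hd : Dep (Finset.Ico (J * N) (J * N + N)) {ξ : ℕ → Bool | ∀ s < N, ξ (J * N + s) = true} := by
      intro ω ω' h hω s hs
      rw [← h _ (Finset.mem_Ico.2 (by omega))]
      exact hω s hs
    have h1 : B N (J + 1) = B N J ∩ {ξ : ℕ → Bool | ∀ s < N, ξ (J * N + s) = true}ᶜ := by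
      ext ξ
      simp only [B, Set.mem_ofPred_eq, Set.mem_inter_iff, Set.mem_compl_iff,
        Nat.forall_lt_succ_right]
    have h2 : coin.real {ξ : ℕ → Bool | ∀ s < N, ξ (J * N + s) = true} = (1 / 2) ^ N := by
      have h3 : {ξ : ℕ → Bool | ∀ s < N, ξ (J * N + s) = true} =
          Set.pi (Finset.Ico (J * N) (J * N + N)) fun _ => {true} := by
        ext ξ
        simp only [Set.mem_ofPred_eq, Set.mem_pi, Finset.coe_Ico, Set.mem_Ico,
          Set.mem_singleton_iff]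
        refine ⟨fun h i hi => ?_, fun h s hs => h _ (by omega)⟩
        have := h (i - J * N) (by omega)
        rwa [show J * N + (i - J * N) = i by omega] at this
      rw [h3, measureReal_def, coin, Measure.infinitePi_pi _ fun _ _ => measurableSet_singleton _]
      simp only [unif_bool]
      simp
    have h4 := Dep.indep (fun _ : ℕ => uniformOn (Set.univ : Set Bool)) (B_dep N J) hd.compl
      (by rw [Finset.disjoint_left]; intro a ha hb; simp at ha hb; omega)
    rw [h1]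
    unfold coin at *
    rw [h4, ih, probReal_compl_eq_one_sub hd.meas, h2, pow_succ]

lemma lint_fin {Ω : Type} [MeasurableSpace Ω] (μ : Measure Ω) (f : Ω → ℕ → Bool)
    (hf : MeasurePreserving f μ coin) (N : ℕ) (hN : 0 < N) (D : Ω → ℕ∞)
    (hD : ∀ ω j, (∀ s < N, f ω (j * N + s) = true) → D ω ≤ ((j + 1) * N : ℕ)) :
    ∫⁻ ω, (D ω : ℝ≥0∞) ∂μ ≠ ⊤ := by
  have hm : ∀ J, MeasurableSet (f ⁻¹' B N J) := fun J => hf.measurable (B_dep N J).meas
  have h1 : ∀ ω, (D ω : ℝ≥0∞) ≤ ∑' J, (f ⁻¹' B N J).indicator (fun _ => (N : ℝ≥0∞)) ω := by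
    intro ω
    by_cases h : ∃ j, ∀ s < N, f ω (j * N + s) = true
    · have h2 := hD ω _ (Nat.find_spec h)
      have h3 : (D ω : ℝ≥0∞) ≤ (((Nat.find h + 1) * N : ℕ) : ℝ≥0∞) := by
        exact_mod_cast ENat.toENNReal_le.2 h2
      refine h3.trans (le_trans (le_of_eq ?_)
        (ENNReal.sum_le_tsum (Finset.range (Nat.find h + 1))))
      rw [Finset.sum_congr rfl (g := fun _ => (N : ℝ≥0∞))]
      · simp
      · intro J hJ
        refine Set.indicator_of_mem ?_ _
        intro j hj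
        exact Nat.find_min h (by rw [Finset.mem_range] at hJ; omega)
    · have h2 : ∀ J, (f ⁻¹' B N J).indicator (fun _ => (N : ℝ≥0∞)) ω = N := fun J =>
        Set.indicator_of_mem (show ω ∈ f ⁻¹' B N J from fun j _ hj => h ⟨j, hj⟩) _
      simp only [h2]
      rw [ENNReal.tsum_const_eq_top_of_ne_zero (by exact_mod_cast hN.ne')]
      exact le_top
  refine ne_top_of_le_ne_top ?_ (lintegral_mono h1)
  rw [lintegral_tsum fun J => (measurable_const.indicator (hm J)).aemeasurable]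
  have h2 : ∀ J, ∫⁻ ω, (f ⁻¹' B N J).indicator (fun _ => (N : ℝ≥0∞)) ω ∂μ =
      N * ENNReal.ofReal (1 - (1 / 2) ^ N) ^ J := by
    intro J
    rw [lintegral_indicator_const (hm J), hf.measure_preimage (B_dep N J).meas.nullMeasurableSet,
      ← ofReal_measureReal (measure_ne_top _ _), B_prob, ENNReal.ofReal_pow]
    have : (1 / 2 : ℝ) ^ N ≤ 1 := pow_le_one₀ (by norm_num) (by norm_num)
    linarith
  simp only [h2]
  rw [ENNReal.tsum_mul_left, ENNReal.tsum_geometric]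
  refine ENNReal.mul_ne_top (by simp) (ENNReal.inv_ne_top.2 (tsub_pos_iff_lt.2 ?_).ne')
  rw [ENNReal.ofReal_lt_one]
  have : (0 : ℝ) < (1 / 2) ^ N := by positivity
  linarith

lemma pos_succ {N : ℕ} (x : ZMod N) (ξ : ℕ → Bool) (t : ℕ) :
    pos x ξ (t + 1) = pos x ξ t + if ξ t then 1 else -1 := by
  simp only [pos, Finset.sum_range_succ, add_assoc]

lemma pos_zero {N : ℕ} (x : ZMod N) (ξ : ℕ → Bool) : pos x ξ 0 = x := by simp [pos]

lemma cover_block {N : ℕ} [NeZero N] (x : ZMod N) (ξ : ℕ → Bool) (j : ℕ)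
    (h : ∀ s < N, ξ (j * N + s) = true) (v : ZMod N) : ∃ s ≤ (j + 1) * N, pos x ξ s = v := by
  have h1 : ∀ r ≤ N, pos x ξ (j * N + r) = pos x ξ (j * N) + r := by
    intro r hr
    induction r with
    | zero => simp
    | succ r ih =>
      rw [← add_assoc, pos_succ, ih (by omega), h r (by omega)]
      push_cast
      simp [add_assoc]
  have h2 := ZMod.val_lt (v - pos x ξ (j * N))
  refine ⟨j * N + (v - pos x ξ (j * N)).val, by nlinarith, ?_⟩
  rw [h1 _ h2.le]
  simp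

lemma final {Ω : Type} [MeasurableSpace Ω] (μ : Measure Ω) [IsProbabilityMeasure μ] (D : Ω → ℕ∞)
    (k : ℕ) (c : ℝ) (hc : 0 < c) (hE : ∫⁻ ω, (D ω : ℝ≥0∞) ∂μ ≠ ⊤) (h1 : c ≤ μ.real {ω | D ω ≤ k})
    (A : Set Ω) (hA : MeasurableSet A) (hA' : ∀ ω ∈ A, (k : ℕ∞) < D ω) (h2 : c ≤ μ.real A) :
    0 < ∫⁻ ω, (D ω : ℝ≥0∞) ∂μ ∧ ∫⁻ ω, (D ω : ℝ≥0∞) ∂μ < ⊤ ∧
    c ≤ μ.real {ω | D ω ≤ k} ∧ c ≤ μ.real {ω | (k : ℕ∞) < D ω} ∧
    c ≤ μ.real {ω | 1 / (2 * (k : ℝ) + 1) ≤
      |((D ω).toNat : ℝ) / (∫⁻ ω, (D ω : ℝ≥0∞) ∂μ).toReal - 1|} := by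
  have h3 : c ≤ μ.real {ω | (k : ℕ∞) < D ω} := h2.trans (measureReal_mono hA')
  have h0 : 0 < ∫⁻ ω, (D ω : ℝ≥0∞) ∂μ := by
    have h4 : μ A ≤ ∫⁻ ω, (D ω : ℝ≥0∞) ∂μ := by
      rw [← lintegral_indicator_one hA]
      refine lintegral_mono fun ω => ?_
      by_cases hω : ω ∈ A
      · rw [Set.indicator_of_mem hω, Pi.one_apply]
        have h5 : (1 : ℕ∞) ≤ D ω := Order.one_le_iff_ne_zero.2 (zero_le.trans_lt (hA' ω hω)).ne'
        have h6 := ENat.toENNReal_le.2 h5
        rwa [ENat.toENNReal_one] at h6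
      · rw [Set.indicator_of_notMem hω]; exact zero_le
    refine lt_of_lt_of_le (pos_iff_ne_zero.2 fun h => ?_) h4
    rw [measureReal_def, h] at h2
    simp at h2
    linarith
  refine ⟨h0, hE.lt_top, h1, h3, ?_⟩
  have hp : 0 < (∫⁻ ω, (D ω : ℝ≥0∞) ∂μ).toReal := ENNReal.toReal_pos h0.ne' hE
  generalize (∫⁻ ω, (D ω : ℝ≥0∞) ∂μ).toReal = e at hp
  have hk : (0 : ℝ) ≤ k := Nat.cast_nonneg k
  rcases le_total e (k + 1 / 2) with he | he
  · refine h3.trans (measureReal_mono fun ω hω => ?_)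
    simp only [Set.mem_ofPred_eq] at hω ⊢
    cases hD : D ω with
    | top => simp only [ENat.toNat_top, Nat.cast_zero, zero_div, zero_sub, abs_neg, abs_one]
             rw [div_le_one (by positivity)]; linarith
    | coe d =>
      rw [hD] at hω
      have h5 : k + 1 ≤ d := by exact_mod_cast hω
      have h6 : (k : ℝ) + 1 ≤ d := by exact_mod_cast h5
      refine le_trans ?_ (le_abs_self _)
      rw [ENat.toNat_natCast, le_sub_iff_add_le, le_div_iff₀ hp]
      have h7 : (1 / (2 * (k : ℝ) + 1) + 1) * (k + 1 / 2) = k + 1 := by field_simp; ring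
      have h8 : 0 ≤ 1 / (2 * (k : ℝ) + 1) + 1 := by positivity
      nlinarith [mul_le_mul_of_nonneg_left he h8]
  · refine h1.trans (measureReal_mono fun ω hω => ?_)
    simp only [Set.mem_ofPred_eq] at hω ⊢
    have h5 : (D ω).toNat ≤ k := ENat.toNat_le_of_le_natCast hω
    have h6 : ((D ω).toNat : ℝ) ≤ k := by exact_mod_cast h5
    refine le_trans ?_ (neg_le_abs _)
    rw [neg_sub, le_sub_comm, div_le_iff₀ hp]
    have h7 : (1 - 1 / (2 * (k : ℝ) + 1)) * (k + 1 / 2) = k := by field_simp; ring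
    have h8 : 0 ≤ 1 - 1 / (2 * (k : ℝ) + 1) := by
      rw [sub_nonneg, div_le_one (by positivity)]; linarith
    nlinarith [mul_le_mul_of_nonneg_left he h8]

lemma second {Ω ι : Type} [MeasurableSpace Ω] [Fintype ι] (μ : Measure Ω) [IsProbabilityMeasure μ]
    (U : ι → Set Ω) (hU : ∀ v, MeasurableSet (U v)) (θ : ℝ) :
    2 * θ * ∑ v, μ.real (U v) - θ ^ 2 * ∑ u, ∑ v, μ.real (U u ∩ U v) ≤ μ.real (⋃ v, U v) := by
  have hi : ∀ A : Set Ω, MeasurableSet A → Integrable (A.indicator (1 : Ω → ℝ)) μ := fun A hA =>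
    (integrable_const (1 : ℝ)).indicator hA
  have h1 : ∀ ω, 2 * θ * ∑ v, (U v).indicator (1 : Ω → ℝ) ω -
      θ ^ 2 * ∑ u, ∑ v, (U u ∩ U v).indicator (1 : Ω → ℝ) ω ≤ (⋃ v, U v).indicator 1 ω := by
    intro ω
    simp only [Set.inter_indicator_one, Pi.mul_apply]
    rw [← Finset.sum_mul_sum]
    by_cases h : ω ∈ ⋃ v, U v
    · rw [Set.indicator_of_mem h, Pi.one_apply]
      nlinarith [sq_nonneg (1 - θ * ∑ v, (U v).indicator (1 : Ω → ℝ) ω)]
    · rw [Set.indicator_of_notMem h, Finset.sum_eq_zero fun v _ =>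
        Set.indicator_of_notMem (fun hv => h (Set.mem_iUnion.2 ⟨v, hv⟩)) _]
      simp
  have i1 : Integrable (fun ω => ∑ v, (U v).indicator (1 : Ω → ℝ) ω) μ :=
    integrable_finsetSum _ fun v _ => hi _ (hU v)
  have i2 : ∀ u, Integrable (fun ω => ∑ v, (U u ∩ U v).indicator (1 : Ω → ℝ) ω) μ := fun u =>
    integrable_finsetSum _ fun v _ => hi _ ((hU u).inter (hU v))
  have i3 : Integrable (fun ω => ∑ u, ∑ v, (U u ∩ U v).indicator (1 : Ω → ℝ) ω) μ :=
    integrable_finsetSum _ fun u _ => i2 u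
  have h2 := integral_mono ((i1.const_mul (2 * θ)).sub (i3.const_mul (θ ^ 2)))
    (hi _ (MeasurableSet.iUnion hU)) h1
  rw [integral_indicator_one (MeasurableSet.iUnion hU)] at h2
  refine le_trans (le_of_eq ?_) h2
  simp only [Pi.sub_apply]
  rw [integral_sub (i1.const_mul _) (i3.const_mul _), integral_const_mul, integral_const_mul,
    integral_finsetSum _ fun v _ => hi _ (hU v), integral_finsetSum _ fun u _ => i2 u]
  congr 2
  · exact Finset.sum_congr rfl fun v _ => (integral_indicator_one (hU v)).symm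
  · refine Finset.sum_congr rfl fun u _ => ?_
    rw [integral_finsetSum _ fun v _ => hi _ ((hU u).inter (hU v))]
    exact Finset.sum_congr rfl fun v _ => (integral_indicator_one ((hU u).inter (hU v))).symm

end Pool.Agent.H43.Cyc
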