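import Mathlib

set_option autoImplicit false

noncomputable section

namespace Pool.Agent.H43.Cyl

open Finset Relation

abbrev E (m : ℕ) := (ℤ × ZMod m) × Bool

variable {m : ℕ}

def tgt (e : E m) : ℤ × ZMod m := if e.2 = true then (e.1.1, e.1.2 + 1) else (e.1.1 + 1, e.1.2)

def nb (e : E m) : Finset (E m) :=
  (Icc (e.1.1 - 1) (e.1.1 + 1) ×ˢ {e.1.2 - 1, e.1.2, e.1.2 + 1}) ×ˢ univ

lemma mem_nb {a b : E m} : b ∈ nb a ↔ (a.1.1 - 1 ≤ b.1.1 ∧ b.1.1 ≤ a.1.1 + 1) ∧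
    (b.1.2 = a.1.2 - 1 ∨ b.1.2 = a.1.2 ∨ b.1.2 = a.1.2 + 1) := by simp [nb]

def An : ℕ → E m → Finset (Finset (E m))
  | 0, e => {{e}}
  | n + 1, e => (nb e).biUnion fun b => (An n b).image (insert e)

lemma An_card (n : ℕ) (e : E m) : (An n e).card ≤ 18 ^ n := by
  induction n generalizing e with
  | zero => simp [An]
  | succ n ih =>
    refine (card_biUnion_le_card_mul _ _ _ fun b _ => card_image_le.trans (ih b)).trans ?_
    have : (nb e).card ≤ 18 := by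
      have := card_le_three (a := e.1.2 - 1) (b := e.1.2) (c := e.1.2 + 1)
      simp only [nb, card_product, Int.card_Icc, card_univ, Fintype.card_bool]
      rw [show (e.1.1 + 1 + 1 - (e.1.1 - 1)).toNat = 3 by omega]
      omega
    rw [pow_succ']
    exact Nat.mul_le_mul_right _ this

lemma An_step {n : ℕ} {e b : E m} {γ : Finset (E m)} (h : γ ∈ An n b) (hb : b ∈ nb e) :
    insert e γ ∈ An (n + 1) e := mem_biUnion.2 ⟨b, hb, mem_image_of_mem _ h⟩

lemma An_self {n : ℕ} {e : E m} {γ : Finset (E m)} (h : γ ∈ An n e) : e ∈ γ := by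
  rcases n with _ | n
  · simp_all [An]
  · obtain ⟨b, -, h⟩ := mem_biUnion.1 h
    obtain ⟨γ, -, rfl⟩ := mem_image.1 h
    exact mem_insert_self _ _

lemma An_dist {n : ℕ} {e a : E m} {γ : Finset (E m)} (h : γ ∈ An n e) (ha : a ∈ γ) :
    e.1.1 ≤ a.1.1 + n ∧ a.1.1 ≤ e.1.1 + n := by
  induction n generalizing e γ with
  | zero => simp_all [An]
  | succ n ih =>
    obtain ⟨b, hb, h⟩ := mem_biUnion.1 h
    obtain ⟨γ, h', rfl⟩ := mem_image.1 h
    rcases mem_insert.1 ha with rfl | ha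
    · omega
    · have := ih h' ha
      have := (mem_nb.1 hb).1
      omega

lemma An_ins {n : ℕ} {e a b : E m} {γ : Finset (E m)} (h : γ ∈ An n e) (ha : a ∈ γ)
    (hb : b ∈ nb a) : insert b γ ∈ An (n + 2) e := by
  have h0 : ∀ {n : ℕ} {γ : Finset (E m)}, γ ∈ An n a → insert b γ ∈ An (n + 2) a := fun h => by
    have h1 := An_step (An_step h (e := b) (by rw [mem_nb] at hb ⊢; grind)) hb
    rwa [insert_eq_of_mem (mem_insert_of_mem (An_self h))] at h1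
  induction n generalizing e γ with
  | zero =>
    obtain rfl : a = e := by simp_all [An]
    exact h0 h
  | succ n ih =>
    obtain ⟨c, hc, h'⟩ := mem_biUnion.1 h
    obtain ⟨γ, h1, rfl⟩ := mem_image.1 h'
    rcases mem_insert.1 ha with rfl | ha
    · exact h0 h
    · rw [insert_comm]
      exact An_step (ih h1 ha) hc

lemma exists_comp {D : Finset (E m)} {e : E m} (he : e ∈ D) : ∃ k, ∃ γ ∈ An (2 * k) e,
    γ.card = k + 1 ∧ γ ⊆ D ∧ ∀ a ∈ γ, ∀ b ∈ D, b ∈ nb a → b ∈ γ := by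
  classical
  obtain ⟨γ, h1, h2⟩ := (D.powerset.filter fun γ => ∃ k, γ ∈ An (2 * k) e ∧ γ.card = k + 1
    ).exists_max_image card ⟨{e}, mem_filter.2 ⟨by simpa, 0, by simp [An], rfl⟩⟩
  simp only [mem_filter, mem_powerset] at h1 h2
  obtain ⟨h1, k, h3, h4⟩ := h1
  refine ⟨k, γ, h3, h4, h1, fun a ha b hb h5 => by_contra fun h6 => ?_⟩
  have := h2 _ ⟨insert_subset hb h1, k + 1, An_ins h3 ha h5, by rw [card_insert_of_notMem h6, h4]⟩
  rw [card_insert_of_notMem h6] at this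
  omega

def chi (γ : Finset (E m)) (e : E m) : ZMod 2 := if e ∈ γ then 1 else 0

def Ev (γ : Finset (E m)) : Prop := ∀ z : ℤ × ZMod m, chi γ (z, false) +
  chi γ ((z.1, z.2 + 1), false) + chi γ (z, true) + chi γ ((z.1 + 1, z.2), true) = 0

def cr (γ : Finset (E m)) (y : ℤ × ZMod m) : ZMod 2 :=
  ∑ e ∈ γ, if e.2 = false ∧ e.1.2 = y.2 ∧ y.1 ≤ e.1.1 then 1 else 0

def od (γ : Finset (E m)) : ZMod 2 := ∑ e ∈ γ, if e.2 = false ∧ e.1.2 = 0 then 1 else 0

lemma cr_h (γ : Finset (E m)) (y : ℤ × ZMod m) :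
    cr γ y = cr γ (y.1 + 1, y.2) + chi γ (y, false) := by
  rw [chi, ← sum_ite_eq' γ (y, false) fun _ => (1 : ZMod 2), cr, cr, ← sum_add_distrib]
  refine sum_congr rfl fun ⟨⟨a, b⟩, c⟩ _ => ?_
  obtain ⟨y1, y2⟩ := y
  simp only [Prod.mk.injEq]
  split_ifs <;> first | rfl | (exfalso; grind)

lemma const (g : ℤ → ZMod 2) (h : ∀ i, g i = g (i + 1)) (i j : ℤ) : g i = g j := by
  have : ∀ i, g i = g 0 := fun i => by
    induction i using Int.induction_on with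
    | zero => rfl
    | succ i ih => rw [← h, ih]
    | pred i ih => rw [h, sub_add_cancel, ih]
  rw [this i, this j]

variable {γ : Finset (E m)}

lemma cr_zero {y : ℤ × ZMod m} (hy : ∀ e ∈ γ, e.1.1 < y.1) : cr γ y = 0 :=
  sum_eq_zero fun e he => if_neg fun h => (hy e he).not_ge h.2.2

lemma bdd (γ : Finset (E m)) (c : ℤ) : ∃ i, c < i ∧ ∀ e ∈ γ, e.1.1 < i := by
  obtain ⟨i, hi⟩ := (γ.image fun e => e.1.1).bddAbove
  exact ⟨max i c + 1, by omega, fun e he => by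
    have := hi (mem_image_of_mem _ he); omega⟩

lemma cr_v (hv : Ev γ) (y : ℤ × ZMod m) : cr γ y = cr γ (y.1, y.2 + 1) + chi γ (y, true) := by
  obtain ⟨L, -, hL⟩ := bdd γ 0
  have h1 := const (fun i => cr γ (i, y.2) + cr γ (i, y.2 + 1) + chi γ ((i, y.2), true))
    (fun i => by
      have h2 := hv (i, y.2)
      rw [cr_h γ (i, y.2), cr_h γ (i, y.2 + 1)]
      simp only at h2 ⊢
      grind) y.1 L
  have h2 : chi γ ((L, y.2), true) = 0 := if_neg fun h => (hL _ h).false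
  simp only [cr_zero (y := (L, y.2)) hL, cr_zero (y := (L, y.2 + 1)) hL, h2] at h1
  grind

lemma cr_tgt (hv : Ev γ) (e : E m) : cr γ e.1 = cr γ (tgt e) + chi γ e := by
  obtain ⟨y, _ | _⟩ := e
  · exact cr_h γ y
  · exact cr_v hv y

lemma cr_left (hv : Ev γ) {y : ℤ × ZMod m} (hy : ∀ e ∈ γ, y.1 ≤ e.1.1) : cr γ y = od γ := by
  obtain ⟨i, y⟩ := y
  obtain ⟨j, rfl⟩ := ZMod.intCast_surjective y
  have h0 : ∀ (y : ZMod m) b, chi γ ((i - 1, y), b) = 0 := fun y b => if_neg fun h => by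
    have := hy _ h; simp only at this; omega
  have h1 := const (fun j => cr γ (i - 1, j)) (fun j => by
    rw [cr_v hv, h0, add_zero, Int.cast_add, Int.cast_one]) j 0
  rw [cr_h, h0, add_zero, sub_add_cancel] at h1
  refine h1.trans (sum_congr rfl fun e he => if_congr ?_ rfl rfl)
  have := hy e he
  simp only [Int.cast_zero, show i - 1 ≤ e.1.1 by omega, and_true]

lemma card_ge [NeZero m] (hv : Ev γ) (ho : od γ = 1) : m ≤ γ.card := by
  obtain ⟨i, hi⟩ := (γ.image fun e => e.1.1).bddBelow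
  refine (ZMod.card m).ge.trans ((card_le_card (t := γ.image fun e => e.1.2) fun y _ => ?_).trans
    card_image_le)
  obtain ⟨e, he, h⟩ := exists_ne_zero_of_sum_ne_zero (((cr_left hv (y := (i, y)) fun e he =>
    hi (mem_image_of_mem _ he)).trans ho).trans_ne one_ne_zero)
  exact mem_image.2 ⟨e, he, by_contra fun h' => h (if_neg fun h => h' h.2.1)⟩

lemma exists_contour (x : ℤ × ZMod m) (D : Finset (E m)) : Ev D → cr D x = 1 →
    ∃ k, ∃ j : ℕ, ∃ γ ∈ An (2 * k) ((x.1 + j, x.2), false),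
      γ.card = k + 1 ∧ γ ⊆ D ∧ Ev γ ∧ cr γ x = 1 := by
  induction D using Finset.strongInduction with
  | _ D ih =>
  intro hv hx
  obtain ⟨⟨⟨a, b⟩, c⟩, he, h1⟩ := exists_ne_zero_of_sum_ne_zero (hx.trans_ne one_ne_zero)
  obtain ⟨rfl, rfl, h2⟩ : c = false ∧ b = x.2 ∧ x.1 ≤ a := by_contra fun h' => h1 (if_neg h')
  obtain ⟨k, γ, g1, g2, g3, g4⟩ := exists_comp he
  have g5 : Ev γ := fun z => by
    by_cases h3 : ∃ e ∈ γ, (z.1 ≤ e.1.1 ∧ e.1.1 ≤ z.1 + 1) ∧ (e.1.2 = z.2 ∨ e.1.2 = z.2 + 1)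
    · obtain ⟨e, h3, h4⟩ := h3
      have h5 : ∀ f : E m, (z.1 ≤ f.1.1 ∧ f.1.1 ≤ z.1 + 1) ∧ (f.1.2 = z.2 ∨ f.1.2 = z.2 + 1) →
          chi γ f = chi D f := fun f hf =>
        if_congr ⟨fun h => g3 h, fun h => g4 e h3 f h (by rw [mem_nb]; grind)⟩ rfl rfl
      rw [h5, h5, h5, h5, hv z] <;> simp
    · have h5 : ∀ f : E m, (z.1 ≤ f.1.1 ∧ f.1.1 ≤ z.1 + 1) ∧ (f.1.2 = z.2 ∨ f.1.2 = z.2 + 1) →
          chi γ f = 0 := fun f hf => if_neg fun h => h3 ⟨f, h, hf⟩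
      rw [h5, h5, h5, h5] <;> simp
  by_cases h3 : cr γ x = 0
  · have h4 : ∀ e, chi (D \ γ) e = chi D e + chi γ e := fun e => by
      by_cases h5 : e ∈ γ
      · simp only [chi, mem_sdiff, h5, g3 h5]; decide
      · simp [chi, h5]
    obtain ⟨k, j, γ', h6, h7, h8, h9⟩ := ih (D \ γ) (sdiff_ssubset g3 ⟨_, An_self g1⟩)
      (fun z => by have := hv z; have := g5 z; simp only [h4]; grind) (by
        have := sum_sdiff g3 (f := fun e : E m =>
          if e.2 = false ∧ e.1.2 = x.2 ∧ x.1 ≤ e.1.1 then (1 : ZMod 2) else 0)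
        change cr _ _ + cr _ _ = cr _ _ at this
        rwa [h3, hx, add_zero] at this)
    exact ⟨k, j, γ', h6, h7, h8.trans sdiff_subset, h9⟩
  · refine ⟨k, (a - x.1).toNat, γ, ?_, g2, g3, g5, by
      revert h3; generalize cr γ x = d; revert d; decide⟩
    rwa [Int.toNat_of_nonneg (by omega), add_sub_cancel]

def sh (t : ℤ) (e : E m) : E m := ((e.1.1 + t, e.1.2), e.2)

def Bk (s : ℤ) (l : ℕ) (η : E m → Prop) : Prop :=
  ∃ γ, Ev γ ∧ od γ = 1 ∧ ∀ e ∈ γ, (s ≤ e.1.1 ∧ e.1.1 < s + l) ∧ η e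

lemma Bk.shift {s : ℤ} {l : ℕ} {η η' : E m → Prop} (h : Bk s l η) (t : ℤ)
    (h' : ∀ e, η e → η' (sh t e)) : Bk (s + t) l η' := by
  obtain ⟨γ, h1, h2, h3⟩ := h
  have hi : Function.Injective (sh (m := m) t) := fun ⟨⟨_, _⟩, _⟩ ⟨⟨_, _⟩, _⟩ h => by
    simpa [sh] using h
  have hc : ∀ (i : ℤ) y b, chi (γ.image (sh t)) ((i + t, y), b) = chi γ ((i, y), b) := fun i y b =>
    if_congr (hi.mem_finset_image (a := ((i, y), b))) rfl rfl
  refine ⟨γ.image (sh t), fun ⟨i, y⟩ => ?_, ?_, fun e he => ?_⟩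
  · obtain ⟨i, rfl⟩ : ∃ j, i = j + t := ⟨i - t, by ring⟩
    simp only [add_right_comm i t 1, hc]
    exact h1 (i, y)
  · rw [od, sum_image hi.injOn]; exact h2
  · obtain ⟨e, h4, rfl⟩ := mem_image.1 he
    exact ⟨by have := (h3 e h4).1; simp only [sh]; omega, h' e (h3 e h4).2⟩

def St (η : E m → Prop) (u w : ℤ × ZMod m) : Prop :=
  ∃ e, ¬ η e ∧ (e.1 = u ∧ tgt e = w ∨ e.1 = w ∧ tgt e = u)

lemma Bk.block {s : ℤ} {l : ℕ} {η : E m → Prop} (h : Bk s l η) {u w : ℤ × ZMod m}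
    (hr : ReflTransGen (St η) u w) : (u.1 ≤ s → w.1 < s + l) ∧ (s + l ≤ u.1 → s < w.1) := by
  obtain ⟨γ, h1, h2, h3⟩ := h
  have h4 : cr γ u = cr γ w := by
    induction hr with
    | refl => rfl
    | tail _ h ih =>
      obtain ⟨e, h5, h6⟩ := h
      have h7 := cr_tgt h1 e
      rw [chi, if_neg fun h => h5 (h3 e h).2, add_zero] at h7
      rcases h6 with ⟨rfl, rfl⟩ | ⟨rfl, rfl⟩
      exacts [ih.trans h7, ih.trans h7.symm]
  have h5 : ∀ y : ℤ × ZMod m, y.1 ≤ s → cr γ y = 1 := fun y hy =>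
    (cr_left h1 fun e he => hy.trans (h3 e he).1.1).trans h2
  have h6 : ∀ y : ℤ × ZMod m, s + l ≤ y.1 → cr γ y = 0 := fun y hy =>
    cr_zero fun e he => (h3 e he).1.2.trans_le hy
  exact ⟨fun h => lt_of_not_ge fun h' => one_ne_zero ((h5 u h).symm.trans (h4.trans (h6 w h'))),
    fun h => lt_of_not_ge fun h' => one_ne_zero ((h5 w h').symm.trans (h4.symm.trans (h6 u h)))⟩

/-- a closed connected set of `k + 1` edges rooted at `e`, inside the columns `[s, s + l)` -/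
def Cl (s : ℤ) (l k : ℕ) (e : E m) (η : E m → Prop) : Prop :=
  ∃ γ ∈ An (2 * k) e, γ.card = k + 1 ∧ ∀ f ∈ γ, (s ≤ f.1.1 ∧ f.1.1 < s + l) ∧ η f

lemma escape [NeZero m] (η : E m → Prop) (v : ℤ × ZMod m) (a : ℕ) (ha : 0 < a) :
    (∃ w, ReflTransGen (St η) v w ∧ |w.1 - v.1| = a) ∨ Bk (v.1 - a) (2 * a) η ∨
      ∃ k, ∃ j ∈ range (2 * k + 1), Cl (v.1 - a) (2 * a) k ((v.1 + j, v.2), false) η := by
  classical
  refine or_iff_not_imp_left.2 fun h0 => ?_
  have h1 : ∀ w, ReflTransGen (St η) v w → v.1 - a < w.1 ∧ w.1 < v.1 + a := fun w hw => by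
    induction hw with
    | refl => omega
    | tail h1 h2 ih =>
      have h3 := not_and.1 (not_exists.1 h0 _) (h1.tail h2)
      obtain ⟨⟨y, _ | _⟩, -, ⟨rfl, rfl⟩ | ⟨rfl, rfl⟩⟩ := h2 <;> simp [tgt, abs_eq] at * <;> omega
  let D : Finset (E m) := ((Ico (v.1 - a) (v.1 + a) ×ˢ univ) ×ˢ univ).filter fun e =>
    ¬ (ReflTransGen (St η) v e.1 ↔ ReflTransGen (St η) v (tgt e))
  have h2 : ∀ e, chi D e = (if ReflTransGen (St η) v e.1 then 1 else 0) +
      if ReflTransGen (St η) v (tgt e) then 1 else 0 := fun ⟨y, b⟩ => by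
    have h3 := h1 y
    have h4 := h1 (tgt (y, b))
    by_cases h5 : ReflTransGen (St η) v y <;> by_cases h6 : ReflTransGen (St η) v (tgt (y, b)) <;>
      simp only [chi, D, mem_filter, mem_product, mem_Ico, mem_univ, h5, h6] <;> simp
    · decide
    · have := h3 h5; omega
    · have := h4 h6; cases b <;> simp [tgt] at this <;> omega
  have h3 : Ev D := fun z => by
    simp only [h2, tgt, if_true, Bool.false_eq_true, if_false]
    grind
  have h4 : cr D v = 1 := by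
    obtain ⟨L, hL, hL'⟩ := bdd D (v.1 + a)
    have h5 := const (fun i => cr D (i, v.2) + if ReflTransGen (St η) v (i, v.2) then 1 else 0)
      (fun i => by
        rw [cr_h, h2]
        simp only [tgt, Bool.false_eq_true, if_false]
        grind) v.1 L
    simp only [cr_zero (y := (L, v.2)) hL', Prod.mk.eta, ReflTransGen.refl, if_true,
      if_neg fun h => (h1 (L, v.2) h).2.not_gt hL] at h5
    grind
  obtain ⟨k, j, γ, g1, g2, g3, g4, g5⟩ := exists_contour v D h3 h4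
  have h5 : ∀ f ∈ γ, (v.1 - a ≤ f.1.1 ∧ f.1.1 < v.1 - a + (2 * a : ℕ)) ∧ η f := fun f hf => by
    have h6 := g3 hf
    simp only [D, mem_filter, mem_product, mem_Ico] at h6
    exact ⟨by omega, by_contra fun h => h6.2 ⟨fun h' => h'.tail ⟨f, h, Or.inl ⟨rfl, rfl⟩⟩,
      fun h' => h'.tail ⟨f, h, Or.inr ⟨rfl, rfl⟩⟩⟩⟩
  by_cases h6 : ∀ e ∈ γ, v.1 ≤ e.1.1
  · exact Or.inl ⟨γ, g4, (cr_left g4 h6).symm.trans g5, h5⟩
  by_cases h7 : od γ = 1
  · exact Or.inl ⟨γ, g4, h7, h5⟩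
  push Not at h6
  obtain ⟨e, h6, h8⟩ := h6
  have := (An_dist g1 h6).1
  exact Or.inr ⟨k, j, mem_range.2 (by simp only at this; omega), γ, g1, g2, h5⟩

lemma Bk.split [NeZero m] {l : ℕ} {η : E m → Prop} (hb : Bk 0 l η) (h : ℕ) (hh : 0 < h) :
    ∃ k, m ≤ k + 1 ∧ (∃ j ∈ range l, Cl 0 l k (((j : ℤ), 0), false) η) ∧
      (4 * k ≤ h → ∃ t ∈ range (l / h + 2), Bk (h * (t - 1)) (2 * h) η) := by
  obtain ⟨D, h1, h2, h3⟩ := hb
  obtain ⟨k, j, γ, g1, g2, g3, g4, g5⟩ := exists_contour (0, 0) D h1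
    ((cr_left h1 fun e he => (h3 e he).1.1).trans h2)
  rw [cr_left g4 fun e he => (h3 e (g3 he)).1.1] at g5
  simp only [zero_add] at g1
  have h4 : j < l := by have := (h3 _ (g3 (An_self g1))).1.2; simp only at this; omega
  refine ⟨k, g2 ▸ card_ge g4 g5, ⟨j, mem_range.2 h4, γ, g1, g2, fun f hf => h3 f (g3 hf)⟩,
    fun hk => ⟨(j + h - 2 * k) / h, mem_range.2 ?_, γ, g4, g5, fun f hf => ⟨?_, (h3 f (g3 hf)).2⟩⟩⟩
  · have := Nat.div_le_div_right (c := h) (show j + h - 2 * k ≤ l + h by omega)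
    rw [Nat.add_div_right _ hh] at this
    omega
  · have h5 := An_dist g1 hf
    have h6 := Nat.div_add_mod (j + h - 2 * k) h
    have h7 := Nat.mod_lt (j + h - 2 * k) hh
    rw [mul_sub, mul_one, ← Nat.cast_mul]
    generalize h * ((j + h - 2 * k) / h) = x at *
    simp only at h5
    omega

lemma Bk.col [NeZero m] {η : E m → Prop} (h : ∀ y, η ((0, y), false)) : Bk 0 1 η := by
  have h1 : ∀ e : E m, e ∈ (({0} ×ˢ univ) ×ˢ {false} : Finset (E m)) ↔ e.1.1 = 0 ∧ e.2 = false :=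
    fun e => by simp only [mem_product, mem_singleton, mem_univ, and_true]
  refine ⟨({0} ×ˢ univ) ×ˢ {false}, fun z => ?_, ?_, fun ⟨⟨a, b⟩, c⟩ he => ?_⟩
  · simp only [chi, h1]
    by_cases h : z.1 = 0 <;> simp [h]
    decide
  · rw [od, sum_product, sum_product, sum_singleton]
    simp only [sum_singleton, true_and, sum_ite_eq', mem_univ, if_true]
  · obtain ⟨rfl, rfl⟩ : a = 0 ∧ c = false := (h1 _).1 he
    exact ⟨by simp, h b⟩

end Pool.Agent.H43.Cyl
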