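import Pool.Agent.H43.CylGeo

set_option autoImplicit false
set_option linter.unusedSectionVars false

noncomputable section

namespace Pool.Agent.H43.Cyl

open Finset Relation MeasureTheory ProbabilityTheory Measure unitInterval

def T (N m : ℕ) : SimpleGraph (ZMod N × ZMod m) := SimpleGraph.circulantGraph {(1, 0), (0, 1)}

variable {N m : ℕ}

def pr (N : ℕ) (u : ℤ × ZMod m) : ZMod N × ZMod m := (u.1, u.2)

def ph (N : ℕ) (e : E m) : Sym2 (ZMod N × ZMod m) := s(pr N e.1, pr N (tgt e))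

lemma one_two (h : 3 ≤ N) : (1 : ZMod N) ≠ 0 ∧ (2 : ZMod N) ≠ 0 :=
  ⟨fun h1 => by have := Nat.le_of_dvd one_pos ((ZMod.natCast_eq_zero_iff 1 N).1 (by simpa)); omega,
    fun h1 => by have := Nat.le_of_dvd two_pos ((ZMod.natCast_eq_zero_iff 2 N).1 (by simpa)); omega⟩

lemma T_adj (hN : 3 ≤ N) (hm : 3 ≤ m) {u v : ZMod N × ZMod m} : (T N m).Adj u v ↔
    v = (u.1 + 1, u.2) ∨ v = (u.1 - 1, u.2) ∨ v = (u.1, u.2 + 1) ∨ v = (u.1, u.2 - 1) := by
  have h1 := one_two hN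
  have h2 := one_two hm
  obtain ⟨a, b⟩ := u
  obtain ⟨c, d⟩ := v
  simp only [T, SimpleGraph.circulantGraph_adj, Set.mem_insert_iff, Set.mem_singleton_iff,
    Prod.mk_sub_mk, Prod.mk.injEq, ne_eq]
  grind

lemma ph_mem (hN : 3 ≤ N) (hm : 3 ≤ m) (e : E m) : ph N e ∈ (T N m).edgeSet := by
  obtain ⟨y, _ | _⟩ := e <;> simp [ph, T_adj hN hm, pr, tgt]

lemma ph_inj (hN : 3 ≤ N) (hm : 3 ≤ m) {e f : E m} (h : ph N e = ph N f)
    (h' : |e.1.1 - f.1.1| < N) : e = f := by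
  have h1 := one_two hN
  have h2 := one_two hm
  obtain ⟨⟨a, b⟩, c⟩ := e
  obtain ⟨⟨a', b'⟩, c'⟩ := f
  have h3 : (a' : ZMod N) = a ∧ b = b' ∧ c = c' := by
    have e1 : ∀ x : ZMod N, x + 1 ≠ x ∧ x + 1 + 1 ≠ x := fun x => by
      simpa [add_assoc, one_add_one_eq_two] using h1
    have e2 : ∀ x : ZMod m, x + 1 ≠ x ∧ x + 1 + 1 ≠ x := fun x => by
      simpa [add_assoc, one_add_one_eq_two] using h2
    cases c <;> cases c' <;> simp only [ph, pr, tgt, if_true, Bool.false_eq_true, if_false,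
      Int.cast_add, Int.cast_one, Sym2.eq_iff, Prod.mk.injEq] at h <;> clear h' <;>
      generalize (a : ZMod N) = x, (a' : ZMod N) = y at * <;>
      rcases h with ⟨⟨rfl, rfl⟩, h3, h4⟩ | ⟨⟨rfl, rfl⟩, h3, h4⟩ <;>
      first | exact ⟨rfl, rfl, rfl⟩ | exact absurd h3 (e1 _).1 | exact absurd h3 (e1 _).2 |
        exact absurd h4 (e2 _).1 | exact absurd h4 (e2 _).2
  have h4 := Int.eq_zero_of_abs_lt_dvd ((ZMod.intCast_eq_intCast_iff_dvd_sub _ _ _).1 h3.1) h'
  rw [sub_eq_zero.1 h4, h3.2.1, h3.2.2]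

def p : I := ⟨2047 / 2048, by norm_num, by norm_num⟩

def nu (b : Prop) : Measure Prop := toNNReal p • dirac b + toNNReal (σ p) • dirac False

instance (b : Prop) : IsProbabilityMeasure (nu b) := ⟨by simp [nu, ← ENNReal.coe_add]⟩

def mu (N m : ℕ) : Measure (Sym2 (ZMod N × ZMod m) → Prop) :=
  infinitePi fun i => nu (i ∈ (T N m).edgeSet)

instance : IsProbabilityMeasure (mu N m) := by unfold mu; infer_instance

def eta (N : ℕ) (ω : Sym2 (ZMod N × ZMod m) → Prop) (e : E m) : Prop := ¬ ω (ph N e)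

abbrev J (l m : ℕ) := (Fin l × ZMod m) × Bool

def io {l : ℕ} (j : J l m) : E m := (((j.1.1 : ℕ), j.1.2), j.2)

def BB (l m : ℕ) : Set (J l m → Prop) := {ξ | Bk 0 l fun e => ∃ j, io j = e ∧ ¬ ξ j}

def rho (l m : ℕ) : Measure (J l m → Prop) := infinitePi fun _ => nu True

instance {l : ℕ} : IsProbabilityMeasure (rho l m) := by unfold rho; infer_instance

def r (m l : ℕ) : ℝ := (rho l m).real (BB l m)

lemma Bk_iff {s : ℤ} {l : ℕ} {ω : Sym2 (ZMod N × ZMod m) → Prop} :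
    Bk s l (eta N ω) ↔ (fun j => ω (ph N (sh s (io j)))) ∈ BB l m := by
  constructor
  · rintro ⟨γ, h1, h2, h3⟩
    have h4 := Bk.shift (η := fun e => (s ≤ e.1.1 ∧ e.1.1 < s + l) ∧ eta N ω e)
      (η' := fun e => ∃ j : J l m, io j = e ∧ ¬ ω (ph N (sh s (io j))))
      ⟨γ, h1, h2, fun e he => ⟨(h3 e he).1, h3 e he⟩⟩ (-s) fun ⟨⟨a, b⟩, c⟩ ⟨h4, h5⟩ => by
        have h6 : ((a - s).toNat : ℤ) = a + -s := by simp only at h4; omega
        refine ⟨((⟨(a - s).toNat, by simp only at h4; omega⟩, b), c), by simp only [io, sh, h6], ?_⟩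
        simpa only [io, sh, h6, neg_add_cancel_right, eta] using h5
    rwa [add_neg_cancel] at h4
  · intro h
    have h1 := Bk.shift (η' := eta N ω) h s (by rintro _ ⟨j, rfl, h⟩; exact h)
    rwa [zero_add] at h1

variable [NeZero m]

lemma windows (hN : 3 ≤ N) (hm : 3 ≤ m) (s : ℤ) {l K : ℕ} (h : K * l ≤ N) (A : Set (J l m → Prop)) :
    (mu N m).real {ω | ∀ k : Fin K, (fun j => ω (ph N (sh (s + k * l) (io j)))) ∈ A} =
      (rho l m).real A ^ K := by
  let f : Fin K × J l m → Sym2 (ZMod N × ZMod m) := fun x => ph N (sh (s + x.1 * l) (io x.2))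
  have hf : Function.Injective f := by
    rintro ⟨k, ⟨a, b⟩, c⟩ ⟨k', ⟨a', b'⟩, c'⟩ h1
    have h0 : ∀ (k : Fin K) (a : Fin l), (a : ℕ) + k * l < N := fun k a =>
      calc (a : ℕ) + k * l < (k + 1) * l := by linarith [a.2]
        _ ≤ K * l := Nat.mul_le_mul_right _ k.2
        _ ≤ N := h
    have h2 := ph_inj hN hm h1 (by
      have := h0 k a; have := h0 k' a'
      simp only [sh, io, ← Nat.cast_mul]; rw [abs_lt]; omega)
    simp only [sh, io, ← Nat.cast_mul, Prod.mk.injEq] at h2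
    have h3 : (a : ℕ) + k * l = a' + k' * l := by omega
    have h4 := congrArg (· % l) h3
    simp only [Nat.add_mul_mod_self_right, Nat.mod_eq_of_lt a.2, Nat.mod_eq_of_lt a'.2] at h4
    rw [h4, Nat.add_left_cancel_iff, mul_left_inj' a.pos.ne'] at h3
    rw [Fin.ext h3, Fin.ext h4, h2.1.2, h2.2]
  have h1 := map_infinitePi_infinitePi_of_inj (P := fun i => nu (i ∈ (T N m).edgeSet)) hf
  simp only [f, ph_mem hN hm] at h1
  have h2 := infinitePi_map_curry (fun (_ : Fin K) (_ : J l m) => nu True)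
  have h3 := infinitePi_pi (fun _ : Fin K => rho l m) (s := univ) (t := fun _ => A)
    fun _ _ => MeasurableSet.of_discrete
  unfold rho at h3
  rw [← h2, ← h1, Measure.map_map (MeasurableEquiv.measurable _) (by fun_prop), Measure.map_apply
    ((MeasurableEquiv.measurable _).comp (by fun_prop)) MeasurableSet.of_discrete] at h3
  rw [measureReal_def, measureReal_def, ← ENNReal.toReal_pow]
  simp only [prod_const, card_univ, Fintype.card_fin] at h3
  refine congrArg _ (Eq.trans (congrArg _ (Set.ext fun ω => ?_)) h3)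
  simp only [Set.mem_pi, Set.mem_preimage, coe_univ, Set.mem_univ, true_imp_iff]
  rfl

lemma P_Bk (hN : 3 ≤ N) (hm : 3 ≤ m) (s : ℤ) {l : ℕ} (h : l ≤ N) :
    (mu N m).real {ω | Bk s l (eta N ω)} = r m l := by
  simpa [Bk_iff, r] using windows hN hm s (K := 1) (by simpa) (BB l m)

lemma P_closed (hN : 3 ≤ N) (hm : 3 ≤ m) {s : ℤ} {γ : Finset (E m)}
    (h : ∀ e ∈ γ, s ≤ e.1.1 ∧ e.1.1 < s + N) :
    (mu N m).real {ω | ∀ e ∈ γ, eta N ω e} = (1 / 2048) ^ γ.card := by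
  classical
  have h1 := infinitePi_pi (fun i => nu (i ∈ (T N m).edgeSet)) (s := γ.image (ph N))
    (t := fun _ => {False}) fun _ _ => MeasurableSet.of_discrete
  rw [prod_congr rfl (g := fun _ => (toNNReal (σ p) : ENNReal)) fun i hi => by
    obtain ⟨e, -, rfl⟩ := mem_image.1 hi
    simp [nu, ph_mem hN hm], prod_const, card_image_of_injOn fun e he f hf h1 => ph_inj hN hm h1 (by
      have := h e he; have := h f hf; rw [abs_lt]; omega)] at h1
  rw [measureReal_def, show {ω | ∀ e ∈ γ, eta N ω e} = Set.pi (γ.image (ph N)) fun _ => {False} by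
    ext ω; simp [eta, -Prod.forall, -Prod.exists], mu, h1]
  simp [p]; norm_num [← inv_pow]

lemma P_Cl (hN : 3 ≤ N) (hm : 3 ≤ m) {s : ℤ} {l : ℕ} (h : l ≤ N) (k : ℕ) (e : E m) :
    (mu N m).real {ω | Cl s l k e (eta N ω)} ≤ (1 / 6) ^ k / 2048 := by
  classical
  refine (measureReal_mono ?_ (measure_ne_top _ _)).trans ((measureReal_biUnion_finset_le
    ((An (2 * k) e).filter fun γ => γ.card = k + 1 ∧ ∀ f ∈ γ, s ≤ f.1.1 ∧ f.1.1 < s + l)
    fun γ => {ω | ∀ e ∈ γ, eta N ω e}).trans ((sum_le_card_nsmul _ _ ((1 / 2048) ^ (k + 1))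
      fun γ hγ => ?_).trans ?_))
  · rintro ω ⟨γ, h1, h2, h3⟩
    exact Set.mem_biUnion (mem_filter.2 ⟨h1, h2, fun f hf => (h3 f hf).1⟩) fun f hf => (h3 f hf).2
  · obtain ⟨-, h1, h2⟩ := mem_filter.1 hγ
    rw [P_closed hN hm (s := s) fun f hf => by have := h2 f hf; omega, h1]
  · have h1 := (card_filter_le (An (2 * k) e) fun γ => γ.card = k + 1 ∧
      ∀ f ∈ γ, s ≤ f.1.1 ∧ f.1.1 < s + l).trans (An_card _ _)
    have h2 : ((18 : ℝ) ^ 2 * (1 / 2048)) ^ k ≤ (1 / 6) ^ k :=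
      pow_le_pow_left₀ (by norm_num) (by norm_num) k
    rw [nsmul_eq_mul]
    refine (mul_le_mul_of_nonneg_right (Nat.cast_le.2 h1) (by positivity)).trans ?_
    rw [mul_pow, ← pow_mul] at h2
    rw [pow_succ]; push_cast; linarith

lemma P_tail (hN : 3 ≤ N) (hm : 3 ≤ m) {s : ℤ} {l : ℕ} (h : l ≤ N) (K : ℕ) (R : ℕ → Finset ℕ)
    (e : ℕ → E m) {c : ℝ} (hc : ∀ k, (R k).card ≤ c * 3 ^ k) :
    (mu N m).real {ω | ∃ k, K ≤ k ∧ ∃ j ∈ R k, Cl s l k (e j) (eta N ω)} ≤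
      c * (1 / 2) ^ K / 1024 := by
  have h0 : 0 ≤ c := by simpa using (Nat.cast_nonneg _).trans (hc 0)
  refine (measureReal_mono (s₂ := ⋃ k ∈ Ico K ((Ico s (s + l) ×ˢ (univ : Finset (ZMod m))) ×ˢ
    (univ : Finset Bool)).card, ⋃ j ∈ R k, {ω | Cl s l k (e j) (eta N ω)}) ?_
    (measure_ne_top _ _)).trans ((measureReal_biUnion_finset_le _ _).trans ((sum_le_sum
      (g := fun k => c / 2048 * (1 / 2) ^ k) fun k _ => ?_).trans ?_))
  · rintro ω ⟨k, h1, j, h2, γ, h3, h4, h5⟩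
    exact Set.mem_biUnion (mem_Ico.2 ⟨h1, h4.ge.trans (card_le_card fun f hf => by
      simpa using (h5 f hf).1)⟩) (Set.mem_biUnion h2 ⟨γ, h3, h4, h5⟩)
  · refine (measureReal_biUnion_finset_le _ _).trans ((sum_le_card_nsmul _ _ _
      fun j _ => P_Cl hN hm h k (e j)).trans ?_)
    rw [nsmul_eq_mul]
    refine (mul_le_mul_of_nonneg_right (hc k) (by positivity)).trans_eq ?_
    rw [show (1 / 2 : ℝ) = 3 * (1 / 6) by norm_num, mul_pow]; ring
  · rw [← mul_sum]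
    refine (mul_le_mul_of_nonneg_left (geom_sum_Ico_le_of_lt_one (by norm_num) (by norm_num))
      (by positivity)).trans_eq (by ring)

lemma range_le (l k : ℕ) : ((range l).card : ℝ) ≤ l * 3 ^ k := by
  rw [card_range]
  exact le_mul_of_one_le_right (by positivity) (one_le_pow₀ (by norm_num))

lemma r_small (hm : 3 ≤ m) {l : ℕ} (h : l ≤ m + 10) : r m l < 1 / 10 := by
  have h1 := P_tail (N := l + 3) (s := 0) (by omega) hm (show l ≤ l + 3 by omega) (m - 1)
    (fun _ => range l) (fun j => ((j, 0), false)) (range_le l)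
  rw [← P_Bk (N := l + 3) (by omega) hm 0 (by omega)]
  refine lt_of_le_of_lt ((measureReal_mono ?_ (measure_ne_top _ _)).trans h1) ?_
  · intro ω h
    obtain ⟨k, h2, h3, -⟩ := Bk.split h 1 one_pos
    exact ⟨k, by omega, h3⟩
  · have h2 : l ≤ 12 * 2 ^ (m - 1) := by have := (m - 1).lt_two_pow_self; omega
    have h3 : (l : ℝ) ≤ 12 * 2 ^ (m - 1) := by exact_mod_cast h2
    rw [one_div_pow, mul_one_div, div_div, div_lt_iff₀ (by positivity)]
    linarith [pow_pos (two_pos (α := ℝ)) (m - 1)]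

lemma r_big (hm : 3 ≤ m) : ∃ l, 1 / 10 ≤ r m l := by
  have h1 : 0 < r m 1 := by
    rw [← P_Bk le_rfl hm 0 (by norm_num)]
    refine lt_of_lt_of_le ((pow_pos (by norm_num) _).trans_eq (P_closed le_rfl hm (s := 0)
      (γ := univ.image fun y => ((0, y), false)) (by simp)).symm)
      (measureReal_mono (fun ω h => Bk.col fun y => h _ (by simp)) (measure_ne_top _ _))
  obtain ⟨K, hK⟩ := exists_pow_lt_of_lt_one (show (0 : ℝ) < 9 / 10 by norm_num)
    (show 1 - r m 1 < 1 by linarith)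
  have h2 := windows (N := K + 3) (by omega) hm 0 (l := 1) (K := K) (by omega) (BB 1 m)ᶜ
  rw [probReal_compl_eq_one_sub MeasurableSet.of_discrete] at h2
  refine ⟨K, ?_⟩
  rw [← P_Bk (N := K + 3) (by omega) hm 0 (by omega)]
  have h3 := measureReal_union_le (μ := mu (K + 3) m) {ω | Bk 0 K (eta (K + 3) ω)}
    {ω | ∀ k : Fin K, (fun j => ω (ph (K + 3) (sh (0 + k * (1 : ℕ)) (io j)))) ∈ (BB 1 m)ᶜ}
  replace h3 := (measureReal_mono (s₁ := Set.univ) (fun ω _ => or_iff_not_imp_left.2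
    fun h k h' => h (by
      obtain ⟨γ, h4, h5, h6⟩ := Bk_iff.2 h'
      exact ⟨γ, h4, h5, fun e he => ⟨by have := (h6 e he).1; omega, (h6 e he).2⟩⟩))
    (measure_ne_top _ _)).trans h3
  rw [probReal_univ, h2] at h3
  unfold r at hK
  linarith

lemma r_split (hN : 3 ≤ N) (hm : 3 ≤ m) {h : ℕ} (h0 : 0 < h) (h1 : 2 * h ≤ N) :
    r m N ≤ (N / h + 2 : ℕ) * r m (2 * h) + N * (1 / 2) ^ (h / 4) / 1024 := by
  rw [← P_Bk hN hm 0 le_rfl]
  refine (measureReal_mono (s₂ := (⋃ t ∈ range (N / h + 2), {ω | Bk (h * (t - 1)) (2 * h) (eta N ω)})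
    ∪ _) ?_ (measure_ne_top _ _)).trans ((measureReal_union_le _ _).trans (add_le_add
    ((measureReal_biUnion_finset_le _ _).trans_eq ?_) (P_tail (s := 0) hN hm le_rfl (h / 4)
    (fun _ => range N) (fun j => ((j, 0), false)) (range_le N))))
  · intro ω h2
    obtain ⟨k, -, h3, h4⟩ := Bk.split h2 h h0
    by_cases hk : 4 * k ≤ h
    · obtain ⟨t, h5, h6⟩ := h4 hk
      exact Or.inl (Set.mem_biUnion h5 h6)
    · exact Or.inr ⟨k, by omega, h3⟩
  · simp [P_Bk hN hm _ h1]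

lemma P_escape (hN : 3 ≤ N) (hm : 3 ≤ m) (v : ℤ × ZMod m) {a : ℕ} (h0 : 0 < a) (h1 : 2 * a ≤ N)
    (h2 : r m (2 * a) < 1 / 10) :
    1 / 2 < (mu N m).real {ω | ∃ w, ReflTransGen (St (eta N ω)) v w ∧ |w.1 - v.1| = a} := by
  have h3 := P_tail (s := v.1 - a) hN hm h1 0 (fun k => range (2 * k + 1))
    (fun j => ((v.1 + j, v.2), false)) (c := 1) fun k => by
      have := one_add_mul_le_pow (a := (2 : ℝ)) (by norm_num) k
      rw [card_range]; push_cast; norm_num at this ⊢; linarith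
  rw [← P_Bk hN hm (v.1 - a) h1] at h2
  have h4 := (measureReal_union_le (μ := mu N m) {ω | ∃ w, ReflTransGen (St (eta N ω)) v w ∧
    |w.1 - v.1| = a} _).trans (add_le_add le_rfl ((measureReal_union_le _ _).trans
    (add_le_add h2.le h3)))
  replace h4 := (measureReal_mono (s₁ := Set.univ) (fun ω _ => (escape (eta N ω) v a h0).imp_right
    (Or.imp_right fun ⟨k, h⟩ => ⟨k, k.zero_le, h⟩)) (measure_ne_top _ _)).trans h4
  rw [probReal_univ] at h4
  linarith

end Pool.Agent.H43.Cyl
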