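import Pool.Agent.H43.DHPt

set_option autoImplicit false
set_option linter.unusedSectionVars false

namespace Pool.Agent.H43.DH

open Real Filter Topology Asymptotics Finset MeasureTheory

lemma g_bounds' (n b : ℕ) (hn : 1 ≤ n) {u x : ℝ} (hu : 0 < u) (hx : 0 ≤ x) :
    u * (x ^ (n + 1) / (1 + u * x) ^ 1) ≤ x ^ n - x ^ n / (1 + u * x) ^ n ∧
    |x ^ n / (1 + u * x) ^ b - x ^ n| ≤ b * (x ^ n - x ^ n / (1 + u * x) ^ n) := by
  have h0 : 0 ≤ u * x := by positivity
  have h1 : 0 < 1 + u * x := by linarith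
  have h6 : x ^ n / (1 + u * x) ^ n ≤ x ^ n / (1 + u * x) ^ 1 :=
    div_le_div_of_nonneg_left (by positivity) (by positivity) (pow_le_pow_right₀ (by linarith) hn)
  have h7 : u * (x ^ (n + 1) / (1 + u * x) ^ 1) = x ^ n - x ^ n / (1 + u * x) ^ 1 := by
    field_simp; ring
  refine ⟨by linarith, ?_⟩
  have h2 : u * x / (1 + u * x) ≤ 1 := (div_le_one h1).2 (by linarith)
  have h3 := one_add_mul_le_pow (a := -(u * x / (1 + u * x))) (by linarith) b
  have h4 : 1 + -(u * x / (1 + u * x)) = 1 / (1 + u * x) := by field_simp; ring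
  rw [h4, one_div_pow] at h3
  have h5 := mul_le_mul_of_nonneg_left h3 (pow_nonneg hx n)
  have h8 : x ^ n / (1 + u * x) ^ b ≤ x ^ n := div_le_self (by positivity) (one_le_pow₀ (by linarith))
  have h9 : x ^ n * (1 + b * -(u * x / (1 + u * x))) =
      x ^ n - b * (x ^ n - x ^ n / (1 + u * x) ^ 1) := by field_simp; ring
  rw [mul_one_div, h9] at h5
  rw [abs_sub_comm, abs_of_nonneg (by linarith)]
  nlinarith [Nat.cast_nonneg (α := ℝ) b]

lemma pow_le {a n : ℕ} (h : a ≤ n) {x : ℝ} (hx : 0 ≤ x) : x ^ a ≤ 1 + x ^ n := by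
  rcases le_total x 1 with h1 | h1
  · linarith [pow_le_one₀ (n := a) hx h1, pow_nonneg hx n]
  · linarith [pow_le_pow_right₀ h1 h]

noncomputable def yy (u x : ℝ) : ℝ := (1 + x) / (1 + u * x)

noncomputable def MM (ν : Measure ℝ) (u : ℝ) (a b : ℕ) : ℝ := ∫ x, x ^ a / (1 + u * x) ^ b ∂ν

structure Sm (n : ℕ) (μ : Measure ℝ) : Prop where
  hn : 1 ≤ n
  hz : ∀ᵐ z ∂μ, 0 < z
  hc : ∀ c : ℝ, ¬ ∀ᵐ z ∂μ, z = c
  hi : Integrable (fun z => z ^ n) μ
  h1 : ∫ z, z ^ n ∂μ = 1

structure St (μ ν : Measure ℝ) (u : ℝ) : Prop where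
  hu : 0 < u
  hu1 : u ≤ 1
  hx : ∀ᵐ x ∂ν, 0 ≤ x
  hs : (μ.prod ν).map (fun p : ℝ × ℝ => p.1 * (1 + p.2) / (1 + u * p.2)) = ν

variable {n : ℕ} {μ ν : Measure ℝ} [IsProbabilityMeasure μ] [IsProbabilityMeasure ν] {u : ℝ}

lemma St.stat (h : St μ ν u) (φ : ℝ → ℝ) (hφ : Measurable φ) :
    (Integrable φ ν ↔ Integrable (fun p : ℝ × ℝ => φ (p.1 * yy u p.2)) (μ.prod ν)) ∧
      ∫ x, φ x ∂ν = ∫ p, φ (p.1 * yy u p.2) ∂(μ.prod ν) := by
  have hm : Measurable fun p : ℝ × ℝ => p.1 * (1 + p.2) / (1 + u * p.2) := by fun_prop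
  constructor
  · conv_lhs => rw [← h.hs]
    rw [integrable_map_measure hφ.aestronglyMeasurable hm.aemeasurable]
    simp only [Function.comp_def, yy, mul_div_assoc]
  · conv_lhs => rw [← h.hs]
    rw [integral_map hm.aemeasurable hφ.aestronglyMeasurable]
    simp only [yy, mul_div_assoc]

lemma St.inty (h : St μ ν u) (G : ℝ → ℝ) (hG : Measurable G) (hc : ContinuousOn G (Set.Ici 1)) :
    Integrable (fun x => G (yy u x)) ν := by
  obtain ⟨C, hC⟩ := (isCompact_Icc (a := 1) (b := 1 / u)).exists_bound_of_continuousOn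
    (hc.mono Set.Icc_subset_Ici_self)
  refine Integrable.of_bound (hG.comp (by unfold yy; fun_prop)).aestronglyMeasurable C ?_
  filter_upwards [h.hx] with x hx using hC _ (y_bounds h.hu h.hu1 hx)

lemma St.inty1 (h : St μ ν u) (a : ℕ) : Integrable (fun x => yy u x ^ a) ν :=
  h.inty (fun y => y ^ a) (by fun_prop) (by fun_prop)

lemma St.inty2 (h : St μ ν u) (a : ℕ) : Integrable (fun x => yy u x ^ a * log (yy u x)) ν :=
  h.inty (fun y => y ^ a * log y) (by fun_prop) (ContinuousOn.mul (by fun_prop)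
    (continuousOn_log.mono fun y hy => by
      simp only [Set.mem_compl_iff, Set.mem_singleton_iff]; rintro rfl; norm_num at hy))

lemma Sm.intz (g : Sm n μ) {a : ℕ} (ha : a ≤ n) : Integrable (fun z => z ^ a) μ := by
  refine ((integrable_const 1).add g.hi).mono' (by fun_prop) ?_
  filter_upwards [g.hz] with z hz
  rw [Real.norm_of_nonneg (by positivity)]
  exact pow_le ha hz.le

lemma St.intM (h : St μ ν u) (g : Sm n μ) {a : ℕ} (ha : a ≤ n) (b : ℕ) :
    Integrable (fun x => x ^ a / (1 + u * x) ^ b) ν := by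
  have h1 : Integrable (fun x => x ^ a) ν := (h.stat _ (by fun_prop)).1.2 (by
    simpa only [mul_pow] using (g.intz ha).mul_prod (h.inty1 a))
  refine h1.mono' (Measurable.aestronglyMeasurable (by fun_prop)) ?_
  filter_upwards [h.hx] with x hx
  have := h.hu
  rw [Real.norm_of_nonneg (by positivity)]
  exact div_le_self (by positivity) (one_le_pow₀ (by nlinarith))

lemma St.intM0 (h : St μ ν u) (g : Sm n μ) {a : ℕ} (ha : a ≤ n) :
    Integrable (fun x => x ^ a) ν := by simpa using h.intM g ha 0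

lemma MM0 (a : ℕ) : MM ν u a 0 = ∫ x, x ^ a ∂ν := by simp [MM]

lemma St.M_nonneg (h : St μ ν u) (a b : ℕ) : 0 ≤ MM ν u a b := by
  refine integral_nonneg_of_ae ?_
  filter_upwards [h.hx] with x hx
  have := h.hu
  positivity

lemma St.M_le (h : St μ ν u) (g : Sm n μ) {a : ℕ} (ha : a ≤ n) (b : ℕ) :
    MM ν u a b ≤ MM ν u a 0 := by
  refine integral_mono_ae (h.intM g ha b) (h.intM g ha 0) ?_
  filter_upwards [h.hx] with x hx
  have := h.hu
  rw [pow_zero, div_one]
  exact div_le_self (by positivity) (one_le_pow₀ (by nlinarith))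

lemma St.R1 (h : St μ ν u) (g : Sm n μ) {a : ℕ} (ha : a < n) (b : ℕ) :
    MM ν u a (b + 1) = MM ν u a b + -(u * MM ν u (a + 1) (b + 1)) := by
  unfold MM
  rw [← integral_const_mul, ← sub_eq_add_neg, ← integral_sub (h.intM g ha.le b)
    ((h.intM g (a := a + 1) ha _).const_mul u)]
  refine integral_congr_ae ?_
  filter_upwards [h.hx] with x hx
  have := h.hu
  field_simp
  ring

lemma St.Ry (h : St μ ν u) (a : ℕ) : MM ν u a 0 = (∫ z, z ^ a ∂μ) * ∫ x, yy u x ^ a ∂ν := by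
  rw [MM0, (h.stat _ (by fun_prop)).2, ← integral_prod_mul]
  simp only [mul_pow]

lemma St.R2 (h : St μ ν u) (g : Sm n μ) {a : ℕ} (ha : a ≤ n) :
    MM ν u a 0 = (∫ z, z ^ a ∂μ) * (∑ i ∈ range a, a.choose i * MM ν u i a + MM ν u a a) := by
  have h1 : ∑ i ∈ range (a + 1), a.choose i * MM ν u i a = ∫ x, yy u x ^ a ∂ν := by
    simp only [MM, ← integral_const_mul]
    rw [← integral_finsetSum _ fun i hi => (h.intM g (by simp at hi; omega) a).const_mul _]
    refine integral_congr_ae (Eventually.of_forall fun x => ?_)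
    simp only [yy, div_pow]
    rw [add_comm 1 x, add_pow x 1, sum_div]
    exact sum_congr rfl fun i _ => by ring
  rw [h.Ry, ← h1, sum_range_succ]
  simp

lemma St.intg (h : St μ ν u) (g : Sm n μ) :
    Integrable (fun x => x ^ n - x ^ n / (1 + u * x) ^ n) ν ∧
      ∫ x, (x ^ n - x ^ n / (1 + u * x) ^ n) ∂ν = MM ν u n 0 - MM ν u n n :=
  ⟨(h.intM0 g le_rfl).sub (h.intM g le_rfl n), by
    rw [integral_sub (h.intM0 g le_rfl) (h.intM g le_rfl n), MM0]; rfl⟩

lemma St.Mb (h : St μ ν u) (g : Sm n μ) (b : ℕ) :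
    |MM ν u n b - MM ν u n 0| ≤ b * (MM ν u n 0 - MM ν u n n) := by
  rw [← (h.intg g).2, ← integral_const_mul, MM0, MM,
    ← integral_sub (h.intM g le_rfl b) (h.intM0 g le_rfl)]
  rw [← Real.norm_eq_abs]
  refine norm_integral_le_of_norm_le ((h.intg g).1.const_mul _) ?_
  filter_upwards [h.hx] with x hx using (g_bounds' n b g.hn h.hu hx).2

lemma St.taylor (h : St μ ν u) (g : Sm n μ) :
    |∫ x, log (1 + u * x) ∂ν - u * ∑ k ∈ range n, (-1) ^ k / (k + 1) * (u ^ k * MM ν u (k + 1) 0)| ≤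
      (MM ν u n 0 - MM ν u n n) * u ^ n := by
  have hu := h.hu
  have h1 : Integrable (fun x => log (1 + u * x)) ν := by
    refine ((h.intM0 g g.hn).const_mul u).mono' (Measurable.aestronglyMeasurable (by fun_prop)) ?_
    filter_upwards [h.hx] with x hx
    have : 0 ≤ u * x := by positivity
    rw [Real.norm_of_nonneg (log_nonneg (by linarith))]
    linarith [log_le_sub_one_of_pos (show 0 < 1 + u * x by linarith)]
  have h2 : ∀ k ∈ range n, Integrable (fun x => (-1) ^ k / (k + 1) * (u ^ k * x ^ (k + 1))) ν :=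
    fun k hk => ((h.intM0 g (by simp at hk; omega)).const_mul _).const_mul _
  simp only [MM0 (_ + 1), ← integral_const_mul]
  rw [← integral_finsetSum _ h2, ← integral_const_mul, ← integral_sub h1
    ((integrable_finsetSum _ h2).const_mul u), ← (h.intg g).2, ← integral_mul_const]
  rw [← Real.norm_eq_abs]
  refine norm_integral_le_of_norm_le ((h.intg g).1.mul_const _) ?_
  filter_upwards [h.hx] with x hx
  have h3 := log_taylor n g.hn (show 0 ≤ u * x by positivity)
  have h4 := mul_le_mul_of_nonneg_right (g_bounds' n 0 g.hn hu hx).1 (pow_pos hu n).le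
  rw [mul_sum, Real.norm_eq_abs]
  refine le_trans (le_of_eq ?_) (h3.trans (le_trans (le_of_eq (by ring)) h4))
  congr 2
  exact sum_congr rfl fun i _ => by ring

lemma int_min {ρ : Measure ℝ} [IsFiniteMeasure ρ] (hn : 1 ≤ n) (hx : ∀ᵐ x ∂ρ, 0 ≤ x)
    (hi : Integrable (fun z => z ^ n) ρ) {T : ℝ} (hT : 1 ≤ T) :
    Integrable (fun x => x ^ n * log (min x T)) ρ ∧ ∀ᵐ x ∂ρ, -1 ≤ x ^ n * log (min x T) := by
  have h1 : ∀ᵐ x ∂ρ, -1 ≤ x ^ n * log (min x T) := by
    filter_upwards [hx] with x hx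
    rcases le_total x T with h | h
    · rw [min_eq_left h]; exact F_low n hn hx
    · rw [min_eq_right h]; linarith [mul_nonneg (pow_nonneg hx n) (log_nonneg hT)]
  refine ⟨((integrable_const 1).add (hi.mul_const (log T))).mono'
    (Measurable.aestronglyMeasurable (by fun_prop)) ?_, h1⟩
  filter_upwards [hx, h1] with x hx h2
  have h3 := mul_nonneg (pow_nonneg hx n) (log_nonneg hT)
  have h4 : x ^ n * log (min x T) ≤ x ^ n * log T := by
    rcases hx.eq_or_lt with rfl | h0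
    · simp [zero_pow (show n ≠ 0 by omega)]
    · exact mul_le_mul_of_nonneg_left (log_le_log (lt_min h0 (by linarith)) (min_le_right _ _))
        (pow_nonneg hx n)
  exact abs_le.2 ⟨by simp only [Pi.add_apply]; linarith, by simp only [Pi.add_apply]; linarith⟩

lemma St.prodf (h : St μ ν u) (g : Sm n μ) {f : ℝ → ℝ} (hf : Integrable f μ) :
    Integrable (fun p : ℝ × ℝ => f p.1 * yy u p.2 ^ n + p.1 ^ n * (yy u p.2 ^ n * log (yy u p.2)))
      (μ.prod ν) ∧
    ∫ p : ℝ × ℝ, (f p.1 * yy u p.2 ^ n + p.1 ^ n * (yy u p.2 ^ n * log (yy u p.2))) ∂(μ.prod ν) =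
      (∫ z, f z ∂μ) * MM ν u n 0 + ∫ x, yy u x ^ n * log (yy u x) ∂ν := by
  have h1 := hf.mul_prod (h.inty1 n)
  have h2 := g.hi.mul_prod (h.inty2 n)
  refine ⟨h1.add h2, ?_⟩
  rw [integral_add h1 h2, integral_prod_mul f fun x => yy u x ^ n,
    integral_prod_mul (fun z => z ^ n) fun x => yy u x ^ n * log (yy u x), h.Ry, g.h1]
  ring

lemma St.ae (h : St μ ν u) (g : Sm n μ) : ∀ᵐ p ∂μ.prod ν, 0 < p.1 ∧ 1 ≤ yy u p.2 ∧ yy u p.2 ≤ 1 / u := by
  filter_upwards [Measure.quasiMeasurePreserving_fst.ae g.hz,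
    Measure.quasiMeasurePreserving_snd.ae h.hx] with p h1 h2 using ⟨h1, y_bounds h.hu h.hu1 h2⟩

lemma St.upper (h : St μ ν u) (g : Sm n μ) {K : ℝ} (hK : 1 ≤ K) :
    (∫ z, z ^ n * log (min z K) ∂μ) * MM ν u n 0 ≤
      (MM ν u n 0 - MM ν u n n) * (log (1 / u) + (log K + 1)) := by
  have hu := h.hu
  have hT : 1 ≤ K / u := (one_le_div hu).2 (h.hu1.trans hK)
  have i1 := (int_min g.hn h.hx (h.intM0 g le_rfl) hT).1
  obtain ⟨i2, e2⟩ := h.prodf g (int_min g.hn (g.hz.mono fun _ => le_of_lt) g.hi hK).1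
  obtain ⟨i3, e3⟩ := h.stat (fun x => x ^ n * log (min x (K / u))) (by fun_prop)
  have h1 := integral_mono_ae i2 (i3.1 i1) (by
    filter_upwards [h.ae g] with p ⟨h1, h2, h3⟩
    have h4 : 0 < min p.1 K := lt_min h1 (by linarith)
    have h5 : min p.1 K * yy u p.2 ≤ min (p.1 * yy u p.2) (K / u) := le_min
      (mul_le_mul_of_nonneg_right (min_le_left _ _) (by linarith))
      (by rw [div_eq_mul_one_div]; exact mul_le_mul (min_le_right _ _) h3 (by linarith) (by linarith))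
    have h6 := mul_le_mul_of_nonneg_left (log_le_log (by positivity) h5)
      (show 0 ≤ (p.1 * yy u p.2) ^ n by positivity)
    rw [log_mul h4.ne' (by linarith)] at h6
    exact le_trans (le_of_eq (by ring)) h6)
  have h2 := integral_mono_ae (i1.sub (h.inty2 n)) ((h.intg g).1.mul_const (log (K / u) + 1)) (by
    filter_upwards [h.hx] with x hx
    have h3 := (pt_upper n g.hn (T := K / u) hu h.hu1 hx).resolve_right (not_lt.2 hT)
    have h4 := (g_bounds' n 0 g.hn hu hx).1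
    simp only [Pi.sub_apply, yy]
    linarith)
  simp only [Pi.sub_apply] at h2
  rw [integral_sub i1 (h.inty2 n), integral_mul_const, (h.intg g).2, div_eq_mul_one_div,
    log_mul (by linarith) (by positivity)] at h2
  rw [e2, ← e3, div_eq_mul_one_div] at h1
  linarith

lemma lower (g : Sm n μ) (hi : Integrable (fun z => z ^ n * log z) μ) (η : ℝ) (hη : 0 < η) :
    ∃ C, ∀ (ν : Measure ℝ) [IsProbabilityMeasure ν] (u : ℝ), St μ ν u →
      (MM ν u n 0 - MM ν u n n) * (log (1 / u) - C) - C ≤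
        (∫ z, z ^ n * log z ∂μ + η) * MM ν u n 0 := by
  obtain ⟨C, -, hC⟩ := pt_lower n g.hn η hη
  refine ⟨C, fun ν _ u h => ?_⟩
  obtain ⟨i2, e2⟩ := h.prodf g hi
  obtain ⟨i3, e3⟩ := h.stat (fun x => x ^ n * log x) (by fun_prop)
  have h0 : (fun p : ℝ × ℝ => p.1 ^ n * log p.1 * yy u p.2 ^ n + p.1 ^ n * (yy u p.2 ^ n *
      log (yy u p.2))) =ᵐ[μ.prod ν] fun p => (p.1 * yy u p.2) ^ n * log (p.1 * yy u p.2) := by
    filter_upwards [h.ae g] with p ⟨h1, h2, _⟩
    rw [log_mul h1.ne' (by linarith)]; ring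
  have i1 := i3.2 (i2.congr h0)
  have i4 : Integrable (fun x => (x ^ n - x ^ n / (1 + u * x) ^ n) * (log (1 / u) - C) - η * x ^ n)
    ν := ((h.intg g).1.mul_const (log (1 / u) - C)).sub ((h.intM0 g le_rfl).const_mul η)
  have h2 := integral_mono_ae (i4.sub (integrable_const C)) (i1.sub (h.inty2 n)) (by
    filter_upwards [h.hx] with x hx using hC u x h.hu h.hu1 hx)
  simp only [Pi.sub_apply] at h2
  rw [integral_sub i1 (h.inty2 n), integral_sub i4 (integrable_const C), integral_sub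
    ((h.intg g).1.mul_const _) ((h.intM0 g le_rfl).const_mul η), integral_mul_const,
    integral_const_mul, (h.intg g).2, e3, ← integral_congr_ae h0, e2, ← MM0] at h2
  simp only [integral_const, probReal_univ, one_smul] at h2
  linarith

end Pool.Agent.H43.DH
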