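import Pool.Agent.H43.DHFix

set_option autoImplicit false
set_option linter.unusedSectionVars false

namespace Pool.Agent.H43.DH

open Real Filter Topology Asymptotics Finset MeasureTheory

section abstract
variable {l : Filter ℝ} {u Λ : ℝ → ℝ} {n : ℕ} {γ : ℝ}

def Q (l : Filter ℝ) (u Λ : ℝ → ℝ) (n : ℕ) (γ : ℝ) (r a : ℕ) (F : ℝ → ℝ) : Prop :=
  ∃ c, Exp l u Λ r c F ∧ (a + r < n ∨ γ = 0 → c = 0) ∧ 0 ≤ (-1) ^ r * c ∧ (a = n → c = γ)

lemma ind (hγ : 0 ≤ γ) (M : ℕ → ℕ → ℝ → ℝ) (m : ℕ → ℝ) (hm : ∀ a, 1 ≤ a → a < n → 0 ≤ m a ∧ m a < 1)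
    (R0 : ∀ᶠ ε in l, M 0 0 ε = 1)
    (R1 : ∀ a b, a < n → ∀ᶠ ε in l, M a (b + 1) ε = M a b ε + -(u ε * M (a + 1) (b + 1) ε))
    (R2 : ∀ a, a < n → ∀ᶠ ε in l, M a 0 ε = m a * (∑ i ∈ range a, a.choose i * M i a ε + M a a ε))
    (B1 : ∀ a b, a < n → Exp l u Λ 0 0 (M a b)) (B2 : ∀ b, Exp l u Λ 0 γ (M n b)) (r : ℕ) :
    ∀ a, a + r ≤ n → ∀ b, Q l u Λ n γ r a (M a b) := by
  induction r with
  | zero =>
    intro a ha b
    rcases (show a ≤ n from ha).eq_or_lt with rfl | h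
    · exact ⟨γ, B2 b, fun h => h.resolve_left (by omega), by simpa, fun _ => rfl⟩
    · exact ⟨0, B1 a b h, fun _ => rfl, by simp, fun h' => by omega⟩
  | succ r ih =>
    intro a
    induction a using Nat.strong_induction_on with
    | _ a iha =>
    intro ha
    have h0 : Exp l u Λ (r + 1) 0 fun _ => 0 := ⟨0, by simp⟩
    have h1 : ∀ b, Q l u Λ n γ (r + 1) a fun ε => M a b ε - M a 0 ε := by
      intro b
      induction b with
      | zero => exact ⟨0, by simpa using h0, fun _ => rfl, by simp, fun _ => by omega⟩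
      | succ b ihb =>
        obtain ⟨c, c1, c2, c3, -⟩ := ihb
        obtain ⟨d, d1, d2, d3, -⟩ := ih (a + 1) (by omega) (b + 1)
        refine ⟨c + -1 * d, (c1.add (d1.mul.smul (-1))).congr ?_, fun h => ?_, ?_, fun _ => by omega⟩
        · filter_upwards [R1 a b (by omega)] with ε h using by rw [h]; ring
        · rw [c2 h, d2 (h.imp_left fun _ => by omega)]; ring
        · rw [pow_succ] at c3 ⊢; linarith
    have h2 : Q l u Λ n γ (r + 1) a (M a 0) := by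
      rcases Nat.eq_zero_or_pos a with rfl | hp
      · refine ⟨0, Exp.congr (F := fun _ => 1) ⟨fun i => Nat.casesOn i 1 fun _ => 0, ?_⟩
          (R0.mono fun _ h => h.symm), fun _ => rfl, by simp, fun _ => by omega⟩
        simp [sum_range_succ']
      obtain ⟨m0, m1⟩ := hm a hp (by omega)
      obtain ⟨c, c1, c2, c3, -⟩ := h1 a
      have h3 : ∀ i ∈ range a, Exp l u Λ (r + 1) 0 fun ε => a.choose i * M i a ε := by
        intro i hi
        rw [mem_range] at hi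
        obtain ⟨d, d1, d2, -⟩ := iha i hi (by omega) a
        simpa [d2 (Or.inl (by omega))] using d1.smul (a.choose i)
      refine ⟨_, (((Exp.sum _ h3).add c1).smul (m a / (1 - m a))).congr ?_, fun h => ?_, ?_,
        fun _ => by omega⟩
      · filter_upwards [R2 a (by omega)] with ε h
        have : 1 - m a ≠ 0 := by linarith
        field_simp
        linarith
      · simp [c2 h]
      · rw [sum_const_zero, zero_add, mul_left_comm]
        exact mul_nonneg (div_nonneg m0 (by linarith)) c3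
    intro b
    obtain ⟨c, c1, c2, c3, -⟩ := h1 b
    obtain ⟨d, d1, d2, d3, -⟩ := h2
    exact ⟨c + d, (c1.add d1).congr (Eventually.of_forall fun _ => by ring),
      fun h => by rw [c2 h, d2 h, add_zero], by linarith, fun _ => by omega⟩

lemma Exp.lim {F : ℝ → ℝ} {c : ℝ} (h : Exp l u Λ 1 c F)
    (h0 : Tendsto (fun ε => u ε ^ 1 * Λ ε) l (𝓝 0)) : ∃ p, Tendsto F l (𝓝 p) := by
  obtain ⟨p, hp⟩ := h
  have h1 := ((hp.trans_tendsto h0).add (h0.const_mul c)).add_const (p 0)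
  exact ⟨_, h1.congr fun ε => by simp⟩

lemma Exp.of_lim {F : ℝ → ℝ} {c : ℝ} (hΛ : Tendsto Λ l atTop)
    (h : Tendsto (fun ε => F ε / Λ ε) l (𝓝 c)) : Exp l u Λ 0 c F := by
  refine ⟨0, ?_⟩
  have h0 := hΛ.eventually (eventually_gt_atTop 0)
  simp only [range_zero, sum_empty, sub_zero, pow_zero, one_mul]
  refine (isLittleO_iff_tendsto' (h0.mono fun ε h h' => absurd h' h.ne')).2 ?_
  have h1 := h.sub_const c
  rw [sub_self] at h1
  refine h1.congr' (h0.mono fun ε h => ?_)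
  field_simp

lemma Exp.of_bd {F : ℝ → ℝ} (hΛ : Tendsto Λ l atTop) (r : ℕ) (C : ℝ)
    (h : ∀ᶠ ε in l, |F ε| ≤ C * |u ε ^ r|) : Exp l u Λ r 0 F :=
  ⟨0, by simpa using small hΛ r C h⟩

end abstract

variable {n : ℕ} {μ : Measure ℝ} [IsProbabilityMeasure μ]

lemma Sm.pos (g : Sm n μ) {f : ℝ → ℝ} (hi : Integrable f μ) (h1 : f 1 = 0)
    (h : ∀ z, 0 < z → z ≠ 1 → 0 < f z) : 0 < ∫ z, f z ∂μ := by
  have h0 : 0 ≤ᵐ[μ] f := g.hz.mono fun z hz => by
    by_cases h2 : z = 1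
    · rw [h2, h1]; rfl
    · exact (h z hz h2).le
  refine (integral_nonneg_of_ae h0).lt_of_ne fun h2 => g.hc 1 ?_
  filter_upwards [(integral_eq_zero_iff_of_nonneg_ae h0 hi).1 h2.symm, g.hz] with z h3 hz
  by_contra h4
  exact (h z hz h4).ne' h3

lemma Sm.mom (g : Sm n μ) (a : ℕ) (h1 : 1 ≤ a) (h2 : a < n) :
    0 ≤ ∫ z, z ^ a ∂μ ∧ ∫ z, z ^ a ∂μ < 1 := by
  refine ⟨integral_nonneg_of_ae (g.hz.mono fun z hz => by positivity), ?_⟩
  have hn : (0 : ℝ) < n := by exact_mod_cast g.hn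
  have i0 : Integrable (fun z : ℝ => (a / n : ℝ) * (z ^ n - 1)) μ :=
    (g.hi.sub (integrable_const 1)).const_mul _
  have i1 : Integrable (fun z : ℝ => 1 + (a / n : ℝ) * (z ^ n - 1)) μ := (integrable_const 1).add i0
  have h3 := g.pos (f := fun z => 1 + (a / n : ℝ) * (z ^ n - 1) - z ^ a) (i1.sub (g.intz h2.le))
    (by simp) fun z hz hz1 => by
      have h4 := rpow_one_add_lt_one_add_mul_self (s := z ^ n - 1) (p := a / n)
        (by linarith [pow_pos hz n]) (fun h => hz1 ((pow_eq_one_iff_of_nonneg hz.le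
          (by omega)).1 (sub_eq_zero.1 h))) (by positivity)
        ((div_lt_one hn).2 (by exact_mod_cast h2))
      rw [add_sub_cancel, ← rpow_natCast, ← rpow_mul hz.le, mul_div_cancel₀ _ hn.ne',
        rpow_natCast, rpow_natCast] at h4
      linarith
  rw [integral_sub i1 (g.intz h2.le), integral_add (integrable_const 1) i0, integral_const_mul,
    integral_sub g.hi (integrable_const 1), g.h1] at h3
  simpa using h3

lemma Sm.kpos (g : Sm n μ) (hi : Integrable (fun z => z ^ n * log z) μ) :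
    0 < ∫ z, z ^ n * log z ∂μ := by
  have hn : (0 : ℝ) < n := by exact_mod_cast g.hn
  have i1 : Integrable (fun z : ℝ => z ^ n - 1) μ := g.hi.sub (integrable_const 1)
  have h3 := g.pos (f := fun z => n * (z ^ n * log z) - (z ^ n - 1)) ((hi.const_mul _).sub i1)
    (by simp) fun z hz hz1 => by
      have h0 := pow_pos hz n
      have h4 := log_lt_sub_one_of_pos (inv_pos.2 h0) fun h => hz1
        ((pow_eq_one_iff_of_nonneg hz.le (by have := g.hn; omega)).1 (inv_eq_one.1 h))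
      rw [log_inv, log_pow] at h4
      have h5 := mul_lt_mul_of_pos_left h4 h0
      rw [mul_sub, mul_inv_cancel₀ h0.ne'] at h5
      linarith
  rw [integral_sub (hi.const_mul _) i1, integral_const_mul, integral_sub g.hi (integrable_const 1),
    g.h1] at h3
  simpa [hn] using h3

lemma Sm.exK (g : Sm n μ) (t : ℝ) (ht : Integrable (fun z => z ^ n * log z) μ →
    t < ∫ z, z ^ n * log z ∂μ) : ∃ K : ℝ, 1 ≤ K ∧ t < ∫ z, z ^ n * log (min z K) ∂μ := by
  have h0 : ∀ k : ℕ, (1 : ℝ) ≤ k + 1 := fun k => by simp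
  have h1 := fun k : ℕ => int_min g.hn (g.hz.mono fun _ => le_of_lt) g.hi (h0 k)
  have h2 : ∀ᵐ z ∂μ, Tendsto (fun k : ℕ => z ^ n * log (min z (k + 1))) atTop
      (𝓝 (z ^ n * log z)) := Eventually.of_forall fun z => by
    refine tendsto_const_nhds.congr' ?_
    filter_upwards [tendsto_natCast_atTop_atTop.eventually (eventually_ge_atTop z)] with k hk
    rw [min_eq_left (by linarith)]
  by_contra! h
  have hi : Integrable (fun z => z ^ n * log z) μ := by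
    refine integrable_of_tendsto h2 (fun k => (h1 k).1.1) (ne_top_of_le_ne_top
      (ENNReal.ofReal_ne_top (r := t + 2)) (liminf_le_of_frequently_le' (Frequently.of_forall
        fun k => ?_)))
    rw [← ofReal_integral_norm_eq_lintegral_enorm (h1 k).1]
    refine ENNReal.ofReal_le_ofReal ((integral_mono_ae (h1 k).1.norm
      ((h1 k).1.add (integrable_const 2)) ?_).trans ?_)
    · filter_upwards [(h1 k).2] with z hz
      exact abs_le.2 ⟨by simp only [Pi.add_apply]; linarith, by simp⟩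
    · rw [integral_add' (h1 k).1 (integrable_const 2)]
      simpa using h _ (h0 k)
  have h3 := tendsto_integral_of_dominated_convergence (fun z => ‖z ^ n * log z‖)
    (fun k => (h1 k).1.1) hi.norm (fun k => by
      filter_upwards [g.hz] with z hz
      rcases le_total z (k + 1) with h | h
      · rw [min_eq_left h]
      · have h4 := log_nonneg (h0 k)
        have h5 := log_le_log (by positivity) h
        rw [min_eq_right h, Real.norm_of_nonneg (by positivity),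
          Real.norm_of_nonneg (mul_nonneg (by positivity) (h4.trans h5))]
        exact mul_le_mul_of_nonneg_left h5 (by positivity)) h2
  exact (ht hi).not_ge (le_of_tendsto' h3 fun k => h _ (h0 k))

lemma Sm.bdd (g : Sm n μ) (a : ℕ) : a < n → ∃ C, ∀ (ν : Measure ℝ) [IsProbabilityMeasure ν] (u : ℝ),
    St μ ν u → MM ν u a 0 ≤ C := by
  induction a using Nat.strong_induction_on with
  | _ a ih =>
  intro ha
  rcases Nat.eq_zero_or_pos a with rfl | hp
  · exact ⟨1, fun ν _ u _ => by simp [MM]⟩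
  choose! C hC using ih
  obtain ⟨m0, m1⟩ := g.mom a hp ha
  refine ⟨(∑ i ∈ range a, a.choose i * C i) / (1 - ∫ z, z ^ a ∂μ), fun ν _ u h => ?_⟩
  have h1 := h.R2 g ha.le
  have h2 : ∑ i ∈ range a, a.choose i * MM ν u i a ≤ ∑ i ∈ range a, a.choose i * C i :=
    sum_le_sum fun i hi => by
      rw [mem_range] at hi
      exact mul_le_mul_of_nonneg_left ((h.M_le g (by omega) a).trans (hC i hi (by omega) ν u h))
        (by positivity)
  have h3 : 0 ≤ ∑ i ∈ range a, a.choose i * MM ν u i a :=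
    sum_nonneg fun i _ => mul_nonneg (by positivity) (h.M_nonneg i a)
  have h4 := mul_le_mul_of_nonneg_left (h.M_le g ha.le a) m0
  rw [le_div_iff₀ (by linarith)]
  nlinarith

lemma St.Bt {ν : Measure ℝ} [IsProbabilityMeasure ν] {u : ℝ} (h : St μ ν u) (g : Sm n μ) :
    MM ν u n 0 - MM ν u n n = ∑ i ∈ range n, n.choose i * MM ν u i n := by
  rw [h.R2 g le_rfl, g.h1]; ring

lemma Sm.bddB (g : Sm n μ) : ∃ C, ∀ (ν : Measure ℝ) [IsProbabilityMeasure ν] (u : ℝ),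
    St μ ν u → MM ν u n 0 - MM ν u n n ≤ C := by
  choose! C hC using g.bdd
  refine ⟨∑ i ∈ range n, n.choose i * C i, fun ν _ u h => ?_⟩
  rw [h.Bt g]
  exact sum_le_sum fun i hi => by
    rw [mem_range] at hi
    exact mul_le_mul_of_nonneg_left ((h.M_le g hi.le n).trans (hC i hi ν u h)) (by positivity)

lemma tΛ : Tendsto (fun ε : ℝ => log (1 / ε)) (𝓝[>] 0) atTop :=
  (tendsto_log_atTop.comp tendsto_inv_nhdsGT_zero).congr fun ε => by simp

lemma log2 (ε : ℝ) : log (1 / ε ^ 2) = 2 * log (1 / ε) := by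
  rw [← one_div_pow, log_pow]; norm_num

variable {ν : ℝ → Measure ℝ}

lemma gen (g : Sm n μ) (hS : ∀ᶠ ε in 𝓝[>] 0, IsProbabilityMeasure (ν ε) ∧ St μ (ν ε) (ε ^ 2))
    {Λ : ℝ → ℝ} (hΛ : Tendsto Λ (𝓝[>] 0) atTop) {γ : ℝ} (hγ : 0 ≤ γ)
    (h : Tendsto (fun ε => MM (ν ε) (ε ^ 2) n 0 / Λ ε) (𝓝[>] 0) (𝓝 γ)) (r a : ℕ) (ha : a + r ≤ n)
    (b : ℕ) : Q (𝓝[>] 0) (fun ε => ε ^ 2) Λ n γ r a fun ε => MM (ν ε) (ε ^ 2) a b := by
  refine ind hγ (fun a b ε => MM (ν ε) (ε ^ 2) a b) (fun a => ∫ z, z ^ a ∂μ) g.mom ?_ ?_ ?_ ?_ ?_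
    r a ha b
  · filter_upwards [hS] with ε ⟨_, h⟩ using by simp [MM]
  · intro a b ha
    filter_upwards [hS] with ε ⟨_, h⟩ using h.R1 g ha b
  · intro a ha
    filter_upwards [hS] with ε ⟨_, h⟩ using h.R2 g ha.le
  · intro a b ha
    obtain ⟨C, hC⟩ := g.bdd a ha
    refine Exp.of_bd hΛ 0 C ?_
    filter_upwards [hS] with ε ⟨_, h⟩
    simpa [abs_of_nonneg (h.M_nonneg a b)] using (h.M_le g ha.le b).trans (hC _ _ h)
  · intro b
    obtain ⟨C, hC⟩ := g.bddB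
    have h1 : Exp (𝓝[>] 0) (fun ε => ε ^ 2) Λ 0 0 fun ε =>
        MM (ν ε) (ε ^ 2) n b - MM (ν ε) (ε ^ 2) n 0 := by
      refine Exp.of_bd hΛ 0 (b * C) ?_
      filter_upwards [hS] with ε ⟨_, h⟩
      simpa using (h.Mb g b).trans (mul_le_mul_of_nonneg_left (hC _ _ h) (by positivity))
    simpa using h1.add (Exp.of_lim hΛ h)

lemma limB (g : Sm n μ) (hS : ∀ᶠ ε in 𝓝[>] 0, IsProbabilityMeasure (ν ε) ∧ St μ (ν ε) (ε ^ 2)) :
    ∃ D, 1 ≤ D ∧ Tendsto (fun ε => MM (ν ε) (ε ^ 2) n 0 - MM (ν ε) (ε ^ 2) n n) (𝓝[>] 0) (𝓝 D) := by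
  obtain ⟨t, t0, ht⟩ : ∃ t : ℝ, 0 < t ∧ (Integrable (fun z => z ^ n * log z) μ →
      t < ∫ z, z ^ n * log z ∂μ) := by
    by_cases hi : Integrable (fun z => z ^ n * log z) μ
    · exact ⟨_, half_pos (g.kpos hi), fun _ => half_lt_self (g.kpos hi)⟩
    · exact ⟨1, one_pos, fun h => absurd h hi⟩
  obtain ⟨K, hK, hK'⟩ := g.exK t ht
  obtain ⟨C, hC⟩ := g.bddB
  have h0 : Tendsto (fun ε : ℝ => ε) (𝓝[>] 0) (𝓝 0) := tendsto_nhdsWithin_of_tendsto_nhds tendsto_id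
  have hp : ∀ᶠ ε : ℝ in 𝓝[>] 0, 0 < ε := self_mem_nhdsWithin
  have h1 : Tendsto (fun ε : ℝ => C / t * (-2 * (ε * log ε) + ε * (log K + 1))) (𝓝[>] 0) (𝓝 0) := by
    have h2 := ((((continuous_mul_log.tendsto 0).comp h0).const_mul (-2)).add
      (h0.mul_const (log K + 1))).const_mul (C / t)
    simpa using h2
  have h2 : Tendsto (fun ε => MM (ν ε) (ε ^ 2) n 0 / ε⁻¹) (𝓝[>] 0) (𝓝 0) := by
    refine squeeze_zero' ?_ ?_ h1
    · filter_upwards [hS, hp] with ε ⟨_, h⟩ he using div_nonneg (h.M_nonneg _ _) (by positivity)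
    · filter_upwards [hS, hp, tΛ.eventually (eventually_ge_atTop 0)] with ε ⟨_, h⟩ he h3
      have h4 := (mul_le_mul_of_nonneg_right hK'.le (h.M_nonneg n 0)).trans ((h.upper g hK).trans
        (mul_le_mul_of_nonneg_right (hC _ _ h) (by rw [log2]; linarith [log_nonneg hK])))
      rw [log2, one_div, log_inv] at h4
      rw [div_inv_eq_mul, div_mul_eq_mul_div, le_div_iff₀ t0]
      nlinarith
  have h3 : Tendsto (fun ε : ℝ => (ε ^ 2) ^ 1 * ε⁻¹) (𝓝[>] 0) (𝓝 0) :=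
    h0.congr' (hp.mono fun ε h => by field_simp)
  have h4 := gen g hS tendsto_inv_nhdsGT_zero le_rfl h2
  have h5 : ∀ i, i < n → ∃ p, Tendsto (fun ε => MM (ν ε) (ε ^ 2) i n) (𝓝[>] 0) (𝓝 p) := by
    intro i hi
    obtain ⟨c, c1, -⟩ := h4 1 i hi n
    exact c1.lim h3
  choose! p hp' using h5
  have h6 : Tendsto (fun ε => MM (ν ε) (ε ^ 2) n 0 - MM (ν ε) (ε ^ 2) n n) (𝓝[>] 0)
      (𝓝 (∑ i ∈ range n, n.choose i * p i)) := by
    refine (tendsto_finsetSum _ fun i hi => (hp' i (mem_range.1 hi)).const_mul _).congr' ?_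
    filter_upwards [hS] with ε ⟨_, h⟩ using (h.Bt g).symm
  have h7 : ∀ b, Tendsto (fun ε => MM (ν ε) (ε ^ 2) 0 b) (𝓝[>] 0) (𝓝 1) := by
    intro b
    induction b with
    | zero =>
      refine tendsto_const_nhds.congr' ?_
      filter_upwards [hS] with ε ⟨_, h⟩ using by simp [MM]
    | succ b ih =>
      obtain ⟨c, ⟨q, c1⟩, c2, -⟩ := h4 0 1 g.hn (b + 1)
      simp only [c2 (Or.inr rfl), range_zero, sum_empty, sub_zero, pow_zero, one_mul,
        zero_mul] at c1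
      have h8 := ((isBigO_refl (fun ε : ℝ => (ε ^ 2) ^ 1) _).mul_isLittleO c1).trans_tendsto h3
      have h9 := ih.add h8.neg
      rw [neg_zero, add_zero] at h9
      refine h9.congr' ?_
      filter_upwards [hS] with ε ⟨_, h⟩ using by rw [h.R1 g g.hn b, pow_one]
  refine ⟨_, le_of_tendsto_of_tendsto (h7 n) h6 ?_, h6⟩
  filter_upwards [hS] with ε ⟨_, h⟩
  have h8 := single_le_sum (f := fun i => n.choose i * MM (ν ε) (ε ^ 2) i n) (s := range n)
    (fun i _ => mul_nonneg (by positivity) (h.M_nonneg i n)) (mem_range.2 g.hn)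
  rw [h.Bt g]
  simpa using h8

lemma limA (g : Sm n μ) (hS : ∀ᶠ ε in 𝓝[>] 0, IsProbabilityMeasure (ν ε) ∧ St μ (ν ε) (ε ^ 2)) :
    ∃ γ, 0 ≤ γ ∧ (0 < γ ↔ Integrable (fun z => z ^ n * log z) μ) ∧
      Tendsto (fun ε => MM (ν ε) (ε ^ 2) n 0 / log (1 / ε)) (𝓝[>] 0) (𝓝 γ) := by
  obtain ⟨D, hD, hB⟩ := limB g hS
  have hp := tΛ.eventually (eventually_gt_atTop 0)
  have h1 : ∀ c d s : ℝ, Tendsto (fun ε => ((MM (ν ε) (ε ^ 2) n 0 - MM (ν ε) (ε ^ 2) n n) *
      (2 + c / log (1 / ε)) + d / log (1 / ε)) / s) (𝓝[>] 0) (𝓝 (2 * D / s)) := fun c d s => by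
    have h2 := ((hB.mul ((tΛ.const_div_atTop c).const_add 2)).add (tΛ.const_div_atTop d)).div_const s
    simpa only [add_zero, mul_comm D] using h2
  have up : ∀ a : ℝ, 0 < a → (Integrable (fun z => z ^ n * log z) μ →
      2 * D / a < ∫ z, z ^ n * log z ∂μ) →
      ∀ᶠ ε in 𝓝[>] 0, MM (ν ε) (ε ^ 2) n 0 / log (1 / ε) < a := by
    intro a ha h
    obtain ⟨K, hK, hK'⟩ := g.exK _ h
    have h2 : 0 < ∫ z, z ^ n * log (min z K) ∂μ := lt_trans (by positivity) hK'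
    filter_upwards [hS, hp, (h1 (log K + 1) 0 _).eventually (gt_mem_nhds
      ((div_lt_comm₀ ha h2).1 hK'))] with ε ⟨_, h⟩ h3 h4
    refine lt_of_le_of_lt ?_ h4
    have h5 := h.upper g hK
    rw [log2] at h5
    rw [div_le_div_iff₀ h3 h2, zero_div, add_zero, mul_assoc, add_mul, div_mul_cancel₀ _ h3.ne']
    linarith
  by_cases hi : Integrable (fun z => z ^ n * log z) μ
  · have hk := g.kpos hi
    have hγ : 0 < 2 * D / ∫ z, z ^ n * log z ∂μ := by positivity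
    refine ⟨_, hγ.le, iff_of_true hγ hi, tendsto_order.2 ⟨fun a ha => ?_, fun a ha =>
      up a (hγ.trans ha) fun _ => (div_lt_comm₀ hk (hγ.trans ha)).1 ha⟩⟩
    have h2 : Tendsto (fun η => 2 * D / (∫ z, z ^ n * log z ∂μ + η)) (𝓝[>] 0)
        (𝓝 (2 * D / ∫ z, z ^ n * log z ∂μ)) := by
      refine tendsto_nhdsWithin_of_tendsto_nhds (tendsto_const_nhds.div ?_ hk.ne')
      simpa using (tendsto_id (x := 𝓝 (0 : ℝ))).const_add (∫ z, z ^ n * log z ∂μ)
    obtain ⟨η, h3, hη⟩ := ((h2.eventually (lt_mem_nhds ha)).and self_mem_nhdsWithin).exists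
    obtain ⟨C, hC⟩ := lower g hi η hη
    filter_upwards [hS, hp, (h1 (-C) (-C) _).eventually (lt_mem_nhds h3)] with ε ⟨_, h⟩ h4 h5
    refine h5.trans_le ?_
    have h6 := hC _ _ h
    rw [log2] at h6
    rw [div_le_div_iff₀ (add_pos hk hη) h4, add_mul, mul_assoc, add_mul, div_mul_cancel₀ _ h4.ne']
    linarith
  · refine ⟨0, le_rfl, iff_of_false (lt_irrefl _) hi, tendsto_order.2 ⟨fun a ha => ?_, fun a ha =>
      up a ha fun h => absurd h hi⟩⟩
    filter_upwards [hS, hp] with ε ⟨_, h⟩ h3 using ha.trans_le (div_nonneg (h.M_nonneg _ _) h3.le)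

theorem main (g : Sm n μ) (hS : ∀ᶠ ε in 𝓝[>] 0, IsProbabilityMeasure (ν ε) ∧ St μ (ν ε) (ε ^ 2)) :
    ∃ (p : ℕ → ℝ) (C : ℝ), 0 ≤ C ∧ (0 < C ↔ Integrable (fun z => z ^ n * log z) μ) ∧
      (fun ε => ∫ x, log (1 + ε ^ 2 * x) ∂(ν ε) - ∑ i ∈ range (n - 1), p i * (ε ^ 2) ^ (i + 1) -
        (-1) ^ (n - 1) * C * ((ε ^ 2) ^ n * log (1 / ε))) =o[𝓝[>] 0]
          fun ε => (ε ^ 2) ^ n * log (1 / ε) := by
  obtain ⟨γ, h0, hγ, hA⟩ := limA g hS
  obtain ⟨m, rfl⟩ : ∃ m, n = m + 1 := ⟨n - 1, by have := g.hn; omega⟩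
  have h1 := fun k (hk : k < m + 1) => gen g hS tΛ h0 hA (m - k) (k + 1) (by omega) 0
  choose! c c1 c2 c3 c4 using h1
  have h2 := Exp.sum (range (m + 1)) fun k hk => by
    have h3 := ((c1 k (mem_range.1 hk)).mul_pow k).smul ((-1) ^ k / (k + 1))
    rw [Nat.sub_add_cancel (Nat.lt_succ_iff.1 (mem_range.1 hk))] at h3
    exact h3
  obtain ⟨p, hp⟩ := h2.mul'
  obtain ⟨B, hB⟩ := g.bddB
  have h3 : ∀ k ∈ range (m + 1), 0 ≤ (-1 : ℝ) ^ m * ((-1) ^ k / (k + 1) * c k) := fun k hk => by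
    have h4 := c3 k (mem_range.1 hk)
    obtain ⟨j, rfl⟩ := Nat.exists_eq_add_of_le (Nat.lt_succ_iff.1 (mem_range.1 hk))
    rw [Nat.add_sub_cancel_left] at h4
    have h5 : (-1 : ℝ) ^ (k + j) * ((-1) ^ k / (k + 1) * c k) =
        ((-1) ^ k) ^ 2 * ((-1) ^ j * c k) / (k + 1) := by ring
    rw [h5]; positivity
  have h6 : ((-1 : ℝ) ^ m) ^ 2 = 1 := by rw [← pow_mul, mul_comm, pow_mul]; simp
  refine ⟨p, ∑ k ∈ range (m + 1), (-1 : ℝ) ^ m * ((-1) ^ k / (k + 1) * c k), sum_nonneg h3,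
    Iff.trans ⟨fun h => h0.lt_of_ne fun h' => h.ne' (sum_eq_zero fun k hk => ?_), fun h =>
      lt_of_lt_of_le ?_ (single_le_sum h3 (mem_range.2 m.lt_succ_self))⟩ hγ, ?_⟩
  · simp [c2 k (mem_range.1 hk) (Or.inr h'.symm)]
  · have h5 : (-1 : ℝ) ^ m * ((-1) ^ m / (m + 1) * c m) = ((-1) ^ m) ^ 2 * c m / (m + 1) := by ring
    rw [h5, h6, c4 m m.lt_succ_self rfl]; positivity
  · have h4 := small (l := 𝓝[>] 0) (u := fun ε => ε ^ 2) tΛ (m + 1) (E := fun ε =>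
      ∫ x, log (1 + ε ^ 2 * x) ∂(ν ε) - ε ^ 2 * ∑ k ∈ range (m + 1), (-1) ^ k / (k + 1) *
        ((ε ^ 2) ^ k * MM (ν ε) (ε ^ 2) (k + 1) 0)) B (by
      filter_upwards [hS] with ε ⟨_, h⟩
      rw [abs_of_nonneg (show 0 ≤ (ε ^ 2) ^ (m + 1) by positivity)]
      exact (h.taylor g).trans (mul_le_mul_of_nonneg_right (hB _ _ h) (by positivity)))
    refine (h4.add hp).congr_left fun ε => ?_
    rw [Nat.add_sub_cancel, ← mul_sum, ← mul_assoc ((-1 : ℝ) ^ m), ← pow_two, h6]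
    ring

end Pool.Agent.H43.DH
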