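import Mathlib

set_option autoImplicit false

namespace Pool.Agent.H43.DH

open Real Filter Topology Asymptotics Finset

/-! pointwise inequalities -/

lemma F_mono (n : ℕ) {w y : ℝ} (h0 : 0 ≤ w) (h1 : w ≤ y) (h2 : 1 ≤ y) :
    w ^ n * log w ≤ y ^ n * log y := by
  rcases le_total w 1 with h | h
  · exact (mul_nonpos_of_nonneg_of_nonpos (by positivity) (log_nonpos h0 h)).trans
      (mul_nonneg (by positivity) (log_nonneg h2))
  · exact mul_le_mul (pow_le_pow_left₀ h0 h1 n) (log_le_log (by linarith) h1) (log_nonneg h)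
      (by positivity)

lemma F_low (n : ℕ) (hn : 1 ≤ n) {w : ℝ} (h0 : 0 ≤ w) : -1 ≤ w ^ n * log w := by
  rcases le_total w 1 with h | h
  · rcases h0.eq_or_lt with rfl | h0
    · simp
    have h1 := (abs_lt.1 (abs_log_mul_self_lt w h0 h)).1
    have h2 : w ^ n ≤ w := pow_le_of_le_one h0.le h (by omega)
    nlinarith [mul_le_mul_of_nonpos_right h2 (log_nonpos h0.le h)]
  · linarith [mul_nonneg (pow_nonneg h0 n) (log_nonneg h)]

lemma g_bounds (n : ℕ) {u x : ℝ} (hu : 0 < u) (hx : 0 ≤ x) :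
    0 ≤ x ^ n - x ^ n / (1 + u * x) ^ n ∧ x ^ n - x ^ n / (1 + u * x) ^ n ≤ n * (u * x) * x ^ n := by
  have h0 : 0 ≤ u * x := by positivity
  constructor
  · rw [sub_nonneg]
    exact div_le_self (by positivity) (one_le_pow₀ (by linarith))
  · have h1 : u * x / (1 + u * x) ≤ u * x := div_le_self h0 (by linarith)
    have h2 : u * x / (1 + u * x) ≤ 1 := (div_le_one (by linarith)).2 (by linarith)
    have h3 := one_add_mul_le_pow (a := -(u * x / (1 + u * x))) (by linarith) n
    have h4 : 1 + -(u * x / (1 + u * x)) = 1 / (1 + u * x) := by field_simp; ring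
    rw [h4, one_div_pow] at h3
    have h5 := mul_le_mul_of_nonneg_left h1 (Nat.cast_nonneg (α := ℝ) n)
    have h6 := mul_le_mul_of_nonneg_left (show 1 - n * (u * x) ≤ 1 / (1 + u * x) ^ n by linarith)
      (pow_nonneg hx n)
    rw [mul_one_div] at h6
    linarith

lemma y_bounds {u x : ℝ} (hu : 0 < u) (h1 : u ≤ 1) (hx : 0 ≤ x) :
    1 ≤ (1 + x) / (1 + u * x) ∧ (1 + x) / (1 + u * x) ≤ 1 / u := by
  have h0 : 0 ≤ u * x := by positivity
  constructor
  · rw [le_div_iff₀ (by linarith)]; nlinarith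
  · rw [div_le_div_iff₀ (by linarith) hu]; nlinarith

lemma pt_upper (n : ℕ) (hn : 1 ≤ n) {u x T : ℝ} (hu : 0 < u) (h1 : u ≤ 1) (hx : 0 ≤ x) :
    x ^ n * log (min x T) - ((1 + x) / (1 + u * x)) ^ n * log ((1 + x) / (1 + u * x)) ≤
      (x ^ n - x ^ n / (1 + u * x) ^ n) * log T + u * (x ^ (n + 1) / (1 + u * x) ^ 1) ∨ T < 1 := by
  refine or_iff_not_imp_right.2 fun hT => ?_
  have hy := (y_bounds hu h1 hx).1
  rcases hx.eq_or_lt with rfl | hx0
  · simp [zero_pow (show n ≠ 0 by omega)]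
  have h0 : 0 < 1 + u * x := by positivity
  have hm : 0 < min x T := lt_min hx0 (by linarith)
  have h2 := F_mono n (w := x / (1 + u * x)) (by positivity)
    (div_le_div_of_nonneg_right (by linarith) h0.le) hy
  have h3 := mul_le_mul_of_nonneg_left (log_le_log hm (min_le_right x T)) (g_bounds n hu hx).1
  have h4 := mul_le_mul_of_nonneg_left (log_le_log hm (min_le_left x T))
    (show 0 ≤ x ^ n / (1 + u * x) ^ n by positivity)
  rw [log_div hx0.ne' h0.ne', div_pow] at h2
  have h5 : log (1 + u * x) ≤ u * x := by linarith [log_le_sub_one_of_pos h0]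
  have h6 : x ^ n / (1 + u * x) ^ n ≤ x ^ n / (1 + u * x) ^ 1 :=
    div_le_div_of_nonneg_left (by positivity) (by positivity)
      (pow_le_pow_right₀ (by nlinarith) hn)
  have h7 := mul_le_mul h6 h5 (log_nonneg (by nlinarith)) (by positivity)
  have h8 : x ^ n / (1 + u * x) ^ 1 * (u * x) = u * (x ^ (n + 1) / (1 + u * x) ^ 1) := by ring
  linarith

lemma F_step (n : ℕ) (hn : 1 ≤ n) (η : ℝ) (hη : 0 < η) : ∃ C, ∀ w, 0 ≤ w →
    (w + 1) ^ n * log (w + 1) - w ^ n * log w ≤ η * w ^ n + C := by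
  obtain ⟨k, rfl⟩ : ∃ k, n = k + 1 := ⟨n - 1, by omega⟩
  have h1 : Tendsto (fun w : ℝ => (k + 1) * 2 ^ (k + 1) * (log (w + 1) / (w + 1)) + w⁻¹) atTop
      (𝓝 0) := by
    have h2 := (isLittleO_log_id_atTop.tendsto_div_nhds_zero.comp
      (tendsto_atTop_add_const_right atTop 1 tendsto_id)).const_mul ((k + 1) * 2 ^ (k + 1) : ℝ)
    simpa using h2.add tendsto_inv_atTop_zero
  obtain ⟨W, hW⟩ := eventually_atTop.1 ((h1.eventually (gt_mem_nhds hη)).and (eventually_ge_atTop 1))
  have hW1 := (hW W le_rfl).2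
  refine ⟨(W + 1) ^ (k + 1) * log (W + 1) + 1, fun w hw => ?_⟩
  have hC : 0 ≤ (W + 1) ^ (k + 1) * log (W + 1) := mul_nonneg (by positivity)
    (log_nonneg (by linarith))
  rcases le_total w W with h | h
  · have h2 := F_mono (k + 1) (w := w + 1) (y := W + 1) (by linarith) (by linarith) (by linarith)
    have h3 := F_low (k + 1) hn hw
    have h4 : 0 ≤ η * w ^ (k + 1) := by positivity
    linarith
  · obtain ⟨h2, h3⟩ := hW w h
    have hw0 : 0 < w := by linarith
    have h4 : (w + 1) ^ (k + 1) - w ^ (k + 1) ≤ (k + 1) * (2 * w) ^ k := by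
      have h5 := abs_pow_sub_pow_le (w + 1) w (k + 1)
      rw [add_sub_cancel_left, abs_one, one_mul, abs_of_pos (show 0 < w + 1 by linarith),
        abs_of_pos hw0, max_eq_left (by linarith), Nat.add_sub_cancel] at h5
      refine (le_abs_self _).trans (h5.trans ?_)
      push_cast
      exact mul_le_mul_of_nonneg_left (pow_le_pow_left₀ (by linarith) (by linarith) k)
        (by positivity)
    have h5 : log (w + 1) - log w ≤ w⁻¹ := by
      rw [← log_div (by linarith) hw0.ne']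
      refine (log_le_sub_one_of_pos (by positivity)).trans (le_of_eq (by field_simp; ring))
    have hl : 0 ≤ log (w + 1) := log_nonneg (by linarith)
    have h6 : log (w + 1) ≤ 2 * w * (log (w + 1) / (w + 1)) := by
      rw [← mul_div_assoc, le_div_iff₀ (by linarith)]; nlinarith
    have h7 := mul_le_mul h4 h6 hl (by positivity)
    have h8 := mul_le_mul_of_nonneg_left h5 (pow_pos hw0 (k + 1)).le
    have h9 := mul_le_mul_of_nonneg_left h2.le (pow_pos hw0 (k + 1)).le
    have h10 : (k + 1) * (2 * w) ^ k * (2 * w * (log (w + 1) / (w + 1))) =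
        w ^ (k + 1) * ((k + 1) * 2 ^ (k + 1) * (log (w + 1) / (w + 1))) := by ring
    nlinarith

lemma pt_lower (n : ℕ) (hn : 1 ≤ n) (η : ℝ) (hη : 0 < η) : ∃ C, 0 ≤ C ∧ ∀ u x : ℝ, 0 < u → u ≤ 1 →
    0 ≤ x → (x ^ n - x ^ n / (1 + u * x) ^ n) * (log (1 / u) - C) - η * x ^ n - C ≤
      x ^ n * log x - ((1 + x) / (1 + u * x)) ^ n * log ((1 + x) / (1 + u * x)) := by
  obtain ⟨C1, hC1⟩ := F_step n hn (η / 2) (half_pos hη)
  have hn' : (0 : ℝ) < n := by exact_mod_cast hn
  obtain ⟨δ, hδ, h1⟩ := Metric.continuous_iff.1 continuous_mul_log 0 (η / (2 * n)) (by positivity)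
  refine ⟨|C1| + |log δ|, by positivity, fun u x hu hu1 hx => ?_⟩
  have hy := (y_bounds hu hu1 hx).1
  rcases hx.eq_or_lt with rfl | hx0
  · simp only [zero_pow (show n ≠ 0 by omega), mul_zero, add_zero, zero_div, sub_zero, zero_mul,
      div_one, log_one]
    linarith [abs_nonneg C1, abs_nonneg (log δ)]
  have h0 : 0 < 1 + u * x := by positivity
  have hv : 0 < u * x := by positivity
  obtain ⟨g0, g1⟩ := g_bounds n hu hx
  have hw : x / (1 + u * x) ≤ x := div_le_self hx (by linarith)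
  have h2 := hC1 (x / (1 + u * x)) (by positivity)
  have h3 := F_mono n (w := (1 + x) / (1 + u * x)) (y := x / (1 + u * x) + 1) (by linarith)
    (by rw [add_div, add_comm]; exact add_le_add le_rfl ((div_le_one h0).2 (by linarith)))
    (le_add_of_nonneg_left (by positivity))
  have h4 := mul_le_mul_of_nonneg_left (log_le_log (by positivity) hw)
    (show 0 ≤ (x / (1 + u * x)) ^ n by positivity)
  have h5 := mul_le_mul_of_nonneg_left (pow_le_pow_left₀ (by positivity) hw n) (half_pos hη).le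
  have h6 : log x = log (1 / u) + log (u * x) := by
    rw [← log_mul (by positivity) hv.ne']; congr 1; field_simp
  rw [div_pow] at h2 h4 h5
  have h7 : -(η / 2 * x ^ n) - (x ^ n - x ^ n / (1 + u * x) ^ n) * |log δ| ≤
      (x ^ n - x ^ n / (1 + u * x) ^ n) * log (u * x) := by
    have p1 : 0 ≤ η / 2 * x ^ n := by positivity
    have p2 := mul_nonneg g0 (abs_nonneg (log δ))
    rcases le_or_gt δ (u * x) with h | h
    · have := mul_le_mul_of_nonneg_left ((neg_abs_le _).trans (log_le_log hδ h)) g0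
      linarith
    rcases le_total 0 (log (u * x)) with h' | h'
    · linarith [mul_nonneg g0 h']
    have h8 := h1 (u * x) (by rwa [Real.dist_eq, sub_zero, abs_of_pos hv])
    rw [Real.dist_eq, zero_mul, sub_zero, lt_div_iff₀ (by positivity)] at h8
    have h9 := mul_le_mul_of_nonpos_right g1 h'
    have h10 := mul_le_mul_of_nonneg_right (neg_abs_le (u * x * log (u * x))) hn'.le
    have h11 := mul_le_mul_of_nonneg_right
      (show -(η / 2) ≤ u * x * log (u * x) * n by linarith) (pow_pos hx0 n).le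
    nlinarith
  have h8 := mul_nonneg g0 (abs_nonneg C1)
  have h9 : x ^ n * log x = (x ^ n - x ^ n / (1 + u * x) ^ n) * (log (1 / u) + log (u * x)) +
      x ^ n / (1 + u * x) ^ n * log x := by rw [← h6]; ring
  nlinarith [le_abs_self C1, abs_nonneg (log δ)]

lemma log_taylor (n : ℕ) (hn : 1 ≤ n) {v : ℝ} (hv : 0 ≤ v) :
    |log (1 + v) - ∑ k ∈ range n, (-1) ^ k * v ^ (k + 1) / (k + 1)| ≤ v ^ (n + 1) / (1 + v) := by
  have hi : ∀ k : ℕ, IntervalIntegrable (fun t : ℝ => t ^ k / (1 + t)) MeasureTheory.volume 0 v := by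
    intro k
    refine ContinuousOn.intervalIntegrable_of_Icc hv (ContinuousOn.div (by fun_prop) (by fun_prop)
      fun t ht => by linarith [ht.1])
  have h1 : ∀ k : ℕ, log (1 + v) - ∑ j ∈ range k, (-1) ^ j * v ^ (j + 1) / (j + 1) =
      (-1) ^ k * ∫ t in (0 : ℝ)..v, t ^ k / (1 + t) := by
    intro k
    induction k with
    | zero =>
      simp only [range_zero, sum_empty, sub_zero, pow_zero, one_mul]
      rw [intervalIntegral.integral_comp_add_left (fun t => 1 / t), integral_one_div_of_pos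
        (by norm_num) (by linarith)]
      simp
    | succ k ih =>
      have h2 : (∫ t in (0 : ℝ)..v, t ^ k / (1 + t)) + ∫ t in (0 : ℝ)..v, t ^ (k + 1) / (1 + t) =
          v ^ (k + 1) / (k + 1) := by
        rw [← intervalIntegral.integral_add (hi _) (hi _),
          intervalIntegral.integral_congr (g := fun t => t ^ k), integral_pow]
        · simp
        · intro t ht
          rw [Set.uIcc_of_le hv] at ht
          have : 1 + t ≠ 0 := by linarith [ht.1]
          field_simp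
          ring
      rw [sum_range_succ, ← sub_sub, ih, mul_div_assoc, ← h2]; ring
  rw [h1, abs_mul, abs_pow, abs_neg, abs_one, one_pow, one_mul]
  have h2 := intervalIntegral.norm_integral_le_of_norm_le_const (a := 0) (b := v)
    (C := v ^ n / (1 + v)) (f := fun t : ℝ => t ^ n / (1 + t)) fun t ht => by
      rw [Set.uIoc_of_le hv] at ht
      obtain ⟨k, rfl⟩ : ∃ k, n = k + 1 := ⟨n - 1, by omega⟩
      have h3 := ht.1
      rw [Real.norm_of_nonneg (by positivity), pow_succ, pow_succ, mul_div_assoc, mul_div_assoc]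
      refine mul_le_mul (pow_le_pow_left₀ h3.le ht.2 k) ?_ (by positivity) (by positivity)
      rw [div_le_div_iff₀ (by linarith) (by linarith)]; linarith [ht.2]
  rw [sub_zero, abs_of_nonneg hv] at h2
  exact h2.trans (le_of_eq (by ring))

/-! expansions -/

variable {l : Filter ℝ} {u Λ : ℝ → ℝ}

def Exp (l : Filter ℝ) (u Λ : ℝ → ℝ) (r : ℕ) (c : ℝ) (F : ℝ → ℝ) : Prop :=
  ∃ p : ℕ → ℝ, (fun ε => F ε - ∑ i ∈ range r, p i * u ε ^ i - c * (u ε ^ r * Λ ε)) =o[l]
    fun ε => u ε ^ r * Λ ε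

lemma Exp.add {r : ℕ} {c d : ℝ} {F G : ℝ → ℝ} (h : Exp l u Λ r c F) (h' : Exp l u Λ r d G) :
    Exp l u Λ r (c + d) fun ε => F ε + G ε := by
  obtain ⟨p, hp⟩ := h
  obtain ⟨q, hq⟩ := h'
  refine ⟨p + q, (hp.add hq).congr_left fun ε => ?_⟩
  simp only [Pi.add_apply, add_mul, sum_add_distrib]; ring

lemma Exp.smul {r : ℕ} {c : ℝ} {F : ℝ → ℝ} (h : Exp l u Λ r c F) (a : ℝ) :
    Exp l u Λ r (a * c) fun ε => a * F ε := by
  obtain ⟨p, hp⟩ := h
  refine ⟨fun i => a * p i, (hp.const_mul_left a).congr_left fun ε => ?_⟩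
  simp only [mul_assoc, ← mul_sum]; ring

lemma Exp.sum {ι : Type} (s : Finset ι) {r : ℕ} {c : ι → ℝ} {F : ι → ℝ → ℝ}
    (h : ∀ i ∈ s, Exp l u Λ r (c i) (F i)) :
    Exp l u Λ r (∑ i ∈ s, c i) fun ε => ∑ i ∈ s, F i ε := by
  classical
  induction s using Finset.induction_on with
  | empty => exact ⟨0, by simp⟩
  | insert a s ha ih =>
    simp only [sum_insert ha]
    exact (h a (mem_insert_self _ _)).add (ih fun i hi => h i (mem_insert_of_mem hi))

lemma Exp.mul' {r : ℕ} {c : ℝ} {F : ℝ → ℝ} (h : Exp l u Λ r c F) : ∃ p : ℕ → ℝ,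
    (fun ε => u ε * F ε - ∑ i ∈ range r, p i * u ε ^ (i + 1) - c * (u ε ^ (r + 1) * Λ ε)) =o[l]
      fun ε => u ε ^ (r + 1) * Λ ε := by
  obtain ⟨p, hp⟩ := h
  refine ⟨p, ((isBigO_refl u l).mul_isLittleO hp).congr (fun ε => ?_) fun ε => by ring⟩
  rw [mul_sub, mul_sub, mul_sum]
  congr 1
  · congr 1
    exact sum_congr rfl fun i _ => by ring
  · ring

lemma Exp.mul {r : ℕ} {c : ℝ} {F : ℝ → ℝ} (h : Exp l u Λ r c F) :
    Exp l u Λ (r + 1) c fun ε => u ε * F ε := by
  obtain ⟨p, hp⟩ := h.mul'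
  refine ⟨fun i => Nat.casesOn i 0 p, hp.congr_left fun ε => ?_⟩
  rw [sum_range_succ']; simp

lemma Exp.mul_pow {r : ℕ} {c : ℝ} {F : ℝ → ℝ} (h : Exp l u Λ r c F) (k : ℕ) :
    Exp l u Λ (r + k) c fun ε => u ε ^ k * F ε := by
  induction k with
  | zero => simpa using h
  | succ k ih => simpa only [pow_succ', mul_assoc, add_assoc] using ih.mul

lemma small (hΛ : Tendsto Λ l atTop) (r : ℕ) {E : ℝ → ℝ} (C : ℝ)
    (h : ∀ᶠ ε in l, |E ε| ≤ C * |u ε ^ r|) : E =o[l] fun ε => u ε ^ r * Λ ε := by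
  have h1 : (fun _ => (1 : ℝ)) =o[l] Λ :=
    (isLittleO_one_left_iff ℝ).2 (tendsto_abs_atTop_atTop.comp hΛ)
  have h2 := (isBigO_refl (fun ε => u ε ^ r) l).mul_isLittleO h1
  simp only [mul_one] at h2
  exact (IsBigO.of_bound C h).trans_isLittleO h2

lemma Exp.congr {r : ℕ} {c : ℝ} {F G : ℝ → ℝ} (h : Exp l u Λ r c F) (h' : ∀ᶠ ε in l, F ε = G ε) :
    Exp l u Λ r c G := by
  obtain ⟨p, hp⟩ := h
  refine ⟨p, hp.congr' ?_ (EventuallyEq.refl _ _)⟩
  filter_upwards [h'] with ε hε using by rw [hε]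

end Pool.Agent.H43.DH
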