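import Pool.Agent.H43.DenDefs

open Set Filter Topology Metric SeparationQuotient

namespace Pool.Agent.H43.Den

def Pre (X : Type) := X × unitInterval

variable {X : Type} [MetricSpace X] [IsUltrametricDist X]

noncomputable def jn (p q : Pre X) : ℝ := max (dist p.1 q.1) (max p.2 q.2)

omit [IsUltrametricDist X] in
lemma jn_ge (p q : Pre X) : dist p.1 q.1 ≤ jn p q ∧ p.2 ≤ jn p q ∧ q.2 ≤ jn p q := by simp [jn]

noncomputable instance : PseudoMetricSpace (Pre X) where
  dist p q := 2 * jn p q - p.2 - q.2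
  dist_self p := by simp [jn, p.2.2.1]; ring
  dist_comm p q := by simp only [jn, dist_comm p.1, max_comm (p.2 : ℝ)]; ring
  dist_triangle p q r := by
    have a := jn_ge p q; have b := jn_ge q r
    have : jn p r ≤ max (jn p q) (jn q r) := max_le ((IsUltrametricDist.dist_triangle_max _ q.1 _).trans
      (max_le_max a.1 b.1)) (max_le_max a.2.1 b.2.2)
    rcases le_max_iff.1 this with h | h <;> linarith [a.2.2, b.2.1]

lemma dist_def (p q : Pre X) : dist p q = 2 * jn p q - p.2 - q.2 := rfl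

def pt (x : X) (h : unitInterval) : Pre X := (x, h)

lemma pt_cont : Continuous fun p : X × unitInterval => mk (pt p.1 p.2) := by
  refine continuous_mk.comp (Metric.continuous_iff.2 fun p ε e => ⟨ε / 2, by positivity, fun q h => ?_⟩)
  have a : dist q.1 p.1 < ε / 2 := (le_max_left _ _).trans_lt h
  have b : |(q.2 : ℝ) - p.2| < ε / 2 := (le_max_right _ _).trans_lt h
  rw [abs_lt] at b
  simp only [dist_def, jn, pt]
  rcases max_cases (dist q.1 p.1) (max (q.2 : ℝ) p.2) with c | c <;>
    rcases max_cases (q.2 : ℝ) p.2 with d | d <;> linarith [c.1, d.1, q.2.2.1, p.2.2.1]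

lemma mk_eq {p q : Pre X} (h : (p.2 : ℝ) = q.2) (h' : dist p.1 q.1 ≤ q.2) : mk p = mk q :=
  mk_eq_mk.2 (Metric.inseparable_iff.2 (by simp only [dist_def, jn, h, max_self, max_eq_right h']; ring))

lemma ball_con (h1 : ∀ x y : X, dist x y ≤ 1) (p : SeparationQuotient (Pre X)) (r : ℝ) :
    IsPreconnected (ball p r) := by
  obtain ⟨p, rfl⟩ := surjective_mk p
  refine isPreconnected_of_forall (mk p) fun q hq => ?_
  obtain ⟨q, rfl⟩ := surjective_mk q
  rw [mem_ball, dist_mk, dist_def] at hq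
  have g := jn_ge q p
  let m : unitInterval := ⟨jn q p, q.2.2.1.trans g.2.1, max_le (h1 _ _) (max_le q.2.2.2 p.2.2.2)⟩
  have c : ∀ x : X, ∀ a, IsPreconnected ((fun h => mk (pt x h)) '' Icc a m) := fun x a =>
    isPreconnected_Icc.image _ (pt_cont.comp (continuous_const.prodMk continuous_id)).continuousOn
  refine ⟨(fun h => mk (pt p.1 h)) '' Icc p.2 m ∪ (fun h => mk (pt q.1 h)) '' Icc q.2 m,
    union_subset ?_ ?_, Or.inl ⟨p.2, ⟨le_rfl, g.2.2⟩, rfl⟩, Or.inr ⟨q.2, ⟨le_rfl, g.2.1⟩, rfl⟩,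
    (c p.1 p.2).union (mk (pt p.1 m)) ⟨m, ⟨g.2.2, le_rfl⟩, rfl⟩ ⟨m, ⟨g.2.1, le_rfl⟩, mk_eq rfl g.1⟩
      (c q.1 q.2)⟩ <;> rintro _ ⟨h, ⟨a, b⟩, rfl⟩ <;> rw [mem_ball, dist_mk, dist_def] <;>
    have a' := Subtype.coe_le_coe.2 a <;> have b' : (h : ℝ) ≤ jn q p := b
  · have : jn (pt p.1 h) p ≤ h := max_le (by simpa [pt] using h.2.1) (max_le le_rfl a')
    simp only [pt] at this ⊢; linarith [g.2.1]
  · have : jn (pt q.1 h) p ≤ jn q p := max_le g.1 (max_le b' g.2.2)
    simp only [pt] at this ⊢; linarith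

noncomputable def ht : SeparationQuotient (Pre X) → ℝ := lift' fun p => p.2

lemma ht_uc : UniformContinuous fun p : Pre X => (p.2 : ℝ) :=
  (LipschitzWith.of_dist_le_mul (K := 1) fun p q => by
    have g := jn_ge p q
    rw [dist_def, Real.dist_eq, NNReal.coe_one, one_mul, abs_le]
    constructor <;> linarith [g.2.1, g.2.2]).uniformContinuous

lemma ht_mk (p : Pre X) : ht (mk p) = p.2 := lift'_mk ht_uc p

lemma sepa (h1 : ∀ x y : X, dist x y ≤ 1) {a b : SeparationQuotient (Pre X)} (ab : a ≠ b)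
    (l : ht a ≤ ht b) : ∃ q, ∀ s, IsPreconnected s → a ∈ s → b ∈ s → q ∈ s \ {a, b} := by
  obtain ⟨a, rfl⟩ := surjective_mk a
  obtain ⟨b, rfl⟩ := surjective_mk b
  have d := dist_pos.2 ab
  rw [dist_mk, dist_def] at d
  rw [ht_mk, ht_mk] at l
  have g := jn_ge a b
  have m1 : jn a b ≤ 1 := max_le (h1 _ _) (max_le a.2.2.2 b.2.2.2)
  let q := pt a.1 ⟨(a.2 + jn a b) / 2, by linarith [a.2.2.1, g.2.1], by linarith [g.2.1]⟩
  have q2 : (q.2 : ℝ) = (a.2 + jn a b) / 2 := rfl
  have hc : Continuous (ht (X := X)) := (uniformContinuous_lift' _).continuous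
  have k : ∀ p : Pre X, dist (mk p) (mk q) ≤ q.2 - ht (mk p) ↔ jn p q ≤ q.2 := fun p => by
    rw [dist_mk, dist_def, ht_mk]; constructor <;> intro <;> linarith
  have ja : jn a q ≤ q.2 := max_le (by simpa [q, pt] using q.2.2.1) (max_le (by linarith) le_rfl)
  have jb : ¬ jn b q ≤ q.2 := fun h => by
    have := jn_ge b q
    have : jn a b ≤ q.2 := max_le (dist_comm a.1 b.1 ▸ this.1.trans h) (max_le (by linarith) (by linarith))
    linarith
  refine ⟨mk q, fun s hs ha hb => ⟨by_contra fun n => ?_, ?_⟩⟩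
  · have : s ⊆ {p | ht p < q.2 ∧ dist p (mk q) ≤ q.2 - ht p} := by
      refine hs.subset_of_closure_inter_subset ?_ ⟨_, ha, by rw [ht_mk]; linarith, (k a).2 ja⟩ ?_
      · refine Metric.isOpen_iff.2 fun p hp => ⟨_, sub_pos.2 hp.1, fun r hr => ?_⟩
        obtain ⟨p, rfl⟩ := surjective_mk p
        obtain ⟨r, rfl⟩ := surjective_mk r
        have := (k p).1 hp.2
        have i := jn_ge r p; have j := jn_ge p q
        rw [mem_ball, dist_mk, dist_def, ht_mk] at hr
        exact ⟨by rw [ht_mk]; linarith, (k r).2 (max_le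
          ((IsUltrametricDist.dist_triangle_max _ p.1 _).trans (max_le (by linarith) (by linarith)))
          (max_le (by linarith) le_rfl))⟩
      · rintro p ⟨h, hp⟩
        have := closure_minimal (fun p (h : _ ∧ _) => h.2)
          (isClosed_le (f := fun p => dist p (mk q)) (g := fun p => q.2 - ht p) (by fun_prop) (by fun_prop)) h
        refine ⟨by_contra fun e => n ?_, this⟩
        rwa [← dist_le_zero.1 (le_trans this (by linarith))]
    exact jb ((k b).1 (this hb).2)
  · rintro (e | e)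
    · have := congrArg ht e
      rw [ht_mk, ht_mk] at this; linarith
    · exact jb ((k b).1 (by rw [← show mk q = mk b from e, dist_self, ht_mk, sub_self]))

theorem tree [CompactSpace X] [Nonempty X] (h1 : ∀ x y : X, dist x y ≤ 1) (T : X → X)
    (hT : ∀ x y, dist (T x) (T y) ≤ 2 * dist x y) :
    ∃ (D : Type) (_ : MetricSpace D) (F : D → D) (e : X → D) (r : D), Dendrite D ∧ Continuous F ∧
      (∀ x k, F^[k] (e x) = e (T^[k] x)) ∧ (∀ x y, dist (e x) (e y) = 2 * dist x y) ∧
      (∀ x, dist (e x) r = 1) ∧ ∀ p, (∃ x, p = e x) ∨ ∀ᶠ k in atTop, F^[k] p = r := by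
  obtain ⟨x0⟩ := ‹Nonempty X›
  let G : Pre X → Pre X := fun p => pt (T p.1) ⟨min 1 (2 * p.2), le_min one_pos.le
    (by linarith [p.2.2.1]), min_le_left _ _⟩
  have hG : UniformContinuous G := (LipschitzWith.of_dist_le_mul (K := 2) fun p q => by
    have g := jn_ge p q
    have : jn (G p) (G q) ≤ min 1 (2 * jn p q) := max_le (le_min (h1 _ _) ((hT _ _).trans (by linarith)))
      (max_le (min_le_min le_rfl (by linarith)) (min_le_min le_rfl (by linarith)))
    simp only [dist_def, G, pt, NNReal.coe_ofNat] at this ⊢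
    rcases min_cases 1 (2 * jn p q) with a | a <;> rcases min_cases (1 : ℝ) (2 * p.2) with b | b <;>
      rcases min_cases (1 : ℝ) (2 * q.2) with c | c <;> linarith [a.1, b.1, c.1]).uniformContinuous
  have it : ∀ k p, (SeparationQuotient.map G)^[k] (mk p) = mk (G^[k] p) := fun k p => by
    induction k with
    | zero => rfl
    | succ k ih => rw [Function.iterate_succ_apply', ih, map_mk hG, Function.iterate_succ_apply']
  have hh : ∀ k p, (G^[k] p).1 = T^[k] p.1 ∧ ((G^[k] p).2 : ℝ) = min 1 (2 ^ k * (p.2 : ℝ)) := fun k p => by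
    induction k with
    | zero => simp [p.2.2.2]
    | succ k ih =>
      simp only [Function.iterate_succ_apply', G, pt] at ih ⊢
      rw [ih.1, ih.2, mul_min_of_nonneg _ _ (two_pos (α := ℝ)).le, ← min_assoc, pow_succ', mul_assoc]
      norm_num
  refine ⟨SeparationQuotient (Pre X), inferInstance, SeparationQuotient.map G, fun x => mk (pt x 0), mk (pt x0 1),
    ⟨⟨?_⟩, ?_, locallyConnectedSpace_of_connected_bases ball (fun _ r => 0 < r) (fun _ => nhds_basis_ball)
      fun _ _ _ => ball_con h1 _ _, fun s => ⟨fun φ => ?_⟩⟩, (uniformContinuous_map G).continuous,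
    fun x k => ?_, fun x y => by simp [dist_mk, dist_def, jn, pt], fun x => ?_, fun p => ?_⟩
  · have e : range (fun p : X × unitInterval => mk (pt p.1 p.2)) = univ :=
      eq_univ_of_forall fun p => surjective_mk p
    exact e ▸ isCompact_range pt_cont
  · have := ball_con h1 (mk (pt x0 1)) 3
    rw [eq_univ_of_forall (s := ball _ _) fun p => ?_] at this
    · exact @ConnectedSpace.mk _ _ ⟨this⟩ ⟨mk (pt x0 1)⟩
    · obtain ⟨p, rfl⟩ := surjective_mk p
      have : jn p (pt x0 1) ≤ 1 := max_le (h1 _ _) (max_le p.2.2.2 le_rfl)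
      rw [mem_ball, dist_mk, dist_def]
      linarith [p.2.2.1, (pt x0 1).2.2.1]
  · let γ : Circle → SeparationQuotient (Pre X) := fun z => φ.symm z
    have γc : Continuous γ := continuous_subtype_val.comp φ.symm.continuous
    have γi : Function.Injective γ := Subtype.val_injective.comp φ.symm.injective
    have : ∀ a b, a ≠ b → ¬ ht (γ a) ≤ ht (γ b) := fun a b n l => by
      obtain ⟨q, hq⟩ := sepa h1 (γi.ne n) l
      obtain ⟨⟨z, -, rfl⟩, hz⟩ := hq _ (isPreconnected_univ.image _ γc.continuousOn)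
        ⟨a, trivial, rfl⟩ ⟨b, trivial, rfl⟩
      obtain ⟨⟨w, i, j⟩, -⟩ := hq _ ((Circle.isPathConnected_compl_singleton z).isConnected.2.image _
        γc.continuousOn) ⟨a, fun e => hz (Or.inl (by rw [show a = z from e])), rfl⟩
        ⟨b, fun e => hz (Or.inr (by rw [show b = z from e]; rfl)), rfl⟩
      exact i (γi j)
    have n : (1 : Circle) ≠ -1 := fun e => by
      have := congrArg (fun z : Circle => (z : ℂ).re) e
      norm_num at this
    exact (le_total _ _).elim (this _ _ n) (this _ _ n.symm)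
  · rw [it]
    exact mk_eq (by simp [hh, pt]) (by simp [hh, pt])
  · have : jn (pt x 0) (pt x0 1) = 1 := by simp [jn, pt, h1]
    rw [dist_mk, dist_def, this]; simp [pt]; norm_num
  · obtain ⟨p, rfl⟩ := surjective_mk p
    rcases p.2.2.1.eq_or_lt with h | h
    · exact Or.inl ⟨p.1, mk_eq h.symm (by simp [pt])⟩
    · refine Or.inr ?_
      filter_upwards [((tendsto_pow_atTop_atTop_of_one_lt one_lt_two).atTop_mul_const h).eventually_ge_atTop 1]
        with k hk
      rw [it]
      exact mk_eq ((hh k p).2.trans (min_eq_left hk)) (h1 _ _)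

end Pool.Agent.H43.Den
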