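import Pool.Agent.H43.Den1

open Set Filter Topology Metric

namespace Pool.Agent.H43.Den

variable {D : Type} [MetricSpace D] {F : D → D} {p q : D}

open Classical in
noncomputable def cnt (P : ℕ → Prop) (n : ℕ) : ℕ := ((Finset.range (n + 1)).filter P).card

lemma cnt_mono {P Q : ℕ → Prop} (h : ∀ k, P k → Q k) (n : ℕ) : cnt P n ≤ cnt Q n := by
  classical
  exact Finset.card_le_card fun k hk => by
    simp only [Finset.mem_filter] at hk ⊢; exact ⟨hk.1, h k hk.2⟩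

lemma cnt_add (P : ℕ → Prop) (n : ℕ) : cnt P n + cnt (fun k => ¬ P k) n = n + 1 := by
  classical
  have := Finset.card_filter_add_card_filter_not (s := Finset.range (n + 1)) P
  rw [Finset.card_range] at this
  rw [← this, cnt, cnt]; congr

lemma le_cnt {P : ℕ → Prop} {a b n : ℕ} (h : ∀ k, a ≤ k → k < b → P k) (l : b ≤ n + 1) :
    b - a ≤ cnt P n := by
  classical
  rw [← Nat.card_Ico]
  exact Finset.card_le_card fun k hk => by
    simp only [Finset.mem_filter, Finset.mem_Ico, Finset.mem_range] at hk ⊢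
    exact ⟨by omega, h k hk.1 hk.2⟩

def near (F : D → D) (p q : D) (δ : ℝ) (k : ℕ) : Prop := dist (F^[k] p) (F^[k] q) < δ

lemma fr_eq (δ : ℝ) (n : ℕ) : fr F p q δ n = ((cnt (near F p q δ) n / n : ℝ) : EReal) := by
  unfold fr cnt near; congr

lemma fr_le {δ c : ℝ} {n : ℕ} (h : 0 < n ∧ cnt (near F p q δ) n ≤ c * n) : fr F p q δ n ≤ c := by
  rw [fr_eq]; exact EReal.coe_le_coe_iff.2 ((div_le_iff₀ (by exact_mod_cast h.1)).2 h.2)

lemma le_fr {δ c : ℝ} {n : ℕ} (h : 0 < n ∧ c * n ≤ cnt (near F p q δ) n) : c ≤ fr F p q δ n := by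
  rw [fr_eq]; exact EReal.coe_le_coe_iff.2 ((le_div_iff₀ (by exact_mod_cast h.1)).2 h.2)

lemma fr_mono {δ ε : ℝ} (h : δ ≤ ε) (n : ℕ) : fr F p q δ n ≤ fr F p q ε n := by
  rw [fr_eq, fr_eq]
  exact EReal.coe_le_coe_iff.2 (div_le_div_of_nonneg_right
    (Nat.cast_le.2 (cnt_mono (fun k (l : _ < _) => l.trans_le h) n)) n.cast_nonneg)

lemma Φ_mono : Monotone (Φ F p q) := fun _ _ h => liminf_le_liminf (.of_forall (fr_mono h))

lemma Φs_mono : Monotone (Φs F p q) := fun _ _ h => limsup_le_limsup (.of_forall (fr_mono h))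

def Asy (F : D → D) (p q : D) : Prop := ∀ᶠ k in atTop, F^[k] p = F^[k] q

def Far (F : D → D) (p q : D) : Prop := ∃ δ > 0, ∀ᶠ k in atTop, δ ≤ dist (F^[k] p) (F^[k] q)

lemma Asy.dc2 (h : Asy F p q) : ¬ DC2 F p q := fun ⟨_, _, ε, e, _, l⟩ => l.not_ge (by
  obtain ⟨N, hN⟩ := eventually_atTop.1 h
  have t : Tendsto (fun n : ℕ => ((1 - N / n : ℝ) : EReal)) atTop (𝓝 1) :=
    (EReal.tendsto_coe (a := 1)).2 (by
      simpa using (tendsto_const_div_atTop_nhds_zero_nat (N : ℝ)).const_sub 1)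
  rw [← t.liminf_eq]
  refine liminf_le_liminf ((eventually_ge_atTop (N + 1)).mono fun n hn => le_fr ⟨by omega, ?_⟩)
  have : n + 1 - N ≤ cnt (near F p q ε) n := le_cnt (fun k a _ => by simpa [near, hN k a]) le_rfl
  have : (n : ℝ) ≤ cnt (near F p q ε) n + N := by exact_mod_cast (by omega)
  rw [sub_mul, div_mul_cancel₀ _ (by exact_mod_cast (by omega))]; linarith)

lemma Asy.ly (h : Asy F p q) : ¬ LY F p q := fun l => l.2.2.not_ge
  (limsup_le_of_le (h := h.mono fun k e => by simp [e]))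

lemma Far.ly (h : Far F p q) : ¬ LY F p q := fun l => by
  obtain ⟨δ, d, h⟩ := h
  exact (EReal.coe_pos.2 d).not_ge (l.2.1 ▸ le_liminf_of_le (h := h.mono fun k => EReal.coe_le_coe_iff.2))

lemma not_dc2 [CompactSpace D] {δ η : ℝ} (d : 0 < δ) (e : 0 < η)
    (h : ∀ᶠ n : ℕ in atTop, η * n ≤ cnt (fun k => ¬ near F p q δ k) n) : ¬ DC2 F p q := fun l => by
  have : 0 < diam (univ : Set D) := (dist_pos.2 l.1).trans_le
    (dist_le_diam_of_mem isCompact_univ.isBounded trivial trivial)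
  refine ((Φs_mono (min_le_left δ _)).trans_lt (lt_of_le_of_lt (b := ((1 - η / 2 : ℝ) : EReal))
    (limsup_le_of_le (h := ?_)) (EReal.coe_lt_coe_iff.2 (by linarith : _ < (1 : ℝ))))).ne
    (l.2.1 _ (lt_min d this) (min_le_right _ _))
  filter_upwards [h, eventually_gt_atTop 0,
    (tendsto_natCast_atTop_atTop.const_mul_atTop e).eventually_ge_atTop 2] with n a b c
  have : (cnt (near F p q δ) n : ℝ) + cnt (fun k => ¬ near F p q δ k) n = n + 1 := by
    exact_mod_cast cnt_add _ n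
  exact fr_le ⟨b, by linarith⟩

lemma Far.dc2 [CompactSpace D] (h : Far F p q) : ¬ DC2 F p q := by
  obtain ⟨δ, d, h⟩ := h
  obtain ⟨N, hN⟩ := eventually_atTop.1 h
  refine not_dc2 d one_half_pos ((eventually_ge_atTop (2 * N)).mono fun n hn => ?_)
  have : n + 1 - N ≤ cnt (fun k => ¬ near F p q δ k) n := le_cnt (fun k a _ => (hN k a).not_gt) le_rfl
  have : (n : ℝ) ≤ 2 * cnt (fun k => ¬ near F p q δ k) n := by exact_mod_cast (by omega)
  linarith

lemma Φ_le {δ c : ℝ} (h : ∀ N, ∃ n, N < n ∧ cnt (near F p q δ) n ≤ c * n) : Φ F p q δ ≤ c :=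
  liminf_le_of_frequently_le' (frequently_atTop.2 fun N => (h N).imp fun _ h =>
    ⟨h.1.le, fr_le ⟨by omega, h.2⟩⟩)

lemma le_Φs {δ c : ℝ} (h : ∀ N, ∃ n, N < n ∧ c * n ≤ cnt (near F p q δ) n) : c ≤ Φs F p q δ :=
  le_limsup_of_frequently_le' (frequently_atTop.2 fun N => (h N).imp fun _ h =>
    ⟨h.1.le, le_fr ⟨by omega, h.2⟩⟩)

theorem tree' {E : ℕ → Type} [∀ n, TopologicalSpace (E n)] [∀ n, DiscreteTopology (E n)]
    [∀ n, Finite (E n)] {X : Set (∀ n, E n)} (hX : IsClosed X) (ne : X.Nonempty)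
    {T : (∀ n, E n) → ∀ n, E n} (hm : MapsTo T X X)
    (hT : ∀ x y n, (∀ i < n + 1, x i = y i) → ∀ i < n, T x i = T y i) :
    ∃ (D : Type) (_ : MetricSpace D) (F : D → D) (e : X → D), Dendrite D ∧ Continuous F ∧
      (∀ (x y : X) (k n : ℕ), ((∀ i < n, T^[k] x i = T^[k] y i) →
        dist (F^[k] (e x)) (F^[k] (e y)) ≤ 2 * (1 / 2) ^ n) ∧
        (T^[k] x n ≠ T^[k] y n → 2 * (1 / 2) ^ n ≤ dist (F^[k] (e x)) (F^[k] (e y)))) ∧
      ∀ p q, (∃ x y, p = e x ∧ q = e y) ∨ Asy F p q ∨ Far F p q := by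
  letI : MetricSpace (∀ n, E n) := PiNat.metricSpace
  haveI : IsUltrametricDist (∀ n, E n) := ⟨PiNat.dist_triangle_nonarch⟩
  haveI : CompactSpace X := isCompact_iff_compactSpace.1 hX.isCompact
  haveI := ne.to_subtype
  obtain ⟨D, _, F, e, r, a, b, c, d, f, g⟩ := tree (X := X) (fun x y => PiNat.dist_le_one x.1 y.1)
    hm.restrict fun x y => by
      rcases eq_or_ne x.1 y.1 with h | h
      · simp [Subtype.ext h]
      change dist (T x) (T y) ≤ 2 * dist x.1 y.1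
      rw [PiNat.dist_eq_of_ne h]
      rcases hn : PiNat.firstDiff x.1 y.1 with _ | n
      · exact (PiNat.dist_le_one _ _).trans (by norm_num)
      · exact (PiNat.mem_cylinder_iff_dist_le.1 (hT _ _ n fun i hi =>
          PiNat.apply_eq_of_lt_firstDiff (hn ▸ hi))).trans (le_of_eq (by ring))
  refine ⟨D, _, F, e, a, b, fun x y k n => ?_, fun p q => ?_⟩
  · rw [c, c, d, Subtype.dist_eq, MapsTo.coe_iterate_restrict, MapsTo.coe_iterate_restrict]
    exact ⟨fun h => by linarith [PiNat.mem_cylinder_iff_dist_le.1 h],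
      fun h => by linarith [not_lt.1 fun l => h (PiNat.apply_eq_of_dist_lt l le_rfl)]⟩
  · rcases g p with ⟨x, rfl⟩ | h <;> rcases g q with ⟨y, rfl⟩ | k
    · exact Or.inl ⟨x, y, rfl, rfl⟩
    · exact Or.inr (Or.inr ⟨1, one_pos, k.mono fun n h => by rw [h, c, f]⟩)
    · exact Or.inr (Or.inr ⟨1, one_pos, h.mono fun n h => by rw [h, c, dist_comm, f]⟩)
    · exact Or.inr (Or.inl ((h.and k).mono fun n h => h.1.trans h.2.symm))

def T {A : Type} {m : ℕ → ℕ} (z : ∀ n, A × ZMod (m n)) (n : ℕ) : A × ZMod (m n) :=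
  ((z (n + 1)).1, (z n).2 + 1)

lemma T_it {A : Type} {m : ℕ → ℕ} (z : ∀ n, A × ZMod (m n)) (k n : ℕ) :
    T^[k] z n = ((z (n + k)).1, (z n).2 + k) := by
  induction k generalizing n with
  | zero => simp
  | succ k ih => rw [Function.iterate_succ_apply', T, ih, ih, add_right_comm, add_assoc n]; simp [add_assoc]

omit [MetricSpace D] in
lemma unc {B : Type} [Nontrivial B] {f : (ℕ → B) → D} (h : Function.Injective f) :
    ¬ (range f).Countable := fun c => by
  haveI : Countable (ℕ → B) := countable_univ_iff.1 (countable_of_injective_of_countable_image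
    h.injOn (by rwa [image_univ]))
  obtain ⟨g, hg⟩ := exists_surjective_nat (ℕ → B)
  choose s hs using exists_ne (α := B)
  obtain ⟨n, e⟩ := hg fun n => s (g n n)
  exact hs _ (congrFun e n).symm

theorem tree2 {A : Type} [TopologicalSpace A] [DiscreteTopology A] [Finite A] {m : ℕ → ℕ}
    [∀ n, NeZero (m n)] {X : Set (∀ n, A × ZMod (m n))} (hX : IsClosed X) (ne : X.Nonempty)
    (hm : MapsTo T X X) :
    ∃ (D : Type) (_ : MetricSpace D) (F : D → D) (e : X → D), Dendrite D ∧ Continuous F ∧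
      (∀ (x y : X) (k : ℕ), (x.1 k).1 ≠ (y.1 k).1 → 2 ≤ dist (F^[k] (e x)) (F^[k] (e y))) ∧
      (∀ (x y : X) (k n : ℕ), (∀ i < n, (x.1 (i + k)).1 = (y.1 (i + k)).1 ∧ (x.1 i).2 = (y.1 i).2) →
        dist (F^[k] (e x)) (F^[k] (e y)) ≤ 2 * (1 / 2) ^ n) ∧
      ∀ p q, (∃ x y, p = e x ∧ q = e y ∧ (∀ n, (x.1 n).2 = (y.1 n).2) ∧
        ¬ ∀ᶠ k in atTop, (x.1 k).1 = (y.1 k).1) ∨ Asy F p q ∨ Far F p q := by
  obtain ⟨D, _, F, e, a, b, c, d⟩ := tree' hX ne hm fun x y n h i hi => by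
    simp only [T, h i (by omega), h (i + 1) (by omega)]
  refine ⟨D, _, F, e, a, b, fun x y k h => by simpa using (c x y k 0).2 fun e => h (by
      rw [T_it, T_it, zero_add] at e; exact (Prod.ext_iff.1 e).1),
    fun x y k n h => (c x y k n).1 fun i hi => by simp only [T_it, h i hi], fun p q => ?_⟩
  refine (d p q).elim ?_ Or.inr
  rintro ⟨x, y, rfl, rfl⟩
  by_cases h : ∀ n, (x.1 n).2 = (y.1 n).2
  · by_cases h' : ∀ᶠ k in atTop, (x.1 k).1 = (y.1 k).1
    · obtain ⟨N, hN⟩ := eventually_atTop.1 h'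
      refine Or.inr (Or.inl ((eventually_ge_atTop N).mono fun k hk => dist_le_zero.1
        (ge_of_tendsto' (x := atTop) (f := fun n : ℕ => 2 * (1 / 2 : ℝ) ^ n) ?_ fun n =>
          (c x y k n).1 fun i _ => by simp only [T_it, h i, hN (i + k) (by omega)])))
      simpa using (tendsto_pow_atTop_nhds_zero_of_lt_one (r := (1 / 2 : ℝ)) (by norm_num)
        (by norm_num)).const_mul 2
    · exact Or.inl ⟨x, y, rfl, rfl, h, h'⟩
  · obtain ⟨n, hn⟩ := not_forall.1 h
    exact Or.inr (Or.inr ⟨_, by positivity, .of_forall fun k => (c x y k n).2 (by simp [T_it, hn])⟩)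

end Pool.Agent.H43.Den
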