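import Pool.Agent.H43.Den2

open Set Filter Topology Metric

namespace Pool.Agent.H43.Den

lemma syn (j m : ℕ) : ∃ k, m ≤ k ∧ k < m + 2 ^ (j + 1) ∧ padicValNat 2 (k + 1) = j := by
  have p : 0 < 2 ^ j := by positivity
  have a := Nat.div_add_mod (m + 2 ^ j) (2 * 2 ^ j)
  have b := Nat.mod_lt (m + 2 ^ j) (show 0 < 2 * 2 ^ j by omega)
  generalize (m + 2 ^ j) / (2 * 2 ^ j) = i at a
  have e : 2 * 2 ^ j * i + 2 ^ j - 1 + 1 = 2 ^ j * (2 * i + 1) := by
    rw [Nat.sub_add_cancel (by omega)]; ring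
  refine ⟨2 * 2 ^ j * i + 2 ^ j - 1, by omega, by omega, ?_⟩
  rw [e, padicValNat.mul (by omega) (by omega), padicValNat.prime_pow,
    padicValNat.eq_zero_of_not_dvd (by omega), add_zero]

def xs (θ : ℕ → Bool) (n : ℕ) : Bool := θ (padicValNat 2 (Nat.log 4 n + 1))

def zs (θ : ℕ → Bool) (n i : ℕ) : Bool × ZMod (i + 1) := (xs θ (i + n), n)

lemma xs_eq (θ : ℕ → Bool) {n k : ℕ} (a : 4 ^ k ≤ n) (b : n < 4 * 4 ^ k) :
    xs θ n = θ (padicValNat 2 (k + 1)) := by
  rw [xs, Nat.log_eq_of_pow_le_of_lt_pow a (by omega)]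

lemma char {w} (h : w ∈ closure (⋃ n, range (zs · n))) :
    (∃ θ n, w = zs θ n) ∨ ∃ b, ∀ᶠ k in atTop, (w k).1 = b := by
  refine or_iff_not_imp_left.2 fun ne => ?_
  have k : ∀ i j, i < j → (w i).1 = (w (i + 1)).1 ∨ (w j).1 = (w (j + 1)).1 := fun i j l => by
    have := closure_mono (show ⋃ n, range (zs · n) ⊆ (⋃ n ∈ Iic j, range (zs · n)) ∪
      ⋃ n ∈ Ioi j, range (zs · n) from iUnion_subset fun n z hz =>
        (le_or_gt n j).imp (mem_biUnion · hz) (mem_biUnion · hz)) h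
    rw [closure_union, ((finite_Iic j).isClosed_biUnion fun n _ => (isCompact_range (by
      unfold zs xs; fun_prop)).isClosed).closure_eq] at this
    obtain ⟨u, a, b⟩ := mem_closure_iff.1 (this.resolve_left fun h => by
      obtain ⟨n, -, θ, e⟩ := mem_iUnion₂.1 h
      exact ne ⟨θ, n, e.symm⟩) _ (PiNat.isOpen_cylinder _ w (j + 2)) (PiNat.self_mem_cylinder _ _)
    obtain ⟨n, hn, θ, rfl⟩ := mem_iUnion₂.1 b
    replace a := PiNat.mem_cylinder_iff.1 a
    rw [← a i (by omega), ← a (i + 1) (by omega), ← a j (by omega), ← a (j + 1) (by omega)]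
    have n0 : j < n := hn
    have m := fun a b (h : a ≤ b) => Nat.log_mono_right (b := 4) h
    have := Nat.log_mul_base (b := 4) (n := n) (by norm_num) (by omega)
    have := m n (i + n) (by omega)
    have := m (i + n) (i + 1 + n) (by omega)
    have := m (i + 1 + n) (j + n) (by omega)
    have := m (j + n) (j + 1 + n) (by omega)
    have := m (j + 1 + n) (n * 4) (by omega)
    simp only [zs, xs]
    rcases (by omega : Nat.log 4 (i + n) = Nat.log 4 (i + 1 + n) ∨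
      Nat.log 4 (j + n) = Nat.log 4 (j + 1 + n)) with e | e <;> simp [e]
  obtain ⟨N, hN⟩ : ∃ N, ∀ j, N ≤ j → (w j).1 = (w (j + 1)).1 := by
    by_cases c : ∃ i, (w i).1 ≠ (w (i + 1)).1
    · obtain ⟨i, hi⟩ := c
      exact ⟨i + 1, fun j hj => (k i j hj).resolve_left hi⟩
    · exact ⟨0, fun j _ => by_contra fun q => c ⟨j, q⟩⟩
  exact ⟨(w N).1, (eventually_ge_atTop N).mono fun j hj => Nat.le_induction rfl
    (fun j a b => (hN j a).symm.trans b) j hj⟩

theorem dc25 : ∃ (D : Type) (_ : MetricSpace D) (F : D → D), Dendrite D ∧ Continuous F ∧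
    (∃ S : Set D, ¬ S.Countable ∧ S.Pairwise (DC25 F)) ∧ ∀ p q, ¬ DC2 F p q := by
  have mem : ∀ θ n, zs θ n ∈ closure (⋃ n, range (zs · n)) := fun θ n =>
    subset_closure (mem_iUnion.2 ⟨n, θ, rfl⟩)
  obtain ⟨D, _, F, e, a, b, c, d, g⟩ := tree2 (m := fun i => i + 1) isClosed_closure ⟨_, mem default 0⟩
    (MapsTo.closure (fun z hz => by
      obtain ⟨n, θ, rfl⟩ := mem_iUnion.1 hz
      exact mem_iUnion.2 ⟨n + 1, θ, funext fun i => by simp [T, zs, add_assoc, add_comm 1 n]⟩)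
      (by unfold T; fun_prop))
  haveI := a.cpt
  have p4 : ∀ k, k < 4 ^ k := fun k => Nat.lt_pow_self (by norm_num)
  refine ⟨D, _, F, a, b, ?_, fun p q => ?_⟩
  · let f : (ℕ → Bool) → D := fun η => e ⟨_, mem (fun j => j.casesOn false η) 0⟩
    have key : ∀ η η', η ≠ η' → DC25 F (f η) (f η') := fun η η' ne => by
      obtain ⟨j, hj⟩ := Function.ne_iff.1 ne
      have far : ∀ k i, padicValNat 2 (k + 1) = j + 1 → 4 ^ k ≤ i → i < 4 * 4 ^ k →
          ¬ near F (f η) (f η') 2 i := fun k i h l l' => (c _ _ i (by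
        simpa only [zs, add_zero, xs_eq _ l l', h] using hj)).not_gt
      refine ⟨fun q => ?_, _, _, Φ_mono.tendsto_nhdsGT 0, Φs_mono.tendsto_nhdsGT 0, lt_of_le_of_lt
        ((sInf_le (mem_image_of_mem _ (mem_Ioi.2 two_pos))).trans (Φ_le (c := 1 / 3) fun N => ?_))
        ((EReal.coe_lt_coe_iff.2 (by norm_num : _ < (2 / 3 : ℝ))).trans_le
          (le_sInf (forall_mem_image.2 fun δ hδ => le_Φs fun N => ?_)))⟩
      · obtain ⟨k, -, -, h⟩ := syn (j + 1) 0
        exact far k _ h le_rfl (by linarith [p4 k]) (by simp [near, q])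
      · obtain ⟨k, k1, -, h⟩ := syn (j + 1) (N + 3)
        have := p4 k
        have i := le_cnt (n := 4 * 4 ^ k) (fun i => far k i h) (by omega)
        have j := cnt_add (near F (f η) (f η') 2) (4 * 4 ^ k)
        have : 3 * (cnt (near F (f η) (f η') 2) (4 * 4 ^ k) : ℝ) ≤ (4 * 4 ^ k : ℕ) := by
          exact_mod_cast (by omega)
        exact ⟨4 * 4 ^ k, by omega, by linarith⟩
      · obtain ⟨L, hL⟩ := exists_pow_lt_of_lt_one (half_pos hδ) (by norm_num : (1 / 2 : ℝ) < 1)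
        obtain ⟨k, k1, -, h⟩ := syn 0 (N + 3 * L)
        have := p4 k
        have i := le_cnt (P := near F (f η) (f η') δ) (a := 4 ^ k) (b := 4 * 4 ^ k - L) (n := 4 * 4 ^ k)
          (fun i l l' => by
            refine lt_of_le_of_lt (d _ _ i L fun t ht => ⟨?_, by simp [zs]⟩) (by linarith)
            simp only [zs, add_zero, xs_eq (k := k) (n := t + i) _ (by omega) (by omega), h]
            rfl)
          (by omega)
        have : 2 * ((4 * 4 ^ k : ℕ) : ℝ) ≤ 3 * cnt (near F (f η) (f η') δ) (4 * 4 ^ k) := by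
          exact_mod_cast (by omega)
        exact ⟨4 * 4 ^ k, by omega, by linarith⟩
    exact ⟨range f, unc fun η η' h => by_contra fun n => (key _ _ n).1 h, by
      rintro _ ⟨η, rfl⟩ _ ⟨η', rfl⟩ n
      exact key _ _ fun h => n (h ▸ rfl)⟩
  refine (g p q).elim ?_ fun h => h.elim Asy.dc2 Far.dc2
  rintro ⟨x, y, rfl, rfl, h, h'⟩
  obtain ⟨θ, θ', n, H⟩ : ∃ θ θ' n, ∀ᶠ k in atTop,
      (x.1 k).1 = xs θ (k + n) ∧ (y.1 k).1 = xs θ' (k + n) := by
    rcases char x.2 with ⟨θ, n, u⟩ | ⟨b, u⟩ <;> rcases char y.2 with ⟨θ', n', v⟩ | ⟨b', v⟩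
    · have := h (n + n')
      simp only [u, v, zs, ZMod.natCast_eq_natCast_iff'] at this
      rw [Nat.mod_eq_of_lt (by omega), Nat.mod_eq_of_lt (by omega)] at this
      exact ⟨θ, θ', n, .of_forall fun k => by simp [u, v, zs, this]⟩
    · exact ⟨θ, fun _ => b', n, v.mono fun k v => by simp [u, v, zs, xs]⟩
    · exact ⟨fun _ => b, θ', n', u.mono fun k u => by simp [u, v, zs, xs]⟩
    · exact ⟨fun _ => b, fun _ => b', 0, u.and v⟩
  obtain ⟨j, hj⟩ := Function.ne_iff.1 (show θ ≠ θ' from fun q => h' (H.mono fun k l => by rw [l.1, l.2, q]))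
  obtain ⟨N, hN⟩ := eventually_atTop.1 H
  refine not_dc2 two_pos (η := 1 / 4 ^ (2 ^ (j + 1) + 1)) (by positivity)
    ((eventually_ge_atTop (4 ^ (2 ^ (j + 1) + N + n))).mono fun M hM => ?_)
  have l1 := Nat.le_log_of_pow_le (by norm_num) hM
  have l2 := Nat.lt_pow_succ_log_self (b := 4) (by norm_num) M
  have l3 := Nat.pow_log_le_self 4 (x := M) ((by positivity : 0 < 4 ^ _).trans_le hM).ne'
  generalize Nat.log 4 M = K at *
  obtain ⟨k, k1, k2, h⟩ := syn j (K - 2 ^ (j + 1))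
  have := p4 k
  have l4 : 4 * 4 ^ k ≤ 4 ^ K := by rw [← pow_succ']; exact Nat.pow_le_pow_right (by norm_num) (by omega)
  have i := le_cnt (P := fun k => ¬ near F (e x) (e y) 2 k) (a := 4 ^ k) (b := 2 * 4 ^ k) (n := M)
    (fun i l l' => (c _ _ i (by
      rwa [(hN i (by omega)).1, (hN i (by omega)).2, xs_eq (k := k) _ (by omega) (by omega),
        xs_eq (k := k) _ (by omega) (by omega), h])).not_gt) (by omega)
  have l5 : 4 ^ K.succ ≤ 4 ^ k * 4 ^ (2 ^ (j + 1) + 1) := by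
    rw [← pow_add]; exact Nat.pow_le_pow_right (by norm_num) (by omega)
  rw [one_div_mul_eq_div, div_le_iff₀ (by positivity)]
  exact_mod_cast (l2.le.trans l5).trans (Nat.mul_le_mul_right _ (by omega))

end Pool.Agent.H43.Den
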