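import Pool.Agent.H43.Den2

open Set Filter Topology Metric

namespace Pool.Agent.H43.Den

def pp : ℕ → ℕ
  | 0 => 1
  | j + 1 => 2 ^ (j + 5) * pp j

lemma pp_pos (j : ℕ) : 0 < pp j := by induction j <;> simp [pp, *]

instance (j : ℕ) : NeZero (pp j) := ⟨(pp_pos j).ne'⟩

lemma pp_ge (j : ℕ) : 32 * pp j ≤ pp (j + 1) :=
  Nat.mul_le_mul_right _ (Nat.pow_le_pow_right (n := 2) (by norm_num) (by omega : 5 ≤ j + 5))

lemma pp_dvd {i j : ℕ} (h : i ≤ j) : pp i ∣ pp j :=
  Nat.le_induction dvd_rfl (fun _ _ b => b.mul_left _) j h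

lemma lt_pp (j : ℕ) : j < pp j := by
  induction j with
  | zero => simp [pp]
  | succ j ih => have := pp_ge j; omega

def χ (j : ℕ) (y : ZMod (pp (j + 1))) : ZMod 2 := if (y + (3 * pp j : ℕ)).val < 2 * pp j then 1 else 0

def A (θ : ℕ → ZMod 2) (j : ℕ) : ℕ := ∑ i ∈ Finset.range j, 2 * (θ i).val * pp i

lemma A_le (θ : ℕ → ZMod 2) (j : ℕ) : A θ j ≤ pp j := by
  induction j with
  | zero => simp [A]
  | succ j ih =>
    have := pp_ge j
    have := Nat.mul_le_mul_right (pp j) (Nat.lt_succ_iff.1 (θ j).val_lt)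
    rw [A, Finset.sum_range_succ, ← A, mul_assoc]; omega

lemma A_cast (θ : ℕ → ZMod 2) {i j : ℕ} (h : i ≤ j) : (A θ j : ZMod (pp i)) = A θ i :=
  Nat.le_induction rfl (fun j a b => by
    rw [A, Finset.sum_range_succ, ← A, Nat.cast_add, b, Nat.cast_mul,
      (ZMod.natCast_eq_zero_iff _ _).2 (pp_dvd a), mul_zero, add_zero]) j h

lemma L1 {j : ℕ} {y : ZMod (pp (j + 1))} (h : χ j (y + 1) ≠ χ j y) :
    y + 1 + (3 * pp j : ℕ) = 0 ∨ y + 1 + (pp j : ℕ) = 0 := by
  have := pp_ge j; have := pp_pos j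
  haveI : Fact (1 < pp (j + 1)) := ⟨by omega⟩
  have e : (y + 1 + (3 * pp j : ℕ)).val = ((y + (3 * pp j : ℕ)).val + 1) % pp (j + 1) := by
    rw [add_right_comm, ZMod.val_add, ZMod.val_one]
  rcases (Nat.succ_le_of_lt (y + (3 * pp j : ℕ)).val_lt).eq_or_lt with l | l
  · exact Or.inl ((ZMod.val_eq_zero _).1 (by rw [e, ← Nat.succ_eq_add_one, l, Nat.mod_self]))
  · rw [Nat.mod_eq_of_lt l] at e
    have : (y + 1 + (3 * pp j : ℕ)).val = 2 * pp j := by
      unfold χ at h; split_ifs at h <;> first | omega | exact absurd rfl h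
    have := congrArg (Nat.cast (R := ZMod (pp (j + 1)))) this
    rw [ZMod.natCast_zmod_val] at this
    push_cast at this
    exact Or.inr (by linear_combination this)

lemma L2 (θ : ℕ → ZMod 2) {j k : ℕ} (h : k < pp j) : χ j (-(A θ (j + 1) : ℕ) + k) = θ j := by
  have := pp_ge j; have := A_le θ j
  have e : A θ (j + 1) = A θ j + 2 * (θ j).val * pp j := Finset.sum_range_succ _ _
  have v : ∀ a : ℕ, a ≤ 3 * pp j → (-(a : ZMod (pp (j + 1))) + k + (3 * pp j : ℕ)).val =
      k + 3 * pp j - a := fun a l => by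
    rw [← ZMod.val_cast_of_lt (show k + 3 * pp j - a < pp (j + 1) by omega), Nat.cast_sub (by omega)]
    congr 1; push_cast; ring
  have d : ∀ t : ZMod 2, (t = 0 ∧ t.val = 0) ∨ (t = 1 ∧ t.val = 1) := by decide
  rcases d (θ j) with ⟨a, b⟩ | ⟨a, b⟩ <;> rw [b] at e <;> rw [χ, v _ (by omega), a]
  exacts [if_neg (by omega), if_pos (by omega)]

def ws (θ : ℕ → ZMod 2) (k : ℕ) : ZMod 2 :=
  ∑ j ∈ Finset.range k, (χ j (-(A θ (j + 1) : ℕ) + k) - θ j)

lemma ws_eq (θ : ℕ → ZMod 2) {k N : ℕ} (h : k < pp N) :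
    ws θ k = ∑ j ∈ Finset.range N, (χ j (-(A θ (j + 1) : ℕ) + k) - θ j) := by
  have : ∀ N, k < pp N → ∑ j ∈ Finset.range N, (χ j (-(A θ (j + 1) : ℕ) + k) - θ j) =
      ∑ j ∈ Finset.range (N + k + N), (χ j (-(A θ (j + 1) : ℕ) + k) - θ j) ∧ ∀ M, N ≤ M →
      ∑ j ∈ Finset.range N, (χ j (-(A θ (j + 1) : ℕ) + k) - θ j) =
      ∑ j ∈ Finset.range M, (χ j (-(A θ (j + 1) : ℕ) + k) - θ j) := fun N h => by
    refine (and_iff_right_of_imp fun h => h _ (by omega)).2 fun M l => Finset.sum_subset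
      (Finset.range_subset_range.2 l) fun j _ hj => ?_
    rw [L2 θ (h.trans_le (Nat.le_of_dvd (pp_pos _) (pp_dvd (by simpa using hj)))), sub_self]
  exact ((this k (lt_pp k)).2 (N + k) (by omega)).trans ((this N h).2 _ (by omega)).symm

def zz (θ : ℕ → ZMod 2) (i : ℕ) : ZMod 2 × ZMod (pp i) := (ws θ i, -(A θ i : ℕ))

def XX : Set (∀ i, ZMod 2 × ZMod (pp i)) := {z | ∀ k J : ℕ, (z J).2 + k + 1 ≠ 0 →
  (z (k + 1)).1 - (z k).1 =
    ∑ j ∈ Finset.range J, (χ j ((z (j + 1)).2 + k + 1) - χ j ((z (j + 1)).2 + k))}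

lemma zz_mem (θ : ℕ → ZMod 2) : zz θ ∈ XX := fun k J h => by
  have := lt_pp (J + k + 1)
  simp only [zz] at h ⊢
  rw [ws_eq θ (N := J + k + 1) (by omega), ws_eq θ (N := J + k + 1) (by omega),
    ← Finset.sum_sub_distrib]
  simp only [sub_sub_sub_cancel_right, Nat.cast_add, Nat.cast_one, ← add_assoc]
  refine (Finset.sum_subset (Finset.range_subset_range.2 (by omega)) fun j _ hj =>
    sub_eq_zero.2 (by_contra fun q => h ?_)).symm
  have l : J ≤ j := by simpa using hj
  have z := (ZMod.natCast_eq_zero_iff _ _).2 (pp_dvd l)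
  rcases L1 q with q | q <;>
    simpa [A_cast θ (l.trans j.le_succ), z, -ZMod.castHom_apply] using
      congrArg (ZMod.castHom (pp_dvd (l.trans j.le_succ)) (ZMod (pp J))) q

lemma bad (θ : ℕ → ZMod 2) (n : ℕ) : 8 * ((Finset.range (pp n)).filter fun k : ℕ =>
    ∃ j < n, χ j (-(A θ (j + 1) : ℕ) + k) ≠ 0).card ≤ pp n := by
  have a : ∀ j ∈ Finset.range n, (((Finset.range (pp n)).filter fun k : ℕ =>
      χ j (-(A θ (j + 1) : ℕ) + k) ≠ 0).card : ℝ) ≤ pp n / 16 * (1 / 2) ^ j := fun j hj => by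
    obtain ⟨c, hc⟩ := pp_dvd (Nat.succ_le_of_lt (Finset.mem_range.1 hj))
    have := Finset.card_le_card_of_injOn (s := (Finset.range (pp n)).filter fun k : ℕ =>
      χ j (-(A θ (j + 1) : ℕ) + k) ≠ 0) (t := Finset.range c ×ˢ Finset.range (2 * pp j))
      (fun k : ℕ => (k / pp (j + 1), (-(A θ (j + 1) : ZMod (pp (j + 1))) + k + (3 * pp j : ℕ)).val))
      (fun k hk => by
        simp only [Finset.coe_filter, Finset.mem_range, mem_ofPred_eq, χ, ne_eq, ite_eq_right_iff,
          not_forall, hc] at hk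
        simpa using ⟨Nat.div_lt_of_lt_mul hk.1, by simpa using hk.2.1⟩)
      fun k _ l _ e => by
        obtain ⟨e1, e2⟩ := Prod.ext_iff.1 e
        have := ZMod.val_injective _ e2
        simp only [add_left_inj, add_right_inj, ZMod.natCast_eq_natCast_iff'] at this e1
        rw [← Nat.div_add_mod k (pp (j + 1)), e1, this, Nat.div_add_mod]
    refine (Nat.cast_le.2 this).trans (le_of_eq ?_)
    rw [hc, pp]; simp; field_simp; ring
  have b := (Nat.cast_le (α := ℝ)).2 (Finset.card_biUnion_le (s := Finset.range n)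
    (t := fun j => (Finset.range (pp n)).filter fun k : ℕ => χ j (-(A θ (j + 1) : ℕ) + k) ≠ 0))
  push_cast at b
  have c := Finset.sum_le_sum a
  rw [← Finset.mul_sum] at c
  have d := mul_le_mul_of_nonneg_left (sum_geometric_two_le n) (by positivity : (0 : ℝ) ≤ pp n / 16)
  have e := (Nat.cast_le (α := ℝ)).2 (Finset.card_le_card (s := (Finset.range (pp n)).filter
    fun k : ℕ => ∃ j < n, χ j (-(A θ (j + 1) : ℕ) + k) ≠ 0) (t := (Finset.range n).biUnion fun j =>
      (Finset.range (pp n)).filter fun k : ℕ => χ j (-(A θ (j + 1) : ℕ) + k) ≠ 0) fun k hk => by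
    simp only [Finset.mem_filter, Finset.mem_biUnion, Finset.mem_range] at hk ⊢; tauto)
  refine (Nat.cast_le (α := ℝ)).1 ?_
  rw [Nat.cast_mul, Nat.cast_ofNat]
  linarith

lemma good (s s' : ℕ → ZMod 2) (h : s 0 = 0) (h' : s' 0 = 0) (n : ℕ) :
    3 * pp n ≤ 4 * cnt (fun k => ws (fun j => s (j + 1) - s j) k = -s n ∧
      ws (fun j => s' (j + 1) - s' j) k = -s' n) (pp n) := by
  classical
  have g : ∀ s : ℕ → ZMod 2, s 0 = 0 → ∀ k < pp n, (¬ ∃ j < n,
      χ j (-(A (fun j => s (j + 1) - s j) (j + 1) : ℕ) + k) ≠ 0) →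
      ws (fun j => s (j + 1) - s j) k = -s n := fun s h k hk q => by
    push Not at q
    rw [ws_eq _ hk, Finset.sum_sub_distrib, Finset.sum_range_sub, h,
      Finset.sum_eq_zero fun j hj => q j (Finset.mem_range.1 hj)]
    simp
  have a := bad (fun j => s (j + 1) - s j) n
  have b := bad (fun j => s' (j + 1) - s' j) n
  obtain ⟨P, hP, e⟩ : ∃ P : Finset ℕ, (∀ k, k ∈ P ↔ k < pp n + 1 ∧ ws (fun j => s (j + 1) - s j) k = -s n ∧
      ws (fun j => s' (j + 1) - s' j) k = -s' n) ∧ cnt (fun k => ws (fun j => s (j + 1) - s j) k = -s n ∧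
      ws (fun j => s' (j + 1) - s' j) k = -s' n) (pp n) = P.card := ⟨_, by simp, rfl⟩
  have := Finset.card_le_card (s := Finset.range (pp n)) (t := (P ∪
    (Finset.range (pp n)).filter fun k : ℕ => ∃ j < n,
      χ j (-(A (fun j => s (j + 1) - s j) (j + 1) : ℕ) + k) ≠ 0) ∪
    (Finset.range (pp n)).filter fun k : ℕ => ∃ j < n,
      χ j (-(A (fun j => s' (j + 1) - s' j) (j + 1) : ℕ) + k) ≠ 0) fun k hk => by
    simp only [hP, Finset.mem_union, Finset.mem_filter, Finset.mem_range] at hk ⊢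
    have := g s h k hk; have := g s' h' k hk; have := Nat.lt_succ_of_lt hk
    tauto
  replace this := this.trans ((Finset.card_union_le _ _).trans
    (Nat.add_le_add_right (Finset.card_union_le _ _) _))
  rw [Finset.card_range] at this
  omega

theorem dc3 : ∃ (D : Type) (_ : MetricSpace D) (F : D → D), Dendrite D ∧ Continuous F ∧
    (∃ S : Set D, ¬ S.Countable ∧ S.Pairwise (DC3 F)) ∧ ∀ p q, ¬ LY F p q := by
  obtain ⟨D, _, F, e, a, b, c, d, g⟩ := tree2 (X := XX) (by
    simp only [XX, ofPred_forall]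
    refine isClosed_iInter fun k => isClosed_iInter fun J => ?_
    have : ∀ j, Continuous (χ j) := fun j => continuous_of_discreteTopology
    exact isClosed_imp (isOpen_ne_fun (by fun_prop) (by fun_prop)) (isClosed_eq (by fun_prop) (by fun_prop)))
    ⟨_, zz_mem 0⟩ fun z hz k J h => by
      have e : ∀ j, (z j).2 + ((k + 1 : ℕ) : ZMod (pp j)) = (z j).2 + 1 + k := fun j => by
        push_cast; ring
      simpa only [e, T] using hz (k + 1) J (by rwa [e])
  haveI := a.cpt
  refine ⟨D, _, F, a, b, ?_, fun p q => ?_⟩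
  · let s : (ℕ → ZMod 2) → ℕ → ZMod 2 := fun η n => n.unpair.1.casesOn 0 η
    let f : (ℕ → ZMod 2) → D := fun η => e ⟨_, zz_mem fun j => s η (j + 1) - s η j⟩
    have key : ∀ η η', η ≠ η' → DC3 F (f η) (f η') := fun η η' ne => by
      obtain ⟨j, hj⟩ := Function.ne_iff.1 ne
      have G := good (s η) (s η') (by simp [s]) (by simp [s])
      have far : ∀ l k, ws (fun j => s η (j + 1) - s η j) k = -s η (Nat.pair (j + 1) l) ∧
          ws (fun j => s η' (j + 1) - s η' j) k = -s η' (Nat.pair (j + 1) l) →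
          2 ≤ dist (F^[k] (f η)) (F^[k] (f η')) := fun l k h => c _ _ k (by
        simp only [zz, h.1, h.2]; simpa [s] using hj)
      obtain ⟨k, hk⟩ : ∃ k, 2 ≤ dist (F^[k] (f η)) (F^[k] (f η')) := by
        by_contra q
        have := cnt_mono (Q := fun _ => False) (fun k h => q ⟨k, far 0 k h⟩) (pp (Nat.pair (j + 1) 0))
        have := G (Nat.pair (j + 1) 0)
        have := pp_pos (Nat.pair (j + 1) 0)
        have : cnt (fun _ => False) (pp (Nat.pair (j + 1) 0)) = 0 := by simp [cnt]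
        omega
      refine ⟨fun q => by norm_num [q] at hk, 1, 2, one_pos.le, one_lt_two, hk.trans
        (dist_le_diam_of_mem isCompact_univ.isBounded trivial trivial), fun δ hδ => lt_of_le_of_lt
        (Φ_le (c := 1 / 2) fun N => ?_) ((EReal.coe_lt_coe_iff.2 (by norm_num : _ < (3 / 4 : ℝ))).trans_le
          (le_Φs fun N => ?_))⟩
      · have := Nat.right_le_pair (j + 1) (N + 4)
        have i := cnt_mono (Q := fun k => ¬ near F (f η) (f η') δ k)
          (fun k h => (hδ.2.le.trans (far (N + 4) k h)).not_gt) (pp (Nat.pair (j + 1) (N + 4)))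
        have := G (Nat.pair (j + 1) (N + 4))
        generalize Nat.pair (j + 1) (N + 4) = n at *
        have := cnt_add (near F (f η) (f η') δ) (pp n)
        have := lt_pp n
        have : 2 * (cnt (near F (f η) (f η') δ) (pp n) : ℝ) ≤ pp n := by exact_mod_cast (by omega)
        exact ⟨pp n, by omega, by linarith⟩
      · have := Nat.right_le_pair 0 N
        have i := cnt_mono (Q := near F (f η) (f η') δ) (fun k (h : ws (fun j => s η (j + 1) - s η j) k =
          -s η (Nat.pair 0 N) ∧ ws (fun j => s η' (j + 1) - s η' j) k = -s η' (Nat.pair 0 N)) => by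
            refine lt_of_le_of_lt (d _ _ k 1 fun t ht => ?_) (by linarith [hδ.1])
            obtain rfl : t = 0 := by omega
            exact ⟨by simp only [zz, zero_add, h.1, h.2]; simp [s],
              Subsingleton.elim (α := ZMod 1) _ _⟩) (pp (Nat.pair 0 N))
        have := G (Nat.pair 0 N)
        generalize Nat.pair 0 N = n at *
        have := lt_pp n
        have : 3 * (pp n : ℝ) ≤ 4 * cnt (near F (f η) (f η') δ) (pp n) := by exact_mod_cast (by omega)
        exact ⟨pp n, by omega, by linarith⟩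
    exact ⟨range f, unc fun η η' h => by_contra fun n => (key _ _ n).1 h, by
      rintro _ ⟨η, rfl⟩ _ ⟨η', rfl⟩ n
      exact key _ _ fun h => n (h ▸ rfl)⟩
  refine (g p q).elim ?_ fun h => h.elim Asy.ly Far.ly
  rintro ⟨x, y, rfl, rfl, h, h'⟩
  obtain ⟨N, hN⟩ : ∃ N, ∀ k : ℕ, N ≤ k → ∃ J, (x.1 J).2 + k + 1 ≠ 0 := by
    by_cases q : ∃ k : ℕ, ∀ J, (x.1 J).2 + k + 1 = 0
    · obtain ⟨i, hi⟩ := q
      refine ⟨i + 1, fun k hk => ⟨k, fun e => ?_⟩⟩
      have := (ZMod.natCast_eq_natCast_iff' _ _ _).1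
        (add_left_cancel (add_right_cancel (e.trans (hi k).symm)))
      have l := lt_pp k
      rw [Nat.mod_eq_of_lt l, Nat.mod_eq_of_lt (by omega)] at this; omega
    · exact ⟨0, fun k _ => not_forall.1 fun l => q ⟨k, l⟩⟩
  have : ∀ k, N ≤ k → (x.1 k).1 - (y.1 k).1 = (x.1 N).1 - (y.1 N).1 := fun k hk =>
    Nat.le_induction rfl (fun k a b => by
      obtain ⟨J, hJ⟩ := hN k a
      have u := x.2 k J hJ
      have v := y.2 k J (h J ▸ hJ)
      simp only [← h] at v
      linear_combination b + u - v) k hk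
  refine Far.ly ⟨2, two_pos, (eventually_ge_atTop N).mono fun k hk => c _ _ k fun q =>
    h' ((eventually_ge_atTop N).mono fun l hl => ?_)⟩
  rw [← sub_eq_zero, this l hl, ← this k hk, q, sub_self]

end Pool.Agent.H43.Den
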