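import Mathlib

open Set Filter Topology

namespace Pool.Agent.H43.Den

variable {X : Type} [MetricSpace X]

/-- a compact connected locally connected metric space with no subset homeomorphic to a circle -/
structure Dendrite (X : Type) [MetricSpace X] : Prop where
  cpt : CompactSpace X
  con : ConnectedSpace X
  loc : LocallyConnectedSpace X
  noc : ∀ s : Set X, IsEmpty (s ≃ₜ Circle)

open Classical in
/-- `(1/n) #{0 ≤ k ≤ n : d(f^k x, f^k y) < δ}` -/
noncomputable def fr (f : X → X) (x y : X) (δ : ℝ) (n : ℕ) : EReal :=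
  ((((Finset.range (n + 1)).filter fun k => dist (f^[k] x) (f^[k] y) < δ).card / n : ℝ) : EReal)

/-- lower distribution function -/
noncomputable def Φ (f : X → X) (x y : X) (δ : ℝ) : EReal := liminf (fr f x y δ) atTop

/-- upper distribution function -/
noncomputable def Φs (f : X → X) (x y : X) (δ : ℝ) : EReal := limsup (fr f x y δ) atTop

def DC2 (f : X → X) (x y : X) : Prop :=
  x ≠ y ∧ (∀ δ, 0 < δ → δ ≤ Metric.diam (univ : Set X) → Φs f x y δ = 1) ∧
    ∃ ε, 0 < ε ∧ ε ≤ Metric.diam (univ : Set X) ∧ Φ f x y ε < 1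

def DC25 (f : X → X) (x y : X) : Prop :=
  x ≠ y ∧ ∃ a b, Tendsto (Φ f x y) (𝓝[>] 0) (𝓝 a) ∧ Tendsto (Φs f x y) (𝓝[>] 0) (𝓝 b) ∧ a < b

def DC3 (f : X → X) (x y : X) : Prop :=
  x ≠ y ∧ ∃ a b, 0 ≤ a ∧ a < b ∧ b ≤ Metric.diam (univ : Set X) ∧
    ∀ δ ∈ Ioo a b, Φ f x y δ < Φs f x y δ

def LY (f : X → X) (x y : X) : Prop :=
  x ≠ y ∧ liminf (fun k : ℕ => ((dist (f^[k] x) (f^[k] y) : ℝ) : EReal)) atTop = 0 ∧
    0 < limsup (fun k : ℕ => ((dist (f^[k] x) (f^[k] y) : ℝ) : EReal)) atTop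

end Pool.Agent.H43.Den
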