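import Mathlib

open Finset Filter Topology

namespace Pool.Agent.H43.Dick

/-- discrete Dickman function with mesh `1 / M` -/
noncomputable def r (M : ℕ) : ℕ → ℝ
  | 0 => 1
  | m + 1 => if m + 1 ≤ M then 1 else r M m - r M (m - M) / (m + 1)

lemma r_one {M m : ℕ} (h : m ≤ M) : r M m = 1 := by
  cases m with
  | zero => simp [r]
  | succ m => rw [r, if_pos h]

lemma r_succ {M m : ℕ} (h : M ≤ m) : r M (m + 1) = r M m - r M (m - M) / (m + 1) := by
  rw [r, if_neg (by omega)]

lemma r_id {M m : ℕ} (h : M ≤ m) : m * r M m = ∑ j ∈ range M, r M (m - 1 - j) := by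
  induction m, h using Nat.le_induction with
  | base =>
    rw [r_one le_rfl, sum_congr rfl fun j _ => r_one (M := M) (m := M - 1 - j) (by omega)]; simp
  | succ m h ih =>
    have e1 := sum_range_succ (fun j => r M (m - j)) M
    have e2 := sum_range_succ' (fun j => r M (m - j)) M
    have e3 : ∑ j ∈ range M, r M (m - (j + 1)) = ∑ j ∈ range M, r M (m - 1 - j) :=
      sum_congr rfl fun j _ => by congr 1; omega
    rw [r_succ h]
    simp only [Nat.add_sub_cancel, Nat.sub_zero] at e2 ⊢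
    push_cast
    have : ((m : ℝ) + 1) * (r M m - r M (m - M) / (m + 1)) = (m + 1) * r M m - r M (m - M) := by
      field_simp
    linarith

lemma r_nn (M m : ℕ) : 0 ≤ r M m := by
  induction m using Nat.strong_induction_on with
  | _ m ih =>
    rcases le_or_gt m M with h | h
    · rw [r_one h]; norm_num
    have h1 : 0 ≤ m * r M m := by
      rw [r_id h.le]; exact sum_nonneg fun j _ => ih _ (by omega)
    exact nonneg_of_mul_nonneg_right (by rwa [mul_comm] at h1)
      (by exact_mod_cast (show 0 < m by omega)) |> fun h => h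

lemma r_anti (M : ℕ) : Antitone (r M) := antitone_nat_of_succ_le fun m => by
  rcases le_or_gt M m with h | h
  · rw [r_succ h]; have := r_nn M (m - M)
    have : 0 ≤ r M (m - M) / (m + 1) := by positivity
    linarith
  · rw [r_one h, r_one h.le]

lemma r_lohi {M A B : ℕ} (h : M ≤ A) (hAB : A ≤ B) :
    ((B : ℝ) - A) * r M (B - M) ≤ B * (r M A - r M B) ∧
      A * (r M A - r M B) ≤ ((B : ℝ) - A) * r M (A - M) := by
  induction B, hAB using Nat.le_induction with
  | base => simp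
  | succ B hB ih =>
    rw [r_succ (h.trans hB)]
    have a1 := r_anti M (show B - M ≤ B + 1 - M by omega)
    have a2 := r_anti M (show A - M ≤ B - M by omega)
    have a3 := r_anti M hB
    have a4 := r_nn M (B - M)
    have b1 : (A : ℝ) ≤ B := by exact_mod_cast hB
    have b2 : (0 : ℝ) ≤ A := Nat.cast_nonneg _
    have e : ((B : ℝ) + 1) * (r M (B - M) / (B + 1)) = r M (B - M) := by field_simp
    have e2 : 0 ≤ r M (B - M) / (B + 1) := by positivity
    push_cast
    constructor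
    · nlinarith [ih.1]
    · nlinarith [ih.2]

lemma r_dec {M m : ℕ} (h : M ≤ m) : m * r M m ≤ M * r M (m - M) := by
  rw [r_id h]
  have := sum_le_card_nsmul (range M) (fun j => r M (m - 1 - j)) (r M (m - M))
    fun j hj => r_anti M (by have := mem_range.1 hj; omega)
  simpa using this

structure Dk (ρ : ℝ → ℝ) : Prop where
  one : ∀ u ≤ 1, ρ u = 1
  nn : ∀ u, 0 ≤ ρ u
  anti : Antitone ρ
  lo : ∀ a b, 1 ≤ a → a ≤ b → (b - a) * ρ (b - 1) ≤ b * (ρ a - ρ b)
  hi : ∀ a b, 1 ≤ a → a ≤ b → a * (ρ a - ρ b) ≤ (b - a) * ρ (a - 1)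
  dec : ∀ u, 1 ≤ u → u * ρ u ≤ ρ (u - 1)

theorem exists_dk : ∃ ρ, Dk ρ := by
  have h : ∀ u : ℝ, ∃ x, Tendsto (fun M : ℕ => r M ⌊u * M⌋₊) (hyperfilter ℕ) (𝓝 x) := fun u => by
    obtain ⟨x, -, hx⟩ := (isCompact_Icc (a := (0 : ℝ)) (b := 1)).ultrafilter_le_nhds
      ((hyperfilter ℕ).map fun M : ℕ => r M ⌊u * M⌋₊) (le_principal_iff.2 (by
        refine mem_map.2 (univ_mem' fun M => ⟨r_nn _ _, ?_⟩)
        exact (r_anti M (Nat.zero_le _)).trans_eq (r_one (Nat.zero_le _))))
    exact ⟨x, hx⟩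
  choose ρ hρ using h
  have fl : ∀ {u : ℝ}, 0 ≤ u → Tendsto (fun M : ℕ => (⌊u * M⌋₊ : ℝ) / M) (hyperfilter ℕ) (𝓝 u) :=
    fun hu => ((tendsto_nat_floor_mul_div_atTop hu).comp tendsto_natCast_atTop_atTop).mono_left
      Nat.hyperfilter_le_atTop
  have sh : ∀ (u : ℝ) (M : ℕ), ⌊(u - 1) * M⌋₊ = ⌊u * M⌋₊ - M := fun u M => by
    rw [sub_mul, one_mul, Nat.floor_sub_natCast]
  have mo : ∀ {a b : ℝ} (M : ℕ), a ≤ b → ⌊a * M⌋₊ ≤ ⌊b * M⌋₊ := fun M h =>
    Nat.floor_mono (mul_le_mul_of_nonneg_right h (Nat.cast_nonneg _))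
  have ge : ∀ {a : ℝ} (M : ℕ), 1 ≤ a → M ≤ ⌊a * M⌋₊ := fun M h => by simpa using mo M h
  refine ⟨ρ, fun u hu => ?_, fun u => ge_of_tendsto' (hρ u) fun M => r_nn _ _,
    fun a b h => le_of_tendsto_of_tendsto' (hρ b) (hρ a) fun M => r_anti M (mo M h),
    fun a b ha h => ?_, fun a b ha h => ?_, fun u hu => ?_⟩
  · refine tendsto_nhds_unique (hρ u) (tendsto_const_nhds.congr fun M => (r_one ?_).symm)
    simpa using mo M hu
  · refine le_of_tendsto_of_tendsto' (((fl (by linarith)).sub (fl (by linarith))).mul (hρ _))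
      ((fl (by linarith)).mul ((hρ a).sub (hρ b))) fun M => ?_
    have := div_le_div_of_nonneg_right (r_lohi (ge M ha) (mo M h)).1 (Nat.cast_nonneg (α := ℝ) M)
    rw [sh]; refine le_of_eq_of_le ?_ (this.trans_eq ?_) <;> ring
  · refine le_of_tendsto_of_tendsto' ((fl (by linarith)).mul ((hρ a).sub (hρ b)))
      (((fl (by linarith)).sub (fl (by linarith))).mul (hρ _)) fun M => ?_
    have := div_le_div_of_nonneg_right (r_lohi (ge M ha) (mo M h)).2 (Nat.cast_nonneg (α := ℝ) M)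
    rw [sh]; refine le_of_eq_of_le ?_ (this.trans_eq ?_) <;> ring
  · refine le_of_tendsto_of_tendsto ((fl (by linarith)).mul (hρ u)) (hρ _) ?_
    filter_upwards [Nat.hyperfilter_le_atTop (eventually_gt_atTop 0)] with M hM
    have hM : (0 : ℝ) < M := by exact_mod_cast hM
    rw [sh, div_mul_eq_mul_div, div_le_iff₀ hM]
    exact (r_dec (ge M hu)).trans_eq (mul_comm _ _)

variable {ρ : ℝ → ℝ}

lemma Dk.le_one (h : Dk ρ) (u : ℝ) : ρ u ≤ 1 := by
  rcases le_total u 1 with c | c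
  · exact (h.one u c).le
  · exact (h.anti c).trans_eq (h.one 1 le_rfl)

lemma Dk.lip (h : Dk ρ) {a b : ℝ} (hab : a ≤ b) : ρ a - ρ b ≤ b - a := by
  rcases le_total b 1 with c | c
  · rw [h.one b c, h.one a (hab.trans c)]; linarith
  rcases le_total a 1 with d | d
  · have := h.hi 1 b le_rfl c
    rw [h.one 1 le_rfl, h.one (1 - 1) (by norm_num)] at this
    rw [h.one a d]; linarith
  · have := h.hi a b d hab
    have := h.le_one (a - 1)
    have := h.anti hab
    nlinarith

/-- the function cut at zero -/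
noncomputable def R (ρ : ℝ → ℝ) (u : ℝ) : ℝ := if 0 ≤ u then ρ u else 0

lemma R_of {u : ℝ} (h : 0 ≤ u) : R ρ u = ρ u := if_pos h
lemma R_neg {u : ℝ} (h : u < 0) : R ρ u = 0 := if_neg h.not_ge
lemma Dk.R_nn (h : Dk ρ) (u : ℝ) : 0 ≤ R ρ u := by unfold R; split_ifs; exacts [h.nn u, le_rfl]
lemma Dk.R_le (h : Dk ρ) (u : ℝ) : R ρ u ≤ 1 := by
  unfold R; split_ifs; exacts [h.le_one u, zero_le_one]

noncomputable def G (ρ : ℝ → ℝ) (K t : ℝ) : ℝ := R ρ (K * t) + if 0 ≤ t ∧ K * t < 1 then t else 0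

lemma Dk.RG (h : Dk ρ) {K : ℝ} (hK : 0 < K) (t : ℝ) :
    R ρ (K * t) ≤ G ρ K t ∧ G ρ K t ≤ (1 + 1 / K) * R ρ (K * t) := by
  unfold G
  split_ifs with c
  · rw [R_of (by have := c.1; positivity), h.one _ c.2.le]
    refine ⟨by linarith [c.1], ?_⟩
    have : t ≤ 1 / K := by rw [le_div_iff₀ hK]; linarith [c.2]
    linarith
  · have := h.R_nn (K * t)
    have : 0 ≤ 1 / K * R ρ (K * t) := by positivity
    constructor <;> linarith

lemma Dk.R_mono (h : Dk ρ) {K : ℝ} (hK : 0 < K) (t : ℝ) : R ρ ((K + 1) * t) ≤ R ρ (K * t) := by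
  rcases lt_or_ge t 0 with c | c
  · rw [R_neg (by nlinarith), R_neg (by nlinarith)]
  · rw [R_of (by positivity), R_of (by positivity)]; exact h.anti (by linarith)

lemma Dk.G_up (h : Dk ρ) {K : ℝ} (hK : 0 < K) (t : ℝ) :
    G ρ (K + 1) t + R ρ ((K + 1) * t - 1) / (K + 1) ≤ G ρ K t := by
  unfold G
  rcases lt_or_ge t 0 with c | c
  · rw [R_neg (by nlinarith), R_neg (by nlinarith), R_neg (by nlinarith), if_neg (by simp [c]),
      if_neg (by simp [c])]; simp
  rcases lt_or_ge ((K + 1) * t) 1 with d | d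
  · rw [if_pos ⟨c, d⟩, if_pos ⟨c, by linarith⟩, R_neg (u := _ - 1) (by linarith), zero_div]
    have := h.R_mono hK t
    linarith
  rw [if_neg (by simp [d]), R_of (u := K * t) (by positivity), R_of (by positivity),
    R_of (by linarith)]
  rcases lt_or_ge (K * t) 1 with e | e
  · rw [if_pos ⟨c, e⟩, h.one _ e.le]
    have := h.le_one ((K + 1) * t)
    have : ρ ((K + 1) * t - 1) / (K + 1) ≤ t := by
      rw [div_le_iff₀ (by linarith)]; linarith [h.le_one ((K + 1) * t - 1)]
    linarith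
  · rw [if_neg (by simp [e])]
    have ht : 0 < t := by by_contra f; nlinarith
    have := h.lo (K * t) ((K + 1) * t) e (by linarith)
    have : ρ ((K + 1) * t - 1) / (K + 1) ≤ ρ (K * t) - ρ ((K + 1) * t) := by
      rw [div_le_iff₀ (by linarith)]
      refine le_of_mul_le_mul_left ?_ ht
      linarith
    linarith

lemma Dk.R_low (h : Dk ρ) {K : ℝ} (hK : 1 ≤ K) (t : ℝ) :
    R ρ (K * t) ≤ R ρ ((K + 1) * t) + R ρ ((K + 1) * t - 1) / K +
      2 / K ^ 2 * (R ρ (K * t - 1) + R ρ (K * t - 2)) := by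
  have n1 := h.R_nn (K * t - 1)
  have n2 := h.R_nn (K * t - 2)
  have n3 := h.R_nn ((K + 1) * t - 1)
  have n4 := h.R_nn ((K + 1) * t)
  have n5 : 0 ≤ 2 / K ^ 2 * (R ρ (K * t - 1) + R ρ (K * t - 2)) := by positivity
  have n6 : 0 ≤ R ρ ((K + 1) * t - 1) / K := by positivity
  rcases lt_or_ge t 0 with c | c
  · rw [R_neg (u := K * t) (by nlinarith)]; linarith
  rcases lt_or_ge ((K + 1) * t) 1 with d | d
  · have := h.R_le (K * t)
    rw [R_of (u := (K + 1) * t) (by positivity), h.one _ d.le]; linarith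
  rw [R_of (u := (K + 1) * t) (by positivity), R_of (u := K * t) (by positivity),
    R_of (u := (K + 1) * t - 1) (by linarith)] at *
  rcases lt_or_ge (K * t) 1 with e | e
  · have := h.lip (show K * t ≤ (K + 1) * t by linarith)
    have f : t ≤ 1 / K := by rw [le_div_iff₀ (by linarith)]; linarith
    have : t ≤ 1 := by nlinarith
    rw [h.one (_ - 1) (by linarith)]
    linarith
  have ht : 0 < t := by by_contra f; nlinarith
  have a1 : ρ (K * t) - ρ ((K + 1) * t) ≤ ρ (K * t - 1) / K := by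
    have := h.hi (K * t) ((K + 1) * t) e (by linarith)
    rw [le_div_iff₀ (by linarith)]
    refine le_of_mul_le_mul_left ?_ ht
    linarith
  have a2 : K * (ρ (K * t - 1) - ρ ((K + 1) * t - 1)) ≤ 2 * (R ρ (K * t - 1) + R ρ (K * t - 2)) := by
    rcases le_total (K * t) 2 with f | f
    · have := h.lip (show K * t - 1 ≤ (K + 1) * t - 1 by linarith)
      rw [R_of (u := K * t - 1) (by linarith), h.one (K * t - 1) (by linarith)] at *
      nlinarith
    · have := h.hi (K * t - 1) ((K + 1) * t - 1) (by linarith) (by linarith)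
      have := h.anti (show K * t - 1 ≤ (K + 1) * t - 1 by linarith)
      rw [R_of (u := K * t - 2) (by linarith)] at *
      rw [show K * t - 1 - 1 = K * t - 2 by ring] at *
      refine le_of_mul_le_mul_left ?_ ht
      nlinarith
  have a3 : ρ (K * t - 1) / K - ρ ((K + 1) * t - 1) / K ≤
      2 / K ^ 2 * (R ρ (K * t - 1) + R ρ (K * t - 2)) := by
    rw [← sub_div, div_le_iff₀ (by linarith), div_mul_eq_mul_div, div_mul_eq_mul_div,
      le_div_iff₀ (by positivity)]
    nlinarith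
  linarith

end Pool.Agent.H43.Dick
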