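import Pool.Agent.H43.Dick1

open Filter Topology MeasureTheory Set

namespace Pool.Agent.H43.Dick

noncomputable def E : ℕ → (ℝ → ℝ) → ℝ → ℝ
  | 0, g, x => g (x - 1)
  | k + 1, g, x => E k g x + 1 / (k + 1) * E k g (x - 1 / (k + 1 + 1))

lemma E_le {g h : ℝ → ℝ} (hg : ∀ t, g t ≤ h t) (k : ℕ) : ∀ x, E k g x ≤ E k h x := by
  induction k with
  | zero => intro x; exact hg _
  | succ k ih =>
    intro x; exact add_le_add (ih _) (mul_le_mul_of_nonneg_left (ih _) (by positivity))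

lemma E_lin (g h : ℝ → ℝ) (a b c : ℝ) (k : ℕ) : ∀ x,
    E k (fun t => a * g t + b * h (t - c)) x = a * E k g x + b * E k h (x - c) := by
  induction k with
  | zero => intro x; simp only [E]; rw [sub_right_comm]
  | succ k ih => intro x; simp only [E, ih]; rw [sub_right_comm x c]; ring

lemma E_const (c : ℝ) (k : ℕ) : ∀ x, E k (fun _ => c) x = (k + 1) * c := by
  induction k with
  | zero => intro x; simp [E]
  | succ k ih => intro x; simp only [E, ih]; push_cast; field_simp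

lemma E_int {g : ℝ → ℝ} (hg : ∀ a b, IntervalIntegrable g volume a b) (e : ℝ) (k : ℕ) :
    (∀ a b, IntervalIntegrable (E k g) volume a b) ∧
      ∀ b, E k (fun t => ∫ y in (t - e)..t, g y) b = ∫ x in (b - e)..b, E k g x := by
  have sh : ∀ {f : ℝ → ℝ}, (∀ a b, IntervalIntegrable f volume a b) → ∀ c a b,
      IntervalIntegrable (fun x => f (x - c)) volume a b := fun hf c a b => by
    simpa using (hf (a - c) (b - c)).comp_sub_right c
  induction k with
  | zero =>
    refine ⟨fun a b => sh hg 1 a b, fun b => ?_⟩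
    simp only [E]
    rw [intervalIntegral.integral_comp_sub_right, sub_right_comm]
  | succ k ih =>
    refine ⟨fun a b => (ih.1 a b).add ((sh ih.1 _ a b).const_mul _), fun b => ?_⟩
    simp only [E]
    rw [intervalIntegral.integral_add (ih.1 _ _) ((sh ih.1 _ _ _).const_mul _),
      intervalIntegral.integral_const_mul, intervalIntegral.integral_comp_sub_right, ih.2, ih.2,
      sub_right_comm]

variable {ρ : ℝ → ℝ}

noncomputable def B (ρ : ℝ → ℝ) (k : ℕ) : ℝ → ℝ := E k fun t => R ρ ((k + 1) * t)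
noncomputable def Ph (ρ : ℝ → ℝ) (k : ℕ) : ℝ → ℝ := E k (G ρ (k + 1))

lemma Dk.BP (h : Dk ρ) (k : ℕ) (x : ℝ) :
    B ρ k x ≤ Ph ρ k x ∧ Ph ρ k x ≤ (1 + 1 / (k + 1)) * B ρ k x := by
  refine ⟨E_le (fun t => (h.RG (by positivity) t).1) k x, ?_⟩
  have := E_lin (fun t => R ρ ((k + 1) * t)) id (1 + 1 / (k + 1)) 0 0 k x
  rw [zero_mul, add_zero] at this
  rw [B, ← this]
  exact E_le (fun t => by simpa using (h.RG (by positivity) t).2) k x

lemma Dk.Ph_step (h : Dk ρ) (k : ℕ) (x : ℝ) :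
    Ph ρ (k + 1) x ≤ Ph ρ k x + 2 / ((k + 1) * (k + 1 + 1)) * B ρ k (x - 1 / (k + 1 + 1)) := by
  have hK : (0 : ℝ) < k + 1 := by positivity
  have e1 := E_lin (G ρ (k + 1 + 1)) (G ρ (k + 1 + 1)) 1 (1 / (k + 1)) (1 / (k + 1 + 1)) k x
  have e2 := E_lin (G ρ (k + 1)) (fun t => R ρ ((k + 1) * t)) 1 (2 / ((k + 1) * (k + 1 + 1)))
    (1 / (k + 1 + 1)) k x
  rw [one_mul] at e1 e2
  unfold Ph B
  rw [← e2]; simp only [E]; push_cast; rw [← e1]
  refine E_le (fun t => ?_) k x
  generalize (k : ℝ) + 1 = K at *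
  have a1 := h.G_up hK t
  have a2 := mul_le_mul_of_nonneg_left (h.RG (K := K + 1) (by positivity) (t - 1 / (K + 1))).2
    (show 0 ≤ 1 / K by positivity)
  have a3 := mul_le_mul_of_nonneg_left (h.R_mono hK (t - 1 / (K + 1)))
    (show 0 ≤ 2 / (K * (K + 1)) by positivity)
  have e : (K + 1) * (t - 1 / (K + 1)) = (K + 1) * t - 1 := by field_simp
  rw [e] at a2 a3
  have : 1 / K * ((1 + 1 / (K + 1)) * R ρ ((K + 1) * t - 1)) = R ρ ((K + 1) * t - 1) / (K + 1) +
      2 / (K * (K + 1)) * R ρ ((K + 1) * t - 1) := by field_simp; ring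
  linarith

noncomputable def C : ℝ := 2 * Real.exp 2
lemma C_pos : 0 < C := by unfold C; positivity

lemma Dk.B_le (h : Dk ρ) (k : ℕ) (x : ℝ) : B ρ k x ≤ C := by
  have : ∀ k : ℕ, ∀ x, Ph ρ k x ≤ 2 * Real.exp (2 - 2 / (k + 1)) := by
    intro k
    induction k with
    | zero =>
      intro x
      have := (h.RG (K := 1) one_pos (x - 1)).2
      have := h.R_le (1 * (x - 1))
      simp only [Ph, E]; norm_num at *; linarith
    | succ k ih =>
      intro x
      have a1 := h.Ph_step k x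
      have a2 := mul_le_mul_of_nonneg_left ((h.BP k _).1.trans (ih (x - 1 / (k + 1 + 1))))
        (show (0 : ℝ) ≤ 2 / ((k + 1) * (k + 1 + 1)) by positivity)
      have a3 := Real.add_one_le_exp (2 / ((k + 1) * (k + 1 + 1)) : ℝ)
      have e : (2 : ℝ) - 2 / ((k + 1 : ℕ) + 1) = (2 - 2 / (k + 1)) + 2 / ((k + 1) * (k + 1 + 1)) := by
        push_cast; field_simp; ring
      rw [e, Real.exp_add]
      have := ih x
      have := Real.exp_pos (2 - 2 / ((k : ℝ) + 1))
      nlinarith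
  refine (h.BP k x).1.trans ((this k x).trans ?_)
  unfold C; gcongr
  have : (0 : ℝ) ≤ 2 / (k + 1) := by positivity
  linarith

lemma Dk.B_step (h : Dk ρ) (k : ℕ) (x : ℝ) :
    B ρ k x ≤ B ρ (k + 1) x + 8 / ((k + 1) * (k + 1 + 1)) * C := by
  have hK : (1 : ℝ) ≤ k + 1 := by simp
  have e1 := E_lin (fun t => R ρ ((k + 1 + 1) * t)) (fun t => R ρ ((k + 1 + 1) * t)) 1
    (1 / (k + 1)) (1 / (k + 1 + 1)) k x
  have e2 := E_lin (fun t => R ρ ((k + 1) * t)) (fun t => R ρ ((k + 1) * t)) 1 1 (1 / (k + 1)) k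
    (x - 1 / (k + 1))
  have e3 := E_lin (fun t => 1 * R ρ ((k + 1 + 1) * t) + 1 / (k + 1) *
      R ρ ((k + 1 + 1) * (t - 1 / (k + 1 + 1))))
    (fun t => 1 * R ρ ((k + 1) * t) + 1 * R ρ ((k + 1) * (t - 1 / (k + 1)))) 1 (2 / (k + 1) ^ 2)
    (1 / (k + 1)) k x
  rw [e1, e2] at e3
  have b1 := h.B_le k (x - 1 / (k + 1))
  have b2 := h.B_le k (x - 1 / (k + 1) - 1 / (k + 1))
  have b3 : B ρ k x ≤ _ := (E_le (fun t => ?_) k x).trans_eq e3
  · unfold B at *
    simp only [E]; push_cast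
    have := C_pos
    have c1 : 2 / ((k : ℝ) + 1) ^ 2 * (C + C) ≤ 8 / ((k + 1) * (k + 1 + 1)) * C := by
      rw [← two_mul, ← mul_assoc]; gcongr
      rw [div_mul_eq_mul_div, div_le_div_iff₀ (by positivity) (by positivity)]; nlinarith
    have := mul_le_mul_of_nonneg_left (add_le_add b1 b2)
      (show (0 : ℝ) ≤ 2 / (k + 1) ^ 2 by positivity)
    linarith
  · generalize (k : ℝ) + 1 = K at *
    have := h.R_low hK t
    have f1 : (K + 1) * (t - 1 / (K + 1)) = (K + 1) * t - 1 := by field_simp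
    have f2 : K * (t - 1 / K) = K * t - 1 := by field_simp
    have f3 : K * (t - 1 / K - 1 / K) = K * t - 2 := by field_simp; ring
    rw [f1, f2, f3]
    refine this.trans_eq ?_
    ring

lemma Dk.B_close (h : Dk ρ) {k j : ℕ} (hj : k ≤ j) (x : ℝ) :
    B ρ j x ≤ B ρ k x + 8 * C / (k + 1) ∧ B ρ k x ≤ B ρ j x + 8 * C / (k + 1) := by
  have hC := C_pos
  have : Ph ρ j x ≤ Ph ρ k x + 2 * C * (1 / (k + 1) - 1 / (j + 1)) ∧
      B ρ k x ≤ B ρ j x + 8 * C * (1 / (k + 1) - 1 / (j + 1)) := by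
    induction j, hj using Nat.le_induction with
    | base => simp
    | succ j hj ih =>
      have a1 := h.Ph_step j x
      have a2 := h.B_step j x
      have a3 := mul_le_mul_of_nonneg_left (h.B_le j (x - 1 / (j + 1 + 1)))
        (show (0 : ℝ) ≤ 2 / ((j + 1) * (j + 1 + 1)) by positivity)
      have e1 : 2 / (((j : ℝ) + 1) * (j + 1 + 1)) = 2 * (1 / (j + 1) - 1 / (j + 1 + 1)) := by
        field_simp; ring
      have e2 : 8 / (((j : ℝ) + 1) * (j + 1 + 1)) = 8 * (1 / (j + 1) - 1 / (j + 1 + 1)) := by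
        field_simp; ring
      rw [e1] at a1 a3; rw [e2] at a2
      push_cast
      constructor <;> linarith [ih.1, ih.2]
  have a1 := (h.BP j x).1
  have a2 := (h.BP k x).2
  have a3 := mul_le_mul_of_nonneg_left (h.B_le k x) (show (0 : ℝ) ≤ 1 / (k + 1) by positivity)
  have a4 : (0 : ℝ) ≤ C * (1 / (j + 1)) := by positivity
  have a5 : (0 : ℝ) ≤ C * (1 / (k + 1)) := by positivity
  rw [div_eq_mul_one_div (8 * C)]
  constructor <;> linarith [this.1, this.2]

lemma Dk.jump (h : Dk ρ) {k : ℕ} (hk : 1 ≤ k) {e x : ℝ} (h1 : 3 / 2 ≤ x) (h2 : x < 3 / 2 + e) :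
    1 - (k + 1) ^ 2 * e ≤ B ρ k x - B ρ k (x - e) := by
  have he : 0 < e := by linarith
  set χ : ℝ → ℝ := fun t => if 0 ≤ t ∧ t < e then 1 else 0
  have χ0 : ∀ t, 0 ≤ χ t := fun t => by simp only [χ]; split_ifs <;> norm_num
  have a1 : 1 ≤ E k χ x := by
    induction k, hk using Nat.le_induction with
    | base =>
      have := χ0 (x - 1)
      have : χ (x - 1 / (((0 : ℕ) : ℝ) + 1 + 1) - 1) = 1 := if_pos (by norm_num; constructor <;> linarith)
      simp only [E]; rw [this]; norm_num; linarith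
    | succ k _ ih =>
      have := E_le χ0 k (x - 1 / (k + 1 + 1))
      rw [E_const, mul_zero] at this
      have : 0 ≤ 1 / ((k : ℝ) + 1) * E k χ (x - 1 / (k + 1 + 1)) := by positivity
      simp only [E]; linarith
  have e1 := E_lin (fun t => R ρ ((k + 1) * t)) (fun t => R ρ ((k + 1) * t)) 1 (-1) e k x
  have e2 := E_lin χ (fun _ => (k + 1) * e) 1 (-1) 0 k x
  rw [E_const] at e2
  have a2 := (e2.symm.trans_le (E_le (fun t => ?_) k x)).trans_eq e1
  · unfold B; linarith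
  have hK : (0 : ℝ) < k + 1 := by positivity
  generalize (k : ℝ) + 1 = K at *
  have := mul_pos hK he
  simp only [χ]
  rcases lt_or_ge t 0 with c | c
  · rw [R_neg (by nlinarith), R_neg (by nlinarith), if_neg (by simp [c])]; linarith
  rw [R_of (by positivity)]
  rcases lt_or_ge t e with d | d
  · rw [R_neg (by nlinarith), if_pos ⟨c, d⟩]
    have := h.lip (show 0 ≤ K * t by positivity)
    rw [h.one 0 (by norm_num)] at this
    nlinarith
  · rw [R_of (by nlinarith), if_neg (by simp [d])]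
    have := h.lip (show K * (t - e) ≤ K * t by nlinarith)
    linarith

lemma Dk.R_meas (h : Dk ρ) : Measurable (R ρ) :=
  Measurable.ite measurableSet_Ici h.anti.measurable measurable_const

lemma Dk.R_int (h : Dk ρ) : Integrable (R ρ) := by
  refine (integrable_inv_one_add_sq.const_mul 5).mono' h.R_meas.aestronglyMeasurable
    (ae_of_all _ fun u => ?_)
  rw [Real.norm_of_nonneg (h.R_nn u), ← div_eq_mul_inv, le_div_iff₀ (by positivity)]
  rcases lt_or_ge u 0 with c | c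
  · rw [R_neg c]; norm_num
  rw [R_of c]
  have := h.nn u
  have := h.le_one u
  rcases le_total u 2 with d | d
  · nlinarith
  · have a1 := h.dec u (by linarith)
    have a2 := h.dec (u - 1) (by linarith)
    have a3 := h.le_one (u - 1 - 1)
    have : (u - 1) * (u * ρ u) ≤ 1 := by nlinarith
    nlinarith

noncomputable def W (ρ : ℝ → ℝ) (u : ℝ) : ℝ := ∫ y in Iic u, R ρ y

lemma Dk.W_mono (h : Dk ρ) : Monotone (W ρ) := fun _ _ c =>
  setIntegral_mono_set h.R_int.integrableOn (ae_of_all _ h.R_nn) (Iic_subset_Iic.2 c).eventuallyLE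

lemma W_neg {u : ℝ} (hu : u < 0) : W ρ u = 0 :=
  setIntegral_eq_zero_of_forall_eq_zero fun _ hy => R_neg (lt_of_le_of_lt hy hu)

lemma Dk.W_bd (h : Dk ρ) (u : ℝ) : 0 ≤ W ρ u ∧ W ρ u ≤ ∫ y, R ρ y :=
  ⟨integral_nonneg h.R_nn, setIntegral_le_integral h.R_int (ae_of_all _ h.R_nn)⟩

lemma Dk.W_top (h : Dk ρ) : Tendsto (W ρ) atTop (𝓝 (∫ y, R ρ y)) := by
  have := tendsto_setIntegral_of_monotone (s := fun u : ℝ => Iic u) (f := R ρ) (μ := volume)
    (fun _ => measurableSet_Iic) monotone_Iic h.R_int.integrableOn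
  rw [iUnion_Iic, Measure.restrict_univ] at this; exact this

lemma Dk.Z_ge (h : Dk ρ) : 1 ≤ ∫ y, R ρ y := by
  refine le_trans ?_ (setIntegral_le_integral (s := Icc 0 1) h.R_int (ae_of_all _ h.R_nn))
  rw [setIntegral_congr_fun (g := fun _ => 1) measurableSet_Icc fun y hy => by
    rw [R_of hy.1, h.one y hy.2]]
  simp

lemma Dk.B_int (h : Dk ρ) (e : ℝ) (k : ℕ) : (∀ a b, IntervalIntegrable (B ρ k) volume a b) ∧
    ∀ b, E k (fun t => W ρ ((k + 1) * t) - W ρ ((k + 1) * (t - e))) b =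
      (k + 1) * ∫ x in (b - e)..b, B ρ k x := by
  have := E_int (g := fun t => R ρ ((k + 1) * t)) (fun a b =>
    (h.R_int.comp_mul_left' (by positivity)).intervalIntegrable) e k
  refine ⟨this.1, fun b => ?_⟩
  have e2 := E_lin (fun t => ∫ y in (t - e)..t, R ρ ((k + 1) * y)) id (k + 1) 0 0 k b
  rw [B, ← this.2, zero_mul, add_zero] at *
  rw [← e2]
  congr 1; ext t
  rw [zero_mul, add_zero, intervalIntegral.mul_integral_comp_mul_left]
  exact intervalIntegral.integral_Iic_sub_Iic h.R_int.integrableOn h.R_int.integrableOn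

end Pool.Agent.H43.Dick
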