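import Pool.Agent.H43.Dick2

open Filter Topology MeasureTheory Set ProbabilityTheory

namespace Pool.Agent.H43.Dick

variable {Ω : Type*} [MeasurableSpace Ω] {P : Measure Ω} [IsProbabilityMeasure P]
  {I : ℕ → Ω → ℝ} {ρ : ℝ → ℝ}

structure Rec (P : Measure Ω) (I : ℕ → Ω → ℝ) : Prop where
  meas : ∀ n, Measurable (I n)
  ind : iIndepFun I P
  val : ∀ n ω, I n ω = 0 ∨ I n ω = 1
  prob : ∀ n : ℕ, P {ω | I n ω = 1} = 1 / (n + 1)

noncomputable def Sk (I : ℕ → Ω → ℝ) (k : ℕ) (ω : Ω) : ℝ := ∑ n ∈ Finset.range k, I n ω / (n + 1)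

lemma Rec.Sk_meas (h : Rec P I) (k : ℕ) : Measurable (Sk I k) :=
  Finset.measurable_sum _ fun n _ => (h.meas n).div_const _

lemma Rec.mean (h : Rec P I) (n : ℕ) : ∫ ω, I n ω ∂P = 1 / (n + 1) := by
  have : I n = indicator {ω | I n ω = 1} 1 := by
    ext ω; rcases h.val n ω with c | c <;> simp [indicator, c]
  rw [this, integral_indicator_one (measurableSet_eq_fun (h.meas n) measurable_const),
    Measure.real, h.prob, ENNReal.toReal_div, ENNReal.toReal_add (by simp) (by simp)]
  simp

lemma bint {f : Ω → ℝ} (hf : Measurable f) {c : ℝ} (hc : ∀ ω, |f ω| ≤ c) : Integrable f P :=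
  Integrable.of_bound hf.aestronglyMeasurable c (ae_of_all _ hc)

lemma Rec.step (h : Rec P I) {g : ℝ → ℝ} (hg : Measurable g) {c : ℝ} (hc : ∀ t, |g t| ≤ c)
    (k : ℕ) (x : ℝ) : (k + 1) * ∫ ω, g (x - Sk I (k + 1) ω) ∂P =
      k * ∫ ω, g (x - Sk I k ω) ∂P + ∫ ω, g (x - 1 / (k + 1) - Sk I k ω) ∂P := by
  have hi : IndepFun (Sk I k) (I k) P := by
    have a := (h.ind.comp (fun (n : ℕ) (y : ℝ) => y / (n + 1))
      fun n => measurable_id.div_const _).indepFun_sum_range_succ
      (fun n => (h.meas n).div_const _) k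
    have b := a.comp measurable_id (measurable_id.mul_const ((k : ℝ) + 1))
    have e1 : id ∘ (∑ j ∈ Finset.range k, (fun y : ℝ => y / (j + 1)) ∘ I j) = Sk I k := by
      ext ω; simp [Sk]
    have e2 : (fun c : ℝ => id c * (k + 1)) ∘ (fun y : ℝ => y / (k + 1)) ∘ I k = I k := by
      ext ω; simp only [Function.comp, id]; field_simp
    rwa [e1, e2] at b
  have m : ∀ y, Measurable fun ω => g (y - Sk I k ω) := fun y =>
    hg.comp (measurable_const.sub (h.Sk_meas k))
  have i1 : ∀ y, Integrable (fun ω => g (y - Sk I k ω)) P := fun y => bint (m y) fun _ => hc _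
  have i2 : ∀ y, Integrable (fun ω => g (y - Sk I k ω) * I k ω) P := fun y =>
    bint ((m y).mul (h.meas k)) (c := c) fun ω => by
      rcases h.val k ω with d | d <;> simp [d, hc, (abs_nonneg _).trans (hc 0)]
  have e : ∀ y, ∫ ω, g (y - Sk I k ω) * I k ω ∂P = (∫ ω, g (y - Sk I k ω) ∂P) * (1 / (k + 1)) :=
    fun y => by
      rw [← h.mean]
      exact (hi.comp (hg.comp (measurable_const.sub measurable_id))
        measurable_id).integral_fun_mul_eq_mul_integral (m y).aestronglyMeasurable
        (h.meas k).aestronglyMeasurable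
  have : (fun ω => g (x - Sk I (k + 1) ω)) = fun ω => (g (x - Sk I k ω) - g (x - Sk I k ω) * I k ω) +
      g (x - 1 / (k + 1) - Sk I k ω) * I k ω := by
    ext ω
    simp only [Sk, Finset.sum_range_succ]
    rcases h.val k ω with d | d <;> rw [d]
    · simp
    · simp only [mul_one, sub_self, zero_add]; congr 1; ring
  rw [this, integral_add ((i1 x).sub' (i2 x)) (i2 _), integral_sub (i1 x) (i2 x), e, e]
  field_simp; ring

lemma Rec.link (h : Rec P I) {g : ℝ → ℝ} (hg : Measurable g) {c : ℝ} (hc : ∀ t, |g t| ≤ c)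
    (k : ℕ) : ∀ x, (k + 1) * ∫ ω, g (x - Sk I (k + 1) ω) ∂P = E k g x := by
  induction k with
  | zero => intro x; rw [h.step hg hc]; simp [Sk, E]
  | succ k ih =>
    intro x
    rw [h.step hg hc, E, ← ih, ← ih]; push_cast; field_simp

lemma Rec.summ (h : Rec P I) : ∀ᵐ ω ∂P, Summable fun n : ℕ => I n ω / (n + 1) := by
  have nn : ∀ n ω, 0 ≤ I n ω / (n + 1) := fun n ω => by
    rcases h.val n ω with d | d <;> rw [d] <;> positivity
  have m : ∀ n : ℕ, Measurable fun ω => ENNReal.ofReal (I n ω / (n + 1)) := fun n =>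
    ((h.meas n).div_const _).ennreal_ofReal
  have s : Summable fun n : ℕ => 1 / ((n : ℝ) + 1) / (n + 1) := by
    have := (summable_nat_add_iff 1).2 (Real.summable_one_div_nat_pow.2 one_lt_two)
    refine this.congr fun n => ?_
    push_cast; field_simp
  have a : ∫⁻ ω, ∑' n : ℕ, ENNReal.ofReal (I n ω / (n + 1)) ∂P ≠ ⊤ := by
    rw [lintegral_tsum fun n => (m n).aemeasurable]
    have : ∀ n : ℕ, ∫⁻ ω, ENNReal.ofReal (I n ω / (n + 1)) ∂P =
        ENNReal.ofReal (1 / ((n : ℝ) + 1) / (n + 1)) := fun n => by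
      rw [← ofReal_integral_eq_lintegral_ofReal ((bint (h.meas n) (c := 1) fun ω => by
        rcases h.val n ω with d | d <;> simp [d]).div_const _) (ae_of_all _ (nn n)),
        integral_div, h.mean]
    simp only [this]
    exact s.tsum_ofReal_ne_top
  filter_upwards [ae_lt_top (Measurable.tsum m) a] with ω hω
  exact (ENNReal.summable_toReal hω.ne).congr fun n => ENNReal.toReal_ofReal (nn n ω)

/-- the series -/
noncomputable def S (I : ℕ → Ω → ℝ) (ω : Ω) : ℝ := ∑' n : ℕ, I n ω / (n + 1)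

lemma Rec.S_meas (h : Rec P I) : Measurable (S I) :=
  Measurable.tsum fun n => (h.meas n).div_const _

lemma Dk.conv (h : Dk ρ) {s : ℕ → ℝ} {l y : ℝ} (hs : Tendsto s atTop (𝓝 l)) (hy : l ≠ y) :
    Tendsto (fun k : ℕ => W ρ ((k + 1) * (y - s k))) atTop
      (𝓝 (if l < y then ∫ u, R ρ u else 0)) := by
  have t : Tendsto (fun k : ℕ => (k : ℝ) + 1) atTop atTop :=
    tendsto_atTop_add_const_right _ _ tendsto_natCast_atTop_atTop
  split_ifs with c
  · exact h.W_top.comp (t.atTop_mul_pos (sub_pos.2 c) (hs.const_sub y))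
  · refine tendsto_const_nhds.congr' ?_
    filter_upwards [hs.eventually (lt_mem_nhds (lt_of_le_of_ne (not_lt.1 c) hy.symm))] with k hk
    exact (W_neg (mul_neg_of_pos_of_neg (by positivity) (by linarith))).symm

lemma Rec.main (h : Rec P I) (hρ : Dk ρ) (b : ℝ) {e : ℝ} (he : 0 < e) :
    (∫ u, R ρ u) * P.real (S I ⁻¹' Ioo (b - e) b) ≤ C * e ∧
    ((∀ y, P (S I ⁻¹' {y}) = 0) → Tendsto (fun k => ∫ x in (b - e)..b, B ρ k x) atTop
      (𝓝 ((∫ u, R ρ u) * P.real (S I ⁻¹' Ioo (b - e) b)))) := by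
  set Z := ∫ u, R ρ u
  set H : ℕ → ℝ → ℝ := fun k t => W ρ ((k + 1) * t) - W ρ ((k + 1) * (t - e))
  have Hm : ∀ k, Measurable (H k) := fun k =>
    (hρ.W_mono.measurable.comp (measurable_id.const_mul _)).sub
      (hρ.W_mono.measurable.comp ((measurable_id.sub_const _).const_mul _))
  have H0 : ∀ k t, 0 ≤ H k t := fun k t => sub_nonneg.2 (hρ.W_mono
    (mul_le_mul_of_nonneg_left (by linarith) (by positivity)))
  have Hb : ∀ k t, |H k t| ≤ Z := fun k t => by
    rw [abs_of_nonneg (H0 k t)]
    have := hρ.W_bd ((k + 1) * t)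
    have := hρ.W_bd ((k + 1) * (t - e))
    simp only [H]; linarith
  have Fm : ∀ k, Measurable fun ω => H k (b - Sk I (k + 1) ω) := fun k =>
    (Hm k).comp (measurable_const.sub (h.Sk_meas _))
  have lk : ∀ k, ∫ ω, H k (b - Sk I (k + 1) ω) ∂P = ∫ x in (b - e)..b, B ρ k x := fun k => by
    have := (h.link (Hm k) (Hb k) k b).trans ((hρ.B_int e k).2 b)
    exact mul_left_cancel₀ (by positivity) this
  set A := (S I ⁻¹' {b - e, b})ᶜ
  have Am : MeasurableSet A := (h.S_meas (by simp)).compl
  have Jm : MeasurableSet (S I ⁻¹' Ioo (b - e) b) := h.S_meas measurableSet_Ioo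
  have cv : Tendsto (fun k => ∫ ω, A.indicator (fun ω => H k (b - Sk I (k + 1) ω)) ω ∂P) atTop
      (𝓝 (Z * P.real (S I ⁻¹' Ioo (b - e) b))) := by
    rw [mul_comm, ← smul_eq_mul, ← integral_indicator_const Z Jm]
    refine tendsto_integral_of_dominated_convergence (fun _ => Z)
      (fun k => ((Fm k).indicator Am).aestronglyMeasurable) (integrable_const _)
      (fun k => ae_of_all _ fun ω => (norm_indicator_le_norm_self _ _).trans (Hb _ _)) ?_
    filter_upwards [h.summ] with ω hω
    have t : Tendsto (fun k => Sk I (k + 1) ω) atTop (𝓝 (S I ω)) :=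
      hω.hasSum.tendsto_sum_nat.comp (tendsto_add_atTop_nat 1)
    by_cases c : ω ∈ A
    · simp only [indicator_of_mem c]
      simp only [A, mem_compl_iff, mem_preimage, mem_insert_iff, mem_singleton_iff, not_or] at c
      have := (hρ.conv t c.2).sub (hρ.conv t c.1)
      simp only [sub_right_comm b e] at this
      refine this.trans_eq ?_
      congr 1
      simp only [indicator, mem_preimage, mem_Ioo]
      rcases lt_or_gt_of_ne c.1 with d | d
      · rw [if_pos d, if_pos (by linarith), if_neg (by simp [d.le]), sub_self]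
      · rw [if_neg d.not_gt, sub_zero]; simp [d, Z]
    · simp only [indicator_of_notMem c]
      rw [indicator_of_notMem]
      · exact tendsto_const_nhds
      · simp only [A, mem_compl_iff, not_not, mem_preimage, mem_insert_iff, mem_singleton_iff] at c
        rcases c with c | c <;> simp [c]
  refine ⟨le_of_tendsto' cv fun k => ?_, fun hy => cv.congr fun k => ?_⟩
  · refine (integral_mono ((bint (Fm k) fun _ => Hb _ _).indicator Am) (bint (Fm k) fun _ => Hb _ _)
      fun ω => indicator_le_self' (fun _ _ => H0 _ _) ω).trans ?_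
    rw [lk]
    refine (intervalIntegral.integral_mono_on (by linarith) ((hρ.B_int e k).1 _ _)
      intervalIntegrable_const fun x _ => hρ.B_le k x).trans_eq ?_
    simp [mul_comm]
  · rw [← lk]
    refine integral_congr_ae ?_
    filter_upwards [measure_eq_zero_iff_ae_notMem.1 (hy b),
      measure_eq_zero_iff_ae_notMem.1 (hy (b - e))] with ω h1 h2
    refine indicator_of_mem ?_ _
    simp only [A, mem_compl_iff, mem_preimage, mem_insert_iff, not_or]
    exact ⟨h2, h1⟩

lemma Rec.bdd (h : Rec P I) : P.map (S I) ≤ ENNReal.ofReal C • volume := by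
  obtain ⟨ρ, hρ⟩ := exists_dk
  have hC := C_pos
  have a1 : ∀ a b : ℝ, P.map (S I) (Ioc a b) ≤ ENNReal.ofReal C * ENNReal.ofReal (b - a) := by
    intro a b
    rcases le_or_gt b a with c | c
    · simp [c]
    rw [Measure.map_apply h.S_meas measurableSet_Ioc, ← ENNReal.ofReal_mul hC.le,
      ← ofReal_measureReal]
    refine ENNReal.ofReal_le_ofReal (le_of_forall_pos_le_add fun d hd => ?_)
    have := (h.main hρ (b + d / C) (e := b + d / C - a) (by have := div_pos hd hC; linarith)).1
    have e : C * (b + d / C - a) = C * (b - a) + d := by field_simp; ring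
    rw [e, sub_sub_cancel] at this
    refine le_trans ?_ ((le_mul_of_one_le_left measureReal_nonneg hρ.Z_ge).trans this)
    exact measureReal_mono (preimage_mono (Ioc_subset_Ioo_right (by have := div_pos hd hC; linarith)))
  have c0 : ENNReal.ofReal C ≠ 0 := by simpa using hC
  have a2 : ((ENNReal.ofReal C)⁻¹ • P.map (S I)).toOuterMeasure ≤ StieltjesFunction.id.outer := by
    refine OuterMeasure.le_ofFunction.2 fun s => ?_
    rw [StieltjesFunction.length_eq]
    refine le_iInf fun a => le_iInf fun b => le_iInf fun hs => ?_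
    have : s ⊆ Ioc a b := fun x hx => hs ⟨hx, fun c => not_isBot x c⟩
    show (ENNReal.ofReal C)⁻¹ * P.map (S I) s ≤ _
    rw [ENNReal.inv_mul_le_iff c0 ENNReal.ofReal_ne_top]
    exact (measure_mono this).trans (a1 a b)
  refine Measure.le_iff'.2 fun s => ?_
  have := a2 s
  rw [Measure.smul_apply, smul_eq_mul, ← ENNReal.inv_mul_le_iff c0 ENNReal.ofReal_ne_top,
    Real.volume_eq_stieltjes_id, StieltjesFunction.measure_def]
  exact this

end Pool.Agent.H43.Dick
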