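import Mathlib

namespace Pool.Agent.H43.Dlt

open Set Filter Topology MeasureTheory
open scoped Uniformity

variable {X : Type*} [NormedAddCommGroup X]

lemma uc_iff {u : ℝ → X} {S : Set ℝ} : UniformContinuousOn u S ↔
    Tendsto (fun p : ℝ × ℝ => u p.1 - u p.2) (𝓤 ℝ ⊓ 𝓟 (S ×ˢ S)) (𝓝 0) := by
  unfold UniformContinuousOn
  rw [uniformity_eq_comap_nhds_zero_swapped X, tendsto_comap_iff]
  rfl

lemma uc_add {u v : ℝ → X} {S : Set ℝ} (hu : UniformContinuousOn u S)
    (hv : UniformContinuousOn v S) : UniformContinuousOn (fun t => u t + v t) S := by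
  rw [uc_iff] at *
  have := hu.add hv
  rw [add_zero] at this
  exact this.congr fun p => by abel

lemma uc_sub {u v : ℝ → X} {S : Set ℝ} (hu : UniformContinuousOn u S)
    (hv : UniformContinuousOn v S) : UniformContinuousOn (fun t => u t - v t) S := by
  rw [uc_iff] at *
  have := hu.sub hv
  rw [sub_zero] at this
  exact this.congr fun p => by abel

/-- Oscillation at scale `c` is at most `C`. -/
def Osc (S : Set ℝ) (u : ℝ → X) (c C : ℝ) : Prop :=
  ∀ t ∈ S, ∀ t' ∈ S, |t - t'| ≤ c → ‖u t - u t'‖ ≤ C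

lemma Osc.add {S : Set ℝ} (hS : S.OrdConnected) {u : ℝ → X} {c C d D : ℝ} (hc : 0 ≤ c)
    (hd : 0 ≤ d) (h1 : Osc S u c C) (h2 : Osc S u d D) : Osc S u (c + d) (C + D) := by
  have key : ∀ t ∈ S, ∀ t' ∈ S, t ≤ t' → |t - t'| ≤ c + d → ‖u t - u t'‖ ≤ C + D := by
    intro t ht t' ht' hle h
    have hm : min (t + c) t' ∈ S := hS.out ht ht' ⟨le_min (by linarith) hle, min_le_right _ _⟩
    rw [abs_le] at h
    have a1 := h1 t ht _ hm (by
      rw [abs_le]; constructor
      · have := min_le_left (t + c) t'; linarith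
      · have := le_min (by linarith : t ≤ t + c) hle; linarith)
    have a2 := h2 _ hm t' ht' (by
      rw [abs_le]; constructor
      · have := le_min (by linarith : t' - d ≤ t + c) (by linarith : t' - d ≤ t'); linarith
      · have := min_le_right (t + c) t'; linarith)
    have := norm_sub_le_norm_sub_add_norm_sub (u t) (u (min (t + c) t')) (u t')
    linarith
  intro t ht t' ht' h
  rcases le_total t t' with hle | hle
  · exact key t ht t' ht' hle h
  · rw [norm_sub_rev]; exact key t' ht' t ht hle (by rwa [abs_sub_comm])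

lemma Osc.mono {S : Set ℝ} {u : ℝ → X} {c C d D : ℝ} (h : Osc S u c C) (hd : d ≤ c)
    (hD : C ≤ D) : Osc S u d D := fun t ht t' ht' h' => (h t ht t' ht' (h'.trans hd)).trans hD

lemma osc_of_uc {S : Set ℝ} (hS : S.OrdConnected) {u : ℝ → X} (hu : UniformContinuousOn u S)
    (c : ℝ) : ∃ C, 0 ≤ C ∧ Osc S u c C := by
  obtain ⟨δ, hδ, h⟩ := Metric.uniformContinuousOn_iff_le.1 hu 1 one_pos
  have h1 : Osc S u δ 1 := fun t ht t' ht' h' => by
    rw [← dist_eq_norm]; exact h t ht t' ht' h'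
  have hn : ∀ n : ℕ, Osc S u (δ + n * δ) (1 + n) := by
    intro n
    induction n with
    | zero => simpa using h1
    | succ n ih =>
      refine (ih.add hS (by positivity) hδ.le h1).mono (le_of_eq ?_) (le_of_eq ?_) <;>
        push_cast <;> ring
  obtain ⟨n, hn'⟩ := exists_nat_ge (c / δ)
  refine ⟨1 + n, by positivity, (hn n).mono ?_ le_rfl⟩
  rw [div_le_iff₀ hδ] at hn'
  linarith

lemma bdd_of_uc {S : Set ℝ} (hS : S.OrdConnected) {u : ℝ → X} (hu : UniformContinuousOn u S)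
    (K : ℝ) : ∃ C, ∀ t ∈ S, |t| ≤ K → ‖u t‖ ≤ C := by
  obtain ⟨C, -, h⟩ := osc_of_uc hS hu (K + K)
  by_cases hne : ∃ s ∈ S, |s| ≤ K
  · obtain ⟨s, hs, hK⟩ := hne
    refine ⟨C + ‖u s‖, fun t ht hK' => ?_⟩
    have := h t ht s hs ((abs_sub _ _).trans (by linarith))
    have h2 := norm_add_le (u t - u s) (u s)
    rw [sub_add_cancel] at h2
    linarith
  · exact ⟨0, fun t ht hK => (hne ⟨t, ht, hK⟩).elim⟩

lemma glue {J : Set ℝ} {w : ℝ → X} (h1 : ∀ K, UniformContinuousOn w (J ∩ Icc (-K) K))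
    (h2 : ∀ ε > 0, ∃ R, ∀ t ∈ J, R ≤ |t| → ‖w t‖ ≤ ε) : UniformContinuousOn w J := by
  rw [Metric.uniformContinuousOn_iff_le]
  intro ε hε
  obtain ⟨R, hR⟩ := h2 (ε / 2) (by positivity)
  obtain ⟨δ, hδ, h⟩ := Metric.uniformContinuousOn_iff_le.1 (h1 (R + 1)) ε hε
  refine ⟨min δ 1, by positivity, fun x hx y hy hxy => ?_⟩
  have e1 : |x - y| ≤ 1 := hxy.trans (min_le_right _ _)
  by_cases hb : R ≤ |x| ∧ R ≤ |y|
  · have := norm_sub_le (w x) (w y)
    have a1 := hR x hx hb.1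
    have a2 := hR y hy hb.2
    rw [dist_eq_norm]; linarith
  · have e2 := abs_abs_sub_abs_le_abs_sub x y
    have e3 := abs_le.1 (e2.trans e1)
    have e4 : |x| ≤ R + 1 ∧ |y| ≤ R + 1 := by
      rcases not_and_or.1 hb with hb | hb <;> constructor <;> linarith [not_le.1 hb]
    exact h x ⟨hx, abs_le.1 e4.1⟩ y ⟨hy, abs_le.1 e4.2⟩ (hxy.trans (min_le_left _ _))

lemma uc_cont {Y : Type*} [UniformSpace Y] {a : ℝ → Y} (ha : Continuous a) (J : Set ℝ) (K : ℝ) :
    UniformContinuousOn a (J ∩ Icc (-K) K) :=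
  (isCompact_Icc.uniformContinuousOn_of_continuous ha.continuousOn).mono inter_subset_right

variable [NormedSpace ℂ X]

lemma uc_smul {J : Set ℝ} (hJ : J.OrdConnected) {K : ℝ} {a : ℝ → ℂ} (ha : Continuous a)
    {w : ℝ → X} (hw : UniformContinuousOn w (J ∩ Icc (-K) K)) :
    UniformContinuousOn (fun t => a t • w t) (J ∩ Icc (-K) K) := by
  have hS : (J ∩ Icc (-K) K).OrdConnected := hJ.inter ordConnected_Icc
  have ha' := uc_cont ha J K
  obtain ⟨C, hC⟩ := bdd_of_uc hS hw K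
  obtain ⟨D, hD⟩ := bdd_of_uc hS ha' K
  rw [uc_iff] at *
  have hev : ∀ᶠ p : ℝ × ℝ in 𝓤 ℝ ⊓ 𝓟 ((J ∩ Icc (-K) K) ×ˢ (J ∩ Icc (-K) K)),
      p.1 ∈ J ∩ Icc (-K) K ∧ p.2 ∈ J ∩ Icc (-K) K :=
    Eventually.filter_mono inf_le_right (eventually_principal.2 fun p hp => hp)
  have t1 := ha'.zero_smul_isBoundedUnder_le (g := fun p : ℝ × ℝ => w p.1)
    ⟨C, eventually_map.2 (hev.mono fun p hp => hC _ hp.1 (abs_le.2 hp.1.2))⟩
  have t2 := Filter.IsBoundedUnder.smul_tendsto_zero (f := fun p : ℝ × ℝ => a p.2)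
    ⟨D, eventually_map.2 (hev.mono fun p hp => hD _ hp.2 (abs_le.2 hp.2.2))⟩ hw
  have := t1.add t2
  rw [add_zero] at this
  exact this.congr fun p => by simp only [sub_smul, smul_sub]; abel

/-- The half-period shift. -/
noncomputable def sg (t : ℝ) : ℝ :=
  √((max t 0) ^ 2 + Real.pi * min (max t 0) 1) - √((max (-t) 0) ^ 2 - Real.pi)

lemma sg_cont : Continuous sg := by unfold sg; fun_prop

lemma sg_pos {t : ℝ} (ht : 0 ≤ t) : sg t = √(t ^ 2 + Real.pi * min t 1) := by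
  have := Real.pi_pos
  rw [sg, max_eq_left ht, max_eq_right (by linarith : -t ≤ 0),
    Real.sqrt_eq_zero_of_nonpos (by linarith : (0:ℝ) ^ 2 - Real.pi ≤ 0), sub_zero]

lemma sg_neg {t : ℝ} (ht : t ≤ 0) : sg t = -√(t ^ 2 - Real.pi) := by
  rw [sg, max_eq_right ht, max_eq_left (by linarith : 0 ≤ -t)]
  simp

lemma sg_ge (t : ℝ) : t ≤ sg t := by
  have := Real.pi_pos
  rcases le_total 0 t with ht | ht
  · rw [sg_pos ht]
    have : 0 ≤ min t 1 := le_min ht zero_le_one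
    exact Real.le_sqrt_of_sq_le (by nlinarith)
  · rw [sg_neg ht, le_neg]
    exact Real.sqrt_le_iff.2 ⟨by linarith, by nlinarith⟩

lemma sg_le (t : ℝ) : sg t ≤ t + 2 := by
  have := Real.pi_pos
  have := Real.pi_le_four
  rcases le_total 0 t with ht | ht
  · rw [sg_pos ht]
    have : min t 1 ≤ 1 := min_le_right _ _
    exact Real.sqrt_le_iff.2 ⟨by linarith, by nlinarith⟩
  · rw [sg_neg ht, neg_le]
    rcases le_total (-2) t with h | h
    · exact le_trans (by linarith) (Real.sqrt_nonneg _)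
    · exact Real.le_sqrt_of_sq_le (by nlinarith)

lemma sg_sq {t : ℝ} (ht : 2 ≤ |t|) :
    sg t ^ 2 = t ^ 2 + Real.pi ∨ sg t ^ 2 = t ^ 2 - Real.pi := by
  have := Real.pi_pos
  have := Real.pi_le_four
  rcases le_total 0 t with h | h
  · rw [abs_of_nonneg h] at ht
    left
    rw [sg_pos h, min_eq_right (by linarith), mul_one, Real.sq_sqrt (by positivity)]
  · rw [abs_of_nonpos h] at ht
    right
    rw [sg_neg h, neg_sq, Real.sq_sqrt (by nlinarith)]

lemma sg_small {t : ℝ} (ht : 2 ≤ |t|) : (sg t - t) * |t| ≤ 4 := by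
  have := Real.pi_pos
  have := Real.pi_le_four
  have h1 := sg_ge t
  rcases le_total 0 t with h | h
  · have : sg t ^ 2 ≤ t ^ 2 + 4 := by rcases sg_sq ht with e | e <;> linarith
    rw [abs_of_nonneg h] at *
    nlinarith
  · have h2 : t ^ 2 - 4 ≤ sg t ^ 2 := by rcases sg_sq ht with e | e <;> linarith
    have h3 : sg t ≤ 0 := by rw [sg_neg h]; simp
    rw [abs_of_nonpos h] at *
    nlinarith

lemma sg_close {δ : ℝ} (hδ : 0 < δ) {t : ℝ} (ht : max 2 (4 / δ) ≤ |t|) : |t - sg t| ≤ δ := by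
  have h1 := sg_small ((le_max_left _ _).trans ht)
  have h2 := (le_max_right _ _).trans ht
  have h3 := sg_ge t
  rw [div_le_iff₀ hδ] at h2
  have h4 : 0 < |t| := lt_of_lt_of_le two_pos ((le_max_left _ _).trans ht)
  rw [abs_sub_comm, abs_of_nonneg (by linarith)]
  exact le_of_mul_le_mul_right (by nlinarith) h4

/-- The chirp. -/
noncomputable def g (t : ℝ) : ℂ := Complex.exp (Complex.I * (t : ℂ) ^ 2)

lemma g_cont : Continuous g := by unfold g; fun_prop

lemma g_norm (t : ℝ) : ‖g t‖ = 1 := by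
  have := Complex.norm_exp_I_mul_ofReal (t ^ 2)
  rwa [Complex.ofReal_pow] at this

lemma g_ne (t : ℝ) : g t ≠ 0 := Complex.exp_ne_zero _

lemma g_sg {t : ℝ} (ht : 2 ≤ |t|) : g (sg t) = -g t := by
  unfold g
  rcases sg_sq ht with e | e
  · rw [← Complex.ofReal_pow, e]; push_cast
    rw [mul_add, Complex.exp_add, mul_comm Complex.I (Real.pi : ℂ), Complex.exp_pi_mul_I]; ring
  · rw [← Complex.ofReal_pow, e]; push_cast
    rw [mul_sub, Complex.exp_sub, mul_comm Complex.I (Real.pi : ℂ), Complex.exp_pi_mul_I]; ring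

end Pool.Agent.H43.Dlt
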