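import Pool.Agent.H43.Dlt1

namespace Pool.Agent.H43.Dlt

open Set Filter Topology MeasureTheory
open scoped Uniformity Pointwise

variable {X : Type*} [NormedAddCommGroup X] [NormedSpace ℂ X]

/-- Membership in `UC + g UC`. -/
def InA (J : Set ℝ) (h : ℝ → X) : Prop :=
  ∃ u v : ℝ → X, UniformContinuousOn u J ∧ UniformContinuousOn v J ∧
    ∀ t ∈ J, h t = u t + g t • v t

/-- The explicit second component. -/
noncomputable def V (h : ℝ → X) (t : ℝ) : X := ((g t)⁻¹ / 2) • (h t - h (sg t))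

lemma gs (t : ℝ) (x : X) : ‖g t • x‖ = ‖x‖ := by rw [norm_smul, g_norm, one_mul]

lemma V_norm (h : ℝ → X) (t : ℝ) : ‖V h t‖ = ‖h t - h (sg t)‖ / 2 := by
  rw [V, norm_smul, norm_div, norm_inv, g_norm]; simp; ring

lemma decomp {J : Set ℝ} (hJ : IsUpperSet J) {h : ℝ → X} (hh : InA J h) :
    UniformContinuousOn (V h) J ∧ UniformContinuousOn (fun t => h t - g t • V h t) J := by
  obtain ⟨u, v, hu, hv, hh⟩ := hh
  have hO := hJ.ordConnected
  have l1 : ∀ K, UniformContinuousOn h (J ∩ Icc (-K) K) := fun K =>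
    (uc_add (hu.mono inter_subset_left) (uc_smul hO g_cont (hv.mono inter_subset_left))).congr
      fun t ht => (hh t ht.1).symm
  have l2 : ∀ K, UniformContinuousOn (fun t => h (sg t)) (J ∩ Icc (-K) K) := fun K =>
    (l1 (K + 2)).comp (uc_cont sg_cont J K) fun t ht =>
      ⟨hJ (sg_ge t) ht.1, by linarith [sg_ge t, ht.2.1], by linarith [sg_le t, ht.2.2]⟩
  have l3 : ∀ K, UniformContinuousOn (fun t => V h t - v t) (J ∩ Icc (-K) K) := fun K =>
    uc_sub (uc_smul hO (a := fun t => (g t)⁻¹ / 2) ((g_cont.inv₀ g_ne).div_const 2)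
      (uc_sub (l1 K) (l2 K))) (hv.mono inter_subset_left)
  have l4 : ∀ ε > 0, ∃ R, ∀ t ∈ J, R ≤ |t| → ‖V h t - v t‖ ≤ ε := by
    intro ε hε
    obtain ⟨δ, hδ, h1⟩ := Metric.uniformContinuousOn_iff_le.1 hu ε hε
    obtain ⟨δ', hδ', h2⟩ := Metric.uniformContinuousOn_iff_le.1 hv ε hε
    refine ⟨max 2 (4 / min δ δ'), fun t ht hR => ?_⟩
    have c := sg_close (lt_min hδ hδ') hR
    have hs := hJ (sg_ge t) ht
    have a1 := h1 t ht _ hs (c.trans (min_le_left _ _))
    have a2 := h2 t ht _ hs (c.trans (min_le_right _ _))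
    rw [dist_eq_norm] at a1 a2
    have e : V h t - v t = ((g t)⁻¹ / 2) • (u t - u (sg t)) - (1 / 2 : ℂ) • (v t - v (sg t)) := by
      rw [V, hh t ht, hh _ hs, g_sg ((le_max_left _ _).trans hR)]
      have := g_ne t
      match_scalars <;> field_simp <;> ring
    rw [e]
    refine (norm_sub_le _ _).trans ?_
    rw [norm_smul, norm_smul, norm_div, norm_inv, g_norm]
    simp only [inv_one, Complex.norm_ofNat, one_div, norm_inv]
    linarith
  refine ⟨(uc_add hv (glue l3 l4)).congr fun t _ => by simp, ?_⟩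
  have l5 : UniformContinuousOn (fun t => g t • (V h t - v t)) J :=
    glue (fun K => uc_smul hO g_cont (l3 K)) fun ε hε => by simpa only [gs] using l4 ε hε
  refine (uc_sub hu l5).congr fun t ht => ?_
  simp only [hh t ht, smul_sub]; abel

/-- The modulation produced by the shift `π / 2`. -/
noncomputable def e (t : ℝ) : ℂ :=
  Complex.exp (Complex.I * ((Real.pi * t + (Real.pi / 2) ^ 2 : ℝ) : ℂ))

lemma es (t : ℝ) (x : X) : ‖e t • x‖ = ‖x‖ := by
  rw [norm_smul, e, Complex.norm_exp_I_mul_ofReal, one_mul]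

lemma g_shift (t : ℝ) : g (t + Real.pi / 2) = g t * e t := by
  rw [g, g, e, ← Complex.exp_add]; congr 1; push_cast; ring

lemma e_one (t : ℝ) : e (t + 1) = -e t := by
  have : Complex.I * ((Real.pi * (t + 1) + (Real.pi / 2) ^ 2 : ℝ) : ℂ) =
      Complex.I * ((Real.pi * t + (Real.pi / 2) ^ 2 : ℝ) : ℂ) + Real.pi * Complex.I := by
    push_cast; ring
  rw [e, e, this, Complex.exp_add, Complex.exp_pi_mul_I]; ring

lemma e_lip (s t : ℝ) : ‖e s - e t‖ ≤ 4 * |t - s| := by
  have : e s - e t = e t • (Complex.exp (Complex.I * ((Real.pi * (s - t) : ℝ) : ℂ)) - 1) := by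
    rw [smul_eq_mul, mul_sub, mul_one, e, e, ← Complex.exp_add]; congr 2; push_cast; ring
  rw [this, es]
  refine Real.norm_exp_I_mul_ofReal_sub_one_le.trans ?_
  rw [Real.norm_eq_abs, abs_mul, abs_of_pos Real.pi_pos, abs_sub_comm]
  exact mul_le_mul_of_nonneg_right Real.pi_le_four (abs_nonneg _)

lemma osc_of_shift {J : Set ℝ} (hJ : IsUpperSet J) {h : ℝ → X} (h1 : InA J h)
    (h2 : InA J fun t => h (t + Real.pi / 2)) : ∃ C, Osc J h 2 C := by
  obtain ⟨u, v, hu, hv, hh⟩ := h1
  obtain ⟨u', v', hu', hv', hh'⟩ := h2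
  have hO := hJ.ordConnected
  obtain ⟨c1, p1, o1⟩ := osc_of_uc hO hu 2
  obtain ⟨c2, p2, o2⟩ := osc_of_uc hO hv 2
  obtain ⟨c3, p3, o3⟩ := osc_of_uc hO hu' 2
  obtain ⟨c4, p4, o4⟩ := osc_of_uc hO hv' 2
  have b0 := Real.pi_pos
  have b1 := Real.pi_le_four
  set b := Real.pi / 2 with hb
  have mem : ∀ t ∈ J, t + b ∈ J := fun t ht => hJ (by linarith) ht
  set z : ℝ → X := fun t => e t • v (t + b) - v' t with hz
  have gz : ∀ t ∈ J, g t • z t = u' t - u (t + b) := fun t ht => by
    have a : h (t + b) = u' t + g t • v' t := hh' t ht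
    rw [hh _ (mem t ht), g_shift, mul_smul] at a
    rw [hz]; simp only [smul_sub]
    rw [sub_eq_sub_iff_add_eq_add, add_comm, a]
  have zb : ∀ t ∈ J, 16 ≤ |t| → 2 * ‖z t‖ ≤ ‖v (t + b)‖ + (c1 + c2 + c3 + c4) := by
    intro t ht hR
    have hs := hJ (sg_ge t) ht
    have c : |t - sg t| ≤ 1 / 4 := sg_close (by norm_num) (max_le (by linarith) (by linarith))
    have c' : |t + b - (sg t + b)| ≤ 2 := by rw [add_sub_add_right_eq_sub]; linarith
    have a1 : ‖z t + z (sg t)‖ ≤ c3 + c1 := by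
      have : g t • (z t + z (sg t)) = (u' t - u' (sg t)) - (u (t + b) - u (sg t + b)) := by
        have q := gz _ hs
        rw [g_sg (by linarith), neg_smul, neg_eq_iff_eq_neg] at q
        rw [smul_add, gz t ht, q]; abel
      rw [← gs t, this]
      exact (norm_sub_le _ _).trans (add_le_add (o3 t ht _ hs (by linarith))
        (o1 _ (mem t ht) _ (mem _ hs) c'))
    have a2 : ‖z t - z (sg t)‖ ≤ ‖v (t + b)‖ + c2 + c4 := by
      have : z t - z (sg t) = -((e (sg t) - e t) • v (t + b)) +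
          e (sg t) • (v (t + b) - v (sg t + b)) - (v' t - v' (sg t)) := by
        simp only [hz, sub_smul, smul_sub]; abel
      rw [this]
      refine (norm_sub_le _ _).trans (add_le_add ((norm_add_le _ _).trans (add_le_add ?_ ?_))
        (o4 t ht _ hs (by linarith)))
      · rw [norm_neg, norm_smul]
        have := e_lip (sg t) t
        exact mul_le_of_le_one_left (norm_nonneg _) (by linarith)
      · rw [es]; exact o2 _ (mem t ht) _ (mem _ hs) c'
    have a3 := norm_add_le (z t + z (sg t)) (z t - z (sg t))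
    have a4 : z t + z (sg t) + (z t - z (sg t)) = (2 : ℂ) • z t := by rw [two_smul]; abel
    rw [a4, norm_smul, Complex.norm_ofNat] at a3
    linarith
  have vb : ∀ t ∈ J, 17 ≤ |t| → ‖v t‖ ≤ 4 * (c1 + c2 + c3 + c4) := by
    intro t ht hR
    have ht1 : t + 1 ∈ J := hJ (by linarith) ht
    have z1 := zb t ht (by linarith)
    have z2 := zb (t + 1) ht1 (by
      have := abs_add_le (t + 1) (-1)
      rw [add_neg_cancel_right, abs_neg, abs_one] at this
      linarith)
    have w1 := o2 _ (mem t ht) _ (mem _ ht1) (by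
      rw [show t + b - (t + 1 + b) = -1 by ring]; norm_num)
    have w2 := o4 _ ht _ ht1 (by rw [show t - (t + 1) = -1 by ring]; norm_num)
    have w3 := o2 _ ht _ (mem _ ht) (by
      rw [show t - (t + b) = -b by ring, abs_neg, abs_of_pos (by linarith)]; linarith)
    have q : e t • (v (t + b) + v (t + 1 + b)) = z t - z (t + 1) + (v' t - v' (t + 1)) := by
      simp only [hz, e_one, neg_smul, smul_add]; abel
    have a1 : ‖v (t + b) + v (t + 1 + b)‖ ≤ ‖z t‖ + ‖z (t + 1)‖ + c4 := by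
      rw [← es t, q]
      exact (norm_add_le _ _).trans (add_le_add (norm_sub_le _ _) w2)
    have a3 := norm_add_le (v (t + b) + v (t + 1 + b)) (v (t + b) - v (t + 1 + b))
    have a4 : v (t + b) + v (t + 1 + b) + (v (t + b) - v (t + 1 + b)) = (2 : ℂ) • v (t + b) := by
      rw [two_smul]; abel
    rw [a4, norm_smul, Complex.norm_ofNat] at a3
    have a5 := norm_sub_norm_le (v (t + 1 + b)) (v (t + b))
    rw [norm_sub_rev] at a5
    have a6 := norm_sub_norm_le (v t) (v (t + b))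
    linarith
  obtain ⟨C, hC⟩ := bdd_of_uc hO hv 17
  have vb' : ∀ t ∈ J, ‖v t‖ ≤ max C (4 * (c1 + c2 + c3 + c4)) := fun t ht => by
    rcases le_total |t| 17 with q | q
    · exact (hC t ht q).trans (le_max_left _ _)
    · exact (vb t ht q).trans (le_max_right _ _)
  refine ⟨c1 + 2 * max C (4 * (c1 + c2 + c3 + c4)), fun t ht t' ht' hd => ?_⟩
  have : h t - h t' = (u t - u t') + (g t • v t - g t' • v t') := by
    rw [hh t ht, hh t' ht']; abel
  rw [this]
  refine (norm_add_le _ _).trans (add_le_add (o1 t ht t' ht' hd) ((norm_sub_le _ _).trans ?_))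
  rw [gs, gs]
  linarith [vb' t ht, vb' t' ht']

lemma InA.sub {J : Set ℝ} {h k : ℝ → X} (h1 : InA J h) (h2 : InA J k) :
    InA J fun t => h t - k t := by
  obtain ⟨u, v, hu, hv, hh⟩ := h1
  obtain ⟨u', v', hu', hv', hh'⟩ := h2
  refine ⟨_, _, uc_sub hu hu', uc_sub hv hv', fun t ht => ?_⟩
  simp only [hh t ht, hh' t ht, smul_sub]; abel

lemma InA.cont {J : Set ℝ} {h : ℝ → X} (h1 : InA J h) : ContinuousOn h J := by
  obtain ⟨u, v, hu, hv, hh⟩ := h1
  exact (hu.continuousOn.add (g_cont.continuousOn.smul hv.continuousOn)).congr hh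

end Pool.Agent.H43.Dlt
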