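import Pool.Agent.H43.Dlt2

namespace Pool.Agent.H43.Dlt

open Set Filter Topology MeasureTheory
open scoped Uniformity Pointwise

variable {X : Type*} [NormedAddCommGroup X] [NormedSpace ℂ X]

/-- The difference operator. -/
def D (f : ℝ → X) (s t : ℝ) : X := f (t + s) - f t

omit [NormedSpace ℂ X] in
lemma D_int {J : Set ℝ} (hJ : IsUpperSet J) {f : ℝ → X}
    (hf : ∀ a ∈ J, ∀ b ∈ J, IntegrableOn f (Icc a b)) {t : ℝ} (ht : t ∈ J) {h : ℝ} (hh : 0 ≤ h) :
    IntervalIntegrable (fun s => D f s t) volume 0 h := by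
  have h1 : IntervalIntegrable f volume t (t + h) :=
    (intervalIntegrable_iff_integrableOn_Icc_of_le (by linarith)).2
      (hf t ht _ (hJ (by linarith) ht))
  have h2 := h1.comp_add_left t
  rw [sub_self, add_sub_cancel_left] at h2
  exact h2.sub intervalIntegrable_const

omit [NormedSpace ℂ X] in
lemma osc_D_add {J : Set ℝ} (hJ : IsUpperSet J) {f : ℝ → X} {s r C C' : ℝ} (hr : 0 ≤ r)
    (h1 : Osc J (D f s) 2 C) (h2 : Osc J (D f r) 2 C') : Osc J (D f (s + r)) 2 (C + C') := by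
  intro t ht t' ht' hd
  have : D f (s + r) t - D f (s + r) t' =
      (D f s (t + r) - D f s (t' + r)) + (D f r t - D f r t') := by
    simp only [D, add_assoc, add_comm r s]; abel
  rw [this]
  exact (norm_add_le _ _).trans (add_le_add (h1 _ (hJ (by linarith) ht) _ (hJ (by linarith) ht')
    (by rwa [add_sub_add_right_eq_sub])) (h2 t ht t' ht' hd))

omit [NormedSpace ℂ X] in
lemma osc_D_sub {J : Set ℝ} (hJ : IsUpperSet J) {f : ℝ → X} {s r C C' : ℝ} (hr : 0 ≤ s - r)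
    (h1 : Osc J (D f s) 2 C) (h2 : Osc J (D f r) 2 C') : Osc J (D f (s - r)) 2 (C + C') := by
  intro t ht t' ht' hd
  have : D f (s - r) t - D f (s - r) t' =
      (D f s t - D f s t') - (D f r (t + (s - r)) - D f r (t' + (s - r))) := by
    simp only [D, add_assoc, sub_add_cancel]; abel
  rw [this]
  exact (norm_sub_le _ _).trans (add_le_add (h1 t ht t' ht' hd)
    (h2 _ (hJ (by linarith) ht) _ (hJ (by linarith) ht') (by rwa [add_sub_add_right_eq_sub])))

lemma osc_unif {J : Set ℝ} (hJ : IsUpperSet J) {f : ℝ → X}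
    (hf : ∀ a ∈ J, ∀ b ∈ J, IntegrableOn f (Icc a b)) (hA : ∀ a > 0, InA J (D f a)) (h : ℝ) :
    ∃ C, ∀ s, 0 ≤ s → s ≤ h → Osc J (D f s) 2 C := by
  have b0 := Real.pi_pos
  have o1 : ∀ s > 0, ∃ C, Osc J (D f s) 2 C := fun s hs => by
    refine osc_of_shift hJ (hA s hs) ?_
    have := (hA (Real.pi / 2 + s) (by positivity)).sub (hA (Real.pi / 2) (by positivity))
    simpa only [D, sub_sub_sub_cancel_right, add_assoc] using this
  obtain ⟨Q, hQP, hQc, hPQ⟩ := (TopologicalSpace.IsSeparable.of_separableSpace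
    {p : ℝ × ℝ | p.1 ∈ J ∧ p.2 ∈ J ∧ |p.1 - p.2| ≤ 2}).exists_countable_dense_subset
  set F : ℕ → Set ℝ := fun n => ⋂ p ∈ Q, {s | ‖D f s p.1 - D f s p.2‖ ≤ n} with hF
  have Fm : ∀ n, NullMeasurableSet (F n) (volume.restrict (Ioc (0:ℝ) 1)) := fun n =>
    NullMeasurableSet.biInter hQc fun p hp =>
      (((D_int hJ hf (hQP hp).1 zero_le_one).sub
        (D_int hJ hf (hQP hp).2.1 zero_le_one)).1.1.norm).nullMeasurableSet_le
        aestronglyMeasurable_const
  have Fo : ∀ n, ∀ s > 0, s ∈ F n → Osc J (D f s) 2 n := fun n s hs hn t ht t' ht' hd => by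
    have hc := (hA s hs).cont
    have c1 : ContinuousWithinAt (fun p : ℝ × ℝ => ‖D f s p.1 - D f s p.2‖) Q (t, t') :=
      (((hc t ht).comp (f := Prod.fst) (x := (t, t')) continuousWithinAt_fst
        fun p hp => (hQP hp).1).sub ((hc t' ht').comp (f := Prod.snd) (x := (t, t'))
        continuousWithinAt_snd fun p hp => (hQP hp).2.1)).norm
    exact c1.closure_le (hPQ ⟨ht, ht', hd⟩) continuousWithinAt_const
      fun p hp => mem_iInter₂.1 hn p hp
  obtain ⟨n, hn⟩ : ∃ n, (volume.restrict (Ioc (0:ℝ) 1)) (F n) ≠ 0 := by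
    by_contra hc
    push Not at hc
    have h0 := measure_iUnion_null hc
    have : Ioc (0:ℝ) 1 ⊆ ⋃ n, F n := fun s hs => by
      obtain ⟨C, hC⟩ := o1 s hs.1
      obtain ⟨n, hn⟩ := exists_nat_ge C
      exact mem_iUnion.2 ⟨n, mem_iInter₂.2 fun p hp =>
        (hC _ (hQP hp).1 _ (hQP hp).2.1 (hQP hp).2.2).trans hn⟩
    have := measure_mono_null this h0
    simp at this
  obtain ⟨G, hGF, hGm, hGe⟩ := (Fm n).exists_measurable_subset_ae_eq
  rw [← measure_congr hGe, Measure.restrict_apply hGm] at hn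
  have st := Measure.sub_mem_nhds_zero_of_addHaar_pos volume _ (hGm.inter measurableSet_Ioc)
    (pos_iff_ne_zero.2 hn)
  obtain ⟨δ, hδ, hb⟩ := Metric.mem_nhds_iff.1 st
  have o2 : ∀ s, 0 ≤ s → s ≤ δ / 2 → Osc J (D f s) 2 (n + n) := fun s h0 h1 => by
    obtain ⟨x, hx, y, hy, rfl⟩ := mem_sub.1 (hb (show s ∈ Metric.ball (0:ℝ) δ by
      rw [mem_ball_zero_iff, Real.norm_eq_abs, abs_of_nonneg h0]; linarith))
    exact osc_D_sub hJ h0 (Fo n x hx.2.1 (hGF hx.1)) (Fo n y hy.2.1 (hGF hy.1))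
  have o3 : ∀ k : ℕ, ∃ C, ∀ s, 0 ≤ s → s ≤ δ / 2 + k * (δ / 2) → Osc J (D f s) 2 C := by
    intro k
    induction k with
    | zero => exact ⟨_, fun s h0 h1 => o2 s h0 (by simpa using h1)⟩
    | succ k ih =>
      obtain ⟨C, hC⟩ := ih
      refine ⟨C + (n + n), fun s h0 h1 => ?_⟩
      have m0 : 0 ≤ min s (δ / 2) := le_min h0 (by linarith)
      have := osc_D_add hJ m0 (hC (s - min s (δ / 2)) (by linarith [min_le_left s (δ / 2)]) (by
        push_cast at h1
        have : (0:ℝ) ≤ k * (δ / 2) := by positivity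
        rcases min_choice s (δ / 2) with q | q <;> rw [q] <;> linarith))
        (o2 _ m0 (min_le_right _ _))
      rwa [sub_add_cancel] at this
  obtain ⟨k, hk⟩ := exists_nat_ge (h / (δ / 2))
  rw [div_le_iff₀ (by linarith)] at hk
  obtain ⟨C, hC⟩ := o3 k
  exact ⟨C, fun s h0 h1 => hC s h0 (by linarith)⟩

lemma uc_integral {J : Set ℝ} {W : ℝ → ℝ → X} {h C : ℝ} (hh : 0 ≤ h)
    (h1 : ∀ s ∈ Ioc 0 h, UniformContinuousOn (W s) J) (h2 : ∀ s ∈ Ioc 0 h, Osc J (W s) 2 C)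
    (h3 : ∀ t ∈ J, IntervalIntegrable (fun s => W s t) volume 0 h) :
    UniformContinuousOn (fun t => ∫ s in (0:ℝ)..h, W s t) J := by
  rw [uc_iff]
  have hev : ∀ᶠ p : ℝ × ℝ in 𝓤 ℝ ⊓ 𝓟 (J ×ˢ J), p.1 ∈ J ∧ p.2 ∈ J :=
    Eventually.filter_mono inf_le_right (eventually_principal.2 fun p hp => hp)
  have hev2 : ∀ᶠ p : ℝ × ℝ in 𝓤 ℝ ⊓ 𝓟 (J ×ˢ J), dist p.1 p.2 < 2 :=
    Eventually.filter_mono inf_le_left (Metric.dist_mem_uniformity two_pos)
  have := intervalIntegral.tendsto_integral_filter_of_dominated_convergence (μ := volume)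
    (a := 0) (b := h) (l := 𝓤 ℝ ⊓ 𝓟 (J ×ˢ J)) (F := fun p s => W s p.1 - W s p.2)
    (f := fun _ => 0) (fun _ => C)
    (hev.mono fun p hp => (intervalIntegrable_iff.1 ((h3 _ hp.1).sub (h3 _ hp.2))).1)
    ((hev.and hev2).mono fun p hp => Eventually.of_forall fun s hs =>
      h2 s (by rwa [uIoc_of_le hh] at hs) _ hp.1.1 _ hp.1.2 hp.2.le)
    intervalIntegrable_const
    (Eventually.of_forall fun s hs => uc_iff.1 (h1 s (by rwa [uIoc_of_le hh] at hs)))
  rw [intervalIntegral.integral_zero] at this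
  exact this.congr' (hev.mono fun p hp => intervalIntegral.integral_sub (h3 _ hp.1) (h3 _ hp.2))

lemma inA_integral {J : Set ℝ} (hJ : IsUpperSet J) {f : ℝ → X}
    (hf : ∀ a ∈ J, ∀ b ∈ J, IntegrableOn f (Icc a b)) (hA : ∀ a > 0, InA J (D f a)) {h : ℝ}
    (hh : 0 ≤ h) : InA J fun t => ∫ s in (0:ℝ)..h, D f s t := by
  obtain ⟨C, hC⟩ := osc_unif hJ hf hA h
  have vb : ∀ s ∈ Ioc 0 h, ∀ t ∈ J, ‖V (D f s) t‖ ≤ C / 2 := fun s hs t ht => by
    rw [V_norm]
    have := hC s hs.1.le hs.2 t ht _ (hJ (sg_ge t) ht)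
      (abs_le.2 ⟨by linarith [sg_le t], by linarith [sg_ge t]⟩)
    linarith
  have vi : ∀ t ∈ J, IntervalIntegrable (fun s => V (D f s) t) volume 0 h := fun t ht =>
    ((D_int hJ hf ht hh).sub (D_int hJ hf (hJ (sg_ge t) ht) hh)).smul ((g t)⁻¹ / 2)
  have ui : ∀ t ∈ J, IntervalIntegrable (fun s => D f s t - g t • V (D f s) t) volume 0 h :=
    fun t ht => (D_int hJ hf ht hh).sub ((vi t ht).smul (g t))
  refine ⟨_, _, uc_integral (C := C + C) hh (fun s hs => (decomp hJ (hA s hs.1)).2) ?_ ui,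
    uc_integral (C := C) hh (fun s hs => (decomp hJ (hA s hs.1)).1) ?_ vi, fun t ht => ?_⟩
  · intro s hs t ht t' ht' hd
    have : D f s t - g t • V (D f s) t - (D f s t' - g t' • V (D f s) t') =
        (D f s t - D f s t') - (g t • V (D f s) t - g t' • V (D f s) t') := by abel
    rw [this]
    refine (norm_sub_le _ _).trans (add_le_add (hC s hs.1.le hs.2 t ht t' ht' hd)
      ((norm_sub_le _ _).trans ?_))
    rw [gs, gs]
    linarith [vb s hs t ht, vb s hs t' ht']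
  · intro s hs t ht t' ht' _
    linarith [vb s hs t ht, vb s hs t' ht', norm_sub_le (V (D f s) t) (V (D f s) t')]
  · have q : IntervalIntegrable (fun s => g t • V (D f s) t) volume 0 h := (vi t ht).smul (g t)
    rw [intervalIntegral.integral_sub (D_int hJ hf ht hh) q, intervalIntegral.integral_smul,
      sub_add_cancel]

end Pool.Agent.H43.Dlt
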