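import Mathlib

set_option autoImplicit false
set_option linter.unusedSectionVars false

namespace Pool.Agent.H43.Dp

open Filter Topology Finset Real Function
open scoped InnerProductSpace

noncomputable section

variable {I : Type} [Fintype I] {w a b : I → ℝ} {L : Module.End ℝ (I → ℝ)} {n : ℕ} {κ : Fin n → ℝ}
  {ψ : Fin n → I → ℝ}

def ip (w a b : I → ℝ) : ℝ := ∑ i, w i * (a i * b i)

lemma ip_comm (w a b : I → ℝ) : ip w a b = ip w b a := by simp [ip, mul_comm]

lemma ip_sum (w a : I → ℝ) (c : Fin n → ℝ) (ψ : Fin n → I → ℝ) :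
    ip w a (∑ j, c j • ψ j) = ∑ j, c j * ip w a (ψ j) := by
  simp only [ip, Finset.sum_apply, Pi.smul_apply, smul_eq_mul, mul_sum]
  rw [sum_comm]
  exact sum_congr rfl fun _ _ => sum_congr rfl fun _ _ => by ring

structure Sp (w : I → ℝ) (L : Module.End ℝ (I → ℝ)) (κ : Fin n → ℝ) (ψ : Fin n → I → ℝ) : Prop where
  eig : ∀ j, L (ψ j) = (-κ j) • ψ j
  ex : ∀ a, a = ∑ j, ip w a (ψ j) • ψ j
  nrm : ∀ j, ip w (ψ j) (ψ j) = 1

lemma exists_sp (hw : ∀ i, 0 < w i) (h : ∀ a b, ip w (L a) b = ip w a (L b)) :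
    ∃ (n : ℕ) (κ : Fin n → ℝ) (ψ : Fin n → I → ℝ), Sp w L κ ψ := by
  have hs : ∀ i, √(w i) ≠ 0 := fun i => (sqrt_pos.2 (hw i)).ne'
  let D : (I → ℝ) ≃ₗ[ℝ] EuclideanSpace ℝ I :=
    (LinearEquiv.piCongrRight fun i => LinearEquiv.smulOfNeZero ℝ ℝ _ (hs i)).trans (WithLp.linearEquiv 2 ℝ _).symm
  have hD : ∀ a b, ⟪D a, D b⟫_ℝ = ip w a b := fun a b => by
    simp only [PiLp.inner_apply, ip]
    refine sum_congr rfl fun i _ => ?_
    change √(w i) * b i * (√(w i) * a i) = _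
    linear_combination (a i * b i) * mul_self_sqrt (hw i).le
  have hT : (D.toLinearMap ∘ₗ L ∘ₗ D.symm.toLinearMap).IsSymmetric := fun x y => by
    obtain ⟨a, rfl⟩ := D.surjective x
    obtain ⟨b, rfl⟩ := D.surjective y
    simp [hD, h]
  refine ⟨_, fun j => -hT.eigenvalues rfl j, fun j => D.symm (hT.eigenvectorBasis rfl j), fun j => D.injective ?_,
    fun a => D.injective ?_, fun j => ?_⟩
  · rw [neg_neg, map_smul, LinearEquiv.apply_symm_apply]; exact hT.apply_eigenvectorBasis rfl j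
  · simp only [map_sum, map_smul, ← hD, LinearEquiv.apply_symm_apply, real_inner_comm _ (D a)]
    exact ((hT.eigenvectorBasis rfl).sum_repr' _).symm
  · simp [← hD]

lemma Sp.pars (h : Sp w L κ ψ) (a b : I → ℝ) : ip w a b = ∑ j, ip w a (ψ j) * ip w b (ψ j) := by
  conv_lhs => rw [h.ex b, ip_sum]
  simp [mul_comm]

lemma Sp.form (h : Sp w L κ ψ) (a : I → ℝ) : -ip w a (L a) = ∑ j, κ j * ip w a (ψ j) ^ 2 := by
  conv_lhs => enter [1, 3]; rw [h.ex a]
  simp only [map_sum, map_smul, h.eig, smul_smul, ip_sum, ← sum_neg_distrib]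
  exact sum_congr rfl fun _ _ => by ring

lemma Sp.val (h : Sp w L κ ψ) (j : Fin n) : -ip w (ψ j) (L (ψ j)) = κ j := by
  have := h.nrm j
  simp only [ip, h.eig, Pi.smul_apply, smul_eq_mul] at this ⊢
  conv_rhs => rw [← mul_one (κ j), ← this, mul_sum]
  rw [← sum_neg_distrib]
  exact sum_congr rfl fun _ _ => by ring

def SubM (L : Module.End ℝ (I → ℝ)) (c : ℝ) : Prop :=
  ∀ h, 0 ≤ h → h * c ≤ 1 → ∀ (a : I → ℝ) B, (∀ i, |a i| ≤ B) → ∀ i, |a i + h * L a i| ≤ B

lemma Sp.contr (h : Sp w L κ ψ) {c B u : ℝ} (hm : SubM L c) (hu : 0 ≤ u) (ha : ∀ i, |a i| ≤ B) (i : I) :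
    |(∑ j, (exp (-κ j * u) * ip w a (ψ j)) • ψ j) i| ≤ B := by
  have k : ∀ s, 0 ≤ s → s * c ≤ 1 → ∀ m : ℕ, ∀ i, |(∑ j, ((1 + -κ j * s) ^ m * ip w a (ψ j)) • ψ j) i| ≤ B := by
    intro s h0 h1 m
    induction m with
    | zero => simpa only [pow_zero, one_mul, ← h.ex a]
    | succ m ih =>
      intro i
      convert hm s h0 h1 _ B ih i using 2
      simp only [map_sum, map_smul, h.eig, Finset.sum_apply, Pi.smul_apply, smul_eq_mul, mul_sum, ← sum_add_distrib]
      exact sum_congr rfl fun _ _ => by ring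
  simp only [Finset.sum_apply, Pi.smul_apply, smul_eq_mul] at k ⊢
  refine le_of_tendsto (tendsto_finsetSum univ fun j _ => ((tendsto_one_add_div_pow_exp (-κ j * u)).mul_const
    (ip w a (ψ j))).mul_const (ψ j i)).abs ?_
  filter_upwards [eventually_ge_atTop ⌈u * c⌉₊, eventually_gt_atTop 0] with m h1 h2
  have := k (u / m) (by positivity) (by
    rw [div_mul_eq_mul_div, div_le_one (by positivity)]
    exact (Nat.le_ceil _).trans (by exact_mod_cast h1)) m i
  simpa only [mul_div_assoc] using this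

lemma Sp.rep (h : Sp w L κ ψ) {c T δ : ℝ} (hm : SubM L c) (hT : 0 ≤ T) {m b : ℝ → (I → ℝ) →ₗ[ℝ] ℝ}
    (hd : ∀ a t, 0 ≤ t → HasDerivWithinAt (m · a) (m t (L a) + b t a) (Set.Ici 0) t)
    (hb : ∀ t ∈ Set.Icc 0 T, ∀ a, (∀ i, |a i| ≤ 1) → |b t a| ≤ δ) (ha : ∀ i, |a i| ≤ 1) :
    |m T a - ∑ j, exp (-κ j * T) * ip w a (ψ j) * m 0 (ψ j)| ≤ δ * T := by
  have := norm_image_sub_le_of_norm_deriv_le_segment' (a := 0) (b := T) (C := δ)
    (f := fun s => ∑ j, exp (-κ j * (T - s)) * ip w a (ψ j) * m s (ψ j))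
    (f' := fun s => b s (∑ j, (exp (-κ j * (T - s)) * ip w a (ψ j)) • ψ j)) (fun s hs => ?_)
    (fun s hs => hb s (Set.Ico_subset_Icc_self hs) _ (h.contr hm (by linarith [hs.2]) ha)) T (by simp [hT])
  · have e : m T a = ∑ j, ip w a (ψ j) * m T (ψ j) := by
      conv_lhs => rw [h.ex a]
      simp
    simpa [e] using this
  · refine (HasDerivWithinAt.fun_sum fun j _ => (((((hasDerivAt_id s).const_sub T).const_mul (-κ j)).exp.mul_const
      (ip w a (ψ j))).hasDerivWithinAt.mul ((hd (ψ j) s hs.1).mono fun x hx => hx.1))).congr_deriv ?_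
    simp only [map_sum, map_smul, h.eig, smul_eq_mul, id]
    exact sum_congr rfl fun _ _ => by ring

lemma jensen {J : Type} [Fintype J] {a κ : J → ℝ} (ha : ∀ j, 0 ≤ a j) (l : ℝ) :
    exp (-l) * ((1 + l) * ∑ j, a j - ∑ j, κ j * a j) ≤ ∑ j, exp (-κ j) * a j := by
  rw [mul_sum, ← sum_sub_distrib, mul_sum]
  refine sum_le_sum fun j _ => ?_
  have h1 := mul_le_mul_of_nonneg_left (add_one_le_exp (l - κ j)) (exp_pos (-l)).le
  rw [← exp_add, show -l + (l - κ j) = -κ j by ring] at h1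
  nlinarith [mul_le_mul_of_nonneg_right h1 (ha j)]

lemma compare {J K : Type} [Fintype J] [Fintype K] {a : J → K → ℝ} {l : J → ℝ} {κ : K → ℝ} {C μ t : ℝ}
    (ha : ∀ i j, 0 ≤ a i j) (h1 : ∀ i, ∑ j, a i j = 1) (h2 : ∀ i, ∑ j, κ j * a i j ≤ l i)
    (h3 : ∀ j, ∑ i, l i * a i j ≤ C * κ j) (h4 : ∀ j, μ - κ j ≤ μ * ∑ i, a i j) (hκ : ∀ j, 0 ≤ κ j)
    (hC : 0 < C) (hμ : 0 < μ) (ht : 0 ≤ t) :
    ∑ i, exp (-l i * t) ≤ ∑ j, exp (-κ j * t) * ∑ i, a i j ∧
    ∑ j, exp (-κ j * t) * ∑ i, a i j ≤ ∑ i, exp (-l i * (t / (2 * C))) + exp (-(μ / 2) * t) * Fintype.card J := by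
  constructor
  · simp only [mul_sum]
    rw [sum_comm]
    refine sum_le_sum fun i _ => ?_
    have := jensen (κ := fun j => κ j * t) (ha i) (l i * t)
    simp only [h1, mul_right_comm _ t, ← sum_mul, ← neg_mul] at this
    refine le_trans ?_ this
    refine le_mul_of_one_le_right (exp_pos _).le ?_
    nlinarith [mul_le_mul_of_nonneg_right (h2 i) ht]
  · have e1 : ∑ i, exp (-l i * (t / (2 * C))) + exp (-(μ / 2) * t) * Fintype.card J =
        ∑ j, (∑ i, exp (-l i * (t / (2 * C))) * a i j + exp (-(μ / 2) * t) * ∑ i, a i j) := by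
      rw [sum_add_distrib, sum_comm, ← mul_sum, sum_comm (f := fun j i => a i j)]
      simp [← mul_sum, h1]
    rw [e1]
    refine sum_le_sum fun j _ => ?_
    have s0 : 0 ≤ ∑ i, a i j := sum_nonneg fun i _ => ha i j
    have s1 : 0 ≤ ∑ i, exp (-l i * (t / (2 * C))) * a i j := sum_nonneg fun i _ => mul_nonneg (exp_pos _).le (ha i j)
    rcases le_total (κ j) (μ / 2) with c | c
    · have := jensen (κ := fun i => l i * (t / (2 * C))) (ha · j) (κ j * t)
      simp only [mul_right_comm _ (t / (2 * C)), ← sum_mul, ← neg_mul] at this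
      refine le_add_of_le_of_nonneg (le_trans ?_ this) (by positivity)
      gcongr
      have b1 : 1 / 2 ≤ ∑ i, a i j := by nlinarith [h4 j]
      have b2 := mul_le_mul_of_nonneg_right (h3 j) (show 0 ≤ t / (2 * C) by positivity)
      rw [show C * κ j * (t / (2 * C)) = κ j * t * (1 / 2) by field_simp] at b2
      nlinarith [mul_le_mul_of_nonneg_left b1 (mul_nonneg (hκ j) ht)]
    · refine le_add_of_nonneg_of_le s1 ?_
      gcongr

section cube
variable {K : Type} [Fintype K] [DecidableEq K] {p : ℝ} {g h : (K → Bool) → ℝ}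

def cw (p : ℝ) (ξ : K → Bool) : ℝ := ∏ e, if ξ e then p else 1 - p

def W (p : ℝ) (g : (K → Bool) → ℝ) : ℝ := ∑ ξ, cw p ξ * g ξ

def Ex (p : ℝ) (e : K) (g : (K → Bool) → ℝ) (ξ : K → Bool) : ℝ :=
  p * g (update ξ e true) + (1 - p) * g (update ξ e false)

lemma cw_pos (h0 : 0 < p) (h1 : p < 1) (ξ : K → Bool) : 0 < cw p ξ :=
  prod_pos fun e _ => by split_ifs <;> linarith

lemma W_const (c : ℝ) : W p (fun _ : K → Bool => c) = c := by
  have := prod_univ_sum (fun _ : K => (univ : Finset Bool)) fun _ b => if b then p else 1 - p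
  simp only [Fintype.piFinset_univ] at this
  simp [W, ← sum_mul, cw, ← this]

lemma W_add : W p (fun ξ => g ξ + h ξ) = W p g + W p h := by simp [W, mul_add, sum_add_distrib]

lemma W_sub : W p (fun ξ => g ξ - h ξ) = W p g - W p h := by simp [W, mul_sub]

lemma W_mul (c : ℝ) : W p (fun ξ => c * g ξ) = c * W p g := by simp [W, mul_sum, mul_left_comm]

lemma W_sum {J : Type} (s : Finset J) (F : J → (K → Bool) → ℝ) :
    W p (fun ξ => ∑ j ∈ s, F j ξ) = ∑ j ∈ s, W p (F j) := by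
  simp only [W, mul_sum]; exact sum_comm

lemma W_Ex (e : K) (g : (K → Bool) → ℝ) : W p (Ex p e g) = W p g := by
  have k : ∀ g : (K → Bool) → ℝ, 2 * W p g = ∑ ξ, (∏ i ∈ univ.erase e, if ξ i then p else 1 - p) * Ex p e g ξ := by
    intro g
    have hi : Involutive fun ξ : K → Bool => update ξ e (!ξ e) := fun ξ => by simp
    rw [two_mul, W]
    nth_rw 2 [← Equiv.sum_comp hi.toPerm]
    rw [← sum_add_distrib]
    refine sum_congr rfl fun ξ _ => ?_
    rw [Involutive.coe_toPerm]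
    simp only [cw, ← mul_prod_erase _ _ (mem_univ e), update_self, Ex]
    rw [prod_congr (s₂ := univ.erase e) (f := fun i => if update ξ e (!ξ e) i then p else 1 - p) rfl
      fun i hi => by rw [update_of_ne (ne_of_mem_erase hi)]]
    cases c : ξ e
    · rw [show update ξ e false = ξ by rw [← c, update_eq_self]]; simp; ring
    · rw [show update ξ e true = ξ by rw [← c, update_eq_self]]; simp; ring
  have := k (Ex p e g)
  rw [show Ex p e (Ex p e g) = Ex p e g by ext; simp only [Ex, update_idem]; ring, ← k] at this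
  linarith

lemma W_ExEx (e : K) (g h : (K → Bool) → ℝ) :
    W p (fun ξ => g ξ * Ex p e h ξ) = W p fun ξ => Ex p e g ξ * Ex p e h ξ := by
  rw [← W_Ex e]; congr 1; ext; simp only [Ex, update_idem]; ring

lemma W_var (e : K) (g : (K → Bool) → ℝ) :
    W p (fun ξ => (g ξ - Ex p e g ξ) ^ 2) = W p (fun ξ => g ξ ^ 2) - W p fun ξ => Ex p e g ξ ^ 2 := by
  rw [show (fun ξ => (g ξ - Ex p e g ξ) ^ 2) = fun ξ => g ξ ^ 2 - 2 * (g ξ * Ex p e g ξ) + Ex p e g ξ * Ex p e g ξ by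
    ext; ring, W_add, W_sub, W_mul, W_ExEx]
  simp only [sq]; ring

variable (h0 : 0 < p) (h1 : p < 1)
include h0 h1

lemma W_mono (hg : ∀ ξ, g ξ ≤ h ξ) : W p g ≤ W p h :=
  sum_le_sum fun ξ _ => mul_le_mul_of_nonneg_left (hg ξ) (cw_pos h0 h1 ξ).le

lemma W_nonneg (hg : ∀ ξ, 0 ≤ g ξ) : 0 ≤ W p g := (W_const 0).ge.trans (W_mono h0 h1 hg)

lemma W_sq (g : (K → Bool) → ℝ) : W p g ^ 2 ≤ W p fun ξ => g ξ ^ 2 := by
  have := W_mono h0 h1 (g := fun ξ => 2 * W p g * g ξ - W p g ^ 2) (h := fun ξ => g ξ ^ 2)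
    fun ξ => by nlinarith [sq_nonneg (g ξ - W p g)]
  rw [W_sub, W_mul, W_const] at this
  linarith

lemma efron (g : (K → Bool) → ℝ) :
    W p (fun ξ => g ξ ^ 2) - W p g ^ 2 ≤ ∑ e, W p fun ξ => (g ξ - Ex p e g ξ) ^ 2 := by
  have k : ∀ (s : Finset K) (g : (K → Bool) → ℝ), DependsOn g s →
      W p (fun ξ => g ξ ^ 2) - W p g ^ 2 ≤ ∑ e ∈ s, W p fun ξ => (g ξ - Ex p e g ξ) ^ 2 := by
    intro s
    induction s using Finset.induction_on with
    | empty =>
      intro g hg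
      rw [show g = fun _ => g default from funext fun ξ => hg (by simp)]
      simp [W_const]
    | insert e s he ih =>
      intro g hg
      have a1 := ih (Ex p e g) fun x y h => by
        have : ∀ b, g (update x e b) = g (update y e b) := fun b => hg fun i hi => by
          by_cases c : i = e
          · simp [c]
          · simp [c, h i (by simpa [c] using hi)]
        simp only [Ex, this]
      have a2 : ∀ i ∈ s, (W p fun ξ => (Ex p e g ξ - Ex p i (Ex p e g) ξ) ^ 2) ≤ W p fun ξ => (g ξ - Ex p i g ξ) ^ 2 := by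
        intro i hi
        have c : i ≠ e := fun c => he (c ▸ hi)
        have b1 := W_var (p := p) e fun ξ => g ξ - Ex p i g ξ
        have b2 := W_nonneg h0 h1 fun ξ => sq_nonneg (g ξ - Ex p i g ξ - Ex p e (fun ξ => g ξ - Ex p i g ξ) ξ)
        refine le_of_eq_of_le ?_ (sub_nonneg.1 (b2.trans_eq b1))
        congr 1; ext; simp only [Ex, update_comm c]; ring
      rw [sum_insert he, W_var, ← W_Ex e g]
      linarith [sum_le_sum a2]
  exact k univ g fun x y h => congrArg g (funext fun i => h i (by simp))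

lemma edge (e : K) (g h : (K → Bool) → ℝ) : p ^ 2 * (W p g - W p h) ^ 2 ≤
    3 * (W p (fun ξ => (if ξ e then 1 else 0) * (g ξ - h ξ) ^ 2) + W p (fun ξ => (g ξ - Ex p e g ξ) ^ 2) +
      W p fun ξ => (h ξ - Ex p e h ξ) ^ 2) := by
  have a1 : ∀ g : (K → Bool) → ℝ, p * W p g = W p (fun ξ => (if ξ e then 1 else 0) * g ξ) -
      W p fun ξ => (if ξ e then 1 else 0) * (g ξ - Ex p e g ξ) := fun g => by
    rw [← W_sub, ← W_Ex e g, ← W_mul, ← W_Ex e fun ξ => _ - _]
    congr 1; ext; simp only [Ex, update_idem, update_self]; simp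
  have a2 : ∀ g : (K → Bool) → ℝ, W p (fun ξ => (if ξ e then 1 else 0) * g ξ) ^ 2 ≤
      W p fun ξ => (if ξ e then 1 else 0) * g ξ ^ 2 := fun g =>
    (W_sq h0 h1 _).trans_eq (by congr 1; ext ξ; split_ifs <;> simp)
  have a3 : ∀ g : (K → Bool) → ℝ, W p (fun ξ => (if ξ e then 1 else 0) * g ξ) ^ 2 ≤ W p fun ξ => g ξ ^ 2 := fun g =>
    (a2 g).trans (W_mono h0 h1 fun ξ => by split_ifs <;> simp [sq_nonneg])
  have a4 := a2 fun ξ => g ξ - h ξ
  have a5 := a3 fun ξ => g ξ - Ex p e g ξ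
  have a6 := a3 fun ξ => h ξ - Ex p e h ξ
  simp only [mul_sub _ (g _) (h _), W_sub] at a4
  rw [← mul_pow, mul_sub, a1 g, a1 h]
  generalize W p (fun ξ => (if ξ e then 1 else 0) * g ξ) = x at *
  generalize W p (fun ξ => (if ξ e then 1 else 0) * h ξ) = y at *
  generalize W p (fun ξ => (if ξ e then 1 else 0) * (g ξ - Ex p e g ξ)) = u at *
  generalize W p (fun ξ => (if ξ e then 1 else 0) * (h ξ - Ex p e h ξ)) = v at *
  nlinarith [sq_nonneg (x - y + u), sq_nonneg (x - y - v), sq_nonneg (u + v)]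
end cube

end

end Pool.Agent.H43.Dp
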