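import Mathlib

set_option autoImplicit false
set_option linter.unusedSectionVars false

namespace Pool.Agent.H43.Ex

open MeasureTheory ProbabilityTheory Filter Topology Finset Real
open scoped NNReal ENNReal Nat

lemma intg {α : Type} [MeasurableSpace α] (μ : Measure α) [IsFiniteMeasure μ] {f : α → ℝ}
    (hf : Measurable f) {C : ℝ} (h : ∀ x, |f x| ≤ C) : Integrable f μ :=
  Integrable.of_bound hf.aestronglyMeasurable C (ae_of_all _ h)

lemma abs_int {α : Type} [MeasurableSpace α] (μ : Measure α) [IsFiniteMeasure μ] {f : α → ℝ}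
    {C : ℝ} (h : ∀ x, |f x| ≤ C) : |∫ x, f x ∂μ| ≤ C * μ.real Set.univ :=
  norm_integral_le_of_norm_le_const (f := f) (ae_of_all _ h)

variable {ι : Type} [Countable ι] [MeasurableSpace ι] [DiscreteMeasurableSpace ι]
  {R : Kernel ι ι} {c : ℝ≥0}

lemma pow_univ (hR : ∀ S, R S Set.univ = c) (j : ℕ) (S : ι) : (R ^ j) S Set.univ = c ^ j := by
  induction j with
  | zero => simp [show (1 : Kernel ι ι) = Kernel.id from rfl, Kernel.id_apply]
  | succ j ih =>
    rw [Kernel.pow_succ_apply_eq_lintegral _ _ _ MeasurableSet.univ]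
    simp [hR, ih, pow_succ']

lemma pow_symm (h : ∀ S T, R S {T} = R T {S}) (j : ℕ) : ∀ S T, (R ^ j) S {T} = (R ^ j) T {S} := by
  induction j with
  | zero =>
    classical
    simp [show (1 : Kernel ι ι) = Kernel.id from rfl, Kernel.id_apply, Set.indicator_apply, Pi.single_apply, eq_comm]
  | succ j ih =>
    intro S T
    rw [Kernel.pow_succ_apply_eq_lintegral _ _ _ .of_discrete, add_comm,
      Kernel.pow_add_apply_eq_lintegral _ _ _ _ .of_discrete, lintegral_countable',
      lintegral_countable', pow_one]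
    exact tsum_congr fun b => by rw [h b, ih b, mul_comm]

lemma duhamel (hR : ∀ S, R S Set.univ = c) {u : ℝ → ι → ℝ} (hu : ∀ s S, |u s S| ≤ 1)
    (hd : ∀ s, 0 ≤ s → ∀ S, HasDerivWithinAt (u · S) (∫ T, u s T ∂(R S) - c * u s S) (Set.Ici 0) s)
    (t : ℝ) (k : ℕ) : ∀ S, ∀ s ∈ Set.Icc 0 t, |exp (c * s) * u s S -
      ∑ j ∈ range k, s ^ j / j ! * ∫ T, u 0 T ∂(R ^ j) S| ≤ exp (c * t) * ((c * s) ^ k / k !) := by
  have hf : ∀ j S, IsFiniteMeasure ((R ^ j) S) := fun j S => ⟨by simp [pow_univ hR]⟩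
  have hf1 : ∀ S, IsFiniteMeasure (R S) := fun S => ⟨by simp [hR]⟩
  induction k with
  | zero =>
    intro S s hs
    have := mul_le_mul (exp_le_exp.2 (mul_le_mul_of_nonneg_left hs.2 c.2)) (hu s S) (abs_nonneg _)
      (exp_pos _).le
    simpa [abs_mul] using this
  | succ k ih =>
    intro S
    have h1 : ∀ (s : ℝ) j, HasDerivAt (fun s : ℝ => s ^ (j + 1) / (j + 1)!) (s ^ j / j !) s :=
      fun s j => ((hasDerivAt_pow (j + 1) s).div_const _).congr_deriv (by
        rw [Nat.factorial_succ]; push_cast; field_simp)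
    have h2 : ∀ s, 0 ≤ s → HasDerivWithinAt (fun s => exp (c * s) * u s S -
        ∑ j ∈ range (k + 1), s ^ j / j ! * ∫ T, u 0 T ∂(R ^ j) S)
        (∫ T, (exp (c * s) * u s T - ∑ j ∈ range k, s ^ j / j ! * ∫ U, u 0 U ∂(R ^ j) T) ∂(R S))
        (Set.Ici 0) s := fun s hs => by
      have h3 : ∀ j, Integrable (fun T => ∫ U, u 0 U ∂(R ^ j) T) (R S) := fun j =>
        intg _ .of_discrete (C := 1 * (c : ℝ) ^ j) fun T => (abs_int _ (hu 0)).trans_eq (by
          simp [Measure.real, pow_univ hR])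
      simp only [sum_range_succ', pow_zero]
      refine ((((hasDerivAt_id s).const_mul (c : ℝ)).exp.hasDerivWithinAt.mul (hd s hs S)).sub
        ((HasDerivAt.fun_sum fun j _ => (h1 s j).mul_const _).add_const _).hasDerivWithinAt).congr_deriv ?_
      rw [integral_sub ((intg _ .of_discrete (hu s)).const_mul _)
        (integrable_finsetSum _ fun j _ => (h3 j).const_mul _),
        integral_finsetSum _ fun j _ => (h3 j).const_mul _]
      simp only [integral_const_mul, id]
      rw [sum_congr rfl fun j _ => by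
        rw [show ∫ U, u 0 U ∂(R ^ (j + 1)) S = _ from Kernel.integral_comp (η := R ^ j) (κ := R)
          (@intg _ _ _ (hf (j + 1) S) _ .of_discrete _ (hu 0))]]
      ring
    refine image_norm_le_of_norm_deriv_right_le_deriv_boundary
      (fun s hs => (h2 s hs.1).continuousWithinAt.mono fun x hx => hx.1)
      (fun s hs => (h2 s hs.1).mono fun x hx => hs.1.trans hx) ?_
      (B' := fun s => exp (c * t) * ((c * s) ^ k / k !) * c)
      (fun s => (((h1 (c * s) k).comp s ((hasDerivAt_id s).const_mul (c : ℝ))).const_mul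
        (exp (c * t))).congr_deriv (by ring)) fun s hs => ?_
    · simp [sum_range_succ', show (1 : Kernel ι ι) = Kernel.id from rfl, Kernel.id_apply]
    · exact (abs_int _ fun T => ih T s ⟨hs.1, hs.2.le⟩).trans_eq (by simp [Measure.real, hR])

structure Good (a : ι → ι → ℝ) (d : ℝ) : Prop where
  symm : ∀ S T, a S T = a T S
  nonneg : ∀ S T, 0 ≤ a S T
  row : ∀ S (F : Finset ι), ∑ T ∈ F, a T S ≤ 1
  diag : ∀ S, d ≤ a S S

lemma good {Ω : Type} [MeasurableSpace Ω] (ν : Measure Ω) [IsProbabilityMeasure ν]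
    [DecidableEq ι] (hR : ∀ S, R S Set.univ = c) (hs : ∀ S T, R S {T} = R T {S})
    {u : Ω → ℝ → ι → ℝ} (hu : ∀ ω s S, |u ω s S| ≤ 1) (hm : ∀ s S, Measurable (u · s S))
    (hd : ∀ ω s, 0 ≤ s → ∀ S,
      HasDerivWithinAt (u ω · S) (∫ T, u ω s T ∂(R S) - c * u ω s S) (Set.Ici 0) s)
    (ho : ∀ S T, ∫ ω, u ω 0 S * u ω 0 T ∂ν = if T = S then 1 else 0) {t : ℝ} (ht : 0 ≤ t) :
    Good (fun S T => ∫ ω, u ω 0 S * u ω t T ∂ν) (exp (-(c * t))) := by
  have hf : ∀ j S, IsFiniteMeasure ((R ^ j) S) := fun j S => ⟨by simp [pow_univ hR]⟩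
  have hb : ∀ ω s S s' S', |u ω s S * u ω s' S'| ≤ 1 := fun ω s S s' S' => by
    rw [abs_mul]; exact mul_le_one₀ (hu ..) (abs_nonneg _) (hu ..)
  have h1 : ∀ S T, Tendsto (fun k => ∑ j ∈ range k, t ^ j / j ! * ((R ^ j) T).real {S}) atTop
      (𝓝 (exp (c * t) * ∫ ω, u ω 0 S * u ω t T ∂ν)) := fun S T => by
    have h0 : ∀ j, Integrable (Function.uncurry fun ω U => u ω 0 S * u ω 0 U) (ν.prod ((R ^ j) T)) :=
      fun j => intg _ (measurable_from_prod_countable_left fun U => (hm 0 S).mul (hm 0 U))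
        fun x => hb ..
    have h2 : ∀ j, ((R ^ j) T).real {S} = ∫ ω, u ω 0 S * ∫ U, u ω 0 U ∂(R ^ j) T ∂ν := fun j => by
      simp only [← integral_const_mul]
      rw [integral_integral_swap (h0 j)]
      simp only [ho]
      rw [← integral_indicator_one .of_discrete]
      simp [Set.indicator_apply]
    have h3 : ∀ j, Integrable (fun ω => t ^ j / j ! * (u ω 0 S * ∫ U, u ω 0 U ∂(R ^ j) T)) ν :=
      fun j => by simpa only [← integral_const_mul, Function.uncurry] using (h0 j).integral_prod_left.const_mul _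
    rw [tendsto_iff_norm_sub_tendsto_zero]
    refine squeeze_zero (fun _ => norm_nonneg _) (fun k => ?_)
      (by simpa using (FloorSemiring.tendsto_pow_div_factorial_atTop (c * t)).const_mul (exp (c * t)))
    simp only [h2, ← integral_const_mul]
    simp only [integral_const_mul (u _ 0 S), integral_const_mul (t ^ _ / _ : ℝ)] at h3 ⊢
    simp only [← integral_const_mul (t ^ _ / _ : ℝ)]
    rw [← integral_finsetSum _ fun j _ => h3 j, ← integral_sub (integrable_finsetSum _ fun j _ => h3 j)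
      ((intg _ (f := fun ω => u ω 0 S * u ω t T) ((hm 0 S).mul (hm t T)) fun ω => hb ..).const_mul _)]
    refine (abs_int _ fun ω => ?_).trans_eq (by rw [probReal_univ, mul_one])
    refine le_trans ?_ (duhamel hR (hu ω) (hd ω) t k T t ⟨ht, le_rfl⟩)
    rw [abs_sub_comm]
    refine le_trans (le_of_eq ?_) (mul_le_of_le_one_left (abs_nonneg _) (hu ω 0 S))
    rw [← abs_mul, mul_sub, mul_sum]
    congr 2
    · ring
    · exact sum_congr rfl fun j _ => by ring
  have h0 := exp_pos (c * t)
  have hp : ∀ S T j, 0 ≤ t ^ j / j ! * ((R ^ j) T).real {S} := fun S T j => by positivity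
  refine ⟨fun S T => mul_left_cancel₀ h0.ne' (tendsto_nhds_unique (h1 S T) ?_),
    fun S T => (mul_nonneg_iff_of_pos_left h0).1 (ge_of_tendsto' (h1 S T) fun k =>
      sum_nonneg fun j _ => hp ..), fun S F => ?_, fun S => ?_⟩
  · simpa only [Measure.real, pow_symm hs _ S T] using h1 T S
  · rw [← mul_le_mul_iff_of_pos_left h0, mul_sum, mul_one]
    refine le_of_tendsto' (tendsto_finsetSum F fun T _ => h1 T S) fun k => ?_
    rw [sum_comm]
    refine le_trans (sum_le_sum fun j _ => ?_) (sum_le_exp_of_nonneg (by positivity) k)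
    rw [← mul_sum, sum_measureReal_singleton]
    refine (mul_le_mul_of_nonneg_left (measureReal_mono (Set.subset_univ _)) (by positivity)).trans_eq ?_
    simp [Measure.real, pow_univ hR, mul_pow]
    ring
  · rw [exp_neg, inv_le_iff_one_le_mul₀' h0]
    refine ge_of_tendsto (h1 S S) (eventually_atTop.2 ⟨1, fun k hk => ?_⟩)
    refine le_trans ?_ (single_le_sum (fun j _ => hp S S j) (mem_range.2 hk))
    simp [show (1 : Kernel ι ι) = Kernel.id from rfl, Kernel.id_apply, Measure.real]

lemma exists_R {J : Type} [Countable J] [DecidableEq ι] (σ : J → ι → ι) (hσ : ∀ p, Function.Involutive (σ p))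
    (w : J → ℝ) (hw : ∀ p, 0 ≤ w p) (h1 : ∀ S, Summable fun p => if σ p S = S then 0 else w p)
    (h2 : ∀ S, ∑' p, (if σ p S = S then 0 else w p) ≤ c) :
    ∃ R : Kernel ι ι, (∀ S, R S Set.univ = c) ∧ (∀ S T, R S {T} = R T {S}) ∧
      ∀ g : ι → ℝ, (∀ S, |g S| ≤ 1) → ∀ S,
        ∫ T, g T ∂(R S) - c * g S = ∑' p, w p * (g (σ p S) - g S) := by
  have h0 : ∀ S p, 0 ≤ if σ p S = S then 0 else w p := fun S p => by split_ifs <;> simp [hw]
  have h3 : ∀ S, (Measure.sum fun p => ENNReal.ofReal (if σ p S = S then 0 else w p) •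
      Measure.dirac (σ p S)) Set.univ = .ofReal (∑' p, if σ p S = S then 0 else w p) := fun S => by
    simp [-ENNReal.ofReal_zero, ENNReal.ofReal_tsum_of_nonneg (h0 S) (h1 S)]
  refine ⟨Kernel.ofFunOfCountable fun S => (Measure.sum fun p =>
    ENNReal.ofReal (if σ p S = S then 0 else w p) • Measure.dirac (σ p S)) +
      ENNReal.ofReal (c - ∑' p, if σ p S = S then 0 else w p) • Measure.dirac S, fun S => ?_,
    fun S T => ?_, fun g hg S => ?_⟩
  · change (_ + _ : Measure ι) _ = _
    rw [Measure.add_apply, h3, Measure.smul_apply, measure_univ, smul_eq_mul, mul_one,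
      ← ENNReal.ofReal_add (tsum_nonneg (h0 S)) (sub_nonneg.2 (h2 S))]
    simp
  · rcases eq_or_ne S T with rfl | h
    · rfl
    change (_ + _ : Measure ι) _ = (_ + _ : Measure ι) _
    simp only [Measure.add_apply, Measure.sum_apply _ (MeasurableSet.of_discrete (s := {_})),
      Measure.smul_apply, Measure.dirac_apply, Set.indicator_apply, Set.mem_singleton_iff, h, h.symm,
      if_false, smul_zero, add_zero]
    refine tsum_congr fun p => ?_
    by_cases h4 : σ p S = T
    · simp [h4, h, h.symm, show σ p T = S from h4 ▸ hσ p S]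
    · simp [h4, show σ p T ≠ S from fun h5 => h4 (h5 ▸ hσ p T)]
  · change ∫ T, g T ∂(_ + _ : Measure ι) - _ = _
    haveI : IsFiniteMeasure (Measure.sum fun p => ENNReal.ofReal (if σ p S = S then 0 else w p) •
      Measure.dirac (σ p S)) := ⟨by simp [h3]⟩
    rw [integral_add_measure (intg _ .of_discrete hg) ((intg _ .of_discrete hg).smul_measure (by simp)),
      integral_sum_dirac (by simp), integral_smul_measure, integral_dirac,
      ENNReal.toReal_ofReal (sub_nonneg.2 (h2 S))]
    simp only [ENNReal.toReal_ofReal (h0 S _), smul_eq_mul]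
    rw [sub_mul, ← tsum_mul_right, add_sub_assoc, sub_sub_cancel_left, ← sub_eq_add_neg,
      ← Summable.tsum_sub ?_ ((h1 S).mul_right _)]
    · exact tsum_congr fun p => by split_ifs with h <;> simp [h, mul_sub]
    · exact .of_norm_bounded (h1 S) fun p => by
        rw [norm_mul, norm_of_nonneg (h0 S p)]; exact mul_le_of_le_one_right (h0 S p) (hg _)

end Pool.Agent.H43.Ex
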