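import Pool.Agent.H43.Dp1
import Pool.Agent.H43.ExDual

set_option autoImplicit false
set_option linter.unusedSectionVars false

namespace Pool.Agent.H43.Dp

open MeasureTheory ProbabilityTheory Filter Topology Finset Real Function unitInterval Pool.Agent.H43.Ex
open MeasureTheory.Measure hiding sum_congr sum_comm sub_le_iff_le_add sum_smul_dirac

noncomputable section

variable {V : Type} [DecidableEq V] [MeasurableSpace V] (G : SimpleGraph V) [G.LocallyFinite]

/-- Environments: an open/closed status for each edge. -/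
abbrev Env := G.edgeSet → Bool

open Classical in
/-- The jump rate from `x` to `y`: one if `xy` is an open edge, zero otherwise. -/
def op (η : Env G) (x y : V) : ℝ := if h : G.Adj x y then (if η ⟨s(x, y), h⟩ then 1 else 0) else 0

/-- The generator of random walk on dynamical percolation, applied to a function `φ` of (position,
environment) that depends on the environment only through the edges in `A`. -/
def gen (μ p : ℝ) (A : Finset G.edgeSet) (φ : V × Env G → ℝ) (z : V × Env G) : ℝ :=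
  ∑ y ∈ G.neighborFinset z.1, op G z.2 z.1 y * (φ (y, z.2) - φ z) +
    μ * ∑ e ∈ A, (p * φ (z.1, update z.2 e true) + (1 - p) * φ (z.1, update z.2 e false) - φ z)

/-- `ρ t` is the law at time `t` of random walk on dynamical percolation with parameters `(μ, p)` started
at `o` with stationary environment: the Kolmogorov forward equation holds for bounded local functions. -/
structure Law (μ : ℝ) (p : I) (o : V) (ρ : ℝ → Measure (V × Env G)) : Prop where
  prob : ∀ t, IsProbabilityMeasure (ρ t)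
  init : ρ 0 = (dirac o).prod (infinitePi fun _ => bernoulliMeasure true false p)
  fwd : ∀ (A : Finset G.edgeSet) (φ : V × Env G → ℝ), (∃ B, ∀ z, |φ z| ≤ B) →
    (∀ x, DependsOn (fun η => φ (x, η)) A) → ∀ t, 0 ≤ t →
    HasDerivWithinAt (fun s => ∫ z, φ z ∂ρ s) (∫ z, gen G μ p A φ z ∂ρ t) (Set.Ici 0) t

variable {G} [Countable V] [DiscreteMeasurableSpace V] {μ D : ℝ} {p : I} {o : V} {ρ : ℝ → Measure (V × Env G)}
  {F : Finset V} {A : Finset G.edgeSet}

lemma op_mem (η : Env G) (x y : V) : 0 ≤ op G η x y ∧ op G η x y ≤ 1 := by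
  unfold op; split_ifs <;> simp

lemma op_symm (η : Env G) (x y : V) : op G η x y = op G η y x := by
  unfold op
  by_cases h : G.Adj x y
  · simp [h, h.symm, Sym2.eq_swap]
  · simp [h, G.adj_comm y]

lemma meas_loc {φ : V × Env G → ℝ} (h : ∀ x, DependsOn (fun η => φ (x, η)) A) : Measurable φ :=
  measurable_from_prod_countable_right fun x => by
    obtain ⟨g, hg⟩ := dependsOn_iff_exists_comp.1 (h x)
    rw [hg]
    exact (measurable_of_finite g).comp (Set.measurable_restrict _)

lemma meas_gen {φ : V × Env G → ℝ} (h : Measurable φ) (μ p : ℝ) : Measurable (gen G μ p A φ) :=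
  measurable_from_prod_countable_right fun x => by
    have h1 : ∀ y, Measurable fun η : Env G => op G η x y := fun y => by
      unfold op; split_ifs
      · exact Measurable.ite (by measurability) measurable_const measurable_const
      · exact measurable_const
    simp only [gen]
    have a1 : Measurable fun η : Env G => ∑ y ∈ G.neighborFinset x, op G η x y * (φ (y, η) - φ (x, η)) :=
      Finset.measurable_sum _ fun y _ => by fun_prop
    have a2 : Measurable fun η : Env G => ∑ e ∈ A, (p * φ (x, update η e true) + (1 - p) * φ (x, update η e false) -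
      φ (x, η)) := Finset.measurable_sum _ fun y _ => by fun_prop
    exact a1.add (a2.const_mul _)

lemma nb_abs (hD : ∀ x, (G.degree x : ℝ) ≤ D) (x : V) {g : V → ℝ} {B : ℝ} (hB : 0 ≤ B)
    (h : ∀ y, G.Adj x y → |g y| ≤ B) : |∑ y ∈ G.neighborFinset x, g y| ≤ D * B :=
  (abs_sum_le_sum_abs _ _).trans ((sum_le_card_nsmul _ _ B fun y hy => h y (by simpa using hy)).trans (by
    rw [nsmul_eq_mul]; gcongr; exact hD x))

lemma op_abs (η : Env G) (x y : V) {c B : ℝ} (h : |c| ≤ B) : |op G η x y * c| ≤ B := by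
  rw [abs_mul, abs_of_nonneg (op_mem η x y).1]
  exact (mul_le_of_le_one_left (abs_nonneg _) (op_mem η x y).2).trans h

lemma gen_bd (hD : ∀ x, (G.degree x : ℝ) ≤ D) {φ : V × Env G → ℝ} {B : ℝ} (h : ∀ z, |φ z| ≤ B) (μ p : ℝ) :
    ∃ C, ∀ z, |gen G μ p A φ z| ≤ C := by
  refine ⟨D * (B + B) + |μ| * (#A • (|p| * B + |1 - p| * B + B)), fun z => (abs_add_le _ _).trans (add_le_add
    (nb_abs hD _ (by linarith [abs_nonneg (φ z), h z]) fun y _ => op_abs _ _ _ ((abs_sub _ _).trans
      (add_le_add (h _) (h _)))) ?_)⟩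
  rw [abs_mul]
  gcongr
  refine (abs_sum_le_sum_abs _ _).trans (sum_le_card_nsmul _ _ _ fun e _ => (abs_sub _ _).trans
    (add_le_add ((abs_add_le _ _).trans ?_) (h _)))
  rw [abs_mul, abs_mul]
  gcongr <;> exact h _

def Deep (G : SimpleGraph V) (F : Finset V) (r : ℕ) (x : V) : Prop := ∀ y ∉ F, r ≤ G.dist x y

lemma Law.tail (h : Law G μ p o ρ) (hD : ∀ x, (G.degree x : ℝ) ≤ D) {r : ℕ} (hF : Deep G F r o) {t : ℝ} (ht : 0 ≤ t) :
    r * (ρ t).real {z | z.1 ∉ F} ≤ D * t := by
  haveI := h.prob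
  let φ : V × Env G → ℝ := fun z => (min (G.dist o z.1) r : ℕ)
  have h1 : ∀ z, |φ z| ≤ r := fun z => by
    simp only [φ, Nat.abs_cast]; exact_mod_cast min_le_right _ _
  have h2 : ∀ x, DependsOn (fun η => φ (x, η)) (∅ : Finset G.edgeSet) := fun _ _ _ _ => rfl
  have h3 := norm_image_sub_le_of_norm_deriv_le_segment' (a := 0) (b := t) (C := D * 1)
    (fun s hs => (h.fwd ∅ φ ⟨_, h1⟩ h2 s hs.1).mono fun x hx => hx.1) (fun s _ => (abs_int _ fun z => by
      rw [gen, sum_empty, mul_zero, add_zero]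
      refine nb_abs hD _ zero_le_one fun y hy => op_abs _ _ _ ?_
      have := hy.diff_dist_adj (u := o)
      simp only [φ]
      rw [abs_le, le_sub_iff_add_le, sub_le_iff_le_add, neg_add_le_iff_le_add]
      constructor <;> exact_mod_cast (by omega)).trans_eq (by simp)) t (by simp [ht])
  have h4 : ∫ z, φ z ∂ρ 0 = 0 := by
    rw [h.init, dirac_prod, integral_map measurable_prodMk_left.aemeasurable (meas_loc h2).aestronglyMeasurable]
    simp [φ]
  rw [h4, sub_zero, sub_zero, mul_one] at h3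
  refine le_trans ?_ (le_of_abs_le h3)
  refine le_trans ?_ (mul_meas_ge_le_integral_of_nonneg (ae_of_all _ fun z => by positivity) (intg _ (meas_loc h2) h1) r)
  gcongr
  · exact measure_ne_top _ _
  · intro hz; simp [φ, hF _ hz]

def intL {J Z : Type} [MeasurableSpace Z] (ν : Measure Z) (T : (J → ℝ) →ₗ[ℝ] Z → ℝ) (h : ∀ a, Integrable (T a) ν) :
    (J → ℝ) →ₗ[ℝ] ℝ where
  toFun a := ∫ z, T a z ∂ν
  map_add' a b := by rw [map_add]; exact integral_add (h a) (h b)
  map_smul' c a := by rw [map_smul]; exact integral_const_mul _ _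

def genL (μ p : ℝ) (A : Finset G.edgeSet) : Module.End ℝ (V × Env G → ℝ) where
  toFun := gen G μ p A
  map_add' a b := by
    ext; simp only [gen, Pi.add_apply, mul_sub, mul_add, sum_sub_distrib, sum_add_distrib]; ring
  map_smul' c a := by
    ext; simp only [gen, Pi.smul_apply, smul_eq_mul, RingHom.id_apply, mul_add, mul_sum]
    congr 1 <;> exact sum_congr rfl fun _ _ => by ring

lemma Law.rep (h : Law G μ p o ρ) (hD : ∀ x, (G.degree x : ℝ) ≤ D) {r : ℕ} (hr : 0 < r) (hF : Deep G F r o)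
    {J : Type} [Fintype J] {w a : J → ℝ} {L : Module.End ℝ (J → ℝ)} {n : ℕ} {κ : Fin n → ℝ} {ψ : Fin n → J → ℝ}
    (S : Sp w L κ ψ) {c T : ℝ} (hm : SubM L c) (hT : 0 ≤ T) (X : (J → ℝ) →ₗ[ℝ] V × Env G → ℝ)
    (x1 : ∀ a x, DependsOn (fun η => X a (x, η)) A) (x2 : ∀ a B, 0 ≤ B → (∀ i, |a i| ≤ B) → ∀ z, |X a z| ≤ B)
    (x3 : ∀ a z, z.1 ∉ F → X a z = 0)
    (x4 : ∀ t, 0 ≤ t → ∀ᵐ z ∂ρ t, z.1 ∈ F → ∀ a, gen G μ p A (X a) z = X (L a) z) (ha : ∀ i, |a i| ≤ 1) :
    |∫ z, X a z ∂ρ T - ∑ j, exp (-κ j * T) * ip w a (ψ j) * ∫ z, X (ψ j) z ∂ρ 0| ≤ D * (D * T / r) * T := by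
  haveI := h.prob
  have b1 : ∀ a, ∃ B, ∀ z, |X a z| ≤ B := fun a => ⟨‖a‖, x2 a _ (norm_nonneg _) (norm_le_pi_norm a)⟩
  have i1 : ∀ t a, Integrable (X a) (ρ t) := fun t a => let ⟨_, hB⟩ := b1 a; intg _ (meas_loc (x1 a)) hB
  have i2 : ∀ t a, Integrable (gen G μ p A (X a)) (ρ t) := fun t a =>
    let ⟨_, hB⟩ := b1 a
    let ⟨_, hC⟩ := gen_bd hD hB μ p
    intg _ (meas_gen (meas_loc (x1 a)) _ _) hC
  have hD0 : 0 ≤ D := (Nat.cast_nonneg _).trans (hD o)
  refine S.rep hm hT (m := fun t => intL (ρ t) X (i1 t))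
    (b := fun t => intL (ρ t) (genL μ p A ∘ₗ X - X ∘ₗ L) fun a => (i2 t a).sub (i1 t _)) (fun a t ht => ?_)
    (fun t ht a ha => ?_) ha
  · refine (h.fwd A _ (b1 a) (x1 a) t ht).congr_deriv ?_
    change _ = ∫ z, X (L a) z ∂ρ t + ∫ z, gen G μ p A (X a) z - X (L a) z ∂ρ t
    rw [integral_sub (i2 t a) (i1 t _)]; ring
  · have mF : MeasurableSet {z : V × Env G | z.1 ∉ F} := measurable_fst (MeasurableSet.of_discrete (s := {x | x ∉ F}))
    refine (norm_integral_le_of_norm_le (f := fun z => gen G μ p A (X a) z - X (L a) z)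
      ((integrable_const D).indicator mF) ?_).trans ?_
    · filter_upwards [x4 t ht.1] with z hz
      by_cases c : z.1 ∈ F
      · simp [hz c, c]
      · have : ∀ η, X a (z.1, η) = 0 := fun η => x3 _ _ c
        simp only [gen, this, x3 _ _ c, Set.indicator_of_mem (show z ∈ {z : V × Env G | z.1 ∉ F} from c)]
        simpa using nb_abs hD z.1 zero_le_one fun y _ => op_abs z.2 z.1 y (x2 a 1 zero_le_one ha (y, z.2))
    · rw [integral_indicator_const _ mF, smul_eq_mul, mul_comm]
      gcongr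
      rw [le_div_iff₀' (by positivity)]
      exact (h.tail hD hF ht.1).trans (by gcongr; exact ht.2)

lemma Law.transport (h : Law G μ p o ρ) (f : G ≃g G) :
    ∃ ρ', Law G μ p (f o) ρ' ∧ ∀ t, (ρ' t).real {z | z.1 = f o} = (ρ t).real {z | z.1 = o} := by
  let e1 : V ≃ᵐ V := ⟨f.toEquiv, .of_discrete, .of_discrete⟩
  let e2 : Env G ≃ᵐ Env G := .piCongrLeft (fun _ => Bool) f.mapEdgeSet
  let e := e1.prodCongr e2
  have h2 : ∀ η k, e2 η (f.mapEdgeSet k) = η k := fun η k =>
    Equiv.piCongrLeft_apply_apply (fun _ => Bool) f.mapEdgeSet η k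
  have he : ∀ x η, e (x, η) = (f x, e2 η) := fun _ _ => rfl
  haveI := h.prob
  refine ⟨fun t => (ρ t).map e, ⟨fun t => isProbabilityMeasure_map e.measurable.aemeasurable, ?_,
    fun A φ ⟨B, hB⟩ hA t ht => ?_⟩, fun t => ?_⟩
  · rw [h.init]
    refine (map_prod_map _ _ e1.measurable e2.measurable).symm.trans ?_
    rw [map_dirac' e1.measurable, infinitePi_map_piCongrLeft (fun _ => bernoulliMeasure true false p)]
    rfl
  · simp only [integral_map_equiv]
    refine (h.fwd (A.map f.mapEdgeSet.symm.toEmbedding) (fun z => φ (e z)) ⟨B, fun _ => hB _⟩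
      (fun x η η' c => hA (f x) fun k hk => ?_) t ht).congr_deriv (integral_congr_ae (ae_of_all _ fun z => ?_))
    · change e2 η k = e2 η' k
      rw [← f.mapEdgeSet.apply_symm_apply k, h2, h2]
      exact c _ (mem_coe.2 (mem_map_of_mem _ hk))
    · obtain ⟨x, η⟩ := z
      simp only [gen, he, sum_map]
      refine congrArg₂ _ ?_ (congrArg _ ?_)
      · refine sum_equiv f.toEquiv (fun i => by
          rw [G.mem_neighborFinset, G.mem_neighborFinset]; exact f.map_adj_iff.symm) fun y hy => ?_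
        have c : G.Adj x y := by simpa using hy
        have c' : G.Adj (f x) (f y) := f.map_adj_iff.2 c
        change op G η x y * _ = op G (e2 η) (f x) (f y) * _
        congr 1
        rw [op, op, dif_pos c, dif_pos c', ← h2 η ⟨s(x, y), c⟩]
        rfl
      · refine sum_congr rfl fun k _ => ?_
        have : ∀ b, e2 (update η (f.mapEdgeSet.symm k) b) = update (e2 η) k b := fun b => funext fun i => by
          obtain ⟨i, rfl⟩ := f.mapEdgeSet.surjective i
          rw [h2]
          by_cases c : f.mapEdgeSet i = k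
          · rw [← c, Equiv.symm_apply_apply, update_self, update_self]
          · rw [update_of_ne c, h2, update_of_ne fun c' => c (by rw [c', Equiv.apply_symm_apply])]
        simp only [Equiv.coe_toEmbedding, this]
  · rw [Measure.real, MeasurableEquiv.map_apply, Measure.real]
    congr 2
    ext z
    exact f.injective.eq_iff

lemma swap {g : V → V → ℝ} (h : ∀ x y, x ∉ F ∨ y ∉ F → g x y = 0) :
    ∑ x ∈ F, ∑ y ∈ G.neighborFinset x, g x y = ∑ x ∈ F, ∑ y ∈ G.neighborFinset x, g y x := by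
  classical
  have k : ∀ g : V → V → ℝ, (∀ x y, y ∉ F → g x y = 0) → ∑ x ∈ F, ∑ y ∈ G.neighborFinset x, g x y =
      ∑ x ∈ F, ∑ y ∈ F, if G.Adj x y then g x y else 0 := fun g h => sum_congr rfl fun x _ => by
    rw [← sum_filter]
    exact (sum_subset (fun y hy => by simpa using (mem_filter.1 hy).2) fun y h1 h2 =>
      h x y fun c => h2 (mem_filter.2 ⟨c, by simpa using h1⟩)).symm
  rw [k g fun x y c => h x y (.inr c), k (fun x y => g y x) fun x y c => h y x (.inl c), sum_comm]
  simp only [G.adj_comm]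

def BF (G : SimpleGraph V) [G.LocallyFinite] (F : Finset V) (c : V → V → ℝ) (u v : V → ℝ) : ℝ :=
  ∑ x ∈ F, ∑ y ∈ G.neighborFinset x, c x y * (u x * (v x - v y))

def QF (G : SimpleGraph V) [G.LocallyFinite] (F : Finset V) (c : V → V → ℝ) (u : V → ℝ) : ℝ :=
  ∑ x ∈ F, ∑ y ∈ G.neighborFinset x, c x y * (u x - u y) ^ 2

lemma BF_symm {c : V → V → ℝ} (hc : ∀ x y, c x y = c y x) {u v : V → ℝ} (hu : ∀ x ∉ F, u x = 0)
    (hv : ∀ x ∉ F, v x = 0) : BF G F c u v = BF G F c v u := by
  have := swap (G := G) (F := F) (g := fun x y => c x y * (u x * v y)) fun x y h => by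
    rcases h with h | h <;> simp [hu, hv, h]
  simp only [BF, mul_sub, sum_sub_distrib, this]
  congr 1 <;> exact sum_congr rfl fun x _ => sum_congr rfl fun y _ => by rw [mul_comm (u _)]; try rw [hc]

lemma BF_QF {c : V → V → ℝ} (hc : ∀ x y, c x y = c y x) (h0 : ∀ x y, 0 ≤ c x y) {u : V → ℝ} (hu : ∀ x ∉ F, u x = 0) :
    QF G F c u ≤ 2 * BF G F c u u ∧ BF G F c u u ≤ QF G F c u := by
  have a1 := swap (G := G) (F := F) (g := fun x y => c x y * (if x ∈ F then u y ^ 2 else 0)) fun x y h => by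
    rcases h with h | h <;> simp [hu, h]
  rw [sum_congr rfl fun x hx => by simp only [if_pos hx]; rfl] at a1
  have a2 : ∑ x ∈ F, ∑ y ∈ G.neighborFinset x, c y x * (if y ∈ F then u x ^ 2 else 0) ≤
      ∑ x ∈ F, ∑ y ∈ G.neighborFinset x, c x y * u x ^ 2 :=
    sum_le_sum fun x _ => sum_le_sum fun y _ => by
      rw [hc y]; gcongr; exacts [h0 _ _, by split_ifs <;> simp [sq_nonneg]]
  have a3 : ∑ x ∈ F, ∑ y ∈ G.neighborFinset x, 2 * (c x y * (u x * u y)) ≤ ∑ x ∈ F, ∑ y ∈ G.neighborFinset x,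
      (c y x * (if y ∈ F then u x ^ 2 else 0) + c x y * u y ^ 2) :=
    sum_le_sum fun x _ => sum_le_sum fun y _ => by
      rw [hc y]
      split_ifs with h
      · nlinarith [mul_nonneg (h0 x y) (sq_nonneg (u x - u y))]
      · simp [hu y h]
  have a4 : QF G F c u = ∑ x ∈ F, ∑ y ∈ G.neighborFinset x,
      (c x y * u x ^ 2 - 2 * (c x y * (u x * u y)) + c x y * u y ^ 2) :=
    sum_congr rfl fun x _ => sum_congr rfl fun y _ => by ring
  have a5 : BF G F c u u = ∑ x ∈ F, ∑ y ∈ G.neighborFinset x, (c x y * u x ^ 2 - c x y * (u x * u y)) :=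
    sum_congr rfl fun x _ => sum_congr rfl fun y _ => by ring
  simp only [sum_add_distrib, sum_sub_distrib, ← mul_sum _ _ (2 : ℝ)] at a3 a4 a5
  constructor <;> linarith

lemma QF_nonneg {c : V → V → ℝ} (h0 : ∀ x y, 0 ≤ c x y) (u : V → ℝ) : 0 ≤ QF G F c u :=
  sum_nonneg fun _ _ => sum_nonneg fun _ _ => mul_nonneg (h0 _ _) (sq_nonneg _)

open Classical in
def bd (G : SimpleGraph V) (F : Finset V) : Finset V := F.filter fun x => ∃ y ∉ F, G.Adj x y

lemma coarea {c : ℝ} (h : ∀ S : Finset V, c * #S ≤ #(bd G S)) (S : Finset V) : ∀ f : V → ℝ, S ⊆ F → (∀ x, 0 ≤ f x) →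
    (∀ x ∉ S, f x = 0) → c * ∑ x ∈ F, f x ≤ ∑ x ∈ F, ∑ y ∈ G.neighborFinset x, max (f x - f y) 0 := by
  induction S using Finset.strongInduction with
  | H S ih =>
    classical
    intro f h1 h2 h3
    rcases S.eq_empty_or_nonempty with rfl | hS
    · simp [h3]
    obtain ⟨x₀, h4, h5⟩ := S.exists_min_image f hS
    have a1 := ih (S.erase x₀) (erase_ssubset h4) (fun x => f x - if x ∈ S then f x₀ else 0)
      ((erase_subset _ _).trans h1) (fun x => by split_ifs with c <;> simp [h5, c, h2]) fun x hx => by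
        by_cases c : x = x₀
        · simp [c, h4]
        · have : x ∉ S := by simpa [c] using hx
          simp [this, h3]
    have a2 : f x₀ * #(bd G S) ≤ ∑ x ∈ F, ∑ y ∈ G.neighborFinset x, if x ∈ S ∧ y ∉ S then f x₀ else 0 := by
      have p : ∀ x y, 0 ≤ if x ∈ S ∧ y ∉ S then f x₀ else 0 := fun x y => by split_ifs <;> simp [h2]
      rw [mul_comm, ← nsmul_eq_mul]
      refine (card_nsmul_le_sum _ _ _ fun x hx => ?_).trans (sum_le_sum_of_subset_of_nonneg
        ((filter_subset _ _).trans h1) fun x _ _ => sum_nonneg fun y _ => p x y)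
      obtain ⟨b1, y, b2, b3⟩ := mem_filter.1 hx
      exact le_of_eq_of_le (by simp [b1, b2]) (single_le_sum (fun y _ => p x y) (show y ∈ _ by simpa))
    rw [sum_sub_distrib, ← sum_filter, filter_mem_eq_inter, inter_eq_right.2 h1, sum_const, nsmul_eq_mul] at a1
    refine le_trans (by nlinarith [mul_le_mul_of_nonneg_left (h S) (h2 x₀)]) ((add_le_add a1 a2).trans ?_)
    simp only [← sum_add_distrib]
    refine sum_le_sum fun x _ => sum_le_sum fun y _ => ?_
    by_cases c : x ∈ S <;> by_cases c' : y ∈ S <;> simp [c, c', h3, h2]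
    · rw [max_eq_left (sub_nonneg.2 (h5 x c))]; simp
    · exact h5 y c'

lemma cheeger (hD : ∀ x, (G.degree x : ℝ) ≤ D) (hD1 : 0 < D) {c : ℝ} (hc : 0 < c) (h : ∀ S : Finset V, c * #S ≤ #(bd G S))
    {u : V → ℝ} (hu : ∀ x ∉ F, u x = 0) : c ^ 2 / (8 * D) * ∑ x ∈ F, u x ^ 2 ≤ BF G F 1 u u := by
  have a1 := coarea h F (fun x => u x ^ 2) Subset.rfl (fun _ => sq_nonneg _) fun x hx => by simp [hu x hx]
  have a2 : ∑ x ∈ F, ∑ y ∈ G.neighborFinset x, u x ^ 2 ≤ D * ∑ x ∈ F, u x ^ 2 := by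
    rw [mul_sum]; exact sum_le_sum fun x _ => by rw [sum_const, nsmul_eq_mul]; gcongr; exact hD x
  have a3 := swap (G := G) (F := F) (g := fun x y => if x ∈ F then u y ^ 2 else 0) fun x y h => by
    rcases h with h | h <;> simp [hu, h]
  rw [sum_congr rfl fun x hx => by simp only [if_pos hx]; rfl] at a3
  have a4 : ∑ x ∈ F, ∑ y ∈ G.neighborFinset x, u y ^ 2 ≤ ∑ x ∈ F, ∑ y ∈ G.neighborFinset x, u x ^ 2 :=
    a3.trans_le (sum_le_sum fun x _ => sum_le_sum fun y _ => by split_ifs <;> simp [sq_nonneg])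
  have a5 : ∑ x ∈ F, ∑ y ∈ G.neighborFinset x, max (u x ^ 2 - u y ^ 2) 0 ≤ ∑ x ∈ F, ∑ y ∈ G.neighborFinset x,
      (2 * D / c * (1 * (u x - u y) ^ 2) + c / (4 * D) * (u x ^ 2 + u y ^ 2)) :=
    sum_le_sum fun x _ => sum_le_sum fun y _ => max_le (by
      have e : 2 * D / c * (c / (4 * D)) = 1 / 2 := by field_simp; norm_num
      have : 0 < 2 * D / c := by positivity
      refine le_of_mul_le_mul_left ?_ this
      rw [mul_add, ← mul_assoc _ (c / (4 * D)), e]
      nlinarith [sq_nonneg (2 * D / c * (u x - u y) - (u x + u y) / 2), sq_nonneg (u x - u y)]) (by positivity)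
  simp only [sum_add_distrib, ← mul_sum _ _ (2 * D / c), ← mul_sum _ _ (c / (4 * D))] at a5
  have a6 := (BF_QF (G := G) (c := 1) (fun _ _ => rfl) (fun _ _ => zero_le_one) hu).1
  have a7 := mul_le_mul_of_nonneg_left (add_le_add a2 (a4.trans a2)) (show 0 ≤ c / (4 * D) by positivity)
  rw [show c / (4 * D) * (D * ∑ x ∈ F, u x ^ 2 + D * ∑ x ∈ F, u x ^ 2) = c / 2 * ∑ x ∈ F, u x ^ 2 by
    field_simp; ring] at a7
  have a8 : c / 2 * ∑ x ∈ F, u x ^ 2 ≤ 2 * D / c * (2 * BF G F 1 u u) := by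
    change _ ≤ _ * QF G F 1 u + _ at a5
    linarith [mul_le_mul_of_nonneg_left a6 (show 0 ≤ 2 * D / c by positivity)]
  calc _ = c / (4 * D) * (c / 2 * ∑ x ∈ F, u x ^ 2) := by field_simp; ring
    _ ≤ c / (4 * D) * (2 * D / c * (2 * BF G F 1 u u)) := by gcongr
    _ = _ := by field_simp; ring

lemma ball (hD : ∀ x, (G.degree x : ℝ) ≤ D) (S : Finset V) (k : ℕ) : ∃ T : Finset V, (#T : ℝ) ≤ (D + 1) ^ k * #S ∧
    ∀ x y (q : G.Walk x y), y ∈ S → q.length ≤ k → x ∈ T := by
  induction k with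
  | zero => exact ⟨S, by simp, fun x y q hy hq => q.eq_of_length_eq_zero (Nat.le_zero.1 hq) ▸ hy⟩
  | succ k ih =>
    obtain ⟨T, h1, h2⟩ := ih
    refine ⟨T.biUnion fun x => insert x (G.neighborFinset x), ?_, fun x y q hy hq => ?_⟩
    · calc _ ≤ ∑ x ∈ T, (#(insert x (G.neighborFinset x)) : ℝ) := by exact_mod_cast card_biUnion_le
        _ ≤ #T • (D + 1) := sum_le_card_nsmul _ _ _ fun x _ => by
            linarith [hD x, show (#(insert x (G.neighborFinset x)) : ℝ) ≤ G.degree x + 1 by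
              exact_mod_cast card_insert_le _ _]
        _ ≤ _ := by
            rcases T.eq_empty_or_nonempty with rfl | ⟨x, -⟩
            · cases isEmpty_or_nonempty V
              · simp [S.eq_empty_of_isEmpty]
              · have := (Nat.cast_nonneg _).trans (hD (Classical.arbitrary V))
                simp; positivity
            · have := (Nat.cast_nonneg _).trans (hD x)
              rw [nsmul_eq_mul, pow_succ, mul_right_comm]; gcongr
    · cases q with
      | nil => exact mem_biUnion.2 ⟨_, h2 _ _ .nil hy (by simp), by simp⟩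
      | cons h q => exact mem_biUnion.2 ⟨_, h2 _ _ q hy (by simpa using hq), by simp [h.symm]⟩

lemma exit {x y : V} (q : G.Walk x y) (hx : x ∈ F) (hy : y ∉ F) :
    ∃ a ∈ bd G F, ∃ q' : G.Walk x a, q'.length ≤ q.length := by
  induction q with
  | nil => exact absurd hx hy
  | @cons x z _ h q ih =>
    by_cases c : z ∈ F
    · obtain ⟨a, h1, q', h2⟩ := ih c hy
      exact ⟨a, h1, .cons h q', by simpa⟩
    · exact ⟨x, by simpa [bd, hx] using ⟨z, c, h⟩, .nil, by simp⟩

end

end Pool.Agent.H43.Dp
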