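import Pool.Agent.H43.Dp2

set_option autoImplicit false
set_option linter.unusedSectionVars false

namespace Pool.Agent.H43.Dp

open MeasureTheory ProbabilityTheory Filter Topology Finset Real Function unitInterval Pool.Agent.H43.Ex
open MeasureTheory.Measure hiding sum_congr sum_comm sub_le_iff_le_add sum_smul_dirac

noncomputable section

variable {V : Type} [DecidableEq V] [MeasurableSpace V] {G : SimpleGraph V} [G.LocallyFinite]
  [Countable V] [DiscreteMeasurableSpace V] {μ D : ℝ} {p : I} {o : V} {ρ : ℝ → Measure (V × Env G)}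
  {F : Finset V} {A : Finset G.edgeSet} {n m : ℕ} {l : Fin n → ℝ} {κ : Fin m → ℝ}

lemma rate {J : Type} {s : Finset J} {r g : J → ℝ} {x B R : ℝ} (hr : ∀ j, 0 ≤ r j) (hR : ∑ j ∈ s, r j ≤ R)
    (hg : ∀ j, |g j| ≤ B) (hx : |x| ≤ B) :
    ∑ j ∈ s, r j * (g j - x) ≤ R * (B - x) ∧ -(R * (B + x)) ≤ ∑ j ∈ s, r j * (g j - x) := by
  rw [abs_le] at hx
  constructor
  · refine le_trans ?_ (mul_le_mul_of_nonneg_right hR (by linarith))
    rw [sum_mul]; gcongr; exacts [hr _, (abs_le.1 (hg _)).2]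
  · refine le_trans (neg_le_neg (mul_le_mul_of_nonneg_right hR (by linarith))) ?_
    rw [sum_mul, ← sum_neg_distrib]
    exact sum_le_sum fun j _ => by nlinarith [hr j, (abs_le.1 (hg j)).1]

def RR (κ : Fin m → ℝ) (c : Fin m → ℝ) (t : ℝ) : ℝ := ∑ j, exp (-κ j * t) * c j ^ 2

lemma RR_bd {c : Fin m → ℝ} {k t : ℝ} (h1 : ∑ j, c j ^ 2 = 1) (h2 : ∑ j, κ j * c j ^ 2 ≤ D) (h3 : ∀ j, k ≤ κ j)
    (ht : 0 ≤ t) : exp (-D * t) ≤ RR κ c t ∧ RR κ c t ≤ exp (-k * t) := by
  constructor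
  · have := jensen (κ := fun j => κ j * t) (fun j => sq_nonneg (c j)) (D * t)
    simp only [h1, mul_right_comm _ t, ← sum_mul, ← neg_mul] at this
    refine le_trans (le_mul_of_one_le_right (exp_pos _).le ?_) this
    nlinarith [mul_le_mul_of_nonneg_right h2 ht]
  · rw [← mul_one (exp _), ← h1, mul_sum, RR]
    gcongr; exact h3 _

lemma RR_anti {c : Fin m → ℝ} (h : ∀ j, 0 ≤ κ j) : Antitone (RR κ c) := fun s t hst =>
  sum_le_sum fun j _ => by gcongr ?_ * _; exact exp_le_exp.2 (by nlinarith [h j])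

def e0 (a : F → ℝ) (x : V) : ℝ := if h : x ∈ F then a ⟨x, h⟩ else 0

lemma e0_out (a : F → ℝ) : ∀ x ∉ F, e0 a x = 0 := fun _ h => dif_neg h

lemma e0_in (a : F → ℝ) (x : F) : e0 a x = a x := dif_pos x.2

lemma e0_abs {a : F → ℝ} {B : ℝ} (hB : 0 ≤ B) (h : ∀ i, |a i| ≤ B) (x : V) : |e0 a x| ≤ B := by
  unfold e0; split_ifs <;> simp [h, hB]

def X0 (G : SimpleGraph V) (F : Finset V) : (F → ℝ) →ₗ[ℝ] V × Env G → ℝ where
  toFun a z := e0 a z.1
  map_add' a b := by ext; simp only [e0, Pi.add_apply]; split_ifs <;> simp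
  map_smul' c a := by ext; simp only [e0, Pi.smul_apply]; split_ifs <;> simp

def L0 (G : SimpleGraph V) [G.LocallyFinite] (F : Finset V) : Module.End ℝ (F → ℝ) where
  toFun a x := ∑ y ∈ G.neighborFinset x, 1 * (e0 a y - a x)
  map_add' a b := by
    ext; simp only [e0, Pi.add_apply, ← sum_add_distrib]; exact sum_congr rfl fun _ _ => by split_ifs <;> ring
  map_smul' c a := by
    ext; simp only [e0, Pi.smul_apply, smul_eq_mul, mul_sum, RingHom.id_apply]
    exact sum_congr rfl fun _ _ => by split_ifs <;> ring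

lemma form0 (a b : F → ℝ) : -ip 1 a (L0 G F b) = BF G F 1 (e0 a) (e0 b) := by
  rw [BF, ← sum_coe_sort F, ip, ← sum_neg_distrib]
  refine sum_congr rfl fun x _ => ?_
  change -(1 * (a x * ∑ y ∈ _, _)) = _
  rw [one_mul, mul_sum, ← sum_neg_distrib, e0_in, e0_in]
  exact sum_congr rfl fun _ _ => by simp; ring

lemma sp0 : ∃ (n : ℕ) (l : Fin n → ℝ) (φ : Fin n → F → ℝ), Sp 1 (L0 G F) l φ :=
  exists_sp (fun _ => one_pos) fun a b => neg_injective (by
    rw [ip_comm, form0, form0, BF_symm (fun _ _ => rfl) (e0_out _) (e0_out _)])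

lemma form0_nonneg (a : F → ℝ) : 0 ≤ -ip 1 a (L0 G F a) := by
  rw [form0]
  linarith [(BF_QF (G := G) (c := 1) (fun _ _ => rfl) (fun _ _ => zero_le_one) (e0_out a)).1,
    QF_nonneg (G := G) (F := F) (c := 1) (fun _ _ => zero_le_one) (e0 a)]

lemma form0_single (hD : ∀ x, (G.degree x : ℝ) ≤ D) (x : F) : -ip 1 (Pi.single x 1) (L0 G F (Pi.single x 1)) ≤ D := by
  rw [ip, sum_eq_single x (fun y _ h => by simp [h]) (by simp)]
  have := (rate (s := G.neighborFinset x) (r := fun _ => 1) (g := e0 (Pi.single x 1 : F → ℝ) + fun _ => -1 / 2) (x := 1 / 2)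
    (B := 1 / 2) (R := D) (fun _ => zero_le_one) (by simpa using hD x) (fun y => by
      simp only [e0, Pi.add_apply, Pi.single_apply]; split_ifs <;> norm_num [abs_of_nonneg]) (by norm_num [abs_of_nonneg])).2
  simp only [Pi.one_apply, Pi.single_eq_same, one_mul, L0, LinearMap.coe_mk, AddHom.coe_mk, Pi.add_apply] at this ⊢
  rw [sum_congr rfl fun y _ => show e0 (Pi.single x 1 : F → ℝ) y + -1 / 2 - 1 / 2 = e0 (Pi.single x 1 : F → ℝ) y - 1 by ring] at this
  linarith

lemma ip_single (x : F) (a : F → ℝ) : ip 1 (Pi.single x 1) a = a x := by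
  rw [ip, sum_eq_single x (fun y _ h => by simp [h]) (by simp)]; simp

lemma Law.one {ρ : ℝ → Measure (V × Env G)} (h : Law G μ 1 o ρ) {t : ℝ} (ht : 0 ≤ t) (e : G.edgeSet) :
    ∀ᵐ z ∂ρ t, z.2 e = true := by
  haveI := h.prob
  let φ : V × Env G → ℝ := fun z => if z.2 e then 0 else 1
  have h1 : ∀ z, |φ z| ≤ 1 := fun z => by simp only [φ]; split_ifs <;> simp
  have h2 : ∀ x, DependsOn (fun η => φ (x, η)) ({e} : Finset G.edgeSet) := fun _ _ _ c => by simp [φ, c e (by simp)]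
  have h3 : ∀ s, 0 ≤ s → HasDerivWithinAt (fun s => exp (μ * s) * ∫ z, φ z ∂ρ s) 0 (Set.Ici 0) s := fun s hs => by
    refine (((hasDerivAt_id s).const_mul μ).exp.hasDerivWithinAt.mul (h.fwd _ φ ⟨_, h1⟩ h2 s hs)).congr_deriv ?_
    rw [show gen G μ (1 : I) {e} φ = fun z => -μ * φ z by ext; simp [gen, φ]; split_ifs <;> simp, integral_const_mul]
    simp only [id]; ring
  have h4 := constant_of_has_deriv_right_zero (fun s hs => (h3 s hs.1).continuousWithinAt.mono fun x hx => hx.1)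
    (fun s hs => (h3 s hs.1).mono fun x hx => hs.1.trans hx) t ⟨ht, le_rfl⟩
  have h5 : ∫ z, φ z ∂ρ 0 = 0 := by
    rw [h.init, dirac_prod, integral_map measurable_prodMk_left.aemeasurable (meas_loc h2).aestronglyMeasurable]
    simp only [bernoulliMeasure_one, infinitePi_dirac]
    simp [φ]
  rw [h5, mul_zero, mul_eq_zero, or_iff_right (exp_pos _).ne'] at h4
  filter_upwards [(integral_eq_zero_iff_of_nonneg (fun z => by simp only [φ]; split_ifs <;> simp)
    (intg _ (meas_loc h2) h1)).1 h4] with z hz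
  simpa [φ] using hz

lemma ind_int (ν : Measure (V × Env G)) (x : V) {φ : V × Env G → ℝ} (h : ∀ z, φ z = if z.1 = x then 1 else 0) :
    ∫ z, φ z ∂ν = ν.real {z | z.1 = x} := by
  rw [← integral_indicator_one (s := {z : V × Env G | z.1 = x}) (measurable_fst (MeasurableSet.of_discrete (s := {x})))]
  congr 1; ext z; simp [h, Set.indicator_apply]

lemma rep0 (hD : ∀ x, (G.degree x : ℝ) ≤ D) {φ : Fin n → F → ℝ} (S : Sp 1 (L0 G F) l φ) (x : F) (h : Law G μ 1 x ρ)
    {r : ℕ} (hr : 0 < r) (hF : Deep G F r x) {T : ℝ} (hT : 0 ≤ T) :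
    |(ρ T).real {z | z.1 = x} - RR l (φ · x) T| ≤ D * (D * T / r) * T := by
  haveI : Countable G.edgeSet := inferInstance
  have := h.rep hD hr hF S (A := ∅) (c := D) (a := Pi.single x 1) (fun s h0 h1 a B ha i => ?_) hT (X0 G F)
    (fun _ _ _ _ _ => rfl) (fun a B hB ha z => e0_abs hB ha _) (fun a z => e0_out a _) (fun t ht => ?_)
    fun i => by simp only [Pi.single_apply]; split_ifs <;> simp
  · rw [ind_int (G := G) _ (x : V) fun z => by
      by_cases c : z.1 ∈ F <;> simp [X0, e0, Pi.single_apply, Subtype.ext_iff, c]; rintro e; exact c (e ▸ x.2)] at this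
    simp only [ip_single, h.init, dirac_prod, mul_assoc, fun j => integral_map (μ := infinitePi fun _ =>
      bernoulliMeasure true false 1) (measurable_prodMk_left (x := (x : V))).aemeasurable (meas_loc (A := ∅) (φ := X0 G F (φ j))
      fun _ _ _ _ => rfl).aestronglyMeasurable] at this
    simpa [X0, e0_in, RR, sq, mul_assoc] using this
  · have := rate (s := G.neighborFinset i) (r := fun _ => 1) (R := D) (fun _ => zero_le_one) (by simpa using hD i)
      (e0_abs ((abs_nonneg _).trans (ha i)) ha) (ha i)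
    have c := abs_le.1 (ha i)
    change |a i + s * ∑ y ∈ _, _| ≤ B
    rw [abs_le]
    constructor <;> nlinarith [mul_le_mul_of_nonneg_left this.1 h0, mul_le_mul_of_nonneg_left this.2 h0]
  · filter_upwards [ae_all_iff.2 (h.one ht)] with z hz hF a
    simp only [gen, sum_empty, mul_zero, add_zero, X0, LinearMap.coe_mk, AddHom.coe_mk, e0, dif_pos hF, L0]
    exact sum_congr rfl fun y hy => by simp [op, show G.Adj z.1 y by simpa using hy, hz]

def lift (ξ : A → Bool) : Env G := fun e => if h : e ∈ A then ξ ⟨e, h⟩ else false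

def eb (a : F × (A → Bool) → ℝ) (x : V) (ξ : A → Bool) : ℝ := if h : x ∈ F then a (⟨x, h⟩, ξ) else 0

lemma eb_out (a : F × (A → Bool) → ℝ) {x : V} (h : x ∉ F) : eb a x = fun _ => 0 := funext fun _ => dif_neg h

lemma eb_in (a : F × (A → Bool) → ℝ) (x : F) (ξ : A → Bool) : eb a x ξ = a (x, ξ) := dif_pos x.2

lemma eb_abs {a : F × (A → Bool) → ℝ} {B : ℝ} (hB : 0 ≤ B) (h : ∀ i, |a i| ≤ B) (x : V) (ξ : A → Bool) :
    |eb a x ξ| ≤ B := by
  unfold eb; split_ifs <;> simp [h, hB]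

def X1 (F : Finset V) (A : Finset G.edgeSet) : (F × (A → Bool) → ℝ) →ₗ[ℝ] V × Env G → ℝ where
  toFun a z := eb a z.1 (A.restrict z.2)
  map_add' a b := by ext; simp only [eb, Pi.add_apply]; split_ifs <;> simp
  map_smul' c a := by ext; simp only [eb, Pi.smul_apply]; split_ifs <;> simp

def L1 (μ p : ℝ) (F : Finset V) (A : Finset G.edgeSet) : Module.End ℝ (F × (A → Bool) → ℝ) where
  toFun a i := ∑ y ∈ G.neighborFinset i.1, op G (lift i.2) i.1 y * (eb a y i.2 - eb a i.1 i.2) +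
    μ * ∑ e, 1 * (Ex p e (eb a i.1) i.2 - eb a i.1 i.2)
  map_add' a b := by
    have : ∀ x ξ, eb (a + b) x ξ = eb a x ξ + eb b x ξ := fun x ξ => by unfold eb; split_ifs <;> simp
    ext; simp only [Ex, this, Pi.add_apply, mul_sub, mul_add, sum_sub_distrib, sum_add_distrib]; ring
  map_smul' c a := by
    have : ∀ x ξ, eb (c • a) x ξ = c * eb a x ξ := fun x ξ => by unfold eb; split_ifs <;> simp
    ext; simp only [Ex, this, Pi.smul_apply, smul_eq_mul, RingHom.id_apply, mul_add, mul_sum]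
    congr 1 <;> exact sum_congr rfl fun _ _ => by ring

def w1 (p : ℝ) (F : Finset V) (A : Finset G.edgeSet) (i : F × (A → Bool)) : ℝ := cw p i.2

lemma ip1 (p : ℝ) (a b : F × (A → Bool) → ℝ) : ip (w1 p F A) a b = ∑ x : F, W p fun ξ => a (x, ξ) * b (x, ξ) := by
  simp only [ip, Fintype.sum_prod_type, W, w1]

lemma form1 (μ p : ℝ) (a b : F × (A → Bool) → ℝ) : -ip (w1 p F A) a (L1 μ p F A b) =
    W p (fun ξ => BF G F (op G (lift ξ)) (eb a · ξ) (eb b · ξ)) +
    μ * ∑ x ∈ F, ∑ e, W p fun ξ => (eb a x ξ - Ex p e (eb a x) ξ) * (eb b x ξ - Ex p e (eb b x) ξ) := by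
  simp only [BF, W_sum _ fun x ξ => ∑ y ∈ G.neighborFinset x, _]
  rw [ip1, mul_sum, ← sum_add_distrib, ← sum_coe_sort F, ← sum_neg_distrib]
  refine sum_congr rfl fun x _ => ?_
  have : ∀ e, W p (fun ξ => (eb a x ξ - Ex p e (eb a x) ξ) * (eb b x ξ - Ex p e (eb b x) ξ)) =
      W p fun ξ => eb a x ξ * (eb b x ξ - Ex p e (eb b x) ξ) := fun e => by
    simp only [sub_mul, mul_sub, W_sub, ← W_ExEx e (eb a x), mul_comm (Ex p e (eb a x) _) (eb b x _), W_ExEx e (eb b x)]
    simp only [mul_comm (Ex p e (eb b x) _), ← W_ExEx e (eb a x)]; ring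
  rw [sum_congr rfl fun e _ => this e, ← W_sum, ← W_mul, ← W_add, ← neg_one_mul, ← W_mul]
  congr 1; ext ξ
  simp only [L1, LinearMap.coe_mk, AddHom.coe_mk, ← eb_in a, mul_add, mul_sum]
  congr 1 <;> exact sum_congr rfl fun _ _ => by ring

lemma sp1 (h0 : 0 < (p : ℝ)) (h1 : (p : ℝ) < 1) :
    ∃ (n : ℕ) (l : Fin n → ℝ) (φ : Fin n → F × (A → Bool) → ℝ), Sp (w1 p F A) (L1 μ p F A) l φ :=
  exists_sp (fun _ => cw_pos h0 h1 _) fun a b => neg_injective (by
    rw [ip_comm, form1, form1]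
    simp only [mul_comm (eb b _ _ - _)]
    congr 2; ext ξ
    exact BF_symm (op_symm _) (fun x h => by simp [eb_out _ h]) fun x h => by simp [eb_out _ h])

def pr (p : ℝ) (a : F × (A → Bool) → ℝ) (x : F) : ℝ := W p (eb a x)

lemma e0_pr (p : ℝ) (a : F × (A → Bool) → ℝ) (x : V) : e0 (pr p a) x = W p (eb a x) := by
  unfold e0; split_ifs with h
  · rfl
  · rw [eb_out _ h, W_const]

lemma ip_emb (p : ℝ) (g : F → ℝ) (a : F × (A → Bool) → ℝ) : ip (w1 p F A) (fun i => g i.1) a = ip 1 g (pr p a) := by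
  simp only [ip1, W_mul]
  simp [ip, pr, funext (eb_in a _)]

lemma pr_emb (p : ℝ) (g : F → ℝ) : pr p (fun i : F × (A → Bool) => g i.1) = g := by
  ext x; simp [pr, funext (eb_in _ x), W_const]

variable (hA : ∀ x ∈ F, ∀ y (h : G.Adj x y), (⟨s(x, y), h⟩ : G.edgeSet) ∈ A) (h0 : 0 < (p : ℝ)) (h1 : (p : ℝ) < 1)
  (hD : ∀ x, (G.degree x : ℝ) ≤ D) (hμ : 0 < μ)
include hA

lemma op_lift {x y : V} (hx : x ∈ F) (h : G.Adj x y) (ξ : A → Bool) :
    op G (lift ξ) x y = if ξ ⟨_, hA x hx y h⟩ then 1 else 0 := by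
  simp [op, h, lift, hA x hx y h]

lemma form_emb (g : F → ℝ) : -ip (w1 p F A) (fun i => g i.1) (L1 μ p F A fun i => g i.1) ≤ -ip 1 g (L0 G F g) := by
  refine le_trans (le_of_eq ?_) (mul_le_of_le_one_left (form0_nonneg g) p.2.2)
  have : ∀ x ξ, eb (fun i : F × (A → Bool) => g i.1) x ξ = e0 g x := fun _ _ => rfl
  rw [form1, form0]
  simp only [Ex, this, BF, W_sum, mul_sum, show ∀ u : ℝ, u - (p * u + (1 - p) * u) = 0 by intro; ring, mul_zero, W_const,
    sum_const_zero, add_zero]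
  refine sum_congr rfl fun x hx => sum_congr rfl fun y hy => ?_
  simp only [op_lift hA hx (show G.Adj x y by simpa using hy)]
  rw [← W_Ex ⟨_, hA x hx y (by simpa using hy)⟩]
  refine Eq.trans ?_ (W_const (K := A) (p := p) _)
  congr 1; ext; simp [Ex]

include h0 h1 hD hμ

lemma key (a : F × (A → Bool) → ℝ) : 0 ≤ -ip (w1 p F A) a (L1 μ p F A a) ∧
    μ * (ip (w1 p F A) a a - ip 1 (pr p a) (pr p a)) ≤ -ip (w1 p F A) a (L1 μ p F A a) ∧
    -ip 1 (pr p a) (L0 G F (pr p a)) ≤ 6 * (1 + D / μ) / p ^ 2 * -ip (w1 p F A) a (L1 μ p F A a) := by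
  rw [form1, form0]
  simp only [← sq]
  set v : V → ℝ := fun x => ∑ e, W p fun ξ => (eb a x ξ - Ex p e (eb a x) ξ) ^ 2
  have v0 : ∀ x e, 0 ≤ W p fun ξ => (eb a x ξ - Ex p e (eb a x) ξ) ^ 2 := fun x e => W_nonneg h0 h1 fun _ => sq_nonneg _
  have v1 : ∀ x, 0 ≤ v x := fun x => sum_nonneg fun e _ => v0 x e
  have v2 : 0 ≤ ∑ x ∈ F, v x := sum_nonneg fun x _ => v1 x
  have a1 := W_mono h0 h1 fun ξ => (BF_QF (G := G) (F := F) (op_symm (lift ξ)) (fun x y => (op_mem _ x y).1)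
    (u := (eb a · ξ)) fun x h => by simp [eb_out _ h]).1
  have a2 := W_nonneg h0 h1 fun ξ => QF_nonneg (G := G) (F := F) (fun x y => (op_mem (lift ξ) x y).1) (eb a · ξ)
  rw [W_mul] at a1
  have a3 : ip (w1 p F A) a a - ip 1 (pr p a) (pr p a) ≤ ∑ x ∈ F, v x := by
    rw [ip1, ip, ← sum_sub_distrib, ← sum_coe_sort F]
    exact sum_le_sum fun x _ => by simpa only [← eb_in a, pr, ← sq, Pi.one_apply, one_mul] using efron h0 h1 (eb a x)
  have a4 := (BF_QF (G := G) (c := 1) (fun _ _ => rfl) (fun _ _ => zero_le_one) (e0_out (pr p a))).2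
  have a5 : ∑ x ∈ F, ∑ y ∈ G.neighborFinset x, v x ≤ D * ∑ x ∈ F, v x := by
    rw [mul_sum]; exact sum_le_sum fun x _ => by rw [sum_const, nsmul_eq_mul]; gcongr; exacts [v1 x, hD x]
  have a6 := swap (G := G) (F := F) (g := fun x y => if x ∈ F then v y else 0) fun x y h => by
    rcases h with h | h <;> simp [v, eb_out _ , h, Ex, W_const]
  rw [sum_congr rfl fun x hx => by simp only [if_pos hx]; rfl] at a6
  have a7 : ∑ x ∈ F, ∑ y ∈ G.neighborFinset x, v y ≤ ∑ x ∈ F, ∑ y ∈ G.neighborFinset x, v x :=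
    a6.trans_le (sum_le_sum fun x _ => sum_le_sum fun y _ => by split_ifs <;> simp [v1])
  have a8 : (p : ℝ) ^ 2 * QF G F 1 (e0 (pr p a)) ≤ 3 * (W p (fun ξ => QF G F (op G (lift ξ)) (eb a · ξ)) +
      ∑ x ∈ F, ∑ y ∈ G.neighborFinset x, v x + ∑ x ∈ F, ∑ y ∈ G.neighborFinset x, v y) := by
    simp only [QF, W_sum, mul_sum, ← sum_add_distrib, e0_pr, Pi.one_apply, one_mul]
    refine sum_le_sum fun x hx => sum_le_sum fun y hy => ?_
    simp only [op_lift hA hx (show G.Adj x y by simpa using hy)]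
    refine (edge h0 h1 ⟨_, hA x hx y (by simpa using hy)⟩ _ _).trans ?_
    gcongr <;> exact single_le_sum (fun e _ => v0 _ e) (mem_univ _)
  refine ⟨by nlinarith, by nlinarith, ?_⟩
  have hD0 : 0 ≤ D / μ * W p (fun ξ => BF G F (op G (lift ξ)) (eb a · ξ) (eb a · ξ)) := by
    rcases F.eq_empty_or_nonempty with rfl | ⟨x, -⟩
    · simp [BF, W_const]
    · exact mul_nonneg (div_nonneg ((Nat.cast_nonneg _).trans (hD x)) hμ.le) (by linarith)
  rw [div_mul_eq_mul_div, le_div_iff₀ (by positivity)]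
  have e : D / μ * (μ * ∑ x ∈ F, v x) = D * ∑ x ∈ F, v x := by field_simp
  nlinarith [mul_le_mul_of_nonneg_left a4 (sq_nonneg (p : ℝ)), mul_nonneg hμ.le v2]

omit h0 h1 in
lemma rep1 {ψ : Fin m → F × (A → Bool) → ℝ} (S : Sp (w1 p F A) (L1 μ p F A) κ ψ) (x : F) (h : Law G μ p x ρ)
    {r : ℕ} (hr : 0 < r) (hF : Deep G F r x) {T : ℝ} (hT : 0 ≤ T) :
    |(ρ T).real {z | z.1 = x} - RR κ (fun j => pr p (ψ j) x) T| ≤ D * (D * T / r) * T := by
  have x1 : ∀ a x, DependsOn (fun η => X1 F A a (x, η)) A := fun a x η η' c =>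
    congrArg (eb a x) (funext fun e => c e e.2)
  have := h.rep hD hr hF S (A := A) (c := D + μ * #A) (a := fun i => (Pi.single x 1 : F → ℝ) i.1)
    (fun s h0 h1 a B ha i => ?_) hT (X1 F A) x1 (fun a B hB ha z => eb_abs hB ha _ _)
    (fun a z h => congrFun (eb_out a h) _) (fun t ht => ae_of_all _ fun z hF a => ?_)
    fun i => by simp only [Pi.single_apply]; split_ifs <;> simp
  · rw [ind_int (G := G) _ (x : V) fun z => by
      change e0 (Pi.single x 1 : F → ℝ) z.1 = _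
      by_cases c : z.1 ∈ F <;> simp [e0, Pi.single_apply, Subtype.ext_iff, c]; rintro e; exact c (e ▸ x.2)] at this
    have e : ∀ j, ∫ z, X1 F A (ψ j) z ∂ρ 0 = pr p (ψ j) x := fun j => by
      rw [h.init, dirac_prod, integral_map measurable_prodMk_left.aemeasurable (meas_loc (x1 _)).aestronglyMeasurable]
      refine (integral_restrict_infinitePi (X := fun _ => Bool) _ (s := A) (f := eb (ψ j) x) (measurable_of_finite _).aestronglyMeasurable).trans ?_
      rw [integral_fintype .of_finite]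
      refine sum_congr rfl fun ξ _ => ?_
      rw [smul_eq_mul, Measure.real, pi_singleton, ENNReal.toReal_prod, cw]
      congr 2; ext e
      cases ξ e <;> simp [bernoulliMeasure_def]
    simpa [e, ip_emb, ip_single, RR, sq, mul_assoc] using this
  · have hB := (abs_nonneg _).trans (ha i)
    have c1 := rate (s := G.neighborFinset i.1) (R := D) (fun y => (op_mem (lift i.2) i.1 y).1)
      ((sum_le_card_nsmul _ _ 1 fun y _ => (op_mem _ _ y).2).trans (by simpa using hD i.1))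
      (fun y => eb_abs hB ha y i.2) (eb_abs hB ha i.1 i.2)
    have c2 := rate (s := univ) (r := fun _ => 1) (R := #A) (g := fun e => Ex p e (eb a i.1) i.2) (fun _ => zero_le_one)
      (by simp) (fun e => by
        have b1 := abs_le.1 (eb_abs hB ha i.1 (update i.2 e true))
        have b2 := abs_le.1 (eb_abs hB ha i.1 (update i.2 e false))
        have := p.2.1; have := p.2.2
        rw [Ex, abs_le]; constructor <;> nlinarith) (eb_abs hB ha i.1 i.2)
    have c := abs_le.1 (ha i)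
    change |a i + s * (_ + _)| ≤ B
    rw [eb_in] at *
    rw [abs_le]
    constructor <;> nlinarith [mul_le_mul_of_nonneg_left c1.1 h0, mul_le_mul_of_nonneg_left c1.2 h0,
      mul_le_mul_of_nonneg_left c2.1 (mul_nonneg h0 hμ.le), mul_le_mul_of_nonneg_left c2.2 (mul_nonneg h0 hμ.le)]
  · refine Eq.trans ?_ (eb_in _ (⟨z.1, hF⟩ : F) _).symm
    simp only [gen, X1, L1, LinearMap.coe_mk, AddHom.coe_mk, one_mul, ← sum_coe_sort A, Ex]
    refine congrArg₂ _ (sum_congr rfl fun y hy => ?_) (congrArg _ (sum_congr rfl fun e _ => ?_))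
    · have c : G.Adj z.1 y := by simpa using hy
      rw [op_lift hA hF c, op, dif_pos c]; rfl
    · have : ∀ b, A.restrict (update z.2 e b) = update (A.restrict z.2) e b := fun b => by
        ext i
        simp only [Finset.restrict, update_apply, Subtype.coe_inj]
      simp only [this]

end

end Pool.Agent.H43.Dp
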