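import Mathlib

open MeasureTheory Set Filter Topology

namespace Pool.Agent.H43.Era

/-- The real number with binary digits `b 0, b 1, ...`. -/
noncomputable def val (b : ℕ → Bool) : ℝ := ∑' j, (if b j then (1 : ℝ) else 0) / 2 ^ (j + 1)

/-- The substitution: the `j`-th one of `b` sits at index `k` (position `k + 1`); it becomes `0`
when the position is odd and `1` when the position is even; zeros are deleted. -/
noncomputable def rho (b : ℕ → Bool) (j : ℕ) : Bool :=
  decide (Even (Nat.nth (fun k => b k = true) j + 1))

abbrev X := ℕ → Bool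

def co (a : Bool) (b : X) : X := fun n => Nat.casesOn n a b

@[simp] lemma co_zero (a : Bool) (b : X) : co a b 0 = a := rfl
@[simp] lemma co_succ (a : Bool) (b : X) (n : ℕ) : co a b (n + 1) = b n := rfl

lemma co_eta (b : X) : b = co (b 0) (fun n => b (n + 1)) := by
  funext n; cases n <;> rfl

lemma meas_co (a : Bool) : Measurable (co a) := by
  refine measurable_pi_lambda _ fun n => ?_
  cases n with
  | zero => exact measurable_const
  | succ n => exact measurable_pi_apply n

def pre (w : List Bool) (b : X) : X := w.foldr co b

@[simp] lemma pre_nil (b : X) : pre [] b = b := rfl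
@[simp] lemma pre_cons (a : Bool) (w : List Bool) (b : X) : pre (a :: w) b = co a (pre w b) := rfl
lemma pre_snoc (a : Bool) (w : List Bool) (b : X) : pre (w ++ [a]) b = pre w (co a b) := by
  simp [pre]

lemma meas_pre (w : List Bool) : Measurable (pre w) := by
  induction w with
  | nil => exact measurable_id
  | cons a w ih => exact (meas_co a).comp ih

/-- infinitely many digits equal to `c` -/
def Inf (c : Bool) (b : X) : Prop := ∀ n, ∃ k ≥ n, b k = c

lemma inf_co {c a : Bool} {b : X} : Inf c (co a b) ↔ Inf c b := by
  constructor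
  · intro h n
    obtain ⟨k, hk, e⟩ := h (n + 1)
    obtain ⟨k, rfl⟩ : ∃ k', k = k' + 1 := ⟨k - 1, by omega⟩
    exact ⟨k, by omega, e⟩
  · intro h n
    obtain ⟨k, hk, e⟩ := h n
    exact ⟨k + 1, by omega, e⟩

lemma inf_pre {c : Bool} {b : X} (w : List Bool) : Inf c (pre w b) ↔ Inf c b := by
  induction w with
  | nil => rfl
  | cons a w ih => rw [pre_cons, inf_co, ih]

lemma inf_infinite {b : X} (h : Inf true b) : {k | b k = true}.Infinite := by
  refine Set.infinite_of_not_bddAbove ?_
  rintro ⟨n, hn⟩
  obtain ⟨k, hk, e⟩ := h (n + 1)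
  have := hn (show k ∈ {k | b k = true} from e)
  omega

noncomputable def nt (b : X) (j : ℕ) : ℕ := Nat.nth (fun k => b k = true) j

lemma nt_co (a : Bool) {b : X} (h : Inf true b) (j : ℕ) :
    nt (co a b) (j + if a then 1 else 0) = nt b j + 1 := by
  classical
  have hi := inf_infinite h
  have h1 : b (nt b j) = true := Nat.nth_mem_of_infinite hi j
  have h2 : Nat.count (fun k => b k = true) (nt b j) = j := Nat.count_nth_of_infinite hi j
  have h3 : Nat.count (fun k => co a b k = true) (nt b j + 1) = j + if a then 1 else 0 := by
    rw [Nat.count_succ']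
    exact congrArg₂ (· + ·) h2 rfl
  rw [← h3]
  exact Nat.nth_count (p := fun k => co a b k = true) h1

noncomputable def r (s : Bool) (b : X) : X := fun j => xor s (decide (Even (nt b j + 1)))

lemma rho_eq : rho = r false := by
  funext b j; simp [rho, r, nt]

lemma r_false (s : Bool) {b : X} (h : Inf true b) : r s (co false b) = r (!s) b := by
  funext j
  have := nt_co false h j
  simp only [Bool.false_eq_true, if_false, add_zero] at this
  simp only [r, this, Nat.even_add_one (n := nt b j + 1)]
  cases s <;> by_cases e : Even (nt b j + 1) <;> simp [e]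

lemma r_true (s : Bool) {b : X} (h : Inf true b) : r s (co true b) = co s (r (!s) b) := by
  funext j
  cases j with
  | zero =>
    have : nt (co true b) 0 = 0 := Nat.nth_zero_of_zero (p := fun k => co true b k = true) rfl
    simp [r, this]
  | succ j =>
    have := nt_co true h j
    simp only [if_true] at this
    simp only [r, this, co_succ, Nat.even_add_one (n := nt b j + 1)]
    cases s <;> by_cases e : Even (nt b j + 1) <;> simp [e]

lemma meas_sInf (p : X → ℕ → Prop) (hp : ∀ i, MeasurableSet {b | p b i}) :
    Measurable fun b => sInf {i | p b i} := by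
  refine measurable_to_countable' fun n => ?_
  have : (fun b => sInf {i | p b i}) ⁻¹' {n} =
      ({b | p b n} ∩ ⋂ k ∈ Finset.range n, {b | p b k}ᶜ) ∪
        ({_b : X | n = 0} ∩ ⋂ k, {b | p b k}ᶜ) := by
    ext b
    simp only [mem_preimage, mem_singleton_iff, mem_union, mem_inter_iff, mem_ofPred_eq,
      mem_iInter, mem_compl_iff, Finset.mem_range]
    constructor
    · intro e
      by_cases hne : ∃ k, p b k
      · left
        refine ⟨e ▸ Nat.sInf_mem (s := {i | p b i}) hne, fun k hk => ?_⟩
        exact Nat.notMem_of_lt_sInf (s := {i | p b i}) (e ▸ hk)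
      · right
        push Not at hne
        refine ⟨?_, hne⟩
        rw [← e]
        have : {i | p b i} = ∅ := by ext i; simp [hne i]
        simp [this]
    · rintro (⟨h1, h2⟩ | ⟨h1, h2⟩)
      · refine le_antisymm (Nat.sInf_le h1) ?_
        by_contra hlt
        push Not at hlt
        exact h2 _ hlt (Nat.sInf_mem (s := {i | p b i}) ⟨n, h1⟩)
      · have : {i | p b i} = ∅ := by ext i; simp [h2 i]
        simp [this, h1]
  rw [this]
  refine ((hp n).inter (MeasurableSet.biInter (Finset.countable_toSet _) fun k _ => (hp k).compl)).union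
    (MeasurableSet.inter ?_ (MeasurableSet.iInter fun k => (hp k).compl))
  exact MeasurableSet.const _

lemma meas_nt (j : ℕ) : Measurable fun b => nt b j := by
  induction j using Nat.strong_induction_on with
  | _ j ih =>
    have : (fun b => nt b j) = fun b => sInf {i | b i = true ∧ ∀ k < j, nt b k < i} := by
      funext b; exact Nat.nth_eq_sInf _ j
    rw [this]
    refine meas_sInf _ fun i => ?_
    have e : {b : X | b i = true ∧ ∀ k < j, nt b k < i} =
        (fun b : X => b i) ⁻¹' {true} ∩ ⋂ k ∈ Finset.range j, (fun b => nt b k) ⁻¹' {m | m < i} := by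
      ext b; simp
    rw [e]
    refine (measurable_pi_apply i (measurableSet_singleton _)).inter
      (MeasurableSet.biInter (Finset.countable_toSet _) fun k hk => ?_)
    exact ih k (by simpa using hk) (MeasurableSet.of_discrete)

lemma meas_r (s : Bool) : Measurable (r s) := by
  refine measurable_pi_lambda _ fun j => ?_
  exact (measurable_from_nat (f := fun m => xor s (decide (Even (m + 1))))).comp (meas_nt j)

def sig : Bool → List Bool → List Bool
  | _, [] => []
  | s, false :: w => sig (!s) w
  | s, true :: w => s :: sig (!s) w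

def par : Bool → List Bool → Bool
  | s, [] => s
  | s, _ :: w => par (!s) w

lemma r_pre (w : List Bool) : ∀ (s : Bool) {b : X}, Inf true b →
    r s (pre w b) = pre (sig s w) (r (par s w) b) := by
  induction w with
  | nil => intro s b _; rfl
  | cons a w ih =>
    intro s b h
    cases a
    · rw [pre_cons, r_false s ((inf_pre w).2 h), ih _ h]; rfl
    · rw [pre_cons, r_true s ((inf_pre w).2 h), ih _ h]; rfl

lemma len_sig (w : List Bool) : ∀ s, (sig s w).length = w.count true := by
  induction w with
  | nil => intro s; rfl
  | cons a w ih => intro s; cases a <;> simp [sig, ih]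

lemma count_sig (w : List Bool) : ∀ s, 2 * (sig s w).count true ≤ w.length + if s then 1 else 0 := by
  induction w with
  | nil => intro s; simp [sig]
  | cons a w ih =>
    intro s
    have := ih (!s)
    cases a <;> cases s <;> simp [sig] at this ⊢ <;> omega

lemma par_even (w : List Bool) : ∀ s, par s w = xor s (decide (Odd w.length)) := by
  induction w with
  | nil => intro s; simp [par]
  | cons a w ih =>
    intro s
    simp only [par, ih, List.length_cons, Nat.odd_add_one]
    cases s <;> by_cases e : Odd w.length <;> simp [e]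

/-! values -/

lemma summ (b : X) : Summable fun j => (if b j then (1 : ℝ) else 0) / 2 ^ (j + 1) := by
  refine Summable.of_nonneg_of_le (fun j => by positivity) (fun j => ?_) summable_geometric_two
  rw [one_div, inv_pow, div_eq_mul_inv, pow_succ, mul_inv]
  have : (0 : ℝ) < (2 ^ j)⁻¹ := by positivity
  split_ifs <;> nlinarith

lemma val_co (a : Bool) (b : X) : val (co a b) = ((if a then 1 else 0) + val b) / 2 := by
  unfold val
  rw [(summ _).tsum_eq_zero_add, add_div, ← tsum_div_const]
  simp only [co_zero, co_succ, zero_add, pow_one]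
  congr 1
  refine tsum_congr fun j => ?_
  rw [pow_succ, div_div]
  rfl

lemma val_nonneg (b : X) : 0 ≤ val b := tsum_nonneg fun j => by positivity

lemma val_le (b : X) : val b ≤ 1 := by
  have h : HasSum (fun j : ℕ => (1 : ℝ) / 2 / 2 ^ j) 1 := hasSum_geometric_two' 1
  rw [← h.tsum_eq]
  refine (summ b).tsum_le_tsum (fun j => ?_) h.summable
  rw [div_div, pow_succ']
  gcongr
  split_ifs <;> norm_num

lemma val_close (n : ℕ) : ∀ b c : X, (∀ i < n, b i = c i) → |val b - val c| ≤ (1 / 2) ^ n := by
  induction n with
  | zero =>
    intro b c _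
    have := val_nonneg b; have := val_le b; have := val_nonneg c; have := val_le c
    rw [abs_le]; constructor <;> simp <;> linarith
  | succ n ih =>
    intro b c h
    have h1 := ih (fun i => b (i + 1)) (fun i => c (i + 1)) fun i hi => h (i + 1) (by omega)
    rw [co_eta b, co_eta c, val_co, val_co, h 0 (by omega), pow_succ]
    rw [abs_le] at h1 ⊢
    constructor <;> linarith [h1.1, h1.2]

lemma val_pos (k : ℕ) : ∀ b : X, b k = true → 0 < val b := by
  induction k with
  | zero => intro b h; rw [co_eta b, val_co, h]; have := val_nonneg fun n => b (n + 1); simp; linarith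
  | succ k ih =>
    intro b h
    have := ih (fun n => b (n + 1)) h
    rw [co_eta b, val_co]; split_ifs <;> linarith

lemma val_lt (k : ℕ) : ∀ b : X, b k = false → val b < 1 := by
  induction k with
  | zero => intro b h; rw [co_eta b, val_co, h]; have := val_le fun n => b (n + 1); simp; linarith
  | succ k ih =>
    intro b h
    have := ih (fun n => b (n + 1)) h
    rw [co_eta b, val_co]; split_ifs <;> linarith

noncomputable def T (x : ℝ) : ℝ := if 1 / 2 < x then 2 * x - 1 else 2 * x

noncomputable def beta (x : ℝ) : X := fun k => decide (1 / 2 < T^[k] x)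

lemma beta_eq (x : ℝ) : beta x = co (decide (1 / 2 < x)) (beta (T x)) := by
  funext k; cases k <;> rfl

lemma meas_T : Measurable T :=
  Measurable.ite measurableSet_Ioi (by fun_prop) (by fun_prop)

lemma meas_beta : Measurable beta := by
  refine measurable_pi_lambda _ fun k => ?_
  refine measurable_to_countable' fun c => ?_
  have h : MeasurableSet {x : ℝ | 1 / 2 < T^[k] x} := (meas_T.iterate k) measurableSet_Ioi
  cases c
  · have : (fun x => beta x k) ⁻¹' {false} = {x : ℝ | 1 / 2 < T^[k] x}ᶜ := by
      ext x; simp [beta]
    rw [this]; exact h.compl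
  · have : (fun x => beta x k) ⁻¹' {true} = {x : ℝ | 1 / 2 < T^[k] x} := by
      ext x; simp [beta]
    rw [this]; exact h

lemma T_mem {x : ℝ} (h : x ∈ Ioc (0 : ℝ) 1) : T x ∈ Ioc (0 : ℝ) 1 := by
  unfold T; obtain ⟨h1, h2⟩ := h
  split_ifs with e <;> constructor <;> linarith

lemma val_beta {x : ℝ} (h : x ∈ Ioc (0 : ℝ) 1) : val (beta x) = x := by
  have key : ∀ n : ℕ, ∀ x ∈ Ioc (0 : ℝ) 1, |val (beta x) - x| ≤ (1 / 2) ^ n := by
    intro n
    induction n with
    | zero =>
      intro x hx
      have := val_nonneg (beta x); have := val_le (beta x)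
      rw [abs_le]; constructor <;> simp <;> linarith [hx.1, hx.2]
    | succ n ih =>
      intro x hx
      have h1 := ih _ (T_mem hx)
      rw [beta_eq, val_co, pow_succ]
      rw [abs_le] at h1 ⊢
      unfold T at h1
      by_cases e : 1 / 2 < x
      · simp only [e, if_true, decide_true, T] at h1 ⊢; constructor <;> linarith [h1.1, h1.2]
      · simp only [e, if_false, decide_false, T] at h1 ⊢
        constructor <;> simp only [Bool.false_eq_true, if_false] <;> linarith [h1.1, h1.2]
  have ht : Tendsto (fun n : ℕ => (1 / 2 : ℝ) ^ n) atTop (𝓝 0) :=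
    tendsto_pow_atTop_nhds_zero_of_lt_one (by norm_num) (by norm_num)
  have := ge_of_tendsto' ht fun n => key n x h
  exact sub_eq_zero.1 (abs_nonpos_iff.1 this)

lemma beta_inf {x : ℝ} (h : x ∈ Ioc (0 : ℝ) 1) : Inf true (beta x) := by
  intro n
  by_contra hc
  push Not at hc
  have hm : ∀ k, T^[k] x ∈ Ioc (0 : ℝ) 1 := fun k => by
    induction k with
    | zero => exact h
    | succ k ih => rw [Function.iterate_succ_apply']; exact T_mem ih
  have h0 : val (beta (T^[n] x)) = 0 := by
    unfold val
    have : ∀ j, beta (T^[n] x) j = false := fun j => by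
      have := hc (j + n) (by omega)
      simp only [beta, Function.iterate_add_apply] at this ⊢
      simpa using this
    simp [this]
  rw [val_beta (hm n)] at h0
  exact (hm n).1.ne' h0

lemma beta_near (N : ℕ) : ∀ c : X, Inf true c → Inf false c →
    ∀ᶠ x in 𝓝 (val c), ∀ i < N, beta x i = c i := by
  induction N with
  | zero => intro c _ _; simp
  | succ N ih =>
    intro c h1 h0
    rw [co_eta c] at h1 h0 ⊢
    set c' : X := fun n => c (n + 1)
    have h1' := inf_co.1 h1
    have h0' := inf_co.1 h0
    have hp : 0 < val c' := by obtain ⟨k, _, e⟩ := h1' 0; exact val_pos k _ e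
    have hl : val c' < 1 := by obtain ⟨k, _, e⟩ := h0' 0; exact val_lt k _ e
    have hi := ih c' h1' h0'
    rw [val_co]
    cases c 0
    · have hc : Tendsto (fun x : ℝ => 2 * x) (𝓝 ((0 + val c') / 2)) (𝓝 (val c')) := by
        have : Continuous fun x : ℝ => 2 * x := by fun_prop
        refine this.tendsto' _ _ (by ring)
      simp only [Bool.false_eq_true, if_false]
      filter_upwards [hc hi, Iio_mem_nhds (show (0 + val c') / 2 < 1 / 2 by linarith)] with x hx hx2
      have e : ¬ 1 / 2 < x := not_lt.2 (le_of_lt hx2)
      intro i hi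
      rw [beta_eq]
      cases i with
      | zero => simp only [co_zero, e, decide_false]
      | succ i => simp only [co_succ, T, e, if_false]; exact hx i (by omega)
    · have hc : Tendsto (fun x : ℝ => 2 * x - 1) (𝓝 ((1 + val c') / 2)) (𝓝 (val c')) := by
        have : Continuous fun x : ℝ => 2 * x - 1 := by fun_prop
        refine this.tendsto' _ _ (by ring)
      simp only [if_true]
      filter_upwards [hc hi, Ioi_mem_nhds (show 1 / 2 < (1 + val c') / 2 by linarith)] with x hx hx2
      have e : 1 / 2 < x := hx2
      intro i hi
      rw [beta_eq]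
      cases i with
      | zero => simp only [co_zero, e, decide_true]
      | succ i => simp only [co_succ, T, e, if_true]; exact hx i (by omega)

lemma r_near (M : ℕ) : ∀ (s : Bool) (c : X), Inf true c → ∃ N, ∀ b : X, Inf true b →
    (∀ i < N, b i = c i) → ∀ j < M, r s b j = r s c j := by
  intro s c hc
  refine ⟨nt c M + 1, fun b hb h j hj => ?_⟩
  classical
  have hi := inf_infinite hc
  have h1 : c (nt c j) = true := Nat.nth_mem_of_infinite hi j
  have hlt : nt c j < nt c M := (Nat.nth_strictMono hi) hj
  have h2 : Nat.count (fun k => c k = true) (nt c j) = j := Nat.count_nth_of_infinite hi j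
  have h3 : Nat.count (fun k => b k = true) (nt c j) = j := by
    refine Eq.trans ?_ h2
    rw [Nat.count_eq_card_filter_range, Nat.count_eq_card_filter_range]
    congr 1
    refine Finset.filter_congr fun k hk => ?_
    rw [h k (by have := Finset.mem_range.1 hk; omega)]
  have h4 : nt b j = nt c j := by
    have := Nat.nth_count (p := fun k => b k = true) (n := nt c j) (by rw [h _ (by omega)]; exact h1)
    rw [h3] at this; exact this
  simp only [r, h4]

end Pool.Agent.H43.Era
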