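import Mathlib
import Pool.Agent.H43.Era1

open MeasureTheory Set Filter Topology
open scoped symmDiff

namespace Pool.Agent.H43.Era

def Dn (n : ℕ) (A : Set X) : Prop := ∀ b c : X, (∀ i < n, b i = c i) → (b ∈ A ↔ c ∈ A)

lemma Dn.co {n : ℕ} {A : Set X} (h : Dn (n + 1) A) (a : Bool) : Dn n (co a ⁻¹' A) := by
  intro b c hbc
  refine h _ _ fun i hi => ?_
  cases i with
  | zero => rfl
  | succ i => exact hbc i (by omega)

lemma Dn.zero {A : Set X} (h : Dn 0 A) : A = ∅ ∨ A = univ := by
  rcases A.eq_empty_or_nonempty with e | ⟨b, hb⟩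
  · exact Or.inl e
  · exact Or.inr (eq_univ_of_forall fun c => (h b c (by simp)).1 hb)

lemma Dn.meas (n : ℕ) : ∀ {A : Set X}, Dn n A → MeasurableSet A := by
  induction n with
  | zero => intro A h; rcases h.zero with rfl | rfl <;> simp
  | succ n ih =>
    intro A h
    have ht : Measurable fun (b : X) (n : ℕ) => b (n + 1) :=
      measurable_pi_lambda _ fun n => measurable_pi_apply _
    have : A = ⋃ a : Bool, (fun b : X => b 0) ⁻¹' {a} ∩
        (fun (b : X) (n : ℕ) => b (n + 1)) ⁻¹' (Era.co a ⁻¹' A) := by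
      ext b
      simp only [mem_iUnion, mem_inter_iff, mem_preimage, mem_singleton_iff]
      constructor
      · intro hb; exact ⟨b 0, rfl, by rw [← co_eta b]; exact hb⟩
      · rintro ⟨a, rfl, hb⟩; rw [← co_eta b] at hb; exact hb
    rw [this]
    exact MeasurableSet.iUnion fun a =>
      (measurable_pi_apply 0 (measurableSet_singleton _)).inter (ht (ih (h.co a)))

def Dep : Set (Set X) := {A | ∃ n, Dn n A}

lemma Dn.mono {m n : ℕ} {A : Set X} (h : Dn m A) (hmn : m ≤ n) : Dn n A :=
  fun b c hbc => h b c fun i hi => hbc i (by omega)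

lemma dep_ring : IsSetRing Dep where
  empty_mem := ⟨0, fun _ _ _ => Iff.rfl⟩
  union_mem := by
    rintro s t ⟨m, hm⟩ ⟨n, hn⟩
    refine ⟨max m n, fun b c h => ?_⟩
    exact or_congr (hm.mono (le_max_left _ _) b c h) (hn.mono (le_max_right _ _) b c h)
  sdiff_mem := by
    rintro s t ⟨m, hm⟩ ⟨n, hn⟩
    refine ⟨max m n, fun b c h => ?_⟩
    exact and_congr (hm.mono (le_max_left _ _) b c h) (hn.mono (le_max_right _ _) b c h).not

lemma dep_gen : (inferInstance : MeasurableSpace X) = MeasurableSpace.generateFrom Dep := by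
  refine le_antisymm ?_ (MeasurableSpace.generateFrom_le fun A ⟨n, h⟩ => h.meas)
  refine iSup_le fun i => ?_
  rintro _ ⟨s, _, rfl⟩
  refine MeasurableSpace.measurableSet_generateFrom ⟨i + 1, fun b c h => ?_⟩
  simp only [mem_preimage, h i (by omega)]

def Rec (μ : Measure X) : Prop :=
  ∀ S, MeasurableSet S → μ.real S = (μ.real (co false ⁻¹' S) + μ.real (co true ⁻¹' S)) / 2

lemma rec_unique {μ ν : Measure X} [IsProbabilityMeasure μ] [IsProbabilityMeasure ν]
    (hμ : Rec μ) (hν : Rec ν) : μ = ν := by
  have key : ∀ n, ∀ A, Dn n A → μ.real A = ν.real A := by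
    intro n
    induction n with
    | zero => intro A h; rcases h.zero with rfl | rfl <;> simp
    | succ n ih => intro A h; rw [hμ A h.meas, hν A h.meas, ih _ (h.co _), ih _ (h.co _)]
  refine ext_of_generate_finite Dep dep_gen dep_ring.isSetSemiring.isPiSystem ?_ (by simp)
  rintro A ⟨n, h⟩
  exact (measureReal_eq_measureReal_iff (measure_ne_top _ _) (measure_ne_top _ _)).1 (key n A h)

lemma rec_dens {μ : Measure X} [IsProbabilityMeasure μ] (hμ : Rec μ) {C : Set X}
    (hC : MeasurableSet C) {δ : ℝ} (hδ : 0 < δ) (h : ∀ w, δ ≤ μ.real (pre w ⁻¹' C)) : μ Cᶜ = 0 := by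
  have key : ∀ n, ∀ A C, MeasurableSet C → (∀ w, δ ≤ μ.real (pre w ⁻¹' C)) → Dn n A →
      δ * μ.real A ≤ μ.real (C ∩ A) := by
    intro n
    induction n with
    | zero =>
      intro A C _ h hA
      rcases hA.zero with rfl | rfl
      · simp
      · rw [inter_univ, probReal_univ, mul_one]; exact h []
    | succ n ih =>
      intro A C hC h hA
      rw [hμ A hA.meas, hμ _ (hC.inter hA.meas), preimage_inter, preimage_inter]
      have h0 := ih _ _ (meas_co false hC) (fun w => h (false :: w)) (hA.co false)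
      have h1 := ih _ _ (meas_co true hC) (fun w => h (true :: w)) (hA.co true)
      linarith
  have hz : μ.real Cᶜ ≤ 0 := by
    refine le_of_forall_pos_le_add fun ε hε => ?_
    have hη : 0 < ε * δ / (1 + δ) := by positivity
    obtain ⟨A, ⟨n, hA⟩, hlt⟩ := exists_measure_symmDiff_lt_of_generateFrom_isSetRing (μ := μ)
      dep_ring ⟨{univ}, countable_singleton _, by
        rintro _ rfl; exact ⟨0, fun _ _ _ => Iff.rfl⟩, by simp⟩ dep_gen hC.compl
      (ENNReal.ofReal_pos.2 hη)
    have h1 : μ.real (A ∆ Cᶜ) ≤ ε * δ / (1 + δ) :=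
      (ENNReal.toReal_le_of_le_ofReal hη.le hlt.le)
    have h2 : μ.real (C ∩ A) ≤ μ.real (A ∆ Cᶜ) :=
      measureReal_mono (fun x hx => Or.inl ⟨hx.2, fun h => h hx.1⟩)
    have h3 : μ.real Cᶜ ≤ μ.real A + μ.real (A ∆ Cᶜ) := by
      refine le_trans (measureReal_mono fun x hx => ?_) (measureReal_union_le _ _)
      by_cases e : x ∈ A
      · exact Or.inl e
      · exact Or.inr (Or.inr ⟨hx, e⟩)
    have h4 := key n A C hC h hA
    have h5 : δ * μ.real Cᶜ ≤ (1 + δ) * (ε * δ / (1 + δ)) := by nlinarith
    rw [mul_div_cancel₀ _ (by positivity)] at h5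
    nlinarith
  exact (measureReal_eq_zero_iff (measure_ne_top _ _)).1 (le_antisymm hz measureReal_nonneg)

noncomputable def L : Measure X := (volume.restrict (Ioc (0 : ℝ) 1)).map beta

instance : IsProbabilityMeasure L := by
  haveI : IsProbabilityMeasure (volume.restrict (Ioc (0 : ℝ) 1)) := ⟨by simp⟩
  exact Measure.isProbabilityMeasure_map meas_beta.aemeasurable

lemma L_apply {S : Set X} (hS : MeasurableSet S) : L S = volume (beta ⁻¹' S ∩ Ioc 0 1) := by
  rw [L, Measure.map_apply meas_beta hS, Measure.restrict_apply (meas_beta hS)]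

lemma rec_L : Rec L := by
  intro S hS
  have h0 : volume (beta ⁻¹' (co false ⁻¹' S) ∩ Ioc 0 1) =
      2 * volume (beta ⁻¹' S ∩ Ioc 0 (1 / 2)) := by
    have : beta ⁻¹' (co false ⁻¹' S) ∩ Ioc 0 1 =
        (fun x : ℝ => (1 / 2) * x) ⁻¹' (beta ⁻¹' S ∩ Ioc 0 (1 / 2)) := by
      ext x
      simp only [mem_inter_iff, mem_preimage, mem_Ioc]
      have e : x ≤ 1 → beta (1 / 2 * x) = co false (beta x) := fun hx => by
        have e1 : ¬ (1 / 2 : ℝ) < 1 / 2 * x := by linarith
        rw [beta_eq]; simp only [T, e1, if_false, decide_false]; congr 2; ring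
      constructor
      · rintro ⟨h1, h2, h3⟩; exact ⟨by rw [e h3]; exact h1, by linarith, by linarith⟩
      · rintro ⟨h1, h2, h3⟩; exact ⟨by rw [← e (by linarith)]; exact h1, by linarith, by linarith⟩
    rw [this, Real.volume_preimage_mul_left (by norm_num)]
    norm_num
  have h1 : volume (beta ⁻¹' (co true ⁻¹' S) ∩ Ioc 0 1) =
      2 * volume (beta ⁻¹' S ∩ Ioc (1 / 2) 1) := by
    have : beta ⁻¹' (co true ⁻¹' S) ∩ Ioc 0 1 =
        (fun x : ℝ => (1 / 2) * x) ⁻¹' ((fun x : ℝ => 1 / 2 + x) ⁻¹'
          (beta ⁻¹' S ∩ Ioc (1 / 2) 1)) := by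
      ext x
      simp only [mem_inter_iff, mem_preimage, mem_Ioc]
      have e : 0 < x → beta (1 / 2 + 1 / 2 * x) = co true (beta x) := fun hx => by
        have e1 : (1 / 2 : ℝ) < 1 / 2 + 1 / 2 * x := by linarith
        rw [beta_eq]; simp only [T, e1, if_true, decide_true]; congr 2; ring
      constructor
      · rintro ⟨h1, h2, h3⟩; exact ⟨by rw [e h2]; exact h1, by linarith, by linarith⟩
      · rintro ⟨h1, h2, h3⟩; exact ⟨by rw [← e (by linarith)]; exact h1, by linarith, by linarith⟩
    rw [this, Real.volume_preimage_mul_left (by norm_num), measure_preimage_add]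
    norm_num
  have h2 : volume (beta ⁻¹' S ∩ Ioc 0 1) =
      volume (beta ⁻¹' S ∩ Ioc 0 (1 / 2)) + volume (beta ⁻¹' S ∩ Ioc (1 / 2) 1) := by
    rw [← measure_union _ ((meas_beta hS).inter measurableSet_Ioc), ← inter_union_distrib_left,
      Ioc_union_Ioc_eq_Ioc (by norm_num) (by norm_num)]
    exact (Ioc_disjoint_Ioc_of_le le_rfl).mono inter_subset_right inter_subset_right
  have f1 : volume (beta ⁻¹' S ∩ Ioc (0 : ℝ) (1 / 2)) ≠ ⊤ :=
    ne_top_of_le_ne_top (by simp) (measure_mono inter_subset_right)
  have f2 : volume (beta ⁻¹' S ∩ Ioc (1 / 2 : ℝ) 1) ≠ ⊤ :=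
    ne_top_of_le_ne_top (by simp) (measure_mono inter_subset_right)
  simp only [Measure.real]
  rw [L_apply hS, L_apply (meas_co _ hS), L_apply (meas_co _ hS), h0, h1, h2,
    ENNReal.toReal_add f1 f2, ENNReal.toReal_mul, ENNReal.toReal_mul]
  norm_num; ring

def Tl (c : Bool) (n : ℕ) : Set X := {b | ∀ k ≥ n, b k = c}

lemma meas_Tl (c : Bool) (n : ℕ) : MeasurableSet (Tl c n) := by
  have : Tl c n = ⋂ k ∈ Ici n, (fun b : X => b k) ⁻¹' {c} := by ext b; simp [Tl]
  rw [this]
  exact MeasurableSet.biInter (to_countable _) fun k _ =>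
    measurable_pi_apply k (measurableSet_singleton _)

lemma co_Tl_succ (a c : Bool) (n : ℕ) : co a ⁻¹' Tl c (n + 1) = Tl c n := by
  ext b
  constructor
  · intro h k hk; exact h (k + 1) (by omega)
  · intro h k hk
    obtain ⟨k, rfl⟩ : ∃ k', k = k' + 1 := ⟨k - 1, by omega⟩
    exact h k (by omega)

lemma co_Tl_zero (a c : Bool) : co a ⁻¹' Tl c 0 = if a = c then Tl c 0 else ∅ := by
  ext b
  split_ifs with e
  · constructor
    · intro h k hk; exact h (k + 1) (by omega)
    · intro h k _
      cases k with
      | zero => exact e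
      | succ k => exact h k (by omega)
  · exact ⟨fun h => e (h 0 le_rfl), fun h => h.elim⟩

def Good (b : X) : Prop := Inf true b ∧ Inf false b

lemma ae_good {μ : Measure X} [IsFiniteMeasure μ] (h : ∀ c n, μ.real (Tl c n) = 0) :
    ∀ᵐ b ∂μ, Good b := by
  have : ∀ c, ∀ᵐ b ∂μ, Inf c b := fun c => by
    refine ae_all_iff.2 fun n => ?_
    have := (measureReal_eq_zero_iff (measure_ne_top _ _)).1 (h (!c) n)
    refine measure_mono_null (fun b hb => ?_) this
    intro k hk
    simp only [mem_compl_iff, mem_ofPred_eq, not_exists, not_and] at hb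
    have := hb k hk
    cases c <;> simpa using this
  filter_upwards [this true, this false] with b h1 h2 using ⟨h1, h2⟩

lemma L_good : ∀ᵐ b ∂L, Good b := by
  refine ae_good fun c n => ?_
  induction n with
  | zero =>
    have := rec_L _ (meas_Tl c 0)
    rw [co_Tl_zero, co_Tl_zero] at this
    cases c <;> simp at this <;> linarith
  | succ n ih => rw [rec_L _ (meas_Tl c _), co_Tl_succ, co_Tl_succ, ih]; simp

noncomputable def m (s : Bool) : Measure X := L.map (r s)

instance (s : Bool) : IsProbabilityMeasure (m s) :=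
  Measure.isProbabilityMeasure_map (meas_r s).aemeasurable

lemma real_congr {μ : Measure X} (h : ∀ᵐ b ∂μ, Good b) {f g : X → X} (hfg : ∀ b, Inf true b → f b = g b)
    (S : Set X) : μ.real (f ⁻¹' S) = μ.real (g ⁻¹' S) := by
  refine measureReal_congr ?_
  filter_upwards [h] with b hb
  exact congrArg (· ∈ S) (hfg b hb.1)

lemma m_real (s : Bool) {S : Set X} (hS : MeasurableSet S) : (m s).real S = L.real (r s ⁻¹' S) :=
  map_measureReal_apply (meas_r s) hS

lemma rec_m (s : Bool) {S : Set X} (hS : MeasurableSet S) :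
    (m s).real S = ((m (!s)).real S + (m (!s)).real (co s ⁻¹' S)) / 2 := by
  rw [m_real s hS, rec_L _ (meas_r s hS), m_real _ hS, m_real _ (meas_co s hS),
    ← preimage_comp, ← preimage_comp, ← preimage_comp,
    real_congr L_good (f := r s ∘ co false) (g := r (!s)) (fun b hb => r_false s hb),
    real_congr L_good (f := r s ∘ co true) (g := co s ∘ r (!s)) (fun b hb => r_true s hb)]

lemma m_good (s : Bool) : ∀ᵐ b ∂(m s), Good b := by
  refine ae_good fun c n => ?_
  induction n generalizing s with
  | zero =>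
    have h0 := rec_m false (meas_Tl c 0)
    have h1 := rec_m true (meas_Tl c 0)
    rw [co_Tl_zero] at h0 h1
    cases c <;> cases s <;> simp at h0 h1 <;> linarith
  | succ n ih =>
    have h0 := rec_m false (meas_Tl c (n + 1))
    have h1 := rec_m true (meas_Tl c (n + 1))
    rw [co_Tl_succ, ih] at h0 h1
    cases s <;> simp at h0 h1 <;> linarith

lemma a_F (t : Bool) {S : Set X} (hS : MeasurableSet S) :
    (m false).real (r t ⁻¹' S) =
      ((m true).real (r false ⁻¹' S) + (m true).real (r true ⁻¹' S)) / 2 := by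
  rw [rec_m false (meas_r t hS), ← preimage_comp,
    real_congr (m_good _) (f := r t ∘ co false) (g := r (!t)) (fun b hb => r_false t hb)]
  cases t
  · rfl
  · simp only [Bool.not_false, Bool.not_true]; ring

lemma a_T (t : Bool) {S : Set X} (hS : MeasurableSet S) :
    (m true).real (r t ⁻¹' S) =
      ((m false).real (r false ⁻¹' S) + (m false).real (r false ⁻¹' (co t ⁻¹' S))) / 2 := by
  rw [rec_m true (meas_r t hS), ← preimage_comp,
    real_congr (m_good _) (f := r t ∘ co true) (g := co t ∘ r (!t)) (fun b hb => r_true t hb),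
    preimage_comp]
  simp only [Bool.not_true]
  rw [a_F t hS, a_F (!t) (meas_co t hS), a_F false hS, a_F false (meas_co t hS)]

lemma map_m : (m false).map (r false) = L := by
  haveI : IsProbabilityMeasure ((m false).map (r false)) :=
    Measure.isProbabilityMeasure_map (meas_r _).aemeasurable
  refine rec_unique (fun S hS => ?_) rec_L
  rw [map_measureReal_apply (meas_r _) hS, map_measureReal_apply (meas_r _) (meas_co _ hS),
    map_measureReal_apply (meas_r _) (meas_co _ hS)]
  have h1 := a_F false hS
  rw [a_T false hS, a_T true hS] at h1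
  linarith

lemma a_F' (t : Bool) {S : Set X} (hS : MeasurableSet S) :
    (m false).real (r t ⁻¹' S) = L.real S := by
  rw [a_F t hS, ← a_F false hS, ← map_m, map_measureReal_apply (meas_r _) hS]

lemma a_T' (t : Bool) {S : Set X} (hS : MeasurableSet S) :
    (m true).real (r t ⁻¹' S) = (L.real S + L.real (co t ⁻¹' S)) / 2 := by
  rw [a_T t hS, a_F' _ hS, a_F' _ (meas_co t hS)]

/-- ergodicity: a measurable set containing its preimage is null or conull -/
lemma ergo {C : Set X} (hC : MeasurableSet C) (hinv : r false ⁻¹' C ⊆ C) (hpos : 0 < L.real C) :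
    L Cᶜ = 0 := by
  refine rec_dens rec_L hC (half_pos hpos) fun w => ?_
  induction hn : w.length using Nat.strong_induction_on generalizing w with
  | _ n ih =>
    set u := sig false w
    set v := sig false u
    have hv : 2 * v.length ≤ n := by
      have := count_sig w false
      simp only [Bool.false_eq_true, if_false, add_zero] at this
      rw [← hn, len_sig]; exact this
    have step : ∀ (μ : Measure X) [IsFiniteMeasure μ], (∀ᵐ b ∂μ, Good b) → ∀ z : List Bool,
        μ.real (r (par false z) ⁻¹' (pre (sig false z) ⁻¹' C)) ≤ μ.real (pre z ⁻¹' C) := by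
      intro μ _ hg z
      rw [← preimage_comp, ← real_congr hg (f := r false ∘ pre z)
        (g := pre (sig false z) ∘ r (par false z)) (fun b hb => r_pre z false hb)]
      exact measureReal_mono (fun b hb => hinv hb)
    have s1 := step L L_good w
    rw [← m_real _ (meas_pre _ hC)] at s1
    have s2 := step (m (par false w)) (m_good _) u
    have s3 := s2.trans s1
    rcases Nat.eq_zero_or_pos n with h0 | h0
    · have : w = [] := List.length_eq_zero_iff.1 (hn.trans h0)
      subst this
      simp only [show pre [] = id from rfl, preimage_id]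
      linarith
    · rw [par_even w, hn] at s3
      by_cases e : Odd n
      · simp only [e, decide_true, Bool.false_xor] at s3
        rw [a_T' _ (meas_pre _ hC)] at s3
        by_cases e1 : n = 1
        · have : v = [] := List.length_eq_zero_iff.1 (by omega)
          have h2 : L.real (pre v ⁻¹' C) = L.real C := by rw [this]; rfl
          have : 0 ≤ L.real (co (par false u) ⁻¹' (pre v ⁻¹' C)) := measureReal_nonneg
          linarith
        · obtain ⟨k, hk⟩ := e
          have i1 := ih _ (by omega) v rfl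
          have i2 := ih _ (by simp; omega) (v ++ [par false u]) rfl
          have : pre (v ++ [par false u]) ⁻¹' C = co (par false u) ⁻¹' (pre v ⁻¹' C) := by
            ext b; simp only [mem_preimage, pre_snoc]
          rw [this] at i2
          linarith
      · simp only [e, decide_false, Bool.false_xor] at s3
        rw [a_F' _ (meas_pre _ hC)] at s3
        exact (ih _ (by omega) v rfl).trans s3

lemma iter_good (n : ℕ) : ∀ᵐ b ∂L, Good ((r false)^[n] b) := by
  have key : ∀ n, L.map (r false)^[n] = L ∨ L.map (r false)^[n] = m false := by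
    intro n
    induction n with
    | zero => left; simp
    | succ n ih =>
      rw [Function.iterate_succ', ← Measure.map_map (meas_r _) ((meas_r _).iterate n)]
      rcases ih with e | e <;> rw [e]
      · right; rfl
      · left; exact map_m
  have : ∀ᵐ b ∂(L.map (r false)^[n]), Good b := by
    rcases key n with e | e <;> rw [e]
    · exact L_good
    · exact m_good _
  exact ae_of_ae_map ((meas_r _).iterate n).aemeasurable this

lemma cyl_pos (n : ℕ) : ∀ c : X, 0 < L.real {b | ∀ i < n, b i = c i} := by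
  induction n with
  | zero => intro c; simp
  | succ n ih =>
    intro c
    have hD : Dn (n + 1) {b | ∀ i < n + 1, b i = c i} := fun b b' h =>
      forall₂_congr fun i hi => by rw [h i hi]
    have h1 : L.real {b | ∀ i < n, b i = c (i + 1)} ≤
        L.real (co (c 0) ⁻¹' {b | ∀ i < n + 1, b i = c i}) := by
      refine measureReal_mono fun b hb i hi => ?_
      cases i with
      | zero => rfl
      | succ i => exact hb i (by omega)
    have h2 := ih fun i => c (i + 1)
    have h3 : ∀ a, 0 ≤ L.real (co a ⁻¹' {b | ∀ i < n + 1, b i = c i}) := fun _ => measureReal_nonneg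
    rw [rec_L _ hD.meas]
    have := h3 false; have := h3 true
    cases e : c 0 <;> rw [e] at h1 <;> linarith

lemma ae_hit (n : ℕ) (c : X) : ∀ᵐ b ∂L, ∃ k, ∀ i < n, (r false)^[k] b i = c i := by
  have hD : Dn n {b | ∀ i < n, b i = c i} := fun b b' h =>
    forall₂_congr fun i hi => by rw [h i hi]
  have := ergo (C := ⋃ k, (r false)^[k] ⁻¹' {b | ∀ i < n, b i = c i})
    (MeasurableSet.iUnion fun k => (meas_r _).iterate k hD.meas)
    (fun b hb => by
      obtain ⟨k, hk⟩ := mem_iUnion.1 hb
      exact mem_iUnion.2 ⟨k + 1, hk⟩)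
    ((cyl_pos n c).trans_le (measureReal_mono fun b hb => mem_iUnion.2 ⟨0, hb⟩))
  filter_upwards [(mem_ae_iff.2 this : _ ∈ ae L)] with b hb
  exact mem_iUnion.1 hb

end Pool.Agent.H43.Era
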