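import Mathlib
import Pool.Agent.H43.Era2

open MeasureTheory Set Filter Topology

namespace Pool.Agent.H43.EraJ

open Pool.Agent.H43.Era

/-- The binary expansion of `x` in `(0,1]` that is not eventually zero. -/
noncomputable def expn (x : ℝ) : ℕ → Bool :=
  Classical.epsilon fun b : ℕ → Bool => (∀ n, ∃ k ≥ n, b k = true) ∧ val b = x

/-- The erasing-substitution interval map. -/
noncomputable def R (x : ℝ) : ℝ := if x = 0 then 2 / 3 else val (rho (expn x))

/-- Points of `[0,1]` whose forward orbit is dense in `[0,1]`. -/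
def E : Set ℝ := {x | x ∈ Icc (0 : ℝ) 1 ∧ Icc (0 : ℝ) 1 ⊆ closure (range fun n : ℕ => R^[n] x)}

lemma beta_val (k : ℕ) : ∀ b : X, Inf true b → beta (val b) k = b k := by
  have key : ∀ b : X, Inf true b →
      decide (1 / 2 < val b) = b 0 ∧ T (val b) = val fun n => b (n + 1) := by
    intro b hb
    rw [co_eta b] at hb
    obtain ⟨k, _, e⟩ := inf_co.1 hb 0
    have h1 := val_pos k (fun n => b (n + 1)) e
    have h2 := val_le fun n => b (n + 1)
    have h3 : val b = ((if b 0 then 1 else 0) + val fun n => b (n + 1)) / 2 := by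
      rw [← val_co, ← co_eta]
    cases e0 : b 0 <;> rw [e0] at h3
    · simp only [Bool.false_eq_true, if_false] at h3
      have : ¬ 1 / 2 < val b := by linarith
      simp only [T, this, decide_false, if_false, true_and]; linarith
    · simp only [if_true] at h3
      have : 1 / 2 < val b := by linarith
      simp only [T, this, decide_true, if_true, true_and]; linarith
  induction k with
  | zero => intro b hb; exact (key b hb).1
  | succ k ih =>
    intro b hb
    rw [beta_eq, co_succ, (key b hb).2]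
    rw [co_eta b] at hb
    exact ih _ (inf_co.1 hb)

lemma R_eq {x : ℝ} (h : x ∈ Ioc (0 : ℝ) 1) : R x = val (r false (beta x)) := by
  have h1 := Classical.epsilon_spec
    (p := fun b : ℕ → Bool => (∀ n, ∃ k ≥ n, b k = true) ∧ val b = x) ⟨beta x, beta_inf h, val_beta h⟩
  have h2 : expn x = beta x := by
    funext k
    have := beta_val k (expn x) h1.1
    rw [show val (expn x) = x from h1.2] at this
    exact this.symm
  rw [R, if_neg h.1.ne', h2, rho_eq]

lemma good_mem {b : X} (h : Good b) : val b ∈ Ioo (0 : ℝ) 1 := by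
  obtain ⟨k, _, e⟩ := h.1 0
  obtain ⟨k', _, e'⟩ := h.2 0
  exact ⟨val_pos k _ e, val_lt k' _ e'⟩

lemma R_val {b : X} (h : Good b) : R (val b) = val (r false b) := by
  rw [R_eq (Ioo_subset_Ioc_self (good_mem h))]
  congr 2
  funext k; exact beta_val k b h.1

lemma R_cont {b : X} (h : Good b) : ContinuousAt R (val b) := by
  rw [ContinuousAt, R_val h, Metric.tendsto_nhds]
  intro ε hε
  obtain ⟨M, hM⟩ := exists_pow_lt_of_lt_one hε (show (1 / 2 : ℝ) < 1 by norm_num)
  obtain ⟨N, hN⟩ := r_near M false b h.1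
  filter_upwards [beta_near N b h.1 h.2, Ioo_mem_nhds (good_mem h).1 (good_mem h).2] with x h1 h2
  rw [R_eq (Ioo_subset_Ioc_self h2), Real.dist_eq]
  exact (val_close M _ _ (hN _ (beta_inf (Ioo_subset_Ioc_self h2)) h1)).trans_lt hM

lemma iter_val (n : ℕ) : ∀ b : X, (∀ k, Good ((r false)^[k] b)) →
    R^[n] (val b) = val ((r false)^[n] b) ∧ ContinuousAt R^[n] (val b) := by
  induction n with
  | zero => intro b _; exact ⟨rfl, continuousAt_id⟩
  | succ n ih =>
    intro b h
    obtain ⟨h1, h2⟩ := ih b h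
    rw [Function.iterate_succ', Function.iterate_succ']
    refine ⟨by simp only [Function.comp, h1, R_val (h n)], ContinuousAt.comp ?_ h2⟩
    rw [h1]; exact R_cont (h n)

/-- target sets -/
def U (q : ℚ) (n : ℕ) : Set ℝ := {x | ∃ k, R^[k] x ∈ Metric.ball (q : ℝ) ((1 / 2) ^ n * 2)}

lemma ae_U {q : ℚ} (hq : (q : ℝ) ∈ Ioc (0 : ℝ) 1) (n : ℕ) :
    ∀ᵐ x : ℝ, x ∈ Ioc (0 : ℝ) 1 → x ∈ interior (U q n) := by
  have h : ∀ᵐ b ∂L, (∀ k, Good ((r false)^[k] b)) ∧ ∃ k, ∀ i < n, (r false)^[k] b i = beta q i :=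
    (ae_all_iff.2 iter_good).and (ae_hit n _)
  have h2 := (ae_restrict_iff' measurableSet_Ioc).1 (ae_of_ae_map meas_beta.aemeasurable h)
  filter_upwards [h2] with x hx hx1
  obtain ⟨hg, k, hk⟩ := hx hx1
  obtain ⟨e1, e2⟩ := iter_val k _ hg
  rw [val_beta hx1] at e1 e2
  rw [mem_interior_iff_mem_nhds]
  have h3 : R^[k] x ∈ Metric.ball (q : ℝ) ((1 / 2) ^ n * 2) := by
    have := val_close n _ _ hk
    rw [val_beta hq, ← e1] at this
    have hp : (0 : ℝ) < (1 / 2) ^ n := by positivity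
    rw [Metric.mem_ball, Real.dist_eq]; linarith
  filter_upwards [e2 (Metric.isOpen_ball.mem_nhds h3)] with y hy using ⟨k, hy⟩

lemma mem_E {x : ℝ} (hx : x ∈ Icc (0 : ℝ) 1)
    (h : ∀ q : ℚ, ∀ n, (q : ℝ) ∈ Ioc (0 : ℝ) 1 → x ∈ U q n) : x ∈ E := by
  refine ⟨hx, fun y hy => Metric.mem_closure_iff.2 fun ε hε => ?_⟩
  obtain ⟨n, hn⟩ := exists_pow_lt_of_lt_one (show 0 < ε / 4 by positivity)
    (show (1 / 2 : ℝ) < 1 by norm_num)
  obtain ⟨q, h1, h2⟩ := exists_rat_btwn (show max 0 (y - ε / 2) < min 1 (y + ε / 2) by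
    simp only [max_lt_iff, lt_min_iff]
    refine ⟨⟨by norm_num, by linarith [hy.2]⟩, by linarith [hy.1], by linarith⟩)
  simp only [max_lt_iff, lt_min_iff] at h1 h2
  obtain ⟨k, hk⟩ := h q n ⟨h1.1, h2.1.le⟩
  refine ⟨_, ⟨k, rfl⟩, ?_⟩
  rw [Metric.mem_ball, Real.dist_eq, abs_lt] at hk
  rw [Real.dist_eq, abs_lt]
  constructor <;> linarith [hk.1, hk.2, h1.2, h2.2]

theorem joint :
    IsMeagre {x : Icc (0 : ℝ) 1 | (x : ℝ) ∉ E} ∧ ¬ IsMeagre {x : Icc (0 : ℝ) 1 | (x : ℝ) ∈ E} ∧
      volume (Icc (0 : ℝ) 1 \ E) = 0 ∧ volume E = 1 := by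
  have h1 : {x : Icc (0 : ℝ) 1 | (x : ℝ) ∈ E} ∈ residual (Icc (0 : ℝ) 1) := by
    have : ∀ q : ℚ, ∀ n : ℕ, ∀ᶠ x : Icc (0 : ℝ) 1 in residual _,
        (q : ℝ) ∈ Ioc (0 : ℝ) 1 → (x : ℝ) ∈ U q n := by
      intro q n
      by_cases hq : (q : ℝ) ∈ Ioc (0 : ℝ) 1
      · have hd : Dense {x : ℝ | x ∈ Ioc (0 : ℝ) 1 → x ∈ interior (U q n)} :=
          Measure.dense_of_ae (ae_U hq n)
        have ho : IsOpen ((↑) ⁻¹' interior (U q n) : Set (Icc (0 : ℝ) 1)) :=
          isOpen_interior.preimage continuous_subtype_val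
        have hd2 : Dense ((↑) ⁻¹' interior (U q n) : Set (Icc (0 : ℝ) 1)) := by
          rw [Subtype.dense_iff, ← closure_Ioo (zero_ne_one' ℝ)]
          refine closure_minimal ((hd.open_subset_closure_inter isOpen_Ioo).trans
            (closure_mono ?_)) isClosed_closure
          rintro x ⟨hx, hx2⟩
          exact ⟨⟨x, subset_closure hx⟩, hx2 (Ioo_subset_Ioc_self hx), rfl⟩
        filter_upwards [residual_of_dense_open ho hd2] with x hx _ using interior_subset hx
      · exact Eventually.of_forall fun x h => absurd h hq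
    filter_upwards [eventually_countable_forall.2 fun q => eventually_countable_forall.2 (this q)]
      with x hx using mem_E x.2 hx
  have h3 : volume (Icc (0 : ℝ) 1 \ E) = 0 := by
    have : ∀ᵐ x : ℝ, ∀ q : ℚ, ∀ n : ℕ, (q : ℝ) ∈ Ioc (0 : ℝ) 1 → x ∈ Ioc (0 : ℝ) 1 →
        x ∈ interior (U q n) := by
      refine ae_all_iff.2 fun q => ae_all_iff.2 fun n => ?_
      by_cases hq : (q : ℝ) ∈ Ioc (0 : ℝ) 1
      · filter_upwards [ae_U hq n] with x hx _ using hx
      · exact Eventually.of_forall fun x h => absurd h hq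
    have h0 : ∀ᵐ x : ℝ, x ≠ 0 := Measure.ae_ne _ _
    rw [measure_eq_zero_iff_ae_notMem]
    filter_upwards [this, h0] with x h1 h2 hx
    exact hx.2 (mem_E hx.1 fun q n hq =>
      interior_subset (h1 q n hq ⟨lt_of_le_of_ne hx.1.1 h2.symm, hx.1.2⟩))
  refine ⟨?_, fun h2 => ?_, h3, ?_⟩
  · filter_upwards [h1] with x hx using fun h => h hx
  · obtain ⟨x, hx1, hx2⟩ := (dense_of_mem_residual (inter_mem h1 h2)).nonempty
    exact hx2 hx1
  · refine le_antisymm ((measure_mono fun x hx => hx.1).trans (by simp)) ?_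
    have := measure_le_inter_add_sdiff volume (Icc (0 : ℝ) 1) E
    rw [h3, add_zero] at this
    calc (1 : ENNReal) = volume (Icc (0 : ℝ) 1) := by simp
      _ ≤ volume E := this.trans (measure_mono inter_subset_right)

end Pool.Agent.H43.EraJ
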