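import Mathlib

set_option autoImplicit false
set_option linter.unusedSectionVars false

namespace Pool.Agent.H43.Erw1

open Filter Finset Function

noncomputable section

variable {V E : Type} [AddCommGroup V] [DecidableEq V] [Fintype E]

structure Mod (V E : Type) [AddCommGroup V] [Fintype E] where
  vec : E → V
  φ : V →+ ℤ
  p : List E → E → ℝ
  pos : ∀ s e, 0 < p s e
  sum : ∀ s, ∑ e, p s e = 1
  bd : ∀ e, |φ (vec e)| ≤ 1
  up : ∃ e, φ (vec e) = 1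
  lat : ∀ v, φ v = 0 → ∃ l : List E, (∀ e ∈ l, φ (vec e) = 0) ∧ (l.map vec).sum = v

def upd (σ : V → List E) (y : V) (e : E) : V → List E := update σ y (e :: σ y)

variable (M : Mod V E)

def Mod.g (a : ℤ) : ℕ → (V → List E) → V → ℝ
  | 0, _, _ => 1
  | t + 1, σ, y => ∑ e, M.p (σ y) e * if a ≤ M.φ (y + M.vec e) then Mod.g a t (upd σ y e) (y + M.vec e) else 0

def Mod.ap : (V → List E) → V → List E → V → List E
  | σ, _, [] => σ
  | σ, y, e :: l => Mod.ap (upd σ y e) (y + M.vec e) l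

def Mod.In (b : ℤ) : V → List E → Prop
  | _, [] => True
  | y, e :: l => b ≤ M.φ (y + M.vec e) ∧ Mod.In b (y + M.vec e) l

def Mod.Nr (t : ℕ) : Set V := (fun l : List E => (l.map M.vec).sum) '' {l | l.length ≤ t}

def Mod.Ex (a : ℤ) (s : ℕ) (γ : V × List E) : Prop :=
  M.φ γ.1 = a ∧ M.In (a - 1) γ.1 γ.2 ∧ M.φ (γ.1 + (γ.2.map M.vec).sum) = a - 1 ∧ γ.2.length ≤ s

def Mod.pt : List (V × List E) → V → List E
  | [] => fun _ => []
  | γ :: Γ => M.ap (Mod.pt Γ) γ.1 γ.2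

def Mod.Esc (a : ℤ) (σ : V → List E) (y : V) : Prop := ∃ δ > 0, ∀ t, δ ≤ M.g a t σ y

variable {M}

lemma Nr_fin (t : ℕ) : (M.Nr t).Finite := (List.finite_length_le E t).image _

lemma Nr_zero (t : ℕ) : 0 ∈ M.Nr t := ⟨[], by simp, rfl⟩

lemma Nr_step {t : ℕ} {y z : V} {e : E} (h : z - (y + M.vec e) ∈ M.Nr t) : z - y ∈ M.Nr (t + 1) := by
  obtain ⟨l, h1, h2⟩ := h
  exact ⟨e :: l, by simpa using h1, by simp only [List.map_cons, List.sum_cons] at *; rw [h2]; abel⟩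

lemma Nr_mono {s t : ℕ} (h : s ≤ t) : M.Nr s ⊆ M.Nr t := Set.image_mono fun _ (c : _ ≤ _) => c.trans h

lemma upd_congr {σ σ' : V → List E} {y z : V} {e : E} (h : σ z = σ' z) : upd σ y e z = upd σ' y e z := by
  by_cases c : z = y
  · subst c; simp [upd, h]
  · simp [upd, c, h]

lemma g_nonneg (a : ℤ) : ∀ t σ y, 0 ≤ M.g a t σ y
  | 0, _, _ => zero_le_one
  | t + 1, σ, y => sum_nonneg fun e _ => mul_nonneg (M.pos _ _).le (by split_ifs; exacts [g_nonneg a t _ _, le_rfl])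

lemma g_succ (a : ℤ) : ∀ t σ y, M.g a (t + 1) σ y ≤ M.g a t σ y
  | 0, σ, y => (sum_le_sum fun e _ => mul_le_of_le_one_right (M.pos _ _).le (by
      split_ifs; exacts [le_rfl, zero_le_one])).trans_eq (M.sum (σ y))
  | t + 1, σ, y => sum_le_sum fun e _ => mul_le_mul_of_nonneg_left (by
      split_ifs; exacts [g_succ a t _ _, le_rfl]) (M.pos _ _).le

lemma g_anti (a : ℤ) (σ : V → List E) (y : V) : Antitone fun t => M.g a t σ y :=
  antitone_nat_of_succ_le fun t => g_succ a t σ y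

lemma g_mono {a b : ℤ} (h : b ≤ a) : ∀ t σ y, M.g a t σ y ≤ M.g b t σ y
  | 0, _, _ => le_rfl
  | t + 1, σ, y => sum_le_sum fun e _ => mul_le_mul_of_nonneg_left (by
      split_ifs with h1 h2
      exacts [g_mono h t _ _, absurd (h.trans h1) h2, g_nonneg _ _ _ _, le_rfl]) (M.pos _ _).le

lemma g_congr (a : ℤ) : ∀ t σ σ' y, a ≤ M.φ y → (∀ z, a ≤ M.φ z → z - y ∈ M.Nr t → σ z = σ' z) →
    M.g a t σ y = M.g a t σ' y
  | 0, _, _, _, _, _ => rfl
  | t + 1, σ, σ', y, h1, h2 => sum_congr rfl fun e _ => by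
      rw [h2 y h1 (by simpa using Nr_zero _)]
      split_ifs with c
      · rw [g_congr a t _ _ _ c fun z h3 h4 => upd_congr (h2 z h3 (Nr_step h4))]
      · rfl

lemma upd_tr (σ : V → List E) (y v : V) (e : E) : (fun z => upd σ y e (z + v)) = upd (fun z => σ (z + v)) (y - v) e := by
  funext z
  by_cases c : z = y - v
  · subst c; simp [upd]
  · simp [upd, c, update_of_ne (show z + v ≠ y from fun h => c (eq_sub_of_add_eq h))]

lemma g_tr (a : ℤ) (v : V) : ∀ t σ y, M.g a t σ y = M.g (a - M.φ v) t (fun z => σ (z + v)) (y - v)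
  | 0, _, _ => rfl
  | t + 1, σ, y => sum_congr rfl fun e _ => by
      rw [g_tr a v t, upd_tr, sub_add_eq_add_sub y v, map_sub]
      simp only [sub_le_sub_iff_right, sub_add_cancel]

lemma ap_tr (v : V) : ∀ l σ y, (fun z => M.ap σ y l (z + v)) = M.ap (fun z => σ (z + v)) (y - v) l
  | [], _, _ => rfl
  | e :: l, σ, y => by simp only [Mod.ap]; rw [ap_tr v l, upd_tr, sub_add_eq_add_sub]

lemma In_tr (b : ℤ) (v : V) : ∀ l y, M.In b y l → M.In (b - M.φ v) (y - v) l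
  | [], _, _ => trivial
  | e :: l, y, h => by
      rw [Mod.In, sub_add_eq_add_sub, map_sub]
      exact ⟨sub_le_sub_right h.1 _, In_tr b v l _ h.2⟩

lemma pt_tr (v : V) : ∀ Γ, (fun z => M.pt Γ (z + v)) = M.pt (Γ.map fun γ => (γ.1 - v, γ.2))
  | [] => rfl
  | γ :: Γ => by simp only [Mod.pt, List.map_cons]; rw [ap_tr, pt_tr v Γ]

lemma ap_congr {z : V} : ∀ l σ σ' y, σ z = σ' z → M.ap σ y l z = M.ap σ' y l z
  | [], _, _, _, h => h
  | _ :: l, _, _, _, h => ap_congr l _ _ _ (upd_congr h)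

lemma ap_far {z : V} : ∀ (l : List E) σ y, z - y ∉ M.Nr l.length → M.ap σ y l z = σ z
  | [], _, _, _ => rfl
  | e :: l, σ, y, h => (ap_far l _ _ fun c => h (Nr_step c)).trans
      (update_of_ne (fun c => h (by simpa [c] using Nr_zero _)) _ _)

lemma pt_drop {z : V} {γ : V × List E} (h : z - γ.1 ∉ M.Nr γ.2.length) (Γ' : List (V × List E)) :
    ∀ Γ, M.pt (Γ ++ γ :: Γ') z = M.pt (Γ ++ Γ') z
  | [] => ap_far _ _ _ h
  | _ :: Γ => ap_congr _ _ _ _ (pt_drop h Γ' Γ)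

lemma esc_step {a : ℤ} {σ : V → List E} {y : V} {e : E} (h : a ≤ M.φ (y + M.vec e))
    (h2 : M.Esc a (upd σ y e) (y + M.vec e)) : M.Esc a σ y := by
  obtain ⟨δ, h3, h4⟩ := h2
  refine ⟨_, mul_pos (M.pos (σ y) e) h3, fun t => le_trans ?_ (g_succ a t σ y)⟩
  refine le_trans ?_ (single_le_sum (f := fun e => M.p (σ y) e * if a ≤ M.φ (y + M.vec e) then M.g a t (upd σ y e)
    (y + M.vec e) else 0) (fun e _ => mul_nonneg (M.pos _ _).le (by split_ifs; exacts [g_nonneg a t _ _, le_rfl])) (mem_univ e))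
  rw [if_pos h]
  exact mul_le_mul_of_nonneg_left (h4 t) (M.pos _ _).le

lemma esc_run {a : ℤ} : ∀ l σ y, M.In a y l → M.Esc a (M.ap σ y l) (y + (l.map M.vec).sum) → M.Esc a σ y
  | [], _, _, _, h => by simpa [Mod.ap] using h
  | e :: l, σ, y, h1, h => esc_step h1.1 (esc_run l _ _ h1.2 (by simpa [add_assoc, Mod.ap] using h))

lemma lat_run {a : ℤ} : ∀ (l : List E) σ y, (∀ e ∈ l, M.φ (M.vec e) = 0) → M.φ y = a - 1 →
    M.In (a - 1) y l ∧ ∀ z, a ≤ M.φ z → M.ap σ y l z = σ z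
  | [], _, _, _, _ => ⟨trivial, fun _ _ => rfl⟩
  | e :: l, σ, y, h1, h => by
      have a1 : M.φ (y + M.vec e) = a - 1 := by rw [map_add, h, h1 e (by simp), add_zero]
      have := lat_run l (upd σ y e) _ (fun e he => h1 e (by simp [he])) a1
      exact ⟨⟨a1.ge, this.1⟩, fun z hz => (this.2 z hz).trans (update_of_ne (fun c => by rw [c] at hz; omega) _ _)⟩

lemma enter {a : ℤ} {σ : V → List E} {u y : V} (hu : M.φ u = a - 1) (hy : M.φ y = a) (h : ¬M.Esc (a - 1) σ u) :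
    ∃ σ', ¬M.Esc (a - 1) σ' y ∧ ∀ z, a ≤ M.φ z → σ' z = σ z := by
  obtain ⟨e, he⟩ := M.up
  obtain ⟨l, h1, h2⟩ := M.lat (y - M.vec e - u) (by simp [hu, hy, he])
  have := lat_run l σ u h1 hu
  refine ⟨upd (M.ap σ u l) (y - M.vec e) e, fun c => h (esc_run l _ _ this.1 ?_), fun z hz =>
    (update_of_ne (fun c => by rw [c, map_sub] at hz; omega) _ _).trans (this.2 z hz)⟩
  rw [h2, add_sub_cancel]
  exact esc_step (e := e) (by simp [hy]) (by simpa using c)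

lemma not_esc (h : ¬M.Esc 0 (fun _ => []) 0) {a : ℤ} {s : ℕ} : ∀ Γ : List (V × List E), (∀ γ ∈ Γ, M.Ex a s γ) →
    ∀ y, M.φ y = a → ∃ σ', ¬M.Esc (a - 1) σ' y ∧ ∀ z, a ≤ M.φ z → σ' z = M.pt Γ z
  | [], _, y, hy => by
      obtain ⟨e, he⟩ := M.up
      refine enter (u := y - M.vec e) (by simp [hy, he]) hy fun ⟨δ, h1, h2⟩ => h ⟨δ, h1, fun t => ?_⟩
      have := h2 t
      rwa [g_tr _ (y - M.vec e) t, map_sub, hy, he, sub_self, sub_self] at this
  | γ :: Γ, h1, y, hy => by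
      obtain ⟨b1, b2, b3, -⟩ := h1 γ (by simp)
      obtain ⟨σ, h2, h3⟩ := not_esc h Γ (fun γ c => h1 γ (by simp [c])) γ.1 b1
      obtain ⟨σ', h4, h5⟩ := enter b3 hy fun c => h2 (esc_run _ _ _ b2 c)
      exact ⟨σ', h4, fun z hz => (h5 z hz).trans (ap_congr _ _ _ _ (h3 z hz))⟩

lemma unif0 (h : ¬M.Esc 0 (fun _ => []) 0) (s : ℕ) {ε : ℝ} (hε : 0 < ε) (k : ℕ) :
    ∃ t, ∀ Γ : List (V × List E), Γ.length < k → (∀ γ ∈ Γ, M.Ex 0 s γ) → M.g 0 t (M.pt Γ) 0 ≤ ε := by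
  induction k with
  | zero => exact ⟨0, fun _ c => by omega⟩
  | succ k ih =>
    obtain ⟨t0, h0⟩ := ih
    let A : Set (V × List E) := Set.image2 (· - ·) (M.Nr t0) (M.Nr s) ×ˢ {l | l.length ≤ s}
    have hA : A.Finite := ((Nr_fin _).image2 _ (Nr_fin _)).prod (List.finite_length_le E s)
    have := hA.to_subtype
    have a1 : ∀ᶠ t in atTop, ∀ Γ ∈ List.map Subtype.val '' {l : List A | l.length ≤ k}, (∀ γ ∈ Γ, M.Ex 0 s γ) →
        M.g 0 t (M.pt Γ) 0 ≤ ε := by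
      refine (eventually_all_finite ((List.finite_length_le A k).image _)).2 fun Γ _ => ?_
      by_cases c : ∀ γ ∈ Γ, M.Ex 0 s γ
      · obtain ⟨σ, h1, h2⟩ := not_esc h Γ c 0 (map_zero _)
        simp only [Mod.Esc, not_exists, not_and, not_forall, not_le] at h1
        obtain ⟨t, ht⟩ := h1 ε hε
        refine (eventually_ge_atTop t).mono fun t' h3 _ => (g_anti _ _ _ h3).trans ?_
        simp only
        rw [← g_congr 0 t σ _ 0 (by simp) fun z h4 _ => h2 z h4]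
        exact (g_mono (by norm_num) _ _ _).trans ht.le
      · exact .of_forall fun t c' => absurd c' c
    obtain ⟨t, h1, h2⟩ := (a1.and (eventually_ge_atTop t0)).exists
    refine ⟨t, fun Γ h3 h4 => ?_⟩
    by_cases c : ∀ γ ∈ Γ, γ ∈ A
    · exact h1 Γ ⟨Γ.attachWith _ c, by simp; omega, List.unattach_attachWith⟩ h4
    · push Not at c
      obtain ⟨γ, h5, h6⟩ := c
      obtain ⟨Γ1, Γ2, rfl⟩ := List.append_of_mem h5
      refine (g_anti _ _ _ h2).trans (le_trans (g_congr 0 t0 _ _ 0 (by simp) fun z _ hz => pt_drop (fun c => h6 ?_) _ _).le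
        (h0 (Γ1 ++ Γ2) (by simp at h3 ⊢; omega) fun γ c => h4 γ (by simp at c ⊢; tauto)))
      exact ⟨⟨z, by simpa using hz, _, Nr_mono (h4 γ h5).2.2.2 c, by simp⟩, (h4 γ h5).2.2.2⟩

lemma unif (h : ¬M.Esc 0 (fun _ => []) 0) (s k : ℕ) {ε : ℝ} (hε : 0 < ε) :
    ∃ t, ∀ a σ y (Γ : List (V × List E)), Γ.length ≤ k → (∀ γ ∈ Γ, M.Ex a s γ) → (∀ z, a ≤ M.φ z → σ z = M.pt Γ z) →
      M.φ y = a → M.g a t σ y ≤ ε := by
  obtain ⟨t, ht⟩ := unif0 h s hε (k + 1)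
  refine ⟨t, fun a σ y Γ h1 h2 h3 h4 => ?_⟩
  rw [g_congr a t σ _ y h4.ge fun z c _ => h3 z c, g_tr a y, pt_tr, h4, sub_self, sub_self]
  refine ht _ (by simp; omega) fun γ c => ?_
  obtain ⟨γ, c', rfl⟩ := List.mem_map.1 c
  obtain ⟨b1, b2, b3, b4⟩ := h2 γ c'
  refine ⟨by simp [b1, h4], ?_, ?_, b4⟩
  · simpa [h4] using In_tr _ y _ _ b2
  · rw [sub_add_eq_add_sub, map_sub, b3, h4]; ring

end

end Pool.Agent.H43.Erw1
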