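import Pool.Agent.H43.Erw1

set_option autoImplicit false
set_option linter.unusedSectionVars false

namespace Pool.Agent.H43.Erw1

open Filter Finset Function MeasureTheory Topology
open scoped ENNReal

noncomputable section

variable {V E : Type} [AddCommGroup V] [DecidableEq V] [Fintype E] [MeasurableSpace E] [DiscreteMeasurableSpace E]
  {M : Mod V E} {Q : Measure (ℕ → E)} [IsProbabilityMeasure Q]

def cyl (ξ : ℕ → E) (n : ℕ) : Set (ℕ → E) := {η | ∀ j < n, η j = ξ j}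

def Mod.ps (M : Mod V E) (ξ : ℕ → E) : ℕ → V
  | 0 => 0
  | n + 1 => Mod.ps M ξ n + M.vec (ξ n)

def Mod.pat (M : Mod V E) (ξ : ℕ → E) : ℕ → V → List E
  | 0 => fun _ => []
  | n + 1 => upd (Mod.pat M ξ n) (M.ps ξ n) (ξ n)

abbrev Mod.lv (M : Mod V E) (ξ : ℕ → E) (n : ℕ) : ℤ := M.φ (M.ps ξ n)

def Mod.Law (M : Mod V E) (Q : Measure (ℕ → E)) : Prop :=
  ∀ ξ n, Q (cyl ξ (n + 1)) = .ofReal (M.p (M.pat ξ n (M.ps ξ n)) (ξ n)) * Q (cyl ξ n)

def seg (ξ : ℕ → E) : ℕ → ℕ → List E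
  | _, 0 => []
  | m, r + 1 => ξ m :: seg ξ (m + 1) r

lemma cyl_ps {ξ η : ℕ → E} {n : ℕ} (h : η ∈ cyl ξ n) : ∀ m ≤ n, M.ps η m = M.ps ξ m ∧ M.pat η m = M.pat ξ m
  | 0, _ => ⟨rfl, rfl⟩
  | m + 1, c => by
      have := cyl_ps h m (by omega)
      simp only [Mod.ps, Mod.pat, this, h m c, and_self]

lemma cyl_lv {ξ η : ℕ → E} {n m : ℕ} (h : η ∈ cyl ξ n) (c : m ≤ n) : M.lv η m = M.lv ξ m := congrArg _ (cyl_ps h m c).1

lemma cyl_tr {ξ η ζ : ℕ → E} {n m : ℕ} (h : η ∈ cyl ξ n) (h' : ζ ∈ cyl η m) (c : n ≤ m) : ζ ∈ cyl ξ n :=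
  fun j hj => (h' j (by omega)).trans (h j hj)

lemma lv_step (ξ : ℕ → E) (n : ℕ) : M.lv ξ (n + 1) ≤ M.lv ξ n + 1 ∧ M.lv ξ n ≤ M.lv ξ (n + 1) + 1 := by
  have := abs_le.1 (M.bd (ξ n))
  simp only [Mod.lv, Mod.ps, map_add]; omega

lemma lv_le (ξ : ℕ → E) (n : ℕ) : ∀ j : ℕ, M.lv ξ (n + j) ≤ M.lv ξ n + j
  | 0 => by simp
  | j + 1 => by have := lv_le ξ n j; have := (lv_step (M := M) ξ (n + j)).1; rw [← add_assoc]; push_cast; omega

lemma hit {ξ : ℕ → E} {a : ℤ} {n : ℕ} (h : M.lv ξ n < a) : ∀ m', n ≤ m' → a ≤ M.lv ξ m' →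
    ∃ m, n ≤ m ∧ m < m' ∧ M.lv ξ m = a - 1 ∧ M.lv ξ (m + 1) = a ∧ ∀ j, n ≤ j → j ≤ m → M.lv ξ j < a := by
  intro m' h1 h2
  have ex : ∃ m, n ≤ m ∧ a ≤ M.lv ξ (m + 1) := by
    obtain ⟨k, rfl⟩ : ∃ k, m' = k + 1 := ⟨m' - 1, by rcases h1.eq_or_lt with rfl | c <;> omega⟩
    exact ⟨k, by rcases h1.eq_or_lt with rfl | c <;> omega, h2⟩
  classical
  have a1 := Nat.find_spec ex
  have a2 : ∀ j, n ≤ j → j ≤ Nat.find ex → M.lv ξ j < a := fun j h3 h4 => by
    rcases h3.eq_or_lt with rfl | c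
    · exact h
    · obtain ⟨k, rfl⟩ : ∃ k, j = k + 1 := ⟨j - 1, by omega⟩
      exact not_le.1 fun c' => Nat.find_min ex h4 ⟨by omega, c'⟩
  have a3 := a2 _ a1.1 le_rfl
  have a4 := (lv_step (M := M) ξ (Nat.find ex)).1
  exact ⟨_, a1.1, not_le.1 fun c => absurd (a2 m' h1 c) (by omega), by omega, by omega, a2⟩

lemma pat_out {ξ : ℕ → E} {a : ℤ} {n : ℕ} {z : V} (hz : a ≤ M.φ z) : ∀ m, n ≤ m → (∀ j, n ≤ j → j < m → M.lv ξ j < a) →
    M.pat ξ m z = M.pat ξ n z := by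
  intro m h1
  induction m, h1 using Nat.le_induction with
  | base => exact fun _ => rfl
  | succ m h1 ih =>
    exact fun h => (update_of_ne (fun c => absurd (h m h1 (by omega)) (by rw [Mod.lv, ← c]; omega)) _ _).trans
      (ih fun j c1 c2 => h j c1 (by omega))

lemma seg_spec (ξ : ℕ → E) (b : ℤ) : ∀ r m, M.pat ξ (m + r) = M.ap (M.pat ξ m) (M.ps ξ m) (seg ξ m r) ∧
    M.ps ξ (m + r) = M.ps ξ m + ((seg ξ m r).map M.vec).sum ∧ (seg ξ m r).length = r ∧
    ((∀ j, m < j → j ≤ m + r → b ≤ M.lv ξ j) → M.In b (M.ps ξ m) (seg ξ m r))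
  | 0, m => by simp [seg, Mod.ap, Mod.In]
  | r + 1, m => by
      obtain ⟨h1, h2, h3, h4⟩ := seg_spec ξ b r (m + 1)
      rw [show m + (r + 1) = m + 1 + r by ring]
      exact ⟨h1, by rw [h2]; simp [seg, Mod.ps, add_assoc], by simp [seg, h3],
        fun h => ⟨h (m + 1) (by omega) (by omega), h4 fun j c1 c2 => h j (by omega) c2⟩⟩

def Det (n : ℕ) (D : Set (ℕ → E)) : Prop := ∀ η ξ, η ∈ cyl ξ n → ξ ∈ D → η ∈ D

lemma Det.eq {n : ℕ} {D : Set (ℕ → E)} (h : Det n D) : D = (range n).restrict ⁻¹' ((range n).restrict '' D) :=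
  (Set.subset_preimage_image _ _).antisymm fun η ⟨ξ, h1, h2⟩ =>
    h η ξ (fun j hj => (congrFun h2 ⟨j, mem_range.2 hj⟩).symm) h1

lemma Det.meas {n : ℕ} {D : Set (ℕ → E)} (h : Det n D) : MeasurableSet D := by
  rw [h.eq]
  exact Finset.measurable_restrict _ .of_discrete

lemma cyl_meas (ξ : ℕ → E) (n : ℕ) : MeasurableSet (cyl ξ n) := Det.meas (n := n) fun _ _ h h' => cyl_tr h' h le_rfl

lemma Det.bd {n : ℕ} {D C : Set (ℕ → E)} {ε : ℝ≥0∞} (hD : Det n D) (h : ∀ ξ ∈ D, Q (cyl ξ n ∩ C) ≤ ε * Q (cyl ξ n)) :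
    Q (D ∩ C) ≤ ε * Q D := by
  classical
  have e : ∀ ξ : ℕ → E, (range n).restrict (π := fun _ => E) ⁻¹' {(range n).restrict ξ} = cyl ξ n := fun ξ => by
    ext η; simp [cyl, funext_iff]
  conv_rhs => rw [hD.eq, ← Set.coe_toFinset ((range n).restrict '' D),
    ← sum_measure_preimage_singleton _ fun _ _ => Finset.measurable_restrict _ .of_discrete, mul_sum]
  refine (measure_mono (t := ⋃ b ∈ ((range n).restrict '' D).toFinset, (range n).restrict (π := fun _ => E) ⁻¹' {b} ∩ C) fun η hη =>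
    Set.mem_iUnion₂.2 ⟨_, Set.mem_toFinset.2 ⟨η, hη.1, rfl⟩, rfl, hη.2⟩).trans ((measure_biUnion_finset_le _ _).trans
    (sum_le_sum fun b hb => ?_))
  obtain ⟨ξ, h1, rfl⟩ := Set.mem_toFinset.1 hb
  rw [e]
  exact h ξ h1

lemma stop {A D : Set (ℕ → E)} (C : Set (ℕ → E)) {ε : ℝ≥0∞} (S : (ℕ → E) → ℕ → Prop) (hS : ∀ m, Det m {η | S η m})
    (hA : ∀ η ∈ A, η ∈ C ∧ ∃ m, S η m) (hD : ∀ η m, S η m → η ∈ D)
    (h : ∀ η m, S η m → Q (cyl η m ∩ C) ≤ ε * Q (cyl η m)) : Q A ≤ ε * Q D := by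
  classical
  refine (measure_mono (t := {η | ∃ m, S η m} ∩ C) fun η c => (hA η c).symm).trans (le_trans ?_
    (mul_le_mul_right (measure_mono (s := {η | ∃ m, S η m}) fun η ⟨m, c⟩ => hD η m c) _))
  let F : ℕ → Set (ℕ → E) := fun m => {η | S η m ∧ ∀ j < m, ¬S η j}
  have a1 : ∀ m, Det m (F m) := fun m η ξ c h1 => ⟨hS m η ξ c h1.1, fun j hj h2 =>
    h1.2 j hj (hS j ξ η (fun i hi => (c i (by omega)).symm) h2)⟩
  rw [show {η | ∃ m, S η m} = ⋃ m, F m from Set.ext fun η => ⟨fun c => Set.mem_iUnion.2 ⟨Nat.find c, Nat.find_spec c,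
    fun j => Nat.find_min c⟩, fun c => (Set.mem_iUnion.1 c).imp fun m c => c.1⟩, measure_iUnion (fun i j c =>
      Set.disjoint_left.2 fun η h1 h2 => c (le_antisymm (not_lt.1 fun c => h1.2 j c h2.1) (not_lt.1 fun c => h2.2 i c h1.1)))
      fun m => (a1 m).meas, Set.iUnion_inter, ← ENNReal.tsum_mul_left]
  exact (measure_iUnion_le _).trans (ENNReal.tsum_le_tsum fun m => (a1 m).bd fun ξ c => h ξ m c.1)

def Mod.St (M : Mod V E) (a : ℤ) (m t : ℕ) : Set (ℕ → E) := {η | ∀ j, m < j → j ≤ m + t → a ≤ M.lv η j}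

lemma St_meas (a : ℤ) (m t : ℕ) : MeasurableSet (M.St a m t) :=
  Det.meas (n := m + t) fun _ _ h h' j c1 c2 => (h' j c1 c2).trans_eq (cyl_lv h c2).symm

lemma stay (hQ : M.Law Q) (a : ℤ) (t : ℕ) : ∀ ξ m,
    Q (cyl ξ m ∩ M.St a m t) = .ofReal (M.g a t (M.pat ξ m) (M.ps ξ m)) * Q (cyl ξ m) := by
  classical
  induction t with
  | zero => exact fun ξ m => by rw [Set.inter_eq_left.2 fun η _ j _ _ => by omega]; simp [Mod.g]
  | succ t ih =>
    intro ξ m
    have e : ∀ e, update ξ m e ∈ cyl ξ m := fun e j hj => update_of_ne hj.ne _ _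
    rw [show cyl ξ m ∩ M.St a m (t + 1) = ⋃ e, cyl (update ξ m e) (m + 1) ∩ M.St a m (t + 1) from Set.ext fun η =>
      ⟨fun c => Set.mem_iUnion.2 ⟨η m, fun j hj => by
        rcases (Nat.lt_succ_iff.1 hj).eq_or_lt with rfl | c'
        exacts [by simp, (c.1 j c').trans (e _ j c').symm], c.2⟩, fun c => by
        obtain ⟨i, c⟩ := Set.mem_iUnion.1 c
        exact ⟨cyl_tr (e i) c.1 (by omega), c.2⟩⟩, measure_iUnion (fun i j c => Set.disjoint_left.2 fun η h1 h2 => c (by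
        simpa using (h1.1 m (by omega)).symm.trans (h2.1 m (by omega)))) fun i => (cyl_meas _ _).inter (St_meas _ _ _),
      tsum_fintype, Mod.g, ENNReal.ofReal_sum_of_nonneg fun e _ => mul_nonneg (M.pos _ _).le (by
        split_ifs; exacts [g_nonneg a t _ _, le_rfl]), sum_mul]
    refine sum_congr rfl fun i _ => ?_
    have a1 := cyl_ps (M := M) (e i) m le_rfl
    have a2 : M.lv (update ξ m i) (m + 1) = M.φ (M.ps ξ m + M.vec i) := by simp [Mod.lv, Mod.ps, a1]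
    split_ifs with c
    · rw [show cyl (update ξ m i) (m + 1) ∩ M.St a m (t + 1) = cyl (update ξ m i) (m + 1) ∩ M.St a (m + 1) t from
        Set.ext fun η => and_congr_right fun h => ⟨fun h' j c1 c2 => h' j (by omega) (by omega), fun h' j c1 c2 => by
          rcases (Nat.succ_le_of_lt c1).eq_or_lt with rfl | c'
          exacts [by rwa [cyl_lv h le_rfl, a2], h' j c' (by omega)]⟩, ih, hQ, ENNReal.ofReal_mul (M.pos _ _).le,
        show cyl (update ξ m i) m = cyl ξ m from Set.ext fun η => forall₂_congr fun j hj => by rw [e i j hj]]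
      simp only [Mod.pat, Mod.ps, a1, update_self]
      ring
    · rw [Set.eq_empty_of_forall_notMem (s := cyl _ _ ∩ _) fun η h => c (by
        have := h.2 (m + 1) (by omega) (by omega); rwa [cyl_lv h.1 le_rfl, a2] at this)]
      simp

lemma trans_case (hQ : M.Law Q) (h : M.Esc 0 (fun _ => []) 0) :
    ∀ᵐ η ∂Q, (∃ c, ∀ n, M.lv η n < c) ∨ Tendsto (M.lv η) atTop atTop := by
  obtain ⟨δ, h0, h1⟩ := h
  let A : ℤ → Set (ℕ → E) := fun b => {η | (∀ c, ∃ n, c ≤ M.lv η n) ∧ ∀ n, ∃ m, n ≤ m ∧ M.lv η m < b}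
  have key : ∀ b k ξ n, Q (cyl ξ n ∩ A b) ≤ (1 - .ofReal δ) ^ k * Q (cyl ξ n) := by
    intro b k
    induction k with
    | zero => exact fun ξ n => by simpa using measure_mono Set.inter_subset_left
    | succ k ih =>
      intro ξ n
      refine stop (A b) (fun η m => η ∈ cyl ξ n ∧ n ≤ m ∧ b ≤ M.lv η m ∧
        ∀ j < m, M.lv η j < M.lv η m) (fun m η ζ c h => ⟨cyl_tr h.1 c h.2.1, h.2.1, by rw [cyl_lv c le_rfl]; exact h.2.2.1,
          fun j hj => by rw [cyl_lv c le_rfl, cyl_lv c hj.le]; exact h.2.2.2 j hj⟩) (fun η hη => ⟨hη.2, ?_⟩)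
          (fun _ _ h => h.1) fun η m h => ?_
      · obtain ⟨m', h2⟩ := hη.2.1 (max b n + 1)
        have h3 : ∀ j ≤ n, M.lv η j < max b n + 1 := fun j hj => by
          have := lv_le (M := M) η 0 j
          simp only [Mod.lv, Mod.ps, map_zero, zero_add] at this ⊢; omega
        obtain ⟨m, -, -, -, h4, h5⟩ := hit (h3 0 (by omega)) m' (by omega) h2
        exact ⟨m + 1, hη.1, not_lt.1 fun c => absurd (h3 _ c.le) (by omega), by omega, fun j hj => h4 ▸ h5 j (by omega) (by omega)⟩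
      · refine (stop (D := ⋃ t, cyl η m \ M.St (M.lv η m) m t) (A b) (fun ζ r => ζ ∈ cyl η m ∧ m < r ∧ M.lv ζ r < M.lv η m)
          (fun r ζ ζ' c h => ⟨cyl_tr h.1 c h.2.1.le, h.2.1, by rw [cyl_lv c le_rfl]; exact h.2.2⟩) (fun ζ hζ => ⟨hζ.2, ?_⟩)
          (fun ζ r h2 => Set.mem_iUnion.2 ⟨r, h2.1, fun c => absurd (c r h2.2.1 (by omega)) (not_le.2 h2.2.2)⟩)
          fun ζ r _ => ih ζ r).trans ?_
        · obtain ⟨r, h2, h3⟩ := hζ.2.2 (m + 1)
          exact ⟨r, hζ.1, h2, h3.trans_le h.2.2.1⟩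
        rw [pow_succ, mul_assoc]
        refine mul_le_mul_right ?_ _
        rw [Monotone.measure_iUnion (s := fun t => cyl η m \ M.St (M.lv η m) m t) fun s t c =>
          Set.sdiff_subset_sdiff_right fun ζ h j c1 c2 => h j c1 (by omega)]
        refine iSup_le fun t => ?_
        rw [ENNReal.sub_mul fun _ _ => measure_ne_top _ _, one_mul]
        refine ENNReal.le_sub_of_add_le_left (by finiteness) (le_trans (add_le_add_left ?_ _)
          (measure_inter_add_sdiff _ (St_meas (M.lv η m) m t)).le)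
        rw [stay hQ, g_congr _ t _ (fun _ => []) _ le_rfl fun z c _ => pat_out (n := 0) c m (by omega) fun j _ => h.2.2.2 j,
          g_tr _ (M.ps η m), sub_self, sub_self]
        exact mul_le_mul_left (ENNReal.ofReal_le_ofReal (h1 t)) _
  have : ∀ b, ∀ᵐ η ∂Q, η ∉ A b := fun b => by
    refine measure_eq_zero_iff_ae_notMem.1 (nonpos_iff_eq_zero.1 (ge_of_tendsto'
      (ENNReal.tendsto_pow_atTop_nhds_zero_of_lt_one (r := 1 - .ofReal δ) (ENNReal.sub_lt_self (by simp) (by simp)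
        (by simpa using h0))) fun k => ?_))
    obtain ⟨e, -⟩ := M.up
    simpa [cyl] using key b k (fun _ => e) 0
  filter_upwards [ae_all_iff.2 this] with η h
  refine or_iff_not_imp_left.2 fun c => tendsto_atTop_atTop.2 fun b => ?_
  push Not at c
  simpa [A, c] using h b

def Mod.Cr (M : Mod V E) (a : ℤ) (L N n : ℕ) : Set (ℕ → E) :=
  {η | ∃ m, n ≤ m ∧ a + L ≤ M.lv η m ∧ #{j ∈ Ico n m | M.lv η j = a - 1} < N}

lemma cross (hQ : M.Law Q) (h : ¬M.Esc 0 (fun _ => []) 0) (N : ℕ) : ∀ (k s : ℕ) (ε : ℝ), 0 < ε → ∃ L : ℕ,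
    ∀ a ξ n (Γ : List (V × List E)), Γ.length ≤ k → (∀ γ ∈ Γ, M.Ex a s γ) → (∀ z, a ≤ M.φ z → M.pat ξ n z = M.pt Γ z) →
      M.lv ξ n < a → Q (cyl ξ n ∩ M.Cr a L N n) ≤ .ofReal ε * Q (cyl ξ n) := by
  induction N with
  | zero => exact fun _ _ _ _ => ⟨0, fun a ξ n _ _ _ _ _ => by simp [Mod.Cr]⟩
  | succ N ih =>
    intro k s ε hε
    obtain ⟨t, ht⟩ := unif h s k (half_pos hε)
    obtain ⟨L, hL⟩ := ih (k + 1) (s + t) _ (half_pos hε)
    refine ⟨L + t + 1, fun a ξ n Γ h1 h2 h3 h4 => stop (M.Cr a (L + t + 1) (N + 1) n) (fun η m =>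
      η ∈ cyl ξ n ∧ n < m ∧ M.lv η (m - 1) = a - 1 ∧ M.lv η m = a ∧ ∀ j, n ≤ j → j < m → M.lv η j < a)
      (fun m η ζ c h => ⟨cyl_tr h.1 c h.2.1.le, h.2.1, by rw [cyl_lv c (by omega)]; exact h.2.2.1,
        by rw [cyl_lv c le_rfl]; exact h.2.2.2.1, fun j c1 c2 => by rw [cyl_lv c c2.le]; exact h.2.2.2.2 j c1 c2⟩)
      (fun η hη => ⟨hη.2, ?_⟩) (fun _ _ h => h.1) fun η m ⟨b1, b2, b3, b4, b5⟩ => ?_⟩
    · obtain ⟨m', c1, c2, -⟩ := hη.2
      obtain ⟨m, c3, -, c4, c5, c6⟩ := hit ((cyl_lv hη.1 le_rfl).trans_lt h4) m' c1 (by push_cast at c2; omega)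
      exact ⟨m + 1, hη.1, by omega, c4, c5, fun j c7 c8 => c6 j c7 (by omega)⟩
    have b6 : ∀ z, a ≤ M.φ z → M.pat η m z = M.pt Γ z := fun z hz => by
      rw [pat_out hz m b2.le b5, (cyl_ps b1 n le_rfl).2, h3 z hz]
    have b7 := stop (Q := Q) (A := (cyl η m ∩ M.Cr a (L + t + 1) (N + 1) n) \ M.St a m t) (D := cyl η m)
      (M.Cr a (L + t + 1) (N + 1) n) (ε := .ofReal (ε / 2)) (fun ζ r => ζ ∈ cyl η m ∧ m < r ∧
      r ≤ m + t ∧ M.lv ζ r = a - 1 ∧ ∀ j, m < j → j < r → a ≤ M.lv ζ j)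
      (fun r ζ ζ' c h => ⟨cyl_tr h.1 c h.2.1.le, h.2.1, h.2.2.1, by rw [cyl_lv c le_rfl]; exact h.2.2.2.1,
        fun j c1 c2 => by rw [cyl_lv c c2.le]; exact h.2.2.2.2 j c1 c2⟩) (fun ζ ⟨hζ, c⟩ => ⟨hζ.2, ?_⟩) (fun _ _ h => h.1)
        fun ζ r ⟨c1, c2, c3, c4, c5⟩ => ?_
    · calc _ ≤ _ := measure_le_inter_add_sdiff _ _ (M.St a m t)
        _ ≤ .ofReal (ε / 2) * Q (cyl η m) + .ofReal (ε / 2) * Q (cyl η m) := add_le_add
            ((measure_mono (Set.inter_subset_inter_left _ Set.inter_subset_left)).trans (by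
              rw [stay hQ]; exact mul_le_mul_left (ENNReal.ofReal_le_ofReal (ht a _ _ Γ h1 h2 b6 b4)) _)) b7
        _ = _ := by rw [← add_mul, ← ENNReal.ofReal_add (by linarith) (by linarith), add_halves]
    · have ex : ∃ r, m < r ∧ r ≤ m + t ∧ M.lv ζ r < a := by simpa [Mod.St] using c
      classical
      have d1 := Nat.find_spec ex
      have d2 : ∀ j, m ≤ j → j < Nat.find ex → a ≤ M.lv ζ j := fun j c1 c2 => by
        rcases c1.eq_or_lt with rfl | c3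
        · exact ((cyl_lv hζ.1 le_rfl).trans b4).ge
        · exact not_lt.1 fun c4 => Nat.find_min ex c2 ⟨c3, by omega, c4⟩
      have d3 := d2 (Nat.find ex - 1) (by omega) (by omega)
      have d4 := (lv_step (M := M) ζ (Nat.find ex - 1)).2
      rw [Nat.sub_add_cancel (by omega)] at d4
      exact ⟨_, hζ.1, d1.1, d1.2.1, by omega, fun j c1 => d2 j c1.le⟩
    · obtain ⟨r, rfl⟩ := Nat.exists_eq_add_of_le c2.le
      obtain ⟨d1, d2, d3, d4⟩ := seg_spec (M := M) ζ (a - 1) r m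
      have d5 := (cyl_lv (M := M) c1 le_rfl).trans b4
      refine le_trans (measure_mono ?_)
        (hL a ζ (m + r) ((M.ps ζ m, seg ζ m r) :: Γ) (by simpa) (List.forall_mem_cons.2 ⟨⟨d5, d4 fun j c6 c7 => by
          rcases c7.eq_or_lt with rfl | c
          exacts [c4.ge, by linarith [c5 j c6 c]], d2 ▸ c4, by simp only; omega⟩,
          fun γ c => (h2 γ c).imp_right fun c => c.imp_right fun c => c.imp_right fun c => by omega⟩)
          (fun z hz => by rw [d1]; exact ap_congr _ _ _ _ (by rw [(cyl_ps c1 m le_rfl).2, b6 z hz])) (by omega))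
      rintro ζ' ⟨h5, m', h6, h7, h8⟩
      push_cast at h7
      have c : m + r ≤ m' := not_lt.1 fun c => by
        rw [cyl_lv h5 c.le] at h7
        rcases lt_or_ge m' m with c' | c'
        · have := b5 m' h6 c'
          rw [← cyl_lv c1 c'.le] at this; omega
        · obtain ⟨j, rfl⟩ := Nat.exists_eq_add_of_le c'
          have := lv_le (M := M) ζ m j
          omega
      refine ⟨h5, m', c, by omega, lt_of_lt_of_le (card_lt_card ⟨filter_subset_filter _ (Ico_subset_Ico_left (by omega)),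
        fun c' => ?_⟩) (Nat.lt_succ_iff.1 h8)⟩
      have := c' (mem_filter.2 ⟨mem_Ico.2 ⟨show n ≤ m - 1 by omega, by omega⟩, by
        rw [cyl_lv (cyl_tr c1 h5 (by omega)) (by omega), b3]⟩)
      simp only [mem_filter, mem_Ico] at this; omega

lemma rec_case (hQ : M.Law Q) (h : ¬M.Esc 0 (fun _ => []) 0) (N : ℕ) :
    ∀ᵐ η ∂Q, ∃ C : ℤ, ∀ n : ℕ, N * M.lv η n ≤ 2 * n + C := by
  classical
  obtain ⟨L, hL⟩ := cross hQ h N 0 0 (1 / 16) (by norm_num)
  let C : ℕ → ℕ → Set (ℕ → E) := fun r j => M.Cr (r + j * (L + 1) + 1) L N 0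
  have a1 : ∀ r (T : Finset ℕ), Q (⋂ j ∈ T, C r j) ≤ .ofReal (1 / 16) ^ #T := fun r T => by
    induction T using Finset.induction_on_max with
    | empty => simp
    | insert j T h1 ih =>
      rw [set_biInter_insert, card_insert_of_notMem fun c => (h1 j c).false, pow_succ']
      refine (stop (D := ⋂ j ∈ T, C r j) (C r j) (fun η m => (∀ i ≤ m, M.lv η i < r + j * (L + 1) + 1) ∧ ∀ i ∈ T, ∃ m' ≤ m,
        r + i * (L + 1) + 1 + L ≤ M.lv η m' ∧ #{j ∈ Ico 0 m' | M.lv η j = r + i * (L + 1) + 1 - 1} < N)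
        (fun m η ζ c h => ⟨fun i hi => by rw [cyl_lv c hi]; exact h.1 i hi, fun i hi => (h.2 i hi).imp fun m' h => ⟨h.1,
          by rw [cyl_lv c h.1]; exact h.2.1, by
            rw [filter_congr fun x hx => by rw [cyl_lv c ((mem_Ico.1 hx).2.le.trans h.1)]]; exact h.2.2⟩⟩)
        (fun η hη => ⟨hη.1, ?_⟩) (fun η m h => Set.mem_iInter₂.2 fun i hi => (h.2 i hi).imp fun m' h => ⟨by omega, h.2⟩)
        fun η m h => le_trans (measure_mono ?_) (hL _ η m [] le_rfl (by simp) (fun z hz => pat_out (n := 0) hz m (by omega)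
          fun i _ c => h.1 i c.le) (h.1 m le_rfl))).trans (mul_le_mul_right ih _)
      · obtain ⟨m', -, c1, -⟩ := hη.1
        obtain ⟨m, -, -, c2, -, c3⟩ := hit (M := M) (ξ := η) (a := r + j * (L + 1) + 1) (n := 0)
          (by simp only [Mod.lv, Mod.ps, map_zero]; positivity) m' (by omega) (by omega)
        refine ⟨m, fun i => c3 i (by omega), fun i hi => ?_⟩
        obtain ⟨m', -, c4, c5⟩ := Set.mem_iInter₂.1 hη.2 i hi
        rcases le_total m' m with c | c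
        · exact ⟨m', c, c4, c5⟩
        · have : (i : ℤ) + 1 ≤ j := by exact_mod_cast h1 i hi
          exact ⟨m, le_rfl, by nlinarith, (card_le_card (filter_subset_filter _ (Ico_subset_Ico_right c))).trans_lt c5⟩
      · rintro ζ ⟨c, m', -, c1, c2⟩
        exact ⟨c, m', not_lt.1 fun c' => absurd (h.1 m' c'.le) (by rw [← cyl_lv c c'.le]; omega), c1,
          (card_le_card (filter_subset_filter _ (Ico_subset_Ico_left (by omega)))).trans_lt c2⟩
  have a2 : ∀ r, ∀ᵐ η ∂Q, ∀ᶠ J in atTop, η ∉ {η | J ≤ 2 * #{j ∈ range J | η ∈ C r j}} := fun r => by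
    refine ae_eventually_notMem (ne_top_of_le_ne_top (summable_geometric_two.tsum_ofReal_ne_top)
      (ENNReal.tsum_le_tsum fun J => (measure_mono (t := ⋃ T ∈ (range J).powerset.filter (J ≤ 2 * #·), ⋂ j ∈ T, C r j)
        fun η hη => Set.mem_iUnion₂.2 ⟨_, mem_filter.2 ⟨mem_powerset.2 (filter_subset _ _), hη⟩,
          Set.mem_iInter₂.2 fun j hj => (mem_filter.1 hj).2⟩).trans ((measure_biUnion_finset_le _ _).trans
        ((sum_le_card_nsmul _ _ (.ofReal ((1 / 4) ^ J)) fun T hT => (a1 r T).trans ?_).trans ?_))))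
    · rw [← ENNReal.ofReal_pow (by norm_num), show (1 / 16 : ℝ) = (1 / 4) ^ 2 by norm_num, ← pow_mul]
      exact ENNReal.ofReal_le_ofReal (pow_le_pow_of_le_one (by norm_num) (by norm_num) (mem_filter.1 hT).2)
    · refine (nsmul_le_nsmul_left zero_le ((card_filter_le _ _).trans_eq (card_powerset _))).trans_eq ?_
      rw [← ENNReal.ofReal_nsmul, card_range, nsmul_eq_mul]
      push_cast
      rw [← mul_pow]; norm_num
  filter_upwards [ae_all_iff.2 a2] with η h1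
  obtain ⟨J0, h2⟩ := eventually_atTop.1 ((eventually_all_finset (range (L + 1))).2 fun r _ => h1 r)
  refine ⟨N * ((J0 + 2) * (L + 1)), fun n => ?_⟩
  by_cases c : M.lv η n < (J0 + 1) * (L + 1)
  · have : (0 : ℤ) ≤ N := by positivity
    nlinarith [mul_le_mul_of_nonneg_left c.le this, mul_nonneg this (show (0 : ℤ) ≤ L + 1 by positivity)]
  obtain ⟨A, hA⟩ := Int.eq_ofNat_of_zero_le ((by positivity : (0 : ℤ) ≤ (J0 + 1) * (L + 1)).trans (not_lt.1 c))
  have c1 : J0 + 1 ≤ A / (L + 1) := (Nat.le_div_iff_mul_le (by omega)).2 (by rw [hA] at c; exact_mod_cast not_lt.1 c)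
  obtain ⟨J, hJ⟩ : ∃ J, A / (L + 1) = J + 1 := ⟨A / (L + 1) - 1, by omega⟩
  have c2 := Nat.div_mul_le_self A (L + 1)
  have c3 := Nat.lt_div_mul_add (a := A) (b := L + 1) (by omega)
  rw [hJ] at c1 c2 c3
  have c4 := (sum_card_fiberwise_eq_card_filter (Ico 0 n) (range (L + 1) ×ˢ range J)
    fun i => ((M.lv η i).toNat % (L + 1), (M.lv η i).toNat / (L + 1))).trans_le (card_filter_le _ _)
  have c5 : ∀ r ∈ range (L + 1), N * J ≤ 2 * ∑ j ∈ range J, #{i ∈ Ico 0 n | ((M.lv η i).toNat % (L + 1),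
      (M.lv η i).toNat / (L + 1)) = (r, j)} := fun r hr => by
    have d1 := h2 J (by omega) r hr
    have d2 := card_filter_add_card_filter_not (s := range J) (fun j => η ∈ C r j)
    have d3 := (card_nsmul_le_sum {j ∈ range J | η ∉ C r j} _ N fun j hj => ?_).trans
      (sum_le_sum_of_subset (f := fun j => #{i ∈ Ico 0 n | ((M.lv η i).toNat % (L + 1),
        (M.lv η i).toNat / (L + 1)) = (r, j)}) (filter_subset _ _))
    · simp only [Set.mem_ofPred_eq, card_range, smul_eq_mul] at d1 d2 d3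
      nlinarith [Nat.mul_le_mul_left N (show J ≤ 2 * #{j ∈ range J | η ∉ C r j} by omega)]
    · rw [mem_filter, mem_range] at hj
      rw [mem_range] at hr
      refine le_trans (not_lt.1 fun c => hj.2 ⟨n, by omega, ?_, c⟩) (card_le_card fun i hi => ?_)
      · rw [hA]
        exact_mod_cast (show r + j * (L + 1) + 1 + L ≤ A by nlinarith [Nat.mul_le_mul_right (L + 1) hj.1])
      · rw [mem_filter] at hi ⊢
        rw [show (M.lv η i).toNat = r + j * (L + 1) by rw [hi.2, add_sub_cancel_right]; norm_cast, Nat.add_mul_mod_self_right,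
          Nat.add_mul_div_right _ _ (by omega), Nat.mod_eq_of_lt hr, Nat.div_eq_of_lt hr, zero_add]
        exact ⟨hi.1, rfl⟩
  have c6 := card_nsmul_le_sum _ _ _ c5
  rw [sum_product] at c4
  rw [← mul_sum, card_range, smul_eq_mul] at c6
  rw [Nat.card_Ico, Nat.sub_zero] at c4
  rw [hA]
  exact_mod_cast (show N * A ≤ 2 * n + N * ((J0 + 2) * (L + 1)) by
    nlinarith [Nat.mul_le_mul_left N c3.le, Nat.zero_le (N * (J0 * (L + 1)))])

lemma main (hQ : M.Law Q) : ∀ᵐ η ∂Q, ¬Tendsto (M.lv η) atTop atTop →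
    ∀ ε : ℝ, 0 < ε → ∀ᶠ n : ℕ in atTop, (M.lv η n : ℝ) / n < ε := by
  have k : ∀ C : ℝ, Tendsto (fun n : ℕ => C / n) atTop (𝓝 0) := tendsto_const_div_atTop_nhds_zero_nat
  by_cases h : M.Esc 0 (fun _ => []) 0
  · filter_upwards [trans_case hQ h] with η h1 h2 ε hε
    obtain ⟨c, h3⟩ := h1.resolve_right h2
    exact ((k c).eventually (gt_mem_nhds hε)).mono fun n h4 =>
      (div_le_div_of_nonneg_right (by exact_mod_cast (h3 n).le) n.cast_nonneg).trans_lt h4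
  · filter_upwards [ae_all_iff.2 (rec_case hQ h)] with η h1 _ ε hε
    obtain ⟨N, hN⟩ := exists_nat_gt (3 / ε)
    obtain ⟨C, hC⟩ := h1 N
    filter_upwards [(k C).eventually (gt_mem_nhds one_pos), eventually_gt_atTop 0] with n h2 h3
    have n0 : (0 : ℝ) < n := by exact_mod_cast h3
    have : (N : ℝ) * M.lv η n ≤ 2 * n + C := by exact_mod_cast hC n
    rw [div_lt_iff₀ n0] at h2 ⊢
    rw [div_lt_iff₀ hε] at hN
    refine lt_of_mul_lt_mul_left (a := (N : ℝ)) ?_ N.cast_nonneg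
    nlinarith

end

end Pool.Agent.H43.Erw1
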