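import Pool.Agent.H43.Erw2

set_option autoImplicit false
set_option linter.unusedSectionVars false

namespace Pool.Agent.H43.Erw1

open Filter Finset Function MeasureTheory ProbabilityTheory Topology Preorder
open scoped ENNReal

noncomputable section

variable {V E : Type} [AddCommGroup V] [DecidableEq V] [Fintype E] [DecidableEq E] [MeasurableSpace E]
  [DiscreteMeasurableSpace E] {M : Mod V E}

lemma law_ext {Q Q' : Measure (ℕ → E)} [IsProbabilityMeasure Q] [IsProbabilityMeasure Q'] (h : M.Law Q) (h' : M.Law Q') :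
    Q = Q' := by
  classical
  have a : ∀ ξ n, Q (cyl ξ n) = Q' (cyl ξ n) := fun ξ n => by
    induction n with
    | zero => simp [cyl]
    | succ n ih => rw [h, h', ih]
  refine ext_of_generate_finite _ generateFrom_measurableCylinders.symm isPiSystem_measurableCylinders (fun D hD => ?_) (by simp)
  obtain ⟨s, S, -, rfl⟩ := (mem_measurableCylinders D).1 hD
  have b : Det (s.sup id + 1) (cylinder (α := fun _ => E) s S) := fun η ξ c h => by
    rwa [mem_cylinder, show s.restrict η = s.restrict ξ from funext fun i => c i (Nat.lt_succ_of_le (le_sup (f := id) i.2))]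
  rw [b.eq, ← Set.coe_toFinset (_ '' _), ← sum_measure_preimage_singleton _ fun _ _ => Finset.measurable_restrict _ .of_discrete,
    ← sum_measure_preimage_singleton _ fun _ _ => Finset.measurable_restrict _ .of_discrete]
  refine sum_congr rfl fun u hu => ?_
  obtain ⟨ξ, -, rfl⟩ := Set.mem_toFinset.1 hu
  have e : (range (s.sup id + 1)).restrict (π := fun _ => E) ⁻¹' {(range _).restrict ξ} = cyl ξ (s.sup id + 1) := by
    ext η; simp only [cyl, funext_iff, Set.mem_preimage, Set.mem_singleton_iff, restrict, Subtype.forall, mem_range,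
      Set.mem_ofPred_eq]
  rw [e, a]

def pre (a : ℕ → E) : ℕ → List E
  | 0 => []
  | n + 1 => a n :: pre a n

def Pre (s : List E) : Set (ℕ → E) := {a | pre a s.length = s}

lemma pre_cyl {a b : ℕ → E} : ∀ n, b ∈ cyl a n ↔ pre b n = pre a n
  | 0 => by simp [cyl, pre]
  | n + 1 => by
      simp only [pre, List.cons.injEq, ← pre_cyl n]
      exact ⟨fun h => ⟨h n (by omega), fun j c => h j (by omega)⟩, fun h j c => (Nat.lt_succ_iff.1 c).eq_or_lt.elim
        (· ▸ h.1) (h.2 j)⟩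

lemma pre_len (a : ℕ → E) : ∀ n, (pre a n).length = n
  | 0 => rfl
  | n + 1 => by simp [pre, pre_len a n]

lemma Pre_eq (a : ℕ → E) (n : ℕ) : Pre (pre a n) = cyl a n := Set.ext fun b => by
  rw [pre_cyl, Pre, pre_len]; rfl

lemma Pre_meas (s : List E) : MeasurableSet (Pre s) :=
  Det.meas (n := s.length) fun _ _ h h' => ((pre_cyl _).1 h).trans h'

lemma exists_nu (M : Mod V E) : ∃ ν : Measure (ℕ → E), IsProbabilityMeasure ν ∧
    ∀ s e, ν (Pre (e :: s)) = .ofReal (M.p s e) * ν (Pre s) := by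
  obtain ⟨o, -⟩ := M.up
  let ex : ∀ n, (Iic n → E) → ℕ → E := fun n u k => if h : k + 1 ≤ n then u ⟨k + 1, mem_Iic.2 h⟩ else o
  let κ : ∀ n, Kernel (Iic n → E) E := fun n => .ofFunOfCountable fun u =>
    ∑ e, ENNReal.ofReal (M.p (pre (ex n u) n) e) • Measure.dirac e
  have k : ∀ n u, κ n u = ∑ e, ENNReal.ofReal (M.p (pre (ex n u) n) e) • Measure.dirac e := fun _ _ => rfl
  have : ∀ n, IsMarkovKernel (κ n) := fun n => ⟨fun u => ⟨by
    simp [k, ← ENNReal.ofReal_sum_of_nonneg fun e _ => (M.pos _ e).le, M.sum]⟩⟩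
  let τ := Kernel.trajMeasure (X := fun _ => E) (Measure.dirac o) κ
  have m : Measurable fun (x : ℕ → E) k => x (k + 1) := by fun_prop
  refine ⟨τ.map fun x k => x (k + 1), Measure.isProbabilityMeasure_map m.aemeasurable, fun s e => ?_⟩
  have a : ∀ x : ℕ → E, pre (ex s.length (frestrictLe s.length x)) s.length = pre (fun k => x (k + 1)) s.length :=
    fun x => (pre_cyl _).1 fun j c => dif_pos c
  have := congrArg (fun μ => μ ({u | pre (ex s.length u) s.length = s} ×ˢ {e}))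
    (Kernel.map_frestrictLe_trajMeasure_compProd_eq_map_trajMeasure (X := fun _ => E) (μ₀ := Measure.dirac o) (κ := κ)
      (a := s.length))
  rw [Measure.compProd_apply_prod .of_discrete .of_discrete, setLIntegral_congr_fun (g := fun _ => .ofReal (M.p s e))
    (s := {u | pre (ex s.length u) s.length = s}) (f := fun u => κ s.length u {e})
    .of_discrete fun u (c : _ = _) => by simp [k, c, Pi.single_apply], setLIntegral_const,
    Measure.map_apply (by fun_prop) .of_discrete, Measure.map_apply (by fun_prop) .of_discrete] at this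
  rw [Measure.map_apply m (Pre_meas _), Measure.map_apply m (Pre_meas _)]
  refine (congrArg τ (Set.ext fun x => ?_)).trans (this.symm.trans (congrArg (_ * τ ·) (Set.ext fun x => ?_)))
  · simp [Pre, pre, a, and_comm]
  · simp [Pre, a]

def Reg (a : ℕ → E) : Prop := ∀ e m, ∃ j, m ≤ j ∧ a j = e

lemma nu_reg {ν : Measure (ℕ → E)} [IsProbabilityMeasure ν] (h : ∀ s e, ν (Pre (e :: s)) = .ofReal (M.p s e) * ν (Pre s))
    {κ : ℝ} (h0 : 0 < κ) (h1 : ∀ s e, κ ≤ M.p s e) : ∀ᵐ a ∂ν, Reg a := by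
  refine ae_all_iff.2 fun e => ae_all_iff.2 fun m => nonpos_iff_eq_zero.1 (ge_of_tendsto'
    (ENNReal.tendsto_pow_atTop_nhds_zero_of_lt_one (r := 1 - .ofReal κ) (ENNReal.sub_lt_self (by simp) (by simp)
      (by simpa using h0))) fun t => le_trans (measure_mono (t := {a | ∀ j, m ≤ j → j < m + t → a j ≠ e})
        fun a (c : ¬_) j c1 _ c2 => c ⟨j, c1, c2⟩) ?_)
  induction t with
  | zero => simpa using prob_le_one
  | succ t ih =>
    refine le_trans (measure_mono (t := {a | ∀ j, m ≤ j → j < m + t → a j ≠ e} ∩ {a : ℕ → E | a (m + t) ≠ e}) fun a c =>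
      ⟨fun j c1 c2 => c j c1 (by omega), c (m + t) (by omega) (by omega)⟩) ((Det.bd (n := m + t) (ε := 1 - .ofReal κ)
        (fun a b c c' j c1 c2 => c j c2 ▸ c' j c1 c2) fun a _ => ?_).trans (by rw [pow_succ']; exact mul_le_mul_right ih _))
    rw [ENNReal.sub_mul fun _ _ => measure_ne_top _ _, one_mul]
    refine ENNReal.le_sub_of_add_le_left (by finiteness) (le_trans (add_le_add_left ?_ _)
      (measure_inter_add_sdiff _ (t := {a : ℕ → E | a (m + t) = e}) (by measurability)).le)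
    refine (mul_le_mul_left (ENNReal.ofReal_le_ofReal (h1 (pre a (m + t)) e)) _).trans ?_
    rw [← Pre_eq, ← h]
    exact measure_mono fun b c => by simpa [Pre, pre, pre_len, and_comm] using c

def Mod.st (M : Mod V E) (ξ : V → ℕ → E) : ℕ → V × (V → List E)
  | 0 => (0, fun _ => [])
  | n + 1 => let q := Mod.st M ξ n; (q.1 + M.vec (ξ q.1 (q.2 q.1).length), upd q.2 q.1 (ξ q.1 (q.2 q.1).length))

def Mod.sp (M : Mod V E) (ξ : V → ℕ → E) (n : ℕ) : E := ξ (M.st ξ n).1 ((M.st ξ n).2 (M.st ξ n).1).length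

abbrev Mod.ct (M : Mod V E) (ξ : V → ℕ → E) (n : ℕ) (z : V) : ℕ := (M.pat (M.sp ξ) n z).length

lemma sp_eq (ξ : V → ℕ → E) (n : ℕ) : M.sp ξ n = ξ (M.ps (M.sp ξ) n) (M.ct ξ n (M.ps (M.sp ξ) n)) := by
  have : ∀ n, M.st ξ n = (M.ps (M.sp ξ) n, M.pat (M.sp ξ) n) := fun n => by
    induction n with
    | zero => rfl
    | succ n ih => simp only [Mod.st, Mod.ps, Mod.pat, Mod.sp, ih]
  rw [Mod.sp, this]

lemma sp_cyl (ξ : V → ℕ → E) (η : ℕ → E) : ∀ n, M.sp ξ ∈ cyl η n ↔ ∀ z, ξ z ∈ Pre (M.pat η n z)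
  | 0 => by simp [cyl, Pre, pre, Mod.pat]
  | n + 1 => by
      have a : (∀ z, ξ z ∈ Pre (M.pat η (n + 1) z)) ↔ (∀ z, ξ z ∈ Pre (M.pat η n z)) ∧
          ξ (M.ps η n) (M.pat η n (M.ps η n)).length = η n := by
        have k : ∀ s e (a : ℕ → E), a ∈ Pre (e :: s) ↔ a s.length = e ∧ a ∈ Pre s := by simp [Pre, pre]
        simp only [Mod.pat, upd, forall_update_iff _ fun z s => ξ z ∈ Pre s, k]
        exact ⟨fun h => ⟨fun z => if c : z = M.ps η n then c ▸ h.1.2 else h.2 z c, h.1.1⟩,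
          fun h => ⟨⟨h.2, h.1 _⟩, fun z _ => h.1 z⟩⟩
      rw [a, ← sp_cyl ξ η n, pre_cyl, pre, pre, List.cons.injEq, ← pre_cyl, and_comm]
      refine and_congr_right fun h => ?_
      rw [sp_eq, Mod.ct, (cyl_ps h n le_rfl).1, (cyl_ps h n le_rfl).2]

lemma sp_meas [Countable V] : Measurable M.sp := by
  refine measurable_pi_lambda _ fun n => measurable_to_countable' fun e => ?_
  have a : Det (n + 1) {η : ℕ → E | η n = e} := fun _ _ c h => (c n (by omega)).trans h
  change MeasurableSet (M.sp ⁻¹' {η | η n = e})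
  rw [a.eq, ← Set.biUnion_preimage_singleton (Finset.restrict _), Set.preimage_iUnion₂]
  refine (Set.toFinite _).measurableSet_biUnion ?_
  rintro _ ⟨η, -, rfl⟩
  rw [show M.sp ⁻¹' ((range (n + 1)).restrict (π := fun _ => E) ⁻¹' {(range _).restrict η}) =
    ⋂ z, (fun ξ => ξ z) ⁻¹' Pre (M.pat η (n + 1) z) from Set.ext fun ξ => by
      simp only [Set.mem_iInter, Set.mem_preimage, ← sp_cyl]
      simp only [cyl, funext_iff, Set.mem_singleton_iff, restrict, Subtype.forall, mem_range, Set.mem_ofPred_eq]]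
  exact .iInter fun z => measurable_pi_apply z (Pre_meas _)

lemma pat_nil {η : ℕ → E} {z : V} : ∀ n, (∀ j < n, M.ps η j ≠ z) → M.pat η n z = []
  | 0, _ => rfl
  | n + 1, h => (update_of_ne (h n (by omega)).symm _ _).trans (pat_nil n fun j c => h j (by omega))

lemma sp_law [Countable V] {ν : Measure (ℕ → E)} [IsProbabilityMeasure ν]
    (h : ∀ s e, ν (Pre (e :: s)) = .ofReal (M.p s e) * ν (Pre s)) :
    M.Law ((Measure.infinitePi fun _ : V => ν).map M.sp) := fun η n => by
  let F := (range (n + 1)).image (M.ps η)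
  have a : ∀ m ≤ n + 1, (Measure.infinitePi fun _ : V => ν).map M.sp (cyl η m) = ∏ z ∈ F, ν (Pre (M.pat η m z)) :=
    fun m hm => by
      rw [Measure.map_apply sp_meas (cyl_meas _ _), ← Measure.infinitePi_pi _ fun z _ => Pre_meas _]
      refine congrArg _ (Set.ext fun ξ => (sp_cyl ξ η m).trans ⟨fun c z _ => c z, fun c z => ?_⟩)
      by_cases hz : z ∈ F
      · exact c z hz
      · rw [pat_nil m fun j hj e => hz (mem_image.2 ⟨j, mem_range.2 (by omega), e⟩)]
        rfl
  have hy : M.ps η n ∈ F := mem_image_of_mem _ (by simp)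
  rw [a _ le_rfl, a n (by omega), ← mul_prod_erase F _ hy, ← mul_prod_erase F (fun z => ν (Pre (M.pat η n z))) hy, Mod.pat,
    upd, update_self, h, mul_assoc, prod_congr rfl fun z hz => by rw [update_of_ne (ne_of_mem_erase hz)]]

def cn (a : ℕ → E) (m : ℕ) (e : E) : ℕ := #{j ∈ range m | a j = e}

lemma cn_mono (a : ℕ → E) (e : E) {m n : ℕ} (h : m ≤ n) : cn a m e ≤ cn a n e :=
  card_le_card (filter_subset_filter _ (range_mono h))

lemma cn_succ (a : ℕ → E) (e : E) (m : ℕ) : cn a (m + 1) e = cn a m e + if a m = e then 1 else 0 := by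
  rw [cn, range_add_one, filter_insert]
  split_ifs
  · rw [card_insert_of_notMem (by simp)]; rfl
  · rfl

lemma Reg.cn {a : ℕ → E} (h : Reg a) (e : E) (k : ℕ) : ∃ m, k ≤ cn a m e := by
  induction k with
  | zero => exact ⟨0, by omega⟩
  | succ k ih =>
    obtain ⟨m, h1⟩ := ih
    obtain ⟨j, h2, h3⟩ := h e m
    exact ⟨j + 1, by have := cn_mono a e h2; rw [cn_succ, if_pos h3]; omega⟩

lemma ct_succ (ξ : V → ℕ → E) (n : ℕ) (z : V) :
    M.ct ξ (n + 1) z = M.ct ξ n z + if M.ps (M.sp ξ) n = z then 1 else 0 := by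
  simp only [Mod.ct, Mod.pat, upd]
  split_ifs with c
  · rw [← c, update_self, List.length_cons]
  · rw [update_of_ne (Ne.symm c), add_zero]

lemma ct_mono (ξ : V → ℕ → E) (z : V) : Monotone (M.ct ξ · z) :=
  monotone_nat_of_le_succ fun n => by simp only [ct_succ]; omega

lemma flow (ξ : V → ℕ → E) (x : V) : ∀ n, (M.ct ξ n x + if M.ps (M.sp ξ) n = x then 1 else 0) =
    (if 0 = x then 1 else 0) + ∑ e, cn (ξ (x - M.vec e)) (M.ct ξ n (x - M.vec e)) e
  | 0 => by simp [Mod.ct, Mod.pat, Mod.ps, cn]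
  | n + 1 => by
      have : ∀ e, cn (ξ (x - M.vec e)) (M.ct ξ (n + 1) (x - M.vec e)) e = cn (ξ (x - M.vec e)) (M.ct ξ n (x - M.vec e)) e +
          if M.sp ξ n = e then if M.ps (M.sp ξ) n + M.vec e = x then 1 else 0 else 0 := fun e => by
        rw [ct_succ]
        by_cases c : M.ps (M.sp ξ) n = x - M.vec e
        · rw [if_pos c, cn_succ, if_pos (eq_sub_iff_add_eq.1 c), sp_eq ξ n, c]
        · rw [if_neg c, if_neg (mt eq_sub_iff_add_eq.2 c), ite_self, add_zero, add_zero]
      rw [ct_succ, flow ξ x n, sum_congr rfl fun e _ => this e, sum_add_distrib, sum_ite_eq, if_pos (mem_univ _), add_assoc]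
      rfl

def Mod.Inf (M : Mod V E) (z : V) : Set (ℕ → E) := {η | ∀ N, ∃ n, N ≤ n ∧ M.ps η n = z}

lemma Inf_meas (z : V) : MeasurableSet (M.Inf z) := by
  simp only [Mod.Inf, Set.ofPred_forall, Set.ofPred_exists]
  exact .iInter fun N => .iUnion fun n => Det.meas (n := n) fun _ _ c h => ⟨h.1, (cyl_ps c n le_rfl).1.trans h.2⟩

lemma inf_iff {ξ : V → ℕ → E} {z : V} : M.sp ξ ∈ M.Inf z ↔ ∀ k, ∃ n, k ≤ M.ct ξ n z := by
  refine ⟨fun h k => ?_, fun h N => ?_⟩
  · induction k with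
    | zero => exact ⟨0, by omega⟩
    | succ k ih =>
      obtain ⟨m, h1⟩ := ih
      obtain ⟨j, h2, h3⟩ := h m
      exact ⟨j + 1, by have := ct_mono (M := M) ξ z h2; rw [ct_succ, if_pos h3]; simp only at this; omega⟩
  · by_contra! c
    have : ∀ j, M.ct ξ (N + j) z = M.ct ξ N z := fun j => by
      induction j with
      | zero => rfl
      | succ j ih => rw [← add_assoc, ct_succ, if_neg (c _ (by omega)), add_zero, ih]
    obtain ⟨n, hn⟩ := h (M.ct ξ N z + 1)
    have := (ct_mono (M := M) ξ z (Nat.le_add_left n N)).trans_eq (this n)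
    simp only at this; omega

lemma inf_ev {ξ : V → ℕ → E} {z : V} (h : Reg (ξ z)) (h' : M.sp ξ ∈ M.Inf z) (e : E) (k : ℕ) :
    ∀ᶠ n in atTop, k ≤ cn (ξ z) (M.ct ξ n z) e := by
  obtain ⟨m, h1⟩ := h.cn e k
  obtain ⟨n, h2⟩ := inf_iff.1 h' m
  exact (eventually_ge_atTop n).mono fun j c => h1.trans (cn_mono _ _ (h2.trans (ct_mono ξ z c)))

lemma inf_all (gen : ∀ v, ∃ l : List E, (l.map M.vec).sum = v) {ξ : V → ℕ → E} (h : ∀ z, Reg (ξ z)) {z : V}
    (h' : M.sp ξ ∈ M.Inf z) (x : V) : M.sp ξ ∈ M.Inf x := by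
  obtain ⟨l, hl⟩ := gen (x - z)
  rw [← sub_add_cancel x z, ← hl]
  clear hl
  induction l with
  | nil => simpa
  | cons e l ih =>
    refine inf_iff.2 fun k => ((inf_ev (h _) ih e (k + 1)).exists).imp fun n c => ?_
    have := flow (M := M) ξ (((e :: l).map M.vec).sum + z) n
    have c2 := single_le_sum (f := fun f => cn (ξ (((e :: l).map M.vec).sum + z - M.vec f))
      (M.ct ξ n (((e :: l).map M.vec).sum + z - M.vec f)) f) (fun _ _ => Nat.zero_le _) (mem_univ e)
    rw [show ((e :: l).map M.vec).sum + z - M.vec e = (l.map M.vec).sum + z by simp; abel] at c2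
    split_ifs at this <;> omega

lemma abelian {ξ ξ' : V → ℕ → E} {S : Finset V} (h0 : 0 ∈ S) (h1 : ∀ z ∉ S, ξ' z = ξ z) (h2 : ∀ z, Reg (ξ z))
    (h3 : ∀ z, M.sp ξ ∈ M.Inf z) : ∃ z, M.sp ξ' ∈ M.Inf z := by
  by_contra! c
  have a1 := c
  simp only [inf_iff, not_forall, not_exists, not_le] at a1
  choose k hk using a1
  obtain ⟨N0, a2⟩ := eventually_atTop.1 ((eventually_all_finset S).2 fun z _ => eventually_all.2 fun e =>
    inf_ev (h2 z) (h3 z) e (k z))
  obtain ⟨N, a3, a4⟩ := h3 0 N0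
  have a5 : ∀ n, ∀ x ∉ S, M.ct ξ' n x ≤ M.ct ξ N x := fun n => by
    induction n with
    | zero => exact fun _ _ => Nat.zero_le _
    | succ n ih =>
      intro x hx
      have b := flow (M := M) ξ x N
      rw [a4, if_neg fun e : 0 = x => hx (e ▸ h0), add_zero, zero_add] at b
      rw [ct_succ, flow, if_neg fun e : 0 = x => hx (e ▸ h0), zero_add, b]
      refine sum_le_sum fun e _ => ?_
      by_cases hz : x - M.vec e ∈ S
      · exact ((card_filter_le _ _).trans_eq (card_range _)).trans ((hk _ n).le.trans (a2 N a3 _ hz e))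
      · rw [h1 _ hz]; exact cn_mono _ _ (ih _ hz)
  obtain ⟨n, hn⟩ := ((eventually_all_finset (S ∪ (range N).image (M.ps (M.sp ξ)))).2 fun z _ =>
    (show ∀ᶠ n in atTop, M.ps (M.sp ξ') n ≠ z by simpa [Mod.Inf] using c z)).exists
  refine hn _ (mem_union.2 (or_iff_not_imp_left.2 fun hx => by_contra fun hy => ?_)) rfl
  have := a5 (n + 1) _ hx
  rw [ct_succ, if_pos rfl, Mod.ct, Mod.ct, pat_nil N fun j hj e => hy (mem_image.2 ⟨j, mem_range.2 hj, e⟩)] at this
  simp at this

theorem dichotomy [Countable V] (gen : ∀ v, ∃ l : List E, (l.map M.vec).sum = v) {κ : ℝ} (h0 : 0 < κ)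
    (h1 : ∀ s e, κ ≤ M.p s e) {Q : Measure (ℕ → E)} [IsProbabilityMeasure Q] (hQ : M.Law Q) :
    (∀ z, ∀ᵐ η ∂Q, η ∈ M.Inf z) ∨ ∀ z, ∀ᵐ η ∂Q, η ∉ M.Inf z := by
  obtain ⟨ν, _, hν⟩ := exists_nu M
  have := Measure.isProbabilityMeasure_map (μ := Measure.infinitePi fun _ : V => ν) (sp_meas (M := M)).aemeasurable
  obtain rfl := law_ext hQ (sp_law hν)
  have a1 : ∀ᵐ ξ ∂Measure.infinitePi fun _ : V => ν, ∀ z, Reg (ξ z) := ae_all_iff.2 fun z =>
    (measurePreserving_eval_infinitePi (fun _ : V => ν) z).quasiMeasurePreserving.ae (nu_reg hν h0 h1)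
  obtain ⟨ρ, hρ⟩ := (nu_reg hν h0 h1).exists
  let md : Finset V → (V → ℕ → E) → V → ℕ → E := fun S ξ z => if z ∈ S then ρ else ξ z
  let t : Set (V → ℕ → E) := {ξ | ∀ᶠ S in atTop, M.sp (md S ξ) ∈ M.Inf 0}
  have a2 : ∀ z, ∀ᵐ ξ ∂Measure.infinitePi fun _ : V => ν, M.sp ξ ∈ M.Inf z ↔ ξ ∈ t := fun z => a1.mono fun ξ h => by
    have b : ∀ S z, Reg (md S ξ z) := fun S z => by simp only [md]; split_ifs; exacts [hρ, h z]
    refine ⟨fun c => (eventually_ge_atTop {0}).mono fun S hS => ?_, fun c => ?_⟩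
    · obtain ⟨x, hx⟩ := abelian (ξ' := md S ξ) (hS (mem_singleton_self 0)) (fun z hz => if_neg hz) h (inf_all gen h c)
      exact inf_all gen (b S) hx 0
    · obtain ⟨S, c, hS⟩ := (c.and (eventually_ge_atTop {0})).exists
      obtain ⟨x, hx⟩ := abelian (ξ' := ξ) (hS (mem_singleton_self 0)) (fun z hz => (if_neg hz).symm) (b S)
        (inf_all gen (b S) c)
      exact inf_all gen h hx z
  have a3 : MeasurableSet[limsup (fun z => MeasurableSpace.comap (fun ξ : V → ℕ → E => ξ z) inferInstance) cofinite] t := by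
    rw [limsup_eq, MeasurableSpace.measurableSet_sInf]
    intro m (hm : Set.Finite _)
    rw [show t = ⋃ S0, ⋂ S, ⋂ (_ : S0 ⊔ hm.toFinset ≤ S), md S ⁻¹' (M.sp ⁻¹' M.Inf 0) from Set.ext fun ξ => by
      simp only [t, Set.mem_ofPred_eq, eventually_atTop, Set.mem_iUnion, Set.mem_iInter, Set.mem_preimage]
      exact ⟨fun ⟨S, h⟩ => ⟨S, fun T c => h T (le_sup_left.trans c)⟩, fun ⟨S, h⟩ => ⟨_, h⟩⟩]
    refine .iUnion fun S0 => .iInter fun S => .iInter fun hS => (show @Measurable _ _ m MeasurableSpace.pi (md S) from ?_) (sp_meas (Inf_meas (M := M) 0))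
    refine @measurable_pi_lambda _ _ _ m _ _ fun z => ?_
    simp only [md]
    split_ifs with c
    · exact measurable_const
    · exact Measurable.of_comap_le (by_contra fun c' => c (hS (mem_union_right _ (hm.mem_toFinset.2 c'))))
  have a4 := measure_zero_or_one_of_measurableSet_limsup (p := Set.Finite) (ns := fun S : Finset V => (S : Set V))
    (fun z => (measurable_pi_apply z).comap_le) (iIndepFun_infinitePi (P := fun _ : V => ν) (X := fun _ a => a)
      fun _ => measurable_id).iIndep (fun _ => Set.Finite.compl_mem_cofinite) (Monotone.directed_le fun _ _ => coe_subset.2)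
      finite_toSet (fun z => ⟨{z}, by simp⟩) a3
  have a5 : MeasurableSet t := (limsup_le_iSup.trans (iSup_le fun z => (measurable_pi_apply z).comap_le)) _ a3
  refine a4.symm.imp (fun h z => ?_) fun h z => ?_
  · refine (ae_map_iff sp_meas.aemeasurable (Inf_meas z)).2 ?_
    filter_upwards [a2 z, (mem_ae_iff_prob_eq_one a5).2 h] with ξ c c' using c.2 c'
  · refine (ae_map_iff sp_meas.aemeasurable (Inf_meas z).compl).2 ?_
    filter_upwards [a2 z, measure_eq_zero_iff_ae_notMem.1 h] with ξ c c' using mt c.1 c'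

end

end Pool.Agent.H43.Erw1
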