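import Pool.Agent.H43.Erw3

set_option autoImplicit false

namespace Pool.Agent.H43.Erw4

open Filter Finset Function MeasureTheory ProbabilityTheory Topology Pool.Agent.H43.Erw1
open scoped ENNReal

noncomputable section

/-- The unit vector `+e_i` (for `true`) or `-e_i` (for `false`). -/
def vec {d : ℕ} (e : Fin d × Bool) : Fin d → ℤ := Pi.single e.1 (if e.2 then 1 else -1)

variable {d : ℕ}

lemma vec_inj : Injective (vec (d := d)) := by
  rintro ⟨i, a⟩ ⟨j, b⟩ h
  have := congrFun h i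
  by_cases c : i = j
  · subst c; cases a <;> cases b <;> simp_all [vec]
  · cases a <;> simp_all [vec]

def W : List (Fin d × Bool) → (ℕ → Fin d × Bool → ℝ) → ℝ
  | [], _ => 1
  | e :: s, a => a s.length e * W s a

lemma W_meas : ∀ s : List (Fin d × Bool), Measurable (W s)
  | [] => measurable_const
  | e :: s => by
      have := W_meas s
      change Measurable fun a : ℕ → Fin d × Bool → ℝ => a s.length e * W s a
      fun_prop

lemma W_bd {a : ℕ → Fin d × Bool → ℝ} (h0 : ∀ i e, 0 ≤ a i e) (h1 : ∀ i, ∑ e, a i e = 1) :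
    ∀ s, 0 ≤ W s a ∧ W s a ≤ 1
  | [] => ⟨zero_le_one, le_rfl⟩
  | e :: s => ⟨mul_nonneg (h0 _ _) (W_bd h0 h1 s).1, mul_le_one₀ ((single_le_sum (fun e _ => h0 _ e) (mem_univ e)).trans_eq
      (h1 _)) (W_bd h0 h1 s).1 (W_bd h0 h1 s).2⟩

lemma prod_upd {V E : Type} [DecidableEq V] {F : Finset V} {y : V} (hy : y ∈ F) (f : V → List E → ℝ) {σ : V → List E}
    {e : E} {r : ℝ} (h : f y (e :: σ y) = r * f y (σ y)) : ∏ z ∈ F, f z (upd σ y e z) = r * ∏ z ∈ F, f z (σ z) := by
  rw [← mul_prod_erase F _ hy, ← mul_prod_erase F (fun z => f z (σ z)) hy, upd, update_self, h, mul_assoc,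
    prod_congr rfl fun z hz => by rw [update_of_ne (ne_of_mem_erase hz)]]

lemma pat_len {V E : Type} [AddCommGroup V] [DecidableEq V] [Fintype E] (M : Mod V E) (ξ : ℕ → E) (z : V) :
    ∀ n, (M.pat ξ n z).length = #{i ∈ range n | M.ps ξ i = z}
  | 0 => rfl
  | n + 1 => by
      rw [range_add_one, filter_insert, Mod.pat]
      split_ifs with c
      · rw [card_insert_of_notMem (by simp), ← pat_len M ξ z n, ← c, upd, update_self, List.length_cons]
      · rw [upd, update_of_ne (Ne.symm c), pat_len M ξ z n]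

def mk (p : List (Fin d × Bool) → Fin d × Bool → ℝ) (h0 : ∀ s e, 0 < p s e) (h1 : ∀ s, ∑ e, p s e = 1)
    (k : Fin d × Bool) : Mod (Fin d → ℤ) (Fin d × Bool) where
  vec := vec
  φ := (if k.2 then 1 else -1 : ℤ) • Pi.evalAddMonoidHom _ k.1
  p := p
  pos := h0
  sum := h1
  bd e := by
    simp only [vec, AddMonoidHom.smul_apply, Pi.evalAddMonoidHom_apply, Pi.single_apply]
    split_ifs <;> simp
  up := ⟨k, by
    simp only [vec, AddMonoidHom.smul_apply, Pi.evalAddMonoidHom_apply, Pi.single_eq_same]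
    split_ifs <;> simp⟩
  lat v hv := by
    have h : v k.1 = 0 := by
      simp only [AddMonoidHom.smul_apply, Pi.evalAddMonoidHom_apply] at hv
      split_ifs at hv <;> simpa using hv
    rw [← univ_sum_single v]
    refine sum_induction _ (fun v => ∃ l : List (Fin d × Bool), (∀ e ∈ l, ((if k.2 then 1 else -1 : ℤ) •
      Pi.evalAddMonoidHom (fun _ => ℤ) k.1) (vec e) = 0) ∧ (l.map vec).sum = v)
      (fun a b ⟨l, h1, h2⟩ ⟨l', h3, h4⟩ => ⟨l ++ l', List.forall_mem_append.2 ⟨h1, h3⟩, by simp [h2, h4]⟩)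
      ⟨[], by simp, rfl⟩ fun j _ => ⟨List.replicate (v j).natAbs (j, decide (0 ≤ v j)), fun e he => ?_, ?_⟩
    · obtain ⟨h2, rfl⟩ := List.mem_replicate.1 he
      have : k.1 ≠ j := fun c => h2 (by rw [← c, h]; rfl)
      simp only [vec, AddMonoidHom.smul_apply, Pi.evalAddMonoidHom_apply, Pi.single_eq_of_ne this, smul_zero]
    · simp only [List.map_replicate, List.sum_replicate, vec, decide_eq_true_eq, ← Pi.single_smul]
      congr 1
      split_ifs <;> simp only [nsmul_eq_mul] <;> omega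

def dc (k : Fin d × Bool) (q : (Fin d → ℤ) × (Fin d → ℤ)) : Fin d × Bool :=
  open Classical in if h : ∃ e, q.1 = q.2 + vec e then h.choose else k

def dec (k : Fin d × Bool) (X : ℕ → Fin d → ℤ) (n : ℕ) : Fin d × Bool := dc k (X (n + 1), X n)

lemma pr_meas (n : ℕ) : Measurable fun X : ℕ → Fin d → ℤ => (X (n + 1), X n) := by fun_prop

lemma dec_meas (k : Fin d × Bool) : Measurable (dec k) := measurable_pi_lambda _ fun n =>
  (measurable_of_countable (dc k)).comp (pr_meas n)

lemma gen (v : Fin d → ℤ) : ∃ l : List (Fin d × Bool), (l.map vec).sum = v := by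
  rw [← univ_sum_single v]
  refine sum_induction _ (fun v => ∃ l : List (Fin d × Bool), (l.map vec).sum = v)
    (fun a b ⟨l, h2⟩ ⟨l', h4⟩ => ⟨l ++ l', by simp [h2, h4]⟩)
    ⟨[], rfl⟩ fun j _ => ⟨List.replicate (v j).natAbs (j, decide (0 ≤ v j)), ?_⟩
  simp only [List.map_replicate, List.sum_replicate, vec, decide_eq_true_eq, ← Pi.single_smul]
  congr 1
  split_ifs <;> simp only [nsmul_eq_mul] <;> omega

end

end Pool.Agent.H43.Erw4
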