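import Pool.Agent.H43.ExDual

set_option autoImplicit false
set_option linter.unusedSectionVars false

namespace Pool.Agent.H43.Ex

open MeasureTheory ProbabilityTheory Filter Topology Finset
open scoped NNReal ENNReal

noncomputable section

variable {Ω : Type} [MeasurableSpace Ω] {ν : Measure Ω} [IsProbabilityMeasure ν]
  {Q Q' : Kernel Ω Ω} [IsMarkovKernel Q] [IsMarkovKernel Q'] {f g : Ω → ℝ} {O : Set Ω} {l : ℝ}

def Qf (Q : Kernel Ω Ω) (f : Ω → ℝ) (x : Ω) : ℝ := ∫ y, f y ∂(Q x)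

def BM (f : Ω → ℝ) : Prop := Measurable f ∧ ∃ C, ∀ x, |f x| ≤ C

lemma BM.int (h : BM f) (μ : Measure Ω) [IsFiniteMeasure μ] : Integrable f μ :=
  let ⟨_, hC⟩ := h.2
  intg μ h.1 hC

lemma BM.const (c : ℝ) : BM fun _ : Ω => c := ⟨measurable_const, |c|, fun _ => le_rfl⟩

lemma BM.mul (h : BM f) (h' : BM g) : BM fun x => f x * g x :=
  let ⟨C, hC⟩ := h.2
  let ⟨D, hD⟩ := h'.2
  ⟨h.1.mul h'.1, C * D, fun x => (abs_mul _ _).trans_le
    (mul_le_mul (hC x) (hD x) (abs_nonneg _) ((abs_nonneg _).trans (hC x)))⟩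

lemma BM.sub (h : BM f) (h' : BM g) : BM fun x => f x - g x :=
  let ⟨C, hC⟩ := h.2
  let ⟨D, hD⟩ := h'.2
  ⟨h.1.sub h'.1, C + D, fun x => (abs_sub _ _).trans (add_le_add (hC x) (hD x))⟩

lemma BM.sum {J : Type} {F : J → Ω → ℝ} (h : ∀ j, BM (F j)) (s : Finset J) :
    BM fun x => ∑ j ∈ s, F j x := by
  choose C hC using fun j => (h j).2
  exact ⟨measurable_sum _ fun j _ => (h j).1, ∑ j ∈ s, C j, fun x =>
    (abs_sum_le_sum_abs _ _).trans (sum_le_sum fun j _ => hC j x)⟩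

lemma BM.ker (h : BM f) (Q : Kernel Ω Ω) [IsMarkovKernel Q] : BM (Qf Q f) :=
  let ⟨C, hC⟩ := h.2
  ⟨h.1.stronglyMeasurable.integral_kernel.measurable, C, fun x => (abs_int _ hC).trans_eq (by simp)⟩

def Rev (ν : Measure Ω) (Q : Kernel Ω Ω) : Prop :=
  ∀ f g, BM f → BM g → ∫ x, f x * Qf Q g x ∂ν = ∫ x, g x * Qf Q f x ∂ν

lemma Rev.inv (h : Rev ν Q) (hf : BM f) : ∫ x, Qf Q f x ∂ν = ∫ x, f x ∂ν := by
  simpa [Qf] using h _ _ (BM.const 1) hf

def B (ν : Measure Ω) (Q : Kernel Ω Ω) (l : ℝ) (f g : Ω → ℝ) : ℝ :=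
  ∫ x, f x * (g x - l * Qf Q g x) ∂ν

lemma B_eq (hf : BM f) (hg : BM g) :
    B ν Q l f g = ∫ x, f x * g x ∂ν - l * ∫ x, f x * Qf Q g x ∂ν := by
  rw [B, ← integral_const_mul, ← integral_sub ((hf.mul hg).int _) (((hf.mul (hg.ker Q)).int _).const_mul _)]
  exact congrArg _ (funext fun x => by ring)

lemma Rev.two (h : Rev ν Q) (h0 : 0 ≤ l) (h1 : l ≤ 1) (hf : BM f) (hg : BM g) :
    2 * B ν Q l f g - B ν Q l g g ≤ B ν Q l f f := by
  have hd := hf.sub hg
  have h2 : ∫ x, 2 * ((f x - g x) * Qf Q (fun x => f x - g x) x) ∂ν ≤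
      ∫ x, ((f x - g x) * (f x - g x) + Qf Q (fun x => (f x - g x) * (f x - g x)) x) ∂ν := by
    refine integral_mono (((hd.mul (hd.ker Q)).int _).const_mul _)
      (((hd.mul hd).int _).add (((hd.mul hd).ker Q).int _)) fun x => ?_
    have := integral_mono (μ := Q x) ((hd.int _).const_mul (2 * (f x - g x)))
      ((integrable_const ((f x - g x) * (f x - g x))).add ((hd.mul hd).int _))
      fun y => by simp only [Pi.add_apply]; nlinarith [sq_nonneg (f x - g x - (f y - g y))]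
    rw [integral_const_mul, integral_add' (integrable_const _) ((hd.mul hd).int _)] at this
    simpa [Qf, mul_assoc] using this
  rw [integral_add ((hd.mul hd).int _) (((hd.mul hd).ker Q).int _), h.inv (hd.mul hd),
    integral_const_mul] at h2
  have h3 : ∀ x, Qf Q (fun x => f x - g x) x = Qf Q f x - Qf Q g x := fun x =>
    integral_sub (hf.int _) (hg.int _)
  have h4 : 0 ≤ ∫ x, (f x - g x) * (f x - g x) ∂ν := integral_nonneg fun x => mul_self_nonneg _
  have e : ∀ {a b : Ω → ℝ}, BM a → BM b → ∫ x, (f x - g x) * (a x - b x) ∂ν =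
      ∫ x, f x * a x ∂ν - ∫ x, f x * b x ∂ν - (∫ x, g x * a x ∂ν - ∫ x, g x * b x ∂ν) :=
    fun {a b} ha hb => by
      rw [← integral_sub ((hf.mul ha).int _) ((hf.mul hb).int _),
        ← integral_sub ((hg.mul ha).int _) ((hg.mul hb).int _),
        ← integral_sub (((hf.mul ha).sub (hf.mul hb)).int _) (((hg.mul ha).sub (hg.mul hb)).int _)]
      exact congrArg _ (funext fun x => by ring)
  simp only [h3, e hf hg, e (hf.ker Q) (hg.ker Q), h g f hg hf, mul_comm (g _) (f _)] at h2 h4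
  rw [B_eq hf hg, B_eq hg hg, B_eq hf hf]
  nlinarith

def us (Q : Kernel Ω Ω) (O : Set Ω) : ℕ → Ω → ℝ
  | 0 => Oᶜ.indicator 1
  | k + 1 => Oᶜ.indicator (Qf Q (us Q O k))

lemma us_spec (hO : MeasurableSet O) (k : ℕ) :
    BM (us Q O k) ∧ ∀ x, 0 ≤ us Q O k x ∧ us Q O (k + 1) x ≤ us Q O k x ∧ us Q O k x ≤ 1 := by
  induction k with
  | zero =>
    have h : ∀ x, 0 ≤ us Q O 0 x ∧ us Q O 0 x ≤ 1 := fun x => by
      by_cases h : x ∈ O <;> simp [us, h]
    have hb : BM (us Q O 0) := ⟨measurable_one.indicator hO.compl, 1, fun x =>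
      abs_le.2 ⟨by linarith [h x], (h x).2⟩⟩
    refine ⟨hb, fun x => ⟨(h x).1, Set.indicator_le_indicator ?_, (h x).2⟩⟩
    simpa [Qf] using integral_mono (hb.int (Q x)) (integrable_const 1) fun y => (h y).2
  | succ k ih =>
    have h0 : ∀ x, 0 ≤ us Q O (k + 1) x := fun x =>
      Set.indicator_nonneg (fun x _ => integral_nonneg fun y => (ih.2 y).1) x
    have h1 : ∀ x, us Q O (k + 1) x ≤ 1 := fun x => (ih.2 x).2.1.trans (ih.2 x).2.2
    have hb : BM (us Q O (k + 1)) := ⟨(ih.1.ker Q).1.indicator hO.compl, 1, fun x =>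
      abs_le.2 ⟨by linarith [h0 x], h1 x⟩⟩
    exact ⟨hb, fun x => ⟨h0 x, Set.indicator_le_indicator
      (integral_mono (hb.int _) (ih.1.int _) fun y => (ih.2 y).2.1), h1 x⟩⟩

def pot (Q : Kernel Ω Ω) (O : Set Ω) (l : ℝ) (n : ℕ) (x : Ω) : ℝ :=
  1 - ∑ k ∈ range n, (1 - l) * l ^ k * us Q O k x

lemma geo (l : ℝ) (n : ℕ) : ∑ k ∈ range n, (1 - l) * l ^ k = 1 - l ^ n := by
  rw [← mul_sum, mul_neg_geom_sum]

lemma pot_bm (hO : MeasurableSet O) (n : ℕ) : BM (pot Q O l n) :=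
  (BM.const 1).sub (BM.sum (fun k => (BM.const _).mul (us_spec hO k).1) _)

lemma pot_int (hO : MeasurableSet O) (n : ℕ) (μ : Measure Ω) [IsProbabilityMeasure μ] :
    ∫ x, pot Q O l n x ∂μ = 1 - ∑ k ∈ range n, (1 - l) * l ^ k * ∫ x, us Q O k x ∂μ := by
  have h := fun k => ((us_spec (Q := Q) hO k).1.int μ).const_mul ((1 - l) * l ^ k)
  simp only [pot]
  rw [integral_sub (integrable_const _) (integrable_finsetSum _ fun k _ => h k),
    integral_finsetSum _ fun k _ => h k]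
  simp [integral_const_mul]

lemma pot_spec (hO : MeasurableSet O) (h0 : 0 ≤ l) (h1 : l ≤ 1) (n : ℕ) (x : Ω) :
    0 ≤ pot Q O l n x ∧ pot Q O l n x ≤ 1 ∧ 0 ≤ pot Q O l n x - l * Qf Q (pot Q O l n) x ∧
      (x ∈ O → pot Q O l n x = 1) ∧
      (x ∉ O → pot Q O l n x - l * Qf Q (pot Q O l n) x ≤ (1 - l) * l ^ n) := by
  have hp : ∀ k, 0 ≤ (1 - l) * l ^ k := fun k => mul_nonneg (sub_nonneg.2 h1) (pow_nonneg h0 k)
  have h2 : ∀ x, pot Q O l n x ≤ 1 := fun x =>
    sub_le_self _ (sum_nonneg fun k _ => mul_nonneg (hp k) ((us_spec hO k).2 x).1)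
  have h3 : x ∈ O → pot Q O l n x = 1 := fun h => by
    rw [pot, sum_eq_zero fun k _ => by cases k <;> simp [us, h], sub_zero]
  have h4 : x ∉ O → pot Q O l n x - l * Qf Q (pot Q O l n) x = (1 - l) * l ^ n * us Q O n x :=
    fun h => by
      have h5 := sum_range_succ' (fun k => (1 - l) * l ^ k * us Q O k x) n
      rw [sum_range_succ] at h5
      simp only [us, Set.indicator_of_mem (Set.mem_compl h), Qf, pow_succ, Pi.one_apply] at h5
      rw [Qf, pot_int hO, pot, mul_sub, mul_sum,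
        sum_congr rfl fun k _ => show l * ((1 - l) * l ^ k * ∫ y, us Q O k y ∂Q x) =
          (1 - l) * (l ^ k * l) * ∫ y, us Q O k y ∂Q x by ring]
      linarith
  refine ⟨sub_nonneg.2 ((sum_le_sum fun k _ => mul_le_of_le_one_right (hp k)
    ((us_spec hO k).2 x).2.2).trans ?_), h2 x, ?_, h3, fun h => (h4 h).trans_le
      (mul_le_of_le_one_right (hp n) ((us_spec hO n).2 x).2.2)⟩
  · rw [geo]; exact sub_le_self _ (pow_nonneg h0 n)
  · by_cases h : x ∈ O
    · have : Qf Q (pot Q O l n) x ≤ 1 := by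
        simpa [Qf] using integral_mono ((pot_bm hO n).int (Q x)) (integrable_const 1) h2
      rw [h3 h]; nlinarith
    · exact h4 h ▸ mul_nonneg (hp n) ((us_spec hO n).2 x).1

lemma cap (h : Rev ν Q) (h' : Rev ν Q') (hO : MeasurableSet O) (h0 : 0 ≤ l) (h1 : l < 1)
    {N n : ℕ} (hn : N ≤ n) {C : ℝ} (hC : 0 ≤ C)
    (hB : B ν Q l (pot Q' O l n) (pot Q' O l n) ≤ C * B ν Q' l (pot Q' O l n) (pot Q' O l n)) :
    l ^ N * (1 - ∫ x, us Q O N x ∂ν) ≤ 2 * l ^ n + C * (l ^ n + (1 - ∫ x, us Q' O n x ∂ν)) := by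
  have hp : ∀ k, 0 ≤ (1 - l) * l ^ k := fun k => mul_nonneg (sub_nonneg.2 h1.le) (pow_nonneg h0 k)
  have e : ∀ (Q : Kernel Ω Ω) [IsMarkovKernel Q], Rev ν Q →
      ∫ x, (pot Q O l n x - l * Qf Q (pot Q O l n) x) ∂ν = (1 - l) * ∫ x, pot Q O l n x ∂ν :=
    fun Q _ h => by
      rw [integral_sub ((pot_bm hO n).int _) ((((pot_bm hO n).ker Q).int _).const_mul _),
        integral_const_mul, h.inv (pot_bm hO n)]
      ring
  have b : ∀ (Q : Kernel Ω Ω) [IsMarkovKernel Q],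
      BM fun x => pot Q O l n x - l * Qf Q (pot Q O l n) x := fun Q _ =>
    (pot_bm hO n).sub ((BM.const l).mul ((pot_bm hO n).ker Q))
  have an : ∀ (Q : Kernel Ω Ω) [IsMarkovKernel Q], Antitone fun k => ∫ x, us Q O k x ∂ν :=
    fun Q _ => antitone_nat_of_succ_le fun k => integral_mono ((us_spec hO _).1.int _)
      ((us_spec hO _).1.int _) fun x => ((us_spec hO k).2 x).2.1
  have a1 : ∀ (Q : Kernel Ω Ω) [IsMarkovKernel Q] k, ∫ x, us Q O k x ∂ν ≤ 1 := fun Q _ k => by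
    simpa using integral_mono ((us_spec (Q := Q) hO k).1.int ν) (integrable_const 1)
      fun x => ((us_spec hO k).2 x).2.2
  have a0 : 0 ≤ ∫ x, us Q O N x ∂ν := integral_nonneg fun x => ((us_spec hO N).2 x).1
  have h2 := h.two h0 h1.le (pot_bm (Q := Q') (l := l) hO n) (pot_bm (Q := Q) (l := l) hO n)
  have h3 : B ν Q' l (pot Q' O l n) (pot Q' O l n) ≤ _ := (integral_mono
    (((pot_bm hO n).mul (b Q')).int _) ((b Q').int _) fun x => mul_le_of_le_one_left
      (pot_spec hO h0 h1.le n x).2.2.1 (pot_spec hO h0 h1.le n x).2.1).trans_eq (e Q' h')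
  have h4 : (1 - l) * ∫ x, pot Q O l n x ∂ν - 2 * ((1 - l) * l ^ n) ≤
      2 * B ν Q l (pot Q' O l n) (pot Q O l n) - B ν Q l (pot Q O l n) (pot Q O l n) := by
    have i1 := (((pot_bm (Q := Q') (l := l) hO n).mul (b Q)).int ν).const_mul 2
    have i2 := ((pot_bm (Q := Q) (l := l) hO n).mul (b Q)).int ν
    rw [← e Q h, B, B, ← integral_const_mul, ← integral_sub i1 i2]
    refine le_trans (le_of_eq ?_) (integral_mono (((b Q).int _).sub
      (integrable_const (2 * ((1 - l) * l ^ n)))) (i1.sub i2) fun x => ?_)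
    · rw [integral_sub' ((b Q).int _) (integrable_const _)]; simp
    · obtain ⟨a1, a2, a3, a4, a5⟩ := pot_spec (Q := Q) hO h0 h1.le n x
      obtain ⟨b1, -, -, b4, -⟩ := pot_spec (Q := Q') hO h0 h1.le n x
      simp only [Pi.sub_apply]
      by_cases hx : x ∈ O
      · rw [b4 hx, a4 hx]; linarith [hp n]
      · nlinarith [a5 hx, mul_nonneg b1 a3, mul_le_of_le_one_left a3 a2]
  have h5 : ∫ x, pot Q' O l n x ∂ν ≤ l ^ n + (1 - ∫ x, us Q' O n x ∂ν) := by
    have := sum_le_sum fun k (hk : k ∈ range n) =>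
      mul_le_mul_of_nonneg_left (an Q' (mem_range.1 hk).le) (hp k)
    rw [← sum_mul, geo] at this
    rw [pot_int hO]
    nlinarith [a1 Q' n, pow_nonneg h0 n]
  have h6 : l ^ N * (1 - ∫ x, us Q O N x ∂ν) ≤ ∫ x, pot Q O l n x ∂ν := by
    rw [pot_int hO, ← sum_range_add_sum_Ico _ hn]
    have s1 := sum_le_sum fun k (_ : k ∈ range N) => mul_le_of_le_one_right (hp k) (a1 Q k)
    have s2 := sum_le_sum fun k (hk : k ∈ Ico N n) =>
      mul_le_mul_of_nonneg_left (an Q (mem_Ico.1 hk).1) (hp k)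
    rw [← sum_mul, sum_Ico_eq_sub (fun k => (1 - l) * l ^ k) hn, geo, geo] at s2
    rw [geo] at s1
    nlinarith [pow_nonneg h0 n]
  refine le_of_mul_le_mul_left ?_ (sub_pos.2 h1)
  nlinarith [mul_le_mul_of_nonneg_left h3 hC, mul_le_mul_of_nonneg_left h5 (mul_nonneg hC (sub_pos.2 h1).le)]

lemma markov {W : Type} [MeasurableSpace W] {μ : Measure W} [IsFiniteMeasure μ] {X Y : W → Ω}
    (hX : Measurable X) (hY : Measurable Y) {E : Set W}
    (h : ∀ A, MeasurableSet A → μ (E ∩ Y ⁻¹' A) = ∫⁻ w in E, Q (X w) A ∂μ) (hf : BM f) :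
    ∫ w in E, f (Y w) ∂μ = ∫ w in E, Qf Q f (X w) ∂μ := by
  have h1 : (μ.restrict E).map Y = Q ∘ₘ (μ.restrict E).map X := Measure.ext fun A hA => by
    rw [Measure.map_apply hY hA, Measure.restrict_apply (hY hA), Set.inter_comm, h A hA,
      Measure.bind_apply hA Q.aemeasurable, lintegral_map (Q.measurable_coe hA) hX]
  rw [← integral_map hY.aemeasurable hf.1.aestronglyMeasurable, h1,
    ← integral_map hX.aemeasurable (hf.ker Q).1.aestronglyMeasurable,
    Measure.comp_eq_comp_const_apply, Kernel.integral_comp (hf.int _)]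
  rfl

lemma chain {W : Type} [MeasurableSpace W] {μ : Measure W} [IsFiniteMeasure μ] {Y : ℕ → W → Ω}
    (hY : ∀ i, Measurable (Y i)) (hO : MeasurableSet O)
    (h : ∀ i A, MeasurableSet A → μ ({w | ∀ j < i + 1, Y j w ∉ O} ∩ Y (i + 1) ⁻¹' A) =
      ∫⁻ w in {w | ∀ j < i + 1, Y j w ∉ O}, Q (Y i w) A ∂μ) (k : ℕ) : ∀ i,
    ∫ w in {w | ∀ j < i, Y j w ∉ O}, us Q O k (Y i w) ∂μ =
      μ.real {w | ∀ j < i + k + 1, Y j w ∉ O} := by
  have e : ∀ i (g : Ω → ℝ), ∫ w in {w | ∀ j < i, Y j w ∉ O}, Oᶜ.indicator g (Y i w) ∂μ =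
      ∫ w in {w | ∀ j < i + 1, Y j w ∉ O}, g (Y i w) ∂μ := fun i g => by
    simp only [← Set.indicator_comp_right (Y i)]
    rw [setIntegral_indicator (hY i hO.compl)]
    congr 2
    ext w
    exact (Nat.forall_lt_succ_right (p := fun j => Y j w ∉ O)).symm
  induction k with
  | zero => intro i; simp [us, e]
  | succ k ih =>
    intro i
    rw [us, e, ← markov (hY i) (hY (i + 1)) (h i) (us_spec hO k).1, ih, add_right_comm i, add_assoc i]

end

end Pool.Agent.H43.Ex
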