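import Pool.Agent.H43.ExCap

set_option autoImplicit false
set_option linter.unusedSectionVars false

namespace Pool.Agent.H43.Ex

open MeasureTheory ProbabilityTheory Filter Topology Finset Function
open scoped NNReal ENNReal

noncomputable section

variable {I : Type} [DecidableEq I] [Countable I]

/-- fair coin -/
def coin : Measure Bool := (2⁻¹ : ℝ≥0∞) • Measure.dirac true + (2⁻¹ : ℝ≥0∞) • Measure.dirac false

instance : IsProbabilityMeasure coin := ⟨by simp [coin, ENNReal.inv_two_add_inv_two]⟩

/-- product Bernoulli(1/2) measure -/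
def PP (I : Type) : Measure (I → Bool) := Measure.infinitePi fun _ => coin

instance : IsProbabilityMeasure (PP I) := by unfold PP; infer_instance

/-- generator of the exclusion dynamics: each unordered pair is swapped at rate `P x y` -/
def Lexc (P : I → I → ℝ) (f : (I → Bool) → ℝ) (ω : I → Bool) : ℝ :=
  1 / 2 * ∑' p : I × I, P p.1 p.2 * (f (ω ∘ Equiv.swap p.1 p.2) - f ω)

/-- generator of ordinary dynamical percolation -/
def Lind (f : (I → Bool) → ℝ) (ω : I → Bool) : ℝ :=
  ∑' x, ((f (update ω x true) + f (update ω x false)) / 2 - f ω)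

/-- `κ` is a family of transition kernels with generator `L` on cylinder functions -/
def Gen (L : ((I → Bool) → ℝ) → (I → Bool) → ℝ) (κ : ℝ → Kernel (I → Bool) (I → Bool)) : Prop :=
  κ 0 = Kernel.id ∧ ∀ (f : (I → Bool) → ℝ) (F : Finset I), DependsOn f F → ∀ ω t, 0 ≤ t →
    HasDerivWithinAt (fun s => ∫ η, f η ∂(κ s ω)) (∫ η, L f η ∂(κ t ω)) (Set.Ici 0) t

def sg (b : Bool) : ℝ := if b then -1 else 1

def chi (S : Finset I) (ω : I → Bool) : ℝ := ∏ x ∈ S, sg (ω x)

lemma chi_abs (S : Finset I) (ω : I → Bool) : |chi S ω| ≤ 1 := by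
  rw [chi, abs_prod]
  exact (prod_eq_one fun x _ => by cases ω x <;> simp [sg]).le

lemma chi_bm (S : Finset I) : BM (chi S) :=
  ⟨measurable_prod _ fun x _ => (Measurable.of_discrete (f := sg)).comp (measurable_pi_apply x), 1,
    chi_abs S⟩

lemma chi_dep (S : Finset I) : DependsOn (chi S) S := fun _ _ h =>
  prod_congr rfl fun x hx => by rw [h x hx]

lemma orth (S T : Finset I) : ∫ ω, chi S ω * chi T ω ∂PP I = if T = S then 1 else 0 := by
  let g : I → Bool → ℝ := fun x b => (if x ∈ S then sg b else 1) * if x ∈ T then sg b else 1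
  have h1 : ∀ ω, chi S ω * chi T ω = ∏ x : ↥(S ∪ T), g x (ω x) := fun ω => by
    rw [prod_coe_sort (S ∪ T) fun x => g x (ω x), prod_mul_distrib, prod_ite_mem, prod_ite_mem,
      union_inter_cancel_left, union_inter_cancel_right, chi, chi]
  have h2 := iIndepFun.integral_fun_prod_comp (X := fun (x : ↥(S ∪ T)) (ω : I → Bool) => ω x)
    ((iIndepFun_infinitePi (P := fun _ : I => coin) (X := fun _ b => b)
    fun _ => measurable_id).precomp (Subtype.val_injective (p := (· ∈ S ∪ T))))
    (f := fun x => g x) (fun x => (measurable_pi_apply _).aemeasurable)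
    fun x => Measurable.of_discrete.aestronglyMeasurable
  have h3 : ∀ x, ∫ ω, g x (ω x) ∂Measure.infinitePi (fun _ : I => coin) =
      if (x ∈ S ↔ x ∈ T) then 1 else 0 := fun x => by
    rw [← integral_map (measurable_pi_apply x).aemeasurable Measurable.of_discrete.aestronglyMeasurable,
      Measure.infinitePi_map_eval, integral_fintype .of_finite]
    by_cases h : x ∈ S <;> by_cases h' : x ∈ T <;> simp [g, h, h', coin, sg, Measure.real] <;> norm_num
  simp only [h1, PP, h2, h3, prod_boole]
  congr 1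
  simp only [mem_univ, true_imp_iff, Subtype.forall, mem_union, Finset.ext_iff, eq_iff_iff]
  exact forall_congr' fun x => by tauto

lemma four (F : Finset I) : ∀ f : (I → Bool) → ℝ, DependsOn f F →
    ∃ c : Finset I → ℝ, f = fun ω => ∑ S ∈ F.powerset, c S * chi S ω := by
  induction F using Finset.induction_on with
  | empty => exact fun f h => ⟨fun _ => f fun _ => true, funext fun ω => by simpa [chi] using h (by simp)⟩
  | insert x F hx ih =>
    intro f h
    have h0 : ∀ b, DependsOn (fun ω => f (update ω x b)) F := fun b ω η h1 => h fun y hy => by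
      rcases eq_or_ne y x with rfl | h2
      · simp
      · simpa [h2] using h1 y (by simpa [h2] using hy)
    obtain ⟨c, hc⟩ := ih _ (h0 true)
    obtain ⟨d, hd⟩ := ih _ (h0 false)
    refine ⟨fun S => if x ∈ S then (d (S.erase x) - c (S.erase x)) / 2 else (d S + c S) / 2,
      funext fun ω => ?_⟩
    have h1 : ∀ S ∈ F.powerset, x ∉ S := fun S h h' => hx (mem_powerset.1 h h')
    rw [sum_powerset_insert hx, ← sum_add_distrib, ← update_eq_self x ω]
    cases hω : ω x
    · refine (congrFun hd ω).trans (sum_congr rfl fun S hS => ?_)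
      simp [← hω, chi, h1 S hS, prod_insert, erase_insert]
      simp [hω, sg]; ring
    · refine (congrFun hc ω).trans (sum_congr rfl fun S hS => ?_)
      simp [← hω, chi, h1 S hS, prod_insert, erase_insert]
      simp [hω, sg]; ring

variable {Q : Kernel (I → Bool) (I → Bool)} [IsMarkovKernel Q]

def aa (Q : Kernel (I → Bool) (I → Bool)) (S T : Finset I) : ℝ :=
  ∫ ω, chi S ω * Qf Q (chi T) ω ∂PP I

lemma Qf_sum (A : Finset (Finset I)) (d : Finset I → ℝ) (ω : I → Bool) :
    Qf Q (fun ω => ∑ T ∈ A, d T * chi T ω) ω = ∑ T ∈ A, d T * Qf Q (chi T) ω := by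
  simp only [Qf]
  rw [integral_finsetSum _ fun T _ => ((chi_bm T).int _).const_mul _]
  simp only [integral_const_mul]

lemma bil (A B : Finset (Finset I)) (c d : Finset I → ℝ) :
    ∫ ω, (∑ S ∈ A, c S * chi S ω) * Qf Q (fun ω => ∑ T ∈ B, d T * chi T ω) ω ∂PP I =
      ∑ S ∈ A, ∑ T ∈ B, c S * d T * aa Q S T := by
  have h := fun S T => (((chi_bm S).mul ((chi_bm T).ker Q)).int (PP I)).const_mul (c S * d T)
  simp only [Qf_sum, sum_mul_sum, aa, ← integral_const_mul, mul_mul_mul_comm (c _)]
  rw [integral_finsetSum _ fun S _ => integrable_finsetSum _ fun T _ => h S T]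
  exact sum_congr rfl fun S _ => integral_finsetSum _ fun T _ => h S T

lemma rev (h : ∀ S T, aa Q S T = aa Q T S) : Rev (PP I) Q := by
  have h1 : ∀ f g, BM f → BM g → ∫ p, f p.1 * g p.2 ∂(PP I ⊗ₘ Q) = ∫ x, f x * Qf Q g x ∂PP I :=
    fun f g hf hg => by
      rw [Measure.integral_compProd (BM.int (BM.mul (f := fun p : _ × _ => f p.1) (g := fun p : _ × _ => g p.2) ⟨hf.1.comp measurable_fst, hf.2.imp fun _ h p => h p.1⟩
        ⟨hg.1.comp measurable_snd, hg.2.imp fun _ h p => h p.2⟩) _)]
      simp only [integral_const_mul, Qf]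
  have sp : IsCountablySpanning (measurableCylinders fun _ : I => Bool) :=
    ⟨fun _ => .univ, fun _ => univ_mem_measurableCylinders _, Set.iUnion_const _⟩
  have h2 : (PP I ⊗ₘ Q).map Prod.swap = PP I ⊗ₘ Q := by
    refine ext_of_generate_finite _ (generateFrom_eq_prod generateFrom_measurableCylinders
      generateFrom_measurableCylinders sp sp).symm
      (isPiSystem_measurableCylinders.prod isPiSystem_measurableCylinders) ?_
      (by simp [Measure.map_apply measurable_swap])
    have h3 : ∀ A ∈ measurableCylinders fun _ : I => Bool, MeasurableSet A ∧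
        BM (A.indicator (1 : (I → Bool) → ℝ)) ∧ ∃ (F : Finset I) (c : Finset I → ℝ),
          A.indicator 1 = fun ω => ∑ S ∈ F.powerset, c S * chi S ω := fun A hA => by
      have hm := MeasurableSet.of_mem_measurableCylinders hA
      obtain ⟨F, S, -, rfl⟩ := (mem_measurableCylinders A).1 hA
      refine ⟨hm, ⟨measurable_one.indicator hm, 1, fun x => ?_⟩, F, four F _ fun ω η h => ?_⟩
      · by_cases h : x ∈ cylinder F S <;> simp [h]
      · have : F.restrict ω = F.restrict η := funext fun x => h x x.2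
        classical simp [Set.indicator_apply, mem_cylinder, this]
    have h4 : ∀ A B : Set (I → Bool), MeasurableSet A → MeasurableSet B → (PP I ⊗ₘ Q).real (A ×ˢ B) =
        ∫ p, A.indicator 1 p.1 * B.indicator 1 p.2 ∂(PP I ⊗ₘ Q) := fun A B hA hB => by
      rw [← integral_indicator_one (hA.prod hB)]
      exact congrArg _ (funext fun p => Set.indicator_prod_one)
    rintro _ ⟨A, hA, B, hB, rfl⟩
    obtain ⟨a1, a2, F, c, a3⟩ := h3 A hA
    obtain ⟨b1, b2, G, d, b3⟩ := h3 B hB
    rw [Measure.map_apply measurable_swap (a1.prod b1), Set.preimage_swap_prod,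
      ← measureReal_eq_measureReal_iff, h4 _ _ a1 b1, h4 _ _ b1 a1, h1 _ _ a2 b2, h1 _ _ b2 a2, a3, b3,
      bil, bil, sum_comm]
    simp only [h, mul_comm]
  intro f g hf hg
  rw [← h1 f g hf hg, ← h1 g f hg hf, ← h2, integral_map (f := fun p : _ × _ => f p.1 * g p.2) measurable_swap.aemeasurable
    ((hf.1.comp measurable_fst).mul (hg.1.comp measurable_snd)).aestronglyMeasurable, h2]
  simp [mul_comm]

variable {κ : ℝ → Kernel (I → Bool) (I → Bool)} [∀ t, IsMarkovKernel (κ t)]

lemma ind_chi (h : Gen Lind κ) {t : ℝ} (ht : 0 ≤ t) (S : Finset I) (ω : I → Bool) :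
    Qf (κ t) (chi S) ω = Real.exp (-t) ^ S.card * chi S ω := by
  have h1 : ∀ η, Lind (chi S) η = -S.card * chi S η := fun η => by
    rw [Lind, tsum_eq_sum (s := S) fun x hx => ?_, sum_congr rfl (g := fun _ => -chi S η) fun x hx => ?_]
    · simp
    · simp only [chi, ← mul_prod_erase S _ hx, update_self]
      rw [prod_congr rfl fun y hy => by rw [update_of_ne (ne_of_mem_erase hy)],
        prod_congr (f := fun y => sg (update η x false y)) rfl fun y hy => by
          rw [update_of_ne (ne_of_mem_erase hy)]]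
      simp [sg]
    · have : ∀ b, chi S (update η x b) = chi S η := fun b =>
        chi_dep S fun y hy => update_of_ne (ne_of_mem_of_not_mem hy hx) _ _
      simp [this]
  have h2 : ∀ s, 0 ≤ s → HasDerivWithinAt (fun s => Real.exp (S.card * s) * Qf (κ s) (chi S) ω) 0
      (Set.Ici 0) s := fun s hs =>
    (((hasDerivAt_id s).const_mul (S.card : ℝ)).exp.hasDerivWithinAt.mul
      (h.2 _ S (chi_dep S) ω s hs)).congr_deriv (by simp only [h1, integral_const_mul]; ring)
  have h3 := constant_of_has_deriv_right_zero (a := 0) (b := t)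
    (fun s hs => (h2 s hs.1).continuousWithinAt.mono fun x hx => hx.1)
    (fun s hs => (h2 s hs.1).mono fun x hx => hs.1.trans hx) t ⟨ht, le_rfl⟩
  simp only [Qf, h.1, Kernel.id_apply, integral_dirac' _ _ (chi_bm S).1.stronglyMeasurable, mul_zero,
    Real.exp_zero, one_mul] at h3
  rw [← h3, ← mul_assoc, ← Real.exp_nat_mul, ← Real.exp_add]
  simp [Qf]

variable {P : I → I → ℝ} {K : ℕ}

lemma ex_lev (h : Gen (Lexc P) κ) (h0 : ∀ x y, 0 ≤ P x y) (hs : ∀ x y, P x y = P y x)
    (hK : ∀ x (u : Finset I), ∑ y ∈ u, P x y ≤ K) {t : ℝ} (ht : 0 ≤ t) (n : ℕ) :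
    Good (fun S T : {S : Finset I // S.card ≤ n} => aa (κ t) S T) (Real.exp (-t) ^ (n * K)) := by
  letI : MeasurableSpace {S : Finset I // S.card ≤ n} := ⊤
  haveI : DiscreteMeasurableSpace {S : Finset I // S.card ≤ n} := ⟨fun _ => trivial⟩
  let σ : I × I → {S : Finset I // S.card ≤ n} → {S : Finset I // S.card ≤ n} := fun p S =>
    ⟨S.1.map (Equiv.swap p.1 p.2).toEmbedding, by simpa using S.2⟩
  have h1 : ∀ S (u : Finset (I × I)), ∑ p ∈ u, (if σ p S = S then 0 else P p.1 p.2 / 2) ≤ (n * K : ℝ≥0) :=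
    fun S u => by
      have h2 : ∀ u : Finset (I × I), ∑ p ∈ u, (if p.1 ∈ S.1 then P p.1 p.2 else 0) ≤ n * K :=
        fun u => by
          rw [← sum_filter]
          refine (sum_le_sum_of_subset_of_nonneg (t := S.1 ×ˢ u.image Prod.snd) (fun p hp => ?_)
            fun p _ _ => h0 _ _).trans ?_
          · exact mem_product.2 ⟨(mem_filter.1 hp).2, mem_image_of_mem _ (mem_filter.1 hp).1⟩
          · rw [sum_product]
            refine (sum_le_card_nsmul _ _ _ fun x _ => hK x _).trans ?_
            rw [nsmul_eq_mul]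
            exact mul_le_mul_of_nonneg_right (by exact_mod_cast S.2) (by positivity)
      have h3 := h2 (u.map (Equiv.prodComm I I).toEmbedding)
      rw [sum_map] at h3
      refine (sum_le_sum (g := fun p => ((if p.1 ∈ S.1 then P p.1 p.2 else 0) +
        if p.2 ∈ S.1 then P p.2 p.1 else 0) / 2) fun p _ => ?_).trans ?_
      · have := h0 p.1 p.2
        rw [hs p.2]
        by_cases h4 : p.1 ∈ S.1 <;> by_cases h5 : p.2 ∈ S.1 <;> simp only [h4, h5, if_true, if_false]
        iterate 3 split_ifs <;> linarith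
        rw [if_pos]
        · simp
        refine Subtype.ext ((map_eq_image _ _).trans ((image_congr fun y hy => ?_).trans image_id))
        exact Equiv.swap_apply_of_ne_of_ne (fun h => h4 (h ▸ hy)) fun h => h5 (h ▸ hy)
      · rw [← sum_div, sum_add_distrib]
        have := add_le_add (h2 u) h3
        push_cast
        simp only [Equiv.coe_toEmbedding, Equiv.prodComm_apply, Prod.fst_swap, Prod.snd_swap] at this
        linarith
  have h2 : ∀ S p, 0 ≤ if σ p S = S then 0 else P p.1 p.2 / 2 := fun S p => by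
    have := h0 p.1 p.2
    split_ifs <;> positivity
  have h3 := fun S => summable_of_sum_le (h2 S) (h1 S)
  obtain ⟨R, a1, a2, a3⟩ := exists_R (c := n * K) σ (fun p S => Subtype.ext (by ext; simp [σ]))
    (fun p => P p.1 p.2 / 2) (fun p => div_nonneg (h0 _ _) two_pos.le) h3
    fun S => Real.tsum_le_of_sum_le (h2 S) (h1 S)
  have hu : ∀ ω s (S : Finset I), |Qf (κ s) (chi S) ω| ≤ 1 := fun ω s S =>
    (abs_int _ (chi_abs S)).trans_eq (by simp)
  have h5 : ∀ ω (S : Finset I), Qf (κ 0) (chi S) ω = chi S ω := fun ω S => by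
    rw [Qf, h.1, Kernel.id_apply, integral_dirac' _ _ (chi_bm S).1.stronglyMeasurable]
  have := good (PP I) a1 a2 (u := fun ω s S => Qf (κ s) (chi S.1) ω) (fun ω s S => hu ω s S)
    (fun s S => ((chi_bm S.1).ker _).1) (fun ω s hs S => (h.2 _ _ (chi_dep S.1) ω s hs).congr_deriv ?_)
    (fun S T => by simp only [h5, orth, Subtype.ext_iff]) ht
  · simpa [h5, aa, ← Real.exp_nat_mul] using this
  have h6 : ∀ p η, chi S.1 (η ∘ Equiv.swap p.1 p.2) = chi (σ p S).1 η := fun p η => by
    simp [chi, σ]
  have h7 := fun p => ((chi_bm (σ p S).1).sub (chi_bm S.1)).int (κ s ω)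
  rw [a3 _ fun S => hu ω s S]
  simp only [Lexc, h6, ← tsum_mul_left, ← mul_assoc]
  rw [← integral_tsum_of_summable_integral_norm (fun p => (h7 p).const_mul _)]
  · refine tsum_congr fun p => ?_
    rw [integral_const_mul, integral_sub ((chi_bm _).int _) ((chi_bm _).int _)]
    simp only [Qf]; ring
  · refine .of_norm_bounded ((h3 S).mul_left 2) fun p => (abs_int _ fun η => ?_).trans_eq
      (by rw [probReal_univ, mul_one])
    split_ifs with h8
    · simp [h8]
    · have := (abs_sub _ _).trans (add_le_add (chi_abs (σ p S).1 η) (chi_abs S.1 η))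
      have := h0 p.1 p.2
      rw [abs_norm, norm_mul, Real.norm_of_nonneg (by positivity), Real.norm_eq_abs]
      nlinarith

end

end Pool.Agent.H43.Ex
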