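import Pool.Agent.H43.Fd1
import Pool.Agent.H43.Bg2

/-! A stationary 1-dependent process on the integers built from nonlocal boxes. -/

set_option autoImplicit false

namespace Pool.Agent.H43.Fc

open MeasureTheory ProbabilityTheory Measure Set Pool.Agent.H43.Fd

open Classical in
/-- the first value below the threshold -/
noncomputable def fst (θ : ℝ) (v : ℕ → ℝ) : ℝ := if ∃ n, v n < θ then v (sInf {n | v n < θ}) else 0

lemma fst_eq {θ : ℝ} {v : ℕ → ℝ} {n : ℕ} (h : v n < θ) (h' : ∀ l < n, θ ≤ v l) : fst θ v = v n := by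
  rw [fst, if_pos ⟨n, h⟩]
  congr 1
  refine le_antisymm (Nat.sInf_le h) (not_lt.1 fun c => ?_)
  exact absurd (Nat.sInf_mem (s := {n | v n < θ}) ⟨n, h⟩) (not_lt.2 (h' _ c))

lemma fst_cases (θ : ℝ) (v : ℕ → ℝ) : ((∀ n, θ ≤ v n) ∧ fst θ v = 0) ∨
    ∃ n, v n < θ ∧ (∀ l < n, θ ≤ v l) ∧ fst θ v = v n := by
  by_cases h : ∃ n, v n < θ
  · exact Or.inr ⟨_, Nat.sInf_mem h, fun l hl => not_lt.1 (Nat.notMem_of_lt_sInf hl), if_pos h⟩
  · exact Or.inl ⟨fun n => not_lt.1 fun c => h ⟨n, c⟩, if_neg h⟩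

lemma fst_succ {θ : ℝ} {v : ℕ → ℝ} (h : θ ≤ v 0) : fst θ v = fst θ fun n => v (n + 1) := by
  rcases fst_cases θ fun n => v (n + 1) with ⟨a, b⟩ | ⟨n, a, b, c⟩
  · rw [b, fst, if_neg]
    rintro ⟨_ | n, c⟩
    · exact absurd c (not_lt.2 h)
    · exact absurd c (not_lt.2 (a n))
  · rw [c]
    refine fst_eq a fun l hl => ?_
    rcases l with _ | l
    · exact h
    · exact b l (by omega)

lemma fst_congr {θ : ℝ} {v w : ℕ → ℝ} (h : ∀ n, (∀ l < n, θ ≤ v l) → v n = w n) :
    fst θ v = fst θ w := by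
  rcases fst_cases θ v with ⟨a, b⟩ | ⟨n, a, b, c⟩
  · rw [show w = v from funext fun n => (h n fun l _ => a l).symm]
  · rw [c, h n b]
    exact (fst_eq (h n b ▸ a) fun l hl => h l (fun j hj => b j (hj.trans hl)) ▸ b l hl).symm

lemma fst_meas (θ : ℝ) : Measurable (fst θ) := by
  have h1 : Measurable fun v : ℕ → ℝ => sInf {n | v n < θ} := measurable_to_countable' fun n => by
    have : (fun v : ℕ → ℝ => sInf {n | v n < θ}) ⁻¹' {n} =
        {v | (v n < θ ∧ ∀ l < n, θ ≤ v l) ∨ (n = 0 ∧ ∀ l, θ ≤ v l)} := by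
      ext v
      simp only [mem_preimage, mem_singleton_iff, mem_ofPred_eq]
      by_cases h : ∃ n, v n < θ
      · constructor
        · rintro rfl
          exact Or.inl ⟨Nat.sInf_mem h, fun l hl => not_lt.1 (Nat.notMem_of_lt_sInf hl)⟩
        · rintro (⟨a, b⟩ | ⟨-, b⟩)
          · exact le_antisymm (Nat.sInf_le a) (not_lt.1 fun c =>
              absurd (Nat.sInf_mem h) (not_lt.2 (b _ c)))
          · obtain ⟨l, hl⟩ := h
            exact absurd hl (not_lt.2 (b l))
      · rw [show {n | v n < θ} = ∅ from eq_empty_of_forall_notMem fun n c => h ⟨n, c⟩,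
          Nat.sInf_empty]
        constructor
        · rintro rfl
          exact Or.inr ⟨rfl, fun l => not_lt.1 fun c => h ⟨l, c⟩⟩
        · rintro (⟨a, -⟩ | ⟨a, -⟩)
          · exact absurd ⟨n, a⟩ h
          · exact a.symm
    rw [this]
    measurability
  refine Measurable.ite (by measurability) ?_ measurable_const
  exact (measurable_from_prod_countable_left (f := fun p : (ℕ → ℝ) × ℕ => p.1 p.2)
    fun n => measurable_pi_apply n).comp (measurable_id.prodMk h1)

abbrev TT := AddCircle (1 : ℝ)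
abbrev S0 := unitInterval × (ℕ → TT)
abbrev SS := unitInterval × (ℕ → TT × TT)

/-- thresholds -/
noncomputable def th (k : ℕ) : ℝ := 1 / (16 * (k + 1))

lemma th_pos (k : ℕ) : 0 < th k := by unfold th; positivity

noncomputable def Lf (k : ℕ) (u : ℤ → unitInterval) (i : ℤ) : ℝ := fst (th k) fun n => u (i - n)
noncomputable def Nx (k : ℕ) (u : ℤ → unitInterval) (i : ℤ) : ℝ := fst (th k) fun n => u (i + 1 + n)

lemma Lf_end {k : ℕ} {u : ℤ → unitInterval} {i : ℤ} (h : (u i : ℝ) < th k) : Lf k u i = u i := by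
  simpa [Lf] using fst_eq (v := fun n => (u (i - n) : ℝ)) (n := 0) (by simpa using h) (by simp)

lemma Nx_end {k : ℕ} {u : ℤ → unitInterval} {i : ℤ} (h : (u i : ℝ) < th k) :
    Nx k u (i - 1) = u i := by
  simpa [Nx] using fst_eq (v := fun n => (u (i + n) : ℝ)) (n := 0) (by simpa using h) (by simp)

lemma Lf_pass {k : ℕ} {u : ℤ → unitInterval} {i : ℤ} (h : ¬(u i : ℝ) < th k) :
    Lf k u i = Lf k u (i - 1) := by
  rw [Lf, fst_succ (by simpa using h), Lf]
  congr 1
  funext n
  congr 2
  push_cast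
  ring

lemma Nx_pass {k : ℕ} {u : ℤ → unitInterval} {i : ℤ} (h : ¬(u i : ℝ) < th k) :
    Nx k u (i - 1) = Nx k u i := by
  rw [Nx, fst_succ (by simpa using h), Nx]
  congr 1
  funext n
  congr 2
  push_cast
  ring

lemma Lf_meas (k : ℕ) (i : ℤ) : Measurable fun u => Lf k u i := (fst_meas _).comp (by fun_prop)
lemma Nx_meas (k : ℕ) (i : ℤ) : Measurable fun u => Nx k u i := (fst_meas _).comp (by fun_prop)

/-- the process, for a given left-value function -/
noncomputable def XX (ℓ : ℕ → (ℤ → unitInterval) → ℤ → ℝ) (ω : ℤ → S0) (i : ℤ) : SS :=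
  ((ω i).1, fun k => if ((ω i).1 : ℝ) < th k then
    ((ω i).2 k, ((ℓ k (fun j => (ω j).1) (i - 1) * (ω i).1 : ℝ) : TT) - (ω (i - 1)).2 k)
    else ((ω i).2 k - (ω (i - 1)).2 k, 0))

lemma XX_meas {ℓ : ℕ → (ℤ → unitInterval) → ℤ → ℝ} (h : ∀ k i, Measurable fun u => ℓ k u i) :
    Measurable (XX ℓ) := by
  refine measurable_pi_lambda _ fun i => Measurable.prodMk (by fun_prop)
    (measurable_pi_lambda _ fun k => Measurable.ite (measurableSet_lt (by fun_prop) (by fun_prop))
      (Measurable.prodMk (by fun_prop) (Measurable.fun_sub ?_ (by fun_prop))) (by fun_prop))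
  exact AddCircle.measurable_mk'.comp (((h k _).comp (by fun_prop)).mul (by fun_prop))

noncomputable abbrev ν0 : Measure S0 := volume.prod (PP AddCircle.haarAddCircle ℕ)

/-- the law of the process -/
noncomputable def mu : Measure (ℤ → SS) := (PP ν0 ℤ).map (XX Lf)

lemma mpX : MeasurePreserving (XX Lf) (PP ν0 ℤ) mu := ⟨XX_meas Lf_meas, rfl⟩

instance : IsProbabilityMeasure mu := isProbabilityMeasure_map mpX.measurable.aemeasurable

lemma stat (a : ℤ) : mu.map (fun z v => z (v + a)) = mu := by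
  have h := inj_mp ν0 (add_left_injective a)
  rw [mu, map_map (by fun_prop) mpX.measurable]
  conv_rhs => rw [← h.map_eq, map_map mpX.measurable h.measurable]
  congr 1
  funext ω i
  simp only [Function.comp, XX, Lf, sub_add_eq_add_sub]

lemma transl {h : (ℤ → unitInterval) → ℤ → ℕ → TT} (m : Measurable h) :
    MeasurePreserving (fun (ω : ℤ → S0) i => ((ω i).1, (ω i).2 + h (fun j => (ω j).1) i))
      (PP ν0 ℤ) (PP ν0 ℤ) := by
  have z := Pool.Agent.H43.Bg.zip_mp (ι := ℤ) (volume : Measure unitInterval)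
    (PP (AddCircle.haarAddCircle (T := 1)) ℕ)
  have s := (MeasurePreserving.id (PP (volume : Measure unitInterval) ℤ)).skew_product
    (μc := PP (PP (AddCircle.haarAddCircle (T := 1)) ℕ) ℤ)
    (μd := PP (PP (AddCircle.haarAddCircle (T := 1)) ℕ) ℤ)
    (g := fun u g i => g i + h u i) (by fun_prop) (Filter.Eventually.of_forall fun u => by
      rw [infinitePi_map_pi (f := fun i (g : ℕ → TT) => g + h u i) _ fun i => by fun_prop]
      congr 1
      funext i
      have := infinitePi_map_pi (fun _ : ℕ => AddCircle.haarAddCircle (T := 1))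
        (f := fun k (t : TT) => t + h u i k) fun k => by fun_prop
      simp only [map_add_right_eq_self] at this
      exact this)
  have mT : Measurable fun (ω : ℤ → S0) i => ((ω i).1, (ω i).2 + h (fun j => (ω j).1) i) := by
    fun_prop
  exact ⟨mT, (congrArg (map _) z.map_eq.symm).trans
    ((map_map mT z.measurable).trans (z.comp s).map_eq)⟩

lemma dep1 (A B : Set ℤ) (hAB : ∀ a ∈ A, ∀ b ∈ B, 1 < |a - b|) :
    IndepFun (fun (z : ℤ → SS) (a : A) => z a) (fun (z : ℤ → SS) (b : B) => z b) mu := by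
  classical
  set ℓ : ℕ → (ℤ → unitInterval) → ℤ → ℝ :=
    fun k u => Lf k ((A ∪ B).piecewise u 0) with hℓ
  have mℓ : ∀ k i, Measurable fun u => ℓ k u i := fun k i =>
    (Lf_meas k i).comp ((glue_meas _).comp (measurable_id.prodMk measurable_const))
  have T := transl (h := fun u i k => (((Lf k u i - ℓ k u i) * Nx k u i : ℝ) : TT))
    (measurable_pi_lambda _ fun i => measurable_pi_lambda _ fun k => AddCircle.measurable_mk'.comp
      (((Lf_meas k i).sub (mℓ k i)).mul (Nx_meas k i)))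
  have e : ∀ ω : ℤ → S0, ∀ i ∈ A ∪ B, XX Lf (fun i => ((ω i).1, (ω i).2 + fun k =>
      (((Lf k (fun j => (ω j).1) i - ℓ k (fun j => (ω j).1) i) * Nx k (fun j => (ω j).1) i : ℝ) :
        TT))) i = XX ℓ ω i := fun ω i hi => by
    refine Prod.ext rfl (funext fun k => ?_)
    have p : ((A ∪ B).piecewise (fun j => (ω j).1) 0) i = (ω i).1 := piecewise_eq_of_mem _ _ _ hi
    simp only [XX, Pi.add_apply]
    split_ifs with c
    · rw [Lf_end (u := fun j => (ω j).1) c, Nx_end (u := fun j => (ω j).1) c, hℓ]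
      simp only []
      rw [Lf_end (p.symm ▸ c), p, sub_self, zero_mul, sub_mul, AddCircle.coe_sub]
      simp
      abel
    · rw [Lf_pass (u := fun j => (ω j).1) c, Nx_pass (u := fun j => (ω j).1) c, hℓ]
      simp only []
      rw [Lf_pass (i := i) (p.symm ▸ c)]
      simp
  have d : ∀ A' B' : Set ℤ, A' ∪ B' = A ∪ B → (∀ a ∈ A', a - 1 ∉ B') → ∀ ω ω' : ℤ → S0,
      (∀ a ∈ A', ω a = ω' a ∧ ω (a - 1) = ω' (a - 1)) → ∀ a ∈ A', XX ℓ ω a = XX ℓ ω' a := by
    intro A' B' h1 h2 ω ω' h a ha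
    have : ∀ k, ℓ k (fun j => (ω j).1) (a - 1) = ℓ k (fun j => (ω' j).1) (a - 1) := fun k => by
      refine fst_congr fun n hn => ?_
      have : a - n ∈ A' := by
        induction n with
        | zero => simpa using ha
        | succ n ih =>
          have i1 := h2 _ (ih fun l hl => hn l (by omega))
          have i2 := hn n (by omega)
          rw [show a - ((n + 1 : ℕ) : ℤ) = a - n - 1 by push_cast; ring]
          rw [show a - 1 - (n : ℤ) = a - n - 1 by ring] at i2
          by_contra c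
          rw [piecewise_eq_of_notMem _ _ _ (by rw [← h1]; simp [c, i1])] at i2
          exact absurd (th_pos k) (by simpa using i2)
      rw [show a - 1 - (n : ℤ) = a - n - 1 by ring]
      by_cases c : a - n - 1 ∈ A ∪ B
      · simp only [piecewise_eq_of_mem _ _ _ c, (h _ this).2]
      · simp only [piecewise_eq_of_notMem _ _ _ c]
    simp only [XX, this, (h a ha).1, (h a ha).2]
  have M := (mpX.comp T).comp (glue_mp ν0 {j | j ∈ A ∨ j + 1 ∈ A})
  have mA : Measurable fun (z : ℤ → SS) (a : A) => z a := by fun_prop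
  have mB : Measurable fun (z : ℤ → SS) (a : B) => z a := by fun_prop
  have nA : ∀ a ∈ A, a - 1 ∉ B := fun a ha hb => by simpa using hAB a ha _ hb
  have nB : ∀ a ∈ B, a - 1 ∉ A := fun a ha hb => by simpa using hAB _ hb a ha
  refine indepFun_iff_measure_inter_preimage_eq_mul.2 fun s t hs ht => ?_
  rw [← M.measure_preimage ((mA hs).inter (mB ht)).nullMeasurableSet,
    ← (mpX.comp T).measure_preimage (mA hs).nullMeasurableSet,
    ← (mpX.comp T).measure_preimage (mB ht).nullMeasurableSet, ← prod_prod]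
  congr 1
  ext p
  simp only [mem_preimage, mem_inter_iff, Function.comp, mem_prod]
  refine and_congr (Eq.to_iff ?_) (Eq.to_iff ?_)
  · congr 1
    funext a
    rw [e _ _ (Or.inl a.2), e _ _ (Or.inl a.2)]
    exact d A B rfl nA _ _ (fun a ha => by simp [ha]) _ a.2
  · congr 1
    funext b
    rw [e _ _ (Or.inr b.2), e _ _ (Or.inr b.2)]
    refine d B A (union_comm _ _) nB _ _ (fun b hb => ?_) _ b.2
    have h0 : b ∉ A := fun h => by simpa using hAB b h b hb
    have h1 : b + 1 ∉ A := fun h => by simpa using hAB _ h b hb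
    simp [h0, h1, nB b hb]

end Pool.Agent.H43.Fc
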