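import Pool.Agent.H43.Fc1

/-! The Bell type argument: every finitary coding has a heavy tail. -/

set_option autoImplicit false

namespace Pool.Agent.H43.Fc

open MeasureTheory ProbabilityTheory Measure Set Pool.Agent.H43.Fd
open scoped ENNReal

noncomputable def al (k : ℕ) (z : ℤ → SS) (a : ℤ) : ℕ → TT
  | 0 => 0
  | n + 1 => (if ((z (a + n)).1 : ℝ) < th k then 0 else al k z a n) + ((z (a + n)).2 k).1

noncomputable def be (k : ℕ) (z : ℤ → SS) (b : ℤ) : ℕ → TT
  | 0 => 0
  | n + 1 => if ((z (b - n)).1 : ℝ) < th k then ((z (b - n)).2 k).2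
      else be k z b n + ((z (b - n)).2 k).1

lemma al_X (k : ℕ) (ω : ℤ → S0) (a : ℤ) (n : ℕ) (h : ∃ j < n, ((ω (a + j)).1 : ℝ) < th k) :
    al k (XX Lf ω) a n = (ω (a + n - 1)).2 k := by
  induction n with
  | zero => simp at h
  | succ n ih =>
    rw [show a + ((n + 1 : ℕ) : ℤ) - 1 = a + n by push_cast; ring]
    simp only [al, XX]
    split_ifs with c
    · simp
    · obtain ⟨j, hj, h⟩ := h
      rw [ih ⟨j, lt_of_le_of_ne (by omega) fun e => c (e ▸ h), h⟩]
      simp

lemma be_X (k : ℕ) (ω : ℤ → S0) (b : ℤ) (n : ℕ) (h : ∃ j < n, ((ω (b - j)).1 : ℝ) < th k) :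
    be k (XX Lf ω) b n = ((Lf k (fun j => (ω j).1) (b - n) * Nx k (fun j => (ω j).1) (b - n) : ℝ) :
      TT) - (ω (b - n)).2 k := by
  induction n with
  | zero => simp at h
  | succ n ih =>
    rw [show b - ((n + 1 : ℕ) : ℤ) = b - n - 1 by push_cast; ring]
    simp only [be, XX]
    split_ifs with c
    · rw [Nx_end (u := fun j => (ω j).1) c]
    · obtain ⟨j, hj, h⟩ := h
      rw [ih ⟨j, lt_of_le_of_ne (by omega) fun e => c (e ▸ h), h⟩,
        Nx_pass (u := fun j => (ω j).1) c, Lf_pass (u := fun j => (ω j).1) c]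
      simp

lemma al_congr (k : ℕ) {z z' : ℤ → SS} (a : ℤ) (n : ℕ) (h : ∀ j < n, z (a + j) = z' (a + j)) :
    al k z a n = al k z' a n := by
  induction n with
  | zero => rfl
  | succ n ih => simp only [al, h n n.lt_succ_self, ih fun j hj => h j (by omega)]

lemma be_congr (k : ℕ) {z z' : ℤ → SS} (a : ℤ) (n : ℕ) (h : ∀ j < n, z (a - j) = z' (a - j)) :
    be k z a n = be k z' a n := by
  induction n with
  | zero => rfl
  | succ n ih => simp only [be, h n n.lt_succ_self, ih fun j hj => h j (by omega)]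

lemma al_meas (k : ℕ) (a : ℤ) (n : ℕ) : Measurable fun z => al k z a n := by
  induction n with
  | zero => exact measurable_const
  | succ n ih =>
    exact (Measurable.ite (measurableSet_lt (by fun_prop) (by fun_prop)) measurable_const ih).add
      (by fun_prop)

lemma be_meas (k : ℕ) (a : ℤ) (n : ℕ) : Measurable fun z => be k z a n := by
  induction n with
  | zero => exact measurable_const
  | succ n ih =>
    exact Measurable.ite (measurableSet_lt (by fun_prop) (by fun_prop)) (by fun_prop)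
      (ih.add (by fun_prop))

noncomputable def xx (k M : ℕ) (v : ℕ → unitInterval) : ℝ :=
  fst (th k) fun n => if k + 1 ≤ n ∧ n < M then v n else 1

def EE (k M : ℕ) (v : ℕ → unitInterval) : Prop :=
  (∀ n < k + 1, th k ≤ v n) ∧ ∃ n, (k + 1 ≤ n ∧ n < M) ∧ (v n : ℝ) < th k

lemma th_lt (k : ℕ) : th k < 1 := by
  rw [th, div_lt_one (by positivity)]
  linarith [(k.cast_nonneg : (0 : ℝ) ≤ k)]

lemma xx_cases (k M : ℕ) (v : ℕ → unitInterval) :
    xx k M v = 0 ∨ ∃ n, xx k M v = v n ∧ (v n : ℝ) < 1 := by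
  rcases fst_cases (th k) fun n => if k + 1 ≤ n ∧ n < M then v n else 1 with h | ⟨n, a, -, c⟩
  · exact Or.inl h.2
  · split_ifs at a c
    · exact Or.inr ⟨n, c, a.trans (th_lt k)⟩
    · exact absurd a (not_lt.2 (th_lt k).le)

lemma xx_mem (k M : ℕ) (v : ℕ → unitInterval) : 0 ≤ xx k M v ∧ xx k M v < 1 := by
  rcases xx_cases k M v with h | ⟨n, h, h'⟩ <;> rw [h]
  · simp
  · exact ⟨(v n).2.1, h'⟩

lemma xx_eq {k M : ℕ} {v : ℕ → unitInterval} (h : EE k M v) :
    fst (th k) (fun n => v n) = xx k M v ∧ ∃ n, xx k M v = v n := by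
  obtain ⟨h, j, hj, h'⟩ := h
  rcases fst_cases (th k) fun n => v n with a | ⟨n, a, b, c⟩
  · exact absurd h' (not_lt.2 (a.1 j))
  · have hn : k + 1 ≤ n ∧ n < M := ⟨not_lt.1 fun e => absurd a (not_lt.2 (h n e)),
      lt_of_le_of_lt (not_lt.1 fun e => absurd h' (not_lt.2 (b j e))) hj.2⟩
    have : xx k M v = v n := (fst_eq (n := n) (by rwa [if_pos hn]) fun l hl => by
      split_ifs
      · exact b l hl
      · exact (th_lt k).le).trans (if_pos hn)
    exact ⟨c.trans this.symm, n, this⟩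

lemma xx_congr {k M : ℕ} {v w : ℕ → unitInterval} (h : ∀ n, k + 1 ≤ n → n < M → v n = w n) :
    xx k M v = xx k M w := by
  unfold xx
  congr 1
  funext n
  split_ifs with c
  · rw [h n c.1 c.2]
  · rfl

lemma EE_congr {k M : ℕ} (hM : k + 1 ≤ M) {v w : ℕ → unitInterval} (h : ∀ n < M, v n = w n)
    (e : EE k M v) : EE k M w :=
  ⟨fun n hn => h n (by omega) ▸ e.1 n hn, by
    obtain ⟨n, c, c'⟩ := e.2
    exact ⟨n, c, h n c.2 ▸ c'⟩⟩

lemma xx_meas (k M : ℕ) : Measurable (xx k M) := (fst_meas _).comp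
  (measurable_pi_lambda _ fun n => by split_ifs <;> fun_prop)

lemma EE_meas (k M : ℕ) : MeasurableSet {v | EE k M v} := by
  have m : ∀ n, Measurable fun v : ℕ → unitInterval => (v n : ℝ) := fun n => by fun_prop
  exact measurableSet_setOfPred.2 ((Measurable.forall fun n => measurable_const.imp
    (measurable_const.le' (m n))).and (Measurable.exists fun n => measurable_const.and
      ((m n).lt measurable_const)))

lemma probE (k : ℕ) : PP volume ℕ {v | ¬EE k (241 * (k + 1)) v} ≤ ENNReal.ofReal (1 / 8) := by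
  set t : unitInterval := ⟨th k, (th_pos k).le, (th_lt k).le⟩ with ht
  have : {v | ¬EE k (241 * (k + 1)) v} ⊆ (⋃ n ∈ Finset.range (k + 1), (fun v => v n) ⁻¹' Iio t) ∪
      Set.pi (Finset.Ico (k + 1) (241 * (k + 1))) fun _ => Ici t := fun v hv => by
    by_contra c
    simp only [mem_union, not_or, mem_iUnion, Set.mem_pi, not_exists, not_forall, mem_preimage,
      mem_Iio, mem_Ici, not_lt, not_le, Finset.mem_range, Finset.mem_coe, Finset.mem_Ico] at c
    obtain ⟨c, n, hn, c'⟩ := c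
    exact hv ⟨c, n, hn, c'⟩
  refine (measure_mono this).trans ((measure_union_le _ _).trans ?_)
  rw [show (1 / 8 : ℝ) = 1 / 16 + 1 / 16 by norm_num, ENNReal.ofReal_add (by norm_num) (by norm_num)]
  have hk : (0 : ℝ) < k + 1 := by positivity
  refine add_le_add ((measure_biUnion_finset_le _ _).trans ?_) ?_
  · simp only [(measurePreserving_eval_infinitePi (fun _ : ℕ => (volume : Measure unitInterval))
      _).measure_preimage measurableSet_Iio.nullMeasurableSet, unitInterval.volume_Iio,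
      Finset.sum_const, Finset.card_range, nsmul_eq_mul]
    rw [← ENNReal.ofReal_natCast, ← ENNReal.ofReal_mul (by positivity)]
    refine le_of_eq (congrArg _ ?_)
    simp only [ht, th]
    push_cast
    field_simp
  · rw [infinitePi_pi _ fun _ _ => measurableSet_Ici, Finset.prod_const, unitInterval.volume_Ici,
      ← ENNReal.ofReal_pow (sub_nonneg.2 t.2.2), Nat.card_Ico,
      show 241 * (k + 1) - (k + 1) = 240 * (k + 1) by omega]
    refine ENNReal.ofReal_le_ofReal ?_
    have h1 := one_add_mul_le_pow (show -2 ≤ th k by linarith [th_pos k]) (240 * (k + 1))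
    have h2 : ((240 * (k + 1) : ℕ) : ℝ) * th k = 15 := by
      rw [th]; push_cast; field_simp; norm_num
    have h3 : (1 - th k) ^ (240 * (k + 1)) * (1 + th k) ^ (240 * (k + 1)) ≤ 1 := by
      rw [← mul_pow]
      exact pow_le_one₀ (by nlinarith [th_pos k, th_lt k]) (by nlinarith [th_pos k])
    have h4 := pow_nonneg (sub_nonneg.2 (th_lt k).le) (240 * (k + 1))
    show (1 - th k) ^ _ ≤ _
    rw [h2] at h1
    generalize (1 - th k) ^ (240 * (k + 1)) = a at *
    generalize (1 + th k) ^ (240 * (k + 1)) = b at *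
    nlinarith

lemma mpU : MeasurePreserving (fun (z : ℤ → SS) i => (z i).1) mu (PP volume ℤ) := by
  refine ⟨by fun_prop, ?_⟩
  rw [mu, map_map (by fun_prop) mpX.measurable]
  have := infinitePi_map_pi (fun _ : ℤ => ν0) (f := fun _ => Prod.fst) fun _ => measurable_fst
  simp only [map_fst_prod, measure_univ, one_smul] at this
  exact this

/-- the nonlocal relation -/
def Rel (k M : ℕ) (z : ℤ → SS) : Prop :=
  EE k M (fun n => (z (0 - n)).1) → EE k M (fun n => (z (0 + 1 + n)).1) →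
    al k z (1 - M) M + be k z M M =
      ((xx k M (fun n => (z (0 - n)).1) * xx k M (fun n => (z (0 + 1 + n)).1) : ℝ) : TT)

lemma rel_ae (k M : ℕ) : ∀ᵐ z ∂mu, Rel k M z := by
  have m1 : Measurable fun (z : ℤ → SS) (n : ℕ) => (z (0 - n)).1 := by fun_prop
  have m2 : Measurable fun (z : ℤ → SS) (n : ℕ) => (z (0 + 1 + n)).1 := by fun_prop
  have ms : MeasurableSet {z | Rel k M z} := (m1 (EE_meas k M)).imp ((m2 (EE_meas k M)).imp
    (measurableSet_eq_fun ((al_meas _ _ _).add (be_meas _ _ _)) (AddCircle.measurable_mk'.comp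
      (((xx_meas k M).comp m1).mul ((xx_meas k M).comp m2)))))
  refine (ae_map_iff mpX.measurable.aemeasurable ms).2
    (Filter.Eventually.of_forall fun ω h1 h2 => ?_)
  rw [← (xx_eq h1).1, ← (xx_eq h2).1]
  obtain ⟨-, i, hi, h1⟩ := h1
  obtain ⟨-, j, hj, h2⟩ := h2
  rw [al_X k ω _ _ ⟨M - 1 - i, by omega, by
      rwa [show (1 : ℤ) - M + (M - 1 - i : ℕ) = 0 - i by omega]⟩,
    be_X k ω _ _ ⟨M - 1 - j, by omega, by
      rwa [show (M : ℤ) - (M - 1 - j : ℕ) = 0 + 1 + j by omega]⟩,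
    show (1 : ℤ) - M + M - 1 = 0 by ring, sub_self, add_sub_cancel]
  rfl

theorem bell {L : Type} [MeasurableSpace L] (ν : Measure L) [IsProbabilityMeasure ν]
    {F : (ℤ → L) → ℤ → SS} (hF : MeasurePreserving F (PP ν ℤ) mu) (r : ℕ) {G : Set (ℤ → L)}
    {f : (ℤ → L) → SS} (dG : DependsOn (· ∈ G) (Icc (-r : ℤ) r)) (df : DependsOn f (Icc (-r : ℤ) r))
    (hf : ∀ᵐ y ∂PP ν ℤ, ∀ i, (fun v => y (v + i)) ∈ G → f (fun v => y (v + i)) = F y i) :
    ENNReal.ofReal (1 / (4000 * (r + 1))) ≤ PP ν ℤ Gᶜ := by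
  classical
  by_contra hc
  set k := 2 * r with hk
  set M := 241 * (k + 1) with hM
  set Z : (ℤ → L) → ℤ → SS := fun y i => f fun v => y (v + i) with hZ
  set lv : (ℤ → SS) → ℕ → unitInterval := fun z n => (z (0 - n)).1 with hlv
  set rv : (ℤ → SS) → ℕ → unitInterval := fun z n => (z (0 + 1 + n)).1 with hrv
  set gd : (ℤ → L) → ℤ → Prop := fun y i => (fun v => y (v + i)) ∈ G with hgd
  have loc : ∀ (y y' : ℤ → L) (i : ℤ), (∀ j, i - r ≤ j → j ≤ i + r → y j = y' j) →
      Z y i = Z y' i ∧ (gd y i → gd y' i) := fun y y' i h =>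
    ⟨df fun j hj => h _ (by linarith [hj.1]) (by linarith [hj.2]),
      (dG (x := fun v => y (v + i)) (y := fun v => y' (v + i))
        fun j hj => h _ (by linarith [hj.1]) (by linarith [hj.2])).mp⟩
  set HL : Set (ℤ → L) := {y | (∀ n < M, gd y (0 - n)) ∧ EE k M (lv (Z y))} with hHL
  set HR : Set (ℤ → L) := {y | (∀ n < M, gd y (0 + 1 + n)) ∧ EE k M (rv (Z y))} with hHR
  have hkM : k + 1 ≤ M := by omega
  have pH : ∀ g : ℕ → ℤ, Function.Injective g → PP ν ℤ {y | (∀ n < M, gd y (g n)) ∧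
      EE k M fun n => (Z y (g n)).1}ᶜ < ENNReal.ofReal (1 / 4) := fun g hg => by
    have : {y | (∀ n < M, gd y (g n)) ∧ EE k M fun n => (Z y (g n)).1}ᶜ ≤ᵐ[PP ν ℤ]
        ((⋃ n ∈ Finset.range M, (fun y v => y (v + g n)) ⁻¹' Gᶜ) ∪
          (fun y n => (F y (g n)).1) ⁻¹' {v | ¬EE k M v} : Set _) := by
      filter_upwards [hf] with y hy h
      by_contra c
      simp only [union_def, mem_iUnion, Finset.mem_range, mem_preimage, mem_compl_iff,
        mem_ofPred_eq] at c
      have c := not_or.1 c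
      have c1 : ∀ n < M, gd y (g n) := fun n hn => not_not.1 fun e => c.1 ⟨n, hn, e⟩
      exact h ⟨c1, EE_congr hkM (fun n hn => by simp only [hZ, hy _ (c1 n hn)]) (not_not.1 c.2)⟩
    refine (measure_mono_ae this).trans_lt ((measure_union_le _ _).trans_lt ?_)
    rw [show (1 / 4 : ℝ) = 1 / 8 + 1 / 8 by norm_num,
      ENNReal.ofReal_add (by norm_num) (by norm_num)]
    refine ENNReal.add_lt_add_of_lt_of_le ((((inj_mp volume hg).comp (mpU.comp hF)
      ).measure_preimage_le _).trans_lt ((probE k).trans_lt ENNReal.ofReal_lt_top)).ne ?_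
      ((((inj_mp volume hg).comp (mpU.comp hF)).measure_preimage_le _).trans (probE k))
    refine (measure_biUnion_finset_le _ _).trans_lt ((Finset.sum_le_card_nsmul _ _ _ fun n _ =>
      ((inj_mp ν (add_left_injective (g n))).measure_preimage_le _).trans (not_le.1 hc).le
      ).trans_lt ?_)
    rw [Finset.card_range, nsmul_eq_mul, ← ENNReal.ofReal_natCast,
      ← ENNReal.ofReal_mul (by positivity), ENNReal.ofReal_lt_ofReal_iff (by norm_num), hM, hk,
      mul_one_div, div_lt_div_iff₀ (by positivity) (by positivity)]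
    push_cast
    linarith [(r.cast_nonneg : (0 : ℝ) ≤ r)]
  have pL : PP ν ℤ HLᶜ < _ := pH (fun n => 0 - n) fun a b h => by simpa using h
  have pR : PP ν ℤ HRᶜ < _ := pH (fun n => 0 + 1 + n) fun a b h => by simpa using h
  have rel : ∀ᵐ y ∂PP ν ℤ, y ∈ HL → y ∈ HR → al k (Z y) (1 - M) M + be k (Z y) M M =
      ((xx k M (lv (Z y)) * xx k M (rv (Z y)) : ℝ) : TT) := by
    filter_upwards [hf, hF.quasiMeasurePreserving.ae (rel_ae k M)] with y h1 h2 a b
    have e1 : ∀ n < M, Z y (0 - n) = F y (0 - n) := fun n hn => h1 _ (a.1 n hn)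
    have e2 : ∀ n < M, Z y (0 + 1 + n) = F y (0 + 1 + n) := fun n hn => h1 _ (b.1 n hn)
    rw [al_congr k (z' := F y) _ _ fun j hj => by
        rw [show (1 : ℤ) - M + j = 0 - (M - 1 - j : ℕ) by omega, e1 _ (by omega)],
      be_congr k (z' := F y) _ _ fun j hj => by
        rw [show (M : ℤ) - j = 0 + 1 + (M - 1 - j : ℕ) by omega, e2 _ (by omega)],
      xx_congr (w := lv (F y)) fun n _ hn => by simp only [hlv, e1 n hn],
      xx_congr (v := rv (Z y)) (w := rv (F y)) fun n _ hn => by simp only [hrv, e2 n hn]]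
    exact h2 (EE_congr hkM (fun n hn => by simp only [hlv, e1 n hn]) a.2)
      (EE_congr hkM (fun n hn => by simp only [hrv, e2 n hn]) b.2)
  have mU : ∀ e, MeasurePreserving (fun y => (F y e).1) (PP ν ℤ) volume := fun e =>
    (measurePreserving_eval_infinitePi (fun _ : ℤ => (volume : Measure unitInterval)) e).comp
      (mpU.comp hF)
  have nd : ∀ᵐ p ∂(PP ν ℤ).prod (PP ν ℤ), ∀ e e', (F p.1 e).1 ≠ (F p.2 e').1 ∧ (F p.1 e).1 ≠ 0 := by
    refine ae_all_iff.2 fun e => ae_all_iff.2 fun e' => ((mU e).prod (mU e')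
      ).quasiMeasurePreserving.ae (p := fun q : unitInterval × unitInterval => q.1 ≠ q.2 ∧ q.1 ≠ 0) ?_
    refine (ae_prod_iff_ae_ae ((measurableSet_eq_fun measurable_fst measurable_snd).compl.inter
      (measurableSet_eq_fun measurable_fst measurable_const).compl)).2 ?_
    filter_upwards [Measure.ae_ne volume 0] with a ha
    filter_upwards [Measure.ae_ne volume a] with b hb using ⟨hb.symm, ha⟩
  have g1 := glue_mp ν (Icc (-r : ℤ) (r + 1))
  have g2 := glue_mp ν (Iic (r + 1 : ℤ))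
  have g3 := glue_mp ν (Ici (-r : ℤ))
  have g0 : MeasurePreserving Prod.fst ((PP ν ℤ).prod (PP ν ℤ)) (PP ν ℤ) := measurePreserving_fst
  have g4 : MeasurePreserving Prod.snd ((PP ν ℤ).prod (PP ν ℤ)) (PP ν ℤ) := measurePreserving_snd
  have bad : univ ≤ᵐ[(PP ν ℤ).prod (PP ν ℤ)] ((Prod.fst ⁻¹' HLᶜ ∪ Prod.fst ⁻¹' HRᶜ) ∪
      ((fun p => (Icc (-r : ℤ) (r + 1)).piecewise p.1 p.2) ⁻¹' HLᶜ ∪
        (fun p => (Icc (-r : ℤ) (r + 1)).piecewise p.1 p.2) ⁻¹' HRᶜ) : Set _) := by
    filter_upwards [nd, g0.quasiMeasurePreserving.ae rel, g1.quasiMeasurePreserving.ae rel,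
      g2.quasiMeasurePreserving.ae rel, g3.quasiMeasurePreserving.ae rel,
      g0.quasiMeasurePreserving.ae hf, g4.quasiMeasurePreserving.ae hf]
      with ⟨y, y'⟩ nd r0 r1 r2 r3 f0 f4 _
    by_contra c
    simp only [union_def, mem_preimage, mem_compl_iff, mem_ofPred_eq] at c
    obtain ⟨c1, c2⟩ := not_or.1 c
    obtain ⟨a0, b0⟩ := not_or.1 c1
    obtain ⟨a1, b1⟩ := not_or.1 c2
    rw [not_not] at a0 b0 a1 b1
    simp only [] at r0 r1 r2 r3 f0 f4 nd
    set y1 := (Icc (-r : ℤ) (r + 1)).piecewise y y' with hy1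
    set y2 := (Iic (r + 1 : ℤ)).piecewise y y' with hy2
    set y3 := (Ici (-r : ℤ)).piecewise y y' with hy3
    have tL : ∀ w w' : ℤ → L, (∀ j ≤ (r + 1 : ℤ), w j = w' j) → w ∈ HL → w' ∈ HL ∧
        al k (Z w') (1 - M) M = al k (Z w) (1 - M) M ∧ lv (Z w') = lv (Z w) := fun w w' h a => by
      have t := fun i (hi : i ≤ 0) => loc w w' i fun j _ hj => h j (by omega)
      have e : lv (Z w') = lv (Z w) := funext fun n => by simp only [hlv, (t (0 - n) (by omega)).1]
      exact ⟨⟨fun n hn => (t _ (by omega)).2 (a.1 n hn), e ▸ a.2⟩,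
        al_congr k _ _ fun j hj => (t _ (by omega)).1.symm, e⟩
    have tR : ∀ w w' : ℤ → L, (∀ j, (-r : ℤ) ≤ j → w j = w' j) → w ∈ HR → w' ∈ HR ∧
        be k (Z w') M M = be k (Z w) M M ∧ rv (Z w') = rv (Z w) := fun w w' h a => by
      have t := fun i (hi : 1 ≤ i) => loc w w' i fun j hj _ => h j (by omega)
      have e : rv (Z w') = rv (Z w) :=
        funext fun n => by simp only [hrv, (t (0 + 1 + n) (by omega)).1]
      exact ⟨⟨fun n hn => (t _ (by omega)).2 (a.1 n hn), e ▸ a.2⟩,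
        be_congr k _ _ fun j hj => (t _ (by omega)).1.symm, e⟩
    obtain ⟨a2, s1, s2⟩ := tL y y2 (fun j hj => by simp [hy2, hj]) a0
    obtain ⟨b2, s3, s4⟩ := tR y1 y2 (fun j hj => by simp [hy1, hy2, piecewise, hj]) b1
    obtain ⟨a3, s5, s6⟩ := tL y1 y3 (fun j hj => by simp [hy1, hy3, piecewise, hj]) a1
    obtain ⟨b3, s7, s8⟩ := tR y y3 (fun j hj => by simp [hy3, hj]) b0
    have q0 := r0 a0 b0
    have q1 := r1 a1 b1
    have q2 := r2 a2 b2
    have q3 := r3 a3 b3
    rw [s1, s2, s3, s4] at q2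
    rw [s5, s6, s7, s8] at q3
    have ne : ∀ g : ℕ → ℤ, (∀ n, k + 1 ≤ n → g n + r < -r ∨ r + 1 < g n - r) →
        (∀ n < M, gd y (g n)) → EE k M (fun n => (Z y (g n)).1) → (∀ n < M, gd y1 (g n)) →
        xx k M (fun n => (Z y (g n)).1) ≠ xx k M fun n => (Z y1 (g n)).1 := fun g hg h1 h2 h3 => by
      rw [xx_congr (w := fun n => (F y (g n)).1) fun n _ hn => by simp only [hZ, f0 _ (h1 n hn)],
        xx_congr (v := fun n => (Z y1 (g n)).1) (w := fun n => (F y' (g n)).1) fun n h hn => by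
          have t := loc y1 y' (g n) fun j j1 j2 => piecewise_eq_of_notMem _ _ _ fun c => by
            have := hg n h; have := c.1; have := c.2; omega
          simp only [t.1]
          simp only [hZ, f4 _ (t.2 (h3 n hn))]]
      obtain ⟨n, e⟩ := (xx_eq (EE_congr hkM (w := fun n => (F y (g n)).1)
        (fun n hn => by simp only [hZ, f0 _ (h1 n hn)]) h2)).2
      rw [e]
      rcases xx_cases k M fun n => (F y' (g n)).1 with h | ⟨n', h, -⟩ <;> rw [h]
      · exact fun c => (nd _ 0).2 (Subtype.ext c)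
      · exact fun c => (nd _ _).1 (Subtype.ext c)
    have n1 := ne (fun n => 0 - n) (fun n hn => by omega) a0.1 a0.2 a1.1
    have n2 := ne (fun n => 0 + 1 + n) (fun n hn => by omega) b0.1 b0.2 b1.1
    have m0 := xx_mem k M (lv (Z y))
    have m1 := xx_mem k M (lv (Z y1))
    have m2 := xx_mem k M (rv (Z y))
    have m3 := xx_mem k M (rv (Z y1))
    have : (((xx k M (lv (Z y)) - xx k M (lv (Z y1))) *
        (xx k M (rv (Z y)) - xx k M (rv (Z y1))) : ℝ) : TT) = 0 := by
      rw [sub_mul, mul_sub, mul_sub, AddCircle.coe_sub, AddCircle.coe_sub, AddCircle.coe_sub,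
        ← q0, ← q1, ← q2, ← q3]
      abel
    obtain ⟨n, hn⟩ := (AddCircle.coe_eq_zero_iff _).1 this
    have h1 : |(n : ℝ)| < 1 := by
      rw [← mul_one (n : ℝ), ← zsmul_eq_mul, hn, abs_mul]
      exact mul_lt_one_of_nonneg_of_lt_one_left (abs_nonneg _) (abs_lt.2 ⟨by linarith, by linarith⟩)
        (abs_le.2 ⟨by linarith, by linarith⟩)
    have h2 : n = 0 := Int.abs_lt_one_iff.1 (by exact_mod_cast h1)
    rw [h2, zero_smul] at hn
    exact mul_ne_zero (sub_ne_zero.2 n1) (sub_ne_zero.2 n2) hn.symm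
  have := (measure_mono_ae bad).trans_lt ((measure_union_le _ _).trans_lt (ENNReal.add_lt_add
    ((measure_union_le _ _).trans_lt (ENNReal.add_lt_add ((g0.measure_preimage_le _).trans_lt pL)
      ((g0.measure_preimage_le _).trans_lt pR)))
    ((measure_union_le _ _).trans_lt (ENNReal.add_lt_add ((g1.measure_preimage_le _).trans_lt pL)
      ((g1.measure_preimage_le _).trans_lt pR)))))
  rw [measure_univ, ← ENNReal.ofReal_add (by norm_num) (by norm_num),
    ← ENNReal.ofReal_add (by norm_num) (by norm_num)] at this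
  norm_num at this

end Pool.Agent.H43.Fc
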