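import Mathlib

/-! Block factors of i.i.d. labels on residually finite groups have nonnegative total correlation. -/

set_option autoImplicit false

namespace Pool.Agent.H43.Fd

open MeasureTheory ProbabilityTheory Measure Set

variable {L : Type} [MeasurableSpace L] (ν : Measure L) [IsProbabilityMeasure ν]

/-- i.i.d. labels -/
noncomputable abbrev PP (V : Type) : Measure (V → L) := infinitePi fun _ : V => ν

lemma glue_meas {V : Type} (K : Set V) [DecidablePred (· ∈ K)] :
    Measurable fun p : (V → L) × (V → L) => K.piecewise p.1 p.2 := by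
  refine measurable_pi_lambda _ fun v => ?_
  by_cases h : v ∈ K
  · simp only [piecewise_eq_of_mem _ _ _ h]; fun_prop
  · simp only [piecewise_eq_of_notMem _ _ _ h]; fun_prop

lemma glue_mp {V : Type} (K : Set V) [DecidablePred (· ∈ K)] :
    MeasurePreserving (fun p : (V → L) × (V → L) => K.piecewise p.1 p.2)
      ((PP ν V).prod (PP ν V)) (PP ν V) := by
  refine ⟨glue_meas K, eq_infinitePi _ fun s t ht => ?_⟩
  rw [map_apply (glue_meas K) (MeasurableSet.pi s.countable_toSet fun i _ => ht i)]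
  have : (fun p : (V → L) × (V → L) => K.piecewise p.1 p.2) ⁻¹' Set.pi s t =
      (Set.pi (s.filter (· ∈ K)) t) ×ˢ (Set.pi (s.filter (· ∉ K)) t) := by
    ext p
    simp only [mem_preimage, Set.mem_pi, Finset.mem_coe, mem_prod, Finset.mem_filter]
    constructor
    · intro h
      exact ⟨fun i hi => by simpa [hi.2] using h i hi.1, fun i hi => by simpa [hi.2] using h i hi.1⟩
    · intro h i hi
      by_cases hk : i ∈ K
      · simpa [hk] using h.1 i ⟨hi, hk⟩
      · simpa [hk] using h.2 i ⟨hi, hk⟩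
  rw [this, prod_prod, infinitePi_pi _ fun i _ => ht i, infinitePi_pi _ fun i _ => ht i,
    Finset.prod_filter_mul_prod_filter_not]

lemma inj_mp {V W : Type} {f : V → W} (hf : Function.Injective f) :
    MeasurePreserving (fun (y : W → L) v => y (f v)) (PP ν W) (PP ν V) :=
  ⟨by fun_prop, map_infinitePi_infinitePi_of_inj hf⟩

lemma int_mp {A B : Type} [MeasurableSpace A] [MeasurableSpace B] {μ : Measure A} {μ' : Measure B}
    {f : A → B} (h : MeasurePreserving f μ μ') {Φ : B → ℝ} (m : Measurable Φ) :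
    ∫ a, Φ (f a) ∂μ = ∫ b, Φ b ∂μ' := by
  rw [← h.map_eq, integral_map h.measurable.aemeasurable m.aestronglyMeasurable]

lemma indep_int {V : Type} (A : Set V) {Φ Ψ : (V → L) → ℝ} (mΦ : Measurable Φ) (mΨ : Measurable Ψ)
    (hΦ : DependsOn Φ A) (hΨ : DependsOn Ψ Aᶜ) :
    ∫ y, Φ y * Ψ y ∂PP ν V = (∫ y, Φ y ∂PP ν V) * ∫ y, Ψ y ∂PP ν V := by
  classical
  rw [← int_mp (glue_mp ν A) (mΦ.fun_mul mΨ), ← integral_prod_mul]
  refine integral_congr_ae (Filter.Eventually.of_forall fun p => ?_)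
  simp only []
  rw [hΦ (y := p.1) fun i hi => piecewise_eq_of_mem _ _ _ hi,
    hΨ (y := p.2) fun i hi => piecewise_eq_of_notMem _ _ _ hi]

lemma loc_id {V W : Type} {f : V → W} {U : Set V} (hf : InjOn f U) {Φ : (V → L) → ℝ}
    (m : Measurable Φ) (h : DependsOn Φ U) :
    IdentDistrib (fun y : W → L => Φ fun v => y (f v)) Φ (PP ν W) (PP ν V) := by
  classical
  obtain ⟨l⟩ := nonempty_of_isProbabilityMeasure ν
  set e : (U → L) → V → L := fun z v => if h : v ∈ U then z ⟨v, h⟩ else l with he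
  have me : Measurable e := measurable_pi_lambda _ fun v => by
    by_cases h : v ∈ U
    · simp only [he, dif_pos h]; fun_prop
    · simp only [he, dif_neg h]; fun_prop
  have h1 := inj_mp ν (V := U) (f := fun u => f u) fun a b hab => Subtype.ext (hf a.2 b.2 hab)
  have h2 := inj_mp ν (V := U) (f := fun u => (u : V)) Subtype.val_injective
  have e1 : (fun y : W → L => Φ fun v => y (f v)) = (Φ ∘ e) ∘ fun y (u : U) => y (f u) :=
    funext fun y => h fun i hi => by simp [he, hi]
  have e2 : Φ = (Φ ∘ e) ∘ fun y (u : U) => y u := funext fun y => h fun i hi => by simp [he, hi]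
  refine ⟨(m.comp (by fun_prop)).aemeasurable, m.aemeasurable, ?_⟩
  rw [e1, ← map_map (m.comp me) h1.measurable, h1.map_eq]
  conv_rhs => rw [e2, ← map_map (m.comp me) h2.measurable, h2.map_eq]

lemma exists_quot {Γ : Type} [Group Γ] [Group.ResiduallyFinite Γ] (U : Finset Γ) :
    ∃ (Q : Type) (_ : Group Q) (_ : Fintype Q) (π : Γ →* Q), InjOn π U := by
  classical
  have : ∀ s : Finset Γ, ∃ N : FiniteIndexNormalSubgroup Γ, ∀ g ∈ s, g ≠ 1 → g ∉ N := by
    intro s
    induction s using Finset.induction_on with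
    | empty => exact ⟨.ofSubgroup ⊤, by simp⟩
    | insert a s _ ih =>
      obtain ⟨N, hN⟩ := ih
      by_cases ha : a = 1
      · exact ⟨N, fun g hg h => hN g ((Finset.mem_insert.1 hg).resolve_left (ha ▸ h)) h⟩
      obtain ⟨M, hM⟩ := Group.exists_finiteIndexNormalSubgroup_notMem a ha
      refine ⟨N ⊓ M, fun g hg h hm => ?_⟩
      rcases Finset.mem_insert.1 hg with rfl | hg
      · exact hM ((inf_le_right : N ⊓ M ≤ M) hm)
      · exact hN g hg h ((inf_le_left : N ⊓ M ≤ N) hm)
  obtain ⟨N, hN⟩ := this ((U ×ˢ U).image fun p => p.1⁻¹ * p.2)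
  refine ⟨Γ ⧸ N.toSubgroup, inferInstance, Fintype.ofFinite _, QuotientGroup.mk' _,
    fun a ha b hb h => ?_⟩
  by_contra hab
  exact hN (a⁻¹ * b) (Finset.mem_image.2 ⟨(a, b), Finset.mem_product.2 ⟨ha, hb⟩, rfl⟩)
    (fun e => hab (inv_mul_eq_one.1 e)) (QuotientGroup.eq.1 h)

lemma block0 {Γ : Type} [Group Γ] [Group.ResiduallyFinite Γ] (K D : Finset Γ)
    (hD : ∀ k ∈ K, ∀ k' ∈ K, k⁻¹ * k' ∈ D) {W : (Γ → L) → ℝ} (m : Measurable W)
    (h2 : MemLp W 2 (PP ν Γ)) (hK : DependsOn W K) (h0 : ∫ y, W y ∂PP ν Γ = 0) :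
    0 ≤ ∑ a ∈ D, ∫ y, W y * W (fun v => y (v * a)) ∂PP ν Γ := by
  classical
  obtain ⟨Q, _, _, π, hπ⟩ := exists_quot (D ∪ K ∪ (K ×ˢ D).image fun p => p.1 * p.2)
  have hKπ : InjOn π K := hπ.mono fun k hk => by simp [show k ∈ K from hk]
  set A : Q → (Q → L) → ℝ := fun p Y => W fun v => Y (π v * p) with hA
  have mA : ∀ p, Measurable (A p) := fun p => m.comp (by fun_prop)
  have iA : ∀ p, IdentDistrib (A p) W (PP ν Q) (PP ν Γ) := fun p =>
    loc_id ν (f := fun v => π v * p) (fun a ha b hb h => hKπ ha hb (mul_right_cancel h)) m hK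
  have lA : ∀ p, MemLp (A p) 2 (PP ν Q) := fun p => (iA p).symm.memLp_snd h2
  have e1 : ∀ p q, ∫ Y, A p Y * A q Y ∂PP ν Q = ∫ Y, A 1 Y * A (q * p⁻¹) Y ∂PP ν Q := fun p q => by
    rw [← int_mp (inj_mp ν (mul_left_injective p)) ((mA 1).fun_mul (mA _))]
    simp [hA, mul_assoc]
  have e2 : ∀ q, q ∉ D.image π → ∫ Y, A 1 Y * A q Y ∂PP ν Q = 0 := fun q hq => by
    rw [indep_int ν (π '' K) (mA 1) (mA q), (iA 1).integral_eq, h0, zero_mul]
    · exact fun Y Y' h => hK fun k hk => h _ (by simpa using ⟨k, hk, rfl⟩)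
    · refine fun Y Y' h => hK fun k hk => h _ ?_
      rintro ⟨k', hk', e⟩
      exact hq (Finset.mem_image.2 ⟨_, hD k hk k' hk', by simp [e]⟩)
  have e3 : ∀ a ∈ D, ∫ Y, A 1 Y * A (π a) Y ∂PP ν Q =
      ∫ y, W y * W (fun v => y (v * a)) ∂PP ν Γ := fun a ha => by
    rw [← (loc_id ν hπ (Φ := fun y => W y * W fun v => y (v * a)) (m.mul (m.comp (by fun_prop)))
      fun y y' h => ?_).integral_eq]
    · simp [hA]
    · simp only []
      rw [hK (y := y') fun k hk => h k (by simp [show k ∈ K from hk]),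
        hK (y := fun v => y' (v * a)) fun k hk => h _ ?_]
      simp only [Finset.coe_union, Finset.coe_image, mem_union]
      exact Or.inr ⟨(k, a), by simpa using ⟨hk, ha⟩, rfl⟩
  have e4 : ∫ Y, (∑ p, A p Y) * (∑ p, A p Y) ∂PP ν Q =
      Fintype.card Q * ∑ a ∈ D, ∫ y, W y * W (fun v => y (v * a)) ∂PP ν Γ := by
    simp only [Finset.sum_mul_sum]
    have hi : ∀ p q, Integrable (fun Y => A p Y * A q Y) (PP ν Q) := fun p q =>
      (lA p).integrable_mul (lA q)
    rw [integral_finsetSum _ fun p _ => integrable_finsetSum _ fun q _ => hi p q, ← nsmul_eq_mul, ← Finset.card_univ, ← Finset.sum_const]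
    refine Finset.sum_congr rfl fun p _ => ?_
    rw [integral_finsetSum _ fun q _ => hi p q]
    simp only [e1 p]
    refine (Equiv.sum_comp (Equiv.mulRight p⁻¹) fun q => ∫ Y, A 1 Y * A q Y ∂PP ν Q).trans ?_
    rw [← Finset.sum_subset (Finset.subset_univ (D.image π)) fun q _ hq => e2 q hq,
      Finset.sum_image (hπ.mono fun k hk => by simp [show k ∈ D from hk])]
    exact Finset.sum_congr rfl e3
  have : 0 ≤ ∫ Y, (∑ p, A p Y) * (∑ p, A p Y) ∂PP ν Q := integral_nonneg fun Y => mul_self_nonneg _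
  rw [e4] at this
  exact (mul_nonneg_iff_of_pos_left (by exact_mod_cast Fintype.card_pos)).1 this

theorem block {Γ : Type} [Group Γ] [Group.ResiduallyFinite Γ] (K D : Finset Γ)
    (hD : ∀ k ∈ K, ∀ k' ∈ K, k⁻¹ * k' ∈ D) {W : (Γ → L) → ℝ} (m : Measurable W)
    (h2 : MemLp W 2 (PP ν Γ)) (hK : DependsOn W K) :
    0 ≤ ∑ a ∈ D, ∫ y, W y * W (fun v => y (v * a)) ∂PP ν Γ := by
  set c := ∫ y, W y ∂PP ν Γ with hc
  have hi := h2.integrable one_le_two
  refine (block0 ν K D hD (W := fun y => W y - c) (m.sub_const c) (h2.sub (memLp_const c))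
    (fun y y' h => by simp only [hK h]) ?_).trans (Finset.sum_le_sum fun a _ => ?_)
  · rw [integral_sub hi (integrable_const c)]
    simp [hc]
  · have mp := inj_mp ν (mul_left_injective a)
    have h3 : MemLp (fun y : Γ → L => W fun v => y (v * a)) 2 (PP ν Γ) :=
      h2.comp_measurePreserving mp
    have h4 := covariance_eq_sub h2 h3
    rw [covariance, int_mp mp m, ← hc] at h4
    simp only [Pi.mul_apply] at h4
    nlinarith [mul_self_nonneg c]

lemma localize {V S : Type} [MeasurableSpace S] [MeasurableEq S] (K : Set V) [DecidablePred (· ∈ K)]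
    {f : (V → L) → S} (m : Measurable f) (l : V → L) :
    ∃ G : Set (V → L), MeasurableSet G ∧ DependsOn (· ∈ G) K ∧
      {y | ∀ y', (∀ u ∈ K, y' u = y u) → f y' = f y} ⊆ G ∧
      ∀ᵐ y ∂PP ν V, y ∈ G → f (K.piecewise y l) = f y := by
  set E : Set (V → L) := {y | f (K.piecewise y l) = f y} with hE
  have mE : MeasurableSet E :=
    measurableSet_eq_fun (m.comp ((glue_meas K).comp (measurable_id.prodMk measurable_const))) m
  set G : Set (V → L) := {y | PP ν V {y' | K.piecewise y y' ∉ E} = 0} with hG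
  have mG : MeasurableSet G :=
    measurable_measure_prodMk_left (ν := PP ν V) (glue_meas K mE.compl) (measurableSet_singleton 0)
  have dG : DependsOn (· ∈ G) K := fun y y' h => by
    have : ∀ z, K.piecewise y z = K.piecewise y' z := fun z => funext fun i => by
      by_cases hi : i ∈ K
      · simp [hi, h i hi]
      · simp [hi]
    simp only [hG, mem_ofPred_eq, this]
  refine ⟨G, mG, dG, fun y hy => ?_, ?_⟩
  · have : {y' | K.piecewise y y' ∉ E} = ∅ := by
      refine eq_empty_of_forall_notMem fun y' h => h ?_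
      exact (hy _ fun u hu => by simp [hu]).trans (hy _ fun u hu => by simp [hu]).symm
    simp only [hG, mem_ofPred_eq] at this ⊢
    rw [this, measure_empty]
  · have ms : MeasurableSet {y | y ∈ G → y ∈ E} := mG.imp mE
    rw [← (glue_mp ν K).map_eq]
    refine (ae_map_iff (glue_meas K).aemeasurable ms).2 ?_
    refine (ae_prod_iff_ae_ae (glue_meas K ms)).2 (Filter.Eventually.of_forall fun y => ?_)
    by_cases h : y ∈ G
    · have h : ∀ᵐ y' ∂PP ν V, K.piecewise y y' ∈ E := h
      filter_upwards [h] with y' h' _ using h'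
    · refine Filter.Eventually.of_forall fun y' h' => absurd ?_ h
      exact (dG (x := K.piecewise y y') (y := y) fun i hi => piecewise_eq_of_mem _ _ _ hi).mp h'

end Pool.Agent.H43.Fd
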