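import Pool.Agent.H43.Fd1

/-! Centered Gaussian processes with prescribed covariance. -/

set_option autoImplicit false

namespace Pool.Agent.H43.Fd

open MeasureTheory ProbabilityTheory Measure Set Filter Topology

variable {T S Ω : Type} [MeasurableSpace Ω] {P : Measure Ω} {X Y : T → Ω → ℝ} {c : T → T → ℝ}

structure GP (X : T → Ω → ℝ) (P : Measure Ω) (c : T → T → ℝ) : Prop where
  gp : IsGaussianProcess X P
  meas : ∀ t, Measurable (X t)
  mean : ∀ t, ∫ ω, X t ω ∂P = 0
  cov : ∀ s t, cov[X s, X t; P] = c s t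

lemma GP.l2 (h : GP X P c) (t : T) : MemLp (X t) 2 P := (h.gp.hasGaussianLaw_eval t).memLp_two

lemma GP.reindex (h : GP X P c) (f : S → T) :
    GP (fun s => X (f s)) P fun s t => c (f s) (f t) :=
  ⟨h.gp.comp_right f, fun _ => h.meas _, fun _ => h.mean _, fun _ _ => h.cov _ _⟩

lemma GP.chf (h : GP X P c) (I : Finset T) (L : StrongDual ℝ (I → ℝ)) [DecidableEq I] :
    charFunDual (P.map fun ω => I.restrict (X · ω)) L = Complex.exp
      (-(∑ i : I, ∑ j : I, L (Pi.single j 1) * L (Pi.single i 1) * c i j : ℝ) / 2) := by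
  have := h.gp.isProbabilityMeasure
  have e : (L ∘ fun ω => I.restrict (X · ω)) = fun ω => ∑ i : I, L (Pi.single i 1) * X i ω := by
    funext ω
    simp only [Function.comp]
    conv_lhs => rw [pi_eq_sum_univ' (I.restrict (X · ω))]
    simp [mul_comm]
  have l : ∀ i : I, MemLp (fun ω => L (Pi.single i 1) * X i ω) 2 P := fun i => (h.l2 i).const_mul _
  rw [(h.gp.hasGaussianLaw I).charFunDual_map_eq, e,
    ← covariance_self (memLp_finsetSum _ fun i _ => l i).aemeasurable,
    covariance_fun_sum_fun_sum l l, integral_finsetSum _ fun i _ => (l i).integrable one_le_two]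
  simp only [integral_const_mul, h.mean, covariance_const_mul_left, covariance_const_mul_right,
    h.cov, mul_assoc]
  simp [neg_div]

lemma GP.ext (h : GP X P c) (h' : GP Y P c) :
    P.map (fun ω t => X t ω) = P.map (fun ω t => Y t ω) := by
  classical
  have := h.gp.isProbabilityMeasure
  refine (map_eq_iff_forall_finset_map_restrict_eq (measurable_pi_lambda _ h.meas).aemeasurable
    (measurable_pi_lambda _ h'.meas).aemeasurable).2 fun I => ?_
  refine Measure.ext_of_charFunDual (funext fun L => ?_)
  rw [h.chf, h'.chf]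

lemma gp_iff {Ω' : Type} [MeasurableSpace Ω'] {P' : Measure Ω'} {F : Ω' → Ω}
    (hF : MeasurePreserving F P' P) (m : ∀ t, Measurable (X t)) :
    GP X P c ↔ GP (fun t ω => X t (F ω)) P' c := by
  have e1 : ∀ I : Finset T, P'.map (fun ω => I.restrict fun t => X t (F ω)) =
      P.map fun ω => I.restrict (X · ω) := fun I => by
    rw [← hF.map_eq]
    exact (map_map (g := fun ω => I.restrict (X · ω)) (measurable_pi_lambda _ fun i => m i)
      hF.measurable).symm
  have e2 : ∀ t, ∫ ω, X t (F ω) ∂P' = ∫ ω, X t ω ∂P := fun t => int_mp hF (m t)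
  have e3 : ∀ s t, cov[fun ω => X s (F ω), fun ω => X t (F ω); P'] = cov[X s, X t; P] :=
    fun s t => by
      rw [← hF.map_eq, covariance_map_fun (m s).aestronglyMeasurable (m t).aestronglyMeasurable
        hF.measurable.aemeasurable]
  constructor
  · exact fun h => ⟨⟨fun I => ⟨(e1 I).symm ▸ (h.gp.hasGaussianLaw I).isGaussian_map⟩⟩,
      fun t => (m t).comp hF.measurable, fun t => (e2 t).trans (h.mean t),
      fun s t => (e3 s t).trans (h.cov s t)⟩
  · exact fun h => ⟨⟨fun I => ⟨e1 I ▸ (h.gp.hasGaussianLaw I).isGaussian_map⟩⟩, m,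
      fun t => (e2 t).symm.trans (h.mean t), fun s t => (e3 s t).symm.trans (h.cov s t)⟩

lemma GP.indep (h : GP X P c) {S' : Type} (f : S → T) (g : S' → T) (h0 : ∀ s t, c (f s) (g t) = 0) :
    IndepFun (fun ω s => X (f s) ω) (fun ω s => X (g s) ω) P := by
  refine IsGaussianProcess.indepFun_of_covariance_eq_zero ?_ (fun _ => (h.meas _).aemeasurable)
    (fun _ => (h.meas _).aemeasurable) fun s t => (h.cov _ _).trans (h0 s t)
  have := h.gp.comp_right (Sum.elim f g)
  refine this.congr fun t => Eventually.of_forall fun ω => ?_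
  cases t <;> rfl

lemma white [DecidableEq T] : GP (fun (t : T) (z : T → ℝ) => z t) (PP (gaussianReal 0 1) T)
    fun s t => if s = t then 1 else 0 := by
  have hi : iIndepFun (fun (t : T) (z : T → ℝ) => z t) (PP (gaussianReal 0 1) T) :=
    iIndepFun_infinitePi (X := fun _ x => x) fun _ => measurable_id
  have hl : ∀ t : T, HasLaw (fun z : T → ℝ => z t) (gaussianReal 0 1) (PP (gaussianReal 0 1) T) :=
    fun t => (measurePreserving_eval_infinitePi (fun _ : T => gaussianReal 0 1) t).hasLaw
  have l2 := fun t => (hl t).hasGaussianLaw.memLp_two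
  refine ⟨⟨fun I => (hi.precomp (g := fun i : I => (i : T)) Subtype.val_injective).hasGaussianLaw
    fun i => (hl i).hasGaussianLaw⟩, fun t => measurable_pi_apply t, fun t => ?_, fun s t => ?_⟩
  · rw [(hl t).integral_eq, integral_id_gaussianReal]
  · split_ifs with e
    · subst e
      rw [covariance_self (hl s).aemeasurable, (hl s).variance_eq, variance_id_gaussianReal]
      simp
    · exact (hi.indepFun e).covariance_eq_zero (l2 s) (l2 t)

lemma GP.lin (h : GP X P c) (N : S → Finset T) (B : S → T → ℝ) :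
    GP (fun s ω => ∑ t ∈ N s, B s t * X t ω) P
      fun s s' => ∑ t ∈ N s, ∑ t' ∈ N s', B s' t' * (B s t * c t t') := by
  have := h.gp.isProbabilityMeasure
  have l : ∀ s t, MemLp (fun ω => B s t * X t ω) 2 P := fun s t => (h.l2 t).const_mul _
  refine ⟨h.gp.of_isGaussianProcess fun s => ⟨N s, ∑ t : N s, B s t • ContinuousLinearMap.proj t,
    fun ω => ?_⟩, fun s => Finset.measurable_sum _ fun t _ => (h.meas t).const_mul _, fun s => ?_,
    fun s s' => ?_⟩
  · rw [← Finset.sum_coe_sort]
    simp
  · rw [integral_finsetSum _ fun i _ => (l s i).integrable one_le_two]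
    simp [integral_const_mul, h.mean]
  · rw [covariance_fun_sum_fun_sum' (fun i _ => l s i) fun i _ => l s' i]
    simp only [covariance_const_mul_left, covariance_const_mul_right, h.cov]

lemma GP.avg (h : GP X P c) (f : ℕ → Bool → T) (h1 : ∀ n b b', c (f n b) (f n b') = c (f 0 b) (f 0 b'))
    (h2 : ∀ n m, n ≠ m → ∀ b b', c (f n b) (f m b') = 0) (A : Set Ω) :
    Tendsto (fun N : ℕ => (N : ℝ)⁻¹ * ∑ n ∈ Finset.range N,
      ∫ ω in A, X (f n true) ω * X (f n false) ω ∂P) atTop
      (𝓝 (P.real A * c (f 0 true) (f 0 false))) := by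
  have := h.gp.isProbabilityMeasure
  have mm : Measurable fun x : Bool → ℝ => x true * x false := by fun_prop
  have hi : ∀ n, Integrable (fun ω => X (f n true) ω * X (f n false) ω) P := fun n =>
    (h.l2 _).integrable_mul (h.l2 _)
  have mv : ∀ n, Measurable fun ω b => X (f n b) ω := fun n =>
    measurable_pi_lambda _ fun _ => h.meas _
  have s := strong_law_Lp (μ := P) le_rfl ENNReal.one_ne_top
    (fun n ω => X (f n true) ω * X (f n false) ω) (memLp_one_iff_integrable.2 (hi 0))
    (fun n m hnm => (h.indep (f n) (f m) (h2 n m hnm)).comp mm mm) fun n =>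
      IdentDistrib.comp (u := fun x : Bool → ℝ => x true * x false)
        ⟨(mv n).aemeasurable, (mv 0).aemeasurable, (h.reindex (f n)).ext (by
          simp only [h1 n]; exact h.reindex (f 0))⟩ mm
  have e : ∫ ω, X (f 0 true) ω * X (f 0 false) ω ∂P = c (f 0 true) (f 0 false) := by
    rw [← h.cov, covariance_eq_sub (h.l2 _) (h.l2 _), h.mean, zero_mul, sub_zero]
    rfl
  rw [e] at s
  have := tendsto_setIntegral_of_L1' (μ := P) (fun _ => c (f 0 true) (f 0 false))
    aestronglyMeasurable_const (F := fun (N : ℕ) ω => (N : ℝ)⁻¹ • ∑ n ∈ Finset.range N,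
      X (f n true) ω * X (f n false) ω) (Eventually.of_forall fun N =>
        (integrable_finsetSum _ fun n _ => hi n).smul (N : ℝ)⁻¹) s A
  rw [setIntegral_const, smul_eq_mul] at this
  refine this.congr fun N => ?_
  rw [integral_smul, integral_finsetSum _ fun n _ => (hi n).integrableOn, smul_eq_mul]

end Pool.Agent.H43.Fd
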