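import Pool.Agent.H43.Fd2

/-! Rooted trees, the Cayley tree of the free group, a 1-dependent Gaussian process. -/

set_option autoImplicit false

namespace Pool.Agent.H43.Fd

open MeasureTheory ProbabilityTheory Measure Set SimpleGraph

structure RT {V : Type} (G : SimpleGraph V) (o : V) (par : V → V) (h : V → ℕ) : Prop where
  adj : ∀ u v, G.Adj u v ↔ (u ≠ o ∧ par u = v) ∨ (v ≠ o ∧ par v = u)
  ht : ∀ u, u ≠ o → h (par u) + 1 = h u

section
variable {V : Type} {G : SimpleGraph V} {o : V} {par : V → V} {h : V → ℕ}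

lemma RT.isTree (R : RT G o par h) : G.IsTree := by
  have c : ∀ n u, h u = n → G.Reachable u o := fun n => by
    induction n using Nat.strong_induction_on with
    | _ n ih =>
      intro u hu
      by_cases e : u = o
      · rw [e]
      · exact ((R.adj _ _).2 (Or.inl ⟨e, rfl⟩)).reachable.trans
          (ih _ (by have := R.ht u e; omega) _ rfl)
  have : Nonempty V := ⟨o⟩
  refine ⟨⟨fun u v => (c _ u rfl).trans (c _ v rfl).symm⟩, ?_⟩
  have key : ∀ v, v ≠ o → ¬(G.deleteEdges {s(v, par v)}).Reachable v (par v) := fun v hv hr => by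
    have : ∀ w, (G.deleteEdges {s(v, par v)}).Reachable v w →
        ∃ k, h w = h v + k ∧ par^[k] w = v := fun w hw => by
      rw [reachable_iff_reflTransGen] at hw
      induction hw with
      | refl => exact ⟨0, rfl, rfl⟩
      | tail _ ha ih =>
        obtain ⟨k, h1, h2⟩ := ih
        rw [deleteEdges_adj] at ha
        rcases (R.adj _ _).1 ha.1 with ⟨e, rfl⟩ | ⟨e, rfl⟩
        · rcases k with _ | k
          · rw [Function.iterate_zero_apply] at h2
            exact absurd (by rw [h2]; rfl) ha.2
          · exact ⟨k, by have := R.ht _ e; omega, h2⟩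
        · exact ⟨k + 1, by have := R.ht _ e; omega, h2⟩
    obtain ⟨k, h1, -⟩ := this _ hr
    have := R.ht v hv
    omega
  refine isAcyclic_iff_forall_adj_isBridge.2 fun u v ha => ?_
  rcases (R.adj _ _).1 ha with ⟨e, rfl⟩ | ⟨e, rfl⟩
  · exact isBridge_iff.2 (key u e)
  · rw [Sym2.eq_swap]
    exact isBridge_iff.2 (key v e)

lemma RT.le_dist (R : RT G o par h) (u v : V) : h v ≤ h u + G.dist u v := by
  obtain ⟨p, hp⟩ := R.isTree.connected.exists_walk_length_eq_dist u v
  rw [← hp]
  clear hp
  induction p with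
  | nil => simp
  | cons ha p ih =>
    rw [Walk.length_cons]
    rcases (R.adj _ _).1 ha with ⟨e, rfl⟩ | ⟨e, rfl⟩
    · have := R.ht _ e; omega
    · have := R.ht _ e; omega

open Classical in
/-- covariance -/
noncomputable def cv (G : SimpleGraph V) (s t : V × ℕ) : ℝ :=
  if s.2 = t.2 then (if s.1 = t.1 then 52 else if G.Adj s.1 t.1 then -15 else 0) else 0

theorem RT.exists_gp (R : RT G o par h) (hd : ∀ v, (G.neighborSet v).ncard = 4) :
    ∃ X : V × ℕ → (V × ℕ → ℝ) → ℝ, GP X (PP (gaussianReal 0 1) (V × ℕ)) (cv G) := by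
  classical
  have fin : ∀ v, (G.neighborSet v).Finite := fun v => finite_of_ncard_ne_zero (by simp [hd])
  set ch : V → Finset V := fun u => (fin u).toFinset.filter fun w => w ≠ o ∧ par w = u with hch
  have mch : ∀ u w, w ∈ ch u ↔ w ≠ o ∧ par w = u := fun u w => by
    simp only [hch, Finset.mem_filter, Finite.mem_toFinset, mem_neighborSet, R.adj]
    tauto
  have hh : ∀ u w, w ∈ ch u → h w = h u + 1 := fun u w hw => by
    obtain ⟨e, rfl⟩ := (mch u w).1 hw
    exact (R.ht w e).symm
  have nu : ∀ u, u ∉ ch u := fun u hu => by have := hh u u hu; omega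
  have card : ∀ u, (ch u).card = if u = o then 4 else 3 := fun u => by
    have := hd u
    rw [ncard_eq_toFinset_card _ (fin u)] at this
    split_ifs with e
    · rw [← this]
      congr 1
      ext w
      simp [mch, R.adj, e]
    · have h1 : (fin u).toFinset = insert (par u) (ch u) := by
        ext w
        simp [mch, R.adj, e, eq_comm]
      rw [h1, Finset.card_insert_of_notMem fun hw => by
        have := hh _ _ hw; have := R.ht u e; omega] at this
      omega
  set β : V → V → ℝ := fun u w => if w = u then (if u = o then 4 else 5) else -3 with hβ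
  have := (white (T := V × ℕ)).lin (fun s : V × ℕ => insert s.1 (ch s.1) ×ˢ {s.2})
    fun s t => β s.1 t.1
  refine ⟨_, this.gp, this.meas, this.mean, fun ⟨u, n⟩ ⟨v, m⟩ => (this.cov _ _).trans ?_⟩
  simp only [mul_ite, mul_one, mul_zero, Finset.sum_ite_eq, Finset.sum_product,
    Finset.sum_singleton, Finset.mem_product, Finset.mem_singleton, cv]
  by_cases e : n = m
  swap
  · simp [e]
  simp only [e, and_true, if_true]
  rw [Finset.sum_insert (nu u)]
  by_cases e : u = v
  · subst e
    rw [Finset.sum_congr rfl (g := fun _ => 9) fun w hw => by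
      have : w ≠ u := fun e => nu u (e ▸ hw)
      simp [hw, hβ, this]; norm_num]
    simp only [Finset.sum_const, card, hβ, Finset.mem_insert, true_or, if_true]
    split_ifs <;> norm_num
  · rw [Finset.sum_congr rfl (g := fun w => if w = v then -15 else 0) fun w hw => by
      have h1 : w ≠ u := fun e => nu u (e ▸ hw)
      have h2 := (mch u w).1 hw
      have h3 : w ∉ ch v := fun h => e (h2.2.symm.trans ((mch v w).1 h).2)
      by_cases e' : w = v
      · subst e'
        simp [hβ, h1, h2.1]; norm_num
      · simp [e', h3], Finset.sum_ite_eq', R.adj, ← mch, ← mch]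
    simp only [Finset.mem_insert, e, false_or, if_false]
    by_cases h1 : u ∈ ch v
    · have h2 : v ∉ ch u := fun h2 => by have := hh _ _ h1; have := hh _ _ h2; omega
      simp [h1, h2, hβ, e, ((mch _ _).1 h1).1]; norm_num
    · simp [h1]

end

open FreeGroup

abbrev F2 := FreeGroup (Fin 2)

/-- Cayley graph -/
def Cay : SimpleGraph F2 where
  Adj g g' := ∃ l, g' = mk [l] * g
  symm := ⟨by
    rintro g _ ⟨l, rfl⟩
    exact ⟨(l.1, !l.2), by rw [show mk [(l.1, !l.2)] = (mk [l])⁻¹ from rfl, inv_mul_cancel_left]⟩⟩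
  loopless := ⟨by
    rintro g ⟨l, h⟩
    have := congrArg toWord (right_eq_mul.1 h)
    simp [reduce_singleton] at this⟩

lemma tw (l : Fin 2 × Bool) (g : F2) :
    (mk [l] * g).toWord = l :: g.toWord ∨ ∃ a, g.toWord = a :: (mk [l] * g).toWord := by
  have : (mk [l] * g).toWord = reduce (l :: g.toWord) := by rw [toWord_mul]; rfl
  rw [this, reduce.cons, reduce_toWord]
  rcases g.toWord with _ | ⟨a, t⟩
  · exact Or.inl rfl
  · simp only []
    split_ifs
    · exact Or.inr ⟨a, rfl⟩
    · exact Or.inl rfl

lemma cay_rt : RT Cay 1 (fun g => mk g.toWord.tail) fun g => g.toWord.length := by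
  have k : ∀ g : F2, g ≠ 1 → Cay.Adj (mk g.toWord.tail) g := fun g hg => by
    obtain ⟨a, t, e⟩ := List.exists_cons_of_ne_nil (toWord_eq_nil_iff.not.2 hg)
    exact ⟨a, by rw [e, ← mk_toWord (x := g), e]; rfl⟩
  refine ⟨fun u v => ⟨?_, ?_⟩, fun u hu => ?_⟩
  · rintro ⟨l, rfl⟩
    rcases tw l u with e | ⟨a, e⟩
    · exact Or.inr ⟨toWord_eq_nil_iff.not.1 (by simp [e]), by simp [e, mk_toWord]⟩
    · exact Or.inl ⟨toWord_eq_nil_iff.not.1 (by rw [e]; simp), by rw [e]; exact mk_toWord⟩
  · rintro (⟨e, rfl⟩ | ⟨e, rfl⟩)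
    · exact (k u e).symm
    · exact k v e
  · obtain ⟨a, t, e⟩ := List.exists_cons_of_ne_nil (toWord_eq_nil_iff.not.2 hu)
    have : IsReduced (a :: t) := e ▸ isReduced_toWord
    simp only [e, List.tail_cons, toWord_mk, List.length_cons]
    rw [IsReduced.reduce_eq (L := t) (List.IsChain.tail this)]

lemma cay_deg (g : F2) : (Cay.neighborSet g).ncard = 4 := by
  have : Cay.neighborSet g = (fun l => mk [l] * g) '' univ := by
    ext v
    simp [Cay, eq_comm]
  rw [this, ncard_image_of_injective _ fun a b e => by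
    simpa [reduce_singleton] using congrArg toWord (mul_right_cancel e)]
  simp [ncard_univ]

/-- right translations -/
def rt (a : F2) : Cay ≃g Cay := ⟨Equiv.mulRight a, by simp [Cay, ← mul_assoc]⟩

end Pool.Agent.H43.Fd
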