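import Pool.Agent.H43.Fd3
import Pool.Agent.H65.RaagRF

/-! A 1-dependent invariant process on the 4-regular tree which is not a finitary factor. -/

set_option autoImplicit false

namespace Pool.Agent.H43.Fd

open MeasureTheory ProbabilityTheory Set Filter Topology

theorem core {L : Type} [MeasurableSpace L] (ν : Measure L) [IsProbabilityMeasure ν]
    (F : (F2 → L) → F2 → ℕ → ℝ) (mF : Measurable F)
    (hG : GP (fun (t : F2 × ℕ) y => F y t.1 t.2) (PP ν F2) (cv Cay))
    (he : ∀ a, ∀ᵐ y ∂PP ν F2, F (fun v => y (v * a)) = fun v => F y (v * a))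
    (hf : ∀ᵐ y ∂PP ν F2, ∃ r : ℕ, ∀ y' : F2 → L, (∀ u, Cay.dist 1 u ≤ r → y' u = y u) →
      F y' 1 = F y 1) : False := by
  classical
  obtain ⟨l⟩ := nonempty_of_isProbabilityMeasure ν
  set Dr : ℕ → Set (F2 → L) := fun r =>
    {y | ∀ y', (∀ u ∈ {u | Cay.dist 1 u ≤ r}, y' u = y u) → F y' 1 = F y 1} with hDr
  have mono : Monotone Dr := fun r s hrs y hy y' h => hy y' fun u hu => h u (le_trans hu hrs)
  have t := tendsto_measure_iUnion_atTop (μ := PP ν F2) mono
  have h1 : PP ν F2 (⋃ r, Dr r) = 1 := le_antisymm prob_le_one (by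
    rw [← measure_univ (μ := PP ν F2)]
    refine measure_mono_ae ?_
    filter_upwards [hf] with y hy _ using mem_iUnion.2 hy)
  rw [h1] at t
  obtain ⟨r, hr⟩ := (t.eventually (lt_mem_nhds
    (show ENNReal.ofReal (29 / 30) < 1 by rw [ENNReal.ofReal_lt_one]; norm_num))).exists
  have fK : {u | Cay.dist 1 u ≤ r}.Finite :=
    ((List.finite_length_le (Fin 2 × Bool) r).preimage FreeGroup.toWord_injective.injOn).subset
      fun u hu => by simpa using (cay_rt.le_dist 1 u).trans (by simpa using hu)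
  have m1 : Measurable fun y => F y 1 := (measurable_pi_apply 1).comp mF
  obtain ⟨G, mG, dG, sG, aG⟩ := localize ν {u | Cay.dist 1 u ≤ r} m1 fun _ => l
  have pG : (PP ν F2).real Gᶜ ≤ 1 / 30 := by
    rw [probReal_compl_eq_one_sub mG]
    have := (ENNReal.ofReal_lt_iff_lt_toReal (by norm_num) (measure_ne_top _ _)).1
      (hr.trans_le (measure_mono sG))
    rw [← measureReal_def] at this
    linarith
  set W : ℕ → (F2 → L) → ℝ := fun n =>
    G.indicator fun y => F ({u | Cay.dist 1 u ≤ r}.piecewise y fun _ => l) 1 n with hW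
  have mW : ∀ n, Measurable (W n) := fun n => Measurable.indicator ((measurable_pi_apply n).comp
    (m1.comp ((glue_meas _).comp (measurable_id.prodMk measurable_const)))) mG
  have aW : ∀ᵐ y ∂PP ν F2, ∀ n, W n y = G.indicator (fun y => F y 1 n) y := by
    filter_upwards [aG] with y hy n
    by_cases h : y ∈ G
    · simp only [hW, indicator_of_mem h, hy h]
    · simp only [hW, indicator_of_notMem h]
  have lW : ∀ n, MemLp (W n) 2 (PP ν F2) := fun n =>
    ((hG.l2 (1, n)).indicator mG).ae_eq (by filter_upwards [aW] with y hy using (hy n).symm)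
  have dW : ∀ n, DependsOn (W n) fK.toFinset := fun n y y' h => by
    have h : ∀ i ∈ {u | Cay.dist 1 u ≤ r}, y i = y' i := by simpa using h
    have e : {u | Cay.dist 1 u ≤ r}.piecewise y (fun _ => l) =
        {u | Cay.dist 1 u ≤ r}.piecewise y' fun _ => l := funext fun i => by
      by_cases hi : i ∈ {u | Cay.dist 1 u ≤ r}
      · rw [piecewise_eq_of_mem _ _ _ hi, piecewise_eq_of_mem _ _ _ hi, h i hi]
      · rw [piecewise_eq_of_notMem _ _ _ hi, piecewise_eq_of_notMem _ _ _ hi]
    have e2 : (y ∈ G) = (y' ∈ G) := dG h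
    simp only [hW, indicator, e, e2]
  have fN : (Cay.neighborSet 1).Finite := finite_of_ncard_ne_zero (by simp [cay_deg])
  set D := insert 1 fN.toFinset ∪ (fK.toFinset ×ˢ fK.toFinset).image fun p => p.1⁻¹ * p.2 with hD
  set A : F2 → Set (F2 → L) := fun a => G ∩ (fun y v => y (v * a)) ⁻¹' G with hA
  have mp := fun a : F2 => inj_mp ν (mul_left_injective a)
  have b : ∀ n, 0 ≤ ∑ a ∈ D, ∫ y in A a, F y 1 n * F y a n ∂PP ν F2 := fun n => by
    refine (block ν fK.toFinset D (fun k hk k' hk' => Finset.mem_union_right _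
      (Finset.mem_image.2 ⟨(k, k'), Finset.mem_product.2 ⟨hk, hk'⟩, rfl⟩)) (mW n) (lW n)
      (dW n)).trans (le_of_eq (Finset.sum_congr rfl fun a _ => ?_))
    rw [← integral_indicator (mG.inter ((mp a).measurable mG))]
    refine integral_congr_ae ?_
    filter_upwards [aW, (mp a).quasiMeasurePreserving.ae aW, he a] with y h1 h2 h3
    rw [h1, h2]
    by_cases c1 : y ∈ G <;> by_cases c2 : (fun v => y (v * a)) ∈ G <;> simp [c1, c2, h3]
  have lim := tendsto_finsetSum D fun a _ => hG.avg (fun n c => (cond c 1 a, n))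
    (fun n c c' => by simp [cv]) (fun n m h c c' => by simp [cv, h]) (A a)
  have pos := ge_of_tendsto' lim fun N => by
    rw [← Finset.mul_sum, Finset.sum_comm]
    exact mul_nonneg (by positivity) (Finset.sum_nonneg fun n _ => b n)
  have n1 : (1 : F2) ∉ fN.toFinset := by simp
  rw [← Finset.sum_subset Finset.subset_union_left fun a _ ha => by
    simp only [Finset.mem_insert, Finite.mem_toFinset, SimpleGraph.mem_neighborSet, not_or] at ha
    simp [cv, ha.2, Ne.symm ha.1], Finset.sum_insert n1] at pos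
  have s := Finset.sum_le_card_nsmul fN.toFinset
    (fun a => (PP ν F2).real (A a) * cv Cay (cond true 1 a, 0) (cond false 1 a, 0)) (-14)
    fun a ha => by
      have ha : Cay.Adj 1 a := by simpa using ha
      have h1 := probReal_compl_eq_one_sub (μ := PP ν F2) (mG.inter ((mp a).measurable mG))
      have h2 := measureReal_union_le (μ := PP ν F2) Gᶜ ((fun y v => y (v * a)) ⁻¹' Gᶜ)
      rw [(mp a).measureReal_preimage mG.compl.nullMeasurableSet, preimage_compl,
        ← compl_inter, h1] at h2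
      simp only [cv, cond_true, cond_false, if_true, if_neg ha.ne, if_pos ha, hA]
      linarith
  rw [← ncard_eq_toFinset_card _ fN, cay_deg] at s
  have h3 : (PP ν F2).real (A 1) ≤ 1 := measureReal_le_one
  simp only [cv, cond_true, cond_false, if_true, nsmul_eq_mul] at s pos
  norm_num at s pos
  linarith

theorem exists_mu : ∃ μ : Measure (F2 → ℕ → ℝ), IsProbabilityMeasure μ ∧
    (∀ φ : Cay ≃g Cay, μ.map (fun x v => x (φ v)) = μ) ∧
    (∀ A B : Set F2, (∀ a ∈ A, ∀ b ∈ B, 1 < Cay.dist a b) →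
      Indep (MeasurableSpace.comap (fun (x : F2 → ℕ → ℝ) (a : A) => x a) inferInstance)
        (MeasurableSpace.comap (fun (x : F2 → ℕ → ℝ) (b : B) => x b) inferInstance) μ) ∧
    ∀ (L : Type) [MeasurableSpace L] (ν : Measure L) [IsProbabilityMeasure ν]
      (F : (F2 → L) → F2 → ℕ → ℝ), Measurable F → (PP ν F2).map F = μ →
      (∀ φ : Cay ≃g Cay, ∀ᵐ y ∂PP ν F2, F (fun v => y (φ v)) = fun v => F y (φ v)) →
      ¬∀ᵐ y ∂PP ν F2, ∀ v, ∃ r : ℕ, ∀ y' : F2 → L, (∀ u, Cay.dist v u ≤ r → y' u = y u) →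
        F y' v = F y v := by
  obtain ⟨X, hX⟩ := cay_rt.exists_gp cay_deg
  have mX : Measurable fun ω v n => X (v, n) ω :=
    measurable_pi_lambda _ fun v => measurable_pi_lambda _ fun n => hX.meas _
  set μ := (PP (gaussianReal 0 1) (F2 × ℕ)).map fun ω v n => X (v, n) ω with hμ
  have mc : ∀ t : F2 × ℕ, Measurable fun x : F2 → ℕ → ℝ => x t.1 t.2 := fun t => by fun_prop
  have g : GP (fun (t : F2 × ℕ) (x : F2 → ℕ → ℝ) => x t.1 t.2) μ (cv Cay) :=
    (gp_iff ⟨mX, rfl⟩ mc).2 hX
  have cu : ∀ A : Type, Measurable fun (z : A × ℕ → ℝ) (a : A) (n : ℕ) => z (a, n) := fun A => by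
    fun_prop
  refine ⟨μ, g.gp.isProbabilityMeasure, fun φ => ?_, fun A B h => ?_, fun L _ ν _ F mF h1 h2 h3 =>
    core ν F mF ((gp_iff ⟨mF, h1⟩ mc).1 g) (fun a => h2 (rt a)) (h3.mono fun y hy => hy 1)⟩
  · have e := congrArg (Measure.map fun (z : F2 × ℕ → ℝ) (a : F2) (n : ℕ) => z (a, n))
      ((g.reindex fun t : F2 × ℕ => (φ t.1, t.2)).ext (Y := fun t x => x t.1 t.2) (by
        refine ⟨g.gp, g.meas, g.mean, fun s t => (g.cov s t).trans ?_⟩
        have e : Cay.Adj (φ s.1) (φ t.1) ↔ Cay.Adj s.1 t.1 := φ.map_adj_iff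
        by_cases c : Cay.Adj s.1 t.1
        · simp [cv, c, e.2 c]
        · simp [cv, c, e.not.2 c]))
    rw [Measure.map_map (cu _) (by fun_prop), Measure.map_map (cu _) (by fun_prop)] at e
    exact e.trans Measure.map_id
  · exact (IndepFun_iff_Indep _ _ _).1 ((g.indep (fun s : A × ℕ => (s.1, s.2))
      (fun s : B × ℕ => (s.1, s.2)) fun s t => by
        have := h _ s.1.2 _ t.1.2
        have e1 : s.1.1 ≠ t.1.1 := fun e => by simp [e] at this
        have e2 : ¬Cay.Adj s.1 t.1 := fun e => by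
          rw [SimpleGraph.dist_eq_one_iff_adj.2 e] at this
          exact lt_irrefl _ this
        simp [cv, e1, e2]).comp (cu A) (cu B))

end Pool.Agent.H43.Fd
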