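import Mathlib

open Set Metric Real Filter Topology Manifold

namespace Pool.Agent.H43.Flw

abbrev N := Circle × Circle
noncomputable abbrev IN := (𝓡 1).prod (𝓡 1)

noncomputable def f (y : Circle) : ℝ := 100 * ((y : ℂ) ^ 5).im

noncomputable def X (a : ℝ) : Equiv.Perm N where
  toFun p := (p.1 * Circle.exp (a * f p.2), p.2)
  invFun p := (p.1 * Circle.exp (-a * f p.2), p.2)
  left_inv p := by simp [mul_assoc]
  right_inv p := by simp [mul_assoc]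

noncomputable def Y (a : ℝ) : Equiv.Perm N where
  toFun p := (p.1, p.2 * Circle.exp (-a * f p.1))
  invFun p := (p.1, p.2 * Circle.exp (a * f p.1))
  left_inv p := by simp [mul_assoc]
  right_inv p := by simp [mul_assoc]

noncomputable def H (r : ℝ) : Equiv.Perm N :=
  Y (smoothTransition (3 * r - 1)) * X (smoothTransition (3 * r - 1))

noncomputable def F : Equiv.Perm N := Y 1 * X 1

noncomputable def Ψ (τ : ℝ) : Equiv.Perm N := H (Int.fract τ) * F ^ ⌊τ⌋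

noncomputable def φ (t : ℝ) (z : N × Circle) : N × Circle :=
  ((Ψ (Complex.arg z.2 / (2 * π) + t) * (Ψ (Complex.arg z.2 / (2 * π)))⁻¹) z.1,
    z.2 * Circle.exp (2 * π * t))

lemma H0 {r : ℝ} (h : r ≤ 1 / 3) : H r = 1 := by
  rw [H, smoothTransition.zero_of_nonpos (by linarith)]
  ext p <;> simp [X, Y]

lemma H1 {r : ℝ} (h : 2 / 3 ≤ r) : H r = F := by
  rw [H, smoothTransition.one_of_one_le (by linarith), F]

lemma Ψ_int (τ : ℝ) (n : ℤ) : Ψ (τ + n) = Ψ τ * F ^ n := by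
  simp [Ψ, zpow_add, mul_assoc]

lemma Ψ_loc {τ : ℝ} {n : ℤ} (h1 : n - 1 < τ) (h2 : τ < n + 1) :
    Ψ τ = H (τ - n) * H (τ - n + 1) * F ^ (n - 1) := by
  rcases le_or_gt (n : ℝ) τ with h | h
  · have : ⌊τ⌋ = n := Int.floor_eq_iff.2 ⟨h, h2⟩
    rw [Ψ, Int.fract, this, H1 (r := τ - n + 1) (by linarith), mul_assoc, ← zpow_one_add]; simp
  · have : ⌊τ⌋ = n - 1 := Int.floor_eq_iff.2 ⟨by push_cast; linarith, by push_cast; linarith⟩
    rw [Ψ, Int.fract, this, H0 (r := τ - n) (by linarith), one_mul]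
    congr 2; push_cast; ring

lemma φ_eq {σ : ℝ} {z : N × Circle} (h : Circle.exp (2 * π * σ) = z.2) (t : ℝ) :
    (φ t z).1 = (Ψ (σ + t) * (Ψ σ)⁻¹) z.1 := by
  obtain ⟨m, hm⟩ := Circle.exp_eq_exp.1 (h.trans (Circle.exp_arg z.2).symm)
  have : σ = Complex.arg z.2 / (2 * π) + m := by field_simp; linarith
  rw [this, add_right_comm, Ψ_int, Ψ_int]
  simp [φ, mul_assoc]

lemma φ_snd (t : ℝ) (z : N × Circle) : (φ t z).2 = z.2 * Circle.exp (2 * π * t) := rfl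

lemma φ_zero (z : N × Circle) : φ 0 z = z := by simp [φ]

lemma φ_add (s t : ℝ) (z : N × Circle) : φ (s + t) z = φ s (φ t z) := by
  have h : Circle.exp (2 * π * (Complex.arg z.2 / (2 * π))) = z.2 := by
    rw [mul_div_cancel₀ _ (by positivity), Circle.exp_arg]
  refine Prod.ext ?_ (by rw [φ_snd, φ_snd, φ_snd, add_comm, mul_add, Circle.exp_add, mul_assoc z.2])
  rw [φ_eq h, φ_eq (σ := Complex.arg z.2 / (2 * π) + t) (by rw [φ_snd, mul_add, Circle.exp_add, h]),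
    φ_eq h, add_comm s, add_assoc]
  simp

lemma φ_near (n : ℤ) {r : ℝ} (h : |r| ≤ 1 / 3) (p : N) : (φ (n + r) (p, 1)).1 = (F ^ n) p := by
  have := abs_le.1 h
  rw [φ_eq (σ := 0) (by simp), zero_add, add_comm, Ψ_int,
    Ψ_loc (τ := r) (n := 0) (by simp; linarith) (by simp; linarith), H0 (by simp; linarith),
    H1 (by simp; linarith)]
  simp [Ψ, H0]

lemma φ_int (n : ℤ) (p : N) : φ n (p, 1) = ((F ^ n) p, 1) :=
  Prod.ext (by simpa using φ_near n (r := 0) (by simp) p) (by rw [φ_snd, Circle.exp_two_pi_mul_int, mul_one])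

def Sm (P : ℝ → Equiv.Perm N) : Prop :=
  ContMDiff (𝓘(ℝ, ℝ).prod IN) IN 1 (fun p : ℝ × N => P p.1 p.2) ∧
    ContMDiff (𝓘(ℝ, ℝ).prod IN) IN 1 (fun p : ℝ × N => (P p.1)⁻¹ p.2)

lemma Sm.mul {P Q : ℝ → Equiv.Perm N} (a : Sm P) (b : Sm Q) : Sm fun t => P t * Q t :=
  ⟨a.1.comp (contMDiff_fst.prodMk b.1), b.2.comp (contMDiff_fst.prodMk a.2)⟩

lemma Sm.cmp {P : ℝ → Equiv.Perm N} (a : Sm P) {g : ℝ → ℝ} (hg : ContDiff ℝ 1 g) :
    Sm fun t => P (g t) :=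
  ⟨a.1.comp ((hg.contMDiff.comp contMDiff_fst).prodMk contMDiff_snd),
    a.2.comp ((hg.contMDiff.comp contMDiff_fst).prodMk contMDiff_snd)⟩

lemma coe_sm : ContMDiff (𝓡 1) 𝓘(ℝ, ℂ) 1 (fun z : Circle => (z : ℂ)) :=
  haveI := finrank_real_complex_fact'
  contMDiff_coe_sphere (E := ℂ)

lemma f_sm : ContMDiff (𝓡 1) 𝓘(ℝ, ℝ) 1 f :=
  (show ContDiff ℝ 1 fun z : ℂ => 100 * (z ^ 5).im from
    contDiff_const.mul (Complex.imCLM.contDiff.comp (contDiff_id.pow 5))).contMDiff.comp coe_sm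

lemma sm_X : Sm X := by
  have a1 := (contMDiff_fst (I := 𝓡 1) (J := 𝓡 1) (M := Circle) (N := Circle) (n := 1)).comp
    (contMDiff_snd (I := 𝓘(ℝ, ℝ)) (M := ℝ))
  have a2 := (contMDiff_snd (I := 𝓡 1) (J := 𝓡 1) (M := Circle) (N := Circle) (n := 1)).comp
    (contMDiff_snd (I := 𝓘(ℝ, ℝ)) (M := ℝ))
  exact ⟨(a1.mul (contMDiff_circleExp.comp (contMDiff_fst.mul (f_sm.comp a2)))).prodMk a2,
    (a1.mul (contMDiff_circleExp.comp (contMDiff_fst.neg.mul (f_sm.comp a2)))).prodMk a2⟩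

lemma sm_Y : Sm Y := by
  have a1 := (contMDiff_fst (I := 𝓡 1) (J := 𝓡 1) (M := Circle) (N := Circle) (n := 1)).comp
    (contMDiff_snd (I := 𝓘(ℝ, ℝ)) (M := ℝ))
  have a2 := (contMDiff_snd (I := 𝓡 1) (J := 𝓡 1) (M := Circle) (N := Circle) (n := 1)).comp
    (contMDiff_snd (I := 𝓘(ℝ, ℝ)) (M := ℝ))
  exact ⟨a1.prodMk (a2.mul (contMDiff_circleExp.comp (contMDiff_fst.neg.mul (f_sm.comp a1)))),
    a1.prodMk (a2.mul (contMDiff_circleExp.comp (contMDiff_fst.mul (f_sm.comp a1))))⟩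

lemma sm_H : Sm H := by
  have : ContDiff ℝ 1 fun r : ℝ => smoothTransition (3 * r - 1) :=
    smoothTransition.contDiff.comp (by fun_prop)
  exact (sm_Y.cmp this).mul (sm_X.cmp this)

lemma sm_F (n : ℤ) : Sm fun _ => F ^ n := by
  have a : Sm fun _ => F := (sm_Y.cmp contDiff_const).mul (sm_X.cmp contDiff_const)
  induction n using Int.induction_on with
  | zero => exact ⟨by simpa using contMDiff_snd, by simpa using contMDiff_snd⟩
  | succ n ih => simpa only [zpow_add_one] using ih.mul a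
  | pred n ih => simpa only [zpow_sub_one] using ih.mul ⟨a.2, by simpa using a.1⟩

lemma sm_Ψ : Sm Ψ := by
  have a : ∀ n : ℤ, Sm fun τ => H (τ - n) * H (τ - n + 1) * F ^ (n - 1) := fun n =>
    ((sm_H.cmp (by fun_prop)).mul (sm_H.cmp (by fun_prop))).mul (sm_F _)
  have b : ∀ p : ℝ × N, ∀ᶠ q : ℝ × N in 𝓝 p, Ψ q.1 =
      H (q.1 - ⌊p.1⌋) * H (q.1 - ⌊p.1⌋ + 1) * F ^ (⌊p.1⌋ - 1) := fun p => by
    filter_upwards [continuousAt_fst.preimage_mem_nhds (Ioo_mem_nhds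
      (show (⌊p.1⌋ : ℝ) - 1 < p.1 by linarith [Int.floor_le p.1]) (Int.lt_floor_add_one p.1))] with q hq
    exact Ψ_loc hq.1 hq.2
  exact ⟨fun p => ((a ⌊p.1⌋).1 p).congr_of_eventuallyEq ((b p).mono fun q h => by simp only [h]),
    fun p => ((a ⌊p.1⌋).2 p).congr_of_eventuallyEq ((b p).mono fun q h => by simp only [h])⟩

theorem φ_sm : ContMDiff (𝓘(ℝ, ℝ).prod (IN.prod (𝓡 1))) (IN.prod (𝓡 1)) 1
    fun p : ℝ × (N × Circle) => φ p.1 p.2 := by
  intro p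
  set σ : ℝ × (N × Circle) → ℝ := fun q =>
    (Complex.arg p.2.2 + (Complex.log ((q.2.2 * p.2.2⁻¹ : Circle) : ℂ)).im) / (2 * π)
  have a2 : ContMDiff (𝓘(ℝ, ℝ).prod (IN.prod (𝓡 1))) (𝓡 1) 1 fun q : ℝ × (N × Circle) => q.2.2 :=
    contMDiff_snd.comp contMDiff_snd
  have a1 : ContMDiff (𝓘(ℝ, ℝ).prod (IN.prod (𝓡 1))) IN 1 fun q : ℝ × (N × Circle) => q.2.1 :=
    contMDiff_fst.comp contMDiff_snd
  have hσ : ContMDiffAt (𝓘(ℝ, ℝ).prod (IN.prod (𝓡 1))) 𝓘(ℝ, ℝ) 1 σ p := by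
    have : ContDiffAt ℝ 1 (fun z : ℂ => (Complex.arg p.2.2 + (Complex.log z).im) / (2 * π))
        ((p.2.2 * p.2.2⁻¹ : Circle) : ℂ) :=
      (contDiffAt_const.add (Complex.imCLM.contDiff.contDiffAt.comp _
        ((Complex.contDiffAt_log (by simp)).restrict_scalars ℝ))).div_const _
    exact ContMDiffAt.comp (f := fun q : ℝ × (N × Circle) => ((q.2.2 * p.2.2⁻¹ : Circle) : ℂ)) p
      this.contMDiffAt ((coe_sm.comp (a2.mul contMDiff_const)) p)
  have e : (fun q : ℝ × (N × Circle) => φ q.1 q.2) = fun q =>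
      (Ψ (σ q + q.1) ((Ψ (σ q))⁻¹ q.2.1), q.2.2 * Circle.exp (2 * π * q.1)) := by
    funext q
    refine Prod.ext (φ_eq ?_ _) rfl
    simp only [σ]
    rw [mul_div_cancel₀ _ (by positivity), Circle.exp_add, Complex.log_im, Circle.exp_arg,
      Circle.exp_arg, mul_comm, inv_mul_cancel_right]
  rw [e]
  exact ((sm_Ψ.1 _).comp p ((hσ.add contMDiffAt_fst).prodMk ((sm_Ψ.2 _).comp p
    (hσ.prodMk (a1 p))))).prodMk
    ((a2.mul (contMDiff_circleExp.comp (contMDiff_const.mul contMDiff_fst))) p)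

end Pool.Agent.H43.Flw
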