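import Mathlib

open Set Filter

namespace Pool.Agent.H43.Flw

variable {M : Type}

/-- `D` is a metric on `M` inducing its topology -/
structure IsMetric [TopologicalSpace M] (D : M → M → ℝ) : Prop where
  zero : ∀ x y, D x y = 0 ↔ x = y
  symm : ∀ x y, D x y = D y x
  tri : ∀ x y z, D x z ≤ D x y + D y z
  top : ∀ s : Set M, IsOpen s ↔ ∀ x ∈ s, ∃ ε > 0, ∀ y, D x y < ε → y ∈ s

/-- the Bowen metric `D_T` -/
noncomputable def DT (φ : ℝ → M → M) (D : M → M → ℝ) (T : ℝ) (x y : M) : ℝ :=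
  sSup ((fun t => D (φ t x) (φ t y)) '' Icc 0 T)

/-- largest size of an `ε`-separated set -/
noncomputable def sep (ρ : M → M → ℝ) (ε : ℝ) : ℕ :=
  sSup {n | ∃ s : Finset M, s.card = n ∧ ∀ x ∈ s, ∀ y ∈ s, x ≠ y → ε ≤ ρ x y}

/-- smallest size of an `ε`-spanning set -/
noncomputable def span (ρ : M → M → ℝ) (ε : ℝ) : ℕ :=
  sInf {n | ∃ s : Finset M, s.card = n ∧ ∀ x, ∃ y ∈ s, ρ y x < ε}

/-- the liminf of `log (g T) / T` is strictly smaller than its limsup as `T → ∞` -/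
def Osc (g : ℝ → ℕ) : Prop :=
  liminf (fun T : ℝ => ((Real.log (g T) / T : ℝ) : EReal)) atTop <
    limsup (fun T : ℝ => ((Real.log (g T) / T : ℝ) : EReal)) atTop

end Pool.Agent.H43.Flw
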