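import Pool.Agent.H43.Flw1
import Pool.Agent.H43.FlwDefs

open Set Metric Real Filter Topology

namespace Pool.Agent.H43.Flw

lemma tarski (d e : ℤ → ℝ) (hd : ∀ k, |d k| ≤ 7) (he : ∀ k, |e k| ≤ 7) : ∃ α β : ℤ → ℝ,
    ∀ k, |α k| ≤ π / 10 ∧ |β k| ≤ π / 10 ∧ 100 * sin (5 * β k) = α (k + 1) + α k + d k ∧
      100 * sin (5 * α (k + 1)) = β (k + 1) + β k + e k := by
  have h1 : (-1 : ℝ) ≤ 1 := by norm_num
  haveI : Fact ((-1 : ℝ) ≤ 1) := ⟨h1⟩
  let A : Icc (-1 : ℝ) 1 → ℝ := fun s => arcsin s / 5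
  have mA : Monotone A := fun s t h => div_le_div_of_nonneg_right (arcsin_le_arcsin h) (by norm_num)
  have bA : ∀ s, |A s| ≤ π / 10 := fun s => abs_le.2
    ⟨by simp only [A]; linarith [neg_pi_div_two_le_arcsin s], by
      simp only [A]; linarith [arcsin_le_pi_div_two s]⟩
  let T : (ℤ → Icc (-1 : ℝ) 1) × (ℤ → Icc (-1 : ℝ) 1) →o
      (ℤ → Icc (-1 : ℝ) 1) × (ℤ → Icc (-1 : ℝ) 1) :=
    ⟨fun s => (fun k => projIcc _ _ h1 ((A (s.2 k) + A (s.2 (k - 1)) + e (k - 1)) / 100),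
      fun k => projIcc _ _ h1 ((A (s.1 (k + 1)) + A (s.1 k) + d k) / 100)), fun s t h =>
      ⟨fun k => monotone_projIcc h1 (by linarith [mA (h.2 k), mA (h.2 (k - 1))]),
        fun k => monotone_projIcc h1 (by linarith [mA (h.1 k), mA (h.1 (k + 1))])⟩⟩
  have fx := T.map_lfp
  set s := OrderHom.lfp T
  have key : ∀ (u a b : Icc (-1 : ℝ) 1) (c : ℝ), |c| ≤ 7 → projIcc _ _ h1 ((A a + A b + c) / 100) = u →
      100 * sin (5 * A u) = A a + A b + c := fun u a b c hc h => by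
    have i := abs_le.1 (bA a); have j := abs_le.1 (bA b); have k := abs_le.1 hc
    rw [projIcc_of_mem h1 ⟨by linarith [pi_le_four], by linarith [pi_le_four]⟩] at h
    simp only [A] at h ⊢
    rw [mul_div_cancel₀ _ (by norm_num), sin_arcsin' u.2, ← h]; ring
  refine ⟨fun k => A (s.1 k), fun k => A (s.2 k), fun k => ⟨bA _, bA _,
    key _ _ _ _ (hd k) (congrFun (congrArg Prod.snd fx) k), ?_⟩⟩
  simpa using key _ _ _ _ (he _) (congrFun (congrArg Prod.fst fx) (k + 1))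

noncomputable def c (a : ZMod 5) : Circle := Circle.exp (2 * π * a.val / 5)

lemma dist_exp (x y : ℝ) : dist (Circle.exp x) (Circle.exp y) = |2 * sin ((x - y) / 2)| := by
  rw [← Real.norm_eq_abs, ← Complex.norm_exp_I_mul_ofReal_sub_one,
    show x = y + (x - y) by ring, Circle.exp_add, add_sub_cancel_left]
  change dist ((Circle.exp y * Circle.exp (x - y) : Circle) : ℂ) (Circle.exp y) = _
  rw [dist_eq_norm, Circle.coe_mul, ← mul_sub_one, norm_mul, Circle.norm_coe, one_mul,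
    Circle.coe_exp, mul_comm]

lemma c_sep {a b : ZMod 5} (h : a ≠ b) : 4 / 5 ≤ dist (c a) (c b) := by
  wlog l : b.val < a.val generalizing a b
  · rw [dist_comm]
    exact this h.symm (lt_of_le_of_ne (not_lt.1 l) fun e => h (ZMod.val_injective 5 e))
  have l1 : (b.val : ℝ) + 1 ≤ a.val := by exact_mod_cast l
  have l2 : (a.val : ℝ) ≤ 4 := by exact_mod_cast Nat.lt_succ_iff.1 a.val_lt
  have l3 := Nat.cast_nonneg (α := ℝ) b.val
  have p := pi_pos
  have k : ∀ x, π / 5 ≤ x → x ≤ π / 2 → 2 / 5 ≤ sin x := fun x i j =>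
    le_trans (by rw [div_mul_eq_mul_div, le_div_iff₀ p]; linarith) (mul_le_sin (by linarith) j)
  rw [c, c, dist_exp]
  refine le_trans ?_ (le_abs_self _)
  set x := (2 * π * a.val / 5 - 2 * π * b.val / 5) / 2 with hx
  have x1 : π / 5 ≤ x := by rw [hx]; nlinarith
  have x2 : x ≤ 4 * π / 5 := by rw [hx]; nlinarith
  rcases le_total x (π / 2) with i | i
  · linarith [k x x1 i]
  · linarith [k (π - x) (by linarith) (by linarith), sin_pi_sub x]

lemma c_uniq {x : Circle} {a b : ZMod 5} (h : dist x (c a) ≤ 1 / 3) (h' : dist x (c b) ≤ 1 / 3) :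
    a = b := by
  by_contra n
  linarith [c_sep n, dist_triangle_left (c a) (c b) x]

lemma exists_itin (a b : ℤ → ZMod 5) : ∃ p : N, ∀ n : ℤ,
    dist ((F ^ n) p).1 (c (a n)) ≤ 8 / 25 ∧ dist ((F ^ n) p).2 (c (b n)) ≤ 8 / 25 := by
  let σ : ℤ → ℝ := fun k => if Even k then 1 else -1
  have s1 : ∀ k, σ (k + 1) = -σ k := fun k => by simp only [σ, Int.even_add_one]; split_ifs <;> simp_all
  have s2 : ∀ k, σ k = 1 ∨ σ k = -1 := fun k => by simp only [σ]; split_ifs <;> simp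
  have s3 : ∀ k x, |σ k * x| = |x| := fun k x => by rcases s2 k with h | h <;> simp [h]
  let P : ZMod 5 → ℝ := fun a => 2 * π * a.val / 5
  have bP : ∀ a b, |P a - P b| ≤ 7 := fun a b => by
    have : ∀ a, 0 ≤ P a ∧ P a ≤ 7 := fun a => by
      have l2 : (a.val : ℝ) ≤ 4 := by exact_mod_cast Nat.lt_succ_iff.1 a.val_lt
      have := Nat.cast_nonneg (α := ℝ) a.val
      simp only [P]; constructor <;> nlinarith [pi_pos, pi_le_four]
    exact abs_le.2 ⟨by linarith [this a, this b], by linarith [this a, this b]⟩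
  obtain ⟨α, β, h⟩ := tarski (fun k => σ k * (P (a k) - P (a (k + 1))))
    (fun k => σ k * (P (b (k + 1)) - P (b k))) (fun k => by rw [s3]; exact bP _ _)
    (fun k => by rw [s3]; exact bP _ _)
  have hf : ∀ a x, f (Circle.exp (P a + x)) = 100 * sin (5 * x) := fun a x => by
    rw [f, Circle.coe_exp, ← Complex.exp_nat_mul, ← sin_add_nat_mul_two_pi _ a.val,
      ← Complex.exp_ofReal_mul_I_im]
    congr 3; simp only [P]; push_cast; ring
  let z : ℤ → N := fun k => (Circle.exp (P (a k) + σ k * α k), Circle.exp (P (b k) + -σ k * β k))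
  have st : ∀ k, F (z k) = z (k + 1) := fun k => by
    obtain ⟨-, -, e1, e2⟩ := h k
    have i : Circle.exp (P (a k) + σ k * α k) * Circle.exp (1 * f (Circle.exp (P (b k) + -σ k * β k))) =
        Circle.exp (P (a (k + 1)) + σ (k + 1) * α (k + 1)) := by
      rw [← Circle.exp_add, hf, s1]; congr 1
      rcases s2 k with h | h <;> simp [h] at e1 ⊢ <;> linarith
    refine Prod.ext i ?_
    change Circle.exp _ * Circle.exp (-1 * f (_ * _)) = Circle.exp _
    rw [i, ← Circle.exp_add, hf, s1]; congr 1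
    rcases s2 k with h | h <;> simp [h] at e2 ⊢ <;> linarith
  have it : ∀ n : ℤ, (F ^ n) (z 0) = z n := fun n => by
    induction n using Int.induction_on with
    | zero => rfl
    | succ n ih => rw [add_comm, zpow_one_add, Equiv.Perm.mul_apply, ih, st, add_comm]
    | pred n ih =>
      apply F.injective
      rw [st, ← Equiv.Perm.mul_apply, ← zpow_one_add, sub_add_cancel, ← ih]; congr 2; ring
  have ds : ∀ a x, |x| ≤ π / 10 → dist (Circle.exp (P a + x)) (c a) ≤ 8 / 25 := fun a x hx => by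
    rw [c, dist_exp, add_sub_cancel_left, abs_mul, abs_two]
    have := abs_sin_le_abs (x := x / 2)
    rw [abs_div, abs_two] at this
    linarith [pi_lt_d2]
  exact ⟨z 0, fun n => it n ▸ ⟨ds _ _ (by rw [s3]; exact (h n).1),
    ds _ _ (by rw [neg_mul, abs_neg, s3]; exact (h n).2.1)⟩⟩

abbrev M := N × Circle

def Adj (R : Set (M × M)) (T : ℝ) (x y : M) : Prop :=
  ∃ t ∈ Icc 0 T, (φ t x, φ t y) ∈ R ∨ (φ t y, φ t x) ∈ R

lemma φ_cont : Continuous fun p : ℝ × M => φ p.1 p.2 := φ_sm.continuous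

lemma φ_cont1 (x : M) : Continuous fun t => φ t x :=
  φ_cont.comp (f := fun t => (t, x)) (by fun_prop)

lemma φ_cont2 (t : ℝ) : Continuous (φ t) := φ_cont.comp (f := fun x => (t, x)) (by fun_prop)

lemma exists_D {R : Set (M × M)} (hR : IsClosed R) (hn : R.Nonempty)
    (hd : ∀ p ∈ R, 1 / 100 ≤ dist p.1 p.2) : ∃ D, IsMetric D ∧
      ∀ T, 0 ≤ T → ∀ x y, 1 ≤ DT φ D T x y ↔ Adj R T x y := by
  let ρ : M → M → ℝ := fun x y => min (1 / 2) (min (infDist (x, y) R) (infDist (y, x) R))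
  have ρ0 : ∀ x y, 0 ≤ ρ x y := fun x y => le_min (by norm_num) (le_min infDist_nonneg infDist_nonneg)
  have ρ1 : ∀ x y, ρ x y ≤ 1 / 2 := fun x y => min_le_left _ _
  have ρs : ∀ x y, ρ x y = ρ y x := fun x y => by simp only [ρ, min_comm (infDist (x, y) R)]
  have ρl : ∀ x y z, ρ y z ≤ ρ x z + dist x y := fun x y z => by
    have a := infDist_le_infDist_add_dist (x := (y, z)) (y := (x, z)) (s := R)
    have b := infDist_le_infDist_add_dist (x := (z, y)) (y := (z, x)) (s := R)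
    simp only [dist_prod_same_right, dist_prod_same_left, dist_comm y] at a b
    simp only [ρ, ← min_add_add_right]
    exact min_le_min (by simp) (min_le_min a b)
  let D : M → M → ℝ := fun x y => min (100 * dist x y) (1 - ρ x y)
  have D1 : ∀ x y, D x y ≤ 1 := fun x y => (min_le_right _ _).trans (by linarith [ρ0 x y])
  have D2 : ∀ x y, 1 ≤ D x y ↔ (x, y) ∈ R ∨ (y, x) ∈ R := fun x y => by
    rw [hR.mem_iff_infDist_zero hn, hR.mem_iff_infDist_zero hn]
    refine ⟨fun h => ?_, fun h => le_min ?_ ?_⟩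
    · have : ρ x y ≤ 0 := by linarith [(le_min_iff.1 h).2]
      simp only [ρ, min_le_iff] at this
      exact (this.resolve_left (by norm_num)).imp (le_antisymm · infDist_nonneg)
        (le_antisymm · infDist_nonneg)
    · simp only [← hR.mem_iff_infDist_zero hn] at h
      rcases h with h | h <;> linarith [hd _ h, dist_comm x y]
    · have : ρ x y ≤ 0 := (min_le_right _ _).trans (min_le_iff.2 (h.imp Eq.le Eq.le))
      linarith
  refine ⟨D, ⟨fun x y => ⟨fun h => ?_, ?_⟩, fun x y => by simp only [D, ρs x, dist_comm],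
    fun x y z => ?_, fun s => ?_⟩, fun T hT x y => ?_⟩
  · rcases min_eq_iff.1 h with h | h
    · simpa using h.1
    · linarith [h.1, ρ1 x y]
  · rintro rfl; simp only [D, dist_self, mul_zero]; exact min_eq_left (by linarith [ρ1 x x])
  · have a := min_le_left (100 * dist x z) (1 - ρ x z)
    have b := min_le_right (100 * dist x z) (1 - ρ x z)
    simp only [D]
    rcases min_cases (100 * dist x y) (1 - ρ x y) with h | h <;>
      rcases min_cases (100 * dist y z) (1 - ρ y z) with k | k <;>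
      linarith [h.1, k.1, dist_triangle x y z, ρl x y z, ρl z y x, ρs x z, ρs x y, dist_comm z y,
        ρ1 x y, ρ1 y z, ρ0 x z, dist_nonneg (x := x) (y := y), dist_nonneg (x := y) (y := z)]
  · rw [Metric.isOpen_iff]
    refine forall₂_congr fun x _ => ⟨fun ⟨ε, e, h⟩ => ⟨min (100 * ε) (1 / 2), by positivity,
      fun y hy => h ?_⟩, fun ⟨ε, e, h⟩ => ⟨ε / 100, by positivity, fun y hy => h y ?_⟩⟩
    · rw [mem_ball']
      rcases min_lt_iff.1 hy with h | h <;> rw [lt_min_iff] at h <;> linarith [h.1, h.2, ρ1 x y]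
    · exact (min_le_left _ _).trans_lt (by linarith [mem_ball'.1 hy])
  · have cx := φ_cont1
    have ci := continuous_infDist_pt R
    have := (isCompact_Icc (a := 0) (b := T)).image (f := fun t => D (φ t x) (φ t y))
      ((continuous_const.mul ((cx x).dist (cx y))).min (continuous_const.sub (continuous_const.min
        ((ci.comp ((cx x).prodMk (cx y))).min (ci.comp ((cx y).prodMk (cx x)))))))
    refine ⟨fun h => ?_, fun ⟨t, ht, h⟩ => ((D2 _ _).2 h).trans (le_csSup this.bddAbove ⟨t, ht, rfl⟩)⟩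
    obtain ⟨t, ht, e⟩ := this.sSup_mem ((nonempty_Icc.2 hT).image _)
    exact ⟨t, ht, (D2 _ _).1 (h.trans e.ge)⟩

lemma osc {g : ℝ → ℕ} {a b : ℝ} (h : a < b) (a0 : 0 ≤ a)
    (h1 : ∀ n : ℕ, ∃ S : ℕ, n ≤ S ∧ (g S : ℝ) ≤ exp (a * S))
    (h2 : ∀ n : ℕ, ∃ S : ℕ, n ≤ S ∧ exp (b * S) ≤ g S) : Osc g := by
  have k : ∀ P : ℝ → Prop, (∀ n : ℕ, ∃ S : ℕ, n + 1 ≤ S ∧ P S) → ∃ᶠ T in atTop, P T := fun P hP =>
    frequently_atTop.2 fun x => by
      obtain ⟨S, i, j⟩ := hP ⌈x⌉₊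
      exact ⟨S, (Nat.le_ceil x).trans (by exact_mod_cast (by omega)), j⟩
  refine lt_of_le_of_lt (liminf_le_of_frequently_le' (k _ fun n => ?_))
    ((EReal.coe_lt_coe_iff.2 h).trans_le (le_limsup_of_frequently_le' (k _ fun n => ?_)))
  · obtain ⟨S, i, j⟩ := h1 (n + 1)
    have : (0 : ℝ) < S := by exact_mod_cast (by omega)
    refine ⟨S, i, EReal.coe_le_coe_iff.2 ((div_le_iff₀ this).2 ?_)⟩
    rcases Nat.eq_zero_or_pos (g S) with e | e
    · simp [e]; positivity
    · exact (log_le_iff_le_exp (by exact_mod_cast e)).2 j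
  · obtain ⟨S, i, j⟩ := h2 (n + 1)
    have : (0 : ℝ) < S := by exact_mod_cast (by omega)
    exact ⟨S, i, EReal.coe_le_coe_iff.2 ((le_div_iff₀ this).2
      ((le_log_iff_exp_le ((exp_pos _).trans_le j)).2 j))⟩

lemma levels (C : ℕ → ℕ) : ∃ L : Set ℕ, (∀ n, ∃ m ∈ L, n ≤ m) ∧ ∀ n, ∃ m S : ℕ, n + 40 ≤ S ∧
    2 * (2 + (S + 1) * C m : ℝ) ≤ exp (1 / 4 * S) ∧ ∀ k ∈ L, k ≤ m ∨ 2 * S + 2 < k := by
  let g : ℕ → ℕ := fun m => 1000 * (C m + 1) + m
  let μ : ℕ → ℕ := fun j => Nat.rec 0 (fun _ m => 2 * g m + 3) j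
  have m1 : ∀ j, μ (j + 1) = 2 * g (μ j) + 3 := fun _ => rfl
  have mono : StrictMono μ := strictMono_nat_of_lt_succ fun j => by rw [m1]; simp only [g]; omega
  refine ⟨range μ, fun n => ⟨_, ⟨n, rfl⟩, mono.le_apply⟩, fun n => ⟨μ n, g (μ n), ?_, ?_, ?_⟩⟩
  · have := mono.le_apply (x := n); simp only [g]; omega
  · have a : (1000 * (C (μ n) + 1) : ℝ) ≤ g (μ n) := by exact_mod_cast Nat.le_add_right _ _
    have b := Nat.cast_nonneg (α := ℝ) (C (μ n))
    generalize (g (μ n) : ℝ) = S at a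
    have := add_one_le_exp (S / 8)
    rw [show 1 / 4 * S = S / 8 + S / 8 by ring, exp_add]
    nlinarith [mul_le_mul this this (by linarith) (exp_pos _).le]
  · rintro _ ⟨j, rfl⟩
    rcases le_or_gt j n with h | h
    · exact Or.inl (mono.monotone h)
    · have := mono.monotone (Nat.succ_le_of_lt h); rw [m1] at this; omega

lemma closedL {Z Λ A : Type} [TopologicalSpace Z] [Finite A] (S : ℕ) (C : Λ → Prop) (ρ : Λ → ℤ → A)
    (K : A → ℤ → Set Z) (hK : ∀ a i, IsClosed (K a i)) :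
    IsClosed {z | ∃ l, C l ∧ ∀ i, |i| ≤ (S : ℤ) → z ∈ K (ρ l i) i} := by
  have : {z | ∃ l, C l ∧ ∀ i, |i| ≤ (S : ℤ) → z ∈ K (ρ l i) i} =
      ⋃ w ∈ (fun l (i : Icc (-S : ℤ) S) => ρ l i) '' {l | C l}, ⋂ i, K (w i) i := by
    ext z; simp [abs_le]
  rw [this]
  exact (toFinite _).isClosed_biUnion fun w _ => isClosed_iInter fun i => hK _ _

lemma phase (s : Circle) : ∃ t0 ∈ Ico (0 : ℝ) 1, ∀ p : N, (φ t0 (p, s)).2 = 1 ∧ ∀ (S : ℕ) t,
    t ∈ Icc (0 : ℝ) S → (φ t (p, s)).2 = 1 → ∃ n : ℕ, n ≤ S ∧ t = n + t0 := by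
  have e : s * Circle.exp (2 * π * Int.fract (-(Complex.arg s / (2 * π)))) = 1 := by
    rw [Int.fract, mul_sub, Circle.exp_sub, Circle.exp_two_pi_mul_int, mul_neg,
      mul_div_cancel₀ _ (by positivity), Circle.exp_neg, Circle.exp_arg]; simp
  have a := Int.fract_nonneg (-(Complex.arg s / (2 * π)))
  have b := Int.fract_lt_one (-(Complex.arg s / (2 * π)))
  refine ⟨_, ⟨a, b⟩, fun p => ⟨e, fun S t ht h => ?_⟩⟩
  obtain ⟨m, hm⟩ := Circle.exp_eq_exp.1 (mul_left_cancel (h.trans e.symm))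
  generalize Int.fract (-(Complex.arg s / (2 * π))) = t0 at *
  have : t = m + t0 := by nlinarith [pi_pos]
  have m0 : (-1 : ℤ) < m := by exact_mod_cast (show (-1 : ℝ) < m by linarith [ht.1])
  have m1 : m ≤ S := by exact_mod_cast (show (m : ℝ) ≤ S by linarith [ht.2])
  obtain ⟨n, rfl⟩ := Int.eq_ofNat_of_zero_le (show 0 ≤ m by omega)
  exact ⟨n, by omega, by simpa using this⟩

end Pool.Agent.H43.Flw
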