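import Pool.Agent.H43.Flw2

open Set Metric Real Filter Topology

namespace Pool.Agent.H43.Flw

lemma Adj.mono {R : Set (M × M)} {S T : ℝ} {x y : M} (h : Adj R S x y) (l : S ≤ T) : Adj R T x y :=
  h.imp fun _ h => ⟨⟨h.1.1, h.1.2.trans l⟩, h.2⟩

lemma sep_osc {R : Set (M × M)} (hR : IsClosed R) (hn : R.Nonempty)
    (hd : ∀ p ∈ R, 1 / 100 ≤ dist p.1 p.2) {a b : ℝ} (h : a < b) (a0 : 0 ≤ a)
    (up : ∀ n : ℕ, ∃ S : ℕ, n ≤ S ∧ ∀ Q : Finset M, (∀ x ∈ Q, ∀ y ∈ Q, x ≠ y → Adj R S x y) →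
      (Q.card : ℝ) ≤ exp (a * S))
    (lo : ∀ n : ℕ, ∃ S : ℕ, n ≤ S ∧ ∃ Q : Finset M, (∀ x ∈ Q, ∀ y ∈ Q, x ≠ y → Adj R S x y) ∧
      exp (b * S) ≤ Q.card) : ∃ D, IsMetric D ∧ Osc fun T => sep (DT φ D T) 1 := by
  obtain ⟨D, hD, e⟩ := exists_D hR hn hd
  refine ⟨D, hD, osc h a0 (fun n => ?_) fun n => ?_⟩
  · obtain ⟨S, i, j⟩ := up n
    refine ⟨S, i, le_trans ?_ (Nat.floor_le (exp_pos _).le)⟩
    exact Nat.cast_le.2 <| csSup_le' fun _ ⟨Q, h1, h2⟩ => h1 ▸ Nat.le_floor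
      (j Q fun x hx y hy n => (e _ S.cast_nonneg _ _).1 (h2 x hx y hy n))
  · obtain ⟨S, i, Q, j, k⟩ := lo n
    obtain ⟨S', i', j'⟩ := up S
    refine ⟨S, i, k.trans ?_⟩
    exact Nat.cast_le.2 <| le_csSup ⟨⌊exp (a * S')⌋₊, fun _ ⟨Q, h1, h2⟩ => h1 ▸ Nat.le_floor
      (j' Q fun x hx y hy n => ((e _ S.cast_nonneg _ _).1 (h2 x hx y hy n)).mono (by exact_mod_cast i'))⟩
      ⟨Q, rfl, fun x hx y hy n => (e _ S.cast_nonneg _ _).2 (j x hx y hy n)⟩

lemma span_osc {R : Set (M × M)} (hR : IsClosed R) (hn : R.Nonempty)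
    (hd : ∀ p ∈ R, 1 / 100 ≤ dist p.1 p.2) {a b : ℝ} (h : a < b) (a0 : 0 ≤ a)
    (up : ∀ n : ℕ, ∃ S : ℕ, n ≤ S ∧ ∃ Q : Finset M, (∀ x, ∃ y ∈ Q, ¬ Adj R S y x) ∧
      (Q.card : ℝ) ≤ exp (a * S))
    (lo : ∀ n : ℕ, ∃ S : ℕ, n ≤ S ∧ ∀ Q : Finset M, (∀ x, ∃ y ∈ Q, ¬ Adj R S y x) →
      exp (b * S) ≤ Q.card) : ∃ D, IsMetric D ∧ Osc fun T => span (DT φ D T) 1 := by
  obtain ⟨D, hD, e⟩ := exists_D hR hn hd
  replace e : ∀ T, 0 ≤ T → ∀ x y, ¬ Adj R T x y ↔ DT φ D T x y < 1 := fun T h x y => by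
    rw [← e T h, not_le]
  refine ⟨D, hD, osc h a0 (fun n => ?_) fun n => ?_⟩
  · obtain ⟨S, i, Q, j, k⟩ := up n
    refine ⟨S, i, le_trans ?_ k⟩
    exact Nat.cast_le.2 <| Nat.sInf_le ⟨Q, rfl, fun x => (j x).imp fun y h => ⟨h.1, (e _ S.cast_nonneg _ _).1 h.2⟩⟩
  · obtain ⟨S, i, j⟩ := lo n
    obtain ⟨S', i', Q, j', -⟩ := up S
    obtain ⟨Q, h1, h2⟩ := Nat.sInf_mem (s := {n | ∃ s : Finset M, s.card = n ∧
      ∀ x, ∃ y ∈ s, DT φ D S y x < 1}) ⟨_, Q, rfl, fun x => (j' x).imp fun y h =>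
        ⟨h.1, (e _ S.cast_nonneg _ _).1 fun k => h.2 (k.mono (by exact_mod_cast i'))⟩⟩
    refine ⟨S, i, (j Q fun x => (h2 x).imp fun y h => ⟨h.1, (e _ S.cast_nonneg _ _).2 h.2⟩).trans ?_⟩
    rw [h1]; rfl

noncomputable def ι (a b : ℤ → ZMod 5) : M := ((exists_itin a b).choose, 1)

lemma hι (a b : ℤ → ZMod 5) (n : ℤ) : (φ n (ι a b)).2 = 1 ∧
    dist (φ n (ι a b)).1.1 (c (a n)) ≤ 8 / 25 ∧ dist (φ n (ι a b)).1.2 (c (b n)) ≤ 8 / 25 := by
  rw [ι, φ_int]; exact ⟨rfl, (exists_itin a b).choose_spec n⟩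

lemma φ_zz (i n : ℤ) (z : M) : φ i (φ n z) = φ (i + n : ℤ) z := by rw [← φ_add]; push_cast; rfl

lemma φ_inj (t : ℝ) : Function.Injective (φ t) := fun x y h => by
  rw [← φ_zero x, ← neg_add_cancel t, φ_add, h, ← φ_add, neg_add_cancel, φ_zero]

open Classical in
noncomputable def lab (x : Circle) : ZMod 5 := if h : ∃ a, dist x (c a) ≤ 1 / 3 then h.choose else 0

lemma lab_eq {x : Circle} {a : ZMod 5} (h : dist x (c a) ≤ 8 / 25) : lab x = a := by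
  have : ∃ a, dist x (c a) ≤ 1 / 3 := ⟨a, by linarith⟩
  rw [lab, dif_pos this]; exact c_uniq this.choose_spec (by linarith)

lemma lex {α : Type} (Q : Finset α) (w : α → ℤ → ZMod 5) (I : Finset ℤ) (r : ℤ → ℤ) (hr : InjOn r I)
    (h : ∀ x ∈ Q, ∀ y ∈ Q, x ≠ y → ∃ t ∈ I, (w x t - w y t = 1 ∨ w y t - w x t = 1) ∧
      ∀ i ∈ I, r i < r t → w x i = w y i) : Q.card ≤ 2 ^ I.card := by
  classical
  rw [← Finset.card_powerset]
  let β : α → Finset ℤ := fun x =>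
    I.filter fun t => ∃ y ∈ Q, (∀ i ∈ I, r i < r t → w x i = w y i) ∧ w x t - w y t = 1
  have key : ∀ x ∈ Q, ∀ y ∈ Q, β x = β y → ∀ t ∈ I, w x t - w y t = 1 →
      ¬ ∀ i ∈ I, r i < r t → w x i = w y i := fun x hx y hy e t ht h1 h2 => by
    have : t ∈ β y := e ▸ Finset.mem_filter.2 ⟨ht, y, hy, h2, h1⟩
    obtain ⟨-, z, hz, h3, h4⟩ := Finset.mem_filter.1 this
    have h5 : w x t = w z t + 2 := by linear_combination h1 + h4
    have d : ∀ a : ZMod 5, a + 2 ≠ a ∧ a + 2 - a ≠ 1 ∧ a - (a + 2) ≠ 1 ∧ a - a ≠ 1 := by decide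
    obtain ⟨s, hs, h6, h7⟩ := h x hx z hz fun e => (d _).1 (h5.symm.trans (e ▸ rfl))
    rcases lt_trichotomy (r s) (r t) with l | l | l
    · rw [h2 s hs l, h3 s hs l, or_self] at h6; exact (d _).2.2.2 h6
    · rw [hr hs ht l, h5] at h6; exact h6.elim (d _).2.1 (d _).2.2.1
    · exact (d _).1 (h5.symm.trans (h7 t ht l))
  refine Finset.card_le_card_of_injOn β (fun x _ => Finset.mem_coe.2 (Finset.mem_powerset.2 (Finset.filter_subset _ _))) fun x hx y hy e => ?_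
  by_contra n
  obtain ⟨t, ht, h1 | h1, h2⟩ := h x hx y hy n
  exacts [key x hx y hy e t ht h1 h2, key y hy x hx e.symm t ht h1 fun i a b => (h2 i a b).symm]

def prec (b : ℤ → ZMod 5) (n i : ℤ) : Prop :=
  (i < n ∧ ∀ j, i < j → j ≤ n → b j = 0) ∨ (n < i ∧ ∃ j, n < j ∧ j ≤ i ∧ b j ≠ 0)

def P (S : ℕ) : Set (M × M) := {z | ∃ l : ℤ → ZMod 5 × ZMod 5 × ZMod 5,
  ((∀ i j, |i| ≤ (S : ℤ) → |j| ≤ (S : ℤ) → (l i).2.2 ≠ 0 → (l j).2.2 ≠ 0 → i = j) ∧
    ((l 0).1 - (l 0).2.1 = 1 ∨ (l 0).2.1 - (l 0).1 = 1) ∧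
    ∀ i, |i| ≤ (S : ℤ) → prec (fun j => (l j).2.2) 0 i → (l i).1 = (l i).2.1) ∧
  ∀ i, |i| ≤ (S : ℤ) → z ∈ {z : M × M | dist (φ i z.1).1.1 (c (l i).1) ≤ 8 / 25 ∧
    dist (φ i z.2).1.1 (c (l i).2.1) ≤ 8 / 25 ∧ dist (φ i z.1).1.2 (c (l i).2.2) ≤ 8 / 25 ∧
    dist (φ i z.2).1.2 (c (l i).2.2) ≤ 8 / 25}}

lemma P_closed (S : ℕ) : IsClosed (P S) :=
  closedL S _ (fun l : ℤ → ZMod 5 × ZMod 5 × ZMod 5 => l)
    (fun (a : ZMod 5 × ZMod 5 × ZMod 5) (i : ℤ) => {z : M × M | dist (φ i z.1).1.1 (c a.1) ≤ 8 / 25 ∧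
    dist (φ i z.2).1.1 (c a.2.1) ≤ 8 / 25 ∧ dist (φ i z.1).1.2 (c a.2.2) ≤ 8 / 25 ∧
    dist (φ i z.2).1.2 (c a.2.2) ≤ 8 / 25}) fun a i => by
    have := φ_cont2 i
    generalize φ i = g at this ⊢
    refine .and ?_ (.and ?_ (.and ?_ ?_)) <;> exact isClosed_le (by fun_prop) (by fun_prop)

noncomputable def W (x : M) (i : ℤ) : ZMod 5 := lab (φ i x).1.1
noncomputable def B (x : M) (i : ℤ) : ZMod 5 := lab (φ i x).1.2

def Pr (S : ℕ) (n : ℤ) (x y : M) : Prop := (∀ i, 0 ≤ i → i ≤ (S : ℤ) → B x i = B y i) ∧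
  (∀ i j, 0 ≤ i → i ≤ (S : ℤ) → 0 ≤ j → j ≤ (S : ℤ) → B x i ≠ 0 → B x j ≠ 0 → i = j) ∧
  (W x n - W y n = 1 ∨ W y n - W x n = 1) ∧
  ∀ i, 0 ≤ i → i ≤ (S : ℤ) → prec (B x) n i → W x i = W y i

lemma pr_of {S : ℕ} {n : ℤ} (h0 : 0 ≤ n) (h1 : n ≤ S) {x y : M}
    (h : (φ n x, φ n y) ∈ P S ∨ (φ n y, φ n x) ∈ P S) : Pr S n x y := by
  have k : ∀ x y : M, (φ n x, φ n y) ∈ P S → ∃ l : ℤ → ZMod 5 × ZMod 5 × ZMod 5, _ ∧
      ∀ i, 0 ≤ i → i ≤ (S : ℤ) → |i - n| ≤ S ∧ W x i = (l (i - n)).1 ∧ W y i = (l (i - n)).2.1 ∧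
        B x i = (l (i - n)).2.2 ∧ B y i = (l (i - n)).2.2 := fun x y ⟨l, a, b⟩ => ⟨l, a, fun i i0 i1 => by
    have q : |i - n| ≤ S := abs_le.2 ⟨by omega, by omega⟩
    have := b _ q
    simp only [mem_ofPred_eq, φ_zz, sub_add_cancel] at this
    exact ⟨q, lab_eq this.1, lab_eq this.2.1, lab_eq this.2.2.1, lab_eq this.2.2.2⟩⟩
  have pp : ∀ (b b' : ℤ → ZMod 5) (i : ℤ), (∀ i, 0 ≤ i → i ≤ (S : ℤ) → b i = b' (i - n)) → 0 ≤ i → i ≤ S →
      prec b n i → prec b' 0 (i - n) := fun b b' i e i0 i1 h =>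
    h.imp (fun h => ⟨by omega, fun j a a' => by
      have := e (j + n) (by omega) (by omega)
      rw [add_sub_cancel_right] at this
      exact this ▸ h.2 _ (by omega) (by omega)⟩) fun ⟨h, j, a, a', a''⟩ =>
        ⟨by omega, j - n, by omega, by omega, e j (by omega) (by omega) ▸ a''⟩
  rcases h with h | h <;> obtain ⟨l, ⟨a, b, d⟩, e⟩ := k _ _ h <;>
    have e0 := e n h0 h1 <;> rw [sub_self] at e0 <;>
    refine ⟨fun i i0 i1 => by simp only [e i i0 i1], fun i j i0 i1 j0 j1 u v => ?_, by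
      simp only [e0]; tauto, fun i i0 i1 u => ?_⟩
  · have := a _ _ (e i i0 i1).1 (e j j0 j1).1 ((e i i0 i1).2.2.2.1 ▸ u) ((e j j0 j1).2.2.2.1 ▸ v); omega
  · simp only [e i i0 i1]; exact d _ (e i i0 i1).1 (pp _ _ _ (fun i a b => (e i a b).2.2.2.1) i0 i1 u)
  · have := a _ _ (e i i0 i1).1 (e j j0 j1).1 ((e i i0 i1).2.2.2.2 ▸ u) ((e j j0 j1).2.2.2.2 ▸ v); omega
  · simp only [e i i0 i1]
    exact (d _ (e i i0 i1).1 (pp _ _ _ (fun i a b => (e i a b).2.2.2.2) i0 i1 u)).symm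

lemma clique {α : Type} (S : ℕ) (Q : Finset α) (g : α → M)
    (h : ∀ x ∈ Q, ∀ y ∈ Q, x ≠ y → ∃ n : ℤ, 0 ≤ n ∧ n ≤ S ∧ Pr S n (g x) (g y)) :
    Q.card ≤ 2 ^ (S + 1) := by
  classical
  rcases Q.eq_empty_or_nonempty with rfl | ⟨x0, h0⟩
  · simp
  have := lex Q (fun x => W (g x)) (Finset.Icc 0 S)
    (fun i => if ∃ j, 0 ≤ j ∧ j ≤ i ∧ B (g x0) j ≠ 0 then i - (S + 1) else i)
    (fun i hi j hj e => by
      simp only [Finset.coe_Icc, mem_Icc] at hi hj e; split_ifs at e <;> omega) fun x hx y hy ne => by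
    obtain ⟨n, n0, n1, -, a, b, d⟩ := h x hx y hy ne
    have e : ∀ i, 0 ≤ i → i ≤ (S : ℤ) → B (g x0) i = B (g x) i := by
      by_cases q : x0 = x
      · simp [q]
      · exact (h x0 h0 x hx q).choose_spec.2.2.1
    refine ⟨n, Finset.mem_Icc.2 ⟨n0, n1⟩, b, fun i hi l => ?_⟩
    obtain ⟨i0, i1⟩ := Finset.mem_Icc.1 hi
    refine d i i0 i1 ?_
    split_ifs at l with u v v
    · obtain ⟨j, j0, j1, j2⟩ := u
      refine Or.inl ⟨by omega, fun k k0 k1 => by_contra fun k2 => ?_⟩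
      have := a j k j0 (by omega) (by omega) (by omega) (e j j0 (by omega) ▸ j2) k2; omega
    · obtain ⟨j, j0, j1, j2⟩ := u
      have : n < j := by_contra fun q => v ⟨j, j0, by omega, j2⟩
      exact Or.inr ⟨by omega, j, this, j1, e j j0 (by omega) ▸ j2⟩
    · omega
    · exact Or.inl ⟨l, fun k k0 k1 => by_contra fun k2 =>
        v ⟨k, by omega, k1, e k (by omega) (by omega) ▸ k2⟩⟩
  simpa using this

def u (k : ℕ) (x : ZMod (k + 1) → ZMod 5) (n : ℤ) : ZMod 5 := (if n < k + 1 then 1 else 2) * x n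
def mk (k : ℕ) (n : ℤ) : ZMod 5 := if (k + 1 : ℤ) ∣ n then 1 else 0

def R1 (k : ℕ) : Set (M × M) := {z | ∃ x y : ZMod (k + 1) → ZMod 5, ∃ t : ℕ, t < 2 * (k + 1) ∧
  z = (φ (t : ℤ) (ι (u k x) (mk k)), φ (t : ℤ) (ι (u k y) (mk k))) ∧
  (u k x t - u k y t = 1 ∨ u k y t - u k x t = 1) ∧
  ∀ i : ℤ, 0 ≤ i → i < t % (k + 1) → x i = y i}

lemma R1_P {k S : ℕ} (h : 2 * S + 2 < k) : R1 k ⊆ P S := by
  rintro _ ⟨x, y, t, ht, rfl, a, b⟩
  refine ⟨fun i => (u k x (i + t), u k y (i + t), mk k (i + t)), ⟨fun i j hi hj p q => ?_,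
    by simpa using a, fun i hi p => ?_⟩, fun i _ => ?_⟩
  · simp only [mk, ne_eq, ite_eq_right_iff, not_forall] at p q
    have := Int.eq_zero_of_abs_lt_dvd (dvd_sub p.1 q.1)
      (by rw [abs_le] at hi hj; rw [abs_lt]; omega)
    omega
  · have d : (k + 1 : ℤ) ∣ t - t % (k + 1) := Int.dvd_self_sub_emod
    have r0 : 0 ≤ (t : ℤ) % (k + 1) := Int.emod_nonneg _ (by omega)
    generalize (t : ℤ) % (k + 1) = r at *
    suffices x (i + t : ℤ) = y (i + t : ℤ) by simp only [u, this]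
    rw [abs_le] at hi
    rcases p with ⟨p, q⟩ | ⟨p, j, j0, j1, q⟩
    · have : -r ≤ i := by_contra fun n => by
        have := q (-r) (by omega) (by omega)
        simp only [mk, neg_add_eq_sub, if_pos d] at this
        exact absurd this (by decide)
      rw [← (ZMod.intCast_eq_intCast_iff_dvd_sub (i + r) (i + t) (k + 1)).2 (by simpa using d)]
      exact b _ (by omega) (by omega)
    · simp only [mk, ne_eq, ite_eq_right_iff, not_forall] at q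
      have := Int.le_of_dvd (by omega) (dvd_sub q.1 d)
      rw [← (ZMod.intCast_eq_intCast_iff_dvd_sub (i + r - (k + 1)) (i + t) (k + 1)).2
        (by simpa [show i + t - (i + r - (k + 1)) = t - r + (k + 1) by ring] using d)]
      exact b _ (by omega) (by omega)
  · simp only [mem_ofPred_eq, φ_zz]
    exact ⟨(hι _ _ _).2.1, (hι _ _ _).2.1, (hι _ _ _).2.2, (hι _ _ _).2.2⟩

lemma dist_le1 (x y : M) : dist x.1.1 y.1.1 ≤ dist x y :=
  (le_max_left _ _).trans (le_max_left (dist x.1 y.1) (dist x.2 y.2))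

theorem q1 : ∃ D, IsMetric D ∧ Osc fun T => sep (DT φ D T) 1 := by
  classical
  let E : ℕ → Finset M := fun m => (Finset.range (m + 1)).biUnion fun k =>
    (Finset.univ ×ˢ Finset.range (2 * (k + 1))).image fun p => φ (p.2 : ℤ) (ι (u k p.1) (mk k))
  obtain ⟨L, L1, L2⟩ := levels fun m => (E m).card
  have Z : closure (⋃ k ∈ L, R1 k) ⊆ {z | z.1.2 = 1 ∧ z.2.2 = 1 ∧ 1 / 100 ≤ dist z.1 z.2} := by
    refine closure_minimal (iUnion₂_subset ?_) (.and (isClosed_eq (by fun_prop) (by fun_prop))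
      (.and (isClosed_eq (by fun_prop) (by fun_prop)) (isClosed_le (by fun_prop) (by fun_prop))))
    rintro k - _ ⟨x, y, t, -, rfl, a, -⟩
    refine ⟨(hι _ _ _).1, (hι _ _ _).1, le_trans ?_ (dist_le1 _ _)⟩
    have : u k x t ≠ u k y t := fun e => by simp [e] at a; exact absurd a (by decide)
    dsimp only
    linarith [c_sep this, (hι (u k x) (mk k) t).2.1, (hι (u k y) (mk k) t).2.1, dist_triangle4_left
      (φ (t : ℤ) (ι (u k x) (mk k))).1.1 (φ (t : ℤ) (ι (u k y) (mk k))).1.1 (c (u k x t)) (c (u k y t))]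
  have lo : ∀ k ∈ L, ∀ x y : ZMod (k + 1) → ZMod 5, x ≠ y → Adj (closure (⋃ k ∈ L, R1 k))
      (2 * (k + 1) : ℕ) (ι (u k x) (mk k)) (ι (u k y) (mk k)) := fun k hk x y ne => by
    have ex : ∃ i : ℕ, x i ≠ y i := by
      obtain ⟨i, hi⟩ := Function.ne_iff.1 ne
      exact ⟨i.val, by simpa using hi⟩
    have lt : Nat.find ex < k + 1 := by_contra fun n => Nat.find_min ex
      (m := Nat.find ex - (k + 1)) (by omega) (by
        rw [Nat.cast_sub (by omega), ZMod.natCast_self, sub_zero]; exact Nat.find_spec ex)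
    have mn : ∀ i : ℤ, 0 ≤ i → i < Nat.find ex → x i = y i := fun i i0 i1 => by
      obtain ⟨i, rfl⟩ := Int.eq_ofNat_of_zero_le i0
      simpa using Nat.find_min ex (m := i) (by omega)
    have sp := Nat.find_spec ex
    generalize Nat.find ex = i at *
    have d : ∀ a b : ZMod 5, a ≠ b → (a - b = 1 ∨ b - a = 1) ∨ (2 * a - 2 * b = 1 ∨ 2 * b - 2 * a = 1) := by
      decide
    suffices ∃ t : ℕ, t < 2 * (k + 1) ∧ (u k x t - u k y t = 1 ∨ u k y t - u k x t = 1) ∧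
        (t : ℤ) % (k + 1) = i by
      obtain ⟨t, a, b, e⟩ := this
      exact ⟨t, ⟨by positivity, by exact_mod_cast a.le⟩, Or.inl (subset_closure
        (mem_biUnion hk ⟨x, y, t, a, by simp, b, e ▸ mn⟩))⟩
    have em : (i : ℤ) % (k + 1) = i := Int.emod_eq_of_lt (by omega) (by omega)
    rcases d _ _ sp with h | h
    · exact ⟨i, by omega, by simpa [u, show (i : ℤ) < k + 1 by omega] using h, em⟩
    · refine ⟨i + (k + 1), by omega, ?_, by simpa using em⟩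
      have : (((i + (k + 1) : ℕ) : ℤ) : ZMod (k + 1)) = i := by
        rw [Int.cast_natCast, Nat.cast_add, ZMod.natCast_self, add_zero]
      simp only [u, this]
      rwa [if_neg (by omega)]
  refine sep_osc (R := closure (⋃ k ∈ L, R1 k)) isClosed_closure ?_ (fun p hp => (Z hp).2.2)
    (a := 3 / 4) (b := log 5 / 2) ?_ (by norm_num) (fun n => ?_) fun n => ?_
  · obtain ⟨k, hk, -⟩ := L1 0
    obtain ⟨t, -, h | h⟩ := lo k hk 0 1 (fun e => absurd (show (0 : ZMod 5) = 1 from congrFun e 0) (by decide)) <;> exact ⟨_, h⟩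
  · have := one_sub_inv_le_log_of_pos (x := 5 / 4) (by norm_num)
    rw [log_div (by norm_num) (by norm_num), show (4 : ℝ) = 2 ^ 2 by norm_num, log_pow] at this
    norm_num at this; linarith [log_two_gt_d9]
  · obtain ⟨m, S, a, b, d⟩ := L2 n
    refine ⟨S, by omega, fun Q hQ => ?_⟩
    have sub : closure (⋃ k ∈ L, R1 k) ⊆ (E m : Set M) ×ˢ (E m : Set M) ∪ P S := by
      refine closure_minimal (iUnion₂_subset fun k hk z hz => (d k hk).imp (fun l => ?_) (R1_P · hz))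
        (((E m).finite_toSet.prod (E m).finite_toSet).isClosed.union (P_closed S))
      obtain ⟨x, y, t, ht, rfl, -⟩ := hz
      constructor <;> simp only [E, Finset.mem_coe, Finset.mem_biUnion, Finset.mem_image] <;>
        exact ⟨k, by simp; omega, (_, t), by simpa using ht, rfl⟩
    have : Q.card ≤ 2 ^ (S + 1) + (S + 1) * (E m).card := by
      rcases Q.eq_empty_or_nonempty with rfl | ⟨x0, h0⟩
      · simp
      obtain ⟨t0, -, ht⟩ := phase x0.2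
      have ph : ∀ x ∈ Q, x.2 = x0.2 := fun x hx => by
        by_contra q
        obtain ⟨t, -, h | h⟩ := hQ x hx x0 h0 (fun e => q (e ▸ rfl)) <;>
          exact q (mul_right_cancel (b := Circle.exp (2 * π * t)) (by
            rw [← φ_snd, ← φ_snd, (Z h).1, (Z h).2.1]))
      rw [← Finset.card_filter_add_card_filter_not (s := Q) fun x => ∀ n ≤ S, φ (n + t0) x ∉ E m]
      refine add_le_add (clique S _ (φ t0) fun x hx y hy ne => ?_) ?_
      · obtain ⟨hx, hx'⟩ := Finset.mem_filter.1 hx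
        obtain ⟨t, t1, h⟩ := hQ x hx y (Finset.mem_filter.1 hy).1 ne
        obtain ⟨n, n1, rfl⟩ := (ht x.1).2 S t t1 (by
          rw [← ph x hx]; exact h.elim (fun h => (Z h).1) fun h => (Z h).2.1)
        refine ⟨n, by omega, by omega, pr_of (by omega) (by omega) ?_⟩
        simp only [Int.cast_natCast, ← φ_add]
        exact h.imp (fun h => (sub h).resolve_left fun e => hx' n n1 e.1)
          fun h => (sub h).resolve_left fun e => hx' n n1 e.2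
      · refine (Finset.card_le_card (t := (Finset.range (S + 1) ×ˢ E m).image
          fun p => φ (-(p.1 + t0)) p.2) fun x hx => ?_).trans (Finset.card_image_le.trans (by simp))
        have := (Finset.mem_filter.1 hx).2
        push Not at this
        obtain ⟨n, n1, e⟩ := this
        exact Finset.mem_image.2 ⟨(n, φ (n + t0) x), Finset.mem_product.2 ⟨by simp; omega, e⟩, by
          simp only [← φ_add, neg_add_cancel, φ_zero]⟩
    have c1 : (Q.card : ℝ) ≤ 2 * 2 ^ S + (S + 1) * (E m).card := by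
      rw [← pow_succ']; exact_mod_cast this
    have s0 : (40 : ℝ) ≤ S := by exact_mod_cast (by omega)
    have c2 : (2 : ℝ) ^ S ≤ exp (7 / 10 * S) := by
      rw [← exp_log (show (0 : ℝ) < 2 ^ S by positivity), log_pow]
      exact exp_le_exp.2 (by nlinarith [log_two_lt_d9])
    have c3 := exp_le_exp.2 (show 1 / 4 * (S : ℝ) ≤ 7 / 10 * S by linarith)
    have c4 := add_one_le_exp (S / 20)
    rw [show 3 / 4 * (S : ℝ) = 7 / 10 * S + S / 20 by ring, exp_add]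
    nlinarith [exp_pos (7 / 10 * S)]
  · obtain ⟨k, hk, l⟩ := L1 n
    refine ⟨2 * (k + 1), by omega, Finset.univ.image fun x => ι (u k x) (mk k), ?_, ?_⟩
    · simp only [Finset.forall_mem_image]
      exact fun x _ y _ h => lo k hk x y fun e => h (e ▸ rfl)
    · rw [Finset.card_image_of_injective _ fun x y e => by_contra fun ne => ?_]
      · rw [show log 5 / 2 * (2 * (k + 1) : ℕ) = (k + 1 : ℕ) * log 5 by push_cast; ring, exp_nat_mul,
          exp_log (by norm_num)]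
        simp
      · obtain ⟨t, -, h⟩ := lo k hk x y ne
        rw [show ι _ _ = _ from e, or_self] at h
        have := (Z h).2.2; norm_num at this

end Pool.Agent.H43.Flw
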