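import Pool.Agent.H43.Flw3

open Set Metric Real Filter Topology

namespace Pool.Agent.H43.Flw

def v (k : ℕ) (x : Fin k → Bool) (n : ℤ) : ZMod 5 :=
  if ∃ i : Fin k, n = k + i ∧ x i then 1 else 0

def R2 (k : ℕ) : Set (M × M) := ⋃ x : Fin k → Bool, ⋃ t : Fin (2 * k),
  {z | z.1 = φ ((t : ℕ) : ℤ) (ι (v k x) 0) ∧ 1 / 3 ≤ dist z.2.1.1 (c (v k x t)) ∧
    ∀ i : ℕ, i < t → dist (φ ((i : ℤ) - t : ℤ) z.2).1.1 (c (v k x i)) ≤ 1 / 3}

lemma R2_closed (k : ℕ) : IsClosed (R2 k) :=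
  isClosed_iUnion_of_finite fun x => isClosed_iUnion_of_finite fun t =>
    .and (isClosed_eq (by fun_prop) (by fun_prop)) (.and (isClosed_le (by fun_prop) (by fun_prop)) (by
      simp only [ofPred_forall]
      refine isClosed_iInter fun i => isClosed_iInter fun _ => ?_
      have := φ_cont2 ((i : ℤ) - t : ℤ)
      generalize φ ((i : ℤ) - t : ℤ) = g at this ⊢
      exact isClosed_le (by fun_prop) (by fun_prop)))

def P2 (S : ℕ) : Set (M × M) := {z | ∃ l : (ℤ → ZMod 5) × Bool,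
  (l.2 = true → ∀ i, |i| ≤ (S : ℤ) → l.1 i = 0) ∧ ∀ i, |i| ≤ (S : ℤ) →
    z ∈ {z : M × M | dist (φ i z.1).1.1 (c (l.1 i)) ≤ 8 / 25 ∧
      (i < 0 → l.2 = false → dist (φ i z.2).1.1 (c (l.1 i)) ≤ 1 / 3)}}

lemma P2_closed (S : ℕ) : IsClosed (P2 S) :=
  closedL S _ (fun (l : (ℤ → ZMod 5) × Bool) i => (l.1 i, l.2))
    (fun (a : ZMod 5 × Bool) (i : ℤ) => {z : M × M | dist (φ i z.1).1.1 (c a.1) ≤ 8 / 25 ∧
      (i < 0 → a.2 = false → dist (φ i z.2).1.1 (c a.1) ≤ 1 / 3)}) fun a i => by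
    have := φ_cont2 i
    generalize φ i = g at this ⊢
    refine .and (isClosed_le (by fun_prop) (by fun_prop)) ?_
    simp only [ofPred_forall]
    exact isClosed_iInter fun _ => isClosed_iInter fun _ => isClosed_le (by fun_prop) (by fun_prop)

lemma R2_P {k S : ℕ} (h : 2 * S < k) : R2 k ⊆ P2 S := by
  rintro ⟨z, y⟩ hz
  simp only [R2, mem_iUnion, mem_ofPred_eq] at hz
  obtain ⟨x, t, rfl, -, b⟩ := hz
  refine ⟨(fun i => v k x (i + t), decide ((t : ℕ) < S)), fun p i hi => ?_, fun i hi =>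
    ⟨by rw [φ_zz]; exact (hι _ _ _).2.1, fun i0 p => ?_⟩⟩ <;> rw [abs_le] at hi <;> simp at p
  · exact if_neg fun ⟨j, a, _⟩ => by omega
  · obtain ⟨j, hj⟩ := Int.eq_ofNat_of_zero_le (show 0 ≤ i + t by omega)
    have := b j (by omega)
    rwa [← hj, add_sub_cancel_right] at this

def Z : Set (M × M) := {z | z.1.2 = 1 ∧ dist z.1.1.2 (c 0) ≤ 8 / 25 ∧
  ∃ a, dist z.1.1.1 (c a) ≤ 8 / 25 ∧ 1 / 3 ≤ dist z.2.1.1 (c a)}

lemma Z_closed : IsClosed Z :=
  .and (isClosed_eq (by fun_prop) (by fun_prop)) (.and (isClosed_le (by fun_prop) (by fun_prop)) (by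
    simp only [ofPred_exists]
    exact isClosed_iUnion_of_finite fun a =>
      .and (isClosed_le (by fun_prop) (by fun_prop)) (isClosed_le (by fun_prop) (by fun_prop))))

theorem q2 : ∃ D, IsMetric D ∧ Osc fun T => span (DT φ D T) 1 := by
  classical
  let E : ℕ → Finset (ℤ → ZMod 5) := fun m => (Finset.range (m + 1)).biUnion fun k =>
    (Finset.univ ×ˢ Finset.range (2 * k)).image fun p i => v k p.1 (i + p.2)
  obtain ⟨L, L1, L2⟩ := levels fun m => (E m).card
  have hZ : closure (⋃ k ∈ L, R2 k) ⊆ Z := by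
    refine closure_minimal (iUnion₂_subset fun k _ ⟨z, y⟩ hz => ?_) Z_closed
    simp only [R2, mem_iUnion, mem_ofPred_eq] at hz
    obtain ⟨x, t, rfl, a, -⟩ := hz
    exact ⟨(hι _ _ _).1, (hι _ _ _).2.2, _, (hι _ _ _).2.1, a⟩
  have c01 := c_sep (show (0 : ZMod 5) ≠ 1 by decide)
  have lo : ∀ k ∈ L, ∀ x y, ¬ Adj (closure (⋃ k ∈ L, R2 k)) (2 * k : ℕ) y (ι (v k x) 0) →
      ∀ t : ℕ, t < 2 * k → dist (φ (t : ℤ) y).1.1 (c (v k x t)) < 1 / 3 := fun k hk x y h t => by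
    induction t using Nat.strong_induction_on with | _ t ih => ?_
    intro ht
    refine not_le.1 fun q => h ⟨(t : ℤ), ⟨by positivity, by exact_mod_cast ht.le⟩, Or.inr
      (subset_closure (mem_biUnion hk (mem_iUnion₂.2 ⟨x, ⟨t, ht⟩, rfl, q, fun i hi => ?_⟩)))⟩
    simp only [φ_zz, sub_add_cancel]
    exact (ih i hi (by omega)).le
  refine span_osc (R := closure (⋃ k ∈ L, R2 k)) isClosed_closure ?_ (fun p hp => ?_)
    (a := 1 / 4) (b := log 2 / 2) (by linarith [log_two_gt_d9]) (by norm_num) (fun n => ?_) fun n => ?_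
  · obtain ⟨k, hk, l⟩ := L1 1
    by_contra n
    have := lo k hk (fun _ => false) (ι 1 0) (fun ⟨t, _, h⟩ => n (h.elim (⟨_, ·⟩) (⟨_, ·⟩))) 0 (by omega)
    have a := (hι 1 0 (0 : ℕ)).2.1
    simp only [v, Bool.false_eq_true, and_false, exists_false, if_false, Pi.one_apply] at this a
    linarith [(dist_triangle_left _ _ _).trans (add_le_add this.le a)]
  · obtain ⟨-, -, a, h1, h2⟩ := hZ hp
    linarith [dist_le1 p.1 p.2, dist_triangle_left p.2.1.1 (c a) p.1.1.1]
  · obtain ⟨m, S, b0, b, d⟩ := L2 n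
    let A : Finset (ℤ → ZMod 5) := insert 0 (insert 1
      ((Finset.range (S + 1) ×ˢ E m).image fun p i => p.2 (i - p.1)))
    refine ⟨S, by omega, (({1 / 3, 1} : Finset ℝ) ×ˢ A).image fun p => φ (-p.1) (ι p.2 1),
      fun z => ?_, le_trans ?_ b⟩
    · obtain ⟨t0, h0, ht⟩ := phase z.2
      obtain ⟨τ, hτ, hτ'⟩ : ∃ τ ∈ ({1 / 3, 1} : Finset ℝ), |t0 - τ| ≤ 1 / 3 := by
        rcases le_total t0 (2 / 3) with h | h
        exacts [⟨1 / 3, by simp, abs_le.2 ⟨by linarith [h0.1], by linarith⟩⟩,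
          ⟨1, by simp, abs_le.2 ⟨by linarith, by linarith [h0.2]⟩⟩]
      have sh : ∀ a (n : ℤ), dist (φ n (φ t0 (φ (-τ) (ι a 1)))).1.1 (c (a n)) ≤ 8 / 25 := fun a n => by
        have := (hι a 1 n).2.1
        rw [ι, φ_int] at this
        rwa [← φ_add, ← φ_add, add_assoc, ← sub_eq_add_neg, ι, φ_near n hτ']
      suffices ∃ a ∈ A, ∀ n : ℕ, n ≤ S → (φ (n : ℤ) (φ t0 z), φ (n : ℤ) (φ t0 (φ (-τ) (ι a 1)))) ∉
          closure (⋃ k ∈ L, R2 k) by
        obtain ⟨a, ha, h⟩ := this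
        refine ⟨_, Finset.mem_image.2 ⟨(τ, a), Finset.mem_product.2 ⟨hτ, ha⟩, rfl⟩, ?_⟩
        rintro ⟨t, t1, q | q⟩
        · obtain ⟨q1, q2, -⟩ := hZ q
          simp only [← φ_add] at q1 q2
          obtain ⟨j, hj⟩ := Circle.exp_eq_one.1 ((one_mul _).symm.trans q1)
          rw [show t + -τ = j by nlinarith [pi_pos]] at q2
          linarith [(hι a 1 j).2.2, dist_triangle_left (c 0) (c 1) (φ j (ι a 1)).1.2, Pi.one_apply
            (M := fun _ : ℤ => ZMod 5) j ▸ (hι a 1 j).2.2]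
        · obtain ⟨n, n1, rfl⟩ := (ht z.1).2 S t t1 (hZ q).1
          exact h n n1 (by simpa only [φ_add, Int.cast_natCast] using q)
      generalize φ t0 z = w
      have same : ∀ a : ℤ → ZMod 5, (∀ n : ℕ, n ≤ S → dist (φ (n : ℤ) w).1.1 (c (a n)) ≤ 8 / 25) →
          ∀ n : ℕ, n ≤ S → (φ (n : ℤ) w, φ (n : ℤ) (φ t0 (φ (-τ) (ι a 1)))) ∉
            closure (⋃ k ∈ L, R2 k) := fun a h n n1 q => by
        obtain ⟨-, -, e, q1, q2⟩ := hZ q
        obtain rfl : e = a n := c_uniq (q1.trans (by norm_num)) ((h n n1).trans (by norm_num))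
        linarith [sh a n]
      by_cases c1 : ∃ n : ℕ, n ≤ S ∧ ∃ e ∈ E m, ∀ i : ℤ, dist (φ i (φ (n : ℤ) w)).1.1 (c (e i)) ≤ 8 / 25
      · obtain ⟨n, n1, e, he, h⟩ := c1
        refine ⟨fun i => e (i - n), by
          simp only [A, Finset.mem_insert, Finset.mem_image]
          exact Or.inr (Or.inr ⟨(n, e), by simp [he]; omega, rfl⟩), same _ fun j _ => ?_⟩
        simpa only [φ_zz, sub_add_cancel] using h (j - n)
      by_cases c2 : ∀ n : ℕ, n ≤ S → dist (φ (n : ℤ) w).1.1 (c 0) ≤ 8 / 25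
      · exact ⟨0, by simp [A], same _ c2⟩
      obtain ⟨a, ha, h⟩ : ∃ a ∈ A, ¬ dist (φ (-1 : ℤ) w).1.1 (c (a (-1))) ≤ 8 / 25 := by
        by_cases q : dist (φ (-1 : ℤ) w).1.1 (c 0) ≤ 8 / 25
        · exact ⟨1, by simp [A], fun q' => absurd (c_uniq (q.trans (by norm_num))
            (q'.trans (by norm_num))) (by decide)⟩
        · exact ⟨0, by simp [A], q⟩
      refine ⟨a, ha, fun n n1 q => ?_⟩
      have sub : closure (⋃ k ∈ L, R2 k) ⊆ (⋃ k ∈ Iic m, R2 k) ∪ P2 (S + 1) :=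
        closure_minimal (iUnion₂_subset fun k hk z hz => (d k hk).imp (mem_biUnion · hz) (R2_P · hz))
          (((finite_Iic m).isClosed_biUnion fun k _ => R2_closed k).union (P2_closed _))
      rcases sub q with q | ⟨⟨l, fl⟩, q1, q2⟩
      · simp only [R2, mem_iUnion, mem_ofPred_eq] at q
        obtain ⟨k, hk, x, t, e, -⟩ := q
        refine c1 ⟨n, n1, fun i => v k x (i + t), ?_, fun i => by rw [e, φ_zz]; exact (hι _ _ _).2.1⟩
        simp only [E, Finset.mem_biUnion, Finset.mem_image]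
        exact ⟨k, by simpa [Nat.lt_succ_iff] using hk, (x, t), by simp, rfl⟩
      cases fl
      · obtain ⟨i, j⟩ := q2 (-1 - n) (by rw [abs_le]; omega)
        have j := j (by omega) rfl
        simp only [φ_zz, sub_add_cancel] at i j
        exact h (c_uniq j ((sh a (-1)).trans (by norm_num)) ▸ i)
      · refine c2 fun j hj => ?_
        have p : |(j : ℤ) - n| ≤ (S + 1 : ℕ) := by rw [abs_le]; omega
        simpa only [φ_zz, sub_add_cancel, show l _ = 0 from q1 rfl _ p] using (q2 _ p).1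
    · have : A.card ≤ (S + 1) * (E m).card + 1 + 1 := (Finset.card_insert_le _ _).trans (by
        gcongr; exact (Finset.card_insert_le _ _).trans (by
          gcongr; exact Finset.card_image_le.trans (by simp)))
      exact_mod_cast Finset.card_image_le.trans (by
        rw [Finset.card_product, Finset.card_pair (by norm_num)]; omega)
  · obtain ⟨k, hk, l⟩ := L1 n
    refine ⟨2 * k, by omega, fun Q hQ => ?_⟩
    choose g g1 g2 using hQ
    have := Finset.card_le_card_of_injOn (s := Finset.univ) (t := Q)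
      (fun x : Fin k → Bool => g (ι (v k x) 0)) (fun x _ => g1 _) fun x _ y _ e => by
        funext i
        have a := lo k hk x _ (g2 _) (k + i) (by omega)
        rw [show g _ = _ from e] at a
        have := c_uniq a.le (lo k hk y _ (g2 _) (k + i) (by omega)).le
        simp only [v, Nat.cast_add, add_right_inj, Nat.cast_inj, Fin.val_inj, exists_eq_left'] at this
        have n : (0 : ZMod 5) ≠ 1 := by decide
        split_ifs at this <;> simp_all
    rw [show log 2 / 2 * (2 * k : ℕ) = k * log 2 by push_cast; ring, exp_nat_mul, exp_log (by norm_num)]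
    exact_mod_cast (by simpa using this)

end Pool.Agent.H43.Flw
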