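import Pool.Agent.H43.Flw4

open Manifold

namespace Pool.Agent.H43.FlwD

/-- the 3-torus -/
abbrev T3 := (Circle × Circle) × Circle

/-- its model with corners -/
noncomputable abbrev I3 := ((𝓡 1).prod (𝓡 1)).prod (𝓡 1)

/-- `ψ` is a `C^1` flow on the 3-torus -/
def IsFlow (ψ : ℝ → T3 → T3) : Prop :=
  ContMDiff (𝓘(ℝ, ℝ).prod I3) I3 1 (fun p : ℝ × T3 => ψ p.1 p.2) ∧ (∀ x, ψ 0 x = x) ∧
    ∀ s t x, ψ (s + t) x = ψ s (ψ t x)

end Pool.Agent.H43.FlwD
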