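import Pool.Agent.H45.SRWDefs

set_option autoImplicit false

namespace Pool.Agent.H43.Harm

open MeasureTheory

/-- Mean-value property for simple random walk. -/
def IsHarmonic {V : Type} (G : SimpleGraph V) [G.LocallyFinite] (f : V → ℝ) : Prop :=
  ∀ x, f x = (∑ y ∈ G.neighborFinset x, f y) / G.degree x

/-- Lipschitz for the graph distance. -/
def IsLipschitz {V : Type} (G : SimpleGraph V) (f : V → ℝ) : Prop :=
  ∃ C : ℝ, ∀ x y, |f x - f y| ≤ C * G.dist x y

/-- At least two ends: removing some finite set leaves two different infinite components. -/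
def TwoEnds {V : Type} (G : SimpleGraph V) : Prop :=
  ∃ (K : Finset V) (C D : G.ComponentCompl (K : Set V)),
    C ≠ D ∧ (C : Set V).Infinite ∧ (D : Set V).Infinite

/-- Simple random walk returns to its starting vertex with probability less than one. -/
def Transient {V : Type} [MeasurableSpace V] [Countable V] [MeasurableSingletonClass V]
    (G : SimpleGraph V) : Prop :=
  ∀ v, Pool.Agent.H45.Chain.pathLaw (Pool.Agent.H45.Chain.srw G) v
    {x | ∃ t, 1 ≤ t ∧ x t = v} < 1

end Pool.Agent.H43.Harm
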