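import Pool.Agent.H43.HarmDefs

set_option autoImplicit false

namespace Pool.Agent.H43.Harm

open Finset Filter Topology

variable {V : Type} (G : SimpleGraph V) [G.LocallyFinite]

omit [G.LocallyFinite] in
lemma lip_of_adj (hc : G.Connected) (f : V → ℝ) (C : ℝ) (h : ∀ x y, G.Adj x y → |f x - f y| ≤ C)
    (x y : V) : |f x - f y| ≤ C * G.dist x y := by
  have key : ∀ (x y : V) (p : G.Walk x y), |f x - f y| ≤ C * p.length := by
    intro x y p
    induction p with
    | nil => simp
    | @cons a b c hab p ih =>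
      have := abs_sub_le (f a) (f b) (f c)
      have h2 := h a b hab
      simp only [SimpleGraph.Walk.length_cons]
      push_cast
      linarith
  obtain ⟨p, hp⟩ := hc.exists_walk_length_eq_dist x y
  rw [← hp]
  exact key x y p

/-- Dirichlet problem with values in `[0,1]`. -/
lemma dirichlet (T : Finset V) (b : V → ℝ) (hb : ∀ x, b x ∈ Set.Icc (0 : ℝ) 1) :
    ∃ u : V → ℝ, (∀ x, u x ∈ Set.Icc (0 : ℝ) 1) ∧ (∀ x, x ∉ T → u x = b x) ∧
      ∀ x ∈ T, u x = (∑ y ∈ G.neighborFinset x, u y) / G.degree x := by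
  classical
  have hav : ∀ (u : V → unitInterval) (x : V),
      (∑ y ∈ G.neighborFinset x, (u y : ℝ)) / G.degree x ∈ Set.Icc (0 : ℝ) 1 := by
    intro u x
    refine ⟨div_nonneg (Finset.sum_nonneg fun y _ => (u y).2.1) (Nat.cast_nonneg _), ?_⟩
    refine div_le_one_of_le₀ ?_ (Nat.cast_nonneg _)
    calc _ ≤ ∑ _y ∈ G.neighborFinset x, (1 : ℝ) := Finset.sum_le_sum fun y _ => (u y).2.2
      _ = _ := by simp
  let Ψ : (V → unitInterval) →o (V → unitInterval) :=
    { toFun := fun u x => if x ∈ T then ⟨_, hav u x⟩ else ⟨b x, hb x⟩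
      monotone' := by
        intro u v huv x
        by_cases hx : x ∈ T
        · simp only [hx, if_true]
          show (∑ y ∈ G.neighborFinset x, (u y : ℝ)) / G.degree x ≤
            (∑ y ∈ G.neighborFinset x, (v y : ℝ)) / G.degree x
          gcongr with y
          exact huv y
        · simp [hx] }
  obtain ⟨w, hfix⟩ : ∃ w, Ψ w = w := ⟨_, Ψ.map_lfp⟩
  refine ⟨fun x => (w x : ℝ), fun x => (w x).2, fun x hx => ?_, fun x hx => ?_⟩
  · have := congrArg Subtype.val (congrFun hfix x)
    simpa [Ψ, hx] using this.symm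
  · have := congrArg Subtype.val (congrFun hfix x)
    simpa [Ψ, hx] using this.symm

open Classical in
/-- adjacent pairs with an endpoint in `T` -/
noncomputable def pairs (T : Finset V) : Finset (V × V) :=
  (T.biUnion fun p => (G.neighborFinset p).image fun q => (p, q)) ∪
    (T.biUnion fun q => (G.neighborFinset q).image fun p => (p, q))

lemma mem_pairs (T : Finset V) (e : V × V) :
    e ∈ pairs G T ↔ G.Adj e.1 e.2 ∧ (e.1 ∈ T ∨ e.2 ∈ T) := by
  obtain ⟨p, q⟩ := e
  simp only [pairs, mem_union, mem_biUnion, mem_image, SimpleGraph.mem_neighborFinset,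
    Prod.mk.injEq]
  constructor
  · rintro (⟨a, ha, b, hb, rfl, rfl⟩ | ⟨a, ha, b, hb, rfl, rfl⟩)
    · exact ⟨hb, Or.inl ha⟩
    · exact ⟨hb.symm, Or.inr ha⟩
  · rintro ⟨h, h1 | h1⟩
    · exact Or.inl ⟨p, h1, q, h, rfl, rfl⟩
    · exact Or.inr ⟨q, h1, p, h.symm, rfl, rfl⟩

/-- Dirichlet form -/
noncomputable def form (T : Finset V) (χ u : V → ℝ) : ℝ :=
  ∑ e ∈ pairs G T, (χ e.1 - χ e.2) * (u e.1 - u e.2)

lemma form_zero (T : Finset V) (χ u : V → ℝ) (hχ : ∀ x, x ∉ T → χ x = 0)
    (hu : ∀ x ∈ T, ∑ y ∈ G.neighborFinset x, (u x - u y) = 0) : form G T χ u = 0 := by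
  classical
  have h1 : ∑ e ∈ pairs G T, χ e.1 * (u e.1 - u e.2) = 0 := by
    have : ∑ e ∈ pairs G T, χ e.1 * (u e.1 - u e.2) =
        ∑ e ∈ T.sigma (fun p => G.neighborFinset p), χ e.1 * (u e.1 - u e.2) := by
      symm
      refine Finset.sum_bij_ne_zero (fun e _ _ => (e.1, e.2)) ?_ ?_ ?_ ?_
      · rintro ⟨p, q⟩ h _
        simp only [mem_sigma, SimpleGraph.mem_neighborFinset] at h
        exact (mem_pairs G T _).2 ⟨h.2, Or.inl h.1⟩
      · rintro ⟨p, q⟩ _ _ ⟨p', q'⟩ _ _ h
        simp only [Prod.mk.injEq] at h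
        obtain ⟨rfl, rfl⟩ := h
        rfl
      · rintro ⟨p, q⟩ h hne
        have hp : p ∈ T := by
          by_contra hp
          simp [hχ p hp] at hne
        refine ⟨⟨p, q⟩, ?_, hne, rfl⟩
        simp only [mem_sigma, SimpleGraph.mem_neighborFinset]
        exact ⟨hp, ((mem_pairs G T _).1 h).1⟩
      · intro e _ _
        rfl
    rw [this, Finset.sum_sigma]
    refine Finset.sum_eq_zero fun p hp => ?_
    simp only
    rw [← Finset.mul_sum, hu p hp, mul_zero]
  have h2 : ∑ e ∈ pairs G T, χ e.2 * (u e.2 - u e.1) = ∑ e ∈ pairs G T, χ e.1 * (u e.1 - u e.2) := by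
    refine Finset.sum_equiv (Equiv.prodComm V V) ?_ (fun e _ => rfl)
    intro e
    simp only [mem_pairs, Equiv.prodComm_apply, Prod.fst_swap, Prod.snd_swap]
    exact ⟨fun h => ⟨h.1.symm, h.2.symm⟩, fun h => ⟨h.1.symm, h.2.symm⟩⟩
  have : form G T χ u = ∑ e ∈ pairs G T, χ e.1 * (u e.1 - u e.2) +
      ∑ e ∈ pairs G T, χ e.2 * (u e.2 - u e.1) := by
    rw [form, ← Finset.sum_add_distrib]
    exact Finset.sum_congr rfl fun e _ => by ring
  rw [this, h2, h1, add_zero]

lemma form_congr (T : Finset V) (χ ψ u : V → ℝ) (hχ : ∀ x, x ∉ T → χ x = ψ x)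
    (hu : ∀ x ∈ T, ∑ y ∈ G.neighborFinset x, (u x - u y) = 0) :
    form G T χ u = form G T ψ u := by
  have := form_zero G T (fun x => χ x - ψ x) u (fun x hx => by simp [hχ x hx]) hu
  rw [← sub_eq_zero, ← this]
  unfold form
  rw [← Finset.sum_sub_distrib]
  exact Finset.sum_congr rfl fun e _ => by ring

lemma approx (hc : G.Connected) (K : Finset V) (A : Set V) (hA : A.Infinite) (hA' : Aᶜ.Infinite)
    (hK : ∀ x y, G.Adj x y → x ∈ A → y ∉ K → y ∈ A) (hK' : ∀ x ∈ A, x ∉ K) (o : V)
    (T : Finset V) (hKT : K ⊆ T) :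
    ∃ f : V → ℝ, f o = 0 ∧ (∀ x y, G.Adj x y → |f x - f y| ≤ 1) ∧
      (∀ x ∈ T, ∑ y ∈ G.neighborFinset x, (f x - f y) = 0) ∧
      form G K (A.indicator 1) f = 1 := by
  classical
  obtain ⟨u, hu1, hu2, hu3⟩ := dirichlet G T (A.indicator 1) (fun x => by
    by_cases hx : x ∈ A <;> simp [hx])
  have hdeg : ∀ x, (G.degree x : ℝ) ≠ 0 := by
    intro x
    have : Nontrivial V := by
      have := hA.to_subtype
      exact (Subtype.val_injective (p := (· ∈ A))).nontrivial
    exact_mod_cast (hc.preconnected.degree_pos_of_nontrivial x).ne'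
  have hu : ∀ x ∈ T, ∑ y ∈ G.neighborFinset x, (u x - u y) = 0 := by
    intro x hx
    rw [Finset.sum_sub_distrib, Finset.sum_const, SimpleGraph.card_neighborFinset_eq_degree,
      nsmul_eq_mul, hu3 x hx, mul_div_cancel₀ _ (hdeg x), sub_self]
  have hsame : ∀ x y, G.Adj x y → x ∉ K → y ∉ K →
      A.indicator (1 : V → ℝ) x = A.indicator 1 y := by
    intro x y hxy hx hy
    by_cases h : x ∈ A
    · simp [h, hK x y hxy h hy]
    · have : y ∉ A := fun h' => h (hK y x hxy.symm h' hx)
      simp [h, this]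
  set I := form G K (A.indicator 1) u with hI
  have hIT : form G T (A.indicator 1) u = I := by
    rw [hI]
    unfold form
    symm
    refine Finset.sum_subset ?_ ?_
    · intro e he
      rw [mem_pairs] at he ⊢
      exact ⟨he.1, he.2.imp (fun h => hKT h) (fun h => hKT h)⟩
    · intro e he he'
      rw [mem_pairs] at he he'
      have h1 : e.1 ∉ K := fun h => he' ⟨he.1, Or.inl h⟩
      have h2 : e.2 ∉ K := fun h => he' ⟨he.1, Or.inr h⟩
      rw [hsame _ _ he.1 h1 h2, sub_self, zero_mul]
  have hI0 : 0 ≤ I := by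
    rw [← hIT, ← form_congr G T u (A.indicator 1) u hu2 hu]
    exact Finset.sum_nonneg fun e _ => mul_self_nonneg _
  have hle : ∀ x y, G.Adj x y → u x - u y ≤ I := by
    intro x y hxy
    by_contra hlt
    push Not at hlt
    have hpos : u y < u x := by linarith
    have hx0 : 0 < u x := lt_of_le_of_lt (hu1 y).1 hpos
    have hmem : (x, y) ∈ pairs G T := by
      rw [mem_pairs]
      refine ⟨hxy, ?_⟩
      by_contra hn
      push Not at hn
      rw [hu2 x hn.1, hu2 y hn.2, hsame x y hxy (fun h => hn.1 (hKT h)) (fun h => hn.2 (hKT h))]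
        at hpos
      exact lt_irrefl _ hpos
    have e := form_congr G T (fun z => if u x ≤ u z then 1 else 0) (A.indicator 1) u (by
      intro z hz
      rw [hu2 z hz]
      by_cases h : z ∈ A
      · simp [h, (hu1 x).2]
      · simp [h, hx0]) hu
    rw [hIT] at e
    have := Finset.single_le_sum (f := fun e : V × V =>
      ((if u x ≤ u e.1 then (1 : ℝ) else 0) - (if u x ≤ u e.2 then 1 else 0)) * (u e.1 - u e.2))
      (fun e _ => by
        split_ifs with h1 h2 h2
        · simp
        · push Not at h2; nlinarith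
        · push Not at h1; nlinarith
        · simp) hmem
    simp only [le_refl, if_true, not_le.2 hpos, if_false, sub_zero, one_mul] at this
    have e' : form G T (fun z => if u x ≤ u z then 1 else 0) u = I := e
    unfold form at e'
    linarith
  have habs : ∀ x y, G.Adj x y → |u x - u y| ≤ I := fun x y h =>
    abs_le.2 ⟨by linarith [hle y x h.symm], hle x y h⟩
  have hIpos : 0 < I := by
    rcases hI0.lt_or_eq with h | h
    · exact h
    obtain ⟨a, ha, haT⟩ := hA.exists_notMem_finset T
    obtain ⟨b, hb, hbT⟩ := hA'.exists_notMem_finset T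
    have := lip_of_adj G hc u I habs a b
    rw [← h, hu2 a haT, hu2 b hbT] at this
    have hb' : b ∉ A := hb
    norm_num [ha, hb'] at this
  refine ⟨fun x => (u x - u o) / I, by simp, fun x y h => ?_, fun x hx => ?_, ?_⟩
  · rw [← sub_div, abs_div, abs_of_pos hIpos, div_le_one hIpos]
    rw [sub_sub_sub_cancel_right]
    exact habs x y h
  · simp only [← sub_div, sub_sub_sub_cancel_right]
    rw [← Finset.sum_div, hu x hx, zero_div]
  · have : form G K (A.indicator 1) (fun x => (u x - u o) / I) =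
        form G K (A.indicator 1) u / I := by
      unfold form
      rw [Finset.sum_div]
      exact Finset.sum_congr rfl fun e _ => by ring
    rw [this, ← hI, div_self hIpos.ne']

theorem exists_harmonic (hc : G.Connected) (he : TwoEnds G) :
    ∃ f : V → ℝ, IsHarmonic G f ∧ IsLipschitz G f ∧ ∃ x y, f x ≠ f y := by
  classical
  obtain ⟨K, C, D, hCD, hC, hD⟩ := he
  have hD' : (C : Set V)ᶜ.Infinite := hD.mono fun x hx hx' =>
    Set.disjoint_left.1 (SimpleGraph.ComponentCompl.pairwise_disjoint hCD) hx' hx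
  obtain ⟨o⟩ := hc.nonempty
  choose F hF0 hF1 hF2 hF3 using fun T : Finset V => approx G hc K (C : Set V) hC hD'
    (fun x y hxy hx hy => SimpleGraph.ComponentCompl.mem_of_adj x y hx hy hxy)
    (fun x hx => SimpleGraph.ComponentCompl.notMem_of_mem hx) o (T ∪ K) Finset.subset_union_right
  have hZ : IsCompact (Set.pi Set.univ fun x : V => Set.Icc (-(G.dist x o : ℝ)) (G.dist x o)) :=
    isCompact_univ_pi fun x => isCompact_Icc
  let U : Ultrafilter (Finset V) := Ultrafilter.of atTop
  have hU : (U : Filter (Finset V)) ≤ atTop := Ultrafilter.of_le _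
  obtain ⟨f, -, hf⟩ := hZ.ultrafilter_le_nhds (U.map F) (by
    rw [Ultrafilter.coe_map, le_principal_iff, Filter.mem_map]
    refine Eventually.of_forall fun T x _ => ?_
    have := lip_of_adj G hc (F T) 1 (hF1 T) x o
    rw [hF0, sub_zero, one_mul] at this
    exact abs_le.1 this)
  have hf' : Tendsto F U (𝓝 f) := hf
  have h1 : ∀ x y, G.Adj x y → |f x - f y| ≤ 1 := by
    intro x y hxy
    have hcl : IsClosed {g : V → ℝ | |g x - g y| ≤ 1} :=
      isClosed_le (by fun_prop) continuous_const
    exact hcl.mem_of_tendsto hf' (Eventually.of_forall fun T => hF1 T x y hxy)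
  have h2 : ∀ x, ∑ y ∈ G.neighborFinset x, (f x - f y) = 0 := by
    intro x
    have hcl : IsClosed {g : V → ℝ | ∑ y ∈ G.neighborFinset x, (g x - g y) = 0} :=
      isClosed_eq (by fun_prop) continuous_const
    refine hcl.mem_of_tendsto hf' (hU ?_)
    filter_upwards [eventually_ge_atTop ({x} : Finset V)] with T hT
    exact hF2 T x (Finset.mem_union_left _ (hT (Finset.mem_singleton_self x)))
  have h3 : form G K ((C : Set V).indicator 1) f = 1 := by
    have hcl : IsClosed {g : V → ℝ | form G K ((C : Set V).indicator 1) g = 1} :=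
      isClosed_eq (by unfold form; fun_prop) continuous_const
    exact hcl.mem_of_tendsto hf' (Eventually.of_forall fun T => hF3 T)
  refine ⟨f, fun x => ?_, ⟨1, lip_of_adj G hc f 1 h1⟩, ?_⟩
  · have hdeg : (G.degree x : ℝ) ≠ 0 := by
      have : Nontrivial V := by
        have := hC.to_subtype
        exact (Subtype.val_injective (p := (· ∈ (C : Set V)))).nontrivial
      exact_mod_cast (hc.preconnected.degree_pos_of_nontrivial x).ne'
    have := h2 x
    rw [Finset.sum_sub_distrib, Finset.sum_const, SimpleGraph.card_neighborFinset_eq_degree,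
      nsmul_eq_mul] at this
    field_simp
    linarith
  · by_contra hn
    push Not at hn
    have : form G K ((C : Set V).indicator 1) f = 0 :=
      Finset.sum_eq_zero fun e _ => by rw [hn e.1 e.2, sub_self, mul_zero]
    rw [this] at h3
    exact zero_ne_one h3

end Pool.Agent.H43.Harm
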