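import Pool.Agent.H45.Chain
import Pool.Agent.H45.SRWDefs

set_option autoImplicit false

namespace Pool.Agent.H43.RW

open MeasureTheory ProbabilityTheory Finset Filter Topology Pool.Agent.H45.Chain
open scoped ENNReal

variable {V : Type} [MeasurableSpace V] [Countable V] [MeasurableSingletonClass V]

lemma srw_sum (G : SimpleGraph V) (v : V) [Fintype (G.neighborSet v)] (h : 0 < G.degree v)
    (g : V → ℝ≥0∞) :
    ∑' w, srw G v {w} * g w = (∑ w ∈ G.neighborFinset v, g w) / G.degree v := by
  classical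
  have hfin : (G.neighborSet v).Finite ∧ (G.neighborSet v).Nonempty :=
    ⟨Set.toFinite _, by
      obtain ⟨w, hw⟩ := (G.degree_pos_iff_exists_adj v).1 h
      exact ⟨w, hw⟩⟩
  have e : ∀ w, srw G v {w} = if w ∈ G.neighborFinset v then (G.degree v : ℝ≥0∞)⁻¹ else 0 := by
    intro w
    simp only [srw, Kernel.ofFunOfCountable, Kernel.coe_mk, if_pos hfin]
    rw [← SimpleGraph.coe_neighborFinset, ← Finset.coe_singleton, uniformOn_apply_finset]
    split_ifs with hw
    · rw [Finset.inter_singleton_of_mem hw]; simp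
    · rw [Finset.inter_singleton_of_notMem hw]; simp
  rw [tsum_eq_sum (s := G.neighborFinset v) fun w hw => by rw [e, if_neg hw, zero_mul],
    ENNReal.div_eq_inv_mul, Finset.mul_sum]
  exact Finset.sum_congr rfl fun w hw => by rw [e, if_pos hw]

lemma meas_fun (g : V → ℝ≥0∞) : Measurable g := measurable_of_countable g

lemma meas_sum (g : V → ℝ≥0∞) (N : ℕ) : Measurable fun x : ℕ → V => ∑ t ∈ range N, g (x t) :=
  Finset.measurable_sum _ fun t _ => (meas_fun g).comp (measurable_pi_apply t)

/-- Green function bound from a Lyapunov function. -/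
lemma green_le (K : Kernel V V) [IsMarkovKernel K] (W g : V → ℝ≥0∞)
    (h : ∀ u, ∑' w, K u {w} * W w + g u ≤ W u) (u : V) :
    ∫⁻ x, ∑' t, g (x t) ∂pathLaw K u ≤ W u := by
  have key : ∀ N : ℕ, ∀ u, ∫⁻ x, ∑ t ∈ range N, g (x t) ∂pathLaw K u ≤ W u := by
    intro N
    induction N with
    | zero => intro u; simp
    | succ N ih =>
      intro u
      rw [lintegral_first_step K u _ (meas_sum g _)]
      refine le_trans ?_ (h u)
      have e : ∀ w, ∫⁻ x, ∑ t ∈ range (N + 1), g (cons u x t) ∂pathLaw K w ≤ W w + g u := by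
        intro w
        simp only [Finset.sum_range_succ', cons_succ, cons_zero]
        rw [lintegral_add_right _ measurable_const]
        simp only [lintegral_const, measure_univ, mul_one]
        gcongr
        exact ih w
      calc _ ≤ ∑' w, K u {w} * (W w + g u) := ENNReal.tsum_le_tsum fun w => by gcongr; exact e w
        _ = _ := by
          simp only [mul_add]
          rw [ENNReal.tsum_add, ENNReal.tsum_mul_right, tsum_kernel, one_mul]
  simp only [ENNReal.tsum_eq_iSup_nat]
  rw [lintegral_iSup (fun N => meas_sum g N)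
    (fun a b hab x => Finset.sum_le_sum_of_subset (Finset.range_mono hab))]
  exact iSup_le fun N => key N u

lemma ae_summable (K : Kernel V V) [IsMarkovKernel K] (W g : V → ℝ≥0∞)
    (h : ∀ u, ∑' w, K u {w} * W w + g u ≤ W u) (u : V) (hu : W u ≠ ⊤) :
    ∀ᵐ x ∂pathLaw K u, Tendsto (fun t => g (x t)) atTop (𝓝 0) := by
  have := ae_lt_top (μ := pathLaw K u) (f := fun x => ∑' t, g (x t))
    (Measurable.tsum fun t => (meas_fun g).comp (measurable_pi_apply t))
    (ne_top_of_le_ne_top hu (green_le K W g h u))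
  filter_upwards [this] with x hx
  exact ENNReal.tendsto_atTop_zero_of_tsum_ne_top hx.ne

lemma ae_start (K : Kernel V V) [IsMarkovKernel K] (u : V) : ∀ᵐ x ∂pathLaw K u, x 0 = u := by
  have hm : MeasurableSet {a : ℕ → V | ¬a 0 = u} := by
    have h1 : Measurable fun x : ℕ → V => x 0 := by fun_prop
    exact h1 (measurableSet_singleton u).compl
  rw [ae_iff, measure_first_step K u _ hm]
  have : cons u ⁻¹' {a : ℕ → V | ¬a 0 = u} = ∅ := by ext x; simp
  rw [this]
  simp

lemma ae_step (K : Kernel V V) [IsMarkovKernel K] (R : V → V → Prop)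
    (h : ∀ u w, K u {w} ≠ 0 → R u w) (u : V) : ∀ᵐ x ∂pathLaw K u, ∀ t, R (x t) (x (t + 1)) := by
  rw [ae_all_iff]
  intro t
  have hm : ∀ t : ℕ, MeasurableSet {x : ℕ → V | ¬ R (x t) (x (t + 1))} := fun t => by
    have h1 : Measurable fun x : ℕ → V => (x t, x (t + 1)) := by fun_prop
    exact h1 (Set.to_countable {p : V × V | ¬ R p.1 p.2}).measurableSet
  induction t generalizing u with
  | zero =>
    rw [ae_iff, measure_first_step K u _ (hm 0), ENNReal.tsum_eq_zero]
    intro w
    by_cases hw : K u {w} = 0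
    · simp [hw]
    · refine mul_eq_zero_of_right _ ?_
      refine measure_mono_null ?_ (ae_iff.1 (ae_start K w))
      intro x hx hx0
      apply hx
      simp only [cons_zero, zero_add, cons_succ, hx0]
      exact h u w hw
  | succ t ih =>
    rw [ae_iff, measure_first_step K u _ (hm (t + 1)), ENNReal.tsum_eq_zero]
    intro w
    exact mul_eq_zero_of_right _ (ae_iff.1 (ih w))

/-- hitting probabilities are bounded by superharmonic functions -/
lemma hit_le (K : Kernel V V) [IsMarkovKernel K] (o : V) (h : V → ℝ≥0∞) (ho : 1 ≤ h o)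
    (hs : ∀ u, u ≠ o → ∑' w, K u {w} * h w ≤ h u) (u : V) :
    pathLaw K u {x | ∃ t, x t = o} ≤ h u := by
  have hm : ∀ N : ℕ, MeasurableSet {x : ℕ → V | ∃ t < N, x t = o} := by
    intro N
    have : {x : ℕ → V | ∃ t < N, x t = o} =
      ⋃ t, ⋃ _ : t < N, (fun x : ℕ → V => x t) ⁻¹' {o} := by ext x; simp
    rw [this]
    exact MeasurableSet.iUnion fun t => MeasurableSet.iUnion fun _ =>
      measurable_pi_apply t (measurableSet_singleton o)
  have key : ∀ N : ℕ, ∀ u, pathLaw K u {x | ∃ t < N, x t = o} ≤ h u := by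
    intro N
    induction N with
    | zero => intro u; simp
    | succ N ih =>
      intro u
      by_cases hu : u = o
      · subst hu; exact prob_le_one.trans ho
      rw [measure_first_step K u _ (hm _)]
      refine le_trans (ENNReal.tsum_le_tsum fun w => ?_) (hs u hu)
      gcongr
      refine le_trans (measure_mono ?_) (ih w)
      rintro x ⟨t, ht, hx⟩
      cases t with
      | zero => exact absurd hx hu
      | succ t => exact ⟨t, by omega, hx⟩
  have : {x : ℕ → V | ∃ t, x t = o} = ⋃ N, {x | ∃ t < N, x t = o} := by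
    ext x
    simp only [Set.mem_ofPred_eq, Set.mem_iUnion]
    exact ⟨fun ⟨t, ht⟩ => ⟨t + 1, t, by omega, ht⟩, fun ⟨_, t, _, ht⟩ => ⟨t, ht⟩⟩
  have hmono : Monotone fun N : ℕ => {x : ℕ → V | ∃ t < N, x t = o} := by
    rintro a b hab x ⟨t, ht, hx⟩
    exact ⟨t, by omega, hx⟩
  rw [this, hmono.measure_iUnion]
  exact iSup_le fun N => key N u

lemma return_le (K : Kernel V V) [IsMarkovKernel K] (o : V) (h : V → ℝ≥0∞) (ho : 1 ≤ h o)
    (hs : ∀ u, u ≠ o → ∑' w, K u {w} * h w ≤ h u) :
    pathLaw K o {x | ∃ t, 1 ≤ t ∧ x t = o} ≤ ∑' w, K o {w} * h w := by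
  have hm : MeasurableSet {x : ℕ → V | ∃ t, 1 ≤ t ∧ x t = o} := by
    have : {x : ℕ → V | ∃ t, 1 ≤ t ∧ x t = o} =
      ⋃ t, ⋃ _ : 1 ≤ t, (fun x : ℕ → V => x t) ⁻¹' {o} := by ext x; simp
    rw [this]
    exact MeasurableSet.iUnion fun t => MeasurableSet.iUnion fun _ =>
      measurable_pi_apply t (measurableSet_singleton o)
  rw [measure_first_step K o _ hm]
  refine ENNReal.tsum_le_tsum fun w => ?_
  gcongr
  refine le_trans (measure_mono ?_) (hit_le K o h ho hs w)
  rintro x ⟨t, ht, hx⟩
  obtain ⟨s, rfl⟩ : ∃ s, t = s + 1 := ⟨t - 1, by omega⟩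
  exact ⟨s, hx⟩

end Pool.Agent.H43.RW
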