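import Pool.Agent.H43.HarmDefs
import Pool.Agent.H43.RW

set_option autoImplicit false

namespace Pool.Agent.H43.Harm

open Finset Function MeasureTheory
open scoped ENNReal

/-- Liouville property for bounded harmonic functions on abelian groups. -/
lemma liouville {A ι : Type} [AddCommGroup A] [Fintype ι] (s : ι → A) (h : A → ℝ) (B : ℝ)
    (hB : ∀ z, |h z| ≤ B) (hh : ∀ z, ∑ i, (h (z + s i) - h z) = 0) (j : ι) (z : A) :
    h (z + s j) ≤ h z := by
  classical
  let g : A → ℝ := fun z => h (z + s j) - h z
  have hg : ∀ z, ∑ i, (g (z + s i) - g z) = 0 := by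
    intro z
    have e : ∀ i, g (z + s i) - g z = (h (z + s j + s i) - h (z + s j)) - (h (z + s i) - h z) := by
      intro i
      simp only [g, add_right_comm z (s i) (s j)]
      ring
    rw [Finset.sum_congr rfl fun i _ => e i, Finset.sum_sub_distrib, hh, hh, sub_zero]
  have hbdd : BddAbove (Set.range g) := ⟨2 * B, by
    rintro _ ⟨z, rfl⟩
    have h1 := abs_le.1 (hB z)
    have h2 := abs_le.1 (hB (z + s j))
    simp only [g]; linarith⟩
  set M := ⨆ z, g z with hM
  have hle : ∀ z, g z ≤ M := fun z => le_ciSup hbdd z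
  set c : ℝ := (Fintype.card ι : ℝ) with hc
  have hc1 : 1 ≤ c := by
    have : 0 < Fintype.card ι := Fintype.card_pos_iff.2 ⟨j⟩
    rw [hc]; exact_mod_cast this
  have step : ∀ z δ, M - δ ≤ g z → M - c * δ ≤ g (z + s j) := by
    intro z δ hz
    have h1 : M - g (z + s j) ≤ ∑ i, (M - g (z + s i)) :=
      Finset.single_le_sum (f := fun i => M - g (z + s i)) (fun i _ => by linarith [hle (z + s i)])
        (Finset.mem_univ j)
    have h2 : ∑ i, (M - g (z + s i)) = c * (M - g z) := by
      have := hg z
      rw [Finset.sum_sub_distrib] at this ⊢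
      simp only [sum_const, card_univ, nsmul_eq_mul, ← hc] at this ⊢
      linarith
    nlinarith
  have iter : ∀ (N : ℕ) (z : A) (δ : ℝ), 0 ≤ δ → M - δ ≤ g z →
      N * M - c ^ N * N * δ ≤ h (z + N • s j) - h z := by
    intro N
    induction N with
    | zero => intro z δ _ _; simp
    | succ N ih =>
      intro z δ hδ hz
      have h1 := ih (z + s j) (c * δ) (by positivity) (step z δ hz)
      have e : z + s j + N • s j = z + (N + 1) • s j := by rw [succ_nsmul]; abel
      rw [e] at h1
      have h2 : 1 ≤ c ^ (N + 1) := one_le_pow₀ hc1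
      simp only [g] at hz
      push_cast
      have : c ^ N * N * (c * δ) = c ^ (N + 1) * N * δ := by ring
      nlinarith
  by_contra hlt
  push Not at hlt
  have hMpos : 0 < M := lt_of_lt_of_le (by simp only [g]; linarith) (hle z)
  obtain ⟨N, hN⟩ := exists_nat_gt ((2 * B + 1) / M)
  rw [div_lt_iff₀ hMpos] at hN
  have hpos : 0 < c ^ N * N + 1 := by positivity
  obtain ⟨w, hw⟩ := exists_lt_of_lt_ciSup
    (show M - 1 / (c ^ N * N + 1) < ⨆ z, g z by rw [← hM]; simp; positivity)
  have h1 := iter N w _ (by positivity) hw.le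
  have h2 : c ^ N * N * (1 / (c ^ N * N + 1)) ≤ 1 := by
    rw [mul_one_div, div_le_one hpos]; linarith
  have h3 := abs_le.1 (hB w)
  have h4 := abs_le.1 (hB (w + N • s j))
  linarith

abbrev Oct := Fin 5 → ℕ

def up (x : Oct) (i : Fin 5) : Oct := update x i (x i + 1)
def dn (x : Oct) (i : Fin 5) : Oct := update x i (x i - 1)

def octG : SimpleGraph Oct where
  Adj x y := ∃ i, y = up x i ∨ x = up y i
  symm := ⟨fun _ _ ⟨i, h⟩ => ⟨i, h.symm⟩⟩
  loopless := ⟨fun x ⟨i, h⟩ => by
    have := congrFun (h.elim id id) i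
    simp [up] at this⟩

def nbr (x : Oct) : Finset Oct :=
  (univ.image (up x)) ∪ ((univ.filter fun i => x i ≠ 0).image (dn x))

lemma mem_nbr (x y : Oct) : y ∈ nbr x ↔ octG.Adj x y := by
  simp only [nbr, mem_union, mem_image, mem_univ, true_and, mem_filter, octG]
  constructor
  · rintro (⟨i, rfl⟩ | ⟨i, hi, rfl⟩)
    · exact ⟨i, Or.inl rfl⟩
    · refine ⟨i, Or.inr ?_⟩
      simp only [up, dn, update_self, update_idem]
      rw [show x i - 1 + 1 = x i by omega, update_eq_self]
  · rintro ⟨i, rfl | rfl⟩
    · exact Or.inl ⟨i, rfl⟩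
    · refine Or.inr ⟨i, by simp [up], ?_⟩
      simp [up, dn]

noncomputable instance octLF : octG.LocallyFinite := fun x =>
  Fintype.ofFinset (nbr x) (mem_nbr x)

lemma nbr_eq (x : Oct) : octG.neighborFinset x = nbr x := by
  ext y; rw [mem_nbr, SimpleGraph.mem_neighborFinset]

lemma sum_nbr (x : Oct) (φ : Oct → ℝ) :
    ∑ y ∈ octG.neighborFinset x, (φ y - φ x) =
      ∑ i, ((φ (up x i) - φ x) + (φ (dn x i) - φ x)) := by
  rw [nbr_eq, nbr, Finset.sum_union, Finset.sum_image, Finset.sum_image, Finset.sum_filter,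
    Finset.sum_add_distrib]
  · congr 1
    refine Finset.sum_congr rfl fun i _ => ?_
    split_ifs with h
    · rfl
    · push Not at h
      have : dn x i = x := by rw [dn, show x i - 1 = x i by omega, update_eq_self]
      simp [this]
  · intro i hi j _ hij
    by_contra hne
    have := congrFun hij i
    simp only [coe_filter, mem_univ, true_and, Set.mem_ofPred_eq] at hi
    simp only [dn, update_self, update_of_ne hne] at this
    omega
  · intro i _ j _ hij
    by_contra hne
    have := congrFun hij i
    simp [up, update_of_ne hne] at this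
  · rw [Finset.disjoint_left]
    intro y hy hy'
    simp only [mem_image, mem_univ, true_and, mem_filter] at hy hy'
    obtain ⟨i, rfl⟩ := hy
    obtain ⟨j, -, hj⟩ := hy'
    have := congrFun hj i
    by_cases hij : i = j
    · subst hij; simp [up, dn] at this
    · simp [up, dn, update_of_ne hij] at this

lemma deg_le (x : Oct) : octG.degree x ≤ 10 := by
  rw [← SimpleGraph.card_neighborFinset_eq_degree, nbr_eq, nbr]
  refine (card_union_le _ _).trans ?_
  have h1 : (univ.image (up x)).card ≤ 5 := card_image_le.trans (by simp)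
  have h2 : ((univ.filter fun i => x i ≠ 0).image (dn x)).card ≤ 5 :=
    card_image_le.trans ((card_filter_le _ _).trans (by simp))
  omega

lemma deg_pos (x : Oct) : 0 < octG.degree x :=
  (octG.degree_pos_iff_exists_adj x).2 ⟨up x 0, 0, Or.inl rfl⟩

lemma oct_conn : octG.Connected := by
  have key : ∀ (n : ℕ) (x : Oct), ∑ i, x i = n → octG.Reachable x 0 := by
    intro n
    induction n with
    | zero =>
      intro x hx
      have : x = 0 := funext fun i => (Finset.sum_eq_zero_iff.1 hx) i (mem_univ i)
      rw [this]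
    | succ n ih =>
      intro x hx
      obtain ⟨i, -, hi⟩ := Finset.exists_ne_zero_of_sum_ne_zero (s := univ) (f := x) (by omega)
      have hadj : octG.Adj x (dn x i) := (mem_nbr x _).1 (by
        simp only [nbr, mem_union, mem_image, mem_univ, true_and, mem_filter]
        exact Or.inr ⟨i, hi, rfl⟩)
      refine hadj.reachable.trans (ih _ ?_)
      simp only [dn]
      rw [Finset.sum_update_of_mem (mem_univ i)]
      rw [← Finset.add_sum_erase _ _ (mem_univ i), ← Finset.sdiff_singleton_eq_erase] at hx
      omega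
  exact ⟨fun x y => (key _ x rfl).trans (key _ y rfl).symm⟩

def fold (z : ℤ) : ℕ := if 0 ≤ z then z.toNat else (-1 - z).toNat

lemma harm_const (f : Oct → ℝ) (hf : IsHarmonic octG f) (hl : IsLipschitz octG f) (x y : Oct) :
    f x = f y := by
  obtain ⟨C, hC⟩ := hl
  have hadj : ∀ x y, octG.Adj x y → |f x - f y| ≤ C := by
    intro x y hxy
    have := hC x y
    rwa [SimpleGraph.dist_eq_one_iff_adj.2 hxy, Nat.cast_one, mul_one] at this
  have hC0 : 0 ≤ C := (abs_nonneg _).trans (hadj 0 (up 0 0) ⟨0, Or.inl rfl⟩)
  have hsum : ∀ x, ∑ i, ((f (up x i) - f x) + (f (dn x i) - f x)) = 0 := by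
    intro x
    rw [← sum_nbr, Finset.sum_sub_distrib, Finset.sum_const,
      SimpleGraph.card_neighborFinset_eq_degree, nsmul_eq_mul]
    have h1 := hf x
    have : (octG.degree x : ℝ) ≠ 0 := by exact_mod_cast (deg_pos x).ne'
    rw [eq_div_iff this] at h1
    linarith
  have hdn : ∀ x i, |f (dn x i) - f x| ≤ C := by
    intro x i
    by_cases h : x i = 0
    · have : dn x i = x := by rw [dn, show x i - 1 = x i by omega, update_eq_self]
      simp [this, hC0]
    · refine hadj _ _ ⟨i, Or.inl ?_⟩
      simp only [up, dn, update_self, update_idem]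
      rw [show x i - 1 + 1 = x i by omega, update_eq_self]
  have hup : ∀ x i, |f (up x i) - f x| ≤ C := fun x i => hadj _ _ ⟨i, Or.inr rfl⟩
  let P : (Fin 5 → ℤ) → Oct := fun z i => fold (z i)
  let e : Fin 5 → (Fin 5 → ℤ) := fun i => Pi.single i 1
  have hP : ∀ z i, (P (z + e i) = up (P z) i ∧ P (z + -e i) = dn (P z) i) ∨
      (P (z + e i) = dn (P z) i ∧ P (z + -e i) = up (P z) i) := by
    intro z i
    by_cases hz : 0 ≤ z i
    · left
      constructor <;> funext k <;> by_cases hk : k = i
      · subst hk; simp only [P, e, up, fold, update_self, Pi.add_apply, Pi.single_eq_same]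
        split_ifs <;> omega
      · simp [P, e, up, update_of_ne hk, Pi.single_eq_of_ne hk]
      · subst hk
        simp only [P, e, dn, fold, update_self, Pi.add_apply, Pi.neg_apply, Pi.single_eq_same]
        split_ifs <;> omega
      · simp [P, e, dn, update_of_ne hk, Pi.single_eq_of_ne hk]
    · right
      constructor <;> funext k <;> by_cases hk : k = i
      · subst hk; simp only [P, e, dn, fold, update_self, Pi.add_apply, Pi.single_eq_same]
        split_ifs <;> omega
      · simp [P, e, dn, update_of_ne hk, Pi.single_eq_of_ne hk]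
      · subst hk
        simp only [P, e, up, fold, update_self, Pi.add_apply, Pi.neg_apply, Pi.single_eq_same]
        split_ifs <;> omega
      · simp [P, e, up, update_of_ne hk, Pi.single_eq_of_ne hk]
  let s : Fin 5 ⊕ Fin 5 → (Fin 5 → ℤ) := Sum.elim e fun i => -e i
  let F : (Fin 5 → ℤ) → ℝ := fun z => f (P z)
  have hF : ∀ z, ∑ i, (F (z + s i) - F z) = 0 := by
    intro z
    rw [Fintype.sum_sum_type, ← Finset.sum_add_distrib, ← hsum (P z)]
    refine Finset.sum_congr rfl fun i _ => ?_
    simp only [s, F, Sum.elim_inl, Sum.elim_inr]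
    rcases hP z i with h | h <;> rw [h.1, h.2]
    ring
  have hgrad : ∀ j z, F (z + e j) = F z := by
    intro j
    let g : (Fin 5 → ℤ) → ℝ := fun z => F (z + e j) - F z
    have hgB : ∀ z, |g z| ≤ C := by
      intro z
      simp only [g, F]
      rcases hP z j with h | h <;> rw [h.1]
      · exact hup _ _
      · exact hdn _ _
    have hg : ∀ z, ∑ i, (g (z + s i) - g z) = 0 := by
      intro z
      have e1 : ∀ i, g (z + s i) - g z =
          (F (z + e j + s i) - F (z + e j)) - (F (z + s i) - F z) := by
        intro i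
        simp only [g, add_right_comm z (s i) (e j)]
        ring
      rw [Finset.sum_congr rfl fun i _ => e1 i, Finset.sum_sub_distrib, hF, hF, sub_zero]
    have hinv : ∀ z, g (z + e j) = g z := by
      intro z
      have h1 := liouville s g C hgB hg (Sum.inl j) z
      have h2 := liouville s g C hgB hg (Sum.inr j) (z + e j)
      simp only [s, Sum.elim_inl, Sum.elim_inr, add_neg_cancel_right] at h1 h2
      exact le_antisymm h1 h2
    have hall : ∀ (k : ℤ) z, g (z + k • e j) = g z := by
      intro k
      induction k using Int.induction_on with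
      | zero => simp
      | succ k ih => intro z; rw [add_smul, one_smul, ← add_assoc, hinv, ih]
      | pred k ih =>
        intro z
        rw [← hinv, ← ih z]
        congr 1
        rw [sub_smul, one_smul]; abel
    intro z
    have h1 := hall (-1 - z j) z
    have h2 : g (z + (-1 - z j) • e j) = 0 := by
      simp only [g, F]
      rw [sub_eq_zero]
      congr 1
      funext k
      by_cases hk : k = j
      · subst hk
        simp [P, e, fold]
      · simp [P, e, Pi.single_eq_of_ne hk]
    have : g z = 0 := by rw [← h1, h2]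
    exact sub_eq_zero.1 this
  have hup0 : ∀ x i, f (up x i) = f x := by
    intro x i
    have h1 := hgrad i (fun k => (x k : ℤ))
    have h2 : P (fun k => (x k : ℤ)) = x := by funext k; simp [P, fold]
    have h3 : P ((fun k => (x k : ℤ)) + e i) = up x i := by
      funext k
      by_cases hk : k = i
      · subst hk
        simp only [P, e, up, fold, update_self, Pi.add_apply, Pi.single_eq_same]
        split_ifs <;> omega
      · simp [P, e, up, fold, update_of_ne hk, Pi.single_eq_of_ne hk]
    simpa only [F, h2, h3] using h1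
  obtain ⟨p⟩ := oct_conn x y
  induction p with
  | nil => rfl
  | cons h _ ih =>
    rw [← ih]
    obtain ⟨i, rfl | rfl⟩ := h
    · exact (hup0 _ _).symm
    · exact hup0 _ _

noncomputable def sq (x : Oct) : ℝ := ∑ i, (2 * (x i : ℝ) + 1) ^ 2

lemma sq_up (x : Oct) (i : Fin 5) : sq (up x i) = sq x + 4 + 4 * (2 * (x i : ℝ) + 1) := by
  unfold sq
  rw [← Finset.add_sum_erase _ _ (mem_univ i), ← Finset.add_sum_erase _ _ (mem_univ i)]
  rw [Finset.sum_congr rfl (fun k hk => by rw [up, update_of_ne (Finset.ne_of_mem_erase hk)])]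
  simp only [up, update_self]
  push_cast
  ring

lemma sq_dn (x : Oct) (i : Fin 5) : sq (dn x i) = sq x + 4 - 4 * (2 * (x i : ℝ) + 1) := by
  unfold sq
  rw [← Finset.add_sum_erase _ _ (mem_univ i), ← Finset.add_sum_erase _ _ (mem_univ i)]
  rw [Finset.sum_congr rfl (fun k hk => by rw [dn, update_of_ne (Finset.ne_of_mem_erase hk)])]
  simp only [dn, update_self]
  rcases Nat.eq_zero_or_pos (x i) with h | h
  · rw [h]; norm_num
  · rw [Nat.cast_sub h]; push_cast; ring

noncomputable def pot (x : Oct) : ℝ := 1 / (sq x + 16)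

lemma pair_ineq (s y : ℝ) (hs : 0 < s) (hy : y ^ 2 ≤ s) :
    1 / (s + 4 + 4 * y + 16) + 1 / (s + 4 - 4 * y + 16) ≤
      2 / (s + 20) + 40 * y ^ 2 / (s + 20) ^ 3 := by
  have hA : 80 * y ^ 2 ≤ (s + 20) ^ 2 := by nlinarith [sq_nonneg (s - 20)]
  have h1 : 0 < s + 4 + 4 * y + 16 := by nlinarith [sq_nonneg (y + 2)]
  have h2 : 0 < s + 4 - 4 * y + 16 := by nlinarith [sq_nonneg (y - 2)]
  have h3 : 0 < s + 20 := by linarith
  rw [div_add_div _ _ h1.ne' h2.ne', div_add_div _ _ h3.ne' (by positivity),
    div_le_div_iff₀ (by positivity) (by positivity)]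
  have key : 0 ≤ (s + 20) * y ^ 2 * ((s + 20) ^ 2 - 80 * y ^ 2) :=
    mul_nonneg (by positivity) (by linarith)
  nlinarith

lemma pot_super (x : Oct) : ∑ y ∈ octG.neighborFinset x, (pot y - pot x) < 0 := by
  rw [sum_nbr]
  have hs : 0 < sq x := Finset.sum_pos (fun i _ => by positivity) univ_nonempty
  have hy : ∀ i, (2 * (x i : ℝ) + 1) ^ 2 ≤ sq x := fun i =>
    Finset.single_le_sum (f := fun i => (2 * (x i : ℝ) + 1) ^ 2) (fun i _ => by positivity)
      (mem_univ i)
  calc _ ≤ ∑ i, (2 / (sq x + 20) + 40 * (2 * (x i : ℝ) + 1) ^ 2 / (sq x + 20) ^ 3 - 2 * pot x) := by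
        refine Finset.sum_le_sum fun i _ => ?_
        have := pair_ineq (sq x) _ hs (hy i)
        simp only [pot, sq_up, sq_dn] at this ⊢
        linarith
    _ = 10 / (sq x + 20) + 40 * sq x / (sq x + 20) ^ 3 - 10 / (sq x + 16) := by
        rw [Finset.sum_sub_distrib, Finset.sum_add_distrib, ← Finset.sum_div, ← Finset.sum_div,
          ← Finset.mul_sum]
        simp only [sum_const, card_univ, Fintype.card_fin, nsmul_eq_mul, pot]
        change _ + 40 * sq x / _ - _ = _
        push_cast
        ring
    _ < 0 := by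
        rw [sub_neg, div_add_div _ _ (by positivity) (by positivity),
          div_lt_div_iff₀ (by positivity) (by positivity)]
        nlinarith [pow_pos hs 2, pow_pos hs 3]

lemma pot_pos (x : Oct) : 0 < pot x := by
  have hs : 0 ≤ sq x := Finset.sum_nonneg (fun i _ => by positivity)
  unfold pot; positivity

theorem oct_transient : Transient octG := by
  intro v
  let h : Oct → ℝ≥0∞ := fun x => ENNReal.ofReal (pot x / pot v)
  have hv := pot_pos v
  have hlt : ∀ u, ∑' w, Pool.Agent.H45.Chain.srw octG u {w} * h w < h u := by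
    intro u
    rw [RW.srw_sum octG u (deg_pos u), ← ENNReal.ofReal_sum_of_nonneg
      (fun y _ => div_nonneg (pot_pos y).le hv.le), ← ENNReal.ofReal_natCast,
      ← ENNReal.ofReal_div_of_pos (by exact_mod_cast deg_pos u),
      ENNReal.ofReal_lt_ofReal_iff (div_pos (pot_pos u) hv)]
    have := pot_super u
    rw [Finset.sum_sub_distrib, Finset.sum_const, SimpleGraph.card_neighborFinset_eq_degree,
      nsmul_eq_mul] at this
    have hd : (0 : ℝ) < octG.degree u := by exact_mod_cast deg_pos u
    rw [← Finset.sum_div, div_right_comm, div_lt_div_iff_of_pos_right hv, div_lt_iff₀ hd]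
    linarith
  have h1 : h v = 1 := by simp [h, hv.ne']
  exact (RW.return_le _ v h h1.ge (fun u _ => (hlt u).le)).trans_lt (h1 ▸ hlt v)

end Pool.Agent.H43.Harm
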