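import Mathlib

set_option autoImplicit false

noncomputable section

namespace Pool.Agent.H43.Is

open Finset

/-- The box `{1,…,L}²`. -/
def box (L : ℕ) : Finset (ℤ × ℤ) := Icc (1 : ℤ) L ×ˢ Icc (1 : ℤ) L

/-- Configurations on the box; `true` is the spin `+1`. -/
abbrev Conf (L : ℕ) := box L → Bool

/-- The configuration extended by `+1` outside the box. -/
def ext {L : ℕ} (σ : Conf L) (y : ℤ × ℤ) : Bool := if h : y ∈ box L then σ ⟨y, h⟩ else true

/-- The spin `±1` at a site of `ℤ²`. -/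
def spin {L : ℕ} (σ : Conf L) (y : ℤ × ℤ) : ℝ := if ext σ y = true then 1 else -1

/-- The edge `(x, false)` joins `x` to `x + e₁`, the edge `(x, true)` joins `x` to `x + e₂`. -/
def tgt (e : (ℤ × ℤ) × Bool) : ℤ × ℤ :=
  if e.2 = true then (e.1.1, e.1.2 + 1) else (e.1.1 + 1, e.1.2)

/-- The edges of `ℤ²` with at least one end in the box. -/
def edges (L : ℕ) : Finset ((ℤ × ℤ) × Bool) :=
  ((Icc (0 : ℤ) L ×ˢ Icc (0 : ℤ) L) ×ˢ univ).filter fun e => e.1 ∈ box L ∨ tgt e ∈ box L

def weight (β : ℝ) {L : ℕ} (σ : Conf L) : ℝ :=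
  Real.exp (β * ∑ e ∈ edges L, spin σ e.1 * spin σ (tgt e))

/-- The Ising measure with plus boundary condition. -/
def gibbs (β : ℝ) {L : ℕ} (σ : Conf L) : ℝ := weight β σ / ∑ τ : Conf L, weight β τ

/-- The critical inverse temperature: the onset of spontaneous magnetisation. -/
def betaC : ℝ := sInf {β | 0 ≤ β ∧ ∃ c : ℝ, 0 < c ∧ ∀ m : ℕ,
  c ≤ ∑ σ : Conf (2 * m + 1), gibbs β σ * spin σ (m + 1, m + 1)}

/-- Sum of the four neighbouring spins. -/
def field {L : ℕ} (σ : Conf L) (x : ℤ × ℤ) : ℝ :=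
  spin σ (x.1 + 1, x.2) + spin σ (x.1 - 1, x.2) + spin σ (x.1, x.2 + 1) + spin σ (x.1, x.2 - 1)

/-- Conditional probability of `+1` at `x` given the other spins. -/
def plusProb (β : ℝ) {L : ℕ} (x : box L) (σ : Conf L) : ℝ :=
  Real.exp (β * field σ x) / (Real.exp (β * field σ x) + Real.exp (-(β * field σ x)))

/-- Heat-bath Glauber dynamics: a uniform site is resampled from its conditional law. -/
def glauber (β : ℝ) (L : ℕ) : Matrix (Conf L) (Conf L) ℝ := fun σ τ =>
  (∑ x : box L, ((if τ = Function.update σ x true then plusProb β x σ else 0) +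
    (if τ = Function.update σ x false then 1 - plusProb β x σ else 0))) / (L : ℝ) ^ 2

/-- Total variation distance to the Ising measure after `t` steps from i.i.d. uniform spins. -/
def tvUnif (β : ℝ) (L t : ℕ) : ℝ :=
  (∑ τ : Conf L, |(∑ σ : Conf L, (1 / 2 : ℝ) ^ (L ^ 2) * (glauber β L ^ t) σ τ) - gibbs β τ|) / 2

end Pool.Agent.H43.Is
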