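import Pool.Agent.H43.IsPei

set_option autoImplicit false

noncomputable section

namespace Pool.Agent.H43.Is

open Finset Function

variable {L : ℕ} {β : ℝ}

lemma card_box : (box L).card = L ^ 2 := by simp [box, pow_two]

def gt (β : ℝ) (c : ℤ × ℤ) (t : ℕ) (σ : Conf L) : ℝ := ∑ τ, (glauber β L ^ t) σ τ * spin τ c

lemma gt_zero (c : ℤ × ℤ) (σ : Conf L) : gt β c 0 σ = spin σ c := by
  simp [gt, Matrix.one_apply]

lemma gt_succ (c : ℤ × ℤ) (t : ℕ) (σ : Conf L) : gt β c (t + 1) σ =
    (∑ x : box L, (plusProb β x σ * gt β c t (update σ x true) +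
      (1 - plusProb β x σ) * gt β c t (update σ x false))) / (L : ℝ) ^ 2 := by
  have h1 : gt β c (t + 1) σ = ∑ τ, glauber β L σ τ * gt β c t τ := by
    simp only [gt, pow_succ', Matrix.mul_apply, sum_mul, mul_sum, mul_assoc]
    exact sum_comm
  rw [h1]
  simp only [glauber, div_mul_eq_mul_div, sum_mul]
  rw [← sum_div, sum_comm]
  simp [add_mul, sum_add_distrib]

lemma p_mem (x : box L) (σ : Conf L) : 0 ≤ plusProb β x σ ∧ plusProb β x σ ≤ 1 :=
  ⟨by unfold plusProb; positivity, (div_le_one (by positivity)).2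
    (le_add_of_nonneg_right (Real.exp_pos _).le)⟩

lemma spin_upd (σ : Conf L) (y : box L) (s : Bool) {z : ℤ × ℤ} (h : z ≠ y) :
    spin (update σ y s) z = spin σ z := by
  unfold spin ext
  by_cases hz : z ∈ box L
  · rw [dif_pos hz, dif_pos hz, update_of_ne fun h' => h (congrArg Subtype.val h')]
  · rw [dif_neg hz, dif_neg hz]

lemma spin_abs (σ : Conf L) (z : ℤ × ℤ) : |spin σ z| = 1 := by
  unfold spin; split_ifs <;> simp

lemma spin_flip (σ : Conf L) {z : ℤ × ℤ} (h : z ∈ box L) : spin (fun x => !σ x) z = -spin σ z := by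
  simp only [spin, ext, dif_pos h]
  cases σ ⟨z, h⟩ <;> simp

def Nb (y : ℤ × ℤ) : Finset (ℤ × ℤ) := {(y.1 + 1, y.2), (y.1 - 1, y.2), (y.1, y.2 + 1), (y.1, y.2 - 1)}

def dd (c y : ℤ × ℤ) : ℕ := (y.1 - c.1).natAbs + (y.2 - c.2).natAbs

lemma conv_bd {p q a b a' b' δ ε : ℝ} (hp : 0 ≤ p ∧ p ≤ 1) (hq : 0 ≤ q ∧ q ≤ 1) (h1 : |a' - a| ≤ δ)
    (h2 : |b' - b| ≤ δ) (h3 : p = q ∧ 0 ≤ ε ∨ |a - b| ≤ ε) :
    |p * a' + (1 - p) * b' - (q * a + (1 - q) * b)| ≤ δ + ε := by
  have h4 : |(p - q) * (a - b)| ≤ ε := by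
    rcases h3 with ⟨rfl, h⟩ | h
    · simpa
    · rw [abs_mul]
      exact (mul_le_of_le_one_left (abs_nonneg _) (abs_le.2 ⟨by linarith, by linarith⟩)).trans h
  rw [abs_le] at *
  constructor <;> nlinarith [mul_nonneg hp.1 (sub_nonneg.2 h1.1), mul_nonneg hp.1 (sub_nonneg.2 h1.2),
    mul_nonneg (sub_nonneg.2 hp.2) (sub_nonneg.2 h2.1),
    mul_nonneg (sub_nonneg.2 hp.2) (sub_nonneg.2 h2.2)]

lemma osc (hL : 0 < L) (c : ℤ × ℤ) (t : ℕ) (y : box L) (σ : Conf L) (s : Bool) :
    |gt β c t (update σ y s) - gt β c t σ| ≤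
      2 * Real.exp (12 * t / (L : ℝ) ^ 2) * Real.exp (-(dd c y : ℝ)) := by
  have hn : (0 : ℝ) < (L : ℝ) ^ 2 := by positivity
  induction t generalizing y σ s with
  | zero =>
    rw [gt_zero, gt_zero]
    by_cases h : c = y
    · have h1 := abs_sub (spin (update σ y s) c) (spin σ c)
      rw [spin_abs, spin_abs] at h1
      simpa [← h, dd, one_add_one_eq_two] using h1
    · rw [spin_upd _ _ _ h, sub_self, abs_zero]; positivity
  | succ t ih =>
    set δ := 2 * Real.exp (12 * t / (L : ℝ) ^ 2) * Real.exp (-(dd c y : ℝ)) with hδ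
    have h0 : 0 ≤ δ := by positivity
    rw [gt_succ, gt_succ, ← sub_div, ← sum_sub_distrib, abs_div, abs_of_pos hn, div_le_iff₀ hn]
    refine (abs_sum_le_sum_abs _ _).trans ((sum_le_sum (g := fun x : box L =>
      δ + if x.1 ∈ Nb y then 3 * δ else 0) fun x _ => ?_).trans ?_)
    · have h1 : ∀ b, |gt β c t (update (update σ y s) x b) - gt β c t (update σ x b)| ≤ δ := by
        intro b
        by_cases h : y = x
        · rw [h, update_idem, sub_self, abs_zero]; exact h0
        · rw [update_comm h]; exact ih _ _ _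
      refine conv_bd (p_mem _ _) (p_mem _ _) (h1 _) (h1 _) ?_
      by_cases h : x.1 ∈ Nb y
      · have h2 := ih x (update σ x false) true
        rw [update_idem] at h2
        refine Or.inr (h2.trans ?_)
        have h3 : dd c y ≤ dd c x + 1 := by
          simp only [Nb, mem_insert, mem_singleton, Prod.ext_iff] at h
          unfold dd; omega
        have h4 : Real.exp (-(dd c x : ℝ)) ≤ Real.exp 1 * Real.exp (-(dd c y : ℝ)) := by
          rw [← Real.exp_add, Real.exp_le_exp]
          linarith [show (dd c y : ℝ) ≤ dd c x + 1 by exact_mod_cast h3]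
        have h5 := mul_le_mul_of_nonneg_right Real.exp_one_lt_three.le
          (Real.exp_pos (-(dd c y : ℝ))).le
        rw [if_pos h, hδ]
        nlinarith [Real.exp_pos (12 * t / (L : ℝ) ^ 2)]
      · refine Or.inl ⟨?_, by rw [if_neg h]⟩
        simp only [Nb, mem_insert, mem_singleton, Prod.ext_iff] at h
        unfold plusProb field
        rw [spin_upd, spin_upd, spin_upd, spin_upd] <;> simp only [ne_eq, Prod.ext_iff] <;> omega
    · have h1 : ((univ.filter fun x : box L => x.1 ∈ Nb y).card : ℝ) ≤ 4 := by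
        exact_mod_cast (card_le_card_of_injOn Subtype.val (fun x hx => (mem_filter.1 hx).2)
          Subtype.val_injective.injOn).trans card_le_four
      have h2 := Real.add_one_le_exp (12 / (L : ℝ) ^ 2)
      have h3 : 2 * Real.exp (12 * (t + 1 : ℕ) / (L : ℝ) ^ 2) * Real.exp (-(dd c y : ℝ)) =
          δ * Real.exp (12 / (L : ℝ) ^ 2) := by
        rw [hδ, show 12 * (t + 1 : ℕ) / (L : ℝ) ^ 2 = 12 * t / (L : ℝ) ^ 2 + 12 / (L : ℝ) ^ 2 by
          push_cast; ring, Real.exp_add]; ring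
      rw [sum_add_distrib, ← sum_filter, sum_const, sum_const, card_univ, Fintype.card_coe, card_box,
        nsmul_eq_mul, nsmul_eq_mul, h3]
      have h4 := mul_le_mul_of_nonneg_right (mul_le_mul_of_nonneg_left h2 h0) hn.le
      rw [mul_assoc, add_mul, div_mul_cancel₀ _ hn.ne'] at h4
      push_cast
      nlinarith

lemma anti (hL : 0 < L) (c : ℤ × ℤ) (hc : c = (((L : ℤ) + 1) / 2, ((L : ℤ) + 1) / 2)) (t : ℕ)
    (σ : Conf L) : |gt β c t σ + gt β c t fun x => !σ x| ≤
      t * (2 * Real.exp (12 * t / (L : ℝ) ^ 2) * Real.exp (1 - L / 2)) := by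
  have hn : (0 : ℝ) < (L : ℝ) ^ 2 := by positivity
  induction t generalizing σ with
  | zero => simp [gt_zero, spin_flip σ (z := c) (by rw [mem_box, hc]; simp only; omega)]
  | succ t ih =>
    set δ := 2 * Real.exp (12 * t / (L : ℝ) ^ 2) * Real.exp (1 - L / 2) with hδ
    rw [gt_succ, gt_succ, ← add_div, ← sum_add_distrib, abs_div, abs_of_pos hn, div_le_iff₀ hn]
    refine (abs_sum_le_sum_abs _ _).trans ((sum_le_card_nsmul _ _ (t * δ + δ) fun x _ => ?_).trans ?_)
    · have h1 : ∀ b, |gt β c t (update σ x b) - -gt β c t (update (fun x => !σ x) x (!b))| ≤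
          t * δ := fun b => by
        rw [sub_neg_eq_add]
        exact comp_update (fun b => !b) σ x b ▸ ih _
      refine le_trans (le_of_eq (congrArg _ (by simp only [Bool.not_true, Bool.not_false]; ring)))
        (conv_bd (q := 1 - plusProb β x fun x => !σ x) (p_mem x σ)
        ⟨sub_nonneg.2 (p_mem _ _).2, sub_le_self _ (p_mem _ _).1⟩ (h1 true) (h1 false) ?_)
      by_cases h : (1 < x.1.1 ∧ x.1.1 < L) ∧ 1 < x.1.2 ∧ x.1.2 < L
      · refine Or.inl ⟨?_, by positivity⟩
        have h2 : field (fun x => !σ x) x = -field σ x := by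
          unfold field
          rw [spin_flip, spin_flip, spin_flip, spin_flip]
          · ring
          all_goals rw [mem_box]; simp only; omega
        unfold plusProb
        rw [h2, mul_neg, neg_neg]
        field_simp
        ring
      · have h2 := osc (β := β) hL c t x (update (fun x => !σ x) x false) true
        rw [update_idem] at h2
        rw [neg_sub_neg]
        refine Or.inr (h2.trans (mul_le_mul_of_nonneg_left (Real.exp_le_exp.2 ?_) (by positivity)))
        have h3 : L ≤ 2 * dd c x + 2 := by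
          have := mem_box.1 x.2
          simp only [dd, hc]; omega
        linarith [show (L : ℝ) ≤ 2 * dd c x + 2 by exact_mod_cast h3]
    · rw [card_univ, Fintype.card_coe, card_box, nsmul_eq_mul, mul_comm]
      push_cast
      refine mul_le_mul_of_nonneg_right ?_ hn.le
      rw [← add_one_mul, hδ]
      gcongr
      linarith

theorem slow (hβ : 6 ≤ β) : ∃ L₀ : ℕ, ∀ L ≥ L₀, ∀ t : ℕ, tvUnif β L t ≤ 1 / 4 →
    (L : ℝ) ^ 3 / 48 ≤ t := by
  have h1 := ((Real.tendsto_pow_mul_exp_neg_atTop_nhds_zero 3).comp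
    (tendsto_natCast_atTop_atTop.atTop_div_const (show (0 : ℝ) < 4 by norm_num))).eventually
    (gt_mem_nhds (show (0 : ℝ) < 1 / 16 by norm_num))
  obtain ⟨L₀, h1⟩ := Filter.eventually_atTop.1 (h1.and (Filter.eventually_gt_atTop 0))
  refine ⟨L₀, fun L hL t ht => le_of_not_gt fun h => ?_⟩
  obtain ⟨h2, hL⟩ := h1 L hL
  have hL' : (0 : ℝ) < L := by exact_mod_cast hL
  set c : ℤ × ℤ := (((L : ℤ) + 1) / 2, ((L : ℤ) + 1) / 2)
  have h3 := peierls (L := L) hβ c
  have h4 : t * (2 * Real.exp (12 * t / (L : ℝ) ^ 2) * Real.exp (1 - L / 2)) ≤ 1 / 2 := by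
    have h5 : Real.exp (12 * t / (L : ℝ) ^ 2) * Real.exp (1 - L / 2) ≤
        Real.exp 1 * Real.exp (-(L / 4)) := by
      rw [← Real.exp_add, ← Real.exp_add, Real.exp_le_exp]
      have : 12 * t / (L : ℝ) ^ 2 ≤ L / 4 := by rw [div_le_iff₀ (by positivity)]; nlinarith
      linarith
    have h6 := mul_le_mul h.le (h5.trans (mul_le_mul_of_nonneg_right Real.exp_one_lt_three.le
      (Real.exp_pos _).le)) (by positivity) (by positivity)
    simp only [Function.comp] at h2
    nlinarith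
  have h5 : ∑ σ : Conf L, (1 / 2 : ℝ) ^ (L ^ 2) * gt β c t σ ≤ 1 / 4 := by
    have h6 := Equiv.sum_comp (Involutive.toPerm (f := fun (σ : Conf L) x => !σ x)
      fun σ => by simp) (gt β c t)
    have h7 := sum_le_card_nsmul univ _ _ fun (σ : Conf L) _ =>
      (le_abs_self _).trans ((anti (β := β) hL c rfl t σ).trans h4)
    rw [sum_add_distrib, card_univ, Fintype.card_fun, Fintype.card_coe, card_box, Fintype.card_bool,
      nsmul_eq_mul] at h7
    simp only [Involutive.coe_toPerm] at h6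
    rw [← mul_sum, one_div_pow, one_div, inv_mul_le_iff₀ (by positivity)]
    push_cast at h7
    linarith
  have h6 : ∑ τ : Conf L, -((∑ σ : Conf L, (1 / 2 : ℝ) ^ (L ^ 2) * (glauber β L ^ t) σ τ) -
      gibbs β τ) * spin τ c ≤ ∑ τ : Conf L, |(∑ σ : Conf L, (1 / 2 : ℝ) ^ (L ^ 2) *
      (glauber β L ^ t) σ τ) - gibbs β τ| := sum_le_sum fun τ _ =>
    (le_abs_self _).trans_eq (by rw [abs_mul, spin_abs, mul_one, abs_neg])
  simp only [neg_sub, sub_mul, sum_sub_distrib, sum_mul] at h6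
  rw [sum_comm (f := fun τ σ : Conf L => (1 / 2 : ℝ) ^ (L ^ 2) * (glauber β L ^ t) σ τ * spin τ c)]
    at h6
  simp only [gt, mul_sum, ← mul_assoc] at h5
  unfold tvUnif at ht
  linarith

end Pool.Agent.H43.Is
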