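import Pool.Agent.H43.IsDefs

set_option autoImplicit false

noncomputable section

namespace Pool.Agent.H43.Is

open Finset

abbrev E := (ℤ × ℤ) × Bool

def nb (e : E) : Finset E :=
  (Icc (e.1.1 - 1) (e.1.1 + 1) ×ˢ Icc (e.1.2 - 1) (e.1.2 + 1)) ×ˢ univ

lemma mem_nb {a b : E} : b ∈ nb a ↔ (a.1.1 - 1 ≤ b.1.1 ∧ b.1.1 ≤ a.1.1 + 1) ∧
    a.1.2 - 1 ≤ b.1.2 ∧ b.1.2 ≤ a.1.2 + 1 := by simp [nb]

def An : ℕ → E → Finset (Finset E)
  | 0, e => {{e}}
  | n + 1, e => (nb e).biUnion fun b => (An n b).image (insert e)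

lemma An_card (n : ℕ) (e : E) : (An n e).card ≤ 18 ^ n := by
  induction n generalizing e with
  | zero => simp [An]
  | succ n ih =>
    refine (card_biUnion_le_card_mul _ _ _ fun b _ => card_image_le.trans (ih b)).trans_eq ?_
    have : (nb e).card = 18 := by
      simp only [nb, card_product, Int.card_Icc, card_univ, Fintype.card_bool]
      rw [show e.1.1 + 1 + 1 - (e.1.1 - 1) = 3 by ring, show e.1.2 + 1 + 1 - (e.1.2 - 1) = 3 by ring]
      rfl
    rw [this]; ring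

lemma An_step {n : ℕ} {e b : E} {γ : Finset E} (h : γ ∈ An n b) (hb : b ∈ nb e) :
    insert e γ ∈ An (n + 1) e := mem_biUnion.2 ⟨b, hb, mem_image_of_mem _ h⟩

lemma An_self {n : ℕ} {e : E} {γ : Finset E} (h : γ ∈ An n e) : e ∈ γ := by
  rcases n with _ | n
  · simp_all [An]
  · obtain ⟨b, -, h⟩ := mem_biUnion.1 h
    obtain ⟨γ, -, rfl⟩ := mem_image.1 h
    exact mem_insert_self _ _

lemma An_dist {n : ℕ} {e a : E} {γ : Finset E} (h : γ ∈ An n e) (ha : a ∈ γ) :
    e.1.1 ≤ a.1.1 + n := by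
  induction n generalizing e γ with
  | zero => simp_all [An]
  | succ n ih =>
    obtain ⟨b, hb, h⟩ := mem_biUnion.1 h
    obtain ⟨γ, h', rfl⟩ := mem_image.1 h
    rcases mem_insert.1 ha with rfl | ha
    · omega
    · have := ih h' ha
      rw [mem_nb] at hb
      omega

lemma An_ins {n : ℕ} {e a b : E} {γ : Finset E} (h : γ ∈ An n e) (ha : a ∈ γ) (hb : b ∈ nb a) :
    insert b γ ∈ An (n + 2) e := by
  have h0 : ∀ {n : ℕ} {γ : Finset E}, γ ∈ An n a → insert b γ ∈ An (n + 2) a := fun h => by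
    have h1 := An_step (An_step h (e := b) (by rw [mem_nb] at hb ⊢; omega)) hb
    rwa [insert_eq_of_mem (mem_insert_of_mem (An_self h))] at h1
  induction n generalizing e γ with
  | zero =>
    obtain rfl : a = e := by simp_all [An]
    exact h0 h
  | succ n ih =>
    obtain ⟨c, hc, h'⟩ := mem_biUnion.1 h
    obtain ⟨γ, h1, rfl⟩ := mem_image.1 h'
    rcases mem_insert.1 ha with rfl | ha
    · exact h0 h
    · rw [insert_comm]
      exact An_step (ih h1 ha) hc

lemma exists_comp {D : Finset E} {e : E} (he : e ∈ D) : ∃ k, ∃ γ ∈ An (2 * k) e, γ.card = k + 1 ∧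
    γ ⊆ D ∧ ∀ a ∈ γ, ∀ b ∈ D, b ∈ nb a → b ∈ γ := by
  classical
  obtain ⟨γ, h1, h2⟩ := (D.powerset.filter fun γ => ∃ k, γ ∈ An (2 * k) e ∧ γ.card = k + 1
    ).exists_max_image card ⟨{e}, mem_filter.2 ⟨by simpa, 0, by simp [An], rfl⟩⟩
  simp only [mem_filter, mem_powerset] at h1 h2
  obtain ⟨h1, k, h3, h4⟩ := h1
  refine ⟨k, γ, h3, h4, h1, fun a ha b hb h5 => by_contra fun h6 => ?_⟩
  have := h2 _ ⟨insert_subset hb h1, k + 1, An_ins h3 ha h5, by rw [card_insert_of_notMem h6, h4]⟩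
  rw [card_insert_of_notMem h6] at this
  omega

def chi (γ : Finset E) (e : E) : ZMod 2 := if e ∈ γ then 1 else 0

def Ev (γ : Finset E) : Prop := ∀ z : ℤ × ℤ, chi γ (z, false) + chi γ ((z.1, z.2 + 1), false) +
  chi γ (z, true) + chi γ ((z.1 + 1, z.2), true) = 0

def cr (γ : Finset E) (y : ℤ × ℤ) : ZMod 2 :=
  ∑ e ∈ γ, if e.2 = false ∧ e.1.2 = y.2 ∧ y.1 ≤ e.1.1 then 1 else 0

lemma cr_h (γ : Finset E) (y : ℤ × ℤ) : cr γ y = cr γ (y.1 + 1, y.2) + chi γ (y, false) := by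
  rw [chi, ← sum_ite_eq' γ (y, false) fun _ => (1 : ZMod 2), cr, cr, ← sum_add_distrib]
  refine sum_congr rfl fun ⟨⟨a, b⟩, c⟩ _ => ?_
  obtain ⟨y1, y2⟩ := y
  simp only [Prod.mk.injEq]
  split_ifs <;> first | rfl | (exfalso; grind)

lemma const (g : ℤ → ZMod 2) (h : ∀ i, g i = g (i + 1)) (i j : ℤ) : g i = g j := by
  have : ∀ i, g i = g 0 := fun i => by
    induction i using Int.induction_on with
    | zero => rfl
    | succ i ih => rw [← h, ih]
    | pred i ih => rw [h, sub_add_cancel, ih]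
  rw [this i, this j]

variable {L : ℕ} {γ : Finset E}

lemma mem_box {y : ℤ × ℤ} : y ∈ box L ↔ (1 ≤ y.1 ∧ y.1 ≤ L) ∧ 1 ≤ y.2 ∧ y.2 ≤ L := by simp [box]

lemma mem_edges {e : E} : e ∈ edges L ↔ e.1 ∈ box L ∨ tgt e ∈ box L := by
  obtain ⟨⟨a, b⟩, c⟩ := e
  cases c <;> simp [edges, mem_box, tgt] <;> omega

lemma cr_zero (h : γ ⊆ edges L) {y : ℤ × ℤ} (hy : L < y.1 ∨ y.2 < 1 ∨ L < y.2) : cr γ y = 0 := by
  refine sum_eq_zero fun ⟨⟨a, b⟩, c⟩ he => if_neg ?_
  rintro ⟨rfl, h2, h3⟩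
  have := mem_edges.1 (h he)
  simp [mem_box, tgt] at this h2 h3
  omega

lemma chi_zero (h : γ ⊆ edges L) {y : ℤ × ℤ} (hy : L < y.1 ∨ y.1 < 1) : chi γ (y, true) = 0 := by
  refine if_neg fun he => ?_
  have := mem_edges.1 (h he)
  simp [mem_box, tgt] at this
  omega

lemma cr_v (h : γ ⊆ edges L) (hv : Ev γ) (y : ℤ × ℤ) :
    cr γ y = cr γ (y.1, y.2 + 1) + chi γ (y, true) := by
  have h1 := const (fun i => cr γ (i, y.2) + cr γ (i, y.2 + 1) + chi γ ((i, y.2), true))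
    (fun i => by
      have h2 := hv (i, y.2)
      rw [cr_h γ (i, y.2), cr_h γ (i, y.2 + 1)]
      simp only at h2 ⊢
      grind) y.1 (L + 1)
  simp only [cr_zero h (y := (L + 1, y.2)) (by simp), cr_zero h (y := (L + 1, y.2 + 1)) (by simp),
    chi_zero h (y := (L + 1, y.2)) (by simp)] at h1
  grind

lemma cr_out (h : γ ⊆ edges L) (hv : Ev γ) {y : ℤ × ℤ} (hy : y ∉ box L) : cr γ y = 0 := by
  by_cases h1 : y.1 < 1
  · exact (const (fun j => cr γ (y.1, j)) (fun j => by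
      rw [cr_v h hv, chi_zero h (y := (y.1, j)) (Or.inr h1), add_zero]) y.2 0).trans (cr_zero h (by simp))
  · exact cr_zero h (by rw [mem_box] at hy; omega)

lemma cr_tgt (h : γ ⊆ edges L) (hv : Ev γ) (e : E) : cr γ e.1 = cr γ (tgt e) + chi γ e := by
  obtain ⟨y, _ | _⟩ := e
  · exact cr_h γ y
  · exact cr_v h hv y

def dis (σ : Conf L) : Finset E := (edges L).filter fun e => ext σ e.1 ≠ ext σ (tgt e)

lemma chi_dis (σ : Conf L) (e : E) : chi (dis σ) e = if ext σ e.1 = ext σ (tgt e) then 0 else 1 := by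
  by_cases h : ext σ e.1 = ext σ (tgt e)
  · simp [chi, dis, h]
  · have : e ∈ edges L := mem_edges.2 (by_contra fun h' => h (by
      rw [not_or] at h'; simp [ext, h'.1, h'.2]))
    simp [chi, dis, h, this]

lemma ev_dis (σ : Conf L) : Ev (dis σ) := fun z => by
  simp only [chi_dis, tgt, if_true, Bool.false_eq_true, if_false]
  generalize ext σ z = a, ext σ (z.1 + 1, z.2) = b, ext σ (z.1, z.2 + 1) = c,
    ext σ (z.1 + 1, z.2 + 1) = d
  revert a b c d; decide

lemma cr_dis (σ : Conf L) {x : ℤ × ℤ} (hx : ext σ x = false) : cr (dis σ) x = 1 := by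
  have h1 := const (fun i => cr (dis σ) (i, x.2) + if ext σ (i, x.2) = true then 0 else 1)
    (fun i => by
      rw [cr_h, chi_dis]
      simp only [tgt, Bool.false_eq_true, if_false, add_assoc]
      generalize ext σ (i, x.2) = a, ext σ (i + 1, x.2) = b
      congr 1
      revert a b; decide) x.1 (L + 1)
  have h2 : ext σ (L + 1, x.2) = true := dif_neg (by simp [mem_box])
  have h3 : cr (dis σ) (L + 1, x.2) = 0 := cr_zero (L := L) (filter_subset _ _) (by simp)
  simp only [h3, h2, Prod.mk.eta, hx] at h1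
  grind

lemma exists_contour (x : ℤ × ℤ) (D : Finset E) : D ⊆ edges L → Ev D → cr D x = 1 →
    ∃ k, ∃ j ∈ range (2 * k + 1), ∃ γ ∈ An (2 * k) ((x.1 + j, x.2), false),
      γ.card = k + 1 ∧ γ ⊆ D ∧ Ev γ := by
  induction D using Finset.strongInduction with
  | _ D ih =>
  intro h hv hx
  obtain ⟨⟨⟨a, b⟩, c⟩, he, h1⟩ := exists_ne_zero_of_sum_ne_zero (hx.trans_ne one_ne_zero)
  obtain ⟨rfl, rfl, h2⟩ : c = false ∧ b = x.2 ∧ x.1 ≤ a := by_contra fun h' => h1 (if_neg h')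
  obtain ⟨k, γ, g1, g2, g3, g4⟩ := exists_comp he
  have g5 : Ev γ := fun z => by
    by_cases h3 : ∃ e ∈ γ, (z.1 ≤ e.1.1 ∧ e.1.1 ≤ z.1 + 1) ∧ z.2 ≤ e.1.2 ∧ e.1.2 ≤ z.2 + 1
    · obtain ⟨e, h3, h4⟩ := h3
      have h5 : ∀ f : E, (z.1 ≤ f.1.1 ∧ f.1.1 ≤ z.1 + 1) ∧ z.2 ≤ f.1.2 ∧ f.1.2 ≤ z.2 + 1 →
          chi γ f = chi D f := fun f hf =>
        if_congr ⟨fun h => g3 h, fun h => g4 e h3 f h (by rw [mem_nb]; omega)⟩ rfl rfl
      rw [h5, h5, h5, h5, hv z] <;> simp
    · have h5 : ∀ f : E, (z.1 ≤ f.1.1 ∧ f.1.1 ≤ z.1 + 1) ∧ z.2 ≤ f.1.2 ∧ f.1.2 ≤ z.2 + 1 →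
          chi γ f = 0 := fun f hf => if_neg fun h => h3 ⟨f, h, hf⟩
      rw [h5, h5, h5, h5] <;> simp
  by_cases h3 : cr γ x = 0
  · have h4 : ∀ e, chi (D \ γ) e = chi D e + chi γ e := fun e => by
      by_cases h5 : e ∈ γ
      · simp only [chi, mem_sdiff, h5, g3 h5]; decide
      · simp [chi, h5]
    obtain ⟨k, j, h5, γ', h6, h7, h8, h9⟩ := ih (D \ γ) (sdiff_ssubset g3 ⟨_, An_self g1⟩)
      (sdiff_subset.trans h) (fun z => by
        have := hv z; have := g5 z; simp only [h4]; grind) (by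
        have := sum_sdiff g3 (f := fun e : E =>
          if e.2 = false ∧ e.1.2 = x.2 ∧ x.1 ≤ e.1.1 then (1 : ZMod 2) else 0)
        change cr _ _ + cr _ _ = cr _ _ at this
        rwa [h3, hx, add_zero] at this)
    exact ⟨k, j, h5, γ', h6, h7, h8.trans sdiff_subset, h9⟩
  · obtain ⟨e, h4, h5⟩ : ∃ e ∈ γ, e.1.1 < x.1 := by
      by_contra! h4
      refine h3 (Eq.trans (sum_congr rfl fun e he => if_congr ?_ rfl rfl)
        (cr_out (g3.trans h) g5 (y := (min 0 x.1, x.2)) (by simp [mem_box])))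
      have := h4 e he
      simp only [min_le_iff, this, or_true]
    have h6 := An_dist g1 h4
    refine ⟨k, (a - x.1).toNat, mem_range.2 (by simp at h6; omega), γ, ?_, g2, g3, g5⟩
    rwa [Int.toNat_of_nonneg (by omega), add_sub_cancel]

lemma flip_bound {β : ℝ} (hv : Ev γ) :
    ∑ σ : Conf L, (if γ ⊆ dis σ then weight β σ else 0) ≤
      Real.exp (-(2 * β)) ^ γ.card * ∑ σ : Conf L, weight β σ := by
  let Φ : Conf L → Conf L := fun σ x => if cr γ x = 0 then σ x else !σ x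
  have h1 : Function.Involutive Φ := fun σ => funext fun x => by
    by_cases h : cr γ x = 0 <;> simp [Φ, h]
  rw [← Equiv.sum_comp h1.toPerm (weight β), mul_sum]
  refine sum_le_sum fun σ _ => ?_
  split_ifs with h
  swap
  · unfold weight; positivity
  have h2 : γ ⊆ edges L := h.trans (filter_subset _ _)
  have h3 : ∀ y, ext (Φ σ) y = if cr γ y = 0 then ext σ y else !ext σ y := fun y => by
    by_cases hy : y ∈ box L
    · simp [ext, hy, Φ]
    · simp [ext, hy, cr_out h2 hv hy]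
  have h4 : ∀ e ∈ edges L, spin (Φ σ) e.1 * spin (Φ σ) (tgt e) =
      spin σ e.1 * spin σ (tgt e) + if e ∈ γ then 2 else 0 := fun e _ => by
    have h5 := cr_tgt h2 hv e
    have h6 : e ∈ γ → ext σ e.1 ≠ ext σ (tgt e) := fun he => (mem_filter.1 (h he)).2
    simp only [spin, h3, chi] at h5 ⊢
    generalize ext σ e.1 = a, ext σ (tgt e) = b, cr γ e.1 = c, cr γ (tgt e) = d at *
    have h7 : ∀ d : ZMod 2, d = 0 ∨ d = 1 := by decide
    have h8 : (1 : ZMod 2) + 1 = 0 := by decide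
    by_cases he : e ∈ γ <;> rcases h7 d with rfl | rfl <;> cases a <;> cases b <;>
      simp_all <;> norm_num
  rw [Function.Involutive.coe_toPerm, weight, weight, sum_congr rfl h4, sum_add_distrib,
    ← sum_filter, filter_mem_eq_inter, inter_eq_right.2 h2, ← Real.exp_nat_mul, ← Real.exp_add]
  simp only [sum_const, nsmul_eq_mul]
  exact le_of_eq (by congr 1; ring)

theorem peierls {β : ℝ} (hβ : 6 ≤ β) (x : ℤ × ℤ) :
    7 / 8 ≤ ∑ σ : Conf L, gibbs β σ * spin σ x := by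
  classical
  have hw : ∀ σ : Conf L, 0 < weight β σ := fun σ => Real.exp_pos _
  have hZ : 0 < ∑ σ : Conf L, weight β σ := sum_pos (fun σ _ => hw σ) univ_nonempty
  set Z := ∑ σ : Conf L, weight β σ with hZ'
  set u := Real.exp (-(2 * β))
  have u0 : 0 < u := Real.exp_pos _
  have u1 : u ≤ 1 / 4096 := by
    have h1 : (2 : ℝ) ^ 12 ≤ Real.exp 1 ^ 12 :=
      pow_le_pow_left₀ (by norm_num) (by linarith [Real.add_one_le_exp 1]) 12
    rw [← Real.exp_nat_mul] at h1
    rw [show u = (Real.exp (2 * β))⁻¹ from Real.exp_neg _, one_div]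
    exact inv_anti₀ (by norm_num) (le_trans (by norm_num) (h1.trans (Real.exp_le_exp.2
      (by norm_num; linarith))))
  have h1 : ∀ σ : Conf L, (if ext σ x = true then 0 else weight β σ) ≤
      ∑ k ∈ range (edges L).card, ∑ j ∈ range (2 * k + 1),
        ∑ γ ∈ (An (2 * k) ((x.1 + j, x.2), false)).filter fun γ => γ.card = k + 1 ∧ Ev γ,
          if γ ⊆ dis σ then weight β σ else 0 := fun σ => by
    have h0 : ∀ γ, 0 ≤ if γ ⊆ dis σ then weight β σ else 0 := fun γ => by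
      split_ifs; exacts [(hw σ).le, le_rfl]
    split_ifs with h
    · exact sum_nonneg fun _ _ => sum_nonneg fun _ _ => sum_nonneg fun _ _ => h0 _
    obtain ⟨k, j, h1, γ, h2, h3, h4, h5⟩ := exists_contour x (dis σ) (filter_subset _ _) (ev_dis σ)
      (cr_dis σ (by simpa using h))
    refine le_trans ?_ (single_le_sum (fun _ _ => sum_nonneg fun _ _ => sum_nonneg fun _ _ => h0 _)
      (mem_range.2 (h3.ge.trans (card_le_card (h4.trans (filter_subset _ _))))))
    refine le_trans ?_ (single_le_sum (fun _ _ => sum_nonneg fun _ _ => h0 _) h1)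
    refine le_trans ?_ (single_le_sum (a := γ) (fun _ _ => h0 _) (mem_filter.2 ⟨h2, h3, h5⟩))
    exact (if_pos h4).ge
  have h2 : ∑ σ : Conf L, (if ext σ x = true then 0 else weight β σ) ≤
      ∑ k ∈ range (edges L).card, (1 / 2 : ℝ) ^ k * (u * Z) := by
    refine (sum_le_sum fun σ _ => h1 σ).trans ?_
    rw [sum_comm]
    refine sum_le_sum fun k _ => ?_
    rw [sum_comm]
    refine (sum_le_card_nsmul _ _ (18 ^ (2 * k) * (u ^ (k + 1) * Z)) fun j _ => ?_).trans ?_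
    · rw [sum_comm]
      refine (sum_le_card_nsmul _ _ (u ^ (k + 1) * Z) fun γ h => ?_).trans ?_
      · rw [← (mem_filter.1 h).2.1]
        exact flip_bound (mem_filter.1 h).2.2
      · rw [nsmul_eq_mul]
        refine mul_le_mul_of_nonneg_right ?_ (by positivity)
        exact_mod_cast (card_filter_le _ _).trans (An_card _ _)
    · have h3 := one_add_mul_le_pow (a := (2 : ℝ)) (by norm_num) k
      have h4 : (3 * (18 ^ 2 * u)) ^ k ≤ (1 / 2) ^ k := pow_le_pow_left₀ (by positivity) (by linarith) k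
      rw [card_range, nsmul_eq_mul]
      clear_value u Z
      have h5 := mul_le_mul_of_nonneg_right h3 (show 0 ≤ (18 ^ 2 * u) ^ k * (u * Z) by positivity)
      have h6 := mul_le_mul_of_nonneg_right h4 (show 0 ≤ u * Z by positivity)
      rw [mul_pow 3, mul_assoc] at h6
      rw [show (1 : ℝ) + 2 = 3 by norm_num] at h5
      refine le_trans (le_of_eq ?_) (h5.trans h6)
      rw [mul_pow, ← pow_mul, pow_succ u]; push_cast; ring
  rw [← sum_mul] at h2
  have h3 := mul_le_mul_of_nonneg_right (sum_geometric_two_le (edges L).card) (mul_pos u0 hZ).le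
  have h4 : ∑ σ : Conf L, weight β σ * spin σ x + 2 * ∑ σ : Conf L,
      (if ext σ x = true then 0 else weight β σ) = ∑ σ : Conf L, weight β σ := by
    rw [mul_sum, ← sum_add_distrib]
    refine sum_congr rfl fun σ _ => ?_
    rw [spin]
    split_ifs <;> ring
  simp only [gibbs, div_mul_eq_mul_div]
  rw [← sum_div, ← hZ', le_div_iff₀ hZ]
  have h5 := mul_le_mul_of_nonneg_right u1 hZ.le
  linarith

end Pool.Agent.H43.Is
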