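import Mathlib

set_option autoImplicit false

namespace Pool.Agent.H43.KM

open Real

lemma exp_le_quad (x : ℝ) : exp x ≤ 1 + x + x ^ 2 * exp |x| := by
  have h1 := add_one_le_exp (-x)
  have h2 := add_one_le_exp x
  have h3 : exp x * exp (-x) = 1 := by rw [← exp_add]; simp
  have h4 := exp_pos x
  have h5 : exp x - 1 ≤ x * exp x := by nlinarith
  rcases le_total 0 x with h | h
  · rw [abs_of_nonneg h]; nlinarith [mul_le_mul_of_nonneg_left h5 h]
  · have h6 : 1 ≤ exp |x| := one_le_exp (abs_nonneg x)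
    nlinarith [mul_le_mul_of_nonneg_left h6 (sq_nonneg x), mul_nonneg (neg_nonneg.2 h)
      (show 0 ≤ exp x - 1 - x by linarith)]

lemma summable_abs : Summable fun k : ℤ => exp (-|(k : ℝ)|) := by
  refine Summable.of_nat_of_neg ?_ ?_ <;> simpa using summable_exp_neg_nat

lemma summable_of_le {f : ℤ → ℝ} (C : ℝ)
    (h : ∀ k : ℤ, |f k| ≤ C * (exp (-(k : ℝ) ^ 2 / 8) * exp (3 * |(k : ℝ)|))) : Summable f := by
  have hC : 0 ≤ C := by simpa using (abs_nonneg _).trans (h 0)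
  refine Summable.of_norm_bounded (summable_abs.mul_left (C * exp 32)) fun k => (h k).trans ?_
  rw [mul_assoc, ← exp_add, ← exp_add]
  refine mul_le_mul_of_nonneg_left (exp_le_exp.2 ?_) hC
  nlinarith [sq_nonneg (|(k : ℝ)| - 16), sq_abs (k : ℝ)]

lemma q_bounds : 0.88 ≤ exp (-1 / 8) ∧ exp (-1 / 8) ≤ 0.883 := by
  constructor
  · have h1 : exp (-1 / 8) = exp (-1 / 64) ^ 8 := by rw [← exp_nat_mul]; norm_num
    have h2 := add_one_le_exp (-1 / 64)
    rw [h1]
    exact le_trans (by norm_num) (pow_le_pow_left₀ (by norm_num) h2 8)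
  · have h1 := quadratic_le_exp_of_nonneg (show (0 : ℝ) ≤ 1 / 8 by norm_num)
    have h2 : exp (-1 / 8) * exp (1 / 8) = 1 := by rw [← exp_add]; norm_num
    nlinarith [exp_pos (-1 / 8)]

lemma abs_le_exp3 (x : ℝ) : |x| ≤ exp (3 * |x|) := by
  linarith [add_one_le_exp (3 * |x|), abs_nonneg x]

/-- positivity of an even series from its first terms -/
lemma tsum_pos_of (f : ℤ → ℝ) (he : ∀ k, f (-k) = f k) (h0 : f 0 = 0)
    (hb : ∀ k : ℤ, |f k| ≤ |(k : ℝ)| * exp (-(k : ℝ) ^ 2 / 8))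
    (h1 : 14 * exp (-1 / 8) ^ 49 < f 1 + f 2 + f 3 + f 4 + f 5 + f 6) : 0 < ∑' k, f k := by
  have hs : Summable f := summable_of_le 1 fun k => (hb k).trans (by
    rw [one_mul, mul_comm]
    exact mul_le_mul_of_nonneg_left (abs_le_exp3 _) (exp_pos _).le)
  have hn : Summable fun n : ℕ => f n := hs.comp_injective Nat.cast_injective
  rw [Summable.tsum_of_nat_of_neg hn (by simpa only [he] using hn)]
  simp only [he, h0, sub_zero]
  have h2 : HasSum (fun j : ℕ => -(7 * exp (-1 / 8) ^ 49) * (1 / 2 : ℝ) ^ j)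
      (-(7 * exp (-1 / 8) ^ 49) * 2) := hasSum_geometric_two.mul_left _
  have h3 := hasSum_le (fun j => ?_) h2 ((summable_nat_add_iff 7).2 hn).hasSum
  · rw [← hn.sum_add_tsum_nat_add 7]
    simp only [Finset.sum_range_succ, Finset.sum_range_zero] at h3 ⊢
    push_cast at h3 ⊢
    linarith
  · have h4 := (abs_le.1 (hb ((j + 7 : ℕ) : ℤ))).1
    refine le_trans ?_ h4
    rw [neg_mul, neg_le_neg_iff]
    have h5 : exp (-(((j + 7 : ℕ) : ℤ) : ℝ) ^ 2 / 8) ≤ exp (-1 / 8) ^ 49 * (exp (-1 / 8) ^ 14) ^ j := by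
      rw [← pow_mul, ← pow_add, ← exp_nat_mul]
      refine exp_le_exp.2 ?_
      push_cast
      nlinarith [sq_nonneg (j : ℝ)]
    have h6 : exp (-1 / 8) ^ 14 ≤ 1 / 4 :=
      (pow_le_pow_left₀ (exp_pos _).le q_bounds.2 14).trans (by norm_num)
    have h7 := pow_le_pow_left₀ (by positivity) h6 j
    have h8 : |(((j + 7 : ℕ) : ℤ) : ℝ)| ≤ 7 * 2 ^ j := by
      have h9 : j < 2 ^ j := Nat.lt_two_pow_self
      have h10 : j + 7 ≤ 7 * 2 ^ j := by omega
      rw [abs_of_nonneg (by positivity)]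
      exact_mod_cast h10
    have h9 : (2 : ℝ) ^ j * (1 / 4) ^ j = (1 / 2) ^ j := by rw [← mul_pow]; norm_num
    calc _ ≤ (7 * 2 ^ j) * (exp (-1 / 8) ^ 49 * (1 / 4) ^ j) := by
          refine mul_le_mul h8 (h5.trans ?_) (exp_pos _).le (by positivity)
          exact mul_le_mul_of_nonneg_left h7 (by positivity)
      _ = 7 * exp (-1 / 8) ^ 49 * (2 ^ j * (1 / 4) ^ j) := by ring
      _ = _ := by rw [h9]

lemma exp_sq (k : ℕ) : exp (-(k : ℝ) ^ 2 / 8) = exp (-1 / 8) ^ (k ^ 2) := by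
  rw [← exp_nat_mul]; congr 1; push_cast; ring

lemma sigma_pos : 0 < ∑' k : ℤ, (k : ℝ) * exp (-(k : ℝ) ^ 2 / 8) * sin (π * k / 2) := by
  refine tsum_pos_of _ (fun k => ?_) (by simp) (fun k => ?_) ?_
  · push_cast
    rw [neg_sq, mul_neg, neg_div 2, sin_neg]; ring
  · rw [abs_mul, abs_mul, abs_of_pos (exp_pos _)]
    exact mul_le_of_le_one_right (by positivity) (abs_sin_le_one _)
  · have e1 := exp_sq 1
    have e3 := exp_sq 3
    have e5 := exp_sq 5
    have s1 : sin (π * 1 / 2) = 1 := by rw [mul_one, sin_pi_div_two]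
    have s2 : sin (π * 2 / 2) = 0 := by rw [mul_div_cancel_right₀ _ two_ne_zero, sin_pi]
    have s3 : sin (π * 3 / 2) = -1 := by
      rw [show π * 3 / 2 = π / 2 + π by ring, sin_add_pi, sin_pi_div_two]
    have s4 : sin (π * 4 / 2) = 0 := by rw [show π * 4 / 2 = 2 * π by ring, sin_two_pi]
    have s5 : sin (π * 5 / 2) = 1 := by
      rw [show π * 5 / 2 = π / 2 + 2 * π by ring, sin_add_two_pi, sin_pi_div_two]
    have s6 : sin (π * 6 / 2) = 0 := by
      rw [show π * 6 / 2 = π + 2 * π by ring, sin_add_two_pi, sin_pi]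
    push_cast at e1 e3 e5 ⊢
    rw [s1, s2, s3, s4, s5, s6, e1, e3, e5]
    have h0 := (exp_pos (-1 / 8)).le
    have b9 := pow_le_pow_left₀ h0 q_bounds.2 9
    have b49 := pow_le_pow_left₀ h0 q_bounds.2 49
    have b25 := pow_le_pow_left₀ (by norm_num) q_bounds.1 25
    norm_num at b9 b49 b25 ⊢
    linarith [q_bounds.1]

end Pool.Agent.H43.KM
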