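import Pool.Agent.H43.KMDefs
import Pool.Agent.H43.KMSeries

set_option autoImplicit false

namespace Pool.Agent.H43.KM

open MeasureTheory Real Filter Topology
open scoped ENNReal NNReal RealInnerProductSpace

abbrev E3 := EuclideanSpace ℝ (Fin 3)
abbrev E4 := EuclideanSpace ℝ (Fin 4)

def Om (u : ℝ → ℝ) : Set E4 := {x | 0 ≤ sin (π * (x 0 + x 1 + x 2 + x 3 - u (x 0)))}

lemma frontier_Om (u : ℝ → ℝ) (hu : Continuous u) :
    frontier (Om u) = {x : E4 | ∃ k : ℤ, x 3 = k + u (x 0) - x 0 - x 1 - x 2} := by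
  have hc : Continuous fun x : E4 => sin (π * (x 0 + x 1 + x 2 + x 3 - u (x 0))) := by fun_prop
  refine Set.Subset.antisymm (fun x hx => ?_) ?_
  · have h1 := frontier_le_subset_eq continuous_const hc hx
    obtain ⟨k, hk⟩ := sin_eq_zero_iff.1 h1.symm
    refine ⟨k, ?_⟩
    have := mul_left_cancel₀ pi_ne_zero ((mul_comm _ _).trans hk)
    linarith
  · rintro x ⟨k, hk⟩
    have h1 : x 0 + x 1 + x 2 + x 3 - u (x 0) = k := by linarith
    rw [frontier_eq_closure_inter_closure]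
    refine ⟨subset_closure ?_, ?_⟩
    · simp only [Om, Set.mem_ofPred_eq, h1, mul_comm π, sin_int_mul_pi, le_refl]
    · have h2 : Tendsto (fun r : ℝ => x + r • EuclideanSpace.single 3 (-(cos (k * π)))) (𝓝[>] 0)
          (𝓝 x) := by
        have h3 : Continuous fun r : ℝ => x + r • EuclideanSpace.single 3 (-(cos (k * π))) := by
          fun_prop
        have h4 := h3.tendsto 0
        rw [zero_smul, add_zero] at h4
        exact h4.mono_left nhdsWithin_le_nhds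
      refine mem_closure_of_tendsto h2 ?_
      filter_upwards [Ioo_mem_nhdsGT (show (0 : ℝ) < 1 by norm_num)] with r hr
      have h3 : sin (π * (k + r * -(cos (k * π)))) < 0 := by
        have h4 := sin_pos_of_pos_of_lt_pi (mul_pos pi_pos hr.1) (mul_lt_of_lt_one_right pi_pos hr.2)
        have h5 : cos (k * π) = 1 ∨ cos (k * π) = -1 := by
          have := sin_sq_add_cos_sq (k * π)
          rw [sin_int_mul_pi] at this
          exact sq_eq_one_iff.1 (by linarith)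
        rw [mul_add, sin_add, mul_comm π k, sin_int_mul_pi]
        rcases h5 with h | h <;> rw [h] <;> simp [h4]
      simp only [Om, Set.mem_compl_iff, Set.mem_ofPred_eq, not_le]
      refine lt_of_eq_of_lt ?_ h3
      congr 2
      simp
      linarith

noncomputable def a (k : ℤ) (z : E3) : ℝ := k / 4 + (z 0 + z 1 + z 2) / 2

noncomputable def R (δ : ℝ) (k : ℤ) (z : E3) : E4 :=
  !₂[k / 4 + (z 0 + z 1 + z 2) / 2 + δ * sin (2 * π * a k z),
    k / 4 + (z 0 - z 1 - z 2) / 2 + δ * sin (2 * π * a k z),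
    k / 4 + (-z 0 + z 1 - z 2) / 2 + δ * sin (2 * π * a k z),
    k / 4 + (-z 0 - z 1 + z 2) / 2 + δ * sin (2 * π * a k z)]

lemma R_norm (δ : ℝ) (k : ℤ) (z : E3) :
    ‖R δ k z‖ ^ 2 = ‖z‖ ^ 2 + 4 * (k / 4 + δ * sin (2 * π * a k z)) ^ 2 := by
  simp only [EuclideanSpace.real_norm_sq_eq, Fin.sum_univ_four, Fin.sum_univ_three, R]
  simp
  ring

lemma R_dist (δ : ℝ) (k : ℤ) (z w : E3) : dist (R δ k z) (R δ k w) ^ 2 =
    dist z w ^ 2 + 4 * δ ^ 2 * (sin (2 * π * a k z) - sin (2 * π * a k w)) ^ 2 := by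
  simp only [dist_eq_norm, EuclideanSpace.real_norm_sq_eq, Fin.sum_univ_four, Fin.sum_univ_three, R]
  simp
  ring

lemma R_iso (k : ℤ) : Isometry (R 0 k) := by
  refine Isometry.of_dist_eq fun z w => ?_
  have := R_dist 0 k z w
  simpa [sq_eq_sq₀ dist_nonneg dist_nonneg] using this

lemma R_lip (δ : ℝ) (k : ℤ) : LipschitzWith (Real.toNNReal (1 + 60 * δ ^ 2)) (R δ k) := by
  refine LipschitzWith.of_dist_le' fun z w => ?_
  have h1 := abs_sin_sub_sin_le (2 * π * a k z) (2 * π * a k w)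
  have h2 : (sin (2 * π * a k z) - sin (2 * π * a k w)) ^ 2 ≤ 30 * dist z w ^ 2 := by
    refine (sq_le_sq.2 h1).trans ?_
    have h3 : π ^ 2 ≤ 10 := by nlinarith [pi_lt_d2, pi_pos]
    have h4 : (2 * π * a k z - 2 * π * a k w) ^ 2 =
        π ^ 2 * ((z 0 - w 0) + (z 1 - w 1) + (z 2 - w 2)) ^ 2 := by simp only [a]; ring
    have h5 : ((z 0 - w 0) + (z 1 - w 1) + (z 2 - w 2)) ^ 2 ≤ 3 * dist z w ^ 2 := by
      simp only [dist_eq_norm, EuclideanSpace.real_norm_sq_eq, Fin.sum_univ_three, PiLp.sub_apply]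
      nlinarith [sq_nonneg ((z 0 - w 0) - (z 1 - w 1)), sq_nonneg ((z 0 - w 0) - (z 2 - w 2)),
        sq_nonneg ((z 2 - w 2) - (z 1 - w 1))]
    rw [h4]
    nlinarith [mul_le_mul h3 h5 (sq_nonneg _) (by norm_num)]
  refine le_of_sq_le_sq ?_ (by positivity)
  rw [R_dist, mul_pow]
  nlinarith [mul_le_mul_of_nonneg_left h2 (sq_nonneg δ), sq_nonneg (δ ^ 2 * dist z w)]

lemma lint_image {f : E3 → E4} {K : ℝ≥0} (hf : LipschitzWith K f) (g : E4 → ℝ≥0∞)
    (hg : Measurable g) :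
    ∫⁻ x in Set.range f, g x ∂μHE[3] ≤ (K : ℝ≥0∞) ^ 3 * ∫⁻ z, g (f z) := by
  have hm := hf.continuous.measurable
  have h1 : (μHE[3] : Measure E4).restrict (Set.range f) ≤
      ((K : ℝ≥0∞) ^ 3) • (μHE[3] : Measure E3).map f := by
    rw [Measure.le_iff]
    intro s hs
    rw [Measure.restrict_apply hs, Measure.smul_apply, Measure.map_apply hm hs,
      ← Set.image_preimage_eq_inter_range]
    have h2 := hf.hausdorffMeasure_image_le (d := ((3 : ℕ) : ℝ)) (by positivity) (f ⁻¹' s)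
    rw [ENNReal.rpow_natCast] at h2
    simp only [Measure.euclideanHausdorffMeasure_def, Measure.smul_apply, ENNReal.smul_def,
      smul_eq_mul]
    rw [mul_left_comm]
    exact mul_le_mul_right h2 _
  refine (lintegral_mono' h1 le_rfl).trans ?_
  rw [lintegral_smul_measure, lintegral_map hg hm, EuclideanSpace.euclideanHausdorffMeasure_eq_volume,
    smul_eq_mul]

noncomputable def M : ℝ := ∫ z : E3, exp (-‖z‖ ^ 2 / 2)

lemma cint (c : ℂ) : Integrable (fun z : E3 =>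
      Complex.exp (-(1 / 2 : ℂ) * ‖z‖ ^ 2 + c * ((z 0 + z 1 + z 2 : ℝ) : ℂ))) ∧
    ∫ z : E3, Complex.exp (-(1 / 2 : ℂ) * ‖z‖ ^ 2 + c * ((z 0 + z 1 + z 2 : ℝ) : ℂ)) =
      (π / (1 / 2 : ℂ)) ^ ((3 : ℕ) / 2 : ℂ) * Complex.exp (c ^ 2 * 3 / 2) := by
  have h0 : ∀ z : E3, ⟪(!₂[1, 1, 1] : E3), z⟫ = z 0 + z 1 + z 2 := by
    intro z; simp [PiLp.inner_apply, Fin.sum_univ_three]
  have h3 : (‖(!₂[1, 1, 1] : E3)‖ : ℂ) ^ 2 = 3 := by
    rw [← Complex.ofReal_pow, EuclideanSpace.real_norm_sq_eq]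
    simp [Fin.sum_univ_three]; norm_num
  have h1 := GaussianFourier.integrable_cexp_neg_mul_sq_norm_add (V := E3) (b := 1 / 2)
    (by norm_num) c !₂[1, 1, 1]
  have h2 := GaussianFourier.integral_cexp_neg_mul_sq_norm_add (V := E3) (b := 1 / 2)
    (by norm_num) c !₂[1, 1, 1]
  simp only [h0, h3, finrank_euclideanSpace, Fintype.card_fin] at h1 h2
  refine ⟨h1, h2.trans ?_⟩
  norm_num

lemma int_g : Integrable fun z : E3 => exp (-‖z‖ ^ 2 / 2) := by
  refine (cint 0).1.norm.congr (Eventually.of_forall fun z => ?_)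
  simp only [Complex.norm_exp]
  congr 1
  simp [← Complex.ofReal_pow]
  ring

lemma M_pos : 0 < M := integral_exp_pos int_g

lemma int_sin (k : ℤ) : ∫ z : E3, exp (-‖z‖ ^ 2 / 2) * sin (2 * π * a k z) =
    M * exp (-(3 * π ^ 2 / 2)) * sin (π * k / 2) := by
  have h0 : (M : ℂ) = (π / (1 / 2 : ℂ)) ^ ((3 : ℕ) / 2 : ℂ) := by
    have := (cint 0).2
    simp only [zero_mul, add_zero, ne_eq, OfNat.ofNat_ne_zero, not_false_eq_true, zero_pow,
      zero_div, Complex.exp_zero, mul_one] at this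
    rw [← this, M, ← integral_complex_ofReal]
    congr 1; ext z
    push_cast
    congr 1; ring
  obtain ⟨h1, h2⟩ := cint (π * Complex.I)
  have h3 := integral_im (h1.const_mul (Complex.exp ((π * k / 2 : ℝ) * Complex.I)))
  rw [integral_const_mul, h2, ← h0] at h3
  have h4 : ((π : ℂ) * Complex.I) ^ 2 * 3 / 2 = ((-(3 * π ^ 2 / 2) : ℝ) : ℂ) := by
    rw [mul_pow, Complex.I_sq]; push_cast; ring
  rw [h4, ← Complex.ofReal_exp, ← Complex.ofReal_mul, RCLike.im_eq_complex_im, Complex.im_mul_ofReal,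
    Complex.exp_ofReal_mul_I_im] at h3
  rw [mul_comm (M * _), ← h3]
  congr 1; ext z
  have h5 : Complex.exp ((π * k / 2 : ℝ) * Complex.I) *
      Complex.exp (-(1 / 2 : ℂ) * ‖z‖ ^ 2 + π * Complex.I * ((z 0 + z 1 + z 2 : ℝ) : ℂ)) =
      ((exp (-‖z‖ ^ 2 / 2) : ℝ) : ℂ) * Complex.exp ((2 * π * a k z : ℝ) * Complex.I) := by
    rw [Complex.ofReal_exp, ← Complex.exp_add, ← Complex.exp_add]
    congr 1
    simp only [a]; push_cast; ring
  rw [h5, Complex.im_ofReal_mul, Complex.exp_ofReal_mul_I_im]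

noncomputable def A (k : ℤ) : ℝ := exp (-(k : ℝ) ^ 2 / 8)

noncomputable def c0 : ℝ := (2 * π) ^ (-((4 : ℕ) : ℝ) / 2)

lemma c0_pos : 0 < c0 := rpow_pos_of_pos (by positivity) _

lemma level_le (δ : ℝ) (hδ : |δ| ≤ 1) (k : ℤ) : ∫⁻ z, ENNReal.ofReal (gauss (R δ k z)) ≤
    ENNReal.ofReal (c0 * M * (A k - δ * exp (-(3 * π ^ 2 / 2)) * (k * A k * sin (π * k / 2)) +
      δ ^ 2 * (A k * (k ^ 2 * exp |(k : ℝ)|)))) ∧
    0 ≤ c0 * M * (A k - δ * exp (-(3 * π ^ 2 / 2)) * (k * A k * sin (π * k / 2)) +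
      δ ^ 2 * (A k * (k ^ 2 * exp |(k : ℝ)|))) := by
  let g : E3 → ℝ := fun z => c0 * A k * (1 + δ ^ 2 * (k ^ 2 * exp |(k : ℝ)|)) * exp (-‖z‖ ^ 2 / 2) -
    c0 * A k * k * δ * (exp (-‖z‖ ^ 2 / 2) * sin (2 * π * a k z))
  have i2 : Integrable fun z : E3 => exp (-‖z‖ ^ 2 / 2) * sin (2 * π * a k z) :=
    int_g.mul_bdd (c := 1) (Continuous.aestronglyMeasurable (by unfold a; fun_prop))
      (Eventually.of_forall fun z => abs_sin_le_one _)
  have hg : Integrable g := (int_g.const_mul _).sub (i2.const_mul _)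
  have h1 : ∀ z, gauss (R δ k z) ≤ g z := by
    intro z
    have h2 : |δ * sin (2 * π * a k z)| ≤ 1 := by
      rw [abs_mul]; exact mul_le_one₀ hδ (abs_nonneg _) (abs_sin_le_one _)
    have h3 : (δ * sin (2 * π * a k z)) ^ 2 ≤ δ ^ 2 := by
      rw [mul_pow]; exact mul_le_of_le_one_right (sq_nonneg _) (sin_sq_le_one _)
    have h4 : g z = c0 * (exp (-‖z‖ ^ 2 / 2) * A k *
        (1 + -(k * (δ * sin (2 * π * a k z))) + δ ^ 2 * (k ^ 2 * exp |(k : ℝ)|))) := by
      simp only [g]; ring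
    rw [h4, gauss, R_norm]
    generalize δ * sin (2 * π * a k z) = h at h2 h3
    refine mul_le_mul_of_nonneg_left ?_ c0_pos.le
    have h5 : exp (-(‖z‖ ^ 2 + 4 * (k / 4 + h) ^ 2) / 2) ≤
        exp (-‖z‖ ^ 2 / 2) * A k * exp (-(k * h)) := by
      rw [A, ← exp_add, ← exp_add]
      exact exp_le_exp.2 (by nlinarith [sq_nonneg h])
    refine h5.trans (mul_le_mul_of_nonneg_left ((exp_le_quad _).trans ?_)
      (mul_nonneg (exp_pos _).le (exp_pos _).le))
    have h6 : exp |-(k * h)| ≤ exp |(k : ℝ)| := by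
      rw [abs_neg, abs_mul]
      exact exp_le_exp.2 (mul_le_of_le_one_right (abs_nonneg _) h2)
    have h7 : (-(k * h)) ^ 2 ≤ δ ^ 2 * k ^ 2 := by
      nlinarith [mul_le_mul_of_nonneg_right h3 (sq_nonneg (k : ℝ))]
    have h8 := mul_le_mul h7 h6 (exp_pos _).le (by positivity)
    linarith
  have h0 : ∀ z, 0 ≤ g z := fun z =>
    le_trans (mul_nonneg (rpow_pos_of_pos (by positivity) _).le (exp_pos _).le) (h1 z)
  have h2 : ∫ z, g z = c0 * M * (A k - δ * exp (-(3 * π ^ 2 / 2)) * (k * A k * sin (π * k / 2)) +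
      δ ^ 2 * (A k * (k ^ 2 * exp |(k : ℝ)|))) := by
    simp only [g]
    rw [integral_sub (int_g.const_mul _) (i2.const_mul _), integral_const_mul, integral_const_mul,
      int_sin, ← M]
    ring
  rw [← h2]
  refine ⟨?_, integral_nonneg h0⟩
  rw [ofReal_integral_eq_lintegral_ofReal hg (Eventually.of_forall h0)]
  exact lintegral_mono fun z => ENNReal.ofReal_le_ofReal (h1 z)

lemma gauss_meas : Measurable fun x : E4 => ENNReal.ofReal (gauss x) := by
  unfold gauss; fun_prop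

lemma sA : Summable A := summable_of_le 1 fun k => by
  rw [one_mul, A, abs_of_pos (exp_pos _)]
  exact le_mul_of_one_le_right (exp_pos _).le (one_le_exp (by positivity))

lemma area_flat : ENNReal.ofReal (c0 * M * ∑' k, A k) ≤ area (Om fun _ => 0) := by
  have h1 : (⋃ k, Set.range (R 0 k)) ⊆ frontier (Om fun _ => 0) := by
    rw [frontier_Om _ continuous_const]
    rintro x ⟨_, ⟨k, rfl⟩, z, rfl⟩
    exact ⟨k, by simp [R]; ring⟩
  refine le_trans ?_ (lintegral_mono_set h1)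
  rw [lintegral_iUnion (fun k => (R_iso k).isClosedEmbedding.isClosed_range.measurableSet),
    ← tsum_mul_left, ENNReal.ofReal_tsum_of_nonneg (f := fun k => c0 * M * A k)
      (fun k => mul_nonneg (mul_pos c0_pos M_pos).le (exp_pos _).le) (sA.mul_left _)]
  · refine ENNReal.tsum_le_tsum fun k => le_of_eq ?_
    change _ = ∫⁻ x in Set.range (R 0 k), ENNReal.ofReal (gauss x) ∂μHE[3]
    rw [← (R_iso k).map_euclideanHausdorffMeasure,
      lintegral_map gauss_meas (R_iso k).continuous.measurable,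
      EuclideanSpace.euclideanHausdorffMeasure_eq_volume]
    have h2 : ∀ z, gauss (R 0 k z) = c0 * A k * exp (-‖z‖ ^ 2 / 2) := by
      intro z
      rw [gauss, R_norm, A, mul_assoc c0, ← exp_add]
      congr 2; ring
    simp only [h2]
    have h3 : 0 < A k := exp_pos _
    rw [← ofReal_integral_eq_lintegral_ofReal (int_g.const_mul (c0 * A k))
      (Eventually.of_forall fun z => mul_nonneg (mul_pos c0_pos h3).le (exp_pos _).le),
      integral_const_mul, ← M]
    congr 1; ring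
  · intro i j hij
    rw [Function.onFun, Set.disjoint_left]
    rintro x ⟨z, rfl⟩ ⟨w, hw⟩
    have h0 := congrArg (fun x : E4 => x 0 + x 1 + x 2 + x 3) hw
    simp [R] at h0
    exact hij (by exact_mod_cast (by linarith : (i : ℝ) = j))

theorem area_lt : ∃ δ0 : ℝ, 0 < δ0 ∧ ∀ δ, 0 < δ → δ ≤ δ0 → ∀ S : Set E4,
    frontier S ⊆ ⋃ k, Set.range (R δ k) → area S < area (Om fun _ => 0) := by
  have s2 : Summable fun k : ℤ => k * A k * sin (π * k / 2) := summable_of_le 1 fun k => by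
    rw [one_mul, abs_mul, abs_mul, A, abs_of_pos (exp_pos _), mul_comm |(k : ℝ)|]
    exact (mul_le_of_le_one_right (by positivity) (abs_sin_le_one _)).trans
      (mul_le_mul_of_nonneg_left (abs_le_exp3 _) (exp_pos _).le)
  have s3 : Summable fun k : ℤ => A k * (k ^ 2 * exp |(k : ℝ)|) := summable_of_le 1 fun k => by
    rw [one_mul, A, abs_of_nonneg (by positivity)]
    refine mul_le_mul_of_nonneg_left ?_ (exp_pos _).le
    have h1 : |(k : ℝ)| ≤ exp |(k : ℝ)| := by linarith [add_one_le_exp |(k : ℝ)|]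
    have h2 := pow_le_pow_left₀ (abs_nonneg _) h1 2
    rw [sq_abs] at h2
    rw [show 3 * |(k : ℝ)| = ((2 : ℕ) : ℝ) * |(k : ℝ)| + |(k : ℝ)| by push_cast; ring, exp_add,
      exp_nat_mul]
    exact mul_le_mul_of_nonneg_right h2 (exp_pos _).le
  have p1 : 0 < ∑' k, A k := sA.tsum_pos (fun k => (exp_pos _).le) 0 (exp_pos _)
  have p2 : 0 < exp (-(3 * π ^ 2 / 2)) * ∑' k : ℤ, k * A k * sin (π * k / 2) :=
    mul_pos (exp_pos _) sigma_pos
  have p3 : 0 ≤ ∑' k : ℤ, A k * (k ^ 2 * exp |(k : ℝ)|) :=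
    tsum_nonneg fun k => mul_nonneg (exp_pos _).le (by positivity)
  have key : ∀ δ : ℝ, ∑' k : ℤ, c0 * M * (A k - δ * exp (-(3 * π ^ 2 / 2)) *
      (k * A k * sin (π * k / 2)) + δ ^ 2 * (A k * (k ^ 2 * exp |(k : ℝ)|))) =
      c0 * M * (∑' k, A k - δ * (exp (-(3 * π ^ 2 / 2)) * ∑' k : ℤ, k * A k * sin (π * k / 2)) +
        δ ^ 2 * ∑' k : ℤ, A k * (k ^ 2 * exp |(k : ℝ)|)) := by
    intro δ
    rw [tsum_mul_left, (sA.sub (s2.mul_left _)).tsum_add (s3.mul_left _),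
      sA.tsum_sub (s2.mul_left _), tsum_mul_left, tsum_mul_left, mul_assoc δ]
  have hflat := area_flat
  generalize ∑' k, A k = x at *
  generalize exp (-(3 * π ^ 2 / 2)) * ∑' k : ℤ, k * A k * sin (π * k / 2) = y at *
  generalize ∑' k : ℤ, A k * (k ^ 2 * exp |(k : ℝ)|) = w at *
  refine ⟨min (1 / 100) (y / (2 * (200 * x + 2 * w))), by positivity, fun δ h0 h1 S hS => ?_⟩
  have h2 : δ ≤ 1 / 100 := h1.trans (min_le_left _ _)
  have h3 : δ * (2 * (200 * x + 2 * w)) ≤ y := by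
    rw [← le_div_iff₀ (by positivity)]; exact h1.trans (min_le_right _ _)
  have h4 : |δ| ≤ 1 := by rw [abs_of_pos h0]; linarith
  have hcM := mul_pos c0_pos M_pos
  refine lt_of_lt_of_le ?_ hflat
  refine lt_of_le_of_lt ((lintegral_mono_set hS).trans ((lintegral_iUnion_le _ _).trans
    (ENNReal.tsum_le_tsum fun k => (lint_image (R_lip δ k) _ gauss_meas).trans
      (mul_le_mul_right (level_le δ h4 k).1 _)))) ?_
  rw [ENNReal.tsum_mul_left, ← ENNReal.ofReal_tsum_of_nonneg (fun k => (level_le δ h4 k).2)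
    (((sA.sub (s2.mul_left _)).add (s3.mul_left _)).mul_left _), key]
  change ENNReal.ofReal _ ^ 3 * _ < _
  rw [← ENNReal.ofReal_pow (by positivity), ← ENNReal.ofReal_mul (by positivity),
    ENNReal.ofReal_lt_ofReal_iff (mul_pos hcM p1), mul_left_comm]
  refine mul_lt_mul_of_pos_left ?_ hcM
  have h5 : δ ^ 2 ≤ 1 / 10000 := by nlinarith
  have h6 : (1 + 60 * δ ^ 2) ^ 3 ≤ 1 + 200 * δ ^ 2 := by
    have h7 := sq_nonneg δ
    generalize δ ^ 2 = t at *
    nlinarith [mul_le_mul_of_nonneg_left h5 h7, mul_nonneg h7 (mul_nonneg h7 (sub_nonneg.2 h5))]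
  have h7 : 1 ≤ (1 + 60 * δ ^ 2) ^ 3 := one_le_pow₀ (by nlinarith [sq_nonneg δ])
  generalize (1 + 60 * δ ^ 2) ^ 3 = K at *
  have h8 := mul_le_mul_of_nonneg_right h6 p1.le
  have h9 := mul_le_mul_of_nonneg_right h7 (mul_pos h0 p2).le
  have h10 : K * (δ ^ 2 * w) ≤ 2 * (δ ^ 2 * w) :=
    mul_le_mul_of_nonneg_right (by linarith) (by positivity)
  have h11 := mul_le_mul_of_nonneg_left h3 h0.le
  nlinarith [mul_pos h0 p2]

end Pool.Agent.H43.KM
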