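import Mathlib

set_option autoImplicit false

namespace Pool.Agent.H43.KM

open MeasureTheory ProbabilityTheory
open scoped ENNReal

/-- periodic sets, with the identities read up to Lebesgue null sets -/
def Periodic {n : ℕ} (Ω : Set (EuclideanSpace ℝ (Fin n))) : Prop :=
  (∀ i, ((fun x => x + EuclideanSpace.single i (1 : ℝ)) '' Ω : Set _) =ᵐ[volume] (Ωᶜ : Set _)) ∧
    ((fun x => -x) '' Ω : Set _) =ᵐ[volume] (Ωᶜ : Set _)

/-- the periodic half space with signs `ε` -/
def halfSpace {n : ℕ} (ε : Fin n → ℝ) : Set (EuclideanSpace ℝ (Fin n)) :=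
  {x | 0 ≤ Real.sin (Real.pi * ∑ i, ε i * x i)}

/-- the standard Gaussian density -/
noncomputable def gauss {n : ℕ} (x : EuclideanSpace ℝ (Fin n)) : ℝ :=
  (2 * Real.pi) ^ (-(n : ℝ) / 2) * Real.exp (-‖x‖ ^ 2 / 2)

/-- Gaussian surface area: the density integrated over the boundary against the
`(n-1)`-dimensional Hausdorff measure (normalised to agree with Lebesgue measure) -/
noncomputable def area {n : ℕ} (Ω : Set (EuclideanSpace ℝ (Fin n))) : ℝ≥0∞ :=
  ∫⁻ x in frontier Ω, ENNReal.ofReal (gauss x) ∂μHE[n - 1]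

/-- Gaussian noise stability -/
noncomputable def stab {n : ℕ} (ρ : ℝ) (A : Set (EuclideanSpace ℝ (Fin n))) : ℝ≥0∞ :=
  ((stdGaussian (EuclideanSpace ℝ (Fin n))).prod (stdGaussian (EuclideanSpace ℝ (Fin n))))
    {p | p.1 ∈ A ∧ ρ • p.1 + √(1 - ρ ^ 2) • p.2 ∈ A}

end Pool.Agent.H43.KM
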