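import Pool.Agent.H43.KMTheta

set_option autoImplicit false

namespace Pool.Agent.H43.KM

open Real MeasureTheory ProbabilityTheory Filter Topology
open scoped NNReal ENNReal

lemma cos_int (n : ℤ) : cos (n * π) = 1 ∨ cos (n * π) = -1 := by
  have := sin_sq_add_cos_sq (n * π)
  rw [sin_int_mul_pi] at this
  exact sq_eq_one_iff.1 (by linarith)

lemma sin_shift (x : ℝ) (n : ℤ) : sin (π * (x + n)) = cos (n * π) * sin (π * x) := by
  rw [mul_add, sin_add, mul_comm π n, sin_int_mul_pi]; ring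

lemma cos_shift (x : ℝ) (n : ℤ) : cos (π * (x + n)) = cos (n * π) * cos (π * x) := by
  rw [mul_add, cos_add, mul_comm π n, sin_int_mul_pi]; ring

lemma int_neg (v : ℝ≥0) (f : ℝ → ℝ) (hf : Measurable f) :
    ∫ y, f (-y) ∂gaussianReal 0 v = ∫ y, f y ∂gaussianReal 0 v := by
  rw [← integral_map (φ := fun y : ℝ => -y) (by fun_prop) hf.aestronglyMeasurable,
    gaussianReal_map_neg, neg_zero]

lemma int_bdd {Ω : Type} [MeasurableSpace Ω] (μ : Measure Ω) [IsFiniteMeasure μ] {f : Ω → ℝ}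
    (hf : Measurable f) (C : ℝ) (h : ∀ x, |f x| ≤ C) : Integrable f μ :=
  Integrable.of_bound hf.aestronglyMeasurable C (.of_forall h)

noncomputable def I (t : ℝ) : ℝ := if 0 ≤ sin (π * t) then 1 else 0

noncomputable def G (x : ℝ) : ℝ := if √2 / 2 < x then 1 else if x < -(√2 / 2) then -1 else 0

lemma I_meas : Measurable I :=
  Measurable.ite (measurableSet_le measurable_const (by fun_prop)) measurable_const measurable_const

lemma G_meas : Measurable G :=
  Measurable.ite (measurableSet_lt measurable_const measurable_id) measurable_const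
    (Measurable.ite (measurableSet_lt measurable_id measurable_const) measurable_const
      measurable_const)

lemma I_bd (t : ℝ) : 0 ≤ I t ∧ I t ≤ 1 := by unfold I; split_ifs <;> norm_num

lemma I_abs (t : ℝ) : |I t| ≤ 1 := abs_le.2 ⟨by linarith [I_bd t], (I_bd t).2⟩

lemma G_abs (x : ℝ) : |G x| ≤ 1 := by unfold G; split_ifs <;> norm_num

lemma G_neg (x : ℝ) : G (-x) = -G x := by
  have : 0 < √2 / 2 := by positivity
  unfold G; split_ifs <;> linarith

noncomputable def m : ℝ := ∫ y, G (cos (π * y)) ∂gaussianReal 0 3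

lemma m_pos : 0 < m := by
  have hc : 0 < √2 / 2 := by positivity
  have hp := pi_pos
  have key : ∀ u : ℝ, cos (π * u) = cos (π * |u|) := fun u => by
    rw [← cos_abs, abs_mul, abs_of_pos hp]
  refine alt_pos 3 (by norm_num) (by norm_num) _ (G_meas.comp (by fun_prop)) (fun y => G_abs _)
    (fun y n => ?_) (fun u h1 h2 => ?_) (fun u h => ?_) fun u h => ?_
  · rw [cos_shift]; rcases cos_int n with h | h <;> simp [h, G_neg]
  · have h3 : cos (π * |u|) < cos (π / 4) :=
      cos_lt_cos_of_nonneg_of_le_pi (by positivity) (by nlinarith) (by nlinarith)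
    have h4 : 0 ≤ cos (π * |u|) :=
      cos_nonneg_of_neg_pi_div_two_le_of_le (by nlinarith) (by nlinarith)
    rw [cos_pi_div_four] at h3
    rw [key, G, if_neg (by linarith), if_neg (by linarith)]
  · have h4 : 0 ≤ cos (π * |u|) :=
      cos_nonneg_of_neg_pi_div_two_le_of_le (by nlinarith [abs_nonneg u]) (by nlinarith)
    rw [key, G]; split_ifs <;> linarith
  · have h3 : cos (π / 4) < cos (π * |u|) :=
      cos_lt_cos_of_nonneg_of_le_pi (by positivity) (by linarith) (by nlinarith)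
    rw [cos_pi_div_four] at h3
    rw [key, G, if_pos h3]; norm_num

lemma four (k : ℤ) : ∃ j : ℤ, k = 4 * j ∨ k = 4 * j + 1 ∨ k = 4 * j + 2 ∨ k = 4 * j + 3 :=
  ⟨k / 4, by omega⟩

lemma G_int (k : ℤ) : ∫ y, G (sin (π * (k / 2 + y))) ∂gaussianReal 0 3 = sin (π * k / 2) * m := by
  have h0 : ∫ y, G (sin (π * y)) ∂gaussianReal 0 3 = 0 := by
    have := int_neg 3 (fun y => G (sin (π * y))) (G_meas.comp (by fun_prop))
    simp only [mul_neg, sin_neg, G_neg, integral_neg] at this
    linarith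
  have h1 : ∀ y, sin (π * (k / 2 + y)) =
      sin (π * k / 2) * cos (π * y) + cos (π * k / 2) * sin (π * y) := fun y => by
    rw [← sin_add]; congr 1; ring
  have h2 : (sin (π * k / 2) = 0 ∧ (cos (π * k / 2) = 1 ∨ cos (π * k / 2) = -1)) ∨
      (cos (π * k / 2) = 0 ∧ (sin (π * k / 2) = 1 ∨ sin (π * k / 2) = -1)) := by
    have h3 := sin_sq_add_cos_sq (π * k / 2)
    have h4 : sin (π * k / 2) * cos (π * k / 2) = 0 := by
      have := sin_two_mul (π * k / 2)
      rw [show 2 * (π * k / 2) = k * π by ring, sin_int_mul_pi] at this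
      linarith
    rcases mul_eq_zero.1 h4 with h | h
    · exact Or.inl ⟨h, sq_eq_one_iff.1 (by rw [h] at h3; linarith)⟩
    · exact Or.inr ⟨h, sq_eq_one_iff.1 (by rw [h] at h3; linarith)⟩
  simp only [h1]
  rcases h2 with ⟨h, h' | h'⟩ | ⟨h, h' | h'⟩ <;> simp [h, h', G_neg, integral_neg, h0, m]

noncomputable def H (t : ℝ) : ℝ := ∫ y, I (3 / 4 * t + y) ∂gaussianReal 0 (7 / 4)

noncomputable def h (t : ℝ) : ℝ := ∫ y, (I (t + y) - I (-(t + y))) ∂gaussianReal 0 (7 / 4)

lemma H_abs (t : ℝ) : |H t| ≤ 1 := by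
  simpa [H] using norm_integral_le_of_norm_le_const (μ := gaussianReal 0 (7 / 4))
    (f := fun y => I (3 / 4 * t + y)) (C := 1) (.of_forall fun y => I_abs _)

lemma H_cont : Continuous H := by
  refine continuous_iff_continuousAt.2 fun t => continuousAt_of_dominated (bound := fun _ => 1)
    (.of_forall fun s => (I_meas.comp (by fun_prop)).aestronglyMeasurable)
    (.of_forall fun s => .of_forall fun y => I_abs _) (integrable_const _) ?_
  haveI := nullSingletonClass_gaussianReal (μ := 0) (v := 7 / 4) (by norm_num)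
  filter_upwards [(Set.countable_range fun k : ℤ => (k : ℝ) - 3 / 4 * t).ae_notMem
    (gaussianReal 0 (7 / 4))] with y hy
  have hc : ContinuousAt (fun s : ℝ => sin (π * (3 / 4 * s + y))) t := by fun_prop
  rcases lt_trichotomy (sin (π * (3 / 4 * t + y))) 0 with h | h | h
  · refine (continuousAt_const (y := (0 : ℝ))).congr ?_
    filter_upwards [hc.eventually (gt_mem_nhds h)] with s hs
    rw [I, if_neg (not_le.2 hs)]
  · obtain ⟨k, hk⟩ := sin_eq_zero_iff.1 h
    have := mul_left_cancel₀ pi_ne_zero ((mul_comm _ _).trans hk)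
    exact absurd ⟨k, by linarith⟩ hy
  · refine (continuousAt_const (y := (1 : ℝ))).congr ?_
    filter_upwards [hc.eventually (lt_mem_nhds h)] with s hs
    rw [I, if_pos hs.le]

lemma iI (a b : ℝ) : Integrable (fun y => I (a + b * y)) (gaussianReal 0 (7 / 4)) :=
  int_bdd _ (I_meas.comp (by fun_prop)) 1 fun _ => I_abs _

lemma H_sub (t : ℝ) : H t - H (-t) = h (3 / 4 * t) := by
  have h1 := int_neg (7 / 4) (fun y => I (3 / 4 * -t + y)) (I_meas.comp (by fun_prop))
  rw [H, H, ← h1, h, ← integral_sub (by simpa using iI (3 / 4 * t) 1)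
    (by simpa using iI (3 / 4 * -t) (-1))]
  congr 1; ext y; congr 2; ring

lemma h_neg (t : ℝ) : h (-t) = -h t := by
  have h1 := int_neg (7 / 4) (fun y => I (-t + y) - I (-(-t + y)))
    ((I_meas.comp (by fun_prop)).sub (I_meas.comp (by fun_prop)))
  rw [h, ← h1, h, ← integral_neg]
  congr 1; ext y
  rw [← neg_add, neg_neg, neg_sub]

lemma sg_shift (x : ℝ) (n : ℤ) : I (x + n) - I (-(x + n)) = cos (n * π) * (I x - I (-x)) := by
  simp only [I, mul_neg, sin_neg, sin_shift]
  rcases cos_int n with h | h <;> simp [h]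

lemma h_shift (t : ℝ) (n : ℤ) : h (t + n) = cos (n * π) * h t := by
  rw [h, h, ← integral_const_mul]
  congr 1; ext y
  rw [← sg_shift, add_right_comm]

lemma h_pos : 0 < h (1 / 4) := by
  let sg : ℝ → ℝ := fun x => I x - I (-x)
  have hm : Measurable sg := I_meas.sub (I_meas.comp measurable_neg)
  have hb : ∀ x, |sg x| ≤ 1 := fun x =>
    abs_le.2 ⟨by linarith [I_bd x, I_bd (-x)], by linarith [I_bd x, I_bd (-x)]⟩
  have hp := pi_pos
  have p1 : ∀ x, 0 < x → x < 1 → sg x = 1 := fun x h1 h2 => by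
    have := sin_pos_of_pos_of_lt_pi (mul_pos hp h1) (by nlinarith)
    simp [sg, I, this.le, this]
  have p2 : ∀ x, sg (-x) = -sg x := fun x => by simp [sg]
  have p3 : ∀ x, 0 ≤ x → x < 1 → 0 ≤ sg x := fun x h1 h2 => by
    rcases h1.eq_or_lt with h | h
    · simp [sg, ← h]
    · rw [p1 x h h2]; norm_num
  have h1 := alt_pos (7 / 4) (by rw [← NNReal.coe_le_coe]; norm_num)
    (by rw [← NNReal.coe_le_coe]; norm_num) (fun y => (sg (1 / 4 + y) + sg (1 / 4 + -y)) / 2)
    (by fun_prop) (fun y => ?_) (fun y n => ?_) (fun u h1 h2 => ?_) (fun u h => ?_) fun u h => ?_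
  · rw [integral_div, integral_add (int_bdd _ (by fun_prop) 1 fun _ => hb _)
      (int_bdd _ (by fun_prop) 1 fun _ => hb _),
      int_neg _ (fun y => sg (1 / 4 + y)) (by fun_prop)] at h1
    unfold h
    linarith
  · have h2 := abs_le.1 (hb (1 / 4 + y))
    have h3 := abs_le.1 (hb (1 / 4 + -y))
    exact abs_le.2 ⟨by linarith, by linarith⟩
  · have h2 := sg_shift (1 / 4 + y) n
    have h3 := sg_shift (1 / 4 + -y) (-n)
    rw [Int.cast_neg, neg_mul, cos_neg] at h3
    simp only [sg]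
    rw [← add_assoc, h2, show 1 / 4 + -(y + n) = 1 / 4 + -y + -n by ring, h3]; ring
  · rcases le_total 0 u with h | h
    · rw [abs_of_nonneg h] at h1 h2
      rw [p1 _ (by linarith) (by linarith), ← neg_neg (1 / 4 + -u), p2,
        p1 _ (by linarith) (by linarith)]; norm_num
    · rw [abs_of_nonpos h] at h1 h2
      rw [p1 (1 / 4 + -u) (by linarith) (by linarith), ← neg_neg (1 / 4 + u), p2,
        p1 _ (by linarith) (by linarith)]; norm_num
  · rw [abs_le] at h
    linarith [p3 (1 / 4 + u) (by linarith) (by linarith), p3 (1 / 4 + -u) (by linarith) (by linarith)]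
  · rw [abs_lt] at h
    rw [p1 _ (by linarith) (by linarith), p1 _ (by linarith) (by linarith)]; norm_num

lemma h_34 : h (3 / 4) = h (1 / 4) := by
  have := h_shift (-(1 / 4)) 1
  rw [h_neg] at this
  norm_num at this
  exact this

lemma chi (k : ℤ) : ∃ e : ℝ, -cos (k * π) * sin (π * k / 2) * h (3 / 4 * k) = e * h (1 / 4) ∧
    |e| ≤ |(k : ℝ)| ∧ (k = 1 → e = 1) ∧ (k = 2 ∨ k = 4 ∨ k = 6 → e = 0) ∧ -1 ≤ e := by
  have key : ∀ e : ℝ, (e = 1 ∨ e = -1) → k ≠ 0 → |e| ≤ |(k : ℝ)| ∧ -1 ≤ e := fun e he hk => by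
    have h1 : (1 : ℝ) ≤ |(k : ℝ)| := by exact_mod_cast Int.one_le_abs hk
    rcases he with h | h <;> simp [h, h1]
  have pm : ∀ a b c : ℝ, (a = 1 ∨ a = -1) → (b = 1 ∨ b = -1) → (c = 1 ∨ c = -1) →
      (-a * b * c = 1 ∨ -a * b * c = -1) := by
    rintro a b c (rfl | rfl) (rfl | rfl) (rfl | rfl) <;> norm_num
  have s1 : ∀ n : ℤ, sin (π * (1 / 2 + n)) = cos (n * π) := fun n => by
    rw [sin_shift, show π * (1 / 2) = π / 2 by ring, sin_pi_div_two, mul_one]
  rcases Int.even_or_odd' k with ⟨j, rfl | rfl⟩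
  · refine ⟨0, ?_, by simp, by omega, fun _ => rfl, by norm_num⟩
    rw [show π * ((2 * j : ℤ) : ℝ) / 2 = j * π by push_cast; ring, sin_int_mul_pi]; simp
  · have h1 : sin (π * ((2 * j + 1 : ℤ) : ℝ) / 2) = cos (j * π) := by
      rw [← s1]; congr 1; push_cast; ring
    rw [h1]
    rcases Int.even_or_odd' j with ⟨i, rfl | rfl⟩
    · have h2 : h (3 / 4 * ((2 * (2 * i) + 1 : ℤ) : ℝ)) = cos ((3 * i : ℤ) * π) * h (1 / 4) := by
        rw [← h_34, ← h_shift]; congr 1; push_cast; ring
      have h3 := key _ (pm _ _ _ (cos_int (2 * (2 * i) + 1)) (cos_int (2 * i)) (cos_int (3 * i)))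
        (by omega)
      refine ⟨_, by rw [h2, ← mul_assoc], h3.1, fun h => ?_, by omega, h3.2⟩
      obtain rfl : i = 0 := by omega
      simp
    · have h2 : h (3 / 4 * ((2 * (2 * i + 1) + 1 : ℤ) : ℝ)) =
          cos ((3 * i + 2 : ℤ) * π) * h (1 / 4) := by
        rw [← h_shift]; congr 1; push_cast; ring
      have h3 := key _ (pm _ _ _ (cos_int (2 * (2 * i + 1) + 1)) (cos_int (2 * i + 1))
        (cos_int (3 * i + 2))) (by omega)
      exact ⟨_, by rw [h2, ← mul_assoc], h3.1, by omega, by omega, h3.2⟩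

noncomputable def Psi (s : ℝ) : ℝ := gaussianPDFReal 0 4 s * H s

lemma Psi_cont : Continuous Psi := by
  have := H_cont
  unfold Psi gaussianPDFReal
  fun_prop

lemma Psi_le (s : ℝ) : |Psi s| ≤ exp (2 - |s|) := by
  rw [Psi, abs_mul, abs_of_nonneg (gaussianPDFReal_nonneg _ _ _)]
  exact (mul_le_of_le_one_right (gaussianPDFReal_nonneg _ _ _) (H_abs s)).trans
    (pdf_le 4 (by norm_num) le_rfl s)

lemma V_pos : 0 < ∑' k : ℤ, -cos (k * π) * (sin (π * k / 2) * m) * Psi k := by
  have hs : Summable fun k : ℤ => -cos (k * π) * (sin (π * k / 2) * m) * Psi k := by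
    refine Summable.of_norm_bounded (summable_abs.mul_left (m * exp 2)) fun k => ?_
    rw [Real.norm_eq_abs, abs_mul, abs_mul, abs_mul, abs_neg, abs_of_pos m_pos, mul_assoc m,
      ← exp_add]
    refine mul_le_mul ((mul_le_of_le_one_left (mul_nonneg (abs_nonneg _) m_pos.le)
      (abs_cos_le_one _)).trans (mul_le_of_le_one_left m_pos.le (abs_sin_le_one _))) (Psi_le k)
      (abs_nonneg _) m_pos.le
  have h1 := (Equiv.neg ℤ).tsum_eq fun k : ℤ => -cos (k * π) * (sin (π * k / 2) * m) * Psi k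
  have h2 := hs.tsum_add ((Equiv.neg ℤ).summable_iff.2 hs)
  simp only [Function.comp_def] at h2
  rw [h1] at h2
  choose e he using chi
  have hh := h_pos
  let F : ℤ → ℝ := fun k =>
    -cos (k * π) * sin (π * k / 2) * h (3 / 4 * k) / h (1 / 4) * exp (-(k : ℝ) ^ 2 / 8)
  have hF : ∀ k, F k = e k * exp (-(k : ℝ) ^ 2 / 8) := fun k => by
    simp only [F]; rw [(he k).1, mul_div_cancel_right₀ _ hh.ne']
  have h3 : 0 < ∑' k, F k := by
    refine tsum_pos_of F (fun k => ?_) (by simp [F]) (fun k => ?_) ?_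
    · simp only [F]
      push_cast
      rw [neg_sq, neg_mul (k : ℝ), cos_neg, mul_neg π, neg_div 2, sin_neg, mul_neg (3 / 4), h_neg]; ring
    · rw [hF, abs_mul, abs_of_pos (exp_pos _)]
      exact mul_le_mul_of_nonneg_right (he k).2.1 (exp_pos _).le
    · have e1 := exp_sq 1
      have e3 := exp_sq 3
      have e5 := exp_sq 5
      simp only [hF, (he 1).2.2.1 rfl, (he 2).2.2.2.1 (by simp), (he 4).2.2.2.1 (by simp),
        (he 6).2.2.2.1 (by simp)]
      push_cast at e1 e3 e5 ⊢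
      rw [e1, e3, e5]
      have h0 := (exp_pos (-1 / 8)).le
      have b9 := pow_le_pow_left₀ h0 q_bounds.2 9
      have b49 := pow_le_pow_left₀ h0 q_bounds.2 49
      have b25 := pow_le_pow_left₀ h0 q_bounds.2 25
      have c9 := mul_le_mul_of_nonneg_right (he 3).2.2.2.2 (pow_nonneg h0 9)
      have c25 := mul_le_mul_of_nonneg_right (he 5).2.2.2.2 (pow_nonneg h0 25)
      norm_num at b9 b49 b25 c9 c25 ⊢
      linarith [q_bounds.1]
  have hc : 0 < m * (√(2 * π * 4))⁻¹ * h (1 / 4) := by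
    have := m_pos
    have := pi_pos
    positivity
  have h4 := mul_pos hc h3
  rw [← tsum_mul_left] at h4
  refine pos_of_mul_pos_left (b := 2) ?_ (by norm_num)
  rw [mul_two, ← h2]
  refine h4.trans_eq (tsum_congr fun k => ?_)
  simp only [F, Psi, gaussianPDFReal, Equiv.neg_apply, ← H_sub]
  push_cast
  rw [neg_mul (k : ℝ), cos_neg, mul_neg π, neg_div 2, sin_neg]
  field_simp
  ring_nf

lemma cell (k : ℤ) (e : ℝ) (he : |e| ≤ 1 / 4) :
    ∫ s in -1 / 2 + (k : ℝ)..-1 / 2 + k + 1, (I (s - e) - I s) * Psi s =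
      -cos (k * π) * ∫ s in (k : ℝ)..k + e, Psi s := by
  have hi : ∀ e a b : ℝ, IntervalIntegrable (fun s => I (s - e) * Psi s) volume a b := by
    intro e a b
    refine (Psi_cont.intervalIntegrable a b).mono_fun
      ((I_meas.comp (by fun_prop)).mul Psi_cont.measurable).aestronglyMeasurable
      (.of_forall fun s => ?_)
    simp only [norm_mul]
    exact mul_le_of_le_one_left (norm_nonneg _) (I_abs _)
  have hp := pi_pos
  have key : ∀ e : ℝ, |e| ≤ 1 / 4 → ∫ s in -1 / 2 + (k : ℝ)..-1 / 2 + k + 1, I (s - e) * Psi s =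
      (1 - cos (k * π)) / 2 * (∫ s in -1 / 2 + (k : ℝ)..k + e, Psi s) +
      (1 + cos (k * π)) / 2 * ∫ s in k + e..-1 / 2 + k + 1, Psi s := by
    intro e he
    rw [abs_le] at he
    rw [← intervalIntegral.integral_add_adjacent_intervals (hi e _ (k + e)) (hi e _ _),
      ← intervalIntegral.integral_const_mul, ← intervalIntegral.integral_const_mul]
    have h1 : ∀ s, I (s - e) = if 0 ≤ cos (k * π) * sin (π * (s - e - k)) then 1 else 0 := by
      intro s; rw [← sin_shift, sub_add_cancel, I]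
    congr 1
    · refine intervalIntegral.integral_congr_Ioo_of_le (by linarith) fun s hs => ?_
      have h2 := sin_neg_of_neg_of_neg_pi_lt (x := π * (s - e - k)) (by nlinarith [hs.2])
        (by nlinarith [hs.1])
      simp only [h1]
      rcases cos_int k with h | h <;> simp [h, h2, h2.le]
    · refine intervalIntegral.integral_congr_Ioo_of_le (by linarith) fun s hs => ?_
      have h2 := sin_pos_of_pos_of_lt_pi (x := π * (s - e - k)) (by nlinarith [hs.1])
        (by nlinarith [hs.2])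
      simp only [h1]
      rcases cos_int k with h | h <;> simp [h, h2, h2.le]
  have h0 := key 0 (by norm_num)
  have h1 := hi 0 (-1 / 2 + k) (-1 / 2 + k + 1)
  simp only [sub_zero, add_zero] at h0 h1
  simp only [sub_mul]
  rw [intervalIntegral.integral_sub (hi e _ _) h1, key e he, h0,
    ← intervalIntegral.integral_add_adjacent_intervals (Psi_cont.intervalIntegrable _ k)
      (Psi_cont.intervalIntegrable k (k + e)),
    ← intervalIntegral.integral_add_adjacent_intervals (Psi_cont.intervalIntegrable k (k + e))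
      (Psi_cont.intervalIntegrable (k + e) (-1 / 2 + k + 1))]
  ring

noncomputable def L (δ : ℝ) : ℝ :=
  ∫ s, (∫ R, (I (s - δ * G (sin (π * (round s / 2 + R)))) - I s) ∂gaussianReal 0 3) * H s
    ∂gaussianReal 0 4

noncomputable def pp (k : ℤ) (c : ℝ) : ℝ :=
  ∫ R, (G (sin (π * (k / 2 + R))) ^ 2 + c * G (sin (π * (k / 2 + R)))) / 2 ∂gaussianReal 0 3

lemma iG (k : ℤ) (c : ℝ) (hc : |c| ≤ 1) (R : ℝ) :
    |(G (sin (π * (k / 2 + R))) ^ 2 + c * G (sin (π * (k / 2 + R)))) / 2| ≤ 1 := by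
  rw [abs_le] at hc ⊢
  unfold G; split_ifs <;> constructor <;> linarith

lemma iG' (k : ℤ) (c : ℝ) (hc : |c| ≤ 1) : Integrable (fun R =>
    (G (sin (π * (k / 2 + R))) ^ 2 + c * G (sin (π * (k / 2 + R)))) / 2) (gaussianReal 0 3) := by
  have := G_meas
  exact int_bdd _ (by fun_prop) 1 (iG k c hc)

lemma pp_abs (k : ℤ) (c : ℝ) (hc : |c| ≤ 1) : |pp k c| ≤ 1 := by
  have := norm_integral_le_of_norm_le_const (μ := gaussianReal 0 3) (C := 1)
    (f := fun R => (G (sin (π * (k / 2 + R))) ^ 2 + c * G (sin (π * (k / 2 + R)))) / 2)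
    (.of_forall (iG k c hc))
  rwa [probReal_univ, one_mul] at this

lemma pp_sub (k : ℤ) : pp k 1 - pp k (-1) = sin (π * k / 2) * m := by
  rw [pp, pp, ← integral_sub (iG' k _ (by simp)) (iG' k _ (by simp)), ← G_int]
  congr 1; ext R; ring

lemma L_eq (δ : ℝ) (hδ : |δ| ≤ 1 / 4) : L δ = ∑' k : ℤ, -cos (k * π) *
    (pp k 1 * (∫ s in (k : ℝ)..k + δ, Psi s) + pp k (-1) * ∫ s in (k : ℝ)..k + -δ, Psi s) := by
  have h1 : ∀ s, ∫ R, (I (s - δ * G (sin (π * (round s / 2 + R)))) - I s) ∂gaussianReal 0 3 =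
      pp (round s) 1 * (I (s - δ) - I s) + pp (round s) (-1) * (I (s - -δ) - I s) := by
    intro s
    rw [pp, pp, ← integral_mul_const, ← integral_mul_const,
      ← integral_add ((iG' _ _ (by simp)).mul_const _) ((iG' _ _ (by simp)).mul_const _)]
    congr 1; ext R
    unfold G; split_ifs <;> simp
  have hd : ∀ e s, |I (s - e) - I s| ≤ 1 := fun e s =>
    abs_le.2 ⟨by linarith [I_bd s, I_bd (s - e)], by linarith [I_bd s, I_bd (s - e)]⟩
  have hr : Measurable fun s : ℝ => round s := by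
    simp only [round_eq]; fun_prop
  have hiP : Integrable Psi := (integrable_gaussianPDFReal 0 4).mul_bdd (c := 1)
    H_cont.aestronglyMeasurable (.of_forall H_abs)
  have hI := I_meas
  have hi : ∀ c e, |c| ≤ 1 → Integrable fun s => pp (round s) c * ((I (s - e) - I s) * Psi s) := by
    intro c e hc
    refine (hiP.bdd_mul (c := 1) (Measurable.aestronglyMeasurable (by fun_prop))
      (.of_forall (hd e))).bdd_mul (c := 1)
      ((measurable_of_countable fun k => pp k c).comp hr).aestronglyMeasurable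
      (.of_forall fun s => pp_abs _ _ hc)
  have h2 := ((hi 1 δ (by simp)).add (hi (-1) (-δ) (by simp))).hasSum_intervalIntegral (-1 / 2)
  rw [L, integral_gaussianReal_eq_integral_smul (by norm_num)]
  have h3 : ∀ s, gaussianPDFReal 0 4 s • ((∫ R, (I (s - δ * G (sin (π * (round s / 2 + R)))) - I s)
      ∂gaussianReal 0 3) * H s) = pp (round s) 1 * ((I (s - δ) - I s) * Psi s) +
        pp (round s) (-1) * ((I (s - -δ) - I s) * Psi s) := by
    intro s; rw [h1, Psi, smul_eq_mul]; ring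
  simp only [h3]
  refine h2.tsum_eq.symm.trans (tsum_congr fun k => ?_)
  simp only [Pi.add_apply]
  rw [intervalIntegral.integral_add (hi 1 δ (by simp)).intervalIntegrable
    (hi (-1) (-δ) (by simp)).intervalIntegrable]
  have h4 : ∀ c e, |e| ≤ 1 / 4 → ∫ s in -1 / 2 + (k : ℝ)..-1 / 2 + k + 1,
      pp (round s) c * ((I (s - e) - I s) * Psi s) =
      pp k c * (-cos (k * π) * ∫ s in (k : ℝ)..k + e, Psi s) := by
    intro c e he
    rw [← cell k e he, ← intervalIntegral.integral_const_mul]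
    refine intervalIntegral.integral_congr_Ioo_of_le (by linarith) fun s hs => ?_
    have : round s = k := round_eq_iff.2 ⟨by linarith [hs.1], by linarith [hs.2]⟩
    simp only [this]
  rw [h4 _ _ hδ, h4 _ _ (by rwa [abs_neg])]
  ring

theorem L_pos : ∃ c : ℝ, 0 < c ∧ ∀ᶠ δ in 𝓝[>] (0 : ℝ), c * δ ≤ L δ := by
  have hd : ∀ (k : ℤ) (c : ℝ), Tendsto (fun δ : ℝ => δ⁻¹ * ∫ s in (k : ℝ)..k + c * δ, Psi s)
      (𝓝[>] 0) (𝓝 (Psi k * c)) := by
    intro k c
    have h1 : HasDerivAt (fun δ : ℝ => (k : ℝ) + c * δ) c 0 := by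
      simpa using ((hasDerivAt_id (0 : ℝ)).const_mul c).const_add (k : ℝ)
    have h2 := ((Psi_cont.integral_hasStrictDerivAt k ((k : ℝ) + c * 0)).hasDerivAt.comp 0
      h1).tendsto_slope_zero_right
    simpa using h2
  have hb : ∀ (k : ℤ) (c δ : ℝ), |c| = 1 → 0 < δ → δ < 1 →
      |δ⁻¹ * ∫ s in (k : ℝ)..k + c * δ, Psi s| ≤ exp 3 * exp (-|(k : ℝ)|) := by
    intro k c δ hc h0 h1
    have h2 := intervalIntegral.norm_integral_le_of_norm_le_const (a := (k : ℝ)) (b := k + c * δ)
      (C := exp 3 * exp (-|(k : ℝ)|)) (f := Psi) fun s hs => (Psi_le s).trans (by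
        have h3 := Set.abs_sub_left_of_mem_uIcc (Set.uIoc_subset_uIcc hs)
        rw [add_sub_cancel_left, abs_mul, hc, one_mul, abs_of_pos h0] at h3
        have h4 := abs_sub_abs_le_abs_sub (k : ℝ) s
        rw [abs_sub_comm] at h4
        rw [← exp_add]
        exact exp_le_exp.2 (by linarith))
    rw [add_sub_cancel_left, abs_mul, hc, one_mul, abs_of_pos h0] at h2
    rw [abs_mul, abs_of_pos (inv_pos.2 h0), ← div_eq_inv_mul, div_le_iff₀ h0]
    exact h2
  have h1 := tendsto_tsum_of_dominated_convergence (𝓕 := 𝓝[>] (0 : ℝ))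
    (f := fun δ (k : ℤ) => -cos (k * π) * (pp k 1 * (δ⁻¹ * ∫ s in (k : ℝ)..k + 1 * δ, Psi s) +
      pp k (-1) * (δ⁻¹ * ∫ s in (k : ℝ)..k + -1 * δ, Psi s)))
    (g := fun k : ℤ => -cos (k * π) * (sin (π * k / 2) * m) * Psi k)
    ((summable_abs.mul_left (exp 3)).mul_left 2) (fun k => by
      have := (((hd k 1).const_mul (pp k 1)).add ((hd k (-1)).const_mul (pp k (-1)))).const_mul
        (-cos (k * π))
      rw [← pp_sub]
      exact this.trans (le_of_eq (by congr 1; ring))) (by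
      filter_upwards [Ioo_mem_nhdsGT (show (0 : ℝ) < 1 by norm_num)] with δ hδ k
      have h2 := hb k 1 δ (by simp) hδ.1 hδ.2
      have h3 := hb k (-1) δ (by simp) hδ.1 hδ.2
      rw [Real.norm_eq_abs, abs_mul, abs_neg]
      refine (mul_le_of_le_one_left (abs_nonneg _) (abs_cos_le_one _)).trans
        ((abs_add_le _ _).trans ?_)
      rw [abs_mul, abs_mul (pp k (-1))]
      linarith [mul_le_of_le_one_left (abs_nonneg (δ⁻¹ * ∫ s in (k : ℝ)..k + 1 * δ, Psi s))
        (pp_abs k 1 (by simp)), mul_le_of_le_one_left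
        (abs_nonneg (δ⁻¹ * ∫ s in (k : ℝ)..k + -1 * δ, Psi s)) (pp_abs k (-1) (by simp))])
  refine ⟨_, half_pos V_pos, ?_⟩
  filter_upwards [h1.eventually (lt_mem_nhds (half_lt_self V_pos)),
    Ioo_mem_nhdsGT (show (0 : ℝ) < 1 / 4 by norm_num)] with δ h2 hδ
  rw [L_eq δ (by rw [abs_of_pos hδ.1]; exact hδ.2.le), ← le_div_iff₀ hδ.1, div_eq_inv_mul (∑' _, _) δ,
    ← tsum_mul_left]
  refine h2.le.trans_eq (tsum_congr fun k => ?_)
  rw [one_mul, neg_one_mul]; ring

end Pool.Agent.H43.KM
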