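import Pool.Agent.H43.KMSeries

set_option autoImplicit false

namespace Pool.Agent.H43.KM

open Real MeasureTheory ProbabilityTheory Filter
open scoped NNReal ENNReal

lemma pdf_le (v : ℝ≥0) (h1 : 1 ≤ v) (h4 : v ≤ 4) (x : ℝ) :
    gaussianPDFReal 0 v x ≤ exp (2 - |x|) := by
  have h1' : (1 : ℝ) ≤ v := by exact_mod_cast h1
  have h4' : (v : ℝ) ≤ 4 := by exact_mod_cast h4
  unfold gaussianPDFReal
  have h2 : (√(2 * π * v))⁻¹ ≤ 1 :=
    inv_le_one_of_one_le₀ (one_le_sqrt.2 (by nlinarith [pi_gt_three]))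
  refine (mul_le_of_le_one_left (exp_pos _).le h2).trans (exp_le_exp.2 ?_)
  rw [sub_zero, div_le_iff₀ (by linarith)]
  rcases le_total |x| 2 with h | h
  · nlinarith [sq_nonneg x]
  · nlinarith [sq_nonneg (|x| - 4), sq_abs x]

lemma geo_int (r : ℝ) (h0 : 0 ≤ r) (h1 : r ≤ 1 / 10) :
    Summable (fun n : ℤ => if n = 0 then 0 else r ^ n.natAbs) ∧
    ∑' n : ℤ, (if n = 0 then 0 else r ^ n.natAbs) ≤ 1 := by
  have h2 := (hasSum_geometric_of_lt_one h0 (by linarith)).mul_left r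
  have h3 : HasSum (fun n : ℕ => if ((n : ℤ) + 1) = 0 then 0 else r ^ ((n : ℤ) + 1).natAbs)
      (r * (1 - r)⁻¹) := by
    have h5 : (fun n : ℕ => if ((n : ℤ) + 1) = 0 then 0 else r ^ ((n : ℤ) + 1).natAbs) =
        fun n : ℕ => r * r ^ n := by
      ext n
      rw [if_neg (by omega), show ((n : ℤ) + 1).natAbs = n + 1 by omega, pow_succ']
    rw [h5]; exact h2
  have h4 : HasSum (fun n : ℕ => if (-((n : ℤ) + 1)) = 0 then 0 else r ^ (-((n : ℤ) + 1)).natAbs)
      (r * (1 - r)⁻¹) := by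
    simpa only [neg_eq_zero, Int.natAbs_neg] using h3
  have h5 := HasSum.of_add_one_of_neg_add_one
    (f := fun n : ℤ => if n = 0 then 0 else r ^ n.natAbs) h3 h4
  refine ⟨h5.summable, ?_⟩
  rw [h5.tsum_eq]
  have h6 : r * (1 - r)⁻¹ ≤ 1 / 2 := by
    rw [← div_eq_mul_inv, div_le_iff₀ (by linarith)]; linarith
  simp only [if_true]
  linarith

lemma theta_pos (v : ℝ) (hv : 1 ≤ v) (u : ℝ) (hu : |u| ≤ 1 / 4) :
    0 < ∑' n : ℤ, cos (n * π) * exp (-(u + n) ^ 2 / (2 * v)) := by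
  have hv0 : 0 < v := by linarith
  have hp := pi_pos
  have hvc : (v : ℂ) ≠ 0 := by exact_mod_cast hv0.ne'
  have hpc : (π : ℂ) ≠ 0 := by exact_mod_cast hp.ne'
  have h1 := Complex.tsum_exp_neg_quadratic (a := ((1 / (2 * π * v) : ℝ) : ℂ))
    (by rw [Complex.ofReal_re]; positivity) (-u / (2 * π * v) + Complex.I / 2)
  have h2 : ∀ n : ℤ, Complex.exp (-π * ((1 / (2 * π * v) : ℝ) : ℂ) * n ^ 2 +
      2 * π * (-u / (2 * π * v) + Complex.I / 2) * n) =
      ((exp (u ^ 2 / (2 * v)) * (cos (n * π) * exp (-(u + n) ^ 2 / (2 * v))) : ℝ) : ℂ) := by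
    intro n
    have h3 : ((cos (n * π) : ℝ) : ℂ) = Complex.exp (n * π * Complex.I) := by
      rw [Complex.exp_mul_I, Complex.sin_int_mul_pi]; simp
    rw [Complex.ofReal_mul, Complex.ofReal_mul, h3, Complex.ofReal_exp, Complex.ofReal_exp,
      ← Complex.exp_add, ← Complex.exp_add]
    congr 1
    push_cast
    field_simp
    ring
  have h3 : ∀ n : ℤ, Complex.exp (-π / ((1 / (2 * π * v) : ℝ) : ℂ) *
      (n + Complex.I * (-u / (2 * π * v) + Complex.I / 2)) ^ 2) =
      ((exp (u ^ 2 / (2 * v)) * exp (-(2 * π ^ 2 * v * (n - 1 / 2) ^ 2)) : ℝ) : ℂ) *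
        Complex.exp ((2 * π * (n - 1 / 2) * u : ℝ) * Complex.I) := by
    intro n
    rw [Complex.ofReal_mul, Complex.ofReal_exp, Complex.ofReal_exp,
      ← Complex.exp_add, ← Complex.exp_add]
    congr 1
    push_cast
    field_simp
    ring_nf
    simp only [Complex.I_sq, Complex.I_pow_three, Complex.I_pow_four]
    ring
  simp only [h2, h3] at h1
  let E : ℝ := exp (u ^ 2 / (2 * v)) * exp (-(π ^ 2 * v / 2))
  have hE : 0 < E := by positivity
  have hr : exp (-(2 * π ^ 2 * v)) ≤ 1 / 10 := by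
    have h4 := add_one_le_exp (2 * π ^ 2 * v)
    have h5 : 9 ≤ 2 * π ^ 2 * v := by nlinarith [pi_gt_three]
    rw [exp_neg, one_div]
    exact inv_anti₀ (by norm_num) (by linarith)
  obtain ⟨g1, g2⟩ := geo_int _ (exp_pos _).le hr
  have hb : ∀ n : ℤ, n ≠ 0 → n ≠ 1 →
      exp (u ^ 2 / (2 * v)) * exp (-(2 * π ^ 2 * v * (n - 1 / 2) ^ 2)) ≤
      E * if n = 0 then 0 else exp (-(2 * π ^ 2 * v)) ^ n.natAbs := by
    intro n h0 h1
    rw [if_neg h0, ← exp_nat_mul]
    simp only [E]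
    rw [mul_assoc (exp _), ← exp_add (-(π ^ 2 * v / 2))]
    refine mul_le_mul_of_nonneg_left (exp_le_exp.2 ?_) (exp_pos _).le
    have h4 : (n.natAbs : ℤ) ≤ n * (n - 1) := by
      rcases le_total 0 n with h | h
      · rw [Int.natAbs_of_nonneg h]; nlinarith [show 2 ≤ n by omega]
      · rw [Int.ofNat_natAbs_of_nonpos h]; nlinarith [show n ≤ -1 by omega]
    have h5 : (n.natAbs : ℝ) ≤ n * (n - 1) := by
      generalize n.natAbs = m at h4
      exact_mod_cast h4
    nlinarith [mul_le_mul_of_nonneg_left h5 (show 0 ≤ 2 * π ^ 2 * v by positivity)]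
  let t : ℤ → ℝ := fun n => E * ((if n = 0 then cos (π * u) else 0) +
    (if n = 1 then cos (π * u) + exp (-(2 * π ^ 2 * v)) else 0) -
    if n = 0 then 0 else exp (-(2 * π ^ 2 * v)) ^ n.natAbs)
  have ht : HasSum t _ := (((hasSum_ite_eq 0 _).add (hasSum_ite_eq 1 _)).sub g1.hasSum).mul_left E
  have hs : Summable fun n : ℤ =>
      ((exp (u ^ 2 / (2 * v)) * exp (-(2 * π ^ 2 * v * (n - 1 / 2) ^ 2)) : ℝ) : ℂ) *
        Complex.exp ((2 * π * (n - 1 / 2) * u : ℝ) * Complex.I) := by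
    refine Summable.of_norm_bounded_eventually (g1.mul_left E) ?_
    filter_upwards [eventually_cofinite_ne 0, eventually_cofinite_ne 1] with n h0 h1
    rw [norm_mul, Complex.norm_exp_ofReal_mul_I, mul_one, Complex.norm_real,
      Real.norm_of_nonneg (by positivity)]
    exact hb n h0 h1
  have h4 := hasSum_le (fun n => ?_) ht (Complex.hasSum_re hs.hasSum)
  · have h5 : √2 / 2 ≤ cos (π * u) := by
      rw [← cos_pi_div_four, ← cos_abs (π * u), abs_mul, abs_of_pos hp]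
      exact cos_le_cos_of_nonneg_of_le_pi (by positivity) (by linarith) (by nlinarith)
    have h6 : 1 < √2 := one_lt_sqrt_two
    have h7 := lt_of_lt_of_le (mul_pos hE (by linarith [exp_pos (-(2 * π ^ 2 * v))])) h4
    have h8 : (1 : ℂ) / ((1 / (2 * π * v) : ℝ) : ℂ) ^ (1 / 2 : ℂ) =
        ((1 / (1 / (2 * π * v)) ^ (1 / 2 : ℝ) : ℝ) : ℂ) := by
      rw [Complex.ofReal_div 1 (_ ^ _), Complex.ofReal_cpow (by positivity)]; simp
    rw [h8, ← Complex.ofReal_tsum, tsum_mul_left] at h1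
    have h9 := congrArg Complex.re h1
    rw [Complex.ofReal_re, Complex.re_ofReal_mul] at h9
    refine pos_of_mul_pos_left (b := exp (u ^ 2 / (2 * v))) ?_ (exp_pos _).le
    rw [mul_comm, h9]
    positivity
  · rw [Complex.re_ofReal_mul, Complex.exp_ofReal_mul_I_re]
    by_cases h0 : n = 0
    · subst h0
      simp only [t, E, if_true, Int.cast_zero]
      rw [if_neg (by norm_num), show 2 * π * (0 - 1 / 2) * u = -(π * u) by ring, cos_neg]
      exact le_of_eq (by ring_nf)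
    by_cases h1 : n = 1
    · subst h1
      simp only [t, E, if_true, Int.cast_one]
      rw [if_neg (by norm_num), if_neg (by norm_num), show 2 * π * (1 - 1 / 2) * u = π * u by ring]
      exact le_of_eq (by simp; ring_nf; simp)
    have h5 := hb n h0 h1
    simp only [t, if_neg h1, if_neg h0] at h5 ⊢
    have h6 := neg_one_le_cos (2 * π * (n - 1 / 2) * u)
    have h7 : 0 < exp (u ^ 2 / (2 * v)) * exp (-(2 * π ^ 2 * v * (n - 1 / 2) ^ 2)) := by positivity
    nlinarith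

lemma alt_pos (v : ℝ≥0) (h1 : 1 ≤ v) (h4 : v ≤ 4) (g : ℝ → ℝ) (hg : Measurable g)
    (hb : ∀ y, |g y| ≤ 1) (ha : ∀ y (n : ℤ), g (y + n) = cos (n * π) * g y)
    (h0 : ∀ u, |u| ≤ 1 / 2 → 1 / 4 < |u| → g u = 0) (hp : ∀ u, |u| ≤ 1 / 4 → 0 ≤ g u)
    (hq : ∀ u, |u| < 1 / 4 → 0 < g u) : 0 < ∫ y, g y ∂gaussianReal 0 v := by
  have hv : v ≠ 0 := by positivity
  have h1' : (1 : ℝ) ≤ v := by exact_mod_cast h1
  rw [integral_gaussianReal_eq_integral_smul hv]
  simp only [smul_eq_mul]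
  have hi : Integrable fun y => gaussianPDFReal 0 v y * g y :=
    (integrable_gaussianPDFReal 0 v).mul_bdd (c := 1) hg.aestronglyMeasurable (.of_forall hb)
  let F : ℤ → ℝ → ℝ := fun n u => gaussianPDFReal 0 v (u + n) * g (u + n)
  have hF : ∀ n, Integrable (F n) (volume.restrict (Set.Ioc (-1 / 2) (1 / 2))) := fun n =>
    (hi.comp_add_right n).integrableOn
  have hFb : ∀ n, ∀ u ∈ Set.Ioc (-1 / 2 : ℝ) (1 / 2), ‖F n u‖ ≤ exp 3 * exp (-|(n : ℝ)|) := by
    intro n u hu
    rw [norm_mul, norm_of_nonneg (gaussianPDFReal_nonneg _ _ _)]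
    refine (mul_le_of_le_one_right (gaussianPDFReal_nonneg _ _ _) (hb _)).trans
      ((pdf_le v h1 h4 _).trans ?_)
    rw [← exp_add]
    have h2 := abs_add_le (u + n) (-u)
    have h3 : |u| ≤ 1 := abs_le.2 ⟨by linarith [hu.1], by linarith [hu.2]⟩
    rw [abs_neg, add_neg_cancel_comm] at h2
    exact exp_le_exp.2 (by linarith)
  have h2 := hasSum_integral_of_summable_integral_norm hF
    (Summable.of_nonneg_of_le (fun n => integral_nonneg fun _ => norm_nonneg _) (fun n => by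
      refine (setIntegral_mono_on (hF n).norm (integrableOn_const (by simp)) measurableSet_Ioc
        (hFb n)).trans (le_of_eq ?_)
      simp [measureReal_def]; norm_num) (summable_abs.mul_left (exp 3)))
  have h3 := hi.hasSum_intervalIntegral (-1 / 2)
  have h5 : ∀ n : ℤ, ∫ x in -1 / 2 + (n : ℝ)..-1 / 2 + n + 1, gaussianPDFReal 0 v x * g x =
      ∫ u in Set.Ioc (-1 / 2 : ℝ) (1 / 2), F n u := by
    intro n
    rw [← intervalIntegral.integral_of_le (by norm_num)]
    simp only [F]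
    rw [intervalIntegral.integral_comp_add_right (fun x => gaussianPDFReal 0 v x * g x)]
    congr 1; ring
  simp only [h5] at h3
  rw [← h2.unique h3]
  have h6 : ∀ u, ∑' n, F n u =
      g u * ((√(2 * π * v))⁻¹ * ∑' n : ℤ, cos (n * π) * exp (-(u + n) ^ 2 / (2 * v))) := by
    intro u
    rw [← tsum_mul_left, ← tsum_mul_left]
    congr 1; ext n
    simp only [F, ha, gaussianPDFReal, sub_zero]; ring
  have hc : 0 < (√(2 * π * v))⁻¹ := by have := pi_pos; positivity
  have h7 : IntegrableOn (fun u => ∑' n, F n u) (Set.Ioc (-1 / 2 : ℝ) (1 / 2)) := by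
    refine Measure.integrableOn_of_bounded (M := ∑' n : ℤ, exp 3 * exp (-|(n : ℝ)|)) (by simp)
      ?_ ?_
    · refine (Measurable.tsum fun n => ?_).aestronglyMeasurable
      exact ((measurable_gaussianPDFReal 0 v).comp (measurable_add_const _)).mul
        (hg.comp (measurable_add_const _))
    · filter_upwards [ae_restrict_mem measurableSet_Ioc] with u hu
      exact tsum_of_norm_bounded (summable_abs.mul_left (exp 3)).hasSum fun n => hFb n u hu
  rw [setIntegral_pos_iff_support_of_nonneg_ae _ h7]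
  · refine lt_of_lt_of_le ?_ (measure_mono (s := Set.Ioo (-1 / 4 : ℝ) (1 / 4)) fun u hu => ?_)
    · simp; norm_num
    · have h8 : |u| < 1 / 4 := abs_lt.2 ⟨by linarith [hu.1], hu.2⟩
      refine ⟨?_, by linarith [hu.1], by linarith [hu.2]⟩
      rw [Function.mem_support, h6]
      exact (mul_pos (hq u h8) (mul_pos hc (theta_pos v h1' u h8.le))).ne'
  · filter_upwards [ae_restrict_mem measurableSet_Ioc] with u hu
    rw [h6]
    rcases le_or_gt |u| (1 / 4) with h | h
    · exact mul_nonneg (hp u h) (mul_pos hc (theta_pos v h1' u h)).le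
    · rw [h0 u (abs_le.2 ⟨by linarith [hu.1], hu.2⟩) h]; simp

noncomputable def C0 : ℝ := ∑' n : ℤ, exp 4 * exp (-|(n : ℝ)|)

lemma strip (v : ℝ≥0) (h1 : 1 ≤ v) (h4 : v ≤ 4) (δ : ℝ) (h0 : 0 ≤ δ) (hδ : δ ≤ 1) (t : ℝ) :
    (gaussianReal 0 v).real {y | ∃ k : ℤ, |t + y - k| ≤ δ} ≤ 2 * δ * C0 := by
  have hv : v ≠ 0 := by positivity
  have h2 : {y | ∃ k : ℤ, |t + y - k| ≤ δ} ⊆
      ⋃ k : ℤ, Set.Icc (k - Int.fract t - δ) (k - Int.fract t + δ) := by
    rintro y ⟨k, hk⟩
    rw [abs_le] at hk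
    refine Set.mem_iUnion.2 ⟨k - ⌊t⌋, ?_, ?_⟩ <;> push_cast <;>
      linarith [hk.1, hk.2, Int.floor_add_fract t]
  have hs := (summable_abs.mul_left (exp 4)).mul_left (2 * δ)
  rw [C0, ← tsum_mul_left]
  refine ENNReal.toReal_le_of_le_ofReal (tsum_nonneg fun _ => by positivity)
    ((measure_mono h2).trans ((measure_iUnion_le _).trans ?_))
  rw [ENNReal.ofReal_tsum_of_nonneg (fun _ => by positivity) hs]
  refine ENNReal.tsum_le_tsum fun k => ?_
  rw [gaussianReal_apply_eq_integral _ hv]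
  refine ENNReal.ofReal_le_ofReal ((setIntegral_mono_on (g := fun _ => exp 4 * exp (-|(k : ℝ)|))
    (integrable_gaussianPDFReal 0 v).integrableOn (integrableOn_const (by simp)) measurableSet_Icc
    fun y hy => (pdf_le v h1 h4 y).trans ?_).trans (le_of_eq ?_))
  · rw [← exp_add]
    have h5 : |(k : ℝ) - y| ≤ 2 := abs_le.2
      ⟨by linarith [hy.2, Int.fract_nonneg t], by linarith [hy.1, Int.fract_lt_one t]⟩
    have h6 := abs_add_le ((k : ℝ) - y) y
    rw [sub_add_cancel] at h6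
    exact exp_le_exp.2 (by linarith)
  · rw [setIntegral_const, Real.volume_real_Icc_of_le (by linarith), smul_eq_mul]
    ring

end Pool.Agent.H43.KM
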