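import Pool.Agent.H43.KoeDefs

open MeasureTheory Set Filter Topology
open scoped ENNReal

namespace Pool.Agent.H43.Koe

variable {𝕂 : Type} [RCLike 𝕂] {V : Data}

lemma wN_le_tsum {q : ℝ≥0∞} (hq : 1 ≤ q) (w : ℕ → ℝ) (x : ℕ → 𝕂) :
    wN q w x ≤ ∑' j, ‖x j * (w j : 𝕂)‖ₑ := by
  set a : ℕ → 𝕂 := fun j => x j * (w j : 𝕂) with ha
  refine Lp.eLpNorm_le_of_ae_tendsto (u := atTop)
    (f := fun N => ∑ j ∈ Finset.range N, ({j} : Set ℕ).indicator (fun _ => a j))
    (Eventually.of_forall fun N => ?_)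
    (fun _ => StronglyMeasurable.of_discrete.aestronglyMeasurable)
    (Eventually.of_forall fun i => ?_)
  · refine (eLpNorm_sum_le (fun _ _ => StronglyMeasurable.of_discrete.aestronglyMeasurable)
      hq).trans ?_
    refine le_trans (Finset.sum_le_sum fun j _ => ?_) (ENNReal.sum_le_tsum (Finset.range N))
    refine (eLpNorm_indicator_const_le _ _).trans ?_
    simp [ha]
  · refine tendsto_const_nhds.congr' ?_
    filter_upwards [eventually_gt_atTop i] with N hN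
    rw [Finset.sum_apply, Finset.sum_eq_single i]
    · simp [ha]
    · intro b _ hb; simp [Ne.symm hb]
    · intro h; exact absurd (Finset.mem_range.2 hN) h

lemma step_of_tsum {m : ℕ} {x : ℕ → 𝕂} (h : ∑' j, ‖x j * (V.v m j : 𝕂)‖ₑ ≠ ∞) : Step V m x := by
  refine ⟨(wN_le_tsum V.hq _ x).trans_lt h.lt_top, ?_⟩
  exact (tsum_enorm_ne_top_iff_summable_norm.1 h).of_norm.tendsto_atTop_zero

lemma step_of_fin (m : ℕ) {x : ℕ → 𝕂} {t : ℕ} (h : ∀ j, t ≤ j → x j = 0) : Step V m x := by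
  refine step_of_tsum ?_
  rw [tsum_eq_sum (s := Finset.range t)]
  · exact ENNReal.sum_ne_top.2 fun _ _ => enorm_ne_top
  · intro j hj; simp [h j (by simpa using hj)]

/-- Weights dominated by every step weight. -/
def Adm (V : Data) (w : ℕ → ℝ) : Prop :=
  (∀ j, 0 ≤ w j) ∧ ∀ m, ∃ C, 0 ≤ C ∧ ∀ j, w j ≤ C * V.v m j

lemma adm_of_ev {w : ℕ → ℝ} (h0 : ∀ j, 0 ≤ w j) (h : ∀ m, ∃ t, ∀ j, t ≤ j → w j ≤ V.v m j) :
    Adm V w := by
  refine ⟨h0, fun m => ?_⟩
  obtain ⟨t, ht⟩ := h m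
  have hs : 0 ≤ ∑ i ∈ Finset.range t, w i / V.v m i :=
    Finset.sum_nonneg fun i _ => div_nonneg (h0 i) (V.pos m i).le
  refine ⟨1 + ∑ i ∈ Finset.range t, w i / V.v m i, by linarith, fun j => ?_⟩
  have hp := V.pos m j
  rcases le_or_gt t j with hj | hj
  · nlinarith [ht j hj]
  · have := Finset.single_le_sum (f := fun i => w i / V.v m i)
      (fun i _ => div_nonneg (h0 i) (V.pos m i).le) (Finset.mem_range.2 hj)
    rw [div_le_iff₀ hp] at this
    nlinarith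

lemma wN_le_mul {w : ℕ → ℝ} (h0 : ∀ j, 0 ≤ w j) {m : ℕ} {C : ℝ} (hC : 0 ≤ C)
    (h : ∀ j, w j ≤ C * V.v m j) (x : ℕ → 𝕂) :
    wN V.q w x ≤ ENNReal.ofReal C * wN V.q (V.v m) x := by
  have h1 := wN_smul V.q (V.v m) (C : 𝕂) x
  have h2 : ‖(C : 𝕂)‖ₑ = ENNReal.ofReal C := by
    rw [← ofReal_norm, RCLike.norm_ofReal, abs_of_nonneg hC]
  rw [← h2, ← h1]
  refine wN_mono _ fun j => ?_
  rw [abs_of_nonneg (h0 j), abs_of_pos (V.pos m j), Pi.smul_apply, norm_smul, RCLike.norm_ofReal,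
    abs_of_nonneg hC]
  nlinarith [h j, norm_nonneg (x j)]

lemma wN_ne_top {w : ℕ → ℝ} (hw : Adm V w) (x : K 𝕂 V) : wN V.q w x.1 ≠ ∞ := by
  obtain ⟨m, hm⟩ := x.2
  obtain ⟨C, hC, h⟩ := hw.2 m
  exact ((wN_le_mul hw.1 hC h x.1).trans_lt (ENNReal.mul_lt_top ENNReal.ofReal_lt_top hm.1)).ne

/-- The seminorm given by a dominated weight. -/
noncomputable def P {w : ℕ → ℝ} (hw : Adm V w) : Seminorm 𝕂 (K 𝕂 V) :=
  Seminorm.of (fun x => (wN V.q w x.1).toReal)
    (fun x y => by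
      rw [← ENNReal.toReal_add (wN_ne_top hw x) (wN_ne_top hw y)]
      exact ENNReal.toReal_mono (ENNReal.add_ne_top.2 ⟨wN_ne_top hw x, wN_ne_top hw y⟩)
        (wN_add V.hq w x.1 y.1))
    (fun c x => by
      change (wN V.q w (c • x.1)).toReal = _
      rw [wN_smul, ENNReal.toReal_mul, toReal_enorm])

lemma P_apply {w : ℕ → ℝ} (hw : Adm V w) (x : K 𝕂 V) : P hw x = (wN V.q w x.1).toReal := rfl

lemma P_cont {w : ℕ → ℝ} (hw : Adm V w) : Cont 𝕂 V (P hw) := by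
  intro m
  obtain ⟨C, hC, h⟩ := hw.2 m
  refine ⟨C, fun x hx => ?_⟩
  have := ENNReal.toReal_mono (ENNReal.mul_ne_top ENNReal.ofReal_ne_top hx.1.ne)
    (wN_le_mul hw.1 hC h x.1)
  rwa [ENNReal.toReal_mul, ENNReal.toReal_ofReal hC] at this

lemma coord_le {w : ℕ → ℝ} (hw : Adm V w) (x : K 𝕂 V) (j : ℕ) : ‖x.1 j‖ * w j ≤ P hw x := by
  have h := enorm_le_eLpNorm_count (p := V.q) (fun j => x.1 j * (w j : 𝕂)) j
    (zero_lt_one.trans_le V.hq).ne'
  have := ENNReal.toReal_mono (wN_ne_top hw x) h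
  rwa [toReal_enorm, norm_mul, RCLike.norm_ofReal, abs_of_nonneg (hw.1 j)] at this

/-- Unit vectors. -/
def e (V : Data) (j : ℕ) : K 𝕂 V :=
  ⟨Pi.single j 1, 0, step_of_fin (t := j + 1) 0 fun i hi => Pi.single_eq_of_ne (by omega) _⟩

lemma nuclear_summable (hN : Nuclear 𝕂 V) {w : ℕ → ℝ} (hw : Adm V w) (m : ℕ) :
    Summable fun j => w j / V.v m j := by
  obtain ⟨σ, hσ, -, φ, a, y, hφ, ha, hs, hlim⟩ := hN _ (P_cont hw)
  obtain ⟨C, hC⟩ := hσ m
  have hnn : ∀ j, 0 ≤ w j / V.v m j := fun j => div_nonneg (hw.1 j) (V.pos m j).le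
  refine summable_of_sum_range_le (c := |C| * ∑' n, a n * P hw (y n)) hnn fun t => ?_
  let z : ℕ → K 𝕂 V := fun n =>
    ∑ j ∈ Finset.range t, ((y n).1 j * ((w j / V.v m j : ℝ) : 𝕂)) • e V j
  have hz : ∀ n i, (z n).1 i = if i < t then (y n).1 i * ((w i / V.v m i : ℝ) : 𝕂) else 0 := by
    intro n i
    simp [z, e, Finset.sum_apply, Pi.single_apply]
  have hzb : ∀ n, ‖φ n (z n)‖ ≤ |C| * (a n * P hw (y n)) := by
    intro n
    have h1 := hC (z n) (step_of_fin (t := t) m fun j hj => by rw [hz, if_neg (by omega)])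
    have h2 : (wN V.q (V.v m) (z n).1).toReal ≤ P hw (y n) := by
      refine ENNReal.toReal_mono (wN_ne_top hw (y n)) (wN_mono _ fun j => ?_)
      rw [hz, abs_of_pos (V.pos m j), abs_of_nonneg (hw.1 j)]
      split_ifs
      · rw [norm_mul, RCLike.norm_ofReal, abs_of_nonneg (hnn j), mul_assoc,
          div_mul_cancel₀ _ (V.pos m j).ne']
      · simpa using mul_nonneg (norm_nonneg _) (hw.1 j)
    have h3 : σ (z n) ≤ |C| * P hw (y n) :=
      h1.trans ((mul_le_mul_of_nonneg_right (le_abs_self C) ENNReal.toReal_nonneg).trans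
        (mul_le_mul_of_nonneg_left h2 (abs_nonneg C)))
    calc ‖φ n (z n)‖ ≤ a n * σ (z n) := hφ n _
      _ ≤ a n * (|C| * P hw (y n)) := mul_le_mul_of_nonneg_left h3 (ha n)
      _ = _ := by ring
  have hj : ∀ j, Tendsto (fun N => (∑ n ∈ Finset.range N, φ n (e V j) * (y n).1 j) *
      ((w j / V.v m j : ℝ) : 𝕂)) atTop (𝓝 ((w j / V.v m j : ℝ) : 𝕂)) := by
    intro j
    rw [tendsto_iff_norm_sub_tendsto_zero]
    have h0 := (hlim (e V j)).div_const (V.v m j)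
    rw [zero_div] at h0
    refine squeeze_zero (fun _ => norm_nonneg _) (fun N => ?_) h0
    have h1 := coord_le hw (e V j - ∑ n ∈ Finset.range N, φ n (e V j) • y n) j
    have h2 : (e V j - ∑ n ∈ Finset.range N, φ n (e V j) • y n).1 j
        = 1 - ∑ n ∈ Finset.range N, φ n (e V j) * (y n).1 j := by
      simp [e, Finset.sum_apply]
    rw [h2] at h1
    rw [← sub_one_mul, norm_mul, norm_sub_rev, RCLike.norm_ofReal, abs_of_nonneg (hnn j),
      ← mul_div_assoc]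
    exact div_le_div_of_nonneg_right h1 (V.pos m j).le
  have hsum := (tendsto_finsetSum (Finset.range t) fun j _ => hj j).norm
  have hval : ‖∑ j ∈ Finset.range t, ((w j / V.v m j : ℝ) : 𝕂)‖
      = ∑ j ∈ Finset.range t, w j / V.v m j := by
    rw [← RCLike.ofReal_sum, RCLike.norm_ofReal,
      abs_of_nonneg (Finset.sum_nonneg fun j _ => hnn j)]
  rw [hval] at hsum
  refine le_of_tendsto' hsum fun N => ?_
  have heq : ∑ j ∈ Finset.range t, (∑ n ∈ Finset.range N, φ n (e V j) * (y n).1 j) *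
      ((w j / V.v m j : ℝ) : 𝕂) = ∑ n ∈ Finset.range N, φ n (z n) := by
    simp only [z, map_sum, map_smul, smul_eq_mul, Finset.sum_mul]
    rw [Finset.sum_comm]
    refine Finset.sum_congr rfl fun n _ => Finset.sum_congr rfl fun j _ => by ring
  rw [heq]
  refine (norm_sum_le _ _).trans ((Finset.sum_le_sum fun n _ => hzb n).trans ?_)
  rw [← Finset.mul_sum]
  exact mul_le_mul_of_nonneg_left
    (hs.sum_le_tsum _ fun n _ => mul_nonneg (ha n) (apply_nonneg _ _)) (abs_nonneg C)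

lemma block_index {t : ℕ → ℕ} (h0 : t 0 = 0) (ht : StrictMono t) :
    ∃ g : ℕ → ℕ, ∀ j, t (g j) ≤ j ∧ j < t (g j + 1) := by
  have hex : ∀ j, ∃ n, j < t (n + 1) := fun j => ⟨j, (Nat.lt_succ_self j).trans_le (ht.id_le _)⟩
  refine ⟨fun j => Nat.find (hex j), fun j => ⟨?_, Nat.find_spec (hex j)⟩⟩
  change t (Nat.find (hex j)) ≤ j
  rcases h : Nat.find (hex j) with _ | k
  · simp [h0]
  · exact not_lt.1 (Nat.find_min (hex j) (by omega : k < Nat.find (hex j)))

lemma exists_adm (h : ∀ n, ¬ Summable (V.v n)) : ∃ w, Adm V w ∧ ¬ Summable w := by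
  have h1 : ∀ n s, ∃ s', s < s' ∧ 1 ≤ ∑ j ∈ Finset.Ico s s', V.v n j := by
    intro n s
    have := (not_summable_iff_tendsto_nat_atTop_of_nonneg fun j => (V.pos n j).le).1 (h n)
    obtain ⟨s', hs1, hs2⟩ := ((this.eventually_ge_atTop
      (1 + ∑ j ∈ Finset.range s, V.v n j)).and (eventually_gt_atTop s)).exists
    refine ⟨s', hs2, ?_⟩
    rw [Finset.sum_Ico_eq_sub _ hs2.le]; linarith
  choose F hF1 hF2 using h1
  let t : ℕ → ℕ := fun n => Nat.rec 0 F n
  have ht : StrictMono t := strictMono_nat_of_lt_succ fun n => hF1 n (t n)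
  obtain ⟨g, hg⟩ := block_index rfl ht
  refine ⟨fun j => V.v (g j) j, adm_of_ev (fun j => (V.pos _ _).le) fun m => ⟨t m, fun j hj =>
    V.anti (Nat.lt_succ_iff.1 (ht.lt_iff_lt.1 (hj.trans_lt (hg j).2))) j⟩, fun hs => ?_⟩
  have key : ∀ n : ℕ, (n : ℝ) ≤ ∑ j ∈ Finset.range (t n), V.v (g j) j := by
    intro n
    induction n with
    | zero => simp [t]
    | succ n ih =>
      rw [← Finset.sum_range_add_sum_Ico _ (ht.monotone (Nat.le_succ n))]
      have h2 : ∑ j ∈ Finset.Ico (t n) (t (n + 1)), V.v n j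
          ≤ ∑ j ∈ Finset.Ico (t n) (t (n + 1)), V.v (g j) j :=
        Finset.sum_le_sum fun j hj => V.anti (Nat.lt_succ_iff.1
          (ht.lt_iff_lt.1 ((hg j).1.trans_lt (Finset.mem_Ico.1 hj).2))) j
      have h3 : 1 ≤ ∑ j ∈ Finset.Ico (t n) (t (n + 1)), V.v n j := hF2 n (t n)
      push_cast; linarith
  obtain ⟨n, hn⟩ := exists_nat_gt (∑' j, V.v (g j) j)
  exact absurd ((key n).trans (hs.sum_le_tsum _ fun j _ => (V.pos _ _).le)) (not_le.2 hn)

lemma iter_shift {B : K 𝕂 V → K 𝕂 V} (hB : ∀ x j, (B x).1 j = x.1 (j + 1)) (i : ℕ) :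
    ∀ x j, (B^[i] x).1 j = x.1 (j + i) := by
  induction i with
  | zero => intro x j; rfl
  | succ i ih => intro x j; rw [Function.iterate_succ_apply, ih, hB]; rfl

theorem exists_summable
    (hv : ∀ m, ∃ n, m ≤ n ∧ ∃ C, 0 < C ∧ ∀ j, V.v n j ≤ C * V.v m (j + 1))
    {B : K 𝕂 V → K 𝕂 V} (hB : ∀ x j, (B x).1 j = x.1 (j + 1))
    (hN : Nuclear 𝕂 V) (hE : TopErgodic (top 𝕂 V) B) : ∃ n, Summable (V.v n) := by
  classical
  by_contra hne
  obtain ⟨w, hw, hws⟩ := exists_adm (V := V) (not_exists.1 hne)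
  have hunb : ∀ m C, ∃ j, C ≤ V.v m j := by
    intro m C
    by_contra hcon
    push Not at hcon
    refine hws (Summable.of_nonneg_of_le hw.1 (fun j => ?_)
      ((nuclear_summable hN hw m).mul_left C))
    rw [← mul_div_assoc, le_div_iff₀ (V.pos m j), mul_comm C]
    exact mul_le_mul_of_nonneg_left (hcon j).le (hw.1 j)
  have hit : ∀ m k, ∃ n C, 0 < C ∧ ∀ i, i ≤ k → ∀ j, V.v n j ≤ C * V.v m (j + i) := by
    intro m k
    induction k with
    | zero => exact ⟨m, 1, one_pos, fun i hi j => by simp [Nat.le_zero.1 hi]⟩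
    | succ k ih =>
      obtain ⟨n, C, hC, h⟩ := ih
      obtain ⟨n', hn', C', hC', h'⟩ := hv n
      refine ⟨n', (C' + 1) * C, by positivity, fun i hi j => ?_⟩
      rcases i with _ | i
      · have h1 := V.anti hn' j
        have h2 := h 0 (Nat.zero_le _) j
        have h3 := mul_pos hC' (mul_pos hC (V.pos m (j + 0)))
        nlinarith
      · have h1 := h' j
        have h2 := h i (by omega) (j + 1)
        rw [show j + 1 + i = j + (i + 1) by ring] at h2
        have h3 := mul_pos hC (V.pos m (j + (i + 1)))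
        nlinarith
  have hblock : ∀ k, ∃ s, ∀ i, i ≤ k + 1 → 1 ≤ V.v k (s + i) := by
    intro k
    obtain ⟨n, C, hC, h⟩ := hit k (k + 1)
    obtain ⟨j, hj⟩ := hunb n C
    exact ⟨j, fun i hi => le_of_mul_le_mul_left (by simpa using hj.trans (h i hi j)) hC⟩
  choose s hs using hblock
  have hu : Adm V fun j => if ∃ k i, i ≤ k + 1 ∧ j = s k + i then 1 else 0 := by
    refine adm_of_ev (fun j => by split_ifs <;> norm_num) fun m =>
      ⟨1 + ∑ k ∈ Finset.range m, (s k + k + 1), fun j hj => ?_⟩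
    split_ifs with h
    · obtain ⟨k, i, hi, rfl⟩ := h
      refine (hs k i hi).trans (V.anti ?_ _)
      by_contra hk
      have := Finset.single_le_sum (f := fun k => s k + k + 1) (fun _ _ => Nat.zero_le _)
        (Finset.mem_range.2 (not_le.1 hk))
      omega
    · exact (V.pos _ _).le
  have hd : Adm V fun j => if j = 0 then 1 else 0 :=
    adm_of_ev (fun j => by split_ifs <;> norm_num) fun m => ⟨1, fun j hj => by
      rw [if_neg (by omega)]; exact (V.pos _ _).le⟩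
  obtain ⟨g, hg⟩ := hE ((P hu).ball 0 1) ((P hd).ball ((2 : 𝕂) • e V 0) 1)
    (TopologicalSpace.isOpen_generateFrom_of_mem ⟨_, P_cont hu, _, _, rfl⟩)
    ⟨_, Seminorm.mem_ball_self _ one_pos⟩
    (TopologicalSpace.isOpen_generateFrom_of_mem ⟨_, P_cont hd, _, _, rfl⟩)
    ⟨_, Seminorm.mem_ball_self _ one_pos⟩
  obtain ⟨i, hi1, hi2, _, ⟨x, hx, rfl⟩, hx'⟩ := hg (s g + 1) (by omega)
  rw [Seminorm.mem_ball_zero] at hx
  rw [Seminorm.mem_ball] at hx'
  have h1 := (coord_le hu x i).trans_lt hx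
  rw [if_pos ⟨g, i - s g, by omega, by omega⟩, mul_one] at h1
  have h2 := (coord_le hd _ 0).trans_lt hx'
  have h3 : (B^[i] x - (2 : 𝕂) • e V 0).1 0 = x.1 i - 2 := by
    simp [e, iter_shift hB]
  rw [if_pos rfl, mul_one, h3] at h2
  have h4 := norm_sub_norm_le (2 : 𝕂) (x.1 i)
  rw [norm_sub_rev, RCLike.norm_two] at h4
  linarith

end Pool.Agent.H43.Koe
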