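import Pool.Agent.H43.Koe1

open MeasureTheory Set Filter Topology
open scoped ENNReal

namespace Pool.Agent.H43.Koe

variable {𝕂 : Type} [RCLike 𝕂] {V : Data}

lemma hc {u : ℕ → ℝ} (hu0 : ∀ j, 0 ≤ u j) (hu : Summable u) (Y : ℕ → ℕ → 𝕂) (L : ℕ → ℕ)
    (hL : ∀ k j, L k ≤ j → Y k j = 0) :
    ∃ (x : ℕ → 𝕂) (n : ℕ → ℕ) (r : ℕ → ℝ≥0∞), n 0 = 0 ∧ Tendsto r atTop (𝓝 0) ∧ r 0 ≠ ∞ ∧
      ∀ k, ∑' j, ‖(x (j + n k) - Y k j) * (u j : 𝕂)‖ₑ ≤ r k := by
  let M : ℕ → ℝ≥0∞ := fun k => ∑ j ∈ Finset.range (L k), ‖Y k j‖ₑ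
  have hM : ∀ k, M k ≠ ∞ := fun k => ENNReal.sum_ne_top.2 fun _ _ => enorm_ne_top
  have hYM : ∀ k j, ‖Y k j‖ₑ ≤ M k := by
    intro k j
    rcases le_or_gt (L k) j with h | h
    · simp [hL k j h]
    · exact Finset.single_le_sum (f := fun j => ‖Y k j‖ₑ) (fun _ _ => zero_le)
        (Finset.mem_range.2 h)
  let τ : ℕ → ℝ≥0∞ := fun t => ∑' j, if t ≤ j then ENNReal.ofReal (u j) else 0
  have hτ : Tendsto τ atTop (𝓝 0) := by
    have h1 := ENNReal.tendsto_sum_nat_add (fun j => ENNReal.ofReal (u j))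
      (by rw [← ENNReal.ofReal_tsum_of_nonneg hu0 hu]; exact ENNReal.ofReal_ne_top)
    refine h1.congr fun t => ?_
    have h2 := Summable.sum_add_tsum_nat_add'
      (f := fun j => if t ≤ j then ENNReal.ofReal (u j) else 0) (k := t) ENNReal.summable
    rw [Finset.sum_eq_zero (fun j hj => if_neg (by simpa using hj)), zero_add] at h2
    simpa using h2
  obtain ⟨δ, hδ0, hδ⟩ := ENNReal.exists_pos_sum_of_countable' (ε := 1) one_ne_zero ℕ
  have hd : ∀ k, ∃ d, (L k ≤ d ∧ 1 ≤ d) ∧ M (k + 1) * τ d ≤ δ k := by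
    intro k
    have h1 := ENNReal.Tendsto.const_mul (a := M (k + 1)) hτ (Or.inr (hM _))
    rw [mul_zero] at h1
    exact (((eventually_ge_atTop (L k)).and (eventually_ge_atTop 1)).and
      (h1.eventually (ge_mem_nhds (hδ0 k)))).exists
  choose d hd1 hd2 using hd
  let n : ℕ → ℕ := fun k => Nat.rec 0 (fun k s => s + d k) k
  have hn : ∀ k, n (k + 1) = n k + d k := fun _ => rfl
  have hmono : StrictMono n := strictMono_nat_of_lt_succ fun k => by
    rw [hn]; have := (hd1 k).2; omega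
  obtain ⟨g, hg⟩ := block_index rfl hmono
  refine ⟨fun j => Y (g j) (j - n (g j)), n, fun k => ∑' l, δ (l + k), rfl,
    ENNReal.tendsto_sum_nat_add δ (hδ.trans ENNReal.one_lt_top).ne,
    by simpa using (hδ.trans ENNReal.one_lt_top).ne, fun k => ?_⟩
  calc ∑' j, ‖(Y (g (j + n k)) (j + n k - n (g (j + n k))) - Y k j) * (u j : 𝕂)‖ₑ
      ≤ ∑' j, ∑' l, M (l + k + 1) * (if d (l + k) ≤ j then ENNReal.ofReal (u j) else 0) := by
        refine ENNReal.tsum_le_tsum fun j => ?_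
        obtain ⟨h1, h2⟩ := hg (j + n k)
        have hk : k ≤ g (j + n k) :=
          Nat.lt_succ_iff.1 (hmono.lt_iff_lt.1 ((Nat.le_add_left _ _).trans_lt h2))
        rcases hk.eq_or_lt with hk | hk
        · rw [← hk]; simp
        · obtain ⟨l, hl⟩ := Nat.exists_eq_add_of_lt hk
          rw [add_comm k l] at hl
          rw [hl] at h1 ⊢
          have h3 : n k ≤ n (l + k) := hmono.monotone (Nat.le_add_left _ _)
          have h4 : n (k + 1) ≤ n (l + k + 1) := hmono.monotone (show k + 1 ≤ l + k + 1 by omega)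
          have h6 := hn k
          have h7 := hn (l + k)
          have h5 := (hd1 k).1
          refine le_trans ?_ (ENNReal.le_tsum l)
          rw [if_pos (by omega), hL k j (by omega), sub_zero, enorm_mul,
            ← ofReal_norm (u j : 𝕂), RCLike.norm_ofReal, abs_of_nonneg (hu0 j)]
          exact mul_le_mul_left (hYM _ _) _
    _ = ∑' l, M (l + k + 1) * τ (d (l + k)) := by
        rw [ENNReal.tsum_comm]
        exact tsum_congr fun l => ENNReal.tsum_mul_left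
    _ ≤ ∑' l, δ (l + k) := ENNReal.tsum_le_tsum fun l => hd2 _

lemma tail {m : ℕ} {z : ℕ → 𝕂} (hz : Step V m z) {ε : ℝ≥0∞} (hε : ε ≠ 0) :
    ∃ t, wN V.q (V.v m) (fun j => if j < t then 0 else z j) ≤ ε := by
  by_cases hq : V.q = ∞
  · have h1 : Tendsto (fun j => ‖z j * (V.v m j : 𝕂)‖ₑ) atTop (𝓝 0) := by
      simpa using hz.2.enorm
    obtain ⟨t, ht⟩ := eventually_atTop.1 (h1.eventually (ge_mem_nhds (pos_iff_ne_zero.2 hε)))
    refine ⟨t, ?_⟩
    unfold wN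
    rw [hq, eLpNorm_exponent_top, eLpNormEssSup_count]
    refine iSup_le fun j => ?_
    beta_reduce
    split_ifs with h
    · simp
    · exact ht j (not_lt.1 h)
  · have hm : MemLp (fun j => z j * (V.v m j : 𝕂)) V.q Measure.count :=
      ⟨StronglyMeasurable.of_discrete.aestronglyMeasurable, hz.1⟩
    obtain ⟨s, -, hs, h⟩ := hm.exists_eLpNorm_indicator_compl_lt hq hε
    obtain ⟨t, ht⟩ := (Measure.count_apply_lt_top.1 hs).bddAbove
    refine ⟨t + 1, le_trans (eLpNorm_mono fun j => ?_) h.le⟩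
    beta_reduce
    split_ifs with hj
    · simp
    · rw [indicator_of_mem (show j ∈ sᶜ from fun hjs => hj (Nat.lt_succ_of_le (ht hjs)))]

lemma dens {m : ℕ} {z : ℕ → 𝕂} (hz : Step V m z) {ε : ℝ≥0∞} (hε : ε ≠ 0) :
    ∃ (t : ℕ) (c : ℕ → ℕ), wN V.q (V.v m)
      (z - fun j => if j < t then TopologicalSpace.denseSeq 𝕂 (c j) else 0) ≤ ε + ε := by
  obtain ⟨t, ht⟩ := tail hz hε
  obtain ⟨δ, hδ0, hδ⟩ := ENNReal.exists_pos_sum_of_countable hε ℕ
  have h1 : ∀ j, ∃ c, ‖(z j - TopologicalSpace.denseSeq 𝕂 c) * (V.v m j : 𝕂)‖ₑ ≤ δ j := by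
    intro j
    obtain ⟨c, hc⟩ := (TopologicalSpace.denseRange_denseSeq 𝕂).exists_dist_lt (z j)
      (div_pos (NNReal.coe_pos.2 (hδ0 j)) (V.pos m j))
    refine ⟨c, ?_⟩
    rw [dist_eq_norm, lt_div_iff₀ (V.pos m j)] at hc
    rw [← ofReal_norm, norm_mul, RCLike.norm_ofReal, abs_of_pos (V.pos m j)]
    exact (ENNReal.ofReal_le_ofReal hc.le).trans_eq ENNReal.ofReal_coe_nnreal
  choose c hc using h1
  refine ⟨t, c, ?_⟩
  have h2 : (z - fun j => if j < t then TopologicalSpace.denseSeq 𝕂 (c j) else 0)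
      = (fun j => if j < t then 0 else z j) +
        fun j => if j < t then z j - TopologicalSpace.denseSeq 𝕂 (c j) else 0 := by
    funext j; by_cases h : j < t <;> simp [h]
  rw [h2]
  refine (wN_add V.hq _ _ _).trans (add_le_add ht ((wN_le_tsum V.hq _ _).trans
    (le_trans (ENNReal.tsum_le_tsum fun j => ?_) hδ.le)))
  split_ifs
  · exact hc j
  · simp

theorem seqHC {B : K 𝕂 V → K 𝕂 V} (hB : ∀ x j, (B x).1 j = x.1 (j + 1))
    {m0 : ℕ} (hs : Summable (V.v m0)) : SeqHypercyclic (top 𝕂 V) B := by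
  obtain ⟨E, hE⟩ := exists_surjective_nat (Σ t : ℕ, Fin t → ℕ)
  let Y' : (Σ t : ℕ, Fin t → ℕ) → ℕ → 𝕂 := fun a j =>
    if h : j < a.1 then TopologicalSpace.denseSeq 𝕂 (a.2 ⟨j, h⟩) else 0
  let Y : ℕ → ℕ → 𝕂 := fun k => Y' (E (Nat.unpair k).1)
  have hL : ∀ k j, (E (Nat.unpair k).1).1 ≤ j → Y k j = 0 := fun k j h => dif_neg (not_lt.2 h)
  obtain ⟨x, n, r, hn0, hr, hr0, hx⟩ := hc (fun j => (V.pos m0 j).le) hs Y _ hL
  have hxs : Step V m0 x := by
    have h1 : Step V m0 (fun j => x (j + n 0) - Y 0 j) :=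
      step_of_tsum (ne_top_of_le_ne_top hr0 (hx 0))
    have h2 := h1.add (step_of_fin m0 (hL 0))
    have h3 : ((fun j => x (j + n 0) - Y 0 j) + Y 0) = x := by funext j; simp [hn0]
    rwa [h3] at h2
  refine ⟨⟨x, m0, hxs⟩, fun z => ?_⟩
  obtain ⟨m1, hm1⟩ := z.2
  have hz : Step V (max m0 m1) z.1 := hm1.mono (le_max_right _ _)
  have h1 : ∀ i : ℕ, ∃ k, i ≤ k ∧
      wN V.q (V.v (max m0 m1)) (z.1 - Y k) ≤ (i : ℝ≥0∞)⁻¹ + (i : ℝ≥0∞)⁻¹ := by
    intro i
    obtain ⟨t, c, h⟩ := dens hz (ε := (i : ℝ≥0∞)⁻¹) (by simp)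
    obtain ⟨l, hl⟩ := hE ⟨t, fun j => c j⟩
    refine ⟨Nat.pair l i, Nat.right_le_pair _ _, ?_⟩
    have : Y (Nat.pair l i) = fun j => if j < t then TopologicalSpace.denseSeq 𝕂 (c j) else 0 := by
      change Y' (E (Nat.unpair (Nat.pair l i)).1) = _
      rw [Nat.unpair_pair, hl]
      funext j; simp [Y']
    rwa [this]
  choose k hk1 hk2 using h1
  have hkt : Tendsto k atTop atTop := tendsto_atTop_mono hk1 tendsto_id
  let u : ℕ → K 𝕂 V := fun i => B^[n (k i)] ⟨x, m0, hxs⟩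
  have hb : ∀ i, wN V.q (V.v (max m0 m1)) (u i - z).1
      ≤ r (k i) + ((i : ℝ≥0∞)⁻¹ + (i : ℝ≥0∞)⁻¹) := by
    intro i
    have h2 : (u i - z).1 = (fun j => x (j + n (k i)) - Y (k i) j) + (-1 : 𝕂) • (z.1 - Y (k i)) := by
      funext j; simp [u, iter_shift hB]
    rw [h2]
    refine (wN_add V.hq _ _ _).trans (add_le_add ?_ ?_)
    · refine le_trans (wN_mono _ fun j => ?_) ((wN_le_tsum V.hq (V.v m0) _).trans (hx (k i)))
      rw [abs_of_pos (V.pos _ _), abs_of_pos (V.pos _ _)]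
      exact mul_le_mul_of_nonneg_left (V.anti (le_max_left _ _) j) (norm_nonneg _)
    · rw [wN_smul]; simpa using hk2 i
  have hlim : Tendsto (fun i => wN V.q (V.v (max m0 m1)) (u i - z).1) atTop (𝓝 0) := by
    have h3 := (hr.comp hkt).add (ENNReal.tendsto_inv_nat_nhds_zero.add
      ENNReal.tendsto_inv_nat_nhds_zero)
    simp only [add_zero] at h3
    exact tendsto_of_tendsto_of_tendsto_of_le_of_le tendsto_const_nhds h3 (fun _ => zero_le) hb
  have hstep : ∀ᶠ i in atTop, Step V (max m0 m1) (u i - z).1 := by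
    filter_upwards [(hr.comp hkt).eventually (gt_mem_nhds ENNReal.zero_lt_top)] with i hi
    have h1 : Step V m0 (fun j => x (j + n (k i)) - Y (k i) j) :=
      step_of_tsum (ne_top_of_le_ne_top hi.ne (hx (k i)))
    have h2 := ((h1.add (step_of_fin m0 (hL (k i)))).mono (le_max_left m0 m1)).add (hz.smul (-1))
    have h3 : ((fun j => x (j + n (k i)) - Y (k i) j) + Y (k i)) + (-1 : 𝕂) • z.1 = (u i - z).1 := by
      funext j; simp [u, iter_shift hB, sub_eq_add_neg]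
    rwa [h3] at h2
  refine ⟨fun i => n (k i), TopologicalSpace.tendsto_nhds_generateFrom_iff.2 ?_⟩
  rintro _ ⟨ρ, hρ, y, R, rfl⟩ hzy
  obtain ⟨C, hC⟩ := hρ (max m0 m1)
  rw [Seminorm.mem_ball] at hzy
  have h4 := ((ENNReal.tendsto_toReal ENNReal.zero_ne_top).comp hlim).const_mul C
  simp only [ENNReal.toReal_zero, mul_zero] at h4
  filter_upwards [hstep, h4.eventually (gt_mem_nhds (sub_pos.2 hzy))] with i hi hi'
  change ρ (u i - y) < R
  have h5 := map_add_le_add ρ (u i - z) (z - y)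
  rw [sub_add_sub_cancel] at h5
  have h6 := hC _ hi
  simp only [Function.comp_apply] at hi'
  linarith

end Pool.Agent.H43.Koe
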