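import Mathlib

/-! Koethe coechelon spaces. -/

open MeasureTheory Set Filter Topology
open scoped ENNReal

namespace Pool.Agent.H43.Koe

/-- An exponent `q ∈ [1,∞]` (the value `∞` stands for the `c₀` case) and a decreasing sequence of
strictly positive weights. -/
structure Data where
  q : ℝ≥0∞
  hq : 1 ≤ q
  v : ℕ → ℕ → ℝ
  pos : ∀ m j, 0 < v m j
  dec : ∀ m j, v (m + 1) j ≤ v m j

variable (𝕂 : Type) [RCLike 𝕂]

/-- The `ℓ_q` norm of the sequence `(x_j w_j)_j`, possibly infinite. -/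
noncomputable def wN {𝕂 : Type} [RCLike 𝕂] (q : ℝ≥0∞) (w : ℕ → ℝ) (x : ℕ → 𝕂) : ℝ≥0∞ :=
  eLpNorm (fun j => x j * (w j : 𝕂)) q Measure.count

/-- `x` lies in the `m`-th step: `(x_j v^(m)_j)_j` is in `ℓ_q` and tends to zero. For `q < ∞` this
is `ℓ_q(v^(m))`, for `q = ∞` it is `c₀(v^(m))`. -/
def Step {𝕂 : Type} [RCLike 𝕂] (V : Data) (m : ℕ) (x : ℕ → 𝕂) : Prop :=
  wN V.q (V.v m) x < ∞ ∧ Tendsto (fun j => x j * (V.v m j : 𝕂)) atTop (𝓝 0)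

lemma wN_mono {𝕂 : Type} [RCLike 𝕂] (q : ℝ≥0∞) {w w' : ℕ → ℝ} {x y : ℕ → 𝕂}
    (h : ∀ j, ‖x j‖ * |w j| ≤ ‖y j‖ * |w' j|) : wN q w x ≤ wN q w' y :=
  eLpNorm_mono fun j => by simpa [norm_mul, RCLike.norm_ofReal] using h j

lemma wN_add {𝕂 : Type} [RCLike 𝕂] {q : ℝ≥0∞} (hq : 1 ≤ q) (w : ℕ → ℝ) (x y : ℕ → 𝕂) :
    wN q w (x + y) ≤ wN q w x + wN q w y := by
  have h : (fun j => (x + y) j * (w j : 𝕂))
      = (fun j => x j * (w j : 𝕂)) + fun j => y j * (w j : 𝕂) := by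
    funext j; simp [add_mul]
  unfold wN
  rw [h]
  exact eLpNorm_add_le StronglyMeasurable.of_discrete.aestronglyMeasurable
    StronglyMeasurable.of_discrete.aestronglyMeasurable hq

lemma wN_smul {𝕂 : Type} [RCLike 𝕂] (q : ℝ≥0∞) (w : ℕ → ℝ) (c : 𝕂) (x : ℕ → 𝕂) :
    wN q w (c • x) = ‖c‖ₑ * wN q w x := by
  have h : (fun j => (c • x) j * (w j : 𝕂)) = c • fun j => x j * (w j : 𝕂) := by
    funext j; simp [mul_assoc]
  unfold wN
  rw [h, eLpNorm_const_smul]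

lemma Data.anti (V : Data) {m n : ℕ} (h : m ≤ n) (j : ℕ) : V.v n j ≤ V.v m j :=
  antitone_nat_of_succ_le (f := fun m => V.v m j) (fun m => V.dec m j) h

lemma Step.of_le {𝕂 : Type} [RCLike 𝕂] {V : Data} {m n : ℕ} {x y : ℕ → 𝕂} (hy : Step V m y)
    (h : ∀ j, ‖x j‖ * |V.v n j| ≤ ‖y j‖ * |V.v m j|) : Step V n x := by
  refine ⟨(wN_mono V.q h).trans_lt hy.1, ?_⟩
  refine squeeze_zero_norm (fun j => ?_) (tendsto_zero_iff_norm_tendsto_zero.1 hy.2)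
  simpa [norm_mul, RCLike.norm_ofReal] using h j

lemma Step.mono {𝕂 : Type} [RCLike 𝕂] {V : Data} {m n : ℕ} {x : ℕ → 𝕂} (hx : Step V m x)
    (h : m ≤ n) : Step V n x :=
  hx.of_le fun j => by
    rw [abs_of_pos (V.pos _ _), abs_of_pos (V.pos _ _)]
    exact mul_le_mul_of_nonneg_left (V.anti h j) (norm_nonneg _)

lemma Step.add {𝕂 : Type} [RCLike 𝕂] {V : Data} {m : ℕ} {x y : ℕ → 𝕂} (hx : Step V m x)
    (hy : Step V m y) : Step V m (x + y) :=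
  ⟨(wN_add V.hq _ x y).trans_lt (ENNReal.add_lt_top.2 ⟨hx.1, hy.1⟩), by
    simpa [add_mul] using hx.2.add hy.2⟩

lemma Step.smul {𝕂 : Type} [RCLike 𝕂] {V : Data} {m : ℕ} {x : ℕ → 𝕂} (hx : Step V m x)
    (c : 𝕂) : Step V m (c • x) :=
  ⟨by rw [wN_smul]; exact ENNReal.mul_lt_top enorm_lt_top hx.1, by
    simpa [mul_assoc] using hx.2.const_mul c⟩

lemma add_mem_aux (V : Data) {x y : ℕ → 𝕂} (hx : x ∈ {x | ∃ m, Step V m x})
    (hy : y ∈ {x | ∃ m, Step V m x}) : x + y ∈ {x | ∃ m, Step V m x} := by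
  obtain ⟨m, hx⟩ := hx
  obtain ⟨n, hy⟩ := hy
  exact ⟨max m n, (hx.mono (le_max_left _ _)).add (hy.mono (le_max_right _ _))⟩

lemma zero_mem_aux (V : Data) : (0 : ℕ → 𝕂) ∈ {x | ∃ m, Step V m x} :=
  ⟨0, by simp [wN], by simp⟩

lemma smul_mem_aux (V : Data) (c : 𝕂) {x : ℕ → 𝕂} (hx : x ∈ {x | ∃ m, Step V m x}) :
    c • x ∈ {x | ∃ m, Step V m x} := by
  obtain ⟨m, hx⟩ := hx
  exact ⟨m, hx.smul c⟩

/-- The coechelon space `k_p(V)`, the union of the steps. -/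
def K (V : Data) : Submodule 𝕂 (ℕ → 𝕂) where
  carrier := {x | ∃ m, Step V m x}
  add_mem' := add_mem_aux 𝕂 V
  zero_mem' := zero_mem_aux 𝕂 V
  smul_mem' c _ hx := smul_mem_aux 𝕂 V c hx

/-- Seminorms on `k_p(V)` whose restriction to every step is continuous: the continuous seminorms
of the locally convex inductive limit. -/
def Cont (V : Data) (ρ : Seminorm 𝕂 (K 𝕂 V)) : Prop :=
  ∀ m, ∃ C : ℝ, ∀ x : K 𝕂 V, Step V m x.1 → ρ x ≤ C * (wN V.q (V.v m) x.1).toReal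

/-- The topology generated by the balls of a family of seminorms. -/
@[reducible] def genTop {E : Type} [AddCommGroup E] [Module 𝕂 E] (Q : Seminorm 𝕂 E → Prop) :
    TopologicalSpace E :=
  TopologicalSpace.generateFrom {U | ∃ ρ, Q ρ ∧ ∃ x r, U = ρ.ball x r}

/-- The locally convex inductive limit topology: generated by the balls of these seminorms. -/
@[reducible] def top (V : Data) : TopologicalSpace (K 𝕂 V) := genTop 𝕂 (Cont 𝕂 V)

/-- `|φ_n| ≤ a_n σ` for all `n`. -/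
def Bdd {E : Type} [AddCommGroup E] [Module 𝕂 E] (σ : Seminorm 𝕂 E) (φ : ℕ → E →ₗ[𝕂] 𝕂)
    (a : ℕ → ℝ) : Prop := ∀ n x, ‖φ n x‖ ≤ a n * σ x

/-- `x = ∑ φ_n(x) y_n` with convergence in the seminorm `ρ`, for every `x`. -/
def Rep {E : Type} [AddCommGroup E] [Module 𝕂 E] (ρ : Seminorm 𝕂 E) (φ : ℕ → E →ₗ[𝕂] 𝕂)
    (y : ℕ → E) : Prop :=
  ∀ x, Tendsto (fun N => ρ (x - ∑ n ∈ Finset.range N, φ n x • y n)) atTop (𝓝 0)

/-- `ρ ≤ σ` and the canonical map between the local normed spaces of `σ` and `ρ` is nuclear. -/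
def NucPair {E : Type} [AddCommGroup E] [Module 𝕂 E] (ρ σ : Seminorm 𝕂 E) : Prop :=
  (∀ x, ρ x ≤ σ x) ∧ ∃ φ a y, Bdd 𝕂 σ φ a ∧ (∀ n, 0 ≤ a n) ∧
    Summable (fun n => a n * ρ (y n)) ∧ Rep 𝕂 ρ φ y

/-- Nuclearity: for each continuous seminorm `ρ` there is a continuous seminorm `σ ≥ ρ` such that
the canonical map between the local normed spaces is nuclear. -/
def Nuclear (V : Data) : Prop :=
  ∀ ρ, Cont 𝕂 V ρ → ∃ σ, Cont 𝕂 V σ ∧ NucPair 𝕂 ρ σ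

/-- Topological ergodicity: all return sets `N_T(U,W) ⊆ {1,2,...}` are syndetic. -/
def TopErgodic {E : Type} (t : TopologicalSpace E) (T : E → E) : Prop :=
  ∀ U W : Set E, IsOpen[t] U → U.Nonempty → IsOpen[t] W → W.Nonempty →
    ∃ g : ℕ, ∀ n, 1 ≤ n → ∃ i, n ≤ i ∧ i ≤ n + g ∧ (T^[i] '' U ∩ W).Nonempty

/-- Some orbit is sequentially dense. -/
def SeqHypercyclic {E : Type} (t : TopologicalSpace E) (T : E → E) : Prop :=
  ∃ x, ∀ z, ∃ k : ℕ → ℕ, Tendsto (fun i => T^[k i] x) atTop (@nhds E t z)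

end Pool.Agent.H43.Koe
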