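import Pool.Agent.H43.LRPDefs
import Pool.Agent.H43.Dep

set_option autoImplicit false

namespace Pool.Agent.H43.LRP

open MeasureTheory ProbabilityTheory Pool.Agent.H43.Dep Finset
open scoped NNReal ENNReal Pointwise

variable {Γ : Type} [DecidableEq Γ]

open Classical in
/-- cluster of `x` inside `X` -/
noncomputable def cl (X : Finset Γ) (x : Γ) (ω : Sym2 Γ → ℕ) : Finset Γ :=
  X.filter fun y => Relation.ReflTransGen (fun a b => a ∈ X ∧ b ∈ X ∧ ω s(a, b) ≠ 0) x y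

omit [DecidableEq Γ] in
lemma mem_cl {X : Finset Γ} {x y : Γ} {ω : Sym2 Γ → ℕ} : y ∈ cl X x ω ↔ y ∈ X ∧
    Relation.ReflTransGen (fun a b => a ∈ X ∧ b ∈ X ∧ ω s(a, b) ≠ 0) x y := by
  simp [cl]

omit [DecidableEq Γ] in
lemma cl_congr (X : Finset Γ) (x : Γ) {ω ω' : Sym2 Γ → ℕ} (h : ∀ e ∈ X.sym2, ω e = ω' e) :
    cl X x ω = cl X x ω' := by
  have : (fun a b => a ∈ X ∧ b ∈ X ∧ ω s(a, b) ≠ 0) =
      fun a b => a ∈ X ∧ b ∈ X ∧ ω' s(a, b) ≠ 0 := by
    funext a b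
    apply propext
    refine and_congr_right fun ha => and_congr_right fun hb => ?_
    rw [h _ (mk_mem_sym2_iff.2 ⟨ha, hb⟩)]
  ext y
  rw [mem_cl, mem_cl, this]

omit [DecidableEq Γ] in
lemma rtg_mono {X X' : Finset Γ} (h : X ⊆ X') {x y : Γ} {ω : Sym2 Γ → ℕ}
    (hy : Relation.ReflTransGen (fun a b => a ∈ X ∧ b ∈ X ∧ ω s(a, b) ≠ 0) x y) :
    Relation.ReflTransGen (fun a b => a ∈ X' ∧ b ∈ X' ∧ ω s(a, b) ≠ 0) x y := by
  induction hy with
  | refl => exact .refl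
  | tail _ hab ih => exact ih.tail ⟨h hab.1, h hab.2.1, hab.2.2⟩

section step
variable (ν : Sym2 Γ → Measure ℕ) [∀ i, IsProbabilityMeasure (ν i)]

/-- one attempt to connect the cluster to a good outside vertex -/
lemma attempt (X Y : Finset Γ) (hXY : Disjoint X Y) (f : Γ → Γ) (hf : ∀ c ∈ X, f c ∈ Y)
    (E : Γ → Set (Sym2 Γ → ℕ)) (hE : ∀ c ∈ X, Dep Y.sym2 (E c)) (θ q : ℝ)
    (hθ : ∀ c ∈ X, θ ≤ (Measure.infinitePi ν).real (E c))
    (hq : ∀ c ∈ X, (ν s(c, f c)).real {0} = q) (C : Finset Γ) (hC : C ⊆ X) :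
    (Measure.infinitePi ν).real {ω | ∀ c ∈ C, ω s(c, f c) = 0} = q ^ C.card ∧
    θ * (1 - q ^ C.card) ≤
      (Measure.infinitePi ν).real {ω | ∃ c ∈ C, ω s(c, f c) ≠ 0 ∧ ω ∈ E c} := by
  induction C using Finset.induction_on with
  | empty => simp
  | insert c C hc ih =>
    obtain ⟨ih1, ih2⟩ := ih ((subset_insert _ _).trans hC)
    have hcX : c ∈ X := hC (mem_insert_self _ _)
    have hCX : C ⊆ X := (subset_insert _ _).trans hC
    have d1 : Dep (C.image fun c => s(c, f c)) {ω : Sym2 Γ → ℕ | ∀ c ∈ C, ω s(c, f c) = 0} :=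
      fun ω ω' h h1 c hc => by rw [← h _ (mem_image_of_mem _ hc)]; exact h1 c hc
    have d2 : Dep {s(c, f c)} {ω : Sym2 Γ → ℕ | ω s(c, f c) = 0} :=
      fun ω ω' h h1 => by rw [Set.mem_ofPred_eq, ← h _ (mem_singleton_self _)]; exact h1
    have dis1 : Disjoint (C.image fun c => s(c, f c)) {s(c, f c)} := by
      rw [disjoint_singleton_right, mem_image]
      rintro ⟨c', hc', h⟩
      rcases Sym2.eq_iff.1 h with h | h
      · exact hc (h.1 ▸ hc')
      · exact disjoint_left.1 hXY hcX (h.2 ▸ hf c' (hCX hc'))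
    have dis2 : Disjoint ((C.image fun c => s(c, f c)) ∪ {s(c, f c)}) Y.sym2 := by
      rw [disjoint_left]
      intro e he he'
      rw [mem_union, mem_image, mem_singleton] at he
      rcases he with ⟨c', hc', rfl⟩ | rfl
      · exact disjoint_left.1 hXY (hCX hc') (mk_mem_sym2_iff.1 he').1
      · exact disjoint_left.1 hXY hcX (mk_mem_sym2_iff.1 he').1
    have p2 : (Measure.infinitePi ν).real {ω | ω s(c, f c) = 0} = q := by
      rw [real_eval, hq c hcX]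
    constructor
    · have : {ω : Sym2 Γ → ℕ | ∀ c' ∈ insert c C, ω s(c', f c') = 0} =
          {ω | ∀ c ∈ C, ω s(c, f c) = 0} ∩ {ω | ω s(c, f c) = 0} := by
        ext ω; simp [and_comm]
      rw [this, d1.indep ν d2 dis1, ih1, p2, card_insert_of_notMem hc, pow_succ]
    · have p3 := (((d1.mono subset_union_left).inter (d2.compl.mono subset_union_right)).indep ν
        (hE c hcX) dis2)
      rw [d1.indep ν d2.compl dis1, ih1, probReal_compl_eq_one_sub d2.meas, p2] at p3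
      have hm := (((d1.mono subset_union_left).inter
        (d2.compl.mono subset_union_right)).meas).inter (hE c hcX).meas
      have hdis : Disjoint {ω : Sym2 Γ → ℕ | ∃ c ∈ C, ω s(c, f c) ≠ 0 ∧ ω ∈ E c}
          (({ω | ∀ c ∈ C, ω s(c, f c) = 0} ∩ {ω | ω s(c, f c) = 0}ᶜ) ∩ E c) := by
        rw [Set.disjoint_left]
        rintro ω ⟨c', h1, h2, -⟩ h3
        exact h2 (h3.1.1 c' h1)
      have hu := measureReal_union (μ := Measure.infinitePi ν) hdis hm
      have hsub : {ω : Sym2 Γ → ℕ | ∃ c ∈ C, ω s(c, f c) ≠ 0 ∧ ω ∈ E c} ∪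
          (({ω | ∀ c ∈ C, ω s(c, f c) = 0} ∩ {ω | ω s(c, f c) = 0}ᶜ) ∩ E c) ⊆
          {ω | ∃ c' ∈ insert c C, ω s(c', f c') ≠ 0 ∧ ω ∈ E c'} := by
        rintro ω (⟨c', h1, h2⟩ | h)
        · exact ⟨c', mem_insert_of_mem h1, h2⟩
        · exact ⟨c, mem_insert_self _ _, h.1.2, h.2⟩
      have hle := measureReal_mono (μ := Measure.infinitePi ν) hsub
      have q0 : 0 ≤ q := p2 ▸ measureReal_nonneg
      have q1 : q ≤ 1 := p2 ▸ measureReal_le_one
      have : q ^ C.card * (1 - q) * θ ≤ q ^ C.card * (1 - q) * (Measure.infinitePi ν).real (E c) :=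
        mul_le_mul_of_nonneg_left (hθ c hcX) (mul_nonneg (pow_nonneg q0 _) (by linarith))
      rw [card_insert_of_notMem hc, pow_succ]
      linarith

lemma many (S : Finset (Sym2 Γ)) (T : ℕ → Finset (Sym2 Γ)) (A : Set (Sym2 Γ → ℕ)) (hA : Dep S A)
    (U : ℕ → Set (Sym2 Γ → ℕ)) (hU : ∀ i, Dep (T i) (U i)) (h1 : ∀ i, Disjoint S (T i))
    (h2 : ∀ i j, i ≠ j → Disjoint (T i) (T j)) (ρ : ℝ) (M : ℕ)
    (hρ : ∀ i < M, (Measure.infinitePi ν).real (U i) ≤ ρ) :
    (Measure.infinitePi ν).real (A ∩ {ω | ∀ i < M, ω ∈ U i}) ≤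
      (Measure.infinitePi ν).real A * ρ ^ M := by
  induction M with
  | zero => simp
  | succ M ih =>
    have d : Dep (S ∪ (range M).biUnion T) (A ∩ {ω | ∀ i < M, ω ∈ U i}) := by
      refine (hA.mono subset_union_left).inter fun ω ω' h h' i hi => hU i ω ω' ?_ (h' i hi)
      intro e he
      exact h e (mem_union_right _ (mem_biUnion.2 ⟨i, mem_range.2 hi, he⟩))
    have e : A ∩ {ω | ∀ i < M + 1, ω ∈ U i} = (A ∩ {ω | ∀ i < M, ω ∈ U i}) ∩ U M := by
      ext ω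
      simp only [Set.mem_inter_iff, Set.mem_ofPred_eq, Nat.forall_lt_succ_right, and_assoc]
    rw [e, d.indep ν (hU M) (by
      rw [disjoint_union_left, disjoint_biUnion_left]
      exact ⟨h1 M, fun i hi => h2 i M (mem_range.1 hi).ne⟩), pow_succ, ← mul_assoc]
    exact mul_le_mul (ih fun i hi => hρ i (by omega)) (hρ M (by omega)) measureReal_nonneg
      (measureReal_nonneg.trans (ih fun i hi => hρ i (by omega)))

lemma doubling (X X' : Finset Γ) (x : Γ) (Y : ℕ → Finset Γ) (hXY : ∀ i, Disjoint X (Y i))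
    (hYY : ∀ i j, i ≠ j → Disjoint (Y i) (Y j)) (M K : ℕ) (hX : X ⊆ X') (hY : ∀ i < M, Y i ⊆ X')
    (f : ℕ → Γ → Γ) (Z : ℕ → Γ → Finset Γ) (hf : ∀ i, ∀ c ∈ X, f i c ∈ Z i c)
    (hZ : ∀ i, ∀ c ∈ X, Z i c ⊆ Y i)
    (hθ : ∀ i, ∀ c ∈ X, 1 / 2 ≤ (Measure.infinitePi ν).real {ω | K ≤ (cl (Z i c) (f i c) ω).card})
    (q : ℕ → ℝ) (hq : ∀ i, ∀ c ∈ X, (ν s(c, f i c)).real {0} = q i) (hq0 : ∀ i, 0 ≤ q i)
    (hq1 : ∀ i, q i ≤ 1) (hqK : ∀ i < M, q i ^ K ≤ 1 / 2) :
    (Measure.infinitePi ν).real {ω | K ≤ (cl X x ω).card} ≤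
      (Measure.infinitePi ν).real {ω | 2 * K ≤ (cl X' x ω).card} + (3 / 4) ^ M := by
  let U : Finset Γ → ℕ → Set (Sym2 Γ → ℕ) := fun C i =>
    {ω | ∃ c ∈ C, ω s(c, f i c) ≠ 0 ∧ ω ∈ {ω | K ≤ (cl (Z i c) (f i c) ω).card}}
  have dE : ∀ i, ∀ c ∈ X, Dep (Y i).sym2 {ω | K ≤ (cl (Z i c) (f i c) ω).card} := by
    intro i c hc ω ω' h h1
    rw [Set.mem_ofPred_eq, ← cl_congr _ _ fun e he => h e (sym2_mono (hZ i c hc) he)]
    exact h1
  let A : Finset Γ → Set (Sym2 Γ → ℕ) := fun C => (cl X x) ⁻¹' {C}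
  have dA : ∀ C, Dep X.sym2 (A C) := fun C ω ω' h h1 => by
    simp only [A, Set.mem_preimage, Set.mem_singleton_iff] at h1 ⊢
    rw [← cl_congr _ _ h, h1]
  let 𝒞 := X.powerset.filter fun C => K ≤ C.card
  have hsub : {ω | K ≤ (cl X x ω).card} ⊆ {ω | 2 * K ≤ (cl X' x ω).card} ∪
      ⋃ C ∈ 𝒞, (A C ∩ {ω | ∀ i < M, ω ∈ (U C i)ᶜ}) := by
    intro ω hω
    by_cases h : ∀ i < M, ω ∈ (U (cl X x ω) i)ᶜ
    · right
      refine Set.mem_biUnion (x := cl X x ω) ?_ ⟨rfl, h⟩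
      exact mem_filter.2 ⟨mem_powerset.2 fun y hy => (mem_cl.1 hy).1, hω⟩
    · left
      push Not at h
      obtain ⟨i, hi, h⟩ := h
      obtain ⟨c, hc, h1, h2⟩ := not_not.1 h
      have hc' := mem_cl.1 hc
      have hZX : Z i c ⊆ X' := (hZ i c hc'.1).trans (hY i hi)
      have s1 : cl X x ω ∪ cl (Z i c) (f i c) ω ⊆ cl X' x ω := by
        intro y hy
        rcases mem_union.1 hy with hy | hy
        · exact mem_cl.2 ⟨hX (mem_cl.1 hy).1, rtg_mono hX (mem_cl.1 hy).2⟩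
        · refine mem_cl.2 ⟨hZX (mem_cl.1 hy).1, ((rtg_mono hX hc'.2).tail
            ⟨hX hc'.1, hZX (hf i c hc'.1), h1⟩).trans (rtg_mono hZX (mem_cl.1 hy).2)⟩
      have s2 := card_le_card s1
      rw [card_union_of_disjoint (disjoint_left.2 fun y hy hy' => disjoint_left.1 (hXY i)
        (mem_cl.1 hy).1 (hZ i c hc'.1 (mem_cl.1 hy').1))] at s2
      have h3 : K ≤ (cl X x ω).card := hω
      have h4 : K ≤ (cl (Z i c) (f i c) ω).card := h2
      show 2 * K ≤ _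
      omega
  refine (measureReal_mono hsub).trans ((measureReal_union_le _ _).trans ?_)
  gcongr
  refine (measureReal_biUnion_finset_le _ _).trans ?_
  have hC : ∀ C ∈ 𝒞, (Measure.infinitePi ν).real (A C ∩ {ω | ∀ i < M, ω ∈ (U C i)ᶜ}) ≤
      (Measure.infinitePi ν).real (A C) * (3 / 4) ^ M := by
    intro C hC
    obtain ⟨hCX, hCK⟩ := mem_filter.1 hC
    rw [mem_powerset] at hCX
    have dU : ∀ i, Dep ((X ∪ Y i).sym2 \ X.sym2) (U C i) := by
      rintro i ω ω' h ⟨c, hc, h1, h2⟩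
      have hfc : f i c ∈ Y i := hZ i c (hCX hc) (hf i c (hCX hc))
      refine ⟨c, hc, ?_, dE i c (hCX hc) ω ω' (fun e he => h e ?_) h2⟩
      · rw [← h _ (mem_sdiff.2 ⟨mk_mem_sym2_iff.2 ⟨mem_union_left _ (hCX hc),
          mem_union_right _ hfc⟩, fun h' =>
          disjoint_left.1 (hXY i) (mk_mem_sym2_iff.1 h').2 hfc⟩)]
        exact h1
      · induction e using Sym2.ind with
        | h a b =>
          rw [mk_mem_sym2_iff] at he
          exact mem_sdiff.2 ⟨mk_mem_sym2_iff.2 ⟨mem_union_right _ he.1, mem_union_right _ he.2⟩,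
            fun h' => disjoint_left.1 (hXY i) (mk_mem_sym2_iff.1 h').2 he.2⟩
    refine many ν X.sym2 (fun i => (X ∪ Y i).sym2 \ X.sym2) (A C) (dA C) (fun i => (U C i)ᶜ)
      (fun i => (dU i).compl) (fun i => disjoint_sdiff) ?_ _ M ?_
    · intro i j hij
      rw [disjoint_left]
      intro e h1 h2
      simp only [mem_sdiff, mem_sym2_iff] at h1 h2
      refine h1.2 fun a ha => ?_
      rcases mem_union.1 (h1.1 a ha) with h | h
      · exact h
      rcases mem_union.1 (h2.1 a ha) with h' | h'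
      · exact h'
      exact absurd h' (disjoint_left.1 (hYY i j hij) h)
    · intro i hi
      have := (attempt ν X (Y i) (hXY i) (f i) (fun c hc => hZ i c hc (hf i c hc))
        (fun c => {ω | K ≤ (cl (Z i c) (f i c) ω).card}) (dE i) (1 / 2) (q i) (hθ i) (hq i) C hCX).2
      rw [probReal_compl_eq_one_sub (dU i).meas]
      have h2 : q i ^ C.card ≤ q i ^ K := pow_le_pow_of_le_one (hq0 i) (hq1 i) hCK
      have h3 := hqK i hi
      simp only [U]
      linarith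
  refine (sum_le_sum hC).trans ?_
  rw [← sum_mul]
  refine mul_le_of_le_one_left (by positivity) ?_
  have := measureReal_biUnion_finset (μ := Measure.infinitePi ν) (s := 𝒞) (f := A)
    (fun C _ D _ hCD => Set.disjoint_left.2 fun ω h1 h2 => hCD (h1.symm.trans h2))
    (fun C _ => (dA C).meas)
  rw [← this]
  exact measureReal_le_one

end step

variable [Group Γ]

lemma disj_smul (x : Γ) {A B : Finset Γ} (h : Disjoint A B) : Disjoint (x • A) (x • B) := by
  rw [disjoint_left]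
  intro y h1 h2
  rw [← inv_smul_mem_iff] at h1 h2
  exact disjoint_left.1 h h1 h2

lemma exists_shell [Infinite Γ] (B : Finset Γ) : ∃ s : ℕ → Γ,
    (∀ i, Disjoint B (B * {s i} * B)) ∧
      ∀ i j, i ≠ j → Disjoint (B * {s i} * B) (B * {s j} * B) := by
  have key : ∀ F : Finset Γ, ∃ y, Disjoint F (B * {y} * B) := by
    intro F
    obtain ⟨y, hy⟩ := Infinite.exists_notMem_finset (B⁻¹ * F * B⁻¹)
    refine ⟨y, disjoint_left.2 fun z hz hz' => hy ?_⟩
    simp only [mem_mul, mem_singleton, mem_inv'] at hz' ⊢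
    obtain ⟨_, ⟨a, ha, _, rfl, rfl⟩, b, hb, rfl⟩ := hz'
    exact ⟨a⁻¹ * (a * _ * b), ⟨a⁻¹, by simpa using ha, _, hz, rfl⟩, b⁻¹, by simpa using hb,
      by group⟩
  obtain ⟨s, h1, h2⟩ := exists_seq_of_forall_finset_exists
    (fun y : Γ => Disjoint B (B * {y} * B))
    (fun x y => Disjoint (B * {x} * B) (B * {y} * B)) (by
      intro t _
      obtain ⟨y, hy⟩ := key (B ∪ t.biUnion fun x => B * {x} * B)
      rw [disjoint_union_left, disjoint_biUnion_left] at hy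
      exact ⟨y, hy.1, hy.2⟩)
  refine ⟨s, h1, fun i j hij => ?_⟩
  rcases lt_or_gt_of_ne hij with h | h
  · exact h2 i j h
  · exact (h2 j i h).symm

lemma exists_blocks [Infinite Γ] : ∃ (B : ℕ → Finset Γ) (s : ℕ → ℕ → Γ), (∀ n, 1 ∈ B n) ∧
    (∀ n i, Disjoint (B n) (B n * {s n i} * B n)) ∧
    (∀ n i j, i ≠ j → Disjoint (B n * {s n i} * B n) (B n * {s n j} * B n)) ∧
    (∀ n, B n ⊆ B (n + 1)) ∧ ∀ n, ∀ i < 3 * n + 6, B n * {s n i} * B n ⊆ B (n + 1) := by
  choose S h1 h2 using exists_shell (Γ := Γ)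
  let B : ℕ → Finset Γ := fun n => Nat.rec {1}
    (fun n B => B ∪ (range (3 * n + 6)).biUnion fun i => B * {S B i} * B) n
  have hB : ∀ n, B n ⊆ B (n + 1) := fun n => subset_union_left
  refine ⟨B, fun n => S (B n), fun n => ?_, fun n => h1 _, fun n => h2 _, hB, fun n i hi => ?_⟩
  · induction n with
    | zero => exact mem_singleton_self _
    | succ n ih => exact hB n ih
  · exact (subset_biUnion_of_mem (fun i => B n * {S (B n) i} * B n) (mem_range.2 hi)).trans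
      subset_union_right

omit [DecidableEq Γ] in
lemma rate_mk {μ : PMF Γ} (hμ : ∀ g, μ g⁻¹ = μ g) (l : ℝ≥0) (a b : Γ) :
    rate μ l s(a, b) = l * (μ (a⁻¹ * b)).toNNReal := by
  have h : s((Quot.out s(a, b)).1, (Quot.out s(a, b)).2) = s(a, b) := Quot.out_eq _
  unfold rate
  rcases Sym2.eq_iff.1 h with h | h
  · rw [h.1, h.2]
  · rw [h.1, h.2, ← hμ]; simp

lemma growth (μ : PMF Γ) (hμ : ∀ g, μ g⁻¹ = μ g) (l : ℝ≥0) (B : ℕ → Finset Γ) (s : ℕ → ℕ → Γ)
    (h0 : ∀ n, 1 ∈ B n) (h1 : ∀ n i, Disjoint (B n) (B n * {s n i} * B n))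
    (h2 : ∀ n i j, i ≠ j → Disjoint (B n * {s n i} * B n) (B n * {s n j} * B n))
    (h3 : ∀ n, B n ⊆ B (n + 1)) (h4 : ∀ n, ∀ i < 3 * n + 6, B n * {s n i} * B n ⊆ B (n + 1))
    (h5 : ∀ n, ∀ i < 3 * n + 6, 1 ≤ (l : ℝ) * (μ (s n i)).toReal * 2 ^ n) (n : ℕ) : ∀ x : Γ,
    1 / 2 + (1 / 2) ^ (n + 1) ≤ (law μ l).real {ω | 2 ^ n ≤ (cl (x • B n) x ω).card} := by
  induction n with
  | zero =>
    intro x
    have : {ω | 2 ^ 0 ≤ (cl (x • B 0) x ω).card} = Set.univ := by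
      refine Set.eq_univ_of_forall fun ω => ?_
      exact card_pos.2 ⟨x, mem_cl.2 ⟨mem_smul_finset.2 ⟨1, h0 0, mul_one x⟩, .refl⟩⟩
    rw [this, law, probReal_univ]
    norm_num
  | succ n ih =>
    intro x
    have := doubling (fun e => poissonMeasure (rate μ l e)) (x • B n) (x • B (n + 1)) x
      (fun i => x • (B n * {s n i} * B n))
      (fun i => disj_smul x (h1 n i))
      (fun i j hij => disj_smul x (h2 n i j hij)) (3 * n + 6) (2 ^ n)
      (smul_finset_subset_smul_finset (h3 n))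
      (fun i hi => smul_finset_subset_smul_finset (h4 n i hi))
      (fun i c => c * s n i) (fun i c => (c * s n i) • B n)
      (fun i c _ => mem_smul_finset.2 ⟨1, h0 n, mul_one _⟩)
      (by
        intro i c hc y hy
        obtain ⟨b, hb, rfl⟩ := mem_smul_finset.1 hc
        obtain ⟨b', hb', rfl⟩ := mem_smul_finset.1 hy
        refine mem_smul_finset.2 ⟨b * s n i * b',
          mul_mem_mul (mul_mem_mul hb (mem_singleton_self _)) hb', ?_⟩
        simp [mul_assoc])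
      (fun i c _ => le_trans (le_add_of_nonneg_right (by positivity)) (ih _))
      (fun i => Real.exp (-((l : ℝ) * (μ (s n i)).toReal)))
      (by
        intro i c _
        rw [poissonMeasure_real_singleton, rate_mk hμ]
        simp [ENNReal.coe_toNNReal_eq_toReal])
      (fun i => (Real.exp_pos _).le)
      (fun i => Real.exp_le_one_iff.2 (neg_nonpos.2 (by positivity)))
      (by
        intro i hi
        rw [← Real.exp_nat_mul]
        have := h5 n i hi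
        calc _ ≤ Real.exp (-1) := Real.exp_le_exp.2 (by push_cast; linarith)
          _ ≤ 1 / 2 := by
            rw [Real.exp_neg, inv_eq_one_div]
            exact one_div_le_one_div_of_le (by norm_num) (by linarith [Real.add_one_le_exp 1]))
    have h6 : (3 / 4 : ℝ) ^ (3 * n + 6) ≤ (1 / 2) ^ (n + 2) := by
      rw [show 3 * n + 6 = 3 * (n + 2) by ring, pow_mul]
      exact pow_le_pow_left₀ (by positivity) (by norm_num) _
    have h7 := ih x
    rw [pow_succ' 2 n]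
    unfold law at h7 ⊢
    rw [pow_succ _ (n + 1)] at h6 ⊢
    linarith

omit [Group Γ] in
lemma percolates (P : Measure (Sym2 Γ → ℕ)) [IsFiniteMeasure P] (X : ℕ → Finset Γ) (x : Γ)
    (h : ∀ n, 1 / 2 ≤ P.real {ω | 2 ^ n ≤ (cl (X n) x ω).card}) : P (infComp Γ) ≠ 0 := by
  intro h0
  let D : ℕ → Set (Sym2 Γ → ℕ) := fun n => ⋃ m, ⋃ _ : n ≤ m, {ω | 2 ^ m ≤ (cl (X m) x ω).card}
  have hm : ∀ n, MeasurableSet (D n) := fun n => MeasurableSet.iUnion fun m =>
    MeasurableSet.iUnion fun _ => Dep.meas (S := (X m).sym2) fun ω ω' h h1 => by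
      rw [Set.mem_ofPred_eq, ← cl_congr _ _ h]; exact h1
  have hanti : Antitone D := fun a b hab ω hω => by
    simp only [D, Set.mem_iUnion] at hω ⊢
    obtain ⟨m, h1, h2⟩ := hω
    exact ⟨m, hab.trans h1, h2⟩
  have hsub : (⋂ n, D n) ⊆ infComp Γ := by
    intro ω hω
    refine ⟨x, fun hfin => ?_⟩
    have := Set.mem_iInter.1 hω hfin.toFinset.card
    simp only [D, Set.mem_iUnion, Set.mem_ofPred_eq] at this
    obtain ⟨m, h1, h2⟩ := this
    have h3 : cl (X m) x ω ⊆ hfin.toFinset := by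
      intro y hy
      rw [Set.Finite.mem_toFinset, Set.mem_ofPred_eq]
      have := (mem_cl.1 hy).2
      clear hy
      induction this with
      | refl => rfl
      | @tail a b _ hab ih =>
        by_cases e : a = b
        · exact e ▸ ih
        · exact ih.trans (SimpleGraph.Adj.reachable
            ((SimpleGraph.fromEdgeSet_adj _).2 ⟨hab.2.2, e⟩))
    have h4 := card_le_card h3
    have h5 : m < 2 ^ m := Nat.lt_two_pow_self
    omega
  have h1 := hanti.measure_iInter (μ := P) (fun n => (hm n).nullMeasurableSet)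
    ⟨0, measure_ne_top _ _⟩
  rw [measure_mono_null hsub h0] at h1
  have h2 : ENNReal.ofReal (1 / 2) ≤ ⨅ n, P (D n) := le_iInf fun n => by
    refine le_trans (ENNReal.ofReal_le_of_le_toReal (h n)) (measure_mono ?_)
    exact fun ω hω => Set.mem_iUnion₂.2 ⟨n, le_rfl, hω⟩
  rw [← h1] at h2
  simp at h2

lemma exists_measure [Countable Γ] (s : ℕ → ℕ → Γ) : ∃ (μ : PMF Γ) (c : ℝ), IsGenerating μ ∧
    0 < c ∧ ∀ n i, c * (7 / 8) ^ (n + i) ≤ (μ (s n i)).toReal := by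
  obtain ⟨f, hf⟩ := exists_surjective_nat Γ
  let t : ℕ × ℕ → Γ := fun p => Nat.casesOn (motive := fun _ => Γ) p.1 (f p.2) fun n => s n p.2
  let r : ℝ≥0∞ := ENNReal.ofReal (7 / 8)
  have hr0 : r ≠ 0 := by simp [r]
  have hr1 : r < 1 := by simp only [r]; rw [ENNReal.ofReal_lt_one]; norm_num
  let wt : ℕ × ℕ → ℝ≥0∞ := fun p => r ^ p.1 * r ^ p.2
  let m1 : Γ → ℝ≥0∞ := fun g : Γ => ∑' p : ℕ × ℕ, if (g : Γ) = t p then wt p else 0
  have hm1 : ∀ p, wt p ≤ m1 (t p) := fun p => by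
    have := ENNReal.le_tsum (f := fun p' => if t p = t p' then wt p' else 0) p
    rwa [if_pos rfl] at this
  have hs : ∑' g, m1 g ≠ ⊤ := by
    simp only [m1]
    rw [ENNReal.tsum_comm]
    simp only [tsum_ite_eq, wt]
    rw [ENNReal.tsum_prod']
    simp only [ENNReal.tsum_mul_left, ENNReal.tsum_mul_right, ENNReal.tsum_geometric]
    have : (1 - r)⁻¹ ≠ ⊤ := ENNReal.inv_ne_top.2 (tsub_pos_of_lt hr1).ne'
    exact ENNReal.mul_ne_top this this
  let m : Γ → ℝ≥0∞ := fun g => m1 g + m1 g⁻¹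
  have hZ : ∑' g, m g ≠ ⊤ := by
    simp only [m]
    rw [ENNReal.tsum_add]
    exact ENNReal.add_ne_top.2 ⟨hs, by rw [← (Equiv.inv Γ).tsum_eq m1] at hs; exact hs⟩
  have hpos : ∀ g, m g ≠ 0 := by
    intro g
    obtain ⟨i, rfl⟩ := hf g
    have := (hm1 (0, i)).trans (le_self_add : m1 (f i) ≤ m (f i))
    exact (lt_of_lt_of_le (pos_iff_ne_zero.2 (mul_ne_zero (pow_ne_zero _ hr0)
      (pow_ne_zero _ hr0))) this).ne'
  have hZ0 : ∑' g, m g ≠ 0 := fun h => hpos 1 (ENNReal.tsum_eq_zero.1 h 1)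
  refine ⟨PMF.normalize m hZ0 hZ, 7 / 8 * ((∑' g, m g)⁻¹).toReal, ⟨fun g => ?_, ?_⟩, ?_, ?_⟩
  · simp [PMF.normalize_apply, m, add_comm]
  · have : (PMF.normalize m hZ0 hZ).support = Set.univ := by
      ext g; simp [hpos g]
    rw [this, Subgroup.closure_univ]
  · exact mul_pos (by norm_num) (ENNReal.toReal_pos (ENNReal.inv_ne_zero.2 hZ)
      (ENNReal.inv_ne_top.2 hZ0))
  · intro n i
    have h1 := (hm1 (n + 1, i)).trans (le_self_add : m1 (s n i) ≤ m (s n i))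
    have h2 := ENNReal.toReal_mono (ENNReal.ne_top_of_tsum_ne_top hZ _) h1
    rw [PMF.normalize_apply, ENNReal.toReal_mul]
    simp only [wt, r, ENNReal.toReal_mul, ENNReal.toReal_pow] at h2
    rw [ENNReal.toReal_ofReal (by norm_num)] at h2
    calc _ = (7 / 8) ^ (n + 1) * (7 / 8) ^ i * ((∑' g, m g)⁻¹).toReal := by ring
      _ ≤ _ := mul_le_mul_of_nonneg_right h2 ENNReal.toReal_nonneg

omit [DecidableEq Γ] in
theorem main [Countable Γ] [Infinite Γ] : ∃ μ : PMF Γ, IsGenerating μ ∧ lamC μ < ⊤ := by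
  classical
  obtain ⟨B, s, h0, h1, h2, h3, h4⟩ := exists_blocks (Γ := Γ)
  obtain ⟨μ, c, hμ, hc, hs⟩ := exists_measure s
  refine ⟨μ, hμ, lt_of_le_of_lt (b := ((3 / c).toNNReal : ℝ≥0∞)) ?_ ENNReal.coe_lt_top⟩
  refine iSup_le fun l => iSup_le fun _ => iSup_le fun hl => ?_
  by_contra hlt
  push Not at hlt
  have hl' : 3 / c ≤ (l : ℝ) := by
    rw [ENNReal.coe_lt_coe] at hlt
    exact (Real.toNNReal_le_iff_le_coe.1 hlt.le)
  haveI : IsProbabilityMeasure (law μ l) := by unfold law; infer_instance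
  refine percolates (law μ l) (fun n => (1 : Γ) • B n) 1 (fun n => le_trans
    (le_add_of_nonneg_right (by positivity)) (growth μ hμ.1 l B s h0 h1 h2 h3 h4 ?_ n 1)) hl
  intro n i hi
  have a1 : (7 / 8 : ℝ) ^ (4 * n + 6) ≤ (7 / 8) ^ (n + i) :=
    pow_le_pow_of_le_one (by norm_num) (by norm_num) (by omega)
  have a2 : (1 : ℝ) ≤ (7 / 8) ^ (4 * n) * 2 ^ n := by
    rw [pow_mul, ← mul_pow]
    exact one_le_pow₀ (by norm_num)
  have a3 : c * (7 / 8) ^ (4 * n + 6) ≤ (μ (s n i)).toReal :=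
    (mul_le_mul_of_nonneg_left a1 hc.le).trans (hs n i)
  calc (1 : ℝ) ≤ 3 * (7 / 8) ^ 6 * ((7 / 8) ^ (4 * n) * 2 ^ n) := by nlinarith
    _ = 3 / c * (c * (7 / 8) ^ (4 * n + 6)) * 2 ^ n := by field_simp; ring
    _ ≤ _ := by gcongr

end Pool.Agent.H43.LRP
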