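import Mathlib

set_option autoImplicit false

namespace Pool.Agent.H43.LRP

open MeasureTheory ProbabilityTheory
open scoped NNReal ENNReal

variable {Γ : Type} [Group Γ]

/-- A symmetric probability measure whose support generates the group. -/
def IsGenerating (μ : PMF Γ) : Prop :=
  (∀ g, μ g⁻¹ = μ g) ∧ Subgroup.closure μ.support = ⊤

/-- The mean `λ μ(g⁻¹ h)` of the number of edges on the unordered pair `{g, h}`. -/
noncomputable def rate (μ : PMF Γ) (l : ℝ≥0) (e : Sym2 Γ) : ℝ≥0 :=
  l * (μ ((Quot.out e).1⁻¹ * (Quot.out e).2)).toNNReal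

/-- Independent Poisson numbers of parallel edges. -/
noncomputable def law (μ : PMF Γ) (l : ℝ≥0) : Measure (Sym2 Γ → ℕ) :=
  Measure.infinitePi fun e => poissonMeasure (rate μ l e)

/-- The event that the graph of pairs of distinct elements carrying at least one edge has an
infinite connected component. -/
def infComp (Γ : Type) : Set (Sym2 Γ → ℕ) :=
  {ω | ∃ x, {y | (SimpleGraph.fromEdgeSet {e | ω e ≠ 0}).Reachable x y}.Infinite}

/-- The critical parameter. -/
noncomputable def lamC (μ : PMF Γ) : ℝ≥0∞ :=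
  ⨆ (l : ℝ≥0) (_ : 0 < l) (_ : law μ l (infComp Γ) = 0), (l : ℝ≥0∞)

end Pool.Agent.H43.LRP
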