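import Pool.Agent.H43.Lp1

set_option autoImplicit false

namespace Pool.Agent.H43.Lp

open MeasureTheory ProbabilityTheory Finset
open scoped ENNReal

variable (n : ℕ)

abbrev V := Fin (n + 2) × Bool

def G : SimpleGraph (V n) where
  Adj u v := (u.2 = false ∧ v.2 = false ∧ (u.1.val + 1 = v.1.val ∨ v.1.val + 1 = u.1.val)) ∨
    (u.2 ≠ v.2 ∧ u.1 = v.1) ∨ (u.2 = true ∧ v.2 = true ∧ u.1 ≠ v.1 ∧ (u.1 = 0 ∨ v.1 = 0))
  symm := ⟨fun u v h => by
    rcases h with h | h | h
    · exact .inl ⟨h.2.1, h.1, h.2.2.symm⟩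
    · exact .inr (.inl ⟨h.1.symm, h.2.symm⟩)
    · exact .inr (.inr ⟨h.2.1, h.1, h.2.2.1.symm, h.2.2.2.symm⟩)⟩
  loopless := ⟨fun u h => by simp at h⟩

noncomputable instance : DecidableRel (G n).Adj := Classical.decRel _

def I : Finset (V n) := univ.filter fun v => v.2 = false ∧ 0 < v.1.val ∧ v.1.val < n + 1

noncomputable def hh (v : V n) : ℝ := v.1.val / (n + 1)

variable {n}

def lo (i : Fin (n + 2)) : Fin (n + 2) := ⟨i.val - 1, by omega⟩
def hi (i : Fin (n + 2)) : Fin (n + 2) := ⟨min (i.val + 1) (n + 1), by omega⟩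

lemma mem_I {v : V n} : v ∈ I n ↔ v.2 = false ∧ 0 < v.1.val ∧ v.1.val < n + 1 := by simp [I]

lemma adj {u v : V n} : (G n).Adj u v ↔
    (u.2 = false ∧ v.2 = false ∧ (u.1.val + 1 = v.1.val ∨ v.1.val + 1 = u.1.val)) ∨
    (u.2 ≠ v.2 ∧ u.1 = v.1) ∨ (u.2 = true ∧ v.2 = true ∧ u.1 ≠ v.1 ∧ (u.1 = 0 ∨ v.1 = 0)) :=
  Iff.rfl

lemma nbr {v : V n} (hv : v ∈ I n) (F : V n → ℝ) : ∑ w ∈ (G n).neighborFinset v, F w =
    F (lo v.1, false) + F (hi v.1, false) + F (v.1, true) := by
  obtain ⟨i, b⟩ := v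
  obtain ⟨rfl, h1, h2⟩ := mem_I.1 hv
  simp only at h1 h2
  have : (G n).neighborFinset (i, false) = {(lo i, false), (hi i, false), (i, true)} := by
    ext ⟨j, c⟩
    rw [SimpleGraph.mem_neighborFinset, adj]
    simp only [mem_insert, mem_singleton, Prod.mk.injEq, lo, hi, Fin.ext_iff (a := j),
      Fin.ext_iff (b := j)]
    cases c <;> simp <;> omega
  rw [this, sum_insert (by simp [lo, hi, Fin.ext_iff]; omega), sum_pair (by simp), add_assoc]

lemma hh_lo {v : V n} (hv : v ∈ I n) : hh n (lo v.1, false) = hh n v - 1 / (n + 1) := by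
  obtain ⟨-, h1, h2⟩ := mem_I.1 hv
  simp only [hh, lo]
  rw [Nat.cast_sub h1]
  push_cast
  ring

lemma hh_hi {v : V n} (hv : v ∈ I n) : hh n (hi v.1, false) = hh n v + 1 / (n + 1) := by
  obtain ⟨-, h1, h2⟩ := mem_I.1 hv
  simp only [hh, hi]
  rw [min_eq_left h2]
  push_cast
  ring

lemma sumI (F : ℕ → ℝ) : ∑ a ∈ I n, F a.1.val = ∑ i ∈ range n, F (i + 1) := by
  symm
  refine sum_bij (fun i hi => ((⟨i + 1, by have := mem_range.1 hi; omega⟩ : Fin (n + 2)), false))
    (fun i hi => mem_I.2 (by simpa using hi)) (fun i _ j _ h => by simpa using h) ?_ fun _ _ => rfl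
  rintro ⟨i, b⟩ hv
  obtain ⟨rfl, h1, h2⟩ := mem_I.1 hv
  simp only at h1 h2
  exact ⟨i.val - 1, mem_range.2 (by omega), by simp [Fin.ext_iff]; omega⟩

lemma cardI : (I n).card = n := by
  have := sumI (n := n) fun _ => 1
  simpa using this

def Inv (α : ℝ) (f : V n → ℝ) : Prop :=
  (∀ v ∉ I n, f v = hh n v) ∧ ∀ v, 0 ≤ f v - hh n v ∧ f v - hh n v ≤ α

noncomputable def st (p : ℝ) (f : V n → ℝ) (a : I n) : V n → ℝ :=
  Function.update f a (amin (G n) p f a)

lemma evol_eq (p : ℝ) (f : V n → ℝ) (ω : ℕ → I n) (t : ℕ) :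
    evol (G n) p (I n) f ω t = run (st p) f ω t := by
  induction t with
  | zero => rfl
  | succ t ih => rw [evol, run, ih]; rfl

variable {p η κ : ℝ} (hp : 2 < p) (hη : η ≤ 1 / (n + 1))
  (hκ : η ^ (p - 2) ≤ κ * (1 / (n + 1) / 2 : ℝ) ^ (p - 2))
include hp hη hκ

lemma am {α : ℝ} (hα : α ≤ η) {f : V n → ℝ} (hf : Inv α f) {v : V n} (hv : v ∈ I n) :
    0 ≤ amin (G n) p f v - hh n v ∧ amin (G n) p f v - hh n v ≤ α ∧
      ((f (lo v.1, false) - hh n (lo v.1, false)) + (f (hi v.1, false) - hh n (hi v.1, false))) / 2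
        - κ * η ≤ amin (G n) p f v - hh n v := by
  have h := foc hp (f (lo v.1, false)) (f (hi v.1, false)) (f (v.1, true))
    (fun y => ∑ w ∈ (G n).neighborFinset v, |f w - y| ^ p) (fun y => nbr hv _)
    (y := amin (G n) p f v) rfl
  have e : f (v.1, true) = hh n v := hf.1 _ (by simp [mem_I])
  have l := hf.2 (lo v.1, false)
  have r := hf.2 (hi v.1, false)
  have := upd hp (c := hh n v) (y := amin (G n) p f v) l.1 r.1 (l.2.trans hα) (r.2.trans hα)
    (by positivity) hη hκ (by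
      rw [← h, e, hh_lo hv, hh_hi hv]
      congr 3 <;> ring)
  refine ⟨by linarith, by linarith, by linarith⟩

lemma st_inv {α : ℝ} (hα : α ≤ η) {f : V n → ℝ} (a : I n) (hf : Inv α f) : Inv α (st p f a) := by
  have := am hp hη hκ hα hf a.2
  refine ⟨fun v hv => ?_, fun v => ?_⟩
  · rw [st, Function.update_of_ne (fun h : v = a => hv (h ▸ a.2))]
    exact hf.1 v hv
  · by_cases h : v = a
    · rw [h, st, Function.update_self]
      exact ⟨this.1, this.2.1⟩
    · rw [st, Function.update_of_ne h]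
      exact hf.2 v

omit hp hη hκ

noncomputable def ph (n i : ℕ) : ℝ := i * (n + 1 - i)

lemma ph_nn (v : V n) : 0 ≤ ph n v.1.val := by
  have : (v.1.val : ℝ) ≤ n + 1 := by exact_mod_cast Nat.le_of_lt_succ v.1.2
  exact mul_nonneg (by positivity) (by linarith)

lemma ph_le (i : ℕ) : ph n i ≤ (n + 1) ^ 2 := by
  unfold ph
  nlinarith [sq_nonneg ((n : ℝ) + 1 - i), sq_nonneg (i : ℝ), sq_nonneg ((n : ℝ) + 1 - 2 * i)]

lemma ph_sum : ∑ a ∈ I n, ph n a.1.val = ((n + 1) ^ 3 - (n + 1)) / 6 := by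
  have : ∀ m : ℕ, ∑ i ∈ range m, ph n (i + 1) =
      (n + 1) * (m * (m + 1)) / 2 - m * (m + 1) * (2 * m + 1) / 6 := fun m => by
    induction m with
    | zero => simp
    | succ m ih => rw [sum_range_succ, ih, ph]; push_cast; ring
  rw [sumI, this]
  ring

noncomputable def Ph (η : ℝ) (f : V n → ℝ) : ℝ := ∑ a ∈ I n, ph n a.1.val * (η - (f a - hh n a))

lemma tele (x : ℕ → ℝ) (h0 : x 0 = 0) (h1 : x (n + 1) = 0) :
    ∑ i ∈ range n, ph n (i + 1) * (x (i + 1) - (x i + x (i + 2)) / 2) = ∑ i ∈ range n, x (i + 1) := by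
  have := sum_range_sub (fun i => ph n i * x (i + 1) - x i * ph n (i + 1)) n
  rw [h0, h1] at this
  have e : ph n (n + 1) = 0 := by simp [ph]
  have e' : ph n 0 = 0 := by simp [ph]
  rw [e, e'] at this
  rw [← sub_eq_zero, ← sum_sub_distrib]
  refine Eq.trans (sum_congr rfl fun i _ => ?_) ((mul_sum ..).symm.trans
    ((congrArg (-1 / 2 * ·) this).trans (by ring)))
  simp only [ph]
  push_cast
  ring

include hp hη hκ

lemma dr (hκ' : κ * (n + 1) ^ 2 ≤ 1) (hκ0 : 0 ≤ κ) (h0 : 0 ≤ η) {f : V n → ℝ} (hf : Inv η f) :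
    ∑ a : I n, Ph η (st p f a) ≤ n * (Ph η f + 2 * η) := by
  let x : ℕ → ℝ := fun i => if h : i < n + 2 then f (⟨i, h⟩, false) - hh n (⟨i, h⟩, false) else 0
  have x0 : x 0 = 0 := by
    simp only [x, dif_pos (show 0 < n + 2 by omega)]
    exact sub_eq_zero.2 (hf.1 _ (by simp [mem_I]))
  have x1 : x (n + 1) = 0 := by
    simp only [x, dif_pos (show n + 1 < n + 2 by omega)]
    exact sub_eq_zero.2 (hf.1 _ (by simp [mem_I]))
  have xl : ∀ i, x i ≤ η := fun i => by
    simp only [x]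
    split_ifs
    · exact (hf.2 _).2
    · exact h0
  have xe : ∀ i : Fin (n + 2), f (i, false) - hh n (i, false) = x i.val := fun i => by
    simp [x, i.2]
  have k : ∀ a : I n, Ph η (st p f a) ≤ Ph η f + (ph n a.1.1.val *
      (x a.1.1.val - (x (a.1.1.val - 1) + x (a.1.1.val + 1)) / 2) + η) := fun a => by
    obtain ⟨-, -, h3⟩ := am hp hη hκ le_rfl hf a.2
    obtain ⟨b0, b1, b2⟩ := mem_I.1 a.2
    rw [xe, xe] at h3
    simp only [lo, hi, min_eq_left (show a.1.1.val + 1 ≤ n + 1 from b2)] at h3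
    have e : f a - hh n a = x a.1.1.val := by rw [← xe, ← b0]
    unfold Ph
    rw [← add_sum_erase _ _ a.2, ← add_sum_erase _ _ a.2, st, Function.update_self,
      sum_congr rfl fun v hv => by rw [Function.update_of_ne (ne_of_mem_erase hv)], e]
    have q1 := ph_nn a.1
    have q2 := ph_le (n := n) a.1.1.val
    have q3 : ph n a.1.1.val * (κ * η) ≤ η := by
      have : ph n a.1.1.val * κ ≤ 1 := by nlinarith
      nlinarith
    nlinarith
  refine (sum_le_sum fun a _ => k a).trans ?_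
  rw [sum_add_distrib, sum_const, card_univ, Fintype.card_coe, cardI, nsmul_eq_mul,
    sum_coe_sort (I n) fun a => ph n a.1.val * (x a.1.val - (x (a.1.val - 1) +
      x (a.1.val + 1)) / 2) + η,
    sumI fun i => ph n i * (x i - (x (i - 1) + x (i + 1)) / 2) + η, sum_add_distrib]
  simp only [Nat.add_sub_cancel]
  rw [tele x x0 x1]
  have := sum_le_card_nsmul (range n) (fun i => x (i + 1)) η fun i _ => xl _
  simp only [card_range, nsmul_eq_mul, sum_const] at this ⊢
  linarith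

lemma low (hκ' : κ * (n + 1) ^ 2 ≤ 1) (hκ0 : 0 ≤ κ) (h0 : 0 < η) (hn : 0 < n) (T : ℕ)
    (hT : (T : ℝ) * 32 ≤ (n + 1) ^ 3 - (n + 1)) :
    (T : ℝ≥0∞) / 2 ≤ Etau (G n) p (I n) (fun v => hh n v + if v ∈ I n then η else 0) (hh n)
      (η / 4) := by
  haveI : Nonempty (I n) := (card_pos.1 (by rw [cardI]; exact hn)).coe_sort
  set f₀ : V n → ℝ := fun v => hh n v + if v ∈ I n then η else 0 with hf₀
  have i0 : Inv η f₀ := ⟨fun v hv => by simp [hf₀, hv], fun v => by
    simp only [hf₀, add_sub_cancel_left]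
    split_ifs <;> simp [h0.le]⟩
  have nn : ∀ f : V n → ℝ, Inv η f → 0 ≤ Ph η f := fun f hf =>
    sum_nonneg fun a _ => mul_nonneg (ph_nn a) (sub_nonneg.2 (hf.2 a).2)
  have d := drift (st p) (uniformOn (Set.univ : Set (I n))) (fun f => ENNReal.ofReal (Ph η f))
    (Inv η) (ENNReal.ofReal (2 * η)) (fun f a hf => st_inv hp hη hκ le_rfl a hf) (fun f hf => by
      rw [lintegral_fintype, ← ENNReal.ofReal_add (nn f hf) (by positivity)]
      simp only [uniformOn_univ, Measure.count_singleton, Fintype.card_coe, cardI]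
      rw [← sum_mul, ← ENNReal.ofReal_sum_of_nonneg fun a _ => nn _ (st_inv hp hη hκ le_rfl a hf),
        mul_one_div]
      refine ENNReal.div_le_of_le_mul ((ENNReal.ofReal_le_ofReal (dr hp hη hκ hκ' hκ0 h0.le hf)).trans
        (le_of_eq ?_))
      rw [ENNReal.ofReal_mul (by positivity), mul_comm, ENNReal.ofReal_natCast]) T f₀ i0
  have z : Ph η f₀ = 0 := sum_eq_zero fun a ha => by simp [hf₀, ha]
  simp only [z, ENNReal.ofReal_zero, zero_add] at d
  set μ := Measure.infinitePi fun _ : ℕ => uniformOn (Set.univ : Set (I n))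
  set c : ℝ := 3 / 4 * η * (((n + 1) ^ 3 - (n + 1)) / 6) with hc
  have c0 : 0 < c := by
    have : (1 : ℝ) ≤ n := by exact_mod_cast hn
    have : (0 : ℝ) < (n + 1) ^ 3 - (n + 1) := by nlinarith [sq_nonneg (n : ℝ)]
    positivity
  have m := run_meas (st p) (fun f => ENNReal.ofReal (Ph η f)) T f₀
  set A := {ω : ℕ → I n | ENNReal.ofReal c ≤ ENNReal.ofReal (Ph η (run (st p) f₀ ω T))}
  have mA : MeasurableSet A := measurableSet_le measurable_const m
  have b1 : μ A ≤ 1 / 2 := by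
    refine (meas_ge_le_lintegral_div m.aemeasurable (ENNReal.ofReal_pos.2 c0).ne'
      ENNReal.ofReal_ne_top).trans (ENNReal.div_le_of_le_mul (d.trans ?_))
    rw [← ENNReal.ofReal_natCast, ← ENNReal.ofReal_mul (by positivity),
      show (1 / 2 : ℝ≥0∞) = ENNReal.ofReal (1 / 2) by
        rw [ENNReal.ofReal_div_of_pos (by norm_num)]; simp,
      ← ENNReal.ofReal_mul (by norm_num)]
    exact ENNReal.ofReal_le_ofReal (by nlinarith)
  have b2 : 1 / 2 ≤ μ Aᶜ := by
    rw [prob_compl_eq_one_sub mA]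
    exact le_trans (by simp) (tsub_le_tsub_left b1 1)
  calc (T : ℝ≥0∞) / 2 = T * (1 / 2) := (mul_one_div _ _).symm
    _ ≤ T * μ Aᶜ := mul_le_mul_right b2 _
    _ = ∫⁻ ω, Aᶜ.indicator (fun _ => (T : ℝ≥0∞)) ω ∂μ := (lintegral_indicator_const mA.compl _).symm
    _ ≤ _ := by
      refine lintegral_mono fun ω => ?_
      by_cases hω : ω ∈ Aᶜ
      · rw [Set.indicator_of_mem hω]
        refine le_iInf₂ fun t ht => ?_
        by_contra hlt
        have tl : t ≤ T := by exact_mod_cast (not_le.1 hlt).le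
        have a1 : ∀ s, Inv η (run (st p) f₀ ω s) := fun s => by
          induction s with
          | zero => exact i0
          | succ s ih => exact st_inv hp hη hκ le_rfl _ ih
        have a3 : ∀ s, Inv (η / 4) (run (st p) f₀ ω (t + s)) := fun s => by
          induction s with
          | zero => exact ⟨(a1 t).1, fun v => ⟨((a1 t).2 v).1,
              (le_abs_self _).trans (evol_eq p f₀ ω t ▸ ht v)⟩⟩
          | succ s ih => exact st_inv hp hη hκ (by linarith) _ ih
        have a2 := a3 (T - t)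
        rw [Nat.add_sub_cancel' tl] at a2
        refine hω (ENNReal.ofReal_le_ofReal ?_)
        rw [hc, ← ph_sum, mul_sum]
        refine sum_le_sum fun a _ => ?_
        have := (a2.2 a).2
        nlinarith [ph_nn a]
      · rw [Set.indicator_of_notMem hω]
        exact zero_le

end Pool.Agent.H43.Lp
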