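import Pool.Agent.H43.PL2

set_option autoImplicit false

namespace Pool.Agent.H43.Lsi1

open MeasureTheory Set Real Filter Topology Pool.Agent.H43.PL2
open scoped ENNReal

noncomputable section

variable {E : Type*} [NormedAddCommGroup E] [InnerProductSpace ℝ E] [FiniteDimensional ℝ E] [MeasurableSpace E]
  [BorelSpace E]

def M (Q : Set E) (Φ : E → ℝ) : Measure E := (volume.restrict Q).withDensity fun x => .ofReal (exp (-Φ x))

lemma lint_M {Q : Set E} (hQ : MeasurableSet Q) {Φ : E → ℝ} (hΦ : Measurable Φ) {F : E → ℝ≥0∞} (hF : Measurable F) :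
    ∫⁻ x, F x ∂M Q Φ = ∫⁻ x, Q.indicator (fun x => .ofReal (exp (-Φ x)) * F x) x := by
  rw [M, lintegral_withDensity_eq_lintegral_mul _ (by fun_prop) hF, lintegral_indicator hQ]
  rfl

lemma ae_M {Q : Set E} (hQ : MeasurableSet Q) (Φ : E → ℝ) : ∀ᵐ x ∂M Q Φ, x ∈ Q :=
  withDensity_absolutelyContinuous _ _ (ae_restrict_mem hQ)

lemma pl {Q : Set E} (hQ : MeasurableSet Q) (hc : Convex ℝ Q) {Φ : E → ℝ} (hΦ : Measurable Φ) {a b : ℝ} (ha : 0 < a)
    (hb : 0 < b) (hab : a + b = 1) (c : E → E → ℝ)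
    (h1 : ∀ x ∈ Q, ∀ y ∈ Q, Φ (a • x + b • y) + c x y ≤ a * Φ x + b * Φ y) {F G H : E → ℝ≥0∞}
    (hF : Measurable F) (hG : Measurable G) (hH : Measurable H)
    (h2 : ∀ x ∈ Q, ∀ y ∈ Q, F x ^ a * G y ^ b ≤ .ofReal (exp (c x y)) * H (a • x + b • y)) :
    (∫⁻ x, F x ∂M Q Φ) ^ a * (∫⁻ x, G x ∂M Q Φ) ^ b ≤ ∫⁻ x, H x ∂M Q Φ := by
  rw [lint_M hQ hΦ hF, lint_M hQ hΦ hG, lint_M hQ hΦ hH]
  refine hasPL_volume ha hb hab E _ _ _ (Measurable.indicator (by fun_prop) hQ) (Measurable.indicator (by fun_prop) hQ)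
    (Measurable.indicator (by fun_prop) hQ) fun x y => ?_
  by_cases hx : x ∈ Q
  · by_cases hy : y ∈ Q
    · rw [indicator_of_mem hx, indicator_of_mem hy, indicator_of_mem (hc hx hy ha.le hb.le hab),
        ENNReal.mul_rpow_of_nonneg _ _ ha.le, ENNReal.mul_rpow_of_nonneg _ _ hb.le, mul_mul_mul_comm,
        ENNReal.ofReal_rpow_of_pos (exp_pos _), ENNReal.ofReal_rpow_of_pos (exp_pos _), ← exp_mul, ← exp_mul,
        ← ENNReal.ofReal_mul (exp_pos _).le, ← exp_add]
      refine (mul_le_mul_right (h2 x hx y hy) _).trans ?_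
      rw [← mul_assoc, ← ENNReal.ofReal_mul (exp_pos _).le, ← exp_add]
      exact mul_le_mul_left (ENNReal.ofReal_le_ofReal (exp_le_exp.2 (by linarith [h1 x hx y hy]))) _
    · simp [hy, hb]
  · simp [hx, ha]

lemma int_of {Q : Set E} (hQ : IsCompact Q) {μ : Measure E} [IsFiniteMeasure μ] (h : ∀ᵐ x ∂μ, x ∈ Q) {F : E → ℝ}
    (hF : ContinuousOn F Q) : Integrable F μ := by
  rw [← Measure.restrict_eq_self_of_ae_mem h]
  exact hF.integrableOn_compact hQ

def Ent {X : Type*} [MeasurableSpace X] (μ : Measure X) (g : X → ℝ) : ℝ :=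
  ∫ x, g x * log (g x) ∂μ - (∫ x, g x ∂μ) * log (∫ x, g x ∂μ)

lemma bl {Q : Set E} (hQ : IsCompact Q) (hc : Convex ℝ Q) {Φ : E → ℝ} (hΦ : Measurable Φ)
    [IsProbabilityMeasure (M Q Φ)]
    (h1 : ∀ a b : ℝ, 0 < a → 0 < b → a + b = 1 → ∀ x ∈ Q, ∀ y ∈ Q,
      Φ (a • x + b • y) + a * b / 2 * ‖x - y‖ ^ 2 ≤ a * Φ x + b * Φ y)
    {g : E → ℝ} (hm : Measurable g) (hg : ∀ z ∈ Q, ContDiffAt ℝ 2 g z) :
    Ent (M Q Φ) (fun x => exp (g x)) ≤ 4 * ∫ x, exp (g x) * ‖fderiv ℝ g x‖ ^ 2 ∂M Q Φ := by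
  have ae := ae_M hQ.measurableSet Φ
  set μ := M Q Φ
  have d1 : ContDiffOn ℝ 1 (fderiv ℝ g) Q := fun z hz => ((hg z hz).fderiv_right (by norm_num)).contDiffWithinAt
  obtain ⟨L, hL⟩ := d1.exists_lipschitzOnWith one_ne_zero hc hQ
  obtain ⟨B, hB⟩ := hQ.exists_bound_of_continuousOn (d1.continuousOn.norm.pow 2)
  have c1 : ContinuousOn g Q := fun z hz => (hg z hz).continuousAt.continuousWithinAt
  have c2 := d1.continuousOn
  obtain ⟨s, s0, s1, s2, s3⟩ : ∃ s : ℝ, 0 < s ∧ s ≤ 1 / 2 ∧ s * L ≤ 1 / 8 ∧ 2 * s * |B| ≤ 1 := by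
    have : 0 < 2 + 8 * L + 2 * |B| := by positivity
    refine ⟨1 / (2 + 8 * L + 2 * |B|), by positivity, ?_, ?_, ?_⟩
    · rw [div_le_iff₀ this]; linarith [L.2, abs_nonneg B]
    · rw [div_mul_eq_mul_div, div_le_iff₀ this]; linarith [abs_nonneg B]
    · rw [mul_one_div, div_mul_eq_mul_div, div_le_iff₀ this]; linarith [L.2]
  set t := 1 - s with ht
  have t0 : 0 < t := by linarith
  have key := pl hQ.measurableSet hc hΦ t0 s0 (by ring) _ (h1 t s t0 s0 (by ring))
    (F := fun x => .ofReal (exp (g x / t))) (G := fun _ => 1)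
    (H := fun z => .ofReal (exp (g z) * (1 + 4 * s * ‖fderiv ℝ g z‖ ^ 2))) (by fun_prop) measurable_const
    (by have := measurable_fderiv ℝ g; fun_prop) fun x hx y hy => ?_
  · have i1 : Integrable (fun x => exp (g x)) μ := int_of hQ ae (by fun_prop)
    have i2 : Integrable (fun x => exp (g x) * g x) μ := int_of hQ ae (by fun_prop)
    have i3 : Integrable (fun x => exp (g x) * ‖fderiv ℝ g x‖ ^ 2) μ := int_of hQ ae (by fun_prop)
    have i4 : Integrable (fun x => exp (g x / t)) μ := int_of hQ ae (by fun_prop)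
    have m0 : 0 < ∫ x, exp (g x) ∂μ := integral_exp_pos i1
    set m := ∫ x, exp (g x) ∂μ with hm'
    set A := (∫ x, exp (g x) * g x ∂μ) / m with hA
    have a1 : exp (s / t * A + log m) ≤ ∫ x, exp (g x / t) ∂μ := by
      have : ∫ x, exp (s / t * A) * ((1 - s / t * A) * exp (g x) + s / t * (exp (g x) * g x)) ∂μ =
          exp (s / t * A + log m) := by
        rw [integral_const_mul, integral_add (i1.const_mul _) (i2.const_mul _), integral_const_mul, integral_const_mul,
          exp_add, exp_log m0, ← hm', show ∫ x, exp (g x) * g x ∂μ = A * m by rw [hA]; field_simp]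
        ring
      rw [← this]
      refine integral_mono (((i1.const_mul _).add (i2.const_mul _)).const_mul _) i4 fun x => ?_
      have e : g x / t = s / t * A + g x + (s / t * g x - s / t * A) := by field_simp; ring
      simp only [e, exp_add]
      have := mul_le_mul_of_nonneg_left (add_one_le_exp (s / t * g x - s / t * A))
        (mul_pos (exp_pos (s / t * A)) (exp_pos (g x))).le
      linarith
    rw [lintegral_one, measure_univ, ENNReal.one_rpow, mul_one,
      ← ofReal_integral_eq_lintegral_ofReal i4 (.of_forall fun x => (exp_pos _).le),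
      ← ofReal_integral_eq_lintegral_ofReal (int_of hQ ae (by fun_prop)) (.of_forall fun x => by positivity),
      ENNReal.ofReal_rpow_of_nonneg (integral_nonneg fun x => (exp_pos _).le) t0.le,
      ENNReal.ofReal_le_ofReal_iff (integral_nonneg fun x => by positivity)] at key
    have a2 := (rpow_le_rpow (exp_pos _).le a1 t0.le).trans key
    rw [← exp_mul, show (s / t * A + log m) * t = log m + s * (A - log m) by field_simp; ring, exp_add, exp_log m0,
      show (fun z => exp (g z) * (1 + 4 * s * ‖fderiv ℝ g z‖ ^ 2)) = fun z => exp (g z) + 4 * s * (exp (g z) *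
        ‖fderiv ℝ g z‖ ^ 2) from funext fun z => by ring, integral_add i1 (i3.const_mul _), integral_const_mul] at a2
    have a3 := mul_le_mul_of_nonneg_left (add_one_le_exp (s * (A - log m))) m0.le
    simp only [Ent, log_exp]
    rw [show ∫ x, exp (g x) * g x ∂μ = A * m by rw [hA]; field_simp]
    refine le_of_mul_le_mul_left ?_ s0
    nlinarith
  · set z := t • x + s • y with hz
    have hzQ : z ∈ Q := hc hx hy t0.le s0.le (by ring)
    have e : x - z = s • (x - y) := by rw [hz, ht]; module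
    have b1 := Convex.norm_image_sub_le_of_norm_fderiv_le' (𝕜 := ℝ) (f := g) (φ := fderiv ℝ g z) (C := L * ‖x - z‖)
      (s := Q ∩ Metric.closedBall z ‖x - z‖) (fun w hw => (hg w hw.1).differentiableAt (by norm_num))
      (fun w hw => (hL.norm_sub_le hw.1 hzQ).trans (mul_le_mul_of_nonneg_left (mem_closedBall_iff_norm.1 hw.2) L.2))
      (hc.inter (convex_closedBall _ _)) ⟨hzQ, by simp⟩ ⟨hx, mem_closedBall_iff_norm.2 le_rfl⟩
    have b2 := (fderiv ℝ g z).le_opNorm (x - z)
    rw [e, norm_smul, norm_of_nonneg s0.le] at b1 b2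
    have b3 := hB z hzQ
    set D := ‖fderiv ℝ g z‖
    set H := ‖x - y‖
    have b4 : g x ≤ t * s / 2 * H ^ 2 + (g z + 2 * s * D ^ 2) := by
      have := (abs_le.1 b1).2
      have := (abs_le.1 b2).2
      have := mul_le_mul_of_nonneg_right s2 (mul_nonneg s0.le (sq_nonneg H))
      have := mul_le_mul_of_nonneg_right s1 (mul_nonneg s0.le (sq_nonneg H))
      have := mul_nonneg s0.le (sq_nonneg (H - 4 * D))
      rw [ht]; nlinarith
    have b5 : |2 * s * D ^ 2| ≤ 1 := by
      rw [abs_of_nonneg (by positivity)]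
      refine le_trans ?_ s3
      gcongr
      exact (le_abs_self _).trans (b3.trans (le_abs_self _))
    have b6 := (abs_le.1 (abs_exp_sub_one_le b5)).2
    rw [abs_of_nonneg (by positivity)] at b6
    rw [ENNReal.one_rpow, mul_one, ENNReal.ofReal_rpow_of_pos (exp_pos _), ← exp_mul, div_mul_cancel₀ _ t0.ne',
      ← ENNReal.ofReal_mul (exp_pos _).le]
    refine ENNReal.ofReal_le_ofReal ((exp_le_exp.2 b4).trans ?_)
    rw [exp_add, exp_add]
    gcongr
    linarith

lemma lsi {Q : Set E} (hQ : IsCompact Q) (hc : Convex ℝ Q) {Φ : E → ℝ} (hΦ : Measurable Φ)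
    [IsProbabilityMeasure (M Q Φ)]
    (h1 : ∀ a b : ℝ, 0 < a → 0 < b → a + b = 1 → ∀ x ∈ Q, ∀ y ∈ Q,
      Φ (a • x + b • y) + a * b / 2 * ‖x - y‖ ^ 2 ≤ a * Φ x + b * Φ y)
    {F : E → ℝ} (hm : Measurable F) (hF : ∀ z ∈ Q, ContDiffAt ℝ 2 F z) :
    Ent (M Q Φ) (fun x => F x ^ 2) ≤ 16 * ∫ x, ‖fderiv ℝ F x‖ ^ 2 ∂M Q Φ := by
  have ae := ae_M hQ.measurableSet Φ
  have c1 : ContinuousOn F Q := fun z hz => (hF z hz).continuousAt.continuousWithinAt
  have c2 : ContinuousOn (fderiv ℝ F) Q := fun z hz =>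
    ((hF z hz).fderiv_right (m := 1) (by norm_num)).continuousAt.continuousWithinAt
  have i1 : Integrable (fun x => F x ^ 2) (M Q Φ) := int_of hQ ae (by fun_prop)
  set m := ∫ x, F x ^ 2 ∂M Q Φ with hm'
  have T : Tendsto (fun η => 16 * ∫ x, ‖fderiv ℝ F x‖ ^ 2 ∂M Q Φ + (m + η) * log (m + η) - η * log η) (𝓝[>] 0)
      (𝓝 (16 * ∫ x, ‖fderiv ℝ F x‖ ^ 2 ∂M Q Φ + (m + 0) * log (m + 0) - 0 * log 0)) :=
    (((continuous_const.add (continuous_mul_log.comp (continuous_const_add m))).sub continuous_mul_log).tendsto 0).mono_left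
      nhdsWithin_le_nhds
  rw [add_zero, zero_mul, sub_zero] at T
  refine sub_le_iff_le_add.2 (ge_of_tendsto T (eventually_nhdsWithin_of_forall fun η (h : 0 < η) => ?_))
  have p : ∀ x, 0 < F x ^ 2 + η := fun x => by positivity
  have a1 := bl hQ hc hΦ h1 (g := fun x => log (F x ^ 2 + η)) (by fun_prop) fun z hz =>
    (((hF z hz).pow 2).add contDiffAt_const).log (p z).ne'
  simp only [Ent, exp_log (p _)] at a1
  rw [integral_add i1 (integrable_const _), integral_const, probReal_univ, one_smul] at a1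
  have a2 : ∫ x, (F x ^ 2 + η) * ‖fderiv ℝ (fun x => log (F x ^ 2 + η)) x‖ ^ 2 ∂M Q Φ ≤
      ∫ x, 4 * ‖fderiv ℝ F x‖ ^ 2 ∂M Q Φ := by
    refine integral_mono_of_nonneg (.of_forall fun x => by have := p x; positivity) (int_of hQ ae (by fun_prop))
      (ae.mono fun x hx => ?_)
    have := ((((hF x hx).differentiableAt (by norm_num)).hasFDerivAt.pow 2).add_const η).log (p x).ne'
    simp only [this.fderiv, norm_smul, mul_pow, norm_eq_abs, sq_abs, nsmul_eq_mul]
    have := p x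
    have := mul_nonneg h.le (sq_nonneg ‖fderiv ℝ F x‖)
    field_simp
    norm_num
    nlinarith
  have a3 : ∫ x, F x ^ 2 * log (F x ^ 2) + η * log η ∂M Q Φ ≤ ∫ x, (F x ^ 2 + η) * log (F x ^ 2 + η) ∂M Q Φ := by
    refine integral_mono ((int_of hQ ae (continuous_mul_log.comp_continuousOn (c1.pow 2))).add (integrable_const _))
      (int_of hQ ae (continuous_mul_log.comp_continuousOn ((c1.pow 2).add continuousOn_const))) fun x => ?_
    simp only [add_mul]
    refine add_le_add ?_ (mul_le_mul_of_nonneg_left (log_le_log h (by nlinarith [sq_nonneg (F x)])) h.le)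
    rcases (sq_nonneg (F x)).eq_or_lt with e | e
    · simp [← e]
    · exact mul_le_mul_of_nonneg_left (log_le_log e (by linarith)) e.le
  rw [integral_add (f := fun x => F x ^ 2 * log (F x ^ 2)) (int_of hQ ae (continuous_mul_log.comp_continuousOn (c1.pow 2)))
    (integrable_const _), integral_const,
    probReal_univ, one_smul] at a3
  rw [integral_const_mul] at a2
  linarith

lemma ent_ge {X : Type*} [MeasurableSpace X] {μ : Measure X} [IsProbabilityMeasure μ] {f : X → ℝ}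
    (h : ∀ᵐ x ∂μ, 0 < f x) (i2 : Integrable (fun x => f x ^ 2) μ)
    (i3 : Integrable (fun x => f x ^ 2 * log (f x ^ 2)) μ) :
    ∃ c, ∫ x, (f x - c) ^ 2 ∂μ ≤ Ent μ fun x => f x ^ 2 := by
  have m0 : 0 < ∫ x, f x ^ 2 ∂μ := by
    rw [integral_pos_iff_support_of_nonneg (fun x => sq_nonneg _) i2, pos_iff_ne_zero]
    intro c
    obtain ⟨x, h1, h2⟩ := (h.and (measure_eq_zero_iff_ae_notMem.1 c)).exists
    exact h2 (pow_pos h1 2).ne'
  set m := ∫ x, f x ^ 2 ∂μ with hm
  refine ⟨√m, le_trans (integral_mono_of_nonneg (g := fun x => f x ^ 2 * log (f x ^ 2) - (log m + 1) * f x ^ 2 + m)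
    (.of_forall fun x => sq_nonneg _) ((i3.sub (i2.const_mul _)).add (integrable_const _)) (h.mono fun x hx => ?_)) ?_⟩
  · have s0 := sqrt_pos.2 m0
    have a := one_sub_inv_le_log_of_pos (div_pos hx s0)
    rw [log_div hx.ne' s0.ne', log_sqrt m0.le, inv_div] at a
    have b := mul_le_mul_of_nonneg_left a (sq_nonneg (f x))
    have c : f x ^ 2 * (1 - √m / f x) = f x ^ 2 - √m * f x := by field_simp
    simp only [log_pow, Nat.cast_ofNat]
    nlinarith [sq_sqrt m0.le]
  · rw [integral_add (f := fun x => f x ^ 2 * log (f x ^ 2) - (log m + 1) * f x ^ 2) (i3.sub (i2.const_mul _))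
      (integrable_const _), integral_sub i3 (i2.const_mul _), integral_const_mul,
      integral_const, probReal_univ, one_smul, Ent]
    linarith

end

end Pool.Agent.H43.Lsi1
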