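import Pool.Agent.H43.Lsi1

set_option autoImplicit false

namespace Pool.Agent.H43.Lsi2

open MeasureTheory Set Real Filter Topology Pool.Agent.H43.Lsi1 WithLp
open scoped ENNReal

noncomputable section

abbrev E (n : ℕ) := EuclideanSpace ℝ (Fin (n + 1))

variable {n : ℕ} {R δ m c : ℝ}

def ph (R r : ℝ) : ℝ := r ^ 2 / (2 * R)

def T (R δ m : ℝ) (z : E n) : E n := toLp 2 fun i => if i = 0 then ph R (z 0) - m else √(1 - δ * ph R (z 0)) * z i

def Q (n : ℕ) (R : ℝ) : Set (E n) := {z | z 0 ∈ Icc R (2 * R) ∧ ∀ i : Fin n, z i.succ ∈ Icc (-1 : ℝ) 1}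

def G (n : ℕ) (R δ r : ℝ) : ℝ := n / 2 * (-(δ * ph R r) - log (1 - δ * ph R r)) - log (r / R)

def Ph (R δ c : ℝ) (z : E n) : ℝ := ‖z‖ ^ 2 / 2 + G n R δ (z 0) + c

def K (n : ℕ) (R δ m : ℝ) : Set (E n) :=
  {w | w 0 + m ∈ Icc (R / 2) (2 * R) ∧ ∀ i : Fin n, w i.succ ^ 2 ≤ 1 - δ * (w 0 + m)}

def W (R δ m c : ℝ) (w : E n) : ℝ :=
  (R - n * δ / 2) * (w 0 + m) + (∑ i : Fin n, w i.succ ^ 2) / (2 * (1 - δ * (w 0 + m))) + c

def cs (r : ℝ) (y : Fin n → ℝ) : E n := toLp 2 (Fin.cons r y)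

@[simp] lemma cs0 (r : ℝ) (y : Fin n → ℝ) : cs r y 0 = r := rfl

@[simp] lemma cs1 (r : ℝ) (y : Fin n → ℝ) (i : Fin n) : cs r y i.succ = y i := rfl

lemma nsq (z : E n) : ‖z‖ ^ 2 = z 0 ^ 2 + ∑ i : Fin n, z i.succ ^ 2 := by
  simp [EuclideanSpace.norm_sq_eq, Fin.sum_univ_succ]

@[simp] lemma T0 (z : E n) : T R δ m z 0 = ph R (z 0) - m := rfl

@[simp] lemma T1 (z : E n) (i : Fin n) : T R δ m z i.succ = √(1 - δ * ph R (z 0)) * z i.succ := by
  simp [T]

lemma T_cont : Continuous (T R δ m : E n → E n) := by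
  refine (PiLp.continuous_toLp 2 _).comp (continuous_pi fun i => ?_)
  unfold ph
  split_ifs <;> fun_prop

lemma Ph_meas : Measurable (Ph R δ c : E n → ℝ) := by unfold Ph G ph; fun_prop

lemma W_meas : Measurable (W R δ m c : E n → ℝ) := by unfold W; fun_prop

lemma K_meas : MeasurableSet (K n R δ m) := by
  simp only [K, mem_Icc]; measurability

lemma Q_cpt : IsCompact (Q n R) := by
  have : Q n R = toLp 2 '' Icc (Fin.cons R fun _ => -1) (Fin.cons (2 * R) fun _ => 1) := by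
    ext z
    rw [image_eq_preimage_of_inverse (g := ofLp) (fun _ => rfl) fun _ => rfl]
    simp only [Q, mem_Icc, mem_ofPred_eq, mem_preimage, Pi.le_def, Fin.forall_fin_succ, Fin.cons_zero, Fin.cons_succ,
      forall_and]
    tauto
  rw [this]
  exact isCompact_Icc.image (PiLp.continuous_toLp 2 _)

lemma Q_cvx : Convex ℝ (Q n R) := fun x hx y hy a b ha hb h =>
  ⟨convex_Icc _ _ hx.1 hy.1 ha hb h, fun i => convex_Icc _ _ (hx.2 i) (hy.2 i) ha hb h⟩

lemma fub {F : E n → ℝ≥0∞} (hF : Measurable F) : ∫⁻ z, F z = ∫⁻ r, ∫⁻ y, F (cs r y) := by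
  rw [← (PiLp.volume_preserving_toLp _).lintegral_comp hF,
    ← (volume_preserving_piFinSuccAbove (fun _ : Fin (n + 1) => ℝ) 0).symm.lintegral_comp
      (f := fun x => F (toLp 2 x)) (by fun_prop), Measure.volume_eq_prod, lintegral_prod _ (by fun_prop)]
  simp [MeasurableEquiv.piFinSuccAbove, Fin.insertNthEquiv, cs]

lemma cs_meas (r : ℝ) : Measurable (cs r : (Fin n → ℝ) → E n) := by
  refine ((PiLp.continuous_toLp 2 _).comp (continuous_pi fun i => ?_)).measurable
  refine Fin.cases ?_ (fun i => ?_) i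
  · exact continuous_const
  · exact continuous_apply i

lemma scale {h : (Fin n → ℝ) → ℝ≥0∞} (hh : Measurable h) {s : ℝ} (hs : 0 < s) :
    ∫⁻ x, h x = .ofReal (s ^ n) * ∫⁻ y, h (s • y) := by
  rw [← lintegral_map (g := (s • ·)) hh (by fun_prop), Measure.map_addHaar_smul _ hs.ne', lintegral_smul_measure, smul_eq_mul, ← mul_assoc,
    ← ENNReal.ofReal_mul (by positivity), abs_of_pos (by positivity)]
  simp [hs.ne']

structure Par (n : ℕ) (R δ : ℝ) : Prop where
  hR : 1 ≤ R
  hδ : 0 ≤ δ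
  h : 16 * n * δ ^ 2 * R ^ 2 ≤ 1
  hn : 1 ≤ n

lemma Par.dR (P : Par n R δ) : δ * R ≤ 1 / 4 := by
  have : (1 : ℝ) ≤ n := by exact_mod_cast P.hn
  refine le_of_sq_le_sq ?_ (by norm_num)
  nlinarith [P.h, sq_nonneg (δ * R)]

lemma ph_mem (hR : 1 ≤ R) {r : ℝ} (h : r ∈ Icc R (2 * R)) : ph R r ∈ Icc (R / 2) (2 * R) := by
  rw [ph, mem_Icc, le_div_iff₀ (by linarith), div_le_iff₀ (by linarith)]
  constructor <;> nlinarith [h.1, h.2]

lemma Par.mem (P : Par n R δ) {u : ℝ} (h : u ∈ Icc (R / 2) (2 * R)) : 0 ≤ δ * u ∧ δ * u ≤ 1 / 2 :=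
  ⟨mul_nonneg P.hδ (by linarith [h.1, P.hR]), by nlinarith [P.dR, P.hδ, h.2]⟩

lemma cov (P : Par n R δ) : (M (Q n R) (Ph R δ c)).map (T R δ m) = M (K n R δ m) (W R δ m c) := by
  have hR := P.hR
  refine Measure.ext_of_lintegral _ fun F hF => ?_
  have m1 := (Ph_meas (n := n) (R := R) (δ := δ) (c := c))
  have m2 := (W_meas (n := n) (R := R) (δ := δ) (m := m) (c := c))
  have m3 := (T_cont (n := n) (R := R) (δ := δ) (m := m)).measurable
  have m4 : Measurable ((K n R δ m).indicator fun x => ENNReal.ofReal (exp (-W R δ m c x)) * F x) :=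
    .indicator (by fun_prop) K_meas
  rw [lintegral_map hF m3, lint_M Q_cpt.measurableSet m1 (by fun_prop), lint_M K_meas m2 hF,
    fub (.indicator (by fun_prop) Q_cpt.measurableSet), fub m4,
    ← setLIntegral_eq_of_support_subset (s := Icc R (2 * R)), ← setLIntegral_eq_of_support_subset
      (s := (fun r => ph R r - m) '' Icc R (2 * R)) (f := fun r => ∫⁻ y, indicator (K n R δ m) _ (cs r y)),
    lintegral_image_eq_lintegral_abs_deriv_mul (f' := fun r => r / R) measurableSet_Icc]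
  · refine setLIntegral_congr_fun measurableSet_Icc fun r hr => ?_
    have h1 := P.mem (ph_mem hR hr)
    have h2 : 0 < 1 - δ * ph R r := by linarith
    have h3 := sqrt_pos.2 h2
    have h4 : 0 < r / R := div_pos (by linarith [hr.1]) (by linarith)
    rw [scale (h := fun y => indicator (K n R δ m) _ (cs (ph R r - m) y)) (m4.comp (cs_meas _)) h3, ← mul_assoc, ← lintegral_const_mul' _ _ (by finiteness)]
    refine lintegral_congr fun y => ?_
    have e : T R δ m (cs r y) = cs (ph R r - m) (√(1 - δ * ph R r) • y) := by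
      ext i
      refine Fin.cases rfl (fun i => ?_) i
      simp
    have e2 : cs (ph R r - m) (√(1 - δ * ph R r) • y) ∈ K n R δ m ↔ cs r y ∈ Q n R := by
      simp only [K, Q, mem_ofPred_eq, cs0, cs1, sub_add_cancel, ph_mem hR hr, hr, true_and, Pi.smul_apply, smul_eq_mul,
        mul_pow, sq_sqrt h2.le, mul_le_iff_le_one_right h2, sq_le_one_iff_abs_le_one, abs_le]
      rfl
    by_cases hy : cs r y ∈ Q n R
    · rw [indicator_of_mem hy, indicator_of_mem (e2.2 hy), e, ← mul_assoc, ← ENNReal.ofReal_mul (abs_nonneg _),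
        ← ENNReal.ofReal_mul (by positivity), abs_of_pos h4, ← exp_log h4, ← exp_log h3, ← exp_nat_mul, ← exp_add, ← exp_add,
        exp_log h3, log_sqrt h2.le]
      congr 3
      simp only [Ph, G, W, nsq, cs0, cs1, sub_add_cancel, Pi.smul_apply, smul_eq_mul, mul_pow, sq_sqrt h2.le,
        ← Finset.mul_sum]
      have : r ^ 2 = 2 * R * ph R r := by rw [ph]; field_simp
      rw [this, mul_comm 2 (1 - _), mul_div_mul_left _ _ h2.ne']
      ring
    · rw [indicator_of_notMem hy, indicator_of_notMem (mt e2.1 hy), mul_zero]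
  · intro r _
    have := (((hasDerivAt_id r).pow 2).div_const (2 * R)).sub_const m
    refine (this.congr_deriv ?_).hasDerivWithinAt
    simp only [id]; field_simp; norm_num
  · intro r hr s hs e
    simp only [ph, sub_left_inj] at e
    rw [div_left_inj' (by linarith)] at e
    exact (pow_left_inj₀ (by linarith [hr.1]) (by linarith [hs.1]) two_ne_zero).1 e
  · intro u hu
    by_contra hc
    refine hu ((lintegral_congr fun y => indicator_of_notMem (fun h => hc ?_) _).trans lintegral_zero)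
    have h := h.1
    simp only [cs0] at h
    have : 0 ≤ 2 * R * (u + m) := by nlinarith [h.1]
    refine ⟨√(2 * R * (u + m)), ⟨le_sqrt_of_sq_le (by nlinarith [h.1]), sqrt_le_iff.2 ⟨by linarith, by nlinarith [h.2]⟩⟩, ?_⟩
    simp only [ph, sq_sqrt this]
    field_simp
    ring
  · intro u hu
    by_contra hc
    exact hu ((lintegral_congr fun y => indicator_of_notMem (fun h => hc h.1) _).trans lintegral_zero)

lemma K_cvx : Convex ℝ (K n R δ m) := by
  intro x hx y hy a b ha hb h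
  have e : (a • x + b • y) 0 + m = a * (x 0 + m) + b * (y 0 + m) := by
    simp only [PiLp.add_apply, PiLp.smul_apply, smul_eq_mul]; linear_combination (-m) * h
  refine ⟨e ▸ convex_Icc _ _ hx.1 hy.1 ha hb h, fun i => ?_⟩
  rw [e]
  simp only [PiLp.add_apply, PiLp.smul_apply, smul_eq_mul]
  obtain rfl : b = 1 - a := by linarith
  nlinarith [mul_le_mul_of_nonneg_left (hx.2 i) ha, mul_le_mul_of_nonneg_left (hy.2 i) hb,
    mul_nonneg (mul_nonneg ha hb) (sq_nonneg (x i.succ - y i.succ))]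

lemma W_cvx (P : Par n R δ) {a b : ℝ} (ha : 0 < a) (hb : 0 < b) (h : a + b = 1) (x : E n) (hx : x ∈ K n R δ m) (y : E n)
    (hy : y ∈ K n R δ m) : W R δ m c (a • x + b • y) + 0 ≤ a * W R δ m c x + b * W R δ m c y := by
  have e : (a • x + b • y) 0 + m = a * (x 0 + m) + b * (y 0 + m) := by
    simp only [PiLp.add_apply, PiLp.smul_apply, smul_eq_mul]; linear_combination (-m) * h
  have h1 := (P.mem hx.1).2
  have h2 := (P.mem hy.1).2
  simp only [W, e]
  simp only [PiLp.add_apply, PiLp.smul_apply, smul_eq_mul]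
  set p := 1 - δ * (x 0 + m) with hp
  set q := 1 - δ * (y 0 + m) with hq
  have p0 : 0 < p := by linarith
  have q0 : 0 < q := by linarith
  rw [show 1 - δ * (a * (x 0 + m) + b * (y 0 + m)) = a * p + b * q by rw [hp, hq]; linear_combination -h]
  have : (∑ i : Fin n, (a * x i.succ + b * y i.succ) ^ 2) / (2 * (a * p + b * q)) ≤
      a * ((∑ i : Fin n, x i.succ ^ 2) / (2 * p)) + b * ((∑ i : Fin n, y i.succ ^ 2) / (2 * q)) := by
    simp only [Finset.sum_div, Finset.mul_sum, ← Finset.sum_add_distrib]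
    refine Finset.sum_le_sum fun i _ => ?_
    rw [← mul_div_assoc, ← mul_div_assoc, div_add_div _ _ (by positivity) (by positivity),
      div_le_div_iff₀ (by positivity) (by positivity)]
    nlinarith [mul_nonneg (mul_pos ha hb).le (sq_nonneg (x i.succ * q - y i.succ * p))]
  linear_combination this - c * h

lemma G_cvx (P : Par n R δ) : ConvexOn ℝ (Icc R (2 * R)) (G n R δ) := by
  have hR := P.hR
  refine ⟨convex_Icc _ _, fun x hx y hy a b ha hb h => ?_⟩
  have hz := convex_Icc _ _ hx hy ha hb h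
  have h1 := P.mem (ph_mem hR hx)
  have h2 := P.mem (ph_mem hR hy)
  have h3 := P.mem (ph_mem hR hz)
  have a1 := strictConcaveOn_log_Ioi.concaveOn.2 (x := x / R) (y := y / R) 
    (div_pos (b := R) (by linarith [hx.1]) (by linarith)) (div_pos (b := R) (by linarith [hy.1]) (by linarith)) ha hb h
  have a2 := strictConcaveOn_log_Ioi.concaveOn.2 (x := 1 - δ * ph R x) (y := 1 - δ * ph R y) (by simp; linarith)
    (by simp; linarith) ha hb h
  have a3 : ph R (a * x + b * y) ≤ a * ph R x + b * ph R y := by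
    simp only [ph, ← mul_div_assoc, ← add_div]
    gcongr
    obtain rfl : b = 1 - a := by linarith
    nlinarith [mul_nonneg (mul_nonneg ha hb) (sq_nonneg (x - y))]
  simp only [smul_eq_mul, G] at *
  rw [← mul_div_assoc, ← mul_div_assoc, ← add_div] at a1
  replace a3 := mul_le_mul_of_nonneg_left a3 P.hδ
  set u := δ * ph R x
  set v := δ * ph R y
  set w := δ * ph R (a * x + b * y)
  replace a3 : w ≤ a * u + b * v := by simp only [u, v]; linarith
  have a4 : a * u + b * v ≤ 1 / 2 := by nlinarith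
  rw [show a * (1 - u) + b * (1 - v) = 1 - (a * u + b * v) by linarith] at a2
  have a5 : -w - log (1 - w) ≤ -(a * u + b * v) - log (1 - (a * u + b * v)) := by
    have := log_le_sub_one_of_pos (x := (1 - (a * u + b * v)) / (1 - w)) (div_pos (by linarith) (by linarith))
    rw [log_div (by linarith) (by linarith)] at this
    have : (1 - (a * u + b * v)) / (1 - w) ≤ 1 - (a * u + b * v) + w := by
      rw [div_le_iff₀ (by linarith)]; nlinarith
    linarith
  have := mul_le_mul_of_nonneg_left (show -w - log (1 - w) ≤ a * (-u - log (1 - u)) + b * (-v - log (1 - v)) by linarith)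
    (by positivity : (0 : ℝ) ≤ n / 2)
  linarith

lemma Ph_cvx (P : Par n R δ) (a b : ℝ) (ha : 0 < a) (hb : 0 < b) (h : a + b = 1) (x : E n) (hx : x ∈ Q n R) (y : E n)
    (hy : y ∈ Q n R) : Ph R δ c (a • x + b • y) + a * b / 2 * ‖x - y‖ ^ 2 ≤ a * Ph R δ c x + b * Ph R δ c y := by
  have := (G_cvx P).2 hx.1 hy.1 ha.le hb.le h
  simp only [Ph, norm_add_sq_real, norm_sub_sq_real, norm_smul, inner_smul_left, inner_smul_right, mul_pow, norm_eq_abs,
    sq_abs, PiLp.add_apply, PiLp.smul_apply, smul_eq_mul, conj_trivial] at *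
  obtain rfl : b = 1 - a := by linarith
  linarith

lemma T_diff (P : Par n R δ) {z : E n} (hz : z ∈ Q n R) : ContDiffAt ℝ 2 (T R δ m) z ∧ ‖fderiv ℝ (T R δ m) z‖ ≤ 4 := by
  have hR := P.hR
  have h1 := P.mem (ph_mem hR hz.1)
  constructor
  · refine contDiffAt_euclidean.2 fun i => Fin.cases ?_ (fun i => ?_) i
    · simp only [T0, ph]; fun_prop
    · simp only [T1]
      exact ContDiffAt.mul (ContDiffAt.sqrt (by unfold ph; fun_prop) (by linarith)) (by fun_prop)
  refine norm_fderiv_le_of_lip' ℝ (by norm_num) ?_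
  have : ∀ᶠ x : E n in 𝓝 z, x 0 ∈ Ioo 0 (5 / 2 * R) :=
    (by fun_prop : Continuous fun x : E n => x 0).continuousAt.eventually (Ioo_mem_nhds (by linarith [hz.1.1])
      (by linarith [hz.1.2]))
  filter_upwards [this] with x hx
  refine le_of_sq_le_sq ?_ (by positivity)
  rw [mul_pow, nsq, nsq]
  simp only [PiLp.sub_apply, T0, T1, sub_sub_sub_cancel_right]
  have a1 : (ph R (x 0) - ph R (z 0)) ^ 2 ≤ 9 * (x 0 - z 0) ^ 2 := by
    rw [show ph R (x 0) - ph R (z 0) = (x 0 + z 0) / (2 * R) * (x 0 - z 0) by simp only [ph]; field_simp; ring, mul_pow]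
    gcongr
    rw [div_pow, div_le_iff₀ (by positivity)]
    nlinarith [hx.1, hx.2, hz.1.1, hz.1.2]
  have a2 : 0 ≤ δ * ph R (x 0) ∧ δ * ph R (x 0) ≤ 1 := by
    have : ph R (x 0) ≤ 4 * R := by rw [ph, div_le_iff₀ (by linarith)]; nlinarith [hx.1, hx.2]
    exact ⟨mul_nonneg P.hδ (by unfold ph; positivity), by nlinarith [P.dR, P.hδ]⟩
  set p := √(1 - δ * ph R (x 0))
  set q := √(1 - δ * ph R (z 0))
  have p0 : 0 ≤ p := sqrt_nonneg _
  have q0 : 0 ≤ q := sqrt_nonneg _
  have p1 : p ^ 2 = 1 - δ * ph R (x 0) := sq_sqrt (by linarith)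
  have q1 : q ^ 2 = 1 - δ * ph R (z 0) := sq_sqrt (by linarith)
  have a3 : (p - q) ^ 2 ≤ 18 * δ ^ 2 * (x 0 - z 0) ^ 2 := by
    have : (p - q) ^ 2 * (p + q) ^ 2 = δ ^ 2 * (ph R (x 0) - ph R (z 0)) ^ 2 := by
      rw [← mul_pow, show (p - q) * (p + q) = p ^ 2 - q ^ 2 by ring, p1, q1]; ring
    have := mul_le_mul_of_nonneg_left (show 1 / 2 ≤ (p + q) ^ 2 by nlinarith [mul_nonneg p0 q0]) (sq_nonneg (p - q))
    nlinarith [mul_le_mul_of_nonneg_left a1 (sq_nonneg δ)]
  have a4 : ∑ i : Fin n, (p * x i.succ - q * z i.succ) ^ 2 ≤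
      ∑ i : Fin n, (2 * (x i.succ - z i.succ) ^ 2 + 36 * δ ^ 2 * (x 0 - z 0) ^ 2) := Finset.sum_le_sum fun i _ => by
    have b1 : z i.succ ^ 2 ≤ 1 := (sq_le_one_iff_abs_le_one _).2 (abs_le.2 (hz.2 i))
    have b2 := mul_le_mul_of_nonneg_left b1 (sq_nonneg (p - q))
    have b3 := mul_le_mul_of_nonneg_right (show p ^ 2 ≤ 1 by linarith) (sq_nonneg (x i.succ - z i.succ))
    nlinarith [sq_nonneg (p * (x i.succ - z i.succ) - (p - q) * z i.succ)]
  rw [Finset.sum_add_distrib, ← Finset.mul_sum, Finset.sum_const, Finset.card_univ, Fintype.card_fin, nsmul_eq_mul] at a4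
  have a5 : 16 * n * δ ^ 2 ≤ 1 := le_trans (le_mul_of_one_le_right (by positivity) (one_le_pow₀ hR)) P.h
  have a6 := mul_le_mul_of_nonneg_right a5 (sq_nonneg (x 0 - z 0))
  nlinarith [Finset.sum_nonneg fun (i : Fin n) (_ : i ∈ Finset.univ) => sq_nonneg (x i.succ - z i.succ), sq_nonneg (x 0 - z 0)]

end

end Pool.Agent.H43.Lsi2
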