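import Mathlib

set_option autoImplicit false

namespace Pool.Agent.H43.Lv1

open Finset

def q (a : ℕ) : ℕ := if a = 0 then 4 else 3
def q2 (a : ℕ) : ℕ := if a = 0 then 12 else 9
def p (a : ℕ) : ℕ := if a = 0 then 0 else 1
def p2 (a : ℕ) : ℕ := if a < 2 then 0 else 1

def nb (A : ℕ → Bool) (a b : ℕ) : Fin 6 → ℕ × ℕ :=
  ![(a + 1, b), (a, b + 1), (a - 1, b), (a, b - 1),
    if A (a + b) then (a + 2, b - 1) else (a - 1, b + 2),
    if A (a + b - 1) then (a - 2, b + 1) else (a + 1, b - 2)]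

def wt (A : ℕ → Bool) (a b : ℕ) : Fin 6 → ℕ :=
  ![q a, q b, p a, p b,
    if A (a + b) then q2 a * p b else p a * q2 b,
    if A (a + b - 1) then p2 a * q b else q a * p2 b]

noncomputable def Lop (A : ℕ → Bool) (g : ℕ × ℕ → ℝ) (a b : ℕ) : ℝ :=
  ∑ i, (wt A a b i : ℝ) * (g (nb A a b i) - g (a, b))

lemma lev (A : ℕ → Bool) (a b : ℕ) (i : Fin 6) (h : wt A a b i ≠ 0) :
    (nb A a b i).1 + (nb A a b i).2 = a + b + 1 ∨ (nb A a b i).1 + (nb A a b i).2 + 1 = a + b := by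
  fin_cases i <;> simp [nb, wt, p, p2, q, q2] at h ⊢ <;> (try split_ifs at h ⊢) <;> (try simp at h ⊢) <;> omega

lemma nb_ne (A : ℕ → Bool) (a b : ℕ) (i j : Fin 6) (hij : i ≠ j) (hi : wt A a b i ≠ 0)
    (hj : wt A a b j ≠ 0) : nb A a b i ≠ nb A a b j := by
  fin_cases i <;> fin_cases j <;> simp [nb, wt, p, p2, q, q2] at hij hi hj ⊢ <;>
    (try split_ifs at hi hj ⊢) <;> (try simp at hi hj ⊢) <;> omega

lemma wt_sum (A : ℕ → Bool) (a b : ℕ) : ∑ i, wt A a b i ≤ 26 := by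
  simp only [Fin.sum_univ_six, wt, p, p2, q, q2]
  simp
  split_ifs <;> omega

lemma Lop_add (A : ℕ → Bool) (f g : ℕ × ℕ → ℝ) (c d e : ℝ) (a b : ℕ) :
    Lop A (fun x => c * f x + d * g x + e) a b = c * Lop A f a b + d * Lop A g a b := by
  simp only [Lop, Finset.mul_sum, ← Finset.sum_add_distrib]
  exact Finset.sum_congr rfl fun i _ => by ring

/-- maximum principle on a slab -/
lemma mp (A : ℕ → Bool) (D : ℕ × ℕ → ℝ) (lo hi : ℕ)
    (hs : ∀ a b, lo ≤ a + b → a + b < hi → 0 ≤ Lop A D a b)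
    (h1 : ∀ a b, a + b = hi → D (a, b) ≤ 0) (h0 : ∀ a b, a + b + 1 = lo → D (a, b) ≤ 0) :
    ∀ a b, lo ≤ a + b + 1 → a + b ≤ hi → D (a, b) ≤ 0 := by
  classical
  intro a b ha hb
  set R : Finset (ℕ × ℕ) := (range (hi + 1) ×ˢ range (hi + 1)).filter
    (fun x => lo ≤ x.1 + x.2 + 1 ∧ x.1 + x.2 ≤ hi) with hR
  have mem : ∀ x : ℕ × ℕ, x ∈ R ↔ lo ≤ x.1 + x.2 + 1 ∧ x.1 + x.2 ≤ hi := by
    intro x; simp only [hR, mem_filter, mem_product, mem_range]; omega
  obtain ⟨x0, hx0, hm0⟩ := R.exists_max_image D ⟨(a, b), (mem _).2 ⟨ha, hb⟩⟩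
  obtain ⟨x, hx, hm⟩ := (R.filter (fun x => D x = D x0)).exists_max_image (fun x => x.1 + x.2)
    ⟨x0, mem_filter.2 ⟨hx0, rfl⟩⟩
  obtain ⟨hxR, hxD⟩ := mem_filter.1 hx
  have hxm := (mem _).1 hxR
  by_contra hc
  have hpos : 0 < D x := by
    have := hm0 (a, b) ((mem _).2 ⟨ha, hb⟩); linarith
  obtain ⟨a', b'⟩ := x
  simp only at hxm
  have e1 : a' + b' ≠ hi := fun e => by have := h1 a' b' e; linarith
  have e0 : a' + b' + 1 ≠ lo := fun e => by have := h0 a' b' e; linarith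
  have hL := hs a' b' (by omega) (by omega)
  have hle : ∀ i ∈ (univ : Finset (Fin 6)), (wt A a' b' i : ℝ) * (D (nb A a' b' i) - D (a', b')) ≤ 0 := by
    intro i _
    by_cases hw : wt A a' b' i = 0
    · simp [hw]
    · have := lev A a' b' i hw
      have h2 := hm0 (nb A a' b' i) ((mem _).2 (by omega))
      exact mul_nonpos_of_nonneg_of_nonpos (by positivity) (by linarith)
  have hz := (Finset.sum_eq_zero_iff_of_nonpos hle).1 (le_antisymm (Finset.sum_nonpos hle) hL) 0 (mem_univ _)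
  have hq : (wt A a' b' 0 : ℝ) ≠ 0 := by
    simp only [wt, q]; simp; split_ifs <;> norm_num
  have h3 : D (a' + 1, b') = D (a', b') := by
    have := (mul_eq_zero.1 hz).resolve_left hq
    simp only [nb] at this; simp at this; linarith
  have := hm (a' + 1, b') (mem_filter.2 ⟨(mem _).2 (by simp only; omega), by rw [h3, hxD]⟩)
  simp only at this; omega

lemma harn (A : ℕ → Bool) (G : ℕ × ℕ → ℝ) (h0 : ∀ x, 0 ≤ G x) (hs : ∀ a b, Lop A G a b ≤ 0)
    (a b : ℕ) (i : Fin 6) (hw : wt A a b i ≠ 0) : G (nb A a b i) ≤ 26 * G (a, b) := by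
  have h := hs a b
  simp only [Lop, mul_sub, Finset.sum_sub_distrib, ← Finset.sum_mul] at h
  have h1 : (wt A a b i : ℝ) * G (nb A a b i) ≤ ∑ j, (wt A a b j : ℝ) * G (nb A a b j) :=
    Finset.single_le_sum (f := fun j => (wt A a b j : ℝ) * G (nb A a b j))
      (fun j _ => mul_nonneg (by positivity) (h0 _)) (mem_univ i)
  have h2 : (∑ j, (wt A a b j : ℝ)) ≤ 26 := by exact_mod_cast wt_sum A a b
  have h3 : (1 : ℝ) ≤ wt A a b i := by exact_mod_cast Nat.one_le_iff_ne_zero.2 hw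
  nlinarith [h0 (a, b), h0 (nb A a b i)]

lemma harn2 (A : ℕ → Bool) (G : ℕ × ℕ → ℝ) (h0 : ∀ x, 0 ≤ G x) (hs : ∀ a b, Lop A G a b ≤ 0)
    (a : ℕ) : ∀ b, G (0, a + b) ≤ 676 ^ a * G (a, b) := by
  induction a with
  | zero => intro b; simp
  | succ a ih =>
    intro b
    have h1 := harn A G h0 hs (a + 1) b 2 (by simp [wt, p])
    have h2 := harn A G h0 hs a b 1 (by simp [wt, q]; split_ifs <;> simp)
    simp only [nb] at h1 h2; simp at h1 h2
    have h3 := ih (b + 1)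
    have e : a + 1 + b = a + (b + 1) := by ring
    rw [e, pow_succ]
    have : (0 : ℝ) ≤ 676 ^ a := by positivity
    nlinarith

noncomputable def fB (x : ℕ × ℕ) : ℝ := (5 / 4) ^ x.1 * (51 / 50) ^ x.2
noncomputable def fY (x : ℕ × ℕ) : ℝ := (51 / 50) ^ x.1 * (51 / 50) ^ x.2
noncomputable def fT (x : ℕ × ℕ) : ℝ := (3 / 4) ^ x.1 * (3 / 4) ^ x.2

lemma bar1 (A : ℕ → Bool) (a b : ℕ) (h1 : A (a + b) = false) (h2 : A (a + b - 1) = false) :
    Lop A (fun x => 1 * fB x + (-50) * fY x + 0) a b ≤ 0 := by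
  simp only [Lop, Fin.sum_univ_six, wt, nb, h1, h2, fB, fY]
  simp
  have u : ∀ n : ℕ, (0:ℝ) < (5 / 4) ^ n := fun n => by positivity
  have v : ∀ n : ℕ, (0:ℝ) < (51 / 50) ^ n := fun n => by positivity
  rcases a with _ | a <;> rcases b with _ | _ | b <;> simp [p, q, q2, p2, pow_succ] <;>
    first
    | nlinarith [mul_pos (u a) (v b), mul_pos (v a) (v b)]
    | nlinarith [u a, v a]
    | nlinarith [v b]
    | norm_num

lemma bar2 (A : ℕ → Bool) (a b : ℕ) (h1 : A (a + b) = false) (h2 : A (a + b - 1) = false) :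
    Lop A fT a b ≤ 0 := by
  simp only [Lop, Fin.sum_univ_six, wt, nb, h1, h2, fT]
  simp
  have v : ∀ n : ℕ, (0:ℝ) < (3 / 4) ^ n := fun n => by positivity
  rcases a with _ | a <;> rcases b with _ | _ | b <;> simp [p, q, q2, p2, pow_succ] <;>
    first
    | nlinarith [mul_pos (v a) (v b)]
    | nlinarith [v a]
    | nlinarith [v b]
    | norm_num

lemma key1 (A : ℕ → Bool) (G : ℕ × ℕ → ℝ) (h0 : ∀ x, 0 ≤ G x) (hs : ∀ a b, Lop A G a b ≤ 0)
    (lo L : ℕ) (hL : 12 * (lo + 3) ≤ L) (hA : ∀ u, lo ≤ u → u < L → A u = false) (η : ℝ)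
    (hη : 0 ≤ η) (hG : η ≤ G (0, L)) :
    ∀ a b, a + b ≤ lo + 3 → η / 676 ^ 27 / 4 ≤ G (a, b) := by
  set e : ℝ := η / 676 ^ 27 with he
  have he0 : 0 ≤ e := by positivity
  set ρ : ℝ := (125 / 102) ^ 27 with hρ
  have hρ1 : 204 ≤ ρ := by rw [hρ]; norm_num
  set Y : ℝ := (51 / 50) ^ L with hY
  have hY0 : 0 < Y := by positivity
  set Θ : ℝ := (3 / 4) ^ lo with hΘ
  have hΘ0 : 0 < Θ := by positivity
  set W : ℕ × ℕ → ℝ := fun x => (1 / (ρ * Y)) * (1 * fB x + (-50) * fY x + 0) + (1 / Θ) * fT x + 50 / ρ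
    with hW
  have hWs : ∀ a b, lo + 1 ≤ a + b → a + b < L → Lop A W a b ≤ 0 := by
    intro a b h1 h2
    rw [hW, Lop_add A (fun x => 1 * fB x + (-50) * fY x + 0) fT]
    have b1 := bar1 A a b (hA _ (by omega) h2) (hA _ (by omega) (by omega))
    have b2 := bar2 A a b (hA _ (by omega) h2) (hA _ (by omega) (by omega))
    have : 0 < 1 / (ρ * Y) := by positivity
    have : 0 < 1 / Θ := by positivity
    nlinarith
  have hYle : ∀ a b, a + b ≤ L → fY (a, b) ≤ Y := by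
    intro a b h
    simp only [fY, hY, ← pow_add]
    exact pow_le_pow_right₀ (by norm_num) h
  have hWeq : ∀ x, W x = fB x / (ρ * Y) + 50 * (Y - fY x) / (ρ * Y) + fT x / Θ := by
    intro x; simp only [hW]; field_simp; ring
  have hBpos : ∀ x, 0 < fB x := fun x => by simp only [fB]; positivity
  have hTpos : ∀ x, 0 < fT x := fun x => by simp only [fT]; positivity
  have hW0 : ∀ a b, a + b ≤ L → fB (a, b) / (ρ * Y) + fT (a, b) / Θ ≤ W (a, b) := by
    intro a b h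
    have := hYle a b h
    rw [hWeq]
    have : 0 ≤ 50 * (Y - fY (a, b)) / (ρ * Y) := by
      apply div_nonneg (by linarith) (by positivity)
    linarith
  have slab := mp A (fun x => (-e) * W x + (-1) * G x + e) (lo + 1) L
    (by
      intro a b h1 h2
      rw [Lop_add]
      have := hWs a b h1 h2
      have := hs a b
      nlinarith)
    (by
      intro a b h
      have h1 := hW0 a b h.le
      have t1 : 0 ≤ fB (a, b) / (ρ * Y) := (div_pos (hBpos _) (by positivity)).le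
      have t2 : 0 ≤ fT (a, b) / Θ := (div_pos (hTpos _) hΘ0).le
      by_cases ha : a ≤ 27
      · have h2 := harn2 A G h0 hs a b
        rw [h] at h2
        have h3 : (676 : ℝ) ^ a ≤ 676 ^ 27 := pow_le_pow_right₀ (by norm_num) ha
        have h4 : e ≤ G (a, b) := by
          rw [he, div_le_iff₀ (by positivity)]
          nlinarith [h0 (a, b)]
        nlinarith
      · have h2 : 1 ≤ fB (a, b) / (ρ * Y) := by
          rw [le_div_iff₀ (by positivity), one_mul, hY, ← h, pow_add, fB, ← mul_assoc]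
          apply mul_le_mul_of_nonneg_right _ (by positivity)
          have : ((5 : ℝ) / 4) ^ a = (125 / 102) ^ a * (51 / 50) ^ a := by
            rw [← mul_pow]; norm_num
          rw [this]
          apply mul_le_mul_of_nonneg_right _ (by positivity)
          exact pow_le_pow_right₀ (by norm_num) (by omega)
        nlinarith [h0 (a, b)])
    (by
      intro a b h
      have h1 := hW0 a b (by omega)
      have t1 : 0 ≤ fB (a, b) / (ρ * Y) := (div_pos (hBpos _) (by positivity)).le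
      have t2 : fT (a, b) / Θ = 1 := by
        rw [div_eq_one_iff_eq hΘ0.ne', fT, hΘ, ← pow_add]; congr 1; simp only; omega
      nlinarith [h0 (a, b)])
  have lvl : ∀ a b, a + b = lo + 3 → e / 4 ≤ G (a, b) := by
    intro a b h
    have h1 := slab a b (by omega) (by omega)
    have h2 : W (a, b) ≤ 3 / 4 := by
      rw [hWeq]
      have t1 : fB (a, b) ≤ Y := by
        have s1 : ((51 : ℝ) / 50) ^ b ≤ (5 / 4) ^ b := pow_le_pow_left₀ (by norm_num) (by norm_num) b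
        have s2 : ((5 : ℝ) / 4) ^ (lo + 3) ≤ ((51 / 50) ^ 12) ^ (lo + 3) :=
          pow_le_pow_left₀ (by norm_num) (by norm_num) _
        have s3 : (((51 : ℝ) / 50) ^ 12) ^ (lo + 3) ≤ Y := by
          rw [← pow_mul]; exact pow_le_pow_right₀ (by norm_num) hL
        have s4 : fB (a, b) ≤ (5 / 4) ^ (lo + 3) := by
          rw [← h, pow_add, fB]; exact mul_le_mul_of_nonneg_left s1 (by positivity)
        linarith
      have t2 : fT (a, b) / Θ = 27 / 64 := by
        rw [div_eq_iff hΘ0.ne', fT, hΘ, ← pow_add]; simp only; rw [h, pow_add]; ring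
      have t3 : 0 < fY (a, b) := by simp only [fY]; positivity
      have t4 : fB (a, b) / (ρ * Y) + 50 * (Y - fY (a, b)) / (ρ * Y) ≤ 1 / 4 := by
        rw [← add_div, div_le_iff₀ (by positivity)]
        nlinarith
      linarith
    nlinarith
  intro a b h
  have := mp A (fun x => 0 * G x + (-1) * G x + e / 4) 0 (lo + 3)
    (by intro a b _ _; rw [Lop_add]; have := hs a b; linarith)
    (by intro a b h; have := lvl a b h; linarith)
    (by intro a b h; omega) a b (by omega) h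
  linarith

def Long (A : ℕ → Bool) (lo L : ℕ) : Prop := 12 * (lo + 3) ≤ L ∧ ∀ u, lo ≤ u → u < L → A u = false

lemma key2 (A : ℕ → Bool) (g : ℕ × ℕ → ℝ) (M : ℝ) (hM : ∀ x, g x ≤ M) (hs : ∀ a b, 0 ≤ Lop A g a b)
    (t : ℝ) (ht : ∀ n, ∃ lo L, n ≤ lo ∧ Long A lo L ∧ g (0, L) ≤ t) : ∀ x, g x ≤ t := by
  have hb : BddAbove (Set.range g) := ⟨M, by rintro _ ⟨x, rfl⟩; exact hM x⟩
  set S := ⨆ x, g x with hS
  have hle : ∀ x, g x ≤ S := fun x => le_ciSup hb x
  by_contra hc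
  push Not at hc
  obtain ⟨x0, hx0⟩ := hc
  have hη : 0 < S - t := by linarith [hle x0]
  have : S ≤ S - (S - t) / 676 ^ 27 / 4 := by
    apply ciSup_le
    rintro ⟨a, b⟩
    obtain ⟨lo, L, h1, h2, h3⟩ := ht (a + b)
    have := key1 A (fun x => 0 * g x + (-1) * g x + S) (fun x => by linarith [hle x])
      (fun a b => by rw [Lop_add]; linarith [hs a b]) lo L h2.1 h2.2 (S - t) hη.le (by linarith) a b
      (by omega)
    linarith
  have : 0 < (S - t) / 676 ^ 27 / 4 := by positivity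
  linarith

lemma key3 (A : ℕ → Bool) (f : ℕ × ℕ → ℝ) (M : ℝ) (hM : ∀ x, |f x| ≤ M)
    (hs : ∀ a b, Lop A f a b = 0) (hl : ∀ n, ∃ lo L, n ≤ lo ∧ Long A lo L) (x y : ℕ × ℕ) :
    f x ≤ f y := by
  by_contra hc
  push Not at hc
  by_cases h : ∀ n, ∃ lo L, n ≤ lo ∧ Long A lo L ∧ f (0, L) ≤ (f x + f y) / 2
  · have := key2 A f M (fun x => (abs_le.1 (hM x)).2) (fun a b => (hs a b).ge) _ h x
    linarith
  · push Not at h
    obtain ⟨n0, hn0⟩ := h
    have := key2 A (fun z => 0 * f z + (-1) * f z + 0) M (fun z => by linarith [(abs_le.1 (hM z)).1])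
      (fun a b => by rw [Lop_add, hs]; simp) (-((f x + f y) / 2)) (fun n => by
        obtain ⟨lo, L, h1, h2⟩ := hl (n + n0)
        exact ⟨lo, L, by omega, h2, by have := hn0 lo L (by omega) h2; linarith⟩) y
    linarith

def A0 (u : ℕ) : Bool := decide (Nat.log 48 u % 2 = 0)

lemma long0 (r : ℕ) (n : ℕ) : ∃ lo L, n ≤ lo ∧ 12 * (lo + 3) ≤ L ∧
    ∀ u, lo ≤ u → u < L → Nat.log 48 u = 2 * n + r := by
  refine ⟨48 ^ (2 * n + r), 48 ^ (2 * n + r + 1), ?_, ?_, fun u h1 h2 => Nat.log_eq_of_pow_le_of_lt_pow h1 h2⟩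
  · have := Nat.lt_pow_self (n := 2 * n + r) (show 1 < 48 by norm_num); omega
  · have := Nat.one_le_pow (2 * n + r) 48 (by norm_num)
    rw [pow_succ]; omega

lemma longA (n : ℕ) : ∃ lo L, n ≤ lo ∧ Long A0 lo L := by
  obtain ⟨lo, L, h1, h2, h3⟩ := long0 1 n
  exact ⟨lo, L, h1, h2, fun u a b => by simp [A0, h3 u a b, Nat.add_mod]⟩

lemma longB (n : ℕ) : ∃ lo L, n ≤ lo ∧ Long (fun u => !A0 u) lo L := by
  obtain ⟨lo, L, h1, h2, h3⟩ := long0 0 n
  exact ⟨lo, L, h1, h2, fun u a b => by simp [A0, h3 u a b]⟩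

end Pool.Agent.H43.Lv1
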