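import Pool.Agent.H43.Lv1

set_option autoImplicit false

namespace Pool.Agent.H43.Lv2

open Finset Pool.Agent.H43.Lv1

abbrev F := FreeGroup (Fin 2)
abbrev Lt := Fin 2 × Bool

def e (x : Lt) : F := FreeGroup.mk [x]
def bar (x : Lt) : Lt := (x.1, !x.2)

lemma e_inv (x : Lt) : (e x)⁻¹ = e (bar x) := by
  simp [e, bar, FreeGroup.inv_mk, FreeGroup.invRev]

lemma bar_bar (x : Lt) : bar (bar x) = x := by simp [bar]

lemma e_inj : Function.Injective e := by
  intro x y h
  have := congrArg FreeGroup.toWord h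
  simpa [e, FreeGroup.toWord_mk] using this

lemma treeL (w : F) : (w.norm = 0 ∧ ∀ x, (e x * w).norm = w.norm + 1) ∨
    ∃ x0, (e x0 * w).norm + 1 = w.norm ∧ ∀ x, x ≠ x0 → (e x * w).norm = w.norm + 1 := by
  have key : ∀ x, (e x * w).toWord = FreeGroup.reduce (x :: w.toWord) := by
    intro x
    conv_lhs => rw [← FreeGroup.mk_toWord (x := w)]
    rw [e, FreeGroup.mul_mk, FreeGroup.toWord_mk]; rfl
  simp only [FreeGroup.norm, key, FreeGroup.reduce.cons, FreeGroup.reduce_toWord]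
  rcases w.toWord with _ | ⟨hd, tl⟩
  · left; simp
  · right
    refine ⟨bar hd, by simp [bar], fun x hx => ?_⟩
    have : ¬ (x.1 = hd.1 ∧ x.2 = !hd.2) := fun h => hx (Prod.ext h.1 h.2)
    simp [this]

lemma treeR (w : F) : (w.norm = 0 ∧ ∀ x, (w * e x).norm = w.norm + 1) ∨
    ∃ x0, (w * e x0).norm + 1 = w.norm ∧ ∀ x, x ≠ x0 → (w * e x).norm = w.norm + 1 := by
  have key : ∀ x, (w * e x).norm = (e (bar x) * w⁻¹).norm := by
    intro x; rw [← e_inv, ← mul_inv_rev, FreeGroup.norm_inv_eq]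
  rcases treeL w⁻¹ with ⟨h0, h⟩ | ⟨x0, h0, h⟩
  · left; simp only [FreeGroup.norm_inv_eq] at h0 h
    exact ⟨h0, fun x => by rw [key, h]⟩
  · right; simp only [FreeGroup.norm_inv_eq] at h0 h
    refine ⟨bar x0, by rw [key, bar_bar, h0], fun x hx => ?_⟩
    rw [key, h]
    intro h2; exact hx (by rw [← h2, bar_bar])

def ch (w : F) : Finset F := (univ.filter (fun x => (w * e x).norm = w.norm + 1)).image (fun x => w * e x)
def pa (w : F) : Finset F := (univ.filter (fun x => (w * e x).norm + 1 = w.norm)).image (fun x => w * e x)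
def gch (w : F) : Finset F := (ch w).biUnion ch
def gpa (w : F) : Finset F := (pa w).biUnion pa

lemma mem_ch {v w : F} : v ∈ ch w ↔ ∃ x, v = w * e x ∧ v.norm = w.norm + 1 := by
  simp only [ch, mem_image, mem_filter, mem_univ, true_and]
  constructor
  · rintro ⟨x, h, rfl⟩; exact ⟨x, rfl, h⟩
  · rintro ⟨x, rfl, h⟩; exact ⟨x, h, rfl⟩

lemma mem_pa {v w : F} : v ∈ pa w ↔ ∃ x, v = w * e x ∧ v.norm + 1 = w.norm := by
  simp only [pa, mem_image, mem_filter, mem_univ, true_and]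
  constructor
  · rintro ⟨x, h, rfl⟩; exact ⟨x, rfl, h⟩
  · rintro ⟨x, rfl, h⟩; exact ⟨x, h, rfl⟩

lemma ch_pa {v w : F} : v ∈ ch w ↔ w ∈ pa v := by
  rw [mem_ch, mem_pa]
  constructor
  · rintro ⟨x, rfl, h⟩; exact ⟨bar x, by rw [← e_inv]; simp, h.symm⟩
  · rintro ⟨x, rfl, h⟩; exact ⟨bar x, by rw [← e_inv]; simp, h.symm⟩

lemma gch_gpa {v w : F} : v ∈ gch w ↔ w ∈ gpa v := by
  simp only [gch, gpa, mem_biUnion]
  constructor
  · rintro ⟨c, h1, h2⟩; exact ⟨c, ch_pa.1 h2, ch_pa.1 h1⟩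
  · rintro ⟨c, h1, h2⟩; exact ⟨c, ch_pa.2 h2, ch_pa.2 h1⟩

lemma len_ch {v w : F} (h : v ∈ ch w) : v.norm = w.norm + 1 := (mem_ch.1 h).choose_spec.2
lemma len_pa {v w : F} (h : v ∈ pa w) : v.norm + 1 = w.norm := (mem_pa.1 h).choose_spec.2
lemma len_gch {v w : F} (h : v ∈ gch w) : v.norm = w.norm + 2 := by
  obtain ⟨c, h1, h2⟩ := mem_biUnion.1 h
  rw [len_ch h2, len_ch h1]
lemma len_gpa {v w : F} (h : v ∈ gpa w) : v.norm + 2 = w.norm := by
  have := len_gch (gch_gpa.2 h); omega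

lemma mul_inj (w : F) : Function.Injective (fun x => w * e x) := fun _ _ h => e_inj (mul_left_cancel h)

lemma card_ch (w : F) : (ch w).card = q w.norm := by
  rw [ch, card_image_of_injective _ (mul_inj w)]
  rcases treeR w with ⟨h0, h⟩ | ⟨x0, h0, h⟩
  · rw [filter_true_of_mem (fun x _ => h x)]; simp [q, h0]
  · have : univ.filter (fun x => (w * e x).norm = w.norm + 1) = univ.erase x0 := by
      ext x; simp only [mem_filter, mem_univ, true_and, mem_erase, and_true]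
      exact ⟨fun h1 h2 => by subst h2; omega, h x⟩
    rw [this, card_erase_of_mem (mem_univ _)]
    have : w.norm ≠ 0 := by omega
    simp [q, this]

lemma card_pa (w : F) : (pa w).card = p w.norm := by
  rw [pa, card_image_of_injective _ (mul_inj w)]
  rcases treeR w with ⟨h0, h⟩ | ⟨x0, h0, h⟩
  · rw [filter_false_of_mem (fun x _ => by omega)]; simp [p, h0]
  · have : univ.filter (fun x => (w * e x).norm + 1 = w.norm) = {x0} := by
      ext x; simp only [mem_filter, mem_univ, true_and, mem_singleton]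
      exact ⟨fun h1 => by by_contra h2; have := h x h2; omega, fun h1 => h1 ▸ h0⟩
    rw [this]
    have : w.norm ≠ 0 := by omega
    simp [p, this]

lemma pa_uniq {c v v' : F} (h : c ∈ ch v) (h' : c ∈ ch v') : v = v' := by
  have : (pa c).card ≤ 1 := by rw [card_pa, p]; split_ifs <;> omega
  exact card_le_one.1 this _ (ch_pa.1 h) _ (ch_pa.1 h')

lemma card_gch (w : F) : (gch w).card = q2 w.norm := by
  rw [gch, card_biUnion]
  · rw [sum_congr rfl (g := fun _ => 3) (fun c hc => by rw [card_ch, len_ch hc]; simp [q])]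
    simp only [sum_const, card_ch, q, q2]; split_ifs <;> rfl
  · intro a _ b _ hab
    exact disjoint_left.2 fun c h1 h2 => hab (pa_uniq h1 h2)

lemma card_gpa (w : F) : (gpa w).card = p2 w.norm := by
  have h := card_pa w
  rw [p] at h
  split_ifs at h with h0
  · rw [gpa, card_eq_zero.1 h]; simp [p2, h0]
  · obtain ⟨v, hv⟩ := card_eq_one.1 h
    have := len_pa (v := v) (w := w) (by rw [hv]; simp)
    rw [gpa, hv, singleton_biUnion, card_pa, p, p2]
    split_ifs <;> omega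

attribute [irreducible] ch pa gch gpa

lemma ex_len (n : ℕ) : ∃ w : F, w.norm = n := ⟨FreeGroup.of 0 ^ n, FreeGroup.norm_of_pow _ _⟩

def X (A : ℕ → Bool) (u : ℕ) (w : F) : Fin 6 → Finset F :=
  ![ch w, {w}, pa w, {w}, if A u then gch w else pa w, if A (u - 1) then gpa w else ch w]
def Y (A : ℕ → Bool) (u : ℕ) (w : F) : Fin 6 → Finset F :=
  ![{w}, ch w, {w}, pa w, if A u then pa w else gch w, if A (u - 1) then ch w else gpa w]

def P (A : ℕ → Bool) (w : F × F) (i : Fin 6) : Finset (F × F) :=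
  X A (w.1.norm + w.2.norm) w.1 i ×ˢ Y A (w.1.norm + w.2.norm) w.2 i

lemma card_XY (A : ℕ → Bool) (w1 w2 : F) (i : Fin 6) :
    (X A (w1.norm + w2.norm) w1 i).card * (Y A (w1.norm + w2.norm) w2 i).card =
      wt A w1.norm w2.norm i := by
  fin_cases i <;> simp [X, Y, wt, card_ch, card_pa] <;> split_ifs <;>
    simp [card_ch, card_pa, card_gch, card_gpa]

lemma card_X (A : ℕ → Bool) (u : ℕ) (w w' : F) (h : w.norm = w'.norm) (i : Fin 6) :
    (X A u w i).card = (X A u w' i).card := by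
  fin_cases i <;> simp [X, card_ch, card_pa, h] <;> split_ifs <;>
    simp [card_ch, card_pa, card_gch, card_gpa, h]

lemma len_X (A : ℕ → Bool) (w v : F) (b : ℕ) (i : Fin 6) (h : v ∈ X A (w.norm + b) w i) :
    v.norm = (nb A w.norm b i).1 := by
  fin_cases i <;> simp [X, nb] at h ⊢ <;> (try split_ifs at h ⊢) <;>
    first
    | (subst h; rfl)
    | (have := len_ch h; omega)
    | (have := len_pa h; omega)
    | (have := len_gch h; omega)
    | (have := len_gpa h; omega)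

lemma len_Y (A : ℕ → Bool) (w v : F) (a : ℕ) (i : Fin 6) (h : v ∈ Y A (a + w.norm) w i) :
    v.norm = (nb A a w.norm i).2 := by
  fin_cases i <;> simp [Y, nb] at h ⊢ <;> (try split_ifs at h ⊢) <;>
    first
    | (subst h; rfl)
    | (have := len_ch h; omega)
    | (have := len_pa h; omega)
    | (have := len_gch h; omega)
    | (have := len_gpa h; omega)

lemma card_P (A : ℕ → Bool) (w : F × F) (i : Fin 6) : (P A w i).card = wt A w.1.norm w.2.norm i := by
  rw [P, card_product, card_XY]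

lemma len_P (A : ℕ → Bool) (w v : F × F) (i : Fin 6) (h : v ∈ P A w i) :
    (v.1.norm, v.2.norm) = nb A w.1.norm w.2.norm i ∧ wt A w.1.norm w.2.norm i ≠ 0 := by
  refine ⟨Prod.ext (len_X A _ _ _ i (mem_product.1 h).1) (len_Y A _ _ _ i (mem_product.1 h).2), ?_⟩
  rw [← card_P]; exact card_ne_zero.2 ⟨v, h⟩

def NB (A : ℕ → Bool) (w : F × F) : Finset (F × F) := univ.biUnion (P A w)

lemma disj (A : ℕ → Bool) (w : F × F) :
    ((univ : Finset (Fin 6)) : Set (Fin 6)).PairwiseDisjoint (P A w) := by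
  intro i _ j _ hij
  refine disjoint_left.2 fun v h1 h2 => ?_
  obtain ⟨a1, a2⟩ := len_P A w v i h1
  obtain ⟨b1, b2⟩ := len_P A w v j h2
  exact nb_ne A _ _ i j hij a2 b2 (a1.symm.trans b1)

lemma mem_NB (A : ℕ → Bool) (w v : F × F) : v ∈ NB A w ↔
    (v.1 ∈ ch w.1 ∧ v.2 = w.2) ∨ (v.1 = w.1 ∧ v.2 ∈ ch w.2) ∨ (w.1 ∈ ch v.1 ∧ v.2 = w.2) ∨
    (v.1 = w.1 ∧ w.2 ∈ ch v.2) ∨
    (A (w.1.norm + w.2.norm) = true ∧ v.1 ∈ gch w.1 ∧ w.2 ∈ ch v.2) ∨
    (A (w.1.norm + w.2.norm) = false ∧ w.1 ∈ ch v.1 ∧ v.2 ∈ gch w.2) ∨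
    (A (w.1.norm + w.2.norm - 1) = true ∧ w.1 ∈ gch v.1 ∧ v.2 ∈ ch w.2) ∨
    (A (w.1.norm + w.2.norm - 1) = false ∧ v.1 ∈ ch w.1 ∧ w.2 ∈ gch v.2) := by
  simp only [NB, mem_biUnion, mem_univ, true_and, Fin.exists_fin_succ, P, mem_product, X, Y]
  cases A (w.1.norm + w.2.norm) <;> cases A (w.1.norm + w.2.norm - 1) <;>
    simp [← ch_pa, ← gch_gpa]

lemma NB_symm (A : ℕ → Bool) (w v : F × F) (h : v ∈ NB A w) : w ∈ NB A v := by
  rw [mem_NB] at h ⊢
  rcases h with h | h | h | h | h | h | h | h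
  · exact .inr (.inr (.inl ⟨h.1, h.2.symm⟩))
  · exact .inr (.inr (.inr (.inl ⟨h.1.symm, h.2⟩)))
  · exact .inl ⟨h.1, h.2.symm⟩
  · exact .inr (.inl ⟨h.1.symm, h.2⟩)
  · have := len_gch h.2.1; have := len_ch h.2.2
    refine .inr (.inr (.inr (.inr (.inr (.inr (.inl ⟨?_, h.2⟩))))))
    rw [← h.1]; congr 1; omega
  · have := len_gch h.2.2; have := len_ch h.2.1
    refine .inr (.inr (.inr (.inr (.inr (.inr (.inr ⟨?_, h.2⟩))))))
    rw [← h.1]; congr 1; omega
  · have := len_gch h.2.1; have := len_ch h.2.2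
    refine .inr (.inr (.inr (.inr (.inl ⟨?_, h.2⟩))))
    rw [← h.1]; congr 1; omega
  · have := len_gch h.2.2; have := len_ch h.2.1
    refine .inr (.inr (.inr (.inr (.inr (.inl ⟨?_, h.2⟩)))))
    rw [← h.1]; congr 1; omega

lemma NB_irrefl (A : ℕ → Bool) (w : F × F) : w ∉ NB A w := by
  intro h
  obtain ⟨i, _, hi⟩ := mem_biUnion.1 h
  obtain ⟨h1, h2⟩ := len_P A w w i hi
  have := lev A _ _ i h2
  rw [← h1] at this
  simp only at this; omega

lemma NB_swap (A : ℕ → Bool) (w v : F × F) :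
    v ∈ NB (fun u => !A u) w ↔ v.swap ∈ NB A w.swap := by
  simp only [mem_NB, Prod.fst_swap, Prod.snd_swap, add_comm w.2.norm w.1.norm, Bool.not_eq_true',
    Bool.not_eq_false']
  constructor <;> rintro (h | h | h | h | h | h | h | h) <;> simp [h.1, h.2]

def Harm (A : ℕ → Bool) (h : F × F → ℝ) : Prop := ∀ w, ((NB A w).card : ℝ) * h w = ∑ v ∈ NB A w, h v

lemma harm_swap (A : ℕ → Bool) (h : F × F → ℝ) (H : Harm A h) :
    Harm (fun u => !A u) (fun w => h w.swap) := by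
  intro w
  have e1 : NB (fun u => !A u) w = (NB A w.swap).map (Equiv.prodComm F F).toEmbedding := by
    ext v; rw [NB_swap, mem_map_equiv]; rfl
  rw [e1, card_map, sum_map]
  exact H w.swap

lemma harm_eq (A : ℕ → Bool) (h : F × F → ℝ) (H : Harm A h) (w : F × F) :
    (∑ i, (wt A w.1.norm w.2.norm i : ℝ)) * h w = ∑ i, ∑ v ∈ P A w i, h v := by
  have := H w
  rw [NB, card_biUnion (disj A w), sum_biUnion (disj A w)] at this
  simpa [card_P] using this

lemma cmp (h : F × F → ℝ) (s s' t : Finset F) (hc : s.card = s'.card) (M : ℝ)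
    (hM : ∀ v ∈ s, ∀ v' ∈ s', ∀ z ∈ t, h (v, z) - h (v', z) ≤ M) :
    ∑ v ∈ s ×ˢ t, h v - ∑ v ∈ s' ×ˢ t, h v ≤ ((s.card * t.card : ℕ) : ℝ) * M := by
  let φ := Finset.equivOfCardEq hc
  rw [sum_product, sum_product, ← sum_coe_sort s, ← sum_coe_sort s',
    ← φ.sum_comp (fun v : s' => ∑ z ∈ t, h (v, z)), ← sum_sub_distrib]
  calc _ ≤ ∑ _v : s, (t.card : ℝ) * M := by
        apply sum_le_sum
        intro v _
        rw [← sum_sub_distrib]
        have := sum_le_card_nsmul t (fun z => h (v, z) - h (φ v, z)) M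
          (fun z hz => hM v v.2 (φ v) (φ v).2 z hz)
        simpa using this
    _ = _ := by simp [mul_assoc]

lemma first (A : ℕ → Bool) (h : F × F → ℝ) (M : ℝ) (hM : ∀ x, |h x| ≤ M) (H : Harm A h)
    (hl : ∀ n, ∃ lo L, n ≤ lo ∧ Long A lo L) (w1 w1' w2 : F) (hw : w1.norm = w1'.norm) :
    h (w1, w2) = h (w1', w2) := by
  let T : ℕ × ℕ → Set ℝ := fun x => {d | ∃ v v' z : F, v.norm = x.1 ∧ v'.norm = x.1 ∧ z.norm = x.2 ∧
    d = h (v, z) - h (v', z)}
  have hb : ∀ x, ∀ d ∈ T x, d ≤ 2 * M := by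
    rintro x _ ⟨v, v', z, -, -, -, rfl⟩
    linarith [(abs_le.1 (hM (v, z))).2, (abs_le.1 (hM (v', z))).1]
  have hne : ∀ x, (T x).Nonempty := by
    intro x
    obtain ⟨v, hv⟩ := ex_len x.1
    obtain ⟨z, hz⟩ := ex_len x.2
    exact ⟨_, v, v, z, hv, hv, hz, rfl⟩
  let g : ℕ × ℕ → ℝ := fun x => sSup (T x)
  have hg : ∀ (v v' z : F) (x : ℕ × ℕ), v.norm = x.1 → v'.norm = x.1 → z.norm = x.2 →
      h (v, z) - h (v', z) ≤ g x := fun v v' z x a b c =>
    le_csSup ⟨_, hb x⟩ ⟨v, v', z, a, b, c, rfl⟩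
  have hs : ∀ a b, 0 ≤ Lop A g a b := by
    intro a b
    have hpos : (0 : ℝ) < ∑ i, (wt A a b i : ℝ) := by
      have : 0 < ∑ i, wt A a b i := by
        simp only [Fin.sum_univ_six, wt, q]; simp; split_ifs <;> simp
      exact_mod_cast this
    have : g (a, b) ≤ (∑ i, (wt A a b i : ℝ) * g (nb A a b i)) / ∑ i, (wt A a b i : ℝ) := by
      apply csSup_le (hne _)
      rintro _ ⟨v, v', z, rfl, h2, rfl, rfl⟩
      simp only at h2
      rw [le_div_iff₀ hpos]
      have e1 := harm_eq A h H (v, z)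
      have e2 := harm_eq A h H (v', z)
      simp only [h2, P] at e1 e2
      rw [mul_comm, mul_sub, e1, e2, ← sum_sub_distrib]
      apply sum_le_sum
      intro i _
      rw [← card_XY]
      apply cmp h _ _ _ (card_X A _ _ _ h2.symm i)
      intro y hy y' hy' c hc
      apply hg _ _ _ _ (len_X A _ _ _ i hy) _ (len_Y A _ _ _ i hc)
      rw [← h2] at hy' ⊢
      exact len_X A _ _ _ i hy'
    rw [le_div_iff₀ hpos] at this
    simp only [Lop, mul_sub, sum_sub_distrib, ← sum_mul]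
    linarith
  have hk := key2 A g (2 * M) (fun x => csSup_le (hne x) (hb x)) hs 0 (fun n => by
    obtain ⟨lo, L, h1, h2⟩ := hl n
    refine ⟨lo, L, h1, h2, csSup_le (hne _) ?_⟩
    rintro _ ⟨v, v', z, a, b, -, rfl⟩
    rw [FreeGroup.norm_eq_zero.1 a, FreeGroup.norm_eq_zero.1 b]; simp)
  have a1 := (hg w1 w1' w2 (w1.norm, w2.norm) rfl hw.symm rfl).trans (hk _)
  have a2 := (hg w1' w1 w2 (w1.norm, w2.norm) hw.symm rfl rfl).trans (hk _)
  linarith

lemma liouville (h : F × F → ℝ) (M : ℝ) (hM : ∀ x, |h x| ≤ M) (H : Harm A0 h) (x y : F × F) :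
    h x = h y := by
  have f1 := first A0 h M hM H longA
  have f2 := first _ (fun w => h w.swap) M (fun x => hM _) (harm_swap A0 h H) longB
  simp only [Prod.swap_prod_mk] at f2
  choose r hr using ex_len
  let f : ℕ × ℕ → ℝ := fun x => h (r x.1, r x.2)
  have hf : ∀ v : F × F, h v = f (v.1.norm, v.2.norm) := by
    rintro ⟨v1, v2⟩
    exact (f1 _ _ _ (hr _).symm).trans (f2 _ _ _ (hr _).symm)
  have hs : ∀ a b, Lop A0 f a b = 0 := by
    intro a b
    have e1 := harm_eq A0 h H (r a, r b)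
    have e2 : ∀ i, ∑ v ∈ P A0 (r a, r b) i, h v = (wt A0 a b i : ℝ) * f (nb A0 a b i) := by
      intro i
      rw [sum_congr rfl (g := fun _ => f (nb A0 a b i)) (fun v hv => by
        rw [hf v, (len_P _ _ _ _ hv).1]; simp only [hr])]
      simp [card_P, hr]
    simp only [e2, hr] at e1
    simp only [Lop, mul_sub, sum_sub_distrib, ← sum_mul]
    linarith
  have k := key3 A0 f M (fun x => hM _) hs longA
  rw [hf x, hf y]
  exact le_antisymm (k _ _) (k _ _)

end Pool.Agent.H43.Lv2
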