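import Pool.Agent.H43.Lv2

set_option autoImplicit false

namespace Pool.Agent.H43.Lv3

open Finset Pool.Agent.H43.Lv1 Pool.Agent.H43.Lv2

def GG : SimpleGraph (F × F) where
  Adj w v := v ∈ NB A0 w
  symm := ⟨fun w v h => NB_symm A0 w v h⟩
  loopless := ⟨fun w h => NB_irrefl A0 w h⟩

noncomputable instance : GG.LocallyFinite := fun w =>
  Fintype.ofFinset (NB A0 w) (fun _ => Iff.rfl)

lemma nbr (w : F × F) : GG.neighborFinset w = NB A0 w := by
  ext v; rw [SimpleGraph.mem_neighborFinset]; rfl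

lemma bdd : ∃ D : ℕ, ∀ v, GG.degree v ≤ D := by
  refine ⟨26, fun v => ?_⟩
  rw [← SimpleGraph.card_neighborFinset_eq_degree, nbr, NB, card_biUnion (disj A0 v)]
  simp only [card_P]
  exact wt_sum _ _ _

def SS : Finset (F × F) :=
  (univ.image fun x : Lt => (e x, (1 : F))) ∪ (univ.image fun x : Lt => ((1 : F), e x))

lemma mem_SS {s : F × F} : s ∈ SS ↔ ∃ x, s = (e x, 1) ∨ s = (1, e x) := by
  simp only [SS, mem_union, mem_image, mem_univ, true_and]
  constructor
  · rintro (⟨x, rfl⟩ | ⟨x, rfl⟩)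
    · exact ⟨x, .inl rfl⟩
    · exact ⟨x, .inr rfl⟩
  · rintro ⟨x, rfl | rfl⟩
    · exact .inl ⟨x, rfl⟩
    · exact .inr ⟨x, rfl⟩

lemma clos : Subgroup.closure (SS : Set (F × F)) = ⊤ := by
  rw [Subgroup.eq_top_iff']
  rintro ⟨a, b⟩
  have h1 : ∀ a : F, (a, (1 : F)) ∈ Subgroup.closure (SS : Set (F × F)) := by
    intro a
    induction a using FreeGroup.induction_on with
    | C1 => exact Subgroup.one_mem _
    | of x => exact Subgroup.subset_closure (mem_SS.2 ⟨(x, true), .inl rfl⟩)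
    | inv_of x h => simpa using Subgroup.inv_mem _ h
    | mul x y hx hy => simpa using Subgroup.mul_mem _ hx hy
  have h2 : ∀ a : F, ((1 : F), a) ∈ Subgroup.closure (SS : Set (F × F)) := by
    intro a
    induction a using FreeGroup.induction_on with
    | C1 => exact Subgroup.one_mem _
    | of x => exact Subgroup.subset_closure (mem_SS.2 ⟨(x, true), .inr rfl⟩)
    | inv_of x h => simpa using Subgroup.inv_mem _ h
    | mul x y hx hy => simpa using Subgroup.mul_mem _ hx hy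
  simpa using Subgroup.mul_mem _ (h1 a) (h2 b)

lemma nonam : ∃ ε : ℝ, 0 < ε ∧ ∀ K : Finset (F × F), K.Nonempty → ε * (K.card : ℝ) ≤
    (((K.biUnion (fun x => SS.image (fun s => x * s) ∪ SS.image (fun s => x * s⁻¹))) \ K).card : ℝ) := by
  refine ⟨2, by norm_num, fun K _ => ?_⟩
  set C := K.biUnion (fun x => ch x.1 ×ˢ {x.2}) with hC
  have h1 : 3 * K.card ≤ C.card := by
    rw [hC, card_biUnion]
    · rw [mul_comm, ← smul_eq_mul]
      apply card_nsmul_le_sum
      intro x _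
      rw [card_product, card_ch, q]; split_ifs <;> simp
    · intro a _ b _ hab
      refine disjoint_left.2 fun c h1 h2 => hab ?_
      simp only [mem_product, mem_singleton] at h1 h2
      exact Prod.ext (pa_uniq h1.1 h2.1) (h1.2.symm.trans h2.2)
  have h2 : C ⊆ K.biUnion (fun x => SS.image (fun s => x * s) ∪ SS.image (fun s => x * s⁻¹)) := by
    apply biUnion_mono
    intro x _ c hc
    simp only [mem_product, mem_singleton] at hc
    obtain ⟨y, hy, -⟩ := mem_ch.1 hc.1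
    exact mem_union_left _ (mem_image.2 ⟨(e y, 1), mem_SS.2 ⟨y, .inl rfl⟩,
      Prod.ext hy.symm (by simp [hc.2])⟩)
  have h3 := card_le_card (sdiff_subset_sdiff h2 (Subset.refl K))
  have h4 := le_card_sdiff K C
  have : 2 * K.card ≤ ((K.biUnion (fun x => SS.image (fun s => x * s) ∪ SS.image (fun s => x * s⁻¹))) \ K).card := by
    omega
  exact_mod_cast this

abbrev Cay : SimpleGraph (F × F) := SimpleGraph.fromRel (fun a b : F × F => a⁻¹ * b ∈ SS)

lemma step {w v : F} (x : Lt) (h : v = w * e x) : v ∈ ch w ∨ w ∈ ch v := by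
  rw [ch_pa (v := w), mem_ch, mem_pa]
  subst h
  rcases treeR w with ⟨h0, h⟩ | ⟨x0, h0, h⟩
  · exact .inl ⟨x, rfl, h x⟩
  · by_cases hx : x = x0
    · exact .inr ⟨x, rfl, hx ▸ h0⟩
    · exact .inl ⟨x, rfl, h x hx⟩

lemma cay_le : Cay ≤ GG := by
  have key : ∀ a b : F × F, a⁻¹ * b ∈ SS → GG.Adj a b := by
    intro a b h
    obtain ⟨x, h | h⟩ := mem_SS.1 h
    · have h1 : b.1 = a.1 * e x := by rw [← inv_mul_eq_iff_eq_mul]; exact congrArg Prod.fst h
      have h2 : b.2 = a.2 := (inv_mul_eq_one.1 (congrArg Prod.snd h)).symm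
      rcases step x h1 with h3 | h3
      · exact (mem_NB _ _ _).2 (.inl ⟨h3, h2⟩)
      · exact (mem_NB _ _ _).2 (.inr (.inr (.inl ⟨h3, h2⟩)))
    · have h1 : b.2 = a.2 * e x := by rw [← inv_mul_eq_iff_eq_mul]; exact congrArg Prod.snd h
      have h2 : b.1 = a.1 := (inv_mul_eq_one.1 (congrArg Prod.fst h)).symm
      rcases step x h1 with h3 | h3
      · exact (mem_NB _ _ _).2 (.inr (.inl ⟨h2, h3⟩))
      · exact (mem_NB _ _ _).2 (.inr (.inr (.inr (.inl ⟨h2, h3⟩))))
  intro a b h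
  rw [SimpleGraph.fromRel_adj] at h
  rcases h.2 with h | h
  · exact key a b h
  · exact (key b a h).symm

lemma adj1 {w v : F} (z : F) (h : v ∈ ch w) : Cay.Adj (w, z) (v, z) := by
  obtain ⟨x, rfl, h2⟩ := mem_ch.1 h
  rw [SimpleGraph.fromRel_adj]
  refine ⟨fun h3 => ?_, .inl (mem_SS.2 ⟨x, .inl (by simp)⟩)⟩
  have := congrArg (fun y : F × F => y.1.norm) h3
  simp only at this; omega

lemma adj2 {w v : F} (z : F) (h : v ∈ ch w) : Cay.Adj (z, w) (z, v) := by
  obtain ⟨x, rfl, h2⟩ := mem_ch.1 h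
  rw [SimpleGraph.fromRel_adj]
  refine ⟨fun h3 => ?_, .inl (mem_SS.2 ⟨x, .inr (by simp)⟩)⟩
  have := congrArg (fun y : F × F => y.2.norm) h3
  simp only at this; omega

lemma ex_pa (w : F) (h : w.norm ≠ 0) : ∃ v, w ∈ ch v := by
  have := card_pa w
  rw [p, if_neg h] at this
  obtain ⟨v, hv⟩ := card_eq_one.1 this
  exact ⟨v, ch_pa.2 (by rw [hv]; simp)⟩

lemma cay_conn : Cay.Connected := by
  have key : ∀ n, ∀ w : F × F, w.1.norm + w.2.norm = n → Cay.Reachable (1, 1) w := by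
    intro n
    induction n with
    | zero =>
      rintro ⟨a, b⟩ h
      simp only at h
      rw [FreeGroup.norm_eq_zero.1 (show a.norm = 0 by omega),
        FreeGroup.norm_eq_zero.1 (show b.norm = 0 by omega)]
    | succ n ih =>
      rintro ⟨a, b⟩ h
      simp only at h
      by_cases ha : a.norm = 0
      · obtain ⟨v, hv⟩ := ex_pa b (by omega)
        have := len_ch hv
        exact (ih (a, v) (by simp only; omega)).trans (adj2 a hv).reachable
      · obtain ⟨v, hv⟩ := ex_pa a ha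
        have := len_ch hv
        exact (ih (v, b) (by simp only; omega)).trans (adj1 b hv).reachable
  exact ⟨fun a b => (key _ a rfl).symm.trans (key _ b rfl)⟩

lemma conn : GG.Connected := cay_conn.mono cay_le

lemma d1 {a b : F × F} (h : Cay.Adj a b) : Cay.dist a b = 1 := SimpleGraph.dist_eq_one_iff_adj.2 h

lemma d3 {a b c d : F × F} (h1 : Cay.Adj a b) (h2 : Cay.Adj b c) (h3 : Cay.Adj c d) :
    Cay.dist a d ≤ 3 := by
  have t1 := cay_conn.dist_triangle (u := a) (v := b) (w := d)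
  have t2 := cay_conn.dist_triangle (u := b) (v := c) (w := d)
  rw [d1 h1] at t1; rw [d1 h2, d1 h3] at t2; omega

lemma mem_gch {v w : F} (h : v ∈ gch w) : ∃ c, c ∈ ch w ∧ v ∈ ch c := by
  unfold gch at h
  exact mem_biUnion.1 h

lemma edge3 {w v : F × F} (h0 : GG.Adj w v) : Cay.dist w v ≤ 3 := by
  obtain ⟨w1, w2⟩ := w
  obtain ⟨v1, v2⟩ := v
  rcases (mem_NB _ _ _).1 h0 with h | h | h | h | h | h | h | h <;> simp only at h
  · obtain ⟨k, rfl⟩ := h; rw [d1 (adj1 _ k)]; omega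
  · obtain ⟨rfl, k⟩ := h; rw [d1 (adj2 _ k)]; omega
  · obtain ⟨k, rfl⟩ := h; rw [d1 (adj1 _ k).symm]; omega
  · obtain ⟨rfl, k⟩ := h; rw [d1 (adj2 _ k).symm]; omega
  · obtain ⟨c, c1, c2⟩ := mem_gch h.2.1
    exact d3 (adj1 _ c1) (adj1 _ c2) (adj2 _ h.2.2).symm
  · obtain ⟨c, c1, c2⟩ := mem_gch h.2.2
    exact d3 (adj2 _ c1) (adj2 _ c2) (adj1 _ h.2.1).symm
  · obtain ⟨c, c1, c2⟩ := mem_gch h.2.1
    exact d3 (adj1 _ c2).symm (adj1 _ c1).symm (adj2 _ h.2.2)
  · obtain ⟨c, c1, c2⟩ := mem_gch h.2.2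
    exact d3 (adj2 _ c2).symm (adj2 _ c1).symm (adj1 _ h.2.1)

lemma walk3 {x y : F × F} (W : GG.Walk x y) : Cay.dist x y ≤ 3 * W.length := by
  induction W with
  | nil => simp
  | cons h W ih =>
    rename_i a b c
    have := cay_conn.dist_triangle (u := a) (v := b) (w := c)
    have := edge3 h
    rw [SimpleGraph.Walk.length_cons]; omega

lemma qi : ∃ φ : F × F → F × F, ∃ C K : ℝ, 0 < C ∧ 0 ≤ K ∧
    (∀ x y, (GG.dist x y : ℝ) ≤ C * (Cay.dist (φ x) (φ y) : ℝ) + K) ∧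
    (∀ x y, (Cay.dist (φ x) (φ y) : ℝ) ≤ C * (GG.dist x y : ℝ) + K) ∧
    (∀ γ, ∃ x, (Cay.dist γ (φ x) : ℝ) ≤ K) := by
  refine ⟨id, 3, 0, by norm_num, le_rfl, fun x y => ?_, fun x y => ?_, fun γ => ⟨γ, by simp⟩⟩
  · have := (cay_conn.preconnected x y).dist_anti cay_le
    have h2 : GG.dist x y ≤ 3 * Cay.dist x y := by omega
    simp only [id, add_zero]; exact_mod_cast h2
  · obtain ⟨W, hW⟩ := (conn.preconnected x y).exists_walk_length_eq_dist
    have := walk3 W
    rw [hW] at this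
    simp only [id, add_zero]; exact_mod_cast this

end Pool.Agent.H43.Lv3
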