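import Mathlib

set_option autoImplicit false
open MeasureTheory ProbabilityTheory Set
open scoped ENNReal unitInterval Pointwise

namespace Pool.Agent.H43.Mix

/-- symmetrisation -/
lemma sym {Ω : Type} [MeasurableSpace Ω] (P : Measure Ω) [IsProbabilityMeasure P]
    {ι : Type} [Fintype ι] (n : ℕ) (hn : Fintype.card ι = n) (hn0 : 0 < n)
    (X : ι → Ω → ℝ) (hX : ∀ i, Measurable (X i)) (μ : Measure ℝ)
    (h : ∑ i, P.map (X i) = (n : ℝ≥0∞) • μ) (c : ℝ) (hc : ∀ᵐ ω ∂P, ∑ i, X i ω = c) :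
    ∃ ν : Measure (Fin n → ℝ), IsProbabilityMeasure ν ∧
      (∀ i : Fin n, ν.map (fun x => x i) = μ) ∧ ∃ c : ℝ, ∀ᵐ x ∂ν, ∑ i, x i = c := by
  obtain ⟨m, rfl⟩ : ∃ m, n = m + 1 := ⟨n - 1, by omega⟩
  let e : Fin (m + 1) ≃ ι := (Fintype.equivFinOfCardEq hn).symm
  let Y : Fin (m + 1) → Ω → Fin (m + 1) → ℝ := fun s ω i => X (e (i + s)) ω
  have hY : ∀ s, Measurable (Y s) := fun s => measurable_pi_lambda _ fun i => hX _
  have hne : ((m + 1 : ℕ) : ℝ≥0∞) ≠ 0 := by simp
  have hnt : ((m + 1 : ℕ) : ℝ≥0∞) ≠ ∞ := by simp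
  refine ⟨((m + 1 : ℕ) : ℝ≥0∞)⁻¹ • ∑ s, P.map (Y s), ⟨?_⟩, fun i => ?_, c, ?_⟩
  · simp only [Measure.smul_apply, Measure.coe_finsetSum, Finset.sum_apply, smul_eq_mul]
    rw [Finset.sum_congr rfl fun s _ => by
      rw [Measure.map_apply (hY s) MeasurableSet.univ, preimage_univ, measure_univ]]
    simp only [Finset.sum_const, Finset.card_univ, Fintype.card_fin, nsmul_eq_mul, mul_one]
    exact ENNReal.inv_mul_cancel hne hnt
  · rw [Measure.map_smul, Measure.map_finset_sum (measurable_pi_apply i).aemeasurable]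
    have : ∑ s, (P.map (Y s)).map (fun x => x i) = ∑ j, P.map (X j) := by
      rw [← ((Equiv.addLeft i).trans e).sum_comp]
      refine Finset.sum_congr rfl fun s _ => ?_
      rw [Measure.map_map (measurable_pi_apply i) (hY s)]
      rfl
    rw [this, h, smul_smul, ENNReal.inv_mul_cancel hne hnt, one_smul]
  · apply Measure.ae_smul_measure
    rw [ae_finsetSum_measure_iff]
    intro s _
    rw [ae_map_iff (hY s).aemeasurable (by measurability)]
    filter_upwards [hc] with ω hω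
    rw [← hω]
    exact ((Equiv.addRight s).trans e).sum_comp fun j => X j ω

/-- partition of an atomless measure into consecutive unit masses -/
lemma part (l : ℕ) : ∀ (a b : ℝ) (H : Measure ℝ) [NullSingletonClass H], a ≤ b → H univ = l →
    H (Icc a b)ᶜ = 0 →
    ∃ (Hs : Fin l → Measure ℝ) (lo hi : Fin l → ℝ), (∀ j, IsProbabilityMeasure (Hs j)) ∧
      ∑ j, Hs j = H ∧ (∀ j, Hs j (Icc (lo j) (hi j))ᶜ = 0) ∧ ∑ j, (hi j - lo j) ≤ b - a := by
  induction l with
  | zero =>
    intro a b H _ hab h1 h2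
    refine ⟨Fin.elim0, Fin.elim0, Fin.elim0, fun j => j.elim0, ?_, fun j => j.elim0, by simpa⟩
    simp only [Finset.univ_eq_empty, Finset.sum_empty]
    exact (Measure.measure_univ_eq_zero.1 (by simpa using h1)).symm
  | succ l ih =>
    intro a b H _ hab h1 h2
    have : IsFiniteMeasure H := ⟨by rw [h1]; simp⟩
    have hc := intervalIntegral.continuousOn_primitive_Icc (μ := H) (f := fun _ => (1 : ℝ))
      (a := a) (b := b) (by simp)
    have hb : H (Icc a b) = (l + 1 : ℕ) := by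
      rw [← h1, ← measure_add_measure_compl (μ := H) (measurableSet_Icc (a := a) (b := b)), h2,
        add_zero]
    obtain ⟨t, ht, ht1⟩ := intermediate_value_Icc hab hc (show (1 : ℝ) ∈ _ from by
      simp [Measure.real, hb, ENNReal.toReal_add])
    have ht2 : H (Icc a t) = 1 := by
      simp only [integral_const, MeasurableSet.univ, measureReal_restrict_apply, univ_inter,
        smul_eq_mul, mul_one] at ht1
      rwa [Measure.real, ENNReal.toReal_eq_one_iff] at ht1
    obtain ⟨Hs, lo, hi, p1, p2, p3, p4⟩ := ih t b (H.restrict (Icc a t)ᶜ) ht.2 (by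
      rw [Measure.restrict_apply_univ, measure_compl measurableSet_Icc (by simp [ht2]), h1, ht2]
      push_cast
      exact ENNReal.add_sub_cancel_right (by simp)) (by
      rw [Measure.restrict_apply measurableSet_Icc.compl]
      refine measure_mono_null (fun x hx => ?_) h2
      simp only [mem_inter_iff, mem_compl_iff, mem_Icc, not_and, not_le] at hx ⊢
      intro hax
      exact hx.1 (hx.2 hax).le)
    refine ⟨Fin.cons (H.restrict (Icc a t)) Hs, Fin.cons a lo, Fin.cons t hi, ?_, ?_, ?_, ?_⟩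
    · refine Fin.cases ⟨?_⟩ p1
      simpa using ht2
    · rw [Fin.sum_univ_succ]
      simp only [Fin.cons_zero, Fin.cons_succ, p2]
      exact Measure.restrict_add_restrict_compl measurableSet_Icc
    · refine Fin.cases ?_ p3
      simp [Measure.restrict_apply measurableSet_Icc.compl]
    · rw [Fin.sum_univ_succ]
      simp only [Fin.cons_zero, Fin.cons_succ]
      linarith

lemma exists_E (μ : Measure ℝ) [IsProbabilityMeasure μ] (hμ : μ ≪ volume) :
    ∃ (c : ℝ≥0∞) (E : Set ℝ), c ≠ ∞ ∧ MeasurableSet E ∧ volume E ≠ 0 ∧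
      volume.restrict E ≤ c • μ := by
  have hf := Measure.measurable_rnDeriv μ volume
  have : ∃ k : ℕ, volume {x | (k : ℝ≥0∞)⁻¹ < μ.rnDeriv volume x} ≠ 0 := by
    by_contra h
    push Not at h
    have h2 : volume (⋃ k : ℕ, {x | (k : ℝ≥0∞)⁻¹ < μ.rnDeriv volume x}) = 0 :=
      measure_iUnion_null h
    have h3 : μ.rnDeriv volume =ᵐ[volume] 0 := by
      refine measure_mono_null (fun x hx => ?_) h2
      obtain ⟨k, hk⟩ := ENNReal.exists_inv_nat_lt (a := μ.rnDeriv volume x) hx
      exact mem_iUnion.2 ⟨k, hk⟩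
    have h4 := Measure.withDensity_rnDeriv_eq μ volume hμ
    rw [withDensity_congr_ae h3, withDensity_zero] at h4
    exact IsProbabilityMeasure.ne_zero μ h4.symm
  obtain ⟨k, hk⟩ := this
  have hE : MeasurableSet {x | (k : ℝ≥0∞)⁻¹ < μ.rnDeriv volume x} :=
    measurableSet_lt measurable_const hf
  have hk0 : (k : ℝ≥0∞) ≠ 0 := by
    rintro h; simp [h] at hk
  refine ⟨k, _, by simp, hE, hk, Measure.le_iff.2 fun B hB => ?_⟩
  rw [Measure.restrict_apply hB, Measure.smul_apply, smul_eq_mul]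
  calc volume (B ∩ {x | (k : ℝ≥0∞)⁻¹ < μ.rnDeriv volume x})
      = k * ∫⁻ _ in B ∩ {x | (k : ℝ≥0∞)⁻¹ < μ.rnDeriv volume x}, (k : ℝ≥0∞)⁻¹ := by
        rw [setLIntegral_const, ← mul_assoc, ENNReal.mul_inv_cancel hk0 (by simp), one_mul]
    _ ≤ k * ∫⁻ x in B ∩ {x | (k : ℝ≥0∞)⁻¹ < μ.rnDeriv volume x}, μ.rnDeriv volume x := by
        gcongr ?_ * ?_
        · exact le_rfl
        exact setLIntegral_mono hf fun x hx => hx.2.le
    _ ≤ k * μ B := by
        rw [Measure.setLIntegral_rnDeriv hμ]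
        gcongr
        exact inter_subset_left

lemma exists_s0 (E : Set ℝ) (hE : MeasurableSet E) (h0 : volume E ≠ 0) :
    ∃ s0 : ℝ, volume {x | x ∈ E ∧ s0 - x ∈ E} ≠ 0 := by
  by_contra h
  push Not at h
  have hS : MeasurableSet {p : ℝ × ℝ | p.2 ∈ E ∧ p.1 - p.2 ∈ E} :=
    (measurable_snd hE).inter ((measurable_fst.sub measurable_snd) hE)
  have h1 : (volume.prod volume) {p : ℝ × ℝ | p.2 ∈ E ∧ p.1 - p.2 ∈ E} = 0 := by
    rw [Measure.prod_apply hS]
    simp [Set.preimage, h]
  rw [Measure.prod_apply_symm hS] at h1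
  have h2 : ∀ x : ℝ, volume ((fun s => (s, x)) ⁻¹' {p : ℝ × ℝ | p.2 ∈ E ∧ p.1 - p.2 ∈ E})
      = E.indicator (fun _ => volume E) x := by
    intro x
    by_cases hx : x ∈ E
    · simp only [preimage_ofPred_eq, hx, true_and, indicator_of_mem]
      simpa [sub_eq_add_neg, Set.preimage] using measure_preimage_add_right volume (-x) E
    · simp [hx]
  simp only [h2, lintegral_indicator hE, setLIntegral_const] at h1
  simp [h0] at h1

end Pool.Agent.H43.Mix
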