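import Pool.Agent.H43.MixA

set_option autoImplicit false
open MeasureTheory ProbabilityTheory Set Filter Topology
open scoped ENNReal unitInterval Pointwise

namespace Pool.Agent.H43.Mix

lemma pair (μ : Measure ℝ) [IsProbabilityMeasure μ] (hμ : μ ≪ volume) :
    ∃ (r s0 : ℝ) (D : ℝ≥0∞) (φ1 φ2 : ℝ × I → ℝ), 0 < r ∧ D ≠ ∞ ∧ Measurable φ1 ∧ Measurable φ2 ∧
      (∀ τ ∈ Icc (0 : ℝ) 1, ∀ w, φ1 (τ, w) + φ2 (τ, w) = s0 + r * τ) ∧
      (∀ τ, volume.map (fun w => φ1 (τ, w)) ≤ D • μ) ∧
      (∀ τ, volume.map (fun w => φ2 (τ, w)) ≤ D • μ) := by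
  obtain ⟨c, E, hc, hE, hE0, hle⟩ := exists_E μ hμ
  obtain ⟨s0, hs0⟩ := exists_s0 E hE hE0
  have hA : MeasurableSet {x | x ∈ E ∧ s0 - x ∈ E} :=
    hE.inter ((measurable_const.sub measurable_id) hE)
  obtain ⟨K, hKA, hK, hK0⟩ := hA.exists_lt_isCompact (μ := volume) (pos_iff_ne_zero.2 hs0)
  have hKt : volume K ≠ ∞ := hK.measure_lt_top.ne
  have hη0 : volume K / 2 ≠ 0 := by simp [hK0.ne']
  have hev := eventually_nhds_zero_measure_vadd_sdiff_lt (μ := (volume : Measure ℝ)) hK
    hK.isClosed hη0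
  obtain ⟨ε, hε, hball⟩ := Metric.eventually_nhds_iff.1 hev
  let t : ℝ → ℝ := fun τ => ε / 2 * max 0 (min τ 1)
  have htm : Measurable t := by fun_prop
  let A : ℝ → Set ℝ := fun τ => {x | x ∈ K ∧ x - t τ ∈ K}
  have hKm := hK.measurableSet
  have hAm : ∀ τ, MeasurableSet (A τ) := fun τ =>
    hKm.inter ((measurable_id.sub measurable_const) hKm)
  have hAt : ∀ τ, volume (A τ) ≠ ∞ := fun τ =>
    ((measure_mono fun x hx => hx.1).trans_lt hK.measure_lt_top).ne
  have hAl : ∀ τ, volume K / 2 ≤ volume (A τ) := by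
    intro τ
    have h1 : dist (t τ) 0 < ε := by
      have a1 : 0 ≤ max 0 (min τ 1) := le_max_left _ _
      have a2 : max 0 (min τ 1) ≤ 1 := max_le zero_le_one (min_le_right _ _)
      rw [Real.dist_eq, sub_zero, abs_of_nonneg (by positivity)]
      simp only [t]
      nlinarith
    have h2 := (hball h1).le
    have h3 : volume K ≤ volume (A τ) + volume K / 2 := by
      calc volume K = volume (t τ +ᵥ K) := (measure_vadd _ _ _).symm
        _ ≤ volume (A τ ∪ ((t τ +ᵥ K) \ K)) := measure_mono (by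
            rintro x ⟨y, hy, rfl⟩
            by_cases h : t τ +ᵥ y ∈ K
            · exact Or.inl ⟨h, by simpa using hy⟩
            · exact Or.inr ⟨⟨y, hy, rfl⟩, h⟩)
        _ ≤ _ := (measure_union_le _ _).trans (by gcongr)
    nth_rewrite 1 [← ENNReal.add_halves (volume K)] at h3
    exact (ENNReal.add_le_add_iff_right (by simp [ENNReal.div_eq_top, hKt])).1 h3
  have hA0 : ∀ τ, volume (A τ) ≠ 0 := fun τ h => hη0 (le_antisymm (h ▸ hAl τ) zero_le)
  have hmeas : ∀ B, MeasurableSet B → Measurable fun τ => volume (B ∩ A τ) := by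
    intro B hB
    have : MeasurableSet {p : ℝ × ℝ | p.2 ∈ B ∧ p.2 ∈ K ∧ p.2 - t p.1 ∈ K} :=
      (measurable_snd hB).inter ((measurable_snd hKm).inter
        ((measurable_snd.sub (htm.comp measurable_fst)) hKm))
    exact measurable_measure_prodMk_left this
  let κ : Kernel ℝ ℝ := ⟨fun τ => (volume (A τ))⁻¹ • volume.restrict (A τ), by
    refine Measure.measurable_of_measurable_coe _ fun B hB => ?_
    simp only [Measure.smul_apply, Measure.restrict_apply hB, smul_eq_mul]
    refine Measurable.mul (Measurable.inv ?_) (hmeas B hB)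
    simpa using hmeas univ MeasurableSet.univ⟩
  have hκ : ∀ τ, κ τ = (volume (A τ))⁻¹ • volume.restrict (A τ) := fun _ => rfl
  have : IsMarkovKernel κ := ⟨fun τ => ⟨by
    simp [hκ, ENNReal.inv_mul_cancel (hA0 τ) (hAt τ)]⟩⟩
  obtain ⟨h, hm, hh⟩ := κ.exists_measurable_map_eq_unitInterval
  have hm' : ∀ τ, Measurable (h τ) := fun τ => hm.comp measurable_prodMk_left
  have key : ∀ τ (B : Set ℝ) (S : Set ℝ), MeasurableSet B → MeasurableSet S →
      volume (S ∩ A τ) ≤ volume (B ∩ E) → κ τ S ≤ (((volume K / 2)⁻¹ * c) • μ) B := by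
    intro τ B S hB hS hSB
    rw [hκ, Measure.smul_apply, Measure.smul_apply, Measure.restrict_apply hS, smul_eq_mul,
      smul_eq_mul, mul_assoc]
    have := Measure.le_iff.1 hle B hB
    rw [Measure.restrict_apply hB] at this
    exact mul_le_mul' (ENNReal.inv_le_inv.2 (hAl τ)) (hSB.trans this)
  refine ⟨ε / 2, s0, (volume K / 2)⁻¹ * c, fun p => h p.1 p.2, fun p => s0 + t p.1 - h p.1 p.2,
    by positivity, ENNReal.mul_ne_top (by simpa using hη0) hc, hm,
    (measurable_const.add (htm.comp measurable_fst)).sub hm, ?_, ?_, ?_⟩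
  · intro τ hτ w
    simp only [t, min_eq_left hτ.2, max_eq_right hτ.1]
    ring
  · intro τ
    refine Measure.le_iff.2 fun B hB => ?_
    rw [show (fun w => h (τ, w).1 (τ, w).2) = h τ from rfl, hh]
    exact key τ B B hB hB (measure_mono fun x hx => ⟨hx.1, (hKA hx.2.1).1⟩)
  · intro τ
    refine Measure.le_iff.2 fun B hB => ?_
    have hr : Measurable fun x : ℝ => s0 + t τ - x := by fun_prop
    rw [show (fun w => s0 + t (τ, w).1 - h (τ, w).1 (τ, w).2) = (fun x => s0 + t τ - x) ∘ h τ
      from rfl, ← Measure.map_map hr (hm' τ), hh, Measure.map_apply hr hB]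
    refine key τ B _ hB (hr hB) ?_
    rw [← (Measure.measurePreserving_sub_left volume (s0 + t τ)).measure_preimage
      (hB.inter hE).nullMeasurableSet]
    refine measure_mono fun x hx => ⟨hx.1, ?_⟩
    have := (hKA hx.2.2).2
    show s0 + t τ - x ∈ E
    convert this using 1
    ring

noncomputable def lift (x : UnitAddCircle) : ℝ := (AddCircle.measurableEquivIco 1 0 x : ℝ)

lemma lift_meas : Measurable lift :=
  measurable_subtype_coe.comp (AddCircle.measurableEquivIco 1 0).measurable

lemma lift_mem (x : UnitAddCircle) : lift x ∈ Ico (0 : ℝ) 1 := by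
  simpa [lift] using (AddCircle.measurableEquivIco 1 0 x).2

lemma coe_lift (x : UnitAddCircle) : ((lift x : ℝ) : UnitAddCircle) = x :=
  (AddCircle.measurableEquivIco 1 0).symm_apply_apply x

instance : IsProbabilityMeasure (volume : Measure UnitAddCircle) := ⟨UnitAddCircle.measure_univ⟩

noncomputable def Λ0 (m : ℕ) : Measure ℝ :=
  (2 : ℝ≥0∞) • volume.map lift + (m : ℝ≥0∞) • (Measure.dirac 0 + Measure.dirac 1)

lemma sum_ind (M : ℕ) (j : ℤ) (h0 : 0 ≤ j) (h1 : j ≤ M) :
    ∑ i : Fin M, (if ((i : ℕ) : ℝ) < j then (1 : ℝ) else 0) = j := by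
  obtain ⟨k, rfl⟩ := Int.eq_ofNat_of_zero_le h0
  have hk : k ≤ M := by exact_mod_cast h1
  simp only [Int.cast_natCast, Nat.cast_lt]
  rw [Finset.sum_boole, Fin.card_filter_val_lt]
  simp [hk]

lemma jm {Ω : Type} [MeasurableSpace Ω] (P : Measure Ω) [IsProbabilityMeasure P] (Z : Ω → ℝ)
    (hZ : Measurable Z) (z0 : ℝ) (m : ℕ) (hb : ∀ᵐ ω ∂P, z0 ≤ Z ω ∧ Z ω ≤ z0 + (m - 2)) :
    ∃ T : Fin 2 ⊕ Fin (2 * m) → Ω × UnitAddCircle → ℝ, (∀ i, Measurable (T i)) ∧
      (∀ i ω, T i ω ∈ Icc (0 : ℝ) 1) ∧ ∑ i, (P.prod volume).map (T i) = Λ0 m ∧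
      ∃ c : ℝ, ∀ᵐ ω ∂(P.prod volume), Z ω.1 + ∑ i, T i ω = c := by
  set Q : Measure (Ω × UnitAddCircle) := P.prod volume with hQ
  have hli : Integrable lift volume :=
    Integrable.of_mem_Icc 0 1 lift_meas.aemeasurable
      (ae_of_all _ fun x => Ico_subset_Icc_self (lift_mem x))
  have hZi : Integrable Z P := Integrable.of_mem_Icc z0 (z0 + (m - 2)) hZ.aemeasurable hb
  set e : ℝ := ∫ x, lift x with he
  set EZ : ℝ := ∫ ω, Z ω ∂P with hEZ
  have he0 : 0 ≤ e := integral_nonneg fun x => (lift_mem x).1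
  have he1 : e ≤ 1 := by
    have := integral_mono hli (integrable_const (1 : ℝ)) fun x => (lift_mem x).2.le
    simpa using this
  have hE0 : z0 ≤ EZ := by
    have := integral_mono_ae (integrable_const z0) hZi (hb.mono fun _ h => h.1)
    simpa using this
  have hE1 : EZ ≤ z0 + (m - 2) := by
    have := integral_mono_ae hZi (integrable_const _) (hb.mono fun _ h => h.2)
    simpa using this
  let γ : ℝ := EZ + 2 * e
  let u' : Ω × UnitAddCircle → UnitAddCircle := fun p => ((γ - Z p.1 : ℝ) : UnitAddCircle) - p.2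
  have hu'm : Measurable u' :=
    (AddCircle.measurable_mk'.comp (measurable_const.sub (hZ.comp measurable_fst))).sub
      measurable_snd
  have hu' : MeasurePreserving u' Q volume := by
    refine ⟨hu'm, Measure.ext fun B hB => ?_⟩
    rw [Measure.map_apply hu'm hB, hQ, Measure.prod_apply (hu'm hB)]
    have : ∀ ω, volume (Prod.mk ω ⁻¹' (u' ⁻¹' B)) = volume B := fun ω =>
      (Measure.measurePreserving_sub_left volume
        ((γ - Z ω : ℝ) : UnitAddCircle)).measure_preimage hB.nullMeasurableSet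
    simp [this]
  have hsnd : MeasurePreserving Prod.snd Q volume := measurePreserving_snd
  have hfst : MeasurePreserving Prod.fst Q P := measurePreserving_fst
  let N : Ω × UnitAddCircle → ℝ := fun p => lift p.2 + lift (u' p) + Z p.1 - γ
  have hNm : Measurable N :=
    (((lift_meas.comp measurable_snd).add (lift_meas.comp hu'm)).add
      (hZ.comp measurable_fst)).sub measurable_const
  have hNint : ∀ p, ∃ k : ℤ, N p = k := by
    intro p
    have : ((N p : ℝ) : UnitAddCircle) = 0 := by
      simp only [N, u', AddCircle.coe_sub, AddCircle.coe_add, coe_lift]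
      abel
    obtain ⟨k, hk⟩ := (AddCircle.coe_eq_zero_iff _).1 this
    exact ⟨k, by simpa using hk.symm⟩
  have i1 : Integrable (fun p : Ω × UnitAddCircle => lift p.2) Q :=
    (hsnd.integrable_comp_of_integrable hli)
  have i2 : Integrable (fun p => lift (u' p)) Q := (hu'.integrable_comp_of_integrable hli)
  have i3 : Integrable (fun p : Ω × UnitAddCircle => Z p.1) Q :=
    (hfst.integrable_comp_of_integrable hZi)
  have hNi : Integrable N Q := ((i1.add i2).add i3).sub (integrable_const _)
  have hEN : ∫ p, N p ∂Q = 0 := by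
    have a1 : ∫ p, lift p.2 ∂Q = e := by
      rw [he, ← hsnd.map_eq, integral_map measurable_snd.aemeasurable
        lift_meas.aestronglyMeasurable]
    have a2 : ∫ p, lift (u' p) ∂Q = e := by
      rw [he, ← hu'.map_eq, integral_map hu'm.aemeasurable lift_meas.aestronglyMeasurable]
    have a3 : ∫ p, Z p.1 ∂Q = EZ := by
      rw [hEZ, ← hfst.map_eq, integral_map measurable_fst.aemeasurable hZ.aestronglyMeasurable]
    simp only [N]
    have i4 : Integrable (fun p : Ω × UnitAddCircle => lift p.2 + lift (u' p)) Q := i1.add i2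
    have i5 : Integrable (fun p : Ω × UnitAddCircle => lift p.2 + lift (u' p) + Z p.1) Q :=
      i4.add i3
    rw [integral_sub i5 (integrable_const _), integral_add i4 i3,
      integral_add i1 i2, a1, a2, a3]
    simp [γ]
    ring
  let S : Fin (2 * m) → Set (Ω × UnitAddCircle) := fun i => {p | ((i : ℕ) : ℝ) < m - N p}
  have hS : ∀ i, MeasurableSet (S i) := fun i =>
    measurableSet_lt measurable_const (measurable_const.sub hNm)
  have hsum : ∀ᵐ p ∂Q, ∑ i, (S i).indicator (1 : Ω × UnitAddCircle → ℝ) p = m - N p := by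
    filter_upwards [hfst.quasiMeasurePreserving.ae hb] with p hp
    obtain ⟨k, hk⟩ := hNint p
    have b1 := lift_mem p.2
    have b2 := lift_mem (u' p)
    have b3 : -(m : ℝ) ≤ k ∧ (k : ℝ) ≤ m := by
      rw [← hk]
      simp only [N, γ]
      constructor <;> linarith [b1.1, b1.2, b2.1, b2.2, hp.1, hp.2]
    have b4 : -(m : ℤ) ≤ k := by exact_mod_cast b3.1
    have b5 : k ≤ (m : ℤ) := by exact_mod_cast b3.2
    have := sum_ind (2 * m) (m - k) (by omega) (by push_cast; omega)
    push_cast at this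
    rw [hk, ← this]
    refine Finset.sum_congr rfl fun i _ => ?_
    simp only [S, indicator, mem_ofPred_eq, hk, Pi.one_apply]
  have hp1 : ∑ i, Q (S i) = m := by
    rw [← ENNReal.toReal_eq_toReal_iff' (by simp) (by simp), ENNReal.toReal_sum (by simp)]
    have : ∀ i, (Q (S i)).toReal = ∫ p, (S i).indicator (1 : Ω × UnitAddCircle → ℝ) p ∂Q :=
      fun i => (integral_indicator_one (hS i)).symm
    simp only [this]
    have hi : ∀ i, Integrable ((S i).indicator (1 : Ω × UnitAddCircle → ℝ)) Q :=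
      fun i => (integrable_const (1 : ℝ)).indicator (hS i)
    rw [← integral_finsetSum _ fun i _ => hi i,
      integral_congr_ae hsum, integral_sub (integrable_const _) hNi, hEN]
    simp
  have hp2 : ∑ i, Q (S i)ᶜ = m := by
    have : ∑ i, Q (S i) + ∑ i, Q (S i)ᶜ = m + m := by
      rw [← Finset.sum_add_distrib]
      simp only [measure_add_measure_compl (hS _), measure_univ]
      simp [two_mul]
    rw [hp1] at this
    exact (ENNReal.add_right_inj (by simp)).1 this
  have hlaw : ∀ i, Q.map ((S i).indicator (1 : Ω × UnitAddCircle → ℝ))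
      = Q (S i)ᶜ • Measure.dirac 0 + Q (S i) • Measure.dirac 1 := by
    intro i
    have hm : Measurable ((S i).indicator (1 : Ω × UnitAddCircle → ℝ)) :=
      measurable_const.indicator (hS i)
    conv_lhs => rw [← Measure.restrict_compl_add_restrict (μ := Q) (hS i)]
    rw [Measure.map_add _ _ hm]
    congr 1
    · rw [Measure.map_congr (g := fun _ => (0 : ℝ)), Measure.map_const,
        Measure.restrict_apply_univ]
      exact (ae_restrict_mem (hS i).compl).mono fun p hp => indicator_of_notMem hp _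
    · rw [Measure.map_congr (g := fun _ => (1 : ℝ)), Measure.map_const,
        Measure.restrict_apply_univ]
      exact (ae_restrict_mem (hS i)).mono fun p hp => indicator_of_mem hp _
  refine ⟨Sum.elim ![fun p => lift p.2, fun p => lift (u' p)] fun i => (S i).indicator 1,
    ?_, ?_, ?_, γ + m, ?_⟩
  · rintro (i | i)
    · fin_cases i
      · exact lift_meas.comp measurable_snd
      · exact lift_meas.comp hu'm
    · exact measurable_const.indicator (hS i)
  · rintro (i | i) p
    · fin_cases i <;> exact Ico_subset_Icc_self (lift_mem _)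
    · by_cases h : p ∈ S i <;> simp [h]
  · rw [Fintype.sum_sum_type, Fin.sum_univ_two]
    simp only [Sum.elim_inl, Sum.elim_inr, Matrix.cons_val_zero, Matrix.cons_val_one, hlaw,
      Finset.sum_add_distrib, ← Finset.sum_smul, hp1, hp2, Λ0, smul_add, two_smul]
    congr 2
    · rw [← hsnd.map_eq, Measure.map_map lift_meas measurable_snd]; rfl
    · rw [← hu'.map_eq, Measure.map_map lift_meas hu'm]; rfl
  · filter_upwards [hsum] with p hp
    rw [Fintype.sum_sum_type, Fin.sum_univ_two]
    simp only [Sum.elim_inl, Sum.elim_inr, Matrix.cons_val_zero, Matrix.cons_val_one, hp, N]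
    ring

end Pool.Agent.H43.Mix
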