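import Mathlib

namespace Pool.Agent.H43.Mno

open Set Filter Topology

variable {ι : Type*} [Fintype ι] [DecidableEq ι] {C : ℝ} {u : (ι → ℝ) → ℝ}

/-- Nonnegative supersolutions of the obstacle problem. -/
def Sup (C : ℝ) (u f : (ι → ℝ) → ℝ) : Prop :=
  (∀ x, 0 ≤ x → 0 ≤ f x) ∧ ∀ y x v, 0 ≤ y → y ≤ x → v ≤ u y →
    (∀ p : ι → ℝ, 0 ≤ p → C ≤ ∏ i, p i → v ≤ f y + ∑ i, p i * (x i - y i)) → v ≤ f x

/-- The least supersolution. -/
noncomputable def W (C : ℝ) (u : (ι → ℝ) → ℝ) (x : ι → ℝ) : ℝ :=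
  sInf {s | ∃ f, Sup C u f ∧ s = f x}

omit [DecidableEq ι] in
lemma W_le {f : (ι → ℝ) → ℝ} (hf : Sup C u f) {x : ι → ℝ} (hx : 0 ≤ x) : W C u x ≤ f x :=
  csInf_le ⟨0, fun _ ⟨g, hg, e⟩ => e ▸ hg.1 x hx⟩ ⟨f, hf, rfl⟩

omit [DecidableEq ι] in
lemma W_sup (hu : Sup C u u) : Sup C u (W C u) :=
  ⟨fun x hx => le_csInf ⟨_, u, hu, rfl⟩ fun _ ⟨g, hg, e⟩ => e ▸ hg.1 x hx,
   fun y x v hy hyx hv h => le_csInf ⟨_, u, hu, rfl⟩ fun _ ⟨g, hg, e⟩ =>
    e ▸ hg.2 y x v hy hyx hv fun p hp hC => (h p hp hC).trans (by linarith [W_le hg hy])⟩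

omit [DecidableEq ι] in
lemma W_mono (hu : Sup C u u) {y x : ι → ℝ} (hy : 0 ≤ y) (hyx : y ≤ x) : W C u y ≤ W C u x :=
  (W_sup hu).2 y x _ hy hyx (W_le hu hy) fun p hp _ => le_add_of_nonneg_right
    (Finset.sum_nonneg fun i _ => mul_nonneg (hp i) (sub_nonneg.2 (hyx i)))

lemma prod_ge {δ L : ℝ} (hδ : 0 ≤ δ) (hL : 0 ≤ L) (h : C ≤ L * δ ^ (Fintype.card ι - 1))
    {p : ι → ℝ} (hp : ∀ j, δ ≤ p j) {i : ι} (hi : L ≤ p i) : C ≤ ∏ j, p j := by
  rw [← Finset.mul_prod_erase _ _ (Finset.mem_univ i)]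
  refine h.trans (mul_le_mul hi ?_ (by positivity) (hL.trans hi))
  rw [← Finset.card_univ, ← Finset.card_erase_of_mem (Finset.mem_univ i), ← Finset.prod_const]
  exact Finset.prod_le_prod (fun _ _ => hδ) fun j _ => hp j

lemma W_cmp (hu : Sup C u u) {δ L : ℝ} (hδ : 0 ≤ δ) (hL : δ ≤ L)
    (h : C ≤ L * δ ^ (Fintype.card ι - 1)) {x z : ι → ℝ} (hx : 0 ≤ x) (hz : 0 ≤ z) :
    W C u z ≤ W C u x + ∑ j, (δ * z j + L * max (z j - x j) 0) := by
  have L0 : 0 ≤ L := hδ.trans hL
  have K0 : ∀ z : ι → ℝ, 0 ≤ z → 0 ≤ ∑ j, (δ * z j + L * max (z j - x j) 0) := fun z hz =>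
    Finset.sum_nonneg fun j _ => add_nonneg (mul_nonneg hδ (hz j)) (by positivity)
  have S : Sup C u fun z => W C u (z ⊓ x) + ∑ j, (δ * z j + L * max (z j - x j) 0) := by
    refine ⟨fun z hz => add_nonneg ((W_sup hu).1 _ (le_inf hz hx)) (K0 z hz),
      fun y z v hy hyz hv hp => ?_⟩
    by_cases c : y ≤ x
    · rw [← sub_le_iff_le_add]
      refine (W_sup hu).2 y _ _ hy (le_inf hyz c) (by linarith [K0 z (hy.trans hyz)])
        fun p p0 pC => ?_
      have q := hp (fun j => min (max (p j) δ) L) (fun j => le_min (le_max_of_le_right hδ) L0) (by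
        by_cases d : ∃ i, L ≤ max (p i) δ
        · obtain ⟨i, hi⟩ := d
          exact prod_ge hδ L0 h (fun j => le_min (le_max_right _ _) hL) (i := i) (le_min hi le_rfl)
        · push Not at d
          exact pC.trans (Finset.prod_le_prod (fun j _ => p0 j) fun j _ =>
            le_min (le_max_left _ _) ((le_max_left _ _).trans (d j).le)))
      simp only [inf_eq_left.2 c] at q
      rw [sub_le_iff_le_add, add_assoc, ← Finset.sum_add_distrib]
      rw [add_assoc, ← Finset.sum_add_distrib] at q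
      refine q.trans (add_le_add le_rfl (Finset.sum_le_sum fun j _ => ?_))
      have a1 : y j ≤ x j := c j
      have a2 : y j ≤ z j := hyz j
      have a3 : 0 ≤ p j := p0 j
      have a4 : min (max (p j) δ) L ≤ p j + δ := min_le_of_left_le (max_le (by linarith) (by linarith))
      have a5 : min (max (p j) δ) L ≤ L := min_le_right _ _
      rw [max_eq_right (by linarith : y j - x j ≤ 0), Pi.inf_apply]
      rcases le_total (z j) (x j) with b | b
      · rw [min_eq_left b, max_eq_right (by linarith : z j - x j ≤ 0)]; nlinarith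
      · rw [min_eq_right b, max_eq_left (by linarith : 0 ≤ z j - x j)]; nlinarith
    · obtain ⟨i, hi⟩ : ∃ i, x i < y i := by
        by_contra d; push Not at d; exact c d
      have q := hp (fun j => if j = i then L else δ) (fun j => by
        dsimp only; split_ifs <;> assumption)
        (prod_ge hδ L0 h (fun j => by split_ifs <;> linarith) (i := i) (by simp))
      rw [add_assoc, ← Finset.sum_add_distrib] at q
      refine q.trans (add_le_add (W_mono hu (le_inf hy hx) (inf_le_inf_right _ hyz))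
        (Finset.sum_le_sum fun j _ => ?_))
      have a2 : y j ≤ z j := hyz j
      split_ifs with e
      · subst e
        rw [max_eq_left (by linarith), max_eq_left (by linarith)]; nlinarith
      · have := mul_le_mul_of_nonneg_left (max_le_max_right 0 (sub_le_sub_right a2 (x j))) L0
        linarith
  exact (W_le S hz).trans (add_le_add (W_mono hu (le_inf hz hx) inf_le_right) le_rfl)

lemma W_cont (hu : Sup C u u) : ContinuousOn (W C u) (Ici 0) := fun x hx => by
  have s0 : 0 ≤ ∑ j, x j := Finset.sum_nonneg fun j _ => hx j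
  have key : ∀ η > 0, ∃ δ L : ℝ, 0 ≤ δ ∧ δ ≤ L ∧ C ≤ L * δ ^ (Fintype.card ι - 1) ∧
      ∑ j, (δ * x j + L * max (x j - x j) 0) < η := fun η hη => by
    have d0 : 0 < η / (∑ j, x j + 1) := by positivity
    refine ⟨η / (∑ j, x j + 1), max (η / (∑ j, x j + 1))
      (C / (η / (∑ j, x j + 1)) ^ (Fintype.card ι - 1)), d0.le, le_max_left _ _,
      (div_le_iff₀ (by positivity)).1 (le_max_right _ _), ?_⟩
    simp only [sub_self, max_self, mul_zero, add_zero, ← Finset.mul_sum]
    rw [div_mul_eq_mul_div, div_lt_iff₀ (by positivity)]; linarith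
  refine tendsto_order.2 ⟨fun a ha => ?_, fun a ha => ?_⟩
  · obtain ⟨δ, L, h1, h2, h3, h4⟩ := key _ (sub_pos.2 ha)
    have c : Continuous fun z : ι → ℝ => ∑ j, (δ * x j + L * max (x j - z j) 0) := by fun_prop
    filter_upwards [self_mem_nhdsWithin, nhdsWithin_le_nhds (c.continuousAt.eventually_lt_const h4)]
      with z hz hz'
    linarith [W_cmp hu h1 h2 h3 hz hx]
  · obtain ⟨δ, L, h1, h2, h3, h4⟩ := key _ (sub_pos.2 ha)
    have c : Continuous fun z : ι → ℝ => ∑ j, (δ * z j + L * max (z j - x j) 0) := by fun_prop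
    filter_upwards [self_mem_nhdsWithin, nhdsWithin_le_nhds (c.continuousAt.eventually_lt_const h4)]
      with z hz hz'
    linarith [W_cmp hu h1 h2 h3 hx hz]

omit [DecidableEq ι] in
lemma dir_ge (hu : Sup C u u) {x h : ι → ℝ} {D : (ι → ℝ) →L[ℝ] ℝ} (hx : 0 ≤ x) (hh : 0 ≤ h)
    (hD : HasFDerivWithinAt (W C u) D (Ici 0) x) (hlt : W C u x < u x) {g : ℝ}
    (hg : ∀ p : ι → ℝ, 0 ≤ p → C ≤ ∏ i, p i → g ≤ ∑ i, p i * h i) : g ≤ D h := by
  have l : HasDerivWithinAt (fun t : ℝ => x + t • h) h (Ioi 0) 0 := by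
    simpa using (((hasDerivAt_id (0:ℝ)).smul_const h).const_add x).hasDerivWithinAt
  have d : HasDerivWithinAt (fun t : ℝ => W C u (x + t • h)) (D h) (Ioi 0) 0 :=
    HasFDerivWithinAt.comp_hasDerivWithinAt_of_eq 0 hD l
      (fun t ht => add_nonneg hx (smul_nonneg (le_of_lt ht) hh)) (by simp)
  rw [hasDerivWithinAt_iff_tendsto_slope' (by simp)] at d
  have c : Continuous fun t : ℝ => W C u x + t * g := by fun_prop
  refine ge_of_tendsto d ?_
  filter_upwards [self_mem_nhdsWithin, nhdsWithin_le_nhds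
    ((c.tendsto 0).eventually_lt_const (u := u x) (by simpa using hlt))] with t ht ht'
  have t0 : 0 < t := ht
  have := (W_sup hu).2 x (x + t • h) _ hx (le_add_of_nonneg_right (smul_nonneg t0.le hh)) ht'.le
    fun p hp pC => by
      have := mul_le_mul_of_nonneg_left (hg p hp pC) t0.le
      rw [Finset.mul_sum] at this
      refine add_le_add le_rfl (this.trans (le_of_eq (Finset.sum_congr rfl fun i _ => ?_)))
      simp; ring
  rw [slope_def_field, le_div_iff₀ (by simpa using t0)]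
  simp only [zero_smul, add_zero, sub_zero]
  linarith

lemma W_deriv [Nonempty ι] (hu : Sup C u u) {x : ι → ℝ} {D : (ι → ℝ) →L[ℝ] ℝ} (hx : 0 ≤ x)
    (hD : HasFDerivWithinAt (W C u) D (Ici 0) x) (hlt : W C u x < u x) :
    C ≤ ∏ i, D (Pi.single i 1) := by
  have q0 : ∀ i, 0 ≤ D (Pi.single i 1) := fun i =>
    dir_ge hu hx (Pi.single_nonneg.2 zero_le_one) hD hlt fun p hp _ =>
      Finset.sum_nonneg fun j _ => mul_nonneg (hp j) (by rw [Pi.single_apply]; split_ifs <;> norm_num)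
  by_contra c
  have ct : Continuous fun e : ℝ => ∏ i, (D (Pi.single i 1) + e) := by fun_prop
  obtain ⟨e, he, e0⟩ := ((((ct.tendsto 0).eventually_lt_const (u := C)
    (by simpa using c)).filter_mono nhdsWithin_le_nhds).and
      (eventually_mem_nhdsWithin (s := Ioi (0:ℝ)))).exists
  have q1 : ∀ i, 0 < D (Pi.single i 1) + e := fun i => add_pos_of_nonneg_of_pos (q0 i) e0
  have P0 : 0 < ∏ i, (D (Pi.single i 1) + e) := Finset.prod_pos fun i _ => q1 i
  have k := dir_ge hu hx (h := fun i => (D (Pi.single i 1) + e)⁻¹) (fun i => (inv_pos.2 (q1 i)).le)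
    hD hlt (g := ∑ _i : ι, 1) fun p hp pC => by
      have a : 1 ≤ ∏ i, p i * (D (Pi.single i 1) + e)⁻¹ := by
        rw [Finset.prod_mul_distrib, Finset.prod_inv_distrib, ← div_eq_mul_inv, one_le_div P0]
        linarith [show ∏ i, (D (Pi.single i 1) + e) < C from he]
      have b : ∀ i ∈ Finset.univ, p i * (D (Pi.single i 1) + e)⁻¹ ≠ 0 :=
        Finset.prod_ne_zero_iff.1 (by linarith)
      have := Real.log_nonneg a
      rw [Real.log_prod b] at this
      have := this.trans (Finset.sum_le_sum fun i hi => Real.log_le_sub_one_of_pos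
        ((mul_nonneg (hp i) (inv_pos.2 (q1 i)).le).lt_of_ne' (b i hi)))
      rw [Finset.sum_sub_distrib] at this
      linarith
  have r : (fun i => (D (Pi.single i 1) + e)⁻¹) =
      ∑ i, (D (Pi.single i 1) + e)⁻¹ • (Pi.single i 1 : ι → ℝ) := by
    ext j; simp [Finset.sum_apply, Pi.single_apply]
  rw [r, map_sum] at k
  refine absurd k (not_le.2 (Finset.sum_lt_sum_of_nonempty Finset.univ_nonempty fun i _ => ?_))
  rw [map_smul, smul_eq_mul, inv_mul_lt_iff₀ (q1 i)]
  linarith [show 0 < e from e0]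

lemma mono_of_update (h : ∀ x, 0 ≤ x → ∀ i t, x i ≤ t → u x ≤ u (Function.update x i t))
    {y x : ι → ℝ} (hy : 0 ≤ y) (hyx : y ≤ x) : u y ≤ u x := by
  have : ∀ s : Finset ι, u y ≤ u (s.piecewise x y) := fun s => by
    induction s using Finset.induction_on with
    | empty => simp
    | insert i s hi ih =>
      rw [Finset.piecewise_insert]
      exact ih.trans (h _ (s.le_piecewise_of_le_of_le (hy.trans hyx) hy) i _
        (s.piecewise_le_of_le_of_le le_rfl hyx i))
  simpa using this Finset.univ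

end Pool.Agent.H43.Mno
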