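import Mathlib

set_option autoImplicit false

namespace Pool.Agent.H43.Nu

open MeasureTheory ProbabilityTheory unitInterval
open scoped ENNReal

variable {V : Type} {G : SimpleGraph V}

/-- closed for pointwise convergence -/
def Closed (Γ : Subgroup (G ≃g G)) : Prop :=
  ∀ φ : G ≃g G, (∀ S : Finset V, ∃ γ ∈ Γ, ∀ v ∈ S, γ v = φ v) → φ ∈ Γ

/-- vertex-transitive -/
def Trans (Γ : Subgroup (G ≃g G)) : Prop := ∀ x y : V, ∃ γ ∈ Γ, γ x = y

/-- the orbit of `y` under the stabiliser of `x` -/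
def orb (Γ : Subgroup (G ≃g G)) (x y : V) : Set V := {z | ∃ γ ∈ Γ, γ x = x ∧ γ y = z}

/-- the weight of `x` relative to `o` -/
noncomputable def wt (Γ : Subgroup (G ≃g G)) (o x : V) : ℝ :=
  ((orb Γ x o).ncard : ℝ) / ((orb Γ o x).ncard : ℝ)

/-- infinite total weight -/
def Heavy (Γ : Subgroup (G ≃g G)) (o : V) (K : Set V) : Prop :=
  ∑' x : K, ENNReal.ofReal (wt Γ o x) = ⊤

/-- the open cluster of `x` when `ω` is the set of open edges -/
def clus (G : SimpleGraph V) (ω : Set (Sym2 V)) (x : V) : Set V :=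
  {y | (G ⊓ SimpleGraph.fromEdgeSet ω).Reachable x y}

/-- the heaviness threshold -/
noncomputable def pH (Γ : Subgroup (G ≃g G)) (o : V) : ℝ :=
  sInf {p : ℝ | ∃ h : p ∈ Set.Icc (0 : ℝ) 1,
    0 < setBernoulli G.edgeSet ⟨p, h⟩ {ω | ∃ x, Heavy Γ o (clus G ω x)}}

/-- external vertex boundary -/
def bdry (G : SimpleGraph V) (F : Finset V) : Set V := {y | y ∉ F ∧ ∃ x ∈ F, G.Adj x y}

/-- the weighted vertex Cheeger constant -/
noncomputable def Phi (Γ : Subgroup (G ≃g G)) (o : V) : ℝ :=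
  sInf {r : ℝ | ∃ F : Finset V, F.Nonempty ∧
    r = (∑ᶠ y ∈ bdry G F, wt Γ o y) / ∑ x ∈ F, wt Γ o x}

/-- stabiliser -/
def St (Γ : Subgroup (G ≃g G)) (x : V) : Subgroup (G ≃g G) := Γ ⊓ MulAction.stabilizer (G ≃g G) x

lemma mem_St {Γ : Subgroup (G ≃g G)} {x : V} {γ : G ≃g G} : γ ∈ St Γ x ↔ γ ∈ Γ ∧ γ x = x := by
  simp [St, MulAction.mem_stabilizer_iff, RelIso.smul_def]

lemma orb_ncard (Γ : Subgroup (G ≃g G)) (x y : V) :
    (orb Γ x y).ncard = (St Γ y).relIndex (St Γ x) := by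
  have h1 : orb Γ x y = MulAction.orbit (St Γ x) y := by
    ext z
    constructor
    · rintro ⟨γ, h, hx, hy⟩
      exact ⟨⟨γ, mem_St.2 ⟨h, hx⟩⟩, hy⟩
    · rintro ⟨⟨γ, h⟩, hy⟩
      exact ⟨γ, (mem_St.1 h).1, (mem_St.1 h).2, hy⟩
  rw [h1, ← MulAction.index_stabilizer, Subgroup.relIndex]
  congr 1
  ext ⟨γ, h⟩
  rw [MulAction.mem_stabilizer_iff, Subgroup.mem_subgroupOf, mem_St]
  exact ⟨fun h2 => ⟨(mem_St.1 h).1, h2⟩, fun h2 => h2.2⟩

lemma orb_fin (hf : ∀ v, (G.neighborSet v).Finite) (Γ : Subgroup (G ≃g G)) {x y : V}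
    (h : G.Reachable x y) : (orb Γ x y).Finite := by
  rw [SimpleGraph.reachable_iff_reflTransGen] at h
  induction h with
  | refl => exact (Set.finite_singleton x).subset fun z ⟨γ, _, h1, h2⟩ => h2.symm.trans h1
  | tail _ hb ih =>
    refine (ih.biUnion fun z _ => hf z).subset ?_
    rintro z ⟨γ, h0, h1, rfl⟩
    exact Set.mem_biUnion ⟨γ, h0, h1, rfl⟩ (γ.map_rel_iff.2 hb)

lemma orb_pos (hf : ∀ v, (G.neighborSet v).Finite) (hc : G.Connected) (Γ : Subgroup (G ≃g G))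
    (x y : V) : (orb Γ x y).ncard ≠ 0 :=
  ((Set.ncard_pos (orb_fin hf Γ (hc x y))).2 ⟨y, 1, Γ.one_mem, rfl, rfl⟩).ne'

lemma cocycle {H : Type} [Group H] (A B C : Subgroup H) (h1 : C.relIndex A ≠ 0)
    (h2 : A.relIndex B ≠ 0) (h3 : B.relIndex C ≠ 0) :
    B.relIndex A * C.relIndex B * A.relIndex C = C.relIndex A * A.relIndex B * B.relIndex C := by
  have k : ∀ X Y Z : Subgroup H, Z.relIndex (Y ⊓ X) * Y.relIndex X = (X ⊓ Y ⊓ Z).relIndex X := by
    intro X Y Z
    rw [← Subgroup.inf_relIndex_right Z, ← Subgroup.inf_relIndex_right Y X,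
      Subgroup.relIndex_mul_relIndex _ _ _ inf_le_right inf_le_right]
    congr 1
    rw [inf_comm Z, inf_comm Y]
  have e1 := (k A B C).trans ((congrArg (fun T : Subgroup H => T.relIndex A)
    (inf_right_comm A B C)).trans (k A C B).symm)
  have e2 := (k B C A).trans ((congrArg (fun T : Subgroup H => T.relIndex B)
    (inf_right_comm B C A)).trans (k B A C).symm)
  have e3 := (k C A B).trans ((congrArg (fun T : Subgroup H => T.relIndex C)
    (inf_right_comm C A B)).trans (k C B A).symm)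
  have n1 : C.relIndex (B ⊓ A) ≠ 0 := fun h =>
    h1 (Subgroup.relIndex_eq_zero_of_le_right inf_le_right h)
  have n2 : A.relIndex (C ⊓ B) ≠ 0 := fun h =>
    h2 (Subgroup.relIndex_eq_zero_of_le_right inf_le_right h)
  have n3 : B.relIndex (A ⊓ C) ≠ 0 := fun h =>
    h3 (Subgroup.relIndex_eq_zero_of_le_right inf_le_right h)
  rw [inf_comm C A] at e1
  rw [inf_comm A B] at e2
  rw [inf_comm B C] at e3
  apply Nat.eq_of_mul_eq_mul_left (Nat.pos_of_ne_zero (mul_ne_zero (mul_ne_zero n1 n2) n3))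
  calc _ = (C.relIndex (B ⊓ A) * B.relIndex A) * (A.relIndex (C ⊓ B) * C.relIndex B) *
        (B.relIndex (A ⊓ C) * A.relIndex C) := by ring
    _ = _ := by rw [e1, e2, e3]; ring

lemma wt_pos (hf : ∀ v, (G.neighborSet v).Finite) (hc : G.Connected) (Γ : Subgroup (G ≃g G))
    (o x : V) : 0 < wt Γ o x :=
  div_pos (Nat.cast_pos.2 (Nat.pos_of_ne_zero (orb_pos hf hc Γ _ _)))
    (Nat.cast_pos.2 (Nat.pos_of_ne_zero (orb_pos hf hc Γ _ _)))

lemma wt_mul (hf : ∀ v, (G.neighborSet v).Finite) (hc : G.Connected) (Γ : Subgroup (G ≃g G))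
    (o x y : V) : wt Γ o y = wt Γ o x * wt Γ x y := by
  have h := fun a b => orb_pos hf hc Γ a b
  have h' := fun a b => (Nat.cast_ne_zero (R := ℝ)).2 (h a b)
  have c := cocycle (St Γ o) (St Γ x) (St Γ y) (orb_ncard Γ _ _ ▸ h _ _) (orb_ncard Γ _ _ ▸ h _ _)
    (orb_ncard Γ _ _ ▸ h _ _)
  simp only [← orb_ncard] at c
  have c' := congrArg (Nat.cast (R := ℝ)) c
  push_cast at c'
  unfold wt
  have := h' o x; have := h' o y; have := h' x y
  field_simp
  linarith

lemma orb_map {Γ : Subgroup (G ≃g G)} {δ : G ≃g G} (hδ : δ ∈ Γ) (x y : V) :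
    (orb Γ (δ x) (δ y)).ncard = (orb Γ x y).ncard := by
  rw [← Set.ncard_image_of_injective (orb Γ x y) δ.injective]
  congr 1
  ext z
  constructor
  · rintro ⟨γ, h, hx, rfl⟩
    refine ⟨(δ⁻¹ * γ * δ) y, ⟨_, Γ.mul_mem (Γ.mul_mem (Γ.inv_mem hδ) h) hδ, ?_, rfl⟩, ?_⟩
    · simp [hx]
    · simp
  · rintro ⟨_, ⟨γ, h, hx, rfl⟩, rfl⟩
    refine ⟨δ * γ * δ⁻¹, Γ.mul_mem (Γ.mul_mem hδ h) (Γ.inv_mem hδ), ?_, ?_⟩
    · simp [hx]
    · simp

lemma tsum_le_range {β γ : Type} (g : γ → β) (F : β → ℝ≥0∞) (h : Function.support F ⊆ Set.range g) :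
    ∑' b, F b ≤ ∑' c, F (g c) := by
  rw [← tsum_subtype_eq_of_support_subset h]
  exact ENNReal.tsum_le_tsum_comp_of_surjective (Set.rangeFactorization_surjective (f := g))
    (fun b : Set.range g => F b)

lemma walk_sum (f : V → ℝ≥0∞) (c : ℝ≥0∞) (hf : ∀ x, ∑' y : G.neighborSet x, f y ≤ c * f x)
    (n : ℕ) (x : V) :
    ∑' q : (Σ y, G.Walk x y), (if q.2.length = n then f q.1 else 0) ≤ c ^ n * f x := by
  induction n generalizing x with
  | zero =>
    refine (tsum_le_range (fun _ : Unit => (⟨x, .nil⟩ : Σ y, G.Walk x y)) _ ?_).trans ?_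
    · rintro ⟨y, q⟩ hq
      cases q with
      | nil => exact ⟨(), rfl⟩
      | cons h q => simp at hq
    · simp
  | succ n ih =>
    refine (tsum_le_range (fun t : (Σ z : G.neighborSet x, Σ y, G.Walk z y) =>
      (⟨t.2.1, .cons t.1.2 t.2.2⟩ : Σ y, G.Walk x y)) _ ?_).trans ?_
    · rintro ⟨y, q⟩ hq
      cases q with
      | nil => simp at hq
      | cons h q => exact ⟨⟨⟨_, h⟩, _, q⟩, rfl⟩
    · rw [ENNReal.tsum_sigma']
      simp only [SimpleGraph.Walk.length_cons, add_left_inj]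
      refine (ENNReal.tsum_le_tsum fun z : G.neighborSet x => ih z).trans ?_
      rw [ENNReal.tsum_mul_left, pow_succ, mul_assoc]
      exact mul_le_mul_right (hf x) _

lemma prob_sub {ι : Type} (u : Set ι) (p : I) (s : Finset ι) :
    setBernoulli u p {ω | ∀ e ∈ s, e ∈ ω} ≤ (toNNReal p : ℝ≥0∞) ^ s.card := by
  rw [setBernoulli_apply']
  have : ((fun p : ι → Prop ↦ {i | p i}) ⁻¹' {ω | ∀ e ∈ s, e ∈ ω}) =
      (s : Set ι).pi fun _ => {True} := by
    ext ξ
    simp
  rw [this, Measure.infinitePi_pi _ (fun _ _ => MeasurableSet.of_discrete)]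
  refine (Finset.prod_le_pow_card _ _ _ fun i _ => ?_)
  simp only [Measure.coe_add, Measure.coe_nnreal_smul_apply, Pi.add_apply]
  rw [Measure.dirac_apply' False MeasurableSet.of_discrete, Set.indicator_of_notMem (by simp),
    mul_zero, add_zero]
  exact mul_le_of_le_one_right' prob_le_one

lemma light [Countable V] (f : V → ℝ≥0∞) (c : ℝ≥0∞)
    (hf : ∀ x, ∑' y : G.neighborSet x, f y ≤ c * f x) (p : I) (hp : (toNNReal p : ℝ≥0∞) * c < 1)
    (x : V) (hx : f x ≠ ⊤) :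
    setBernoulli G.edgeSet p {ω | ∑' y : clus G ω x, f y = ⊤} = 0 := by
  classical
  haveI : ∀ y, Countable (G.Walk x y) := fun y =>
    SimpleGraph.Walk.support_injective.countable
  let A : (Σ y, G.Walk x y) → Set (Set (Sym2 V)) := fun q =>
    {ω | q.2.IsPath ∧ ∀ e ∈ q.2.edges.toFinset, e ∈ ω}
  have hA : ∀ q, MeasurableSet (A q) := fun q => by
    refine MeasurableSet.inter (s₁ := {_ω : Set (Sym2 V) | q.2.IsPath}) (MeasurableSet.const _) ?_
    have : {ω : Set (Sym2 V) | ∀ e ∈ q.2.edges.toFinset, e ∈ ω} =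
        ⋂ e ∈ q.2.edges.toFinset, {ω | e ∈ ω} := by ext; simp
    change MeasurableSet {ω : Set (Sym2 V) | ∀ e ∈ q.2.edges.toFinset, e ∈ ω}
    rw [this]
    exact Finset.measurableSet_biInter _ fun e _ => measurableSet_mem e
  let S : Set (Sym2 V) → ℝ≥0∞ := fun ω => ∑' q, (A q).indicator (fun _ => f q.1) ω
  have hm : ∀ q : (Σ y, G.Walk x y), Measurable ((A q).indicator (fun _ => f q.1)) := fun q =>
    measurable_const.indicator (hA q)
  have hI : ∫⁻ ω, S ω ∂(setBernoulli G.edgeSet p) ≠ ⊤ := by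
    rw [lintegral_tsum fun q => (hm q).aemeasurable]
    refine ne_top_of_le_ne_top (b := ∑' n : ℕ, ((toNNReal p : ℝ≥0∞) * c) ^ n * f x) ?_ ?_
    · rw [ENNReal.tsum_mul_right, ENNReal.tsum_geometric]
      exact ENNReal.mul_ne_top (ENNReal.inv_ne_top.2 (tsub_pos_of_lt hp).ne') hx
    · calc _ ≤ ∑' q : (Σ y, G.Walk x y), ∑' n : ℕ, (toNNReal p : ℝ≥0∞) ^ n *
            (if q.2.length = n then f q.1 else 0) := by
            refine ENNReal.tsum_le_tsum fun q => ?_
            refine le_trans ?_ (ENNReal.le_tsum q.2.length)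
            rw [lintegral_indicator_const (hA q), if_pos rfl, mul_comm]
            refine mul_le_mul_left ?_ _
            by_cases hq : q.2.IsPath
            · refine (measure_mono fun ω h => h.2).trans ((prob_sub _ _ _).trans_eq ?_)
              rw [List.toFinset_card_of_nodup hq.isTrail.edges_nodup,
                SimpleGraph.Walk.length_edges]
            · have : A q = ∅ := Set.eq_empty_of_forall_notMem fun ω h => hq h.1
              simp [this]
        _ ≤ _ := by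
            rw [ENNReal.tsum_comm]
            refine ENNReal.tsum_le_tsum fun n => ?_
            rw [ENNReal.tsum_mul_left, mul_pow, mul_assoc]
            exact mul_le_mul_right (walk_sum f c hf n x) _
  refine measure_mono_null (t := {ω | ¬ S ω < ⊤}) (fun ω h => ?_)
    (ae_lt_top (Measurable.tsum hm) hI)
  have h' : ∑' y : clus G ω x, f y = ⊤ := h
  refine fun hS => hS.ne (top_le_iff.1 (h' ▸ ?_))
  have ex : ∀ y : clus G ω x, ∃ q : G.Walk x y, ω ∈ A ⟨y, q⟩ := fun y => by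
    obtain ⟨q, hq⟩ := y.2.exists_isPath
    refine ⟨q.mapLe inf_le_left, hq.mapLe _, fun e he => ?_⟩
    have he' : e ∈ q.edges := by simpa using he
    have := q.edges_subset_edgeSet he'
    rw [SimpleGraph.edgeSet_inf, SimpleGraph.edgeSet_fromEdgeSet] at this
    exact this.2.1
  choose q hq using ex
  refine le_trans ?_ (ENNReal.tsum_comp_le_tsum_of_injective
    (f := fun y : clus G ω x => (⟨y, q y⟩ : Σ y, G.Walk x y))
    (fun a b hab => Subtype.ext (congrArg Sigma.fst hab)) _)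
  exact ENNReal.tsum_le_tsum fun y => by rw [Set.indicator_of_mem (hq y)]

end Pool.Agent.H43.Nu
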