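import Pool.Agent.H43.Nu1

set_option autoImplicit false

namespace Pool.Agent.H43.Nu

open MeasureTheory ProbabilityTheory unitInterval Sum
open scoped ENNReal

abbrev L := Fin 2 ⊕ Fin 50

def ok (a b : L) : Prop :=
  ¬ (a.isLeft = true ∧ b = inr 0) ∧ ¬ (a.isLeft = false ∧ b = inl 0)

def W := {w : List L // w.IsChain ok}

instance : Countable W := Subtype.countable

def rt : W := ⟨[], List.isChain_nil⟩

def E (x y : W) : Prop := (∃ i, y.1 = x.1 ++ [inl i]) ∨ (∃ j, x.1 = y.1 ++ [inr j])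

def T : SimpleGraph W where
  Adj x y := E x y ∨ E y x
  symm := ⟨fun _ _ h => h.symm⟩
  loopless := ⟨fun x h => by
    rcases h with (⟨i, h⟩ | ⟨i, h⟩) | (⟨i, h⟩ | ⟨i, h⟩) <;> simp at h⟩

def Gam : Subgroup (T ≃g T) where
  carrier := {φ | ∀ x y, E (φ x) (φ y) ↔ E x y}
  mul_mem' := fun {a b} ha hb x y => (ha _ _).trans (hb x y)
  one_mem' := fun _ _ => Iff.rfl
  inv_mem' := fun {a} ha x y => by
    have := ha (a⁻¹ x) (a⁻¹ y)
    simpa using this.symm

lemma closed : Closed Gam := fun φ h x y => by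
  classical
  obtain ⟨γ, hγ, h⟩ := h {x, y}
  rw [← h x (by simp), ← h y (by simp)]
  exact hγ x y

def mk (φ ψ : W → W) (h1 : ∀ x, ψ (φ x) = x) (h2 : ∀ x, φ (ψ x) = x)
    (e1 : ∀ x y, E x y → E (φ x) (φ y)) (e2 : ∀ x y, E x y → E (ψ x) (ψ y)) :
    {γ : T ≃g T // γ ∈ Gam ∧ ∀ x, γ x = φ x} := by
  have k : ∀ x y, E (φ x) (φ y) ↔ E x y := fun x y =>
    ⟨fun h => by simpa [h1] using e2 _ _ h, e1 x y⟩
  exact ⟨⟨⟨φ, ψ, h1, h2⟩, fun {a b} => or_congr (k a b) (k b a)⟩, k, fun _ => rfl⟩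

/-- relabel the first letter -/
def sg (π : L → L) (hπ : ∀ a, (π a).isLeft = a.isLeft) (w : W) : W :=
  ⟨w.1.modifyHead π, by
    obtain ⟨w, h⟩ := w
    cases w with
    | nil => exact h
    | cons a w =>
      cases w with
      | nil => simp
      | cons b w =>
        simp only [List.modifyHead_cons, List.isChain_cons_cons] at h ⊢
        exact ⟨by simpa only [ok, hπ] using h.1, h.2⟩⟩

lemma sg_E (π : L → L) (hπ : ∀ a, (π a).isLeft = a.isLeft) (x y : W) (h : E x y) :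
    E (sg π hπ x) (sg π hπ y) := by
  obtain ⟨x, hx⟩ := x
  obtain ⟨y, hy⟩ := y
  rcases h with ⟨i, h⟩ | ⟨i, h⟩
  · obtain rfl : y = x ++ [inl i] := h
    left
    cases x with
    | nil =>
      obtain ⟨k, hk⟩ := Sum.isLeft_iff.1 (hπ (inl i))
      exact ⟨k, by simp [sg, hk]⟩
    | cons a x => exact ⟨i, by simp [sg]⟩
  · obtain rfl : x = y ++ [inr i] := h
    right
    cases y with
    | nil =>
      obtain ⟨k, hk⟩ := Sum.isRight_iff.1 (Sum.isLeft_eq_false.1 (hπ (inr i)))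
      exact ⟨k, by simp [sg, hk]⟩
    | cons a x => exact ⟨i, by simp [sg]⟩

lemma ex_sg (a b : L) (h : a.isLeft = b.isLeft) :
    ∃ γ ∈ Gam, γ rt = rt ∧ ∀ w : W, ∀ l, w.1 = a :: l → (γ w).1 = b :: l := by
  have hπ : ∀ c, (Equiv.swap a b c).isLeft = c.isLeft := fun c => by
    rw [Equiv.swap_apply_def]
    split_ifs with h1 h2
    · rw [h1, h]
    · rw [h2, h]
    · rfl
  have inv : ∀ x, sg _ hπ (sg _ hπ x) = x := fun ⟨x, hx⟩ => Subtype.ext (by
    cases x <;> simp [sg])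
  obtain ⟨γ, h1, h2⟩ := mk _ _ inv inv (sg_E _ hπ) (sg_E _ hπ)
  refine ⟨γ, h1, by rw [h2]; rfl, fun w l hw => ?_⟩
  rw [h2]
  simp [sg, hw]

/-- shift along the distinguished edge -/
def sh (c d : L) (hc : ∀ b, b ≠ d → ok c b) (w : W) : W :=
  ⟨if w.1.head? = some d then w.1.tail else c :: w.1, by
    obtain ⟨w, h⟩ := w
    split_ifs with h1
    · exact h.tail
    · cases w with
      | nil => simp
      | cons b w => exact List.isChain_cons_cons.2 ⟨hc b (by simpa using h1), h⟩⟩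

lemma sh_inv (c d : L) (hc : ∀ b, b ≠ d → ok c b) (hd : ∀ b, b ≠ c → ok d b) (h : ¬ ok d c)
    (w : W) : sh d c hd (sh c d hc w) = w := by
  obtain ⟨w, hw⟩ := w
  apply Subtype.ext
  cases w with
  | nil => simp [sh]
  | cons a w =>
    by_cases h1 : a = d
    · subst h1
      cases w with
      | nil => simp [sh]
      | cons b w =>
        have : b ≠ c := fun h2 => h (h2 ▸ (List.isChain_cons_cons.1 hw).1)
        simp [sh, this]
    · simp [sh, h1]

lemma o1 : ∀ b : L, b ≠ inr 0 → ok (inl 0) b := fun b h => by simp [ok, h]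
lemma o2 : ∀ b : L, b ≠ inl 0 → ok (inr 0) b := fun b h => by simp [ok, h]

lemma sh_app (c d : L) (hc : ∀ b, b ≠ d → ok c b) (x y : W) (l : L) (h : y.1 = x.1 ++ [l]) :
    (sh c d hc y).1 = (sh c d hc x).1 ++ [l] ∨
      (l = d ∧ (sh c d hc x).1 = (sh c d hc y).1 ++ [c]) := by
  obtain ⟨x, hx⟩ := x
  obtain ⟨y, hy⟩ := y
  obtain rfl : y = x ++ [l] := h
  cases x with
  | nil => by_cases h1 : l = d <;> simp [sh, h1]
  | cons a x => by_cases h1 : a = d <;> simp [sh, h1]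

lemma sh_E1 (x y : W) (h : E x y) : E (sh _ _ o1 x) (sh _ _ o1 y) := by
  rcases h with ⟨i, h⟩ | ⟨i, h⟩
  · rcases sh_app _ _ o1 x y _ h with h | h
    · exact .inl ⟨i, h⟩
    · simp at h
  · rcases sh_app _ _ o1 y x _ h with h | h
    · exact .inr ⟨i, h⟩
    · exact .inl ⟨0, h.2⟩

lemma sh_E2 (x y : W) (h : E x y) : E (sh _ _ o2 x) (sh _ _ o2 y) := by
  rcases h with ⟨i, h⟩ | ⟨i, h⟩
  · rcases sh_app _ _ o2 x y _ h with h | h
    · exact .inl ⟨i, h⟩
    · exact .inr ⟨0, h.2⟩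
  · rcases sh_app _ _ o2 y x _ h with h | h
    · exact .inr ⟨i, h⟩
    · simp at h

lemma step (a : L) (w v : W) (h : v.1 = a :: w.1) : ∃ γ ∈ Gam, γ w = v ∧ (γ rt).1 = [a] := by
  have i1 := sh_inv _ _ o1 o2 (by simp [ok])
  have i2 := sh_inv _ _ o2 o1 (by simp [ok])
  have hv := h ▸ v.2
  cases a with
  | inl i =>
    obtain ⟨γ, h1, h2⟩ := mk _ _ i1 i2 sh_E1 sh_E2
    obtain ⟨δ, k1, -, k2⟩ := ex_sg (inl 0) (inl i) rfl
    refine ⟨δ * γ, Gam.mul_mem k1 h1, Subtype.ext ?_, k2 (γ rt) [] (by rw [h2]; simp [sh, rt])⟩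
    rw [h]
    refine k2 (γ w) _ ?_
    rw [h2]
    refine if_neg fun h3 => ?_
    have := (List.isChain_cons.1 hv).1 _ h3
    simp [ok] at this
  | inr i =>
    obtain ⟨γ, h1, h2⟩ := mk _ _ i2 i1 sh_E2 sh_E1
    obtain ⟨δ, k1, -, k2⟩ := ex_sg (inr 0) (inr i) rfl
    refine ⟨δ * γ, Gam.mul_mem k1 h1, Subtype.ext ?_, k2 (γ rt) [] (by rw [h2]; simp [sh, rt])⟩
    rw [h]
    refine k2 (γ w) _ ?_
    rw [h2]
    refine if_neg fun h3 => ?_
    have := (List.isChain_cons.1 hv).1 _ h3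
    simp [ok] at this

lemma from_rt (v : W) : (∃ γ ∈ Gam, γ rt = v) ∧ T.Reachable rt v := by
  obtain ⟨v, hv⟩ := v
  induction v with
  | nil => exact ⟨⟨1, Gam.one_mem, rfl⟩, .refl _⟩
  | cons a w ih =>
    obtain ⟨⟨γ, h1, h2⟩, h3⟩ := ih hv.tail
    obtain ⟨δ, k1, k2, k3⟩ := step a ⟨w, hv.tail⟩ ⟨a :: w, hv⟩ rfl
    refine ⟨⟨δ * γ, Gam.mul_mem k1 h1, by rw [← k2, ← h2]; rfl⟩, ?_⟩
    rw [← k2]
    refine SimpleGraph.Reachable.trans (SimpleGraph.Adj.reachable ?_) (h3.map δ.toHom)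
    cases a with
    | inl i => exact .inl (.inl ⟨i, k3⟩)
    | inr i => exact .inr (.inr ⟨i, k3⟩)

lemma conn : T.Connected :=
  haveI : Nonempty W := ⟨rt⟩
  ⟨fun x y => (from_rt x).2.symm.trans (from_rt y).2⟩

lemma trans : Trans Gam := fun x y => by
  obtain ⟨γ, h1, rfl⟩ := (from_rt x).1
  obtain ⟨δ, k1, rfl⟩ := (from_rt y).1
  exact ⟨δ * γ⁻¹, Gam.mul_mem k1 (Gam.inv_mem h1), by simp⟩

def one (a : L) : W := ⟨[a], by simp⟩

lemma one_inj : Function.Injective one := fun a b h => by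
  simpa [one] using congrArg Subtype.val h

lemma out_rt : {y | E rt y} = Set.range fun i => one (inl i) := by
  ext y
  constructor
  · rintro (⟨i, h⟩ | ⟨i, h⟩)
    · exact ⟨i, Subtype.ext h.symm⟩
    · simp [rt] at h
  · rintro ⟨i, rfl⟩
    exact .inl ⟨i, rfl⟩

lemma in_rt : {y | E y rt} = Set.range fun i => one (inr i) := by
  ext y
  constructor
  · rintro (⟨i, h⟩ | ⟨i, h⟩)
    · simp [rt] at h
    · exact ⟨i, Subtype.ext h.symm⟩
  · rintro ⟨i, rfl⟩
    exact .inr ⟨i, rfl⟩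

lemma card_out (x : W) : {y | E x y}.encard = 2 := by
  obtain ⟨γ, h1, rfl⟩ := (from_rt x).1
  have : {y | E (γ rt) y} = γ '' {y | E rt y} := by
    ext y
    obtain ⟨y, rfl⟩ := γ.surjective y
    rw [γ.injective.mem_set_image]
    exact h1 rt y
  rw [this, γ.injective.encard_image, out_rt, ← Set.image_univ,
    Function.Injective.encard_image (f := fun i => one (inl i)) (one_inj.comp inl_injective)]
  simp

lemma card_in (x : W) : {y | E y x}.encard = 50 := by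
  obtain ⟨γ, h1, rfl⟩ := (from_rt x).1
  have : {y | E y (γ rt)} = γ '' {y | E y rt} := by
    ext y
    obtain ⟨y, rfl⟩ := γ.surjective y
    rw [γ.injective.mem_set_image]
    exact h1 y rt
  rw [this, γ.injective.encard_image, in_rt, ← Set.image_univ,
    Function.Injective.encard_image (f := fun i => one (inr i)) (one_inj.comp inr_injective)]
  simp

lemma locfin (x : W) : (T.neighborSet x).Finite :=
  (Set.finite_of_encard_eq_coe (k := 2) (card_out x)).union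
    (Set.finite_of_encard_eq_coe (k := 50) (card_in x))

lemma orb_out {x y : W} (h : E x y) : (orb Gam x y).ncard = 2 := by
  obtain ⟨γ, h1, rfl⟩ := (from_rt x).1
  obtain ⟨y, rfl⟩ := γ.surjective y
  have h2 : y ∈ {y | E rt y} := (h1 _ _).1 h
  have : orb Gam rt y = {y | E rt y} := by
    ext z
    constructor
    · rintro ⟨δ, k1, k2, rfl⟩
      have := (k1 _ _).2 h2
      rwa [k2] at this
    · rw [out_rt] at h2 ⊢
      obtain ⟨i, rfl⟩ := h2
      rintro ⟨j, rfl⟩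
      obtain ⟨δ, k1, k2, k3⟩ := ex_sg (inl i) (inl j) rfl
      exact ⟨δ, k1, k2, Subtype.ext (k3 _ [] rfl)⟩
  rw [orb_map h1, this, Set.ncard, card_out]
  rfl

lemma orb_in {x y : W} (h : E y x) : (orb Gam x y).ncard = 50 := by
  obtain ⟨γ, h1, rfl⟩ := (from_rt x).1
  obtain ⟨y, rfl⟩ := γ.surjective y
  have h2 : y ∈ {y | E y rt} := (h1 _ _).1 h
  have : orb Gam rt y = {y | E y rt} := by
    ext z
    constructor
    · rintro ⟨δ, k1, k2, rfl⟩
      have := (k1 _ _).2 h2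
      rwa [k2] at this
    · rw [in_rt] at h2 ⊢
      obtain ⟨i, rfl⟩ := h2
      rintro ⟨j, rfl⟩
      obtain ⟨δ, k1, k2, k3⟩ := ex_sg (inr i) (inr j) rfl
      exact ⟨δ, k1, k2, Subtype.ext (k3 _ [] rfl)⟩
  rw [orb_map h1, this, Set.ncard, card_in]
  rfl

lemma wt_E (o : W) {x y : W} (h : E x y) : wt Gam o y = 25 * wt Gam o x := by
  have : wt Gam x y = 25 := by
    rw [wt, orb_out h, orb_in h]
    norm_num
  rw [wt_mul locfin conn Gam o x y, this, mul_comm]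

def up (x : W) : W := ⟨x.1 ++ [inl 1], List.isChain_append.2 ⟨x.2, by simp, by simp [ok]⟩⟩

lemma up_inj : Function.Injective up := fun a b h =>
  Subtype.ext (by simpa [up] using congrArg Subtype.val h)

lemma up_E (x : W) : E x (up x) := .inl ⟨1, rfl⟩

end Pool.Agent.H43.Nu
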