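import Mathlib

set_option autoImplicit false

namespace Pool.Agent.H43.Orb

/-- Integer chains: finite formal integer combinations of lists of vertices. -/
abbrev Ch (α : Type*) := List α →₀ ℤ

variable {α β : Type*}

/-- The simplicial boundary of one list of vertices: the alternating sum of its faces. -/
noncomputable def dl (l : List α) : Ch α :=
  ∑ i ∈ Finset.range l.length, (-1 : ℤ) ^ i • Finsupp.single (l.eraseIdx i) (1 : ℤ)

/-- The simplicial boundary operator, the linear extension of `dl`. -/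
noncomputable def d : Ch α →ₗ[ℤ] Ch α := Finsupp.linearCombination ℤ dl

noncomputable def sg (l : List α) : Ch α := Finsupp.single l 1

noncomputable def ext {M : Type*} [AddCommGroup M] (φ : List α → M) : Ch α →ₗ[ℤ] M :=
  Finsupp.linearCombination ℤ φ

@[simp] lemma ext_sg {M : Type*} [AddCommGroup M] (φ : List α → M) (l : List α) :
    ext φ (sg l) = φ l := by
  simp [ext, sg]

@[simp] lemma d_sg (l : List α) : d (sg l) = dl l := ext_sg dl l

lemma hom_ext {M : Type*} [AddCommGroup M] {F G : Ch α →ₗ[ℤ] M}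
    (h : ∀ l, F (sg l) = G (sg l)) (c : Ch α) : F c = G c := by
  have : F = G := by
    apply Finsupp.lhom_ext'
    intro l
    apply LinearMap.ext_ring
    simpa [sg] using h l
  rw [this]

noncomputable def cons (a : α) : Ch α →ₗ[ℤ] Ch α := ext fun l => sg (a :: l)

noncomputable def mp (f : α → β) : Ch α →ₗ[ℤ] Ch β := ext fun l => sg (l.map f)

@[simp] lemma cons_sg (a : α) (l : List α) : cons a (sg l) = sg (a :: l) := ext_sg _ _

@[simp] lemma mp_sg (f : α → β) (l : List α) : mp f (sg l) = sg (l.map f) := ext_sg _ _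

@[simp] lemma dl_nil : dl ([] : List α) = 0 := by simp [dl]

lemma dl_cons (a : α) (l : List α) : dl (a :: l) = sg l - cons a (dl l) := by
  unfold dl
  rw [List.length_cons, Finset.sum_range_succ', map_sum, sub_eq_add_neg, add_comm,
    ← Finset.sum_neg_distrib]
  congr 1
  · simp [sg]
  · refine Finset.sum_congr rfl fun i _ => ?_
    rw [map_smul, pow_succ, List.eraseIdx_cons_succ]
    have := cons_sg a (l.eraseIdx i)
    unfold sg at this
    rw [this]
    simp

lemma d_cons (a : α) (c : Ch α) : d (cons a c) = c - cons a (d c) := by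
  have := hom_ext (F := d ∘ₗ cons a) (G := LinearMap.id - cons a ∘ₗ d)
    (fun l => by simp [dl_cons]) c
  simpa using this

lemma d_dl (l : List α) : d (dl l) = 0 := by
  induction l with
  | nil => simp
  | cons a l ih => rw [dl_cons, map_sub, d_cons, ih]; simp

lemma d_d (c : Ch α) : d (d c) = 0 := by
  have := hom_ext (F := (d : Ch α →ₗ[ℤ] Ch α) ∘ₗ d) (G := 0) (fun l => by simp [d_dl]) c
  simpa using this

lemma mp_cons (f : α → β) (a : α) (c : Ch α) : mp f (cons a c) = cons (f a) (mp f c) := by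
  have := hom_ext (F := mp f ∘ₗ cons a) (G := cons (f a) ∘ₗ mp f) (fun l => by simp) c
  simpa using this

lemma mp_dl (f : α → β) (l : List α) : mp f (dl l) = dl (l.map f) := by
  induction l with
  | nil => simp
  | cons a l ih => rw [List.map_cons, dl_cons, dl_cons, map_sub, mp_cons, ih]; simp

lemma d_mp (f : α → β) (c : Ch α) : d (mp f c) = mp f (d c) := by
  have := hom_ext (F := d ∘ₗ mp f) (G := mp f ∘ₗ d) (fun l => by simp [mp_dl]) c
  simpa using this

lemma ext_mp {M : Type*} [AddCommGroup M] (φ : List β → M) (f : α → β) (c : Ch α) :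
    ext φ (mp f c) = ext (fun l => φ (l.map f)) c := by
  have := hom_ext (F := ext φ ∘ₗ mp f) (G := ext (fun l => φ (l.map f))) (fun l => by simp) c
  simpa using this

lemma mp_mp {γ : Type*} (g : β → γ) (f : α → β) (c : Ch α) : mp g (mp f c) = mp (g ∘ f) c := by
  have := hom_ext (F := mp g ∘ₗ mp f) (G := mp (g ∘ f)) (fun l => by simp) c
  simpa using this

lemma mp_id (c : Ch α) : mp id c = c := by
  have := hom_ext (F := mp (id : α → α)) (G := LinearMap.id) (fun l => by simp) c
  simpa using this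

/-- Chains supported on a set of lists. -/
abbrev On (S : Set (List α)) : Submodule ℤ (Ch α) := Finsupp.supported ℤ ℤ S

lemma sg_on {S : Set (List α)} {l : List α} (h : l ∈ S) : sg l ∈ On S :=
  Finsupp.single_mem_supported ℤ 1 h

lemma lin_on {M : Type*} [AddCommGroup M] {S : Set (List α)} (F : Ch α →ₗ[ℤ] M)
    {N : Submodule ℤ M} (h : ∀ l ∈ S, F (sg l) ∈ N) {c : Ch α} (hc : c ∈ On S) : F c ∈ N := by
  have : On S ≤ N.comap F := by
    unfold On
    rw [Finsupp.supported_eq_span_single, Submodule.span_le]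
    rintro _ ⟨l, hl, rfl⟩
    exact h l hl
  exact this hc

lemma lin_eq_on {M : Type*} [AddCommGroup M] {S : Set (List α)} (F G : Ch α →ₗ[ℤ] M)
    (h : ∀ l ∈ S, F (sg l) = G (sg l)) {c : Ch α} (hc : c ∈ On S) : F c = G c := by
  have := lin_on (F - G) (N := ⊥) (fun l hl => by simp [h l hl]) hc
  simpa [sub_eq_zero] using this

lemma on_mono {S T : Set (List α)} (h : S ⊆ T) {c : Ch α} (hc : c ∈ On S) : c ∈ On T :=
  Finsupp.supported_mono h hc

lemma dl_on {S : Set (List α)} {l : List α} (h : ∀ i < l.length, l.eraseIdx i ∈ S) :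
    dl l ∈ On S := by
  unfold dl
  refine Submodule.sum_mem _ fun i hi => Submodule.smul_mem _ _ ?_
  exact sg_on (h i (Finset.mem_range.1 hi))

lemma d_on {S T : Set (List α)} (h : ∀ l ∈ S, ∀ i < l.length, l.eraseIdx i ∈ T) {c : Ch α}
    (hc : c ∈ On S) : d c ∈ On T :=
  lin_on d (fun l hl => by rw [d_sg]; exact dl_on (h l hl)) hc

lemma cons_on {S T : Set (List α)} (a : α) (h : ∀ l ∈ S, a :: l ∈ T) {c : Ch α}
    (hc : c ∈ On S) : cons a c ∈ On T :=
  lin_on _ (fun l hl => by rw [cons_sg]; exact sg_on (h l hl)) hc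

lemma mp_on {S : Set (List α)} {T : Set (List β)} (f : α → β) (h : ∀ l ∈ S, l.map f ∈ T)
    {c : Ch α} (hc : c ∈ On S) : mp f c ∈ On T :=
  lin_on _ (fun l hl => by rw [mp_sg]; exact sg_on (h l hl)) hc

/-- prism, followed by `t` -/
noncomputable def hh (f g : α → β) (t : Ch β) : List α → Ch β
  | [] => t
  | a :: l => sg (f a :: g a :: l.map g) - cons (f a) (hh f g t l)

noncomputable def rr (f : α → β) (t : Ch β) : List α → Ch β
  | [] => t
  | a :: l => cons (f a) (rr f t l)

lemma rr_zero (f : α → β) (l : List α) : rr f 0 l = 0 := by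
  induction l with
  | nil => rfl
  | cons a l ih => simp [rr, ih]

lemma rr_nil (f : α → β) (l : List α) : rr f (sg []) l = sg (l.map f) := by
  induction l with
  | nil => rfl
  | cons a l ih => simp [rr, ih]

lemma hh_cons (f g : α → β) (t : Ch β) (a : α) (c : Ch α) :
    ext (hh f g t) (cons a c) =
      cons (f a) (cons (g a) (mp g c)) - cons (f a) (ext (hh f g t) c) := by
  have := hom_ext (F := ext (hh f g t) ∘ₗ cons a)
    (G := cons (f a) ∘ₗ cons (g a) ∘ₗ mp g - cons (f a) ∘ₗ ext (hh f g t))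
    (fun l => by simp [hh]) c
  simpa using this

lemma d_hh (f g : α → β) (t : Ch β) (l : List α) :
    d (hh f g t l) + ext (hh f g t) (dl l) = sg (l.map g) - rr f (sg [] - d t) l := by
  induction l with
  | nil => simp [hh, rr]
  | cons a l ih =>
    have e : d (hh f g t l) = sg (l.map g) - rr f (sg [] - d t) l - ext (hh f g t) (dl l) := by
      rw [← ih]; abel
    rw [hh, rr, dl_cons, map_sub, map_sub, d_cons, hh_cons, d_sg, dl_cons, dl_cons, mp_dl, e]
    simp only [map_sub, cons_sg, ext_sg, List.map_cons]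
    abel

/-- The prism operator. -/
noncomputable def pr (f g : α → β) : Ch α →ₗ[ℤ] Ch β := ext (hh f g 0)

lemma d_pr (f g : α → β) (c : Ch α) : d (pr f g c) + pr f g (d c) = mp g c - mp f c := by
  have := hom_ext (F := d ∘ₗ pr f g + pr f g ∘ₗ d) (G := mp g - mp f) (fun l => by
    have := d_hh f g 0 l
    simp only [map_zero, sub_zero, rr_nil] at this
    simpa [pr] using this) c
  simpa using this

/-- The suspension operator. -/
noncomputable def su (f g : α → β) (t b : β) : Ch α →ₗ[ℤ] Ch β :=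
  ext (hh f g (sg [t])) - cons b ∘ₗ mp g

lemma d_su (f g : α → β) (t b : β) (c : Ch α) : d (su f g t b c) = - su f g t b (d c) := by
  have := hom_ext (F := d ∘ₗ su f g t b) (G := - su f g t b ∘ₗ d) (fun l => by
    have := d_hh f g (sg [t]) l
    have e : (sg [] : Ch β) - d (sg [t]) = 0 := by simp [dl_cons]
    rw [e, rr_zero, sub_zero] at this
    simp only [su, LinearMap.comp_apply, LinearMap.sub_apply, ext_sg, mp_sg, cons_sg, map_sub,
      d_sg, LinearMap.neg_apply, dl_cons, mp_dl]
    rw [← this]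
    abel) c
  simpa using this

lemma hh_on (f g : α → β) (t : Ch β) (T : List α → Set (List β))
    (h0 : t ∈ On (T []))
    (h1 : ∀ a l, ∀ m ∈ T l, f a :: m ∈ T (a :: l))
    (h2 : ∀ a l, f a :: g a :: l.map g ∈ T (a :: l)) (l : List α) : hh f g t l ∈ On (T l) := by
  induction l with
  | nil => exact h0
  | cons a l ih => exact Submodule.sub_mem _ (sg_on (h2 a l)) (cons_on _ (h1 a l) ih)

/-- strictly increasing lists of a given length with entries in `G` -/
def Str (r : α → α → Prop) (G : Set α) (k : ℕ) : Set (List α) :=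
  {l | l.length = k ∧ l.Pairwise r ∧ ∀ x ∈ l, x ∈ G}

lemma su_on (r : α → α → Prop) (s : β → β → Prop) (G : Set β) (f g : α → β) (t b : β)
    (hff : ∀ x y, r x y → s (f x) (f y)) (hgg : ∀ x y, r x y → s (g x) (g y))
    (hfg : ∀ x y, r x y → s (f x) (g y)) (hx : ∀ x, s (f x) (g x))
    (ht : ∀ x, s (f x) t) (hb : ∀ x, s b (g x))
    (Gf : ∀ x, f x ∈ G) (Gg : ∀ x, g x ∈ G) (Gt : t ∈ G) (Gb : b ∈ G) (k : ℕ) {c : Ch α}
    (hc : c ∈ On (Str r Set.univ k)) : su f g t b c ∈ On (Str s G (k + 1)) := by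
  refine lin_on _ (fun l hl => ?_) hc
  obtain ⟨hk, hp, -⟩ := hl
  have pg : ∀ l : List α, l.Pairwise r → (l.map g).Pairwise s := fun l hp =>
    List.pairwise_map.2 (hp.imp fun h => hgg _ _ h)
  have := hh_on f g (sg [t])
    (fun l => {m | l.Pairwise r → (m.length = l.length + 1 ∧ m.Pairwise s ∧
      ∀ y ∈ m, y = t ∨ ∃ x ∈ l, y = f x ∨ y = g x)})
    (sg_on (by simp)) (fun a l m hm hp => by
      rw [List.pairwise_cons] at hp
      obtain ⟨h1, h2, h3⟩ := hm hp.2
      refine ⟨by simp [h1], List.pairwise_cons.2 ⟨fun y hy => ?_, h2⟩, fun y hy => ?_⟩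
      · rcases h3 y hy with rfl | ⟨x, hx, rfl | rfl⟩
        · exact ht a
        · exact hff _ _ (hp.1 x hx)
        · exact hfg _ _ (hp.1 x hx)
      · rcases List.mem_cons.1 hy with rfl | hy
        · exact Or.inr ⟨a, by simp, Or.inl rfl⟩
        · rcases h3 y hy with h | ⟨x, hx, h⟩
          · exact Or.inl h
          · exact Or.inr ⟨x, List.mem_cons_of_mem _ hx, h⟩)
    (fun a l hp => by
      have hp' := List.pairwise_cons.1 hp
      refine ⟨by simp, List.pairwise_cons.2 ⟨fun y hy => ?_, pg _ hp⟩, fun y hy => ?_⟩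
      · rcases List.mem_cons.1 hy with rfl | hy
        · exact hx a
        · obtain ⟨x, hx, rfl⟩ := List.mem_map.1 hy
          exact hfg _ _ (hp'.1 x hx)
      · rcases List.mem_cons.1 hy with rfl | hy
        · exact Or.inr ⟨a, by simp, Or.inl rfl⟩
        · obtain ⟨x, hx, rfl⟩ := List.mem_map.1 (show y ∈ (a :: l).map g from hy)
          exact Or.inr ⟨x, hx, Or.inr rfl⟩) l
  simp only [su, LinearMap.sub_apply, ext_sg, LinearMap.comp_apply, mp_sg, cons_sg]
  refine Submodule.sub_mem _ (on_mono (fun m hm => ?_) this) (sg_on ⟨by simp [hk], ?_, ?_⟩)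
  · obtain ⟨h1, h2, h3⟩ := hm hp
    refine ⟨by rw [h1, hk], h2, fun y hy => ?_⟩
    rcases h3 y hy with rfl | ⟨x, -, rfl | rfl⟩
    exacts [Gt, Gf x, Gg x]
  · refine List.pairwise_cons.2 ⟨fun y hy => ?_, pg _ hp⟩
    obtain ⟨x, -, rfl⟩ := List.mem_map.1 hy
    exact hb x
  · intro y hy
    rcases List.mem_cons.1 hy with rfl | hy
    · exact Gb
    · obtain ⟨x, -, rfl⟩ := List.mem_map.1 hy
      exact Gg x

/-- chains from explicit lists -/
noncomputable def toCh (L : List (ℤ × List α)) : Ch α := (L.map fun p => p.1 • sg p.2).sum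

def coef [DecidableEq α] (L : List (ℤ × List α)) (x : List α) : ℤ :=
  (L.map fun p => if p.2 = x then p.1 else 0).sum

lemma toCh_apply [DecidableEq α] (L : List (ℤ × List α)) (x : List α) : toCh L x = coef L x := by
  induction L with
  | nil => simp [toCh, coef]
  | cons p L ih =>
    unfold toCh coef at *
    simp only [List.map_cons, List.sum_cons, Finsupp.add_apply, ih]
    simp [sg, Finsupp.single_apply]

lemma toCh_eq_zero [DecidableEq α] (L : List (ℤ × List α)) (h : ∀ p ∈ L, coef L p.2 = 0) :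
    toCh L = 0 := by
  ext x
  rw [toCh_apply]
  by_cases hx : ∃ p ∈ L, p.2 = x
  · obtain ⟨p, hp, rfl⟩ := hx
    exact h p hp
  · unfold coef
    refine List.sum_eq_zero fun y hy => ?_
    obtain ⟨p, hp, rfl⟩ := List.mem_map.1 hy
    exact if_neg fun e => hx ⟨p, hp, e⟩

lemma toCh_append (L M : List (ℤ × List α)) : toCh (L ++ M) = toCh L + toCh M := by
  simp [toCh]

lemma toCh_on {S : Set (List α)} (L : List (ℤ × List α)) (h : ∀ p ∈ L, p.2 ∈ S) :
    toCh L ∈ On S := by
  unfold toCh
  refine list_sum_mem fun y hy => ?_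
  obtain ⟨p, hp, rfl⟩ := List.mem_map.1 hy
  exact Submodule.smul_mem _ _ (sg_on (h p hp))

lemma lin_toCh {M : Type*} [AddCommGroup M] (F : Ch α →ₗ[ℤ] M) (L : List (ℤ × List α)) :
    F (toCh L) = (L.map fun p => p.1 • F (sg p.2)).sum := by
  induction L with
  | nil => simp [toCh]
  | cons p L ih =>
    unfold toCh at *
    simp only [List.map_cons, List.sum_cons, map_add, ih, map_smul]

end Pool.Agent.H43.Orb
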