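import Pool.Agent.H43.Orb1

set_option autoImplicit false

namespace Pool.Agent.H43.Orb
open Finset

/-- The set partition `s` of `Fin n` has shape `p`: the multiset of its block sizes is `p`. -/
def Shape {n : ℕ} (p : Nat.Partition n) (s : Setoid (Fin n)) : Prop :=
  ∃ f : Fin n → ℕ, s = Setoid.ker f ∧
    Multiset.map (fun a => (Finset.univ.filter (fun z => f z = a)).card)
      (Finset.univ.image f).val = p.parts

/-- The proper part of the lattice of joins of set partitions of shape `p`. -/
def Proper {n : ℕ} (p : Nat.Partition n) : Set (Setoid (Fin n)) :=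
  {t | (∃ S : Set (Setoid (Fin n)), (∀ s ∈ S, Shape p s) ∧ sSup S = t) ∧ t ≠ ⊥ ∧ t ≠ ⊤}

variable {n r : ℕ}

def Lb (lam : Fin r → ℕ) (f : Fin n → Fin r) : Prop :=
  ∀ i, (univ.filter fun z => f z = i).card = lam i

lemma card_pre {lam : Fin r → ℕ} {f : Fin n → Fin r} (h : Lb lam f) (A : Fin r → Prop)
    [DecidablePred A] : (univ.filter fun z => A (f z)).card = ∑ i ∈ univ.filter A, lam i := by
  rw [card_eq_sum_card_fiberwise (f := f) (t := univ.filter A) (fun z hz => by simpa using hz)]
  refine sum_congr rfl fun i hi => ?_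
  rw [← h i, filter_filter]
  congr 1
  ext z
  simp only [mem_filter, mem_univ, true_and] at hi ⊢
  exact ⟨fun h => h.2, fun h => ⟨h ▸ hi, h⟩⟩

lemma shape_of_lb {p : Nat.Partition n} {lam : Fin r → ℕ} (hp : p.parts = univ.val.map lam)
    (h0 : ∀ i, 0 < lam i) {f : Fin n → Fin r} (h : Lb lam f) : Shape p (Setoid.ker f) := by
  refine ⟨fun z => (f z).val, ?_, ?_⟩
  · ext a b
    simp [Setoid.ker_def, Fin.val_inj]
  · have e : (univ.image fun z => (f z).val) = (univ : Finset (Fin r)).map Fin.valEmbedding := by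
      ext a
      simp only [mem_image, mem_univ, true_and, mem_map, Fin.valEmbedding_apply]
      constructor
      · rintro ⟨z, rfl⟩
        exact ⟨_, rfl⟩
      · rintro ⟨i, rfl⟩
        have : (univ.filter fun z => f z = i).Nonempty := by
          rw [← card_pos, h i]; exact h0 i
        obtain ⟨z, hz⟩ := this
        exact ⟨z, by rw [(mem_filter.1 hz).2]⟩
    rw [e, hp, map_val, Multiset.map_map]
    refine Multiset.map_congr rfl fun i _ => ?_
    simp [← h i, Fin.val_inj]

lemma lb_of_shape {p : Nat.Partition n} {lam : Fin r → ℕ} (hp : p.parts = univ.val.map lam)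
    (hi : Function.Injective lam) {s : Setoid (Fin n)} (h : Shape p s) :
    ∃ f : Fin n → Fin r, Lb lam f ∧ s = Setoid.ker f := by
  obtain ⟨f, rfl, h⟩ := h
  rw [hp] at h
  set cnt : ℕ → ℕ := fun a => (univ.filter (fun z => f z = a)).card with hc
  have h1 : ∀ z, ∃ i, lam i = cnt (f z) := by
    intro z
    have : cnt (f z) ∈ Multiset.map cnt (univ.image f).val :=
      Multiset.mem_map_of_mem _ (by simp)
    rw [h] at this
    simpa using this
  choose g hg using h1
  have h2 : ∀ a ∈ (univ.image f).val, ∀ b ∈ (univ.image f).val, cnt a = cnt b → a = b := by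
    apply Multiset.inj_on_of_nodup_map
    rw [h]
    exact Multiset.Nodup.map hi univ.nodup
  have h3 : ∀ z w, g z = g w ↔ f z = f w := fun z w =>
    ⟨fun e => h2 _ (by simp) _ (by simp) (by rw [← hg, ← hg, e]),
      fun e => hi (by rw [hg, hg, e])⟩
  refine ⟨g, fun i => ?_, ?_⟩
  · have : lam i ∈ Multiset.map lam univ.val := Multiset.mem_map_of_mem _ (by simp)
    rw [← h] at this
    obtain ⟨a, ha, e⟩ := Multiset.mem_map.1 this
    obtain ⟨w, rfl⟩ : ∃ w, f w = a := by simpa using ha
    have e2 : g w = i := hi (by rw [hg, e])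
    rw [← e, ← e2]
    simp only [hc, h3]
  · ext a b
    simp [Setoid.ker_def, h3]

lemma join_of_le {p : Nat.Partition n} {lam : Fin r → ℕ} (hp : p.parts = univ.val.map lam)
    (h2 : ∀ i, 2 ≤ lam i) {f : Fin n → Fin r} (h : Lb lam f) {t : Setoid (Fin n)}
    (ht : Setoid.ker f ≤ t) :
    ∃ S : Set (Setoid (Fin n)), (∀ s ∈ S, Shape p s) ∧ sSup S = t := by
  have h0 : ∀ i, 0 < lam i := fun i => by have := h2 i; omega
  refine ⟨{s | Shape p s ∧ s ≤ t}, fun s hs => hs.1, le_antisymm (sSup_le fun s hs => hs.2) ?_⟩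
  intro x y hxy
  by_cases e : f x = f y
  · exact le_sSup (s := {s | Shape p s ∧ s ≤ t}) ⟨shape_of_lb hp h0 h, ht⟩ e
  · have : 1 < (univ.filter fun z => f z = f x).card := by rw [h]; exact h2 _
    obtain ⟨x', hx', hne⟩ := exists_mem_ne this x
    have hx : f x' = f x := (mem_filter.1 hx').2
    have hs : ∀ a, t a (Equiv.swap x' y a) := by
      intro a
      have h1 : t x' y := t.trans' (ht hx) hxy
      rw [Equiv.swap_apply_def]
      split_ifs with h2 h3
      · rw [h2]; exact h1
      · rw [h3]; exact t.symm' h1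
      · exact t.refl' a
    have hl : Lb lam (fun z => f (Equiv.swap x' y z)) := by
      intro i
      rw [← h i]
      exact card_equiv (Equiv.swap x' y) (by simp)
    refine le_sSup (s := {s | Shape p s ∧ s ≤ t}) ⟨shape_of_lb hp h0 hl, fun a b hab => ?_⟩ ?_
    · exact t.trans' (hs a) (t.trans' (ht hab) (t.symm' (hs b)))
    · show f (Equiv.swap x' y x) = f (Equiv.swap x' y y)
      rw [Equiv.swap_apply_right, Equiv.swap_apply_of_ne_of_ne hne.symm (fun h => e (by rw [h])),
        hx]

lemma lb_of_proper {p : Nat.Partition n} {lam : Fin r → ℕ} (hp : p.parts = univ.val.map lam)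
    (hi : Function.Injective lam) {t : Setoid (Fin n)} (h : t ∈ Proper p) :
    ∃ f : Fin n → Fin r, Lb lam f ∧ Setoid.ker f ≤ t := by
  obtain ⟨⟨S, hS, rfl⟩, h0, -⟩ := h
  rcases S.eq_empty_or_nonempty with rfl | ⟨s, hs⟩
  · exact absurd sSup_empty h0
  · obtain ⟨f, hf, rfl⟩ := lb_of_shape hp hi (hS s hs)
    exact ⟨f, hf, le_sSup hs⟩

lemma exists_lab {K : Type} [DecidableEq K] (lam : Fin r → ℕ) (ρ : Fin n → K) (κ : Fin r → K)
    (h : ∀ k, (univ.filter fun z => ρ z = k).card = ∑ i ∈ univ.filter (fun i => κ i = k), lam i) :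
    ∃ f : Fin n → Fin r, Lb lam f ∧ ∀ z, κ (f z) = ρ z := by
  let g : (Σ i : Fin r, Fin (lam i)) → K := fun w => κ w.1
  have c1 : ∀ (A : Fin r → Prop) [DecidablePred A],
      (univ.filter fun w : (Σ i : Fin r, Fin (lam i)) => A w.1).card =
        ∑ i ∈ univ.filter A, lam i := by
    intro A _
    have : (univ.filter fun w : (Σ i : Fin r, Fin (lam i)) => A w.1) =
        (univ.filter A).sigma fun _ => univ := by
      ext w; simp
    rw [this, card_sigma]
    simp
  have c2 : ∀ k, Fintype.card {z // ρ z = k} = Fintype.card {w // g w = k} := by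
    intro k
    rw [Fintype.card_subtype, Fintype.card_subtype, h, ← c1]
  let e := Equiv.ofFiberEquiv (f := ρ) (g := g) fun k => Fintype.equivOfCardEq (c2 k)
  refine ⟨fun z => (e z).1, fun i => ?_, fun z =>
    Equiv.ofFiberEquiv_map (f := ρ) (g := g) (fun k => Fintype.equivOfCardEq (c2 k)) z⟩
  have := c1 (fun j => j = i)
  rw [filter_eq' univ i] at this
  simp only [mem_univ, if_true, sum_singleton] at this
  rw [← this]
  exact card_equiv e (by simp)

def sums : List ℕ → List ℕ
  | [] => [0]
  | a :: l => sums l ++ (sums l).map (a + ·)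

lemma sum_mem_sums (lam : Fin r → ℕ) (L : List (Fin r)) (T : Finset (Fin r))
    (h : ∀ i ∈ T, i ∈ L) : ∑ i ∈ T, lam i ∈ sums (L.map lam) := by
  induction L generalizing T with
  | nil =>
    have : T = ∅ := eq_empty_of_forall_notMem fun i hi => by simpa using h i hi
    simp [this, sums]
  | cons a L ih =>
    have h1 := ih (T.erase a) (fun i hi => by
      have := h i (mem_of_mem_erase hi)
      exact (List.mem_cons.1 this).resolve_left (ne_of_mem_erase hi))
    simp only [List.map_cons, sums, List.mem_append, List.mem_map]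
    by_cases ha : a ∈ T
    · exact Or.inr ⟨_, h1, add_sum_erase T lam ha⟩
    · rw [erase_eq_of_notMem ha] at h1
      exact Or.inl h1

end Pool.Agent.H43.Orb
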