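import Pool.Agent.H43.Orb2

set_option autoImplicit false
set_option maxRecDepth 100000

namespace Pool.Agent.H43.Orb
open Finset

def lam : Fin 12 → ℕ := ![61, 1306, 262, 1438, 525, 677, 831, 640, 509, 1131, 172, 1314]
def wt : Fin 13 → ℕ := ![61, 1306, 262, 1438, 525, 677, 831, 640, 509, 1131, 172, 172, 1142]
def ssm : Fin 8 → ℕ := ![459, 2917, 2231, 2834, 2168, 2700, 1579, 0]
def ss (o : Fin 8) (i : Fin 12) : Bool := (ssm o).testBit i.val
def side (c : Fin 13) : Bool := (2603 : ℕ).testBit c.val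
def om (a b : Fin 8) : ZMod 2 := if (43235087372 : ℕ).testBit (8 * a.val + b.val) then 1 else 0
def tot (sd : Bool) : ℕ := if sd then 4785 else 4081
def sm (o : Fin 8) (sd : Bool) : List ℕ :=
  sums (((List.finRange 12).filter fun i => ss o i = sd).map lam)

def pp : Nat.Partition 8866 where
  parts := univ.val.map lam
  parts_pos := by decide +kernel
  parts_sum := by decide +kernel

lemma lam_inj : Function.Injective lam := by decide +kernel
lemma lam_two : ∀ i, 2 ≤ lam i := by decide +kernel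
lemma wt_two : ∀ i, 2 ≤ wt i := by decide +kernel

lemma ck1 : ∀ T : Finset (Fin 12), ∑ i ∈ T, lam i = 4785 →
    ∃ o : Fin 8, o < 7 ∧ ∀ i, (i ∈ T ↔ ss o i = true) := by decide +kernel

lemma ck2 : ∀ sd : Bool, ∀ v ∈ sm 6 sd, 0 < v → v < tot sd → ∀ a : Fin 8, a < 6 → v ∈ sm a sd →
    ∀ b : Fin 8, b < 6 → v ∈ sm b sd → ∀ c : Fin 8, c < 6 → v ∈ sm c sd →
      om a b + om b c + om a c = 0 := by decide +kernel

lemma ck3 : ∀ sd : Bool, ∑ c ∈ univ.filter (fun c => side c = sd), wt c = tot sd := by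
  decide +kernel

lemma exists_cell : ∃ cell : Fin 8866 → Fin 13, Lb wt cell := by
  obtain ⟨f, hf, -⟩ := exists_lab (n := 8866) wt (fun _ => ()) (fun _ => ()) (fun k => by
    simp only [filter_true, card_univ, Fintype.card_fin]
    decide +kernel)
  exact ⟨f, hf⟩

noncomputable def cell : Fin 8866 → Fin 13 := exists_cell.choose

lemma cell_lb : Lb wt cell := exists_cell.choose_spec

lemma cell_surj (c : Fin 13) : ∃ z, cell z = c := by
  have : (univ.filter fun z => cell z = c).Nonempty := by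
    rw [← card_pos, cell_lb c]; have := wt_two c; omega
  obtain ⟨z, hz⟩ := this
  exact ⟨z, (mem_filter.1 hz).2⟩

noncomputable def K (φ : Fin 13 → Fin 13) : Setoid (Fin 8866) := Setoid.ker fun z => φ (cell z)

def Le (φ ψ : Fin 13 → Fin 13) : Prop := ∀ c c', φ c = φ c' → ψ c = ψ c'
def Lt (φ ψ : Fin 13 → Fin 13) : Prop := Le φ ψ ∧ ¬ Le ψ φ

instance (φ ψ : Fin 13 → Fin 13) : Decidable (Le φ ψ) := by unfold Le; infer_instance
instance (φ ψ : Fin 13 → Fin 13) : Decidable (Lt φ ψ) := by unfold Lt; infer_instance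

lemma K_le {φ ψ : Fin 13 → Fin 13} : K φ ≤ K ψ ↔ Le φ ψ := by
  refine ⟨fun h c c' e => ?_, fun h a b e => h _ _ e⟩
  obtain ⟨z, rfl⟩ := cell_surj c
  obtain ⟨w, rfl⟩ := cell_surj c'
  exact h (show K φ z w from e)

lemma K_lt {φ ψ : Fin 13 → Fin 13} (h : Lt φ ψ) : K φ < K ψ :=
  lt_of_le_not_ge (K_le.2 h.1) fun e => h.2 (K_le.1 e)

def Fit (φ : Fin 13 → Fin 13) (κ : Fin 12 → Fin 13) : Prop :=
  ∀ k, ∑ c ∈ univ.filter (fun c => φ c = k), wt c = ∑ i ∈ univ.filter (fun i => κ i = k), lam i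

instance (φ : Fin 13 → Fin 13) (κ : Fin 12 → Fin 13) : Decidable (Fit φ κ) := by
  unfold Fit; infer_instance

lemma fit_lb {φ : Fin 13 → Fin 13} {κ : Fin 12 → Fin 13} (h : Fit φ κ) :
    ∃ f : Fin 8866 → Fin 12, Lb lam f ∧ ∀ z, κ (f z) = φ (cell z) :=
  exists_lab lam _ κ fun k => by rw [card_pre cell_lb (fun c => φ c = k), h k]

lemma K_mem {φ : Fin 13 → Fin 13} {κ : Fin 12 → Fin 13} (h : Fit φ κ) (h2 : ∃ c c', φ c ≠ φ c') :
    K φ ∈ Proper pp := by
  obtain ⟨f, hf, e⟩ := fit_lb h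
  have hle : Setoid.ker f ≤ K φ := fun a b hab => by
    show φ (cell a) = φ (cell b)
    rw [← e, ← e, show f a = f b from hab]
  refine ⟨join_of_le rfl lam_two hf hle, fun h0 => ?_, fun h1 => ?_⟩
  · have : 1 < (univ.filter fun z => f z = 0).card := by rw [hf]; exact lam_two _
    obtain ⟨a, ha, b, hb, hab⟩ := one_lt_card.1 this
    have : K φ a b := hle (show f a = f b by rw [(mem_filter.1 ha).2, (mem_filter.1 hb).2])
    rw [h0] at this
    exact hab this
  · obtain ⟨c, c', hc⟩ := h2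
    obtain ⟨z, rfl⟩ := cell_surj c
    obtain ⟨w, rfl⟩ := cell_surj c'
    have : K φ z w := by rw [h1]; trivial
    exact hc this

def tc (c : Fin 13) : Fin 13 := if side c then 11 else 12
noncomputable def tau : Setoid (Fin 8866) := K tc

lemma tau_iff (a b : Fin 8866) : tau a b ↔ side (cell a) = side (cell b) := by
  show tc (cell a) = tc (cell b) ↔ _
  have : ∀ c c', tc c = tc c' ↔ side c = side c' := by decide +kernel
  exact this _ _

lemma tau_coatom {x : Setoid (Fin 8866)} (h : tau < x) : x = ⊤ := by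
  have h2 : ∃ a b, x a b ∧ ¬ tau a b := by
    by_contra hh
    push Not at hh
    exact h.not_ge fun a b e => hh a b e
  obtain ⟨a, b, hab, hn⟩ := h2
  rw [tau_iff] at hn
  have h3 : ∀ u, x a u := by
    intro u
    by_cases e : side (cell a) = side (cell u)
    · exact h.le ((tau_iff _ _).2 e)
    · refine x.trans' hab (h.le ((tau_iff _ _).2 ?_))
      revert e hn
      cases side (cell a) <;> cases side (cell b) <;> cases side (cell u) <;> simp
  exact eq_top_iff.2 fun u v _ => x.trans' (x.symm' (h3 u)) (h3 v)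

def Lab (x : Setoid (Fin 8866)) (o : Fin 8) : Prop :=
  ∃ f : Fin 8866 → Fin 12, Lb lam f ∧ Setoid.ker f ≤ x ∧ ∀ z, ss o (f z) = side (cell z)

lemma Lab.mono {x y : Setoid (Fin 8866)} {o : Fin 8} (h : Lab x o) (e : x ≤ y) : Lab y o := by
  obtain ⟨f, h1, h2, h3⟩ := h
  exact ⟨f, h1, h2.trans e, h3⟩

lemma lab_exists {x : Setoid (Fin 8866)} (hx : x ∈ Proper pp) (h : x ≤ tau) :
    ∃ o, o < 7 ∧ Lab x o := by
  classical
  obtain ⟨f, hf, hle⟩ := lb_of_proper rfl lam_inj hx
  let A : Fin 12 → Prop := fun i => ∃ z, f z = i ∧ side (cell z) = true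
  have hA : ∀ z, A (f z) ↔ side (cell z) = true := fun z =>
    ⟨fun ⟨w, e, hw⟩ => by rw [← hw]; exact (tau_iff _ _).1 (h (hle (show f z = f w from e.symm))),
      fun e => ⟨z, rfl, e⟩⟩
  have h1 := card_pre hf A
  have h2 := card_pre cell_lb (fun c => side c = true)
  rw [ck3] at h2
  simp only [hA] at h1
  obtain ⟨o, ho, e⟩ := ck1 (univ.filter A) (by rw [← h1, h2]; rfl)
  refine ⟨o, ho, f, hf, hle, fun z => ?_⟩
  have := e (f z)
  simp only [mem_filter, mem_univ, true_and, hA] at this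
  exact Bool.eq_iff_iff.2 this.symm

lemma lab_key {x : Setoid (Fin 8866)} (h : x < tau) {a b c : Fin 8} (ha : a < 6) (hb : b < 6)
    (hc : c < 6) (l6 : Lab x 6) (la : Lab x a) (lb : Lab x b) (lc : Lab x c) :
    om a b + om b c + om a c = 0 := by
  classical
  have h2 : ∃ a b, tau a b ∧ ¬ x a b := by
    by_contra hh
    push Not at hh
    exact h.not_ge fun a b e => hh a b e
  obtain ⟨z0, z1, h01, hn⟩ := h2
  have key : ∀ o, Lab x o → (univ.filter fun z => x z0 z).card ∈ sm o (side (cell z0)) := by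
    rintro o ⟨f, hf, hle, e⟩
    let A : Fin 12 → Prop := fun i => ∃ z, f z = i ∧ x z0 z
    have hA : ∀ z, A (f z) ↔ x z0 z := fun z =>
      ⟨fun ⟨w, e, hw⟩ => x.trans' hw (hle (show f w = f z from e)), fun e => ⟨z, rfl, e⟩⟩
    have h1 := card_pre hf A
    simp only [hA] at h1
    rw [h1]
    refine sum_mem_sums _ _ _ fun i hi => ?_
    obtain ⟨z, rfl, hz⟩ := (mem_filter.1 hi).2
    simp only [List.mem_filter, List.mem_finRange, true_and, decide_eq_true_eq]
    rw [e, (tau_iff _ _).1 (h.le hz)]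
  refine ck2 (side (cell z0)) _ (key 6 l6) (card_pos.2 ⟨z0, by simp [x.refl']⟩) ?_ a ha (key a la)
    b hb (key b lb) c hc (key c lc)
  rw [← ck3, ← card_pre cell_lb (fun c => side c = side (cell z0))]
  refine card_lt_card ⟨fun z hz => ?_, fun hs => ?_⟩
  · simp only [mem_filter, mem_univ, true_and] at hz ⊢
    exact ((tau_iff _ _).1 (h.le hz)).symm
  · have := hs (show z1 ∈ _ from mem_filter.2 ⟨mem_univ _, ((tau_iff _ _).1 h01).symm⟩)
    exact hn (mem_filter.1 this).2

end Pool.Agent.H43.Orb
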