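import Pool.Agent.H43.Orb3

set_option autoImplicit false
set_option maxRecDepth 100000

namespace Pool.Agent.H43.Orb
open Finset

def am (i : Fin 64) : ℕ := (42060554862017391480140009751526076622551696625671600720975524715295754452381003866632770716759830453215990967049545642576190523719431344017132445578363222979343908018477726194427399602523140420672495391010555935 >>> (11 * i.val)) % 2048
def lb1 (i : Fin 64) : Fin 8 := Fin.ofNat 8 (4723393702582822820754475952922814311345941367042707998344 >>> (3 * i.val))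
def pc (i : Fin 64) (c : Fin 13) : Fin 13 := if (am i).testBit c.val then c else tc c
def qc (i : Fin 64) (c : Fin 13) : Fin 13 := if (am i).testBit c.val then c else 12
def bc (c : Fin 13) : Fin 13 := if c ≤ 10 then c else 12
def kp (i : Fin 64) (v : Fin 12) : Fin 13 :=
  if (am i).testBit v.val then v.castSucc else if ss (lb1 i) v then 11 else 12
def kq (i : Fin 64) (v : Fin 12) : Fin 13 := if (am i).testBit v.val then v.castSucc else 12
def kb (v : Fin 12) : Fin 13 := if v ≤ 10 then v.castSucc else 12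
def kt (v : Fin 12) : Fin 13 := if ss 6 v then 11 else 12
def r1 (i j : Fin 64) : Prop := am i &&& am j = am j ∧ am i ≠ am j
instance (i j : Fin 64) : Decidable (r1 i j) := by unfold r1; infer_instance
def g0 (i : Fin 31) : Fin 64 := ⟨i.val, by omega⟩
def f0 (i : Fin 31) : Fin 64 := ⟨i.val + 31, by omega⟩
def r0 (i j : Fin 31) : Prop := r1 (g0 i) (g0 j)
instance (i j : Fin 31) : Decidable (r0 i j) := by unfold r0; infer_instance

lemma e1 : ∀ i, Fit (pc i) (kp i) ∧ Fit (qc i) (kq i) ∧ (∃ c c', pc i c ≠ pc i c') ∧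
    (∃ c c', qc i c ≠ qc i c') ∧ Lt (pc i) (qc i) ∧ Lt (pc i) tc ∧ Lt bc (qc i) ∧ lb1 i < 7 ∧
    (∀ v c, kp i v = pc i c → ss (lb1 i) v = side c) ∧ ¬ Le (qc i) tc := by decide +kernel

lemma e2 : Fit bc kb ∧ Fit tc kt ∧ (∃ c c', bc c ≠ bc c') ∧ (∃ c c', tc c ≠ tc c') ∧
    ¬ Le bc tc := by decide +kernel

lemma e3 : ∀ i j, r1 i j → Lt (pc i) (pc j) ∧ Lt (qc i) (qc j) ∧ Lt (pc i) (qc j) := by
  decide +kernel

lemma e4 : ∀ i j, Le (pc i) (pc j) → Le (pc j) (pc i) → lb1 i = lb1 j := by decide +kernel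

lemma e5 : (∀ i j, r0 i j → r1 (f0 i) (f0 j) ∧ r1 (f0 i) (g0 j)) ∧
    ∀ i, r1 (f0 i) (g0 i) ∧ r1 (f0 i) 62 ∧ r1 63 (g0 i) := by decide +kernel

def c0 : List (ℤ × List (Fin 31)) := [(1, [0, 6, 21]),
  (-1, [1, 6, 21]),
  (-1, [0, 7, 21]),
  (1, [2, 7, 21]),
  (1, [1, 11, 21]),
  (-1, [2, 11, 21]),
  (1, [0, 7, 22]),
  (-1, [2, 7, 22]),
  (-1, [0, 8, 22]),
  (1, [3, 8, 22]),
  (1, [2, 15, 22]),
  (-1, [3, 15, 22]),
  (-1, [0, 8, 23]),
  (1, [3, 8, 23]),
  (1, [0, 9, 23]),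
  (-1, [4, 9, 23]),
  (-1, [3, 18, 23]),
  (1, [4, 18, 23]),
  (-1, [0, 9, 24]),
  (1, [4, 9, 24]),
  (1, [0, 10, 24]),
  (-1, [5, 10, 24]),
  (-1, [4, 20, 24]),
  (1, [5, 20, 24]),
  (1, [0, 6, 25]),
  (-1, [1, 6, 25]),
  (-1, [0, 10, 25]),
  (1, [5, 10, 25]),
  (1, [1, 14, 25]),
  (-1, [5, 14, 25]),
  (-1, [1, 11, 26]),
  (1, [2, 11, 26]),
  (1, [1, 13, 26]),
  (-1, [4, 13, 26]),
  (-1, [2, 16, 26]),
  (1, [4, 16, 26]),
  (-1, [2, 15, 27]),
  (1, [3, 15, 27]),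
  (1, [2, 17, 27]),
  (-1, [5, 17, 27]),
  (-1, [3, 19, 27]),
  (1, [5, 19, 27]),
  (1, [1, 12, 28]),
  (-1, [3, 12, 28]),
  (-1, [1, 13, 28]),
  (1, [4, 13, 28]),
  (1, [3, 18, 28]),
  (-1, [4, 18, 28]),
  (1, [2, 16, 29]),
  (-1, [4, 16, 29]),
  (-1, [2, 17, 29]),
  (1, [5, 17, 29]),
  (1, [4, 20, 29]),
  (-1, [5, 20, 29]),
  (1, [1, 12, 30]),
  (-1, [3, 12, 30]),
  (-1, [1, 14, 30]),
  (1, [5, 14, 30]),
  (1, [3, 19, 30]),
  (-1, [5, 19, 30])]
def l0 : List (ℤ × List (Fin 31)) :=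
  [(1, [0, 6]), (-1, [1, 6]), (-1, [0, 8]), (1, [3, 8]), (1, [1, 12]), (-1, [3, 12])]

def bdL {α : Type*} (L : List (ℤ × List α)) : List (ℤ × List α) :=
  L.flatMap fun p => (List.range p.2.length).map fun i => (p.1 * (-1) ^ i, p.2.eraseIdx i)

lemma d_toCh {α : Type*} (L : List (ℤ × List α)) : d (toCh L) = toCh (bdL L) := by
  induction L with
  | nil => simp [toCh, bdL]
  | cons p L ih =>
    have e : bdL (p :: L) = ((List.range p.2.length).map fun i =>
      (p.1 * (-1) ^ i, p.2.eraseIdx i)) ++ bdL L := by simp [bdL]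
    have e2 : toCh (p :: L) = p.1 • sg p.2 + toCh L := by simp [toCh]
    rw [e, toCh_append, e2, map_add, ih, map_smul, d_sg, dl, Finset.smul_sum]
    congr 1
    unfold toCh
    rw [List.map_map, Finset.sum_range, ← List.sum_ofFn, List.ofFn_eq_map, ← List.map_coe_finRange_eq_range, List.map_map]
    congr 1
    refine List.map_congr_left fun i _ => ?_
    simp [sg, mul_smul]

lemma toCh_smul {α : Type*} (k : ℤ) (L : List (ℤ × List α)) :
    toCh (L.map fun p => (k * p.1, p.2)) = k • toCh L := by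
  unfold toCh
  rw [List.map_map, List.smul_sum, List.map_map]
  congr 1
  refine List.map_congr_left fun i _ => ?_
  simp [mul_smul]

lemma d_c0 : d (toCh c0) = (2 : ℤ) • toCh l0 := by
  have := toCh_eq_zero (bdL c0 ++ l0.map fun p => (-2 * p.1, p.2)) (by decide +kernel)
  rw [toCh_append, toCh_smul, ← d_toCh, neg_smul, add_neg_eq_zero] at this
  exact this

lemma d_l0 : d (toCh l0) = 0 := by
  rw [d_toCh]
  exact toCh_eq_zero _ (by decide +kernel)

instance (k : ℕ) (l : List (Fin 31)) : Decidable (l ∈ Str r0 Set.univ k) :=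
  decidable_of_iff (l.length = k ∧ l.Pairwise r0) (by simp [Str])

lemma c0_on : toCh c0 ∈ On (Str r0 Set.univ 3) := toCh_on _ (by decide +kernel)
lemma l0_on : toCh l0 ∈ On (Str r0 Set.univ 2) := toCh_on _ (by decide +kernel)

noncomputable def s1 : Ch (Fin 31) →ₗ[ℤ] Ch (Fin 64) := su f0 g0 62 63
noncomputable def s2 : Ch (Fin 64) →ₗ[ℤ] Ch (Setoid (Fin 8866)) :=
  su (fun i => K (pc i)) (fun i => K (qc i)) tau (K bc)

lemma s1_on (k : ℕ) {c : Ch (Fin 31)} (h : c ∈ On (Str r0 Set.univ k)) :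
    s1 c ∈ On (Str r1 Set.univ (k + 1)) :=
  su_on r0 r1 Set.univ f0 g0 62 63 (fun x y h => (e5.1 x y h).1) (fun _ _ h => h)
    (fun x y h => (e5.1 x y h).2) (fun x => (e5.2 x).1) (fun x => (e5.2 x).2.1)
    (fun x => (e5.2 x).2.2) (fun _ => trivial) (fun _ => trivial) trivial trivial k h

lemma s2_on (k : ℕ) {c : Ch (Fin 64)} (h : c ∈ On (Str r1 Set.univ k)) :
    s2 c ∈ On (Str (· < ·) (Proper pp) (k + 1)) :=
  su_on r1 (· < ·) (Proper pp) _ _ _ _ (fun x y h => K_lt (e3 x y h).1)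
    (fun x y h => K_lt (e3 x y h).2.1) (fun x y h => K_lt (e3 x y h).2.2)
    (fun x => K_lt (e1 x).2.2.2.2.1) (fun x => K_lt (e1 x).2.2.2.2.2.1)
    (fun x => K_lt (e1 x).2.2.2.2.2.2.1) (fun x => K_mem (e1 x).1 (e1 x).2.2.1)
    (fun x => K_mem (e1 x).2.1 (e1 x).2.2.2.1) (K_mem e2.2.1 e2.2.2.2.1) (K_mem e2.1 e2.2.2.1) k h

open Classical in
noncomputable def lab2 (x : Setoid (Fin 8866)) : Fin 8 :=
  if x = tau then 7 else if h : ∃ i, K (pc i) = x then lb1 h.choose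
  else if h : ∃ o, o < 7 ∧ Lab x o then h.choose else 0

lemma lab_pc (i : Fin 64) : Lab (K (pc i)) (lb1 i) := by
  obtain ⟨f, hf, e⟩ := fit_lb (e1 i).1
  refine ⟨f, hf, fun a b hab => ?_, fun z => (e1 i).2.2.2.2.2.2.2.2.1 _ _ (e z)⟩
  show pc i (cell a) = pc i (cell b)
  rw [← e, ← e, show f a = f b from hab]

lemma lab2_tau : lab2 tau = 7 := by simp [lab2]

lemma lab2_ne {x : Setoid (Fin 8866)} (h : x ≠ tau) : lab2 x < 7 := by
  unfold lab2
  rw [if_neg h]
  split_ifs with h1 h2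
  · exact (e1 _).2.2.2.2.2.2.2.1
  · exact h2.choose_spec.1
  · decide

lemma lab2_pc (i : Fin 64) : lab2 (K (pc i)) = lb1 i := by
  have h : ∃ j, K (pc j) = K (pc i) := ⟨i, rfl⟩
  unfold lab2
  rw [if_neg (show K (pc i) ≠ tau from (K_lt (e1 i).2.2.2.2.2.1).ne), dif_pos h]
  exact e4 _ _ (K_le.1 h.choose_spec.le) (K_le.1 h.choose_spec.ge)

lemma lab_lab2 {x : Setoid (Fin 8866)} (hx : x ∈ Proper pp) (h : x < tau) : Lab x (lab2 x) := by
  unfold lab2
  rw [if_neg h.ne]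
  split_ifs with h1 h2
  · have := lab_pc h1.choose
    rwa [h1.choose_spec] at this
  · exact h2.choose_spec.2
  · exact absurd (lab_exists hx h.le) h2

def ph0 (l : List (Fin 8)) : ZMod 2 :=
  match l.filter (· < 6) with
  | [a, b] => if 6 ∈ l ∧ 7 ∈ l then om a b else 0
  | _ => 0

def comp (l : List (Fin 8)) : Bool :=
  match l.filter (· < 6) with
  | [x, y, z] => decide (6 ∈ l → 7 ∈ l → om x y + om y z + om x z = 0)
  | _ => true

lemma e6 : ∀ a b c d e : Fin 8, comp [a, b, c, d, e] = true →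
    ph0 [b, c, d, e] - (ph0 [a, c, d, e] - (ph0 [a, b, d, e] - (ph0 [a, b, c, e] -
      ph0 [a, b, c, d]))) = 0 := by decide +kernel

lemma exists_max {α : Type*} [Preorder α] (l : List α) (h0 : l ≠ [])
    (h : ∀ x ∈ l, ∀ y ∈ l, x ≤ y ∨ y ≤ x) : ∃ m ∈ l, ∀ x ∈ l, x ≤ m := by
  induction l with
  | nil => exact absurd rfl h0
  | cons a l ih =>
    by_cases hl : l = []
    · subst hl; exact ⟨a, by simp, by simp⟩
    · obtain ⟨m, hm, h2⟩ := ih hl fun x hx y hy =>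
        h x (List.mem_cons_of_mem _ hx) y (List.mem_cons_of_mem _ hy)
      rcases h a (by simp) m (List.mem_cons_of_mem _ hm) with e | e
      · exact ⟨m, List.mem_cons_of_mem _ hm, fun x hx => by
          rcases List.mem_cons.1 hx with rfl | hx
          exacts [e, h2 x hx]⟩
      · exact ⟨a, by simp, fun x hx => by
          rcases List.mem_cons.1 hx with rfl | hx
          exacts [le_rfl, (h2 x hx).trans e]⟩

lemma comp_lab (l : List (Setoid (Fin 8866))) (hP : ∀ x ∈ l, x ∈ Proper pp)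
    (h : ∀ x ∈ l, ∀ y ∈ l, x ≤ y ∨ y ≤ x) : comp (l.map lab2) = true := by
  unfold comp
  split
  · rename_i a b c e
    refine decide_eq_true fun h6 h7 => ?_
    have ht : tau ∈ l := by
      obtain ⟨x, hx, e⟩ := List.mem_map.1 h7
      by_cases e2 : x = tau
      · exact e2 ▸ hx
      · exact absurd (lab2_ne e2) (by rw [e]; decide)
    have k : ∀ o ∈ l.map lab2, o < 7 → ∃ x ∈ l, x < tau ∧ Lab x o := by
      intro o ho h7
      obtain ⟨x, hx, rfl⟩ := List.mem_map.1 ho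
      have hne : x ≠ tau := by
        rintro rfl
        rw [lab2_tau] at h7
        exact absurd h7 (by decide)
      have : x < tau := by
        rcases h x hx tau ht with e | e
        · exact lt_of_le_of_ne e hne
        · exact absurd (tau_coatom (lt_of_le_of_ne e hne.symm)) (hP x hx).2.2
      exact ⟨x, hx, this, lab_lab2 (hP x hx) this⟩
    have m : ∀ o ∈ [a, b, c], o ∈ l.map lab2 ∧ o < 6 := by
      intro o ho
      rw [← e] at ho
      simpa using ho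
    have lt7 : ∀ o : Fin 8, o < 6 → o < 7 := by decide
    obtain ⟨ha, ha'⟩ := m a (by simp)
    obtain ⟨hb, hb'⟩ := m b (by simp)
    obtain ⟨hc, hc'⟩ := m c (by simp)
    obtain ⟨xa, h1, h2, h3⟩ := k a ha (lt7 _ ha')
    obtain ⟨xb, h4, h5, h8⟩ := k b hb (lt7 _ hb')
    obtain ⟨xc, h9, h10, h11⟩ := k c hc (lt7 _ hc')
    obtain ⟨xs, h12, h13, h14⟩ := k 6 h6 (by decide)
    have sub : ∀ x ∈ [xa, xb, xc, xs], x ∈ l ∧ x < tau := by
      intro x hx
      simp only [List.mem_cons, List.not_mem_nil, or_false] at hx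
      rcases hx with rfl | rfl | rfl | rfl <;> exact ⟨‹_›, ‹_›⟩
    obtain ⟨y, hy, hm⟩ := exists_max [xa, xb, xc, xs] (by simp)
      fun x hx y hy => h x (sub x hx).1 y (sub y hy).1
    exact lab_key (sub y hy).2 ha' hb' hc' (h14.mono (hm _ (by simp))) (h3.mono (hm _ (by simp)))
      (h8.mono (hm _ (by simp))) (h11.mono (hm _ (by simp)))
  · rfl

noncomputable def ph (l : List (Setoid (Fin 8866))) : ZMod 2 := ph0 (l.map lab2)

lemma ph_cocycle (l : List (Setoid (Fin 8866))) (h5 : l.length = 5) (hP : ∀ x ∈ l, x ∈ Proper pp)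
    (h : ∀ x ∈ l, ∀ y ∈ l, x ≤ y ∨ y ≤ x) : ext ph (dl l) = 0 := by
  have := comp_lab l hP h
  match l, h5 with
  | [a, b, c, d, e], _ =>
    have := e6 _ _ _ _ _ this
    simpa [dl_cons, ph] using this

lemma ph0_zero : ∀ l : List (Fin 8), 7 ∉ l → ph0 l = 0 := by
  intro l h
  unfold ph0
  split
  · exact if_neg fun e => h e.2
  · rfl

lemma ph_zero (l : List (Setoid (Fin 8866))) (h : ∀ x ∈ l, x ≠ tau) : ph l = 0 := by
  refine ph0_zero _ fun h7 => ?_
  obtain ⟨x, hx, e⟩ := List.mem_map.1 h7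
  exact absurd (lab2_ne (h x hx)) (by rw [e]; decide)

def ps (l : List (Fin 64)) : ZMod 2 := ph0 (l.map lb1 ++ [7])

lemma ph_s2 {c : Ch (Fin 64)} (hc : c ∈ On (Str r1 Set.univ 3)) : ext ph (s2 c) = - ext ps c := by
  refine lin_eq_on (ext ph ∘ₗ s2) (- ext ps) (fun l hl => ?_) hc
  have hp : ∀ i, K (pc i) ≠ tau := fun i => (K_lt (e1 i).2.2.2.2.2.1).ne
  have hq : ∀ i, K (qc i) ≠ tau := fun i h => (e1 i).2.2.2.2.2.2.2.2.2 (K_le.1 h.le)
  have hb : K bc ≠ tau := fun h => e2.2.2.2.2 (K_le.1 h.le)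
  match l, hl.1 with
  | [a, b, c], _ =>
    simp only [s2, su, hh, LinearMap.comp_apply, LinearMap.sub_apply, ext_sg, mp_sg, cons_sg,
      map_sub, List.map_cons, List.map_nil, LinearMap.neg_apply]
    rw [ph_zero, ph_zero, ph_zero, ph_zero [K bc, _, _, _]]
    · simp [ph, ps, lab2_pc, lab2_tau]
    all_goals simp [hp, hq, hb]

lemma ps_s1 : ext ps (s1 (toCh l0)) = 1 := by
  have := lin_toCh (ext ps ∘ₗ s1) l0
  rw [LinearMap.comp_apply] at this
  rw [this]
  simp only [l0, s1, su, hh, LinearMap.comp_apply, LinearMap.sub_apply, ext_sg, mp_sg, cons_sg,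
      map_sub, List.map_cons, List.map_nil]
  decide +kernel

theorem main : ∃ (z c : Ch (Setoid (Fin 8866))) (φ : List (Setoid (Fin 8866)) → ZMod 2),
    z ∈ On (Str (· < ·) (Proper pp) 4) ∧ c ∈ On (Str (· < ·) (Proper pp) 5) ∧ d z = 0 ∧
    d c = (2 : ℤ) • z ∧ ext φ z ≠ 0 ∧
    ∀ l : List (Setoid (Fin 8866)), l.length = 5 → (∀ x ∈ l, x ∈ Proper pp) →
      (∀ x ∈ l, ∀ y ∈ l, x ≤ y ∨ y ≤ x) → ext φ (dl l) = 0 := by
  refine ⟨s2 (s1 (toCh l0)), s2 (s1 (toCh c0)), ph, s2_on _ (s1_on _ l0_on), s2_on _ (s1_on _ c0_on),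
    ?_, ?_, ?_, ph_cocycle⟩
  · simp only [s1, s2, d_su, d_l0, map_zero, neg_zero]
  · simp only [s1, s2, d_su, d_c0, map_neg, neg_neg, map_smul]
  · rw [ph_s2 (s1_on _ l0_on), ps_s1]
    decide

end Pool.Agent.H43.Orb
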