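import Pool.Agent.H43.Orb1

set_option autoImplicit false

namespace Pool.Agent.H43.Orb

variable {α β : Type*}

/-- Every cycle supported on `T` bounds a chain supported on `T`. -/
def Acyc (T : Set (List β)) : Prop := ∀ y ∈ On T, d y = 0 → ∃ w ∈ On T, d w = y

noncomputable def solveN (C : List α → Set (List β)) (E : List α → Ch β) (s : ℤ) (D0 : Ch β) :
    ℕ → List α → Ch β
  | 0 => fun _ => D0
  | n + 1 => fun l =>
    Classical.epsilon fun w => w ∈ On (C l) ∧ d w + s • ext (solveN C E s D0 n) (dl l) = E l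

/-- The acyclic carrier lemma. -/
lemma carrier (S : Set (List α)) (C : List α → Set (List β)) (E : List α → Ch β) (s : ℤ)
    (D0 : Ch β) (hS : ∀ l ∈ S, ∀ i < l.length, l.eraseIdx i ∈ S ∧ C (l.eraseIdx i) ⊆ C l)
    (hA : ∀ l ∈ S, l ≠ [] → Acyc (C l)) (hE : ∀ l ∈ S, E l ∈ On (C l) ∧ d (E l) = s • ext E (dl l))
    (h0 : D0 ∈ On (C [])) (h1 : d D0 = E []) :
    ∃ D : List α → Ch β, D [] = D0 ∧ ∀ l ∈ S, D l ∈ On (C l) ∧ d (D l) + s • ext D (dl l) = E l := by
  let D : List α → Ch β := fun l => solveN C E s D0 l.length l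
  refine ⟨D, rfl, ?_⟩
  have key : ∀ n, ∀ l ∈ S, l.length = n → D l ∈ On (C l) ∧ d (D l) + s • ext D (dl l) = E l := by
    intro n
    induction n with
    | zero =>
      intro l _ hn
      rw [List.length_eq_zero_iff] at hn
      subst hn
      exact ⟨h0, by rw [dl_nil, map_zero, smul_zero, add_zero]; exact h1⟩
    | succ n ih =>
      intro l hl hn
      have hd : dl l ∈ On {m | m ∈ S ∧ m.length = n ∧ C m ⊆ C l} := dl_on fun i hi =>
        ⟨(hS l hl i hi).1, by rw [List.length_eraseIdx_of_lt hi, hn]; rfl, (hS l hl i hi).2⟩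
      have e1 : ext (solveN C E s D0 n) (dl l) = ext D (dl l) :=
        lin_eq_on _ _ (fun m hm => by simp only [ext_sg, D, hm.2.1]) hd
      have e2 : D l = Classical.epsilon
          fun w => w ∈ On (C l) ∧ d w + s • ext D (dl l) = E l := by
        simp only [D, hn, solveN]
        rw [e1]
      rw [e2]
      apply Classical.epsilon_spec (p := fun w => w ∈ On (C l) ∧ d w + s • ext D (dl l) = E l)
      have e3 : d (ext D (dl l)) + s • ext D (d (dl l)) = ext E (dl l) :=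
        lin_eq_on (d ∘ₗ ext D + s • ext D ∘ₗ d) (ext E) (fun m hm => by
          simpa using (ih m hm.1 hm.2.1).2) hd
      rw [d_dl, map_zero, smul_zero, add_zero] at e3
      obtain ⟨w, hw, e⟩ := hA l hl (by rintro rfl; simp at hn) (E l - s • ext D (dl l))
        (Submodule.sub_mem _ (hE l hl).1 (Submodule.smul_mem _ _ (lin_on _ (fun m hm => by
          rw [ext_sg]; exact on_mono hm.2.2 (ih m hm.1 hm.2.1).1) hd)))
        (by rw [map_sub, map_smul, e3, (hE l hl).2, sub_self])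
      exact ⟨w, hw, by rw [e]; abel⟩
  exact fun l hl => key _ l hl rfl

/-- Existence of a chain map with an acyclic carrier. -/
lemma carrier_map (C : List α → Set (List β))
    (hS : ∀ l : List α, ∀ i < l.length, C (l.eraseIdx i) ⊆ C l)
    (hA : ∀ l, l ≠ [] → Acyc (C l)) (h0 : [] ∈ C []) :
    ∃ F : List α → Ch β, F [] = sg [] ∧ (∀ l, F l ∈ On (C l)) ∧
      ∀ c, d (ext F c) = ext F (d c) := by
  obtain ⟨F, h1, h2⟩ := carrier Set.univ C (fun _ => 0) (-1) (sg [])
    (fun l _ i hi => ⟨trivial, hS l i hi⟩) (fun l _ => hA l)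
    (fun l _ => ⟨Submodule.zero_mem _, by
      rw [hom_ext (F := ext fun _ => (0 : Ch β)) (G := 0) (by simp)]; simp⟩) (sg_on h0) (by simp)
  refine ⟨F, h1, fun l => (h2 l trivial).1, fun c => ?_⟩
  exact hom_ext (F := d ∘ₗ ext F) (G := ext F ∘ₗ d) (fun l => by
    have := (h2 l trivial).2
    simpa [add_neg_eq_zero] using this) c

/-- Two chain maps with a common acyclic carrier agree in homology. -/
lemma carrier_hom (S : Set (List α)) (T : Set (List β)) (C : List α → Set (List β))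
    (F G : Ch α →ₗ[ℤ] Ch β)
    (hS : ∀ l ∈ S, ∀ i < l.length, l.eraseIdx i ∈ S ∧ C (l.eraseIdx i) ⊆ C l)
    (hA : ∀ l ∈ S, l ≠ [] → Acyc (C l)) (hT : ∀ l ∈ S, C l ⊆ T)
    (hF : ∀ c, d (F c) = F (d c)) (hG : ∀ c, d (G c) = G (d c))
    (hFC : ∀ l ∈ S, F (sg l) ∈ On (C l)) (hGC : ∀ l ∈ S, G (sg l) ∈ On (C l))
    (h0 : F (sg []) = G (sg [])) {z : Ch α} (hz : z ∈ On S) (hd : d z = 0) :
    ∃ w ∈ On T, d w = F z - G z := by
  have e : ∀ c, ext (fun l => F (sg l) - G (sg l)) c = F c - G c := fun c =>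
    hom_ext (F := ext (fun l => F (sg l) - G (sg l))) (G := F - G) (by simp) c
  obtain ⟨D, -, h2⟩ := carrier S C (fun l => F (sg l) - G (sg l)) 1 0 hS hA
    (fun l hl => ⟨Submodule.sub_mem _ (hFC l hl) (hGC l hl), by
      rw [e, map_sub, hF, hG]; simp⟩) (Submodule.zero_mem _) (by simp [h0])
  refine ⟨ext D z, lin_on _ (fun l hl => by rw [ext_sg]; exact on_mono (hT l hl) (h2 l hl).1) hz, ?_⟩
  have := lin_eq_on (d ∘ₗ ext D + ext D ∘ₗ d) (F - G) (fun l hl => by
    simpa using (h2 l hl).2) hz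
  simpa [hd] using this

lemma acyc_cone {T : Set (List β)} (a : β) (h : ∀ l ∈ T, a :: l ∈ T) : Acyc T :=
  fun y hy hd => ⟨cons a y, cons_on a h hy, by rw [d_cons, hd]; simp⟩

lemma acyc_sub (l : List α) (h : l ≠ []) : Acyc {m : List α | ∀ u ∈ m, u ∈ l} := by
  obtain ⟨a, ha⟩ := List.exists_mem_of_ne_nil l h
  exact acyc_cone a fun m hm u hu => by
    rcases List.mem_cons.1 hu with rfl | hu
    exacts [ha, hm u hu]

lemma acyc_strict [LinearOrder α] (l : List α) (h : l ≠ []) :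
    Acyc {m : List α | m.Pairwise (· < ·) ∧ ∀ u ∈ m, u ∈ l} := by
  obtain ⟨a, ha, hmin⟩ : ∃ a ∈ l, ∀ u ∈ l, a ≤ u := by
    obtain ⟨a, ha, h2⟩ := l.toFinset.exists_min_image id (by simpa using h)
    exact ⟨a, by simpa using ha, fun u hu => h2 u (by simpa using hu)⟩
  let e : Ch α →ₗ[ℤ] Ch α := ext fun m => if a ∈ m then 0 else sg (a :: m)
  intro y hy hd
  refine ⟨e y, lin_on _ (fun m hm => ?_) hy, ?_⟩
  · simp only [e, ext_sg]
    split_ifs with h1
    · exact Submodule.zero_mem _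
    · refine sg_on ⟨List.pairwise_cons.2 ⟨fun u hu => ?_, hm.1⟩, fun u hu => ?_⟩
      · exact lt_of_le_of_ne (hmin u (hm.2 u hu)) (by rintro rfl; exact h1 hu)
      · rcases List.mem_cons.1 hu with rfl | hu
        exacts [ha, hm.2 u hu]
  · have := lin_eq_on (d ∘ₗ e + e ∘ₗ d) LinearMap.id (fun m hm => ?_) hy
    · simpa [hd] using this
    simp only [LinearMap.add_apply, LinearMap.comp_apply, d_sg, LinearMap.id_apply]
    by_cases h1 : a ∈ m
    · obtain ⟨b, m, rfl⟩ := List.exists_cons_of_ne_nil (List.ne_nil_of_mem h1)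
      have hp := List.pairwise_cons.1 hm.1
      have h2 : a ∉ m := fun h3 => (hp.1 a h3).not_ge (hmin b (hm.2 b (by simp)))
      obtain rfl : a = b := (List.mem_cons.1 h1).resolve_right h2
      have h3 : e (cons a (dl m)) = 0 :=
        hom_ext (F := e ∘ₗ cons a) (G := 0) (fun l => by simp [e]) _
      rw [dl_cons, map_sub, h3]
      simp [e, h2]
    · have h3 : e (dl m) = cons a (dl m) :=
        lin_eq_on (S := {m | a ∉ m}) _ _ (fun l hl => by
          have : a ∉ l := hl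
          simp [e, this]) (dl_on fun i _ h => h1 (List.mem_of_mem_eraseIdx h))
      rw [h3]
      simp [e, h1, dl_cons]

/-- The tuples of vertices spanning a face. -/
def Tup (F : Set α → Prop) : Set (List α) := {l | F {v | v ∈ l}}

/-- No 2-torsion in the homology of the tuple complex. -/
def TF (F : Set α → Prop) : Prop :=
  ∀ y ∈ On (Tup F), ∀ c ∈ On (Tup F), d y = 0 → d c = (2 : ℤ) • y → ∃ w ∈ On (Tup F), d w = y

lemma tup_face {F : Set α → Prop} (hF : ∀ A B, A ⊆ B → F B → F A) {l m : List α} (hl : l ∈ Tup F)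
    (h : ∀ u ∈ m, u ∈ l) : m ∈ Tup F := hF _ _ h hl

lemma hom_id {F : Set α → Prop} (hF : ∀ A B, A ⊆ B → F B → F A) (G : Ch α →ₗ[ℤ] Ch α)
    (hG : ∀ c, d (G c) = G (d c)) (hC : ∀ l, G (sg l) ∈ On {m | ∀ u ∈ m, u ∈ l})
    (h0 : G (sg []) = sg []) {z : Ch α} (hz : z ∈ On (Tup F)) (hd : d z = 0) :
    ∃ w ∈ On (Tup F), d w = G z - z :=
  carrier_hom (Tup F) (Tup F) (fun l => {m | ∀ u ∈ m, u ∈ l}) G LinearMap.id
    (fun _ hl _ _ => ⟨tup_face hF hl fun _ hu => List.mem_of_mem_eraseIdx hu,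
      fun _ hm u hu => List.mem_of_mem_eraseIdx (hm u hu)⟩)
    (fun l _ => acyc_sub l) (fun _ hl _ hm => tup_face hF hl hm) hG (fun _ => rfl)
    (fun l _ => hC l) (fun _ _ => sg_on fun _ hu => hu) h0 hz hd

/-- A complex in which every non-maximal face can be coned off from `o` has no torsion. -/
lemma tf_of_cone [Fintype α] {F : Set α → Prop} (hF : ∀ A B, A ⊆ B → F B → F A) (o : α)
    (ho : ∀ A u, u ∉ A → F (insert u A) → F (insert o A)) : TF F := by
  letI : LinearOrder α := LinearOrder.lift' (Fintype.equivFin α) (Fintype.equivFin α).injective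
  obtain ⟨N, n0, nC, nd⟩ := carrier_map (fun l : List α => {m | m.Pairwise (· < ·) ∧ ∀ u ∈ m, u ∈ l})
    (fun _ _ _ _ hm => ⟨hm.1, fun u hu => List.mem_of_mem_eraseIdx (hm.2 u hu)⟩) acyc_strict
    (by simp)
  intro y hy c hc h1 h2
  obtain ⟨w, hw, e⟩ := hom_id hF (ext N) nd
    (fun l => by rw [ext_sg]; exact on_mono (fun _ hm => hm.2) (nC l)) (by simp [n0]) hy h1
  have h3 : ext N c ∈ On {m | m.Pairwise (· < ·) ∧ m ∈ Tup F} :=
    lin_on _ (fun l hl => by
      rw [ext_sg]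
      refine on_mono (fun _ hm => ?_) (nC l)
      exact ⟨hm.1, tup_face hF hl hm.2⟩) hc
  have h4 : d (ext N c) ∈ On {m | o :: m ∈ Tup F} := by
    refine d_on (fun l hl i hi => ?_) h3
    have hn : l.Nodup := hl.1.imp ne_of_lt
    have := ho {v | v ∈ l.eraseIdx i} l[i] (fun h => ?_) (hF _ _ ?_ hl.2)
    · refine hF _ _ (fun u hu => ?_) this
      exact List.mem_cons.1 hu
    · obtain ⟨j, hj, hne, e⟩ := List.mem_eraseIdx_iff_getElem.1 h
      exact hne (hn.getElem_inj_iff.1 e)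
    · rintro u (rfl | hu)
      exacts [List.getElem_mem hi, List.mem_of_mem_eraseIdx hu]
  rw [nd, h2, map_smul] at h4
  have h5 : ext N y ∈ On {m | o :: m ∈ Tup F} := by
    rw [Finsupp.mem_supported'] at h4 ⊢
    intro m hm
    simpa using h4 m hm
  refine ⟨cons o (ext N y) - w, Submodule.sub_mem _ (cons_on o (fun _ h => h) h5) hw, ?_⟩
  rw [map_sub, d_cons, nd, h1, e]
  simp

end Pool.Agent.H43.Orb
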