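import Pool.Agent.H43.Orb5

set_option autoImplicit false

namespace Pool.Agent.H43.Orb
open Set Filter Topology

variable {α β : Type*}

/-- Small tuples of points of `A`. -/
def Sm [PseudoMetricSpace β] (ε : ℝ) (A : Set β) : Set (List β) :=
  {l | (∀ x ∈ l, x ∈ A) ∧ ∀ x ∈ l, ∀ y ∈ l, dist x y < ε}

lemma sm_mono [PseudoMetricSpace β] {ε δ : ℝ} {A B : Set β} (h : δ ≤ ε) (h2 : A ⊆ B) :
    Sm δ A ⊆ Sm ε B := fun _ hl =>
  ⟨fun x hx => h2 (hl.1 x hx), fun x hx y hy => (hl.2 x hx y hy).trans_le h⟩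

lemma sm_sub [PseudoMetricSpace β] {ε : ℝ} {A : Set β} {l m : List β} (hl : l ∈ Sm ε A)
    (h : ∀ u ∈ m, u ∈ l) : m ∈ Sm ε A :=
  ⟨fun x hx => hl.1 x (h x hx), fun x hx y hy => hl.2 x (h x hx) y (h y hy)⟩

lemma pr_on (f g : α → β) (l : List α) :
    pr f g (sg l) ∈ On {m | ∀ y ∈ m, ∃ x ∈ l, y = f x ∨ y = g x} := by
  rw [pr, ext_sg]
  refine hh_on f g 0 (fun l => {m | ∀ y ∈ m, ∃ x ∈ l, y = f x ∨ y = g x}) (Submodule.zero_mem _)
    (fun a l m hm y hy => ?_) (fun a l y hy => ?_) l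
  · rcases List.mem_cons.1 hy with rfl | hy
    · exact ⟨a, by simp, Or.inl rfl⟩
    · obtain ⟨x, hx, h⟩ := hm y hy
      exact ⟨x, List.mem_cons_of_mem _ hx, h⟩
  · rcases List.mem_cons.1 hy with rfl | hy
    · exact ⟨a, by simp, Or.inl rfl⟩
    · obtain ⟨x, hx, rfl⟩ := List.mem_map.1 (show y ∈ (a :: l).map g from hy)
      exact ⟨x, hx, Or.inr rfl⟩

lemma close_pair [PseudoMetricSpace β] {u v : ℝ → β} {ε : ℝ} (hu : ContinuousOn u (Icc 0 1))
    (hv : ContinuousOn v (Icc 0 1)) (h : ∀ t ∈ Icc (0 : ℝ) 1, dist (u t) (v t) < ε) :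
    ∀ᶠ N : ℕ in atTop, ∀ s ∈ Icc (0 : ℝ) 1, ∀ t ∈ Icc (0 : ℝ) 1, |s - t| ≤ 1 / ((N : ℝ) + 1) →
      dist (u s) (v t) < ε := by
  obtain ⟨t0, ht0, hm⟩ := isCompact_Icc.exists_isMaxOn (nonempty_Icc.2 zero_le_one)
    (continuous_dist.comp_continuousOn (hu.prodMk hv))
  obtain ⟨δ, hδ, h2⟩ := Metric.uniformContinuousOn_iff.1
    (isCompact_Icc.uniformContinuousOn_of_continuous hv) (ε - dist (u t0) (v t0))
    (sub_pos.2 (h t0 ht0))
  filter_upwards [tendsto_one_div_add_atTop_nhds_zero_nat.eventually (gt_mem_nhds hδ)] with N hN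
  intro s hs t ht hst
  have h3 := h2 s hs t ht (by rw [Real.dist_eq]; exact hst.trans_lt hN)
  have h4 : dist (u s) (v s) ≤ dist (u t0) (v t0) := hm hs
  linarith [dist_triangle (u s) (v s) (v t)]

lemma hom_small [PseudoMetricSpace β] {S : Set (List α)} {B : Set β} {ε : ℝ} (H : ℝ → α → β)
    (h1 : ∀ l ∈ S, ∀ x ∈ l, ContinuousOn (fun t => H t x) (Icc 0 1) ∧ ∀ t ∈ Icc (0 : ℝ) 1, H t x ∈ B)
    (h2 : ∀ l ∈ S, ∀ x ∈ l, ∀ x' ∈ l, ∀ t ∈ Icc (0 : ℝ) 1, dist (H t x) (H t x') < ε)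
    {y : Ch α} (hy : y ∈ On S) (hd : d y = 0) :
    ∃ w ∈ On (Sm ε B), d w = mp (H 1) y - mp (H 0) y := by
  have hs : (y.support : Set (List α)) ⊆ S := hy
  have ev : ∀ᶠ N : ℕ in atTop, ∀ l ∈ y.support, ∀ x ∈ {x | x ∈ l}, ∀ x' ∈ {x | x ∈ l},
      ∀ s ∈ Icc (0 : ℝ) 1, ∀ t ∈ Icc (0 : ℝ) 1, |s - t| ≤ 1 / ((N : ℝ) + 1) →
      dist (H s x) (H t x') < ε := by
    rw [eventually_all_finset]
    intro l hl
    rw [eventually_all_finite l.finite_toSet]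
    intro x hx
    rw [eventually_all_finite l.finite_toSet]
    intro x' hx'
    exact close_pair (h1 l (hs hl) x hx).1 (h1 l (hs hl) x' hx').1 (h2 l (hs hl) x hx x' hx')
  obtain ⟨N, hN⟩ := ev.exists
  have hp : (0 : ℝ) < N + 1 := by positivity
  have mem : ∀ i : ℕ, i ≤ N + 1 → (i : ℝ) / (N + 1) ∈ Icc (0 : ℝ) 1 := fun i hi =>
    ⟨by positivity, by rw [div_le_one hp]; exact_mod_cast hi⟩
  have key : ∀ i : ℕ, i ≤ N + 1 → ∃ w ∈ On (Sm ε B), d w = mp (H (i / (N + 1))) y - mp (H 0) y := by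
    intro i
    induction i with
    | zero => exact fun _ => ⟨0, Submodule.zero_mem _, by simp⟩
    | succ i ih =>
      intro hi
      obtain ⟨w, hw, e⟩ := ih (by omega)
      have m1 := mem i (by omega)
      have m2 := mem (i + 1) hi
      refine ⟨w + pr (H (i / (N + 1))) (H ((i + 1 : ℕ) / (N + 1))) y, Submodule.add_mem _ hw ?_, ?_⟩
      · refine lin_on (S := (y.support : Set (List α))) _ (fun l hl => on_mono (fun m hm => ?_)
          (pr_on _ _ l)) (Finsupp.mem_supported_support ℤ y)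
        refine ⟨fun u hu => ?_, fun u hu v hv => ?_⟩
        · obtain ⟨x, hx, rfl | rfl⟩ := hm u hu
          exacts [(h1 l (hs hl) x hx).2 _ m1, (h1 l (hs hl) x hx).2 _ m2]
        · have e1 : ((i + 1 : ℕ) : ℝ) / (N + 1) - i / (N + 1) = 1 / (N + 1) := by
            push_cast; field_simp; ring
          have e2 : (0 : ℝ) ≤ 1 / (N + 1) := by positivity
          obtain ⟨x, hx, rfl | rfl⟩ := hm u hu <;> obtain ⟨x', hx', rfl | rfl⟩ := hm v hv
          · exact hN l hl x hx x' hx' _ m1 _ m1 (by simpa using e2)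
          · exact hN l hl x hx x' hx' _ m1 _ m2 (by rw [abs_sub_comm, e1, abs_of_nonneg e2])
          · exact hN l hl x hx x' hx' _ m2 _ m1 (by rw [e1, abs_of_nonneg e2])
          · exact hN l hl x hx x' hx' _ m2 _ m2 (by simpa using e2)
      · have := d_pr (H (i / (N + 1))) (H ((i + 1 : ℕ) / (N + 1))) y
        rw [hd, map_zero, add_zero] at this
        rw [map_add, e, this]
        abel
  have := key (N + 1) le_rfl
  rwa [Nat.cast_add_one, div_self hp.ne'] at this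

lemma acyc_star {E : Type*} [NormedAddCommGroup E] [NormedSpace ℝ E] {A : Set E} {a : E} {ε : ℝ}
    (hε : 0 < ε) (ha : a ∈ A) (h : ∀ x ∈ A, ∀ t ∈ Icc (0 : ℝ) 1, (1 - t) • x + t • a ∈ A) :
    Acyc (Sm ε A) := by
  intro y hy hd
  obtain ⟨w, hw, e⟩ := hom_small (B := A) (ε := ε) (fun t x => (1 - t) • x + t • a)
    (fun l hl x hx => ⟨by fun_prop, h x (hl.1 x hx)⟩) (fun l hl x hx x' hx' t ht => by
      rw [dist_add_right, dist_smul₀, Real.norm_of_nonneg (sub_nonneg.2 ht.2)]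
      have := hl.2 x hx x' hx'
      have h3 : 0 ≤ dist x x' := dist_nonneg
      nlinarith [ht.1]) hy hd
  have e0 : (fun x : E => (1 - (0 : ℝ)) • x + (0 : ℝ) • a) = id := by ext; simp
  have e1 : (fun x : E => (1 - (1 : ℝ)) • x + (1 : ℝ) • a) = fun _ => a := by ext; simp
  rw [e0, e1, mp_id] at e
  refine ⟨cons a (mp (fun _ => a) y) - w, Submodule.sub_mem _ (cons_on (S := {m | ∀ u ∈ m, u = a}) a
    (fun m hm => ?_) (mp_on _ (fun l _ u hu => ?_) hy)) hw, ?_⟩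
  · have : ∀ u ∈ a :: m, u = a := by simpa using hm
    exact ⟨fun x hx => this x hx ▸ ha, fun x hx y hy => by rw [this x hx, this y hy]; simpa⟩
  · obtain ⟨_, -, rfl⟩ := List.mem_map.1 hu
    rfl
  · rw [map_sub, d_cons, d_mp, hd, e]
    simp

variable {V : Type} [Fintype V]

/-- The geometric realization of a complex. -/
def Rl (F : Set V → Prop) : Set (V → ℝ) :=
  {x | (∀ v, 0 ≤ x v) ∧ ∑ v, x v = 1 ∧ F {v | x v ≠ 0}}

lemma rl_mono {F G : Set V → Prop} (h : ∀ A, A.Nonempty → F A → G A) : Rl F ⊆ Rl G := by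
  intro x hx
  refine ⟨hx.1, hx.2.1, h _ ?_ hx.2.2⟩
  by_contra h0
  have : ∀ v, x v = 0 := fun v => by_contra fun hv => h0 ⟨v, hv⟩
  have h2 := hx.2.1
  simp [this] at h2

lemma rl_star {F : Set V → Prop} (hF : ∀ A B, A ⊆ B → F B → F A) (a : V) (ha : F {a})
    (h : ∀ A, F A → F (insert a A)) {ε : ℝ} (hε : 0 < ε) : Acyc (Sm ε (Rl F)) := by
  classical
  refine acyc_star (a := Pi.single a 1) hε ⟨fun v => ?_, by simp, hF _ _ (fun v hv => ?_) ha⟩
    fun x hx t ht => ⟨fun v => ?_, ?_, hF _ _ (fun v hv => ?_) (h _ hx.2.2)⟩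
  · rw [Pi.single_apply]; split_ifs <;> norm_num
  · by_contra h2
    exact hv (Pi.single_eq_of_ne h2 _)
  · have := hx.1 v
    have h1 := sub_nonneg.2 ht.2
    have h2 := ht.1
    simp only [Pi.add_apply, Pi.smul_apply, smul_eq_mul, Pi.single_apply]
    split_ifs <;> positivity
  · simp [Finset.sum_add_distrib, ← Finset.mul_sum, hx.2.1]
  · by_cases h2 : v = a
    · exact Or.inl h2
    · refine Or.inr fun h3 => hv ?_
      simp [h3, Pi.single_eq_of_ne h2]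

lemma rl_compact {F : Set V → Prop} (hF : ∀ A B, A ⊆ B → F B → F A) : IsCompact (Rl F) := by
  have : Rl F = ⋃ A ∈ {A | F A}, (stdSimplex ℝ V ∩ ⋂ v ∈ Aᶜ, {x | x v = 0}) := by
    ext x
    simp only [mem_iUnion, mem_inter_iff, mem_iInter]
    constructor
    · rintro ⟨h1, h2, h3⟩
      exact ⟨_, h3, ⟨h1, h2⟩, fun v hv => by simpa using hv⟩
    · rintro ⟨A, hA, ⟨h1, h2⟩, h3⟩
      exact ⟨h1, h2, hF _ _ (fun v hv => by_contra fun h => hv (h3 v h)) hA⟩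
  rw [this]
  refine (Set.toFinite _).isCompact_biUnion fun A _ => (isCompact_stdSimplex ℝ V).inter_right ?_
  exact isClosed_biInter fun v _ => isClosed_eq (continuous_apply v) continuous_const

lemma exists_vtx [Nonempty V] : ∃ (v : (V → ℝ) → V) (δ : ℝ), 0 < δ ∧ ∀ x y : V → ℝ,
    ∑ u, x u = 1 → dist x y < δ → y (v x) ≠ 0 := by
  have : ∀ x : V → ℝ, ∃ a, ∀ u, x u ≤ x a := fun x => Finite.exists_max x
  choose v hv using this
  have hc : (0 : ℝ) < Fintype.card V := by exact_mod_cast Fintype.card_pos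
  refine ⟨v, 1 / Fintype.card V, by positivity, fun x y hx hxy h0 => ?_⟩
  have h1 := Finset.sum_le_card_nsmul Finset.univ x _ (fun u _ => hv x u)
  rw [hx, Finset.card_univ, nsmul_eq_mul] at h1
  have h2 := (dist_le_pi_dist x y (v x)).trans_lt hxy
  rw [h0, Real.dist_eq, sub_zero, lt_div_iff₀ hc] at h2
  nlinarith [le_abs_self (x (v x))]

lemma exists_sd {ε : ℝ} (hε : 0 < ε) : ∃ sd : Ch V →ₗ[ℤ] Ch (V → ℝ), sd (sg []) = sg [] ∧
    (∀ l, sd (sg l) ∈ On (Sm ε (Rl fun A => A ⊆ {v | v ∈ l}))) ∧ ∀ c, d (sd c) = sd (d c) := by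
  obtain ⟨F, h0, h1, h2⟩ := carrier_map (fun l : List V => Sm ε (Rl fun A => A ⊆ {v | v ∈ l}))
    (fun l i _ => sm_mono le_rfl (rl_mono fun A _ hA u hu => List.mem_of_mem_eraseIdx (hA hu)))
    (fun l hl => by
      obtain ⟨a, ha⟩ := List.exists_mem_of_ne_nil l hl
      exact rl_star (fun _ _ h h2 => h.trans h2) a (by simpa using ha)
        (fun A hA => insert_subset ha hA) hε) ⟨by simp, by simp⟩
  exact ⟨ext F, by simp [h0], fun l => by rw [ext_sg]; exact h1 l, h2⟩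

/-- The comparison between the tuple complex and small chains. -/
lemma compare [Nonempty V] {F : Set V → Prop} (hF : ∀ A B, A ⊆ B → F B → F A) (h0 : F ∅) :
    ∃ (v : (V → ℝ) → V) (δ : ℝ), 0 < δ ∧ (∀ c ∈ On (Sm δ (Rl F)), mp v c ∈ On (Tup F)) ∧
      ∀ ε > 0, ∃ sd : Ch V →ₗ[ℤ] Ch (V → ℝ), (∀ c, d (sd c) = sd (d c)) ∧
        (∀ c ∈ On (Tup F), sd c ∈ On (Sm ε (Rl F))) ∧
        (∀ z ∈ On (Tup F), d z = 0 → ∃ w ∈ On (Tup F), d w = mp v (sd z) - z) ∧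
        ∀ y ∈ On (Sm (min δ ε) (Rl F)), d y = 0 →
          ∃ w ∈ On (Sm ε (Rl F)), d w = sd (mp v y) - y := by
  obtain ⟨v, δ, hδ, hv⟩ := exists_vtx (V := V)
  have k1 : ∀ l ∈ Sm δ (Rl F), ∀ x ∈ l, ∀ y ∈ l, y (v x) ≠ 0 := fun l hl x hx y hy =>
    hv x y (hl.1 x hx).2.1 (hl.2 x hx y hy)
  refine ⟨v, δ, hδ, fun c hc => mp_on v (fun l hl => ?_) hc, fun ε hε => ?_⟩
  · rcases l with _ | ⟨a, l⟩
    · simpa [Tup] using h0
    · refine hF _ _ (fun u hu => ?_) (hl.1 a (by simp)).2.2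
      obtain ⟨x, hx, rfl⟩ := List.mem_map.1 hu
      exact k1 _ hl x hx a (by simp)
  obtain ⟨sd, s0, s1, s2⟩ := exists_sd (V := V) hε
  refine ⟨sd, s2, fun c hc => ?_, fun z hz hd => ?_, fun y hy hd => ?_⟩
  · refine lin_on (S := Tup F) _ (fun l hl => on_mono (sm_mono le_rfl ?_) (s1 l)) hc
    exact rl_mono fun A _ hA => hF A {v | v ∈ l} hA hl
  · refine hom_id hF (mp v ∘ₗ sd) (fun c => by simp [d_mp, s2]) (fun l => ?_) (by simp [s0]) hz hd
    refine mp_on (T := {m | ∀ u ∈ m, u ∈ l}) v (fun m hm u hu => ?_) (s1 l)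
    obtain ⟨x, hx, rfl⟩ := List.mem_map.1 hu
    exact (hm.1 x hx).2.2 (hv x x (hm.1 x hx).2.1 (by simpa))
  · have m1 : Sm (min δ ε) (Rl F) ⊆ Sm δ (Rl F) := sm_mono (min_le_left _ _) le_rfl
    refine carrier_hom (Sm (min δ ε) (Rl F)) (Sm ε (Rl F))
      (fun l => Sm ε (Rl fun A => ∃ x ∈ l, A ⊆ {u | x u ≠ 0})) (sd ∘ₗ mp v) LinearMap.id
      (fun l hl i _ => ⟨sm_sub hl fun _ hu => List.mem_of_mem_eraseIdx hu, sm_mono le_rfl
        (rl_mono fun A _ ⟨x, hx, hA⟩ => ⟨x, List.mem_of_mem_eraseIdx hx, hA⟩)⟩)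
      (fun l hl hn => ?_) (fun l hl => sm_mono le_rfl (rl_mono fun A _ ⟨x, hx, hA⟩ =>
        hF _ _ hA (hl.1 x hx).2.2)) (fun c => by simp [d_mp, s2]) (fun _ => rfl)
      (fun l hl => ?_) (fun l hl => sg_on ⟨fun x hx => ?_, fun x hx y hy => ?_⟩) (by simp [s0]) hy hd
    · obtain ⟨a, ha⟩ := List.exists_mem_of_ne_nil l hn
      exact rl_star (fun _ _ h ⟨x, hx, h2⟩ => ⟨x, hx, h.trans h2⟩) (v a)
        ⟨a, ha, by simpa using k1 l (m1 hl) a ha a ha⟩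
        (fun A ⟨x, hx, hA⟩ => ⟨x, hx, insert_subset (k1 l (m1 hl) a ha x hx) hA⟩) hε
    · rw [LinearMap.comp_apply, mp_sg]
      refine on_mono (sm_mono le_rfl (rl_mono fun A ⟨u, hu⟩ hA => ?_)) (s1 _)
      obtain ⟨a, ha, -⟩ := List.mem_map.1 (hA hu)
      refine ⟨a, ha, fun w hw => ?_⟩
      obtain ⟨x, hx, rfl⟩ := List.mem_map.1 (hA hw)
      exact k1 l (m1 hl) x hx a ha
    · exact ⟨(hl.1 x hx).1, (hl.1 x hx).2.1, x, hx, le_rfl⟩
    · exact (hl.2 x hx y hy).trans_le (min_le_right _ _)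

lemma amb {E E' : Type*} [PseudoMetricSpace E] [PseudoMetricSpace E'] [Zero E'] {X : Set E}
    {Y : Set E'} (hX : IsCompact X) (f : C(X, Y)) : ∃ g : E → E', (∀ x : X, g x = f x) ∧
      ∀ ε > 0, ∃ δ > 0, ∀ c ∈ On (Sm δ X), mp g c ∈ On (Sm ε Y) := by
  classical
  haveI := isCompact_iff_compactSpace.1 hX
  let g : E → E' := fun x => if h : x ∈ X then f ⟨x, h⟩ else 0
  have hg : ∀ x : X, g x = f x := fun x => dif_pos x.2
  refine ⟨g, hg, fun ε hε => ?_⟩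
  obtain ⟨δ, hδ, h⟩ := Metric.uniformContinuous_iff.1
    (CompactSpace.uniformContinuous_of_continuous f.continuous) ε hε
  refine ⟨δ, hδ, fun c hc => mp_on g (fun l hl => ?_) hc⟩
  refine ⟨fun y hy => ?_, fun y hy y' hy' => ?_⟩
  · obtain ⟨x, hx, rfl⟩ := List.mem_map.1 hy
    rw [hg ⟨x, hl.1 x hx⟩]
    exact (f _).2
  · obtain ⟨x, hx, rfl⟩ := List.mem_map.1 hy
    obtain ⟨x', hx', rfl⟩ := List.mem_map.1 hy'
    rw [hg ⟨x, hl.1 x hx⟩, hg ⟨x', hl.1 x' hx'⟩]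
    exact h (hl.2 x hx x' hx')

lemma amb_hom {E : Type*} [PseudoMetricSpace E] [Zero E] {X : Set E} (hX : IsCompact X)
    (f : C(X, X)) (hf : f.Homotopic (ContinuousMap.id X)) (g : E → E) (hg : ∀ x : X, g x = f x)
    {ε : ℝ} (hε : 0 < ε) : ∃ δ > 0, ∀ z ∈ On (Sm δ X), d z = 0 →
      ∃ w ∈ On (Sm ε X), d w = z - mp g z := by
  classical
  haveI := isCompact_iff_compactSpace.1 hX
  obtain ⟨G⟩ := hf
  let H : ℝ → E → E := fun t x =>
    if h : x ∈ X then G (projIcc 0 1 zero_le_one t, ⟨x, h⟩) else 0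
  have hH : ∀ t x (h : x ∈ X), H t x = G (projIcc 0 1 zero_le_one t, ⟨x, h⟩) :=
    fun t x h => dif_pos h
  obtain ⟨δ, hδ, h⟩ := Metric.uniformContinuous_iff.1
    (CompactSpace.uniformContinuous_of_continuous G.continuous) ε hε
  refine ⟨δ, hδ, fun z hz hd => ?_⟩
  obtain ⟨w, hw, e⟩ := hom_small (B := X) (ε := ε) H (fun l hl x hx => by
      simp only [hH _ x (hl.1 x hx)]
      refine ⟨Continuous.continuousOn ?_, fun t _ => (G _).2⟩
      exact continuous_subtype_val.comp (G.continuous.comp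
        (continuous_projIcc.prodMk continuous_const)))
    (fun l hl x hx x' hx' t _ => by
      rw [hH _ x (hl.1 x hx), hH _ x' (hl.1 x' hx')]
      apply h
      rw [Prod.dist_eq, dist_self]
      exact max_lt hδ (hl.2 x hx x' hx')) hz hd
  refine ⟨w, hw, ?_⟩
  rw [e]
  congr 1
  · refine lin_eq_on _ LinearMap.id (fun l hl => ?_) hz
    rw [mp_sg, LinearMap.id_apply]
    congr 1
    rw [List.map_congr_left (g := id), List.map_id]
    intro x hx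
    rw [hH _ x (hl.1 x hx), projIcc_right]
    exact congrArg Subtype.val (G.apply_one _)
  · refine lin_eq_on _ _ (fun l hl => ?_) hz
    rw [mp_sg, mp_sg]
    congr 1
    refine List.map_congr_left fun x hx => ?_
    rw [hH _ x (hl.1 x hx), projIcc_left, hg ⟨x, hl.1 x hx⟩]
    exact congrArg Subtype.val (G.apply_zero _)

/-- Absence of 2-torsion passes to homotopy retracts. -/
theorem tf_retract {U : Type} [Fintype U] [Nonempty U] [Nonempty V] {F : Set V → Prop}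
    {G : Set U → Prop} (hF : ∀ A B, A ⊆ B → F B → F A) (hF0 : F ∅)
    (hG : ∀ A B, A ⊆ B → G B → G A) (hG0 : G ∅) (a : C(Rl F, Rl G)) (b : C(Rl G, Rl F))
    (hab : (b.comp a).Homotopic (ContinuousMap.id _)) (h : TF G) : TF F := by
  obtain ⟨vX, δX, hδX, x1, x2⟩ := compare hF hF0
  obtain ⟨vW, δW, hδW, w1, w2⟩ := compare hG hG0
  obtain ⟨a', ha, ha2⟩ := amb (rl_compact hF) a
  obtain ⟨b', hb, hb2⟩ := amb (rl_compact hG) b
  obtain ⟨ε2, he2, b3⟩ := hb2 δX hδX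
  obtain ⟨ε1, he1, a3⟩ := ha2 (min δW ε2) (lt_min hδW he2)
  obtain ⟨ε0, he0, h3⟩ := amb_hom (rl_compact hF) _ hab (b' ∘ a')
    (fun x => by simp [ha, hb]) hδX
  obtain ⟨sX, s1, s2, s3, -⟩ := x2 (min ε1 ε0) (lt_min he1 he0)
  obtain ⟨sW, t1, t2, -, t4⟩ := w2 ε2 he2
  intro z hz c hc hd h2
  have z1 := s2 z hz
  have y1 := a3 _ (on_mono (sm_mono (min_le_left _ _) le_rfl) z1)
  have c1 := a3 _ (on_mono (sm_mono (min_le_left _ _) le_rfl) (s2 c hc))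
  have dz : d (sX z) = 0 := by rw [s1, hd, map_zero]
  have dy : d (mp a' (sX z)) = 0 := by rw [d_mp, dz, map_zero]
  obtain ⟨u2, hu2, e2⟩ := h _ (w1 _ (on_mono (sm_mono (min_le_left _ _) le_rfl) y1)) _
    (w1 _ (on_mono (sm_mono (min_le_left _ _) le_rfl) c1)) (by rw [d_mp, dy, map_zero])
    (by rw [d_mp, d_mp, s1, h2]; simp only [map_smul])
  obtain ⟨u3, hu3, e3⟩ := t4 _ y1 dy
  obtain ⟨u5, hu5, e5⟩ := h3 _ (on_mono (sm_mono (min_le_right _ _) le_rfl) z1) dz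
  obtain ⟨u7, hu7, e7⟩ := s3 z hz hd
  refine ⟨mp vX (mp b' (sW u2 - u3) + u5) - u7, Submodule.sub_mem _ (x1 _ (Submodule.add_mem _
    (b3 _ (Submodule.sub_mem _ (t2 _ hu2) hu3)) hu5)) hu7, ?_⟩
  rw [map_sub, d_mp, map_add, d_mp, map_sub, t1, e2, e3, e5, e7, ← mp_mp]
  simp

end Pool.Agent.H43.Orb
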