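import Pool.Agent.H43.Orb6

set_option autoImplicit false

namespace Pool.Agent.H43.Orb
open Finset

section sphere
variable {D : ℕ}

noncomputable def mu (y : Fin (D + 1) → ℝ) : ℝ := univ.sup' univ_nonempty fun j => max (-y j) 0
noncomputable def sv (y : Fin (D + 1) → ℝ) : ℝ := ∑ j, (y j + mu y) + mu y
noncomputable def rc (y : Fin (D + 1) → ℝ) (j : Fin (D + 1)) : ℝ :=
  (if j = 0 then mu y else y j + mu y) / sv y
noncomputable def ln (x : Fin (D + 1) → ℝ) (j : Fin (D + 1)) : ℝ :=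
  (if j = 0 then 1 - ∑ i, x i else x j) - x 0
noncomputable def nz (x : Fin (D + 1) → ℝ) (j : Fin (D + 1)) : ℝ := x j / √(∑ i, x i ^ 2)

lemma mu_ge (y : Fin (D + 1) → ℝ) (j : Fin (D + 1)) : max (-y j) 0 ≤ mu y :=
  le_sup' (fun j => max (-y j) 0) (mem_univ j)

lemma mu_nonneg (y : Fin (D + 1) → ℝ) : 0 ≤ mu y := (le_max_right _ _).trans (mu_ge y 0)

lemma add_mu_nonneg (y : Fin (D + 1) → ℝ) (j : Fin (D + 1)) : 0 ≤ y j + mu y := by
  have := (le_max_left _ _).trans (mu_ge y j)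
  linarith

lemma mu_att (y : Fin (D + 1) → ℝ) : mu y = 0 ∨ ∃ j, y j + mu y = 0 := by
  obtain ⟨j, -, h⟩ := exists_mem_eq_sup' univ_nonempty fun j => max (-y j) 0
  have h' : mu y = max (-y j) 0 := h
  rcases max_choice (-y j) 0 with e | e
  · exact Or.inr ⟨j, by rw [h', e]; ring⟩
  · exact Or.inl (by rw [h', e])

lemma mu_cont : Continuous (mu : (Fin (D + 1) → ℝ) → ℝ) :=
  Continuous.finset_sup'_apply univ_nonempty fun j _ => by fun_prop

lemma mu_single : mu (Pi.single 0 1 : Fin (D + 1) → ℝ) = 0 := by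
  refine le_antisymm (sup'_le _ _ fun j _ => max_le ?_ le_rfl) (mu_nonneg _)
  rw [Pi.single_apply]
  split_ifs <;> norm_num

lemma rc_single (j : Fin (D + 1)) : rc (Pi.single 0 1) j = 0 := by
  unfold rc
  rw [mu_single]
  split_ifs with h
  · simp
  · simp [h]

lemma sv_pos {y : Fin (D + 1) → ℝ} (h : ∑ j, y j ^ 2 = 1) : 0 < sv y := by
  have h1 : 0 ≤ ∑ j, (y j + mu y) := sum_nonneg fun j _ => add_mu_nonneg y j
  have h2 := mu_nonneg y
  by_contra h3
  unfold sv at h3
  have h4 : mu y = 0 := by linarith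
  have h5 : ∑ j, (y j + mu y) = 0 := by linarith
  rw [sum_eq_zero_iff_of_nonneg fun j _ => add_mu_nonneg y j] at h5
  have h6 : ∀ j, y j = 0 := fun j => by simpa [h4] using h5 j (mem_univ j)
  simp [h6] at h

lemma rc_nonneg {y : Fin (D + 1) → ℝ} (h : ∑ j, y j ^ 2 = 1) (j : Fin (D + 1)) : 0 ≤ rc y j := by
  refine div_nonneg ?_ (sv_pos h).le
  split_ifs
  exacts [mu_nonneg y, add_mu_nonneg y j]

lemma one_sub_rc {y : Fin (D + 1) → ℝ} (h : ∑ j, y j ^ 2 = 1) :
    1 - ∑ j, rc y j = (y 0 + mu y) / sv y := by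
  have := (sv_pos h).ne'
  unfold rc
  rw [← sum_div, Fin.sum_univ_succ]
  simp only [if_true, Fin.succ_ne_zero, if_false]
  field_simp
  unfold sv
  rw [Fin.sum_univ_succ]
  ring

lemma nz_ln_rc {y : Fin (D + 1) → ℝ} (h : ∑ j, y j ^ 2 = 1) : nz (ln (rc y)) = y := by
  have hp := sv_pos h
  have e : ∀ j, ln (rc y) j = y j / sv y := by
    intro j
    unfold ln
    rw [one_sub_rc h]
    unfold rc
    split_ifs with h1 h2 h2
    · rw [h1]; ring
    · exact absurd rfl h2
    · ring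
    · exact absurd rfl h2
  ext j
  unfold nz
  simp only [e, div_pow, ← sum_div, h]
  rw [Real.sqrt_div zero_le_one, Real.sqrt_one, Real.sqrt_sq hp.le]
  field_simp

lemma nz_sq {x : Fin (D + 1) → ℝ} (h : 0 < ∑ i, x i ^ 2) : ∑ j, nz x j ^ 2 = 1 := by
  unfold nz
  simp only [div_pow, ← sum_div]
  rw [Real.sq_sqrt h.le, div_self h.ne']

lemma nz_ln_zero : nz (ln (fun _ => 0 : Fin (D + 1) → ℝ)) = Pi.single 0 1 := by
  have e : ln (fun _ => 0 : Fin (D + 1) → ℝ) = Pi.single 0 1 := by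
    ext j
    simp [ln, Pi.single_apply]
  rw [e]
  ext j
  simp [nz, Pi.single_apply]

lemma ln_pos {x : Fin (D + 1) → ℝ} (h : (1 - ∑ i, x i = 0) ∨ ∃ j, x j = 0) :
    0 < ∑ i, ln x i ^ 2 := by
  refine lt_of_le_of_ne (sum_nonneg fun i _ => sq_nonneg _) fun e => ?_
  have h2 := (sum_eq_zero_iff_of_nonneg fun i _ => sq_nonneg (ln x i)).1 e.symm
  have h3 : ∀ j, ln x j = 0 := fun j => by simpa using h2 j (mem_univ j)
  have h4 : ∀ j, x j = x 0 := fun j => by
    by_cases hj : j = 0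
    · rw [hj]
    · have := h3 j
      simp only [ln, hj, if_false] at this
      linarith
  have h5 := h3 0
  simp only [ln, if_true] at h5
  have h6 : x 0 = 0 := by
    rcases h with h | ⟨j, h⟩
    · linarith
    · rw [← h4 j, h]
  simp [h4, h6] at h5

end sphere

variable {k : ℕ} (dd : Fin k → ℕ)

/-- A wedge of boundaries of simplices. -/
def FW (A : Set (Option (Σ i : Fin k, Fin (dd i + 1)))) : Prop :=
  (∀ p q, some p ∈ A → some q ∈ A → p.1 = q.1) ∧ ∀ i, ¬ (none ∈ A ∧ ∀ j, some ⟨i, j⟩ ∈ A)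

lemma fw_mono : ∀ A B, A ⊆ B → FW dd B → FW dd A := fun _ _ h hB =>
  ⟨fun p q hp hq => hB.1 p q (h hp) (h hq), fun i hi => hB.2 i ⟨h hi.1, fun j => h (hi.2 j)⟩⟩

lemma fw_tf : TF (FW dd) := by
  refine tf_of_cone (fw_mono dd) none fun A u hu h => ?_
  rcases u with _ | ⟨i', j'⟩
  · exact h
  refine ⟨fun p q hp hq => h.1 p q (Or.inr (by simpa using hp)) (Or.inr (by simpa using hq)),
    fun i hi => ?_⟩
  have h2 : ∀ j, some ⟨i, j⟩ ∈ A := fun j => by simpa using hi.2 j
  obtain rfl : i' = i := h.1 ⟨i', j'⟩ ⟨i, 0⟩ (Or.inl rfl) (Or.inr (h2 0))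
  exact hu (h2 j')

/-- The wedge of spheres. -/
def Wedge : Set ((i : Fin k) → Fin (dd i + 1) → ℝ) :=
  {y | (∀ i, ∑ j, y i j ^ 2 = 1) ∧ ∀ i i', i ≠ i' → y i = Pi.single 0 1 ∨ y i' = Pi.single 0 1}

noncomputable def al (y : (i : Fin k) → Fin (dd i + 1) → ℝ) :
    Option (Σ i : Fin k, Fin (dd i + 1)) → ℝ
  | none => 1 - ∑ i, ∑ j, rc (y i) j
  | some p => rc (y p.1) p.2

noncomputable def be (x : Option (Σ i : Fin k, Fin (dd i + 1)) → ℝ) (i : Fin k) :
    Fin (dd i + 1) → ℝ := nz (ln fun j => x (some ⟨i, j⟩))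

lemma al_mem {y : (i : Fin k) → Fin (dd i + 1) → ℝ} (hy : y ∈ Wedge dd) : al dd y ∈ Rl (FW dd) := by
  have h1 : ∀ i j, rc (y i) j ≠ 0 → ∀ i', i' ≠ i → ∀ j', rc (y i') j' = 0 := by
    intro i j h i' hi j'
    rcases hy.2 i' i hi with e | e
    · rw [e, rc_single]
    · exact absurd (by rw [e, rc_single]) h
  have h2 : ∀ i j, rc (y i) j ≠ 0 → al dd y none = (y i 0 + mu (y i)) / sv (y i) := by
    intro i j h
    rw [← one_sub_rc (hy.1 i), al, sum_eq_single i (fun i' _ hi => sum_eq_zero fun j' _ =>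
      h1 i j h i' hi j') (by simp)]
  refine ⟨?_, ?_, fun p q hp hq => ?_, fun i hi => ?_⟩
  · rintro (_ | p)
    · by_cases h : ∃ i j, rc (y i) j ≠ 0
      · obtain ⟨i, j, h⟩ := h
        rw [h2 i j h]
        exact div_nonneg (add_mu_nonneg _ _) (sv_pos (hy.1 i)).le
      · push Not at h
        simp [al, h]
    · exact rc_nonneg (hy.1 _) _
  · rw [Fintype.sum_option, Fintype.sum_sigma]
    simp [al]
  · by_contra h
    exact hp (h1 _ _ hq _ h _)
  · have h3 : ∀ j, rc (y i) j ≠ 0 := hi.2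
    rcases mu_att (y i) with e | ⟨j, e⟩
    · exact h3 0 (by simp [rc, e])
    · by_cases hj : j = 0
      · refine hi.1 ?_
        rw [h2 i 0 (h3 0), ← hj, e, zero_div]
      · exact h3 j (by simp [rc, hj, e])

lemma be_pos {x : Option (Σ i : Fin k, Fin (dd i + 1)) → ℝ} (hx : x ∈ Rl (FW dd)) (i : Fin k) :
    0 < ∑ j, ln (fun j => x (some ⟨i, j⟩)) j ^ 2 := by
  apply ln_pos
  by_contra h
  push Not at h
  refine hx.2.2.2 i ⟨fun h0 => h.1 ?_, h.2⟩
  have h2 := hx.2.1
  rw [Fintype.sum_option, Fintype.sum_sigma, h0, sum_eq_single i (fun i' _ hi =>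
    sum_eq_zero fun j _ => by_contra fun h3 => hi (hx.2.2.1 ⟨i', j⟩ ⟨i, 0⟩ h3 (h.2 0))) (by simp)]
    at h2
  linarith

lemma be_mem {x : Option (Σ i : Fin k, Fin (dd i + 1)) → ℝ} (hx : x ∈ Rl (FW dd)) :
    be dd x ∈ Wedge dd := by
  refine ⟨fun i => nz_sq (be_pos dd hx i), fun i i' h => ?_⟩
  by_cases h1 : ∀ j, x (some ⟨i, j⟩) = 0
  · left
    simp only [be, h1, nz_ln_zero]
  · right
    push Not at h1
    obtain ⟨j, hj⟩ := h1
    have h2 : ∀ j', x (some ⟨i', j'⟩) = 0 := fun j' => by_contra fun h3 =>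
      h (hx.2.2.1 ⟨i, j⟩ ⟨i', j'⟩ hj h3)
    simp only [be, h2, nz_ln_zero]

noncomputable def alC : C(Wedge dd, Rl (FW dd)) where
  toFun y := ⟨al dd y, al_mem dd y.2⟩
  continuous_toFun := by
    have h : ∀ i j, Continuous fun y : Wedge dd => rc (y.1 i) j := by
      intro i j
      have h0 : Continuous fun y : Wedge dd => y.1 i :=
        (continuous_apply i).comp continuous_subtype_val
      have h1 := mu_cont.comp h0
      have h2 : ∀ j, Continuous fun y : Wedge dd => y.1 i j := fun j => (continuous_apply j).comp h0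
      refine Continuous.div ?_ ?_ fun y => (sv_pos (y.2.1 i)).ne'
      · split_ifs
        exacts [h1, (h2 j).add h1]
      · exact (continuous_finsetSum _ fun j _ => (h2 j).add h1).add h1
    refine Continuous.subtype_mk (continuous_pi ?_) _
    rintro (_ | p)
    · exact continuous_const.sub
        (continuous_finsetSum _ fun i _ => continuous_finsetSum _ fun j _ => h i j)
    · exact h _ _

noncomputable def beC : C(Rl (FW dd), Wedge dd) where
  toFun x := ⟨be dd x, be_mem dd x.2⟩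
  continuous_toFun := by
    refine Continuous.subtype_mk (continuous_pi fun i => continuous_pi fun j => ?_) _
    have h2 : ∀ u, Continuous fun x : Rl (FW dd) => x.1 u := fun u =>
      (continuous_apply u).comp continuous_subtype_val
    have h : ∀ j, Continuous fun x : Rl (FW dd) => ln (fun j => x.1 (some ⟨i, j⟩)) j := by
      intro j
      refine Continuous.sub ?_ (h2 _)
      split_ifs
      exacts [continuous_const.sub (continuous_finsetSum _ fun j _ => h2 _), h2 _]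
    exact (h j).div (continuous_finsetSum _ fun j _ => (h j).pow 2).sqrt
      fun x => (Real.sqrt_pos.2 (be_pos dd x.2 i)).ne'

lemma be_al : (beC dd).comp (alC dd) = ContinuousMap.id _ := by
  ext y i j
  exact congrFun (nz_ln_rc (y.2.1 i)) j

/-- A finite complex homotopy equivalent to a wedge of spheres has no 2-torsion. -/
theorem tf_of_wedge {V : Type} [Fintype V] [Nonempty V] {F : Set V → Prop}
    (hF : ∀ A B, A ⊆ B → F B → F A) (hF0 : F ∅)
    (e : ContinuousMap.HomotopyEquiv (Rl F) (Wedge dd)) : TF F := by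
  refine tf_retract hF hF0 (fw_mono dd) ⟨by simp, by simp⟩ ((alC dd).comp e.toFun)
    (e.invFun.comp (beC dd)) ?_ (fw_tf dd)
  rw [ContinuousMap.comp_assoc, ← ContinuousMap.comp_assoc (beC dd), be_al,
    ContinuousMap.id_comp]
  exact e.left_inv

end Pool.Agent.H43.Orb
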