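import Mathlib

open MeasureTheory ProbabilityTheory Set Filter Topology

namespace Pool.Agent.H43.Pb

/-- comparison of measures on an open set, component by component -/
lemma comp_le {μ ν : Measure ℝ} {O : Set ℝ} (hO : IsOpen O) (h0 : O ⊆ Ioi 0)
    (h1 : ∀ l r, l < r → Ioo l r ⊆ O → l ∉ O → r ∉ O → μ (Ioo l r) ≤ ν (Ioo l r))
    (h2 : ∀ l, Ioi l ⊆ O → l ∉ O → μ (Ioi l) ≤ ν (Ioi l)) : μ O ≤ ν O := by
  set F : Set (Set ℝ) := {I | (∃ l r, l < r ∧ Ioo l r ⊆ O ∧ l ∉ O ∧ r ∉ O ∧ I = Ioo l r) ∨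
    ∃ l, Ioi l ⊆ O ∧ l ∉ O ∧ I = Ioi l} with hF
  have hsub : ∀ I ∈ F, I ⊆ O := by
    rintro I (⟨l, r, _, h, _, _, rfl⟩ | ⟨l, h, _, rfl⟩) <;> exact h
  have hop : ∀ I ∈ F, IsOpen I := by
    rintro I (⟨l, r, _, h, _, _, rfl⟩ | ⟨l, h, _, rfl⟩)
    exacts [isOpen_Ioo, isOpen_Ioi]
  have hne : ∀ I ∈ F, I.Nonempty := by
    rintro I (⟨l, r, h, _, _, _, rfl⟩ | ⟨l, h, _, rfl⟩)
    exacts [nonempty_Ioo.2 h, nonempty_Ioi]
  have hmax : ∀ I ∈ F, ∀ J : Set ℝ, J.OrdConnected → J ⊆ O → ∀ x ∈ I, x ∈ J → J ⊆ I := by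
    rintro I (⟨l, r, _, _, a, b, rfl⟩ | ⟨l, _, a, rfl⟩) J hJ hJO x hx hxJ y hy
    · refine ⟨not_le.1 fun c => a (hJO (hJ.out hy hxJ ⟨c, hx.1.le⟩)),
        not_le.1 fun c => b (hJO (hJ.out hxJ hy ⟨hx.2.le, c⟩))⟩
    · exact not_le.1 fun c => a (hJO (hJ.out hy hxJ ⟨c, le_of_lt hx⟩))
  have hoc : ∀ I ∈ F, I.OrdConnected := by
    rintro I (⟨l, r, h, _, _, _, rfl⟩ | ⟨l, h, _, rfl⟩) <;> infer_instance
  have hdis : F.Pairwise Disjoint := by
    intro I hI J hJ hIJ
    rw [Set.disjoint_left]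
    intro x hx hx'
    exact hIJ (Subset.antisymm (hmax J hJ I (hoc I hI) (hsub I hI) x hx' hx)
      (hmax I hI J (hoc J hJ) (hsub J hJ) x hx hx'))
  have hc : F.Countable := Set.PairwiseDisjoint.countable_of_isOpen (s := id) hdis hop hne
  have hU : O = ⋃₀ F := by
    refine Subset.antisymm (fun x hx => ?_) (sUnion_subset hsub)
    have hx0 : 0 < x := h0 hx
    have c1 : IsClosed (Iic x \ O) := isClosed_Iic.sdiff hO
    have n1 : (Iic x \ O).Nonempty := ⟨0, hx0.le, fun h => lt_irrefl (0 : ℝ) (h0 h)⟩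
    have b1 : BddAbove (Iic x \ O) := ⟨x, fun y hy => hy.1⟩
    have m1 := c1.csSup_mem n1 b1
    set l := sSup (Iic x \ O)
    have hl : l < x := lt_of_le_of_ne m1.1 fun e => m1.2 (e ▸ hx)
    have k1 : ∀ y, l < y → y ≤ x → y ∈ O := fun y a b => by
      by_contra c; exact not_le.2 a (le_csSup b1 ⟨b, c⟩)
    by_cases n2 : (Ici x \ O).Nonempty
    · have c2 : IsClosed (Ici x \ O) := isClosed_Ici.sdiff hO
      have b2 : BddBelow (Ici x \ O) := ⟨x, fun y hy => hy.1⟩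
      have m2 := c2.csInf_mem n2 b2
      set r := sInf (Ici x \ O)
      have hr : x < r := lt_of_le_of_ne m2.1 fun e => m2.2 (e ▸ hx)
      refine ⟨Ioo l r, Or.inl ⟨l, r, hl.trans hr, fun y hy => ?_, m1.2, m2.2, rfl⟩, hl, hr⟩
      rcases le_total y x with c | c
      · exact k1 y hy.1 c
      · by_contra d; exact not_le.2 hy.2 (csInf_le b2 ⟨c, d⟩)
    · refine ⟨Ioi l, Or.inr ⟨l, fun y hy => ?_, m1.2, rfl⟩, hl⟩
      rcases le_total y x with c | c
      · exact k1 y hy c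
      · by_contra d; exact n2 ⟨y, c, d⟩
  rw [hU, measure_sUnion hc hdis fun I hI => (hop I hI).measurableSet,
    measure_sUnion hc hdis fun I hI => (hop I hI).measurableSet]
  refine ENNReal.tsum_le_tsum ?_
  rintro ⟨I, ⟨l, r, a, b, c, d, rfl⟩ | ⟨l, a, b, rfl⟩⟩
  exacts [h1 l r a b c d, h2 l a b]

structure Nice (μ : Measure ℝ) : Prop where
  prob : IsProbabilityMeasure μ
  pos : μ (Iic 0) = 0
  atom : ∀ a, μ {a} = 0

noncomputable def C (μ : Measure ℝ) (t : ℝ) : ℝ := μ.real (Iic t)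

variable {μ ν : Measure ℝ}

lemma Nice.cont (h : Nice μ) : Continuous (C μ) := by
  haveI := h.prob
  have e : C μ = cdf μ := funext fun x => (cdf_eq_real μ x).symm
  rw [e, continuous_iff_continuousAt]
  intro x
  rw [(cdf μ).mono.continuousAt_iff_leftLim_eq_rightLim, (cdf μ).rightLim_eq]
  have := (cdf μ).measure_singleton x
  rw [measure_cdf, h.atom, eq_comm, ENNReal.ofReal_eq_zero] at this
  exact le_antisymm ((cdf μ).mono.leftLim_le le_rfl) (by linarith)

lemma Nice.zero (h : Nice μ) {t : ℝ} (ht : t ≤ 0) : C μ t = 0 := by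
  rw [C, Measure.real, measure_mono_null (Iic_subset_Iic.2 ht) h.pos]; rfl

lemma Nice.ioi (h : Nice μ) (l : ℝ) : μ (Ioi l) = ENNReal.ofReal (1 - C μ l) := by
  haveI := h.prob
  rw [C, ← probReal_compl_eq_one_sub measurableSet_Iic, compl_Iic, ofReal_measureReal]

lemma Nice.ioo (h : Nice μ) {l r : ℝ} (hlr : l ≤ r) :
    μ (Ioo l r) = ENNReal.ofReal (C μ r - C μ l) := by
  haveI := h.prob
  haveI : NullSingletonClass μ := ⟨h.atom⟩
  have : C μ r = C μ l + μ.real (Ioc l r) := by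
    rw [C, C, ← Iic_union_Ioc_eq_Iic hlr, measureReal_union (Iic_disjoint_Ioc le_rfl) measurableSet_Ioc]
  rw [this, add_sub_cancel_left, ofReal_measureReal, measure_congr Ioo_ae_eq_Ioc]

lemma C_mono [IsFiniteMeasure μ] : Monotone (C μ) := fun _ _ h => measureReal_mono (Iic_subset_Iic.2 h)

lemma C_le [IsProbabilityMeasure μ] (t : ℝ) : C μ t ≤ 1 := measureReal_le_one

/-- the lower crossing lemma -/
lemma upper (hμ : Nice μ) (hν : Nice ν) {s : ℝ} (hs : 0 ≤ s) :
    μ ({t | C ν t < C μ t} ∩ Ioi s) + ENNReal.ofReal (C μ s - C ν s) ≤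
      ν ({t | C ν t < C μ t} ∩ Ioi s) := by
  haveI := hμ.prob
  haveI := hν.prob
  have hO : IsOpen {t | C ν t < C μ t} := isOpen_lt hν.cont hμ.cont
  set O := {t | C ν t < C μ t}
  obtain ⟨p, hp1, hp⟩ : ∃ p, s < p ∧ (s ∈ O → Ioc s p ⊆ O) := by
    by_cases e : s ∈ O
    · obtain ⟨ε, h1, h2⟩ := Metric.isOpen_iff.1 hO s e
      refine ⟨s + ε / 2, by linarith, fun _ y hy => h2 ?_⟩
      rw [Metric.mem_ball, Real.dist_eq, abs_lt]; constructor <;> linarith [hy.1, hy.2]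
    · exact ⟨s + 1, by linarith, fun h => absurd h e⟩
  have hz : ∀ r, r ∉ O → ∀ l, l < r → Ioo l r ⊆ O → C ν r = C μ r := fun r hr l hl hs =>
    le_antisymm (ContinuousWithinAt.closure_le (s := Ioo l r)
      (by rw [closure_Ioo hl.ne]; exact ⟨hl.le, le_rfl⟩) hν.cont.continuousWithinAt
      hμ.cont.continuousWithinAt fun y hy => le_of_lt (hs hy)) (not_lt.1 hr)
  have hl0 : ∀ l r, l < r → Ioo l r ⊆ O → C ν l ≤ C μ l := fun l r hl hs =>
    ContinuousWithinAt.closure_le (s := Ioo l r)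
      (by rw [closure_Ioo hl.ne]; exact ⟨le_rfl, hl.le⟩) hν.cont.continuousWithinAt
      hμ.cont.continuousWithinAt fun y hy => le_of_lt (hs hy)
  by_cases e : s ∈ O
  · have hpm : p ∈ O ∩ Ioi s := ⟨hp e ⟨hp1, le_rfl⟩, hp1⟩
    have key := comp_le (μ := μ + ENNReal.ofReal (C μ s - C ν s) • Measure.dirac p) (ν := ν)
      (hO.inter isOpen_Ioi) (fun x hx => lt_of_le_of_lt hs hx.2) ?_ ?_
    · simpa [Measure.dirac_apply, indicator_of_mem hpm] using key
    · intro l r h1 h2 h3 h4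
      have hsl : s ≤ l := by
        by_contra c
        obtain ⟨z, z1, z2⟩ := exists_between (lt_min h1 (not_le.1 c))
        exact not_lt.2 (lt_min_iff.1 z2).2.le (h2 ⟨z1, (lt_min_iff.1 z2).1⟩).2
      have k1 := hz r (fun c => h4 ⟨c, hsl.trans_lt h1⟩) l h1 fun y hy => (h2 hy).1
      have k2 := hl0 l r h1 fun y hy => (h2 hy).1
      have k3 : C μ l ≤ C μ r := C_mono h1.le
      by_cases c : p ∈ Ioo l r
      · have : l = s := le_antisymm (not_lt.1 fun d => h3 ⟨hp e ⟨d, c.1.le⟩, d⟩) hsl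
        subst this
        simp only [Measure.add_apply, Measure.smul_apply, Measure.dirac_apply, indicator_of_mem c,
          Pi.one_apply, smul_eq_mul, mul_one]
        rw [hμ.ioo h1.le, hν.ioo h1.le, ← ENNReal.ofReal_add (by linarith) (by linarith)]
        exact ENNReal.ofReal_le_ofReal (by linarith)
      · simp only [Measure.add_apply, Measure.smul_apply, Measure.dirac_apply,
          indicator_of_notMem c, smul_eq_mul, mul_zero, add_zero]
        rw [hμ.ioo h1.le, hν.ioo h1.le]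
        exact ENNReal.ofReal_le_ofReal (by linarith)
    · intro l h2 h3
      have hsl : s ≤ l := by
        by_contra c
        obtain ⟨z, z1, z2⟩ := exists_between (not_le.1 c)
        exact not_lt.2 z2.le (h2 z1).2
      have k2 := hl0 l (l + 1) (by linarith) fun y hy => (h2 hy.1).1
      have k3 : C μ l ≤ 1 := C_le l
      by_cases c : p ∈ Ioi l
      · have : l = s := le_antisymm (not_lt.1 fun d => h3 ⟨hp e ⟨d, le_of_lt c⟩, d⟩) hsl
        subst this
        simp only [Measure.add_apply, Measure.smul_apply, Measure.dirac_apply, indicator_of_mem c,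
          Pi.one_apply, smul_eq_mul, mul_one]
        rw [hμ.ioi, hν.ioi, ← ENNReal.ofReal_add (by linarith) (by linarith)]
        exact ENNReal.ofReal_le_ofReal (by linarith)
      · simp only [Measure.add_apply, Measure.smul_apply, Measure.dirac_apply,
          indicator_of_notMem c, smul_eq_mul, mul_zero, add_zero]
        rw [hμ.ioi, hν.ioi]
        exact ENNReal.ofReal_le_ofReal (by linarith)
  · rw [ENNReal.ofReal_eq_zero.2 (sub_nonpos.2 (not_lt.1 e)), add_zero]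
    refine comp_le (hO.inter isOpen_Ioi) (fun x hx => lt_of_le_of_lt hs hx.2) ?_ ?_
    · intro l r h1 h2 h3 h4
      have hsl : s ≤ l := by
        by_contra c
        obtain ⟨z, z1, z2⟩ := exists_between (lt_min h1 (not_le.1 c))
        exact not_lt.2 (lt_min_iff.1 z2).2.le (h2 ⟨z1, (lt_min_iff.1 z2).1⟩).2
      have k1 := hz r (fun c => h4 ⟨c, hsl.trans_lt h1⟩) l h1 fun y hy => (h2 hy).1
      have k2 := hl0 l r h1 fun y hy => (h2 hy).1
      rw [hμ.ioo h1.le, hν.ioo h1.le]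
      exact ENNReal.ofReal_le_ofReal (by linarith)
    · intro l h2 h3
      have k2 := hl0 l (l + 1) (by linarith) fun y hy => (h2 hy.1).1
      rw [hμ.ioi, hν.ioi]
      exact ENNReal.ofReal_le_ofReal (by linarith)

lemma lower (hμ : Nice μ) (hν : Nice ν) {s : ℝ} (hs : 0 ≤ s) :
    ν ({t | C ν t < C μ t}ᶜ ∩ Ioi s) ≤ μ ({t | C ν t < C μ t}ᶜ ∩ Ioi s) := by
  haveI := hμ.prob
  haveI := hν.prob
  have hO : MeasurableSet {t | C ν t < C μ t} := (isOpen_lt hν.cont hμ.cont).measurableSet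
  have h := upper hμ hν hs
  set O := {t | C ν t < C μ t}
  have e : ∀ ρ : Measure ℝ, ρ (Oᶜ ∩ Ioi s) + ρ (O ∩ Ioi s) = ρ (Ioi s) := fun ρ => by
    rw [inter_comm, inter_comm O, ← sdiff_eq, add_comm, measure_inter_add_sdiff _ hO]
  have e1 := e μ
  have e2 := e ν
  rw [hμ.ioi] at e1
  rw [hν.ioi] at e2
  refine ENNReal.le_of_add_le_add_right (measure_ne_top ν (O ∩ Ioi s)) ?_
  rw [e2]
  refine le_trans ?_ (add_le_add_right h _)
  rw [← add_assoc, e1]
  exact le_trans (ENNReal.ofReal_le_ofReal (by linarith)) ENNReal.ofReal_add_le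

/-- layer-cake for powers -/
lemma pow_layer (ρ : Measure ℝ) {S : Set ℝ} (hS : MeasurableSet S) (h0 : S ⊆ Ioi 0) {k : ℕ}
    (hk : k ≠ 0) : ∫⁻ x in S, ENNReal.ofReal (x ^ k) ∂ρ =
      ∫⁻ y in Ioi (0 : ℝ), ρ (S ∩ Ioi (y ^ (k : ℝ)⁻¹)) := by
  rw [lintegral_eq_lintegral_meas_lt _ ((ae_restrict_mem hS).mono fun x hx => by
    have : 0 < x := h0 hx
    positivity) (by fun_prop)]
  refine setLIntegral_congr_fun measurableSet_Ioi fun y hy => ?_
  rw [Measure.restrict_apply' hS]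
  congr 1
  ext x
  simp only [mem_inter_iff, mem_ofPred_eq, mem_Ioi]
  rw [and_comm]
  refine and_congr_right fun hx => ?_
  have hx0 : 0 < x := h0 hx
  have hk' : (0 : ℝ) < k := by positivity
  rw [Real.rpow_inv_lt_iff_of_pos (le_of_lt hy) hx0.le hk', Real.rpow_natCast]

noncomputable def ps (w l t x : ℝ) : ℝ := (max (min x t) l) ^ (-w) - t ^ (-w)

lemma ps_anti {w l t : ℝ} (hw : 0 < w) (hl : 0 < l) : Antitone (ps w l t) := by
  intro x y h
  have := Real.rpow_le_rpow_of_nonpos (lt_of_lt_of_le hl (le_max_right (min x t) l))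
    (max_le_max (min_le_min_right t h) (le_refl l)) (neg_nonpos.2 hw.le)
  unfold ps; linarith

lemma ps_top {w l t x : ℝ} (hlt : l ≤ t) (hx : t ≤ x) : ps w l t x = 0 := by
  rw [ps, min_eq_right hx, max_eq_left hlt, sub_self]

lemma ps_nonneg {w l t : ℝ} (hw : 0 < w) (hl : 0 < l) (hlt : l ≤ t) (x : ℝ) : 0 ≤ ps w l t x := by
  rw [← ps_top (w := w) hlt (le_max_right x t)]
  exact ps_anti hw hl (le_max_left _ _)

lemma ps_le (hμ : Nice μ) (hν : Nice ν) {w l t : ℝ} (hw : 0 < w) (hl : 0 < l) (hlt : l ≤ t)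
    (h : ∀ s ∈ Icc l t, C μ s ≤ C ν s) : ∫ x, ps w l t x ∂μ ≤ ∫ x, ps w l t x ∂ν := by
  haveI := hμ.prob
  haveI := hν.prob
  have hm := (ps_anti (t := t) hw hl).measurable
  have hn : ∀ ρ : Measure ℝ, 0 ≤ᵐ[ρ] ps w l t := fun _ => Eventually.of_forall (ps_nonneg hw hl hlt)
  have hb : ∀ x, ps w l t x ≤ ps w l t l := fun x => by
    have : ps w l t (min x l) = ps w l t l := by
      unfold ps
      rw [max_eq_right ((min_le_left _ _).trans (min_le_right _ _)),
        max_eq_right (min_le_left _ _)]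
    rw [← this]; exact ps_anti hw hl (min_le_left _ _)
  rw [integral_eq_lintegral_of_nonneg_ae (hn _) hm.aestronglyMeasurable,
    integral_eq_lintegral_of_nonneg_ae (hn _) hm.aestronglyMeasurable]
  refine ENNReal.toReal_mono ?_ ?_
  · refine ne_top_of_le_ne_top ?_ (lintegral_mono fun x => ENNReal.ofReal_le_ofReal (hb x))
    simp
  rw [lintegral_eq_lintegral_meas_lt _ (hn _) hm.aemeasurable,
    lintegral_eq_lintegral_meas_lt _ (hn _) hm.aemeasurable]
  refine setLIntegral_mono' measurableSet_Ioi fun y hy => ?_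
  set S := {x | y < ps w l t x}
  rcases S.eq_empty_or_nonempty with e | ⟨x, hx⟩
  · simp [e]
  have hlS : l ∈ S := lt_of_lt_of_le hx (hb x)
  have hbd : ∀ z ∈ S, z ≤ t := fun z hz => by
    by_contra c
    have : y < ps w l t z := hz
    rw [ps_top hlt (not_le.1 c).le] at this
    exact lt_asymm this hy
  haveI : NullSingletonClass ν := ⟨hν.atom⟩
  calc μ S ≤ μ (Iic (sSup S)) := measure_mono fun z hz => le_csSup ⟨t, hbd⟩ hz
    _ ≤ ν (Iic (sSup S)) := by
        rw [← ofReal_measureReal, ← ofReal_measureReal (μ := ν)]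
        exact ENNReal.ofReal_le_ofReal (h _ ⟨le_csSup ⟨t, hbd⟩ hlS, csSup_le ⟨x, hx⟩ hbd⟩)
    _ = ν (Iio (sSup S)) := (measure_congr Iio_ae_eq_Iic).symm
    _ ≤ ν S := measure_mono fun z hz => by
        obtain ⟨u, hu, hzu⟩ := exists_lt_of_lt_csSup ⟨x, hx⟩ hz
        exact lt_of_lt_of_le hu (ps_anti hw hl hzu.le)

/-- the relation between a law and its power-biased law -/
def Rel (w : ℝ) (μ W : Measure ℝ) : Prop :=
  ∀ l t, 0 < l → l ≤ t → l ^ (-w) * C μ l - t ^ (-w) * C μ t = ∫ x, ps w l t x ∂W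

lemma W_le {W V : Measure ℝ} {w : ℝ} (hw : 0 < w) (hμ : Nice μ) (hν : Nice ν) (hW : Nice W)
    (hV : Nice V) (r1 : Rel w μ W) (r2 : Rel w ν V) :
    V {t | C ν t < C μ t} ≤ W {t | C ν t < C μ t} := by
  have hO : IsOpen {t | C ν t < C μ t} := isOpen_lt hν.cont hμ.cont
  have h0 : {t | C ν t < C μ t} ⊆ Ioi 0 := fun t ht => by
    by_contra c
    have : C ν t < C μ t := ht
    rw [hμ.zero (not_lt.1 c), hν.zero (not_lt.1 c)] at this
    exact lt_irrefl _ this
  set O := {t | C ν t < C μ t}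
  have L : ∀ l r, l < r → Ioo l r ⊆ O → l ∉ O → C W l ≤ C V l := by
    intro l r h1 h2 h3
    rcases le_or_gt l 0 with c | c
    · rw [hW.zero c, hV.zero c]
    by_contra d
    obtain ⟨ε, e1, e2⟩ := Metric.isOpen_iff.1 (isOpen_lt hV.cont hW.cont) l (not_le.1 d)
    obtain ⟨t, t1, t2⟩ := exists_between (lt_min h1 (show l < l + ε by linarith))
    rw [lt_min_iff] at t2
    have k := ps_le hV hW hw c t1.le fun s hs => le_of_lt (e2 (by
      rw [Metric.mem_ball, Real.dist_eq, abs_lt]; constructor <;> linarith [hs.1, hs.2]))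
    rw [← r1 l t c t1.le, ← r2 l t c t1.le] at k
    have a1 : C ν t < C μ t := h2 ⟨t1, t2.1⟩
    have a2 : C μ l ≤ C ν l := not_lt.1 h3
    have p1 := Real.rpow_pos_of_pos c (-w)
    have p2 := Real.rpow_pos_of_pos (c.trans t1) (-w)
    nlinarith
  have R : ∀ l r, l < r → Ioo l r ⊆ O → r ∉ O → C V r ≤ C W r := by
    intro l r h1 h2 h3
    by_contra d
    obtain ⟨ε, e1, e2⟩ := Metric.isOpen_iff.1 (isOpen_lt hW.cont hV.cont) r (not_le.1 d)
    obtain ⟨t, t1, t2⟩ := exists_between (max_lt h1 (show r - ε < r by linarith))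
    rw [max_lt_iff] at t1
    have c : 0 < t := h0 (h2 ⟨t1.1, t2⟩)
    have k := ps_le hW hV hw c t2.le fun s hs => le_of_lt (e2 (by
      rw [Metric.mem_ball, Real.dist_eq, abs_lt]; constructor <;> linarith [hs.1, hs.2]))
    rw [← r1 t r c t2.le, ← r2 t r c t2.le] at k
    have a1 : C ν t < C μ t := h2 ⟨t1.1, t2⟩
    have a2 : C μ r ≤ C ν r := not_lt.1 h3
    have p1 := Real.rpow_pos_of_pos c (-w)
    have p2 := Real.rpow_pos_of_pos (c.trans t2) (-w)
    nlinarith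
  refine comp_le hO h0 (fun l r a b c d => ?_) fun l a b => ?_
  · rw [hW.ioo a.le, hV.ioo a.le]
    exact ENNReal.ofReal_le_ofReal (by linarith [L l r a b c, R l r a b d])
  · rw [hW.ioi, hV.ioi]
    exact ENNReal.ofReal_le_ofReal (by
      linarith [L l (l + 1) (by linarith) (fun y hy => a hy.1) b])

end Pool.Agent.H43.Pb
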