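import Pool.Agent.H43.QdDefs

namespace Pool.Agent.H43.Qd

open MeasureTheory ProbabilityTheory Set Filter Topology
open scoped InnerProductSpace

variable {G : Type*} [Group G] {X Y Z : Type*} [MeasurableSpace X] [MeasurableSpace Y]
  [MeasurableSpace Z] {μ : Measure X} {ν : Measure Y} {ρ : Measure Z} {a : Z → X} {b : Z → Y}

/-- Pull-back on `L²`. -/
noncomputable def pb (ha : MeasurePreserving a ρ μ) : Lp ℝ 2 μ →L[ℝ] Lp ℝ 2 ρ :=
  (Lp.compMeasurePreservingₗᵢ ℝ a ha).toContinuousLinearMap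

lemma pb_ae (ha : MeasurePreserving a ρ μ) (f : Lp ℝ 2 μ) : pb ha f =ᵐ[ρ] fun z => f (a z) :=
  Lp.coeFn_compMeasurePreserving f ha

lemma pb_inner (ha : MeasurePreserving a ρ μ) (f g : Lp ℝ 2 μ) : ⟪pb ha f, pb ha g⟫_ℝ = ⟪f, g⟫_ℝ :=
  (Lp.compMeasurePreservingₗᵢ ℝ a ha).inner_map_map f g

lemma pb_pb {c : Z → Y} {d : Y → X} (hc : MeasurePreserving c ρ ν) (hd : MeasurePreserving d ν μ)
    (ha : MeasurePreserving a ρ μ) (h : ∀ z, d (c z) = a z) (f : Lp ℝ 2 μ) :
    pb hc (pb hd f) = pb ha f := by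
  obtain rfl : d ∘ c = a := funext h
  exact (Lp.compMeasurePreserving_comp_apply f hd hc).symm

lemma inner_pb (ha : MeasurePreserving a ρ μ) (hb : MeasurePreserving b ρ ν) (f : Lp ℝ 2 μ)
    (g : Lp ℝ 2 ν) : ⟪pb ha f, pb hb g⟫_ℝ = ∫ z, f (a z) * g (b z) ∂ρ := by
  rw [L2.inner_def]
  refine integral_congr_ae ?_
  filter_upwards [pb_ae ha f, pb_ae hb g] with z h1 h2
  simp [h1, h2, mul_comm]

/-- Indicator as an element of `L²`. -/
noncomputable def ind (μ : Measure X) [IsFiniteMeasure μ] {A : Set X} (hA : MeasurableSet A) :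
    Lp ℝ 2 μ := indicatorConstLp 2 hA (measure_ne_top μ A) 1

lemma ext_ind [IsFiniteMeasure μ] {φ ψ : Lp ℝ 2 μ →L[ℝ] ℝ}
    (h : ∀ A (hA : MeasurableSet A), φ (ind μ hA) = ψ (ind μ hA)) (f : Lp ℝ 2 μ) : φ f = ψ f := by
  refine Lp.induction (by norm_num) (fun f => φ f = ψ f) (fun c A hA _ => ?_)
    (fun f g hf hg _ h1 h2 => by simp only [map_add, h1, h2])
    (isClosed_eq φ.continuous ψ.continuous) f
  have : (Lp.simpleFunc.indicatorConst 2 hA (measure_ne_top μ A) c : Lp ℝ 2 μ) = c • ind μ hA := by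
    rw [Lp.simpleFunc.coe_indicatorConst]
    refine Lp.ext ?_
    filter_upwards [indicatorConstLp_coeFn (p := 2) (hs := hA) (hμs := measure_ne_top μ A) (c := c),
      Lp.coeFn_smul c (ind μ hA),
      indicatorConstLp_coeFn (p := 2) (hs := hA) (hμs := measure_ne_top μ A) (c := (1:ℝ))] with x h1 h2 h3
    rw [h1, h2, Pi.smul_apply, ind, h3]
    by_cases hx : x ∈ A <;> simp [hx]
  simp only [this, map_smul, h]

variable [IsProbabilityMeasure μ] [IsProbabilityMeasure ν] [IsProbabilityMeasure ρ]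

lemma pb_ind (ha : MeasurePreserving a ρ μ) {A : Set X} (hA : MeasurableSet A) :
    pb ha (ind μ hA) = ind ρ (hA.preimage ha.measurable) :=
  Lp.indicatorConstLp_compMeasurePreserving hA _ _ ha

lemma ind_inner {A : Set X} (hA : MeasurableSet A) (f : Lp ℝ 2 μ) :
    ⟪ind μ hA, f⟫_ℝ = ∫ x in A, f x ∂μ := L2.inner_indicatorConstLp_one hA _ f

lemma ind_ind {A B : Set X} (hA : MeasurableSet A) (hB : MeasurableSet B) :
    ⟪ind μ hA, ind μ hB⟫_ℝ = μ.real (A ∩ B) :=
  L2.real_inner_indicatorConstLp_one_indicatorConstLp_one hA hB _ _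

lemma one_inner (f : Lp ℝ 2 μ) : ⟪ind μ .univ, f⟫_ℝ = ∫ x, f x ∂μ := by
  rw [ind_inner, setIntegral_univ]

lemma int_ind {A : Set X} (hA : MeasurableSet A) : ∫ x, ind μ hA x ∂μ = μ.real A := by
  rw [← one_inner, ind_ind, univ_inter]

/-- The Markov operator of a coupling. -/
noncomputable def mk (ha : MeasurePreserving a ρ μ) (hb : MeasurePreserving b ρ ν) :
    Lp ℝ 2 μ →L[ℝ] Lp ℝ 2 ν := (pb hb).adjoint ∘L pb ha

omit [IsProbabilityMeasure μ] [IsProbabilityMeasure ν] [IsProbabilityMeasure ρ] in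
lemma mk_inner (ha : MeasurePreserving a ρ μ) (hb : MeasurePreserving b ρ ν) (f : Lp ℝ 2 μ)
    (g : Lp ℝ 2 ν) : ⟪mk ha hb f, g⟫_ℝ = ⟪pb ha f, pb hb g⟫_ℝ :=
  ContinuousLinearMap.adjoint_inner_left (pb hb) g (pb ha f)

lemma int_mk (ha : MeasurePreserving a ρ μ) (hb : MeasurePreserving b ρ ν) (f : Lp ℝ 2 μ) :
    ∫ y, mk ha hb f y ∂ν = ∫ x, f x ∂μ := by
  rw [← one_inner, ← one_inner, real_inner_comm, mk_inner, real_inner_comm, ← pb_inner ha, pb_ind,
    pb_ind]
  rfl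

lemma mk_const (ha : MeasurePreserving a ρ μ) (hb : MeasurePreserving b ρ ν) {f : Lp ℝ 2 μ}
    (h : ⟪mk ha hb f, mk ha hb f⟫_ℝ = (∫ x, f x ∂μ) * ∫ x, f x ∂μ) (g : Lp ℝ 2 ν) :
    ⟪mk ha hb f, g⟫_ℝ = (∫ x, f x ∂μ) * ∫ y, g y ∂ν := by
  have e1 : ⟪ind ν .univ, mk ha hb f⟫_ℝ = ∫ x, f x ∂μ := by rw [one_inner, int_mk]
  have e2 : ⟪ind ν .univ, ind ν .univ⟫_ℝ = 1 := by rw [ind_ind]; simp
  have : mk ha hb f - (∫ x, f x ∂μ) • ind ν .univ = 0 := by
    rw [← inner_self_eq_zero (𝕜 := ℝ), inner_sub_left, inner_sub_right, inner_sub_right,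
      real_inner_smul_left, real_inner_smul_left, real_inner_smul_right, real_inner_smul_right,
      real_inner_comm, h, real_inner_comm, e1, e2]
    ring
  rw [sub_eq_zero.1 this, real_inner_smul_left, one_inner]

variable [MulAction G X] [MulAction G Y] [MeasurableConstSMul G X] [MeasurableConstSMul G Y]
  [SMulInvariantMeasure G X μ] [SMulInvariantMeasure G Y ν]

omit [IsProbabilityMeasure μ] [IsProbabilityMeasure ν] [IsProbabilityMeasure ρ] in
lemma mk_equiv (ha : MeasurePreserving a ρ μ) (hb : MeasurePreserving b ρ ν) {g : G} {W : Z → Z}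
    (hW : MeasurePreserving W ρ ρ) (h1 : ∀ z, a (W z) = g • a z) (h2 : ∀ z, b (W z) = g • b z)
    (f : Lp ℝ 2 μ) : mk ha hb (pb (measurePreserving_smul g μ) f) =
      pb (measurePreserving_smul g ν) (mk ha hb f) := by
  refine ext_inner_right ℝ fun h => ?_
  have e : pb (measurePreserving_smul g ν) (pb (measurePreserving_smul g⁻¹ ν) h) = h :=
    (pb_pb _ _ (.id ν) (fun z => inv_smul_smul g z) h).trans (Lp.compMeasurePreserving_id_apply h)
  rw [← e, pb_inner, mk_inner, mk_inner, ← pb_inner hW (pb ha f), pb_pb hW ha (ha.comp hW) fun _ => rfl,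
    pb_pb hW hb (hb.comp hW) fun _ => rfl, pb_pb ha _ (ha.comp hW) fun z => (h1 z).symm,
    pb_pb hb _ (hb.comp hW) fun z => (h2 z).symm]

lemma mk_kron (ha : MeasurePreserving a ρ μ) (hb : MeasurePreserving b ρ ν) {W : G → Z → Z}
    (hW : ∀ g, MeasurePreserving (W g) ρ ρ) (h1 : ∀ g z, a (W g z) = g • a z)
    (h2 : ∀ g z, b (W g z) = g • b z)
    (h : ∀ f, AP G μ f → ∀ g, AP G ν g → ⟪mk ha hb f, g⟫_ℝ = (∫ x, f x ∂μ) * ∫ y, g y ∂ν)
    {f : Lp ℝ 2 μ} (hf : f ∈ Kron G μ) (g : Lp ℝ 2 ν) :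
    ⟪mk ha hb f, g⟫_ℝ = (∫ x, f x ∂μ) * ∫ y, g y ∂ν := by
  have k : ∀ f, AP G μ f → ⟪mk ha hb f, g⟫_ℝ = (∫ x, f x ∂μ) * ∫ y, g y ∂ν := fun f hf => by
    refine mk_const ha hb ((h f hf _ ?_).trans (by rw [int_mk])) g
    refine (hf.image (mk ha hb).continuous).closure_of_subset ?_
    rintro _ ⟨c, rfl⟩
    exact ⟨_, subset_closure ⟨c, rfl⟩, mk_equiv ha hb (hW c) (h1 c) (h2 c) f⟩
  let φ : Lp ℝ 2 μ →L[ℝ] ℝ := innerSL ℝ g ∘L mk ha hb - (∫ y, g y ∂ν) • innerSL ℝ (ind μ .univ)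
  have e : ∀ f, φ f = ⟪mk ha hb f, g⟫_ℝ - (∫ x, f x ∂μ) * ∫ y, g y ∂ν := fun f => by
    rw [← one_inner f, real_inner_comm g, mul_comm]; rfl
  have : Kron G μ ≤ φ.ker := Submodule.topologicalClosure_minimal _
    (Submodule.span_le.2 fun f hf => by
      show φ f = 0
      rw [e, k f hf, sub_self]) φ.isClosed_ker
  exact sub_eq_zero.1 ((e f).symm.trans (this hf))

omit [IsProbabilityMeasure μ] in
lemma AP.kron {f : Lp ℝ 2 μ} (hf : AP G μ f) : f ∈ Kron G μ :=
  Submodule.le_topologicalClosure _ (Submodule.subset_span hf)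

variable {l : Measure (X × Y)} [IsProbabilityMeasure l]

lemma kron_left (hl : IsJoining G μ ν l) (h : KronProd G μ ν l) {f : Lp ℝ 2 μ} (hf : f ∈ Kron G μ)
    (g : Lp ℝ 2 ν) : ⟪mk hl.fst hl.snd f, g⟫_ℝ = (∫ x, f x ∂μ) * ∫ y, g y ∂ν :=
  mk_kron hl.fst hl.snd hl.inv (fun _ _ => rfl) (fun _ _ => rfl)
    (fun f hf g hg => by rw [mk_inner, inner_pb]; exact h f hf.kron g hg.kron) hf g

lemma kron_right (hl : IsJoining G μ ν l) (h : KronProd G μ ν l) (f : Lp ℝ 2 μ) {g : Lp ℝ 2 ν}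
    (hg : g ∈ Kron G ν) : ⟪mk hl.fst hl.snd f, g⟫_ℝ = (∫ x, f x ∂μ) * ∫ y, g y ∂ν := by
  rw [mk_inner, real_inner_comm, ← mk_inner, mul_comm]
  exact mk_kron hl.snd hl.fst hl.inv (fun _ _ => rfl) (fun _ _ => rfl)
    (fun g hg f hf => by
      rw [mk_inner, real_inner_comm, inner_pb, mul_comm (∫ y, g y ∂ν)]
      exact h f hf.kron g hg.kron) hg f

lemma mk_ind (h1 : MeasurePreserving Prod.fst l μ) (h2 : MeasurePreserving Prod.snd l ν)
    {A : Set X} {B : Set Y} (hA : MeasurableSet A) (hB : MeasurableSet B) :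
    ⟪mk h1 h2 (ind μ hA), ind ν hB⟫_ℝ = l.real (A ×ˢ B) := by
  rw [mk_inner, pb_ind, pb_ind, ind_ind]; rfl

lemma real_ext {l' : Measure (X × Y)} [IsProbabilityMeasure l']
    (h : ∀ A B, MeasurableSet A → MeasurableSet B → l.real (A ×ˢ B) = l'.real (A ×ˢ B)) : l = l' :=
  Measure.ext_prod fun hA hB =>
    (ENNReal.toReal_eq_toReal_iff' (measure_ne_top _ _) (measure_ne_top _ _)).1 (h _ _ hA hB)

theorem of_self [StandardBorelSpace X] (h : QuasiDisjoint G μ μ) : QuasiDisjoint G μ ν := by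
  intro l _ hl hk
  haveI : Nonempty X := nonempty_of_isProbabilityMeasure μ
  haveI : IsProbabilityMeasure (l.map Prod.swap) :=
    Measure.isProbabilityMeasure_map measurable_swap.aemeasurable
  set κ := (l.map Prod.swap).condKernel
  have d : ν ⊗ₘ κ = l.map Prod.swap := by
    rw [← (l.map Prod.swap).disintegrate κ, Measure.fst_map_swap, Measure.snd, hl.snd.map_eq]
  have H : ∀ {A B}, MeasurableSet A → MeasurableSet B → l (A ×ˢ B) = ∫⁻ y in B, κ y A ∂ν :=
    fun hA hB => by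
      rw [← Measure.compProd_apply_prod hB hA, d, Measure.map_apply measurable_swap (hB.prod hA),
        preimage_swap_prod]
  have km : ∀ {A}, MeasurableSet A → MemLp (fun y => (κ y).real A) 2 ν := fun hA =>
    MemLp.of_bound (κ.measurable_coe hA).ennreal_toReal.aestronglyMeasurable 1
      (Eventually.of_forall fun y => (Real.norm_of_nonneg measureReal_nonneg).trans_le
        measureReal_le_one)
  have P : ∀ {A} (hA : MeasurableSet A), mk hl.fst hl.snd (ind μ hA) = (km hA).toLp _ := fun hA =>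
    ext_inner_right ℝ (ext_ind (φ := innerSL ℝ _) (ψ := innerSL ℝ _) fun B hB => by
      rw [innerSL_apply_apply, innerSL_apply_apply, mk_ind, real_inner_comm, ind_inner,
        integral_congr_ae (ae_restrict_of_ae (km hA).coeFn_toLp), Measure.real, H hA hB]
      exact (integral_toReal (κ.measurable_coe hA).aemeasurable
        (Eventually.of_forall fun y => measure_lt_top _ _)).symm)
  set r : Measure (X × X) := (κ ×ₖ κ) ∘ₘ ν
  have R0 : ∀ {A B}, MeasurableSet A → MeasurableSet B → r (A ×ˢ B) = ∫⁻ y, κ y A * κ y B ∂ν :=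
    fun hA hB => by
      simp only [r, Measure.bind_apply (hA.prod hB) (Kernel.aemeasurable _), Kernel.prod_apply_prod]
  have R : ∀ {A B} (hA : MeasurableSet A) (hB : MeasurableSet B), r.real (A ×ˢ B) =
      ⟪mk hl.fst hl.snd (ind μ hA), mk hl.fst hl.snd (ind μ hB)⟫_ℝ := fun hA hB => by
    rw [P, P, L2.inner_def, Measure.real, R0 hA hB, ← integral_toReal (f := fun y => κ y _ * κ y _)
      ((κ.measurable_coe hA).mul (κ.measurable_coe hB)).aemeasurable (Eventually.of_forall fun y =>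
        ENNReal.mul_lt_top (measure_lt_top _ _) (measure_lt_top _ _))]
    refine integral_congr_ae ?_
    filter_upwards [(km hA).coeFn_toLp, (km hB).coeFn_toLp] with y h1 h2
    rw [h1, h2]; simp [Measure.real, mul_comm]
  have M : ∀ {A}, MeasurableSet A → ∫⁻ y, κ y A ∂ν = μ A := fun hA => by
    rw [← setLIntegral_univ, ← H hA .univ, ← hl.fst.measure_preimage hA.nullMeasurableSet,
      prod_univ]
  have hr : IsJoining G μ μ r := by
    refine ⟨fun g => ?_, ⟨measurable_fst, Measure.ext fun A hA => ?_⟩,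
      ⟨measurable_snd, Measure.ext fun A hA => ?_⟩⟩
    · have m : Measurable fun p : X × X => (g • p.1, g • p.2) := by fun_prop
      haveI := Measure.isProbabilityMeasure_map (μ := r) m.aemeasurable
      refine ⟨m, real_ext fun A B hA hB => ?_⟩
      rw [map_measureReal_apply m (hA.prod hB), R hA hB, ← pb_inner (measurePreserving_smul g ν),
        ← mk_equiv hl.fst hl.snd (hl.inv g) (fun _ => rfl) (fun _ => rfl),
        ← mk_equiv hl.fst hl.snd (hl.inv g) (fun _ => rfl) (fun _ => rfl), pb_ind, pb_ind, ← R]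
      rfl
    · rw [Measure.map_apply measurable_fst hA, ← prod_univ, R0 hA .univ]; simp [M hA]
    · rw [Measure.map_apply measurable_snd hA, ← univ_prod, R0 .univ hA]; simp [M hA]
  have B : ∀ f g, ⟪mk hr.fst hr.snd f, g⟫_ℝ = ⟪mk hl.fst hl.snd f, mk hl.fst hl.snd g⟫_ℝ :=
    fun f g => by
      rw [real_inner_comm, real_inner_comm (mk hl.fst hl.snd g)]
      refine ext_ind (φ := innerSL ℝ g ∘L mk hr.fst hr.snd)
        (ψ := innerSL ℝ (mk hl.fst hl.snd g) ∘L mk hl.fst hl.snd) (fun A hA => ?_) f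
      simp only [ContinuousLinearMap.comp_apply, innerSL_apply_apply]
      rw [real_inner_comm, real_inner_comm (mk hl.fst hl.snd (ind μ hA))]
      exact ext_ind (φ := innerSL ℝ (mk hr.fst hr.snd (ind μ hA)))
        (ψ := innerSL ℝ (mk hl.fst hl.snd (ind μ hA)) ∘L mk hl.fst hl.snd)
        (fun B hB => (mk_ind _ _ hA hB).trans (R hA hB)) g
  have e := h r inferInstance hr fun f hf g _ => by
    rw [← inner_pb hr.fst hr.snd, ← mk_inner, B, kron_left hl hk hf, int_mk]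
  refine real_ext fun A B hA hB => ?_
  rw [← mk_ind hl.fst hl.snd hA hB, mk_const hl.fst hl.snd, int_ind, int_ind,
    measureReal_prod_prod]
  rw [← R hA hA, e, int_ind, measureReal_prod_prod]

end Pool.Agent.H43.Qd
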