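import Pool.Agent.H43.Qd1

namespace Pool.Agent.H43.Qd

open MeasureTheory ProbabilityTheory Set Filter Topology
open scoped InnerProductSpace BoundedContinuousFunction

variable {G : Type*} [Group G] {X : Type*} [TopologicalSpace X] [CompactSpace X]
  [TopologicalSpace.MetrizableSpace X] [MeasurableSpace X] [BorelSpace X] [MulAction G X]
  [ContinuousConstSMul G X] {μ : Measure X} [IsProbabilityMeasure μ] [SMulInvariantMeasure G X μ]
  {r : Measure (X × X)} [IsProbabilityMeasure r]

variable (G μ) in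
/-- Invariant couplings with first marginal `μ` whose second coordinate is independent of the
Kronecker factor of the first. -/
def InC (r : Measure (X × X)) : Prop :=
  (∀ g : G, MeasurePreserving (fun p : X × X => (g • p.1, g • p.2)) r r) ∧
    MeasurePreserving Prod.fst r μ ∧
      ∀ f, AP G μ f → ∀ h : X →ᵇ ℝ, ∫ p, f p.1 * h p.2 ∂r = (∫ x, f x ∂μ) * ∫ p, h p.2 ∂r

lemma mp_snd (r : Measure (X × X)) : MeasurePreserving Prod.snd r (r.map Prod.snd) :=
  ⟨measurable_snd, rfl⟩

instance : IsProbabilityMeasure (r.map Prod.snd) :=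
  Measure.isProbabilityMeasure_map measurable_snd.aemeasurable

lemma InC.smul (h : InC G μ r) : SMulInvariantMeasure G X (r.map Prod.snd) :=
  ⟨fun g s hs => by
    rw [Measure.map_apply measurable_snd (measurable_const_smul g hs),
      Measure.map_apply measurable_snd hs,
      ← (h.1 g).measure_preimage (measurable_snd hs).nullMeasurableSet]
    rfl⟩

lemma fun_form {ν : Measure X} [IsProbabilityMeasure ν] (h1 : MeasurePreserving Prod.fst r μ)
    (h2 : MeasurePreserving Prod.snd r ν) (f : Lp ℝ 2 μ) (g : Lp ℝ 2 ν) {f' g' : X → ℝ}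
    (hf : f =ᵐ[μ] f') (hg : g =ᵐ[ν] g') :
    ⟪mk h1 h2 f, g⟫_ℝ = ∫ p, f' p.1 * g' p.2 ∂r ∧ ∫ y, g y ∂ν = ∫ p, g' p.2 ∂r := by
  have a := h1.quasiMeasurePreserving.ae_eq_comp hf
  have b := h2.quasiMeasurePreserving.ae_eq_comp hg
  refine ⟨?_, ?_⟩
  · rw [mk_inner, inner_pb]; exact integral_congr_ae (a.mul b)
  · rw [← one_inner, ← pb_inner h2, pb_ind]
    exact (one_inner _).trans (integral_congr_ae ((pb_ae h2 g).trans b))

lemma InC.ap (h : InC G μ r) {f : Lp ℝ 2 μ} (hf : AP G μ f) (g : Lp ℝ 2 (r.map Prod.snd)) :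
    ⟪mk h.2.1 (mp_snd r) f, g⟫_ℝ = (∫ x, f x ∂μ) * ∫ y, g y ∂(r.map Prod.snd) := by
  rw [← one_inner g]
  refine (BoundedContinuousFunction.toLp_denseRange ℝ (r.map Prod.snd) ℝ
    (p := 2) (by norm_num)).induction_on g (isClosed_eq (by fun_prop) (by fun_prop)) fun k => ?_
  have := fun_form h.2.1 (mp_snd r) f _ EventuallyEq.rfl
    (BoundedContinuousFunction.coeFn_toLp 2 (r.map Prod.snd) ℝ k)
  rw [one_inner, this.1, this.2, h.2.2 f hf]

lemma InC.kron (h : InC G μ r) : haveI := h.smul; KronProd G μ (r.map Prod.snd) r := by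
  have := h.smul
  intro f hf g _
  rw [← inner_pb h.2.1 (mp_snd r), ← mk_inner]
  exact mk_kron h.2.1 (mp_snd r) h.1 (fun _ _ => rfl) (fun _ _ => rfl)
    (fun f hf g _ => h.ap hf g) hf g

lemma InC.cond (h : InC G μ r) {B : Set X} (hB : MeasurableSet B)
    (hi : ∀ g : G, (fun y => g • y) ⁻¹' B = B) (h0 : r (Prod.snd ⁻¹' B) ≠ 0) :
    InC G μ (r[|Prod.snd ⁻¹' B]) := by
  have := h.smul
  have hS : MeasurableSet (Prod.snd ⁻¹' B : Set (X × X)) := measurable_snd hB
  have := cond_isProbabilityMeasure h0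
  refine ⟨fun g => ?_, ⟨measurable_fst, Measure.ext fun A hA => ?_⟩, fun f hf k => ?_⟩
  · have a := (h.1 g).restrict_preimage hS
    have e : (fun p : X × X => (g • p.1, g • p.2)) ⁻¹' (Prod.snd ⁻¹' B) = Prod.snd ⁻¹' B :=
      congrArg (fun s => (Prod.snd : X × X → X) ⁻¹' s) (hi g)
    rw [e] at a
    exact a.smul_measure _
  · have ap : AP G (r.map Prod.snd) (ind _ hB) := by
      refine (isCompact_singleton (x := ind _ hB)).closure_of_subset ?_
      rintro _ ⟨g, rfl⟩
      refine (pb_ind (measurePreserving_smul g _) hB).trans ?_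
      simp only [hi g]
    have e := kron_right ⟨h.1, h.2.1, mp_snd r⟩ h.kron (ind μ hA) ap.kron
    rw [mk_ind, int_ind, int_ind, map_measureReal_apply measurable_snd hB, Measure.real,
      Measure.real, Measure.real, ← ENNReal.toReal_mul, ENNReal.toReal_eq_toReal_iff'
        (measure_ne_top _ _) (by finiteness)] at e
    rw [Measure.map_apply measurable_fst hA, cond_apply hS, inter_comm, ← Set.prod_eq, e, mul_comm,
      mul_assoc, ENNReal.mul_inv_cancel h0 (measure_ne_top _ _), mul_one]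
  · have m : MemLp (B.indicator k) 2 (r.map Prod.snd) :=
      (MemLp.of_bound k.continuous.aestronglyMeasurable _
        (Eventually.of_forall k.norm_coe_le_norm)).indicator hB
    have a := fun_form h.2.1 (mp_snd r) f _ EventuallyEq.rfl m.coeFn_toLp
    have b := h.ap hf (m.toLp _)
    rw [a.1, a.2] at b
    have c : ∀ p : X × X, B.indicator k p.2 = (Prod.snd ⁻¹' B).indicator (fun p => k p.2) p :=
      fun p => by by_cases hp : p.2 ∈ B <;> simp [hp]
    have c2 : ∀ p : X × X, f p.1 * B.indicator k p.2 =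
        (Prod.snd ⁻¹' B).indicator (fun p => f p.1 * k p.2) p :=
      fun p => by by_cases hp : p.2 ∈ B <;> simp [hp]
    simp only [c2] at b
    simp only [c, integral_indicator hS] at b
    simp only [ProbabilityTheory.cond, integral_smul_measure, b, smul_eq_mul]
    ring

lemma closed_mp {Z W : Type*} [TopologicalSpace Z] [MeasurableSpace Z] [BorelSpace Z]
    [TopologicalSpace W] [MeasurableSpace W] [BorelSpace W] [HasOuterApproxClosed W] {T : Z → W}
    (hT : Continuous T) {σ : ProbabilityMeasure Z → ProbabilityMeasure W} (hσ : Continuous σ) :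
    IsClosed {ρ : ProbabilityMeasure Z | MeasurePreserving T (ρ : Measure Z) (σ ρ : Measure W)} := by
  have : {ρ : ProbabilityMeasure Z | MeasurePreserving T (ρ : Measure Z) (σ ρ : Measure W)} =
      {ρ | ρ.map hT.measurable.aemeasurable = σ ρ} :=
    Set.ext fun ρ => ⟨fun h => Subtype.ext h.map_eq, fun h => ⟨hT.measurable, congrArg Subtype.val h⟩⟩
  rw [this]
  exact isClosed_eq (ProbabilityMeasure.continuous_map hT) hσ

/-- Product of two bounded continuous functions. -/
noncomputable def tn (f h : X →ᵇ ℝ) : (X × X) →ᵇ ℝ :=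
  f.compContinuous ⟨Prod.fst, continuous_fst⟩ * h.compContinuous ⟨Prod.snd, continuous_snd⟩

lemma closed_C : IsClosed {ρ : ProbabilityMeasure (X × X) | InC G μ (ρ : Measure (X × X))} := by
  have S := closed_mp (continuous_fst (X := X) (Y := X)) (σ := fun _ => ⟨μ, inferInstance⟩)
    continuous_const
  have c : ∀ f h : X →ᵇ ℝ, Continuous fun ρ : ProbabilityMeasure (X × X) =>
      ∫ p, f p.1 * h p.2 ∂(ρ : Measure (X × X)) := fun f h =>
    ProbabilityMeasure.continuous_integral_boundedContinuousFunction (tn f h)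
  have F : ∀ (f : Lp ℝ 2 μ) (h : X →ᵇ ℝ), ContinuousOn (fun ρ : ProbabilityMeasure (X × X) =>
      ∫ p, f p.1 * h p.2 ∂(ρ : Measure (X × X)))
      {ρ | MeasurePreserving Prod.fst (ρ : Measure (X × X)) μ} := fun f h => by
    refine continuousOn_of_uniform_approx_of_continuousOn fun u hu => ?_
    obtain ⟨e, e0, he⟩ := Metric.mem_uniformity_dist.1 hu
    obtain ⟨k, hk⟩ := (BoundedContinuousFunction.toLp_denseRange ℝ μ ℝ (p := 2)
      (by norm_num)).exists_dist_lt f (ε := e / (‖h‖ + 1)) (by positivity)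
    refine ⟨_, (c k h).continuousOn, fun ρ hρ => he ?_⟩
    have t := BoundedContinuousFunction.coeFn_toLp 2 ((ρ : Measure (X × X)).map Prod.snd) ℝ h
    rw [← (fun_form hρ (mp_snd _) f _ EventuallyEq.rfl t).1,
      ← (fun_form hρ (mp_snd _) _ _ (BoundedContinuousFunction.coeFn_toLp 2 μ ℝ k) t).1,
      Real.dist_eq, ← inner_sub_left, ← map_sub, mk_inner]
    refine (abs_real_inner_le_norm _ _).trans_lt ?_
    have n1 := Lp.norm_le_of_ae_bound (norm_nonneg h) (t.mono fun x hx => hx ▸ h.norm_coe_le_norm x)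
    simp only [measureUnivNNReal, measure_univ, ENNReal.toNNReal_one, NNReal.coe_one, Real.one_rpow,
      one_mul] at n1
    rw [dist_eq_norm, lt_div_iff₀ (by positivity)] at hk
    simp only [pb, LinearIsometry.coe_toContinuousLinearMap, LinearIsometry.norm_map]
    nlinarith [norm_nonneg (f - BoundedContinuousFunction.toLp 2 μ ℝ k)]
  have : {ρ : ProbabilityMeasure (X × X) | InC G μ (ρ : Measure (X × X))} =
      (⋂ g : G, {ρ : ProbabilityMeasure (X × X) | MeasurePreserving
        (fun p : X × X => (g • p.1, g • p.2)) (ρ : Measure (X × X)) ρ}) ∩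
        ({ρ : ProbabilityMeasure (X × X) | MeasurePreserving Prod.fst (ρ : Measure (X × X)) μ} ∩
        ⋂ f, ⋂ _ : AP G μ f, ⋂ h : X →ᵇ ℝ,
          {ρ : ProbabilityMeasure (X × X) | MeasurePreserving Prod.fst (ρ : Measure (X × X)) μ ∧
            ∫ p, f p.1 * h p.2 ∂(ρ : Measure (X × X)) =
              (∫ x, f x ∂μ) * ∫ p, (1 : X →ᵇ ℝ) p.1 * h p.2 ∂(ρ : Measure (X × X))}) := by
    ext ρ
    simp only [InC, mem_inter_iff, mem_iInter, mem_setOf_eq, BoundedContinuousFunction.coe_one,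
      Pi.one_apply, one_mul]
    exact ⟨fun ⟨a, b, c⟩ => ⟨a, b, fun f hf h => ⟨b, c f hf h⟩⟩,
      fun ⟨a, b, c⟩ => ⟨a, b, fun f hf h => (c f hf h).2⟩⟩
  rw [this]
  exact (isClosed_iInter fun g => closed_mp (by fun_prop) continuous_id).inter (S.inter
    (isClosed_iInter fun f => isClosed_iInter fun _ => isClosed_iInter fun h =>
      S.isClosed_eq (F f h) (continuous_const.mul (c 1 h)).continuousOn))

lemma split (φ : (X × X) →ᵇ ℝ) {S : Set (X × X)} (hS : MeasurableSet S) (h0 : r S ≠ 0)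
    (h1 : r Sᶜ ≠ 0) : ∫ p, φ p ∂r = r.real S * ∫ p, φ p ∂r[|S] + r.real Sᶜ * ∫ p, φ p ∂r[|Sᶜ] := by
  have a : r.real S ≠ 0 := (measureReal_ne_zero_iff (measure_ne_top _ _)).2 h0
  have b : r.real Sᶜ ≠ 0 := (measureReal_ne_zero_iff (measure_ne_top _ _)).2 h1
  simp only [ProbabilityTheory.cond, integral_smul_measure, smul_eq_mul, ENNReal.toReal_inv]
  rw [← Measure.real, ← Measure.real, mul_inv_cancel_left₀ a, mul_inv_cancel_left₀ b,
    integral_add_compl hS (φ.integrable r)]

theorem of_erg (H : ∀ (ν : Measure X) [IsProbabilityMeasure ν] [SMulInvariantMeasure G X ν],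
    Erg G ν → QuasiDisjoint G μ ν) : QuasiDisjoint G μ μ := by
  intro l _ hl hk
  let Φ : ProbabilityMeasure (X × X) → ((X × X) →ᵇ ℝ) → ℝ := fun ρ φ => ∫ p, φ p ∂(ρ : Measure (X × X))
  have cΦ : Continuous Φ :=
    continuous_pi ProbabilityMeasure.continuous_integral_boundedContinuousFunction
  have K := (closed_C (G := G) (μ := μ)).isCompact.image cΦ
  have lC : InC G μ l := ⟨hl.inv, hl.fst, fun f hf h => by
    have a := fun_form hl.fst hl.snd f _ EventuallyEq.rfl
      (BoundedContinuousFunction.coeFn_toLp 2 μ ℝ h)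
    rw [← a.1, ← a.2, kron_left hl hk hf.kron]⟩
  have key : ∀ f h : X →ᵇ ℝ, ∫ x, f x ∂μ = 0 → ∫ p, f p.1 * h p.2 ∂l ≤ 0 := fun f h f0 => by
    obtain ⟨m, mK, hm⟩ := K.exists_isMaxOn ⟨_, ⟨l, inferInstance⟩, lC, rfl⟩
      (continuous_apply (tn f h)).continuousOn
    obtain ⟨e, ⟨⟨ρ, hρ, rfl⟩, he⟩, ex⟩ := (K.inter_right (isClosed_eq (continuous_apply (tn f h))
      (continuous_const (y := m (tn f h))))).extremePoints_nonempty ⟨m, mK, rfl⟩
    have hρ : InC G μ (ρ : Measure (X × X)) := hρ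
    have he : Φ ρ (tn f h) = m (tn f h) := he
    have := hρ.smul
    have erg : Erg G ((ρ : Measure (X × X)).map Prod.snd) := fun B hB hi => by
      by_contra c
      have hS : MeasurableSet (Prod.snd ⁻¹' B : Set (X × X)) := measurable_snd hB
      rw [Measure.map_apply measurable_snd hB, not_or] at c
      have c2 := (prob_compl_eq_zero_iff hS).not.2 c.2
      have k1 := hρ.cond hB hi c.1
      have k2 := hρ.cond hB.compl (fun g => by rw [preimage_compl, hi]) c2
      have i1 := cond_isProbabilityMeasure c.1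
      have i2 := cond_isProbabilityMeasure c2
      have t1 : 0 < (ρ : Measure (X × X)).real (Prod.snd ⁻¹' B) :=
        ENNReal.toReal_pos c.1 (measure_ne_top _ _)
      have t2 : 0 < (ρ : Measure (X × X)).real (Prod.snd ⁻¹' B)ᶜ :=
        ENNReal.toReal_pos c2 (measure_ne_top _ _)
      have t3 := probReal_add_probReal_compl (μ := (ρ : Measure (X × X))) hS
      have m1 : Φ ⟨_, i1⟩ (tn f h) ≤ m (tn f h) := hm ⟨_, k1, rfl⟩
      have m2 : Φ ⟨_, i2⟩ (tn f h) ≤ m (tn f h) := hm ⟨_, k2, rfl⟩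
      have s : Φ ρ (tn f h) = _ * Φ ⟨_, i1⟩ (tn f h) + _ * Φ ⟨_, i2⟩ (tn f h) := split _ hS c.1 c2
      have t4 := congrArg (· * m (tn f h)) t3
      have q := ex (x₁ := Φ ⟨_, i1⟩) ⟨⟨_, k1, rfl⟩, le_antisymm m1 (le_of_mul_le_mul_left
          (by linarith [mul_le_mul_of_nonneg_left m2 t2.le]) t1)⟩
        (x₂ := Φ ⟨_, i2⟩) ⟨⟨_, k2, rfl⟩, le_antisymm m2 (le_of_mul_le_mul_left
          (by linarith [mul_le_mul_of_nonneg_left m1 t1.le]) t2)⟩
        ⟨_, _, t1, t2, t3, funext fun φ => (split φ hS c.1 c2).symm⟩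
      have q' : (ρ : Measure (X × X))[|Prod.snd ⁻¹' B] = ρ :=
        ext_of_forall_integral_eq_of_IsFiniteMeasure (congrFun q)
      exact c.2 (by rw [← q']; exact cond_apply_self c.1 (measure_ne_top _ _))
    have p := H _ erg ρ inferInstance ⟨hρ.1, hρ.2.1, mp_snd _⟩ hρ.kron
    have z : ∫ p, f p.1 * h p.2 ∂(ρ : Measure (X × X)) = 0 := by
      rw [p, integral_prod_mul, f0, zero_mul]
    exact (hm ⟨⟨l, inferInstance⟩, lC, rfl⟩ : Φ _ (tn f h) ≤ m (tn f h)).trans (he.symm.trans z).le
  refine Measure.eq_prod_of_integral_mul_boundedContinuousFunction fun f h => ?_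
  set f' := f - BoundedContinuousFunction.const X (∫ x, f x ∂μ) with hf'
  have f0 : ∫ x, f' x ∂μ = 0 := by
    simp only [hf', BoundedContinuousFunction.coe_sub, Pi.sub_apply,
      BoundedContinuousFunction.const_apply]
    rw [integral_sub (f.integrable μ) (integrable_const _)]; simp
  have a := key f' h f0
  have b := key f' (-h) f0
  simp only [BoundedContinuousFunction.coe_neg, Pi.neg_apply, mul_neg, integral_neg] at b
  have c : ∫ p, f' p.1 * h p.2 ∂l = ∫ p, f p.1 * h p.2 ∂l - (∫ x, f x ∂μ) * ∫ p, h p.2 ∂l := by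
    rw [← integral_const_mul]
    exact (integral_congr_ae (Eventually.of_forall fun p => by simp [hf', tn, sub_mul])).trans
      (integral_sub ((tn f h).integrable l)
        ((tn (BoundedContinuousFunction.const X (∫ x, f x ∂μ)) h).integrable l))
  have d := (fun_form hl.fst hl.snd 0 _ EventuallyEq.rfl
    (BoundedContinuousFunction.coeFn_toLp 2 μ ℝ h)).2
  rw [integral_congr_ae (BoundedContinuousFunction.coeFn_toLp 2 μ ℝ h)] at d
  rw [d]; linarith

end Pool.Agent.H43.Qd
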