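import Mathlib

namespace Pool.Agent.H43.Qd

open MeasureTheory Set

variable (G : Type*) [Group G] {X Y : Type*} [MeasurableSpace X] [MeasurableSpace Y]
  [MulAction G X] [MulAction G Y] [MeasurableConstSMul G X] [MeasurableConstSMul G Y]

/-- `f ∈ L²(μ)` has relatively compact orbit `{f ∘ T^g : g ∈ G}`. -/
def AP (μ : Measure X) [SMulInvariantMeasure G X μ] (f : Lp ℝ 2 μ) : Prop :=
  IsCompact (closure (range fun g : G =>
    Lp.compMeasurePreserving (fun x => g • x) (measurePreserving_smul g μ) f))

/-- The `L²` space of the Kronecker factor: the closed span of the functions with relatively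
compact orbit. -/
noncomputable def Kron (μ : Measure X) [SMulInvariantMeasure G X μ] : Submodule ℝ (Lp ℝ 2 μ) :=
  (Submodule.span ℝ {f | AP G μ f}).topologicalClosure

/-- `l` is invariant under the diagonal action and has marginals `μ` and `ν`. -/
structure IsJoining (μ : Measure X) (ν : Measure Y) (l : Measure (X × Y)) : Prop where
  inv : ∀ g : G, MeasurePreserving (fun p : X × Y => (g • p.1, g • p.2)) l l
  fst : MeasurePreserving Prod.fst l μ
  snd : MeasurePreserving Prod.snd l ν

/-- The image of `l` on the product of the two Kronecker factors is the product measure: the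
two Kronecker `L²` spaces are uncorrelated under `l`. -/
def KronProd (μ : Measure X) (ν : Measure Y) [SMulInvariantMeasure G X μ]
    [SMulInvariantMeasure G Y ν] (l : Measure (X × Y)) : Prop :=
  ∀ f ∈ Kron G μ, ∀ h ∈ Kron G ν, ∫ p, f p.1 * h p.2 ∂l = (∫ x, f x ∂μ) * ∫ y, h y ∂ν

/-- Quasi-disjointness. -/
def QuasiDisjoint (μ : Measure X) (ν : Measure Y) [SMulInvariantMeasure G X μ]
    [SMulInvariantMeasure G Y ν] : Prop :=
  ∀ l : Measure (X × Y), IsProbabilityMeasure l → IsJoining G μ ν l → KronProd G μ ν l →
    l = μ.prod ν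

/-- Every invariant measurable set has measure `0` or `1`. -/
def Erg (ν : Measure Y) : Prop :=
  ∀ B : Set Y, MeasurableSet B → (∀ g : G, (fun y => g • y) ⁻¹' B = B) → ν B = 0 ∨ ν B = 1

end Pool.Agent.H43.Qd
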