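import Mathlib

set_option autoImplicit false

namespace Pool.Agent.H43.Ray

open MeasureTheory ProbabilityTheory
open scoped NNReal ENNReal

/-- the four unit vectors of the square lattice -/
def dir : Fin 4 → ℤ × ℤ := ![(1, 0), (-1, 0), (0, 1), (0, -1)]

/-- the ray animal rooted at `x` with length `a.1` and direction `dir a.2` -/
def ray (x : ℤ × ℤ) (a : ℕ × Fin 4) : Set (ℤ × ℤ) :=
  {z | ∃ t : ℕ, t ≤ a.1 ∧ z = x + (t : ℤ) • dir a.2}

/-- law of the data at one site: a Poisson number of animals, and an independent i.i.d.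
sequence of (length, direction) pairs, length of law `ρ`, direction uniform and independent -/
noncomputable def site (lam : ℝ≥0) (ρ : Measure ℕ) : Measure (ℕ × (ℕ → ℕ × Fin 4)) :=
  (poissonMeasure lam).prod
    (Measure.infinitePi fun _ : ℕ => ρ.prod (uniformOn (Set.univ : Set (Fin 4))))

/-- law of the whole configuration: independent sites -/
noncomputable def law (lam : ℝ≥0) (ρ : Measure ℕ) : Measure (ℤ × ℤ → ℕ × (ℕ → ℕ × Fin 4)) :=
  Measure.infinitePi fun _ => site lam ρ

/-- the occupied set -/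
def occ (ω : ℤ × ℤ → ℕ × (ℕ → ℕ × Fin 4)) : Set (ℤ × ℤ) :=
  {z | ∃ x i, i < (ω x).1 ∧ z ∈ ray x ((ω x).2 i)}

/-- `a`, `b` are nearest neighbours, both in `S` -/
def step (S : Set (ℤ × ℤ)) (a b : ℤ × ℤ) : Prop :=
  |a.1 - b.1| + |a.2 - b.2| = 1 ∧ a ∈ S ∧ b ∈ S

/-- `S` has an infinite nearest-neighbour connected component -/
def perc (S : Set (ℤ × ℤ)) : Prop :=
  ∃ u ∈ S, {v | Relation.ReflTransGen (step S) u v}.Infinite

/-- the critical intensity (infimum in the extended nonnegative reals) -/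
noncomputable def lamc (ρ : Measure ℕ) : ℝ≥0∞ :=
  ⨅ (lam : ℝ≥0) (_ : 0 < lam) (_ : 0 < law lam ρ {ω | perc (occ ω)}), (lam : ℝ≥0∞)

end Pool.Agent.H43.Ray
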