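import Pool.Agent.H43.RayDefs
import Pool.Agent.H43.Dep

set_option autoImplicit false

namespace Pool.Agent.H43.Ray

open MeasureTheory ProbabilityTheory Relation
open scoped NNReal ENNReal

def D (x a : ℤ × ℤ) : ℤ := max |a.1 - x.1| |a.2 - x.2|

lemma D_le {x a : ℤ × ℤ} {r : ℤ} :
    D x a ≤ r ↔ (-r ≤ a.1 - x.1 ∧ a.1 - x.1 ≤ r) ∧ (-r ≤ a.2 - x.2 ∧ a.2 - x.2 ≤ r) := by
  simp only [D, max_le_iff, abs_le]

lemma D_tri (x y z : ℤ × ℤ) : D x z ≤ D x y + D y z := by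
  have h1 := (D_le (x := x) (a := y)).1 le_rfl
  have h2 := (D_le (x := y) (a := z)).1 le_rfl
  rw [D_le]; omega

lemma D_comm (x y : ℤ × ℤ) : D x y = D y x := by
  simp only [D, abs_sub_comm]

lemma D_step {S : Set (ℤ × ℤ)} {a b : ℤ × ℤ} (h : step S a b) : D a b ≤ 1 := by
  have h1 := h.1
  have h2 := abs_nonneg (a.1 - b.1)
  have h3 := abs_nonneg (a.2 - b.2)
  simp only [D, max_le_iff, abs_sub_comm b.1, abs_sub_comm b.2]
  omega

noncomputable def box (x : ℤ × ℤ) (r : ℕ) : Finset (ℤ × ℤ) :=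
  Finset.Icc (x.1 - r) (x.1 + r) ×ˢ Finset.Icc (x.2 - r) (x.2 + r)

lemma mem_box {x a : ℤ × ℤ} {r : ℕ} : a ∈ box x r ↔ D x a ≤ r := by
  simp only [box, Finset.mem_product, Finset.mem_Icc, D_le]; omega

lemma card_box (x : ℤ × ℤ) (r : ℕ) : (box x r).card = (2 * r + 1) ^ 2 := by
  simp only [box, Finset.card_product, Int.card_Icc]
  have h1 : (x.1 + r + 1 - (x.1 - r)).toNat = 2 * r + 1 := by omega
  have h2 : (x.2 + r + 1 - (x.2 - r)).toNat = 2 * r + 1 := by omega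
  rw [h1, h2, sq]

def G (S : Set (ℤ × ℤ)) (x : ℤ × ℤ) (r : ℕ) : Prop :=
  ∃ u v, D x u ≤ r ∧ 3 * (r : ℤ) ≤ D x v ∧
    ReflTransGen (step (S ∩ {z | D x z ≤ 3 * (r : ℤ)})) u v

lemma rtg_mono {S T : Set (ℤ × ℤ)} (h : S ⊆ T) {u v : ℤ × ℤ}
    (huv : ReflTransGen (step S) u v) : ReflTransGen (step T) u v := by
  induction huv with
  | refl => exact .refl
  | tail _ hab ih => exact ih.tail ⟨hab.1, h hab.2.1, h hab.2.2⟩

lemma rtg_symm {S : Set (ℤ × ℤ)} {u v : ℤ × ℤ}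
    (huv : ReflTransGen (step S) u v) : ReflTransGen (step S) v u := by
  induction huv with
  | refl => exact .refl
  | tail _ hbc ih =>
    refine ReflTransGen.head ⟨?_, hbc.2.2, hbc.2.1⟩ ih
    rw [abs_sub_comm, abs_sub_comm (Prod.snd _)]; exact hbc.1

lemma G_of_path {S : Set (ℤ × ℤ)} {x u v : ℤ × ℤ} {r : ℕ}
    (huv : ReflTransGen (step S) u v) (hu : D x u ≤ r) (hv : 3 * (r : ℤ) ≤ D x v) :
    G S x r := by
  have key : G S x r ∨ (D x v ≤ 3 * (r : ℤ) ∧
      ReflTransGen (step (S ∩ {z | D x z ≤ 3 * (r : ℤ)})) u v) := by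
    clear hv
    induction huv with
    | refl => right; exact ⟨by omega, .refl⟩
    | @tail b c _ hbc ih =>
      rcases ih with h | ⟨h1, h2⟩
      · exact Or.inl h
      · by_cases h3 : 3 * (r : ℤ) ≤ D x b
        · exact Or.inl ⟨u, b, hu, h3, h2⟩
        · have h4 := D_tri x b c
          have h5 := D_step hbc
          have h6 : D x c ≤ 3 * (r : ℤ) := by omega
          exact Or.inr ⟨h6, h2.tail ⟨hbc.1, ⟨hbc.2.1, h1⟩, ⟨hbc.2.2, h6⟩⟩⟩
  rcases key with h | ⟨_, h2⟩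
  · exact h
  · exact ⟨u, v, hu, hv, h2⟩

lemma G_mono {S T : Set (ℤ × ℤ)} {x : ℤ × ℤ} {r : ℕ} (h : G S x r)
    (hST : ∀ z ∈ S, D x z ≤ 3 * (r : ℤ) → z ∈ T) : G T x r := by
  obtain ⟨u, v, hu, hv, huv⟩ := h
  refine ⟨u, v, hu, hv, rtg_mono ?_ huv⟩
  intro z hz
  exact ⟨hST z hz.1 hz.2, hz.2⟩

lemma G_end {S : Set (ℤ × ℤ)} {u v : ℤ × ℤ} (huv : ReflTransGen (step S) u v) (hne : u ≠ v) :
    v ∈ S := by
  cases huv with
  | refl => exact absurd rfl hne
  | tail _ h => exact h.2.2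

lemma round (x u : ℤ × ℤ) (r m : ℕ) (hr : 0 < r) (hu : D x u ≤ m * r) :
    ∃ a ∈ box 0 m, D (x + (r : ℤ) • a) u ≤ r := by
  have hr' : (0 : ℤ) < r := by exact_mod_cast hr
  have key : ∀ t : ℤ, -(m * r : ℤ) ≤ t → t ≤ m * r →
      (-(m : ℤ) ≤ t / r ∧ t / r ≤ m) ∧ (-(r : ℤ) ≤ t - r * (t / r) ∧ t - r * (t / r) ≤ r) := by
    intro t h1 h2
    have h3 := Int.emod_nonneg t hr'.ne'
    have h4 := Int.emod_lt_of_pos t hr'
    have h5 := Int.emod_add_mul_ediv t r
    refine ⟨⟨?_, ?_⟩, by omega, by omega⟩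
    · rw [Int.le_ediv_iff_mul_le hr']; linarith
    · exact Int.ediv_le_of_le_mul hr' h2
  rw [D_le] at hu
  have k1 := key _ hu.1.1 hu.1.2
  have k2 := key _ hu.2.1 hu.2.2
  refine ⟨((u.1 - x.1) / r, (u.2 - x.2) / r), ?_, ?_⟩
  · rw [mem_box, D_le]; simp only [Prod.fst_zero, Prod.snd_zero, sub_zero]; exact ⟨k1.1, k2.1⟩
  · rw [D_le]
    simp only [Prod.fst_add, Prod.snd_add, Prod.smul_fst, Prod.smul_snd, smul_eq_mul]
    refine ⟨⟨by linarith [k1.2.1], by linarith [k1.2.2]⟩, by linarith [k2.2.1],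
      by linarith [k2.2.2]⟩

lemma G_split {S : Set (ℤ × ℤ)} {x : ℤ × ℤ} {r : ℕ} (hr : 0 < r) (h : G S x (6 * r)) :
    ∃ a ∈ box 0 6, ∃ b ∈ box 0 18, 8 * (r : ℤ) < D (x + (r : ℤ) • a) (x + (r : ℤ) • b) ∧
      G S (x + (r : ℤ) • a) r ∧ G S (x + (r : ℤ) • b) r := by
  obtain ⟨u, v, hu, hv, huv⟩ := h
  have hr' : (0 : ℤ) < r := by exact_mod_cast hr
  push_cast at hu hv huv
  have hne : u ≠ v := by rintro rfl; omega
  have hv' : D x v ≤ 3 * (6 * (r : ℤ)) := (G_end huv hne).2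
  obtain ⟨a, ha, ha'⟩ := round x u r 6 hr (by push_cast; omega)
  obtain ⟨b, hb, hb'⟩ := round x v r 18 hr (by push_cast; omega)
  have h1 := rtg_mono Set.inter_subset_left huv
  refine ⟨a, ha, b, hb, ?_⟩
  generalize x + (r : ℤ) • a = y at *
  generalize x + (r : ℤ) • b = w at *
  have t1 := D_tri x u v
  have t2 := D_tri u y v
  have t3 := D_tri y w v
  have t4 := D_tri u w v
  have c1 := D_comm u y
  have c2 := D_comm u w
  exact ⟨by omega, G_of_path h1 ha' (by omega),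
    G_of_path (rtg_symm h1) hb' (by omega)⟩

lemma G_of_perc {S : Set (ℤ × ℤ)} (h : perc S) : ∃ k0 : ℕ, ∀ r ≥ k0, G S 0 r := by
  obtain ⟨u, _, hu⟩ := h
  refine ⟨(D 0 u).toNat, fun r hr => ?_⟩
  obtain ⟨v, hv, hv'⟩ := hu.exists_notMem_finset (box 0 (3 * r))
  rw [mem_box] at hv'
  push_cast at hv'
  exact G_of_path hv (by omega) (by omega)

lemma D_ray {x z : ℤ × ℤ} {a : ℕ × Fin 4} (h : z ∈ ray x a) :
    D x z ≤ a.1 ∧ (x.1 = z.1 ∨ x.2 = z.2) := by
  obtain ⟨t, ht, rfl⟩ := h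
  obtain ⟨L, e⟩ := a
  simp only at ht
  rw [D_le]
  fin_cases e <;> simp [dir] <;> omega

lemma meas_rtg {Ω V : Type} [MeasurableSpace Ω] [Countable V] (R : Ω → V → V → Prop)
    (hR : ∀ a b, MeasurableSet {ω | R ω a b}) (u v : V) :
    MeasurableSet {ω | ReflTransGen (R ω) u v} := by
  let A : ℕ → V → Set Ω := fun n => Nat.rec (fun v => {_ω | v = u})
    (fun _ B c => B c ∪ ⋃ b, B b ∩ {ω | R ω b c}) n
  have hA : ∀ n v, MeasurableSet (A n v) := by
    intro n
    induction n with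
    | zero => intro v; exact MeasurableSet.const _
    | succ n ih =>
      intro c
      exact (ih c).union (MeasurableSet.iUnion fun b => (ih b).inter (hR b c))
  have : {ω | ReflTransGen (R ω) u v} = ⋃ n, A n v := by
    ext ω
    simp only [Set.mem_ofPred_eq, Set.mem_iUnion]
    constructor
    · intro h
      induction h with
      | refl => exact ⟨0, rfl⟩
      | @tail b c _ hbc ih =>
        obtain ⟨n, hn⟩ := ih
        exact ⟨n + 1, Or.inr (Set.mem_iUnion.2 ⟨b, hn, hbc⟩)⟩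
    · rintro ⟨n, hn⟩
      induction n generalizing v with
      | zero => have : v = u := hn
                subst this; exact .refl
      | succ n ih =>
        rcases hn with h | h
        · exact ih _ h
        · obtain ⟨b, hb, hbc⟩ := Set.mem_iUnion.1 h
          exact (ih _ hb).tail hbc
  rw [this]
  exact MeasurableSet.iUnion fun n => hA n v

open Pool.Agent.H43.Dep in
lemma dep_indep {ι α : Type} [MeasurableSpace α] [Nonempty α] (ν : ι → Measure α)
    [∀ i, IsProbabilityMeasure (ν i)] {S T : Finset ι}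
    {A B : Set (ι → α)} (h : Dep S A) (h' : Dep T B) (hA : MeasurableSet A)
    (hB : MeasurableSet B) (hST : Disjoint S T) :
    (Measure.infinitePi ν).real (A ∩ B) =
      (Measure.infinitePi ν).real A * (Measure.infinitePi ν).real B := by
  classical
  obtain ⟨a0⟩ := ‹Nonempty α›
  have key : ∀ (S : Finset ι) (A : Set (ι → α)), Dep S A → MeasurableSet A →
      ∃ C : Set (S → α), MeasurableSet C ∧ A = (fun (ω : ι → α) (i : S) => ω i) ⁻¹' C := by
    intro S A h hA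
    let ext : (S → α) → ι → α := fun η x => if hx : x ∈ S then η ⟨x, hx⟩ else a0
    have hm : Measurable ext := by
      refine measurable_pi_lambda _ fun x => ?_
      by_cases hx : x ∈ S
      · simp only [ext, hx, dif_pos]; exact measurable_pi_apply _
      · simp only [ext, hx, dif_neg, not_false_eq_true]; exact measurable_const
    refine ⟨ext ⁻¹' A, hm hA, ?_⟩
    ext ω
    simp only [Set.mem_preimage]
    exact ⟨h _ _ fun e he => by simp [ext, he], h _ _ fun e he => by simp [ext, he]⟩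
  obtain ⟨C, hC, rfl⟩ := key S A h hA
  obtain ⟨C', hC', rfl⟩ := key T B h' hB
  have h1 := (iIndepFun_infinitePi (P := ν) (X := fun _ x => x)
    (fun _ => measurable_id)).indepFun_finset S T hST (fun i => measurable_pi_apply i)
  have h2 := h1.measure_inter_preimage_eq_mul C C' hC hC'
  simp only [measureReal_def, h2, ENNReal.toReal_mul]

end Pool.Agent.H43.Ray
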