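import Pool.Agent.H43.RayMain

set_option autoImplicit false

namespace Pool.Agent.H43.RayJ

open MeasureTheory ProbabilityTheory Filter Topology Pool.Agent.H43.Ray
open scoped NNReal ENNReal

noncomputable def w (k : ℕ) : ℝ := (1 / 4) ^ k / (k + 1)

lemma w_pos (k : ℕ) : 0 < w k := by unfold w; positivity

noncomputable def mu : Measure ℕ :=
  Measure.sum fun k => ENNReal.ofReal (w k) • Measure.dirac (2 ^ k)

lemma w_le (m j : ℕ) : w (m + j) ≤ (1 / 4) ^ m / (m + 1) * (1 / 2) ^ j := by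
  unfold w
  rw [pow_add, div_mul_eq_mul_div]
  have h1 : (1 / 4 : ℝ) ^ j ≤ (1 / 2) ^ j := pow_le_pow_left₀ (by norm_num) (by norm_num) j
  have h2 : (0 : ℝ) ≤ j := Nat.cast_nonneg j
  push_cast
  gcongr
  linarith

lemma tsum_w (m : ℕ) :
    ∑' j, ENNReal.ofReal (w (m + j)) ≤ ENNReal.ofReal ((1 / 4) ^ m / (m + 1) * 2) := by
  have h2 : HasSum (fun j : ℕ => (1 / 4 : ℝ) ^ m / (m + 1) * (1 / 2 : ℝ) ^ j)
      ((1 / 4) ^ m / (m + 1) * 2) := hasSum_geometric_two.mul_left _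
  rw [← h2.tsum_eq, ENNReal.ofReal_tsum_of_nonneg (fun j => by positivity) h2.summable]
  exact ENNReal.tsum_le_tsum fun j => ENNReal.ofReal_le_ofReal (w_le m j)

lemma mu_apply (A : Set ℕ) :
    mu A = ∑' k, ENNReal.ofReal (w k) * A.indicator 1 (2 ^ k) := by
  simp [mu, Measure.sum_apply _ (Set.to_countable A).measurableSet]

lemma mu_univ : 1 ≤ mu Set.univ ∧ mu Set.univ ≠ ⊤ := by
  rw [mu_apply]
  simp only [Set.indicator_univ, Pi.one_apply, mul_one]
  constructor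
  · refine le_trans (le_of_eq ?_) (ENNReal.le_tsum 0)
    simp [w]
  · have := tsum_w 0
    simp only [zero_add] at this
    exact ne_top_of_le_ne_top ENNReal.ofReal_ne_top this

lemma mu_tail (n : ℕ) (hn : n ≠ 0) : mu {L | n < L} ≤
    ENNReal.ofReal ((1 / 4) ^ (Nat.log 2 n + 1) / ((Nat.log 2 n + 1 : ℕ) + 1) * 2) := by
  refine le_trans ?_ (tsum_w _)
  rw [mu_apply, ← ENNReal.summable.sum_add_tsum_nat_add' (k := Nat.log 2 n + 1),
    Finset.sum_eq_zero, zero_add]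
  · refine ENNReal.tsum_le_tsum fun j => ?_
    rw [add_comm j]
    exact mul_le_of_le_one_right' (Set.indicator_le_self' (fun _ _ => zero_le_one) _)
  · intro k hk
    have h1 : 2 ^ k ≤ n :=
      (Nat.pow_le_pow_right (by norm_num) (by simp at hk; omega)).trans (Nat.pow_log_le_self 2 hn)
    simp [h1]

noncomputable def rho : Measure ℕ := (mu Set.univ)⁻¹ • mu

instance : IsProbabilityMeasure rho :=
  ⟨by
    rw [rho, Measure.smul_apply, smul_eq_mul]
    exact ENNReal.inv_mul_cancel (zero_lt_one.trans_le mu_univ.1).ne' mu_univ.2⟩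

lemma rho_tail : Tendsto (fun n : ℕ => (n : ℝ) ^ 2 * rho.real {L | n < L}) atTop (𝓝 0) := by
  have h0 : Tendsto (fun n : ℕ => Nat.log 2 n + 1) atTop atTop := by
    refine tendsto_atTop.2 fun b => eventually_atTop.2 ⟨2 ^ b, fun n hn => ?_⟩
    have := Nat.le_log_of_pow_le (by norm_num) hn
    omega
  have h1 := (tendsto_one_div_add_atTop_nhds_zero_nat (𝕜 := ℝ)).comp h0
  have h2 := h1.const_mul 2
  rw [mul_zero] at h2
  refine squeeze_zero' (Eventually.of_forall fun n => by positivity)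
    (eventually_atTop.2 ⟨1, fun n hn => ?_⟩) h2
  have h3 : rho {L | n < L} ≤ mu {L | n < L} := by
    rw [rho, Measure.smul_apply, smul_eq_mul]
    exact mul_le_of_le_one_left' (ENNReal.inv_le_one.2 mu_univ.1)
  have h4 := ENNReal.toReal_le_of_le_ofReal (by positivity) (h3.trans (mu_tail n (by omega)))
  have h5 : n < 2 ^ (Nat.log 2 n + 1) := Nat.lt_pow_succ_log_self (by norm_num) n
  simp only [Function.comp]
  generalize Nat.log 2 n + 1 = m at *
  have h6 : (n : ℝ) ≤ 2 ^ m := by exact_mod_cast h5.le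
  have h7 : (n : ℝ) ^ 2 * (1 / 4) ^ m ≤ 1 := by
    have h8 : ((2 : ℝ) ^ m) ^ 2 * (1 / 4) ^ m = 1 := by
      rw [← pow_mul, mul_comm m, pow_mul, ← mul_pow]; norm_num
    refine le_trans ?_ h8.le
    gcongr
  calc (n : ℝ) ^ 2 * rho.real {L | n < L} ≤ (n : ℝ) ^ 2 * ((1 / 4) ^ m / (m + 1) * 2) :=
        mul_le_mul_of_nonneg_left h4 (by positivity)
    _ = ((n : ℝ) ^ 2 * (1 / 4) ^ m) * (2 * (1 / (m + 1))) := by ring
    _ ≤ 1 * (2 * (1 / (m + 1))) := by gcongr
    _ = _ := one_mul _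

lemma rho_moment : ∫⁻ L, ((L : ℝ≥0∞) + 1) ^ 2 ∂rho = ⊤ := by
  have h1 : ∫⁻ L, ((L : ℝ≥0∞) + 1) ^ 2 ∂mu = ⊤ := by
    rw [mu, lintegral_sum_measure]
    simp only [lintegral_smul_measure, lintegral_dirac, smul_eq_mul]
    have h2 : ∑' k : ℕ, ENNReal.ofReal (1 / ((k : ℝ) + 1)) = ⊤ := by
      by_contra h
      have h3 := ENNReal.summable_toReal h
      have h4 : Summable fun k : ℕ => 1 / ((k : ℝ) + 1) := by
        refine h3.congr fun k => ENNReal.toReal_ofReal (by positivity)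
      apply Real.not_summable_one_div_natCast
      rw [← summable_nat_add_iff 1]
      simpa using h4
    rw [eq_top_iff, ← h2]
    refine ENNReal.tsum_le_tsum fun k => ?_
    have h5 : 1 / ((k : ℝ) + 1) = w k * ((2 : ℝ) ^ k) ^ 2 := by
      have h8 : ((2 : ℝ) ^ k) ^ 2 * (1 / 4) ^ k = 1 := by
        rw [← pow_mul, mul_comm k, pow_mul, ← mul_pow]; norm_num
      unfold w
      rw [div_mul_eq_mul_div, mul_comm, h8]
    rw [h5, ENNReal.ofReal_mul (w_pos k).le, ENNReal.ofReal_pow (by positivity),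
      ENNReal.ofReal_pow (by positivity)]
    gcongr
    simp
  rw [rho, lintegral_smul_measure, smul_eq_mul, h1]
  exact ENNReal.mul_top (ENNReal.inv_ne_zero.2 mu_univ.2)

theorem joint :
    (∀ (ρ : Measure ℕ) [IsProbabilityMeasure ρ],
      Tendsto (fun n : ℕ => (n : ℝ) ^ 2 * ρ.real {L | n < L}) atTop (𝓝 0) → 0 < lamc ρ) ∧
    ∃ ρ : Measure ℕ, IsProbabilityMeasure ρ ∧ ∫⁻ L, ((L : ℝ≥0∞) + 1) ^ 2 ∂ρ = ⊤ ∧ 0 < lamc ρ :=
  ⟨fun ρ _ h => lamc_pos ρ h, rho, inferInstance, rho_moment, lamc_pos rho rho_tail⟩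

end Pool.Agent.H43.RayJ
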