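import Pool.Agent.H43.RayGeo

set_option autoImplicit false

namespace Pool.Agent.H43.Ray

open MeasureTheory ProbabilityTheory Relation Filter Topology Pool.Agent.H43.Dep
open scoped NNReal ENNReal

abbrev X := ℕ × (ℕ → ℕ × Fin 4)
abbrev Om := ℤ × ℤ → X

lemma poisson_mean (lam : ℝ≥0) : ∑' i : ℕ, poissonMeasure lam {n | i < n} = lam := by
  have h1 : ∑' i : ℕ, poissonMeasure lam {n | i < n} = ∫⁻ n, (n : ℝ≥0∞) ∂(poissonMeasure lam) := by
    have : ∀ i : ℕ, poissonMeasure lam {n | i < n} =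
        ∫⁻ n, ({n | i < n} : Set ℕ).indicator 1 n ∂(poissonMeasure lam) := fun i =>
      (lintegral_indicator_one (Set.to_countable _).measurableSet).symm
    simp only [this]
    rw [← lintegral_tsum fun i => (measurable_of_countable _).aemeasurable]
    congr 1
    ext n
    rw [tsum_eq_sum (s := Finset.range n) fun i hi => by
      simp only [Finset.mem_range] at hi; simp [hi]]
    rw [Finset.sum_congr rfl (g := fun _ => 1) fun i hi => by
      simp only [Finset.mem_range] at hi; simp [hi]]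
    simp
  rw [h1, lintegral_countable']
  have h2 : HasSum (fun n : ℕ => (n : ℝ) * (Real.exp (-lam) * (lam : ℝ) ^ n / n.factorial))
      (lam : ℝ) := by
    rw [← hasSum_nat_add_iff' 1]
    have h3 := (hasSum_one_poissonMeasure lam).mul_left (lam : ℝ)
    simp only [Finset.sum_range_one, Nat.cast_zero, zero_mul, sub_zero, mul_one] at h3 ⊢
    have h4 : (fun n : ℕ => ((n + 1 : ℕ) : ℝ) *
        (Real.exp (-lam) * (lam : ℝ) ^ (n + 1) / (n + 1).factorial)) =
        fun n : ℕ => (lam : ℝ) * (Real.exp (-lam) * (lam : ℝ) ^ n / n.factorial) := by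
      ext n
      rw [Nat.factorial_succ]
      push_cast
      field_simp
      ring
    rw [h4]
    exact h3
  have h4 : ∀ n : ℕ, (n : ℝ≥0∞) * poissonMeasure lam {n} =
      ENNReal.ofReal ((n : ℝ) * (Real.exp (-lam) * (lam : ℝ) ^ n / n.factorial)) := by
    intro n
    rw [poissonMeasure_singleton, ENNReal.ofReal_mul (Nat.cast_nonneg n), ENNReal.ofReal_natCast]
  simp only [h4]
  rw [← ENNReal.ofReal_tsum_of_nonneg (fun n => by positivity) h2.summable, h2.tsum_eq]
  simp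

variable (lam : ℝ≥0) (ρ : Measure ℕ) [IsProbabilityMeasure ρ]

instance : IsProbabilityMeasure (site lam ρ) := by unfold site; infer_instance

instance : IsProbabilityMeasure (law lam ρ) := by unfold law; infer_instance

def has (A : Set ℕ) (y : ℤ × ℤ) : Set Om := {ω | ∃ i, i < (ω y).1 ∧ ((ω y).2 i).1 ∈ A}

lemma has_le (A : Set ℕ) (y : ℤ × ℤ) : (law lam ρ).real (has A y) ≤ lam * ρ.real A := by
  have hm : ∀ i : ℕ, MeasurableSet {f : ℕ → ℕ × Fin 4 | (f i).1 ∈ A} := fun i =>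
    (measurable_pi_apply i).fst (Set.to_countable _).measurableSet
  have h0 : has A y = (fun ω : Om => ω y) ⁻¹'
      (⋃ i : ℕ, {n | i < n} ×ˢ {f : ℕ → ℕ × Fin 4 | (f i).1 ∈ A}) := by
    ext ω; simp [has]
  have h1 : law lam ρ (has A y) =
      site lam ρ (⋃ i : ℕ, {n | i < n} ×ˢ {f : ℕ → ℕ × Fin 4 | (f i).1 ∈ A}) := by
    rw [h0]
    exact (measurePreserving_eval_infinitePi (fun _ => site lam ρ) y).measure_preimage
      (MeasurableSet.iUnion fun i =>
        (Set.to_countable _).measurableSet.prod (hm i)).nullMeasurableSet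
  have h2 : ∀ i : ℕ, (Measure.infinitePi fun _ : ℕ => ρ.prod (uniformOn (Set.univ : Set (Fin 4))))
      {f : ℕ → ℕ × Fin 4 | (f i).1 ∈ A} = ρ A := by
    intro i
    have := (measurePreserving_eval_infinitePi
      (fun _ : ℕ => ρ.prod (uniformOn (Set.univ : Set (Fin 4)))) i).measure_preimage
      (s := A ×ˢ Set.univ) (Set.to_countable _).measurableSet.nullMeasurableSet
    rw [Measure.prod_prod, measure_univ, mul_one] at this
    rw [← this]
    congr 1
    ext f; simp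
  have h3 : law lam ρ (has A y) ≤ lam * ρ A := by
    rw [h1]
    refine (measure_iUnion_le _).trans (le_of_eq ?_)
    simp only [site, Measure.prod_prod, h2]
    rw [ENNReal.tsum_mul_right, poisson_mean]
  have h4 := ENNReal.toReal_mono (ENNReal.mul_ne_top ENNReal.coe_ne_top (measure_ne_top _ _)) h3
  simpa [measureReal_def] using h4

lemma has_box_le (A : Set ℕ) (T : Finset (ℤ × ℤ)) :
    (law lam ρ).real (⋃ y ∈ T, has A y) ≤ T.card * (lam * ρ.real A) := by
  refine (measureReal_biUnion_finset_le _ _).trans ?_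
  refine (Finset.sum_le_sum fun y _ => has_le lam ρ A y).trans ?_
  simp

def occL (n : ℕ) (ω : Om) : Set (ℤ × ℤ) :=
  {z | ∃ x i, i < (ω x).1 ∧ ((ω x).2 i).1 ≤ n ∧ z ∈ ray x ((ω x).2 i)}

def E (n : ℕ) (x : ℤ × ℤ) : Set Om := {ω | G (occL n ω) x n}

lemma E_dep (n : ℕ) (x : ℤ × ℤ) : Dep (box x (4 * n)) (E n x) := by
  intro ω ω' h hω
  refine G_mono hω ?_
  rintro z ⟨y, i, h1, h2, h3⟩ hz
  have h4 := (D_ray h3).1
  have h5 := D_tri x z y
  have h6 := D_comm z y
  have h7 : y ∈ box x (4 * n) := by rw [mem_box]; push_cast; omega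
  rw [h y h7] at h1 h2 h3
  exact ⟨y, i, h1, h2, h3⟩

lemma occL_meas (n : ℕ) (z : ℤ × ℤ) : MeasurableSet {ω : Om | z ∈ occL n ω} := by
  have : {ω : Om | z ∈ occL n ω} = ⋃ x, ⋃ i : ℕ, (fun ω : Om => ((ω x).1, (ω x).2 i)) ⁻¹'
      {p | i < p.1 ∧ p.2.1 ≤ n ∧ z ∈ ray x p.2} := by
    ext ω; simp [occL]
  rw [this]
  refine MeasurableSet.iUnion fun x => MeasurableSet.iUnion fun i => ?_
  have hm : Measurable fun ω : Om => ((ω x).1, (ω x).2 i) := by fun_prop
  exact hm (Set.to_countable _).measurableSet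

lemma E_meas (n : ℕ) (x : ℤ × ℤ) : MeasurableSet (E n x) := by
  have : E n x = ⋃ u, ⋃ v, {_ω : Om | D x u ≤ n ∧ 3 * (n : ℤ) ≤ D x v} ∩
      {ω | ReflTransGen (step (occL n ω ∩ {z | D x z ≤ 3 * (n : ℤ)})) u v} := by
    ext ω; simp [E, G, and_assoc]
  rw [this]
  refine MeasurableSet.iUnion fun u => MeasurableSet.iUnion fun v =>
    (MeasurableSet.const _).inter ?_
  refine meas_rtg (fun ω => step (occL n ω ∩ {z | D x z ≤ 3 * (n : ℤ)})) (fun a b => ?_) u v
  exact (MeasurableSet.const _).inter (((occL_meas n a).inter (MeasurableSet.const _)).inter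
    ((occL_meas n b).inter (MeasurableSet.const _)))

lemma E_base (x : ℤ × ℤ) : (law lam ρ).real (E 1 x) ≤ 81 * lam := by
  have h1 : E 1 x ⊆ ⋃ y ∈ box x 4, has Set.univ y := by
    rintro ω ⟨u, v, hu, hv, huv⟩
    have hne : u ≠ v := by rintro rfl; omega
    obtain ⟨⟨y, i, h1, h2, h3⟩, h4⟩ := G_end huv hne
    have h5 := (D_ray h3).1
    have h6 := D_tri x v y
    have h7 := D_comm v y
    simp only [Set.mem_ofPred_eq] at h4
    simp only [Set.mem_iUnion]
    exact ⟨y, by rw [mem_box]; push_cast at *; omega, i, h1, trivial⟩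
  refine (measureReal_mono h1 (measure_ne_top _ _)).trans
    ((has_box_le lam ρ _ _).trans (le_of_eq ?_))
  rw [card_box]; simp

lemma E_step (n : ℕ) (hn : 0 < n) (q : ℝ) (hq : ∀ x, (law lam ρ).real (E n x) ≤ q) (x : ℤ × ℤ) :
    (law lam ρ).real (E (6 * n) x) ≤
      231361 * q ^ 2 + 2401 * lam * ((n : ℝ) ^ 2 * ρ.real {L | n < L}) := by
  classical
  obtain ⟨B, hB, hBc⟩ : ∃ B : Finset ((ℤ × ℤ) × (ℤ × ℤ)),
      (∀ a ∈ box 0 6, ∀ b ∈ box 0 18, (a, b) ∈ B) ∧ B.card ≤ 231361 := by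
    refine ⟨box 0 6 ×ˢ box 0 18, fun a ha b hb => by rw [Finset.mem_product]; exact ⟨ha, hb⟩, ?_⟩
    rw [Finset.card_product, card_box, card_box]
    norm_num
  let T := B.filter fun p : (ℤ × ℤ) × (ℤ × ℤ) =>
    8 * (n : ℤ) < D (x + (n : ℤ) • p.1) (x + (n : ℤ) • p.2)
  have h1 : E (6 * n) x ⊆ (⋃ p ∈ T, E n (x + (n : ℤ) • p.1) ∩ E n (x + (n : ℤ) • p.2)) ∪
      ⋃ y ∈ box x (24 * n), has {L | n < L} y := by
    intro ω hω
    by_cases hb : ω ∈ ⋃ y ∈ box x (24 * n), has {L | n < L} y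
    · exact Or.inr hb
    · left
      have h2 : G (occL n ω) x (6 * n) := by
        refine G_mono hω ?_
        rintro z ⟨y, i, h1, h2, h3⟩ hz
        refine ⟨y, i, h1, ?_, h3⟩
        by_contra h4
        apply hb
        have h5 := (D_ray h3).1
        have h6 := D_tri x z y
        have h7 := D_comm z y
        simp only [Set.mem_iUnion]
        exact ⟨y, by rw [mem_box]; push_cast at *; omega, i, h1, not_le.1 h4⟩
      obtain ⟨a, ha, b, hb, h3, h4, h5⟩ := G_split hn h2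
      simp only [Set.mem_iUnion]
      exact ⟨(a, b), Finset.mem_filter.2 ⟨hB a ha b hb, h3⟩, h4, h5⟩
  have hq0 : 0 ≤ q := measureReal_nonneg.trans (hq 0)
  refine (measureReal_mono h1).trans ((measureReal_union_le _ _).trans (add_le_add ?_ ?_))
  · refine (measureReal_biUnion_finset_le _ _).trans ?_
    have h3 : ∀ p ∈ T, (law lam ρ).real (E n (x + (n : ℤ) • p.1) ∩ E n (x + (n : ℤ) • p.2)) ≤
        q ^ 2 := by
      intro p hp
      have h4 : 8 * (n : ℤ) < D (x + (n : ℤ) • p.1) (x + (n : ℤ) • p.2) := by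
        simp only [T, Finset.mem_filter] at hp
        exact hp.2
      have h5 : Disjoint (box (x + (n : ℤ) • p.1) (4 * n)) (box (x + (n : ℤ) • p.2) (4 * n)) := by
        rw [Finset.disjoint_left]
        intro z h6 h7
        rw [mem_box] at h6 h7
        have h8 := D_tri (x + (n : ℤ) • p.1) z (x + (n : ℤ) • p.2)
        have h9 := D_comm z (x + (n : ℤ) • p.2)
        push_cast at h6 h7
        omega
      have h6 := dep_indep (fun _ => site lam ρ) (E_dep _ _) (E_dep _ _) (E_meas _ _) (E_meas _ _) h5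
      unfold law at hq ⊢
      rw [h6, sq]
      exact mul_le_mul (hq _) (hq _) measureReal_nonneg hq0
    refine (Finset.sum_le_sum h3).trans ?_
    have h4 : T.card ≤ 231361 := (Finset.card_filter_le _ _).trans hBc
    have h5 : (T.card : ℝ) ≤ 231361 := by exact_mod_cast h4
    simp only [Finset.sum_const, nsmul_eq_mul]
    exact mul_le_mul_of_nonneg_right h5 (sq_nonneg q)
  · refine (has_box_le lam ρ _ _).trans ?_
    rw [card_box]
    have h1 : (1 : ℝ) ≤ n := by exact_mod_cast hn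
    have h2 : (((2 * (24 * n) + 1) ^ 2 : ℕ) : ℝ) ≤ 2401 * (n : ℝ) ^ 2 := by
      push_cast; nlinarith
    have h3 : 0 ≤ (lam : ℝ) * ρ.real {L | n < L} := mul_nonneg lam.2 measureReal_nonneg
    nlinarith [mul_le_mul_of_nonneg_right h2 h3]

lemma seq_zero (q d : ℕ → ℝ) (C ε : ℝ) (hC : 0 ≤ C) (hε : C * ε ≤ 1 / 2) (h0 : q 0 ≤ ε)
    (hq : ∀ k, 0 ≤ q k) (hs : ∀ k, q (k + 1) ≤ C * q k ^ 2 + d k) (hd : ∀ k, d k ≤ ε / 2)
    (hd0 : Tendsto d atTop (𝓝 0)) : Tendsto q atTop (𝓝 0) := by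
  have half : ∀ k, q k ≤ ε → q (k + 1) ≤ q k / 2 + d k := by
    intro k hk
    have h1 : C * q k ≤ 1 / 2 := (mul_le_mul_of_nonneg_left hk hC).trans hε
    nlinarith [hs k, mul_le_mul_of_nonneg_right h1 (hq k)]
  have h1 : ∀ k, q k ≤ ε := by
    intro k
    induction k with
    | zero => exact h0
    | succ k ih => linarith [half k ih, hd k]
  rw [Metric.tendsto_atTop]
  intro η hη
  obtain ⟨N, hN⟩ := eventually_atTop.1 (hd0.eventually (gt_mem_nhds (show 0 < η / 4 by linarith)))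
  have h2 : ∀ j, q (N + j) ≤ η / 2 + ε * (1 / 2) ^ j := by
    intro j
    induction j with
    | zero => simp only [add_zero, pow_zero, mul_one]; linarith [h1 N]
    | succ j ih =>
      have := half (N + j) (h1 _)
      have := hN (N + j) (by omega)
      rw [← add_assoc, pow_succ]
      linarith
  have h3 : Tendsto (fun j : ℕ => ε * (1 / 2 : ℝ) ^ j) atTop (𝓝 0) := by
    simpa using (tendsto_pow_atTop_nhds_zero_of_lt_one (r := (1 / 2 : ℝ)) (by norm_num)
      (by norm_num)).const_mul ε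
  obtain ⟨M, hM⟩ := eventually_atTop.1 (h3.eventually (gt_mem_nhds (show 0 < η / 2 by linarith)))
  refine ⟨N + M, fun k hk => ?_⟩
  obtain ⟨j, rfl⟩ : ∃ j, k = N + j := ⟨k - N, by omega⟩
  rw [Real.dist_eq, sub_zero, abs_of_nonneg (hq _)]
  linarith [h2 j, hM j (by omega)]

noncomputable def cross (a b : ℕ) : Finset (ℤ × ℤ) :=
  Finset.Icc (-(a : ℤ)) a ×ˢ Finset.Icc (-(b : ℤ)) b ∪
    Finset.Icc (-(b : ℤ)) b ×ˢ Finset.Icc (-(a : ℤ)) a

lemma card_cross (a b : ℕ) : (cross a b).card ≤ 2 * ((2 * a + 1) * (2 * b + 1)) := by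
  refine (Finset.card_union_le _ _).trans ?_
  simp only [Finset.card_product, Int.card_Icc]
  have h1 : ((a : ℤ) + 1 - -(a : ℤ)).toNat = 2 * a + 1 := by omega
  have h2 : ((b : ℤ) + 1 - -(b : ℤ)).toNat = 2 * b + 1 := by omega
  rw [h1, h2]; nlinarith

lemma G_sub (k : ℕ) : {ω : Om | G (occ ω) 0 (6 ^ k)} ⊆ E (6 ^ k) 0 ∪
    ⋃ j : ℕ, ⋃ y ∈ cross (3 * 6 ^ k) (9 * 6 ^ (k + j)), has {L | 6 ^ (k + j) < L} y := by
  intro ω hω
  by_cases hb : ω ∈ ⋃ j : ℕ, ⋃ y ∈ cross (3 * 6 ^ k) (9 * 6 ^ (k + j)),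
    has {L | 6 ^ (k + j) < L} y
  · exact Or.inr hb
  · left
    refine G_mono hω ?_
    rintro z ⟨y, i, h1, h3⟩ hz
    refine ⟨y, i, h1, ?_, h3⟩
    by_contra h4
    apply hb
    push Not at h4
    have hex : ∃ j, ((ω y).2 i).1 ≤ 6 ^ (k + j + 1) :=
      ⟨((ω y).2 i).1, (Nat.lt_pow_self (by norm_num)).le.trans
        (Nat.pow_le_pow_right (by norm_num) (by omega))⟩
    have h5 := Nat.find_spec hex
    have h6 : 6 ^ (k + Nat.find hex) < ((ω y).2 i).1 := by
      rcases h : Nat.find hex with _ | j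
      · exact h4
      · have := Nat.find_min hex (show j < Nat.find hex by omega)
        rw [← add_assoc]; omega
    generalize Nat.find hex = j at h5 h6
    simp only [Set.mem_iUnion]
    refine ⟨j, y, ?_, i, h1, h6⟩
    obtain ⟨h7, h8⟩ := D_ray h3
    have h9 : 6 ^ k ≤ 6 ^ (k + j) := Nat.pow_le_pow_right (by norm_num) (by omega)
    rw [pow_succ] at h5
    rw [D_le] at h7 hz
    simp only [cross, Finset.mem_union, Finset.mem_product, Finset.mem_Icc, Prod.fst_zero,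
      Prod.snd_zero] at hz ⊢
    generalize 6 ^ k = a at *
    generalize 6 ^ (k + j) = b at *
    push_cast
    omega

lemma long_le (k : ℕ) (η : ℝ)
    (hη : ∀ j, (((6 ^ (k + j) : ℕ) : ℝ)) ^ 2 * ρ.real {L | 6 ^ (k + j) < L} ≤ η) :
    (law lam ρ).real (⋃ j : ℕ, ⋃ y ∈ cross (3 * 6 ^ k) (9 * 6 ^ (k + j)),
      has {L | 6 ^ (k + j) < L} y) ≤ 532 * lam * η := by
  have hη0 : 0 ≤ η := le_trans (by positivity) (hη 0)
  have hc : 0 ≤ 266 * (lam : ℝ) * η := by positivity
  have h1 : ∀ j, (law lam ρ).real (⋃ y ∈ cross (3 * 6 ^ k) (9 * 6 ^ (k + j)),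
      has {L | 6 ^ (k + j) < L} y) ≤ 266 * lam * η * (1 / 2) ^ j := by
    intro j
    refine (has_box_le lam ρ _ _).trans ?_
    have h2 := card_cross (3 * 6 ^ k) (9 * 6 ^ (k + j))
    have h3 : 1 ≤ 6 ^ k := Nat.one_le_pow _ _ (by norm_num)
    have h4 : 1 ≤ 6 ^ (k + j) := Nat.one_le_pow _ _ (by norm_num)
    have h5 : 6 ^ k * 2 ^ j ≤ 6 ^ (k + j) := by
      rw [pow_add]; exact Nat.mul_le_mul_left _ (Nat.pow_le_pow_left (by norm_num) _)
    have h6 : (cross (3 * 6 ^ k) (9 * 6 ^ (k + j))).card * 2 ^ j ≤ 266 * (6 ^ (k + j)) ^ 2 := by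
      generalize (cross (3 * 6 ^ k) (9 * 6 ^ (k + j))).card = c at *
      generalize 6 ^ k = a at *
      generalize 6 ^ (k + j) = b at *
      generalize 2 ^ j = t at *
      have h7 : c ≤ 266 * (a * b) := by
        have : (2 * (3 * a) + 1) * (2 * (9 * b) + 1) ≤ (7 * a) * (19 * b) :=
          Nat.mul_le_mul (by omega) (by omega)
        nlinarith
      calc c * t ≤ 266 * (a * b) * t := Nat.mul_le_mul_right _ h7
        _ = 266 * b * (a * t) := by ring
        _ ≤ 266 * b * b := Nat.mul_le_mul_left _ h5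
        _ = 266 * b ^ 2 := by ring
    have h7 : ((cross (3 * 6 ^ k) (9 * 6 ^ (k + j))).card : ℝ) * 2 ^ j ≤
        266 * (((6 ^ (k + j) : ℕ) : ℝ)) ^ 2 := by exact_mod_cast h6
    have h8 := hη j
    have h9 : 0 ≤ ρ.real {L | 6 ^ (k + j) < L} := measureReal_nonneg
    generalize ρ.real {L | 6 ^ (k + j) < L} = t at *
    generalize ((cross (3 * 6 ^ k) (9 * 6 ^ (k + j))).card : ℝ) = c at *
    generalize (((6 ^ (k + j) : ℕ) : ℝ)) ^ 2 = b at *
    rw [one_div, inv_pow, ← div_eq_mul_inv, le_div_iff₀ (by positivity)]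
    have hl : (0 : ℝ) ≤ lam := lam.2
    calc c * (lam * t) * 2 ^ j = (c * 2 ^ j) * (lam * t) := by ring
      _ ≤ 266 * b * (lam * t) := mul_le_mul_of_nonneg_right h7 (mul_nonneg hl h9)
      _ = 266 * lam * (b * t) := by ring
      _ ≤ 266 * lam * η := mul_le_mul_of_nonneg_left h8 (by positivity)
  have h2 : HasSum (fun j : ℕ => 266 * lam * η * (1 / 2 : ℝ) ^ j) (266 * lam * η * 2) :=
    hasSum_geometric_two.mul_left _
  refine ENNReal.toReal_le_of_le_ofReal (by positivity) ((measure_iUnion_le _).trans ?_)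
  rw [show 532 * (lam : ℝ) * η = 266 * lam * η * 2 by ring, ← h2.tsum_eq,
    ENNReal.ofReal_tsum_of_nonneg (fun j => by positivity) h2.summable]
  refine ENNReal.tsum_le_tsum fun j => ?_
  rw [← ofReal_measureReal (measure_ne_top _ _)]
  exact ENNReal.ofReal_le_ofReal (h1 j)

omit lam in
theorem subcrit (h : Tendsto (fun n : ℕ => (n : ℝ) ^ 2 * ρ.real {L | n < L}) atTop (𝓝 0)) :
    ∃ l0 : ℝ, 0 < l0 ∧ ∀ lam : ℝ≥0, (lam : ℝ) ≤ l0 → law lam ρ {ω | perc (occ ω)} = 0 := by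
  have h6 : Tendsto (fun k : ℕ => 6 ^ k) atTop atTop :=
    tendsto_pow_atTop_atTop_of_one_lt (by norm_num)
  have hδ := h.comp h6
  obtain ⟨B, hB⟩ := hδ.bddAbove_range
  have hB' : ∀ k : ℕ, (((6 ^ k : ℕ) : ℝ)) ^ 2 * ρ.real {L | 6 ^ k < L} ≤ B := fun k =>
    hB ⟨k, rfl⟩
  have hB0 : 0 ≤ B := le_trans (by positivity) (hB' 0)
  refine ⟨1 / (462722 * (81 + 4802 * B)), by positivity, fun lam hlam => ?_⟩
  have hl : (0 : ℝ) ≤ lam := lam.2
  rw [le_div_iff₀ (by positivity)] at hlam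
  let d : ℕ → ℝ := fun k => 2401 * lam * ((((6 ^ k : ℕ) : ℝ)) ^ 2 * ρ.real {L | 6 ^ k < L})
  let q : ℕ → ℝ := fun k => Nat.rec (81 * lam) (fun k p => 231361 * p ^ 2 + d k) k
  have hq0 : ∀ k, 0 ≤ q k := by
    intro k
    cases k with
    | zero => exact mul_nonneg (by norm_num) hl
    | succ k => exact add_nonneg (by positivity) (by positivity)
  have hq : Tendsto q atTop (𝓝 0) := by
    refine seq_zero q d 231361 (1 / 462722) (by norm_num) (by norm_num) ?_ hq0
      (fun k => le_rfl) (fun k => ?_) ?_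
    · change 81 * (lam : ℝ) ≤ _
      nlinarith [mul_nonneg hl hB0]
    · have := mul_le_mul_of_nonneg_left (hB' k) hl
      simp only [d]
      nlinarith
    · have := hδ.const_mul (2401 * (lam : ℝ))
      rw [mul_zero] at this
      exact this
  have hE : ∀ k x, (law lam ρ).real (E (6 ^ k) x) ≤ q k := by
    intro k
    induction k with
    | zero => exact E_base lam ρ
    | succ k ih =>
      intro x
      rw [pow_succ']
      exact E_step lam ρ _ (by positivity) _ ih x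
  have hsub : {ω : Om | perc (occ ω)} ⊆ ⋃ k0 : ℕ, ⋂ k ≥ k0, {ω : Om | G (occ ω) 0 (6 ^ k)} := by
    intro ω hω
    obtain ⟨k0, hk0⟩ := G_of_perc hω
    simp only [Set.mem_iUnion, Set.mem_iInter]
    exact ⟨k0, fun k hk => hk0 _ (hk.trans (Nat.lt_pow_self (by norm_num)).le)⟩
  refine measure_mono_null hsub (measure_iUnion_null fun k0 => ?_)
  rw [← measureReal_eq_zero_iff]
  refine le_antisymm (le_of_forall_pos_le_add fun η hη => ?_) measureReal_nonneg
  have hη' : 0 < η / (1 + 532 * lam) := by positivity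
  obtain ⟨N1, hN1⟩ := eventually_atTop.1 (hq.eventually (gt_mem_nhds hη'))
  obtain ⟨N2, hN2⟩ := eventually_atTop.1 (hδ.eventually (gt_mem_nhds hη'))
  have h1 : (⋂ k ≥ k0, {ω : Om | G (occ ω) 0 (6 ^ k)}) ⊆
      {ω : Om | G (occ ω) 0 (6 ^ (k0 + N1 + N2))} :=
    Set.biInter_subset_of_mem (show k0 + N1 + N2 ≥ k0 by omega)
  refine (measureReal_mono (h1.trans (G_sub _))).trans ((measureReal_union_le _ _).trans ?_)
  have h2 := hE (k0 + N1 + N2) 0
  have h3 := long_le lam ρ (k0 + N1 + N2) _ fun j => (hN2 (k0 + N1 + N2 + j) (by omega)).le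
  have h4 := hN1 (k0 + N1 + N2) (by omega)
  have h5 : η / (1 + 532 * lam) + 532 * lam * (η / (1 + 532 * lam)) = η := by field_simp
  linarith

omit lam in
theorem lamc_pos (h : Tendsto (fun n : ℕ => (n : ℝ) ^ 2 * ρ.real {L | n < L}) atTop (𝓝 0)) :
    0 < lamc ρ := by
  obtain ⟨l0, hl0, h1⟩ := subcrit ρ h
  refine lt_of_lt_of_le (ENNReal.ofReal_pos.2 hl0) ?_
  refine le_iInf fun lam => le_iInf fun _ => le_iInf fun h2 => ?_
  by_contra h3
  push Not at h3
  rw [h1 lam ?_] at h2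
  · exact lt_irrefl _ h2
  · rw [← ENNReal.ofReal_coe_nnreal] at h3
    exact ((ENNReal.ofReal_lt_ofReal_iff hl0).1 h3).le

end Pool.Agent.H43.Ray
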