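import Mathlib

set_option autoImplicit false

namespace Pool.Agent.H43.Rm1

open Finset Filter Topology
open scoped Classical

variable {V : Type} (G : SimpleGraph V) [G.LocallyFinite]

noncomputable def cf (S : V → Prop) (t : ℝ) (x w : V) : ℝ := if S x then (if S w then 1 else t) else 0
noncomputable def pt (S : V → Prop) (x w : V) : V := if S w then w else x

noncomputable def Mr (S : V → Prop) (t : ℝ) : (V → ℝ) →ₗ[ℝ] (V → ℝ) where
  toFun u x := ∑ w ∈ G.neighborFinset x, cf S t x w * u (pt S x w)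
  map_add' u v := by ext x; simp [mul_add, sum_add_distrib]
  map_smul' c u := by ext x; simp [Finset.mul_sum, mul_left_comm]

lemma Mr_apply (S : V → Prop) (t : ℝ) (u : V → ℝ) (x : V) :
    Mr G S t u x = ∑ w ∈ G.neighborFinset x, cf S t x w * u (pt S x w) := rfl

lemma Mr_S {S : V → Prop} (t : ℝ) (u : V → ℝ) {x : V} (hx : S x) :
    Mr G S t u x = ∑ w ∈ G.neighborFinset x, if S w then u w else t * u x := by
  rw [Mr_apply]
  refine sum_congr rfl fun w _ => ?_
  by_cases h : S w <;> simp [cf, pt, hx, h]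

lemma Mr_nS {S : V → Prop} (t : ℝ) (u : V → ℝ) {x : V} (hx : ¬ S x) : Mr G S t u x = 0 := by
  simp [Mr_apply, cf, hx]

lemma cf_nonneg (S : V → Prop) {t : ℝ} (ht : 0 ≤ t) (x w : V) : 0 ≤ cf S t x w := by
  unfold cf; split_ifs <;> simp [ht]

lemma Mr_mono (S : V → Prop) {t : ℝ} (ht : 0 ≤ t) {u v : V → ℝ} (h : ∀ x, u x ≤ v x) (x : V) :
    Mr G S t u x ≤ Mr G S t v x :=
  sum_le_sum fun w _ => mul_le_mul_of_nonneg_left (h _) (cf_nonneg S ht x w)

lemma Mr_nonneg (S : V → Prop) {t : ℝ} (ht : 0 ≤ t) {u : V → ℝ} (h : ∀ x, 0 ≤ u x) (x : V) :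
    0 ≤ Mr G S t u x :=
  sum_nonneg fun w _ => mul_nonneg (cf_nonneg S ht x w) (h _)

lemma Mr_ge {S : V → Prop} {t : ℝ} (ht : 0 ≤ t) {u : V → ℝ} (h : ∀ x, 0 ≤ u x) {x w : V}
    (hx : S x) (hw : S w) (a : G.Adj x w) : u w ≤ Mr G S t u x := by
  have := single_le_sum (f := fun w => cf S t x w * u (pt S x w))
    (fun w _ => mul_nonneg (cf_nonneg S ht x w) (h _)) ((G.mem_neighborFinset x w).2 a)
  have e : cf S t x w * u (pt S x w) = u w := by simp [cf, pt, hx, hw]
  rw [e] at this
  exact this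

noncomputable def dl (y : V) : V → ℝ := fun x => if x = y then 1 else 0

lemma dl_nonneg (y x : V) : 0 ≤ dl y x := by unfold dl; split_ifs <;> simp

lemma Mr_dl (S : V → Prop) (t : ℝ) (x : V) :
    Mr G S t (dl x) = ∑ w ∈ G.neighborFinset x, cf S t x w • dl (pt S x w) := by
  ext z
  rw [Mr_apply, Finset.sum_apply]
  by_cases hz : z = x
  · subst hz
    refine sum_congr rfl fun w _ => ?_
    simp [dl, eq_comm]
  · have e1 : ∀ w ∈ G.neighborFinset z, cf S t z w * dl x (pt S z w) =
        if w = x then (if S z ∧ S x then 1 else 0) else 0 := by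
      intro w _
      by_cases h1 : S w <;> by_cases h2 : w = x <;> by_cases h3 : S z <;> simp_all [cf, pt, dl]
    have e2 : ∀ w ∈ G.neighborFinset x, (cf S t x w • dl (pt S x w)) z =
        if w = z then (if S z ∧ S x then 1 else 0) else 0 := by
      intro w _
      by_cases h1 : S w <;> by_cases h2 : w = z <;> by_cases h3 : S x <;>
        simp_all [cf, pt, dl, eq_comm]
    rw [sum_congr rfl e1, sum_congr rfl e2, sum_ite_eq', sum_ite_eq']
    simp [G.adj_comm]

noncomputable def kk (S : V → Prop) (t : ℝ) (j : ℕ) (y : V) : V → ℝ := (Mr G S t ^ j) (dl y)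

lemma kk_succ (S : V → Prop) (t : ℝ) (j : ℕ) (y : V) :
    kk G S t (j + 1) y = Mr G S t (kk G S t j y) := by
  simp [kk, pow_succ']

lemma kk_symm (S : V → Prop) (t : ℝ) (j : ℕ) : ∀ x y, kk G S t j y x = kk G S t j x y := by
  induction j with
  | zero => intro x y; simp [kk, dl, eq_comm]
  | succ j ih =>
    intro x y
    rw [kk_succ, Mr_apply]
    simp only [ih _ y]
    simp only [kk, pow_succ, Module.End.mul_apply, Mr_dl, map_sum, map_smul, Finset.sum_apply,
      Pi.smul_apply, smul_eq_mul]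

lemma kk_nonneg (S : V → Prop) {t : ℝ} (ht : 0 ≤ t) (j : ℕ) (y : V) : ∀ x, 0 ≤ kk G S t j y x := by
  induction j with
  | zero => intro x; simpa [kk] using dl_nonneg y x
  | succ j ih => intro x; rw [kk_succ]; exact Mr_nonneg G S ht ih x

lemma kk_fin (S : V → Prop) (t : ℝ) (j : ℕ) (y : V) : {x | kk G S t j y x ≠ 0}.Finite := by
  induction j with
  | zero =>
    refine (Set.finite_singleton y).subset fun x hx => ?_
    by_contra h
    simp [kk, dl] at hx h; exact h hx
  | succ j ih =>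
    refine (ih.union (ih.biUnion (t := fun z => G.neighborSet z)
      (fun z _ => Set.toFinite _))).subset fun x hx => ?_
    simp only [Set.mem_ofPred_eq, kk_succ, Mr_apply] at hx
    obtain ⟨w, hw, h⟩ := exists_ne_zero_of_sum_ne_zero hx
    have h2 := right_ne_zero_of_mul h
    unfold pt at h2
    split_ifs at h2
    · exact .inr (Set.mem_biUnion h2 ((G.mem_neighborFinset x w).1 hw).symm)
    · exact .inl h2

noncomputable def Gr (S : V → Prop) (t lam : ℝ) (y x : V) : ℝ := ∑' j, kk G S t j y x / lam ^ (j + 1)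

lemma Gr_symm (S : V → Prop) (t lam : ℝ) (x y : V) : Gr G S t lam y x = Gr G S t lam x y := by
  simp only [Gr, kk_symm G S t _ x y]

lemma Gr_nonneg (S : V → Prop) {t lam : ℝ} (ht : 0 ≤ t) (hl : 0 < lam) (y x : V) :
    0 ≤ Gr G S t lam y x :=
  tsum_nonneg fun j => div_nonneg (kk_nonneg G S ht j y x) (by positivity)

lemma Gr_eq (S : V → Prop) (t : ℝ) {lam : ℝ} (hl : 0 < lam) (y : V)
    (hs : ∀ x, Summable fun j => kk G S t j y x / lam ^ (j + 1)) (x : V) :
    lam * Gr G S t lam y x = dl y x + Mr G S t (Gr G S t lam y) x := by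
  rw [Gr, (hs x).tsum_eq_zero_add, mul_add, ← tsum_mul_left, Mr_apply]
  congr 1
  · simp [kk]; field_simp
  · simp only [Gr, ← tsum_mul_left]
    rw [← Summable.tsum_finsetSum (fun w _ => (hs _).mul_left _)]
    congr 1; ext j
    rw [kk_succ, Mr_apply, sum_div, mul_sum]
    refine sum_congr rfl fun w _ => ?_
    field_simp; ring

lemma Gr_part (S : V → Prop) {t lam : ℝ} (ht : 0 ≤ t) (hl : 0 < lam) (y : V) (v : V → ℝ)
    (h0 : ∀ x, 0 ≤ v x) (hv : ∀ x, dl y x + Mr G S t v x ≤ lam * v x) (n : ℕ) :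
    ∀ x, ∑ j ∈ range n, kk G S t j y x / lam ^ (j + 1) ≤ v x := by
  induction n with
  | zero => simpa using h0
  | succ n ih =>
    intro x
    have h1 := Mr_mono G S ht ih x
    have h2 : lam * ∑ j ∈ range (n + 1), kk G S t j y x / lam ^ (j + 1) =
        dl y x + Mr G S t (fun x => ∑ j ∈ range n, kk G S t j y x / lam ^ (j + 1)) x := by
      rw [sum_range_succ', mul_add, add_comm, Mr_apply]
      congr 1
      · simp [kk]; field_simp
      · simp only [mul_sum]
        rw [sum_comm]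
        refine sum_congr rfl fun j _ => ?_
        rw [kk_succ, Mr_apply, sum_div, mul_sum]
        refine sum_congr rfl fun w _ => ?_
        field_simp; ring
    have := hv x
    exact le_of_mul_le_mul_left (by linarith) hl

lemma Gr_le (S : V → Prop) {t lam : ℝ} (ht : 0 ≤ t) (hl : 0 < lam) (y : V) (v : V → ℝ)
    (h0 : ∀ x, 0 ≤ v x) (hv : ∀ x, dl y x + Mr G S t v x ≤ lam * v x) :
    (∀ x, Gr G S t lam y x ≤ v x) ∧
      ∀ x, lam * Gr G S t lam y x = dl y x + Mr G S t (Gr G S t lam y) x := by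
  have hn : ∀ x j, 0 ≤ kk G S t j y x / lam ^ (j + 1) := fun x j =>
    div_nonneg (kk_nonneg G S ht j y x) (by positivity)
  exact ⟨fun x => Real.tsum_le_of_sum_range_le (hn x) (fun n => Gr_part G S ht hl y v h0 hv n x),
    Gr_eq G S t hl y fun x => summable_of_sum_range_le (hn x) (fun n => Gr_part G S ht hl y v h0 hv n x)⟩

/-- sharp Harnack inequality -/
lemma har (q : ℕ) (hd : ∀ v, (G.neighborFinset v).card = q + 1) (S : V → Prop) {t : ℝ} (ht : 0 < t)
    (hq : q * t ^ 2 ≤ 1) (u : V → ℝ) (h0 : ∀ x, 0 ≤ u x)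
    (hu : ∀ x, Mr G S t u x ≤ (1 / t + q * t) * u x) :
    ∀ a v, S a → S v → G.Adj a v → t * u a ≤ u v := by
  let R : Set ℝ := {r | 0 ≤ r ∧ r ≤ t ∧ ∀ a v, S a → S v → G.Adj a v → r * u a ≤ u v}
  have hR0 : (0 : ℝ) ∈ R := ⟨le_rfl, ht.le, fun a v _ _ _ => by simpa using h0 v⟩
  have hb : BddAbove R := ⟨t, fun r hr => hr.2.1⟩
  set r := sSup R with hr
  have r0 : 0 ≤ r := le_csSup hb hR0
  have rt : r ≤ t := csSup_le ⟨0, hR0⟩ fun r hr => hr.2.1
  have rR : ∀ a v, S a → S v → G.Adj a v → r * u a ≤ u v := by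
    intro a v ha hv h
    rcases (h0 a).eq_or_lt with e | e
    · rw [← e]; simpa using h0 v
    · rw [← le_div_iff₀ e]
      exact csSup_le ⟨0, hR0⟩ fun s hs => (le_div_iff₀ e).2 (hs.2.2 a v ha hv h)
  rcases rt.eq_or_lt with e | e
  · rw [← e]; exact rR
  exfalso
  have hp : 0 < 1 / t + q * t - q * r := by
    have : 0 < 1 / t := by positivity
    have : (0 : ℝ) ≤ q * (t - r) := mul_nonneg (by positivity) (by linarith)
    linarith
  have key : ∀ a v, S a → S v → G.Adj a v → u a ≤ (1 / t + q * t - q * r) * u v := by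
    intro a v ha hv h
    have h1 := hu v
    have ma : a ∈ G.neighborFinset v := (G.mem_neighborFinset v a).2 h.symm
    rw [Mr_S G t u hv, ← add_sum_erase _ _ ma, if_pos ha] at h1
    have h2 : ((G.neighborFinset v).erase a).card • (r * u v) ≤
        ∑ w ∈ (G.neighborFinset v).erase a, if S w then u w else t * u v := by
      apply card_nsmul_le_sum
      intro w hw
      split_ifs with h3
      · exact rR v w hv h3 ((G.mem_neighborFinset v w).1 (mem_of_mem_erase hw))
      · exact mul_le_mul_of_nonneg_right rt (h0 v)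
    rw [card_erase_of_mem ma, hd, Nat.add_sub_cancel, nsmul_eq_mul] at h2
    linarith
  have hm : min (1 / (1 / t + q * t - q * r)) t ∈ R := by
    refine ⟨le_min (by positivity) ht.le, min_le_right _ _, fun a v ha hv h => ?_⟩
    refine (mul_le_mul_of_nonneg_right (min_le_left _ _) (h0 a)).trans ?_
    rw [one_div, inv_mul_le_iff₀ hp]
    exact key a v ha hv h
  have := le_csSup hb hm
  rw [← hr, min_le_iff] at this
  rcases this with h | h
  · rw [div_le_iff₀ hp] at h
    have h3 : t * (r * (1 / t + q * t - q * r)) = r + q * t * r * (t - r) := by field_simp; ring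
    have h4 : (q : ℝ) * t * r < 1 := by
      rcases (show (0 : ℝ) ≤ q by positivity).eq_or_lt with h5 | h5
      · rw [← h5]; simp
      · nlinarith [mul_pos h5 ht]
    nlinarith
  · linarith

lemma edge (q : ℕ) (hd : ∀ v, (G.neighborFinset v).card = q + 1) (S : V → Prop) {t : ℝ} (ht : 0 < t)
    (u : V → ℝ) {a v : V} (ha : S a) (hv : S v) (h : G.Adj a v) :
    t * ∑ w ∈ (G.neighborFinset v).erase a, (if S w then u w - t * u v else 0) =
      u v - t * u a - t * ((1 / t + q * t) * u v - Mr G S t u v) := by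
  have ma : a ∈ G.neighborFinset v := (G.mem_neighborFinset v a).2 h.symm
  have e : ∀ w ∈ (G.neighborFinset v).erase a, (if S w then u w - t * u v else 0) =
      (if S w then u w else t * u v) - t * u v := by
    intro w _; split_ifs <;> simp
  rw [sum_congr rfl e, sum_sub_distrib, Mr_S G t u hv, ← add_sum_erase _ _ ma, if_pos ha, sum_const,
    card_erase_of_mem ma, hd, Nat.add_sub_cancel, nsmul_eq_mul]
  field_simp; ring

lemma ulim {I : Type} (f : ℕ → I → ℝ) (hb : ∀ x, ∃ K, ∀ n, |f n x| ≤ K) :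
    ∃ F : I → ℝ, ∀ x, Tendsto (fun n => f n x) (hyperfilter ℕ) (𝓝 (F x)) := by
  have : ∀ x, ∃ a, Tendsto (fun n => f n x) (hyperfilter ℕ) (𝓝 a) := by
    intro x
    obtain ⟨K, hK⟩ := hb x
    obtain ⟨a, -, ha⟩ := (isCompact_Icc (a := -K) (b := K)).ultrafilter_le_nhds
      ((hyperfilter ℕ).map fun n => f n x) (by
        rw [Ultrafilter.coe_map, le_principal_iff, Filter.mem_map]
        exact univ_mem' fun n => abs_le.1 (hK n))
    exact ⟨a, ha⟩
  choose F hF using this
  exact ⟨F, hF⟩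

lemma hyp_le : (hyperfilter ℕ : Filter ℕ) ≤ atTop := by
  rw [← Nat.cofinite_eq_atTop]; exact hyperfilter_le_cofinite

end Pool.Agent.H43.Rm1
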