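import Pool.Agent.H43.Rm1

set_option autoImplicit false

namespace Pool.Agent.H43.Rm2

open Finset Filter Topology Pool.Agent.H43.Rm1
open scoped Classical

variable {V : Type} (G : SimpleGraph V) [G.LocallyFinite]

def U : V → Prop := fun _ => True

lemma Mr_U (t : ℝ) (u : V → ℝ) (x : V) : Mr G U t u x = ∑ w ∈ G.neighborFinset x, u w := by
  rw [Mr_S G t u (show U x from trivial)]; simp [U]

lemma kk_card (o : V) (n : ℕ) : ∀ x, kk G U 0 n o x = (G.finsetWalkLength n x o).card := by
  induction n with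
  | zero => intro x; obtain rfl | h := eq_or_ne x o <;> simp [SimpleGraph.finsetWalkLength, kk, dl, *]
  | succ n ih =>
    intro x
    rw [kk_succ, Mr_U]
    simp only [SimpleGraph.finsetWalkLength, ih]
    rw [Finset.card_biUnion]
    · norm_cast
      simp only [card_map, SimpleGraph.neighborFinset_def]
      exact Finset.sum_subtype _ (fun _ => Set.mem_toFinset) _
    · rintro ⟨x, hx⟩ - ⟨y, hy⟩ - hxy
      rw [Function.onFun, disjoint_iff_inf_le]
      intro p hp
      simp only [inf_eq_inter, mem_inter, Finset.mem_map] at hp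
      obtain ⟨⟨px, _, rfl⟩, ⟨py, hpy, hp⟩⟩ := hp
      cases hp
      simp at hxy

lemma kk_le (φ : V → ℝ) (lam : ℝ) (hl : 0 ≤ lam) (h0 : ∀ x, 0 ≤ φ x)
    (hφ : ∀ x, ∑ w ∈ G.neighborFinset x, φ w ≤ lam * φ x) (z : V) (n : ℕ) :
    ∀ x, kk G U 0 n z x * φ z ≤ lam ^ n * φ x := by
  induction n with
  | zero =>
    intro x
    by_cases h : x = z
    · simp [kk, dl, h]
    · simp [kk, dl, h, h0]
  | succ n ih =>
    intro x
    rw [kk_succ, Mr_U, sum_mul, pow_succ, mul_assoc]
    refine (sum_le_sum fun w _ => ih w).trans ?_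
    rw [← mul_sum]
    exact mul_le_mul_of_nonneg_left (hφ x) (by positivity)

lemma summ (d : ℕ) (hd0 : 0 < d) (hd : ∀ v, (G.neighborFinset v).card = d) (o : V) (lam : ℝ)
    (hl : 0 ≤ lam)
    (h : Filter.limsup (fun n : ℕ =>
      ((Nat.card {p : G.Walk o o // p.length = n} : ℝ) / (d : ℝ) ^ n) ^ ((1 : ℝ) / (n : ℝ)))
      Filter.atTop = lam / d) (s : ℝ) (hs : lam < s) :
    Summable fun j => kk G U 0 j o o / s ^ (j + 1) := by
  have e : ∀ n, (Nat.card {p : G.Walk o o // p.length = n} : ℝ) = kk G U 0 n o o := by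
    intro n
    rw [kk_card, ← SimpleGraph.card_set_walk_length_eq, Nat.card_eq_fintype_card]
    rfl
  simp only [e] at h
  have d0 : (0 : ℝ) < d := by exact_mod_cast hd0
  have k0 := fun n => kk_nonneg G U le_rfl n o o
  have k1 : ∀ n, kk G U 0 n o o ≤ d ^ n := fun n => by
    simpa using kk_le G (fun _ => 1) d d0.le (by simp) (by simp [hd]) o n o
  set s' := (lam + s) / 2 with hs'
  have s0 : 0 < s := by linarith
  have s1 : 0 < s' := by linarith
  have hev := Filter.eventually_lt_of_limsup_lt (b := s' / d) (h.trans_lt (by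
    apply div_lt_div_of_pos_right _ d0; linarith)) (by
      refine ⟨1, Filter.eventually_map.2 (Eventually.of_forall fun n => ?_)⟩
      exact Real.rpow_le_one (div_nonneg (k0 n) (by positivity))
        ((div_le_one (by positivity)).2 (k1 n)) (by positivity))
  have hg : Summable fun j : ℕ => (s' / s) ^ j / s :=
    (summable_geometric_of_lt_one (by positivity) ((div_lt_one s0).2 (by linarith))).div_const s
  refine hg.of_norm_bounded_eventually_nat ?_
  filter_upwards [hev, eventually_ge_atTop 1] with n h1 h2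
  have h3 := pow_le_pow_left₀ (Real.rpow_nonneg (div_nonneg (k0 n) (by positivity)) _) h1.le n
  rw [one_div, Real.rpow_inv_natCast_pow (div_nonneg (k0 n) (by positivity)) (by omega), div_pow,
    div_le_div_iff_of_pos_right (by positivity)] at h3
  rw [Real.norm_of_nonneg (div_nonneg (k0 n) (by positivity)), div_pow, div_div, ← pow_succ]
  exact div_le_div_of_nonneg_right h3 (by positivity)

lemma exphi (hc : G.Connected) (o : V) (lam : ℝ) (hl : 0 < lam)
    (hs : ∀ s, lam < s → Summable fun j => kk G U 0 j o o / s ^ (j + 1)) :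
    ∃ φ : V → ℝ, (∀ x, 0 < φ x) ∧ ∀ x, ∑ w ∈ G.neighborFinset x, φ w ≤ lam * φ x := by
  have rt : ∀ x, Relation.ReflTransGen G.Adj o x := fun x =>
    (G.reachable_iff_reflTransGen o x).1 (hc.preconnected o x)
  have hs2 : ∀ s, lam < s → ∀ x, Summable fun j => kk G U 0 j o x / s ^ (j + 1) := by
    intro s h x
    have s0 : 0 < s := by linarith
    induction rt x with
    | refl => exact hs s h
    | tail _ a ih =>
      rename_i b c _
      refine Summable.of_nonneg_of_le (fun j => div_nonneg (kk_nonneg G U le_rfl j o c) (by positivity))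
        (fun j => ?_) (((summable_nat_add_iff 1).2 ih).mul_left s)
      have := Mr_ge G (S := U) le_rfl (kk_nonneg G U le_rfl j o) trivial trivial a
      rw [← kk_succ] at this
      rw [pow_succ s (j + 1), ← div_div, mul_div_cancel₀ _ s0.ne']
      exact div_le_div_of_nonneg_right this (by positivity)
  let s : ℕ → ℝ := fun n => lam + 1 / ((n : ℝ) + 1)
  have s1 : ∀ n, lam < s n := fun n => by
    have : 0 < 1 / ((n : ℝ) + 1) := by positivity
    simp only [s]; linarith
  have s2 : ∀ n, s n ≤ lam + 1 := fun n => by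
    have : 1 / ((n : ℝ) + 1) ≤ 1 := by
      rw [div_le_one (by positivity)]; linarith [Nat.cast_nonneg (α := ℝ) n]
    simp only [s]; linarith
  have s0 : ∀ n, 0 < s n := fun n => hl.trans (s1 n)
  let g : ℕ → V → ℝ := fun n => Gr G U 0 (s n) o
  have g0 : ∀ n x, 0 ≤ g n x := fun n x => Gr_nonneg G U le_rfl (s0 n) o x
  have ge : ∀ n x, s n * g n x = dl o x + ∑ w ∈ G.neighborFinset x, g n w := fun n x => by
    rw [← Mr_U G 0]; exact Gr_eq G U 0 (s0 n) o (hs2 _ (s1 n)) x
  have go : ∀ n, 0 < g n o := fun n => by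
    have h1 := ge n o
    have h2 : 0 ≤ ∑ w ∈ G.neighborFinset o, g n w := sum_nonneg fun w _ => g0 n w
    simp only [dl, if_true] at h1
    exact pos_of_mul_pos_left (b := s n) (by linarith) (s0 n).le |> fun h => by
      by_contra h3
      have : g n o = 0 := le_antisymm (not_lt.1 h3) (g0 n o)
      rw [this] at h1; linarith
  let f : ℕ → V → ℝ := fun n x => g n x / g n o
  have f0 : ∀ n x, 0 ≤ f n x := fun n x => div_nonneg (g0 n x) (go n).le
  have fe : ∀ n x, ∑ w ∈ G.neighborFinset x, f n w ≤ s n * f n x := fun n x => by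
    simp only [f, ← sum_div, ← mul_div_assoc]
    apply div_le_div_of_nonneg_right _ (go n).le
    linarith [ge n x, dl_nonneg o x]
  have fa : ∀ n x w, G.Adj x w → f n w ≤ (lam + 1) * f n x := fun n x w a => by
    have h1 := single_le_sum (f := f n) (fun w _ => f0 n w) ((G.mem_neighborFinset x w).2 a)
    nlinarith [fe n x, s2 n, f0 n x]
  have fb : ∀ x, ∃ K, 0 < K ∧ ∀ n, 1 ≤ K * f n x ∧ f n x ≤ K := by
    intro x
    induction rt x with
    | refl => exact ⟨1, one_pos, fun n => by simp [f, (go n).ne']⟩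
    | tail _ a ih =>
      rename_i b c _
      obtain ⟨K, K0, hK⟩ := ih
      refine ⟨(lam + 1) * K, by positivity, fun n => ⟨?_, ?_⟩⟩
      · nlinarith [fa n c b a.symm, (hK n).1]
      · nlinarith [fa n b c a, (hK n).2]
  obtain ⟨F, hF⟩ := ulim f (fun x => by
    obtain ⟨K, -, hK⟩ := fb x
    exact ⟨K, fun n => by rw [abs_of_nonneg (f0 n x)]; exact (hK n).2⟩)
  refine ⟨F, fun x => ?_, fun x => ?_⟩
  · obtain ⟨K, K0, hK⟩ := fb x
    have := ge_of_tendsto' ((hF x).const_mul K) fun n => (hK n).1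
    by_contra h
    nlinarith
  · have hs : Tendsto s (hyperfilter ℕ) (𝓝 lam) := by
      have := (tendsto_one_div_add_atTop_nhds_zero_nat (𝕜 := ℝ)).const_add lam
      rw [add_zero] at this
      exact this.mono_left hyp_le
    exact le_of_tendsto_of_tendsto' (tendsto_finsetSum _ fun w _ => hF w) (hs.mul (hF x))
      fun n => fe n x

lemma kk_le2 (φ : V → ℝ) (lam : ℝ) (hl : 0 ≤ lam) (h0 : ∀ x, 0 < φ x)
    (hφ : ∀ x, ∑ w ∈ G.neighborFinset x, φ w ≤ lam * φ x) (z x : V) (n : ℕ) :
    kk G U 0 n z x ≤ lam ^ n := by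
  have h1 := kk_le G φ lam hl (fun x => (h0 x).le) hφ z n x
  have h2 := kk_le G φ lam hl (fun x => (h0 x).le) hφ x n z
  rw [kk_symm] at h2
  by_contra h
  push Not at h
  have p : 0 ≤ lam ^ n := by positivity
  rcases le_total (φ x) (φ z) with h3 | h3
  · nlinarith [h0 z, h0 x]
  · nlinarith [h0 z, h0 x]

/-- the Green function of simple random walk is small somewhere on every infinite set -/
lemma exeta (φ : V → ℝ) (lam D : ℝ) (hl : 0 ≤ lam) (hD : lam < D) (h0 : ∀ x, 0 < φ x)
    (hφ : ∀ x, ∑ w ∈ G.neighborFinset x, φ w ≤ lam * φ x) (o : V) :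
    ∃ η : V → ℝ, (∀ x, 0 ≤ η x) ∧ (∀ x, D * η x = dl o x + ∑ w ∈ G.neighborFinset x, η w) ∧
      ∀ C : Set V, C.Infinite → ∀ ε > 0, ∃ x ∈ C, η x < ε := by
  have D0 : 0 < D := by linarith
  have hg : Summable fun j : ℕ => (lam / D) ^ j / D :=
    (summable_geometric_of_lt_one (by positivity) ((div_lt_one D0).2 hD)).div_const D
  have hn : ∀ x j, 0 ≤ kk G U 0 j o x / D ^ (j + 1) := fun x j =>
    div_nonneg (kk_nonneg G U le_rfl j o x) (by positivity)
  have hb : ∀ x j, kk G U 0 j o x / D ^ (j + 1) ≤ (lam / D) ^ j / D := fun x j => by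
    rw [div_pow, div_div, ← pow_succ]
    exact div_le_div_of_nonneg_right (kk_le2 G φ lam hl h0 hφ o x j) (by positivity)
  have hs : ∀ x, Summable fun j => kk G U 0 j o x / D ^ (j + 1) := fun x =>
    Summable.of_nonneg_of_le (hn x) (hb x) hg
  refine ⟨Gr G U 0 D o, Gr_nonneg G U le_rfl D0 o, fun x => by
    rw [← Mr_U G 0]; exact Gr_eq G U 0 D0 o hs x, fun C hC ε hε => ?_⟩
  obtain ⟨N, hN⟩ := ((tendsto_sum_nat_add fun j : ℕ => (lam / D) ^ j / D).eventually
    (gt_mem_nhds hε)).exists
  have hf : (⋃ j ∈ (range N : Set ℕ), {x | kk G U 0 j o x ≠ 0}).Finite :=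
    (range N).finite_toSet.biUnion fun j _ => kk_fin G U 0 j o
  obtain ⟨x, hx, hx2⟩ := (hC.sdiff hf).nonempty
  refine ⟨x, hx, lt_of_le_of_lt ?_ hN⟩
  rw [Gr, ← (hs x).sum_add_tsum_nat_add N, sum_eq_zero, zero_add]
  · exact ((summable_nat_add_iff N).2 (hs x)).tsum_le_tsum (fun j => hb x _)
      ((summable_nat_add_iff N).2 hg)
  · intro j hj
    have : kk G U 0 j o x = 0 := by
      by_contra h
      exact hx2 (Set.mem_biUnion (Finset.mem_coe.2 hj) h)
    simp [this]

end Pool.Agent.H43.Rm2
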