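import Pool.Agent.H43.Rm2

set_option autoImplicit false

namespace Pool.Agent.H43.Rm3

open Finset Filter Topology Pool.Agent.H43.Rm1 Pool.Agent.H43.Rm2
open scoped Classical

variable {V : Type} (G : SimpleGraph V) [G.LocallyFinite]

def So (o : V) : V → Prop := fun v => v ≠ o

def Sup (o : V) (t lam : ℝ) (y : V) (u : V → ℝ) : Prop :=
  (∀ x, 0 ≤ u x) ∧ ∀ x, dl y x + Mr G (So o) t u x ≤ lam * u x

def Str (o : V) (t lam : ℝ) (v : V) : Prop := v ≠ o ∧ ∃ u, Sup G o t lam v u

lemma str_adj {o : V} {t lam : ℝ} (ht : 0 ≤ t) {v w : V} (h : Str G o t lam v) (a : G.Adj w v)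
    (hw : w ≠ o) : Str G o t lam w := by
  obtain ⟨hv, u, h0, hu⟩ := h
  refine ⟨hw, Mr G (So o) t u, Mr_nonneg G _ ht h0, fun x => ?_⟩
  have h1 := Mr_mono G (So o) ht (u := dl v + Mr G (So o) t u) (v := lam • u) hu x
  rw [map_add, map_smul] at h1
  simp only [Pi.add_apply, Pi.smul_apply, smul_eq_mul] at h1
  have h2 : dl w x ≤ Mr G (So o) t (dl v) x := by
    by_cases e : x = w
    · subst e
      have := Mr_ge G (S := So o) ht (dl_nonneg v) hw hv a
      simpa [dl] using this
    · simpa [dl, e] using Mr_nonneg G (So o) ht (dl_nonneg v) x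
  linarith

variable (q : ℕ) (hd : ∀ v, (G.neighborFinset v).card = q + 1) {t : ℝ} (ht : 0 < t)
  (hq : q * t ^ 2 = 1) (φ : V → ℝ) (h0 : ∀ x, 0 < φ x)
  (hφ : ∀ x, ∑ w ∈ G.neighborFinset x, φ w ≤ (1 / t + q * t) * φ x)

include hd ht hq h0 hφ

lemma harφ {a v : V} (h : G.Adj a v) : t * φ a ≤ φ v :=
  har G q hd U ht hq.le φ (fun x => (h0 x).le) (fun x => by rw [Mr_U]; exact hφ x) a v trivial trivial h

lemma str_base {o b : V} (a : G.Adj b o) (h : t * φ b < φ o) : Str G o t (1 / t + q * t) b := by
  have k0 : 0 < φ o - t * φ b := by linarith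
  refine ⟨a.ne, (1 / (φ o - t * φ b)) • φ, fun x => ?_, fun x => ?_⟩
  · exact mul_nonneg (by positivity) (h0 x).le
  rw [map_smul]
  simp only [Pi.smul_apply, smul_eq_mul]
  have key : (φ o - t * φ b) * dl b x + Mr G (So o) t φ x ≤ (1 / t + q * t) * φ x := by
    by_cases hx : x = o
    · subst hx
      rw [Mr_nS G t φ (by simp [So])]
      simp only [dl, if_neg a.ne']
      have := h0 x
      simp only [mul_zero, add_zero]; positivity
    · rw [Mr_S G t φ (show So o x from hx)]
      refine le_trans ?_ (hφ x)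
      have e : (φ o - t * φ b) * dl b x ≤ ∑ w ∈ G.neighborFinset x, if w = o then φ o - t * φ x else 0 := by
        rw [sum_ite_eq']
        by_cases e : x = b
        · subst e; simp [dl, a]
        · simp only [dl, if_neg e, mul_zero]
          split_ifs with h2
          · linarith [harφ G q hd ht hq φ h0 hφ ((G.mem_neighborFinset x o).1 h2)]
          · exact le_rfl
      refine (add_le_add_left e _).trans (le_of_eq ?_)
      rw [← sum_add_distrib]
      refine sum_congr rfl fun w _ => ?_
      by_cases e : w = o <;> simp [So, e]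
  have := mul_le_mul_of_nonneg_left key (show 0 ≤ 1 / (φ o - t * φ b) by positivity)
  rw [mul_add, ← mul_assoc, one_div_mul_cancel k0.ne', one_mul] at this
  linarith

lemma desc {a v w : V} (h : G.Adj a v) (e : φ v = t * φ a) (hw : w ∈ (G.neighborFinset v).erase a) :
    φ w = t * φ v := by
  have h1 := edge G q hd U ht φ (a := a) (v := v) trivial trivial h
  rw [Mr_U] at h1
  simp only [U, if_true] at h1
  have hn : ∀ w ∈ (G.neighborFinset v).erase a, 0 ≤ φ w - t * φ v := fun w hw => by
    linarith [harφ G q hd ht hq φ h0 hφ ((G.mem_neighborFinset v w).1 (mem_of_mem_erase hw))]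
  have h2 : ∑ w ∈ (G.neighborFinset v).erase a, (φ w - t * φ v) ≤ 0 := by
    have := hφ v
    by_contra h3
    nlinarith [mul_pos ht (not_le.1 h3), mul_nonneg ht.le (sub_nonneg.2 this)]
  linarith [(sum_eq_zero_iff_of_nonneg hn).1 (le_antisymm h2 (sum_nonneg hn)) w hw]

lemma str_inf [Infinite V] (hc : G.Connected) (q2 : 2 ≤ q) (o : V) :
    {v | Str G o t (1 / t + q * t) v}.Infinite := by
  have t1 : t < 1 := by
    have : (2 : ℝ) ≤ q := by exact_mod_cast q2
    nlinarith
  by_cases h : ∀ b, G.Adj b o → t * φ b < φ o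
  · have : ∀ v, v = o ∨ Str G o t (1 / t + q * t) v := by
      intro v
      induction (G.reachable_iff_reflTransGen o v).1 (hc.preconnected o v) with
      | refl => exact .inl rfl
      | tail _ a ih =>
        rename_i b c _
        by_cases e : c = o
        · exact .inl e
        rcases ih with rfl | ih
        · exact .inr (str_base G q hd ht hq φ h0 hφ a.symm (h c a.symm))
        · exact .inr (str_adj G ht.le ih a.symm e)
    intro hf
    exact Set.infinite_univ ((hf.insert o).subset fun v _ => this v)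
  · push Not at h
    obtain ⟨b, hb, h⟩ := h
    have e0 : φ o = t * φ b := le_antisymm h (harφ G q hd ht hq φ h0 hφ hb)
    have nxt : ∀ a v, G.Adj a v → ∃ w, w ∈ (G.neighborFinset v).erase a := fun a v h => by
      apply Finset.card_pos.1
      rw [card_erase_of_mem ((G.mem_neighborFinset v a).2 h.symm), hd]; omega
    have key : ∀ k : ℕ, ∃ v, (∃ a, G.Adj a v ∧ φ v = t * φ a) ∧ Str G o t (1 / t + q * t) v ∧
        φ v = t ^ (k + 1) * φ o := by
      intro k
      induction k with
      | zero =>
        obtain ⟨w, hw⟩ := nxt b o hb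
        have e := desc G q hd ht hq φ h0 hφ hb e0 hw
        have a := (G.mem_neighborFinset o w).1 (mem_of_mem_erase hw)
        refine ⟨w, ⟨o, a, e⟩, str_base G q hd ht hq φ h0 hφ a.symm ?_, by simpa using e⟩
        rw [e]; nlinarith [h0 o, mul_pos ht (h0 o)]
      | succ k ih =>
        obtain ⟨v, ⟨a, ha, e1⟩, hs, e2⟩ := ih
        obtain ⟨w, hw⟩ := nxt a v ha
        have e := desc G q hd ht hq φ h0 hφ ha e1 hw
        have a := (G.mem_neighborFinset v w).1 (mem_of_mem_erase hw)
        have e3 : φ w = t ^ (k + 1 + 1) * φ o := by rw [e, e2]; ring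
        refine ⟨w, ⟨v, a, e⟩, str_adj G ht.le hs a.symm ?_, e3⟩
        rintro rfl
        have := pow_lt_one₀ ht.le t1 (n := k + 1 + 1) (by omega)
        nlinarith [h0 w]
    choose v _ hv e using key
    refine Set.infinite_of_injective_forall_mem (f := v) (fun i j hij => ?_) hv
    have := e i
    rw [hij, e j] at this
    have := mul_right_cancel₀ (h0 o).ne' this
    have := pow_right_injective₀ ht t1.ne this
    omega

omit hq h0 hφ in
lemma pick (o : V) (lam : ℝ) (l0 : 0 < lam) (hl : lam ≤ q + 1) (η : V → ℝ) (η0 : ∀ x, 0 ≤ η x)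
    (hη : ∀ x, (q + 1) * η x = dl o x + ∑ w ∈ G.neighborFinset x, η w) (ε c : ℝ) (hε : 0 < ε)
    (hc : 0 < c) (ho : ε ≤ η o) (y : V) (hy : Str G o t lam y) (hy2 : η y < ε) :
    ∃ x, Str G o t lam x ∧ η x < ε ∧ Gr G (So o) t lam y x < c := by
  by_contra hn
  push Not at hn
  obtain ⟨u, u0, hu⟩ := hy.2
  have ge := (Gr_le G (So o) ht.le l0 y u u0 hu).2
  let h : V → ℝ := fun x => if Str G o t lam x then max (ε - η x) 0 else 0
  have h0 : ∀ x, 0 ≤ h x := fun x => by
    simp only [h]; split_ifs <;> simp
  have hs : ∀ x, lam * h x ≤ Mr G (So o) t h x := by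
    intro x
    have p := Mr_nonneg G (So o) ht.le h0 x
    by_cases hx : Str G o t lam x
    · have h1 : ∑ w ∈ G.neighborFinset x, (ε - η w) ≤ Mr G (So o) t h x := by
        rw [Mr_S G t h (show So o x from hx.1)]
        refine sum_le_sum fun w hw => ?_
        split_ifs with h2
        · simp only [h, if_pos (str_adj G ht.le hx ((G.mem_neighborFinset x w).1 hw).symm h2)]
          exact le_max_left _ _
        · have : w = o := by simpa [So] using h2
          subst this
          nlinarith [mul_nonneg ht.le (h0 x)]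
      rw [sum_sub_distrib, sum_const, hd, nsmul_eq_mul] at h1
      have h2 := hη x
      simp only [dl, if_neg hx.1] at h2
      simp only [h, if_pos hx] at p h1 ⊢
      push_cast at h1
      rcases le_total (ε - η x) 0 with h3 | h3
      · rw [max_eq_right h3]; simpa using p
      · rw [max_eq_left h3]; nlinarith
    · simp only [h, if_neg hx] at p ⊢; simpa using p
  have := (Gr_le G (So o) ht.le l0 y (Gr G (So o) t lam y - (c / ε) • h) (fun x => by
      simp only [Pi.sub_apply, Pi.smul_apply, smul_eq_mul, h]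
      have p := Gr_nonneg G (So o) ht.le l0 y x
      split_ifs with hx
      · rcases le_total (ε - η x) 0 with h3 | h3
        · rw [max_eq_right h3]; simpa using p
        · rw [max_eq_left h3]
          rcases h3.eq_or_lt with h4 | h4
          · rw [← h4]; simpa using p
          · have := hn x hx (by linarith)
            have h5 : c / ε * (ε - η x) ≤ c := by
              rw [div_mul_eq_mul_div, div_le_iff₀ hε]; nlinarith [η0 x]
            linarith
      · simpa using p) (fun x => by
      rw [map_sub, map_smul]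
      simp only [Pi.sub_apply, Pi.smul_apply, smul_eq_mul]
      have := mul_le_mul_of_nonneg_left (hs x) (show 0 ≤ c / ε by positivity)
      linarith [ge x])).1 y
  simp only [Pi.sub_apply, Pi.smul_apply, smul_eq_mul, h, if_pos hy] at this
  rw [max_eq_left (by linarith)] at this
  nlinarith [mul_pos (div_pos hc hε) (sub_pos.2 hy2)]

end Pool.Agent.H43.Rm3
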