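import Pool.Agent.H43.Rm3

set_option autoImplicit false

namespace Pool.Agent.H43.Rm4

open Finset Filter Topology Pool.Agent.H43.Rm1 Pool.Agent.H43.Rm2 Pool.Agent.H43.Rm3
open scoped Classical

variable {V : Type} (G : SimpleGraph V) [G.LocallyFinite]

def Rch (o y : V) : ℕ → V → V → Prop
  | 0, _, v => v = y
  | m + 1, a, v => v = y ∨ ∃ w, G.Adj v w ∧ w ≠ a ∧ w ≠ o ∧ Rch o y m v w

omit [G.LocallyFinite] in
lemma rch_succ (o y : V) (m : ℕ) : ∀ a v, Rch G o y m a v → Rch G o y (m + 1) a v := by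
  induction m with
  | zero => intro a v h; exact .inl h
  | succ m ih =>
    rintro a v (h | ⟨w, h1, h2, h3, h4⟩)
    · exact .inl h
    · exact .inr ⟨w, h1, h2, h3, ih _ _ h4⟩

omit [G.LocallyFinite] in
lemma rch_mono (o y : V) {m n : ℕ} (h : m ≤ n) {a v : V} (r : Rch G o y m a v) : Rch G o y n a v := by
  induction h with
  | refl => exact r
  | step _ ih => exact rch_succ G o y _ _ _ ih

noncomputable def Tk (q : ℕ) (g : V → V → ℝ) : ℕ → V → V → ℝ
  | 0, a, v => g a v
  | k + 1, a, v => (∑ w ∈ (G.neighborFinset v).erase a, Tk q g k v w) / q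

variable (q : ℕ) (hd : ∀ v, (G.neighborFinset v).card = q + 1) (q2 : 2 ≤ q)
include hd q2

lemma Tk_one (g : V → V → ℝ) (k : ℕ) : ∀ a v, G.Adj a v →
    Tk G q (fun a v => 1 - g a v) k a v = 1 - Tk G q g k a v := by
  have q0 : (q : ℝ) ≠ 0 := by positivity
  induction k with
  | zero => intro a v _; rfl
  | succ k ih =>
    intro a v h
    simp only [Tk]
    rw [sum_congr rfl fun w hw => ih v w ((G.mem_neighborFinset v w).1 (mem_of_mem_erase hw)),
      sum_sub_distrib, sum_const, card_erase_of_mem ((G.mem_neighborFinset v a).2 h.symm), hd]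
    simp only [Nat.add_sub_cancel, nsmul_eq_mul]
    field_simp

omit hd q2 in
lemma Tk_nonneg (g : V → V → ℝ) (g0 : ∀ a v, 0 ≤ g a v) (k : ℕ) : ∀ a v, 0 ≤ Tk G q g k a v := by
  induction k with
  | zero => exact g0
  | succ k ih => intro a v; exact div_nonneg (sum_nonneg fun w _ => ih v w) (by positivity)

lemma Tk_le (g : V → V → ℝ) (g1 : ∀ a v, g a v ≤ 1) (k : ℕ) (a v : V) (h : G.Adj a v) :
    Tk G q g k a v ≤ 1 := by
  have := Tk_nonneg G q (fun a v => 1 - g a v) (fun a v => by linarith [g1 a v]) k a v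
  rw [Tk_one G q hd q2 g k a v h] at this
  linarith

lemma bound {t : ℝ} (ht : 0 < t) (hq : q * t ^ 2 = 1) (o x y : V) (hx : x ≠ o) (hxy : x ≠ y)
    (u : V → ℝ) (hu : Sup G o t (1 / t + q * t) y u) (η : V → ℝ) (η0 : ∀ x, 0 ≤ η x)
    (hη : ∀ x, (q + 1) * η x = dl o x + ∑ w ∈ G.neighborFinset x, η w)
    (g : V → V → ℝ) (g1 : ∀ a v, g a v ≤ 1)
    (hg : ∀ j v w, Rch G o x j w v → ¬ Rch G o y j w v → g v w = 0) (k : ℕ) :
    ∑ w ∈ G.neighborFinset x, Tk G q g k x w ≤ q * ((1 / t + q * t) * u x) + q * ((q + 1) * η x) := by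
  have q1 : (2 : ℝ) ≤ q := by exact_mod_cast q2
  have q0 : (0 : ℝ) < q := by linarith
  have t1 : t ≤ 1 := by nlinarith
  have hM : ∀ x, Mr G (So o) t u x ≤ (1 / t + q * t) * u x := fun x => by
    linarith [hu.2 x, dl_nonneg y x]
  have hu1 := har G q hd (So o) ht hq.le u hu.1 hM
  have e1 : 1 / (1 / (q : ℝ)) + q * (1 / q) = q + 1 := by field_simp
  have hη1 := har G q hd U (t := 1 / q) (by positivity) (by
      rw [div_pow, one_pow, mul_one_div, div_le_one (by positivity)]; nlinarith) η η0 (fun x => by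
      rw [Mr_U, e1]; linarith [hη x, dl_nonneg o x])
  have hE : ∀ a v, G.Adj a v → q * η v - η a =
      dl o v + (∑ w ∈ (G.neighborFinset v).erase a, (q * η w - η v)) / q := by
    intro a v h
    have := edge G q hd U (t := 1 / q) (by positivity) η (a := a) (v := v) trivial trivial h
    rw [e1, Mr_U, hη v] at this
    simp only [U, if_true] at this
    have e2 : ∑ w ∈ (G.neighborFinset v).erase a, (q * η w - η v) =
        q * ∑ w ∈ (G.neighborFinset v).erase a, (η w - 1 / q * η v) := by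
      rw [mul_sum]; refine sum_congr rfl fun w _ => ?_; field_simp
    rw [e2, mul_div_cancel_left₀ _ q0.ne']
    field_simp at this ⊢
    linarith
  have hE0 : ∀ a v, G.Adj a v → 0 ≤ q * η v - η a := fun a v h => by
    have := hη1 a v trivial trivial h
    rw [one_div, inv_mul_le_iff₀ q0] at this; linarith
  have hE1 : ∀ a, G.Adj a o → 1 ≤ q * η o - η a := fun a h => by
    rw [hE a o h]
    have : 0 ≤ (∑ w ∈ (G.neighborFinset o).erase a, (q * η w - η o)) / q :=
      div_nonneg (sum_nonneg fun w hw => hE0 _ _ ((G.mem_neighborFinset o w).1 (mem_of_mem_erase hw)))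
        q0.le
    simp only [dl, if_true]; linarith
  have hP : ∀ a v, a ≠ o → v ≠ o → G.Adj a v → t * dl y v +
      t * ∑ w ∈ (G.neighborFinset v).erase a, (if So o w then u w - t * u v else 0) ≤ u v - t * u a := by
    intro a v ha hv h
    rw [edge G q hd (So o) ht u ha hv h]
    nlinarith [hu.2 v]
  have hn : ∀ v, v ≠ o → ∀ w ∈ G.neighborFinset v, 0 ≤ (if So o w then u w - t * u v else 0) := by
    intro v hv w hw
    split_ifs with h
    · linarith [hu1 v w hv h ((G.mem_neighborFinset v w).1 hw)]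
    · exact le_rfl
  have hR : ∀ m a v, a ≠ o → v ≠ o → G.Adj a v → Rch G o y m a v → t ^ (m + 1) ≤ u v - t * u a := by
    have base : ∀ m a, a ≠ o → y ≠ o → G.Adj a y → t ^ (m + 1) ≤ u y - t * u a := by
      intro m a ha hv h
      have h1 := hP a y ha hv h
      have h2 := mul_nonneg ht.le (sum_nonneg fun w hw => hn y hv w (mem_of_mem_erase (a := a) hw))
      have h3 : t ^ (m + 1) ≤ t := by
        rw [pow_succ]; nlinarith [pow_le_one₀ ht.le t1 (n := m)]
      simp only [dl, if_true] at h1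
      linarith
    intro m
    induction m with
    | zero => rintro a v ha hv h rfl; exact base 0 a ha hv h
    | succ m ih =>
      rintro a v ha hv h (rfl | ⟨w, h1, h2, h3, h4⟩)
      · exact base _ a ha hv h
      · have h5 := ih v w hv h3 h1 h4
        have h6 := single_le_sum (f := fun w => if So o w then u w - t * u v else 0)
          (fun w hw => hn v hv w (mem_of_mem_erase (a := a) hw))
          (mem_erase.2 ⟨h2, (G.mem_neighborFinset v w).2 h1⟩)
        simp only [if_pos (show So o w from h3)] at h6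
        have h7 := hP a v ha hv h
        rw [pow_succ]
        nlinarith [dl_nonneg y v]
  have main : ∀ k j v w, v ≠ o → G.Adj v w → Rch G o x j w v → ¬ Rch G o y j w v →
      Tk G q g k v w ≤ (if So o w then u w - t * u v else 0) / t ^ (j + 2) + (q * η w - η v) := by
    intro k
    induction k with
    | zero =>
      intro j v w hv h r1 r2
      simp only [Tk]
      rw [hg j v w r1 r2]
      exact add_nonneg (div_nonneg (hn v hv w ((G.mem_neighborFinset v w).2 h)) (by positivity))
        (hE0 v w h)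
    | succ k ih =>
      intro j v w hv h r1 r2
      have tl := Tk_le G q hd q2 g g1 (k + 1) v w h
      by_cases hw : w = o
      · subst hw
        have := hE1 v h
        simp only [So, ne_eq, not_true, if_false, zero_div]; linarith
      rw [if_pos (show So o w from hw)]
      by_cases r3 : Rch G o y (j + 1) v w
      · have h1 := hR _ v w hv hw h r3
        have : 1 ≤ (u w - t * u v) / t ^ (j + 2) := by rw [le_div_iff₀ (by positivity)]; linarith
        linarith [hE0 v w h]
      have h1 : ∑ w' ∈ (G.neighborFinset w).erase v, Tk G q g k w w' ≤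
          ∑ w' ∈ (G.neighborFinset w).erase v,
            ((if So o w' then u w' - t * u w else 0) / t ^ (j + 1 + 2) + (q * η w' - η w)) := by
        refine sum_le_sum fun w' hw' => ?_
        obtain ⟨n1, n2⟩ := mem_erase.1 hw'
        refine ih (j + 1) w w' hw ((G.mem_neighborFinset w w').1 n2)
          (.inr ⟨v, h.symm, n1.symm, hv, r1⟩) ?_
        rintro (r | ⟨a', r4, r5, r6, r7⟩)
        · exact r3 (.inl r)
        · by_cases e : a' = v
          · exact r2 (e ▸ r7)
          · exact r3 (.inr ⟨a', r4, e, r6, r7⟩)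
      rw [sum_add_distrib, ← sum_div] at h1
      have h2 := hP v w hv hw h
      have h3 := hE v w h
      simp only [Tk]
      refine (div_le_div_of_nonneg_right h1 q0.le).trans ?_
      rw [add_div]
      refine add_le_add ?_ (by linarith [dl_nonneg o w])
      rw [div_div, div_le_div_iff₀ (by positivity) (by positivity)]
      set Z := ∑ w' ∈ (G.neighborFinset w).erase v, (if So o w' then u w' - t * u w else 0)
      have e3 : t ^ (j + 1 + 2) * q = t ^ (j + 1) := by
        rw [pow_add, mul_assoc, mul_comm (t ^ 2), hq, mul_one]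
      rw [e3, show t ^ (j + 2) = t * t ^ (j + 1) by ring, ← mul_assoc]
      apply mul_le_mul_of_nonneg_right _ (by positivity)
      nlinarith [mul_nonneg ht.le (dl_nonneg y w)]
  have h1 : ∑ w ∈ G.neighborFinset x, Tk G q g k x w ≤ ∑ w ∈ G.neighborFinset x,
      (q * (if So o w then u w else t * u x) + q * η w) := by
    refine sum_le_sum fun w hw => ?_
    refine (main k 0 x w hx ((G.mem_neighborFinset x w).1 hw) rfl hxy).trans ?_
    refine add_le_add ?_ (by linarith [η0 x])
    rw [div_le_iff₀ (by positivity), mul_right_comm, zero_add, hq, one_mul]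
    split_ifs
    · nlinarith [hu.1 x]
    · nlinarith [hu.1 x]
  rw [sum_add_distrib, ← mul_sum, ← mul_sum, ← Mr_S G t u (show So o x from hx)] at h1
  refine h1.trans (add_le_add (mul_le_mul_of_nonneg_left (hM x) q0.le)
    (mul_le_mul_of_nonneg_left ?_ q0.le))
  linarith [hη x, dl_nonneg o x]

lemma rec2 (g : V → V → ℝ) (k : ℕ) (x : V) :
    ∑ v ∈ G.neighborFinset x, ∑ w ∈ G.neighborFinset v, Tk G q g (k + 1) v w =
      q * ∑ w ∈ G.neighborFinset x, Tk G q g (k + 2) x w + ∑ w ∈ G.neighborFinset x, Tk G q g k x w := by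
  have q0 : (q : ℝ) ≠ 0 := by positivity
  have e : ∀ k a v, G.Adj a v → q * Tk G q g (k + 1) a v =
      ∑ w ∈ G.neighborFinset v, Tk G q g k v w - Tk G q g k v a := by
    intro k a v h
    simp only [Tk]
    rw [← add_sum_erase _ _ ((G.mem_neighborFinset v a).2 h.symm)]
    field_simp; ring
  have e1 : q * ∑ w ∈ G.neighborFinset x, Tk G q g (k + 2) x w = ∑ v ∈ G.neighborFinset x,
      (∑ w ∈ G.neighborFinset v, Tk G q g (k + 1) v w - Tk G q g (k + 1) v x) := by
    rw [mul_sum]
    exact sum_congr rfl fun v hv => e (k + 1) x v ((G.mem_neighborFinset x v).1 hv)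
  have e2 : q * ∑ v ∈ G.neighborFinset x, Tk G q g (k + 1) v x = ∑ v ∈ G.neighborFinset x,
      (∑ w ∈ G.neighborFinset x, Tk G q g k x w - Tk G q g k x v) := by
    rw [mul_sum]
    exact sum_congr rfl fun v hv => e k v x ((G.mem_neighborFinset x v).1 hv).symm
  rw [sum_sub_distrib] at e1 e2
  rw [sum_const, hd, nsmul_eq_mul] at e2
  push_cast at e2
  have e3 : ∑ v ∈ G.neighborFinset x, Tk G q g (k + 1) v x = ∑ w ∈ G.neighborFinset x, Tk G q g k x w :=
    mul_left_cancel₀ q0 (by linarith)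
  linarith

lemma harm (g : V → V → ℝ) (g0 : ∀ a v, 0 ≤ g a v) (g1 : ∀ a v, g a v ≤ 1) (x y : V)
    (hx : ∀ k, 2 ≤ ∑ w ∈ G.neighborFinset x, Tk G q g k x w)
    (hy : ∀ k, ∑ w ∈ G.neighborFinset y, Tk G q g k y w ≤ 1) :
    ∃ f : V → ℝ, (∃ C : ℝ, ∀ v, |f v| ≤ C) ∧
      (∀ v, ((q : ℝ) + 1) * f v = ∑ w ∈ G.neighborFinset v, f w) ∧ ∃ x y, f x ≠ f y := by
  let H : ℕ → V → ℝ := fun k x => ∑ w ∈ G.neighborFinset x, Tk G q g k x w
  have H0 : ∀ k x, 0 ≤ H k x := fun k x => sum_nonneg fun w _ => Tk_nonneg G q g g0 k x w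
  have H1 : ∀ k x, H k x ≤ q + 1 := fun k x => by
    have := sum_le_card_nsmul (G.neighborFinset x) (fun w => Tk G q g k x w) 1
      fun w hw => Tk_le G q hd q2 g g1 k x w ((G.mem_neighborFinset x w).1 hw)
    rw [hd] at this; simpa using this
  let B : ℕ → V → ℝ := fun n x => (∑ k ∈ range (n + 1), H (k + 1) x) / ((n : ℝ) + 1)
  have avg : ∀ n x (c : ℝ), ((∀ k, c ≤ H k x) → c ≤ B n x) ∧ ((∀ k, H k x ≤ c) → B n x ≤ c) := by
    intro n x c
    constructor
    · intro h
      rw [le_div_iff₀ (by positivity)]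
      have := card_nsmul_le_sum (range (n + 1)) (fun k => H (k + 1) x) c fun k _ => h _
      simp at this; linarith
    · intro h
      rw [div_le_iff₀ (by positivity)]
      have := sum_le_card_nsmul (range (n + 1)) (fun k => H (k + 1) x) c fun k _ => h _
      simp at this; linarith
  have B0 : ∀ n x, 0 ≤ B n x := fun n x => (avg n x 0).1 fun k => H0 k x
  have B1 : ∀ n x, B n x ≤ q + 1 := fun n x => (avg n x _).2 fun k => H1 k x
  obtain ⟨F, hF⟩ := ulim B fun x => ⟨q + 1, fun n => by rw [abs_of_nonneg (B0 n x)]; exact B1 n x⟩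
  refine ⟨F, ⟨q + 1, fun v => ?_⟩, fun v => ?_, x, y, ?_⟩
  · rw [abs_of_nonneg (ge_of_tendsto' (hF v) fun n => B0 n v)]
    exact le_of_tendsto' (hF v) fun n => B1 n v
  · have tel : ∀ n, ∑ k ∈ range n, (∑ w ∈ G.neighborFinset v, H (k + 1) w - (q + 1) * H (k + 1) v) =
        q * (H (n + 1) v - H 1 v) - (H n v - H 0 v) := by
      intro n
      induction n with
      | zero => simp
      | succ n ih =>
        rw [sum_range_succ, ih]
        have := rec2 G q hd q2 g n v
        simp only [H] at this ⊢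
        linarith
    have e : ∀ n, ∑ w ∈ G.neighborFinset v, B n w - (q + 1) * B n v =
        (q * (H (n + 1 + 1) v - H 1 v) - (H (n + 1) v - H 0 v)) / ((n : ℝ) + 1) := by
      intro n
      rw [← tel, sum_sub_distrib, sum_comm, ← mul_sum, sub_div, sum_div, mul_div_assoc]
    have l1 : Tendsto (fun n => ∑ w ∈ G.neighborFinset v, B n w - (q + 1) * B n v) (hyperfilter ℕ)
        (𝓝 (∑ w ∈ G.neighborFinset v, F w - (q + 1) * F v)) :=
      (tendsto_finsetSum _ fun w _ => hF w).sub ((hF v).const_mul _)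
    have l2 : Tendsto (fun n => ∑ w ∈ G.neighborFinset v, B n w - (q + 1) * B n v) atTop (𝓝 0) := by
      have l3 := (tendsto_one_div_add_atTop_nhds_zero_nat (𝕜 := ℝ)).const_mul (((q : ℝ) + 1) ^ 2)
      rw [mul_zero] at l3
      refine squeeze_zero_norm (fun n => ?_) l3
      rw [e, Real.norm_eq_abs, abs_div, abs_of_pos (show (0 : ℝ) < n + 1 by positivity), mul_one_div]
      apply div_le_div_of_nonneg_right _ (by positivity)
      have q0 : (0 : ℝ) ≤ q := by positivity
      rw [abs_le]
      constructor <;> nlinarith [H0 (n + 1 + 1) v, H1 (n + 1 + 1) v, H0 1 v, H1 1 v, H0 (n + 1) v,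
        H1 (n + 1) v, H0 0 v, H1 0 v]
    have := tendsto_nhds_unique l1 (l2.mono_left hyp_le)
    linarith
  · have a1 := ge_of_tendsto' (hF x) fun n => (avg n x 2).1 hx
    have a2 := le_of_tendsto' (hF y) fun n => (avg n y 1).2 hy
    intro h; linarith

lemma final [Infinite V] (hc : G.Connected) {t : ℝ} (ht : 0 < t) (hq : q * t ^ 2 = 1) (φ : V → ℝ)
    (h0 : ∀ x, 0 < φ x) (hφ : ∀ x, ∑ w ∈ G.neighborFinset x, φ w ≤ (1 / t + q * t) * φ x) :
    ∃ f : V → ℝ, (∃ C : ℝ, ∀ v, |f v| ≤ C) ∧
      (∀ v, ((q : ℝ) + 1) * f v = ∑ w ∈ G.neighborFinset v, f w) ∧ ∃ x y, f x ≠ f y := by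
  obtain ⟨o⟩ := hc.nonempty
  have q1 : (2 : ℝ) ≤ q := by exact_mod_cast q2
  have q0 : (0 : ℝ) < q := by linarith
  have t1 : t < 1 := by nlinarith
  set lam := 1 / t + q * t with hlam
  have l0 : 0 < lam := by positivity
  have l1 : lam < q + 1 := by
    have e : 1 / t = q * t := by field_simp; linarith
    have : 1 < q * t := by nlinarith
    rw [hlam, e]; nlinarith
  obtain ⟨η, η0, hη, hs⟩ := exeta G φ lam (q + 1) l0.le l1 h0 hφ o
  set ε := 1 / (2 * q * ((q : ℝ) + 1)) with hε
  set c := 1 / (2 * q * lam) with hcd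
  have ε0 : 0 < ε := by positivity
  have c0 : 0 < c := by positivity
  have ho : ε ≤ η o := by
    have h1 := hη o
    have h2 : 0 ≤ ∑ w ∈ G.neighborFinset o, η w := sum_nonneg fun w _ => η0 w
    simp only [dl, if_true] at h1
    rw [hε, div_le_iff₀ (by positivity)]
    nlinarith
  obtain ⟨y, hy, hy2⟩ := hs _ (str_inf G q hd ht hq φ h0 hφ hc q2 o) ε ε0
  obtain ⟨x, hx, hx2, hx3⟩ := pick G q hd ht o lam l0 l1.le η η0 hη ε c ε0 c0 ho y hy hy2
  have sup : ∀ z, Str G o t lam z → Sup G o t lam z (Gr G (So o) t lam z) := by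
    rintro z ⟨-, u, u0, hu⟩
    exact ⟨Gr_nonneg G _ ht.le l0 z, fun w => ((Gr_le G (So o) ht.le l0 z u u0 hu).2 w).ge⟩
  have hxy : x ≠ y := by
    rintro rfl
    have h1 := (sup x hx).2 x
    have h2 := Mr_nonneg G (So o) ht.le (sup x hx).1 x
    simp only [dl, if_true] at h1
    rw [hcd, lt_div_iff₀ (by positivity)] at hx3
    nlinarith
  let f : V → V → ℝ := fun v w => if ∃ m, Rch G o x m w v ∧ ¬ Rch G o y m w v then 1 else 0
  have f0 : ∀ a v, 0 ≤ f a v := fun a v => by simp only [f]; split_ifs <;> simp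
  have f1 : ∀ a v, f a v ≤ 1 := fun a v => by simp only [f]; split_ifs <;> simp
  have fin : ∀ a b : ℝ, a < c → b < ε → q * (lam * a) + q * ((q + 1) * b) ≤ 1 := by
    intro a b ha hb
    rw [hcd, lt_div_iff₀ (by positivity)] at ha
    rw [hε, lt_div_iff₀ (by positivity)] at hb
    nlinarith
  refine harm G q hd q2 f f0 f1 x y (fun k => ?_) (fun k => ?_)
  · have := bound G q hd q2 ht hq o x y hx.1 hxy _ (sup y hy) η η0 hη (fun a v => 1 - f a v)
      (fun a v => by linarith [f0 a v]) (fun j v w r1 r2 => by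
        simp only [f]; rw [if_pos ⟨j, r1, r2⟩]; simp) k
    rw [sum_congr rfl fun w hw => Tk_one G q hd q2 f k x w ((G.mem_neighborFinset x w).1 hw),
      sum_sub_distrib, sum_const, hd, nsmul_eq_mul] at this
    push_cast at this
    linarith [fin _ _ hx3 hx2]
  · have := bound G q hd q2 ht hq o y x hy.1 hxy.symm _ (sup x hx) η η0 hη f f1 (fun j v w r1 r2 => by
        simp only [f]
        rw [if_neg]
        rintro ⟨m, r3, r4⟩
        rcases le_total m j with h | h
        · exact r2 (rch_mono G o x h r3)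
        · exact r4 (rch_mono G o y h r1)) k
    rw [Gr_symm] at hx3
    linarith [fin _ _ hx3 hy2]

end Pool.Agent.H43.Rm4
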