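import Mathlib

set_option autoImplicit false

namespace Pool.Agent.H43.SH

open Filter

/-- strongly hyperfinite -/
def SH (Γ : Type) [Group Γ] : Prop :=
  ∀ (X : Type) [TopologicalSpace X] [CompactSpace X] [PolishSpace X] [TotallyDisconnectedSpace X]
    [MulAction Γ X] [ContinuousConstSMul Γ X], (∀ (γ : Γ) (x : X), γ • x = x → γ = 1) →
    ∃ f : X → ℕ → Bool, Continuous f ∧
      ∀ x y, (∃ γ : Γ, γ • x = y) ↔ ∀ᶠ n in cofinite, f x n = f y n

/-- every free action is topologically orbit equivalent to an action of the integers -/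
def OEZ (Γ : Type) [Group Γ] : Prop :=
  ∀ (X : Type) [TopologicalSpace X] [CompactSpace X] [PolishSpace X] [TotallyDisconnectedSpace X]
    [MulAction Γ X] [ContinuousConstSMul Γ X], (∀ (γ : Γ) (x : X), γ • x = x → γ = 1) →
    ∃ (Y : Type) (_ : TopologicalSpace Y) (_ : CompactSpace Y) (_ : PolishSpace Y)
      (_ : TotallyDisconnectedSpace Y) (_ : AddAction ℤ Y) (_ : ContinuousConstVAdd ℤ Y)
      (φ : X ≃ₜ Y), ∀ x, ∃ y, φ '' MulAction.orbit Γ x = AddAction.orbit ℤ y

end Pool.Agent.H43.SH
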