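import Mathlib

set_option autoImplicit false
open MeasureTheory Finset
open scoped ENNReal

namespace Pool.Agent.H43.SignLO

lemma digit {ι : Type*} (s : Finset ι) (v : ι → ℕ) (B k : ℕ) (h : s.card < B) :
    (s.filter fun i => v i = k).card * B ^ k ≤ (∑ i ∈ s, B ^ v i) % B ^ (k + 1) := by
  classical
  rw [← Finset.sum_filter_add_sum_filter_not s (fun i => v i ≤ k)]
  have h2 : B ^ (k + 1) ∣ ∑ i ∈ s.filter (fun i => ¬ v i ≤ k), B ^ v i :=
    Finset.dvd_sum fun i hi => pow_dvd_pow _ (by have := (Finset.mem_filter.1 hi).2; omega)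
  obtain ⟨m, hm⟩ := h2
  have hB : 0 < B := by omega
  have h3 : ∑ i ∈ s.filter (fun i => v i ≤ k), B ^ v i < B ^ (k + 1) := by
    calc ∑ i ∈ s.filter (fun i => v i ≤ k), B ^ v i
        ≤ (s.filter (fun i => v i ≤ k)).card • B ^ k :=
          Finset.sum_le_card_nsmul _ _ _ fun i hi =>
            Nat.pow_le_pow_right hB (Finset.mem_filter.1 hi).2
      _ ≤ s.card * B ^ k := Nat.mul_le_mul_right _ (Finset.card_filter_le _ _)
      _ < B * B ^ k := Nat.mul_lt_mul_of_pos_right h (by positivity)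
      _ = B ^ (k + 1) := by ring
  rw [hm, Nat.add_mul_mod_self_left, Nat.mod_eq_of_lt h3]
  calc (s.filter fun i => v i = k).card * B ^ k = ∑ i ∈ s.filter (fun i => v i = k), B ^ v i := by
        rw [Finset.sum_congr rfl (g := fun _ => B ^ k)
          (fun i hi => by rw [(Finset.mem_filter.1 hi).2])]
        simp
    _ ≤ _ := Finset.sum_le_sum_of_subset fun i hi => by
        have := Finset.mem_filter.1 hi
        exact Finset.mem_filter.2 ⟨this.1, this.2.le⟩

def L : List ℕ := [0, 6, 9, 12, 18, 19, 24, 29, 39]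
def M : List ℕ := [39, 33, 30, 27, 21, 20, 15, 10, 0]

def s (i : Fin 9) : ℤ := (L.getD i 0 : ℕ)

def cnt (a b c k : ℤ) : ℕ :=
  ∑ i : Fin 9, ∑ j : Fin 9, ∑ l : Fin 9, if a * s i + b * s j + c * s l = k then 1 else 0

lemma big : cnt 1 1 (-2) 0 = 29 := by decide +kernel

def P (A : List ℕ) : ℕ := (A.map fun x => 1024 ^ x).sum

def chk (A B C : List ℕ) : Bool :=
  (List.range 118).all fun k => Nat.blt ((P A * P B * P C) % 1024 ^ (k + 1)) (29 * 1024 ^ k)

lemma smallN : chk L L L && chk L L M && chk L M L && chk L M M && chk M L L && chk M L M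
    && chk M M L && chk M M M := by decide +kernel

def T (a : ℤ) : List ℕ := if a = 1 then L else M

def t (a : ℤ) (i : Fin 9) : ℕ := (T a).getD i 0

def off (a : ℤ) : ℤ := if a = 1 then 0 else 39

lemma t_eq (a : ℤ) (ha : a = 1 ∨ a = -1) (i : Fin 9) : (t a i : ℤ) = a * s i + off a := by
  rcases ha with rfl | rfl <;> revert i <;> decide

lemma t_le (a : ℤ) (i : Fin 9) : t a i ≤ 39 := by
  unfold t T
  split_ifs <;> revert i <;> decide

lemma sum9 (a : ℤ) (g : ℕ → ℕ) : ∑ i : Fin 9, g (t a i) = ((T a).map g).sum := by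
  unfold t T
  split_ifs <;> simp [Fin.sum_univ_succ, L, M]

lemma chkT (a b c : ℤ) : chk (T a) (T b) (T c) = true := by
  have := smallN
  simp only [Bool.and_eq_true] at this
  unfold T
  split_ifs <;> tauto

lemma cnt_le (a b c k : ℤ) (ha : a = 1 ∨ a = -1) (hb : b = 1 ∨ b = -1) (hc : c = 1 ∨ c = -1) :
    cnt a b c k ≤ 28 := by
  have key : ∀ i j l : Fin 9, a * s i + b * s j + c * s l = k ↔
      ((t a i + t b j + t c l : ℕ) : ℤ) = k + off a + off b + off c := by
    intro i j l
    push_cast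
    rw [t_eq a ha, t_eq b hb, t_eq c hc]
    constructor <;> intro h <;> linarith
  by_cases hk : 0 ≤ k + off a + off b + off c ∧ k + off a + off b + off c ≤ 117
  · obtain ⟨m, hm⟩ := Int.eq_ofNat_of_zero_le hk.1
    have h1 := chkT a b c
    simp only [chk, List.all_eq_true, List.mem_range, Nat.blt_eq] at h1
    have h2 := h1 m (by omega)
    have h3 := digit (univ : Finset (Fin 9 × Fin 9 × Fin 9))
      (fun p => t a p.1 + t b p.2.1 + t c p.2.2) 1024 m (by simp)
    have h4 : ∑ p : Fin 9 × Fin 9 × Fin 9, 1024 ^ (t a p.1 + t b p.2.1 + t c p.2.2)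
        = P (T a) * P (T b) * P (T c) := by
      unfold P
      rw [← sum9, ← sum9, ← sum9]
      simp only [Fintype.sum_prod_type, pow_add, mul_assoc, ← Finset.mul_sum, ← Finset.sum_mul]
    rw [h4] at h3
    have h5 := Nat.lt_of_mul_lt_mul_right (h3.trans_lt h2)
    refine le_trans (le_of_eq ?_) (Nat.lt_succ_iff.1 h5)
    rw [Finset.card_filter]
    simp only [cnt, key, hm, Nat.cast_inj, Fintype.sum_prod_type]
  · have : cnt a b c k = 0 := by
      unfold cnt
      refine Finset.sum_eq_zero fun i _ => Finset.sum_eq_zero fun j _ =>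
        Finset.sum_eq_zero fun l _ => if_neg ?_
      have h1 := t_le a i
      have h2 := t_le b j
      have h3 := t_le c l
      rw [key]
      omega
    omega

end Pool.Agent.H43.SignLO
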