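import Pool.Agent.H43.SpDefs

open MeasureTheory Metric Set Filter Topology
open scoped ENNReal NNReal

namespace Pool.Agent.H43.Sp

/-- Hausdorff content -/
noncomputable def h (σ : ℝ) : OuterMeasure ℝ := OuterMeasure.boundedBy fun t => ediam t ^ σ

lemma h_le (σ : ℝ) (t : Set ℝ) : h σ t ≤ ediam t ^ σ := OuterMeasure.boundedBy_le t

lemma h_Icc {σ : ℝ} (hσ : 0 < σ) {t : Set ℝ} {b : ℝ} (hb : 0 ≤ b) (ht : t ⊆ Icc 0 b) :
    h σ t ≤ ENNReal.ofReal (b ^ σ) := by
  refine (h_le σ t).trans ?_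
  rw [← ENNReal.ofReal_rpow_of_nonneg hb hσ.le]
  gcongr
  exact (ediam_mono ht).trans (by simp)

lemma h_pt {σ : ℝ} (hσ : 0 < σ) (a : ℝ) : h σ {a} = 0 :=
  le_antisymm ((h_le σ _).trans (by simp [hσ])) (by simp)

lemma h_scale {σ : ℝ} (hσ : 0 < σ) (f g : ℝ → ℝ) (A : Set ℝ) {K : ℝ} (hK : 0 ≤ K)
    (H : ∀ a ∈ A, ∀ b ∈ A, |f a - f b| ≤ K * |g a - g b|) :
    h σ (f '' A) ≤ ENNReal.ofReal (K ^ σ) * h σ (g '' A) := by
  have : OuterMeasure.map g (OuterMeasure.restrict A (OuterMeasure.comap f (h σ))) ≤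
      ENNReal.ofReal (K ^ σ) • h σ := by
    rw [h, OuterMeasure.smul_boundedBy ENNReal.ofReal_ne_top, OuterMeasure.le_boundedBy]
    intro t
    simp only [OuterMeasure.map_apply, OuterMeasure.restrict_apply, OuterMeasure.comap_apply,
      Pi.smul_apply, smul_eq_mul]
    refine (h_le σ _).trans ?_
    rw [← ENNReal.ofReal_rpow_of_nonneg hK hσ.le, ← ENNReal.mul_rpow_of_nonneg _ _ hσ.le]
    gcongr
    refine ediam_le ?_
    rintro _ ⟨a, ⟨ha, ha'⟩, rfl⟩ _ ⟨b, ⟨hb, hb'⟩, rfl⟩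
    calc edist (f a) (f b) ≤ ENNReal.ofReal K * edist (g a) (g b) := by
          rw [edist_dist, edist_dist, ← ENNReal.ofReal_mul hK, Real.dist_eq, Real.dist_eq]
          exact ENNReal.ofReal_le_ofReal (H a ha' b hb')
      _ ≤ _ := by gcongr; exact edist_le_ediam_of_mem ha hb
  have h2 := this (g '' A)
  simp only [OuterMeasure.map_apply, OuterMeasure.restrict_apply, OuterMeasure.comap_apply,
    smul_apply, smul_eq_mul] at h2
  refine le_trans (measure_mono (image_mono fun a ha => ?_)) h2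
  exact ⟨mem_image_of_mem g ha, ha⟩

lemma hm_zero {σ : ℝ} (hσ : 0 < σ) {s : Set ℝ} (hs : h σ s = 0) : μH[σ] s = 0 := by
  have : ∀ n : ℕ, ∃ t : ℕ → Set ℝ, s ⊆ ⋃ i, t i ∧ ∑' i, ediam (t i) ^ σ < ((n : ℝ≥0∞)⁻¹) ^ σ := by
    intro n
    have hp : h σ s < ((n : ℝ≥0∞)⁻¹) ^ σ := by
      rw [hs]; exact ENNReal.rpow_pos_of_nonneg (by simp) hσ.le
    rw [h, OuterMeasure.boundedBy_apply] at hp
    simp only [iInf_lt_iff] at hp
    obtain ⟨t, h1, h2⟩ := hp
    refine ⟨t, h1, lt_of_le_of_lt (le_of_eq (tsum_congr fun i => ?_)) h2⟩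
    rcases (t i).eq_empty_or_nonempty with h | h <;> simp [h, hσ]
  choose t h1 h2 using this
  have hr := ENNReal.tendsto_inv_nat_nhds_zero
  refine le_antisymm ((Measure.hausdorffMeasure_le_liminf_tsum σ s _ hr t
    (Eventually.of_forall fun n i => ?_) (Eventually.of_forall h1)).trans ?_) (by simp)
  · exact (ENNReal.rpow_le_rpow_iff hσ).1 ((ENNReal.le_tsum i).trans (h2 n).le)
  · have h3 : Tendsto (fun n : ℕ => ((n : ℝ≥0∞)⁻¹) ^ σ) atTop (𝓝 0) := by
      have := (ENNReal.continuous_rpow_const (y := σ)).tendsto 0 |>.comp hr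
      simpa [hσ, Function.comp_def] using this
    exact (tendsto_of_tendsto_of_tendsto_of_le_of_le tendsto_const_nhds h3 (fun _ => by simp)
      fun n => (h2 n).le).liminf_eq.le

lemma hold (G : ℝ → ℝ) (C r : ℝ≥0) (hr : 0 < r) (H : ∀ t ∈ Ico (0 : ℝ) 1, ∀ t' ∈ Ico (0 : ℝ) 1,
    |t - t'| ≤ (C * |G t - G t'|) ^ (r : ℝ)) : (r : ℝ≥0∞) ≤ dimH (G '' Ico 0 1) := by
  have hr' : (0 : ℝ) < r := hr
  have inj : InjOn G (Ico 0 1) := fun t ht t' ht' e => by
    have := H t ht t' ht'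
    rw [e, sub_self, abs_zero, mul_zero, Real.zero_rpow hr'.ne'] at this
    exact sub_eq_zero.1 (abs_nonpos_iff.1 this)
  have hol : HolderOnWith (C ^ (r : ℝ)) r (Function.invFunOn G (Ico 0 1)) (G '' Ico 0 1) := by
    rintro _ ⟨t, ht, rfl⟩ _ ⟨t', ht', rfl⟩
    rw [inj.leftInvOn_invFunOn ht, inj.leftInvOn_invFunOn ht', edist_nndist, edist_nndist,
      ← ENNReal.coe_rpow_of_nonneg _ hr'.le, ← ENNReal.coe_mul,
      ENNReal.coe_le_coe, ← NNReal.coe_le_coe, ← NNReal.mul_rpow]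
    push_cast
    rw [Real.dist_eq, Real.dist_eq]
    exact H t ht t' ht'
  have h1 := hol.dimH_image_le hr
  rw [inj.invFunOn_image subset_rfl, Real.dimH_of_nonempty_interior (by simp)] at h1
  simp only [Module.finrank_self, Nat.cast_one] at h1
  rwa [ENNReal.le_div_iff_mul_le (Or.inl (by exact_mod_cast hr.ne')) (Or.inl (by simp)),
    one_mul] at h1


lemma dim_le {σ : ℝ} (hσ : 0 < σ) {s : Set ℝ} (hs : h σ s = 0) : dimH s ≤ ENNReal.ofReal σ := by
  have := dimH_le_of_hausdorffMeasure_ne_top (s := s) (d := ⟨σ, hσ.le⟩)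
    (by show μH[σ] s ≠ ⊤; rw [hm_zero hσ hs]; simp)
  rwa [ENNReal.ofReal_eq_coe_nnreal hσ.le]

lemma dim_one (s : Set ℝ) : dimH s ≤ 1 := (dimH_mono (subset_univ s)).trans_eq Real.dimH_univ

variable {E : Type} {r b : E → ℝ}

lemma comp_succ (φ : E → ℝ → ℝ) (ω : ℕ → E) (n : ℕ) :
    comp φ ω (n + 1) = φ (ω 0) ∘ comp φ (fun i => ω (i + 1)) n := by
  induction n with
  | zero => rfl
  | succ n ih => rw [comp, ih]; rfl

def P (r b : E → ℝ) (ω : ℕ → E) : Set ℝ := ⋂ n, comp (sim r b) ω n '' Icc 0 1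

lemma P_sub (ω : ℕ → E) : P r b ω ⊆ Icc 0 1 := fun x hx => by
  simpa [comp] using mem_iInter.1 hx 0

lemma SimIFS.P_step (H : SimIFS r b) {ω : ℕ → E} {x : ℝ} (hx : x ∈ P r b ω) :
    ∃ y ∈ P r b fun i => ω (i + 1), x = r (ω 0) * y + b (ω 0) := by
  have := (H.pos (ω 0)).ne'
  refine ⟨(x - b (ω 0)) / r (ω 0), mem_iInter.2 fun n => ?_, by field_simp; ring⟩
  obtain ⟨y, hy, e⟩ := mem_iInter.1 hx (n + 1)
  refine ⟨y, hy, ?_⟩
  rw [← e, comp_succ]; simp only [Function.comp, sim]; field_simp; ring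

lemma SimIFS.P_ne (H : SimIFS r b) (ω : ℕ → E) : (P r b ω).Nonempty := by
  have c : ∀ n, Continuous (comp (sim r b) ω n) := fun n => by
    induction n with
    | zero => exact continuous_id
    | succ n ih => exact ih.comp (by unfold sim; fun_prop)
  refine IsCompact.nonempty_iInter_of_sequence_nonempty_isCompact_isClosed _ (fun n => ?_)
    (fun n => (nonempty_Icc.2 zero_le_one).image _) (isCompact_Icc.image (c 0))
    fun n => (isCompact_Icc.image (c n)).isClosed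
  rintro _ ⟨y, hy, rfl⟩
  refine ⟨sim r b (ω n) y, ⟨?_, ?_⟩, rfl⟩ <;> unfold sim <;>
    nlinarith [H.pos (ω n), H.left (ω n), H.right (ω n), hy.1, hy.2]

noncomputable def Z (r : E → ℝ) (F : Set E) (s : ℝ) : ℝ≥0∞ :=
  ∑' e, F.indicator (fun e => ENNReal.ofReal (r e ^ s)) e

noncomputable def D (r b : E → ℝ) (F : Set E) : ℝ := (dimH (J (sim r b) F)).toReal

lemma SimIFS.up [Countable E] (H : SimIFS r b) {F : Set E} {s : ℝ} (hs : 0 < s)
    (hZ : Z r F s < 1) : D r b F ≤ s := by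
  refine ENNReal.toReal_le_of_le_ofReal hs.le (dim_le hs ?_)
  set K := J (sim r b) F
  have h1 : K ⊆ ⋃ e, ⋃ _ : e ∈ F, sim r b e '' K := fun x hx => by
    simp only [K, J, mem_iUnion] at hx ⊢
    obtain ⟨ω, hω, hx⟩ := hx
    obtain ⟨y, hy, e⟩ := H.P_step hx
    exact ⟨ω 0, hω 0, y, by simp only [mem_iUnion]; exact ⟨_, fun n => hω _, hy⟩, e.symm⟩
  have h2 : h s K ≤ Z r F s * h s K := by
    rw [Z, ← ENNReal.tsum_mul_right]
    refine (measure_mono h1).trans ((measure_iUnion_le _).trans (ENNReal.tsum_le_tsum fun e => ?_))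
    by_cases c : e ∈ F
    · simp only [c, iUnion_true, indicator_of_mem]
      have := h_scale hs (sim r b e) id K (H.pos e).le fun x _ y _ => by
        simp only [sim, id, add_sub_add_right_eq_sub, ← mul_sub, abs_mul, abs_of_pos (H.pos e), le_refl]
      rwa [image_id] at this
    · simp [c]
  have h3 : h s K ≠ ⊤ := ne_top_of_le_ne_top ENNReal.ofReal_ne_top
    (h_Icc hs zero_le_one fun x hx => by
      simp only [K, J, mem_iUnion] at hx
      obtain ⟨ω, -, hx⟩ := hx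
      exact P_sub ω hx)
  by_contra c
  exact absurd h2 (not_le.2 (by simpa using ENNReal.mul_lt_mul_left c h3 hZ))

lemma cover (p : E → ℝ) (A : Finset E) :
    ∃ c : E → ℝ, ∀ y, 0 ≤ y → y < ∑ e ∈ A, p e → ∃ e ∈ A, c e ≤ y ∧ y < c e + p e := by
  classical
  induction A using Finset.induction_on with
  | empty => exact ⟨0, fun y a b => by simp at b; linarith⟩
  | insert a A ha ih =>
    obtain ⟨c, hc⟩ := ih
    refine ⟨Function.update c a (∑ e ∈ A, p e), fun y h0 h1 => ?_⟩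
    rcases lt_or_ge y (∑ e ∈ A, p e) with d | d
    · obtain ⟨e, he, h2⟩ := hc y h0 d
      exact ⟨e, Finset.mem_insert_of_mem he, by
        rwa [Function.update_of_ne (fun f : e = a => ha (f ▸ he))]⟩
    · rw [Finset.sum_insert ha] at h1
      exact ⟨a, Finset.mem_insert_self _ _, by rw [Function.update_self]; constructor <;> linarith⟩

lemma SimIFS.low0 (H : SimIFS r b) {F : Set E} {s : ℝ} (hs : 0 < s) (A : Finset E)
    (hA : ∀ e ∈ A, e ∈ F) (h1 : 1 ≤ ∑ e ∈ A, r e ^ s) : s ≤ D r b F := by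
  classical
  obtain ⟨c, hc⟩ := cover (fun e => r e ^ s) A
  obtain ⟨e0, he0, -⟩ := hc 0 le_rfl (by linarith)
  have : ∀ y : ℝ, ∃ e ∈ A, y ∈ Ico (0 : ℝ) 1 → c e ≤ y ∧ y < c e + r e ^ s := fun y => by
    by_cases hy : y ∈ Ico (0 : ℝ) 1
    · obtain ⟨e, a, b⟩ := hc y hy.1 (hy.2.trans_le h1); exact ⟨e, a, fun _ => b⟩
    · exact ⟨e0, he0, fun h => absurd h hy⟩
  choose d hd hd' using this
  have rp : ∀ e, 0 < r e ^ s := fun e => Real.rpow_pos_of_pos (H.pos e) s
  set T : ℝ → ℝ := fun y => (y - c (d y)) / r (d y) ^ s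
  have hT : ∀ y ∈ Ico (0 : ℝ) 1, T y ∈ Ico (0 : ℝ) 1 := fun y hy =>
    ⟨div_nonneg (by linarith [(hd' y hy).1]) (rp _).le,
      (div_lt_one (rp _)).2 (by linarith [(hd' y hy).2])⟩
  obtain ⟨δ, hδ, hsep⟩ : ∃ δ > 0, ∀ e ∈ A, ∀ e' ∈ A, b e + r e < b e' → δ ≤ b e' - (b e + r e) := by
    have : ∀ᶠ δ in 𝓝[>] (0 : ℝ), ∀ e ∈ A, ∀ e' ∈ A, b e + r e < b e' → δ ≤ b e' - (b e + r e) := by
      simp only [eventually_all_finset]
      intro e _ e' _
      by_cases c : b e + r e < b e'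
      · exact ((eventually_le_nhds (sub_pos.2 c)).filter_mono nhdsWithin_le_nhds).mono fun _ h _ => h
      · simp [c]
    obtain ⟨δ, a, b⟩ := (this.and self_mem_nhdsWithin).exists
    exact ⟨δ, b, a⟩
  set ρ : ℝ := (1 / 2) ^ s
  have ρ1 : ρ < 1 := Real.rpow_lt_one (by norm_num) (by norm_num) hs
  have ρ0 : 0 ≤ ρ := by positivity
  have key : ∀ n : ℕ, ∀ y ∈ Ico (0 : ℝ) 1, ∀ y' ∈ Ico (0 : ℝ) 1,
      ∀ x ∈ P r b fun i => d (T^[i] y), ∀ x' ∈ P r b fun i => d (T^[i] y'),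
      |y - y'| ≤ (δ⁻¹ * |x - x'|) ^ s + ρ ^ n := by
    intro n
    induction n with
    | zero =>
      intro y hy y' hy' x _ x' _
      have : 0 ≤ (δ⁻¹ * |x - x'|) ^ s := by positivity
      have : |y - y'| ≤ 1 := abs_le.2 ⟨by linarith [hy.1, hy'.2], by linarith [hy.2, hy'.1]⟩
      rw [pow_zero]; linarith
    | succ n ih =>
      intro y hy y' hy' x hx x' hx'
      obtain ⟨z, hz, e⟩ := H.P_step hx
      obtain ⟨z', hz', e'⟩ := H.P_step hx'
      simp only [Function.iterate_succ_apply, Function.iterate_zero_apply] at hz hz' e e'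
      by_cases q : d y = d y'
      · have a1 := mul_le_mul_of_nonneg_left (ih _ (hT y hy) _ (hT y' hy') z hz z' hz') (rp (d y)).le
        have a2 : |y - y'| = r (d y) ^ s * |T y - T y'| := by
          have := rp (d y)
          rw [← abs_of_pos (rp (d y)), ← abs_mul]; congr 1
          simp only [T, ← q]; field_simp; ring
        have a3 : (δ⁻¹ * |x - x'|) ^ s = r (d y) ^ s * (δ⁻¹ * |z - z'|) ^ s := by
          rw [← Real.mul_rpow (H.pos _).le (by positivity), e, e', ← q, add_sub_add_right_eq_sub,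
            ← mul_sub, abs_mul, abs_of_pos (H.pos _)]
          congr 1; ring
        have a4 : r (d y) ^ s * ρ ^ n ≤ ρ * ρ ^ n := mul_le_mul_of_nonneg_right
          (Real.rpow_le_rpow (H.pos _).le (H.half _) hs.le) (by positivity)
        rw [a2, a3, pow_succ]; linarith
      · have z1 := P_sub _ hz
        have z2 := P_sub _ hz'
        have a1 : δ ≤ |x - x'| := by
          rcases H.sep _ _ q with f | f
          · have := hsep _ (hd y) _ (hd y') f
            rw [abs_sub_comm]; refine le_abs.2 (Or.inl ?_)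
            nlinarith [H.pos (d y), H.pos (d y'), z1.2, z2.1]
          · have := hsep _ (hd y') _ (hd y) f
            refine le_abs.2 (Or.inl ?_)
            nlinarith [H.pos (d y), H.pos (d y'), z1.1, z2.2]
        have a2 : 1 ≤ (δ⁻¹ * |x - x'|) ^ s :=
          Real.one_le_rpow (by rw [← div_eq_inv_mul, one_le_div hδ]; exact a1) hs.le
        have : |y - y'| ≤ 1 := abs_le.2 ⟨by linarith [hy.1, hy'.2], by linarith [hy.2, hy'.1]⟩
        have : 0 ≤ ρ ^ (n + 1) := by positivity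
        linarith
  choose G hG using fun y => H.P_ne fun i => d (T^[i] y)
  have a := hold G ⟨δ⁻¹, by positivity⟩ ⟨s, hs.le⟩ hs fun y hy y' hy' =>
    ge_of_tendsto' (by
      have := (tendsto_pow_atTop_nhds_zero_of_lt_one ρ0 ρ1).const_add ((δ⁻¹ * |G y - G y'|) ^ s)
      rw [add_zero] at this; exact this)
      fun n => key n y hy y' hy' _ (hG y) _ (hG y')
  have b : G '' Ico 0 1 ⊆ J (sim r b) F := by
    rintro _ ⟨y, -, rfl⟩
    simp only [J, mem_iUnion]
    exact ⟨_, fun n => hA _ (hd _), hG y⟩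
  exact ENNReal.toReal_mono (ne_top_of_le_ne_top (by simp) (dim_one _)) (a.trans (dimH_mono b))

lemma SimIFS.low (H : SimIFS r b) {F : Set E} {s : ℝ} (hs : 0 < s) (hZ : 1 < Z r F s) :
    s ≤ D r b F := by
  classical
  rw [Z, ENNReal.tsum_eq_iSup_sum, lt_iSup_iff] at hZ
  obtain ⟨A, hA⟩ := hZ
  refine H.low0 hs (A.filter (· ∈ F)) (fun e he => (Finset.mem_filter.1 he).2) ?_
  simp only [indicator_apply, ← Finset.sum_filter] at hA
  rw [← ENNReal.ofReal_sum_of_nonneg fun e _ => (Real.rpow_pos_of_pos (H.pos e) s).le] at hA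
  exact (ENNReal.one_lt_ofReal.1 hA).le

lemma SimIFS.decay (H : SimIFS r b) (F : Set E) {s u : ℝ} (h : s ≤ u) :
    Z r F u ≤ ENNReal.ofReal ((1 / 2) ^ (u - s)) * Z r F s := by
  rw [Z, Z, ← ENNReal.tsum_mul_left]
  refine ENNReal.tsum_le_tsum fun e => ?_
  by_cases c : e ∈ F
  · simp only [indicator_of_mem c]
    rw [← ENNReal.ofReal_mul (by positivity)]
    refine ENNReal.ofReal_le_ofReal ?_
    rw [show u = (u - s) + s by ring, Real.rpow_add (H.pos e), add_sub_cancel_right]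
    exact mul_le_mul_of_nonneg_right (Real.rpow_le_rpow (H.pos e).le (H.half e) (by linarith))
      (Real.rpow_pos_of_pos (H.pos e) s).le
  · simp [c]

lemma SimIFS.eq [Countable E] (H : SimIFS r b) {F : Set E} {s : ℝ} (hs : 0 < s)
    (hZ : Z r F s = 1) : D r b F = s := by
  have q : ∀ t : ℝ, 0 < t → ENNReal.ofReal ((1 / 2) ^ t) < 1 := fun t ht =>
    ENNReal.ofReal_lt_one.2 (Real.rpow_lt_one (by norm_num) (by norm_num) ht)
  refine le_antisymm (le_of_forall_gt_imp_ge_of_dense fun u hu => H.up (hs.trans hu) ?_)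
    (le_of_forall_lt_imp_le_of_dense fun u hu => ?_)
  · exact (H.decay F hu.le).trans_lt (by rw [hZ, mul_one]; exact q _ (by linarith))
  · rcases le_or_gt u 0 with c | c
    · exact c.trans ENNReal.toReal_nonneg
    refine H.low c (not_le.1 fun d => ?_)
    have := (H.decay F hu.le).trans (mul_le_mul_right d _)
    rw [hZ, mul_one] at this
    exact absurd this (not_le.2 (q _ (by linarith)))

end Pool.Agent.H43.Sp
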