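import Pool.Agent.H43.Sp1

open MeasureTheory Metric Set Filter Topology
open scoped ENNReal NNReal

namespace Pool.Agent.H43.Sp

def L : ℕ → ℕ
  | 0 => 0
  | k + 1 => L k + 2 ^ ((k + 1) * (L k + 4) + 1)

def m (k : ℕ) : ℕ := (k + 1) * (L k + 4)
def M (k : ℕ) : ℕ := 2 ^ (m k + 1)
abbrev A := (k : ℕ) × Fin (M k)
noncomputable def ρ (k : ℕ) : ℝ := (1 / 2) ^ (2 * m k)
noncomputable def r (e : A) : ℝ := ρ e.1
noncomputable def b (e : A) : ℝ := (1 / 2) ^ (e.1 + 1) + 2 * (e.2 : ℕ) * ρ e.1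

lemma m_ge (k : ℕ) : k + 4 ≤ m k := by unfold m; nlinarith [Nat.zero_le (L k)]
lemma L_mono : Monotone L := monotone_nat_of_le_succ fun k => Nat.le_add_right _ _
lemma ρ_pos (k : ℕ) : 0 < ρ k := by unfold ρ; positivity

instance : Infinite A := Infinite.of_injective (fun k => (⟨k, ⟨0, by unfold M; positivity⟩⟩ : A))
  fun _ _ h => congrArg Sigma.fst h

lemma Mρ (k : ℕ) : 2 * (M k : ℝ) * ρ k ≤ (1 / 2) ^ (k + 2) := by
  obtain ⟨j, hj⟩ := Nat.exists_eq_add_of_le (show m k + 2 + (k + 2) ≤ 2 * m k by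
    have := m_ge k; omega)
  have : (1 / 2 : ℝ) ^ j ≤ 1 := pow_le_one₀ (by norm_num) (by norm_num)
  have e : 2 * (M k : ℝ) * ρ k = (1 / 2) ^ (k + 2) * (1 / 2) ^ j := by
    rw [ρ, hj, M]; push_cast; simp only [pow_add, one_div, inv_pow]; field_simp
  rw [e]; exact mul_le_of_le_one_right (by positivity) this

lemma b_bd (e : A) : (1 / 2) ^ (e.1 + 1) ≤ b e ∧ b e + r e < (1 / 2) ^ e.1 := by
  have a := Mρ e.1
  have c := ρ_pos e.1
  have d : ((e.2 : ℕ) : ℝ) + 1 ≤ M e.1 := by exact_mod_cast e.2.2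
  have f : (0 : ℝ) < (1 / 2) ^ e.1 := by positivity
  simp only [b, r, pow_succ] at *
  constructor
  · have : 0 ≤ 2 * ((e.2 : ℕ) : ℝ) * ρ e.1 := by positivity
    linarith
  · nlinarith

lemma ifs : SimIFS r b := by
  refine ⟨fun e => ρ_pos _, fun e => ?_, fun e => le_trans (by positivity) (b_bd e).1,
    fun e => (b_bd e).2.le.trans (pow_le_one₀ (by norm_num) (by norm_num)), ?_⟩
  · exact pow_le_of_le_one (by norm_num) (by norm_num) (by have := m_ge e.1; omega)
  have h : ∀ e e' : A, e'.1 < e.1 → b e + r e < b e' := fun e e' h =>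
    (b_bd e).2.trans_le ((pow_le_pow_of_le_one (by norm_num) (by norm_num) h).trans (b_bd e').1)
  have g : ∀ (k : ℕ) (i j : Fin (M k)), i < j → b ⟨k, i⟩ + r ⟨k, i⟩ < b ⟨k, j⟩ := fun k i j h => by
    have : ((i : ℕ) : ℝ) + 1 ≤ (j : ℕ) := by exact_mod_cast h
    have := ρ_pos k
    simp only [b, r]; nlinarith
  rintro ⟨k, i⟩ ⟨l, j⟩ hne
  rcases lt_trichotomy k l with c | rfl | c
  · exact Or.inr (h _ _ c)
  · exact (lt_or_gt_of_ne fun d => hne (by rw [d])).imp (g k i j) (g k j i)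
  · exact Or.inl (h _ _ c)

lemma Z_cnt (n : ℕ → ℕ) (hn : ∀ k, n k ≤ M k) (s : ℝ) :
    Z r {e : A | (e.2 : ℕ) < n e.1} s = ∑' k, ENNReal.ofReal (n k * ρ k ^ s) := by
  rw [Z, ENNReal.tsum_sigma']
  refine tsum_congr fun k => ?_
  simp only [indicator_apply, mem_ofPred_eq, r, tsum_fintype]
  rw [← Finset.sum_filter, Finset.sum_const, Fin.card_filter_val_lt, min_eq_right (hn k),
    ENNReal.ofReal_mul (Nat.cast_nonneg _), nsmul_eq_mul, ENNReal.ofReal_natCast]

lemma Mρs (k : ℕ) (s : ℝ) : M k * ρ k ^ s = 2 * ((1 / 2 : ℝ) ^ (2 * s - 1)) ^ m k := by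
  rw [M, ρ, ← Real.rpow_natCast (1 / 2 : ℝ), ← Real.rpow_mul (by norm_num),
    ← Real.rpow_mul_natCast (by norm_num),
    show (2 * s - 1) * m k = ((2 * m k : ℕ) : ℝ) * s - m k by push_cast; ring,
    Real.rpow_sub (by norm_num), Real.rpow_natCast]
  push_cast; simp only [one_div, inv_pow]; field_simp; ring

noncomputable def rem (a : ℕ → ℝ) : ℕ → ℝ
  | 0 => 1
  | k + 1 => rem a k - ⌊rem a k / a k⌋₊ * a k

lemma full {s : ℝ} (hs : 0 < s) (h2 : s ≤ 1 / 2) : ∃ F : Set A, F.Nonempty ∧ D r b F = s := by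
  set a := fun k => ρ k ^ s
  have ap : ∀ k, 0 < a k := fun k => Real.rpow_pos_of_pos (ρ_pos k) s
  have h1 : ∀ k, 0 ≤ rem a k ∧ rem a k ≤ 1 := fun k => by
    induction k with
    | zero => simp [rem]
    | succ k ih =>
      have := (le_div_iff₀ (ap k)).1 (Nat.floor_le (div_nonneg ih.1 (ap k).le))
      have : 0 ≤ ⌊rem a k / a k⌋₊ * a k := mul_nonneg (Nat.cast_nonneg _) (ap k).le
      rw [rem]; constructor <;> linarith [ih.2]
  have h3 : ∀ k, rem a (k + 1) ≤ a k := fun k => by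
    have := (div_lt_iff₀ (ap k)).1 (Nat.lt_floor_add_one (rem a k / a k))
    rw [rem]; linarith
  have h4 : ∀ k, ⌊rem a k / a k⌋₊ ≤ M k := fun k => Nat.floor_le_of_le (by
    rw [div_le_iff₀ (ap k), Mρs]
    have := one_le_pow₀ (n := m k) (Real.one_le_rpow_of_pos_of_le_one_of_nonpos
      (x := 1 / 2) (z := 2 * s - 1) (by norm_num) (by norm_num) (by linarith))
    linarith [(h1 k).2])
  have h5 : Tendsto a atTop (𝓝 0) := by
    have := (tendsto_pow_atTop_nhds_zero_of_lt_one (r := (1 / 2 : ℝ) ^ s) (by positivity)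
      (Real.rpow_lt_one (by norm_num) (by norm_num) hs)).comp
      (tendsto_atTop_mono (f := id) (g := fun k => 2 * m k) (fun k => by
        have := m_ge k; simp only [id]; omega) tendsto_id)
    refine this.congr fun k => ?_
    simp only [a, ρ, Function.comp]
    exact Real.rpow_pow_comm (by norm_num) _ _
  have h6 : HasSum (fun k => ⌊rem a k / a k⌋₊ * a k) 1 := by
    rw [hasSum_iff_tendsto_nat_of_nonneg fun k => mul_nonneg (Nat.cast_nonneg _) (ap k).le]
    have e : ∀ n, ∑ k ∈ Finset.range n, ⌊rem a k / a k⌋₊ * a k = 1 - rem a n := fun n => by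
      induction n with
      | zero => simp [rem]
      | succ n ih => rw [Finset.sum_range_succ, ih, rem]; ring
    simp only [e]
    simpa using ((tendsto_add_atTop_iff_nat 1).1
      (squeeze_zero (fun k => (h1 _).1) h3 h5)).const_sub 1
  have h7 : Z r {e : A | (e.2 : ℕ) < ⌊rem a e.1 / a e.1⌋₊} s = 1 := by
    rw [Z_cnt _ h4, ← ENNReal.ofReal_tsum_of_nonneg
      (fun k => mul_nonneg (Nat.cast_nonneg _) (ap k).le) h6.summable, h6.tsum_eq]; simp
  refine ⟨_, nonempty_iff_ne_empty.2 fun c => ?_, ifs.eq hs h7⟩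
  rw [c] at h7; simp [Z] at h7

noncomputable def sk (k : ℕ) : ℝ := 1 / 2 + 1 / (2 * m k)

lemma m_pos (k : ℕ) : (0 : ℝ) < m k := by exact_mod_cast (show 0 < m k by have := m_ge k; omega)
lemma sk_gt (k : ℕ) : 1 / 2 < sk k := lt_add_of_pos_right _ (by have := m_pos k; positivity)

lemma block (k : ℕ) : ∃ F : Set A, F.Nonempty ∧ D r b F = sk k := by
  have h7 : Z r {e : A | (e.2 : ℕ) < if e.1 = k then M e.1 else 0} (sk k) = 1 := by
    rw [Z_cnt (fun j => if j = k then M j else 0) fun j => by split_ifs <;> simp,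
      tsum_eq_single k fun j hj => by simp [hj], if_pos rfl, Mρs,
      ← Real.rpow_mul_natCast (by norm_num)]
    have := m_pos k
    rw [show (2 * sk k - 1) * m k = 1 by unfold sk; field_simp; ring]; simp
  refine ⟨_, nonempty_iff_ne_empty.2 fun c => ?_, ifs.eq (by linarith [sk_gt k]) h7⟩
  rw [c] at h7; simp [Z] at h7

lemma sk_lim : Tendsto sk atTop (𝓝 (1 / 2)) := by
  have : Tendsto (fun k => (2 * m k : ℝ)) atTop atTop :=
    (tendsto_natCast_atTop_atTop.comp (tendsto_atTop_mono (f := id) (fun k => by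
      have := m_ge k; simp only [id]; omega) tendsto_id)).const_mul_atTop two_pos
  have := (this.const_div_atTop 1).const_add (1 / 2 : ℝ)
  rw [add_zero] at this; exact this

def B (K : ℕ) : Finset A := (Finset.range K).sigma fun _ => Finset.univ

lemma B_card (K : ℕ) : (B K).card = L K := by
  rw [B, Finset.card_sigma]
  induction K with
  | zero => rfl
  | succ K ih => rw [Finset.sum_range_succ, ih, Finset.card_univ, Fintype.card_fin]; rfl

lemma Z_split {F F' : Set A} {K : ℕ} (h : ∀ e ∈ B K, e ∈ F' → e ∈ F) {u ε : ℝ} (hε : 0 < ε)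
    (hu : 1 / 2 + ε ≤ u) : Z r F' u ≤ Z r F u +
      ENNReal.ofReal (2 * (1 - (1 / 2) ^ ε)⁻¹ * ((1 / 2) ^ ε) ^ ((K + 1) * L K)) := by
  set q : ℝ := (1 / 2) ^ ε
  have q0 : 0 ≤ q := by positivity
  have q1 : q < 1 := Real.rpow_lt_one (by norm_num) (by norm_num) hε
  have a1 : Z r F' u ≤ Z r F u + Z r {e : A | (e.2 : ℕ) < if K ≤ e.1 then M e.1 else 0} u := by
    rw [Z, Z, Z, ← ENNReal.tsum_add]
    refine ENNReal.tsum_le_tsum fun e => ?_
    by_cases c : e ∈ F'
    · rw [indicator_of_mem c]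
      by_cases d : K ≤ e.1
      · rw [indicator_of_mem (s := {e : A | _}) (by simp [d])]; exact le_add_self
      · rw [indicator_of_mem (h e (by simpa [B] using d) c)]; exact le_self_add
    · simp [c]
  refine a1.trans (add_le_add_right ?_ _)
  have hs := ((hasSum_geometric_of_lt_one q0 q1).mul_left 2).mul_right (q ^ ((K + 1) * L K))
  rw [Z_cnt (fun j => if K ≤ j then M j else 0) fun j => by split_ifs <;> simp, ← hs.tsum_eq,
    ENNReal.ofReal_tsum_of_nonneg (fun _ => by positivity) hs.summable]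
  refine ENNReal.tsum_le_tsum fun k => ENNReal.ofReal_le_ofReal ?_
  split_ifs with c
  · rw [Mρs, mul_assoc, ← pow_add]
    have : (1 / 2 : ℝ) ^ (2 * u - 1) ≤ q :=
      Real.rpow_le_rpow_of_exponent_ge (by norm_num) (by norm_num) (by linarith)
    refine mul_le_mul_of_nonneg_left ((pow_le_pow_left₀ (by positivity) this _).trans
      (pow_le_pow_of_le_one q0 q1.le ?_)) zero_le_two
    have := L_mono c
    unfold m; nlinarith [Nat.mul_le_mul (Nat.succ_le_succ c) this]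
  · simp only [Nat.cast_zero, zero_mul]; positivity

lemma half_pow {t : ℝ} (h0 : 0 ≤ t) (h1 : t ≤ 1) : (1 / 2 : ℝ) ^ t ≤ 1 - t / 4 := by
  rw [Real.rpow_def_of_pos (by norm_num), one_div, Real.log_inv, neg_mul, Real.exp_neg,
    inv_le_comm₀ (Real.exp_pos _) (by linarith)]
  refine le_trans ?_ (Real.add_one_le_exp _)
  rw [inv_eq_one_div, div_le_iff₀ (by linarith)]
  have := Real.log_two_gt_d9
  nlinarith [mul_nonneg h0 (sub_nonneg.2 h1), mul_nonneg h0 (show 0 ≤ Real.log 2 - 0.6 by linarith),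
    mul_nonneg (mul_nonneg h0 (show 0 ≤ Real.log 2 - 0.6 by linarith)) (sub_nonneg.2 h1)]

lemma close {F F' : Set A} {K : ℕ} (h : ∀ e ∈ B K, e ∈ F' → e ∈ F) {ε : ℝ} (hε : 0 < ε)
    (hu : 1 / 2 + ε ≤ D r b F) : D r b F' - D r b F ≤
      24 * (1 - (1 / 2) ^ ε)⁻¹ * ((1 / 2) ^ ε) ^ ((K + 1) * L K) := by
  have q1 : (1 / 2 : ℝ) ^ ε < 1 := Real.rpow_lt_one (by norm_num) (by norm_num) hε
  have := sub_pos.2 q1
  have p : 0 ≤ 2 * (1 - (1 / 2 : ℝ) ^ ε)⁻¹ * ((1 / 2) ^ ε) ^ ((K + 1) * L K) := by positivity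
  rcases le_or_gt (D r b F') (D r b F) with c | c
  · linarith
  have d1 : D r b F' ≤ 1 := ENNReal.toReal_le_of_le_ofReal zero_le_one (by simpa using dim_one _)
  set t := (D r b F' - D r b F) / 3 with ht
  have a1 : Z r F (D r b F + t) ≤ 1 := not_lt.1 fun d => by
    have := ifs.low (by linarith) d; linarith
  have a2 : 1 ≤ Z r F' (D r b F + t + t) := not_lt.1 fun d => by
    have := ifs.up (by linarith) d; linarith
  have a3 := (ifs.decay F (show D r b F + t ≤ D r b F + t + t by linarith)).trans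
    (mul_le_mul_right a1 _)
  have a4 := a2.trans ((Z_split h hε (by linarith)).trans (add_le_add_left a3 _))
  rw [mul_one, ← ENNReal.ofReal_add (by positivity) p, ENNReal.one_le_ofReal,
    add_sub_cancel_left] at a4
  have := half_pow (t := t) (by linarith) (by linarith)
  linarith

lemma thin {ε : ℝ} (hε : 0 < ε) : dimH (range (D r b) ∩ Ici (1 / 2 + ε)) = 0 := by
  classical
  set q : ℝ := (1 / 2) ^ ε
  have q0 : 0 < q := by positivity
  have q1 : q < 1 := Real.rpow_lt_one (by norm_num) (by norm_num) hε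
  have := sub_pos.2 q1
  refine le_antisymm (ENNReal.le_of_forall_pos_le_add fun σ hσ _ => ?_) (by simp)
  have hσ' : (0 : ℝ) < σ := hσ
  rw [zero_add, ← ENNReal.ofReal_coe_nnreal]
  refine dim_le hσ' (le_antisymm ?_ (by simp))
  set c := (24 * (1 - q)⁻¹) ^ (σ : ℝ)
  have w1 : q ^ (σ : ℝ) < 1 := Real.rpow_lt_one q0.le q1 hσ'
  have t0 : Tendsto (fun K : ℕ => 2 * (q ^ (σ : ℝ)) ^ (K + 1)) atTop (𝓝 0) := by
    simpa using ((tendsto_pow_atTop_nhds_zero_of_lt_one (by positivity) w1).comp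
      (tendsto_add_atTop_nat 1)).const_mul 2
  have t1 : Tendsto (fun K : ℕ => ENNReal.ofReal (c * (2 * (q ^ (σ : ℝ)) ^ (K + 1)))) atTop (𝓝 0) := by
    simpa using ENNReal.tendsto_ofReal (t0.const_mul c)
  refine ge_of_tendsto t1 ?_
  filter_upwards [t0.eventually (eventually_le_nhds one_pos), eventually_ge_atTop 1] with K h1 h2
  set S : Finset A → Set ℝ := fun G =>
    {x | ∃ F, D r b F = x ∧ 1 / 2 + ε ≤ x ∧ (B K).filter (· ∈ F) = G}
  have a1 : range (D r b) ∩ Ici (1 / 2 + ε) ⊆ ⋃ G ∈ (B K).powerset, S G := by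
    rintro _ ⟨⟨F, rfl⟩, hF⟩
    exact mem_biUnion (Finset.mem_powerset.2 (Finset.filter_subset _ _)) ⟨F, rfl, hF, rfl⟩
  have a2 : ∀ G ∈ (B K).powerset, h σ (S G) ≤
      ENNReal.ofReal (c * ((q ^ (σ : ℝ)) ^ (K + 1)) ^ L K) := fun G _ => by
    refine (h_le _ _).trans ?_
    rw [← pow_mul, Real.rpow_pow_comm q0.le, ← Real.mul_rpow (by positivity) (by positivity),
      ← ENNReal.ofReal_rpow_of_nonneg (by positivity) hσ'.le]
    gcongr
    refine ediam_le ?_
    rintro _ ⟨F, rfl, f1, f2⟩ _ ⟨F', rfl, g1, g2⟩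
    have e : ∀ e ∈ B K, e ∈ F ↔ e ∈ F' := fun e he => by
      simpa [he] using Finset.ext_iff.1 (f2.trans g2.symm) e
    rw [edist_dist, Real.dist_eq]
    exact ENNReal.ofReal_le_ofReal (abs_sub_le_iff.2
      ⟨close (fun x hx => (e x hx).1) hε g1, close (fun x hx => (e x hx).2) hε f1⟩)
  refine (measure_mono a1).trans ((measure_biUnion_finset_le _ _).trans
    ((Finset.sum_le_card_nsmul _ _ _ a2).trans ?_))
  rw [Finset.card_powerset, B_card, nsmul_eq_mul, ← ENNReal.ofReal_natCast,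
    ← ENNReal.ofReal_mul (Nat.cast_nonneg _)]
  refine ENNReal.ofReal_le_ofReal ?_
  push_cast
  rw [mul_left_comm, ← mul_pow]
  refine mul_le_mul_of_nonneg_left (pow_le_of_le_one (by positivity) h1 ?_) (by positivity)
  have := L_mono h2
  simp only [L] at this; omega

variable {T : Set ℝ}

lemma loc0 (h : T ⊆ range (D r b)) {x : ℝ} (hx : 1 / 2 < x) : locDim T x = 0 := by
  refine le_antisymm ((iInf₂_le ((x - 1 / 2) / 2) (by linarith)).trans ?_) (by simp)
  rw [← thin (ε := (x - 1 / 2) / 2) (by linarith)]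
  refine dimH_mono (inter_subset_inter h fun y hy => ?_)
  rw [mem_ball, Real.dist_eq, abs_lt] at hy
  simp only [mem_Ici]; linarith

lemma dim_Ioo {x y : ℝ} (h : x < y) (hT : Ioo x y ⊆ T) : dimH T = 1 := by
  rw [Real.dimH_of_nonempty_interior ⟨(x + y) / 2, mem_interior.2
    ⟨_, hT, isOpen_Ioo, by constructor <;> linarith⟩⟩]; simp

lemma loc1 (h : Ioc 0 (1 / 2) ⊆ T) : locDim T (1 / 2) = 1 := by
  refine le_antisymm ((iInf₂_le 1 one_pos).trans (dim_one _)) (le_iInf₂ fun ε hε => ?_)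
  refine (dim_Ioo (T := T ∩ ball (1 / 2) ε) (x := max 0 (1 / 2 - ε)) (y := 1 / 2) (max_lt (by norm_num) (by linarith))
    fun y hy => ⟨h ⟨(max_lt_iff.1 hy.1).1, hy.2.le⟩, ?_⟩).ge
  rw [mem_ball, Real.dist_eq, abs_lt]
  constructor <;> linarith [(max_lt_iff.1 hy.1).2, hy.2]

end Pool.Agent.H43.Sp
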