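import Mathlib

open Set

namespace Pool.Agent.H43.Sp

variable {E : Type}

/-- the similarity `x ↦ r e * x + b e` -/
def sim (r b : E → ℝ) (e : E) (x : ℝ) : ℝ := r e * x + b e

/-- `comp φ ω n` is the composition of `φ (ω 0), ..., φ (ω (n-1))`, the first outermost -/
def comp (φ : E → ℝ → ℝ) (ω : ℕ → E) : ℕ → ℝ → ℝ
  | 0 => id
  | n + 1 => comp φ ω n ∘ φ (ω n)

/-- limit set of the subsystem `F` acting on `X = [0,1]` -/
def J (φ : E → ℝ → ℝ) (F : Set E) : Set ℝ :=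
  ⋃ ω : ℕ → E, ⋃ _ : ∀ n, ω n ∈ F, ⋂ n, comp φ ω n '' Icc 0 1

/-- local Hausdorff dimension -/
noncomputable def locDim (S : Set ℝ) (x : ℝ) : ENNReal := ⨅ ε > 0, dimH (S ∩ Metric.ball x ε)

/-- similarities of ratio at most `1/2` mapping `[0,1]` onto pairwise disjoint subintervals -/
structure SimIFS (r b : E → ℝ) : Prop where
  pos : ∀ e, 0 < r e
  half : ∀ e, r e ≤ 1 / 2
  left : ∀ e, 0 ≤ b e
  right : ∀ e, b e + r e ≤ 1
  sep : ∀ e e', e ≠ e' → b e + r e < b e' ∨ b e' + r e' < b e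

end Pool.Agent.H43.Sp
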