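import Mathlib

set_option autoImplicit false

namespace Pool.Agent.H43.Stair

open Filter Topology

/-- birth-death averaging operator -/
noncomputable def bd (f b : ℕ → ℝ) : (ℕ → ℝ) →ₗ[ℝ] (ℕ → ℝ) where
  toFun φ n := f n * φ (n + 1) + b n * φ (n - 1) + (1 - f n - b n) * φ n
  map_add' φ ψ := by funext n; simp only [Pi.add_apply]; ring
  map_smul' c φ := by funext n; simp only [Pi.smul_apply, smul_eq_mul, RingHom.id_apply]; ring

lemma bd_apply (f b φ : ℕ → ℝ) (n : ℕ) :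
    bd f b φ n = f n * φ (n + 1) + b n * φ (n - 1) + (1 - f n - b n) * φ n := rfl

lemma exists_lyap (f b : ℕ → ℝ) (hf : ∀ n, 0 < f n) (hb : ∀ n, 0 ≤ b n) (κ : ℝ) (hκ : κ < 1)
    (hev : ∀ᶠ n in atTop, b n < κ * f n) (k : ℕ) :
    ∃ W : ℕ → ℝ, (∀ n, 0 ≤ W n) ∧ Tendsto W atTop (𝓝 0) ∧ (∀ n, bd f b W n < W n) ∧
      ∀ n ≤ k, bd f b W n + 1 ≤ W n := by
  classical
  let c : ℕ → ℝ := fun n => if b n < κ * f n then κ else b n / f n + 1
  have hc : ∀ n, b n < c n * f n := by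
    intro n
    simp only [c]
    split_ifs with h
    · exact h
    · rw [add_mul, div_mul_cancel₀ _ (hf n).ne']; linarith [hf n]
  have hc0 : ∀ n, 0 < c n := fun n => pos_of_mul_pos_of_pos_right' (hf n) (hb n) (hc n)
  let d : ℕ → ℝ := fun n => ∏ m ∈ Finset.range (n + 1), c m
  have hd0 : ∀ n, 0 < d n := fun n => Finset.prod_pos fun m _ => hc0 m
  have hds : ∀ n, d (n + 1) = d n * c (n + 1) := fun n => Finset.prod_range_succ _ _
  have hsum : Summable d := by
    refine summable_of_ratio_norm_eventually_le hκ ?_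
    filter_upwards [(tendsto_add_atTop_nat 1).eventually hev] with n hn
    rw [hds, Real.norm_of_nonneg (mul_pos (hd0 n) (hc0 _)).le, Real.norm_of_nonneg (hd0 n).le]
    simp only [c, if_pos hn]
    rw [mul_comm]
  let W : ℕ → ℝ := fun n => ∑' m, d (m + n)
  have hW : ∀ n, W n = d n + W (n + 1) := by
    intro n
    simp only [W]
    rw [((summable_nat_add_iff n).2 hsum).tsum_eq_zero_add]
    simp only [zero_add]
    congr 1
    exact tsum_congr fun m => by rw [add_right_comm, add_assoc]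
  have hW0 : ∀ n, 0 ≤ W n := fun n => tsum_nonneg fun m => (hd0 _).le
  have hWt : Tendsto W atTop (𝓝 0) := tendsto_sum_nat_add d
  clear_value W d c
  have hlt : ∀ n, bd f b W n < W n := by
    intro n
    rw [bd_apply]
    cases n with
    | zero =>
      have := hW 0
      have h2 := mul_pos (hf 0) (hd0 0)
      simp only [zero_add, zero_tsub] at this ⊢
      have e : W 1 = W 0 - d 0 := by linarith
      rw [e]; nlinarith
    | succ n =>
      have h1 := hW n
      have h2 := hW (n + 1)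
      have h3 := mul_lt_mul_of_pos_right (hc (n + 1)) (hd0 n)
      rw [hds] at h2
      simp only [add_tsub_cancel_right]
      rw [h1, h2]; nlinarith
  obtain ⟨m, -, hm⟩ := (Finset.range (k + 1)).exists_min_image (fun n => W n - bd f b W n)
    ⟨0, by simp⟩
  have hδ : 0 < W m - bd f b W m := sub_pos.2 (hlt m)
  set δ := W m - bd f b W m
  refine ⟨δ⁻¹ • W, fun n => mul_nonneg (inv_pos.2 hδ).le (hW0 n), ?_, fun n => ?_, fun n hn => ?_⟩
  · have := hWt.const_mul δ⁻¹
    rw [mul_zero] at this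
    exact this
  · rw [map_smul]
    exact mul_lt_mul_of_pos_left (hlt n) (inv_pos.2 hδ)
  · rw [map_smul]
    have := hm n (Finset.mem_range.2 (by omega))
    simp only [Pi.smul_apply, smul_eq_mul]
    have h2 := mul_le_mul_of_nonneg_left this (inv_pos.2 hδ).le
    rw [inv_mul_cancel₀ hδ.ne'] at h2
    linarith
where
  pos_of_mul_pos_of_pos_right' {x y z : ℝ} (hy : 0 < y) (hz : 0 ≤ z) (h : z < x * y) : 0 < x := by
    by_contra hx
    push Not at hx
    nlinarith

theorem schedule (Q : ℕ → (ℕ → ℝ) →ₗ[ℝ] (ℕ → ℝ)) (hQ : ∀ k φ, 0 ≤ φ → 0 ≤ Q k φ)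
    (hQ1 : ∀ k, Q k 1 = 1) (W : ℕ → ℕ → ℝ) (hW0 : ∀ k n, 0 ≤ W k n)
    (hW1 : ∀ k, Tendsto (W k) atTop (𝓝 0)) (hW2 : ∀ k n, Q k (W k) n < W k n) :
    ∃ (k : ℕ → ℕ) (L : ℕ → (ℕ → ℝ) →ₗ[ℝ] ℝ), Monotone k ∧ Tendsto k atTop atTop ∧
      (∀ φ, L 0 φ = φ 0) ∧ (∀ t φ, L (t + 1) φ = L t (Q (k (t + 1)) φ)) ∧
      (∀ t φ, 0 ≤ φ → 0 ≤ L t φ) ∧
      Summable fun t => L t (W (k (t + 1)) - Q (k (t + 1)) (W (k (t + 1)))) := by
  classical
  let nxt : ℕ × ((ℕ → ℝ) →ₗ[ℝ] ℝ) → ℕ := fun s =>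
    if s.2 (W (s.1 + 1)) ≤ (1 / 2) ^ (s.1 + 1) then s.1 + 1 else s.1
  let S : ℕ → ℕ × ((ℕ → ℝ) →ₗ[ℝ] ℝ) := fun t =>
    Nat.rec (0, LinearMap.proj 0) (fun _ s => (nxt s, s.2 ∘ₗ Q (nxt s))) t
  let k : ℕ → ℕ := fun t => (S t).1
  let L : ℕ → (ℕ → ℝ) →ₗ[ℝ] ℝ := fun t => (S t).2
  have hk : ∀ t, k (t + 1) =
      if L t (W (k t + 1)) ≤ (1 / 2) ^ (k t + 1) then k t + 1 else k t := fun t => rfl
  have hL : ∀ t φ, L (t + 1) φ = L t (Q (k (t + 1)) φ) := fun t φ => rfl
  have hL0 : ∀ φ, L 0 φ = φ 0 := fun φ => rfl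
  clear_value k L
  have hpos : ∀ t φ, 0 ≤ φ → 0 ≤ L t φ := by
    intro t
    induction t with
    | zero => intro φ h; rw [hL0]; exact h 0
    | succ t ih => intro φ h; rw [hL]; exact ih _ (hQ _ _ h)
  have hone : ∀ t, L t 1 = 1 := by
    intro t
    induction t with
    | zero => rw [hL0]; rfl
    | succ t ih => rw [hL, hQ1, ih]
  have hmono : Monotone k := monotone_nat_of_le_succ fun t => by
    rw [hk]; split_ifs <;> omega
  let G : ℕ → ℕ → ℝ := fun j => W j - Q j (W j)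
  have hG : ∀ j n, 0 < G j n := fun j n => sub_pos.2 (hW2 j n)
  let Ψ : ℕ → ℝ := fun t => L t (W (k t)) + (1 / 2) ^ k t
  have hΨ0 : ∀ t, 0 ≤ Ψ t := fun t => add_nonneg (hpos _ _ (hW0 _)) (by positivity)
  have hΨ : ∀ t, Ψ (t + 1) + L t (G (k (t + 1))) ≤ Ψ t := by
    intro t
    simp only [Ψ, G, map_sub]
    rw [hL]
    have := hk t
    split_ifs at this with h
    · rw [this]
      have h2 := hpos t _ (hW0 (k t))
      rw [pow_succ] at h ⊢
      linarith
    · rw [this]; linarith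
  have hsum : Summable fun t => L t (G (k (t + 1))) := by
    refine summable_of_sum_range_le (c := Ψ 0) (fun t => hpos _ _ fun n => (hG _ n).le) fun N => ?_
    have : ∑ t ∈ Finset.range N, L t (G (k (t + 1))) + Ψ N ≤ Ψ 0 := by
      induction N with
      | zero => simp
      | succ N ih => rw [Finset.sum_range_succ]; linarith [hΨ N]
    linarith [hΨ0 N]
  refine ⟨k, L, hmono, ?_, hL0, hL, hpos, hsum⟩
  rcases tendsto_atTop_of_monotone hmono with h | ⟨j, h⟩
  · exact h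
  exfalso
  have hev : ∀ᶠ t in atTop, k t = j := by simpa using h
  set ε : ℝ := (1 / 2) ^ (j + 1) / 2 with hε
  have hε0 : 0 < ε := by positivity
  obtain ⟨N, hN⟩ := eventually_atTop.1 ((hW1 (j + 1)).eventually (gt_mem_nhds hε0))
  set C := ∑ n ∈ Finset.range N, W (j + 1) n / G j n with hC
  have hC0 : 0 ≤ C := Finset.sum_nonneg fun n _ => div_nonneg (hW0 _ _) (hG _ _).le
  have hle : 0 ≤ ε • (1 : ℕ → ℝ) + C • G j - W (j + 1) := by
    intro n
    simp only [Pi.sub_apply, Pi.add_apply, Pi.smul_apply, smul_eq_mul, Pi.one_apply, mul_one,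
      Pi.zero_apply]
    by_cases hn : n < N
    · have := Finset.single_le_sum (f := fun n => W (j + 1) n / G j n)
        (fun n _ => div_nonneg (hW0 _ _) (hG _ _).le) (Finset.mem_range.2 hn)
      rw [← hC, div_le_iff₀ (hG j n)] at this
      linarith
    · have := hN n (by omega)
      have h2 := mul_nonneg hC0 (hG j n).le
      linarith
  have ht := (hsum.tendsto_atTop_zero.const_mul C).eventually
    (gt_mem_nhds (by rw [mul_zero]; exact hε0 : C * 0 < ε))
  obtain ⟨t, h1, h2, h3⟩ := (hev.and (((tendsto_add_atTop_nat 1).eventually hev).and ht)).exists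
  have h4 := hpos t _ hle
  rw [map_sub, map_add, map_smul, map_smul, hone] at h4
  simp only [smul_eq_mul, mul_one] at h4
  rw [h2] at h3
  have h5 := hk t
  rw [h1, h2, if_pos (by linarith)] at h5
  omega

end Pool.Agent.H43.Stair
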