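import Pool.Agent.H45.ChainDefs

set_option autoImplicit false

namespace Pool.Agent.H43.Stair

open MeasureTheory ProbabilityTheory

/-- Unnormalised target weight: `j⁻²` on the stair, `0` off it. -/
noncomputable def piW (x : ℕ × ℕ) : ℝ :=
  if 1 ≤ x.2 ∧ (x.1 = x.2 ∨ x.1 = x.2 + 1) then 1 / (x.2 : ℝ) ^ 2 else 0

/-- Acceptance probability `π(y) / (π(y) + π(x))`. -/
noncomputable def acc (x y : ℕ × ℕ) : ℝ := piW y / (piW y + piW x)

/-- Forward neighbour: `(j,j) ↦ (j+1,j)` and `(j+1,j) ↦ (j+1,j+1)`. -/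
def fwd (x : ℕ × ℕ) : ℕ × ℕ := if x.1 = x.2 then (x.1 + 1, x.2) else (x.1, x.2 + 1)

/-- Backward neighbour: `(j,j) ↦ (j,j-1)` and `(j+1,j) ↦ (j,j)`. -/
def bwd (x : ℕ × ℕ) : ℕ × ℕ := if x.1 = x.2 then (x.1, x.2 - 1) else (x.1 - 1, x.2)

/-- One step of the pair (time, position): from time `t` and position `x`, step `t + 1` proposes
the forward neighbour with probability `p (t + 1) x` and the backward one otherwise, accepts with
probability `acc`, and stays at `x` if the proposal is rejected. -/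
noncomputable def stairKernel (p : ℕ → ℕ × ℕ → unitInterval) : Kernel (ℕ × ℕ × ℕ) (ℕ × ℕ × ℕ) :=
  Kernel.ofFunOfCountable fun s =>
    ENNReal.ofReal (p (s.1 + 1) s.2 * acc s.2 (fwd s.2)) • Measure.dirac (s.1 + 1, fwd s.2) +
    ENNReal.ofReal ((1 - p (s.1 + 1) s.2) * acc s.2 (bwd s.2)) • Measure.dirac (s.1 + 1, bwd s.2) +
    ENNReal.ofReal (p (s.1 + 1) s.2 * (1 - acc s.2 (fwd s.2)) +
      (1 - p (s.1 + 1) s.2) * (1 - acc s.2 (bwd s.2))) • Measure.dirac (s.1 + 1, s.2)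

lemma piW_nonneg (x : ℕ × ℕ) : 0 ≤ piW x := by
  unfold piW; split_ifs <;> positivity

lemma acc_nonneg (x y : ℕ × ℕ) : 0 ≤ acc x y :=
  div_nonneg (piW_nonneg y) (add_nonneg (piW_nonneg y) (piW_nonneg x))

lemma acc_le_one (x y : ℕ × ℕ) : acc x y ≤ 1 :=
  div_le_one_of_le₀ (le_add_of_nonneg_right (piW_nonneg x))
    (add_nonneg (piW_nonneg y) (piW_nonneg x))

instance (p : ℕ → ℕ × ℕ → unitInterval) : IsMarkovKernel (stairKernel p) :=
  ⟨fun s => ⟨by
    have h0 := (p (s.1 + 1) s.2).2.1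
    have h1 := sub_nonneg.2 (p (s.1 + 1) s.2).2.2
    have a1 := mul_nonneg h0 (acc_nonneg s.2 (fwd s.2))
    have a2 := mul_nonneg h1 (acc_nonneg s.2 (bwd s.2))
    have a3 := add_nonneg (mul_nonneg h0 (sub_nonneg.2 (acc_le_one s.2 (fwd s.2))))
      (mul_nonneg h1 (sub_nonneg.2 (acc_le_one s.2 (bwd s.2))))
    simp only [stairKernel, Kernel.ofFunOfCountable, Kernel.coe_mk, Measure.add_apply,
      Measure.smul_apply, measure_univ, smul_eq_mul, mul_one]
    rw [← ENNReal.ofReal_add a1 a2, ← ENNReal.ofReal_add (add_nonneg a1 a2) a3,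
      ← ENNReal.ofReal_one]
    congr 1
    ring⟩⟩

/-- Law of the trajectory of (time, position), started at time `0` in `(1,1)`. -/
noncomputable def stairLaw (p : ℕ → ℕ × ℕ → unitInterval) : Measure (ℕ → ℕ × ℕ × ℕ) :=
  Pool.Agent.H45.Chain.pathLaw (stairKernel p) (0, 1, 1)

end Pool.Agent.H43.Stair
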