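import Pool.Agent.H43.StairDefs
import Pool.Agent.H43.StairBD
import Pool.Agent.H45.Chain

set_option autoImplicit false

namespace Pool.Agent.H43.Stair

open MeasureTheory ProbabilityTheory Filter Topology Pool.Agent.H45.Chain
open scoped ENNReal

/-- real averaging operator of the kernel -/
noncomputable def avg (p : ℕ → ℕ × ℕ → unitInterval) (φ : ℕ × ℕ × ℕ → ℝ) (s : ℕ × ℕ × ℕ) : ℝ :=
  p (s.1 + 1) s.2 * acc s.2 (fwd s.2) * φ (s.1 + 1, fwd s.2) +
    (1 - p (s.1 + 1) s.2) * acc s.2 (bwd s.2) * φ (s.1 + 1, bwd s.2) +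
    (p (s.1 + 1) s.2 * (1 - acc s.2 (fwd s.2)) +
      (1 - p (s.1 + 1) s.2) * (1 - acc s.2 (bwd s.2))) * φ (s.1 + 1, s.2)

lemma kernel_avg (p : ℕ → ℕ × ℕ → unitInterval) (φ : ℕ × ℕ × ℕ → ℝ) (hφ : 0 ≤ φ)
    (s : ℕ × ℕ × ℕ) : 0 ≤ avg p φ s ∧
      ∑' w, stairKernel p s {w} * ENNReal.ofReal (φ w) = ENNReal.ofReal (avg p φ s) := by
  have h0 := (p (s.1 + 1) s.2).2.1
  have h1 := sub_nonneg.2 (p (s.1 + 1) s.2).2.2
  have a1 := mul_nonneg h0 (acc_nonneg s.2 (fwd s.2))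
  have a2 := mul_nonneg h1 (acc_nonneg s.2 (bwd s.2))
  have a3 := add_nonneg (mul_nonneg h0 (sub_nonneg.2 (acc_le_one s.2 (fwd s.2))))
    (mul_nonneg h1 (sub_nonneg.2 (acc_le_one s.2 (bwd s.2))))
  have b1 := mul_nonneg a1 (hφ (s.1 + 1, fwd s.2))
  have b2 := mul_nonneg a2 (hφ (s.1 + 1, bwd s.2))
  have b3 := mul_nonneg a3 (hφ (s.1 + 1, s.2))
  refine ⟨add_nonneg (add_nonneg b1 b2) b3, ?_⟩
  have : ∑' w, stairKernel p s {w} * ENNReal.ofReal (φ w) =
      ∫⁻ w, ENNReal.ofReal (φ w) ∂(stairKernel p s) := by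
    rw [lintegral_countable']
    exact tsum_congr fun w => mul_comm _ _
  rw [this, avg, ENNReal.ofReal_add (add_nonneg b1 b2) b3, ENNReal.ofReal_add b1 b2,
    ENNReal.ofReal_mul a1, ENNReal.ofReal_mul a2, ENNReal.ofReal_mul a3]
  simp only [stairKernel, Kernel.ofFunOfCountable, Kernel.coe_mk, lintegral_add_measure,
    lintegral_smul_measure, lintegral_dirac, smul_eq_mul]

lemma marginal {V : Type} [MeasurableSpace V] [Countable V] [MeasurableSingletonClass V]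
    (K : Kernel V V) [IsMarkovKernel K] (t : ℕ) : ∀ (φ : V → ℝ≥0∞) (u : V),
    ∫⁻ x, φ (x t) ∂pathLaw K u = (fun ψ u => ∑' w, K u {w} * ψ w)^[t] φ u := by
  induction t with
  | zero =>
    intro φ u
    rw [lintegral_first_step K u (fun x => φ (x 0))
      ((measurable_of_countable φ).comp (measurable_pi_apply 0))]
    simp [ENNReal.tsum_mul_right, tsum_kernel]
  | succ t ih =>
    intro φ u
    rw [lintegral_first_step K u (fun x => φ (x (t + 1)))
      ((measurable_of_countable φ).comp (measurable_pi_apply _)),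
      Function.iterate_succ_apply']
    exact tsum_congr fun w => by rw [← ih]; rfl

lemma marginal_real (p : ℕ → ℕ × ℕ → unitInterval) (t : ℕ) : ∀ (φ : ℕ × ℕ × ℕ → ℝ), 0 ≤ φ →
    (fun ψ u => ∑' w, stairKernel p u {w} * ψ w)^[t] (fun w => ENNReal.ofReal (φ w)) =
      fun u => ENNReal.ofReal ((avg p)^[t] φ u) := by
  induction t with
  | zero => intro φ _; rfl
  | succ t ih =>
    intro φ hφ
    rw [Function.iterate_succ_apply, Function.iterate_succ_apply,
      ← ih _ (fun s => (kernel_avg p φ hφ s).1)]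
    congr 1
    funext s
    exact (kernel_avg p φ hφ s).2

def pos (n : ℕ) : ℕ × ℕ := ((n + 1) / 2 + 1, n / 2 + 1)

lemma fwd_pos (n : ℕ) : fwd (pos n) = pos (n + 1) := by
  simp only [fwd, pos]
  split_ifs with h <;> ext <;> simp only <;> omega

lemma bwd_pos (n : ℕ) : bwd (pos (n + 1)) = pos n := by
  simp only [bwd, pos]
  split_ifs with h <;> ext <;> simp only <;> omega

lemma piW_pos (n : ℕ) : piW (pos n) = 1 / ((n / 2 + 1 : ℕ) : ℝ) ^ 2 := by
  simp only [piW, pos]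
  rw [if_pos ⟨by omega, by omega⟩]

lemma acc_bwd_zero : acc (pos 0) (bwd (pos 0)) = 0 := by
  simp [acc, bwd, pos, piW]

noncomputable def fc (q : ℝ) (n : ℕ) : ℝ := q * acc (pos n) (fwd (pos n))
noncomputable def bc (q : ℝ) (n : ℕ) : ℝ := (1 - q) * acc (pos n) (bwd (pos n))

lemma avg_pos (p : ℕ → ℕ × ℕ → unitInterval) (φ : ℕ × ℕ × ℕ → ℝ) (t n : ℕ) (q : ℝ)
    (hq : (p (t + 1) (pos n) : ℝ) = q) :
    avg p φ (t, pos n) = bd (fc q) (bc q) (fun m => φ (t + 1, pos m)) n := by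
  rw [bd_apply, avg]
  simp only [fc, bc, hq]
  cases n with
  | zero => rw [acc_bwd_zero, fwd_pos]; ring
  | succ n => rw [fwd_pos, bwd_pos, add_tsub_cancel_right]; ring

lemma fc_pos {q : ℝ} (hq : 0 < q) (n : ℕ) : 0 < fc q n := by
  rw [fc, fwd_pos, acc, piW_pos, piW_pos]
  positivity

lemma accF_ge (δ : ℝ) (hδ : 0 < δ) : ∀ᶠ n in atTop, (1 - δ) / 2 ≤ acc (pos n) (pos (n + 1)) := by
  obtain ⟨N, hN⟩ := exists_nat_gt (3 / δ)
  filter_upwards [eventually_ge_atTop (2 * N)] with n hn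
  rw [acc, piW_pos, piW_pos]
  have h1 : (N : ℝ) ≤ ((n / 2 + 1 : ℕ) : ℝ) := by exact_mod_cast (by omega)
  have h2 : ((n / 2 + 1 : ℕ) : ℝ) ≤ (((n + 1) / 2 + 1 : ℕ) : ℝ) := by exact_mod_cast (by omega)
  have h3 : (((n + 1) / 2 + 1 : ℕ) : ℝ) ≤ ((n / 2 + 1 : ℕ) : ℝ) + 1 := by
    exact_mod_cast (by omega)
  have h4 : (1 : ℝ) ≤ ((n / 2 + 1 : ℕ) : ℝ) := by exact_mod_cast (by omega)
  generalize ((n / 2 + 1 : ℕ) : ℝ) = j at *
  generalize (((n + 1) / 2 + 1 : ℕ) : ℝ) = i at *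
  rw [div_lt_iff₀ hδ] at hN
  have hj : 0 < j := by linarith
  have hi : 0 < i := by linarith
  have e : 1 / i ^ 2 / (1 / i ^ 2 + 1 / j ^ 2) = j ^ 2 / (j ^ 2 + i ^ 2) := by
    field_simp
  rw [e, div_le_div_iff₀ (by norm_num) (by positivity)]
  have h5 : 3 < δ * j := by nlinarith
  have h6 : i ^ 2 ≤ j ^ 2 + 3 * j := by nlinarith
  have h7 : 3 * j ≤ δ * j ^ 2 := by nlinarith
  have h8 : 0 ≤ δ * i ^ 2 := by positivity
  nlinarith

lemma acc_add (x y : ℕ × ℕ) : acc x y + acc y x ≤ 1 := by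
  rw [acc, acc, add_comm (piW x), ← add_div]
  exact div_self_le_one _

lemma drift (η : ℝ) (h0 : 0 < η) (h1 : η ≤ 1 / 2) : ∃ κ < 1, ∀ᶠ n in atTop,
    bc (1 / 2 + η) n < κ * fc (1 / 2 + η) n := by
  have hd : 0 < (1 / 2 + η) * (1 - η) := by nlinarith
  refine ⟨(1 / 2 - η ^ 2) / ((1 / 2 + η) * (1 - η)), by rw [div_lt_one hd]; nlinarith, ?_⟩
  obtain ⟨N, hN⟩ := eventually_atTop.1 (accF_ge η h0)
  filter_upwards [eventually_ge_atTop (N + 1)] with n hn
  obtain ⟨m, rfl⟩ : ∃ m, n = m + 1 := ⟨n - 1, by omega⟩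
  have a1 := hN m (by omega)
  have a2 := hN (m + 1) (by omega)
  have a3 := acc_add (pos m) (pos (m + 1))
  rw [fc, bc, fwd_pos, bwd_pos, div_mul_eq_mul_div, lt_div_iff₀ hd]
  have b1 : (1 - (1 / 2 + η)) * acc (pos (m + 1)) (pos m) ≤ (1 / 2 - η) * ((1 + η) / 2) := by
    rw [show 1 - (1 / 2 + η) = 1 / 2 - η by ring]
    exact mul_le_mul_of_nonneg_left (by linarith) (by linarith)
  have b2 : (1 / 2 + η) * ((1 - η) / 2) ≤ (1 / 2 + η) * acc (pos (m + 1)) (pos (m + 1 + 1)) :=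
    mul_le_mul_of_nonneg_left a2 (by linarith)
  have b3 : 0 ≤ 1 / 2 - η ^ 2 := by nlinarith
  calc _ ≤ (1 / 2 - η) * ((1 + η) / 2) * ((1 / 2 + η) * (1 - η)) :=
        mul_le_mul_of_nonneg_right b1 hd.le
    _ < (1 / 2 - η ^ 2) / 2 * ((1 / 2 + η) * (1 - η)) :=
        mul_lt_mul_of_pos_right (by nlinarith) hd
    _ = (1 / 2 - η ^ 2) * ((1 / 2 + η) * ((1 - η) / 2)) := by ring
    _ ≤ _ := mul_le_mul_of_nonneg_left b2 b3

theorem diverges : ∃ (a : ℕ → ℝ) (p : ℕ → ℕ × ℕ → unitInterval), Monotone a ∧ (∀ t, 8 ≤ a t) ∧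
    Tendsto a atTop atTop ∧ (∀ t x, (p t x : ℝ) = 1 / 2 + 4 / a t) ∧
    stairLaw p {z | Tendsto (fun t => (z t).2.2) atTop atTop} = 1 := by
  let η : ℕ → ℝ := fun k => 4 / ((k : ℝ) + 8)
  have hη0 : ∀ k, 0 < η k := fun k => by positivity
  have hη1 : ∀ k, η k ≤ 1 / 2 := fun k => by
    simp only [η]
    rw [div_le_iff₀ (by positivity)]
    linarith [(Nat.cast_nonneg k : (0 : ℝ) ≤ k)]
  let Q : ℕ → (ℕ → ℝ) →ₗ[ℝ] (ℕ → ℝ) := fun k => bd (fc (1 / 2 + η k)) (bc (1 / 2 + η k))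
  have hb : ∀ k n, 0 ≤ bc (1 / 2 + η k) n := fun k n =>
    mul_nonneg (by linarith [hη1 k]) (acc_nonneg _ _)
  have hf : ∀ k n, 0 < fc (1 / 2 + η k) n := fun k n => fc_pos (by linarith [hη0 k]) n
  have hW : ∀ k, ∃ W : ℕ → ℝ, (∀ n, 0 ≤ W n) ∧ Tendsto W atTop (𝓝 0) ∧ (∀ n, Q k W n < W n) ∧
      ∀ n ≤ k, Q k W n + 1 ≤ W n := by
    intro k
    obtain ⟨κ, h1, h2⟩ := drift (η k) (hη0 k) (hη1 k)
    exact exists_lyap _ _ (hf k) (hb k) κ h1 h2 k
  choose W hW0 hW1 hW2 hW3 using hW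
  obtain ⟨k, L, hmono, hk, hL0, hL, hpos, hsum⟩ := schedule Q (by
    intro k φ hφ n
    simp only [Q, bd_apply, Pi.zero_apply]
    have h3 : 0 ≤ 1 - fc (1 / 2 + η k) n - bc (1 / 2 + η k) n := by
      have a1 := mul_le_mul_of_nonneg_left (acc_le_one (pos n) (fwd (pos n)))
        (by linarith [hη0 k] : 0 ≤ 1 / 2 + η k)
      have a2 := mul_le_mul_of_nonneg_left (acc_le_one (pos n) (bwd (pos n)))
        (by linarith [hη1 k] : 0 ≤ 1 - (1 / 2 + η k))
      simp only [fc, bc]; linarith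
    exact add_nonneg (add_nonneg (mul_nonneg (hf k n).le (hφ _)) (mul_nonneg (hb k n) (hφ _)))
      (mul_nonneg h3 (hφ _))) (by
    intro k; funext n; simp only [Q, bd_apply, Pi.one_apply]; ring) W hW0 hW1 hW2
  let p : ℕ → ℕ × ℕ → unitInterval := fun t _ =>
    ⟨1 / 2 + η (k t), by linarith [hη0 (k t)], by linarith [hη1 (k t)]⟩
  refine ⟨fun t => (k t : ℝ) + 8, p, fun s t hst => ?_, fun t => ?_, ?_, fun t x => rfl, ?_⟩
  · have : (k s : ℝ) ≤ k t := by exact_mod_cast hmono hst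
    simp only; linarith
  · linarith [(Nat.cast_nonneg (k t) : (0 : ℝ) ≤ k t)]
  · exact tendsto_atTop_add_const_right _ _ (tendsto_natCast_atTop_atTop.comp hk)
  have key : ∀ t (φ : ℕ × ℕ × ℕ → ℝ), (avg p)^[t] φ (0, 1, 1) = L t (fun n => φ (t, pos n)) := by
    intro t
    induction t with
    | zero => intro φ; rw [hL0]; rfl
    | succ t ih =>
      intro φ
      rw [Function.iterate_succ_apply, ih, hL]
      congr 1
      funext n
      exact avg_pos p φ t n _ rfl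
  let B : ℕ → Set (ℕ → ℕ × ℕ × ℕ) := fun t => {z | 2 * (z t).2.2 ≤ k (t + 1)}
  have hB : ∀ t, stairLaw p (B t) ≤
      ENNReal.ofReal (L t (W (k (t + 1)) - Q (k (t + 1)) (W (k (t + 1))))) := by
    intro t
    let φ : ℕ × ℕ × ℕ → ℝ := fun s => if 2 * s.2.2 ≤ k (t + 1) then 1 else 0
    have hφ : 0 ≤ φ := fun s => by simp only [φ]; split_ifs <;> simp
    have hm : MeasurableSet (B t) := by
      have h1 : Measurable fun z : ℕ → ℕ × ℕ × ℕ => z t := measurable_pi_apply t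
      exact h1 (Set.to_countable {s : ℕ × ℕ × ℕ | 2 * s.2.2 ≤ k (t + 1)}).measurableSet
    have e : stairLaw p (B t) = ∫⁻ z, ENNReal.ofReal (φ (z t)) ∂stairLaw p := by
      rw [← lintegral_indicator_one hm]
      refine lintegral_congr fun z => ?_
      by_cases hz : 2 * (z t).2.2 ≤ k (t + 1)
      · simp [φ, B, hz]
      · simp [φ, B, hz]
    rw [e, stairLaw, marginal (stairKernel p) t (fun w => ENNReal.ofReal (φ w)),
      marginal_real p t φ hφ]
    simp only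
    rw [key]
    refine ENNReal.ofReal_le_ofReal ?_
    rw [← sub_nonneg, ← map_sub]
    refine hpos _ _ fun n => ?_
    simp only [Pi.sub_apply, Pi.zero_apply, φ, pos]
    split_ifs with h
    · linarith [hW3 (k (t + 1)) n (by omega)]
    · linarith [hW2 (k (t + 1)) n]
  have hfin : ∑' t, stairLaw p (B t) ≠ ⊤ :=
    ne_top_of_le_ne_top hsum.tsum_ofReal_ne_top (ENNReal.tsum_le_tsum hB)
  have hae := ae_eventually_notMem hfin
  haveI : IsProbabilityMeasure (stairLaw p) := instProb _ _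
  rw [← measure_univ (μ := stairLaw p)]
  refine measure_congr (ae_eq_univ.2 (measure_mono_null ?_ (ae_iff.1 hae)))
  intro z hz hz'
  apply hz
  have h2 := hk.comp (tendsto_add_atTop_nat 1)
  refine tendsto_atTop.2 fun N => ?_
  filter_upwards [hz', tendsto_atTop.1 h2 (2 * N)] with t h3 h4
  simp only [B, Set.mem_ofPred_eq, Function.comp] at h3 h4
  omega

lemma kernel_enn (p : ℕ → ℕ × ℕ → unitInterval) (ψ : ℕ × ℕ × ℕ → ℝ≥0∞) (s : ℕ × ℕ × ℕ) :
    ∑' w, stairKernel p s {w} * ψ w =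
      ENNReal.ofReal (p (s.1 + 1) s.2 * acc s.2 (fwd s.2)) * ψ (s.1 + 1, fwd s.2) +
      ENNReal.ofReal ((1 - p (s.1 + 1) s.2) * acc s.2 (bwd s.2)) * ψ (s.1 + 1, bwd s.2) +
      ENNReal.ofReal (p (s.1 + 1) s.2 * (1 - acc s.2 (fwd s.2)) +
        (1 - p (s.1 + 1) s.2) * (1 - acc s.2 (bwd s.2))) * ψ (s.1 + 1, s.2) := by
  have : ∑' w, stairKernel p s {w} * ψ w = ∫⁻ w, ψ w ∂(stairKernel p s) := by
    rw [lintegral_countable']
    exact tsum_congr fun w => mul_comm _ _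
  rw [this]
  simp only [stairKernel, Kernel.ofFunOfCountable, Kernel.coe_mk, lintegral_add_measure,
    lintegral_smul_measure, lintegral_dirac, smul_eq_mul]

theorem literal_zero (p : ℕ → ℕ × ℕ → unitInterval) (q : ℕ → ℝ)
    (hp : ∀ t, 1 ≤ t → ∀ x : ℕ × ℕ, (p t x : ℝ) = if x.1 = x.2 then q t else 1 - q t) :
    stairLaw p {z | Tendsto (fun t => (z t).2.2) atTop atTop} = 0 := by
  let w : ℕ → ℝ≥0∞ := fun n => ENNReal.ofReal (piW (pos n))
  let A : ℕ → ℕ → ℝ≥0∞ := fun t n => ENNReal.ofReal (p (t + 1) (pos n) * acc (pos n) (fwd (pos n)))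
  let B : ℕ → ℕ → ℝ≥0∞ := fun t n =>
    ENNReal.ofReal ((1 - p (t + 1) (pos n)) * acc (pos n) (bwd (pos n)))
  let R : ℕ → ℕ → ℝ≥0∞ := fun t n =>
    ENNReal.ofReal (p (t + 1) (pos n) * (1 - acc (pos n) (fwd (pos n))) +
      (1 - p (t + 1) (pos n)) * (1 - acc (pos n) (bwd (pos n))))
  have hone : ∀ t n, A t n + B t n + R t n = 1 := by
    intro t n
    have := kernel_enn p (fun _ => 1) (t, pos n)
    simp only [mul_one, tsum_kernel] at this
    exact this.symm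
  have hB0 : ∀ t, B t 0 = 0 := fun t => by simp [B, acc_bwd_zero]
  have hbal : ∀ t n, w n * A t n = w (n + 1) * B t (n + 1) := by
    intro t n
    simp only [w, A, B]
    rw [← ENNReal.ofReal_mul (piW_nonneg _), ← ENNReal.ofReal_mul (piW_nonneg _), fwd_pos, bwd_pos,
      hp _ (by omega), hp _ (by omega), acc, acc, add_comm (piW (pos n))]
    congr 1
    have : ((pos n).1 = (pos n).2) ↔ ¬ ((pos (n + 1)).1 = (pos (n + 1)).2) := by
      simp only [pos]; omega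
    by_cases h : (pos n).1 = (pos n).2
    · rw [if_pos h, if_neg (this.1 h)]; ring
    · rw [if_neg h, if_pos (not_not.1 fun h' => h (this.2 h'))]; ring
  have key : ∀ t (ψ : ℕ × ℕ × ℕ → ℝ≥0∞),
      (fun ψ u => ∑' w, stairKernel p u {w} * ψ w)^[t] ψ (0, 1, 1) ≤
        ∑' n, w n * ψ (t, pos n) := by
    intro t
    induction t with
    | zero =>
      intro ψ
      refine le_trans ?_ (ENNReal.le_tsum 0)
      simp [w, piW, pos]
    | succ t ih =>
      intro ψ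
      rw [Function.iterate_succ_apply]
      refine (ih _).trans (le_of_eq ?_)
      have e : ∀ n, w n * ∑' y, stairKernel p (t, pos n) {y} * ψ y =
          w (n + 1) * B t (n + 1) * ψ (t + 1, pos (n + 1)) +
          w n * B t n * ψ (t + 1, bwd (pos n)) + w n * R t n * ψ (t + 1, pos n) := by
        intro n
        rw [kernel_enn, ← hbal, ← fwd_pos]
        simp only [A, B, R]
        ring
      rw [tsum_congr e, ENNReal.tsum_add, ENNReal.tsum_add]
      have e1 : ∑' n, w (n + 1) * B t (n + 1) * ψ (t + 1, pos (n + 1)) =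
          ∑' n, w n * B t n * ψ (t + 1, pos n) := by
        rw [tsum_eq_zero_add' (f := fun n => w n * B t n * ψ (t + 1, pos n)) ENNReal.summable, hB0]
        simp
      have e2 : ∑' n, w n * B t n * ψ (t + 1, bwd (pos n)) =
          ∑' n, w n * A t n * ψ (t + 1, pos n) := by
        rw [tsum_eq_zero_add' ENNReal.summable, hB0]
        simp only [mul_zero, zero_mul, zero_add, bwd_pos, hbal]
      rw [e1, e2, ← ENNReal.tsum_add, ← ENNReal.tsum_add]
      refine tsum_congr fun n => ?_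
      calc _ = w n * (A t n + B t n + R t n) * ψ (t + 1, pos n) := by ring
        _ = _ := by rw [hone, mul_one]
  have hw : ∑' n, w n ≠ ⊤ := by
    refine Summable.tsum_ofReal_ne_top ?_
    have h1 : Summable fun n : ℕ => 4 * (1 / ((n + 1 : ℕ) : ℝ) ^ 2) :=
      ((summable_nat_add_iff 1).2 (Real.summable_one_div_nat_pow.2 one_lt_two)).mul_left 4
    refine Summable.of_nonneg_of_le (fun n => piW_nonneg _) (fun n => ?_) h1
    rw [piW_pos, mul_one_div, div_le_div_iff₀ (by positivity) (by positivity)]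
    have : ((n + 1 : ℕ) : ℝ) ≤ 2 * ((n / 2 + 1 : ℕ) : ℝ) := by exact_mod_cast (by omega)
    nlinarith [(Nat.cast_nonneg (n + 1) : (0 : ℝ) ≤ (n + 1 : ℕ))]
  have hJ : ∀ J t : ℕ, stairLaw p {z | J + 1 ≤ (z t).2.2} ≤ ∑' n, w (n + J) := by
    intro J t
    let ψ : ℕ × ℕ × ℕ → ℝ≥0∞ := fun s => if J + 1 ≤ s.2.2 then 1 else 0
    have hm : MeasurableSet {z : ℕ → ℕ × ℕ × ℕ | J + 1 ≤ (z t).2.2} := by
      have h1 : Measurable fun z : ℕ → ℕ × ℕ × ℕ => z t := measurable_pi_apply t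
      exact h1 (Set.to_countable {s : ℕ × ℕ × ℕ | J + 1 ≤ s.2.2}).measurableSet
    have e : stairLaw p {z | J + 1 ≤ (z t).2.2} = ∫⁻ z, ψ (z t) ∂stairLaw p := by
      rw [← lintegral_indicator_one hm]
      refine lintegral_congr fun z => ?_
      simp [ψ, Set.indicator_apply]
    rw [e, stairLaw, marginal (stairKernel p) t ψ]
    refine (key t ψ).trans ?_
    rw [← ENNReal.summable.sum_add_tsum_nat_add' (k := J), Finset.sum_eq_zero, zero_add]
    · refine ENNReal.tsum_le_tsum fun n => ?_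
      simp only [ψ]
      split_ifs <;> simp
    · intro n hn
      have := Finset.mem_range.1 hn
      simp only [ψ, pos]
      rw [if_neg (by omega), mul_zero]
  refine le_antisymm (ge_of_tendsto' (ENNReal.tendsto_sum_nat_add w hw) fun J => ?_) bot_le
  have hsub : {z : ℕ → ℕ × ℕ × ℕ | Tendsto (fun t => (z t).2.2) atTop atTop} ⊆
      ⋃ N, {z | ∀ t, N ≤ t → J + 1 ≤ (z t).2.2} := by
    intro z hz
    obtain ⟨N, hN⟩ := eventually_atTop.1 (tendsto_atTop.1 hz (J + 1))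
    exact Set.mem_iUnion.2 ⟨N, hN⟩
  refine (measure_mono hsub).trans ?_
  have hmono : Monotone fun N : ℕ => {z : ℕ → ℕ × ℕ × ℕ | ∀ t, N ≤ t → J + 1 ≤ (z t).2.2} :=
    fun a b hab z hz t ht => hz t (hab.trans ht)
  rw [hmono.measure_iUnion]
  refine iSup_le fun N => le_trans (measure_mono ?_) (hJ J N)
  intro z hz
  exact hz N le_rfl

end Pool.Agent.H43.Stair
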