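import Mathlib

set_option autoImplicit false

namespace Pool.Agent.H43.SupJ

open scoped ENNReal

/-- finite ordered forests with types: `cons i c r` is a tree with root of type `i` and forest
of children subtrees `c`, followed by the forest `r` -/
inductive F (K : ℕ) : Type
  | nil : F K
  | cons : Fin K → F K → F K → F K

variable {K : ℕ}

/-- the tree with root type `i` and children subtrees `c` -/
def tree (i : Fin K) (c : F K) : F K := .cons i c .nil

/-- word of the types of the roots -/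
def roots : F K → List (Fin K)
  | .nil => []
  | .cons i _ r => i :: roots r

/-- number of vertices of type `k` -/
def num (k : Fin K) : F K → ℕ
  | .nil => 0
  | .cons i c r => (if i = k then 1 else 0) + num k c + num k r

/-- product over vertices of the probability of the word of children types -/
noncomputable def wt (ζ : Fin K → PMF (List (Fin K))) : F K → ℝ≥0∞
  | .nil => 1
  | .cons i c r => ζ i (roots c) * wt ζ c * wt ζ r

/-- the conditioning statistic -/
def size (Γ : Fin K → ℕ) (t : F K) : ℕ := ∑ k, Γ k * num k t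

/-- condition (i) -/
def Supp (ζ ξ : Fin K → PMF (List (Fin K))) : Prop := ∀ i x, ζ i x = 0 ↔ ξ i x = 0

/-- condition (ii) on finite trees -/
def Cond (Γ : Fin K → ℕ) (ζ ξ : Fin K → PMF (List (Fin K))) : Prop :=
  ∀ i g, (∃ c, size Γ (tree i c) = g ∧ wt ζ (tree i c) ≠ 0) →
    ∃ a : ℝ≥0∞, a ≠ 0 ∧ a ≠ ∞ ∧ ∀ c, size Γ (tree i c) = g → wt ξ (tree i c) = a * wt ζ (tree i c)

/-- every type can have a descendant of every type -/
def Irred (ζ : Fin K → PMF (List (Fin K))) : Prop :=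
  ∀ a b, Relation.TransGen (fun a b => ∃ w, ζ a w ≠ 0 ∧ b ∈ w) a b

lemma size_nil (Γ : Fin K → ℕ) : size Γ .nil = 0 := by simp [size, num]

lemma size_cons (Γ : Fin K → ℕ) (i : Fin K) (c r : F K) :
    size Γ (.cons i c r) = Γ i + size Γ c + size Γ r := by
  simp [size, num, mul_add, Finset.sum_add_distrib]

def leaves : List (Fin K) → F K
  | [] => .nil
  | x :: u => .cons x .nil (leaves u)

lemma roots_leaves (u : List (Fin K)) : roots (leaves u) = u := by
  induction u <;> simp_all [leaves, roots]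

lemma wt_leaves {ξ : Fin K → PMF (List (Fin K))} (h : ∀ j, ξ j [] ≠ 0) (u : List (Fin K)) :
    wt ξ (leaves u) ≠ 0 := by
  induction u <;> simp_all [leaves, wt, roots]

lemma edge (Γ : Fin K → ℕ) (a b : Fin K) (w : List (Fin K)) (hb : b ∈ w) :
    ∃ (e : ℕ) (f : F K → F K), Γ a ≤ e ∧ ∀ c, size Γ (tree a (f c)) = size Γ (tree b c) + e ∧
      ∀ ξ : Fin K → PMF (List (Fin K)), (∀ j, ξ j [] ≠ 0) →
        (wt ξ (tree a (f c)) ≠ 0 ↔ ξ a w ≠ 0 ∧ wt ξ (tree b c) ≠ 0) := by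
  have : ∃ (e : ℕ) (f : F K → F K), ∀ c, roots (f c) = w ∧ size Γ (f c) = size Γ (tree b c) + e ∧
      ∀ ξ : Fin K → PMF (List (Fin K)), (∀ j, ξ j [] ≠ 0) →
        (wt ξ (f c) ≠ 0 ↔ wt ξ (tree b c) ≠ 0) := by
    obtain ⟨u, v, rfl⟩ := List.append_of_mem hb
    clear hb
    induction u with
    | nil =>
      exact ⟨size Γ (leaves v), fun c => .cons b c (leaves v), fun c => ⟨by simp [roots, roots_leaves],
        by simp [tree, size_cons, size_nil], fun ξ h => by simp [tree, wt, wt_leaves h]⟩⟩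
    | cons x u ih =>
      obtain ⟨e, f, h⟩ := ih
      exact ⟨e + Γ x, fun c => .cons x .nil (f c), fun c => ⟨by simp [roots, (h c).1],
        by rw [size_cons, size_nil, (h c).2.1]; omega, fun ξ l => by
          rw [← (h c).2.2 ξ l]; simp [wt, roots, l]⟩⟩
  obtain ⟨e, f, h⟩ := this
  refine ⟨e + Γ a, f, by omega, fun c => ⟨?_, fun ξ l => ?_⟩⟩
  · rw [tree, size_cons, size_nil, (h c).2.1]; omega
  · rw [← (h c).2.2 ξ l, tree, wt, wt, (h c).1, mul_one, mul_ne_zero_iff]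

lemma path (Γ : Fin K → ℕ) {ζ : Fin K → PMF (List (Fin K))} {a b : Fin K}
    (h : Relation.TransGen (fun a b => ∃ w, ζ a w ≠ 0 ∧ b ∈ w) a b) :
    ∃ (e : ℕ) (f : F K → F K), Γ a ≤ e ∧ ∀ c, size Γ (tree a (f c)) = size Γ (tree b c) + e ∧
      ∀ ξ : Fin K → PMF (List (Fin K)), (∀ j, ξ j [] ≠ 0) →
        (∀ j w, ζ j w ≠ 0 → ξ j w ≠ 0) → wt ξ (tree b c) ≠ 0 → wt ξ (tree a (f c)) ≠ 0 := by
  induction h with
  | single h =>
    obtain ⟨w, h1, h2⟩ := h
    obtain ⟨e, f, h3, h4⟩ := edge Γ a _ w h2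
    exact ⟨e, f, h3, fun t => ⟨(h4 t).1, fun ξ l s p => ((h4 t).2 ξ l).2 ⟨s _ _ h1, p⟩⟩⟩
  | tail _ h ih =>
    obtain ⟨w, h1, h2⟩ := h
    obtain ⟨e, f, -, h4⟩ := edge Γ _ _ w h2
    obtain ⟨e', f', h5, h6⟩ := ih
    exact ⟨e + e', fun c => f' (f c), by omega, fun t => ⟨by rw [(h6 _).1, (h4 _).1, add_assoc],
      fun ξ l s p => (h6 _).2 ξ l s (((h4 t).2 ξ l).2 ⟨s _ _ h1, p⟩)⟩⟩

theorem pos (Γ : Fin K → ℕ) (ζ ξ : Fin K → PMF (List (Fin K))) (hl : ∀ j, ζ j [] ≠ 0)
    (hi : Irred ζ) (h : Cond Γ ζ ξ) : Supp ζ ξ := by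
  have s : ∀ j w, ζ j w ≠ 0 → ξ j w ≠ 0 := fun j w hw => by
    have p : wt ζ (tree j (leaves w)) ≠ 0 := by simp [tree, wt, roots_leaves, hw, wt_leaves hl]
    obtain ⟨c, c0, -, hc⟩ := h j _ ⟨_, rfl, p⟩
    have := hc _ rfl ▸ mul_ne_zero c0 p
    simp only [tree, wt, roots_leaves, mul_ne_zero_iff] at this
    exact this.1.1
  refine fun i x => ⟨fun hx => ?_, fun hx => not_not.1 fun c => s i x c hx⟩
  by_contra hx'
  obtain ⟨b, hb⟩ := List.exists_mem_of_ne_nil x fun e => hl i (e ▸ hx)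
  obtain ⟨e0, f0, -, h0⟩ := edge Γ i b x hb
  obtain ⟨e1, f1, -, h1⟩ := path Γ (hi b i)
  have hl' := fun j => s j _ (hl j)
  have D : ∀ t, wt ξ (tree i t) ≠ 0 → ∃ t', size Γ (tree i t') = size Γ (tree i t) + (e1 + e0) ∧
      wt ξ (tree i t') ≠ 0 ∧ wt ζ (tree i t') = 0 := fun t p =>
    ⟨_, by rw [(h0 _).1, (h1 t).1, add_assoc], ((h0 _).2 ξ hl').2 ⟨hx', (h1 t).2 ξ hl' s p⟩,
      not_not.1 fun c => (((h0 _).2 ζ hl).1 c).1 hx⟩
  have B : ∀ n, ∃ t, size Γ (tree i t) = size Γ (tree i .nil) + (n + 1) * (e1 + e0) ∧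
      wt ξ (tree i t) ≠ 0 ∧ wt ζ (tree i t) = 0 := fun n => by
    induction n with
    | zero => simpa using D .nil (wt_leaves hl' [i])
    | succ n ih =>
      obtain ⟨t, a2, a3, -⟩ := ih
      obtain ⟨t', b2, b3⟩ := D t a3
      exact ⟨t', by rw [b2, a2]; ring, b3⟩
  have fin : ∀ n t, size Γ (tree i t) = size Γ (tree i .nil) + (n + 1) * (e1 + e0) →
      wt ζ (tree i t) ≠ 0 → False := fun n t a2 a3 => by
    obtain ⟨c, -, -, hc⟩ := h i _ ⟨t, a2, a3⟩
    obtain ⟨t', b2, b3, b4⟩ := B n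
    exact b3 (by rw [hc t' b2, b4, mul_zero])
  have l0 : wt ζ (tree i .nil) ≠ 0 := wt_leaves hl [i]
  by_cases hk : ∃ k, Γ k ≠ 0
  · obtain ⟨k, hk⟩ := hk
    obtain ⟨e2, f2, -, h2⟩ := path Γ (hi i k)
    obtain ⟨e3, f3, h3, h4⟩ := path Γ (hi k i)
    have A : ∀ n, ∃ t, size Γ (tree i t) = size Γ (tree i .nil) + (e3 + e2) * n ∧
        wt ζ (tree i t) ≠ 0 := fun n => by
      induction n with
      | zero => exact ⟨_, rfl, l0⟩
      | succ n ih =>
        obtain ⟨t, a2, a3⟩ := ih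
        exact ⟨_, by rw [(h2 _).1, (h4 t).1, a2]; ring,
          (h2 _).2 ζ hl (fun _ _ => id) ((h4 t).2 ζ hl (fun _ _ => id) a3)⟩
    obtain ⟨t, a2, a3⟩ := A (e1 + e0)
    exact fin (e3 + e2 - 1) t (by rwa [Nat.sub_add_cancel (by omega)]) a3
  · have z : ∀ t, size Γ t = 0 := fun t => Finset.sum_eq_zero fun k _ => by
      rw [not_not.1 fun c => hk ⟨k, c⟩, zero_mul]
    obtain ⟨t, a, -⟩ := B 0
    exact fin 0 _ (by rw [← a, z, z]) l0

noncomputable def z1 : PMF (List (Fin 2)) :=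
  PMF.ofFinset (fun w => if w = [] ∨ w = [1, 1] then 2⁻¹ else 0) {[], [1, 1]}
    (by simp [ENNReal.inv_two_add_inv_two]) (by simp)

noncomputable def z2 : PMF (List (Fin 2)) :=
  PMF.ofFinset (fun w => if w = [1] then 2⁻¹ else 2⁻¹ * z1 w) {[1], [], [1, 1]}
    (by simp [z1, ← mul_add, ENNReal.inv_two_add_inv_two]) (by
      simp only [Finset.mem_insert, Finset.mem_singleton, not_or]
      exact fun w h => by simp [z1, h])

lemma z1_ne {w : List (Fin 2)} (h : z1 w ≠ 0) : w = [] ∨ w = [1, 1] :=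
  not_not.1 fun c => h (if_neg c)

lemma odd (t : F 2) (h : wt (fun _ => z1) t ≠ 0) :
    size (fun _ => 1) t % 2 = (roots t).length % 2 := by
  induction t with
  | nil => simp [size_nil, roots]
  | cons i c r a b =>
    simp only [wt, mul_ne_zero_iff] at h
    have := a h.1.2
    have := b h.2
    have : (roots c).length % 2 = 0 := by rcases z1_ne h.1.1 with e | e <;> simp [e]
    rw [size_cons, roots, List.length_cons]
    omega

lemma same (t : F 2) (h : ∀ j ∈ roots t, j = 1) : wt ![z2, z1] t = wt (fun _ => z1) t := by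
  induction t with
  | nil => rfl
  | cons i c r a b =>
    obtain rfl : i = 1 := h i (by simp [roots])
    rw [wt, wt, b fun j hj => h j (by simp [roots, hj])]
    by_cases e : z1 (roots c) = 0
    · simp [e]
    · rw [a fun j hj => by rcases z1_ne e with e | e <;> simp_all]
      rfl

theorem joint :
    (∃ ζ ξ : Fin 2 → PMF (List (Fin 2)), (∀ j, ζ j [] ≠ 0) ∧ Cond (fun _ => 1) ζ ξ ∧ ¬Supp ζ ξ) ∧
    ∀ (K : ℕ) (Γ : Fin K → ℕ) (ζ ξ : Fin K → PMF (List (Fin K))), (∀ j, ζ j [] ≠ 0) → Irred ζ →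
      Cond Γ ζ ξ → Supp ζ ξ := by
  refine ⟨⟨fun _ => z1, ![z2, z1], fun _ => by simp [z1], fun i g ⟨t, h2, h3⟩ => ?_,
    fun h => by simpa [z1, z2] using h 0 [1]⟩, fun K => pos⟩
  fin_cases i
  · refine ⟨2⁻¹, by simp, by simp, fun c hs => ?_⟩
    have o := odd _ h3
    rw [h2, ← hs, tree, tree, size_cons, size_nil] at o
    simp only [tree, wt, mul_one]
    by_cases e : roots c = [1]
    · have : wt (fun _ => z1) c = 0 := not_not.1 fun h => by
        have := odd c h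
        simp only [e, roots, List.length_cons, List.length_nil] at this o
        omega
      simp [same c (by simp [e]), this]
    by_cases e' : z1 (roots c) = 0
    · simp [z2, e, e']
    · rw [same c fun j hj => by rcases z1_ne e' with e | e <;> simp_all, ← mul_assoc]
      simp [z2, e]
  · exact ⟨1, by simp, by simp, fun t _ => by rw [one_mul, same _ (by simp [tree, roots])]⟩

end Pool.Agent.H43.SupJ
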