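import Mathlib

set_option autoImplicit false
open FirstOrder FirstOrder.Language

universe u v

namespace Pool.Agent.H43.Tot

/-- Ground terms over the function symbols of `L`; one fresh constant is added exactly when `L`
has no constant. -/
abbrev Ground (L : FirstOrder.Language.{u, v}) : Type u :=
  L.Term {_x : PUnit.{u + 1} // IsEmpty L.Constants}

/-- A term rewrite system: a set of rules `(l, r)`, `l` not a variable, `Var r ⊆ Var l`. -/
def IsTRS {L : FirstOrder.Language.{u, v}} (R : Set (L.Term ℕ × L.Term ℕ)) : Prop :=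
  ∀ ρ ∈ R, (∀ x, ρ.1 ≠ Term.var x) ∧ ρ.2.varFinset ⊆ ρ.1.varFinset

/-- There is a monotonic well-ordering `lt` of the ground terms with `rσ < lσ` for every rule
`l → r` and ground substitution `σ`. -/
def TotallyTerminating {L : FirstOrder.Language.{u, v}} (R : Set (L.Term ℕ × L.Term ℕ)) : Prop :=
  ∃ lt : Ground L → Ground L → Prop, IsWellOrder (Ground L) lt ∧
    (∀ (n : ℕ) (f : L.Functions n) (ts : Fin n → Ground L) (i : Fin n) (s : Ground L),
      lt s (ts i) → lt (Term.func f (Function.update ts i s)) (Term.func f ts)) ∧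
    ∀ ρ ∈ R, ∀ σ : ℕ → Ground L, lt (ρ.2.subst σ) (ρ.1.subst σ)

/-- The union of two systems over the disjoint sum of their signatures. -/
def union {L₁ L₂ : FirstOrder.Language.{u, v}} (R₁ : Set (L₁.Term ℕ × L₁.Term ℕ))
    (R₂ : Set (L₂.Term ℕ × L₂.Term ℕ)) : Set ((L₁.sum L₂).Term ℕ × (L₁.sum L₂).Term ℕ) :=
  Prod.map LHom.sumInl.onTerm LHom.sumInl.onTerm '' R₁ ∪
    Prod.map LHom.sumInr.onTerm LHom.sumInr.onTerm '' R₂

end Pool.Agent.H43.Tot
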