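import Pool.Agent.H43.TotDefs

set_option autoImplicit false
open FirstOrder FirstOrder.Language

universe u v w

namespace Pool.Agent.H43.Tot

lemma lex_app {α : Type*} {r : α → α → Prop} {x y : List α} (h : List.Lex r x y)
    (hl : x.length = y.length) (B : List α) : List.Lex r (x ++ B) (y ++ B) := by
  induction h with
  | nil => simp at hl
  | rel h => exact .rel h
  | cons _ ih => exact .cons (ih (by simpa using hl))

lemma sl_app {α : Type*} {r : α → α → Prop} {x y : List α} (h : List.Shortlex r x y)
    (A B : List α) : List.Shortlex r (A ++ (x ++ B)) (A ++ (y ++ B)) := by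
  apply List.Shortlex.append_left
  rcases List.shortlex_def.1 h with h | ⟨h1, h2⟩
  · exact .of_length_lt (by simpa using h)
  · exact .of_lex (by simp [h1]) (lex_app h2 h1 B)

instance sl_trans {α : Type*} (r : α → α → Prop) [IsWellOrder α r] :
    IsWellOrder (List α) (List.Shortlex r) where
  wf := List.Shortlex.wf IsWellFounded.wf
  trichotomous := Std.Trichotomous.trichotomous

theorem exists_mono_wo (L : FirstOrder.Language.{u, v}) (G : Type w) :
    ∃ lt : L.Term G → L.Term G → Prop, IsWellOrder (L.Term G) lt ∧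
    (∀ (n : ℕ) (f : L.Functions n) (ts : Fin n → L.Term G) (i : Fin n) (s : L.Term G),
      lt s (ts i) → lt (Term.func f (Function.update ts i s)) (Term.func f ts)) := by
  refine ⟨InvImage (List.Shortlex WellOrderingRel) Term.listEncode,
    Function.Injective.isWellOrder (List.Shortlex WellOrderingRel) Term.listEncode_injective, ?_⟩
  intro n f ts i s h
  obtain ⟨l1, l2, hl⟩ := List.append_of_mem (List.mem_finRange i)
  have hn := List.nodup_finRange n
  rw [hl] at hn
  have h1 : ∀ j ∈ l1, j ≠ i := by
    rintro j hj rfl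
    exact (List.nodup_append.1 hn).2.2 j hj j (by simp) rfl
  have h2 : ∀ j ∈ l2, j ≠ i := by
    rintro j hj rfl
    exact (List.nodup_cons.1 (List.nodup_append.1 hn).2.1).1 hj
  simp only [InvImage, Term.listEncode, hl, List.flatMap_append, List.flatMap_cons,
    Function.update_self]
  rw [List.flatMap_congr (l := l1) (g := fun j => (ts j).listEncode)
      (fun j hj => by rw [Function.update_of_ne (h1 j hj)]),
    List.flatMap_congr (l := l2) (g := fun j => (ts j).listEncode)
      (fun j hj => by rw [Function.update_of_ne (h2 j hj)])]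
  exact sl_app h (_ :: _) _

theorem of_weight {L : FirstOrder.Language.{u, v}} (R : Set (L.Term ℕ × L.Term ℕ))
    {B : Type w} [LinearOrder B] [WellFoundedLT B] (W : Ground L → B)
    (h1 : ∀ (n : ℕ) (f : L.Functions n) (ts : Fin n → Ground L) (i : Fin n) (s : Ground L),
      W s < W (ts i) → W (Term.func f (Function.update ts i s)) < W (Term.func f ts))
    (h2 : ∀ (n : ℕ) (f : L.Functions n) (ts : Fin n → Ground L) (i : Fin n) (s : Ground L),
      W s = W (ts i) → W (Term.func f (Function.update ts i s)) = W (Term.func f ts))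
    (h3 : ∀ ρ ∈ R, ∀ σ : ℕ → Ground L, W (ρ.2.subst σ) < W (ρ.1.subst σ)) :
    TotallyTerminating R := by
  obtain ⟨tb, hwo, hm⟩ := exists_mono_wo L {_x : PUnit.{u + 1} // IsEmpty L.Constants}
  refine ⟨InvImage (Prod.Lex (· < ·) tb) (fun t => (W t, t)),
    Function.Injective.isWellOrder (Prod.Lex (· < ·) tb) (f := fun t => (W t, t))
      (fun a b h => (Prod.ext_iff.1 h).2), ?_, ?_⟩
  · intro n f ts i s h
    rcases Prod.lex_def.1 h with h | ⟨h, h'⟩
    · exact Prod.lex_def.2 (Or.inl (h1 n f ts i s h))
    · exact Prod.lex_def.2 (Or.inr ⟨h2 n f ts i s h, hm n f ts i s h'⟩)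
  · intro ρ hρ σ
    exact Prod.lex_def.2 (Or.inl (h3 ρ hρ σ))

end Pool.Agent.H43.Tot
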