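import Pool.Agent.H43.TotMA

set_option autoImplicit false
open FirstOrder FirstOrder.Language

universe u v w

namespace Pool.Agent.H43.Tot

section core
variable {L : FirstOrder.Language.{u, v}} {G : Type w} {Λ : Type w} [LinearOrder Λ]

/-- label -/
noncomputable def lab (top : ∀ {n : ℕ}, L.Functions n → (Fin n → Λ) → Λ) (l0 : Λ) : L.Term G → Λ
  | .var _ => l0
  | .func f ts => Finset.univ.fold max (top f fun i => lab top l0 (ts i)) fun i => lab top l0 (ts i)

noncomputable def wt (top : ∀ {n : ℕ}, L.Functions n → (Fin n → Λ) → Λ) (l0 : Λ) :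
    L.Term G → (Λ →₀ ℕ)
  | .var _ => Finsupp.single l0 1
  | .func f ts => Finsupp.single (lab top l0 (.func f ts)) 1 + ∑ i, wt top l0 (ts i)

variable (top : ∀ {n : ℕ}, L.Functions n → (Fin n → Λ) → Λ) (l0 : Λ)

lemma lab_arg {n : ℕ} (f : L.Functions n) (ts : Fin n → L.Term G) (i : Fin n) :
    lab @top l0 (ts i) ≤ lab @top l0 (.func f ts) := by
  simp only [lab]
  exact (Finset.le_fold_max _).2 (Or.inr ⟨i, Finset.mem_univ _, le_rfl⟩)

lemma wt_zero (t : L.Term G) (j : Λ) (h : lab @top l0 t < j) : wt @top l0 t j = 0 := by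
  induction t with
  | var g => simp only [wt]; exact Finsupp.single_eq_of_ne h.ne'
  | func f ts ih =>
    simp only [wt, Finsupp.add_apply, Finsupp.finsetSum_apply]
    rw [Finsupp.single_eq_of_ne h.ne', zero_add]
    exact Finset.sum_eq_zero fun i _ => ih i ((lab_arg @top l0 f ts i).trans_lt h)

lemma wt_pos (t : L.Term G) : 0 < wt @top l0 t (lab @top l0 t) := by
  cases t with
  | var g => simp [wt, lab]
  | func f ts => simp only [wt, Finsupp.add_apply, Finsupp.single_eq_same]; omega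

lemma wt_lt {s t : L.Term G} (h : lab @top l0 s < lab @top l0 t) :
    toColex (wt @top l0 s) < toColex (wt @top l0 t) := by
  refine Finsupp.Colex.lt_iff.2 ⟨lab @top l0 t, fun j hj => ?_, ?_⟩
  · exact (wt_zero @top l0 s j (h.trans hj)).trans (wt_zero @top l0 t j hj).symm
  · exact (wt_zero @top l0 s _ h).trans_lt (wt_pos @top l0 t)

lemma lab_le {s t : L.Term G} (h : toColex (wt @top l0 s) ≤ toColex (wt @top l0 t)) :
    lab @top l0 s ≤ lab @top l0 t :=
  le_of_not_gt fun h' => (wt_lt @top l0 h').not_ge h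

lemma lab_upd {n : ℕ} (ts : Fin n → L.Term G) (i : Fin n) (s : L.Term G) :
    (fun j => lab @top l0 (Function.update ts i s j))
      = Function.update (fun j => lab @top l0 (ts j)) i (lab @top l0 s) :=
  Function.comp_update (lab @top l0) ts i s

lemma sum_upd {n : ℕ} (ts : Fin n → L.Term G) (i : Fin n) (s : L.Term G) :
    ∑ j, wt @top l0 (Function.update ts i s j)
      = wt @top l0 s + ∑ j ∈ Finset.univ.erase i, wt @top l0 (ts j) := by
  rw [← Finset.add_sum_erase _ _ (Finset.mem_univ i), Function.update_self]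
  congr 1
  exact Finset.sum_congr rfl fun j hj => by rw [Function.update_of_ne (Finset.mem_erase.1 hj).1]

lemma lab_mono (htop : ∀ (n : ℕ) (f : L.Functions n) (xs : Fin n → Λ) (i : Fin n) (y : Λ),
      y ≤ xs i → top f (Function.update xs i y) ≤ top f xs)
    {n : ℕ} (f : L.Functions n) (ts : Fin n → L.Term G) (i : Fin n) (s : L.Term G)
    (h : lab @top l0 s ≤ lab @top l0 (ts i)) :
    lab @top l0 (.func f (Function.update ts i s)) ≤ lab @top l0 (.func f ts) := by
  conv_lhs => simp only [lab]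
  rw [lab_upd]
  refine (Finset.fold_max_le _).2 ⟨?_, fun j _ => ?_⟩
  · refine (htop n f _ i _ h).trans ?_
    simp only [lab]
    exact (Finset.le_fold_max _).2 (Or.inl le_rfl)
  · refine le_trans ?_ (lab_arg @top l0 f ts j)
    by_cases hj : j = i
    · subst hj; simpa using h
    · simp [Function.update_of_ne hj]

lemma wt_mono_lt (htop : ∀ (n : ℕ) (f : L.Functions n) (xs : Fin n → Λ) (i : Fin n) (y : Λ),
      y ≤ xs i → top f (Function.update xs i y) ≤ top f xs)
    (n : ℕ) (f : L.Functions n) (ts : Fin n → L.Term G) (i : Fin n) (s : L.Term G)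
    (h : toColex (wt @top l0 s) < toColex (wt @top l0 (ts i))) :
    toColex (wt @top l0 (.func f (Function.update ts i s)))
      < toColex (wt @top l0 (.func f ts)) := by
  have h1 := lab_mono @top l0 htop f ts i s (lab_le @top l0 h.le)
  simp only [wt]
  rw [sum_upd, ← Finset.add_sum_erase _ (fun j => wt @top l0 (ts j)) (Finset.mem_univ i)]
  simp only [toColex_add]
  exact add_lt_add_of_le_of_lt (Finsupp.Colex.single_le_iff.2 h1) (add_lt_add_left h _)

lemma wt_mono_eq
    (n : ℕ) (f : L.Functions n) (ts : Fin n → L.Term G) (i : Fin n) (s : L.Term G)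
    (h : toColex (wt @top l0 s) = toColex (wt @top l0 (ts i))) :
    toColex (wt @top l0 (.func f (Function.update ts i s)))
      = toColex (wt @top l0 (.func f ts)) := by
  have h0 : lab @top l0 s = lab @top l0 (ts i) :=
    le_antisymm (lab_le @top l0 h.le) (lab_le @top l0 h.ge)
  have h1 : lab @top l0 (.func f (Function.update ts i s)) = lab @top l0 (.func f ts) := by
    simp only [lab]
    rw [lab_upd, h0, Function.update_eq_self]
  have h2 : wt @top l0 s = wt @top l0 (ts i) := toColex.injective h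
  simp only [wt]
  rw [sum_upd, ← Finset.add_sum_erase _ (fun j => wt @top l0 (ts j)) (Finset.mem_univ i), h1, h2]

omit [LinearOrder Λ] in
lemma upd_strictMono {L' : FirstOrder.Language.{u, v}} {G' : Type*}
    [LinearOrder (L'.Term G')]
    (hm : ∀ (n : ℕ) (f : L'.Functions n) (ts : Fin n → L'.Term G') (i : Fin n) (s : L'.Term G'),
      s < ts i → Term.func f (Function.update ts i s) < Term.func f ts)
    {n : ℕ} (f : L'.Functions n) (ts : Fin n → L'.Term G') (i : Fin n) :
    StrictMono fun x => Term.func f (Function.update ts i x) := by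
  intro x y hxy
  have := hm n f (Function.update ts i y) i x (by simpa using hxy)
  simpa using this

omit [LinearOrder Λ] in
lemma subterm_le {L' : FirstOrder.Language.{u, v}} {G' : Type*}
    [LinearOrder (L'.Term G')] [WellFoundedLT (L'.Term G')]
    (hm : ∀ (n : ℕ) (f : L'.Functions n) (ts : Fin n → L'.Term G') (i : Fin n) (s : L'.Term G'),
      s < ts i → Term.func f (Function.update ts i s) < Term.func f ts)
    {n : ℕ} (f : L'.Functions n) (ts : Fin n → L'.Term G') (i : Fin n) :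
    ts i ≤ Term.func f ts := by
  have := (upd_strictMono hm f ts i).le_apply (x := ts i)
  simpa using this

lemma proj_lab {L' : FirstOrder.Language.{u, v}} (φ : L' →ᴸ L) {G' : Type*}
    [LinearOrder (L'.Term G')] [WellFoundedLT (L'.Term G')]
    (hm : ∀ (n : ℕ) (f : L'.Functions n) (ts : Fin n → L'.Term G') (i : Fin n) (s : L'.Term G'),
      s < ts i → Term.func f (Function.update ts i s) < Term.func f ts)
    (π : Λ → L'.Term G') (hπ : Monotone π)
    (htop : ∀ (n : ℕ) (f : L'.Functions n) (xs : Fin n → Λ),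
      π (top (φ.onFunction f) xs) = Term.func f fun i => π (xs i))
    (t : L'.Term ℕ) (σ : ℕ → L.Term G) :
    π (lab @top l0 ((φ.onTerm t).subst σ)) = t.subst fun x => π (lab @top l0 (σ x)) := by
  induction t with
  | var x => rfl
  | @func n f ts ih =>
    simp only [LHom.onTerm, Term.subst, lab]
    rw [← Finset.fold_hom (op := max) (op' := max) (m := π) (fun x y => hπ.map_max), htop]
    simp only [ih]
    apply le_antisymm
    · refine (Finset.fold_max_le _).2 ⟨le_rfl, fun j _ => ?_⟩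
      exact subterm_le hm f (fun i => (ts i).subst fun x => π (lab @top l0 (σ x))) j
    · exact (Finset.le_fold_max _).2 (Or.inl le_rfl)

end core

theorem union_of_chain {L₁ L₂ : FirstOrder.Language.{u, v}} (R₁ : Set (L₁.Term ℕ × L₁.Term ℕ))
    (R₂ : Set (L₂.Term ℕ × L₂.Term ℕ))
    [LinearOrder (Ground L₁)] [WellFoundedLT (Ground L₁)]
    [LinearOrder (Ground L₂)] [WellFoundedLT (Ground L₂)]
    (hm1 : ∀ (n : ℕ) (f : L₁.Functions n) (ts : Fin n → Ground L₁) (i : Fin n) (s : Ground L₁),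
      s < ts i → Term.func f (Function.update ts i s) < Term.func f ts)
    (hm2 : ∀ (n : ℕ) (f : L₂.Functions n) (ts : Fin n → Ground L₂) (i : Fin n) (s : Ground L₂),
      s < ts i → Term.func f (Function.update ts i s) < Term.func f ts)
    (hr1 : ∀ ρ ∈ R₁, ∀ σ : ℕ → Ground L₁, ρ.2.subst σ < ρ.1.subst σ)
    (hr2 : ∀ ρ ∈ R₂, ∀ σ : ℕ → Ground L₂, ρ.2.subst σ < ρ.1.subst σ)
    {Λ : Type u} [LinearOrder Λ] [WellFoundedLT Λ] (l0 : Λ)
    (π1 : Λ → Ground L₁) (s1 : Ground L₁ → Λ) (hπ1 : Monotone π1) (hs1 : Monotone s1)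
    (h1 : ∀ a, π1 (s1 a) = a)
    (π2 : Λ → Ground L₂) (s2 : Ground L₂ → Λ) (hπ2 : Monotone π2) (hs2 : Monotone s2)
    (h2 : ∀ a, π2 (s2 a) = a) : TotallyTerminating (union R₁ R₂) := by
  let top : ∀ {n : ℕ}, (L₁.sum L₂).Functions n → (Fin n → Λ) → Λ := fun f xs =>
    Sum.elim (fun f => s1 (Term.func f fun i => π1 (xs i)))
      (fun f => s2 (Term.func f fun i => π2 (xs i))) f
  have htop : ∀ (n : ℕ) (f : (L₁.sum L₂).Functions n) (xs : Fin n → Λ) (i : Fin n) (y : Λ),
      y ≤ xs i → top f (Function.update xs i y) ≤ top f xs := by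
    rintro n (f | f) xs i y hy
    · apply hs1
      have := (upd_strictMono hm1 f (fun i => π1 (xs i)) i).monotone (hπ1 hy)
      simp only [Function.update_eq_self] at this
      exact le_of_eq_of_le (congrArg _ (Function.comp_update π1 xs i y)) this
    · apply hs2
      have := (upd_strictMono hm2 f (fun i => π2 (xs i)) i).monotone (hπ2 hy)
      simp only [Function.update_eq_self] at this
      exact le_of_eq_of_le (congrArg _ (Function.comp_update π2 xs i y)) this
  refine of_weight _ (fun t => toColex (wt @top l0 t)) (wt_mono_lt @top l0 htop)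
    (wt_mono_eq @top l0) ?_
  rintro _ (⟨ρ, hρ, rfl⟩ | ⟨ρ, hρ, rfl⟩) σ
  · apply wt_lt
    apply hπ1.reflect_lt
    simp only [Prod.map]
    rw [proj_lab @top l0 LHom.sumInl hm1 π1 hπ1 (fun n f xs => h1 _),
      proj_lab @top l0 LHom.sumInl hm1 π1 hπ1 (fun n f xs => h1 _)]
    exact hr1 ρ hρ _
  · apply wt_lt
    apply hπ2.reflect_lt
    simp only [Prod.map]
    rw [proj_lab @top l0 LHom.sumInr hm2 π2 hπ2 (fun n f xs => h2 _),
      proj_lab @top l0 LHom.sumInr hm2 π2 hπ2 (fun n f xs => h2 _)]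
    exact hr2 ρ hρ _

lemma exists_lev (A : Type*) [LinearOrder A] [WellFoundedLT A] [Countable A] [Nonempty A] :
    ∃ (U : ℕ → A) (lev : A → ℕ), Monotone U ∧ Monotone lev ∧
      ∀ a, U (lev a) ≤ a ∧ a ≤ U (lev a + 1) := by
  classical
  obtain ⟨e, he⟩ := exists_surjective_nat A
  let b : A := WellFounded.min wellFounded_lt Set.univ Set.univ_nonempty
  have hb : ∀ a, b ≤ a := fun a => WellFounded.min_le _ (Set.mem_univ a)
  let U : ℕ → A := fun n => Nat.rec b (fun k x => max x (e k)) n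
  have hU : ∀ n, U (n + 1) = max (U n) (e n) := fun n => rfl
  have hex : ∀ a, ∃ n, a ≤ U (n + 1) := fun a => by
    obtain ⟨n, rfl⟩ := he a
    exact ⟨n, by rw [hU]; exact le_max_right _ _⟩
  refine ⟨U, fun a => Nat.find (hex a), monotone_nat_of_le_succ fun n => by
    rw [hU]; exact le_max_left _ _, fun a a' h => Nat.find_mono fun n hn => h.trans hn,
    fun a => ⟨?_, Nat.find_spec (hex a)⟩⟩
  show U (Nat.find (hex a)) ≤ a
  rcases h : Nat.find (hex a) with _ | k
  · exact hb a
  · exact (lt_of_not_ge (Nat.find_min (hex a) (m := k) (by omega))).le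

lemma ground_nonempty (L : FirstOrder.Language.{u, v}) : Nonempty (Ground L) := by
  by_cases h : IsEmpty L.Constants
  · exact ⟨.var ⟨⟨⟩, h⟩⟩
  · obtain ⟨c⟩ := not_isEmpty_iff.1 h
    exact ⟨.func c ![]⟩

theorem modular {L₁ L₂ : FirstOrder.Language.{u, v}} [Countable (Σ n, L₁.Functions n)]
    [Countable (Σ n, L₂.Functions n)] (R₁ : Set (L₁.Term ℕ × L₁.Term ℕ))
    (R₂ : Set (L₂.Term ℕ × L₂.Term ℕ)) (h₁ : TotallyTerminating R₁) (h₂ : TotallyTerminating R₂) :
    TotallyTerminating (union R₁ R₂) := by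
  obtain ⟨lt1, w1, hm1, hr1⟩ := h₁
  obtain ⟨lt2, w2, hm2, hr2⟩ := h₂
  classical
  let : LinearOrder (Ground L₁) := linearOrderOfSTO lt1
  let : LinearOrder (Ground L₂) := linearOrderOfSTO lt2
  have : WellFoundedLT (Ground L₁) := ⟨w1.wf⟩
  have : WellFoundedLT (Ground L₂) := ⟨w2.wf⟩
  have := ground_nonempty L₁
  have := ground_nonempty L₂
  obtain ⟨U, p, hU, hp, hUp⟩ := exists_lev (Ground L₁)
  obtain ⟨V, q, hV, hq, hVq⟩ := exists_lev (Ground L₂)
  have : WellFoundedLT (Ground L₁ ⊕ₗ Ground L₂) := ⟨Sum.lex_wf w1.wf w2.wf⟩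
  let Λ := ℕ ×ₗ (Ground L₁ ⊕ₗ Ground L₂)
  let π1 : Λ → Ground L₁ := fun x => Sum.elim
    (fun a => max (U (ofLex x).1) (min a (U ((ofLex x).1 + 1)))) (fun _ => U ((ofLex x).1 + 1))
    (ofLex (ofLex x).2)
  let π2 : Λ → Ground L₂ := fun x => Sum.elim (fun _ => V (ofLex x).1)
    (fun a => max (V (ofLex x).1) (min a (V ((ofLex x).1 + 1)))) (ofLex (ofLex x).2)
  have b1 : ∀ x : Λ, U (ofLex x).1 ≤ π1 x ∧ π1 x ≤ U ((ofLex x).1 + 1) := by
    rintro ⟨n, a | a⟩
    · exact ⟨le_max_left _ _, max_le (hU n.le_succ) (min_le_right _ _)⟩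
    · exact ⟨hU n.le_succ, le_rfl⟩
  have b2 : ∀ x : Λ, V (ofLex x).1 ≤ π2 x ∧ π2 x ≤ V ((ofLex x).1 + 1) := by
    rintro ⟨n, a | a⟩
    · exact ⟨le_rfl, hV n.le_succ⟩
    · exact ⟨le_max_left _ _, max_le (hV n.le_succ) (min_le_right _ _)⟩
  refine union_of_chain R₁ R₂ hm1 hm2 hr1 hr2 (Λ := Λ)
    (toLex (0, toLex (Sum.inl (U 0)))) π1 (fun a => toLex (p a, toLex (Sum.inl a))) ?_ ?_ ?_
    π2 (fun a => toLex (q a, toLex (Sum.inr a))) ?_ ?_ ?_
  · intro x y hxy
    rcases Prod.Lex.le_iff.1 hxy with h | ⟨h, h'⟩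
    · exact (b1 x).2.trans ((hU h).trans (b1 y).1)
    · obtain ⟨n, a⟩ := x
      obtain ⟨m, b⟩ := y
      obtain rfl : n = m := h
      rcases a with a | a <;> rcases b with b | b
      · exact max_le_max le_rfl (min_le_min (Sum.Lex.inl_le_inl_iff.1 h') le_rfl)
      · exact (b1 _).2
      · exact (Sum.Lex.not_inr_le_inl h').elim
      · exact le_rfl
  · intro a b h
    rcases (hp h).lt_or_eq with h' | h'
    · exact Prod.Lex.le_iff.2 (Or.inl h')
    · exact Prod.Lex.le_iff.2 (Or.inr ⟨h', Sum.Lex.inl_le_inl_iff.2 h⟩)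
  · intro a
    show max (U (p a)) (min a (U (p a + 1))) = a
    rw [min_eq_left (hUp a).2, max_eq_right (hUp a).1]
  · intro x y hxy
    rcases Prod.Lex.le_iff.1 hxy with h | ⟨h, h'⟩
    · exact (b2 x).2.trans ((hV h).trans (b2 y).1)
    · obtain ⟨n, a⟩ := x
      obtain ⟨m, b⟩ := y
      obtain rfl : n = m := h
      rcases a with a | a <;> rcases b with b | b
      · exact le_rfl
      · exact (b2 (toLex (n, toLex (Sum.inr b)))).1
      · exact (Sum.Lex.not_inr_le_inl h').elim
      · exact max_le_max le_rfl (min_le_min (Sum.Lex.inr_le_inr_iff.1 h') le_rfl)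
  · intro a b h
    rcases (hq h).lt_or_eq with h' | h'
    · exact Prod.Lex.le_iff.2 (Or.inl h')
    · exact Prod.Lex.le_iff.2 (Or.inr ⟨h', Sum.Lex.inr_le_inr_iff.2 h⟩)
  · intro a
    show max (V (q a)) (min a (V (q a + 1))) = a
    rw [min_eq_left (hVq a).2, max_eq_right (hVq a).1]

end Pool.Agent.H43.Tot
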