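import Mathlib

set_option autoImplicit false
open MeasureTheory ProbabilityTheory Set Filter Topology
open scoped ENNReal unitInterval

namespace Pool.Agent.H43.TreeMix

lemma ind_disj {ι κ₁ κ₂ α : Type} [MeasurableSpace α] (ν : Measure α) [IsProbabilityMeasure ν]
    (e₁ : κ₁ → ι) (e₂ : κ₂ → ι) (h : Disjoint (range e₁) (range e₂)) :
    IndepFun (fun (η : ι → α) k => η (e₁ k)) (fun (η : ι → α) k => η (e₂ k))
      (Measure.infinitePi fun _ => ν) := by
  have h1 := (iIndepFun_infinitePi (P := fun _ : ι => ν) (X := fun _ x => x)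
    (fun _ => measurable_id)).iIndep
  have h2 := indep_iSup_of_disjoint (fun i => (measurable_pi_apply i).comap_le) h1 h
  rw [IndepFun_iff_Indep]
  refine indep_of_indep_of_le_left (indep_of_indep_of_le_right h2 ?_) ?_
  · rw [MeasurableSpace.pi, MeasurableSpace.comap_iSup]
    refine iSup_le fun k => ?_
    rw [MeasurableSpace.comap_comp]
    exact le_iSup₂_of_le (e₂ k) ⟨k, rfl⟩ le_rfl
  · rw [MeasurableSpace.pi, MeasurableSpace.comap_iSup]
    refine iSup_le fun k => ?_
    rw [MeasurableSpace.comap_comp]
    exact le_iSup₂_of_le (e₁ k) ⟨k, rfl⟩ le_rfl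

lemma law_inj {ι κ α : Type} [MeasurableSpace α] (ν : Measure α) [IsProbabilityMeasure ν]
    (e : κ → ι) (h : Function.Injective e) :
    MeasurePreserving (fun (η : ι → α) k => η (e k)) (Measure.infinitePi fun _ => ν)
      (Measure.infinitePi fun _ => ν) :=
  ⟨by fun_prop, Measure.map_infinitePi_infinitePi_of_inj h⟩

lemma avg_bound {Ω : Type} [MeasurableSpace Ω] (μ : Measure Ω) [IsProbabilityMeasure μ]
    (k : ℕ) (hk : 0 < k) (G : Fin k → Set Ω) (hG : ∀ v, MeasurableSet (G v)) (h : ℝ)
    (hh : ∀ v, μ.real (G v) = h)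
    (hind : Pairwise fun v w => IndepFun ((G v).indicator (1 : Ω → ℝ))
      ((G w).indicator (1 : Ω → ℝ)) μ)
    (A : Set Ω) (hA : MeasurableSet A) (δ : ℝ) (hδ : 0 < δ) :
    |(∑ v, μ.real (A ∩ G v)) / k - μ.real A * h| ≤ δ + 1 / (k * δ) := by
  have hk' : (0 : ℝ) < k := by exact_mod_cast hk
  let X : Fin k → Ω → ℝ := fun v => (G v).indicator 1
  have hXm : ∀ v, Measurable (X v) := fun v => measurable_const.indicator (hG v)
  have hXb : ∀ v, ∀ᵐ ω ∂μ, X v ω ∈ Icc (0 : ℝ) 1 := fun v => ae_of_all _ fun ω => by
    by_cases h : ω ∈ G v <;> simp [X, h]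
  have hX2 : ∀ v, MemLp (X v) 2 μ := fun v =>
    memLp_of_bounded (hXb v) (hXm v).aestronglyMeasurable 2
  have hS2 : MemLp (∑ v, X v) 2 μ := memLp_finsetSum' _ fun v _ => hX2 v
  have hvar : variance (∑ v, X v) μ ≤ k := by
    rw [IndepFun.variance_sum (fun v _ => hX2 v) (fun v _ w _ hvw => hind hvw)]
    calc ∑ v, variance (X v) μ ≤ ∑ _v : Fin k, (1 : ℝ) := Finset.sum_le_sum fun v _ =>
          (variance_le_sq_of_bounded (hXb v) (hXm v).aemeasurable).trans (by norm_num)
      _ = k := by simp
  have hE : ∫ ω, (∑ v, X v) ω ∂μ = k * h := by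
    simp only [Finset.sum_apply]
    rw [integral_finsetSum _ fun v _ => (hX2 v).integrable one_le_two]
    simp only [X, integral_indicator_one (hG _), hh]
    simp
  let Z : Ω → ℝ := fun ω => (∑ v, X v) ω - k * h
  have hZ2 : MemLp Z 2 μ := hS2.sub (memLp_const _)
  have hZi : Integrable Z μ := hZ2.integrable one_le_two
  have hZv : ∫ ω, Z ω ^ 2 ∂μ ≤ k := by
    rw [variance_eq_integral hS2.aemeasurable, hE] at hvar
    exact hvar
  have e1 : (∑ v, μ.real (A ∩ G v)) / k - μ.real A * h = (∫ ω in A, Z ω ∂μ) / k := by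
    simp only [Z, Finset.sum_apply]
    rw [integral_sub (integrable_finsetSum _ fun v _ =>
      ((hX2 v).integrable one_le_two).integrableOn) (integrable_const _),
      integral_finsetSum _ fun v _ => ((hX2 v).integrable one_le_two).integrableOn]
    simp only [X, integral_indicator_one (hG _), measureReal_restrict_apply (hG _), inter_comm]
    simp
    field_simp
  rw [e1, abs_div, abs_of_pos hk', div_le_iff₀ hk']
  calc |∫ ω in A, Z ω ∂μ| ≤ ∫ ω in A, |Z ω| ∂μ := abs_integral_le_integral_abs
    _ ≤ ∫ ω, |Z ω| ∂μ := setIntegral_le_integral hZi.abs (ae_of_all _ fun _ => abs_nonneg _)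
    _ ≤ ∫ ω, (k * δ + Z ω ^ 2 / (k * δ)) ∂μ := by
        refine integral_mono hZi.abs ((integrable_const _).add
          (hZ2.integrable_sq.div_const _)) fun ω => ?_
        have hp : 0 < k * δ := by positivity
        show |Z ω| ≤ k * δ + Z ω ^ 2 / (k * δ)
        rw [← sq_abs, ← sub_le_iff_le_add', le_div_iff₀ hp]
        nlinarith [sq_nonneg (|Z ω| - k * δ), abs_nonneg (Z ω)]
    _ ≤ (δ + 1 / (k * δ)) * k := by
        rw [integral_add (integrable_const _) (hZ2.integrable_sq.div_const _), integral_div]
        simp only [integral_const, probReal_univ, smul_eq_mul, one_mul]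
        have : (∫ ω, Z ω ^ 2 ∂μ) / (k * δ) ≤ k / (k * δ) := by gcongr
        calc _ ≤ k * δ + k / (k * δ) := by linarith
          _ = _ := by ring

abbrev X := List Bool → I

noncomputable def μ0 : Measure X := Measure.infinitePi fun _ => volume

instance : IsProbabilityMeasure μ0 := by unfold μ0; infer_instance

noncomputable def β : Measure Bool := (2 : ℝ≥0∞)⁻¹ • (Measure.dirac true + Measure.dirac false)

instance : IsProbabilityMeasure β := ⟨by simp [β, ENNReal.inv_two_add_inv_two]⟩

lemma β_not : β.map not = β := by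
  rw [β, Measure.map_smul, Measure.map_add _ _ (by fun_prop), add_comm]
  simp

noncomputable def lam : Measure (ℕ → Bool) := Measure.infinitePi fun _ => β

instance : IsProbabilityMeasure lam := by unfold lam; infer_instance

def sub (u : List Bool) (η : X) : X := fun w => η (u ++ w)

def path (a : ℕ → Bool) (n : ℕ) : List Bool := (List.range n).map a

def tail (n : ℕ) (a : ℕ → Bool) : ℕ → Bool := fun i => a (n + i)

lemma sub_mp (u : List Bool) : MeasurePreserving (sub u) μ0 μ0 :=
  law_inj volume (fun w => u ++ w) (List.append_right_injective u)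

lemma tail_mp (n : ℕ) : MeasurePreserving (tail n) lam lam :=
  law_inj β (fun i => n + i) (add_right_injective n)

lemma path_add (a : ℕ → Bool) (n t : ℕ) : path a (n + t) = path a n ++ path (tail n a) t := by
  simp [path, List.range_add, tail, Function.comp_def]

lemma path_congr {a a' : ℕ → Bool} {n : ℕ} (h : ∀ i < n, a i = a' i) : path a n = path a' n :=
  List.map_congr_left fun i hi => h i (List.mem_range.1 hi)

instance : MeasurableSpace (List Bool) := ⊤
instance : DiscreteMeasurableSpace (List Bool) := ⟨fun _ => trivial⟩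

lemma path_meas (n : ℕ) : Measurable fun a => path a n := by
  have : (fun a => path a n) = (fun p : Fin n → Bool => List.ofFn p) ∘
      fun (a : ℕ → Bool) (i : Fin n) => a i := by
    ext1 a
    apply List.ext_getElem <;> simp [path]
  rw [this]
  exact (measurable_of_countable _).comp (by fun_prop)

lemma subpath_meas (n : ℕ) : Measurable fun p : X × (ℕ → Bool) => sub (path p.2 n) p.1 := by
  have h : Measurable fun q : X × List Bool => sub q.2 q.1 :=
    measurable_from_prod_countable_left fun u => (sub_mp u).measurable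
  exact h.comp (measurable_fst.prodMk ((path_meas n).comp measurable_snd))

def Φ (p : X × (ℕ → Bool)) : ℕ → X := fun t => sub (path p.2 t) p.1

lemma Φ_meas : Measurable Φ := measurable_pi_lambda _ subpath_meas

def T (n : ℕ) (p : X × (ℕ → Bool)) : X × (ℕ → Bool) := (sub (path p.2 n) p.1, tail n p.2)

lemma T_meas (n : ℕ) : Measurable (T n) :=
  (subpath_meas n).prodMk ((tail_mp n).measurable.comp measurable_snd)

lemma Φ_T (n : ℕ) (p : X × (ℕ → Bool)) : Φ (T n p) = fun t => Φ p (n + t) := by
  ext t w
  simp [Φ, T, sub, path_add]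

lemma T_mp (n : ℕ) : MeasurePreserving (T n) (μ0.prod lam) (μ0.prod lam) := by
  refine ⟨T_meas n, Measure.ext fun B hB => ?_⟩
  rw [Measure.map_apply (T_meas n) hB, Measure.prod_apply_symm (T_meas n hB),
    Measure.prod_apply_symm hB,
    ← (tail_mp n).lintegral_comp (measurable_measure_prodMk_right hB)]
  refine lintegral_congr fun a => ?_
  exact (sub_mp (path a n)).measure_preimage (s := (fun x => (x, tail n a)) ⁻¹' B)
    (measurable_prodMk_right hB).nullMeasurableSet

def flip (j : ℕ) (a : ℕ → Bool) : ℕ → Bool := fun i => if i = j then !a i else a i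

lemma flip_mp (j : ℕ) : MeasurePreserving (flip j) lam lam := by
  have hf : ∀ i : ℕ, Measurable fun b : Bool => if i = j then !b else b :=
    fun i => measurable_of_countable _
  refine ⟨measurable_pi_lambda _ fun i => (hf i).comp (measurable_pi_apply i), ?_⟩
  have := Measure.infinitePi_map_pi (fun _ : ℕ => β) hf
  refine this.trans ?_
  unfold lam
  congr 1
  ext1 i
  by_cases h : i = j
  · simp only [h, if_true]; exact β_not
  · simp [h]

def sec (S : Set (X × (ℕ → Bool))) (a : ℕ → Bool) : Set X := (fun x => (x, a)) ⁻¹' S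

lemma sec_meas {S : Set (X × (ℕ → Bool))} (hS : MeasurableSet S) (a : ℕ → Bool) :
    MeasurableSet (sec S a) := measurable_prodMk_right hS

lemma secm {S : Set (X × (ℕ → Bool))} (hS : MeasurableSet S) :
    Measurable fun a => μ0.real (sec S a) :=
  (measurable_measure_prodMk_right hS).ennreal_toReal

lemma seci {S : Set (X × (ℕ → Bool))} (hS : MeasurableSet S) :
    Integrable (fun a => μ0.real (sec S a)) lam :=
  Integrable.of_mem_Icc 0 1 (secm hS).aemeasurable
    (ae_of_all _ fun _ => ⟨measureReal_nonneg, measureReal_le_one⟩)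

lemma real_prod {S : Set (X × (ℕ → Bool))} (hS : MeasurableSet S) :
    (μ0.prod lam).real S = ∫ a, μ0.real (sec S a) ∂lam := by
  rw [Measure.real, Measure.prod_apply_symm hS, ← integral_toReal
    (measurable_measure_prodMk_right hS).aemeasurable (ae_of_all _ fun _ => measure_lt_top _ _)]
  rfl

lemma mix (l k : ℕ) (hk : 0 < k) (A B : Set (X × (ℕ → Bool))) (hA : MeasurableSet A)
    (hB : MeasurableSet B)
    (hinv : ∀ a a' : ℕ → Bool, (∀ i < l, a i = a' i) → sec A a = sec A a') (δ : ℝ) (hδ : 0 < δ) :
    |(μ0.prod lam).real (A ∩ T (l + k) ⁻¹' B) - (μ0.prod lam).real A * (μ0.prod lam).real B|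
      ≤ δ + 1 / (k * δ) := by
  have hk' : (0 : ℝ) < k := by exact_mod_cast hk
  have hC : MeasurableSet (A ∩ T (l + k) ⁻¹' B) := hA.inter (T_meas _ hB)
  let c : (ℕ → Bool) → ℝ := fun a => μ0.real (sec (A ∩ T (l + k) ⁻¹' B) a)
  have hci : ∀ v : Fin k, Integrable (fun a => c (flip (l + v) a)) lam := fun v =>
    (flip_mp _).integrable_comp_of_integrable (seci hC)
  have e1 : (μ0.prod lam).real (A ∩ T (l + k) ⁻¹' B)
      = ∫ a, (∑ v : Fin k, c (flip (l + v) a)) / k ∂lam := by
    rw [integral_div, integral_finsetSum _ fun v _ => hci v]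
    have : ∀ v : Fin k, ∫ a, c (flip (l + v) a) ∂lam
        = (μ0.prod lam).real (A ∩ T (l + k) ⁻¹' B) := by
      intro v
      rw [real_prod hC, ← integral_map (flip_mp _).measurable.aemeasurable
        (secm hC).aestronglyMeasurable, (flip_mp _).map_eq]
    simp only [this, Finset.sum_const, Finset.card_univ, Fintype.card_fin, nsmul_eq_mul]
    field_simp
  have htm := (tail_mp (l + k)).measurable
  have e2 : (μ0.prod lam).real A * (μ0.prod lam).real B
      = ∫ a, μ0.real (sec A a) * μ0.real (sec B (tail (l + k) a)) ∂lam := by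
    have hi := ind_disj β (fun i : Fin l => (i : ℕ)) (fun i : ℕ => l + k + i) (by
      rw [Set.disjoint_left]
      rintro _ ⟨i, rfl⟩ ⟨j, hj⟩
      have := i.2
      simp only at hj
      omega)
    let ext : (Fin l → Bool) → ℕ → Bool := fun p i => if h : i < l then p ⟨i, h⟩ else false
    have hi2 := hi.comp (φ := fun p => μ0.real (sec A (ext p))) (ψ := fun b => μ0.real (sec B b))
      (measurable_of_countable _) (secm hB)
    have e3 : ((fun p => μ0.real (sec A (ext p))) ∘ fun (η : ℕ → Bool) (i : Fin l) => η i)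
        = fun a => μ0.real (sec A a) := by
      ext1 a
      simp only [Function.comp]
      rw [hinv _ a fun i hi => by simp [ext, hi]]
    rw [e3] at hi2
    have := hi2.integral_fun_mul_eq_mul_integral (secm hA).aestronglyMeasurable
      ((secm hB).comp htm).aestronglyMeasurable
    refine Eq.trans ?_ this.symm
    rw [real_prod hA, real_prod hB]
    congr 1
    rw [← (tail_mp (l + k)).map_eq, integral_map htm.aemeasurable (secm hB).aestronglyMeasurable]
    rfl
  have i2 : Integrable (fun a => μ0.real (sec A a) * μ0.real (sec B (tail (l + k) a))) lam :=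
    Integrable.of_mem_Icc 0 1 ((secm hA).mul ((secm hB).comp htm)).aemeasurable
      (ae_of_all _ fun _ => ⟨by positivity,
        mul_le_one₀ measureReal_le_one measureReal_nonneg measureReal_le_one⟩)
  rw [e1, e2, ← integral_sub ((integrable_finsetSum _ fun v _ => hci v).div_const _) i2]
  have := norm_integral_le_of_norm_le_const (μ := lam) (C := δ + 1 / (k * δ))
    (f := fun a => (∑ v : Fin k, c (flip (l + v) a)) / k
      - μ0.real (sec A a) * μ0.real (sec B (tail (l + k) a))) (ae_of_all _ fun a => ?_)
  · simpa using this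
  let u : Fin k → List Bool := fun v => path (flip (l + v) a) (l + k)
  have hs := sec_meas hB (tail (l + k) a)
  have hc : ∀ v : Fin k, c (flip (l + v) a)
      = μ0.real (sec A a ∩ sub (u v) ⁻¹' sec B (tail (l + k) a)) := by
    intro v
    have t1 : tail (l + k) (flip (l + v) a) = tail (l + k) a := by
      ext i
      have := v.2
      simp only [tail, flip]
      rw [if_neg (by omega)]
    rw [← hinv (flip (l + v) a) a fun i hi => by simp only [flip]; rw [if_neg (by omega)], ← t1]
    rfl
  simp only [hc, Real.norm_eq_abs]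
  refine avg_bound μ0 k hk _ (fun v => (sub_mp _).measurable hs) _
    (fun v => (sub_mp _).measureReal_preimage hs.nullMeasurableSet) (fun v w hvw => ?_) _
    (sec_meas hA a) δ hδ
  have hi := ind_disj (volume : Measure I) (fun x => u v ++ x) (fun x => u w ++ x) (by
    rw [Set.disjoint_left]
    rintro _ ⟨x, rfl⟩ ⟨y, hy⟩
    have h1 : u w = u v := (List.append_inj hy (by simp [u, path])).1
    have h2 := congrArg (fun z => z[l + v]?) h1
    have h3 : (v : ℕ) ≠ w := fun h => hvw (Fin.ext h)
    simp [u, path, flip, h3] at h2)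
  exact hi.comp (φ := (sec B (tail (l + k) a)).indicator (1 : X → ℝ))
    (ψ := (sec B (tail (l + k) a)).indicator (1 : X → ℝ))
    (measurable_const.indicator hs) (measurable_const.indicator hs)

end Pool.Agent.H43.TreeMix
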