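import Pool.Agent.H43.TriGeo

set_option autoImplicit false

namespace Pool.Agent.H43.Tri

open Function Finset Sum

noncomputable section

abbrev A := ℕ × Bool
abbrev V := A × Fin 3
abbrev C := A × Fin 7

def up (a : A) : C := if a.2 then ((a.1, false), 0) else ((par a.1, true), ty a.1)

def P (a : A) : A := (up a).1

def H (a : A) : ℕ := 2 * ht a.1 + if a.2 then 0 else 1

def old (a : A) (l : Fin 3) : V := if a.2 then ((a.1, false), l) else
  Sum.elim (fun j => ((par a.1, false), j)) (fun j => ((par a.1, true), j)) (io (ty a.1) l)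

def six (a : A) : S6 → V := Sum.elim (old a) fun l => (a, l)

def vert (c : C) (i : Fin 3) : V := six c.1 (io c.2 i)

lemma io_zero (l : Fin 3) : io 0 l = inr l := by revert l; decide

lemma old_eq (a : A) (l : Fin 3) : old a l = vert (up a) l := by
  obtain ⟨n, _ | _⟩ := a
  · simp only [old, vert, up, six, Bool.false_eq_true, if_false]
    rcases io (ty n) l with j | j <;> simp [old]
  · simp [old, vert, up, six, io_zero]

lemma up_inj : Injective up := by
  rintro ⟨n, _ | _⟩ ⟨m, _ | _⟩ h <;> simp [up] at h ⊢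
  exacts [par_inj _ _ h.1 h.2, h]

lemma H_P (a : A) : H (P a) = H a + 1 := by
  obtain ⟨n, _ | _⟩ := a <;> simp [H, P, up, ht_par]
  ring

def sg (m : ℕ) : A := P^[m] (0, true)

lemma up_sg (m : ℕ) : up (sg m) = (sg (m + 1), 0) := by
  have h : ∀ m, Bin (sg m).1 := fun m => by
    induction m with
    | zero => exact .zero
    | succ m ih =>
      rw [sg, iterate_succ_apply', ← sg, P, up]
      split_ifs
      exacts [ih, ih.spec.1]
  refine Prod.ext (by rw [sg, sg, iterate_succ_apply']; rfl) ?_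
  rw [up]
  split_ifs
  exacts [rfl, (h m).spec.2]

lemma H_sg (m : ℕ) : H (sg m) = m := by
  induction m with
  | zero => rw [sg, iterate_zero_apply, H, ht]; simp
  | succ m ih => rw [sg, iterate_succ_apply', H_P, ← sg, ih]

lemma P_two (t : ℕ) (a : A) : P^[2 * t] a = (par^[t] a.1, a.2) := by
  induction t with
  | zero => rfl
  | succ t ih =>
    rw [show 2 * (t + 1) = 2 * t + 1 + 1 by ring, iterate_succ_apply', iterate_succ_apply', ih,
      iterate_succ_apply']
    obtain ⟨n, _ | _⟩ := a <;> simp [P, up]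

lemma reach0 (n : ℕ) : ∃ t m, par^[t] n = par^[m] 0 := by
  obtain ⟨t, -, h⟩ := to_top n n
  obtain ⟨s, -, h'⟩ := to_top n 0
  rw [Nat.div_eq_of_lt (Nat.lt_pow_self (by norm_num))] at h
  rw [Nat.zero_div] at h'
  exact ⟨t, s, h.trans h'.symm⟩

lemma reach (a : A) : ∃ t m, P^[t] a = sg m := by
  obtain ⟨t, s, h⟩ := reach0 a.1
  obtain ⟨n, _ | _⟩ := a
  · refine ⟨2 * t, 2 * s + 1, ?_⟩
    rw [sg, iterate_succ_apply', P_two, P_two, h]; rfl
  · exact ⟨2 * t, 2 * s, by rw [sg, P_two, P_two, h]⟩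

def D0 : Fin 3 → ℝ × ℝ := ![(1, 0), (0, 1), (-1, -1)]

open Classical in
def T (a : A) (i : Fin 3) : ℝ × ℝ :=
  if h : ∃ m, a = sg m then (-5 : ℝ) ^ H a • D0 i else ∑ l, M (io (up a).2 i) l • T (P a) l
termination_by Nat.find (reach a)
decreasing_by
  have h1 := Nat.find_spec (reach a)
  rcases h2 : Nat.find (reach a) with _ | t <;> rw [h2] at h1
  · exact absurd h1 h
  · exact Nat.lt_succ_of_le (Nat.find_min' _ h1)

lemma T_sg (m : ℕ) (i : Fin 3) : T (sg m) i = (-5 : ℝ) ^ m • D0 i := by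
  rw [T, dif_pos ⟨m, rfl⟩, H_sg]

lemma T_eq (a : A) (i : Fin 3) : T a i = ∑ l, M (io (up a).2 i) l • T (P a) l := by
  by_cases h : ∃ m, a = sg m
  · obtain ⟨m, rfl⟩ := h
    simp only [P, up_sg, T_sg, io_zero]
    fin_cases i <;> simp [M, D0, Fin.sum_univ_three, pow_succ] <;> ring
  · rw [T, dif_neg h]

def pos (v : V) : ℝ × ℝ := ∑ l, M (inr v.2) l • T v.1 l

lemma pos_six' {a : A} (h : ∀ l, pos (old a l) = T a l) (s : S6) :
    pos (six a s) = ∑ l, M s l • T a l := by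
  rcases s with j | j
  · simp [six, M, h]
  · rfl

lemma pos_old (a : A) (l : Fin 3) : pos (old a l) = T a l := by
  have h : ∀ n l, pos (old (n, true) l) = T (n, true) l := fun n l => by
    rw [T_eq]; simp [old, up, io_zero, pos, P]
  obtain ⟨n, _ | _⟩ := a
  · rw [old_eq, vert, T_eq]; exact pos_six' (h _) _
  · exact h n l

def pt (c : C) (w : Fin 3 → ℝ) : ℝ × ℝ := ∑ i, w i • pos (vert c i)

lemma pt_up (a : A) (w : Fin 3 → ℝ) : pt (up a) w = ∑ l, w l • T a l := by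
  simp only [pt, ← old_eq, pos_old]

lemma pt_bary (c : C) (w : Fin 3 → ℝ) : pt c w = pt (up c.1) (bary c.2 w) := by
  rw [pt_up]
  simp only [pt, vert, pos_six' (pos_old _), bary, smul_sum, sum_smul, smul_smul]
  exact sum_comm

lemma nd (c : C) {w w' : Fin 3 → ℝ} (h : ∑ i, w i = ∑ i, w' i) (h' : pt c w = pt c w') : w = w' := by
  have h1 : ∀ t m (c : C) (w w' : Fin 3 → ℝ), P^[t] c.1 = sg m → ∑ i, w i = ∑ i, w' i →
      pt c w = pt c w' → w = w' := fun t m => by
    induction t with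
    | zero =>
      intro c w w' h0 h h'
      rw [pt_bary, pt_bary c w', pt_up, pt_up, show c.1 = sg m from h0] at h'
      rw [← bary_sum c.2, ← bary_sum c.2 w'] at h
      refine bary_inj c.2 ?_
      simp only [T_sg, smul_comm _ ((-5 : ℝ) ^ m), ← smul_sum] at h'
      have h2 := smul_right_injective _ (by positivity) h'
      simp [D0, Fin.sum_univ_three] at h h2
      ext i
      fin_cases i <;> simp <;> linarith
    | succ t ih =>
      intro c w w' h0 h h'
      rw [pt_bary, pt_bary c w'] at h'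
      exact bary_inj c.2 (ih _ _ _ h0 (by rw [bary_sum, bary_sum, h]) h')
  obtain ⟨t, m, h0⟩ := reach c.1
  exact h1 t m c w w' h0 h h'

def Wt (c : C) (w : Fin 3 → ℝ) (v : V) : ℝ := ∑ i, if vert c i = v then w i else 0

lemma Wt_eq (c : C) (w : Fin 3 → ℝ) (v : V) :
    Wt c w v = ∑ s, if six c.1 s = v then W6 c.2 w s else 0 := by
  simp only [Wt, W6, vert]
  rw [eq_comm]
  calc _ = ∑ s, ∑ i, if io c.2 i = s then (if six c.1 s = v then w i else 0) else 0 :=
        sum_congr rfl fun s _ => by split_ifs <;> simp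
    _ = _ := by rw [sum_comm]; simp; congr

def U (c : C) : C := up c.1

lemma lift (t : ℕ) : ∀ (c : C) (w : Fin 3 → ℝ), Sx w → ∃ u, Sx u ∧ pt (U^[t] c) u = pt c w ∧
    ((∃ i, u i = 0) → Wt c w = Wt (U^[t] c) u ∧ ∃ i, w i = 0) := by
  induction t with
  | zero => exact fun c w h => ⟨w, h, rfl, fun h => ⟨rfl, h⟩⟩
  | succ t ih =>
    intro c w h
    obtain ⟨u, h1, h2, h3⟩ := ih (U c) _ (h.bary c.2)
    refine ⟨u, h1, h2.trans (pt_bary c w).symm, fun h4 => ?_⟩
    obtain ⟨h5, h6⟩ := h3 h4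
    obtain ⟨h7, h8, h9⟩ := L1 h c.2 h6
    refine ⟨Eq.trans (funext fun v => ?_) h5, h9⟩
    rw [Wt_eq, Fintype.sum_sum_type]
    simp [h7, h8, six, Wt, U, old_eq]
    congr

lemma tri (t : ℕ) : ∀ (t' : ℕ) (c c' : C) (w w' : Fin 3 → ℝ), Sx w → Sx w' → pt c w = pt c' w' →
    U^[t] c = U^[t'] c' → (∃ s, U^[s] c = c') ∨ (∃ s, U^[s] c' = c) ∨
      Wt c w = Wt c' w' ∧ ∃ i, w' i = 0 := by
  induction t with
  | zero => exact fun t' c c' w w' _ _ _ h => Or.inr (Or.inl ⟨t', h.symm⟩)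
  | succ t ih =>
    rintro (_ | t') c c' w w' h h' h1 h2
    · exact Or.inl ⟨_, h2⟩
    rw [iterate_succ_apply', iterate_succ_apply'] at h2
    have h3 := up_inj h2
    by_cases h4 : (U^[t] c).2 = (U^[t'] c').2
    · exact ih t' c c' w w' h h' h1 (Prod.ext h3 h4)
    obtain ⟨u, a1, a2, a3⟩ := lift t c w h
    obtain ⟨u', b1, b2, b3⟩ := lift t' c' w' h'
    have h5 := a2.trans (h1.trans b2.symm)
    rw [pt_bary, pt_bary _ u', h3] at h5
    have h6 := L2 a1 b1 (nd _ (by rw [bary_sum, bary_sum, a1.2, b1.2]) h5)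
    obtain ⟨a4, -⟩ := a3 (L2' h4 h6)
    obtain ⟨b4, b5⟩ := b3 (L2' (Ne.symm h4) h6.symm)
    refine Or.inr (Or.inr ⟨?_, b5⟩)
    rw [a4, b4]
    ext v
    rw [Wt_eq, Wt_eq, h3, h6]

lemma U_succ (t : ℕ) (c : C) : U^[t + 1] c = up (P^[t] c.1) := by
  induction t with
  | zero => rfl
  | succ t ih => rw [iterate_succ_apply', ih, iterate_succ_apply']; rfl

lemma tri' (c c' : C) {w w' : Fin 3 → ℝ} (h : Sx w) (h' : Sx w') (h1 : pt c w = pt c' w') :
    (∃ s, U^[s] c = c') ∨ (∃ s, U^[s] c' = c) ∨ Wt c w = Wt c' w' ∧ ∃ i, w' i = 0 := by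
  obtain ⟨t, m, h2⟩ := reach c.1
  obtain ⟨t', m', h3⟩ := reach c'.1
  refine tri (m' + t + 1) (m + t' + 1) c c' w w' h h' h1 ?_
  rw [U_succ, U_succ, iterate_add_apply, iterate_add_apply, h2, h3, sg, sg, ← iterate_add_apply,
    ← iterate_add_apply, add_comm]

def Leaf (c : C) : Prop := ∀ a, up a ≠ c

lemma Leaf.eq {c c' : C} (h : Leaf c) (h' : ∃ s, U^[s] c' = c) : c' = c := by
  obtain ⟨_ | s, h'⟩ := h'
  exacts [h', absurd ((U_succ s c').symm.trans h') (h _)]

lemma leaf_eq {c c' : C} (hc : Leaf c) (hc' : Leaf c') {w w' : Fin 3 → ℝ} (h : Sx w) (h' : Sx w')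
    (h1 : pt c w = pt c' w') {i : Fin 3} (hi : w i ≠ 0) : ∃ j, w' j ≠ 0 ∧ vert c' j = vert c i := by
  have h2 : Wt c w = Wt c' w' := by
    rcases tri' c c' h h' h1 with h2 | h2 | h2
    · obtain rfl := hc'.eq h2
      rw [nd _ (h.2.trans h'.2.symm) h1]
    · obtain rfl := hc.eq h2
      rw [nd _ (h.2.trans h'.2.symm) h1]
    · exact h2.1
  have h3 : 0 < Wt c w (vert c i) := sum_pos' (fun j _ => by split_ifs; exacts [h.1 j, le_rfl])
    ⟨i, mem_univ _, by simpa using lt_of_le_of_ne (h.1 i) hi.symm⟩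
  rw [h2] at h3
  obtain ⟨j, -, hj⟩ := exists_ne_zero_of_sum_ne_zero h3.ne'
  exact ⟨j, by split_ifs at hj <;> tauto⟩

lemma descend (Q : C → Prop) (h : ∀ a, (∀ k, Q (a, k)) → Q (up a)) (hl : ∀ c, Leaf c → Q c)
    (c : C) : Q c := by
  induction hn : H c.1 using Nat.strong_induction_on generalizing c with
  | _ n ih =>
    by_cases hc : Leaf c
    · exact hl c hc
    · obtain ⟨a, rfl⟩ : ∃ a, up a = c := not_forall_not.1 hc
      exact h a fun k => ih (H a) (hn ▸ (H_P a).symm ▸ Nat.lt_succ_self _) _ rfl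

lemma edge (c : C) : ∀ i j, ∃ c' i' j', Leaf c' ∧ vert c' i' = vert c i ∧ vert c' j' = vert c j := by
  induction c using descend with
  | h a ih =>
    intro i j
    obtain ⟨k, i', j', h1, h2⟩ := (by decide : ∀ i j, ∃ k i' j', io k i' = inl i ∧ io k j' = inl j) i j
    have h3 := ih k i' j'
    rwa [vert, vert, h1, h2, six, elim_inl, elim_inl, old_eq, old_eq] at h3
  | hl c h => exact fun i j => ⟨c, i, j, h, rfl, rfl⟩

lemma cov (c : C) : ∀ w, Sx w → ∃ c' w', Leaf c' ∧ Sx w' ∧ pt c' w' = pt c w := by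
  induction c using descend with
  | h a ih =>
    intro u h
    obtain ⟨k, w, h1, rfl⟩ := cover h
    exact pt_bary (a, k) w ▸ ih k w h1
  | hl c h => exact fun w h' => ⟨c, w, h, h', rfl⟩

lemma vert_zero (v : V) : vert (v.1, 0) v.2 = v := by simp [vert, io_zero, six]

lemma Sx_one (i : Fin 3) : Sx (Pi.single i 1) :=
  ⟨fun j => by rw [Pi.single_apply]; split_ifs <;> norm_num, by simp⟩

lemma pos_inj : Injective pos := fun u v h => by
  obtain ⟨c, i, -, h1, h2, -⟩ := edge (u.1, 0) u.2 0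
  obtain ⟨c', i', -, h3, h4, -⟩ := edge (v.1, 0) v.2 0
  rw [vert_zero] at h2 h4
  obtain ⟨j, h5, h6⟩ := leaf_eq h1 h3 (Sx_one i) (Sx_one i') (i := i)
    (by simp [pt, Pi.single_apply, h2, h4, h]) (by simp)
  obtain rfl : j = i' := by simpa [Pi.single_apply] using h5
  rw [← h2, ← h6, h4]

lemma big {B : Set (ℝ × ℝ)} (hB : Bornology.IsBounded B) :
    ∃ m, ∀ z ∈ B, ∃ w, Sx w ∧ (∀ i, w i ≠ 0) ∧ pt (up (sg m)) w = z := by
  obtain ⟨R, hR⟩ := hB.exists_norm_le
  obtain ⟨m, hm⟩ := pow_unbounded_of_one_lt (3 * R) (by norm_num : (1 : ℝ) < 25)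
  refine ⟨2 * m, fun z hz => ?_⟩
  have h0 : (0 : ℝ) < 25 ^ m := by positivity
  have h1 := abs_le.1 ((norm_fst_le z).trans (hR z hz))
  have h2 := abs_le.1 ((norm_snd_le z).trans (hR z hz))
  have h3 : ∀ i, 0 < (![25 ^ m + 2 * z.1 - z.2, 25 ^ m + 2 * z.2 - z.1, 25 ^ m - z.1 - z.2] i) /
      (3 * 25 ^ m) := fun i => div_pos (by fin_cases i <;> simp <;> linarith) (by positivity)
  refine ⟨_, ⟨fun i => (h3 i).le, ?_⟩, fun i => (h3 i).ne', ?_⟩
  · simp [Fin.sum_univ_three]; field_simp; ring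
  · rw [pt_up]
    simp only [T_sg, pow_mul]
    ext <;> simp [Fin.sum_univ_three, D0] <;> field_simp <;> norm_num <;> ring

end

end Pool.Agent.H43.Tri
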