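import Pool.Agent.H43.TriTree

set_option autoImplicit false

namespace Pool.Agent.H43.Tri

open Function Finset Sum

noncomputable section

abbrev S6 := Fin 3 ⊕ Fin 3

def io : Fin 7 → Fin 3 → S6 :=
  ![![inr 0, inr 1, inr 2], ![inr 0, inl 1, inl 2], ![inl 0, inr 1, inl 2], ![inl 0, inl 1, inr 2],
    ![inl 0, inr 1, inr 2], ![inr 0, inl 1, inr 2], ![inr 0, inr 1, inl 2]]

def M : S6 → Fin 3 → ℝ
  | inl j, l => if j = l then 1 else 0
  | inr j, l => if j = l then 1 / 5 else 2 / 5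

def bary (k : Fin 7) (w : Fin 3 → ℝ) (l : Fin 3) : ℝ := ∑ i, w i * M (io k i) l

def W6 (k : Fin 7) (w : Fin 3 → ℝ) (s : S6) : ℝ := ∑ i, if io k i = s then w i else 0

def Sx (w : Fin 3 → ℝ) : Prop := (∀ i, 0 ≤ w i) ∧ ∑ i, w i = 1

lemma bary_sum (k : Fin 7) (w : Fin 3 → ℝ) : ∑ l, bary k w l = ∑ i, w i := by
  fin_cases k <;> simp [bary, io, M, Fin.sum_univ_three] <;> ring

lemma Sx.bary {w : Fin 3 → ℝ} (h : Sx w) (k : Fin 7) : Sx (bary k w) := by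
  refine ⟨fun l => sum_nonneg fun i _ => mul_nonneg (h.1 i) ?_, by rw [bary_sum, h.2]⟩
  rcases io k i with j | j <;> simp only [M] <;> split_ifs <;> norm_num

lemma bary_inj (k : Fin 7) : Injective (bary k) := by
  intro w w' h
  have h0 := congrFun h 0
  have h1 := congrFun h 1
  have h2 := congrFun h 2
  ext i
  fin_cases k <;> simp [bary, io, M, Fin.sum_univ_three] at h0 h1 h2 <;> fin_cases i <;>
    simp <;> linarith

lemma L1 {w : Fin 3 → ℝ} (h : Sx w) (k : Fin 7) (h0 : ∃ l, bary k w l = 0) :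
    (∀ l, W6 k w (inr l) = 0) ∧ (∀ l, W6 k w (inl l) = bary k w l) ∧ ∃ i, w i = 0 := by
  obtain ⟨l, h0⟩ := h0
  have h1 := h.1 0
  have h2 := h.1 1
  have h3 := h.1 2
  have h4 : ∀ i j, io k i = inr j → w i = 0 := fun i j hi => by
    have := (sum_eq_zero_iff_of_nonneg fun i _ => mul_nonneg (h.1 i) (by
      rcases io k i with j | j <;> simp only [M] <;> split_ifs <;> norm_num)).1 h0 i (mem_univ _)
    rw [hi] at this
    simp only [M] at this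
    split_ifs at this <;> linarith
  refine ⟨fun l => sum_eq_zero fun i _ => ?_, fun l => sum_congr rfl fun i _ => ?_, ?_⟩
  · split_ifs with hi
    exacts [h4 i _ hi, rfl]
  · rcases hi : io k i with j | j
    · simp [M]
    · simp [h4 i j hi]
  · obtain ⟨i, j, hi⟩ := (by decide : ∀ k, ∃ i j, io k i = inr j) k
    exact ⟨i, h4 i j hi⟩

lemma bary_eq (k : Fin 7) (w : Fin 3 → ℝ) (l : Fin 3) : 5 * bary k w l =
    5 * W6 k w (inl l) + 2 * (W6 k w (inr 0) + W6 k w (inr 1) + W6 k w (inr 2)) - W6 k w (inr l) := by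
  fin_cases k <;> fin_cases l <;> simp [bary, io, M, W6, Fin.sum_univ_three] <;> ring

def Z (k : Fin 7) (f : S6 → ℝ) : Prop :=
  ![f (inl 0) = 0 ∧ f (inl 1) = 0 ∧ f (inl 2) = 0, f (inl 0) = 0 ∧ f (inr 1) = 0 ∧ f (inr 2) = 0,
    f (inr 0) = 0 ∧ f (inl 1) = 0 ∧ f (inr 2) = 0, f (inr 0) = 0 ∧ f (inr 1) = 0 ∧ f (inl 2) = 0,
    f (inr 0) = 0 ∧ f (inl 1) = 0 ∧ f (inl 2) = 0, f (inl 0) = 0 ∧ f (inr 1) = 0 ∧ f (inl 2) = 0,
    f (inl 0) = 0 ∧ f (inl 1) = 0 ∧ f (inr 2) = 0] k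

lemma L2 {w w' : Fin 3 → ℝ} (h : Sx w) (h' : Sx w') {k k' : Fin 7}
    (h0 : bary k w = bary k' w') : W6 k w = W6 k' w' := by
  have h1 : ∀ k w, Sx w → (∀ s, 0 ≤ W6 k w s) ∧ Z k (W6 k w) := fun k w h =>
    ⟨fun s => sum_nonneg fun i _ => by split_ifs; exacts [h.1 i, le_rfl],
      by fin_cases k <;> simp [Z, W6, io, Fin.sum_univ_three]⟩
  obtain ⟨h2, h3⟩ := h1 k w h
  obtain ⟨h4, h5⟩ := h1 k' w' h'
  have h6 := fun l => (bary_eq k w l).symm.trans (h0 ▸ bary_eq k' w' l)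
  generalize W6 k w = f at *
  generalize W6 k' w' = g at *
  have e : f (inl 0) = g (inl 0) ∧ f (inl 1) = g (inl 1) ∧ f (inl 2) = g (inl 2) ∧
      f (inr 0) = g (inr 0) ∧ f (inr 1) = g (inr 1) ∧ f (inr 2) = g (inr 2) := by
    have a0 := h6 0
    have a1 := h6 1
    have a2 := h6 2
    have := And.intro (And.intro (h2 (inl 0)) (And.intro (h2 (inl 1)) (h2 (inl 2))))
      (And.intro (h2 (inr 0)) (And.intro (h2 (inr 1)) (h2 (inr 2))))
    have := And.intro (And.intro (h4 (inl 0)) (And.intro (h4 (inl 1)) (h4 (inl 2))))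
      (And.intro (h4 (inr 0)) (And.intro (h4 (inr 1)) (h4 (inr 2))))
    clear h0 h1 h6
    fin_cases k <;> fin_cases k' <;> obtain ⟨b1, b2, b3⟩ := h3 <;> obtain ⟨b4, b5, b6⟩ := h5 <;>
      grind
  ext s
  fin_cases s <;> simp [e]

lemma L2' {w w' : Fin 3 → ℝ} {k k' : Fin 7} (hk : k ≠ k')
    (h0 : W6 k w = W6 k' w') : ∃ i, w i = 0 := by
  obtain ⟨i, h1, h2⟩ := (by decide : ∀ k k', k ≠ k' →
    ∃ i, (∀ j, io k' j ≠ io k i) ∧ ∀ j, io k j = io k i → j = i) k k' hk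
  have h3 := congrFun h0 (io k i)
  simp only [W6, h1, if_false, sum_const_zero] at h3
  rw [sum_eq_single i (fun j _ hj => if_neg fun h => hj (h2 j h)) (by simp), if_pos rfl] at h3
  exact ⟨i, h3⟩

lemma cover {u : Fin 3 → ℝ} (h : Sx u) : ∃ k w, Sx w ∧ bary k w = u := by
  have h1 := h.1 0
  have h2 := h.1 1
  have h3 := h.1 2
  have h4 := h.2
  rw [Fin.sum_univ_three] at h4
  have key : ∀ (k : Fin 7) (a b c : ℝ), 0 ≤ a → 0 ≤ b → 0 ≤ c → bary k ![a, b, c] = u →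
      ∃ k w, Sx w ∧ bary k w = u := fun k a b c ha hb hc h0 =>
    ⟨k, _, ⟨fun i => by fin_cases i <;> simpa, by rw [← bary_sum k, h0, h.2]⟩, h0⟩
  by_contra hc
  have e : ∀ (k : Fin 7) (a b c : ℝ), bary k ![a, b, c] = u → a < 0 ∨ b < 0 ∨ c < 0 :=
    fun k a b c h0 => by
      by_contra h5
      push Not at h5
      exact hc (key k a b c h5.1 h5.2.1 h5.2.2 h0)
  have e0 := e 0 (2 - 5 * u 0) (2 - 5 * u 1) (2 - 5 * u 2)
  have e1 := e 1 (5 * u 0) (u 1 - 2 * u 0) (u 2 - 2 * u 0)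
  have e2 := e 2 (u 0 - 2 * u 1) (5 * u 1) (u 2 - 2 * u 1)
  have e3 := e 3 (u 0 - 2 * u 2) (u 1 - 2 * u 2) (5 * u 2)
  have e4 := e 4 (u 0 - 2 / 3 * (u 1 + u 2)) (5 / 3 * (2 * u 2 - u 1)) (5 / 3 * (2 * u 1 - u 2))
  have e5 := e 5 (5 / 3 * (2 * u 2 - u 0)) (u 1 - 2 / 3 * (u 0 + u 2)) (5 / 3 * (2 * u 0 - u 2))
  have e6 := e 6 (5 / 3 * (2 * u 1 - u 0)) (5 / 3 * (2 * u 0 - u 1)) (u 2 - 2 / 3 * (u 0 + u 1))
  have f : ∀ (k : Fin 7) (w : Fin 3 → ℝ), bary k w 0 = u 0 ∧ bary k w 1 = u 1 ∧ bary k w 2 = u 2 →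
      bary k w = u := fun k w h => by ext i; fin_cases i <;> simp [h]
  replace e0 := e0 (f _ _ (by simp [bary, io, M, Fin.sum_univ_three]; refine ⟨?_, ?_, ?_⟩ <;> linarith))
  replace e1 := e1 (f _ _ (by simp [bary, io, M, Fin.sum_univ_three]; refine ⟨?_, ?_, ?_⟩ <;> linarith))
  replace e2 := e2 (f _ _ (by simp [bary, io, M, Fin.sum_univ_three]; refine ⟨?_, ?_, ?_⟩ <;> linarith))
  replace e3 := e3 (f _ _ (by simp [bary, io, M, Fin.sum_univ_three]; refine ⟨?_, ?_, ?_⟩ <;> linarith))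
  replace e4 := e4 (f _ _ (by simp [bary, io, M, Fin.sum_univ_three]; refine ⟨?_, ?_, ?_⟩ <;> linarith))
  replace e5 := e5 (f _ _ (by simp [bary, io, M, Fin.sum_univ_three]; refine ⟨?_, ?_, ?_⟩ <;> linarith))
  replace e6 := e6 (f _ _ (by simp [bary, io, M, Fin.sum_univ_three]; refine ⟨?_, ?_, ?_⟩ <;> linarith))
  grind

end

end Pool.Agent.H43.Tri
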