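import Pool.Agent.H43.TriCx

set_option autoImplicit false

namespace Pool.Agent.H43.Tri

open Function Finset Sum

open Classical in
/-- `G` is the graph of a locally finite straight-line triangulation of the whole plane. -/
def IsTriang {W : Type} (G : SimpleGraph W) : Prop :=
  ∃ (pos : W → ℝ × ℝ) (K : Geometry.SimplicialComplex ℝ (ℝ × ℝ)), Injective pos ∧
    K.vertices = Set.range pos ∧ (∀ u v, G.Adj u v ↔ u ≠ v ∧ {pos u, pos v} ∈ K.faces) ∧
    K.space = Set.univ ∧ (∀ s ∈ K.faces, ∃ t ∈ K.faces, s ⊆ t ∧ t.card = 3) ∧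
    ∀ B : Set (ℝ × ℝ), Bornology.IsBounded B →
      {s ∈ K.faces | (convexHull ℝ (s : Set (ℝ × ℝ)) ∩ B).Nonempty}.Finite

def G : SimpleGraph V where
  Adj u v := u ≠ v ∧ ∃ c i j, vert c i = u ∧ vert c j = v
  symm := ⟨fun _ _ ⟨h, c, i, j, h1, h2⟩ => ⟨h.symm, c, j, i, h2, h1⟩⟩
  loopless := ⟨fun _ h => h.1 rfl⟩

lemma ai (c : C) : AffineIndependent ℝ fun i => pos (vert c i) := by
  rw [affineIndependent_iff_of_fintype]
  intro w h1 h2
  rw [weightedVSub_eq_linear_combination _ h1] at h2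
  exact congrFun (nd c (w := w) (w' := 0) (by simpa using h1) (by simpa [pt] using h2))

lemma hull {c : C} {s : Set (ℝ × ℝ)} (h : s ⊆ Set.range fun i => pos (vert c i)) {z : ℝ × ℝ}
    (hz : z ∈ convexHull ℝ s) : ∃ w, Sx w ∧ (∀ i, w i ≠ 0 → pos (vert c i) ∈ s) ∧ pt c w = z := by
  refine convexHull_min (t := {z | ∃ w, Sx w ∧ (∀ i, w i ≠ 0 → pos (vert c i) ∈ s) ∧ pt c w = z})
    (fun x hx => ?_) ?_ hz
  · obtain ⟨i, rfl⟩ := h hx
    refine ⟨_, Sx_one i, fun j hj => ?_, by simp [pt, Pi.single_apply]⟩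
    obtain rfl : j = i := by simpa [Pi.single_apply] using hj
    exact hx
  · rintro _ ⟨w, h1, h2, rfl⟩ _ ⟨w', h3, h4, rfl⟩ a b ha hb hab
    refine ⟨a • w + b • w', ⟨fun i => ?_, ?_⟩, fun i hi => ?_, ?_⟩
    · exact add_nonneg (mul_nonneg ha (h1.1 i)) (mul_nonneg hb (h3.1 i))
    · simp [sum_add_distrib, ← mul_sum, h1.2, h3.2, hab]
    · by_contra h5
      simp [not_not.1 (mt (h2 i) h5), not_not.1 (mt (h4 i) h5)] at hi
    · simp [pt, add_smul, sum_add_distrib, smul_sum, smul_smul]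

lemma mem_hull {c : C} {s : Set (ℝ × ℝ)} {w : Fin 3 → ℝ} (h : Sx w)
    (h' : ∀ i, w i ≠ 0 → pos (vert c i) ∈ s) : pt c w ∈ convexHull ℝ s := by
  rw [pt, ← sum_filter_of_ne (p := fun i => w i ≠ 0) fun i _ hi => left_ne_zero_of_smul hi]
  exact (convex_convexHull ℝ s).sum_mem (fun i _ => h.1 i) (by rw [sum_filter_ne_zero, h.2])
    fun i hi => subset_convexHull ℝ s (h' i (mem_filter.1 hi).2)

noncomputable def K : Geometry.SimplicialComplex ℝ (ℝ × ℝ) :=
  .ofErase {s | ∃ c, Leaf c ∧ (s : Set (ℝ × ℝ)) ⊆ Set.range fun i => pos (vert c i)}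
    (fun _ ⟨c, _, h⟩ => (ai c).range.mono h)
    (fun _ _ h ⟨c, h1, h2⟩ => ⟨c, h1, (coe_subset.2 h).trans h2⟩)
    (by
      rintro s ⟨c, h1, h2⟩ t ⟨c', h3, h4⟩ z ⟨h5, h6⟩
      obtain ⟨w, a1, a2, rfl⟩ := hull h2 h5
      obtain ⟨w', b1, b2, b3⟩ := hull h4 h6
      refine mem_hull a1 fun i hi => ⟨a2 i hi, ?_⟩
      obtain ⟨j, h7, h8⟩ := leaf_eq h1 h3 a1 b1 b3.symm hi
      exact h8 ▸ b2 j h7)

lemma mem_K {s : Finset (ℝ × ℝ)} : s ∈ K.faces ↔
    (∃ c, Leaf c ∧ (s : Set (ℝ × ℝ)) ⊆ Set.range fun i => pos (vert c i)) ∧ s ≠ ∅ := Iff.rfl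

lemma P_fin (a : A) : {b | P b = a}.Finite :=
  ((Set.finite_range fun k => (a, k)).preimage up_inj.injOn).subset fun b h => ⟨(up b).2, h ▸ rfl⟩

theorem triang : IsTriang G := by
  classical
  have h0 : ∀ c, Leaf c → image (fun i => pos (vert c i)) univ ∈ K.faces := fun c h =>
    mem_K.2 ⟨⟨c, h, by simp⟩, (univ_nonempty.image _).ne_empty⟩
  refine ⟨pos, K, pos_inj, Set.ext fun x => ?_, fun u v => and_congr_right fun h => ?_,
    Set.eq_univ_of_forall fun z => ?_, fun s hs => ?_, fun B hB => ?_⟩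
  · rw [Geometry.SimplicialComplex.mem_vertices, mem_K]
    constructor
    · rintro ⟨⟨c, -, h⟩, -⟩
      obtain ⟨i, hi⟩ := h (mem_singleton_self x)
      exact ⟨_, hi⟩
    · rintro ⟨v, rfl⟩
      obtain ⟨c, i, -, h1, h2, -⟩ := edge (v.1, 0) v.2 0
      exact ⟨⟨c, h1, by simpa using ⟨i, by rw [h2, vert_zero]⟩⟩, by simp⟩
  · rw [mem_K]
    constructor
    · rintro ⟨c, i, j, rfl, rfl⟩
      obtain ⟨c', i', j', h1, h2, h3⟩ := edge c i j
      refine ⟨⟨c', h1, ?_⟩, by simp⟩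
      rw [← h2, ← h3]
      simp [Set.insert_subset_iff]
    · rintro ⟨⟨c, -, h⟩, -⟩
      obtain ⟨i, hi⟩ := h (show pos u ∈ _ by simp)
      obtain ⟨j, hj⟩ := h (show pos v ∈ _ by simp)
      exact ⟨c, i, j, pos_inj hi, pos_inj hj⟩
  · obtain ⟨m, h⟩ := big (Bornology.isBounded_singleton (x := z))
    obtain ⟨w, h1, -, rfl⟩ := h z rfl
    obtain ⟨c, w', h2, h3, h4⟩ := cov _ w h1
    exact h4 ▸ K.convexHull_subset_space (h0 c h2) (mem_hull h3 (by simp))
  · obtain ⟨⟨c, h1, h2⟩, -⟩ := mem_K.1 hs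
    exact ⟨_, h0 c h1, coe_subset.1 (by simpa using h2),
      by rw [card_image_of_injective _ (ai c).injective]; rfl⟩
  · obtain ⟨m, h⟩ := big hB
    refine (((desc_fin P H H_P P_fin (sg (m + 1))).prod (Set.finite_univ (α := Fin 7))).biUnion
      (t := fun c : C => {s | s ⊆ image (fun i => pos (vert c i)) univ})
      fun c _ => (powerset _).finite_toSet.subset fun s hs => mem_powerset.2 hs).subset ?_
    rintro s ⟨hs, z, h1, h2⟩
    obtain ⟨⟨c, h3, h4⟩, -⟩ := mem_K.1 hs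
    obtain ⟨w, a1, -, rfl⟩ := hull h4 h1
    obtain ⟨w', b1, b2, b3⟩ := h _ h2
    refine Set.mem_biUnion (x := c) ⟨?_, trivial⟩ (coe_subset.1 (by simpa using h4))
    rcases tri' c _ a1 b1 b3.symm with ⟨_ | t, h5⟩ | h5 | ⟨-, i, h5⟩
    · exact absurd h5.symm (h3 _)
    · rw [U_succ] at h5
      exact ⟨t + 1, by rw [iterate_succ_apply', up_inj h5, P, up_sg]⟩
    · exact absurd (h3.eq h5) (h3 _)
    · exact absurd h5 (b2 i)

lemma adj_nd {u v : V} (h : G.Adj u v) :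
    u.1.1 = v.1.1 ∨ par u.1.1 = v.1.1 ∨ u.1.1 = par v.1.1 := by
  obtain ⟨-, c, i, j, rfl, rfl⟩ := h
  have h : ∀ i, (vert c i).1.1 = c.1.1 ∨ (vert c i).1.1 = par c.1.1 := fun i => by
    obtain ⟨⟨n, _ | _⟩, k⟩ := c <;> simp only [vert, six] <;> rcases io k i with j | j <;>
      simp [old]
    rcases io (ty n) j with l | l <;> simp
  rcases h i with h1 | h1 <;> rcases h j with h2 | h2 <;> simp [h1, h2]

lemma ed_vert (c : C) (i j : Fin 3) : G.edist (vert c i) (vert c j) ≤ 1 := by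
  by_cases h : vert c i = vert c j
  · simp [h]
  · exact (SimpleGraph.edist_eq_one_iff_adj.2 (show G.Adj _ _ from ⟨h, c, i, j, rfl, rfl⟩)).le

def e (n : ℕ) : V := ((n, false), 0)

lemma ed_e (v : V) : G.edist v (e v.1.1) ≤ 2 := by
  obtain ⟨⟨n, _ | _⟩, l⟩ := v
  · exact (vert_zero (_, l) ▸ ed_vert ((n, false), 0) l 0).trans one_le_two
  · have h := vert_zero (_, l) ▸ ed_vert ((n, true), 0) l 1
    exact SimpleGraph.edist_triangle.trans (add_le_add h (ed_vert ((n, true), 4) 1 0))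

lemma ed_par (t n : ℕ) : G.edist (e n) (e (par^[t] n)) ≤ (3 * t : ℕ) := by
  induction t with
  | zero => simp
  | succ t ih =>
    rw [iterate_succ_apply']
    generalize par^[t] n = m at *
    have h := ed_e (old (m, false) 1)
    rw [show (old (m, false) 1).1.1 = par m by
      simp only [old]; rcases io (ty m) 1 with l | l <;> simp] at h
    refine SimpleGraph.edist_triangle.trans ((add_le_add ih (SimpleGraph.edist_triangle.trans
      (add_le_add (ed_vert ((m, false), 1) 0 1) h))).trans (le_of_eq ?_))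
    push_cast; ring

lemma ed_top {t s : ℕ} {v : V} {m : ℕ} (h : par^[t] v.1.1 = par^[s] m) :
    G.edist v (e m) ≤ (3 * t + 3 * s + 2 : ℕ) := by
  have h1 := ed_par s m
  rw [← h, SimpleGraph.edist_comm] at h1
  refine SimpleGraph.edist_triangle.trans ((add_le_add (ed_e v) (SimpleGraph.edist_triangle.trans
    (add_le_add (ed_par t _) h1))).trans (le_of_eq ?_))
  push_cast; ring

lemma conn : G.Connected := by
  have h : ∀ v, G.Reachable v (e 0) := fun v => by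
    obtain ⟨t, s, h⟩ := reach0 v.1.1
    exact SimpleGraph.edist_ne_top_iff_reachable.1 (ne_top_of_le_ne_top (ENat.natCast_ne_top _) (ed_top h))
  exact ⟨fun u v => (h u).trans (h v).symm⟩

lemma upper (v : V) (n j : ℕ) (h : n ≤ 2 ^ j) : ∃ s : Finset V, s.card ≤ 96 * 8 ^ j ∧
    {u | G.edist v u ≤ n} ⊆ s := by
  obtain ⟨s, h1, h2⟩ := L_card (v.1.1 / 8 ^ j)
  refine ⟨((image (fun x : ℕ × ℕ => 8 ^ j * x.1 + x.2) (s ×ˢ range (8 ^ j))) ×ˢ univ) ×ˢ univ, ?_,
    fun u hu => ?_⟩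
  · have := (card_image_le (f := fun x : ℕ × ℕ => 8 ^ j * x.1 + x.2) (s := s ×ˢ range (8 ^ j)))
    simp only [card_product, card_range, card_univ, Fintype.card_bool, Fintype.card_fin] at this ⊢
    nlinarith [Nat.mul_le_mul_right (8 ^ j) h1]
  · obtain ⟨q, hq⟩ := (conn v u).exists_walk_length_eq_edist
    have h3 : q.length ≤ n := by exact_mod_cast hq.le.trans hu
    have h4 := L_pow j (fun i => (q.getVert i).1.1) fun i => by
      by_cases hi : i < q.length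
      · rcases adj_nd (q.adj_getVert_succ hi) with h | h | h <;> simp [L, h]
      · simp [L, q.getVert_of_length_le (not_lt.1 hi), q.getVert_of_length_le (Nat.le_succ_of_le (not_lt.1 hi))]
    simp only [q.getVert_zero, q.getVert_of_length_le (h3.trans h)] at h4
    simpa using ⟨_, _, ⟨h2 _ h4, Nat.mod_lt _ (by positivity)⟩, Nat.div_add_mod _ _⟩

lemma lower (v : V) (n j : ℕ) (h : 6 * 2 ^ j ≤ n) : 8 ^ j ≤ {u | G.edist v u ≤ n}.ncard := by
  obtain ⟨s, -, h1⟩ := upper v n n Nat.lt_two_pow_self.le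
  have h2 : 0 < 8 ^ j := by positivity
  rw [← card_range (8 ^ j), ← Set.ncard_coe_finset]
  refine Set.ncard_le_ncard_of_injOn (fun r => e (8 ^ j * (v.1.1 / 8 ^ j) + r)) (fun r hr => ?_)
    (fun a _ b _ h => by simpa [e] using h) (s.finite_toSet.subset h1)
  obtain ⟨t, a1, a2⟩ := to_top j v.1.1
  obtain ⟨t', b1, b2⟩ := to_top j (8 ^ j * (v.1.1 / 8 ^ j) + r)
  rw [Nat.mul_add_div h2, Nat.div_eq_of_lt (a := r) (by simpa using hr), add_zero] at b2
  exact (ed_top (a2.trans b2.symm)).trans (by exact_mod_cast (by omega))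

theorem growth (n : ℕ) (hn : 1 ≤ n) (v : V) :
    1 / 2000 * (n : ℝ) ^ 3 < {u | G.edist v u ≤ n}.ncard ∧
      ({u | G.edist v u ≤ n}.ncard : ℝ) < 800 * (n : ℝ) ^ 3 := by
  have h8 : ∀ j, 8 ^ j = (2 ^ j) ^ 3 := fun j => by rw [← pow_mul, mul_comm, pow_mul]; rfl
  obtain ⟨s, h1, h2⟩ := upper v n (Nat.log 2 n + 1) (Nat.lt_pow_succ_log_self one_lt_two n).le
  have h3 : n ^ 3 < 2000 * {u | G.edist v u ≤ n}.ncard := by
    by_cases h : n < 6
    · have := (Set.ncard_pos (s.finite_toSet.subset h2)).2 ⟨v, by simp⟩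
      have := Nat.pow_lt_pow_left h three_ne_zero
      omega
    · have a1 := Nat.pow_log_le_self 2 (show n / 6 ≠ 0 by omega)
      have a2 := Nat.lt_pow_succ_log_self one_lt_two (n / 6)
      have a3 := lower v n (Nat.log 2 (n / 6)) (by omega)
      have a4 := Nat.pow_lt_pow_left (show n < 12 * 2 ^ Nat.log 2 (n / 6) by omega) three_ne_zero
      rw [mul_pow, ← h8] at a4
      omega
  have h4 := (Set.ncard_le_ncard h2).trans_eq (Set.ncard_coe_finset s)
  have h5 := Nat.pow_le_pow_left (Nat.pow_log_le_self 2 (show n ≠ 0 by omega)) 3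
  have h6 : {u | G.edist v u ≤ n}.ncard < 800 * n ^ 3 := by
    have := Nat.pow_pos (n := 3) hn
    rw [← h8] at h5
    omega
  have h7 : (n : ℝ) ^ 3 < 2000 * {u | G.edist v u ≤ n}.ncard := by exact_mod_cast h3
  exact ⟨by linarith, by exact_mod_cast h6⟩

lemma cut {ω : Set V} {s : ℕ} (hs : ∀ x : Bool × Fin 3, ((s, x.1), x.2) ∉ ω) {v u : V}
    (q : G.Walk v u) (hq : ∀ x ∈ q.support, x ∈ ω) (h : ∃ t, par^[t] v.1.1 = s) :
    ∃ t, par^[t] u.1.1 = s := by
  induction q with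
  | nil => exact h
  | @cons a b c hab q ih =>
    refine ih (fun x hx => hq x (by simp [hx])) ?_
    obtain ⟨t, h⟩ := h
    rcases adj_nd hab with h1 | h1 | h1
    · exact ⟨t, h1 ▸ h⟩
    · rcases t with _ | t
      · exact absurd (hq a (by simp)) (by subst h; exact hs (a.1.2, a.2))
      · exact ⟨t, h1 ▸ h⟩
    · exact ⟨t + 1, by rw [iterate_succ_apply, ← h1, h]⟩

lemma clus_fin {ω : Set V} {v : V} {t : ℕ}
    (hs : ∀ x : Bool × Fin 3, ((par^[t] v.1.1, x.1), x.2) ∉ ω) :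
    {u | ∃ q : G.Walk v u, ∀ x ∈ q.support, x ∈ ω}.Finite := by
  refine (((desc_fin par ht ht_par (fun a => ?_) (par^[t] v.1.1)).prod Set.finite_univ).prod
    Set.finite_univ).subset fun u ⟨q, hq⟩ => ⟨⟨cut hs q hq ⟨t, rfl⟩, trivial⟩, trivial⟩
  obtain ⟨s, -, h⟩ := fib a
  exact s.finite_toSet.subset h

end Pool.Agent.H43.Tri
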