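import Mathlib

set_option autoImplicit false

namespace Pool.Agent.H43.Tri

open Function

def par (n : ℕ) : ℕ := if h : n % 8 = 1 then 8 * par (n / 8) else 8 * (n / 8) + 1
decreasing_by omega

def ty (n : ℕ) : Fin 7 := if h : n % 8 = 1 then ty (n / 8) else ⟨n % 8 - 1, by omega⟩
decreasing_by omega

def ht (n : ℕ) : ℕ := if h : n = 0 then 0 else 2 * ht (n / 8) + if n % 8 = 1 then 1 else 0
decreasing_by omega

lemma par_eq (n : ℕ) : par n = if n % 8 = 1 then 8 * par (n / 8) else 8 * (n / 8) + 1 := by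
  rw [par]; simp

lemma ty_eq (n : ℕ) : (ty n : ℕ) = if n % 8 = 1 then (ty (n / 8) : ℕ) else n % 8 - 1 := by
  rw [ty]; split_ifs <;> rfl

lemma ht_eq (n : ℕ) : ht n = 2 * ht (n / 8) + if n % 8 = 1 then 1 else 0 := by
  by_cases h : n = 0
  · subst h; rw [ht]; simp
  · rw [ht]; simp [h]

lemma ht_par (n : ℕ) : ht (par n) = ht n + 1 := by
  induction n using Nat.strong_induction_on with
  | _ n ih =>
    rw [ht_eq, ht_eq n, par_eq n]
    split_ifs with h h1 h2
    · omega
    · rw [Nat.mul_div_cancel_left _ (by norm_num), ih _ (by omega)]; ring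
    · rw [show (8 * (n / 8) + 1) / 8 = n / 8 by omega]
    · omega

lemma par_inj (n : ℕ) : ∀ m, par n = par m → ty n = ty m → n = m := by
  induction n using Nat.strong_induction_on with
  | _ n ih =>
    intro m h1 h2
    have h3 := congrArg Fin.val h2
    rw [par_eq n, par_eq m] at h1
    rw [ty_eq n, ty_eq m] at h3
    split_ifs at h1 h3 with h h'
    · have := ih (n / 8) (by omega) (m / 8) (by omega) (Fin.ext h3); omega
    all_goals omega

inductive Bin : ℕ → Prop
  | zero : Bin 0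
  | ev {n : ℕ} : Bin n → Bin (8 * n)
  | od {n : ℕ} : Bin n → Bin (8 * n + 1)

lemma par_ev (n : ℕ) : par (8 * n) = 8 * n + 1 := by
  rw [par_eq, if_neg (by omega)]; omega

lemma par_od (n : ℕ) : par (8 * n + 1) = 8 * par n := by
  rw [par_eq, if_pos (by omega), show (8 * n + 1) / 8 = n by omega]

lemma Bin.spec {n : ℕ} (h : Bin n) : Bin (par n) ∧ ty n = 0 := by
  induction h with
  | zero => exact ⟨(par_ev 0).symm ▸ Bin.od .zero, Fin.ext (by rw [ty_eq]; simp)⟩
  | ev h _ => exact ⟨(par_ev _).symm ▸ h.od, Fin.ext (by rw [ty_eq]; simp)⟩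
  | @od n h ih =>
    refine ⟨(par_od _).symm ▸ ih.1.ev, Fin.ext ?_⟩
    rw [ty_eq, if_pos (by omega), show (8 * n + 1) / 8 = n by omega, ih.2]

def tp (N : ℕ) : ℕ → ℕ
  | 0 => N
  | j + 1 => 8 * tp N j + 1

lemma to_top (j : ℕ) : ∀ n, ∃ t, t < 2 ^ j ∧ par^[t] n = tp (n / 8 ^ j) j := by
  induction j with
  | zero => exact fun n => ⟨0, by simp, by simp [tp]⟩
  | succ j ih =>
    intro n
    obtain ⟨t, h1, h2⟩ := ih (n / 8)
    have h3 : ∀ t m, par^[2 * t] (8 * m + 1) = 8 * par^[t] m + 1 := fun t => by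
      induction t with
      | zero => simp
      | succ t ih =>
        intro m
        rw [show 2 * (t + 1) = 2 * t + 1 + 1 by ring, iterate_succ_apply, iterate_succ_apply, par_od,
          par_ev, ih, iterate_succ_apply]
    rw [Nat.div_div_eq_div_mul, ← pow_succ'] at h2
    by_cases h : n % 8 = 1
    · refine ⟨2 * t, by omega, ?_⟩
      rw [tp, ← h2, ← h3]; congr 1; omega
    · refine ⟨2 * t + 1, by omega, ?_⟩
      rw [tp, ← h2, ← h3, iterate_succ_apply, par_eq n, if_neg h]

/-- sharing an endpoint -/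
def L (n m : ℕ) : Prop := n = m ∨ par n = m ∨ n = par m ∨ par n = par m

def o (n : ℕ) : ℕ := if n % 8 = 1 then par (n / 8) else n / 8

lemma L_one {n m : ℕ} (h : L n m) : n / 8 = m / 8 ∨ o n = o m ∧ n % 8 ≤ 1 ∧ m % 8 ≤ 1 := by
  unfold L at h
  unfold o
  rw [par_eq n, par_eq m] at h
  split_ifs at h ⊢ <;> omega

lemma L_o {n m : ℕ} (h : o n = o m) : L (n / 8) (m / 8) := by
  unfold o at h
  unfold L
  split_ifs at h <;> tauto

lemma L_two {n m r : ℕ} (h : L n m) (h' : L m r) : L (n / 8) (r / 8) := by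
  rcases L_one h with h1 | h1 <;> rcases L_one h' with h2 | h2
  · exact Or.inl (h1.trans h2)
  · exact h1 ▸ L_o h2.1
  · exact h2 ▸ L_o h1.1
  · exact L_o (h1.1.trans h2.1)

lemma L_pow (j : ℕ) : ∀ f : ℕ → ℕ, (∀ i, L (f i) (f (i + 1))) →
    L (f 0 / 8 ^ j) (f (2 ^ j) / 8 ^ j) := by
  induction j with
  | zero => exact fun f h => by simpa using h 0
  | succ j ih =>
    intro f h
    have := ih (fun i => f (2 * i) / 8) fun i => L_two (h (2 * i)) (h (2 * i + 1))
    simpa only [Nat.div_div_eq_div_mul, ← pow_succ'] using this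

lemma fib (x : ℕ) : ∃ s : Finset ℕ, s.card ≤ 7 ∧ ∀ m, par m = x → m ∈ s := by
  have h : Set.InjOn ty {m | par m = x} := fun a ha b hb h => par_inj a b (ha.trans hb.symm) h
  have h1 : {m | par m = x}.Finite := Set.Finite.of_finite_image (Set.toFinite _) h
  refine ⟨h1.toFinset, ?_, by simp⟩
  simpa using Finset.card_le_card_of_injOn (t := Finset.univ) ty (by simp) (by simpa using h)

lemma L_card (x : ℕ) : ∃ s : Finset ℕ, s.card ≤ 16 ∧ ∀ m, L x m → m ∈ s := by
  obtain ⟨s, h1, h2⟩ := fib x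
  obtain ⟨t, h3, h4⟩ := fib (par x)
  refine ⟨insert x (insert (par x) (s ∪ t)), ?_, fun m h => ?_⟩
  · have := Finset.card_insert_le x (insert (par x) (s ∪ t))
    have := Finset.card_insert_le (par x) (s ∪ t)
    have := Finset.card_union_le s t
    omega
  · rcases h with h | h | h | h
    · simp [h]
    · simp [h]
    · simp [h2 m h.symm]
    · simp [h4 m h.symm]

lemma desc_fin {α : Type} (P : α → α) (H : α → ℕ) (hH : ∀ a, H (P a) = H a + 1)
    (hf : ∀ a, {b | P b = a}.Finite) (a : α) : {b | ∃ t, P^[t] b = a}.Finite := by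
  induction hn : H a using Nat.strong_induction_on generalizing a with
  | _ n ih =>
    refine (((hf a).biUnion (t := fun c => {b | ∃ t, P^[t] b = c}) fun c hc =>
      ih _ (by rw [← hn, ← show P c = a from hc, hH]; omega) c rfl).insert a).subset ?_
    rintro b ⟨_ | t, h⟩
    · exact Or.inl h
    · exact Or.inr (Set.mem_biUnion (x := P^[t] b) (by simpa [iterate_succ_apply'] using h) ⟨t, rfl⟩)

end Pool.Agent.H43.Tri
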