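import Pool.Agent.H43.TsoDefs
import Pool.Agent.H43.Flw3

open Set Metric Real Filter Topology

namespace Pool.Agent.H43.Tso

open Flw (sep span IsMetric)

lemma exists_D {M : Type} [TopologicalSpace M] [CompactSpace M]
    [TopologicalSpace.MetrizableSpace M] {R : Set (M × M)} (hR : IsClosed R) (hn : R.Nonempty)
    (hd : ∀ p ∈ R, p.1 ≠ p.2) : ∃ D : M → M → ℝ, IsMetric D ∧
      (Continuous fun p : M × M => D p.1 p.2) ∧ (∀ x y, D x y ≤ 1) ∧
      ∀ x y, 1 ≤ D x y ↔ (x, y) ∈ R ∨ (y, x) ∈ R := by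
  letI := TopologicalSpace.metrizableSpaceMetric M
  obtain ⟨K, K1, hK⟩ : ∃ K : ℝ, 1 ≤ K ∧ ∀ p ∈ R, 1 ≤ K * dist p.1 p.2 := by
    obtain ⟨p, hp, h⟩ := hR.isCompact.exists_isMinOn hn continuous_dist.continuousOn
    have : 0 < dist p.1 p.2 := dist_pos.2 (hd p hp)
    refine ⟨max 1 (dist p.1 p.2)⁻¹, le_max_left _ _, fun q hq => ?_⟩
    exact (inv_mul_cancel₀ this.ne').ge.trans
      (mul_le_mul (le_max_right _ _) (h hq) this.le (by positivity))
  let ρ : M → M → ℝ := fun x y => min (1 / 2) (min (infDist (x, y) R) (infDist (y, x) R))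
  have ρ0 : ∀ x y, 0 ≤ ρ x y := fun x y => le_min (by norm_num) (le_min infDist_nonneg infDist_nonneg)
  have ρ1 : ∀ x y, ρ x y ≤ 1 / 2 := fun x y => min_le_left _ _
  have ρs : ∀ x y, ρ x y = ρ y x := fun x y => by simp only [ρ, min_comm (infDist (x, y) R)]
  have ρl : ∀ x y z, ρ y z ≤ ρ x z + K * dist x y := fun x y z => by
    have a := infDist_le_infDist_add_dist (x := (y, z)) (y := (x, z)) (s := R)
    have b := infDist_le_infDist_add_dist (x := (z, y)) (y := (z, x)) (s := R)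
    simp only [dist_prod_same_right, dist_prod_same_left, dist_comm y] at a b
    have : ρ y z ≤ ρ x z + dist x y := by
      simp only [ρ, ← min_add_add_right]
      exact min_le_min (by simp) (min_le_min a b)
    nlinarith [dist_nonneg (x := x) (y := y)]
  let D : M → M → ℝ := fun x y => min (K * dist x y) (1 - ρ x y)
  have ci := continuous_infDist_pt R
  refine ⟨D, ⟨fun x y => ⟨fun h => ?_, ?_⟩, fun x y => by simp only [D, ρs x, dist_comm],
    fun x y z => ?_, fun s => ?_⟩, (continuous_const.mul continuous_dist).min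
      (continuous_const.sub (continuous_const.min (ci.min (ci.comp continuous_swap)))),
    fun x y => (min_le_right _ _).trans (by linarith [ρ0 x y]), fun x y => ?_⟩
  · rcases min_eq_iff.1 h with h | h
    · simpa [show K ≠ 0 by linarith] using h.1
    · linarith [h.1, ρ1 x y]
  · rintro rfl; simp only [D, dist_self, mul_zero]; exact min_eq_left (by linarith [ρ1 x x])
  · have a := min_le_left (K * dist x z) (1 - ρ x z)
    have b := min_le_right (K * dist x z) (1 - ρ x z)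
    have c := mul_le_mul_of_nonneg_left (dist_triangle x y z) (by linarith : 0 ≤ K)
    have d := ρl z y x
    rw [dist_comm z y] at d
    have e : 0 ≤ K * dist x y := by positivity
    have f : 0 ≤ K * dist y z := by positivity
    simp only [D]
    rcases min_cases (K * dist x y) (1 - ρ x y) with h | h <;>
      rcases min_cases (K * dist y z) (1 - ρ y z) with k | k <;>
      linarith [h.1, k.1, ρl x y z, ρs x z, ρs x y, ρ1 x y, ρ1 y z, ρ0 x z]
  · rw [Metric.isOpen_iff]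
    refine forall₂_congr fun x _ => ⟨fun ⟨ε, e, h⟩ => ⟨min ε (1 / 2), by positivity,
      fun y hy => h ?_⟩, fun ⟨ε, e, h⟩ => ⟨ε / K, by positivity, fun y hy => h y ?_⟩⟩
    · rw [mem_ball']
      rcases min_lt_iff.1 hy with h | h <;> rw [lt_min_iff] at h <;>
        nlinarith [h.1, h.2, ρ1 x y, dist_nonneg (x := x) (y := y)]
    · exact (min_le_left _ _).trans_lt ((lt_div_iff₀' (by positivity)).1 (mem_ball'.1 hy))
  · rw [hR.mem_iff_infDist_zero hn, hR.mem_iff_infDist_zero hn]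
    refine ⟨fun h => ?_, fun h => le_min ?_ ?_⟩
    · have : ρ x y ≤ 0 := by linarith [(le_min_iff.1 h).2]
      simp only [ρ, min_le_iff] at this
      exact (this.resolve_left (by norm_num)).imp (le_antisymm · infDist_nonneg)
        (le_antisymm · infDist_nonneg)
    · simp only [← hR.mem_iff_infDist_zero hn] at h
      exact h.elim (hK _) fun h => dist_comm x y ▸ hK _ h
    · have : ρ x y ≤ 0 := (min_le_right _ _).trans (min_le_iff.2 (h.imp Eq.le Eq.le))
      linarith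

lemma osc {g : ℕ → ℕ} {a b : ℝ} (h : a < b) (a0 : 0 ≤ a)
    (h1 : ∀ n : ℕ, ∃ S : ℕ, n ≤ S ∧ (g S : ℝ) ≤ exp (a * S))
    (h2 : ∀ n : ℕ, ∃ S : ℕ, n ≤ S ∧ exp (b * S) ≤ g S) :
    liminf (rate g) atTop < limsup (rate g) atTop := by
  refine lt_of_le_of_lt (liminf_le_of_frequently_le' (frequently_atTop.2 fun n => ?_))
    ((EReal.coe_lt_coe_iff.2 h).trans_le (le_limsup_of_frequently_le' (frequently_atTop.2 fun n => ?_)))
  · obtain ⟨S, i, j⟩ := h1 (n + 1)
    have : (0 : ℝ) < S := by exact_mod_cast (by omega)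
    refine ⟨S, by omega, EReal.coe_le_coe_iff.2 ((div_le_iff₀ this).2 ?_)⟩
    rcases Nat.eq_zero_or_pos (g S) with e | e
    · simp [e]; positivity
    · exact (log_le_iff_le_exp (by exact_mod_cast e)).2 j
  · obtain ⟨S, i, j⟩ := h2 (n + 1)
    have : (0 : ℝ) < S := by exact_mod_cast (by omega)
    exact ⟨S, by omega, EReal.coe_le_coe_iff.2 ((le_div_iff₀ this).2
      ((le_log_iff_exp_le ((exp_pos _).trans_le j)).2 j))⟩

lemma lim_le {g : ℕ → ℕ} {N c : ℕ} (hN : 1 ≤ N) (h : ∀ T, 1 ≤ T → g T ≤ N ^ (T + c)) :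
    limsup (rate g) atTop ≤ (log N : ℝ) := by
  have t : Tendsto (fun T : ℕ => ((log N + c * log N / T : ℝ) : EReal)) atTop (𝓝 (log N : ℝ)) :=
    EReal.tendsto_coe.2 (by
      simpa using (tendsto_const_div_atTop_nhds_zero_nat (c * log N)).const_add (log N))
  rw [← t.limsup_eq]
  refine limsup_le_limsup ((eventually_ge_atTop 1).mono fun T hT => EReal.coe_le_coe_iff.2 ?_)
  have T0 : (0 : ℝ) < T := by exact_mod_cast hT
  have l : 0 ≤ log N := log_natCast_nonneg _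
  rw [div_le_iff₀ T0, add_mul, div_mul_cancel₀ _ T0.ne']
  rcases Nat.eq_zero_or_pos (g T) with e | e
  · simp [e]; positivity
  · have := log_le_log (by exact_mod_cast e) (show (g T : ℝ) ≤ N ^ (T + c) by exact_mod_cast h T hT)
    rw [log_pow] at this; push_cast at this; linarith

lemma le_lim {g : ℕ → ℕ} {N : ℕ} (hN : 1 ≤ N) (h : ∀ T, 1 ≤ T → N ^ T ≤ g T) :
    (log N : ℝ) ≤ liminf (rate g) atTop := by
  refine le_liminf_of_le (h := (eventually_ge_atTop 1).mono fun T hT => EReal.coe_le_coe_iff.2 ?_)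
  have T0 : (0 : ℝ) < T := by exact_mod_cast hT
  have := log_le_log (by positivity) (show (N : ℝ) ^ T ≤ g T by exact_mod_cast h T hT)
  rw [log_pow] at this
  rw [le_div_iff₀ T0]; linarith

variable {A : Type}

def sh (n : ℤ) (x : ℤ → A) : ℤ → A := fun i => x (i + n)

def Adj (R : Set ((ℤ → A) × (ℤ → A))) (T : ℕ) (x y : ℤ → A) : Prop :=
  ∃ t : ℕ, t < T ∧ ((sh t x, sh t y) ∈ R ∨ (sh t y, sh t x) ∈ R)

variable [TopologicalSpace A]

def σ : (ℤ → A) ≃ₜ (ℤ → A) where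
  toFun := sh 1
  invFun := sh (-1)
  left_inv x := by funext i; simp [sh]
  right_inv x := by funext i; simp [sh]
  continuous_toFun := by unfold sh; fun_prop
  continuous_invFun := by unfold sh; fun_prop

lemma iter (n : ℕ) (x : ℤ → A) : σ^[n] x = sh n x := by
  induction n with
  | zero => funext i; simp [sh]
  | succ n ih =>
    rw [Function.iterate_succ_apply', ih]; funext i
    change x _ = x _
    congr 1; push_cast; ring

variable [DiscreteTopology A] [Fintype A]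

lemma tra [Nonempty A] : ∃ x : ℤ → A, Dense (range fun n : ℕ => σ^[n] x) := by
  let w := TopologicalSpace.denseSeq (ℤ → A)
  let x : ℤ → A := fun n => w (Nat.sqrt n.toNat).unpair.1 (n - (Nat.sqrt n.toNat * Nat.sqrt n.toNat +
    Nat.sqrt n.toNat : ℕ))
  refine ⟨x, ((TopologicalSpace.denseRange_denseSeq _).mono ?_).of_closure⟩
  rintro _ ⟨i, rfl⟩
  refine mem_closure_of_tendsto (f := fun l => σ^[Nat.pair i l * Nat.pair i l + Nat.pair i l] x)
    (b := atTop) (tendsto_pi_nhds.2 fun n => tendsto_const_nhds.congr' ?_)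
    (Eventually.of_forall fun l => ⟨_, rfl⟩)
  filter_upwards [eventually_ge_atTop n.natAbs] with l hl
  have := Nat.right_le_pair i l
  have e : i = (Nat.pair i l).unpair.1 := by simp
  generalize Nat.pair i l = j at *
  have : Nat.sqrt (n + (j * j + j : ℕ)).toNat = j := by
    symm; rw [Nat.eq_sqrt, show (j + 1) * (j + 1) = j * j + 2 * j + 1 by ring]
    generalize j * j = q; omega
  simp only [iter, sh, x, this, ← e, add_sub_cancel_right, w]

omit [Fintype A] in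
lemma appr {U : Set ((ℤ → A) × (ℤ → A))} {z} (h : z ∈ closure U) (S : ℕ) :
    ∃ w ∈ U, ∀ i, |i| ≤ (S : ℤ) → w.1 i = z.1 i ∧ w.2 i = z.2 i := by
  have : IsOpen (⋂ i ∈ Icc (-S : ℤ) S, {w : (ℤ → A) × (ℤ → A) | (w.1 i, w.2 i) = (z.1 i, z.2 i)}) :=
    (finite_Icc _ _).isOpen_biInter fun i _ => (isOpen_discrete {(z.1 i, z.2 i)}).preimage (by fun_prop)
  obtain ⟨w, a, b⟩ := mem_closure_iff.1 h _ this (by simp)
  exact ⟨w, b, fun i hi => by simpa using mem_iInter₂.1 a i (abs_le.1 hi)⟩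

lemma unif {D : (ℤ → A) → (ℤ → A) → ℝ} (hc : Continuous fun p : _ × _ => D p.1 p.2)
    (h0 : ∀ x, D x x = 0) {ε : ℝ} (e : 0 < ε) :
    ∃ c : ℕ, ∀ x y, (∀ i, |i| ≤ (c : ℤ) → x i = y i) → D x y < ε := by
  by_contra n
  push Not at n
  have cl : ∀ c : ℕ, IsClosed {p : (ℤ → A) × (ℤ → A) | (∀ i, |i| ≤ (c : ℤ) → p.1 i = p.2 i) ∧
      ε ≤ D p.1 p.2} := fun c => .and (by
    simp only [ofPred_forall]
    exact isClosed_iInter fun i => isClosed_iInter fun _ => isClosed_eq (by fun_prop) (by fun_prop))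
      (isClosed_le continuous_const hc)
  obtain ⟨p, hp⟩ := IsCompact.nonempty_iInter_of_sequence_nonempty_isCompact_isClosed
    (fun c : ℕ => {p : (ℤ → A) × (ℤ → A) | (∀ i, |i| ≤ (c : ℤ) → p.1 i = p.2 i) ∧ ε ≤ D p.1 p.2})
    (fun c p h => ⟨fun i hi => h.1 i (by omega), h.2⟩) (fun c => by
      obtain ⟨x, y, h⟩ := n c; exact ⟨(x, y), h⟩) (cl 0).isCompact cl
  have : p.1 = p.2 := funext fun i => (mem_iInter.1 hp i.natAbs).1 i (by simp)
  have a := (mem_iInter.1 hp 0).2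
  rw [this, h0] at a; linarith

omit [TopologicalSpace A] [DiscreteTopology A] [Fintype A] in
lemma sh_sh (m n : ℤ) (x : ℤ → A) : sh m (sh n x) = sh (m + n) x := by
  funext i; simp [sh, add_assoc]

omit [TopologicalSpace A] [DiscreteTopology A] [Fintype A] in
lemma cardw (Q : Finset (ℤ → A)) {B : Type} [Fintype B] (g : A → B) (a : ℤ) (N : ℕ)
    (h : ∀ x ∈ Q, ∀ y ∈ Q, x ≠ y → ∃ i, a ≤ i ∧ i < a + N ∧ g (x i) ≠ g (y i)) :
    Q.card ≤ Fintype.card B ^ N := by
  classical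
  have := Finset.card_le_card_of_injOn (s := Q) (t := Finset.univ)
    (fun x (i : Fin N) => g (x (a + i))) (by simp) fun x hx y hy e => by_contra fun n => by
      obtain ⟨i, i0, i1, j⟩ := h x hx y hy n
      have := congrFun e ⟨(i - a).toNat, by omega⟩
      simp only [show a + ((i - a).toNat : ℤ) = i by omega] at this
      exact j this
  simpa using this

theorem sys [Nonempty A] {R : Set ((ℤ → A) × (ℤ → A))} (hR : IsClosed R) (hn : R.Nonempty)
    (hd : ∀ p ∈ R, p.1 0 ≠ p.2 0) : ∃ D, Good (σ (A := A)) D ∧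
      (∀ T, 1 ≤ T → ∀ x y, DT σ D T x y ≤ 1 ∧ (1 ≤ DT σ D T x y ↔ Adj R T x y)) ∧
      ∀ ε, 0 < ε → (∀ T, 1 ≤ T → ∀ Q : Finset (ℤ → A),
        (∀ x ∈ Q, ∀ y ∈ Q, x ≠ y → ε ≤ DT σ D T x y) → Q.card ≤ sep (DT σ D T) ε) ∧
        sUp σ D ε ≤ (log (Fintype.card A) : ℝ) := by
  obtain ⟨D, hD, hc, h1, h2⟩ := exists_D hR hn fun p hp e => hd p hp (e ▸ rfl)
  have fin : ∀ (T : ℕ) (x y : ℤ → A), ((fun t : ℕ => D (σ^[t] x) (σ^[t] y)) '' Iio T).Finite :=
    fun T x y => (finite_Iio T).image _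
  have mem : ∀ T, 1 ≤ T → ∀ x y : ℤ → A, ∃ t : ℕ, t < T ∧ D (sh t x) (sh t y) = DT σ D T x y :=
    fun T hT x y => by
      simpa only [iter, DT, mem_image, mem_Iio] using (Nonempty.image _ ⟨0, hT⟩).csSup_mem (fin T x y)
  have bd : ∀ ε, 0 < ε → ∃ c, ∀ T, 1 ≤ T → ∀ n ∈ {n | ∃ s : Finset (ℤ → A), s.card = n ∧
      ∀ x ∈ s, ∀ y ∈ s, x ≠ y → ε ≤ DT σ D T x y}, n ≤ Fintype.card A ^ (T + c) := fun ε e => by
    obtain ⟨c, hc⟩ := unif hc (fun x => (hD.zero x x).2 rfl) e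
    refine ⟨2 * c, fun T hT _ ⟨Q, a, b⟩ => a ▸ cardw Q id (-c) _ fun x hx y hy n => ?_⟩
    obtain ⟨t, t1, t2⟩ := mem T hT x y
    by_contra q
    push Not at q
    exact (hc (sh t x) (sh t y) fun i hi => q _ (by rw [abs_le] at hi; omega)
      (by rw [abs_le] at hi; omega)).not_ge (t2 ▸ b x hx y hy n)
  have k : ∀ ε, 0 < ε → (∀ T, 1 ≤ T → ∀ Q : Finset (ℤ → A),
      (∀ x ∈ Q, ∀ y ∈ Q, x ≠ y → ε ≤ DT σ D T x y) → Q.card ≤ sep (DT σ D T) ε) ∧
      sUp σ D ε ≤ (log (Fintype.card A) : ℝ) := fun ε e => by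
    obtain ⟨c, hc⟩ := bd ε e
    exact ⟨fun T hT Q h => le_csSup ⟨_, hc T hT⟩ ⟨Q, rfl, h⟩,
      lim_le Fintype.card_pos fun T hT => csSup_le' (hc T hT)⟩
  have one : ∀ ε, 0 < ε → ∀ T, 1 ≤ T → 1 ≤ sep (DT σ D T) ε := fun ε e T hT => by
    simpa using (k ε e).1 T hT {Classical.arbitrary _} (by simp)
  have an : AntitoneOn (sUp σ D) (Ioi 0) := fun ε e δ d l =>
    limsup_le_limsup ((eventually_ge_atTop 1).mono fun T hT => EReal.coe_le_coe_iff.2
      (div_le_div_of_nonneg_right (log_le_log (by exact_mod_cast one δ d T hT) (Nat.cast_le.2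
        (csSup_le' fun _ ⟨Q, a, b⟩ => a ▸ (k ε e).1 T hT Q fun x hx y hy n => l.trans (b x hx y hy n))))
        T.cast_nonneg))
  refine ⟨D, ⟨inferInstance, hD, tra, (sSup (sUp σ D '' Ioi 0)).toReal, ?_⟩, fun T hT x y => ?_, k⟩
  · rw [EReal.coe_toReal]
    · exact an.tendsto_nhdsGT (OrderTop.bddAbove _)
    · exact ((sSup_le (forall_mem_image.2 fun ε e => (k ε e).2)).trans_lt (EReal.coe_lt_top _)).ne
    · refine ((EReal.bot_lt_coe _).trans_le ((le_lim (N := 1) le_rfl fun T hT => ?_).trans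
        ((liminf_le_limsup).trans (le_sSup (mem_image_of_mem (sUp σ D) (mem_Ioi.2 one_pos)))))).ne'
      simpa using one 1 one_pos T hT
  · obtain ⟨t, t1, t2⟩ := mem T hT x y
    exact ⟨t2 ▸ h1 _ _, fun h => ⟨t, t1, (h2 _ _).1 (t2 ▸ h)⟩, fun ⟨s, s1, h⟩ => ((h2 _ _).2 h).trans
      (le_csSup (fin T x y).bddAbove ⟨s, s1, by simp only [iter]⟩)⟩

end Pool.Agent.H43.Tso
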