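import Pool.Agent.H43.Tso1

open Set Metric Real Filter Topology

namespace Pool.Agent.H43.Tso

open Flw (sep span IsMetric levels lex prec u mk)

variable {A : Type}

lemma Adj.mono {R : Set ((ℤ → A) × (ℤ → A))} {S T : ℕ} {x y} (h : Adj R S x y) (l : S ≤ T) :
    Adj R T x y := h.imp fun _ h => ⟨h.1.trans_le l, h.2⟩

lemma sh_neg (n : ℤ) (x : ℤ → A) : sh (-n) (sh n x) = x := by funext i; simp [sh]

def v (a b : A) (k : ℕ) (x : Fin k → Bool) (n : ℤ) : A :=
  if ∃ i : Fin k, n = k + i ∧ x i then b else a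

def R2 (a b : A) (k : ℕ) : Set ((ℤ → A) × (ℤ → A)) := {z | ∃ x : Fin k → Bool, ∃ t : ℕ, t < 2 * k ∧
  z.1 = sh t (v a b k x) ∧ z.1 0 ≠ z.2 0 ∧ ∀ i : ℤ, -t ≤ i → i < 0 → z.1 i = z.2 i}

variable [TopologicalSpace A] [DiscreteTopology A]

lemma split {R : ℕ → Set ((ℤ → A) × (ℤ → A))} {L : Set ℕ} {m N : ℕ} (d : ∀ k ∈ L, k ≤ m ∨ N < k)
    {E : Set ((ℤ → A) × (ℤ → A))} (hE : IsClosed E) (h : ∀ k ≤ m, R k ⊆ E) {z}
    (hz : z ∈ closure (⋃ k ∈ L, R k)) (n : z ∉ E) (S : ℕ) :
    ∃ k, N < k ∧ ∃ w ∈ R k, ∀ i, |i| ≤ (S : ℤ) → w.1 i = z.1 i ∧ w.2 i = z.2 i := by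
  have := closure_mono (show ⋃ k ∈ L, R k ⊆ E ∪ ⋃ k ∈ Ioi N, R k from iUnion₂_subset
    fun k hk z hz => (d k hk).imp (h k · hz) (mem_biUnion · hz)) hz
  rw [closure_union, hE.closure_eq] at this
  obtain ⟨w, a, b⟩ := appr (this.resolve_left n) S
  obtain ⟨k, c, d⟩ := mem_iUnion₂.1 a
  exact ⟨k, c, w, d, b⟩

theorem span_osc {a b : A} (ab : a ≠ b) : ∃ R : Set ((ℤ → A) × (ℤ → A)), IsClosed R ∧ R.Nonempty ∧
    (∀ z ∈ R, z.1 0 ≠ z.2 0 ∧ ∀ i, z.1 i = a ∨ z.1 i = b) ∧
    ∀ R' : Set ((ℤ → A) × (ℤ → A)), (∀ z ∈ R', z.1 0 ≠ z.2 0 ∧ ((z.1 0 ≠ b ∧ z.2 0 ≠ b) ∨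
      ∀ i < 0, z.1 i = z.2 i)) → ∀ D, (∀ T, 1 ≤ T → ∀ x y, 1 ≤ DT σ D T x y ↔ Adj (R' ∪ R) T x y) →
      pLo (σ (A := A)) D 1 < pUp (σ (A := A)) D 1 := by
  classical
  let E : ℕ → Finset (ℤ → A) := fun m => (Finset.range (m + 1)).biUnion fun k =>
    (Finset.univ ×ˢ Finset.range (2 * k)).image fun p => sh (p.2 : ℕ) (v a b k p.1)
  obtain ⟨L, L1, L2⟩ := levels fun m => (E m).card
  have hZ : ∀ z ∈ closure (⋃ k ∈ L, R2 a b k), z.1 0 ≠ z.2 0 ∧ ∀ i, z.1 i = a ∨ z.1 i = b :=
    fun z hz => ⟨by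
      obtain ⟨w, h, e⟩ := appr hz 0
      obtain ⟨k, -, x, t, -, -, q, -⟩ := mem_iUnion₂.1 h
      rwa [(e 0 (by simp)).1, (e 0 (by simp)).2] at q, fun i => by
      obtain ⟨w, h, e⟩ := appr hz i.natAbs
      obtain ⟨k, -, x, t, -, q, -⟩ := mem_iUnion₂.1 h
      rw [← (e i (by simp)).1, q, sh, v]
      split_ifs <;> simp⟩
  refine ⟨closure (⋃ k ∈ L, R2 a b k), isClosed_closure, ?_, hZ, fun R' hR' D hD => ?_⟩
  · obtain ⟨k, hk, l⟩ := L1 1
    exact ⟨(sh (0 : ℕ) (v a b k fun _ => false), Function.update (fun _ => a) 0 b), subset_closure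
      (mem_biUnion hk ⟨_, 0, by omega, rfl, by simpa [sh, v] using ab, fun i _ _ => by omega⟩)⟩
  have ne : ∀ z ∈ R' ∪ closure (⋃ k ∈ L, R2 a b k), z.1 0 ≠ z.2 0 :=
    fun z hz => hz.elim (fun h => (hR' z h).1) fun h => (hZ z h).1
  generalize hR : R' ∪ closure (⋃ k ∈ L, R2 a b k) = R at hD ne
  replace hD : ∀ T, 1 ≤ T → ∀ x y, ¬ Adj R T x y ↔ DT σ D T x y < 1 := fun T h x y => by
    rw [← hD T h, not_le]
  have up : ∀ n : ℕ, ∃ S : ℕ, n + 1 ≤ S ∧ ∃ Q : Finset (ℤ → A), (∀ x, ∃ y ∈ Q, ¬ Adj R S y x) ∧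
      (Q.card : ℝ) ≤ exp (1 / 4 * S) := fun n => by
    obtain ⟨m, S, b0, b1, d⟩ := L2 n
    refine ⟨S, by omega, insert (fun _ => a) (insert (fun _ => b)
      (insert (Function.update (fun _ => b) (-1) a)
        ((Finset.range S ×ˢ E m).image fun p => sh (-p.1) p.2))), fun w => ?_, le_trans ?_ b1⟩
    · have same : ∀ y : ℤ → A, (∀ n : ℕ, n < S → y n = w n) → ¬ Adj R S y w :=
        fun y h ⟨t, t1, q⟩ => q.elim (fun q => ne _ q (by simpa [sh] using h t t1))
          fun q => ne _ q (by simpa [sh] using (h t t1).symm)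
      by_cases c1 : ∃ n : ℕ, n < S ∧ sh n w ∈ E m
      · obtain ⟨n, n1, h⟩ := c1
        refine ⟨w, ?_, same _ fun _ _ => rfl⟩
        simp only [Finset.mem_insert, Finset.mem_image]
        exact Or.inr (Or.inr (Or.inr ⟨(n, sh n w), by simp [h, n1], sh_neg _ _⟩))
      by_cases c2 : ∀ n : ℕ, n < S → a = w n
      · exact ⟨fun _ => a, by simp, same _ c2⟩
      have big : ∀ (x y : ℤ → A) (n : ℕ), n < S → (sh n x, sh n y) ∈ closure (⋃ k ∈ L, R2 a b k) →
          x (-1) ≠ y (-1) → sh n x ∈ E m ∨ ∀ j : ℕ, j < S → a = x j := fun x y n n1 h q => by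
        refine or_iff_not_imp_left.2 fun e j hj => ?_
        obtain ⟨k, k1, p, ⟨f, t, -, p1, -, p2⟩, p3⟩ := split (R := R2 a b) d (E := {z | z.1 ∈ E m})
          ((E m).finite_toSet.isClosed.preimage continuous_fst) (fun k hk z hz => by
            obtain ⟨f, t, t1, q, -⟩ := hz
            simp only [E, mem_ofPred_eq, Finset.mem_biUnion, Finset.mem_image]
            exact ⟨k, by simp; omega, (f, t), by simpa using t1, q.symm⟩) h e S
        have : t ≤ n := by_contra fun l => q (by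
          have i := p3 (-1 - n) (by rw [abs_le]; omega)
          have j := p2 (-1 - n) (by omega) (by omega)
          simpa [i, sh] using j)
        have i := (p3 (j - n) (by rw [abs_le]; omega)).1
        simp only [p1, sh, sub_add_cancel] at i
        rw [← i, v, if_neg fun ⟨l, h, _⟩ => by omega]
      obtain ⟨y, hy, y1, y2⟩ : ∃ y ∈ insert (fun _ => a) (insert (fun _ => b)
          (insert (Function.update (fun _ => b) (-1) a) ((Finset.range S ×ˢ E m).image
            fun p => sh (-p.1) p.2))), y (-1) ≠ w (-1) ∧ ∀ i : ℤ, 0 ≤ i → y i = b := by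
        by_cases q : w (-1) = a
        · exact ⟨fun _ => b, by simp, q ▸ ab.symm, fun _ _ => rfl⟩
        · exact ⟨Function.update (fun _ => b) (-1) a, by simp, by simpa using Ne.symm q,
            fun i hi => Function.update_of_ne (by omega) _ _⟩
      refine ⟨y, hy, fun ⟨n, n1, q⟩ => ?_⟩
      subst hR
      rcases q with (q | q) | q | q
      · rcases (hR' _ q).2 with q | q
        · exact q.1 (y2 _ (by simp))
        · exact y1 (by simpa [sh] using q (-1 - n) (by omega))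
      · rcases big _ _ n n1 q y1 with q | q
        · simp only [E, Finset.mem_biUnion, Finset.mem_image] at q
          obtain ⟨k, -, ⟨f, t⟩, -, e⟩ := q
          have := congrFun e (2 * k)
          simp only [sh] at this
          rw [y2 _ (by omega), v, if_neg fun ⟨l, h, _⟩ => by omega] at this
          exact ab this
        · exact ab ((q 0 (by omega)).trans (y2 _ (by simp)))
      · rcases (hR' _ q).2 with q | q
        · exact q.2 (y2 _ (by simp))
        · exact y1 (by simpa [sh] using (q (-1 - n) (by omega)).symm)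
      · exact (big _ _ n n1 q y1.symm).elim (fun q => c1 ⟨n, n1, q⟩) c2
    · have : ∀ s : Finset (ℤ → A), s.card ≤ S * (E m).card → ∀ x y z,
          (insert x (insert y (insert z s))).card ≤ 2 * (2 + (S + 1) * (E m).card) := fun s h x y z => by
        have := Finset.card_insert_le x (insert y (insert z s))
        have := Finset.card_insert_le y (insert z s)
        have := Finset.card_insert_le z s
        rw [add_mul]; omega
      exact_mod_cast this _ (Finset.card_image_le.trans (by simp)) _ _ _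
  refine osc (a := 1 / 4) (b := log 2 / 2) (by linarith [log_two_gt_d9]) (by norm_num)
    (fun n => ?_) fun n => ?_
  · obtain ⟨S, i, Q, j, k⟩ := up n
    exact ⟨S, by omega, le_trans (Nat.cast_le.2 <| Nat.sInf_le ⟨Q, rfl, fun x => (j x).imp
      fun y h => ⟨h.1, (hD _ (by omega) _ _).1 h.2⟩⟩) k⟩
  obtain ⟨k, hk, l⟩ := L1 (n + 1)
  obtain ⟨S', i', Q, j', -⟩ := up (2 * k)
  obtain ⟨Q, h1, h2⟩ := Nat.sInf_mem (s := {n | ∃ s : Finset (ℤ → A), s.card = n ∧
    ∀ x, ∃ y ∈ s, DT σ D (2 * k) y x < 1}) ⟨_, Q, rfl, fun x => (j' x).imp fun y h =>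
      ⟨h.1, (hD _ (by omega) _ _).1 fun k => h.2 (k.mono (by omega))⟩⟩
  refine ⟨2 * k, by omega, le_trans ?_ (Nat.cast_le.2 h1.le)⟩
  have lo : ∀ x y, DT σ D (2 * k) y (v a b k x) < 1 →
      ∀ t : ℕ, t < 2 * k → v a b k x t = y t := fun x y h t => by
    induction t using Nat.strong_induction_on with | _ t ih => ?_
    intro ht
    refine by_contra fun q => (hD _ (by omega) _ _).2 h ⟨t, ht, Or.inr (hR ▸ Or.inr
      (subset_closure (mem_biUnion hk ⟨x, t, ht, rfl, by simpa [sh] using q, fun i i0 i1 => ?_⟩)))⟩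
    obtain ⟨j, hj⟩ := Int.eq_ofNat_of_zero_le (show 0 ≤ i + t by omega)
    simp only [sh, hj]
    exact ih j (by omega) (by omega)
  choose g g1 g2 using h2
  have := Finset.card_le_card_of_injOn (s := Finset.univ) (t := Q)
    (fun x : Fin k → Bool => g (v a b k x)) (fun x _ => g1 _) fun x _ y _ e => by
      funext i
      have c := lo x _ (g2 _) (k + i) (by omega)
      rw [show g (v a b k x) = g (v a b k y) from e, ← lo y _ (g2 _) (k + i) (by omega)] at c
      simp only [v, Nat.cast_add, add_right_inj, Nat.cast_inj, Fin.val_inj, exists_eq_left'] at c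
      have := ab.symm
      split_ifs at c <;> simp_all
  rw [show log 2 / 2 * (2 * k : ℕ) = k * log 2 by push_cast; ring, exp_nat_mul, exp_log (by norm_num)]
  exact_mod_cast (by simpa using this)

theorem q2 : ∃ D, Good (σ (A := Bool)) D ∧ pLo (σ (A := Bool)) D 1 < pUp (σ (A := Bool)) D 1 ∧
    ∀ δ > 0, sLo (σ (A := Bool)) D δ = sUp (σ (A := Bool)) D δ := by
  classical
  obtain ⟨R, c, n, h, H⟩ := span_osc (A := Bool) Bool.false_ne_true
  let P : Set ((ℤ → Bool) × (ℤ → Bool)) := {z | z.1 0 = !z.2 0 ∧ ∀ i < 0, z.1 i = z.2 i}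
  have p : ∀ z ∈ P, z.1 0 ≠ z.2 0 := fun z h => by simp [h.1]
  obtain ⟨D, g, d1, d2⟩ := sys (R := P ∪ R) (.union (.and (isClosed_eq (by fun_prop) (by fun_prop)) (by
    simp only [ofPred_forall]
    exact isClosed_iInter fun i => isClosed_iInter fun _ => isClosed_eq (by fun_prop) (by fun_prop))) c)
    n.inr fun z hz => hz.elim (p z) fun q => (h z q).1
  refine ⟨D, g, H P (fun z h => ⟨p z h, Or.inr h.2⟩) D fun T t x y => (d1 T t x y).2,
    fun δ e => le_antisymm liminf_le_limsup ?_⟩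
  rcases le_or_gt δ 1 with l | l
  · refine (d2 δ e).2.trans (le_lim Fintype.card_pos fun T hT => le_trans ?_ ((d2 δ e).1 T hT
      (Finset.univ.image fun (f : Fin T → Bool) => v false true T f ∘ (· + T)) ?_))
    · rw [Finset.card_image_of_injective _ fun x y e => funext fun i => ?_]
      · simp
      · simpa [v, add_comm, Fin.val_inj] using congrFun e i
    · simp only [Finset.forall_mem_image]
      refine fun x _ y _ ne => l.trans ((d1 T hT _ _).2.2 ?_)
      have ex : ∃ t : ℕ, v false true T x (t + T) ≠ v false true T y (t + T) := by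
        by_contra q
        push Not at q
        refine ne (funext fun i => ?_)
        rcases le_or_gt 0 i with i0 | i0
        · obtain ⟨j, rfl⟩ := Int.eq_ofNat_of_zero_le i0; exact q j
        · simp only [Function.comp, v]
          rw [if_neg fun ⟨l, h, _⟩ => by omega, if_neg fun ⟨l, h, _⟩ => by omega]
      have sp := Nat.find_spec ex
      have mn := fun j => Nat.find_min ex (m := j)
      generalize Nat.find ex = t at sp mn
      refine ⟨t, by_contra fun q => sp ?_, Or.inl (Or.inl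
        ⟨Bool.eq_not_iff.2 (by simpa [sh] using sp), fun i hi => ?_⟩)⟩
      · simp only [v]
        rw [if_neg fun ⟨l, h, _⟩ => by omega, if_neg fun ⟨l, h, _⟩ => by omega]
      · simp only [sh, Function.comp]
        rcases le_or_gt 0 (i + t) with i0 | i0
        · obtain ⟨j, hj⟩ := Int.eq_ofNat_of_zero_le i0
          rw [hj]; exact not_not.1 (mn j (by omega))
        · simp only [v]
          rw [if_neg fun ⟨l, h, _⟩ => by omega, if_neg fun ⟨l, h, _⟩ => by omega]
  · refine (lim_le (N := 1) (c := 0) le_rfl fun T hT => csSup_le' ?_).trans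
      (le_lim le_rfl fun T hT => ?_)
    · rintro _ ⟨Q, rfl, q⟩
      rw [one_pow, Finset.card_le_one]
      exact fun x hx y hy => by_contra fun n => (l.trans_le (q x hx y hy n)).not_ge (d1 T hT x y).1
    · simpa using (d2 δ e).1 T hT {default} (by simp)

end Pool.Agent.H43.Tso
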