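import Pool.Agent.H43.Tso2

open Set Metric Real Filter Topology

namespace Pool.Agent.H43.Tso

open Flw (sep span IsMetric levels lex u mk)

abbrev A5 := ZMod 5 × ZMod 5

def ι (k : ℕ) (f : ZMod (k + 1) → ZMod 5) (n : ℤ) : A5 := (u k f n, mk k n)

def R1 (k : ℕ) : Set ((ℤ → A5) × (ℤ → A5)) := {z | ∃ f g : ZMod (k + 1) → ZMod 5, ∃ t : ℕ,
  t < 2 * (k + 1) ∧ z = (sh t (ι k f), sh t (ι k g)) ∧
  (u k f t - u k g t = 1 ∨ u k g t - u k f t = 1) ∧ ∀ i : ℤ, 0 ≤ i → i < t % (k + 1) → f i = g i}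

def Pr (S : ℕ) (x y : ℤ → A5) : Prop := ∃ n : ℤ, 0 ≤ n ∧ n < S ∧ ∃ k, S < k ∧
  ∃ f g : ZMod (k + 1) → ZMod 5, ∃ t : ℤ,
  (∀ i : ℤ, 0 ≤ i → i < S → x i = ι k f (i - n + t) ∧ y i = ι k g (i - n + t)) ∧
  (u k f t - u k g t = 1 ∨ u k g t - u k f t = 1) ∧ ∀ i : ℤ, 0 ≤ i → i < t % (k + 1) → f i = g i

lemma mk_ne {k : ℕ} {n : ℤ} : mk k n ≠ 0 ↔ (k + 1 : ℤ) ∣ n := by
  have : (1 : ZMod 5) ≠ 0 := by decide
  simp [Flw.mk, this]

lemma clique (S : ℕ) (Q : Finset (ℤ → A5)) (h : ∀ x ∈ Q, ∀ y ∈ Q, x ≠ y → Pr S x y) :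
    Q.card ≤ 2 ^ S := by
  classical
  rcases Q.eq_empty_or_nonempty with rfl | ⟨x0, h0⟩
  · simp
  have := lex Q (fun x i => (x i).1) (Finset.Ico 0 S)
    (fun i => if ∃ j, 0 ≤ j ∧ j ≤ i ∧ (x0 j).2 ≠ 0 then i - S else i)
    (fun i hi j hj e => by
      simp only [Finset.coe_Ico, mem_Ico] at hi hj e; split_ifs at e <;> omega) fun x hx y hy ne => by
    obtain ⟨n, n0, n1, k, k1, f, g, t, a, b, d⟩ := h x hx y hy ne
    have e : ∀ i : ℤ, 0 ≤ i → i < S → ((x0 i).2 ≠ 0 ↔ (k + 1 : ℤ) ∣ i - n + t) := fun i i0 i1 => by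
      rw [← mk_ne, show mk k (i - n + t) = (x i).2 by rw [(a i i0 i1).1]; rfl]
      by_cases q : x0 = x
      · rw [q]
      · obtain ⟨n, -, -, k, -, f, g, t, a, -⟩ := h x0 h0 x hx q
        rw [(a i i0 i1).1, (a i i0 i1).2]; rfl
    refine ⟨n, Finset.mem_Ico.2 ⟨n0, n1⟩, by simpa [a n n0 n1, ι] using b, fun i hi l => ?_⟩
    obtain ⟨i0, i1⟩ := Finset.mem_Ico.1 hi
    have c : (k + 1 : ℤ) ∣ t - t % (k + 1) := Int.dvd_self_sub_emod
    have r0 : 0 ≤ t % (k + 1) := Int.emod_nonneg _ (by omega)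
    generalize t % (k + 1) = r at *
    suffices ∃ q, 0 ≤ q ∧ q < r ∧ (k + 1 : ℤ) ∣ i - n + t - q by
      obtain ⟨q, q0, q1, q2⟩ := this
      simp only [a i i0 i1, ι, u]
      rw [← (ZMod.intCast_eq_intCast_iff_dvd_sub q _ (k + 1)).2 (by simpa using q2), d q q0 q1]
    have k3 : r < n - i → (x0 (n - r)).2 ≠ 0 := fun l =>
      (e _ (by omega) (by omega)).2 (by rwa [show n - r - n + t = t - r by ring])
    have k4 : i < n → n - i ≤ r → ∃ q, 0 ≤ q ∧ q < r ∧ (k + 1 : ℤ) ∣ i - n + t - q := fun _ _ =>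
      ⟨i - n + r, by omega, by omega, by simpa using c⟩
    split_ifs at l with p w w
    · obtain ⟨j, j0, j1, j2⟩ := p
      refine k4 (by omega) (by_contra fun q => ?_)
      have := Int.le_of_dvd (by omega) (dvd_sub c ((e j j0 (by omega)).1 j2))
      omega
    · obtain ⟨j, j0, j1, j2⟩ := p
      have : n < j := by_contra fun q => w ⟨j, j0, by omega, j2⟩
      have := Int.le_of_dvd (by omega) (dvd_sub ((e j j0 (by omega)).1 j2) c)
      exact ⟨i - n + r - (k + 1), by omega, by omega, by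
        simpa [show i - n + t - (i - n + r - (k + 1)) = t - r + (k + 1) by ring] using c⟩
    · omega
    · exact k4 l (by_contra fun q => w ⟨n - r, by omega, by omega, k3 (by omega)⟩)
  simpa using this

lemma lo (k : ℕ) (x y : ZMod (k + 1) → ZMod 5) (ne : x ≠ y) :
    ∃ t : ℕ, t < 2 * (k + 1) ∧ (sh t (ι k x), sh t (ι k y)) ∈ R1 k := by
  have ex : ∃ i : ℕ, x i ≠ y i := by
    obtain ⟨i, hi⟩ := Function.ne_iff.1 ne
    exact ⟨i.val, by simpa using hi⟩
  have lt : Nat.find ex < k + 1 := by_contra fun n => Nat.find_min ex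
    (m := Nat.find ex - (k + 1)) (by omega) (by
      rw [Nat.cast_sub (by omega), ZMod.natCast_self, sub_zero]; exact Nat.find_spec ex)
  have mn : ∀ i : ℤ, 0 ≤ i → i < Nat.find ex → x i = y i := fun i i0 i1 => by
    obtain ⟨i, rfl⟩ := Int.eq_ofNat_of_zero_le i0
    simpa using Nat.find_min ex (m := i) (by omega)
  have sp := Nat.find_spec ex
  generalize Nat.find ex = i at *
  have d : ∀ a b : ZMod 5, a ≠ b → (a - b = 1 ∨ b - a = 1) ∨ (2 * a - 2 * b = 1 ∨ 2 * b - 2 * a = 1) := by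
    decide
  suffices ∃ t : ℕ, t < 2 * (k + 1) ∧ (u k x t - u k y t = 1 ∨ u k y t - u k x t = 1) ∧
      (t : ℤ) % (k + 1) = i by
    obtain ⟨t, a, b, e⟩ := this
    exact ⟨t, a, x, y, t, a, rfl, b, e ▸ mn⟩
  have em : (i : ℤ) % (k + 1) = i := Int.emod_eq_of_lt (by omega) (by omega)
  rcases d _ _ sp with h | h
  · exact ⟨i, by omega, by simpa [u, show (i : ℤ) < k + 1 by omega] using h, em⟩
  · refine ⟨i + (k + 1), by omega, ?_, by simpa using em⟩
    have : (((i + (k + 1) : ℕ) : ℤ) : ZMod (k + 1)) = i := by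
      rw [Int.cast_natCast, Nat.cast_add, ZMod.natCast_self, add_zero]
    simp only [u, this]
    rwa [if_neg (by omega)]

theorem q1 : ∃ D, Good (σ (A := A5)) D ∧ pLo (σ (A := A5)) D 1 < pUp (σ (A := A5)) D 1 ∧
    sLo (σ (A := A5)) D 1 < sUp (σ (A := A5)) D 1 := by
  classical
  obtain ⟨R, c, n, h, H⟩ := span_osc (A := A5) (a := (0, 2)) (b := (1, 2)) (by decide)
  let E : ℕ → Finset (ℤ → A5) := fun m => (Finset.range (m + 1)).biUnion fun k =>
    (Finset.univ ×ˢ Finset.range (2 * (k + 1))).image fun p => sh (p.2 : ℕ) (ι k p.1)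
  obtain ⟨L, L1, L2⟩ := levels fun m => (E m).card
  have Z : ∀ z ∈ closure (⋃ k ∈ L, R1 k), z.1 0 ≠ z.2 0 ∧ z.1 0 ≠ (1, 2) ∧ z.2 0 ≠ (1, 2) :=
    fun z hz => by
      obtain ⟨w, p, e⟩ := appr hz 0
      obtain ⟨k, -, f, g, t, -, rfl, q, -⟩ := mem_iUnion₂.1 p
      have : mk k t ≠ 2 := by unfold Flw.mk; split_ifs <;> decide
      rw [← (e 0 (by simp)).1, ← (e 0 (by simp)).2]
      simp only [sh, ι, zero_add, ne_eq, Prod.mk.injEq, this, and_false, and_true, not_false_iff]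
      intro e
      simp [e] at q; exact absurd q (by decide)
  obtain ⟨D, g, d1, d2⟩ := sys (R := closure (⋃ k ∈ L, R1 k) ∪ R) (isClosed_closure.union c)
    n.inr fun z hz => hz.elim (fun q => (Z z q).1) fun q => (h z q).1
  refine ⟨D, g, H _ (fun z h => ⟨(Z z h).1, Or.inl (Z z h).2⟩) D fun T t x y => (d1 T t x y).2,
    osc (a := 3 / 4) (b := log 5 / 2) ?_ (by norm_num) (fun n => ?_) fun n => ?_⟩
  · have := one_sub_inv_le_log_of_pos (x := 5 / 4) (by norm_num)
    rw [log_div (by norm_num) (by norm_num), show (4 : ℝ) = 2 ^ 2 by norm_num, log_pow] at this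
    norm_num at this; linarith [log_two_gt_d9]
  · obtain ⟨m, S, a, b, d⟩ := L2 n
    refine ⟨S, by omega, le_trans (Nat.cast_le.2 (csSup_le' (a := 2 ^ S + (2 ^ S + S * (E m).card)) ?_)) ?_⟩
    · rintro _ ⟨Q, rfl, hQ⟩
      replace hQ := fun x hx y hy n => (d1 S (by omega) x y).2.1 (hQ x hx y hy n)
      rw [← Finset.card_filter_add_card_filter_not (s := Q) fun x => ∀ i, x i = (0, 2) ∨ x i = (1, 2),
        ← Finset.card_filter_add_card_filter_not (s := Q.filter fun x => ¬ _)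
          fun x => ∀ n : ℕ, n < S → sh n x ∉ E m]
      refine add_le_add ((cardw _ (fun a => decide (a = (0, 2))) 0 S fun x hx y hy ne => ?_).trans
        (by simp)) (add_le_add (clique S _ fun x hx y hy ne => ?_) ?_)
      · simp only [Finset.mem_filter] at hx hy
        obtain ⟨t, t1, q⟩ := hQ x hx.1 y hy.1 ne
        have : x t ≠ y t := by
          rcases q with (q | q) | q | q
          exacts [by simpa [sh] using (Z _ q).1, by simpa [sh] using (h _ q).1,
            by simpa [sh] using (Z _ q).1.symm, by simpa [sh] using (h _ q).1.symm]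
        refine ⟨t, by omega, by omega, ?_⟩
        rcases hx.2 t with i | i <;> rcases hy.2 t with j | j <;> rw [i, j] at this ⊢ <;>
          first | exact absurd rfl this | decide
      · simp only [Finset.mem_filter] at hx hy
        obtain ⟨t, t1, q⟩ := hQ x hx.1.1 y hy.1.1 ne
        have no : ∀ x y : ℤ → A5, (¬ ∀ i, x i = (0, 2) ∨ x i = (1, 2)) → (sh t x, y) ∉ R :=
          fun x y p q => p fun i => by simpa [sh] using (h _ q).2 (i - t)
        have ye : ∀ x y : ℤ → A5, sh t x ∉ E m → (sh t x, sh t y) ∈ closure (⋃ k ∈ L, R1 k) →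
            Pr S x y := fun x y p q => by
          obtain ⟨k, k1, _, ⟨f, g, s, -, rfl, p1, p2⟩, p3⟩ := split (R := R1) d (E := {z | z.1 ∈ E m})
            ((E m).finite_toSet.isClosed.preimage continuous_fst) (fun k hk z hz => by
              obtain ⟨f, g, t, t1, rfl, -⟩ := hz
              simp only [E, mem_ofPred_eq, Finset.mem_biUnion, Finset.mem_image]
              exact ⟨k, by simp; omega, (f, t), by simpa using t1, rfl⟩) q p S
          refine ⟨t, by omega, by omega, k, by omega, f, g, s, fun i i0 i1 => ?_, p1, p2⟩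
          have := p3 (i - t) (by rw [abs_le]; omega)
          simp only [sh, sub_add_cancel] at this
          exact ⟨this.1.symm, this.2.symm⟩
        rcases q with (q | q) | q | q
        · exact ye _ _ (hx.2 t t1) q
        · exact absurd q (no _ _ hx.1.2)
        · obtain ⟨n, n0, n1, k, k1, f, g, s, p1, p2, p3⟩ := ye _ _ (hy.2 t t1) q
          exact ⟨n, n0, n1, k, k1, g, f, s, fun i a b => (p1 i a b).symm, p2.symm,
            fun i a b => (p3 i a b).symm⟩
        · exact absurd q (no _ _ hy.1.2)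
      · refine (Finset.card_le_card (t := (Finset.range S ×ˢ E m).image
          fun p => sh (-p.1) p.2) fun x hx => ?_).trans (Finset.card_image_le.trans (by simp))
        have := (Finset.mem_filter.1 hx).2
        push Not at this
        obtain ⟨n, n1, e⟩ := this
        exact Finset.mem_image.2 ⟨(n, sh n x), Finset.mem_product.2 ⟨by simpa, e⟩, sh_neg _ _⟩
    have s0 : (40 : ℝ) ≤ S := by exact_mod_cast (by omega)
    have c2 : (2 : ℝ) ^ S ≤ exp (7 / 10 * S) := by
      rw [← exp_log (show (0 : ℝ) < 2 ^ S by positivity), log_pow]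
      exact exp_le_exp.2 (by nlinarith [log_two_lt_d9])
    have c3 := exp_le_exp.2 (show 1 / 4 * (S : ℝ) ≤ 7 / 10 * S by linarith)
    have c4 := add_one_le_exp (S / 20)
    rw [show 3 / 4 * (S : ℝ) = 7 / 10 * S + S / 20 by ring, exp_add]
    push_cast
    nlinarith [exp_pos (7 / 10 * S), Nat.cast_nonneg (α := ℝ) (E m).card]
  · obtain ⟨k, hk, l⟩ := L1 n
    refine ⟨2 * (k + 1), by omega, le_trans ?_ (Nat.cast_le.2 ((d2 1 one_pos).1 _ (by omega)
      (Finset.univ.image (ι k)) ?_))⟩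
    · rw [Finset.card_image_of_injective _ fun x y e => by_contra fun ne => ?_]
      · rw [show log 5 / 2 * (2 * (k + 1) : ℕ) = (k + 1 : ℕ) * log 5 by push_cast; ring, exp_nat_mul,
          exp_log (by norm_num)]
        simp
      · obtain ⟨t, -, q⟩ := lo k x y ne
        exact (Z _ (subset_closure (mem_biUnion hk q))).1 (by rw [e])
    · simp only [Finset.forall_mem_image]
      refine fun x _ y _ ne => (d1 _ (by omega) _ _).2.2 ?_
      obtain ⟨t, t1, q⟩ := lo k x y fun e => ne (e ▸ rfl)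
      exact ⟨t, t1, Or.inl (Or.inl (subset_closure (mem_biUnion hk q)))⟩

end Pool.Agent.H43.Tso
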