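import Pool.Agent.H43.FlwDefs

open Set Filter Topology

namespace Pool.Agent.H43.Tso

open Flw (sep span IsMetric)

variable {X : Type}

/-- the Bowen metric `D_T`, the largest of `D (F^t x) (F^t y)` over `0 ≤ t ≤ T - 1` -/
noncomputable def DT (F : X → X) (D : X → X → ℝ) (T : ℕ) (x y : X) : ℝ :=
  sSup ((fun t : ℕ => D (F^[t] x) (F^[t] y)) '' Iio T)

/-- `log (g T) / T` as an extended real -/
noncomputable def rate (g : ℕ → ℕ) (T : ℕ) : EReal := ((Real.log (g T) / T : ℝ) : EReal)

/-- lower separation rate -/
noncomputable def sLo (F : X → X) (D : X → X → ℝ) (ε : ℝ) : EReal :=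
  liminf (rate fun T => sep (DT F D T) ε) atTop

/-- upper separation rate -/
noncomputable def sUp (F : X → X) (D : X → X → ℝ) (ε : ℝ) : EReal :=
  limsup (rate fun T => sep (DT F D T) ε) atTop

/-- lower spanning rate -/
noncomputable def pLo (F : X → X) (D : X → X → ℝ) (ε : ℝ) : EReal :=
  liminf (rate fun T => span (DT F D T) ε) atTop

/-- upper spanning rate -/
noncomputable def pUp (F : X → X) (D : X → X → ℝ) (ε : ℝ) : EReal :=
  limsup (rate fun T => span (DT F D T) ε) atTop

/-- `(X, D)` is a compact metric space, `F` a homeomorphism with a dense forward orbit, and the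
topological entropy is a real number -/
structure Good [TopologicalSpace X] (F : X ≃ₜ X) (D : X → X → ℝ) : Prop where
  cpt : CompactSpace X
  met : IsMetric D
  tra : ∃ x, Dense (range fun n : ℕ => F^[n] x)
  ent : ∃ h : ℝ, Tendsto (sUp F D) (𝓝[>] 0) (𝓝 (h : EReal))

end Pool.Agent.H43.Tso
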