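import Mathlib

namespace Pool.Agent.H43.Wat

open Set Finset Filter Topology

/-- Partial sums of reciprocals. -/
noncomputable def PS (l : ℕ → ℝ) (n : ℕ) : ℝ := ∑ i ∈ range n, 1 / l i

def NO (p q : ℝ × ℝ) : Prop := p.2 ≤ q.1 ∨ q.2 ≤ p.1

def Fam (a b : ℝ) (S : Finset (ℝ × ℝ)) : Prop :=
  (∀ p ∈ S, a ≤ p.1 ∧ p.1 < p.2 ∧ p.2 ≤ b) ∧ ∀ p ∈ S, ∀ q ∈ S, p ≠ q → NO p q

noncomputable def val (f : ℝ → ℝ) (p : ℝ × ℝ) : ℝ := |f p.2 - f p.1|

noncomputable def W (f : ℝ → ℝ) (l : ℕ → ℝ) (S : Finset (ℝ × ℝ)) (r : ℝ × ℝ → ℕ) : ℝ :=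
  ∑ p ∈ S, val f p / l (r p)

def Bd (a b : ℝ) (f : ℝ → ℝ) (l : ℕ → ℝ) (c : ℝ) : Prop :=
  ∀ S r, Fam a b S → InjOn r S → W f l S r ≤ c

lemma val_nonneg (f : ℝ → ℝ) (p : ℝ × ℝ) : 0 ≤ val f p := abs_nonneg _

lemma Fam.mono {a b : ℝ} {S T : Finset (ℝ × ℝ)} (h : Fam a b S) (hT : T ⊆ S) : Fam a b T :=
  ⟨fun p hp => h.1 p (hT hp), fun p hp q hq => h.2 p (hT hp) q (hT hq)⟩

lemma sorting {ι : Type} [Inhabited ι] (S : Finset ι) (g : ι → ℝ) :
    ∃ (x : ℕ → ι) (ρ : ι → ℕ), (∀ i < S.card, x i ∈ S ∧ ρ (x i) = i) ∧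
      (∀ p ∈ S, ρ p < S.card ∧ x (ρ p) = p) ∧ ∀ i j, i ≤ j → j < S.card → g (x j) ≤ g (x i) := by
  classical
  let e := S.equivFin
  let G : Fin S.card → ℝ := fun i => -g (e.symm i)
  let σ := Tuple.sort G
  refine ⟨fun i => if h : i < S.card then (e.symm (σ ⟨i, h⟩) : ι) else default,
    fun p => if h : p ∈ S then (σ.symm (e ⟨p, h⟩) : ℕ) else 0, ?_, ?_, ?_⟩
  · intro i hi
    simp [hi]
  · intro p hp
    simp [hp]
  · intro i j hij hj
    have hi : i < S.card := lt_of_le_of_lt hij hj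
    have := Tuple.monotone_sort G (show (⟨i, hi⟩ : Fin S.card) ≤ ⟨j, hj⟩ from hij)
    simp only [Function.comp, G] at this
    simp only [hi, hj, dif_pos]
    linarith

lemma part {u : ℕ → ℝ} (hu : Antitone u) (T : Finset ℕ) :
    ∑ t ∈ T, u t ≤ ∑ i ∈ range T.card, u i := by
  induction T using Finset.induction_on_max with
  | empty => simp
  | insert a T ha ih =>
    have hn : a ∉ T := fun h => lt_irrefl _ (ha a h)
    rw [sum_insert hn, card_insert_of_notMem hn, sum_range_succ]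
    have : T.card ≤ a := by
      have := Finset.card_le_card (show T ⊆ range a from fun x hx => mem_range.2 (ha x hx))
      simpa using this
    linarith [hu this]

lemma part' {ι : Type} {u : ℕ → ℝ} (hu : Antitone u) (h0 : ∀ i, 0 ≤ u i) (T : Finset ι)
    {r : ι → ℕ} (hr : InjOn r T) {n : ℕ} (hn : T.card ≤ n) :
    ∑ t ∈ T, u (r t) ≤ ∑ i ∈ range n, u i := by
  classical
  rw [← sum_image (f := u) hr]
  refine (part hu _).trans (sum_le_sum_of_subset_of_nonneg ?_ fun _ _ _ => h0 _)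
  exact range_mono (card_image_le.trans hn)

lemma abel {a α u v : ℕ → ℝ} {K c : ℕ} {D : ℝ} (hc : c < K) (ha : Antitone a) (ha0 : ∀ i, 0 ≤ a i)
    (hα : ∀ i, 0 ≤ α i) (hu : Antitone u) (hv : ∀ i, 0 ≤ v i) (hD : 0 ≤ D)
    (hA : ∀ j, ∑ i ∈ range j, α i ≤ ∑ i ∈ range j, u i)
    (hU : ∀ q, ∑ i ∈ range (q * K), u i ≤ D * ∑ j ∈ range q, v j) (q : ℕ) :
    ∑ i ∈ range (q * K + K), a i * α i ≤
      K * u 0 * a 0 + D * ∑ j ∈ range q, a (j * K + c) * v j := by
  have hb : ∀ q, 0 ≤ K * u 0 + D * ∑ j ∈ range q, v j - ∑ i ∈ range (q * K + K), α i := by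
    intro q
    have h1 := hA (q * K + K)
    have h2 : ∑ i ∈ range K, u (q * K + i) ≤ ∑ _i ∈ range K, u 0 :=
      sum_le_sum fun i _ => hu (Nat.zero_le _)
    rw [sum_const, card_range, nsmul_eq_mul] at h2
    rw [sum_range_add u] at h1
    linarith [hU q]
  have hblk : ∀ m, ∑ i ∈ range K, a (m + i) * α (m + i) ≤ a m * ∑ i ∈ range K, α (m + i) := by
    intro m
    rw [mul_sum]
    exact sum_le_sum fun i _ => mul_le_mul_of_nonneg_right (ha (Nat.le_add_right _ _)) (hα _)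
  have key : ∀ q, (K * u 0 + D * ∑ j ∈ range q, v j - ∑ i ∈ range (q * K + K), α i) * a (q * K) ≤
      K * u 0 * a 0 + D * ∑ j ∈ range q, a (j * K + c) * v j -
        ∑ i ∈ range (q * K + K), a i * α i := by
    intro q
    induction q with
    | zero =>
      have := hblk 0
      simp only [zero_add, zero_mul, sum_range_zero, mul_zero, add_zero] at this ⊢
      nlinarith
    | succ q ih =>
      have e : (q + 1) * K = q * K + K := by ring
      rw [e, sum_range_add α (q * K + K) K, sum_range_add (fun i => a i * α i) (q * K + K) K,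
        sum_range_succ, sum_range_succ]
      have h1 := hblk (q * K + K)
      have h2 : a (q * K + K) ≤ a (q * K + c) := ha (by omega)
      have h3 : a (q * K + K) ≤ a (q * K) := ha (by omega)
      have h4 := mul_le_mul_of_nonneg_left h3 (hb q)
      have h5 := mul_le_mul_of_nonneg_left (mul_le_mul_of_nonneg_right h2 (hv q)) hD
      nlinarith
  have := mul_nonneg (hb q) (ha0 (q * K))
  linarith [key q]

lemma total_len {a b : ℝ} (hab : a ≤ b) {S : Finset (ℝ × ℝ)} (h : Fam a b S) :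
    ∑ p ∈ S, (p.2 - p.1) ≤ b - a := by
  have hd : (↑S : Set (ℝ × ℝ)).PairwiseDisjoint fun p => Ioo p.1 p.2 := by
    intro p hp q hq hpq
    refine Set.disjoint_left.2 fun x h1 h2 => ?_
    rcases h.2 p hp q hq hpq with e | e <;> linarith [h1.1, h1.2, h2.1, h2.2]
  have h1 := MeasureTheory.measure_biUnion_finset (μ := MeasureTheory.volume) hd
    fun _ _ => measurableSet_Ioo
  have h2 : (⋃ p ∈ S, Set.Ioo p.1 p.2) ⊆ Set.Ioo a b := by
    intro x hx
    simp only [mem_iUnion] at hx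
    obtain ⟨p, hp, h3, h4⟩ := hx
    exact ⟨by linarith [(h.1 p hp).1], by linarith [(h.1 p hp).2.2]⟩
  have h3 := MeasureTheory.measure_mono (μ := MeasureTheory.volume) h2
  rw [h1] at h3
  simp only [Real.volume_Ioo] at h3
  rw [← ENNReal.ofReal_sum_of_nonneg fun p hp => by linarith [(h.1 p hp).2.1]] at h3
  exact (ENNReal.ofReal_le_ofReal_iff (by linarith)).1 h3

lemma anti {l : ℕ → ℝ} (hm : Monotone l) (hp : ∀ i, 0 < l i) : Antitone fun i => 1 / l i :=
  fun _ _ h => one_div_le_one_div_of_le (hp _) (hm h)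

lemma PS_mono {l : ℕ → ℝ} (hp : ∀ i, 0 < l i) : Monotone (PS l) := fun _ _ h =>
  sum_le_sum_of_subset_of_nonneg (range_mono h) fun i _ _ => (one_div_pos.2 (hp i)).le

lemma PS_nonneg {l : ℕ → ℝ} (hp : ∀ i, 0 < l i) (n : ℕ) : 0 ≤ PS l n :=
  sum_nonneg fun i _ => (one_div_pos.2 (hp i)).le

lemma PS_add (l : ℕ → ℝ) (m n : ℕ) : PS l (m + n) = PS l m + PS (fun i => l (i + m)) n := by
  unfold PS
  rw [sum_range_add]
  simp only [add_comm m]

lemma PS_shift {l : ℕ → ℝ} (hm : Monotone l) (hp : ∀ i, 0 < l i) (m n : ℕ) :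
    PS (fun i => l (i + m)) n ≤ PS l n :=
  sum_le_sum fun _ _ => anti hm hp (Nat.le_add_right _ _)

lemma PS_ge {l : ℕ → ℝ} (hm : Monotone l) (hp : ∀ i, 0 < l i) (n : ℕ) : n * (1 / l n) ≤ PS l n := by
  have : ∑ _i ∈ range n, 1 / l n ≤ PS l n :=
    sum_le_sum fun i hi => anti hm hp (mem_range.1 hi).le
  simpa using this

lemma PS_le {l : ℕ → ℝ} (hm : Monotone l) (hp : ∀ i, 0 < l i) (n : ℕ) : PS l n ≤ n * (1 / l 0) := by
  have : PS l n ≤ ∑ _i ∈ range n, 1 / l 0 :=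
    sum_le_sum fun i _ => anti hm hp (Nat.zero_le _)
  simpa using this

lemma PS_mul {l : ℕ → ℝ} (hm : Monotone l) (hp : ∀ i, 0 < l i) (k n : ℕ) :
    PS l (k * n) ≤ k * PS l n := by
  induction k with
  | zero => simp [PS]
  | succ k ih =>
    rw [Nat.succ_mul, PS_add]
    have := PS_shift hm hp (k * n) n
    push_cast; linarith

lemma ces {l : ℕ → ℝ} (h : Tendsto l atTop atTop) {ε : ℝ} (hε : 0 < ε) :
    ∃ n0, ∀ n ≥ n0, PS l n ≤ ε * n := by
  have h1 : Tendsto (fun i => 1 / l i) atTop (𝓝 0) := by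
    simpa [Function.comp_def] using tendsto_inv_atTop_zero.comp h
  have h2 := h1.cesaro.eventually (gt_mem_nhds hε)
  obtain ⟨n0, hn⟩ := eventually_atTop.1 h2
  refine ⟨n0 + 1, fun n hn' => ?_⟩
  have h3 := hn n (by omega)
  have h4 : (0:ℝ) < n := by exact_mod_cast (show 0 < n by omega)
  rw [inv_mul_lt_iff₀ h4] at h3
  unfold PS; linarith

end Pool.Agent.H43.Wat
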