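import Pool.Agent.H43.Wat1

namespace Pool.Agent.H43.Wat

open Finset Filter Topology
open Set (InjOn)

def Comp (H G : Finset (ℝ × ℝ)) : Prop := ∀ p ∈ H, ∀ q ∈ G, NO p q

def Good (a b : ℝ) (f : ℝ → ℝ) (l : ℕ → ℝ) (H : Finset (ℝ × ℝ)) (η : ℝ) : Prop :=
  ∀ m, ∃ G r, Fam a b G ∧ InjOn r G ∧ Comp H G ∧ η < W f (fun i => l (i + m)) G r

lemma shiftU {g l : ℕ → ℝ} (gp : ∀ i, 0 < g i) (lm : Monotone l) (lp : ∀ i, 0 < l i)
    (gt : Tendsto (PS g) atTop atTop) (lt : Tendsto l atTop atTop) {δ : ℝ} (hδ : 0 < δ) {K : ℕ}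
    (h : ∀ n, PS l (K * n) ≤ δ * K * PS g n) (N : ℕ) :
    ∃ m0, ∀ m ≥ m0, ∀ q, PS (fun i => l (i + m)) (q * K) ≤ 2 * δ * K * PS (fun i => g (i + N)) q := by
  obtain ⟨j0, hj⟩ := eventually_atTop.1 (gt.eventually_ge_atTop (2 * PS g N))
  obtain ⟨m0, hm⟩ := eventually_atTop.1 (lt.eventually_ge_atTop (j0 * g N / (2 * δ)))
  refine ⟨m0, fun m hm' q => ?_⟩
  have hK : (0:ℝ) ≤ K := Nat.cast_nonneg K
  rcases le_or_gt j0 q with hq | hq
  · have h1 := PS_shift lm lp m (q * K)
    have h2 := h q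
    have h3 := PS_add g N q
    have h4 : PS g q ≤ PS g (N + q) := PS_mono gp (by omega)
    have h5 := hj q hq
    rw [mul_comm K q] at h2
    have h6 : PS g q ≤ 2 * PS (fun i => g (i + N)) q := by linarith
    have := mul_le_mul_of_nonneg_left h6 (mul_nonneg hδ.le hK)
    linarith
  · rcases Nat.eq_zero_or_pos q with rfl | hq0
    · simp [PS]
    have h1 := PS_le (l := fun i => l (i + m)) (fun _ _ h => lm (by omega)) (fun _ => lp _) (q * K)
    have h2 : PS (fun i => g (i + N)) 1 ≤ PS (fun i => g (i + N)) q := PS_mono (fun _ => gp _) hq0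
    simp only [PS, sum_range_one, zero_add] at h1 h2
    have h3 := hm m hm'
    have h4 : (q:ℝ) * (1 / l m) ≤ 2 * δ * (1 / g N) := by
      have hq' : (q:ℝ) ≤ j0 := by exact_mod_cast hq.le
      rw [div_le_iff₀ (by positivity)] at h3
      rw [mul_one_div, mul_one_div, div_le_div_iff₀ (lp m) (gp N)]
      nlinarith [gp N]
    unfold PS
    push_cast at h1
    have h5 := mul_le_mul_of_nonneg_left h4 hK
    have h6 := mul_le_mul_of_nonneg_left h2 (mul_nonneg (mul_nonneg zero_le_two hδ.le) hK)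
    nlinarith

lemma cross {a b : ℝ} {G : Finset (ℝ × ℝ)} (hG : Fam a b G) (e : ℝ) :
    (G.filter fun q => q.1 < e ∧ e < q.2).card ≤ 1 := by
  refine card_le_one.2 fun p hp q hq => ?_
  rw [mem_filter] at hp hq
  by_contra hne
  rcases hG.2 p hp.1 q hq.1 hne with h | h <;> linarith [hp.2.1, hp.2.2, hq.2.1, hq.2.2]

lemma pigeon {a b : ℝ} {f : ℝ → ℝ} {l : ℕ → ℝ} (lm : Monotone l) (lp : ∀ i, 0 < l i)
    (lt : Tendsto l atTop atTop) {B : ℝ} (hB : ∀ p : ℝ × ℝ, a ≤ p.1 → p.1 < p.2 → p.2 ≤ b → val f p ≤ B)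
    {H S : Finset (ℝ × ℝ)} (hS : Fam a b S) {η : ℝ} (hη : 0 < η) (hG : Good a b f l H η) {K : ℕ}
    (hK : 0 < K) (C : ℕ → Finset (ℝ × ℝ)) (col : ℝ × ℝ → ℕ)
    (hC : ∀ c < K, ∀ p ∈ C c, p ∈ S ∧ col p = c) :
    ∃ c < K, Good a b f l (H ∪ C c) (η - 2 * η / K) := by
  classical
  by_contra hno
  have hno' : ∀ c, ∃ m, c < K → ∀ G r, Fam a b G → InjOn r G → Comp (H ∪ C c) G →
      W f (fun i => l (i + m)) G r ≤ η - 2 * η / K := by
    intro c
    by_contra h
    push Not at h
    exact hno ⟨c, (h 0).1, fun m => (h m).2⟩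
  choose M hM using hno'
  have hK' : (0:ℝ) < K := by exact_mod_cast hK
  obtain ⟨m0, hm0⟩ := eventually_atTop.1 (lt.eventually_ge_atTop (2 * S.card * B * K / η))
  set m := max m0 ((range K).sup M) with hm
  obtain ⟨G, s, hGf, hs, hHG, hW⟩ := hG m
  set w : ℝ × ℝ → ℝ := fun q => val f q / l (s q + m) with hw
  have w0 : ∀ q, 0 ≤ w q := fun q => div_nonneg (val_nonneg _ _) (lp _).le
  let X : ℝ × ℝ → Prop := fun q => ∃ p ∈ S, (q.1 < p.1 ∧ p.1 < q.2) ∨ (q.1 < p.2 ∧ p.2 < q.2)
  have hX : (G.filter X).card ≤ S.card * 2 := by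
    have : G.filter X ⊆ S.biUnion fun p => (G.filter fun q => q.1 < p.1 ∧ p.1 < q.2) ∪
        (G.filter fun q => q.1 < p.2 ∧ p.2 < q.2) := by
      intro q hq
      obtain ⟨hq, p, hp, h⟩ := mem_filter.1 hq
      refine mem_biUnion.2 ⟨p, hp, mem_union.2 ?_⟩
      exact h.imp (fun h => mem_filter.2 ⟨hq, h⟩) (fun h => mem_filter.2 ⟨hq, h⟩)
    refine (card_le_card this).trans (card_biUnion_le_card_mul _ _ _ fun p _ => ?_)
    exact (card_union_le _ _).trans (add_le_add (cross hGf _) (cross hGf _))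
  have h2 : ∑ q ∈ G.filter X, w q ≤ η / K := by
    rcases (G.filter X).eq_empty_or_nonempty with he | ⟨q0, hq0⟩
    · rw [he, sum_empty]; positivity
    have hq0' := hGf.1 q0 (mem_filter.1 hq0).1
    have hB0 : 0 ≤ B := (val_nonneg _ _).trans (hB q0 hq0'.1 hq0'.2.1 hq0'.2.2)
    have h1 : ∀ q ∈ G.filter X, w q ≤ B / l m := fun q hq => by
      have := hGf.1 q (mem_filter.1 hq).1
      exact div_le_div₀ hB0 (hB q this.1 this.2.1 this.2.2) (lp m) (lm (by omega))
    refine (sum_le_card_nsmul _ _ _ h1).trans ?_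
    have h3 := hm0 m (le_max_left _ _)
    have h4 : ((G.filter X).card : ℝ) ≤ S.card * 2 := by exact_mod_cast hX
    rw [div_le_iff₀ hη] at h3
    rw [nsmul_eq_mul, ← mul_div_assoc, div_le_div_iff₀ (lp m) hK']
    nlinarith [mul_le_mul_of_nonneg_right h4 (mul_nonneg hB0 hK'.le)]
  set G1 := G.filter fun q => ¬ X q with hG1
  have h3 : η - η / K < ∑ q ∈ G1, w q := by
    have := sum_filter_add_sum_filter_not G X w
    unfold W at hW
    linarith
  have h4 : ∀ c ∈ range K, ∑ q ∈ G1.filter (fun q => ∀ p ∈ C c, NO p q), w q ≤ η - 2 * η / K := by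
    intro c hc
    have hsub : G1.filter (fun q => ∀ p ∈ C c, NO p q) ⊆ G :=
      (filter_subset _ _).trans (filter_subset _ _)
    refine le_trans (sum_le_sum fun q _ => ?_) (hM c (mem_range.1 hc) _ s (hGf.mono hsub)
      (hs.mono (by exact_mod_cast hsub)) fun p hp q hq => ?_)
    · have : M c ≤ m := (le_sup (f := M) hc).trans (le_max_right _ _)
      exact div_le_div_of_nonneg_left (val_nonneg _ _) (lp _) (lm (by omega))
    · rcases mem_union.1 hp with hp | hp
      · exact hHG p hp q (hsub hq)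
      · exact (mem_filter.1 hq).2 p hp
  have h5 : ∀ q ∈ G1, ((K:ℝ) - 1) * w q ≤
      ∑ c ∈ range K, if (∀ p ∈ C c, NO p q) then w q else 0 := by
    intro q hq
    obtain ⟨hqG, hqX⟩ := mem_filter.1 hq
    have hq1 := (hGf.1 q hqG).2.1
    have hin : ∀ p ∈ S, ¬ NO p q → p.1 ≤ q.1 ∧ q.2 ≤ p.2 := by
      intro p hp hn
      simp only [NO, not_or, not_le] at hn
      constructor
      · by_contra h; exact hqX ⟨p, hp, Or.inl ⟨not_le.1 h, hn.2⟩⟩
      · by_contra h; exact hqX ⟨p, hp, Or.inr ⟨hn.1, not_le.1 h⟩⟩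
    have hc1 : ((range K).filter fun c => ¬ ∀ p ∈ C c, NO p q).card ≤ 1 := by
      refine card_le_one.2 fun c hc d hd => ?_
      obtain ⟨hc, hc2⟩ := mem_filter.1 hc
      obtain ⟨hd, hd2⟩ := mem_filter.1 hd
      push Not at hc2 hd2
      obtain ⟨p, hp, hpn⟩ := hc2
      obtain ⟨p', hp', hpn'⟩ := hd2
      have a1 := hC c (mem_range.1 hc) p hp
      have a2 := hC d (mem_range.1 hd) p' hp'
      have b1 := hin p a1.1 hpn
      have b2 := hin p' a2.1 hpn'
      by_cases e : p = p'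
      · rw [← a1.2, ← a2.2, e]
      · rcases hS.2 p a1.1 p' a2.1 e with h | h <;> exfalso <;> linarith [b1.1, b1.2, b2.1, b2.2]
    rw [← sum_filter, sum_const, nsmul_eq_mul]
    have := card_filter_add_card_filter_not (s := range K) (fun c => ∀ p ∈ C c, NO p q)
    rw [card_range] at this
    have h6 : (K:ℝ) ≤ ((range K).filter fun c => ∀ p ∈ C c, NO p q).card + 1 := by
      exact_mod_cast (by omega)
    exact mul_le_mul_of_nonneg_right (by linarith) (w0 q)
  have h6 := sum_le_sum h5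
  rw [sum_comm, ← mul_sum] at h6
  simp only [← sum_filter] at h6
  have h7 := sum_le_sum h4
  rw [sum_const, card_range, nsmul_eq_mul] at h7
  have h8 : (1:ℝ) ≤ K := by exact_mod_cast hK
  have h9 : η / K * K = η := by field_simp
  have h10 : 0 < η / K := by positivity
  have h11 : 2 * η / K = 2 * (η / K) := by ring
  rw [h11] at h7
  nlinarith

lemma step {a b : ℝ} {f : ℝ → ℝ} {g l : ℕ → ℝ} (gp : ∀ i, 0 < g i) (lm : Monotone l)
    (lp : ∀ i, 0 < l i) (gt : Tendsto (PS g) atTop atTop) (lt : Tendsto l atTop atTop)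
    {δ : ℝ} (hδ : 0 < δ) {K : ℕ} (hK : 0 < K) (h : ∀ n, PS l (K * n) ≤ δ * K * PS g n)
    {B : ℝ} (hB0 : 0 ≤ B) (hB : ∀ p : ℝ × ℝ, a ≤ p.1 → p.1 < p.2 → p.2 ≤ b → val f p ≤ B)
    {H : Finset (ℝ × ℝ)} {r : ℝ × ℝ → ℕ} {N : ℕ} (hH : Fam a b H) (hr : InjOn r H)
    (hN : ∀ p ∈ H, r p < N) {η : ℝ} (hη : 0 < η) (hG : Good a b f l H η) :
    ∃ (H' : Finset (ℝ × ℝ)) (r' : ℝ × ℝ → ℕ) (N' : ℕ), Fam a b H' ∧ InjOn r' H' ∧
      (∀ p ∈ H', r' p < N') ∧ W f g H r + η / (4 * δ * K) ≤ W f g H' r' ∧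
      Good a b f l H' (η - 2 * η / K) := by
  classical
  have hK' : (0:ℝ) < K := by exact_mod_cast hK
  obtain ⟨m0, hm0⟩ := shiftU gp lm lp gt lt hδ h N
  obtain ⟨m1, hm1⟩ := eventually_atTop.1 (lt.eventually_ge_atTop (2 * K * B / η))
  set m := max m0 m1
  obtain ⟨S, s, hS, hs, hHS, hW⟩ := hG m
  obtain ⟨x, ρ, hx, hρ, hanti⟩ := sorting S (val f)
  set n := S.card with hn
  let C : ℕ → Finset (ℝ × ℝ) := fun c =>
    ((range n).filter fun j => j * K + c < n).image fun j => x (j * K + c)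
  have hC : ∀ c < K, ∀ p ∈ C c, p ∈ S ∧ ρ p % K = c := by
    intro c hc p hp
    obtain ⟨j, hj, rfl⟩ := mem_image.1 hp
    have := hx _ (mem_filter.1 hj).2
    refine ⟨this.1, ?_⟩
    rw [this.2, Nat.mul_add_mod_of_lt hc]
  obtain ⟨c, hc, hgood⟩ := pigeon lm lp lt hB hS hη hG hK C (fun p => ρ p % K) hC
  have hdis : ∀ p ∈ S, p ∉ H := fun p hp hp' => by
    have := (hS.1 p hp).2.1
    rcases hHS p hp' p hp with e | e <;> linarith
  let r' : ℝ × ℝ → ℕ := fun p => if p ∈ H then r p else N + ρ p / K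
  refine ⟨H ∪ C c, r', N + n, ⟨fun p hp => ?_, fun p hp q hq hpq => ?_⟩, ?_, ?_, ?_, hgood⟩
  · rcases mem_union.1 hp with hp | hp
    exacts [hH.1 p hp, hS.1 p (hC c hc p hp).1]
  · rcases mem_union.1 hp with hp | hp <;> rcases mem_union.1 hq with hq | hq
    exacts [hH.2 p hp q hq hpq, hHS p hp q (hC c hc q hq).1, (hHS q hq p (hC c hc p hp).1).symm,
      hS.2 p (hC c hc p hp).1 q (hC c hc q hq).1 hpq]
  · intro p hp q hq e
    rcases mem_union.1 (mem_coe.1 hp) with hp | hp <;>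
      rcases mem_union.1 (mem_coe.1 hq) with hq | hq
    · simp only [r', hp, hq, if_true] at e; exact hr hp hq e
    · have := hN p hp
      simp only [r', hp, hdis q (hC c hc q hq).1, if_true, if_false] at e
      exact absurd (e ▸ this) (not_lt.2 (Nat.le_add_right _ _))
    · have := hN q hq
      simp only [r', hq, hdis p (hC c hc p hp).1, if_true, if_false] at e
      exact absurd (e ▸ this) (not_lt.2 (Nat.le_add_right _ _))
    · have a1 := hC c hc p hp
      have a2 := hC c hc q hq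
      simp only [r', hdis p a1.1, hdis q a2.1, if_false, Nat.add_left_cancel_iff] at e
      have : ρ p = ρ q := by
        rw [← Nat.div_add_mod (ρ p) K, ← Nat.div_add_mod (ρ q) K, e, a1.2, a2.2]
      rw [← (hρ p a1.1).2, this, (hρ q a2.1).2]
  · intro p hp
    rcases mem_union.1 hp with hp | hp
    · have := hN p hp
      simp only [r', hp, if_true]; omega
    · have a1 := hC c hc p hp
      have := (hρ p a1.1).1
      have := Nat.div_le_self (ρ p) K
      simp only [r', hdis p a1.1, if_false]; omega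
  · let A : ℕ → ℝ := fun i => if i < n then val f (x i) else 0
    let α : ℕ → ℝ := fun i => if i < n then 1 / l (s (x i) + m) else 0
    have xinj : ∀ i < n, ∀ j < n, x i = x j → i = j := fun i hi j hj e => by
      rw [← (hx i hi).2, e, (hx j hj).2]
    have hab := abel (a := A) (α := α) (u := fun i => 1 / l (i + m)) (v := fun j => 1 / g (j + N))
      (D := 2 * δ * K) hc (fun i j hij => by
        simp only [A]
        split_ifs with h1 h2 h2
        exacts [hanti i j hij h1, absurd (lt_of_le_of_lt hij h1) h2, val_nonneg _ _, le_rfl])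
      (fun i => by simp only [A]; split_ifs; exacts [val_nonneg _ _, le_rfl])
      (fun i => by simp only [α]; split_ifs; exacts [(one_div_pos.2 (lp _)).le, le_rfl])
      (anti (l := fun i => l (i + m)) (fun _ _ h => lm (by omega)) fun _ => lp _)
      (fun j => (one_div_pos.2 (gp _)).le) (by positivity)
      (fun j => by
        simp only [α]
        rw [← sum_filter]
        refine part' (u := fun i => 1 / l (i + m)) (r := fun i => s (x i))
          (anti (l := fun i => l (i + m)) (fun _ _ h => lm (by omega)) fun _ => lp _)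
          (fun _ => (one_div_pos.2 (lp _)).le) _ (fun i hi k hk e => ?_)
          ((card_filter_le _ _).trans (card_range j).le)
        have hi' := (mem_filter.1 (mem_coe.1 hi)).2
        have hk' := (mem_filter.1 (mem_coe.1 hk)).2
        exact xinj i hi' k hk' (hs (hx i hi').1 (hx k hk').1 e))
      (hm0 m (le_max_left _ _)) n
    have e1 : ∑ i ∈ range (n * K + K), A i * α i = W f (fun i => l (i + m)) S s := by
      have : range n ⊆ range (n * K + K) := range_mono (by nlinarith)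
      rw [← sum_subset this fun i _ hi => by simp only [A, mem_range.not.1 hi, if_false, zero_mul]]
      refine sum_nbij' x ρ (fun i hi => (hx i (mem_range.1 hi)).1)
        (fun p hp => mem_range.2 (hρ p hp).1) (fun i hi => (hx i (mem_range.1 hi)).2)
        (fun p hp => (hρ p hp).2) fun i hi => ?_
      simp only [A, α, mem_range.1 hi, if_true]; ring
    have e2 : ∑ j ∈ range n, A (j * K + c) * (1 / g (j + N)) = W f g (C c) r' := by
      unfold W
      rw [sum_image fun i hi j hj e => ?_]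
      · simp only [A, ite_mul, zero_mul]
        rw [← sum_filter]
        refine sum_congr rfl fun j hj => ?_
        have a1 := hx _ (mem_filter.1 hj).2
        have : (j * K + c) / K = j := by
          rw [mul_comm, Nat.mul_add_div hK, Nat.div_eq_of_lt hc, add_zero]
        simp only [r', hdis _ a1.1, if_false, a1.2, this, add_comm N]; ring
      · have := xinj _ (mem_filter.1 (mem_coe.1 hi)).2 _ (mem_filter.1 (mem_coe.1 hj)).2 e
        exact Nat.eq_of_mul_eq_mul_right hK (by omega)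
    have e3 : W f g (H ∪ C c) r' = W f g H r + W f g (C c) r' := by
      unfold W
      rw [sum_union (disjoint_left.2 fun p hp hp' => hdis p (hC c hc p hp').1 hp)]
      congr 1
      exact sum_congr rfl fun p hp => by simp only [r', hp, if_true]
    have e4 : K * (1 / l (0 + m)) * A 0 ≤ η / 2 := by
      have a1 : A 0 ≤ B := by
        simp only [A]; split_ifs with h0
        · have := hS.1 _ (hx 0 h0).1
          exact hB _ this.1 this.2.1 this.2.2
        · exact hB0
      have a2 := hm1 m (le_max_right _ _)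
      rw [div_le_iff₀ hη] at a2
      rw [zero_add, mul_one_div, div_mul_eq_mul_div, div_le_iff₀ (lp m)]
      nlinarith
    rw [e1, e2] at hab
    rw [e3]
    have : η / (4 * δ * K) ≤ W f g (C c) r' := by
      rw [div_le_iff₀ (by positivity)]; nlinarith
    linarith

theorem suff {a b : ℝ} {f : ℝ → ℝ} {g l : ℕ → ℝ} (gm : Monotone g) (gp : ∀ i, 0 < g i)
    (lm : Monotone l) (lp : ∀ i, 0 < l i) (gt : Tendsto (PS g) atTop atTop)
    (h : ∀ δ > 0, ∃ K : ℕ, 0 < K ∧ ∀ n, PS l (K * n) ≤ δ * K * PS g n) {V : ℝ}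
    (hV : Bd a b f g V) {η : ℝ} (hη : 0 < η) : ∃ m, Bd a b f (fun i => l (i + m)) η := by
  have hV0 : 0 ≤ V := by
    simpa [W] using hV ∅ (fun _ => 0) ⟨by simp, by simp⟩ (by simp)
  have hB : ∀ p : ℝ × ℝ, a ≤ p.1 → p.1 < p.2 → p.2 ≤ b → val f p ≤ V * g 0 := fun p h1 h2 h3 => by
    have := hV {p} (fun _ => 0) ⟨by simp [h1, h2, h3], by simp⟩ (by simp)
    simp only [W, sum_singleton] at this
    exact (div_le_iff₀ (gp 0)).1 this
  have lt : Tendsto l atTop atTop := by
    refine tendsto_atTop_atTop_of_monotone lm fun R => ?_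
    by_contra hR
    push Not at hR
    have hR0 : 0 < R := (lp 0).trans (hR 0)
    obtain ⟨K, hK, hKn⟩ := h (g 0 / (2 * R)) (by have := gp 0; positivity)
    have h1 := hKn 1
    have h2 := PS_ge lm lp K
    have h3 : 1 / R ≤ 1 / l K := one_div_le_one_div_of_le (lp K) (hR K).le
    have hK' : (0:ℝ) < K := by exact_mod_cast hK
    simp only [PS, sum_range_one, mul_one] at h1 h2
    have h4 : g 0 / (2 * R) * K * (1 / g 0) = K * (1 / R) / 2 := by have := gp 0; field_simp
    have h5 : 0 < K * (1 / R) := by positivity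
    nlinarith
  by_contra hno
  have hG : Good a b f l ∅ η := fun m => by
    by_contra hm
    exact hno ⟨m, fun S r hS hr => le_of_not_gt fun hlt => hm ⟨S, r, hS, hr, by simp [Comp], hlt⟩⟩
  obtain ⟨L, hL, hLn⟩ := h (η / (32 * (V + 1))) (by positivity)
  set δ := η / (32 * (V + 1)) with hδ
  have hδ0 : 0 < δ := by positivity
  have hL' : (0:ℝ) < L := by exact_mod_cast hL
  have hK : ∀ n, PS l (4 * L * n) ≤ δ * (4 * L : ℕ) * PS g n := fun n => by
    have h1 := hLn (4 * n)
    have h2 := PS_mul gm gp 4 n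
    rw [show 4 * L * n = L * (4 * n) by ring]
    push_cast at h2 ⊢
    nlinarith [mul_le_mul_of_nonneg_left h2 (mul_pos hδ0 hL').le]
  have key : ∀ k ≤ L, ∃ (H : Finset (ℝ × ℝ)) (r : ℝ × ℝ → ℕ) (N : ℕ) (θ : ℝ), Fam a b H ∧
      InjOn r H ∧ (∀ p ∈ H, r p < N) ∧ k * (η / (32 * δ * L)) ≤ W f g H r ∧ θ ≤ η ∧
      η - k * (η / (2 * L)) ≤ θ ∧ Good a b f l H θ := by
    intro k hk
    induction k with
    | zero => exact ⟨∅, fun _ => 0, 0, η, ⟨by simp, by simp⟩, by simp, by simp, by simp [W],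
        le_rfl, by simp, hG⟩
    | succ k ih =>
      obtain ⟨H, r, N, θ, h1, h2, h3, h4, h5, h6, h7⟩ := ih (by omega)
      have hk' : (k:ℝ) ≤ L := by exact_mod_cast (by omega)
      have e : (L:ℝ) * (η / (2 * L)) = η / 2 := by field_simp
      have hθ : η / 2 ≤ θ := by
        nlinarith [mul_le_mul_of_nonneg_right hk' (show 0 ≤ η / (2 * L) by positivity)]
      obtain ⟨H', r', N', a1, a2, a3, a4, a5⟩ := step gp lm lp gt lt hδ0 (by omega) hK
        (mul_nonneg hV0 (gp 0).le) hB h1 h2 h3 (by linarith) h7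
      push_cast at a4 a5
      have b1 : η / (32 * δ * L) ≤ θ / (4 * δ * (4 * L)) := by
        rw [div_le_div_iff₀ (by positivity) (by positivity)]
        nlinarith [mul_pos hδ0 hL']
      have b2 : 2 * θ / (4 * L) ≤ η / (2 * L) := by
        rw [div_le_div_iff₀ (by positivity) (by positivity)]; nlinarith
      have b3 : 0 ≤ 2 * θ / (4 * L) := by have : 0 ≤ θ := by linarith
                                          positivity
      refine ⟨H', r', N', _, a1, a2, a3, ?_, ?_, ?_, a5⟩ <;> push_cast <;> linarith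
  obtain ⟨H, r, N, θ, h1, h2, -, h4, -⟩ := key L le_rfl
  have h5 := hV H r h1 h2
  have e : (L:ℝ) * (η / (32 * δ * L)) = V + 1 := by rw [hδ]; field_simp
  linarith

end Pool.Agent.H43.Wat
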