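import Pool.Agent.H43.Wat1

namespace Pool.Agent.H43.Wat

open Finset Filter Topology
open Set (InjOn)

noncomputable def φ (x : ℝ) : ℝ := |x - round x|

lemma φ_nonneg (x : ℝ) : 0 ≤ φ x := abs_nonneg _
lemma φ_le (x : ℝ) : φ x ≤ 1/2 := abs_sub_round x
lemma φ_int (n : ℕ) : φ n = 0 := by simp [φ]
lemma φ_half (n : ℕ) : φ (n + 1/2) = 1/2 := by
  unfold φ
  rw [round_natCast_add, one_div, round_two_inv]
  push_cast
  rw [show (n:ℝ) + 2⁻¹ - (n + 1) = -(2⁻¹) by ring, abs_neg]; norm_num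
lemma φ_lip (x y : ℝ) : |φ y - φ x| ≤ |y - x| := by
  have h : ∀ x y : ℝ, φ y - φ x ≤ |y - x| := fun x y => by
    have h1 := round_le y (round x)
    have h2 := abs_add_le (y - x) (x - round x)
    rw [sub_add_sub_cancel] at h2
    unfold φ; linarith
  exact abs_le.2 ⟨by linarith [h y x, abs_sub_comm x y], h x y⟩

lemma L1 {ι : Type} {g : ℕ → ℝ} (gm : Monotone g) (gp : ∀ i, 0 < g i) (S : Finset ι) {r : ι → ℕ}
    (hr : InjOn r S) {x : ι → ℝ} {ε X : ℝ} (hε : 0 ≤ ε) (h0 : ∀ p ∈ S, 0 ≤ x p)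
    (h1 : ∀ p ∈ S, x p ≤ ε) (hX : ∑ p ∈ S, x p ≤ X) (n : ℕ) :
    ∑ p ∈ S, x p / g (r p) ≤ ε * PS g n + X / g n := by
  classical
  rw [← sum_filter_add_sum_filter_not S fun p => r p < n]
  refine add_le_add ?_ ?_
  · have hi : InjOn r (S.filter fun p => r p < n) := hr.mono (by exact_mod_cast filter_subset _ _)
    have hc : (S.filter fun p => r p < n).card ≤ n := by
      have := card_le_card_of_injOn (t := range n) r
        (fun p hp => mem_coe.2 (mem_range.2 (mem_filter.1 (mem_coe.1 hp)).2)) hi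
      simpa using this
    have := part' (anti gm gp) (fun i => (one_div_pos.2 (gp i)).le) _ hi hc
    refine le_trans ?_ (mul_le_mul_of_nonneg_left this hε)
    rw [mul_sum]
    refine sum_le_sum fun p hp => ?_
    rw [mul_one_div]
    exact div_le_div_of_nonneg_right (h1 p (mem_filter.1 hp).1) (gp _).le
  · refine le_trans (sum_le_sum (g := fun p => x p / g n) fun p hp => ?_) ?_
    · exact div_le_div_of_nonneg_left (h0 p (mem_filter.1 hp).1) (gp _)
        (gm (not_lt.1 (mem_filter.1 hp).2))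
    · rw [← sum_div]
      refine div_le_div_of_nonneg_right (le_trans ?_ hX) (gp _).le
      exact sum_le_sum_of_subset_of_nonneg (filter_subset _ _) fun p hp _ => h0 p hp

def Lvl (g l : ℕ → ℝ) (δ : ℝ) (k : ℕ) (β : ℝ) (P : ℕ) (T : ℝ) (K n : ℕ) (h β' : ℝ) : Prop :=
  0 < K ∧ 0 < n ∧ 2 * P ∣ K ∧ 0 < h ∧ h * (K * PS g n) = 1 ∧ δ < h * PS l (K * n) ∧
    h / (β * g 0) ≤ (1/2) ^ k ∧ 1 / (K:ℝ) ≤ (1/2) ^ k ∧ T ≤ h * (K * n : ℕ) / 2 ∧
    h * PS l k ≤ δ / 2 ∧ 0 < β' ∧ β' ≤ β ∧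
    ∃ n', h * ((K * n : ℕ) * β' * PS g n' + (K * n : ℕ) / g n') ≤ (1/2) ^ k

lemma lvl {g l : ℕ → ℝ} (gp : ∀ i, 0 < g i) (lp : ∀ i, 0 < l i)
    (gt : Tendsto g atTop atTop) (lt : Tendsto l atTop atTop) {δ : ℝ} (hδ : 0 < δ)
    (H : ∀ K : ℕ, 0 < K → ∃ n, δ * K * PS g n < PS l (K * n)) (k : ℕ) (β : ℝ) (P : ℕ) (T : ℝ) :
    ∃ (K n : ℕ) (h β' : ℝ), 0 < β → 0 < P → 0 ≤ T → Lvl g l δ k β P T K n h β' := by
  by_cases hh : 0 < β ∧ 0 < P ∧ 0 ≤ T
  swap
  · exact ⟨0, 0, 0, 0, fun a b c => absurd ⟨a, b, c⟩ hh⟩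
  obtain ⟨hβ, hP, hT⟩ := hh
  have g0 := gp 0
  obtain ⟨n1, hn1⟩ := ces gt (show 0 < 1 / (2 * T + 1) by positivity)
  obtain ⟨n0, hn0⟩ := ces lt (show 0 < δ / (g 0 * (n1 + 1)) by positivity)
  have hPS := PS_nonneg lp k
  obtain ⟨K0, hK0⟩ := exists_nat_ge (2 ^ k / β + 2 ^ k + 2 * g 0 * PS l k / δ + n0 + 1)
  have a1 : (0:ℝ) ≤ 2 ^ k / β := by positivity
  have a2 : (0:ℝ) ≤ 2 ^ k := by positivity
  have a3 : (0:ℝ) ≤ 2 * g 0 * PS l k / δ := by positivity
  have a4 : (0:ℝ) ≤ n0 := by positivity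
  set K := 2 * P * K0 with hK
  have hKK : (K0:ℝ) ≤ K := by exact_mod_cast (show K0 ≤ 2 * P * K0 by nlinarith)
  have hK' : (0:ℝ) < K := by linarith
  have hK1 : 0 < K := by exact_mod_cast hK'
  obtain ⟨n, hn⟩ := H K hK1
  have hn0' : 0 < n := by
    rcases Nat.eq_zero_or_pos n with rfl | h
    · simp [PS] at hn
    · exact h
  have hG : 1 / g 0 ≤ PS g n := by simpa [PS] using PS_mono gp hn0'
  have hG0 : 0 < PS g n := lt_of_lt_of_le (by positivity) hG
  have hG1 : 1 ≤ PS g n * g 0 := (div_le_iff₀ g0).1 hG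
  have hnn : n1 ≤ n := by
    by_contra hlt
    have b1 : n0 ≤ K * n := by
      have : n0 ≤ K := by exact_mod_cast (show (n0:ℝ) ≤ K by linarith)
      nlinarith
    have b2 := hn0 _ b1
    have b3 : (n:ℝ) ≤ n1 + 1 := by exact_mod_cast (by omega)
    push_cast at b2
    have b4 : δ / (g 0 * (n1 + 1)) * (K * n) ≤ δ * K * (1 / g 0) := by
      rw [div_mul_eq_mul_div, mul_one_div, div_le_div_iff₀ (by positivity) g0]
      nlinarith [mul_le_mul_of_nonneg_left b3 (mul_pos (mul_pos hδ hK') g0).le]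
    nlinarith [mul_le_mul_of_nonneg_left hG (mul_pos hδ hK').le]
  set h := 1 / (K * PS g n) with hh
  have h0 : 0 < h := by positivity
  have h1 : h * (K * PS g n) = 1 := by rw [hh]; field_simp
  have h2 : h * K ≤ g 0 := by nlinarith [mul_pos h0 hK']
  have hM : (0:ℝ) < (K * n : ℕ) := by exact_mod_cast Nat.mul_pos hK1 hn0'
  obtain ⟨n', hn'⟩ := (gt.eventually_ge_atTop (2 * h * (K * n : ℕ) * 2 ^ k)).exists
  have hP' := PS_nonneg gp n'
  have e2 : ((1:ℝ)/2) ^ k = 1 / 2 ^ k := by rw [div_pow, one_pow]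
  refine ⟨K, n, h, min β (1 / (2 ^ k * 2 * h * (K * n : ℕ) * (PS g n' + 1))), fun _ _ _ =>
    ⟨hK1, hn0', Dvd.intro _ rfl, h0, h1, ?_, ?_, ?_, ?_, ?_, by positivity, min_le_left _ _, n', ?_⟩⟩
  · nlinarith [mul_lt_mul_of_pos_left hn h0]
  · rw [e2, div_le_div_iff₀ (by positivity) (by positivity)]
    have : 2 ^ k / β ≤ K := by linarith
    rw [div_le_iff₀ hβ] at this
    nlinarith [mul_le_mul_of_nonneg_left this h0.le, mul_le_mul_of_nonneg_right h2 hβ.le]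
  · rw [e2]; exact one_div_le_one_div_of_le (by positivity) (by linarith)
  · have b := hn1 n hnn
    rw [div_mul_eq_mul_div, le_div_iff₀ (by positivity)] at b
    push_cast
    nlinarith [mul_le_mul_of_nonneg_left b (mul_pos h0 hK').le]
  · have : 2 * g 0 * PS l k / δ ≤ K := by linarith
    rw [div_le_iff₀ hδ] at this
    have b : h * PS l k * g 0 ≤ δ / 2 * g 0 := by
      nlinarith [mul_le_mul_of_nonneg_left this h0.le, mul_le_mul_of_nonneg_left h2 hδ.le]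
    exact le_of_mul_le_mul_right b g0
  · set M : ℝ := ((K * n : ℕ) : ℝ)
    have b1 : h * (M / g n') ≤ 1 / 2 ^ k / 2 := by
      rw [← mul_div_assoc, div_div, div_le_div_iff₀ (gp _) (by positivity)]; linarith
    have b2 : h * (M * min β (1 / (2 ^ k * 2 * h * M * (PS g n' + 1))) * PS g n') ≤ 1 / 2 ^ k / 2 := by
      calc _ ≤ h * (M * (1 / (2 ^ k * 2 * h * M * (PS g n' + 1))) * (PS g n' + 1)) := by
            gcongr
            · exact min_le_right _ _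
            · linarith
        _ = _ := by field_simp
    rw [e2]; linarith

lemma levelBd {g l : ℕ → ℝ} (gm : Monotone g) (gp : ∀ i, 0 < g i) {δ β T h β' : ℝ} {k P K n : ℕ}
    (hβ : 0 < β) (hL : Lvl g l δ k β P T K n h β') {ι : Type} (S : Finset ι) {r : ι → ℕ}
    (hr : InjOn r S) {len : ι → ℝ} (h0 : ∀ p ∈ S, 0 ≤ len p) (h1 : ∑ p ∈ S, len p ≤ 1) :
    h * ∑ p ∈ S, min 1 ((K * n : ℕ) * len p) / g (r p) ≤
      3 * (1/2) ^ k + ∑ p ∈ S, if β' ≤ len p ∧ len p < β then len p else 0 := by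
  classical
  obtain ⟨hK, hn, -, hh, e1, -, a1, a2, -, -, hβ', -, n', a3⟩ := hL
  set M : ℝ := ((K * n : ℕ) : ℝ) with hM
  have hM0 : 0 ≤ M := Nat.cast_nonneg _
  have hK' : (0:ℝ) < K := by exact_mod_cast hK
  have g0 := gp 0
  have z0 : ∀ p ∈ S, 0 ≤ min 1 (M * len p) := fun p hp =>
    le_min zero_le_one (mul_nonneg hM0 (h0 p hp))
  have sub : ∀ T ⊆ S, ∑ p ∈ T, len p ≤ 1 := fun T hT =>
    (sum_le_sum_of_subset_of_nonneg hT fun p hp _ => h0 p hp).trans h1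
  have zs : ∀ T : Finset ι, ∑ p ∈ T, min 1 (M * len p) ≤ M * ∑ p ∈ T, len p := fun T => by
    rw [mul_sum]; exact sum_le_sum fun _ _ => min_le_right _ _
  rw [← sum_filter_add_sum_filter_not S fun p => len p < β,
    ← sum_filter_add_sum_filter_not (S.filter fun p => len p < β) fun p => β' ≤ len p,
    ← sum_filter]
  set A := (S.filter fun p => len p < β).filter fun p => β' ≤ len p
  set B := (S.filter fun p => len p < β).filter fun p => ¬ β' ≤ len p
  set C := S.filter fun p => ¬ len p < β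
  have hA : A ⊆ S := (filter_subset _ _).trans (filter_subset _ _)
  have hB : B ⊆ S := (filter_subset _ _).trans (filter_subset _ _)
  have hC : C ⊆ S := filter_subset _ _
  have eA : (S.filter fun p => β' ≤ len p ∧ len p < β) = A := by
    ext p; simp only [A, mem_filter]; tauto
  rw [eA]
  have bA := L1 gm gp A (hr.mono (by exact_mod_cast hA)) zero_le_one (fun p hp => z0 p (hA hp))
    (fun _ _ => min_le_left _ _) (zs A) n
  have bB := L1 gm gp B (hr.mono (by exact_mod_cast hB)) (mul_nonneg hM0 hβ'.le)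
    (fun p hp => z0 p (hB hp)) (fun p hp => (min_le_right _ _).trans
      (mul_le_mul_of_nonneg_left (not_le.1 (mem_filter.1 hp).2).le hM0))
    ((zs B).trans (mul_le_of_le_one_right hM0 (sub B hB))) n'
  have bC : ∑ p ∈ C, min 1 (M * len p) / g (r p) ≤ 1 / (β * g 0) := by
    refine le_trans (sum_le_sum (g := fun p => len p / (β * g 0)) fun p hp => ?_) ?_
    · have b1 : β ≤ len p := not_lt.1 (mem_filter.1 hp).2
      rw [div_le_div_iff₀ (gp _) (by positivity)]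
      have b2 := gm (Nat.zero_le (r p))
      calc _ ≤ 1 * (β * g 0) := by gcongr; exact min_le_left _ _
        _ ≤ _ := by rw [one_mul]; gcongr; exact h0 p (hC hp)
    · rw [← sum_div]; gcongr; exact sub C hC
  have sA : 0 ≤ ∑ p ∈ A, len p := sum_nonneg fun p hp => h0 p (hA hp)
  have c1 : h * PS g n = 1 / K := by rw [eq_div_iff hK'.ne']; linarith
  have c2 : h * ((M * ∑ p ∈ A, len p) / g n) ≤ ∑ p ∈ A, len p := by
    have b := PS_ge gm gp n
    have : h * (M / g n) ≤ 1 := by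
      rw [hM]; push_cast
      have : h * (K * n / g n) = h * K * (n * (1 / g n)) := by ring
      nlinarith [mul_le_mul_of_nonneg_left b (mul_pos hh hK').le]
    calc _ = h * (M / g n) * ∑ p ∈ A, len p := by ring
      _ ≤ _ := mul_le_of_le_one_left sA this
  have c3 : h * (1 / (β * g 0)) ≤ (1/2) ^ k := by rwa [mul_one_div]
  nlinarith [mul_le_mul_of_nonneg_left bA hh.le, mul_le_mul_of_nonneg_left bB hh.le,
    mul_le_mul_of_nonneg_left bC hh.le]

lemma seqs {g l : ℕ → ℝ} (gp : ∀ i, 0 < g i) (lp : ∀ i, 0 < l i)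
    (gt : Tendsto g atTop atTop) (lt : Tendsto l atTop atTop) {δ : ℝ} (hδ : 0 < δ)
    (H : ∀ K : ℕ, 0 < K → ∃ n, δ * K * PS g n < PS l (K * n)) :
    ∃ (K n P : ℕ → ℕ) (h β : ℕ → ℝ), β 0 = 1 ∧ (∀ k, P (k + 1) = K k * n k) ∧ ∀ k, 0 < β k ∧
      Lvl g l δ k (β k) (P k) (∑ i ∈ range k, h i * (K i * n i : ℕ)) (K k) (n k) (h k) (β (k + 1)) := by
  choose Kf nf hf βf hs using lvl gp lp gt lt hδ H
  let st : ℕ → ℝ × ℕ × ℝ := fun k => Nat.rec (1, 1, 0) (fun k s =>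
    (βf k s.1 s.2.1 s.2.2, Kf k s.1 s.2.1 s.2.2 * nf k s.1 s.2.1 s.2.2,
      s.2.2 + hf k s.1 s.2.1 s.2.2 * (Kf k s.1 s.2.1 s.2.2 * nf k s.1 s.2.1 s.2.2 : ℕ))) k
  have inv : ∀ k, 0 < (st k).1 ∧ 0 < (st k).2.1 ∧ 0 ≤ (st k).2.2 := by
    intro k
    induction k with
    | zero => exact ⟨one_pos, one_pos, le_rfl⟩
    | succ k ih =>
      obtain ⟨a1, a2, -, a4, -, -, -, -, -, -, a5, -⟩ := hs k _ _ _ ih.1 ih.2.1 ih.2.2
      exact ⟨a5, Nat.mul_pos a1 a2, add_nonneg ih.2.2 (mul_nonneg a4.le (Nat.cast_nonneg _))⟩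
  refine ⟨fun k => Kf k (st k).1 (st k).2.1 (st k).2.2, fun k => nf k (st k).1 (st k).2.1 (st k).2.2,
    fun k => (st k).2.1, fun k => hf k (st k).1 (st k).2.1 (st k).2.2, fun k => (st k).1, rfl,
    fun _ => rfl, fun k => ⟨(inv k).1, ?_⟩⟩
  have e : ∀ k, ∑ i ∈ range k, hf i (st i).1 (st i).2.1 (st i).2.2 *
      (Kf i (st i).1 (st i).2.1 (st i).2.2 * nf i (st i).1 (st i).2.1 (st i).2.2 : ℕ) = (st k).2.2 := by
    intro k
    induction k with
    | zero => rfl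
    | succ k ih => rw [sum_range_succ, ih]
  rw [e]
  exact hs k _ _ _ (inv k).1 (inv k).2.1 (inv k).2.2

end Pool.Agent.H43.Wat
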