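import Pool.Agent.H43.Wat3

namespace Pool.Agent.H43.Wat

open Finset Filter Topology
open Set (InjOn)

lemma nec1 {a b : ℝ} (hab : a < b) {g l : ℕ → ℝ} (gm : Monotone g) (gp : ∀ i, 0 < g i)
    (lp : ∀ i, 0 < l i) (gt : Tendsto g atTop atTop) (lt : Tendsto l atTop atTop) {δ : ℝ}
    (hδ : 0 < δ) (H : ∀ K : ℕ, 0 < K → ∃ n, δ * K * PS g n < PS l (K * n)) :
    ∃ (f : ℝ → ℝ) (V : ℝ), Bd a b f g V ∧ ∃ η > 0, ∀ m, ¬ Bd a b f (fun i => l (i + m)) η := by
  classical
  obtain ⟨K, n, P, h, β, hβ0, hP, hL⟩ := seqs gp lp gt lt hδ H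
  have hd : 0 < b - a := by linarith
  set M : ℕ → ℕ := fun k => K k * n k with hM
  have h0 : ∀ k, 0 < h k := fun k => (hL k).2.2.2.2.1
  have M0 : ∀ k, 0 < M k := fun k => Nat.mul_pos (hL k).2.1 (hL k).2.2.1
  have hβa : Antitone β := antitone_nat_of_succ_le fun k => (hL k).2.2.2.2.2.2.2.2.2.2.2.2.1
  have hdiv : ∀ k i, k < i → 2 * M k ∣ M i := by
    intro k i hki
    induction i, hki using Nat.le_induction with
    | base => exact ((hP k) ▸ (hL (k + 1)).2.2.2.1).mul_right _
    | succ i _ ih =>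
      have : 2 * M i ∣ M (i + 1) := ((hP i) ▸ (hL (i + 1)).2.2.2.1).mul_right _
      exact ih.trans ((Dvd.intro_left 2 rfl).trans this)
  let y : ℝ → ℝ := fun x => (x - a) / (b - a)
  let t : ℕ → ℝ → ℝ := fun k x => h k * φ (M k * y x)
  have hsum : ∀ x, Summable fun k => t k x := by
    intro x
    refine Summable.of_nonneg_of_le (fun k => mul_nonneg (h0 k).le (φ_nonneg _)) (fun k => ?_)
      (summable_geometric_two.mul_left (g 0))
    have a1 := (hL k).2.2.2.2.2.2.2.1
    have a2 : β k ≤ 1 := hβ0 ▸ hβa (Nat.zero_le k)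
    have a3 := (hL k).1
    have g0 := gp 0
    rw [div_le_iff₀ (by positivity)] at a1
    have a4 := φ_le (M k * y x)
    have a5 : (0:ℝ) < (1/2) ^ k * g 0 := by positivity
    simp only [t]
    nlinarith [h0 k]
  refine ⟨fun x => ∑' k, t k x, 7, fun S r hS hr => ?_, δ / 16, by positivity, fun m hB => ?_⟩
  · let len : ℝ × ℝ → ℝ := fun p => (p.2 - p.1) / (b - a)
    have l0 : ∀ p ∈ S, 0 ≤ len p := fun p hp =>
      div_nonneg (by linarith [(hS.1 p hp).2.1]) hd.le
    have l1 : ∑ p ∈ S, len p ≤ 1 := by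
      simp only [len]
      rw [← sum_div, div_le_one hd]; exact total_len hab.le hS
    have hT : Tendsto (fun J => W (fun x => ∑ k ∈ range J, t k x) g S r) atTop
        (𝓝 (W (fun x => ∑' k, t k x) g S r)) :=
      tendsto_finsetSum _ fun p _ => Tendsto.div_const
        (((hsum p.2).hasSum.tendsto_sum_nat.sub (hsum p.1).hasSum.tendsto_sum_nat).abs) _
    refine le_of_tendsto' hT fun J => ?_
    have b1 : ∀ p ∈ S, val (fun x => ∑ k ∈ range J, t k x) p / g (r p) ≤
        ∑ k ∈ range J, h k * (min 1 ((M k : ℝ) * len p) / g (r p)) := by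
      intro p hp
      simp only [val, ← mul_div_assoc]
      rw [← sum_div, ← sum_sub_distrib]
      refine div_le_div_of_nonneg_right ((abs_sum_le_sum_abs _ _).trans
        (sum_le_sum fun k _ => ?_)) (gp _).le
      simp only [t]
      rw [← mul_sub, abs_mul, abs_of_pos (h0 k)]
      refine mul_le_mul_of_nonneg_left (le_min ?_ ((φ_lip _ _).trans (le_of_eq ?_))) (h0 k).le
      · exact abs_le.2 ⟨by linarith [φ_nonneg (M k * y p.2), φ_le (M k * y p.1)],
          by linarith [φ_nonneg (M k * y p.1), φ_le (M k * y p.2)]⟩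
      · rw [show M k * y p.2 - M k * y p.1 = M k * len p by simp only [y, len]; ring]
        exact abs_of_nonneg (mul_nonneg (Nat.cast_nonneg _) (l0 p hp))
    refine (sum_le_sum b1).trans ?_
    rw [sum_comm]
    simp only [← mul_sum]
    refine (sum_le_sum fun k _ => levelBd gm gp (hL k).1 (hL k).2 S hr l0 l1).trans ?_
    rw [sum_add_distrib, ← mul_sum, sum_comm]
    have b2 := sum_geometric_two_le J
    have b3 : ∑ p ∈ S, ∑ k ∈ range J, (if β (k + 1) ≤ len p ∧ len p < β k then len p else 0) ≤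
        ∑ p ∈ S, len p := by
      refine sum_le_sum fun p hp => ?_
      rw [← sum_filter, sum_const, nsmul_eq_mul]
      refine mul_le_of_le_one_left (l0 p hp) ?_
      have : ((range J).filter fun k => β (k + 1) ≤ len p ∧ len p < β k).card ≤ 1 := by
        refine card_le_one.2 fun i hi j hj => ?_
        have hi := (mem_filter.1 hi).2
        have hj := (mem_filter.1 hj).2
        rcases lt_trichotomy i j with e | e | e
        · linarith [hβa (show i + 1 ≤ j from e), hi.1, hj.2]
        · exact e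
        · linarith [hβa (show j + 1 ≤ i from e), hi.2, hj.1]
      exact_mod_cast this
    linarith
  · obtain ⟨-, -, -, -, -, a1, -, -, a2, a3, -⟩ := (hL m).2
    have hM' : (0:ℝ) < M m := by exact_mod_cast M0 m
    let I : ℕ → ℝ × ℝ := fun j => (a + (b - a) * (j / M m), a + (b - a) * ((j + 1/2) / M m))
    have y1 : ∀ j : ℕ, y (I j).1 = j / M m := fun j => by simp only [y, I]; field_simp; ring
    have y2 : ∀ j : ℕ, y (I j).2 = (j + 1/2) / M m := fun j => by simp only [y, I]; field_simp; ring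
    let r : ℝ × ℝ → ℕ := fun p => ⌊y p.1 * M m⌋₊
    have hr : ∀ j, r (I j) = j := fun j => by
      simp only [r, y1]; rw [div_mul_cancel₀ _ hM'.ne', Nat.floor_natCast]
    have hlt : ∀ u v : ℝ, u ≤ v → a + (b - a) * (u / M m) ≤ a + (b - a) * (v / M m) :=
      fun u v huv => by gcongr
    have hF : Fam a b ((range (M m)).image I) := by
      refine ⟨fun p hp => ?_, fun p hp q hq hpq => ?_⟩
      · obtain ⟨j, hj, rfl⟩ := mem_image.1 hp
        have hj' : (j:ℝ) + 1 ≤ M m := by exact_mod_cast mem_range.1 hj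
        refine ⟨le_add_of_nonneg_right (by positivity), ?_, ?_⟩
        · simp only [I]; gcongr; linarith
        · refine (hlt _ (M m) (by linarith)).trans (le_of_eq ?_)
          rw [div_self hM'.ne']; ring
      · obtain ⟨i, -, rfl⟩ := mem_image.1 hp
        obtain ⟨j, -, rfl⟩ := mem_image.1 hq
        rcases lt_trichotomy i j with e | e | e
        · have : (i:ℝ) + 1 ≤ j := by exact_mod_cast e
          exact Or.inl (hlt _ _ (by linarith))
        · exact absurd (e ▸ rfl) hpq
        · have : (j:ℝ) + 1 ≤ i := by exact_mod_cast e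
          exact Or.inr (hlt _ _ (by linarith))
    have hW := hB _ r hF (by
      intro p hp q hq e
      obtain ⟨i, -, rfl⟩ := mem_image.1 (mem_coe.1 hp)
      obtain ⟨j, -, rfl⟩ := mem_image.1 (mem_coe.1 hq)
      rw [hr, hr] at e; rw [e])
    unfold W at hW
    rw [sum_image fun i _ j _ e => by rw [← hr i, e, hr]] at hW
    have hv : ∀ j, h m / 4 ≤ val (fun x => ∑' k, t k x) (I j) := by
      intro j
      have z1 : ∀ k ∉ range (m + 1), t k (I j).1 = 0 := fun k hk => by
        obtain ⟨c, hc⟩ := hdiv m k (by simpa using hk)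
        simp only [t, y1]
        rw [show (M k : ℝ) * (j / M m) = (2 * c * j : ℕ) by rw [hc]; push_cast; field_simp,
          φ_int, mul_zero]
      have z2 : ∀ k ∉ range (m + 1), t k (I j).2 = 0 := fun k hk => by
        obtain ⟨c, hc⟩ := hdiv m k (by simpa using hk)
        simp only [t, y2]
        rw [show (M k : ℝ) * ((j + 1/2) / M m) = (c * (2 * j + 1) : ℕ) by
          rw [hc]; push_cast; field_simp, φ_int, mul_zero]
      have e1 : t m (I j).1 = 0 := by
        simp only [t, y1]; rw [mul_div_cancel₀ _ hM'.ne', φ_int, mul_zero]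
      have e2 : t m (I j).2 = h m / 2 := by
        simp only [t, y2]; rw [mul_div_cancel₀ _ hM'.ne', φ_half]; ring
      have e3 : ∑ k ∈ range m, (t k (I j).1 - t k (I j).2) ≤
          ∑ k ∈ range m, h k * (M k : ℝ) / (2 * M m) := by
        refine sum_le_sum fun k _ => ?_
        simp only [t, y1, y2]
        rw [← mul_sub, mul_div_assoc]
        refine mul_le_mul_of_nonneg_left ((le_abs_self _).trans ((φ_lip _ _).trans
          (le_of_eq ?_))) (h0 k).le
        rw [show (M k : ℝ) * (j / M m) - M k * ((j + 1/2) / M m) = -(M k / (2 * M m)) by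
          field_simp; ring, abs_neg, abs_of_nonneg (by positivity)]
      rw [← sum_div, sum_sub_distrib] at e3
      have e4 : (∑ k ∈ range m, h k * (M k : ℝ)) / (2 * M m) ≤ h m / 4 := by
        rw [div_le_iff₀ (by positivity)]
        have : ∑ k ∈ range m, h k * (M k : ℝ) ≤ h m * M m / 2 := a2
        linarith
      refine le_trans ?_ (le_abs_self _)
      simp only
      rw [tsum_eq_sum z1, tsum_eq_sum z2, sum_range_succ, sum_range_succ, e1, e2]
      linarith
    have hs : h m / 4 * PS (fun i => l (i + m)) (M m) ≤ δ / 16 := by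
      refine le_trans ?_ hW
      unfold PS
      rw [mul_sum]
      refine sum_le_sum fun j _ => ?_
      rw [hr, mul_one_div]
      exact div_le_div_of_nonneg_right (hv j) (lp _).le
    have c1 := PS_add l m (M m)
    have c2 : PS l (M m) ≤ PS l (m + M m) := PS_mono lp (by omega)
    have c3 : δ < h m * PS l (M m) := a1
    rw [c1] at c2
    have c4 := mul_le_mul_of_nonneg_left c2 (h0 m).le
    rw [mul_add] at c4
    linarith

lemma bdd {l : ℕ → ℝ} (lm : Monotone l) (h : ¬ Tendsto l atTop atTop) : ∃ R, ∀ i, l i < R := by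
  by_contra hR
  push Not at hR
  exact h (tendsto_atTop_atTop_of_monotone lm hR)

theorem nec {a b : ℝ} (hab : a < b) {g l : ℕ → ℝ} (gm : Monotone g) (gp : ∀ i, 0 < g i)
    (lm : Monotone l) (lp : ∀ i, 0 < l i) {δ : ℝ}
    (hδ : 0 < δ) (H : ∀ K : ℕ, 0 < K → ∃ n, δ * K * PS g n < PS l (K * n)) :
    ∃ (f : ℝ → ℝ) (V : ℝ), Bd a b f g V ∧ ∃ η > 0, ∀ m, ¬ Bd a b f (fun i => l (i + m)) η := by
  by_cases lt : Tendsto l atTop atTop
  · refine nec1 hab gm gp lp ?_ lt hδ H
    by_contra gt
    obtain ⟨R, hR⟩ := bdd gm gt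
    have hR0 : 0 < R := (gp 0).trans (hR 0)
    obtain ⟨n0, hn0⟩ := ces lt (show 0 < δ / R by positivity)
    obtain ⟨n, hn⟩ := H (n0 + 1) (by omega)
    rcases Nat.eq_zero_or_pos n with rfl | h
    · simp [PS] at hn
    have h1 := hn0 ((n0 + 1) * n) (by nlinarith)
    have h2 := PS_ge gm gp n
    have h3 : 1 / R ≤ 1 / g n := one_div_le_one_div_of_le (gp n) (hR n).le
    have h4 : n * (1 / R) ≤ PS g n := (mul_le_mul_of_nonneg_left h3 (Nat.cast_nonneg n)).trans h2
    have h5 := mul_le_mul_of_nonneg_left h4 (show 0 ≤ δ * ((n0 + 1 : ℕ) : ℝ) by positivity)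
    have h6 : δ / R * (((n0 + 1) * n : ℕ) : ℝ) = δ * ((n0 + 1 : ℕ) : ℝ) * (n * (1 / R)) := by
      push_cast; ring
    linarith
  · obtain ⟨R, hR⟩ := bdd lm lt
    have hR0 : 0 < R := (lp 0).trans (hR 0)
    have hd : 0 < b - a := by linarith
    refine ⟨id, (b - a) / g 0, fun S r hS _ => ?_, (b - a) / R, by positivity, fun m hB => ?_⟩
    · refine le_trans (sum_le_sum (g := fun p : ℝ × ℝ => (p.2 - p.1) / g 0) fun p hp => ?_) ?_
      · have := (hS.1 p hp).2.1
        simp only [val, id]
        rw [abs_of_pos (by linarith)]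
        exact div_le_div_of_nonneg_left (by linarith) (gp 0) (gm (Nat.zero_le _))
      · rw [← sum_div]; exact div_le_div_of_nonneg_right (total_len hab.le hS) (gp 0).le
    · have := hB {(a, b)} (fun _ => 0) ⟨by simp [hab], by simp⟩ (by simp)
      simp only [W, sum_singleton, val, id, abs_of_pos hd] at this
      exact absurd this (not_le.2 (div_lt_div_of_pos_left hd (lp _) (hR _)))

end Pool.Agent.H43.Wat
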