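import Pool.Agent.H43.WcoDefs

open Set Filter Topology Metric Function
open scoped ContDiff

namespace Pool.Agent.H43.Wco

variable {𝕂 : Type} [RCLike 𝕂] {d : ℕ} {Ω : Set (E d)} {w : E d → 𝕂} {ψ : E d → E d}

lemma iter (n : ℕ) (f : E d → 𝕂) (x : E d) : (T w ψ)^[n] f x = (T w ψ)^[n] 1 x * f (ψ^[n] x) := by
  induction n generalizing x with
  | zero => simp
  | succ n ih => rw [iterate_succ_apply', iterate_succ_apply', T, T, ih, mul_assoc]; rfl

lemma memC (H : Data Ω w ψ) {f : E d → 𝕂} (hf : f ∈ C 𝕂 Ω) (n : ℕ) : (T w ψ)^[n] f ∈ C 𝕂 Ω := by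
  induction n with
  | zero => exact hf
  | succ n ih => rw [iterate_succ_apply']; exact H.2.1.mul (ih.comp H.2.2.1 H.2.2.2)

lemma eqOn_iter (H : Data Ω w ψ) {f g : E d → 𝕂} (h : EqOn f g Ω) (n : ℕ) :
    EqOn ((T w ψ)^[n] f) ((T w ψ)^[n] g) Ω := fun x hx => by
  rw [iter, iter n g, h (H.2.2.2.iterate n hx)]

lemma per_mul (H : Data Ω w ψ) {f : E d → 𝕂} {N m : ℕ} (h : EqOn ((T w ψ)^[N] f) f Ω) (hm : N ∣ m) :
    EqOn ((T w ψ)^[m] f) f Ω := by
  obtain ⟨j, rfl⟩ := hm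
  induction j with
  | zero => exact fun _ _ => rfl
  | succ j ih => rw [mul_add_one, iterate_add_apply]; exact (eqOn_iter H h _).trans ih

lemma dns_near {A : Set (E d → 𝕂)} (h : Dns Ω A) {f : E d → 𝕂} (hf : f ∈ C 𝕂 Ω) {L : Set (E d)}
    (hL : IsCompact L) (hLΩ : L ⊆ Ω) (n : ℕ) {ε : ℝ} (hε : 0 < ε) :
    ∃ g ∈ A, g ∈ C 𝕂 Ω ∧ Near L n ε f g := by
  obtain ⟨g, ⟨a, e, b, c⟩, hg⟩ := h {g ∈ C 𝕂 Ω | ∃ e < ε, Near L n e f g} ⟨sep_subset _ _,
    fun g ⟨_, e, b, c⟩ => ⟨L, hL, hLΩ, n, (ε - e) / 2, by linarith, fun k hk h => ⟨hk, (ε + e) / 2,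
      by linarith, fun j hj σ x hx => by
        linarith [c j hj σ x hx, h j hj σ x hx, norm_sub_le_norm_sub_add_norm_sub (D j σ f x)
          (D j σ g x) (D j σ k x)]⟩⟩⟩ ⟨f, hf, ε / 2, by linarith, fun _ _ _ _ _ => by simpa⟩
  exact ⟨g, hg, a, fun j hj σ x hx => (c j hj σ x hx).trans b⟩

lemma Near.zero {L : Set (E d)} {n : ℕ} {ε : ℝ} {f g : E d → 𝕂} (h : Near L n ε f g) {x : E d}
    (hx : x ∈ L) : ‖f x - g x‖ < ε := by simpa [D] using h 0 (by simp) Fin.elim0 x hx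

lemma Near.congr {L : Set (E d)} {n : ℕ} {ε : ℝ} {f g k : E d → 𝕂} (h : Near L n ε f g)
    (e : ∀ x ∈ L, k =ᶠ[𝓝 x] g) : Near L n ε f k := fun j hj σ x hx => by
  rw [D, D, ((e x hx).iteratedFDeriv ℝ j).self_of_nhds]; exact h j hj σ x hx

lemma no_per (H : Data Ω w ψ) (ht : Transitive Ω (T w ψ)) {z : E d} (hz : z ∈ Ω) (s : ℕ) :
    ψ^[s + 1] z ≠ z := fun e => by
  let P : (E d → 𝕂) → ℝ := fun f => ‖∏ i : Fin (s + 1), f (ψ^[i] z)‖
  have op : ∀ W : Set ℝ, IsOpen W → Op Ω {f ∈ C 𝕂 Ω | P f ∈ W} := fun W hW => ⟨sep_subset _ _,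
    fun f hf => by
      obtain ⟨ε, e0, h⟩ := Metric.isOpen_iff.1 (hW.preimage (f := fun v : Fin (s + 1) → 𝕂 => ‖∏ i, v i‖)
        (by fun_prop)) (fun i => f (ψ^[i] z)) hf.2
      refine ⟨range fun i : Fin (s + 1) => ψ^[i] z, (finite_range _).isCompact,
        range_subset_iff.2 fun i => H.2.2.2.iterate _ hz, 0, ε, e0, fun g hg k => ⟨hg, h ?_⟩⟩
      exact (dist_pi_lt_iff e0).2 fun i => by rw [dist_comm, dist_eq_norm]; exact k.zero ⟨i, rfl⟩⟩
  have st : ∀ f, P (T w ψ f) = P w * P f := fun f => by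
    simp only [P, T, Finset.prod_mul_distrib, norm_mul, ← iterate_succ_apply' ψ]
    congr 2
    rw [Fin.prod_univ_castSucc, Fin.prod_univ_succ, mul_comm]
    simp only [Fin.val_last, Nat.succ_eq_add_one, e]; rfl
  have it : ∀ n f, P ((T w ψ)^[n] f) = P w ^ n * P f := fun n f => by
    induction n with
    | zero => simp
    | succ n ih => rw [iterate_succ_apply', st, ih]; ring
  have n1 : {f ∈ C 𝕂 Ω | P f ∈ Iio 1}.Nonempty := ⟨fun _ => 0, contDiffOn_const, by simp [P]⟩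
  have n2 : {f ∈ C 𝕂 Ω | P f ∈ Ioi 1}.Nonempty := ⟨fun _ => 2, contDiffOn_const, by
    simpa [P] using one_lt_pow₀ one_lt_two s.succ_ne_zero⟩
  have p0 : ∀ f, 0 ≤ P f := fun f => norm_nonneg _
  rcases le_total (P w) 1 with h | h
  · obtain ⟨n, g, a, b⟩ := ht _ _ (op _ isOpen_Iio) (op _ isOpen_Ioi) n1 n2
    have := b.2; rw [it] at this
    nlinarith [pow_le_one₀ (n := n) (p0 w) h, mem_Iio.1 a.2, mem_Ioi.1 this, p0 g]
  · obtain ⟨n, g, a, b⟩ := ht _ _ (op _ isOpen_Ioi) (op _ isOpen_Iio) n2 n1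
    have := b.2; rw [it] at this
    nlinarith [one_le_pow₀ (n := n) h, mem_Ioi.1 a.2, mem_Iio.1 this]

lemma iter_cont (H : Data Ω w ψ) (n : ℕ) : ContinuousOn ψ^[n] Ω := by
  induction n with
  | zero => exact continuousOn_id
  | succ n ih => exact ih.comp H.2.2.1.continuousOn H.2.2.2

theorem sra (H : Data Ω w ψ) (hc : Chaotic Ω (T w ψ)) {K : Set (E d)} (hK : IsCompact K)
    (hKΩ : K ⊆ Ω) : ∀ᶠ n in atTop, ∀ x ∈ K, ψ^[n] x ∉ K := by
  by_contra hn
  simp only [not_eventually, not_forall, not_not] at hn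
  obtain ⟨r, r0, hr⟩ := hK.exists_cthickening_subset_open H.1 hKΩ
  set L := cthickening r K
  have hL : IsCompact L := hK.cthickening
  have KL : K ⊆ L := self_subset_cthickening K
  obtain ⟨c, c0, hc0⟩ := hL.isBounded.exists_pos_norm_le
  obtain ⟨θ, θ0, θ1, θ2, θ3⟩ : ∃ θ : ℝ, 0 < θ ∧ θ ≤ 1 / 2 ∧ θ ≤ r / 8 ∧ d * θ ≤ 1 / 2 := by
    refine ⟨min (r / 8) (1 / (2 * (d + 1))), by positivity, (min_le_right _ _).trans (by
      gcongr; linarith [Nat.cast_nonneg (α := ℝ) d]), min_le_left _ _,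
      (mul_le_mul_of_nonneg_left (min_le_right _ _) d.cast_nonneg).trans ?_⟩
    rw [mul_one_div, div_le_div_iff₀ (by positivity) (by positivity)]; linarith
  set ε := θ / (2 * c + 2)
  have ε0 : 0 < ε := by positivity
  have ε1 : ε * (2 * c + 2) = θ := div_mul_cancel₀ _ (by positivity)
  let t : Option (Fin d) → E d → 𝕂 := fun o y => o.elim 1 fun i => (y i : ℝ)
  have tC : ∀ o, ContDiff ℝ ∞ (t o) := fun o => by
    cases o
    exacts [contDiff_const, (RCLike.ofRealCLM (K := 𝕂)).contDiff.comp (contDiff_apply ℝ ℝ _)]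
  choose f fp fC fN using fun o => dns_near hc.2 (tC o).contDiffOn hL hr 1 ε0
  choose N N1 fp using fp
  have f0 : ∀ y ∈ L, ‖1 - f none y‖ < ε := fun y hy => (fN none).zero hy
  have f1 : ∀ y ∈ L, 1 / 2 ≤ ‖f none y‖ := fun y hy => by
    have := norm_sub_norm_le (1 : 𝕂) (f none y)
    rw [norm_one] at this; nlinarith [f0 y hy]
  have f2 : ∀ y ∈ L, ∀ i a, f (some i) y = a * f none y →
      ε * (1 + ‖a‖) ≤ θ ∧ ‖((y i : ℝ) : 𝕂) - a‖ ≤ θ := fun y hy i a h => by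
    have i1 : ‖((y i : ℝ) : 𝕂) - f (some i) y‖ < ε := (fN (some i)).zero hy
    have i2 : ‖((y i : ℝ) : 𝕂)‖ ≤ c := by
      rw [RCLike.norm_ofReal]; exact (norm_le_pi_norm y i).trans (hc0 y hy)
    have i3 := norm_sub_norm_le (f (some i) y) (y i : ℝ)
    rw [norm_sub_rev, h, norm_mul] at i3
    rw [h] at i1
    have i4 : ‖a‖ ≤ 2 * c + 1 := by nlinarith [f1 y hy, norm_nonneg a]
    have i5 : ε * (1 + ‖a‖) ≤ θ := by nlinarith
    refine ⟨i5, ?_⟩
    rw [show ((y i : ℝ) : 𝕂) - a = (y i : ℝ) - a * f none y - a * (1 - f none y) by ring]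
    refine (norm_sub_le _ _).trans ?_
    rw [norm_mul]; nlinarith [f0 y hy, norm_nonneg a]
  set M := ∏ o, N o
  have M0 : 0 < M := Finset.prod_pos fun o _ => N1 o
  have fM : ∀ o m, M ∣ m → EqOn ((T w ψ)^[m] (f o)) (f o) Ω := fun o m h =>
    per_mul H (fp o) ((Finset.dvd_prod_of_mem N (Finset.mem_univ o)).trans h)
  obtain ⟨n', mono', hn'⟩ := extraction_of_frequently_atTop hn
  choose x' hx' hy' using hn'
  obtain ⟨⟨p, q, ρ⟩, ⟨hp, hq, hρ⟩, κ, κm, lim⟩ := (hK.prod (hK.prod (finite_Iio M).isCompact)).tendsto_subseq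
    (x := fun k => (x' k, ψ^[n' k] (x' k), n' k % M)) fun k => ⟨hx' k, hy' k, Nat.mod_lt _ M0⟩
  dsimp only at hp hq hρ
  set n := n' ∘ κ
  have mono : StrictMono n := mono'.comp κm
  set x := x' ∘ κ
  have hx : ∀ k, x k ∈ K := fun k => hx' _
  have hy : ∀ k, ψ^[n k] (x k) ∈ K := fun k => hy' _
  have lx : Tendsto x atTop (𝓝 p) := (continuous_fst.tendsto _).comp lim
  have ly : Tendsto (fun k => ψ^[n k] (x k)) atTop (𝓝 q) := (continuous_snd.fst.tendsto _).comp lim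
  have lρ : ∀ᶠ k in atTop, n k % M = ρ := ((continuous_snd.snd.tendsto _).comp lim).eventually
    (show ∀ᶠ a in 𝓝 ρ, a = ρ by simp)
  clear lim
  have ca : ∀ o m, ∀ y ∈ K, ContinuousAt ((T w ψ)^[m] (f o)) y := fun o m y hy =>
    (memC H (fC o) m).continuousOn.continuousAt (H.1.mem_nhds (hKΩ hy))
  have g1 : ∀ k, n k % M = ρ → ∀ o, ∀ y ∈ Ω,
      (T w ψ)^[ρ] (f o) y = (T w ψ)^[n k] 1 y * f o (ψ^[n k] y) := fun k hk o y hy => by
    rw [← iter, ← Nat.mod_add_div (n k) M, hk, iterate_add_apply]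
    exact (eqOn_iter H (fM o _ (dvd_mul_right _ _)) ρ hy).symm
  by_cases g0 : (T w ψ)^[ρ] (f none) p = 0
  · have := ((((ca none ρ p hp).tendsto.comp lx).mul
      ((ca none (M - ρ) q hq).tendsto.comp ly)).norm).eventually (gt_mem_nhds (a := 1 / 4) (by simp [g0]))
    obtain ⟨k, a, b⟩ := (this.and lρ).exists
    have e := fM none (n k + (M - ρ)) (by
      refine ⟨n k / M + 1, ?_⟩
      have := Nat.mod_add_div (n k) M
      have : ρ < M := hρ
      rw [mul_add_one]; omega) (hKΩ (hx k))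
    rw [iterate_add_apply, iter] at e
    simp only [comp, g1 k b none _ (hKΩ (hx k))] at a
    rw [mul_right_comm, e, norm_mul] at a
    nlinarith [f1 _ (KL (hx k)), f1 _ (KL (hy k))]
  let a : E d → Fin d → 𝕂 := fun y i => (T w ψ)^[ρ] (f (some i)) y / (T w ψ)^[ρ] (f none) y
  obtain ⟨η, η0, hη⟩ := Metric.eventually_nhds_iff_ball.1 (((H.1.eventually_mem (hKΩ hp)).and
    ((ca none ρ p hp).eventually_ne g0)).and ((show ContinuousAt a p from continuousAt_pi.2 fun i =>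
      (ca _ ρ p hp).div (ca _ ρ p hp) g0).eventually (ball_mem_nhds _ (show 0 < r / 8 by positivity))))
  have rel : ∀ k, n k % M = ρ → ∀ y ∈ ball p η, ∀ i,
      f (some i) (ψ^[n k] y) = a y i * f none (ψ^[n k] y) := fun k hk y hy i => by
    obtain ⟨⟨h1, h2⟩, -⟩ := hη y hy
    simp only [a, g1 k hk _ _ h1] at h2 ⊢
    have := left_ne_zero_of_mul h2
    have := right_ne_zero_of_mul h2
    field_simp
  have inB : ∀ᶠ k in atTop, n k % M = ρ ∧ ψ^[n k] p ∈ closedBall q r := by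
    filter_upwards [lρ, lx.eventually (ball_mem_nhds p η0),
      ly.eventually (ball_mem_nhds q (half_pos r0))] with k h1 h2 h3
    have key : ∀ y ∈ ball p η, dist (ψ^[n k] y) (ψ^[n k] (x k)) ≤ r →
        dist (ψ^[n k] y) (ψ^[n k] (x k)) ≤ r / 2 := fun y hy' h => by
      refine (dist_pi_le_iff (by positivity)).2 fun i => ?_
      have i1 := (f2 _ (mem_cthickening_of_dist_le _ _ _ _ (hy k) h) i _ (rel k h1 y hy' i)).2
      have i2 := (f2 _ (KL (hy k)) i _ (rel k h1 _ h2 i)).2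
      have i3 := (dist_le_pi_dist _ _ i).trans_lt (hη y hy').2
      have i4 := (dist_le_pi_dist _ _ i).trans_lt (hη _ h2).2
      rw [← dist_eq_norm] at i1 i2
      rw [← RCLike.ofRealLI (K := 𝕂).dist_map]
      simp only [RCLike.ofRealLI_apply]
      linarith [dist_triangle4_right (((ψ^[n k] y) i : ℝ) : 𝕂) ((ψ^[n k] (x k)) i : ℝ) (a y i) (a (x k) i),
        dist_triangle_right (a y i) (a (x k) i) (a p i)]
    refine ⟨h1, ?_⟩
    have : dist (ψ^[n k] p) (ψ^[n k] (x k)) ≤ r := by_contra fun h => by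
      obtain ⟨y, hy, e⟩ := (convex_ball p η).isPreconnected.intermediate_value h2 (mem_ball_self η0)
        (f := fun y => dist (ψ^[n k] y) (ψ^[n k] (x k)))
        ((continuous_id.dist continuous_const).comp_continuousOn
          ((iter_cont H _).mono fun y hy => (hη y hy).1.1))
        (show r ∈ _ from ⟨by simp [r0.le], (not_le.1 h).le⟩)
      linarith [key y hy e.le, show dist _ _ = r from e]
    rw [mem_closedBall]
    linarith [key p (mem_ball_self η0) this, mem_ball.1 h3, dist_triangle (ψ^[n k] p) (ψ^[n k] (x k)) q]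
  obtain ⟨k, hk⟩ := eventually_atTop.1 inB
  obtain ⟨a1, b1⟩ := hk k le_rfl
  obtain ⟨a2, b2⟩ := hk (k + 1) (by omega)
  have BL : closedBall q r ⊆ L := closedBall_subset_cthickening hq r
  have : ψ^[n (k + 1)] p = ψ^[n k] p := by
    have r1 := rel _ a1 p (mem_ball_self η0)
    have r2 := rel _ a2 p (mem_ball_self η0)
    generalize ψ^[n k] p = y at *
    generalize ψ^[n (k + 1)] p = z at *
    suffices ‖z - y‖ ≤ 1 / 2 * ‖z - y‖ from sub_eq_zero.1 (norm_le_zero_iff.1 (by linarith))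
    refine (pi_norm_le_iff_of_nonneg (by positivity)).2 fun i => ?_
    have df : ∀ o, ∀ v ∈ closedBall q r, DifferentiableAt ℝ (f o) v := fun o v hv =>
      ((fC o).contDiffAt (H.1.mem_nhds (hr (BL hv)))).differentiableAt (by simp)
    have dt : ∀ o v, DifferentiableAt ℝ (t o) v := fun o v => (tC o).differentiable (by simp) v
    have := (convex_closedBall q r).norm_image_sub_le_of_norm_hasFDerivWithin_le (C := 1 / 2)
      (f := fun v => t (some i) v - f (some i) v - a p i * (t none v - f none v))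
      (fun v hv => (((dt _ v).hasFDerivAt.sub (df _ v hv).hasFDerivAt).sub
        (((dt _ v).hasFDerivAt.sub (df _ v hv).hasFDerivAt).const_mul _)).hasFDerivWithinAt)
      (fun v hv => ContinuousLinearMap.opNorm_le_bound _ (by norm_num) fun u => by
        rw [pi_eq_sum_univ' u, map_sum, ← pi_eq_sum_univ' u]
        refine (norm_sum_le_of_le _ (n := fun _ => ‖u‖ * θ) fun j _ => ?_).trans (by
          simp only [Finset.sum_const, Finset.card_univ, Fintype.card_fin, nsmul_eq_mul]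
          nlinarith [norm_nonneg u])
        rw [map_smul, norm_smul]
        refine mul_le_mul (norm_le_pi_norm u j) ?_ (norm_nonneg _) (norm_nonneg _)
        have i1 := fN (some i) 1 le_rfl (fun _ => j) v (BL hv)
        have i2 := fN none 1 le_rfl (fun _ => j) v (BL hv)
        simp only [D, iteratedFDeriv_one_apply] at i1 i2
        simp only [_root_.smul_apply, _root_.sub_apply]
        refine (norm_sub_le _ _).trans ?_
        rw [norm_smul]
        nlinarith [(f2 _ (BL b1) i _ (r1 i)).1, norm_nonneg (a p i)]) b1 b2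
    simp only [t, Option.elim, r1, r2] at this
    rw [Pi.sub_apply, Real.norm_eq_abs, ← RCLike.norm_ofReal (K := 𝕂), RCLike.ofReal_sub]
    refine le_trans (le_of_eq ?_) this
    congr 1; ring
  obtain ⟨s, hs⟩ := Nat.exists_eq_add_of_lt (mono (Nat.lt_succ_self k))
  rw [hs, add_assoc, add_comm, iterate_add_apply] at this
  exact no_per H hc.1 (hr (BL b1)) s this

lemma bump (hΩ : IsOpen Ω) {K : Set (E d)} (hK : IsCompact K) (hKΩ : K ⊆ Ω) :
    ∃ K', IsCompact K' ∧ K ⊆ interior K' ∧ K' ⊆ Ω ∧ ∃ φ : E d → 𝕂, ContDiff ℝ ∞ φ ∧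
      (∀ x ∈ K, ∀ᶠ y in 𝓝 x, φ y = 1) ∧ ∀ x ∉ K', φ x = 0 := by
  obtain ⟨K', a, b, c⟩ := exists_compact_between hK hΩ hKΩ
  obtain ⟨φ, h1, h2, -⟩ := exists_contMDiffMap_one_nhds_of_subset_interior (n := ⊤)
    (modelWithCornersSelf ℝ (E d)) hK.isClosed b
  exact ⟨K', a, b, c, fun x => (φ x : ℝ), (RCLike.ofRealCLM (K := 𝕂)).contDiff.comp φ.contMDiff.contDiff,
    fun x hx => (h1.filter_mono (nhds_le_nhdsSet hx)).mono fun y h => by simp [h],
    fun x hx => by simp [h2 x hx]⟩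

theorem mixing (H : Data Ω w ψ) (hc : Chaotic Ω (T w ψ)) : Mixing Ω (T w ψ) := by
  rintro U V hU hV ⟨f, hf⟩ ⟨h0, hh⟩
  obtain ⟨L1, a1, b1, n1, ε1, c1, d1⟩ := hU.2 f hf
  obtain ⟨L2, a2, b2, n2, ε2, c2, d2⟩ := hV.2 h0 hh
  obtain ⟨h, ⟨N, N1, hN⟩, hC, hn⟩ := dns_near hc.2 (hV.1 hh) a2 b2 n2 c2
  obtain ⟨K, k1, k2, k3, φ, φ1, φ2, φ3⟩ := bump (𝕂 := 𝕂) H.1 (a1.union a2) (union_subset b1 b2)
  filter_upwards [sra H hc k1 k3] with n hn'
  set u := (T w ψ)^[N * n - n] h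
  have gC : (fun x => φ x * f x + (1 - φ x) * u x) ∈ C 𝕂 Ω :=
    (φ1.contDiffOn.mul (hU.1 hf)).add ((contDiff_const.sub φ1).contDiffOn.mul (memC H hC _))
  refine ⟨_, d1 _ gC (Near.congr (g := f) (fun _ _ _ _ _ => by simpa) fun x hx =>
    (φ2 x (Or.inl hx)).mono fun y e => by simp [e]), d2 _ (memC H gC n) (hn.congr fun x hx => ?_)⟩
  filter_upwards [mem_interior_iff_mem_nhds.1 (k2 (Or.inr hx))] with y hy
  rw [iter, φ3 _ (hn' y hy), zero_mul, zero_add, sub_zero, one_mul, ← iter, ← iterate_add_apply,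
    Nat.add_sub_cancel' (Nat.le_mul_of_pos_left n N1)]
  exact per_mul H hN (dvd_mul_right _ _) (k3 hy)

end Pool.Agent.H43.Wco
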