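import Pool.Agent.H43.Wco1

open Set Filter Topology Metric Function
open scoped ContDiff

namespace Pool.Agent.H43.Wco

variable {𝕂 : Type} [RCLike 𝕂] {d : ℕ} {Ω : Set (E d)} {ψ χ : E d → E d}

lemma exhaust (hΩ : IsOpen Ω) : ∃ X : ℕ → Set (E d), (∀ m, IsCompact (X m) ∧ X m ⊆ Ω) ∧ Monotone X ∧
    ∀ L, IsCompact L → L ⊆ Ω → ∃ m, L ⊆ X m := by
  haveI := hΩ.locallyCompactSpace
  let K := CompactExhaustion.choice Ω
  refine ⟨fun m => Subtype.val '' K m, fun m => ⟨(K.isCompact m).image continuous_subtype_val,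
    Subtype.coe_image_subset _ _⟩, fun a b h => image_mono (K.subset h), fun L a b => ?_⟩
  obtain ⟨m, hm⟩ := K.exists_superset_of_isCompact (s := Subtype.val ⁻¹' L)
    (by rwa [Subtype.isCompact_iff, Subtype.image_preimage_coe, inter_eq_right.2 b])
  exact ⟨m, fun x hx => ⟨⟨x, b hx⟩, hm hx, rfl⟩⟩

lemma sepa (hΩ : IsOpen Ω) {X : Set (E d)} (h1 : IsCompact X) (h2 : X ⊆ Ω) (m : ℕ) :
    ∃ G : ℕ → E d → 𝕂, (∀ i, G i ∈ C 𝕂 Ω) ∧ ∀ f ∈ C 𝕂 Ω, ∀ ε > 0, ∃ i, Near X m ε f (G i) := by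
  haveI := isCompact_iff_compactSpace.1 h1
  let J : C 𝕂 Ω → C(X, (Σ j : Fin (m + 1), Fin j → Fin d) → 𝕂) := fun f =>
    ⟨fun x s => D s.1 s.2 f.1 x, continuous_pi fun s => (continuousOn_iff_continuous_domRestrict
      (f := D s.1 s.2 f.1)).1 fun x hx => ((continuous_eval_const _).continuousAt.comp
        ((f.2.contDiffAt (hΩ.mem_nhds (h2 hx))).continuousAt_iteratedFDeriv
          (by exact_mod_cast le_top))).continuousWithinAt⟩
  obtain ⟨t, a, b, c⟩ := (TopologicalSpace.IsSeparable.of_separableSpace (range J)).exists_countable_dense_subset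
  obtain ⟨e, rfl⟩ := b.exists_eq_range (closure_nonempty_iff.1 ⟨_, c ⟨⟨0, contDiffOn_const⟩, rfl⟩⟩)
  choose G hG using fun i => a ⟨i, rfl⟩
  refine ⟨fun i => G i, fun i => (G i).2, fun f hf ε hε => ?_⟩
  obtain ⟨_, ⟨i, rfl⟩, h⟩ := Metric.mem_closure_iff.1 (c ⟨⟨f, hf⟩, rfl⟩) ε hε
  refine ⟨i, fun j hj σ x hx => ?_⟩
  rw [← hG i] at h
  rw [← dist_eq_norm]
  exact ((dist_le_pi_dist _ _ ⟨⟨j, by omega⟩, σ⟩).trans
    (ContinuousMap.dist_apply_le_dist (⟨x, hx⟩ : X))).trans_lt h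

theorem supercyclic (H : Data Ω (1 : E d → 𝕂) ψ) (H' : Data Ω (1 : E d → 𝕂) χ)
    (i1 : ∀ x ∈ Ω, ψ (χ x) = x) (i2 : ∀ x ∈ Ω, χ (ψ x) = x)
    (run : ∀ B, IsCompact B → B ⊆ Ω → ∃ n, ∀ x ∈ B, ψ^[n] x ∉ B) :
    Supercyclic Ω (T (1 : E d → 𝕂) ψ) := by
  have it : ∀ (ψ : E d → E d) n (f : E d → 𝕂) x, (T 1 ψ)^[n] f x = f (ψ^[n] x) := fun ψ n f x => by
    induction n generalizing x with
    | zero => rfl
    | succ n ih => rw [iterate_succ_apply', T, ih, Pi.one_apply, one_mul]; rfl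
  have j1 : ∀ n : ℕ, ∀ x ∈ Ω, ψ^[n] (χ^[n] x) = x := fun n => by
    induction n with
    | zero => simp
    | succ n ih => 
      intro x hx
      rw [iterate_succ_apply' χ, iterate_succ_apply, i1 _ (H'.2.2.2.iterate n hx), ih x hx]
  have j2 : ∀ n : ℕ, ∀ x ∈ Ω, χ^[n] (ψ^[n] x) = x := fun n => by
    induction n with
    | zero => simp
    | succ n ih => 
      intro x hx
      rw [iterate_succ_apply' ψ, iterate_succ_apply, i2 _ (H.2.2.2.iterate n hx), ih x hx]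
  obtain ⟨X, X1, X2, X3⟩ := exhaust H.1
  choose G G1 G2 using fun m => sepa (𝕂 := 𝕂) H.1 (X1 m).1 (X1 m).2 m
  choose K K1 K2 K3 φ φ1 φ2 φ3 using fun k : ℕ => bump (𝕂 := 𝕂) H.1 (X1 k.unpair.1).1 (X1 k.unpair.1).2
  choose! ra hra using run
  let A : ℕ → Set (E d) := fun k => Nat.rec ∅ (fun k A => A ∪ ψ^[ra (A ∪ X k ∪ K k)] '' K k) k
  let n : ℕ → ℕ := fun k => ra (A k ∪ X k ∪ K k)
  have As : ∀ k, A (k + 1) = A k ∪ ψ^[n k] '' K k := fun _ => rfl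
  have Ac : ∀ k, IsCompact (A k) ∧ A k ⊆ Ω := fun k => by
    induction k with
    | zero => exact ⟨isCompact_empty, empty_subset _⟩
    | succ k ih => exact ⟨ih.1.union ((K1 k).image_of_continuousOn ((iter_cont H _).mono (K3 k))),
        union_subset ih.2 ((H.2.2.2.iterate _).mono_left (K3 k)).image_subset⟩
  have Am : Monotone A := monotone_nat_of_le_succ fun k => subset_union_left
  have dj : ∀ k, ∀ x ∈ K k, ψ^[n k] x ∉ A k ∧ ψ^[n k] x ∉ X k := fun k x hx => by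
    have := hra _ (((Ac k).1.union (X1 k).1).union (K1 k))
      (union_subset (union_subset (Ac k).2 (X1 k).2) (K3 k)) x (Or.inr hx)
    exact ⟨fun h => this (Or.inl (Or.inl h)), fun h => this (Or.inl (Or.inr h))⟩
  let h : ℕ → E d → 𝕂 := fun k => (T 1 χ)^[n k] fun x => φ k x * G k.unpair.1 k.unpair.2 x
  have hC : ∀ k, h k ∈ C 𝕂 Ω := fun k => memC H' ((φ1 k).contDiffOn.mul (G1 _ _)) _
  have h0 : ∀ k, ∀ x ∈ Ω, h k x ≠ 0 → ∃ y ∈ K k, ψ^[n k] y = x := fun k x hx e =>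
    ⟨_, by_contra fun c => e (by simp only [h, it, φ3 k _ c, zero_mul]), j1 _ x hx⟩
  have gC : (fun x => ∑ᶠ k, h k x) ∈ C 𝕂 Ω := fun x hx => by
    obtain ⟨L, a, b, c⟩ := exists_compact_subset H.1 hx
    obtain ⟨m, hm⟩ := X3 L a c
    refine (ContDiffWithinAt.sum (s := Finset.range m) fun k _ => hC k x hx).congr_of_eventuallyEq_of_mem
      (Eventually.filter_mono nhdsWithin_le_nhds ?_) hx
    filter_upwards [mem_interior_iff_mem_nhds.1 b] with y hy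
    refine finsum_eq_sum_of_support_subset _ fun k hk => Finset.mem_coe.2 (Finset.mem_range.2 ?_)
    obtain ⟨z, hz, rfl⟩ := h0 k y (c hy) hk
    exact not_le.1 fun l => (dj k z hz).2 (X2 l (hm hy))
  refine ⟨_, gC, fun U hU ⟨f, hf⟩ => ?_⟩
  obtain ⟨L, a, b, m, ε, e0, hL⟩ := hU.2 f hf
  obtain ⟨m', hm⟩ := X3 L a b
  obtain ⟨i, hi⟩ := G2 (max m m') f (hU.1 hf) ε e0
  have LX : L ⊆ X (max m m') := hm.trans (X2 (le_max_right _ _))
  obtain ⟨k, rfl, hk⟩ : ∃ k : ℕ, k.unpair.2 = i ∧ k.unpair.1 = max m m' := ⟨Nat.pair (max m m') i, by simp⟩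
  rw [← hk] at LX
  refine ⟨_, hL _ (memC H gC (n k)) (Near.congr (g := G k.unpair.1 k.unpair.2) (fun j hj σ x hx => hk ▸
    hi j (hj.trans (le_max_left _ _)) σ x (hk ▸ LX hx)) fun x hx => ?_), 1, n k, (one_smul _ _).symm⟩
  filter_upwards [mem_interior_iff_mem_nhds.1 (K2 k (LX hx)), φ2 k x (LX hx)] with y hy e
  rw [it, finsum_eq_single _ k fun j ne => by_contra fun c => ?_]
  · simp only [h, it, j2 _ y (K3 k hy), e, one_mul]
  · obtain ⟨z, hz, q⟩ := h0 j _ (H.2.2.2.iterate _ (K3 k hy)) c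
    rcases lt_or_gt_of_ne ne with l | l
    · exact (dj k y hy).1 (Am l (Or.inr ⟨z, hz, q⟩))
    · exact (dj j z hz).1 (Am l (Or.inr ⟨y, hy, q.symm⟩))

end Pool.Agent.H43.Wco
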