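import Mathlib

open Set Filter
open scoped ContDiff

namespace Pool.Agent.H43.Wco

variable {𝕂 : Type} [RCLike 𝕂] {d : ℕ}

abbrev E (d : ℕ) := Fin d → ℝ

/-- smooth functions on `Ω` (values outside `Ω` play no role) -/
def C (𝕂 : Type) [RCLike 𝕂] (Ω : Set (E d)) : Set (E d → 𝕂) := {f | ContDiffOn ℝ ∞ f Ω}

/-- the iterated directional derivative along the coordinate directions `σ 0, …, σ (j-1)` -/
noncomputable def D (j : ℕ) (σ : Fin j → Fin d) (f : E d → 𝕂) (x : E d) : 𝕂 :=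
  iteratedFDeriv ℝ j f x fun i => Pi.single (σ i) 1

/-- all derivatives of order at most `n` of `f` and `g` are `ε`-close on `L` -/
def Near (L : Set (E d)) (n : ℕ) (ε : ℝ) (f g : E d → 𝕂) : Prop :=
  ∀ j ≤ n, ∀ σ, ∀ x ∈ L, ‖D j σ f x - D j σ g x‖ < ε

/-- open subsets of `C^∞(Ω)` -/
def Op (Ω : Set (E d)) (U : Set (E d → 𝕂)) : Prop :=
  U ⊆ C 𝕂 Ω ∧ ∀ f ∈ U, ∃ L, IsCompact L ∧ L ⊆ Ω ∧ ∃ n, ∃ ε > 0, ∀ g ∈ C 𝕂 Ω, Near L n ε f g → g ∈ U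

/-- dense subsets of `C^∞(Ω)` -/
def Dns (Ω : Set (E d)) (A : Set (E d → 𝕂)) : Prop :=
  ∀ U, Op Ω U → U.Nonempty → (U ∩ A).Nonempty

/-- the weighted composition operator -/
def T (w : E d → 𝕂) (ψ : E d → E d) (f : E d → 𝕂) : E d → 𝕂 := fun x => w x * f (ψ x)

def Transitive (Ω : Set (E d)) (S : (E d → 𝕂) → E d → 𝕂) : Prop :=
  ∀ U V, Op Ω U → Op Ω V → U.Nonempty → V.Nonempty → ∃ n, ∃ g ∈ U, S^[n] g ∈ V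

def Mixing (Ω : Set (E d)) (S : (E d → 𝕂) → E d → 𝕂) : Prop :=
  ∀ U V, Op Ω U → Op Ω V → U.Nonempty → V.Nonempty → ∀ᶠ n in atTop, ∃ g ∈ U, S^[n] g ∈ V

def Chaotic (Ω : Set (E d)) (S : (E d → 𝕂) → E d → 𝕂) : Prop :=
  Transitive Ω S ∧ Dns Ω {f | ∃ n, 1 ≤ n ∧ EqOn (S^[n] f) f Ω}

def Supercyclic (Ω : Set (E d)) (S : (E d → 𝕂) → E d → 𝕂) : Prop :=
  ∃ g ∈ C 𝕂 Ω, Dns Ω {f | ∃ (a : 𝕂) (n : ℕ), f = a • S^[n] g}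

/-- `Ω` is open, `w` and `ψ` are smooth on `Ω`, and `ψ` maps `Ω` into itself -/
def Data (Ω : Set (E d)) (w : E d → 𝕂) (ψ : E d → E d) : Prop :=
  IsOpen Ω ∧ ContDiffOn ℝ ∞ w Ω ∧ ContDiffOn ℝ ∞ ψ Ω ∧ MapsTo ψ Ω Ω

end Pool.Agent.H43.Wco
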