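import Pool.Agent.H43.HarmDefs
import Pool.Agent.H43.RW

set_option autoImplicit false

namespace Pool.Agent.H43.ZCover

open Finset Filter Topology MeasureTheory Pool.Agent.H43.Harm Pool.Agent.H45.Chain
open scoped ENNReal

abbrev V := Bool × ℕ × ℤ

def lev (j : ℕ) : ℕ := Nat.log 2 (j + 1)
def psi (n : ℕ) : ℤ := ((Nat.unpair n).1.unpair.1 : ℤ) - (Nat.unpair n).1.unpair.2
def sig (n : ℕ) : ℤ := psi (n + 1) - psi n
def L (n : ℕ) : Finset ℕ := Ico (2 ^ n - 1) (2 ^ (n + 1) - 1)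

lemma mem_L {j n : ℕ} : j ∈ L n ↔ lev j = n := by
  have h1 : 0 < 2 ^ n := by positivity
  have h2 : 0 < 2 ^ (n + 1) := by positivity
  rw [L, lev, mem_Ico, Nat.log_eq_iff (Or.inr ⟨by norm_num, by omega⟩)]
  omega

lemma card_L (n : ℕ) : (L n).card = 2 ^ n := by
  have h1 : 0 < 2 ^ n := by positivity
  rw [L, Nat.card_Ico, pow_succ]; omega

def rep (n : ℕ) : ℕ := 2 ^ n - 1

lemma lev_rep (n : ℕ) : lev (rep n) = n := by
  have h1 : 0 < 2 ^ n := by positivity
  rw [← mem_L, L, mem_Ico, rep, pow_succ]; omega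

lemma sig_one : sig 1 = -1 := by
  have h1 : Nat.unpair 1 = (0, 1) := Nat.unpair_pair 0 1
  have h2 : Nat.unpair 2 = (1, 0) := Nat.unpair_pair 1 0
  have h0 : Nat.unpair 0 = (0, 0) := Nat.unpair_pair 0 0
  simp [sig, psi, h1, h2, h0]

lemma psi_often (v : ℤ) (m : ℕ) : ∃ n, m ≤ n ∧ psi n = v :=
  ⟨Nat.pair (Nat.pair v.toNat (-v).toNat) m, Nat.right_le_pair _ _, by
    simp only [psi, Nat.unpair_pair]; omega⟩

def E (x y : V) : Prop := y.1 = false ∧
  ((x.1 = false ∧ lev y.2.1 = lev x.2.1 + 1 ∧ y.2.2 = x.2.2) ∨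
   (x.1 = true ∧ ((lev y.2.1 = x.2.1 ∧ y.2.2 = x.2.2) ∨
     (lev y.2.1 = x.2.1 + 1 ∧ y.2.2 = x.2.2 + sig x.2.1))))

def G : SimpleGraph V where
  Adj x y := E x y ∨ E y x
  symm := ⟨fun _ _ h => h.symm⟩
  loopless := ⟨fun x h => by
    obtain ⟨h1, h | h⟩ := h.elim id id
    · omega
    · rw [h1] at h; exact absurd h.1 (by simp)⟩

def layer (n : ℕ) (z : ℤ) : Finset V := (L n).image fun j => (false, j, z)

lemma mem_layer {n : ℕ} {z : ℤ} {y : V} :
    y ∈ layer n z ↔ y.1 = false ∧ lev y.2.1 = n ∧ y.2.2 = z := by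
  obtain ⟨b, j, w⟩ := y
  simp only [layer, mem_image, mem_L, Prod.mk.injEq]
  constructor
  · rintro ⟨a, h, rfl, rfl, rfl⟩; exact ⟨rfl, h, rfl⟩
  · rintro ⟨rfl, h, rfl⟩; exact ⟨j, h, rfl, rfl, rfl⟩

def nb (n : ℕ) (z : ℤ) : Finset V := match n with
  | 0 => insert (true, 0, z) (layer 1 z)
  | n + 1 => insert (true, n + 1, z) (insert (true, n, z - sig n) (layer (n + 2) z ∪ layer n z))

def nbr (x : V) : Finset V :=
  if x.1 = true then layer x.2.1 x.2.2 ∪ layer (x.2.1 + 1) (x.2.2 + sig x.2.1)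
  else nb (lev x.2.1) x.2.2

lemma mem_nbr (x y : V) : y ∈ nbr x ↔ G.Adj x y := by
  obtain ⟨b, j, z⟩ := x
  obtain ⟨b', j', z'⟩ := y
  cases b
  · simp only [nbr, G, E, Bool.false_eq_true, if_false]
    generalize lev j = n
    cases n with
    | zero =>
      cases b' <;> simp [nb, mem_layer] <;> omega
    | succ n =>
      cases b'
      · simp [nb, mem_layer]; omega
      · simp only [nb, mem_insert, Prod.mk.injEq, true_and, mem_union, mem_layer,
          Bool.true_eq_false, false_and, or_false, false_or, Nat.add_right_cancel_iff]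
        constructor
        · rintro (⟨rfl, rfl⟩ | ⟨rfl, rfl⟩)
          · exact Or.inl ⟨rfl, rfl⟩
          · exact Or.inr ⟨rfl, by ring⟩
        · rintro (⟨rfl, rfl⟩ | ⟨rfl, rfl⟩)
          · exact Or.inl ⟨rfl, rfl⟩
          · exact Or.inr ⟨rfl, by ring⟩
  · cases b' <;> simp [nbr, G, E, mem_layer]

noncomputable instance GLF : G.LocallyFinite := fun x => Fintype.ofFinset (nbr x) (mem_nbr x)

lemma nbr_eq (x : V) : G.neighborFinset x = nbr x := by
  ext y; rw [mem_nbr, SimpleGraph.mem_neighborFinset]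

lemma sum_layer (φ : V → ℝ) (n : ℕ) (z : ℤ) (c : ℝ) (h : ∀ j, lev j = n → φ (false, j, z) = c) :
    ∑ y ∈ layer n z, φ y = 2 ^ n * c := by
  rw [layer, sum_image (fun a _ b _ hab => by simpa using hab),
    sum_congr rfl fun j hj => h j (mem_L.1 hj), sum_const, card_L, nsmul_eq_mul]
  push_cast; rfl

lemma disj_layer {n m : ℕ} (h : n ≠ m) (z w : ℤ) : Disjoint (layer n z) (layer m w) :=
  disjoint_left.2 fun y h1 h2 => h ((mem_layer.1 h1).2.1.symm.trans (mem_layer.1 h2).2.1)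

section sums
variable (φ : V → ℝ) (c : ℕ → ℤ → ℝ) (h : ∀ j z, φ (false, j, z) = c (lev j) z)
include h

lemma sum_w (n : ℕ) (z : ℤ) : ∑ y ∈ G.neighborFinset (true, n, z), φ y =
    2 ^ n * c n z + 2 ^ (n + 1) * c (n + 1) (z + sig n) := by
  rw [nbr_eq, nbr, if_pos rfl, sum_union (disj_layer (by simp) _ _),
    sum_layer φ _ _ _ (fun j hj => by rw [h, hj]), sum_layer φ _ _ _ (fun j hj => by rw [h, hj])]

lemma sum_zero (j : ℕ) (hj : lev j = 0) (z : ℤ) : ∑ y ∈ G.neighborFinset (false, j, z), φ y =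
    φ (true, 0, z) + 2 * c 1 z := by
  rw [nbr_eq, nbr, if_neg (by simp)]
  simp only [hj, nb]
  rw [sum_insert (by simp [mem_layer]), sum_layer φ _ _ _ (fun j hj => by rw [h, hj]), pow_one]

lemma sum_succ (j n : ℕ) (hj : lev j = n + 1) (z : ℤ) :
    ∑ y ∈ G.neighborFinset (false, j, z), φ y =
    φ (true, n + 1, z) + (φ (true, n, z - sig n) + (2 ^ (n + 2) * c (n + 2) z + 2 ^ n * c n z)) := by
  rw [nbr_eq, nbr, if_neg (by simp)]
  simp only [hj, nb]
  rw [sum_insert (by simp [mem_layer]), sum_insert (by simp [mem_layer]),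
    sum_union (disj_layer (by simp) _ _),
    sum_layer φ _ _ _ (fun j hj => by rw [h, hj]), sum_layer φ _ _ _ (fun j hj => by rw [h, hj])]

end sums

lemma deg_eq (x : V) : (G.degree x : ℝ) = ∑ _y ∈ G.neighborFinset x, (1 : ℝ) := by simp

lemma deg_w (n : ℕ) (z : ℤ) : (G.degree (true, n, z) : ℝ) = 3 * 2 ^ n := by
  rw [deg_eq, sum_w (fun _ => 1) (fun _ _ => 1) (fun _ _ => rfl)]; ring

lemma deg_zero (j : ℕ) (hj : lev j = 0) (z : ℤ) : (G.degree (false, j, z) : ℝ) = 3 := by
  rw [deg_eq, sum_zero (fun _ => 1) (fun _ _ => 1) (fun _ _ => rfl) j hj]; ring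

lemma deg_succ (j n : ℕ) (hj : lev j = n + 1) (z : ℤ) :
    (G.degree (false, j, z) : ℝ) = 5 * 2 ^ n + 2 := by
  rw [deg_eq, sum_succ (fun _ => 1) (fun _ _ => 1) (fun _ _ => rfl) j n hj]; ring

lemma deg_pos (x : V) : 0 < G.degree x := by
  obtain ⟨b, j, z⟩ := x
  have : (0 : ℝ) < G.degree (b, j, z) := by
    cases b
    · rcases h : lev j with _ | n
      · rw [deg_zero j h]; norm_num
      · rw [deg_succ j n h]; positivity
    · rw [deg_w]; positivity
  exact_mod_cast this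

def T (k : ℤ) (x : V) : V := (x.1, x.2.1, x.2.2 + k)

lemma T_adj (k : ℤ) (x y : V) : G.Adj (T k x) (T k y) ↔ G.Adj x y := by
  have : ∀ x y, E (T k x) (T k y) ↔ E x y := by
    intro x y
    simp only [E, T, add_left_inj, add_right_comm _ k]
  simp only [G, this]

lemma reach_level (z : ℤ) : ∀ n j, lev j = n → G.Reachable (false, j, z) (false, 0, z) := by
  intro n
  induction n with
  | zero =>
    intro j hj
    have : j = 0 := by simpa [L] using mem_L.2 hj
    rw [this]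
  | succ n ih =>
    intro j hj
    refine (SimpleGraph.Adj.reachable (v := (false, rep n, z)) (Or.inr ?_)).trans
      (ih _ (lev_rep n))
    exact ⟨rfl, Or.inl ⟨rfl, by simp [lev_rep, hj], rfl⟩⟩

lemma conn : G.Connected := by
  have h1 : ∀ x : V, G.Reachable x (false, 0, x.2.2) := by
    rintro ⟨b, j, z⟩
    cases b
    · exact reach_level z _ j rfl
    · refine (SimpleGraph.Adj.reachable (v := (false, rep j, z)) (Or.inl ?_)).trans
        (reach_level z _ _ rfl)
      exact ⟨rfl, Or.inr ⟨rfl, Or.inl ⟨lev_rep j, rfl⟩⟩⟩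
  have h2 : ∀ z : ℤ, G.Reachable (false, 0, z + 1) (false, 0, z) := by
    intro z
    refine (h1 (true, 1, z + 1)).symm.trans
      ((SimpleGraph.Adj.reachable (v := (false, rep 2, z)) (Or.inl ?_)).trans (h1 _))
    exact ⟨rfl, Or.inr ⟨rfl, Or.inr ⟨lev_rep 2, by simp [sig_one]⟩⟩⟩
  have h3 : ∀ z : ℤ, G.Reachable (false, 0, z) (false, 0, 0) := by
    intro z
    induction z using Int.induction_on with
    | zero => rfl
    | succ k ih => exact (h2 _).trans ih
    | pred k ih =>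
      have := h2 (-(k : ℤ) - 1)
      rw [sub_add_cancel] at this
      exact this.symm.trans ih
  exact ⟨fun x y => ((h1 x).trans (h3 _)).trans ((h1 y).trans (h3 _)).symm⟩

def height (x : V) : ℕ := if x.1 = true then x.2.1 else lev x.2.1

def D : Set V := {x | x.2.2 = psi (height x)}

lemma D_fund (x : V) : ∃! d, d ∈ D ∧ ∃ k, T k d = x := by
  obtain ⟨b, j, z⟩ := x
  refine ⟨(b, j, psi (height (b, j, z))), ⟨rfl, z - psi (height (b, j, z)), by simp [T]⟩, ?_⟩
  rintro ⟨b', j', z'⟩ ⟨h1, k, h2⟩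
  simp only [T, Prod.mk.injEq] at h2
  obtain ⟨rfl, rfl, -⟩ := h2
  exact Prod.ext rfl (Prod.ext rfl h1)

lemma D_conn : (G.induce D).Connected := by
  have hw : ∀ n, ((true, n, psi n) : V) ∈ D := fun n => rfl
  have h1 : ∀ n, (G.induce D).Reachable ⟨_, hw n⟩ ⟨_, hw 0⟩ := by
    intro n
    induction n with
    | zero => rfl
    | succ n ih =>
      have hm : ((false, rep (n + 1), psi (n + 1)) : V) ∈ D := by simp [D, height, lev_rep]
      have a1 : (G.induce D).Adj ⟨_, hw (n + 1)⟩ ⟨_, hm⟩ :=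
        Or.inl ⟨rfl, Or.inr ⟨rfl, Or.inl ⟨lev_rep _, rfl⟩⟩⟩
      have a2 : (G.induce D).Adj ⟨_, hw n⟩ ⟨_, hm⟩ :=
        Or.inl ⟨rfl, Or.inr ⟨rfl, Or.inr ⟨lev_rep _, by simp [sig]⟩⟩⟩
      exact a1.reachable.trans (a2.reachable.symm.trans ih)
  have h2 : ∀ x : D, (G.induce D).Reachable x ⟨_, hw 0⟩ := by
    rintro ⟨⟨b, j, z⟩, hx⟩
    cases b
    · have a1 : (G.induce D).Adj ⟨_, hw (lev j)⟩ ⟨_, hx⟩ :=
        Or.inl ⟨rfl, Or.inr ⟨rfl, Or.inl ⟨rfl, hx⟩⟩⟩
      exact a1.reachable.symm.trans (h1 _)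
    · have : z = psi j := hx
      subst this
      exact h1 j
  haveI : Nonempty D := ⟨⟨_, hw 0⟩⟩
  exact ⟨fun x y => (h2 x).trans (h2 y).symm⟩

lemma quotient_liouville (f : V → ℝ) (hinv : ∀ k x, f (T k x) = f x) (hf : IsHarmonic G f)
    (x y : V) : f x = f y := by
  have hz : ∀ b j z, f (b, j, z) = f (b, j, 0) := fun b j z => by
    have := hinv z (b, j, 0)
    simpa [T] using this
  let c : ℕ → ℝ := fun n => f (false, rep n, 0)
  have hc : ∀ j z, f (false, j, z) = c (lev j) := by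
    intro j z
    simp only [c]
    rw [hz, hf, hf (false, rep (lev j), 0), ← SimpleGraph.card_neighborFinset_eq_degree,
      ← SimpleGraph.card_neighborFinset_eq_degree, nbr_eq, nbr_eq]
    simp [nbr, lev_rep]
  have hb : ∀ n z, 3 * f (true, n, z) = c n + 2 * c (n + 1) := by
    intro n z
    rw [hf, sum_w f (fun n _ => c n) hc, deg_w]
    field_simp
    ring
  have hs : ∀ n, c (n + 1) = c n := by
    intro n
    induction n with
    | zero =>
      have := hf (false, rep 0, 0)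
      rw [sum_zero f (fun n _ => c n) hc _ (lev_rep 0), deg_zero _ (lev_rep 0), hc, lev_rep] at this
      have h2 := hb 0 0
      simp only [zero_add] at h2 ⊢
      linarith
    | succ n ih =>
      have := hf (false, rep (n + 1), 0)
      rw [sum_succ f (fun n _ => c n) hc _ n (lev_rep _), deg_succ _ n (lev_rep _), hc, lev_rep,
        eq_div_iff (by positivity)] at this
      have h2 := hb n (0 - sig n)
      have h3 := hb (n + 1) 0
      have h4 : (2 ^ (n + 2) + 2 / 3) * (c (n + 1 + 1) - c (n + 1)) = 0 := by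
        rw [← ih] at this h2
        rw [pow_succ, pow_succ] at this ⊢
        linarith
      rcases mul_eq_zero.1 h4 with h | h
      · exact absurd h (by positivity)
      · linarith
  have hc0 : ∀ n, c n = c 0 := fun n => by
    induction n with
    | zero => rfl
    | succ n ih => rw [hs, ih]
  have all : ∀ x, f x = c 0 := by
    rintro ⟨b, j, z⟩
    cases b
    · rw [hc, hc0]
    · have := hb j z
      rw [hc0 j, hc0 (j + 1)] at this
      linarith
  rw [all, all]

noncomputable def sg (n : ℕ) : ℝ := (-1) ^ sig n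

lemma sg_cases (n : ℕ) : sg n = 1 ∨ sg n = -1 := by
  rcases Int.even_or_odd (sig n) with h | h
  · exact Or.inl h.neg_one_zpow
  · exact Or.inr h.neg_one_zpow

noncomputable def a : ℕ → ℝ
  | 0 => 1
  | 1 => (8 / 3) / (2 + 2 * sg 0 / 3)
  | n + 2 => ((5 * 2 ^ n + 1) * a (n + 1) - (2 ^ n + sg n / 3) * a n) /
      (4 * 2 ^ n + 2 * sg (n + 1) / 3)

lemma den_pos (n : ℕ) : 4 * 2 ^ n - 2 / 3 ≤ 4 * (2 : ℝ) ^ n + 2 * sg (n + 1) / 3 := by
  rcases sg_cases (n + 1) with h | h <;> rw [h] <;> linarith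

lemma a_bound (n : ℕ) : |a n| ≤ Real.exp (6 - 6 / 2 ^ n) ∧
    2 ^ n * |a (n + 1) - a n| ≤ 3 * Real.exp (6 - 6 / 2 ^ n) := by
  induction n with
  | zero =>
    rcases sg_cases 0 with h | h <;> norm_num [a, h]
  | succ n ih =>
    obtain ⟨h1, h2⟩ := ih
    have hP : (1 : ℝ) ≤ 2 ^ n := one_le_pow₀ (by norm_num)
    set P : ℝ := 2 ^ n with hPd
    set e := Real.exp (6 - 6 / P) with he
    set e' := Real.exp (6 - 6 / 2 ^ (n + 1)) with he'
    have he0 : 0 < e := Real.exp_pos _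
    have hee : e * (1 + 3 / P) ≤ e' := by
      have : e' = e * Real.exp (3 / P) := by
        rw [he, he', ← Real.exp_add, pow_succ]
        congr 1
        field_simp; ring
      rw [this]
      exact mul_le_mul_of_nonneg_left (by linarith [Real.add_one_le_exp (3 / P)]) he0.le
    have h3 : |a (n + 1) - a n| ≤ 3 * e / P := by rw [le_div_iff₀ (by linarith)]; linarith
    have h4 : |a (n + 1)| ≤ e' := by
      have := abs_add_le (a (n + 1) - a n) (a n)
      rw [sub_add_cancel] at this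
      have e3 : e * (1 + 3 / P) = e + 3 * e / P := by ring
      linarith
    have hle : e ≤ e' := by
      have : 0 ≤ e * (3 / P) := by positivity
      linarith
    refine ⟨h4, ?_⟩
    have hd := den_pos n
    rw [← hPd] at hd
    have hd0 : 0 < 4 * P + 2 * sg (n + 1) / 3 := by linarith
    have e1 : a (n + 1 + 1) - a (n + 1) = (P * (a (n + 1) - a n) +
        ((1 - 2 * sg (n + 1) / 3) * a (n + 1) - sg n / 3 * a n)) / (4 * P + 2 * sg (n + 1) / 3) := by
      rw [a, ← hPd, eq_div_iff hd0.ne', sub_mul, div_mul_cancel₀ _ hd0.ne']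
      ring
    have h5 : |P * (a (n + 1) - a n) + ((1 - 2 * sg (n + 1) / 3) * a (n + 1) - sg n / 3 * a n)|
        ≤ 5 * e' := by
      have b1 := abs_le.1 h1
      have b2 := abs_le.1 h4
      have b3 : |P * (a (n + 1) - a n)| ≤ 3 * e := by
        rw [abs_mul, abs_of_pos (by linarith : 0 < P)]; exact h2
      have b4 := abs_le.1 b3
      rw [abs_le]
      rcases sg_cases n with s1 | s1 <;> rcases sg_cases (n + 1) with s2 | s2 <;>
        rw [s1, s2] <;> constructor <;> linarith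
    rw [e1, abs_div, abs_of_pos hd0, pow_succ, ← hPd, ← mul_div_assoc, div_le_iff₀ hd0]
    have he'0 : 0 < e' := by linarith
    nlinarith [mul_le_mul_of_nonneg_left h5 (by linarith : 0 ≤ P * 2),
      mul_le_mul_of_nonneg_left hd (by linarith : 0 ≤ 3 * e')]

noncomputable def F (x : V) : ℝ :=
  if x.1 = true then (-1) ^ x.2.2 * ((a x.2.1 + 2 * sg x.2.1 * a (x.2.1 + 1)) / 3)
  else (-1) ^ x.2.2 * a (lev x.2.1)

lemma F_harm : IsHarmonic G F := by
  have hc : ∀ j z, F (false, j, z) = (fun n z => (-1 : ℝ) ^ z * a n) (lev j) z := fun j z => by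
    simp [F]
  have hw : ∀ n z, F (true, n, z) = (-1) ^ z * ((a n + 2 * sg n * a (n + 1)) / 3) := fun n z => by
    simp [F]
  rintro ⟨b, j, z⟩
  cases b
  · rcases h : lev j with _ | n
    · rw [sum_zero F (fun n z => (-1 : ℝ) ^ z * a n) hc j h, deg_zero j h, hc, hw, h]
      rcases sg_cases 0 with s | s <;> simp only [a, zero_add, s] <;> ring
    · rw [sum_succ F (fun n z => (-1 : ℝ) ^ z * a n) hc j n h, deg_succ j n h, hc, hw, hw, h, eq_div_iff (by positivity)]
      have e1 : (-1 : ℝ) ^ (z - sig n) = (-1) ^ z * sg n := by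
        rw [zpow_sub₀ (by norm_num), ← sg]
        rcases sg_cases n with s | s <;> rw [s] <;> ring
      have hP : (1 : ℝ) ≤ 2 ^ n := one_le_pow₀ (by norm_num)
      have hd := den_pos n
      have e2 : (4 * 2 ^ n + 2 * sg (n + 1) / 3) * a (n + 2) =
          (5 * 2 ^ n + 1) * a (n + 1) - (2 ^ n + sg n / 3) * a n := by
        rw [a, mul_div_cancel₀ _ (by linarith)]
      have e3 : sg n * sg n = 1 := by rcases sg_cases n with s | s <;> rw [s] <;> norm_num
      simp only [e1]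
      linear_combination (-(-1 : ℝ) ^ z) * e2 - (2 / 3 * (-1 : ℝ) ^ z * a (n + 1)) * e3
  · rw [sum_w F (fun n z => (-1 : ℝ) ^ z * a n) hc, deg_w, hw, zpow_add₀ (by norm_num), ← sg]
    field_simp
    ring

lemma F_bdd (x : V) : |F x| ≤ Real.exp 6 := by
  have ha : ∀ n, |a n| ≤ Real.exp 6 := fun n =>
    (a_bound n).1.trans (Real.exp_le_exp.2 (sub_le_self _ (by positivity)))
  have hz : ∀ z : ℤ, |(-1 : ℝ) ^ z| = 1 := fun z => by simp [abs_zpow]
  unfold F
  split_ifs
  · rw [abs_mul, hz, one_mul]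
    have b1 := abs_le.1 (ha x.2.1)
    have b2 := abs_le.1 (ha (x.2.1 + 1))
    rw [abs_le]
    rcases sg_cases x.2.1 with s | s <;> rw [s] <;> constructor <;> linarith
  · rw [abs_mul, hz, one_mul]; exact ha _

lemma F_ne : F (false, 0, 0) ≠ F (false, 0, 1) := by
  have : lev 0 = 0 := by simp [lev]
  norm_num [F, this, a]

noncomputable def W (x : V) : ℝ :=
  if x.1 = true then 36 * (3 / 4) ^ x.2.1 + 1 else 36 * (3 / 4) ^ lev x.2.1
noncomputable def g (x : V) : ℝ := if x.1 = true then 1 else (3 / 4) ^ lev x.2.1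

lemma lyap (x : V) : (∑ y ∈ G.neighborFinset x, W y) / G.degree x + g x ≤ W x := by
  have hc : ∀ j z, W (false, j, z) = (fun n _ => 36 * (3 / 4 : ℝ) ^ n) (lev j) z := fun j z => by
    simp [W]
  have hw : ∀ n z, W (true, n, z) = 36 * (3 / 4) ^ n + 1 := fun n z => by simp [W]
  obtain ⟨b, j, z⟩ := x
  cases b
  · rcases h : lev j with _ | n
    · rw [sum_zero W (fun n _ => 36 * (3 / 4 : ℝ) ^ n) hc j h, deg_zero j h, hc, hw, h]
      simp only [g, h]
      norm_num
    · rw [sum_succ W (fun n _ => 36 * (3 / 4 : ℝ) ^ n) hc j n h, deg_succ j n h, hc, hw, hw, h, ← le_sub_iff_add_le,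
        div_le_iff₀ (by positivity)]
      simp only [g, h, Bool.false_eq_true, if_false, pow_succ]
      have hP : (1 : ℝ) ≤ 2 ^ n := one_le_pow₀ (by norm_num)
      have hR : (0 : ℝ) < (3 / 4) ^ n := by positivity
      have hPR : (1 : ℝ) ≤ 2 ^ n * (3 / 4) ^ n := by
        rw [← mul_pow]; exact one_le_pow₀ (by norm_num)
      nlinarith
  · rw [sum_w W (fun n _ => 36 * (3 / 4 : ℝ) ^ n) hc, deg_w, hw]
    simp only [g, if_true, add_le_add_iff_right]
    rw [div_le_iff₀ (by positivity), pow_succ, pow_succ]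
    have : (0 : ℝ) < 2 ^ j * (3 / 4) ^ j := by positivity
    nlinarith

lemma ivt (u : ℕ → ℕ) (t0 n : ℕ) (h : ∀ t, t0 ≤ t → u (t + 1) ≤ u t + 1) (h0 : u t0 ≤ n) :
    ∀ s, n ≤ u (t0 + s) → ∃ t, t0 ≤ t ∧ u t = n := by
  intro s
  induction s with
  | zero => intro hs; exact ⟨t0, le_rfl, le_antisymm h0 hs⟩
  | succ s ih =>
    intro hs
    by_cases h1 : n ≤ u (t0 + s)
    · exact ih h1
    · have := h (t0 + s) (by omega)
      exact ⟨t0 + (s + 1), by omega, by rw [← add_assoc] at hs ⊢; omega⟩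

theorem visits (v : V) :
    ∀ᵐ ω ∂pathLaw (srw G) v, ∀ k : ℤ, ∃ᶠ t in atTop, ω t ∈ T k '' D := by
  have hW0 : ∀ x, 0 ≤ W x := fun x => by unfold W; split_ifs <;> positivity
  have hg0 : ∀ x, 0 ≤ g x := fun x => by unfold g; split_ifs <;> positivity
  have h1 := RW.ae_summable (srw G) (fun x => ENNReal.ofReal (W x)) (fun x => ENNReal.ofReal (g x))
    (by
      intro u
      rw [RW.srw_sum G u (deg_pos u), ← ENNReal.ofReal_sum_of_nonneg (fun y _ => hW0 y),
        ← ENNReal.ofReal_natCast, ← ENNReal.ofReal_div_of_pos (by exact_mod_cast deg_pos u),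
        ← ENNReal.ofReal_add (div_nonneg (sum_nonneg fun y _ => hW0 y) (Nat.cast_nonneg _)) (hg0 u)]
      exact ENNReal.ofReal_le_ofReal (lyap u)) v ENNReal.ofReal_ne_top
  have h2 := RW.ae_step (srw G) G.Adj (by
    intro u w hw
    by_contra hadj
    apply hw
    have := RW.srw_sum G u (deg_pos u) (fun y => if y = w then 1 else 0)
    rw [tsum_eq_single w (fun y hy => by simp [hy]), if_pos rfl, mul_one, Finset.sum_eq_zero,
      ENNReal.zero_div] at this
    · exact this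
    · intro y hy
      rw [if_neg]
      rintro rfl
      exact hadj ((G.mem_neighborFinset _ _).1 hy)) v
  filter_upwards [h1, h2] with ω hω hadj k
  have hsmall : ∀ m : ℕ, ∀ᶠ t in atTop, (ω t).1 = false ∧ m ≤ lev (ω t).2.1 := by
    intro m
    filter_upwards [hω.eventually (gt_mem_nhds (ENNReal.ofReal_pos.2
      (by positivity : (0 : ℝ) < (3 / 4) ^ m)))] with t ht
    rw [ENNReal.ofReal_lt_ofReal_iff (by positivity)] at ht
    unfold g at ht
    split_ifs at ht with h
    · exact absurd (pow_le_one₀ (by norm_num) (by norm_num)) (not_le.2 ht)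
    · exact ⟨by simpa using h,
        ((pow_lt_pow_iff_right_of_lt_one₀ (by norm_num) (by norm_num)).1 ht).le⟩
  obtain ⟨t0, ht0⟩ := eventually_atTop.1 (hsmall 0)
  have hstep : ∀ t, t0 ≤ t → lev (ω (t + 1)).2.1 ≤ lev (ω t).2.1 + 1 ∧
      (ω (t + 1)).2.2 = (ω t).2.2 := by
    intro t ht
    have b1 := (ht0 t ht).1
    have b2 := (ht0 (t + 1) (by omega)).1
    rcases hadj t with ⟨-, h | h⟩ | ⟨-, h | h⟩
    · exact ⟨h.2.1.le, h.2.2⟩
    · rw [b1] at h; exact absurd h.1 (by simp)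
    · exact ⟨by omega, h.2.2.symm⟩
    · rw [b2] at h; exact absurd h.1 (by simp)
  have hz : ∀ t, t0 ≤ t → (ω t).2.2 = (ω t0).2.2 := by
    intro t ht
    induction t, ht using Nat.le_induction with
    | base => rfl
    | succ t ht ih => rw [(hstep t ht).2, ih]
  rw [frequently_atTop]
  intro N
  obtain ⟨n, hn1, hn2⟩ := psi_often ((ω t0).2.2 - k) (lev (ω (max N t0)).2.1)
  obtain ⟨t1, ht1⟩ := eventually_atTop.1 (hsmall n)
  obtain ⟨t, h3, h4⟩ := ivt (fun t => lev (ω t).2.1) (max N t0) n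
    (fun t ht => (hstep t (le_of_max_le_right ht)).1) hn1 t1 (ht1 _ (by omega)).2
  have h5 := le_of_max_le_right h3
  refine ⟨t, le_of_max_le_left h3, T (-k) (ω t), ?_, by simp [T]⟩
  have h4' : lev (ω t).2.1 = n := h4
  simp only [D, T, height, Set.mem_ofPred_eq, (ht0 t h5).1, Bool.false_eq_true, if_false, h4', hn2,
    hz t h5]
  ring

end Pool.Agent.H43.ZCover
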